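import Pool.Agent.Mg.F0854a0.G5d1e19
import Mathlib

section

/-! Functions without poles are constant. -/

namespace Pool.Agent.AdmG

open Pool.Agent.Adm
open scoped OnePoint

variable {k G : Type} [Field k] [Group G]

theorem Chart.of_mono {c : Cover k G} {a : OnePoint k} {e : ℕ} {ζ : k} {g : G}
    (h : c.Mono a e ζ g) : ∃ ch : Chart c a, ch.e = e ∧ ch.ζ = ζ ∧ c.ι ch.σ = g := by
  obtain ⟨he, hζ, j, hC, hX, σ, hg, hσ⟩ := h
  exact ⟨⟨e, ζ, he, hζ, j, hC, hX, σ, fun x => HahnSeries.ext (funext (hσ x))⟩, rfl, rfl, hg⟩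

theorem Chart.mono {c : Cover k G} {a : OnePoint k} (ch : Chart c a) :
    c.Mono a ch.e ch.ζ (c.ι ch.σ) := by
  exact ⟨ch.he, ch.hζ, ch.j, ch.hC, ch.hX, ch.σ, rfl, fun x n => by rw [ch.hσ, scL_coeff]⟩

theorem Chart.alg {c : Cover k G} {a : OnePoint k} (ch : Chart c a)
    {J : OnePoint k → RatFunc k →+* LaurentSeries k} (hJ : IsCharts J) (r : RatFunc k) :
    ch.j (algebraMap (RatFunc k) c.L r) = powL ch.e ch.he (J a r) := by
  refine DFunLike.congr_fun (ratFunc_hom_ext (ch.j.comp (algebraMap (RatFunc k) c.L))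
    ((powL ch.e ch.he).comp (J a)) (fun x => ?_) ?_) r
  · rw [RingHom.comp_apply, RingHom.comp_apply, ch.hC, (hJ a).1, powL_C]
  · rw [RingHom.comp_apply, RingHom.comp_apply, ch.hX, (hJ a).2, powL_expand, mul_one]

theorem reg_powL_iff (e : ℕ) (he : 0 < e) (x : LaurentSeries k) : Reg (powL e he x) ↔ Reg x := by
  have h0 : (0 : ℤ) < e := by exact_mod_cast he
  refine ⟨fun h n hn => ?_, fun h n hn => ?_⟩
  · rw [← powL_coeff_mul e he x n]
    exact h _ (mul_neg_of_pos_of_neg h0 hn)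
  · by_cases hd : (e : ℤ) ∣ n
    · obtain ⟨m, rfl⟩ := hd
      rw [powL_coeff_mul]
      exact h m (neg_of_mul_neg_right hn h0.le)
    · exact powL_coeff_of_not_dvd e he x n hd

theorem reg_C (x : k) : Reg (HahnSeries.C x : LaurentSeries k) := by
  exact reg_C_VF4 x

theorem rat_const_Bd1 [IsAlgClosed k] {J : OnePoint k → RatFunc k →+* LaurentSeries k}
    (hJ : IsCharts J) (r : RatFunc k) (h : ∀ a, Reg (J a r)) : ∃ x : k, RatFunc.C x = r := by
  obtain ⟨P, rfl⟩ := hJ.exists_poly r fun a => h a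
  refine ⟨P.coeff 0, ?_⟩
  have e : P = Polynomial.C (P.coeff 0) := by
    ext n
    rw [Polynomial.coeff_C]
    split_ifs with hn
    · rw [hn]
    · have := h ∞ (-(n : ℤ)) (by omega)
      rw [hJ.coeff_infty, if_pos (by omega)] at this
      simpa using this
  conv_rhs => rw [e]
  exact (RatFunc.algebraMap_C _).symm

theorem const_of_reg [IsAlgClosed k] (c : Cover k G) (ch : ∀ a, Chart c a) (w : c.L)
    (h : ∀ a (σ : c.L ≃ₐ[RatFunc k] c.L), Reg ((ch a).j (σ w))) :
    ∃ x : k, w = algebraMap (RatFunc k) c.L (RatFunc.C x) := by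
  obtain ⟨J, hJ⟩ := exists_isCharts k
  let S : Subring c.L :=
    { carrier := {x | ∀ a, Reg ((ch a).j x)}
      mul_mem' := fun hx hy a => by rw [map_mul]; exact (hx a).mul (hy a)
      one_mem' := fun a => by rw [map_one]; exact reg_C 1
      add_mem' := fun hx hy a => by rw [map_add]; exact (hx a).add (hy a)
      zero_mem' := fun a => by rw [map_zero]; exact reg_zero_VF4
      neg_mem' := fun {x} hx a => by
        rw [map_neg, ← zero_sub]
        exact reg_zero_VF4.sub (hx a) }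
  have hp : MulSemiringAction.charpoly (c.L ≃ₐ[RatFunc k] c.L) w ∈
      Polynomial.lifts ((algebraMap (RatFunc k) c.L).comp RatFunc.C) := by
    rw [Polynomial.lifts_iff_coeff_lifts]
    intro n
    obtain ⟨r, hr⟩ := (IsGalois.mem_range_algebraMap_iff_fixed (F := RatFunc k) _).2 fun σ =>
      MulSemiringAction.smul_coeff_charpoly w n σ
    have e : MulSemiringAction.charpoly (c.L ≃ₐ[RatFunc k] c.L) w = Polynomial.map S.subtype
        (∏ σ : c.L ≃ₐ[RatFunc k] c.L, (Polynomial.X - Polynomial.C (⟨σ w, fun a => h a σ⟩ : S))) := by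
      rw [MulSemiringAction.charpoly_eq, Polynomial.map_prod]
      refine Finset.prod_congr rfl fun σ _ => ?_
      rw [Polynomial.map_sub, Polynomial.map_X, Polynomial.map_C]
      rfl
    have hS : algebraMap (RatFunc k) c.L r ∈ S := by
      rw [hr, e, Polynomial.coeff_map]
      exact Subtype.property _
    obtain ⟨x, rfl⟩ := rat_const_Bd1 hJ r fun a =>
      (reg_powL_iff _ (ch a).he _).1 ((ch a).alg hJ r ▸ hS a)
    exact ⟨x, hr⟩
  obtain ⟨P, hP⟩ := (Polynomial.mem_lifts _).1 hp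
  obtain ⟨x, hx⟩ := mem_range_TW ((algebraMap (RatFunc k) c.L).comp RatFunc.C) w P (by
    rintro rfl
    rw [Polynomial.map_zero] at hP
    exact (MulSemiringAction.monic_charpoly _ w).ne_zero hP.symm) (by
    rw [← Polynomial.eval_map, hP, MulSemiringAction.eval_charpoly])
  exact ⟨x, hx.symm⟩

end Pool.Agent.AdmG

end

section

/-! Local form of an Artin-Schreier generator. -/

namespace Pool.Agent.AdmG

open Pool.Agent.Adm
open scoped OnePoint
open Polynomial

variable {k G F : Type} [Field k] [Group G] [Field F] [Fintype F]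

theorem Chart.local_form {c : Cover k G} {a : OnePoint k} (ch : Chart c a) (θ : F →+* k)
    (ψ : G →* Aff F) (y w : c.L) (hy0 : y ≠ 0)
    (hy : ∀ σ : c.L ≃ₐ[RatFunc k] c.L,
      σ y = algebraMap (RatFunc k) c.L (RatFunc.C (θ (ψ (c.ι σ)).u)) * y)
    (hw : ∀ σ : c.L ≃ₐ[RatFunc k] c.L,
      σ w = algebraMap (RatFunc k) c.L (RatFunc.C (θ (ψ (c.ι σ)).u)) * w +
        algebraMap (RatFunc k) c.L (RatFunc.C (θ (ψ (c.ι σ)).b))) :
    ∃ (β : k) (V : LaurentSeries k),
      ch.j w = HahnSeries.C β + powL ch.e ch.he V * ch.j y := by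
  have hj0 : ch.j y ≠ 0 := (_root_.map_ne_zero ch.j).2 hy0
  have hu0 : θ ((ψ (c.ι ch.σ)).u : F) ≠ 0 := (_root_.map_ne_zero θ).2 (Units.ne_zero _)
  obtain ⟨β, hβ⟩ : ∃ β : k, θ ((ψ (c.ι ch.σ)).u : F) * β + θ (ψ (c.ι ch.σ)).b = β := by
    by_cases hu : (ψ (c.ι ch.σ)).u = 1
    · have : NeZero ch.e := ⟨ch.he.ne'⟩
      have he : (ch.e : F) ≠ 0 := by
        intro h
        have h1 : (ch.e : k) ≠ 0 := ch.hζ.neZero'.out
        apply h1
        rw [← map_natCast θ, h, map_zero]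
      have h1 : ψ (c.ι ch.σ) = 1 :=
        Aff.eq_one_of_pow he (by rw [← map_pow, ch.mono.pow_eq_one, map_one]) hu
      exact ⟨0, by simp [h1]⟩
    · have h1 : θ ((ψ (c.ι ch.σ)).u : F) - 1 ≠ 0 := by
        have := (_root_.map_ne_zero θ).2 (Aff.u_sub_one_ne_AffL hu)
        rwa [map_sub, map_one] at this
      refine ⟨-(θ (ψ (c.ι ch.σ)).b) / (θ ((ψ (c.ι ch.σ)).u : F) - 1), ?_⟩
      field_simp
      ring
  have h1 : scL ch.ζ (ch.hζ.ne_zero ch.he.ne') (ch.j y) =
      HahnSeries.C (θ ((ψ (c.ι ch.σ)).u : F)) * ch.j y := by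
    rw [← ch.hσ, hy, map_mul, ch.hC]
  have h2 : scL ch.ζ (ch.hζ.ne_zero ch.he.ne') (ch.j w) =
      HahnSeries.C (θ ((ψ (c.ι ch.σ)).u : F)) * ch.j w + HahnSeries.C (θ (ψ (c.ι ch.σ)).b) := by
    rw [← ch.hσ, hw, map_add, map_mul, ch.hC, ch.hC]
  have h3 : (HahnSeries.C β : LaurentSeries k) =
      HahnSeries.C (θ ((ψ (c.ι ch.σ)).u : F)) * HahnSeries.C β +
        HahnSeries.C (θ (ψ (c.ι ch.σ)).b) := by
    rw [← map_mul, ← map_add, hβ]
  have hC0 : (HahnSeries.C (θ ((ψ (c.ι ch.σ)).u : F)) : LaurentSeries k) ≠ 0 :=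
    (_root_.map_ne_zero _).2 hu0
  obtain ⟨V, hV⟩ := exists_powL_of_scL ch.e ch.he ch.ζ ch.hζ
    ((ch.j w - HahnSeries.C β) / ch.j y) (by
      rw [map_div₀, map_sub, h1, h2, scL_C, div_eq_div_iff (mul_ne_zero hC0 hj0) hj0]
      linear_combination (-(ch.j y)) * h3)
  refine ⟨β, V, ?_⟩
  rw [hV, div_mul_cancel₀ _ hj0]
  ring

theorem reg_of_pow {x : LaurentSeries k} {m : ℕ} (hm : 0 < m) (h : Reg (x ^ m)) : Reg x := by
  apply reg_of_order_VF4
  have h1 := h.order_nonneg_VF4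
  rw [HahnSeries.order_pow, nsmul_eq_mul] at h1
  have h2 : (0 : ℤ) < m := by exact_mod_cast hm
  exact nonneg_of_mul_nonneg_right h1 h2

theorem reg_of_pow_sub {x : LaurentSeries k} {q : ℕ} (hq : 1 < q) (h : Reg (x ^ q - x)) :
    Reg x := by
  apply reg_of_order_VF4
  by_contra h0
  rw [not_le] at h0
  have hx : x ≠ 0 := by
    rintro rfl
    simp at h0
  have h2 : (1 : ℤ) < q := by exact_mod_cast hq
  have h3 : (x ^ q).order = q * x.order := by rw [HahnSeries.order_pow, nsmul_eq_mul]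
  have h4 : (q : ℤ) * x.order < x.order := by nlinarith
  have h5 := h (q * x.order) (by linarith)
  rw [HahnSeries.coeff_sub, HahnSeries.coeff_eq_zero_of_lt_order h4, sub_zero, ← h3,
    HahnSeries.coeff_order_eq_zero] at h5
  exact pow_ne_zero _ hx h5

theorem exists_finset_reg (c : Cover k G) (ch : ∀ a, Chart c a) (θ : F →+* k) (ψ : G →* Aff F)
    (f : k[X]) (hf : f ≠ 0) (y w : c.L)
    (hm : y ^ (Fintype.card F - 1) = algebraMap (RatFunc k) c.L (algebraMap k[X] (RatFunc k) f))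
    (hy : ∀ σ : c.L ≃ₐ[RatFunc k] c.L,
      σ y = algebraMap (RatFunc k) c.L (RatFunc.C (θ (ψ (c.ι σ)).u)) * y)
    (hw : ∀ σ : c.L ≃ₐ[RatFunc k] c.L,
      σ w = algebraMap (RatFunc k) c.L (RatFunc.C (θ (ψ (c.ι σ)).u)) * w +
        algebraMap (RatFunc k) c.L (RatFunc.C (θ (ψ (c.ι σ)).b))) :
    (∀ a : k, Reg ((ch a).j y)) ∧ ∃ S : Finset k, ∀ a : k, a ∉ S → Reg ((ch a).j w) := by
  obtain ⟨J, hJ⟩ := exists_isCharts k
  have hq : 1 < Fintype.card F := Fintype.one_lt_card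
  have hy0 : y ≠ 0 := by
    rintro rfl
    rw [zero_pow (by omega), eq_comm, map_eq_zero, map_eq_zero_iff _
      (IsFractionRing.injective k[X] (RatFunc k))] at hm
    exact hf hm
  have hreg : ∀ a : k, Reg ((ch a).j y) := by
    intro a
    apply reg_of_pow (m := Fintype.card F - 1) (by omega)
    rw [← map_pow, hm, (ch a).alg hJ, reg_powL_iff]
    exact hJ.reg_poly a f
  refine ⟨hreg, ?_⟩
  let Θ : F →+* c.L := (algebraMap (RatFunc k) c.L).comp ((RatFunc.C : k →+* RatFunc k).comp θ)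
  have hΘ : ∀ x : F, algebraMap (RatFunc k) c.L (RatFunc.C (θ x)) = Θ x := fun _ => rfl
  have hfix : ∀ σ : c.L ≃ₐ[RatFunc k] c.L,
      σ ((w ^ Fintype.card F - w) / y) = (w ^ Fintype.card F - w) / y := by
    intro σ
    have hu0 : Θ ((ψ (c.ι σ)).u : F) ≠ 0 := (_root_.map_ne_zero Θ).2 (Units.ne_zero _)
    rw [map_div₀, map_sub, map_pow, hy, hw, hΘ, hΘ, add_pow_card_of_hom Θ, mul_pow, ← map_pow,
      ← map_pow, FiniteField.pow_card, FiniteField.pow_card,
      div_eq_div_iff (mul_ne_zero hu0 hy0) hy0]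
    ring
  obtain ⟨h, hh⟩ := (IsGalois.mem_range_algebraMap_iff_fixed _).2 hfix
  obtain ⟨S, hS⟩ := hJ.exists_finset h
  refine ⟨S, fun a ha => reg_of_pow_sub hq ?_⟩
  have h1 : w ^ Fintype.card F - w = algebraMap (RatFunc k) c.L h * y := by
    rw [hh, div_mul_cancel₀ _ hy0]
  rw [← map_pow, ← map_sub, h1, map_mul, (ch a).alg hJ]
  exact ((reg_powL_iff _ _ _).2 (hS a ha)).mul (hreg a)

end Pool.Agent.AdmG

end

section

/-! Removing poles from an Artin-Schreier generator. -/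

namespace Pool.Agent.AdmG

open Pool.Agent.Adm
open scoped OnePoint
open Polynomial

variable {k G F : Type} [Field k] [Group G] [Field F] [Fintype F]

theorem reg_sum_Bd3 {ι : Type} (S : Finset ι) (x : ι → LaurentSeries k) (h : ∀ i ∈ S, Reg (x i)) :
    Reg (∑ i ∈ S, x i) :=
  Finset.sum_induction x Reg (fun _ _ => Reg.add) reg_zero_VF4 h

theorem ne_zero_Bd3 (c : Cover k G) (m : ℕ) (hm0 : 0 < m) (f : k[X]) (hf : f ≠ 0) (y : c.L)
    (hm : y ^ m = algebraMap (RatFunc k) c.L (algebraMap k[X] (RatFunc k) f)) : y ≠ 0 := by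
  rintro rfl
  rw [zero_pow hm0.ne'] at hm
  exact (_root_.map_ne_zero _).2 (RatFunc.algebraMap_ne_zero hf) hm.symm

theorem exists_normal (c : Cover k G) (ch : ∀ a, Chart c a) (θ : F →+* k) (ψ : G →* Aff F)
    (f : k[X]) (hf : f ≠ 0) (y w : c.L)
    (hm : y ^ (Fintype.card F - 1) = algebraMap (RatFunc k) c.L (algebraMap k[X] (RatFunc k) f))
    (hy : ∀ σ : c.L ≃ₐ[RatFunc k] c.L,
      σ y = algebraMap (RatFunc k) c.L (RatFunc.C (θ (ψ (c.ι σ)).u)) * y)
    (hw : ∀ σ : c.L ≃ₐ[RatFunc k] c.L,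
      σ w = algebraMap (RatFunc k) c.L (RatFunc.C (θ (ψ (c.ι σ)).u)) * w +
        algebraMap (RatFunc k) c.L (RatFunc.C (θ (ψ (c.ι σ)).b))) :
    ∃ (r : RatFunc k) (β : k) (V : LaurentSeries k),
      (∀ a : k, Reg ((ch a).j (w - algebraMap (RatFunc k) c.L r * y))) ∧
      (ch ∞).j (w - algebraMap (RatFunc k) c.L r * y) =
        HahnSeries.C β + powL (ch ∞).e (ch ∞).he V * (ch ∞).j y ∧
      ∀ n ≤ 0, V.coeff n = 0 := by
  classical
  have hy0 : y ≠ 0 := ne_zero_Bd3 c _ (Nat.sub_pos_of_lt Fintype.one_lt_card) f hf y hm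
  obtain ⟨J, hJ⟩ := exists_isCharts k
  obtain ⟨hyr, S, hS⟩ := exists_finset_reg c ch θ ψ f hf y w hm hy hw
  choose β V hV using fun a : OnePoint k => (ch a).local_form θ ψ y w hy0 hy hw
  choose r hr hr' using fun a : k => hJ.exists_polar a (V a)
  obtain ⟨P, hP⟩ := hJ.exists_polar_infty (V ∞ - J ∞ (∑ a ∈ S, r a))
  have key : ∀ (a : OnePoint k) (s : RatFunc k), (ch a).j (w - algebraMap (RatFunc k) c.L s * y) =
      HahnSeries.C (β a) + powL (ch a).e (ch a).he (V a - J a s) * (ch a).j y := by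
    intro a s
    rw [map_sub, map_mul, (ch a).alg hJ, hV a, map_sub]
    ring
  refine ⟨∑ a ∈ S, r a + algebraMap k[X] (RatFunc k) P, β ∞, _, fun a => ?_, key ∞ _, ?_⟩
  · by_cases ha : a ∈ S
    · rw [key]
      refine (reg_C _).add (Reg.mul ((reg_powL_iff _ _ _).2 ?_) (hyr a))
      rw [← Finset.add_sum_erase S r ha, map_add, map_add, map_sum, ← sub_sub, ← sub_sub]
      refine ((hr a).sub (reg_sum_Bd3 _ _ fun b hb => hr' b a ?_)).sub (hJ.reg_poly a P)
      exact (Finset.ne_of_mem_erase hb).symm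
    · rw [map_sub, map_mul, (ch a).alg hJ]
      refine (hS a ha).sub (Reg.mul ((reg_powL_iff _ _ _).2 ?_) (hyr a))
      rw [map_add, map_sum]
      refine (reg_sum_Bd3 _ _ fun b hb => hr' b a ?_).add (hJ.reg_poly a P)
      rintro rfl
      exact ha hb
  · rw [map_add, ← sub_sub]
    exact hP

theorem reg_infty (c : Cover k G) (ch : Chart c ∞) (m r : ℕ) (hm0 : 0 < m) (f : k[X])
    (hf : f ≠ 0) (hd : f.natDegree ≤ r * m) (y : c.L)
    (hm : y ^ m = algebraMap (RatFunc k) c.L (algebraMap k[X] (RatFunc k) f))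
    (V : LaurentSeries k) (hV : ∀ n ≤ (r : ℤ), V.coeff n = 0) :
    Reg (powL ch.e ch.he V * ch.j y) := by
  have hy0 : ch.j y ≠ 0 := (_root_.map_ne_zero _).2 (ne_zero_Bd3 c m hm0 f hf y hm)
  by_cases h0 : powL ch.e ch.he V = 0
  · rw [h0, zero_mul]
    exact reg_zero_VF4
  have he : (0 : ℤ) < ch.e := by exact_mod_cast ch.he
  have h1 : ch.j y ^ m = f.eval₂ HahnSeries.C (expand (∞ : OnePoint k) ch.e) := by
    rw [← map_pow, hm]
    exact hom_algebraMap (ch.j.comp (algebraMap (RatFunc k) c.L)) HahnSeries.C _ ch.hC ch.hX f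
  have h2 := order_eval₂_expand_infty ch.e ch.he f hf
  rw [← h1, HahnSeries.order_pow, nsmul_eq_mul] at h2
  have h3 : -(ch.e * r : ℤ) ≤ (ch.j y).order := by
    have h4 : (f.natDegree : ℤ) ≤ r * m := by exact_mod_cast hd
    have h5 : (0 : ℤ) < m := by exact_mod_cast hm0
    refine le_of_mul_le_mul_left ?_ h5
    rw [h2]
    nlinarith
  have h6 : (ch.e * r : ℤ) ≤ (powL ch.e ch.he V).order := by
    have h7 : (powL ch.e ch.he V).coeff (powL ch.e ch.he V).order ≠ 0 :=
      HahnSeries.coeff_order_eq_zero.not.2 h0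
    by_cases hdv : (ch.e : ℤ) ∣ (powL ch.e ch.he V).order
    · obtain ⟨n, hn⟩ := hdv
      rw [hn, powL_coeff_mul] at h7
      rw [hn]
      refine mul_le_mul_of_nonneg_left ?_ he.le
      by_contra h8
      exact h7 (hV n (not_le.1 h8).le)
    · exact absurd (powL_coeff_of_not_dvd _ _ _ _ hdv) h7
  apply reg_of_order_VF4
  rw [HahnSeries.order_mul h0 hy0]
  omega

end Pool.Agent.AdmG

end

section

/-! A linear relation between cocycles. -/

namespace Pool.Agent.AdmG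

open Pool.Agent.Adm
open scoped OnePoint
open Polynomial

theorem reg_sum_Bd4 {k ι : Type} [Field k] (s : Finset ι) (f : ι → LaurentSeries k)
    (h : ∀ i ∈ s, Reg (f i)) : Reg (∑ i ∈ s, f i) :=
  Finset.sum_induction f Reg (fun _ _ => Reg.add) reg_zero_VF4 h

theorem exists_ker_Bd4 {k : Type} [Field k] (r : ℕ) (V : Fin (r + 1) → LaurentSeries k)
    (hV : ∀ i, ∀ n ≤ 0, (V i).coeff n = 0) : ∃ l : Fin (r + 1) → k, l ≠ 0 ∧
      ∀ n ≤ (r : ℤ), (∑ i, HahnSeries.C (l i) * V i : LaurentSeries k).coeff n = 0 := by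
  let M : Matrix (Fin r) (Fin (r + 1)) k := fun t i => (V i).coeff ((t : ℕ) + 1)
  obtain ⟨l, h1, h2⟩ := (Submodule.ne_bot_iff _).1
    (LinearMap.ker_ne_bot_of_finrank_lt (f := M.mulVecLin) (by simp))
  refine ⟨l, h2, fun n hn => ?_⟩
  simp only [HahnSeries.coeff_sum, HahnSeries.C_mul_eq_smul, HahnSeries.coeff_smul, smul_eq_mul]
  rcases le_or_gt n 0 with h | h
  · exact Finset.sum_eq_zero fun i _ => by rw [hV i n h, mul_zero]
  · have h3 := congrFun (LinearMap.mem_ker.1 h1) ⟨(n - 1).toNat, by omega⟩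
    have h4 : (((n - 1).toNat : ℕ) : ℤ) + 1 = n := by omega
    simpa only [Matrix.mulVecLin_apply, Matrix.mulVec, dotProduct, M, h4, mul_comm,
      Pi.zero_apply] using h3

variable {k G F : Type} [Field k] [IsAlgClosed k] [Group G] [Field F] [Fintype F]

omit [IsAlgClosed k] in
theorem exists_poly_Bd4 (c : Cover k G) (θ : F →+* k) {ι : Type} [Fintype ι] (a : ι → k)
    (ha : Function.Injective a) (S : Set (OnePoint k)) (hT : c.Tame S)
    (hS : ∀ x : k, (x : OnePoint k) ∈ S → x ∈ Set.range a) (χ : G →* Fˣ) :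
    ∃ f : k[X], f ≠ 0 ∧ f.natDegree ≤ Fintype.card ι * (Fintype.card F - 1) ∧
      ∀ x : k, ∃ e ζ g, c.Mono (x : OnePoint k) e ζ g ∧
        Lab (Fintype.card F - 1) e ζ (θ (χ g)) (f.rootMultiplicity x) := by
  classical
  choose e ζ g hm hg using hT
  have hm0 : 0 < Fintype.card F - 1 := Nat.sub_pos_of_lt Fintype.one_lt_card
  choose n hn hl using fun i => exists_lab (c := θ (χ (g (a i)))) hm0 (hm (a i)).1 (hm (a i)).2.1
    (by rw [← map_pow, ← Units.val_pow_eq_pow_val, ← map_pow, (hm (a i)).pow_eq_one, map_one,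
      Units.val_one, map_one])
    (by rw [← map_pow, FiniteField.pow_card_sub_one_eq_one _ (Units.ne_zero _), map_one])
  obtain ⟨h1, h2, h3, h4⟩ := rootMultiplicity_prod_X_sub_C a ha n
  refine ⟨_, h4.ne_zero, ?_, fun x => ⟨_, _, _, hm x, ?_⟩⟩
  · rw [h3]
    simpa using Finset.sum_le_card_nsmul Finset.univ n _ fun i _ => (hn i).le
  · by_cases hx : x ∈ Set.range a
    · obtain ⟨i, rfl⟩ := hx
      rw [h1]
      exact hl i
    · rw [h2 x hx, hg x fun h => hx (hS x h), map_one, Units.val_one, map_one]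
      exact lab_one _ _ _

theorem exists_relation (c : Cover k G) (θ : F →+* k) {ι : Type} [Fintype ι] (a : ι → k)
    (ha : Function.Injective a) (S : Set (OnePoint k)) (hT : c.Tame S)
    (hS : ∀ x : k, (x : OnePoint k) ∈ S → x ∈ Set.range a) (χ : G →* Fˣ)
    (ψ : Fin (Fintype.card ι + 1) → G →* Aff F) (hψ : ∀ i, Aff.lin.comp (ψ i) = χ) :
    ∃ l : Fin (Fintype.card ι + 1) → k, l ≠ 0 ∧ ∃ z : k, ∀ σ : c.L ≃ₐ[RatFunc k] c.L,
      ∑ i, l i * θ (ψ i (c.ι σ)).b = z * (1 - θ (χ (c.ι σ))) := by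
  have hu : ∀ i g, (ψ i g).u = χ g := fun i g => DFunLike.congr_fun (hψ i) g
  have hm0 : 0 < Fintype.card F - 1 := Nat.sub_pos_of_lt Fintype.one_lt_card
  have hch : ∀ x, Nonempty (Chart c x) := fun x => by
    obtain ⟨e, ζ, g, h, -⟩ := hT x
    exact ⟨(Chart.of_mono h).choose⟩
  let ch : ∀ x, Chart c x := fun x => (hch x).some
  obtain ⟨f, hf, hd, hl⟩ := exists_poly_Bd4 c θ a ha S hT hS χ
  choose y w hy1 hy2 hw using fun i =>
    c.exists_norm_gens θ (ψ i) f hf (by simpa only [hu] using hl)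
  choose r β V h1 h2 h3 using fun i => exists_normal c ch θ (ψ i) f hf (y 0) (w i) (hy1 0)
    (by simpa only [hu] using hy2 0) (hw i)
  obtain ⟨l, hl0, hl1⟩ := exists_ker_Bd4 _ V h3
  refine ⟨l, hl0, ?_⟩
  set W : c.L := ∑ i, algebraMap (RatFunc k) c.L (RatFunc.C (l i)) *
    (w i - algebraMap (RatFunc k) c.L (r i) * y 0) with hW
  have hσ : ∀ σ : c.L ≃ₐ[RatFunc k] c.L,
      σ W = algebraMap (RatFunc k) c.L (RatFunc.C (θ (χ (c.ι σ)))) * W +
        algebraMap (RatFunc k) c.L (RatFunc.C (∑ i, l i * θ (ψ i (c.ι σ)).b)) := fun σ => by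
    simp only [hW, map_sum, map_mul, map_sub, AlgEquiv.commutes, hy2, hw, hu, Finset.mul_sum,
      ← Finset.sum_add_distrib]
    exact Finset.sum_congr rfl fun i _ => by ring
  have hreg : ∀ x, Reg ((ch x).j W) := fun x => by
    induction x using OnePoint.rec with
    | infty =>
      have h4 := reg_infty c (ch ∞) _ _ hm0 f hf hd (y 0) (hy1 0) _ hl1
      have h5 : (ch ∞).j W = HahnSeries.C (∑ i, l i * β i) +
          powL (ch ∞).e (ch ∞).he (∑ i, HahnSeries.C (l i) * V i) * (ch ∞).j (y 0) := by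
        rw [hW, map_sum]
        simp only [map_mul (ch ∞).j (algebraMap (RatFunc k) c.L (RatFunc.C _)), h2, (ch ∞).hC]
        simp only [map_sum, map_mul, powL_C, Finset.sum_mul, ← Finset.sum_add_distrib]
        exact Finset.sum_congr rfl fun i _ => by ring
      rw [h5]
      exact (reg_C_VF4 _).add h4
    | coe x =>
      rw [hW, map_sum]
      refine reg_sum_Bd4 _ _ fun i _ => ?_
      rw [map_mul, (ch x).hC]
      exact (reg_C_VF4 _).mul (h1 i x)
  obtain ⟨z, hz⟩ := const_of_reg c ch W fun x σ => by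
    rw [hσ, map_add, map_mul, (ch x).hC, (ch x).hC]
    exact ((reg_C_VF4 _).mul (hreg x)).add (reg_C_VF4 _)
  refine ⟨z, fun σ => ?_⟩
  have h6 := hσ σ
  rw [hz, AlgEquiv.commutes, ← map_mul, ← map_add, ← map_mul, ← map_add] at h6
  have h7 := RatFunc.C.injective ((algebraMap (RatFunc k) c.L).injective h6)
  linear_combination -h7

end Pool.Agent.AdmG

end

section

/-! Counting homomorphisms to the affine group. -/

namespace Pool.Agent.AdmG

open Pool.Agent.Adm
open scoped OnePoint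

variable {k G F : Type} [Field k] [Group G] [Finite G] [Field F] [Fintype F]

/-- The cocycles for a character. -/
def cocy_Bd5 (χ : G →* Fˣ) : Submodule F (G → F) where
  carrier := {b | ∀ g h, b (g * h) = χ h * b g + b h}
  zero_mem' g h := by simp
  add_mem' ha hb g h := by
    simp only [Pi.add_apply, ha g h, hb g h]
    ring
  smul_mem' c b hb g h := by
    simp only [Pi.smul_apply, smul_eq_mul, hb g h]
    ring

theorem card_fibre_le (θ : F →+* k) (χ : G →* Fˣ) (r : ℕ)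
    (h : ∀ ψ : Fin (r + 1) → G →* Aff F, (∀ i, Aff.lin.comp (ψ i) = χ) →
      ∃ l : Fin (r + 1) → k, l ≠ 0 ∧ ∃ z : k, ∀ g : G,
        ∑ i, l i * θ (ψ i g).b = z * (1 - θ (χ g))) :
    Nat.card {ψ : G →* Aff F // Aff.lin.comp ψ = χ} ≤ Fintype.card F ^ (r + 1) := by
  classical
  let w : G → F := fun g => 1 - (χ g : F)
  let Q : cocy_Bd5 χ →ₗ[F] (G → F) ⧸ Submodule.span F {w} :=
    (Submodule.span F {w}).mkQ ∘ₗ (cocy_Bd5 χ).subtype
  have h1 : Module.finrank F (LinearMap.range Q) ≤ r := by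
    by_contra hlt
    obtain ⟨v, hv⟩ := exists_linearIndependent_of_le_finrank (R := F) (M := LinearMap.range Q)
      (n := r + 1) (by omega)
    choose b hb using fun i => (v i).2
    obtain ⟨l, hl, z, hz⟩ := h (fun i => MonoidHom.mk' (fun g => ⟨χ g, (b i).1 g⟩)
      fun g g' => Aff.ext (map_mul χ g g') ((b i).2 g g')) fun i => MonoidHom.ext fun g => rfl
    obtain ⟨i0, hi0⟩ := Function.ne_iff.1 hl
    let _ : Algebra F k := θ.toAlgebra
    obtain ⟨π, hπ⟩ := LinearMap.exists_leftInverse_of_injective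
      (LinearMap.toSpanSingleton F k (l i0))
      (LinearMap.ker_toSpanSingleton F hi0)
    have hπ1 : π (l i0) = 1 := by simpa using LinearMap.congr_fun hπ 1
    have hm : ∀ (x : k) (c : F), π (x * θ c) = π x * c := fun x c => by
      rw [mul_comm x, mul_comm (π x), ← smul_eq_mul c, ← map_smul]
      rfl
    have h0 : ∑ i, π (l i) • v i = 0 := by
      apply Subtype.ext
      simp only [Submodule.coe_sum, Submodule.coe_smul, ← hb, ← map_smul, ← map_sum,
        Submodule.coe_zero]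
      refine (Submodule.Quotient.mk_eq_zero _).2 (Submodule.mem_span_singleton.2 ⟨π z, ?_⟩)
      funext g
      have := congrArg π (hz g)
      rw [← map_one θ, ← map_sub, hm, map_sum] at this
      simp only [hm, MonoidHom.mk'_apply] at this
      simp [w, ← this, Finset.sum_apply]
    have := Fintype.linearIndependent_iff.1 hv _ h0 i0
    rw [hπ1] at this
    exact one_ne_zero this
  have h2 : Module.finrank F (LinearMap.ker Q) ≤ 1 := by
    let j : LinearMap.ker Q →ₗ[F] Submodule.span F {w} :=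
      LinearMap.codRestrict _ ((cocy_Bd5 χ).subtype ∘ₗ (LinearMap.ker Q).subtype) fun x =>
        (Submodule.Quotient.mk_eq_zero _).1 x.2
    have hj : Function.Injective j := fun x y e => by
      have e' := congrArg Subtype.val e
      exact Subtype.ext (Subtype.ext e')
    refine (LinearMap.finrank_le_finrank_of_injective hj).trans ?_
    simpa using finrank_span_le_card (R := F) ({w} : Set (G → F))
  have h3 := Q.finrank_range_add_finrank_ker
  have h4 : Nat.card {ψ : G →* Aff F // Aff.lin.comp ψ = χ} ≤ Nat.card (cocy_Bd5 χ) := by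
    refine Nat.card_le_card_of_injective (fun ψ => ⟨fun g => (ψ.1 g).b, fun g g' => ?_⟩) ?_
    · beta_reduce
      rw [map_mul, Aff.mul_b, ← DFunLike.congr_fun ψ.2 g']
      rfl
    · intro ψ ψ' e
      refine Subtype.ext (MonoidHom.ext fun g => Aff.ext ?_ (congrFun (congrArg Subtype.val e) g))
      exact (DFunLike.congr_fun ψ.2 g).trans (DFunLike.congr_fun ψ'.2 g).symm
  refine h4.trans ?_
  rw [Module.natCard_eq_pow_finrank (K := F), Nat.card_eq_fintype_card]
  exact Nat.pow_le_pow_right Fintype.card_pos (by omega)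

theorem card_hom_aff_le (N M : ℕ) (h1 : Nat.card (G →* Fˣ) ≤ N)
    (h2 : ∀ χ : G →* Fˣ, Nat.card {ψ : G →* Aff F // Aff.lin.comp ψ = χ} ≤ M) :
    Nat.card (G →* Aff F) ≤ N * M := by
  classical
  have : Finite (G →* Fˣ) := Finite.of_injective _ DFunLike.coe_injective
  have : Finite (G →* Aff F) := Finite.of_injective _ DFunLike.coe_injective
  let _ : Fintype (G →* Fˣ) := Fintype.ofFinite _
  rw [← Nat.card_congr (Equiv.sigmaFiberEquiv fun ψ : G →* Aff F => Aff.lin.comp ψ),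
    Nat.card_sigma]
  refine (Finset.sum_le_card_nsmul _ _ M fun χ _ => h2 χ).trans ?_
  rw [smul_eq_mul, Finset.card_univ, ← Nat.card_eq_fintype_card]
  exact Nat.mul_le_mul_right _ h1

theorem card_hom_sup_le {A : Type} [Group A] [Finite A] (H1 H2 : Subgroup G) :
    Nat.card (↥(H1 ⊔ H2) →* A) ≤ Nat.card (H1 →* A) * Nat.card (H2 →* A) := by
  have : Finite (H1 →* A) := Finite.of_injective _ DFunLike.coe_injective
  have : Finite (H2 →* A) := Finite.of_injective _ DFunLike.coe_injective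
  rw [← Nat.card_prod]
  refine Nat.card_le_card_of_injective (fun ψ => (ψ.comp (Subgroup.inclusion le_sup_left),
    ψ.comp (Subgroup.inclusion le_sup_right))) fun ψ ψ' e => ?_
  obtain ⟨e1, e2⟩ := Prod.mk.inj e
  have : H1 ⊔ H2 ≤ (ψ.eqLocus ψ').map (H1 ⊔ H2).subtype :=
    sup_le (fun x hx => ⟨⟨x, Subgroup.mem_sup_left hx⟩,
        by have := DFunLike.congr_fun e1 ⟨x, hx⟩; exact this, rfl⟩)
      fun x hx => ⟨⟨x, Subgroup.mem_sup_right hx⟩,
        by have := DFunLike.congr_fun e2 ⟨x, hx⟩; exact this, rfl⟩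
  ext x
  obtain ⟨y, hy, e⟩ := this x.2
  obtain rfl : y = x := Subtype.ext e
  exact hy

theorem card_hom_gen_le {A J : Type} [Group A] [Finite A] [Finite J] (H : Subgroup G) (t : J → G)
    (h : H ⊔ Subgroup.closure (Set.range t) = ⊤) :
    Nat.card (G →* A) ≤ Nat.card (H →* A) * Nat.card A ^ Nat.card J := by
  have : Finite (H →* A) := Finite.of_injective _ DFunLike.coe_injective
  rw [← Nat.card_fun, ← Nat.card_prod]
  refine Nat.card_le_card_of_injective (fun ψ => (ψ.comp H.subtype, fun j => ψ (t j)))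
    fun ψ ψ' e => ?_
  obtain ⟨e1, e2⟩ := Prod.mk.inj e
  have : ⊤ ≤ ψ.eqLocus ψ' := by
    rw [← h]
    refine sup_le (fun x hx => ?_) ((Subgroup.closure_le _).2 ?_)
    · have := DFunLike.congr_fun e1 ⟨x, hx⟩
      exact this
    · rintro _ ⟨j, rfl⟩
      exact congrFun e2 j
  exact MonoidHom.ext fun x => this (Subgroup.mem_top x)

theorem card_hom_lt {A G' : Type} [Group A] [Finite A] [Group G'] [Finite G'] (pr : G' →* G)
    (hpr : Function.Surjective pr) (ψ : G' →* A) (x : G') (h1 : pr x = 1) (h2 : ψ x ≠ 1) :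
    Nat.card (G →* A) < Nat.card (G' →* A) := by
  have : Finite (G' →* A) := Finite.of_injective _ DFunLike.coe_injective
  have : Finite (G →* A) := Finite.of_injective _ DFunLike.coe_injective
  let _ : Fintype (G →* A) := Fintype.ofFinite _
  let _ : Fintype (G' →* A) := Fintype.ofFinite _
  rw [Nat.card_eq_fintype_card, Nat.card_eq_fintype_card]
  refine Fintype.card_lt_of_injective_of_notMem (fun φ => φ.comp pr)
    (fun φ φ' e => (MonoidHom.cancel_right hpr).1 e) (b := ψ) ?_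
  rintro ⟨φ, rfl⟩
  exact h2 (by simp [h1])

end Pool.Agent.AdmG

end

section

/-! Solutions at infinity and nonexistence of rational solutions. -/

namespace Pool.Agent.Adm

open scoped OnePoint
open Polynomial

variable {k F : Type} [Field k] [IsAlgClosed k] [Field F] [Fintype F]
  {J : OnePoint k → RatFunc k →+* LaurentSeries k}

theorem frob_EX1 {R : Type} [CommRing R] (ψ : F →+* R) (x y : R) :
    (x + y) ^ Fintype.card F = x ^ Fintype.card F + y ^ Fintype.card F := by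
  obtain ⟨p, hp, n, hpr, hn⟩ := FiniteField.card' F
  obtain ⟨r, hr⟩ := exists_add_pow_prime_pow_eq hpr x y n
  have : (p : R) = 0 := by rw [← map_natCast ψ, CharP.cast_eq_zero, map_zero]
  rw [hn, hr, this]
  ring

omit [IsAlgClosed k] in
theorem small_sol_EX1 (m : ℕ) (a B : PowerSeries k) (hB : PowerSeries.constantCoeff B = 0) :
    ∃ σ : PowerSeries k, σ - a * σ ^ (m + 2) = B := by
  have hm : (X ^ (m + 2) - (X ^ (m + 1) - C (a * B ^ (m + 1))) : (PowerSeries k)[X]).Monic := by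
    refine monic_X_pow_sub ?_
    rw [degree_X_pow_sub_C (Nat.succ_pos m)]
    exact_mod_cast Nat.lt_succ_self _
  obtain ⟨Z, hZ, h1⟩ := HenselianRing.is_henselian
    (I := Ideal.span {(PowerSeries.X : PowerSeries k)}) _ hm 1
    (by
      rw [Ideal.mem_span_singleton, PowerSeries.X_dvd_iff]
      simp [hB])
    (by
      have : (derivative (X ^ (m + 2) - (X ^ (m + 1) - C (a * B ^ (m + 1))) :
          (PowerSeries k)[X])).eval 1 = 1 := by
        simp only [derivative_sub, derivative_X_pow, derivative_C, eval_sub, eval_mul, eval_C,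
          eval_pow, eval_X, one_pow, eval_zero]
        push_cast
        ring
      rw [this, map_one]
      exact isUnit_one)
  rw [Ideal.mem_span_singleton, PowerSeries.X_dvd_iff, map_sub, map_one, sub_eq_zero] at h1
  have hu : IsUnit Z := by rw [PowerSeries.isUnit_iff_constantCoeff, h1]; exact isUnit_one
  obtain ⟨Y, hY⟩ := hu.exists_right_inv
  simp only [IsRoot, eval_sub, eval_pow, eval_X, eval_C] at hZ
  have h2 : Z ^ (m + 1) * Y ^ (m + 1) = 1 := by rw [← mul_pow, hY, one_pow]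
  refine ⟨B * Y, ?_⟩
  linear_combination (-B * Y ^ (m + 2)) * hZ + (B * Z * Y - B * Y) * h2 + B * hY

theorem exists_ps_sol (θ : F →+* k) (a b : PowerSeries k) :
    ∃ ρ : PowerSeries k, ρ - a * ρ ^ Fintype.card F = b := by
  have hq : 2 ≤ Fintype.card F := Fintype.one_lt_card
  obtain ⟨r, hr⟩ := IsSepClosed.exists_root_C_mul_X_pow_add_C_mul_X_add_C (n := Fintype.card F)
    (-PowerSeries.constantCoeff a) 1 (-PowerSeries.constantCoeff b)
    (by rw [← map_natCast θ, FiniteField.cast_card_eq_zero, map_zero]) hq one_ne_zero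
  obtain ⟨σ, hσ⟩ := small_sol_EX1 (Fintype.card F - 2) a
    (b - PowerSeries.C r + a * PowerSeries.C r ^ Fintype.card F) (by
      simp only [map_add, map_sub, map_mul, map_pow, PowerSeries.constantCoeff_C]
      linear_combination -hr)
  rw [Nat.sub_add_cancel hq] at hσ
  refine ⟨PowerSeries.C r + σ, ?_⟩
  rw [frob_EX1 (PowerSeries.C.comp θ)]
  linear_combination hσ

omit [IsAlgClosed k] in
theorem Reg.ps_EX1 {x : LaurentSeries k} (hx : Reg x) :
    ∃ ρ : PowerSeries k, HahnSeries.ofPowerSeries ℤ k ρ = x := by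
  refine ⟨PowerSeries.mk fun n => x.coeff n, ?_⟩
  ext n
  rw [PowerSeries.coeff_coe]
  split_ifs with h
  · exact (hx n h).symm
  · rw [PowerSeries.coeff_mk, Int.natAbs_of_nonneg (not_lt.1 h)]

omit [IsAlgClosed k] in
theorem coeff_iter_EX1 (q : ℕ) : ∀ (f : k[X]) (n : ℕ), (divX^[q] f).coeff n = f.coeff (n + q) := by
  induction q with
  | zero => intro f n; rfl
  | succ q ih => intro f n; rw [Function.iterate_succ_apply, ih, coeff_divX, add_assoc]

theorem IsCharts.exists_sol_infty (hJ : IsCharts J) (θ : F →+* k) (f : k[X]) (hf : f.Monic)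
    (h1 : Fintype.card F ≤ f.natDegree) (h2 : f.natDegree ≤ 2 * (Fintype.card F - 1))
    (hκ : f.coeff (Fintype.card F - 1) ≠ 0) :
    ∃ (h : k[X]) (V : LaurentSeries k), h ≠ 0 ∧ h.natDegree < f.natDegree ∧
      V ^ Fintype.card F * J ∞ (algebraMap k[X] (RatFunc k) f) - V =
        J ∞ (algebraMap k[X] (RatFunc k) h) := by
  have hq : 2 ≤ Fintype.card F := Fintype.one_lt_card
  have hs := exists_ps_sol θ
  have hfr := frob_EX1 (R := LaurentSeries k) (HahnSeries.C.comp θ)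
  obtain ⟨m, hm⟩ : ∃ m, Fintype.card F = m + 2 := ⟨_, (Nat.sub_add_cancel hq).symm⟩
  rw [hm] at h1 h2 hκ hs hfr ⊢
  obtain ⟨c, hc⟩ := IsAlgClosed.exists_pow_nat_eq (f.coeff (m + 1))⁻¹ (Nat.succ_pos m)
  have hκ' : f.coeff (m + 1) ≠ 0 := hκ
  have hc0 : c ≠ 0 := by
    rintro rfl
    exact inv_ne_zero hκ' (by rw [← hc]; simp)
  set h : k[X] := C (c ^ (m + 2)) * divX^[m + 2] f with hh
  have hco : ∀ n, h.coeff n = c ^ (m + 2) * f.coeff (n + (m + 2)) := fun n => by
    rw [hh, coeff_C_mul, coeff_iter_EX1]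
  set x := J ∞ (algebraMap k[X] (RatFunc k) f) with hx
  set y := J ∞ (algebraMap k[X] (RatFunc k) h) with hy
  obtain ⟨a, ha⟩ := Reg.ps_EX1 (x := HahnSeries.single (2 * (m + 1) : ℤ) 1 * x) (fun n hn => by
    rw [HahnSeries.coeff_single_mul, hx, hJ.coeff_infty, if_pos (by omega),
      coeff_eq_zero_of_natDegree_lt (by omega), mul_zero])
  obtain ⟨b, hb⟩ := Reg.ps_EX1 (x := HahnSeries.single (-2 : ℤ) 1 *
      (HahnSeries.single (m + 2 : ℤ) (c ^ (m + 2)) * x - y - HahnSeries.single (1 : ℤ) c))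
    (fun n hn => by
      rw [HahnSeries.coeff_single_mul, HahnSeries.coeff_sub, HahnSeries.coeff_sub,
        HahnSeries.coeff_single_mul, hx, hy, hJ.coeff_infty, hJ.coeff_infty, if_pos (by omega),
        one_mul]
      by_cases h3 : n = -1
      · subst h3
        have e : (-(-1 - -2 - (m + 2) : ℤ)).toNat = m + 1 := by omega
        rw [if_neg (by omega), e, show (-1 - -2 : ℤ) = 1 by norm_num, HahnSeries.coeff_single_same,
          pow_succ, hc]
        field_simp
        ring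
      · have e : (-(n - -2 - (m + 2) : ℤ)).toNat = (-(n - -2)).toNat + (m + 2) := by omega
        rw [if_pos (by omega), e, hco, HahnSeries.coeff_single_of_ne (by omega)]
        ring)
  obtain ⟨ρ, hρ⟩ := hs a b
  have hρ' := congrArg (HahnSeries.ofPowerSeries ℤ k) hρ
  rw [map_sub, map_mul, map_pow, ha, hb] at hρ'
  refine ⟨h, HahnSeries.single (1 : ℤ) c +
    HahnSeries.single (2 : ℤ) 1 * HahnSeries.ofPowerSeries ℤ k ρ, fun h0 => ?_, ?_, ?_⟩
  · have := hco (f.natDegree - (m + 2))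
    rw [h0, Nat.sub_add_cancel h1, coeff_natDegree, hf.leadingCoeff, coeff_zero, mul_one] at this
    exact pow_ne_zero _ hc0 this.symm
  · have : h.natDegree ≤ f.natDegree - 1 := natDegree_le_iff_coeff_eq_zero.2 (fun N hN => by
      rw [hco, coeff_eq_zero_of_natDegree_lt (by omega), mul_zero])
    omega
  · have e1 : (HahnSeries.single (2 : ℤ) (1 : k)) * HahnSeries.single (-2 : ℤ) 1 = 1 := by
      rw [HahnSeries.single_mul_single]; simp
    have e2 : (HahnSeries.single (2 : ℤ) (1 : k)) ^ (m + 2) =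
        HahnSeries.single (2 : ℤ) 1 * HahnSeries.single (2 * (m + 1) : ℤ) 1 := by
      rw [HahnSeries.single_mul_single, HahnSeries.single_pow, one_pow, one_mul]
      congr 2
      simp only [nsmul_eq_mul]
      push_cast
      ring
    have e3 : (HahnSeries.single (1 : ℤ) c) ^ (m + 2) =
        HahnSeries.single (m + 2 : ℤ) (c ^ (m + 2)) := by
      rw [HahnSeries.single_pow]
      congr 2
      simp
    rw [hfr, mul_pow, e2, e3]
    linear_combination (-HahnSeries.single (2 : ℤ) (1 : k)) * hρ' -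
      (HahnSeries.single (m + 2 : ℤ) (c ^ (m + 2)) * x - y - HahnSeries.single (1 : ℤ) c) * e1

theorem no_rational_sol (q : ℕ) (hq : 1 < q) (f h : k[X]) (hf : f ≠ 0) (hh : h ≠ 0)
    (hd : h.natDegree < f.natDegree) (hm : ∀ a : k, f.rootMultiplicity a < q - 1)
    (r : RatFunc k) :
    r ^ q * algebraMap k[X] (RatFunc k) f - r ≠ algebraMap k[X] (RatFunc k) h := by
  intro he
  obtain ⟨m, rfl⟩ : ∃ m, q = m + 1 := ⟨q - 1, by omega⟩
  have hD : algebraMap k[X] (RatFunc k) r.denom ≠ 0 :=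
    (map_ne_zero_iff _ (RatFunc.algebraMap_injective k)).2 r.denom_ne_zero
  have hr : algebraMap k[X] (RatFunc k) r.num = r * algebraMap k[X] (RatFunc k) r.denom :=
    (div_eq_iff hD).1 r.num_div_denom
  have key : r.num ^ (m + 1) * f - r.num * r.denom ^ m = h * r.denom ^ (m + 1) := by
    apply RatFunc.algebraMap_injective k
    simp only [map_sub, map_mul, map_pow, hr, ← he]
    ring
  have hdv : r.denom ^ m ∣ f := by
    refine (r.isCoprime_num_denom.symm.pow (m := m) (n := m + 1)).dvd_of_dvd_mul_left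
      ⟨r.num + h * r.denom, ?_⟩
    linear_combination key
  have h1 : r.denom = 1 := by
    by_contra h1
    obtain ⟨a, ha⟩ := IsAlgClosed.exists_root r.denom
      (fun h2 => h1 (r.monic_denom.degree_le_zero_iff_eq_one.1 h2.le))
    have := (le_rootMultiplicity_iff hf).2 ((pow_dvd_pow_of_dvd (dvd_iff_isRoot.2 ha) m).trans hdv)
    exact absurd (hm a) (not_lt.2 this)
  rw [h1, one_pow, one_pow, mul_one, mul_one] at key
  have hN : r.num ≠ 0 := fun h0 => hh (by rw [← key, h0]; simp)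
  have h2 := natDegree_add_le h r.num
  rw [← sub_eq_iff_eq_add.1 key, natDegree_mul (pow_ne_zero _ hN) hf, natDegree_pow] at h2
  have h3 : r.num.natDegree ≤ (m + 1) * r.num.natDegree := Nat.le_mul_of_pos_left _ (by omega)
  omega

end Pool.Agent.Adm

end

section

/-! Existence of tame affine coverings with prescribed labels. -/

namespace Pool.Agent.Adm

open scoped OnePoint
open Polynomial

variable {k F : Type} [Field k] [IsAlgClosed k] [Field F] [Fintype F]

/-- c is a tame affine covering whose labels are the root multiplicities of f. -/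
def AffLab (θ : F →+* k) (c : Cover k (Aff F)) (f : k[X]) : Prop :=
  (∀ (a ζ : k), IsPrimitiveRoot ζ (Fintype.card F - 1) →
    ∃ g, c.Mono (a : OnePoint k) (Fintype.card F - 1) ζ g ∧
      θ g.u = ζ ^ (f.rootMultiplicity a : ℤ)) ∧
  ∀ ζ : k, IsPrimitiveRoot ζ (Fintype.card F - 1) →
    ∃ g, c.Mono ∞ (Fintype.card F - 1) ζ g ∧ θ g.u = ζ ^ (-(f.natDegree : ℤ))

theorem local_EX (θ : F →+* k) (c : Cover k (Aff F)) (y w : c.L) (f h : RatFunc k) (hf : f ≠ 0)
    (hy : y ^ (Fintype.card F - 1) = algebraMap (RatFunc k) c.L f)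
    (hw : w ^ Fintype.card F - w = algebraMap (RatFunc k) c.L h * y)
    (hS : IntermediateField.adjoin (RatFunc k) {y, w} = ⊤)
    (hσ : ∀ σ : c.L ≃ₐ[RatFunc k] c.L,
      σ y = algebraMap (RatFunc k) c.L (RatFunc.C (θ (c.ι σ).u)) * y)
    (a : OnePoint k) (j0 : RatFunc k →+* LaurentSeries k)
    (hC : ∀ x, j0 (RatFunc.C x) = HahnSeries.C x)
    (hX : j0 RatFunc.X = expand a (Fintype.card F - 1)) (N : ℤ)
    (hN : (j0 f).order = ((Fintype.card F - 1 : ℕ) : ℤ) * N)
    (hW : ∀ y1 : LaurentSeries k, y1 ^ (Fintype.card F - 1) = j0 f → y1.order = N →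
      ∃ W : LaurentSeries k, W ^ Fintype.card F - W = j0 h * y1)
    (ζ : k) (hζ : IsPrimitiveRoot ζ (Fintype.card F - 1)) :
    ∃ g, c.Mono a (Fintype.card F - 1) ζ g ∧ θ g.u = ζ ^ N := by
  have hq : 1 < Fintype.card F := Fintype.one_lt_card
  have hm : 0 < Fintype.card F - 1 := by omega
  have hf0 : j0 f ≠ 0 := (map_ne_zero j0).2 hf
  have hord : ∀ y1 : LaurentSeries k, y1 ^ (Fintype.card F - 1) = j0 f → y1.order = N := by
    intro y1 h1
    have h2 := HahnSeries.order_pow y1 (Fintype.card F - 1)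
    rw [h1, hN, nsmul_eq_mul] at h2
    exact (mul_left_cancel₀ (by exact_mod_cast hm.ne') h2).symm
  obtain ⟨y0, hy0⟩ := exists_pow_eq (Fintype.card F - 1) (card_sub_one_cast_ne_zero θ) (j0 f)
    ⟨N, hN⟩
  have hy00 : y0 ≠ 0 := by
    rintro rfl
    rw [zero_pow hm.ne'] at hy0
    exact hf0 hy0.symm
  obtain ⟨j, hj⟩ := exists_extension j0 {y, w} hS (fun J hJ => by
    set ι := algebraMap (LaurentSeries k) (AlgebraicClosure (LaurentSeries k)) with hι
    have hinj : Function.Injective ι := ι.injective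
    have h1 : J y ^ (Fintype.card F - 1) = ι (j0 f) := by rw [← map_pow, hy, hJ]
    have h2 : ι y0 ≠ 0 := (map_ne_zero ι).2 hy00
    obtain ⟨u, hu⟩ := exists_unit_of_pow_card_sub_one (ι.comp (HahnSeries.C.comp θ))
      (J y / ι y0) (by
        rw [div_pow, h1, ← map_pow, hy0]
        exact div_self ((map_ne_zero ι).2 hf0))
    have h3 : J y = ι (HahnSeries.C (θ u) * y0) := by
      rw [map_mul]
      exact ((eq_div_iff h2).1 hu).symm
    have h4 : (HahnSeries.C (θ u) * y0) ^ (Fintype.card F - 1) = j0 f := by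
      apply hinj
      rw [map_pow, ← h3, h1]
    obtain ⟨W, hW1⟩ := hW _ h4 (hord _ h4)
    obtain ⟨b, hb⟩ := exists_eq_of_pow_card (ι.comp (HahnSeries.C.comp θ)) (J w - ι W) (by
      rw [sub_pow_card_of_hom (ι.comp (HahnSeries.C.comp θ))]
      have h5 : J w ^ Fintype.card F - J w = ι W ^ Fintype.card F - ι W := by
        rw [← map_pow, ← map_sub, hw, map_mul, hJ, h3, ← map_mul, ← hW1, map_sub, map_pow]
      linear_combination h5)
    intro s hs
    rcases hs with rfl | rfl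
    · exact ⟨_, h3.symm⟩
    · refine ⟨HahnSeries.C (θ b) + W, ?_⟩
      rw [map_add]
      exact (eq_sub_iff_add_eq.1 hb))
  obtain ⟨σ, h1, h2⟩ := c.exists_mono_of_chart a _ hm ζ hζ j (fun x => by rw [hj, hC])
    (by rw [hj, hX])
  have h3 : j y ^ (Fintype.card F - 1) = j0 f := by rw [← map_pow, hy, hj]
  have h4 : j y ≠ 0 := by
    intro h0
    rw [h0, zero_pow hm.ne'] at h3
    exact hf0 h3.symm
  refine ⟨c.ι σ, h1, ?_⟩
  rw [← hord _ h3]
  apply eigen_eq_zpow ζ (hζ.ne_zero hm.ne') (j y) h4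
  rw [← h2, hσ, map_mul, hj, hC]

omit [IsAlgClosed k] in
theorem reg_of_order_EX {x : LaurentSeries k} (hx : 0 ≤ x.order) : Reg x := fun _ hn =>
  HahnSeries.coeff_eq_zero_of_lt_order (lt_of_lt_of_le hn hx)

omit [IsAlgClosed k] in
theorem fix_EX (θ : F →+* k) (c : Cover k (Aff F)) (y w : c.L) (f h : RatFunc k) (hf : f ≠ 0)
    (hy : y ^ (Fintype.card F - 1) = algebraMap (RatFunc k) c.L f)
    (hw : w ^ Fintype.card F - w = algebraMap (RatFunc k) c.L h * y)
    (hσ : ∀ σ : c.L ≃ₐ[RatFunc k] c.L,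
      σ y = algebraMap (RatFunc k) c.L (RatFunc.C (θ (c.ι σ).u)) * y)
    (hσ' : ∀ σ : c.L ≃ₐ[RatFunc k] c.L,
      σ w = algebraMap (RatFunc k) c.L (RatFunc.C (θ (c.ι σ).u)) * w +
        algebraMap (RatFunc k) c.L (RatFunc.C (θ (c.ι σ).b)))
    (hfix : Aff.HasFix c.ι.range) : ∃ r : RatFunc k, r ^ Fintype.card F * f - r = h := by
  have hq : 1 < Fintype.card F := Fintype.one_lt_card
  have hm : 0 < Fintype.card F - 1 := by omega
  obtain ⟨β, hβ⟩ := hfix
  set τ : F →+* c.L := (algebraMap (RatFunc k) c.L).comp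
    ((RatFunc.C : k →+* RatFunc k).comp θ) with hτ
  have hτ1 : ∀ x, algebraMap (RatFunc k) c.L (RatFunc.C (θ x)) = τ x := fun _ => rfl
  have hy0 : y ≠ 0 := by
    rintro rfl
    rw [zero_pow hm.ne'] at hy
    exact (map_ne_zero (algebraMap (RatFunc k) c.L)).2 hf hy.symm
  have h1 : ∀ σ : c.L ≃ₐ[RatFunc k] c.L, σ ((w - τ β) / y) = (w - τ β) / y := by
    intro σ
    have h2 : (c.ι σ).Fixes β := hβ _ ⟨σ, rfl⟩
    have h3 : τ (c.ι σ).u * τ β + τ (c.ι σ).b = τ β := by
      rw [← map_mul, ← map_add, h2]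
    have h4 : τ (c.ι σ).u ≠ 0 := (map_ne_zero τ).2 (c.ι σ).u.ne_zero
    have h5 : σ (τ β) = τ β := by rw [← hτ1, AlgEquiv.commutes]
    rw [map_div₀, map_sub, hσ, hσ', h5, hτ1, hτ1, div_eq_div_iff (mul_ne_zero h4 hy0) hy0]
    linear_combination y * h3
  obtain ⟨r, hr⟩ := (IsGalois.mem_bot_iff_fixed (F := RatFunc k) _).2 h1
  have hr' : algebraMap (RatFunc k) c.L r * y = w - τ β := (eq_div_iff hy0).1 hr
  refine ⟨r, (algebraMap (RatFunc k) c.L).injective ?_⟩
  rw [map_sub, map_mul, map_pow, ← hy]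
  apply mul_right_cancel₀ hy0
  have h6 : y ^ Fintype.card F = y ^ (Fintype.card F - 1) * y := by
    rw [← pow_succ, Nat.sub_add_cancel hq.le]
  have h7 : τ β ^ Fintype.card F = τ β := by rw [← map_pow, FiniteField.pow_card]
  have h8 : (algebraMap (RatFunc k) c.L r * y) ^ Fintype.card F = w ^ Fintype.card F - τ β := by
    rw [hr', sub_pow_card_of_hom τ, h7]
  rw [mul_pow, h6] at h8
  linear_combination h8 - hr' + hw

theorem exists_affLab_of_sol {J : OnePoint k → RatFunc k →+* LaurentSeries k} (hJ : IsCharts J)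
    (θ : F →+* k) (f h : k[X]) (hf : f ≠ 0) (V : LaurentSeries k)
    (hV : V ^ Fintype.card F * J ∞ (algebraMap k[X] (RatFunc k) f) - V =
      J ∞ (algebraMap k[X] (RatFunc k) h)) :
    ∃ c : Cover k (Aff F), AffLab θ c f ∧ (Aff.HasFix c.ι.range → ∃ r : RatFunc k,
      r ^ Fintype.card F * algebraMap k[X] (RatFunc k) f - r = algebraMap k[X] (RatFunc k) h) := by
  have hq : 1 < Fintype.card F := Fintype.one_lt_card
  have hm : 0 < Fintype.card F - 1 := by omega
  have hf' : algebraMap k[X] (RatFunc k) f ≠ 0 := by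
    rwa [Ne, IsFractionRing.to_map_eq_zero_iff]
  obtain ⟨c, y, w, hy, hw, hS, hσ, hσ'⟩ := exists_affine_ext θ _ (algebraMap k[X] (RatFunc k) h) hf'
  have hC : ∀ a x, ((powL _ hm).comp (J a)) (RatFunc.C x) = HahnSeries.C x := fun a x => by
    rw [RingHom.comp_apply, (hJ a).1, powL_C]
  have hX : ∀ a, ((powL _ hm).comp (J a)) RatFunc.X = expand a (Fintype.card F - 1) := fun a => by
    rw [RingHom.comp_apply, (hJ a).2, powL_expand, mul_one]
  refine ⟨c, ⟨fun a ζ hζ => ?_, fun ζ hζ => ?_⟩, fix_EX θ c y w _ _ hf' hy hw hσ hσ'⟩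
  · refine local_EX θ c y w _ _ hf' hy hw hS hσ a _ (hC a) (hX a) _ ?_ (fun y1 _ h2 => ?_) ζ hζ
    · rw [hom_algebraMap _ _ _ (hC a) (hX a), order_eval₂_expand_coe a _ hm f hf]
    · apply exists_as_root _ hq (card_cast_eq_zero θ)
      refine Reg.mul (reg_of_order_EX ?_) (reg_of_order_EX (by rw [h2]; positivity))
      rcases eq_or_ne h 0 with rfl | hh
      · simp
      · rw [hom_algebraMap _ _ _ (hC a) (hX a), order_eval₂_expand_coe a _ hm h hh]
        positivity
  · refine local_EX θ c y w _ _ hf' hy hw hS hσ ∞ _ (hC ∞) (hX ∞) _ ?_ (fun y1 h1 _ => ?_) ζ hζ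
    · rw [hom_algebraMap _ _ _ (hC ∞) (hX ∞), order_eval₂_expand_infty _ hm f hf, mul_neg]
    · refine ⟨powL _ hm V * y1, ?_⟩
      have h6 : y1 ^ Fintype.card F = y1 ^ (Fintype.card F - 1) * y1 := by
        rw [← pow_succ, Nat.sub_add_cancel hq.le]
      rw [RingHom.comp_apply] at h1
      rw [RingHom.comp_apply, ← hV, map_sub, map_mul, map_pow, mul_pow, h6, h1]
      ring

theorem exists_affLab (θ : F →+* k) (f : k[X]) (hf : f ≠ 0) :
    ∃ c : Cover k (Aff F), AffLab θ c f := by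
  obtain ⟨J, hJ⟩ := exists_isCharts k
  have hq : 1 < Fintype.card F := Fintype.one_lt_card
  obtain ⟨c, h1, -⟩ := exists_affLab_of_sol hJ θ f 0 hf 0 (by
    rw [zero_pow (by omega), zero_mul, sub_zero, map_zero, map_zero])
  exact ⟨c, h1⟩

theorem exists_affLab_noFix (θ : F →+* k) (f : k[X]) (hf : f.Monic)
    (h1 : Fintype.card F ≤ f.natDegree) (h2 : f.natDegree ≤ 2 * (Fintype.card F - 1))
    (hκ : f.coeff (Fintype.card F - 1) ≠ 0)
    (hm : ∀ a : k, f.rootMultiplicity a < Fintype.card F - 1) :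
    ∃ c : Cover k (Aff F), AffLab θ c f ∧ ¬ Aff.HasFix c.ι.range := by
  obtain ⟨J, hJ⟩ := exists_isCharts k
  obtain ⟨h, V, hh, hd, hV⟩ := hJ.exists_sol_infty θ f hf h1 h2 hκ
  obtain ⟨c, h3, h4⟩ := exists_affLab_of_sol hJ θ f h hf.ne_zero V hV
  refine ⟨c, h3, fun hfix => ?_⟩
  obtain ⟨r, hr⟩ := h4 hfix
  exact no_rational_sol _ Fintype.one_lt_card f h hf.ne_zero hh hd hm r hr

end Pool.Agent.Adm

end

section

/-! Admissible coverings with monodromy data of the curves of the chain. -/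

namespace Pool.Agent.Adm

open scoped OnePoint

variable {k : Type} [Field k]

/-- The points 0, 1, infinity. -/
def S3 (k : Type) [Field k] : Set (OnePoint k) := {((0 : k) : OnePoint k), ((1 : k) : OnePoint k), ∞}

/-- The points 0, 1, s, infinity. -/
def S4 (s : k) : Set (OnePoint k) :=
  {((0 : k) : OnePoint k), ((1 : k) : OnePoint k), (s : OnePoint k), ∞}

/-- Six finite points and infinity. -/
def S7 (a : Fin 6 → k) : Set (OnePoint k) := insert ∞ (Set.range fun i => (a i : OnePoint k))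

/-- Five components. -/
def A5 (k : Type) [Field k] (G : Type) [Group G] (d : Fin 7 → Dat k G) : Prop :=
  ∃ c1 c2 c3 c4 c5 : Cover k G, c1.Tame (S3 k) ∧ c2.Tame (S3 k) ∧ c3.Tame (S3 k) ∧
    c4.Tame (S3 k) ∧ c5.Tame (S3 k) ∧ Glue c1 c2 ∧ Glue c2 c3 ∧ Glue c3 c4 ∧ Glue c4 c5 ∧
    c1.ι.range ⊔ c2.ι.range ⊔ c3.ι.range ⊔ c4.ι.range ⊔ c5.ι.range = ⊤ ∧
    c1.MD (0 : k) (d 0) ∧ c1.MD (1 : k) (d 1) ∧ c2.MD (1 : k) (d 2) ∧ c3.MD (1 : k) (d 3) ∧
    c4.MD (1 : k) (d 4) ∧ c5.MD (1 : k) (d 5) ∧ c5.MD ∞ (d 6)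

/-- Four components. -/
def A4 (s : k) (G : Type) [Group G] (d : Fin 7 → Dat k G) : Prop :=
  ∃ c1 c3 c4 c5 : Cover k G, c1.Tame (S4 s) ∧ c3.Tame (S3 k) ∧ c4.Tame (S3 k) ∧
    c5.Tame (S3 k) ∧ Glue c1 c3 ∧ Glue c3 c4 ∧ Glue c4 c5 ∧
    c1.ι.range ⊔ c3.ι.range ⊔ c4.ι.range ⊔ c5.ι.range = ⊤ ∧
    c1.MD (0 : k) (d 0) ∧ c1.MD s (d 1) ∧ c1.MD (1 : k) (d 2) ∧ c3.MD (1 : k) (d 3) ∧
    c4.MD (1 : k) (d 4) ∧ c5.MD (1 : k) (d 5) ∧ c5.MD ∞ (d 6)

/-- Three components. -/
def A3 (s s' : k) (G : Type) [Group G] (d : Fin 7 → Dat k G) : Prop :=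
  ∃ c1 c3 c4 : Cover k G, c1.Tame (S4 s) ∧ c3.Tame (S3 k) ∧ c4.Tame (S4 s') ∧
    Glue c1 c3 ∧ Glue c3 c4 ∧ c1.ι.range ⊔ c3.ι.range ⊔ c4.ι.range = ⊤ ∧
    c1.MD (0 : k) (d 0) ∧ c1.MD s (d 1) ∧ c1.MD (1 : k) (d 2) ∧ c3.MD (1 : k) (d 3) ∧
    c4.MD (1 : k) (d 4) ∧ c4.MD s' (d 5) ∧ c4.MD ∞ (d 6)

/-- One component. -/
def A1 (a : Fin 6 → k) (G : Type) [Group G] (d : Fin 7 → Dat k G) : Prop :=
  ∃ c : Cover k G, c.Tame (S7 a) ∧ c.ι.range = ⊤ ∧ (∀ i : Fin 6, c.MD (a i) (d i.castSucc)) ∧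
    c.MD ∞ (d 6)

/-- A property of groups with monodromy data. -/
abbrev AdmP (k : Type) [Field k] : Type 1 := ∀ (G : Type) [Group G], (Fin 7 → Dat k G) → Prop

/-- Coverings of type A lift to coverings of type A' with the same monodromy data. -/
def Lifts {k' : Type} [Field k'] (φ : k →+* k') (A : AdmP k) (A' : AdmP k') : Prop :=
  ∀ (G : Type) [Group G] [Finite G] (d : Fin 7 → Dat k G), A G d → A' G fun i => (d i).map φ

/-- Every affine quotient with labels n has a fixed point. -/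
def AllFix {F : Type} [Field F] [Fintype F] (θ : F →+* k) (A : AdmP k) (n : Fin 7 → ℤ) : Prop :=
  ∀ (G : Type) [Group G] (d : Fin 7 → Dat k G) (ψ : G →* Aff F), A G d →
    (∀ i, LabD (Fintype.card F - 1) θ (Aff.lin.comp ψ) (d i) (n i)) → Aff.HasFix ψ.range

/-- Every covering is dominated by one with an affine quotient of labels n without fixed point. -/
def NewCov {F : Type} [Field F] [Fintype F] (θ : F →+* k) (A : AdmP k) (n : Fin 7 → ℤ) : Prop :=
  ∀ (G : Type) [Group G] [Finite G] (d : Fin 7 → Dat k G), A G d →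
    ∃ (H : Type) (_ : Group H) (_ : Finite H) (pr : H →* G) (ψ : H →* Aff F)
      (d' : Fin 7 → Dat k H), A H d' ∧ Function.Surjective pr ∧ ¬ Aff.HasFix ψ.range ∧
      ∀ χ : G →* Fˣ, χ.comp pr = Aff.lin.comp ψ →
        ∀ i, LabD (Fintype.card F - 1) θ χ (d i) (n i)

/-- The finite quotients of the fundamental group of X are described by A. -/
def Describes {p : ℕ} (X : StableCurve p 7) (A : AdmP k) : Prop :=
  ∀ (G : Type) [Group G], X.HasCover G ↔ ∃ d, A G d

end Pool.Agent.Adm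

end

section

/-! Adjoining an affine covering to a given covering, component by component. -/

namespace Pool.Agent.Adm

open scoped OnePoint
open Polynomial

variable {k F G : Type} [Field k] [IsAlgClosed k] [Field F] [Fintype F] [Group G]

/-- The label of f at a point. -/
noncomputable def labAt (f : k[X]) (a : OnePoint k) : ℤ :=
  a.elim (-(f.natDegree : ℤ)) fun b => (f.rootMultiplicity b : ℤ)

/-- c dominates c1 and has an affine quotient with the labels of f. -/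
def Good (θ : F →+* k) (c1 : Cover k G) (c : Cover k (G × Aff F)) (f : k[X]) : Prop :=
  c.ι.range.map (MonoidHom.fst G (Aff F)) = c1.ι.range ∧
    ∀ (a : OnePoint k) (e : ℕ) (ξ : k) (g : G), IsPrimitiveRoot ξ (e * (Fintype.card F - 1)) →
      c1.Mono a e (ξ ^ (Fintype.card F - 1)) g →
      ∃ g2 : Aff F, c.Mono a (e * (Fintype.card F - 1)) ξ (g, g2) ∧ θ g2.u = (ξ ^ e) ^ labAt f a

/-- The affine quotient of c has no fixed point. -/
def NoFix (c : Cover k (G × Aff F)) : Prop :=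
  ¬ Aff.HasFix (c.ι.range.map (MonoidHom.snd G (Aff F)))

theorem card_sub_one_pos_VP (F : Type) [Field F] [Fintype F] : 0 < Fintype.card F - 1 :=
  Nat.sub_pos_of_lt Fintype.one_lt_card

omit [IsAlgClosed k] [Fintype F] in
theorem snd_eq_one_VP (θ : F →+* k) {c : Cover k (G × Aff F)} {a : OnePoint k} {e : ℕ} {ξ : k}
    {g : G} {g2 : Aff F} (h : c.Mono a e ξ (g, g2)) (hu : g2.u = 1) : g2 = 1 := by
  refine Aff.eq_one_of_pow (e := e) (fun h0 => ?_) (congrArg Prod.snd h.pow_eq_one) hu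
  have : NeZero e := ⟨h.1.ne'⟩
  have h1 : (e : k) ≠ 0 := h.2.1.neZero'.out
  apply h1
  rw [← map_natCast θ, h0, map_zero]

omit [IsAlgClosed k] in
theorem zpow_eq_one_VP {e m : ℕ} {ξ : k} (hξ : IsPrimitiveRoot ξ (e * m)) {n : ℤ}
    (hn : n ≡ 0 [ZMOD m]) : (ξ ^ e) ^ n = 1 := by
  obtain ⟨t, rfl⟩ := Int.modEq_zero_iff_dvd.1 hn
  rw [zpow_mul, zpow_natCast, ← pow_mul, hξ.pow_eq_one, one_zpow]

theorem Good.lift_VP {θ : F →+* k} {c1 : Cover k G} {c : Cover k (G × Aff F)} {f : k[X]}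
    (h : Good θ c1 c f) {a : OnePoint k} {e : ℕ} {ζ : k} {g : G} (hm : c1.Mono a e ζ g) :
    ∃ (ξ : k) (g2 : Aff F), IsPrimitiveRoot ξ (e * (Fintype.card F - 1)) ∧
      ξ ^ (Fintype.card F - 1) = ζ ∧ c.Mono a (e * (Fintype.card F - 1)) ξ (g, g2) ∧
      θ g2.u = (ξ ^ e) ^ labAt f a := by
  obtain ⟨ξ, h1, rfl⟩ := exists_root_lift (card_sub_one_cast_ne_zero θ) hm.1 hm.2.1
  obtain ⟨g2, h2, h3⟩ := h.2 a e ξ g h1 hm
  exact ⟨ξ, g2, h1, rfl, h2, h3⟩

theorem exists_good (θ : F →+* k) (c1 : Cover k G) (c2 : Cover k (Aff F)) (f : k[X])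
    (h : AffLab θ c2 f) : ∃ c : Cover k (G × Aff F), Good θ c1 c f ∧
      (¬ Aff.HasFix c2.ι.range → NoFix c) := by
  obtain ⟨c, h1, h2, h3⟩ := exists_product c1 c2
  refine ⟨c, ⟨h1, fun a e ξ g hξ hm => ?_⟩, fun hn => by rwa [NoFix, h2]⟩
  have hp : IsPrimitiveRoot (ξ ^ e) (Fintype.card F - 1) :=
    hξ.pow (Nat.mul_pos hm.1 (card_sub_one_pos_VP F)) rfl
  have : ∃ g2, c2.Mono a (Fintype.card F - 1) (ξ ^ e) g2 ∧ θ g2.u = (ξ ^ e) ^ labAt f a := by
    induction a using OnePoint.rec with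
    | infty => exact h.2 _ hp
    | coe b => exact h.1 b _ hp
  obtain ⟨g2, k1, k2⟩ := this
  obtain ⟨u, k3⟩ := h3 a e _ ξ g g2 hξ hm k1
  refine ⟨_, k3, ?_⟩
  rw [← k2, Aff.mul_u, Aff.mul_u, Aff.inv_u, inv_mul_cancel_comm]

theorem Good.tame {θ : F →+* k} {c1 : Cover k G} {c : Cover k (G × Aff F)} {f : k[X]}
    (h : Good θ c1 c f) {S : Set (OnePoint k)} (hT : c1.Tame S)
    (hS : ∀ a, a ∉ S → labAt f a ≡ 0 [ZMOD (Fintype.card F - 1 : ℕ)]) : c.Tame S := by
  intro a
  obtain ⟨e, ζ, g, hm, hg⟩ := hT a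
  obtain ⟨ξ, g2, h1, -, h2, h3⟩ := h.lift_VP hm
  refine ⟨_, ξ, _, h2, fun ha => ?_⟩
  rw [zpow_eq_one_VP h1 (hS a ha)] at h3
  have hu : g2.u = 1 := Units.ext (θ.injective (by rw [h3]; simp))
  rw [snd_eq_one_VP θ h2 hu, hg ha]
  rfl

theorem Good.glue {θ : F →+* k} {c1 c1' : Cover k G} {c c' : Cover k (G × Aff F)} {f f' : k[X]}
    (h : Good θ c1 c f) (h' : Good θ c1' c' f') (hg : Glue c1 c1')
    (hl : labAt f ∞ + labAt f' ((0 : k) : OnePoint k) ≡ 0 [ZMOD (Fintype.card F - 1 : ℕ)]) :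
    ∃ c'' : Cover k (G × Aff F), Good θ c1' c'' f' ∧ Glue c c'' ∧ (NoFix c' → NoFix c'') := by
  obtain ⟨e, ζ, g, hm, hm'⟩ := hg
  obtain ⟨ξ, g2, h1, rfl, h2, h3⟩ := h.lift_VP hm
  obtain ⟨g2', h2', h3'⟩ := h'.2 _ e ξ⁻¹ g h1.inv (by rwa [inv_pow])
  have h0 : ξ ≠ 0 := h1.ne_zero h2.1.ne'
  have hu : g2.u = g2'.u := by
    refine Units.ext (θ.injective ?_)
    have := zpow_eq_one_VP h1 hl
    rw [zpow_add₀ (pow_ne_zero _ h0)] at this
    rw [h3, h3', inv_pow, inv_zpow]
    exact eq_inv_of_mul_eq_one_left this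
  obtain ⟨γ, hγ⟩ := Aff.exists_conj hu
    (fun k1 => ⟨snd_eq_one_VP θ h2 k1, snd_eq_one_VP θ h2' (hu ▸ k1)⟩)
  let φ : G × Aff F →* G × Aff F := (MonoidHom.id G).prodMap (MulAut.conj γ).toMonoidHom
  have hφ : ∀ (x : G) (y : Aff F), φ (x, y) = (x, γ * y * γ⁻¹) := fun _ _ => rfl
  refine ⟨c'.map φ, ⟨?_, fun a e' ξ' g' k1 k2 => ?_⟩, ⟨_, ξ, (g, g2), h2, ?_⟩, fun hn k1 => hn ?_⟩
  · rw [Cover.map_range, Subgroup.map_map, ← h'.1]
    rfl
  · obtain ⟨y, k3, k4⟩ := h'.2 a e' ξ' g' k1 k2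
    refine ⟨γ * y * γ⁻¹, k3.map φ, ?_⟩
    rw [← k4, Aff.mul_u, Aff.mul_u, Aff.inv_u, mul_inv_cancel_comm]
  · have := h2'.map φ
    rwa [hφ, hγ] at this
  · rw [← Aff.hasFix_map_conj _ γ, Subgroup.map_map]
    rw [Cover.map_range, Subgroup.map_map] at k1
    exact k1

theorem Good.md {θ : F →+* k} {c1 : Cover k G} {c : Cover k (G × Aff F)} {f : k[X]}
    (h : Good θ c1 c f) {a : OnePoint k} {d : Dat k G} (hd : c1.MD a d) :
    ∃ d' : Dat k (G × Aff F), c.MD a d' ∧ d'.2.2.1 = d.2.2 ∧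
      ∀ χ : G →* Fˣ, χ d.2.2 = d'.2.2.2.u → LabD (Fintype.card F - 1) θ χ d (labAt f a) := by
  obtain ⟨e, ζ, g⟩ := d
  have hm : c1.Mono a e ζ g := hd
  obtain ⟨ξ, g2, h1, rfl, h2, h3⟩ := h.lift_VP hm
  refine ⟨(e * (Fintype.card F - 1), ξ, (g, g2)), h2, rfl, fun χ hχ => ?_⟩
  refine lab_of_root (card_sub_one_pos_VP F) hm.1 h1 ?_ ?_
  · change θ (χ g) ^ e = 1
    rw [← map_pow, ← Units.val_pow_eq_pow_val, ← map_pow, hm.pow_eq_one]
    simp
  · rw [hχ]
    exact h3

theorem Cover.Tame.restr {c : Cover k G} {S : Set (OnePoint k)} (hT : c.Tame S) (H : Subgroup G)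
    (h : c.ι.range ≤ H) : (c.restr H h).Tame S := by
  intro a
  obtain ⟨e, ζ, g, hm, hg⟩ := hT a
  exact ⟨e, ζ, _, hm.restr H h, fun ha => Subtype.ext (hg ha)⟩

theorem Glue.restr {c c' : Cover k G} (hg : Glue c c') (H : Subgroup G) (h : c.ι.range ≤ H)
    (h' : c'.ι.range ≤ H) : Glue (c.restr H h) (c'.restr H h') := by
  obtain ⟨e, ζ, g, hm, hm'⟩ := hg
  exact ⟨e, ζ, _, hm.restr H h, hm'.restr H h'⟩

end Pool.Agent.Adm

end

section

/-! Formal properties of trees. -/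

namespace Pool.Agent.AdmG

open Pool.Agent.Adm
open scoped OnePoint

variable {k ι ι' : Type} [Field k]

omit [Field k] in
theorem dpush_inj_Nice {G G' : Type} {f : G → G'} (hf : Function.Injective f) {x y : Dat k G}
    (h : dpush f x = dpush f y) : x = y := by
  obtain ⟨a, b, c⟩ := x
  obtain ⟨a', b', c'⟩ := y
  simp only [dpush, Prod.mk.injEq] at h
  obtain ⟨h1, h2, h3⟩ := h
  rw [h1, h2, hf h3]

theorem tame_restr_Nice {G : Type} [Group G] {c : Cover k G} {S : Set (OnePoint k)}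
    (hT : c.Tame S) (H : Subgroup G) (h : c.ι.range ≤ H) : (c.restr H h).Tame S := by
  intro a
  obtain ⟨e, ζ, g, hm, hg⟩ := hT a
  exact ⟨e, ζ, _, hm.restr H h, fun ha => Subtype.ext (hg ha)⟩

theorem nice_vtx (a : ι → OnePoint k) : Nice (vtx a) := by
  refine ⟨?_, ?_, ?_, ?_⟩
  · rintro G _ d H ⟨c, -, hm, rfl⟩ i
    have h : c.Mono (a i) (d i).1 (d i).2.1 (d i).2.2 := hm i
    exact ⟨h.1, h.2.1, h.pow_eq_one, h.mem_range⟩
  · rintro G G' _ _ f d H ⟨c, hT, hm, rfl⟩
    refine ⟨c.map f, fun b => ?_, fun i => Cover.Mono.map (hm i) f, c.map_range f⟩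
    obtain ⟨e, ζ, g, h1, h2⟩ := hT b
    exact ⟨e, ζ, f g, h1.map f, fun hb => by rw [h2 hb, map_one]⟩
  · rintro G _ d H M ⟨c, hT, hm, rfl⟩ hM
    exact ⟨fun i => ((d i).1, (d i).2.1, ⟨(d i).2.2, hM (Cover.Mono.mem_range (hm i))⟩),
      ⟨c.restr M hM, tame_restr_Nice hT M hM, fun i => Cover.Mono.restr (hm i) M hM, c.restr_range M hM⟩,
      fun i => rfl⟩
  · intro G _
    obtain ⟨c, h1, h2⟩ := exists_trivial_cover k G
    exact ⟨c, fun b => ⟨1, 1, 1, h2 b 1 1 one_pos IsPrimitiveRoot.one, fun _ => rfl⟩,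
      fun i => h2 (a i) 1 1 one_pos IsPrimitiveRoot.one, h1⟩

theorem Nice.glue {P : AP k (Option ι)} {Q : AP k (Option ι')} (hP : Nice P) (hQ : Nice Q) :
    Nice (glue P Q) := by
  refine ⟨?_, ?_, ?_, ?_⟩
  · rintro G _ d H ⟨x, H1, H2, h1, h2, rfl⟩ (i | i)
    · obtain ⟨a, b, c, e⟩ := hP.valid G _ H1 h1 (some i)
      exact ⟨a, b, c, (le_sup_left : H1 ≤ H1 ⊔ H2) e⟩
    · obtain ⟨a, b, c, e⟩ := hQ.valid G _ H2 h2 (some i)
      exact ⟨a, b, c, (le_sup_right : H2 ≤ H1 ⊔ H2) e⟩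
  · rintro G G' _ _ f d H ⟨x, H1, H2, h1, h2, rfl⟩
    refine ⟨dpush f x, H1.map f, H2.map f, ?_, ?_, Subgroup.map_sup H1 H2 f⟩
    · convert hP.map G G' f _ H1 h1 using 2 with o
      cases o <;> rfl
    · convert hQ.map G G' f _ H2 h2 using 2 with o
      cases o <;> rfl
  · rintro G _ d H M ⟨x, H1, H2, h1, h2, rfl⟩ hM
    obtain ⟨d1, p1, q1⟩ := hP.restr G _ H1 M h1 (le_sup_left.trans hM)
    obtain ⟨d2, p2, q2⟩ := hQ.restr G _ H2 M h2 (le_sup_right.trans hM)
    have hx : d2 none = dinv (d1 none) := by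
      apply dpush_inj_Nice M.subtype_injective
      have e1 : dpush M.subtype (d1 none) = x := q1 none
      have e2 : dpush M.subtype (d2 none) = dinv x := q2 none
      rw [e2, ← e1]
      rfl
    refine ⟨Sum.elim (fun i => d1 (some i)) fun i => d2 (some i), ⟨d1 none, H1.subgroupOf M,
      H2.subgroupOf M, ?_, ?_, ?_⟩, ?_⟩
    · convert p1 using 2 with o
      cases o <;> rfl
    · convert p2 using 2 with o
      cases o
      · exact hx.symm
      · rfl
    · exact Subgroup.subgroupOf_sup (le_sup_left.trans hM) (le_sup_right.trans hM)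
    · rintro (i | i)
      · exact q1 (some i)
      · exact q2 (some i)
  · intro G _
    refine ⟨(1, 1, 1), ⊥, ⊥, ?_, ?_, (sup_idem _).symm⟩
    · convert hP.triv G using 2 with o
      cases o <;> rfl
    · convert hQ.triv G using 2 with o
      cases o
      · simp [dinv]
      · rfl

theorem Nice.reidx (e : ι ≃ ι') {P : AP k ι} (hP : Nice P) : Nice (reidx e P) := by
  refine ⟨?_, ?_, ?_, ?_⟩
  · intro G _ d H h i
    have := hP.valid G _ H h (e.symm i)
    simpa only [Equiv.apply_symm_apply] using this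
  · intro G G' _ _ f d H h
    exact hP.map G G' f _ H h
  · intro G _ d H M h hM
    obtain ⟨d1, p1, q1⟩ := hP.restr G _ H M h hM
    refine ⟨fun i => d1 (e.symm i), ?_, fun i => ?_⟩
    · change P M (fun i => d1 (e.symm (e i))) _
      simpa only [Equiv.symm_apply_apply] using p1
    · have := q1 (e.symm i)
      simpa only [Equiv.apply_symm_apply] using this
  · intro G _
    exact hP.triv G

theorem Tr.nice {P : AP k ι} (h : Tr k ι P) : Nice P := by
  induction h with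
  | vtx a _ _ => exact nice_vtx a
  | glue _ _ h1 h2 => exact h1.glue h2
  | reidx e _ h1 => exact h1.reidx e

theorem Tr.finite {P : AP k ι} (h : Tr k ι P) : Finite ι := by
  induction h with
  | vtx a _ _ => infer_instance
  | @glue ι ι' _ _ _ _ h1 h2 =>
    have : Finite ι := Finite.of_injective _ (Option.some_injective ι)
    have : Finite ι' := Finite.of_injective _ (Option.some_injective ι')
    infer_instance
  | reidx e _ h1 => exact Finite.of_equiv _ e

end Pool.Agent.AdmG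

end

section

/-! Boundedness of the number of affine quotients. -/

namespace Pool.Agent.AdmG

open Pool.Agent.Adm
open scoped OnePoint

variable {k F ι : Type} [Field k] [IsAlgClosed k] [Field F] [Fintype F]

theorem bound_vtx (θ : F →+* k) [Finite ι] (a : ι → OnePoint k) (ha : Function.Injective a) :
    ∃ N : ℕ, ∀ (G : Type) [Group G] [Finite G] (d : ι → Dat k G) (H : Subgroup G),
      vtx a G d H → Nat.card (H →* Aff F) ≤ N := by
  have hf : Finite {x : k // (x : OnePoint k) ∈ Set.range a} :=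
    Finite.of_injective (fun x => x.2.choose) fun x y e => Subtype.ext (OnePoint.coe_injective
      (x.2.choose_spec.symm.trans ((congrArg a e).trans y.2.choose_spec)))
  have := Fintype.ofFinite {x : k // (x : OnePoint k) ∈ Set.range a}
  refine ⟨Fintype.card F ^ Fintype.card {x : k // (x : OnePoint k) ∈ Set.range a} *
    Fintype.card F ^ (Fintype.card {x : k // (x : OnePoint k) ∈ Set.range a} + 1), ?_⟩
  rintro G _ _ d H ⟨c, hT, -, hc⟩
  have h1 : (c.restr H hc.le).ι.range = ⊤ := by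
    rw [c.restr_range, hc, Subgroup.subgroupOf_self]
  have h2 := hT.restr H hc.le
  refine card_hom_aff_le _ _ ((c.restr H hc.le).card_hom_le θ h1
    (fun i => ((Fintype.equivFin {x : k // (x : OnePoint k) ∈ Set.range a}).symm i).1) _ h2
    fun x hx => ⟨Fintype.equivFin _ ⟨x, hx⟩, by simp⟩).2 fun χ => card_fibre_le θ χ _ fun ψ hψ => ?_
  obtain ⟨l, hl, z, hz⟩ := exists_relation (c.restr H hc.le) θ
    (fun x : {x : k // (x : OnePoint k) ∈ Set.range a} => x.1) Subtype.val_injective _ h2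
    (fun x hx => ⟨⟨x, hx⟩, rfl⟩) χ ψ hψ
  refine ⟨l, hl, z, fun g => ?_⟩
  obtain ⟨σ, rfl⟩ : g ∈ (c.restr H hc.le).ι.range := h1 ▸ Subgroup.mem_top g
  exact hz σ

theorem Tr.bound (θ : F →+* k) {P : AP k ι} (h : Tr k ι P) :
    ∃ N : ℕ, ∀ (G : Type) [Group G] [Finite G] (d : ι → Dat k G) (H : Subgroup G),
      P G d H → Nat.card (H →* Aff F) ≤ N := by
  induction h with
  | vtx a ha _ => exact bound_vtx θ a ha
  | glue _ _ ih1 ih2 =>
    obtain ⟨N1, h1⟩ := ih1
    obtain ⟨N2, h2⟩ := ih2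
    refine ⟨N1 * N2, ?_⟩
    rintro G _ _ d H ⟨x, H1, H2, a1, a2, rfl⟩
    exact (card_hom_sup_le H1 H2).trans (Nat.mul_le_mul (h1 G _ _ a1) (h2 G _ _ a2))
  | reidx e _ ih =>
    obtain ⟨N, h1⟩ := ih
    exact ⟨N, fun G _ _ d H a => h1 G _ H a⟩

theorem Tr.bound_cl (θ : F →+* k) {J I : Type} {P : AP k ((J ⊕ J) ⊕ I)} (h : Tr k _ P) :
    ∃ N : ℕ, ∀ (G : Type) [Group G] [Finite G], Cl P G → Nat.card (G →* Aff F) ≤ N := by
  obtain ⟨N, h1⟩ := h.bound θ
  have := h.finite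
  have : Finite J := Finite.of_injective (fun j : J => (.inl (.inl j) : (J ⊕ J) ⊕ I))
    fun _ _ e => Sum.inl_injective (Sum.inl_injective e)
  refine ⟨N * Nat.card (Aff F) ^ Nat.card J, ?_⟩
  rintro G _ _ ⟨d, H, t, a, -, ht⟩
  exact (card_hom_gen_le H t ht).trans (Nat.mul_le_mul_right _ (h1 G d H a))

end Pool.Agent.AdmG

end

section

/-! Adjoining an affine covering on one line. -/

namespace Pool.Agent.AdmG

open Pool.Agent.Adm
open scoped OnePoint
open Polynomial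

variable {k F ι : Type} [Field k] [IsAlgClosed k] [Field F] [Fintype F]

theorem dom_vtx_core (θ : F →+* k) (a : ι → OnePoint k) (n : ι → ℤ) (f : k[X])
    (c2 : Cover k (Aff F)) (h : AffLab θ c2 f)
    (h1 : ∀ i, labAt f (a i) ≡ n i [ZMOD (Fintype.card F - 1 : ℕ)])
    (h2 : ∀ x, x ∉ Set.range a → labAt f x ≡ 0 [ZMOD (Fintype.card F - 1 : ℕ)])
    (G : Type) [Group G] (d : ι → Dat k G) (H : Subgroup G) (hd : vtx a G d H) (ξ : ι → k)
    (hξ : Roots (RingHom.id k) (Fintype.card F - 1) d ξ) :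
    ∃ (y : ι → Aff F) (H' : Subgroup (G × Aff F)),
      vtx a (G × Aff F) (ovr (Fintype.card F - 1) d ξ y) H' ∧
      H'.map (MonoidHom.fst G (Aff F)) = H ∧ (∀ i, θ (y i).u = (ξ i ^ (d i).1) ^ n i) ∧
      (¬ Aff.HasFix c2.ι.range → ¬ Aff.HasFix (H'.map (MonoidHom.snd G (Aff F)))) := by
  obtain ⟨c1, hT, hM, rfl⟩ := hd
  obtain ⟨c, hg, hnf⟩ := exists_good θ c1 c2 f h
  have key : ∀ i, ∃ g2 : Aff F,
      c.Mono (a i) ((d i).1 * (Fintype.card F - 1)) (ξ i) ((d i).2.2, g2) ∧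
        θ g2.u = (ξ i ^ (d i).1) ^ labAt f (a i) := fun i =>
    hg.2 (a i) (d i).1 (ξ i) (d i).2.2 (hξ i).1 (by rw [(hξ i).2]; exact hM i)
  choose y hy1 hy2 using key
  refine ⟨y, c.ι.range, ⟨c, hg.tame hT h2, hy1, rfl⟩, hg.1, fun i => ?_, hnf⟩
  have h0 : ξ i ≠ 0 := (hξ i).1.ne_zero (hy1 i).1.ne'
  have h3 : labAt f (a i) - n i ≡ 0 [ZMOD (Fintype.card F - 1 : ℕ)] := by
    have := (h1 i).sub_right (n i)
    rwa [sub_self] at this
  have h4 := zpow_eq_one_VP (hξ i).1 h3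
  rw [zpow_sub₀ (pow_ne_zero _ h0), div_eq_one_iff_eq (zpow_ne_zero _ (pow_ne_zero _ h0))] at h4
  rw [hy2, h4]

omit [IsAlgClosed k] in
theorem exists_poly_Ext1 [Fintype ι] (a : ι → OnePoint k) (ha : Function.Injective a)
    (n : ι → ℤ) (hn : R0 n) (m : ℕ) (hm : 0 < m) : ∃ f : k[X], f ≠ 0 ∧
      (∀ i, labAt f (a i) ≡ n i [ZMOD m]) ∧
      ∀ x, x ∉ Set.range a → labAt f x ≡ 0 [ZMOD m] := by
  classical
  have hb : ∀ i : {i // a i ≠ ∞}, ∃ b : k, (b : OnePoint k) = a i := fun i =>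
    OnePoint.ne_infty_iff_exists.1 i.2
  choose b hb using hb
  have hbi : Function.Injective b := fun i j e =>
    Subtype.ext (ha (by rw [← hb, ← hb, e]))
  have hm' : (m : ℤ) ≠ 0 := by exact_mod_cast hm.ne'
  have hmod : ∀ x : ℤ, (((x % m).toNat : ℕ) : ℤ) ≡ x [ZMOD m] := fun x => by
    rw [Int.toNat_of_nonneg (Int.emod_nonneg x hm')]
    exact Int.mod_modEq x m
  obtain ⟨r1, r2, r3, r4⟩ := rootMultiplicity_prod_X_sub_C b hbi fun i => (n i % m).toNat
  generalize (∏ j, (X - C (b j)) ^ (n j % m).toNat : k[X]) = f at r1 r2 r3 r4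
  have hinf : labAt f ∞ ≡ ∑ i with a i = ∞, n i [ZMOD m] := by
    have e1 : ((f.natDegree : ℕ) : ℤ) ≡ ∑ i : {i // a i ≠ ∞}, n i [ZMOD m] := by
      rw [r3, Nat.cast_sum]
      exact Int.ModEq.sum fun i _ => hmod _
    have e2 : ∑ i : {i // a i ≠ ∞}, n i = ∑ i with ¬ a i = ∞, n i :=
      (Finset.sum_subtype _ (by simp) n).symm
    have e3 := Finset.sum_filter_add_sum_filter_not Finset.univ (fun i => a i = ∞) n
    rw [show ∑ i, n i = 0 from hn] at e3
    have e4 := e1.neg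
    rw [e2, neg_eq_of_add_eq_zero_left e3] at e4
    exact e4
  refine ⟨f, r4.ne_zero, fun i => ?_, fun x hx => ?_⟩
  · by_cases hi : a i = ∞
    · have : (Finset.univ.filter fun j => a j = ∞) = {i} := by
        ext j
        simp only [Finset.mem_filter, Finset.mem_univ, true_and, Finset.mem_singleton]
        exact ⟨fun hj => ha (hj.trans hi.symm), fun hj => hj ▸ hi⟩
      rw [this, Finset.sum_singleton] at hinf
      rwa [hi]
    · rw [← hb ⟨i, hi⟩]
      change ((f.rootMultiplicity (b ⟨i, hi⟩) : ℕ) : ℤ) ≡ _ [ZMOD m]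
      rw [r1]
      exact hmod _
  · induction x using OnePoint.rec with
    | infty =>
      rw [Finset.sum_eq_zero fun j hj => absurd ⟨j, (Finset.mem_filter.1 hj).2⟩ hx] at hinf
      exact hinf
    | coe y =>
      change ((f.rootMultiplicity y : ℕ) : ℤ) ≡ _ [ZMOD m]
      rw [r2 y (by rintro ⟨i, rfl⟩; exact hx ⟨i, (hb i).symm⟩)]
      rfl

theorem dom_vtx [Fintype ι] (θ : F →+* k) (a : ι → OnePoint k) (ha : Function.Injective a)
    (n : ι → ℤ) (hn : R0 n) : Dom False (RingHom.id k) θ (vtx a) (vtx a) n := by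
  intro G _ _ d H hd ξ hξ
  obtain ⟨f, hf, h1, h2⟩ := exists_poly_Ext1 a ha n hn _ (card_sub_one_pos_VP F)
  obtain ⟨c2, h⟩ := exists_affLab θ f hf
  obtain ⟨y, H', k1, k2, k3, -⟩ := dom_vtx_core θ a n f c2 h h1 h2 G d H hd ξ hξ
  exact ⟨y, H', k1, k2, k3, False.elim⟩

end Pool.Agent.AdmG

end

section

/-! Adjoining an affine covering on a tree. -/

namespace Pool.Agent.AdmG

open Pool.Agent.Adm
open scoped OnePoint

variable {k k' k'' F ι ι' : Type} [Field k] [Field k'] [Field k''] [Field F] [Fintype F]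

theorem Dom.of_lifts {b : Prop} {φ : k →+* k'} {ψ : k' →+* k''} {θ : F →+* k''} {P : AP k ι}
    {P' : AP k' ι} {P'' : AP k'' ι} {n : ι → ℤ} (h : Lifts φ P P') (h' : Dom b ψ θ P' P'' n) :
    Dom b (ψ.comp φ) θ P P'' n := by
  intro G _ _ d H hd ξ hξ
  exact h' G (fun i => (d i).map φ) H (h G d H hd) ξ hξ

theorem Dom.reidx {b : Prop} {φ : k →+* k'} {θ : F →+* k'} {P : AP k ι} {P' : AP k' ι}
    {n : ι → ℤ} (e : ι ≃ ι') (h : Dom b φ θ P P' n) :
    Dom b φ θ (reidx e P) (reidx e P') fun i => n (e.symm i) := by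
  intro G _ _ d H hd ξ hξ
  obtain ⟨y, H', h1, h2, h3, h4⟩ :=
    h G (fun i => d (e i)) H hd (fun i => ξ (e i)) fun i => hξ (e i)
  refine ⟨fun j => y (e.symm j), H', ?_, h2, fun j => ?_, h4⟩
  · have e1 : (fun i => ovr (Fintype.card F - 1) d ξ (fun j => y (e.symm j)) (e i)) =
        ovr (Fintype.card F - 1) (fun i => d (e i)) (fun i => ξ (e i)) y := by
      funext i
      simp only [ovr, Equiv.symm_apply_apply]
    change P' _ (fun i => ovr (Fintype.card F - 1) d ξ (fun j => y (e.symm j)) (e i)) H'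
    rw [e1]
    exact h1
  · have := h3 (e.symm j)
    simpa only [Equiv.apply_symm_apply] using this

theorem Dom.glue [IsAlgClosed k'] {b1 b2 b : Prop} (hb : b → b1 ∨ b2) {φ : k →+* k'}
    {θ : F →+* k'} {P : AP k (Option ι)} {Q : AP k (Option ι')} {P' : AP k' (Option ι)}
    {Q' : AP k' (Option ι')} {n : Option ι → ℤ} {n' : Option ι' → ℤ} (hP : Nice P)
    (hP' : Nice P') (hQ' : Nice Q') (h : Dom b1 φ θ P P' n) (h' : Dom b2 φ θ Q Q' n')
    (hn : n' none = -n none) :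
    Dom b φ θ (glue P Q) (glue P' Q') (Sum.elim (fun i => n (some i)) fun i => n' (some i)) := by
  rintro G _ _ d H ⟨⟨e, ζ, g⟩, H1, H2, p1, p2, rfl⟩ ξ hξ
  obtain ⟨he, hζ, -, -⟩ := hP.valid G _ H1 p1 none
  change 0 < e at he
  change IsPrimitiveRoot ζ e at hζ
  obtain ⟨ξ0, k1, k2⟩ := exists_root_lift (card_sub_one_cast_ne_zero θ) he
    (hζ.map_of_injective φ.injective)
  obtain ⟨y, H1', a1, a2, a3, a4⟩ := h G _ H1 p1 (fun o => o.elim ξ0 fun i => ξ (.inl i)) (by
    rintro (_ | i)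
    · exact ⟨k1, k2⟩
    · exact hξ (.inl i))
  obtain ⟨y', H2', c1, c2, c3, c4⟩ := h' G _ H2 p2 (fun o => o.elim ξ0⁻¹ fun i => ξ (.inr i)) (by
    rintro (_ | i)
    · refine ⟨k1.inv, ?_⟩
      change ξ0⁻¹ ^ (Fintype.card F - 1) = φ ζ⁻¹
      rw [inv_pow, k2, map_inv₀]
    · exact hξ (.inr i))
  have hu : (y none).u = (y' none).u := by
    refine Units.ext (θ.injective ?_)
    have b1 : θ (y none).u = (ξ0 ^ e) ^ n none := a3 none
    have b2 : θ (y' none).u = (ξ0⁻¹ ^ e) ^ n' none := c3 none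
    rw [b1, b2, hn, inv_pow, inv_zpow', neg_neg]
  have hF : ((e * (Fintype.card F - 1) : ℕ) : F) ≠ 0 := by
    intro h0
    have : NeZero (e * (Fintype.card F - 1)) :=
      ⟨(Nat.mul_pos he (card_sub_one_pos_VP F)).ne'⟩
    have h1 : ((e * (Fintype.card F - 1) : ℕ) : k') ≠ 0 := k1.neZero'.out
    apply h1
    rw [← map_natCast θ, h0, map_zero]
  obtain ⟨γ, hγ⟩ := Aff.exists_conj hu fun w =>
    ⟨Aff.eq_one_of_pow hF (congrArg Prod.snd (hP'.valid _ _ _ a1 none).2.2.1) w,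
      Aff.eq_one_of_pow hF (congrArg Prod.snd (hQ'.valid _ _ _ c1 none).2.2.1) (hu ▸ w)⟩
  let f : G × Aff F →* G × Aff F := (MonoidHom.id G).prodMap (MulAut.conj γ).toMonoidHom
  have hf : ∀ (x : G) (z : Aff F), f (x, z) = (x, γ * z * γ⁻¹) := fun _ _ => rfl
  have c5 := hQ'.map _ _ f _ _ c1
  refine ⟨Sum.elim (fun i => y (some i)) fun i => γ * y' (some i) * γ⁻¹, H1' ⊔ H2'.map f,
    ⟨(e * (Fintype.card F - 1), ξ0, (g, y none)), H1', H2'.map f, ?_, ?_, rfl⟩, ?_, ?_, ?_⟩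
  · refine (congrArg (fun t => P' (G × Aff F) t H1') ?_).mp a1
    funext o
    rcases o with _ | i <;> rfl
  · refine (congrArg (fun t => Q' (G × Aff F) t (H2'.map f)) ?_).mp c5
    funext o
    rcases o with _ | i
    · change (e * (Fintype.card F - 1), ξ0⁻¹, f (g, y' none)) =
        (e * (Fintype.card F - 1), ξ0⁻¹, (g, y none))
      rw [hf, hγ]
    · rfl
  · rw [Subgroup.map_sup, a2, Subgroup.map_map, ← c2]
    rfl
  · rintro (i | i)
    · exact a3 (some i)
    · have b1 : θ (y' (some i)).u = (ξ (.inr i) ^ (d (.inr i)).1) ^ n' (some i) := c3 (some i)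
      change θ (γ * y' (some i) * γ⁻¹).u = (ξ (.inr i) ^ (d (.inr i)).1) ^ n' (some i)
      rw [← b1, Aff.mul_u, Aff.mul_u, Aff.inv_u, mul_inv_cancel_comm]
  · intro hb'
    rcases hb hb' with w | w
    · obtain ⟨a, ha, hm⟩ := a4 w
      exact ⟨a, ha, Subgroup.mem_sup_left hm⟩
    · obtain ⟨a, ha, hm⟩ := c4 w
      exact ⟨γ * a * γ⁻¹, fun w' => ha (conj_eq_one_iff.1 w'),
        Subgroup.mem_sup_right ⟨_, hm, hf 1 a⟩⟩

theorem Tr.dom [IsAlgClosed k] (θ : F →+* k) {P : AP k ι} (h : Tr k ι P) :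
    ∀ [Fintype ι] (n : ι → ℤ), R0 n → Dom False (RingHom.id k) θ P P n := by
  induction h with
  | vtx a ha h3 =>
    intro _ n hn
    exact dom_vtx θ a ha n hn
  | @glue ι ι' P Q hP hQ ihP ihQ =>
    intro inst n hn
    have f1 := hP.finite
    have f2 := hQ.finite
    have f3 : Finite ι := Finite.of_injective some (Option.some_injective ι)
    have f4 : Finite ι' := Finite.of_injective some (Option.some_injective ι')
    let _ := Fintype.ofFinite ι
    let _ := Fintype.ofFinite ι'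
    have hs : ∑ i, n (.inl i) + ∑ i, n (.inr i) = 0 := by
      rw [← Fintype.sum_sum_type]
      obtain rfl : inst = instFintypeSum ι ι' := Subsingleton.elim _ _
      exact hn
    have d1 := ihP (fun o => o.elim (-∑ i, n (.inl i)) fun i => n (.inl i)) (by
      unfold R0
      rw [Fintype.sum_option]
      exact neg_add_cancel _)
    have d2 := ihQ (fun o => o.elim (∑ i, n (.inl i)) fun i => n (.inr i)) (by
      unfold R0
      rw [Fintype.sum_option]
      exact hs)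
    have d3 := Dom.glue (b := False) False.elim hP.nice hP.nice hQ.nice d1 d2 (neg_neg _).symm
    refine (congrArg (fun t => Dom False (RingHom.id k) θ (AdmG.glue P Q) (AdmG.glue P Q) t)
      ?_).mp d3
    funext o
    rcases o with i | i <;> rfl
  | @reidx ι ι' e P hP ih =>
    intro _ n hn
    have f1 := hP.finite
    let _ := Fintype.ofFinite ι
    have d1 := (ih (fun i => n (e i)) (by
      unfold R0
      rw [Equiv.sum_comp e n]
      exact hn)).reidx e
    simpa only [Equiv.apply_symm_apply] using d1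

end Pool.Agent.AdmG

end

section

/-! Strictness of a step after gluing pairs of marked points. -/

namespace Pool.Agent.AdmG

open Pool.Agent.Adm
open scoped OnePoint

variable {k k' J I : Type} [Field k] [Field k'] {P : AP k ((J ⊕ J) ⊕ I)} {P' : AP k' ((J ⊕ J) ⊕ I)}

theorem Cl.lift {φ : k →+* k'} (h : Lifts φ P P') (G : Type) [Group G] [Finite G] (hG : Cl P G) :
    Cl P' G := by
  obtain ⟨d, H, t, h1, h2, h3⟩ := hG
  refine ⟨fun i => (d i).map φ, H, t, h G d H h1, fun j => ?_, h3⟩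
  simp only [h2 j, Dat.map, dinv, dpush, map_inv₀]

theorem Nice.cl_punit (h : Nice P) : Cl P PUnit := by
  refine ⟨fun _ => (1, 1, 1), ⊥, fun _ => 1, h.triv _, fun j => ?_, Subsingleton.elim _ _⟩
  exact Prod.ext rfl (Prod.ext inv_one.symm (Subsingleton.elim _ _))

theorem Cl.bigger [IsAlgClosed k'] {F : Type} [Field F] [Fintype F] {φ : k →+* k'}
    {θ : F →+* k'} {n : (J ⊕ J) ⊕ I → ℤ} (hP : Nice P) (hP' : Nice P') (hn : RP n)
    (h : Dom True φ θ P P' n) (G : Type) [Group G] [Finite G] (hG : Cl P G) :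
    ∃ (G' : Type) (_ : Group G') (_ : Finite G'), Cl P' G' ∧
      Nat.card (G →* Aff F) < Nat.card (G' →* Aff F) := by
  obtain ⟨d, H, t, h1, h2, h3⟩ := hG
  have hv := hP.valid G d H h1
  choose ξ0 r1 r2 using fun i => exists_root_lift (card_sub_one_cast_ne_zero θ) (hv i).1
    ((hv i).2.1.map_of_injective φ.injective)
  let ξ : (J ⊕ J) ⊕ I → k' := Sum.elim
    (Sum.elim (fun j => ξ0 (.inl (.inl j))) fun j => (ξ0 (.inl (.inl j)))⁻¹) fun i => ξ0 (.inr i)
  have e1 : ∀ j, (d (.inl (.inr j))).1 = (d (.inl (.inl j))).1 := fun j => by rw [h2 j]; rfl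
  have e2 : ∀ j, (d (.inl (.inr j))).2.1 = (d (.inl (.inl j))).2.1⁻¹ := fun j => by
    rw [h2 j]; rfl
  have e3 : ∀ j, (d (.inl (.inr j))).2.2 = (t j)⁻¹ * (d (.inl (.inl j))).2.2 * t j := fun j => by
    rw [h2 j]; rfl
  have hξ : Roots φ (Fintype.card F - 1) d ξ := by
    rintro ((j | j) | i)
    · exact ⟨r1 _, r2 _⟩
    · refine ⟨?_, ?_⟩
      · rw [e1]
        exact (r1 _).inv
      · rw [e2, map_inv₀, ← r2]
        exact inv_pow _ _
    · exact ⟨r1 _, r2 _⟩
  obtain ⟨y, H', k1, k2, k3, k4⟩ := h G d H h1 ξ hξ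
  obtain ⟨a, a1, a2⟩ := k4 trivial
  have hv' := hP'.valid _ _ _ k1
  have hone : ∀ i, (y i).u = 1 → y i = 1 := fun i hi => by
    obtain ⟨b1, b2, b3, -⟩ := hv' i
    have : NeZero ((d i).1 * (Fintype.card F - 1)) := ⟨b1.ne'⟩
    have b4 : (((d i).1 * (Fintype.card F - 1) : ℕ) : k') ≠ 0 :=
      (IsPrimitiveRoot.neZero' (n := (d i).1 * (Fintype.card F - 1)) b2).ne
    refine Aff.eq_one_of_pow (e := (d i).1 * (Fintype.card F - 1)) (fun b5 => b4 ?_)
      (congrArg Prod.snd b3) hi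
    rw [← map_natCast θ, b5, map_zero]
  have hu : ∀ j, (y (.inl (.inl j))).u = (y (.inl (.inr j))).u := fun j => by
    refine Units.ext (θ.injective ?_)
    rw [k3, k3, hn j, e1]
    change _ = ((ξ0 (.inl (.inl j)))⁻¹ ^ _) ^ _
    rw [inv_pow, inv_zpow', neg_neg]
    rfl
  choose γ hγ using fun j => Aff.exists_conj (hu j) fun b => ⟨hone _ b, hone _ (hu j ▸ b)⟩
  let t' : J → G × Aff F := fun j => (t j, γ j)
  let M : Subgroup (G × Aff F) := H' ⊔ Subgroup.closure (Set.range t')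
  have hM : H' ≤ M := le_sup_left
  have ht : ∀ j, t' j ∈ M := fun j =>
    (le_sup_right : _ ≤ M) (Subgroup.subset_closure ⟨j, rfl⟩)
  obtain ⟨d', m1, m2⟩ := hP'.restr _ _ H' M k1 hM
  have f1 : ∀ i, (d' i).1 = (d i).1 * (Fintype.card F - 1) := fun i => congrArg Prod.fst (m2 i)
  have f2 : ∀ i, (d' i).2.1 = ξ i := fun i => congrArg (fun x => x.2.1) (m2 i)
  have f3 : ∀ i, ((d' i).2.2 : G × Aff F) = ((d i).2.2, y i) := fun i =>
    congrArg (fun x => x.2.2) (m2 i)
  refine ⟨M, inferInstance, inferInstance,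
    ⟨d', H'.subgroupOf M, fun j => ⟨t' j, ht j⟩, m1, fun j => ?_, ?_⟩, ?_⟩
  · refine Prod.ext ?_ (Prod.ext ?_ (Subtype.ext ?_))
    · change _ = (d' (.inl (.inl j))).1
      rw [f1, f1, e1]
    · change _ = (d' (.inl (.inl j))).2.1⁻¹
      rw [f2, f2]
      rfl
    · change _ = (t' j)⁻¹ * ((d' (.inl (.inl j))).2.2 : G × Aff F) * t' j
      rw [f3, f3, e3, ← hγ j]
      refine Prod.ext rfl ?_
      change _ = (γ j)⁻¹ * (γ j * y (.inl (.inr j)) * (γ j)⁻¹) * γ j
      group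
  · refine Subgroup.map_injective M.subtype_injective ?_
    rw [Subgroup.map_sup, Subgroup.subgroupOf_map_subtype, inf_eq_left.2 hM,
      MonoidHom.map_closure, ← Set.range_comp, ← MonoidHom.range_eq_map, Subgroup.range_subtype]
    rfl
  · refine card_hom_lt ((MonoidHom.fst G (Aff F)).comp M.subtype) ?_
      ((MonoidHom.snd G (Aff F)).comp M.subtype) ⟨(1, a), hM a2⟩ rfl a1
    rw [← MonoidHom.range_eq_top, MonoidHom.range_comp, Subgroup.range_subtype, Subgroup.map_sup,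
      k2, MonoidHom.map_closure, ← Set.range_comp]
    exact h3

theorem Step.not_le [IsAlgClosed k'] {φ : k →+* k'} (h : Step RP φ P P') (hP : Tr k _ P)
    (hP' : Tr k' _ P') : ¬ ∀ (G : Type) [Group G] [Finite G], Cl P' G → Cl P G := by
  intro hq
  obtain ⟨-, F, _, _, θ, n, hn, hd⟩ := h
  obtain ⟨N, hN⟩ := hP'.bound_cl θ
  have key : ∀ m : ℕ, ∃ (G : Type) (_ : Group G) (_ : Finite G), Cl P' G ∧
      m ≤ Nat.card (G →* Aff F) := by
    intro m
    induction m with
    | zero => exact ⟨PUnit, inferInstance, inferInstance, hP'.nice.cl_punit, Nat.zero_le _⟩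
    | succ m ih =>
      obtain ⟨G, _, _, h1, h2⟩ := ih
      obtain ⟨G', _, _, h3, h4⟩ := Cl.bigger hP.nice hP'.nice hn hd G (hq G h1)
      exact ⟨G', _, inferInstance, h3, h2.trans_lt h4⟩
  obtain ⟨G, _, _, h1, h2⟩ := key (N + 1)
  have := hN G h1
  omega

end Pool.Agent.AdmG

end

section

/-! Gluing two trees: the geometry. -/

namespace Pool.Agent.AdmG

open Pool.Agent.Adm
open scoped OnePoint

variable {k ι ι' : Type} [Field k]

/-- The special points of the glued tree. -/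
def RC.gpt (X : RC k (Option ι)) (Y : RC k (Option ι')) :
    (Option (X.E ⊕ Y.E) ⊕ Option (X.E ⊕ Y.E)) ⊕ (ι ⊕ ι') → (X.V ⊕ Y.V) × OnePoint k
  | .inl (.inl none) => Prod.map .inl id (X.pt (.inr none))
  | .inl (.inr none) => Prod.map .inr id (Y.pt (.inr none))
  | .inl (.inl (some (.inl ε))) => Prod.map .inl id (X.pt (.inl (.inl ε)))
  | .inl (.inr (some (.inl ε))) => Prod.map .inl id (X.pt (.inl (.inr ε)))
  | .inl (.inl (some (.inr ε))) => Prod.map .inr id (Y.pt (.inl (.inl ε)))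
  | .inl (.inr (some (.inr ε))) => Prod.map .inr id (Y.pt (.inl (.inr ε)))
  | .inr (.inl i) => Prod.map .inl id (X.pt (.inr (some i)))
  | .inr (.inr i) => Prod.map .inr id (Y.pt (.inr (some i)))

/-- Sorting the special points of the glued tree by the side they come from. -/
def side_Real2 (A B ι ι' : Type) : (Option (A ⊕ B) ⊕ Option (A ⊕ B)) ⊕ (ι ⊕ ι') ≃
    ((A ⊕ A) ⊕ Option ι) ⊕ ((B ⊕ B) ⊕ Option ι') where
  toFun
    | .inl (.inl none) => .inl (.inr none)
    | .inl (.inr none) => .inr (.inr none)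
    | .inl (.inl (some (.inl ε))) => .inl (.inl (.inl ε))
    | .inl (.inr (some (.inl ε))) => .inl (.inl (.inr ε))
    | .inl (.inl (some (.inr ε))) => .inr (.inl (.inl ε))
    | .inl (.inr (some (.inr ε))) => .inr (.inl (.inr ε))
    | .inr (.inl i) => .inl (.inr (some i))
    | .inr (.inr i) => .inr (.inr (some i))
  invFun
    | .inl (.inr none) => .inl (.inl none)
    | .inr (.inr none) => .inl (.inr none)
    | .inl (.inl (.inl ε)) => .inl (.inl (some (.inl ε)))
    | .inl (.inl (.inr ε)) => .inl (.inr (some (.inl ε)))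
    | .inr (.inl (.inl ε)) => .inl (.inl (some (.inr ε)))
    | .inr (.inl (.inr ε)) => .inl (.inr (some (.inr ε)))
    | .inl (.inr (some i)) => .inr (.inl i)
    | .inr (.inr (some i)) => .inr (.inr i)
  left_inv := by rintro (((_ | _ | _) | (_ | _ | _)) | (_ | _)) <;> rfl
  right_inv := by rintro (((_ | _) | (_ | _)) | ((_ | _) | (_ | _))) <;> rfl

theorem gpt_eq_Real2 (X : RC k (Option ι)) (Y : RC k (Option ι')) :
    X.gpt Y = Sum.elim (fun h => Prod.map .inl id (X.pt h)) (fun h => Prod.map .inr id (Y.pt h)) ∘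
      side_Real2 X.E Y.E ι ι' := by
  funext h
  rcases h with (((_ | _ | _) | (_ | _ | _)) | (_ | _)) <;> rfl

theorem RC.gpt_inj (X : RC k (Option ι)) (Y : RC k (Option ι')) :
    Function.Injective (X.gpt Y) := by
  rw [gpt_eq_Real2]
  refine Function.Injective.comp (Function.Injective.sumElim
    ((Sum.inl_injective.prodMap Function.injective_id).comp X.inj)
    ((Sum.inr_injective.prodMap Function.injective_id).comp Y.inj) fun a b e => ?_)
    (Equiv.injective _)
  exact Sum.inl_ne_inr (congrArg Prod.fst e)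

theorem RC.mem_range_gpt_inl (X : RC k (Option ι)) (Y : RC k (Option ι')) (v : X.V)
    (a : OnePoint k) : (Sum.inl v, a) ∈ Set.range (X.gpt Y) ↔ (v, a) ∈ Set.range X.pt := by
  rw [gpt_eq_Real2, EquivLike.range_comp]
  simp [Prod.ext_iff]

theorem RC.mem_range_gpt_inr (X : RC k (Option ι)) (Y : RC k (Option ι')) (v : Y.V)
    (a : OnePoint k) : (Sum.inr v, a) ∈ Set.range (X.gpt Y) ↔ (v, a) ∈ Set.range Y.pt := by
  rw [gpt_eq_Real2, EquivLike.range_comp]
  simp [Prod.ext_iff]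

theorem RC.gpt_conn (X : RC k (Option ι)) (Y : RC k (Option ι')) (v w : X.V ⊕ Y.V) :
    Relation.EqvGen (fun a b => ∃ ε, (X.gpt Y (.inl (.inl ε))).1 = a ∧
      (X.gpt Y (.inl (.inr ε))).1 = b) v w := by
  generalize hr : (fun a b => ∃ ε, (X.gpt Y (.inl (.inl ε))).1 = a ∧
    (X.gpt Y (.inl (.inr ε))).1 = b) = r
  have h1 : ∀ a b, Relation.EqvGen r (.inl a) (.inl b) := fun a b => by
    induction X.conn a b with
    | rel a b h =>
      obtain ⟨ε, rfl, rfl⟩ := h
      exact .rel _ _ (hr ▸ ⟨some (.inl ε), rfl, rfl⟩)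
    | refl a => exact .refl _
    | symm a b _ ih => exact ih.symm
    | trans a b c _ _ ih ih' => exact ih.trans _ _ _ ih'
  have h2 : ∀ a b, Relation.EqvGen r (.inr a) (.inr b) := fun a b => by
    induction Y.conn a b with
    | rel a b h =>
      obtain ⟨ε, rfl, rfl⟩ := h
      exact .rel _ _ (hr ▸ ⟨some (.inr ε), rfl, rfl⟩)
    | refl a => exact .refl _
    | symm a b _ ih => exact ih.symm
    | trans a b c _ _ ih ih' => exact ih.trans _ _ _ ih'
  have h0 : r (.inl (X.pt (.inr none)).1) (.inr (Y.pt (.inr none)).1) := hr ▸ ⟨none, rfl, rfl⟩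
  have h3 : ∀ a b, Relation.EqvGen r (.inl a) (.inr b) := fun a b =>
    ((h1 a _).trans _ _ _ (.rel _ _ h0)).trans _ _ _ (h2 _ b)
  rcases v with v | v <;> rcases w with w | w
  exacts [h1 v w, h3 v w, (h3 w v).symm, h2 v w]

theorem RC.gpt_stable (X : RC k (Option ι)) (Y : RC k (Option ι')) (v : X.V ⊕ Y.V) :
    2 < Nat.card {h // (X.gpt Y h).1 = v} := by
  rw [gpt_eq_Real2]
  refine lt_of_lt_of_eq ?_ (Nat.card_congr ((side_Real2 X.E Y.E ι ι').subtypeEquiv
    (q := fun h => (Sum.elim (fun h => Prod.map Sum.inl id (X.pt h))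
      (fun h => Prod.map Sum.inr id (Y.pt h)) h).1 = v) fun _ => Iff.rfl)).symm
  rcases v with v | v
  · refine (X.stable v).trans_eq (Nat.card_eq_of_bijective
      (fun h => ⟨.inl h.1, congrArg Sum.inl h.2⟩) ⟨fun a b e => Subtype.ext
        (Sum.inl_injective (congrArg Subtype.val e)), ?_⟩)
    rintro ⟨h | h, e⟩
    · exact ⟨⟨h, Sum.inl_injective e⟩, rfl⟩
    · exact absurd e Sum.inr_ne_inl
  · refine (Y.stable v).trans_eq (Nat.card_eq_of_bijective
      (fun h => ⟨.inr h.1, congrArg Sum.inr h.2⟩) ⟨fun a b e => Subtype.ext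
        (Sum.inr_injective (congrArg Subtype.val e)), ?_⟩)
    rintro ⟨h | h, e⟩
    · exact absurd e Sum.inl_ne_inr
    · exact ⟨⟨h, Sum.inr_injective e⟩, rfl⟩

theorem RC.gpt_gauge (X : RC k (Option ι)) (Y : RC k (Option ι')) (G : Type) [Group G]
    (t : Option (X.E ⊕ Y.E) → G) : ∃ u : X.V ⊕ Y.V → G,
      ∀ ε, t ε = (u (X.gpt Y (.inl (.inl ε))).1)⁻¹ * u (X.gpt Y (.inl (.inr ε))).1 := by
  obtain ⟨u, hu⟩ := X.gauge G fun ε => t (some (.inl ε))
  obtain ⟨w, hw⟩ := Y.gauge G fun ε => t (some (.inr ε))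
  refine ⟨Sum.elim u fun y => u (X.pt (.inr none)).1 * t none * (w (Y.pt (.inr none)).1)⁻¹ * w y,
    ?_⟩
  rintro (_ | ε | ε)
  · simp [RC.gpt]
  · exact hu ε
  · simp [RC.gpt, hw ε, mul_assoc]

/-- The glued tree. -/
def RC.join (X : RC k (Option ι)) (Y : RC k (Option ι')) : RC k (ι ⊕ ι') where
  V := X.V ⊕ Y.V
  ne := X.ne.map .inl
  E := Option (X.E ⊕ Y.E)
  pt := X.gpt Y
  inj := X.gpt_inj Y
  conn := X.gpt_conn Y
  card := by
    rw [Fintype.card_option, Fintype.card_sum, Fintype.card_sum, ← X.card, ← Y.card]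
    omega
  stable := X.gpt_stable Y
  gauge := X.gpt_gauge Y

end Pool.Agent.AdmG

end

section

/-! Gluing two trees: the coverings. -/

namespace Pool.Agent.AdmG

open Pool.Agent.Adm
open scoped OnePoint

variable {k ι ι' : Type} [Field k]

theorem RC.adm_join (X : RC k (Option ι)) (Y : RC k (Option ι')) :
    (X.join Y).Adm = glue X.Adm Y.Adm := by
  have e1 : ∀ v : X.V, {a | (Sum.inl v, a) ∈ Set.range (X.gpt Y)} =
      {a | (v, a) ∈ Set.range X.pt} := fun v => Set.ext fun a => X.mem_range_gpt_inl Y v a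
  have e2 : ∀ v : Y.V, {a | (Sum.inr v, a) ∈ Set.range (X.gpt Y)} =
      {a | (v, a) ∈ Set.range Y.pt} := fun v => Set.ext fun a => X.mem_range_gpt_inr Y v a
  funext G _ d H
  refine propext ⟨?_, ?_⟩
  · rintro ⟨c, h1, h2, h3, h4⟩
    obtain ⟨x, hx, hx'⟩ := h2 none
    refine ⟨x, _, _, ⟨fun v => c (.inl v), fun v => e1 v ▸ h1 (.inl v),
      fun ε => h2 (some (.inl ε)), ?_, rfl⟩, ⟨fun v => c (.inr v), fun v => e2 v ▸ h1 (.inr v),
      fun ε => h2 (some (.inr ε)), ?_, rfl⟩, ?_⟩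
    · rintro (_ | i)
      · exact hx
      · exact h3 (.inl i)
    · rintro (_ | i)
      · exact hx'
      · exact h3 (.inr i)
    · exact h4.symm.trans iSup_sum
  · rintro ⟨x, H1, H2, ⟨c, a1, a2, a3, a4⟩, ⟨c', b1, b2, b3, b4⟩, rfl⟩
    refine ⟨Sum.elim c c', ?_, ?_, ?_, ?_⟩
    · rintro (v | v)
      · exact (e1 v).symm ▸ a1 v
      · exact (e2 v).symm ▸ b1 v
    · rintro (_ | ε | ε)
      · exact ⟨x, a3 none, b3 none⟩
      · exact a2 ε
      · exact b2 ε
    · rintro (i | i)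
      · exact a3 (some i)
      · exact b3 (some i)
    · rw [← a4, ← b4]
      exact iSup_sum

theorem Tr.real {P : AP k ι} (h : Tr k ι P) : ∃ X : RC k ι, X.Adm = P := by
  induction h with
  | vtx a ha h3 => exact RC.exists_vtx a ha h3
  | glue _ _ ih ih' =>
    obtain ⟨X, rfl⟩ := ih
    obtain ⟨Y, rfl⟩ := ih'
    exact ⟨X.join Y, X.adm_join Y⟩
  | reidx e _ ih =>
    obtain ⟨X, rfl⟩ := ih
    exact X.exists_reidx e

end Pool.Agent.AdmG

end

section

/-! Places of the rational function field. -/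

namespace Pool.Agent.AdmG

open Pool.Agent.Adm
open scoped OnePoint
open Polynomial

variable {k : Type} [Field k] {π : OnePoint k → Place k (RatFunc k)}

open Classical in
/-- The order valuation on Laurent series. -/
noncomputable def ordVal_Plc (k : Type) [Field k] :
    Valuation (LaurentSeries k) (WithZero (Multiplicative ℤ)) where
  toFun x := if x = 0 then 0 else WithZero.exp (-x.order)
  map_zero' := by simp
  map_one' := by simp
  map_mul' x y := by
    by_cases hx : x = 0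
    · simp [hx]
    by_cases hy : y = 0
    · simp [hy]
    rw [if_neg (mul_ne_zero hx hy), if_neg hx, if_neg hy, HahnSeries.order_mul hx hy, neg_add,
      WithZero.exp_add]
  map_add_le_max' x y := by
    by_cases h : x + y = 0
    · simp [h]
    by_cases hx : x = 0
    · simp [hx]
    by_cases hy : y = 0
    · simp [hy]
    simp only [if_neg h, if_neg hx, if_neg hy, le_max_iff, WithZero.exp_le_exp, neg_le_neg_iff]
    exact min_le_iff.1 (HahnSeries.min_order_le_order_add h)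

theorem ordVal_apply_Plc {x : LaurentSeries k} (hx : x ≠ 0) :
    ordVal_Plc k x = WithZero.exp (-x.order) := if_neg hx

theorem surj_Plc {K : Type} [Field K] (v : Valuation K (WithZero (Multiplicative ℤ))) (t : K)
    (ht : v t = WithZero.exp 1) : Function.Surjective v := by
  intro γ
  rcases eq_or_ne γ 0 with rfl | h
  · exact ⟨0, map_zero v⟩
  · refine ⟨t ^ WithZero.log γ, ?_⟩
    rw [map_zpow₀, ht, ← WithZero.exp_zsmul, smul_eq_mul, mul_one, WithZero.exp_log h]

theorem ord_coe_Plc (a : k) (j : RatFunc k →+* LaurentSeries k)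
    (hC : ∀ c, j (RatFunc.C c) = HahnSeries.C c) (hX : j RatFunc.X = expand (a : OnePoint k) 1)
    (P : k[X]) (hP : P ≠ 0) :
    (j (algebraMap k[X] (RatFunc k) P)).order = P.rootMultiplicity a := by
  rw [hom_algebraMap j HahnSeries.C _ hC hX, order_eval₂_expand_coe a 1 one_pos P hP]
  simp

theorem ord_infty_Plc (j : RatFunc k →+* LaurentSeries k)
    (hC : ∀ c, j (RatFunc.C c) = HahnSeries.C c) (hX : j RatFunc.X = expand (∞ : OnePoint k) 1)
    (P : k[X]) (hP : P ≠ 0) :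
    (j (algebraMap k[X] (RatFunc k) P)).order = -(P.natDegree : ℤ) := by
  rw [hom_algebraMap j HahnSeries.C _ hC hX, order_eval₂_expand_infty 1 one_pos P hP]
  simp

theorem exists_isPlc (k : Type) [Field k] : ∃ π : OnePoint k → Place k (RatFunc k), IsPlc π := by
  choose J hC hX using fun a : OnePoint k => exists_chart a 1 one_pos
  have hne : ∀ a (f : RatFunc k), f ≠ 0 → J a f ≠ 0 := fun a f hf => (map_ne_zero (J a)).2 hf
  have hP : ∀ P : k[X], P ≠ 0 → algebraMap k[X] (RatFunc k) P ≠ 0 := fun P h =>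
    RatFunc.algebraMap_ne_zero h
  refine ⟨fun a => ⟨(ordVal_Plc k).comap (J a), ?_, fun c hc => ?_⟩, fun a j h1 h2 f hf => ?_⟩
  · induction a using OnePoint.rec with
    | infty =>
      refine surj_Plc _ (algebraMap k[X] (RatFunc k) X) ?_
      rw [Valuation.comap_apply, ordVal_apply_Plc (hne _ _ (hP _ X_ne_zero)),
        ord_infty_Plc _ (hC _) (hX _) _ X_ne_zero]
      simp
    | coe a =>
      refine surj_Plc _ (algebraMap k[X] (RatFunc k) (X - C a))⁻¹ ?_
      rw [map_inv₀, Valuation.comap_apply, ordVal_apply_Plc (hne _ _ (hP _ (X_sub_C_ne_zero a))),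
        ord_coe_Plc a _ (hC _) (hX _) _ (X_sub_C_ne_zero a), rootMultiplicity_X_sub_C_self,
        ← WithZero.exp_neg]
      simp
  · rw [Valuation.comap_apply, RatFunc.algebraMap_eq_C, hC,
      ordVal_apply_Plc (HahnSeries.C_ne_zero hc), HahnSeries.order_C]
    simp
  · obtain rfl : j = J a := ratFunc_hom_ext _ _ (fun c => (h1 c).trans (hC a c).symm)
      (h2.trans (hX a).symm)
    exact ordVal_apply_Plc (hne a f hf)

theorem IsPlc.val_coe (hπ : IsPlc π) (a : k) (P : k[X]) (hP : P ≠ 0) :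
    (π a).1 (algebraMap k[X] (RatFunc k) P) = WithZero.exp (-(P.rootMultiplicity a : ℤ)) := by
  obtain ⟨j, hC, hX⟩ := exists_chart (a : OnePoint k) 1 one_pos
  rw [hπ a j hC hX _ (RatFunc.algebraMap_ne_zero hP), ord_coe_Plc a j hC hX P hP]

theorem IsPlc.val_infty (hπ : IsPlc π) (P : k[X]) (hP : P ≠ 0) :
    (π ∞).1 (algebraMap k[X] (RatFunc k) P) = WithZero.exp (P.natDegree : ℤ) := by
  obtain ⟨j, hC, hX⟩ := exists_chart (∞ : OnePoint k) 1 one_pos
  rw [hπ ∞ j hC hX _ (RatFunc.algebraMap_ne_zero hP), ord_infty_Plc j hC hX P hP, neg_neg]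

theorem IsPlc.injective (hπ : IsPlc π) : Function.Injective π := by
  classical
  have h1 : ∀ a : k, π ∞ ≠ π a := fun a e => by
    have h2 := hπ.val_infty (X - C a) (X_sub_C_ne_zero a)
    rw [e, hπ.val_coe a _ (X_sub_C_ne_zero a), rootMultiplicity_X_sub_C_self, natDegree_X_sub_C,
      WithZero.exp_inj] at h2
    omega
  intro a b e
  induction a using OnePoint.rec with
  | infty =>
    induction b using OnePoint.rec with
    | infty => rfl
    | coe b => exact absurd e (h1 b)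
  | coe a =>
    induction b using OnePoint.rec with
    | infty => exact absurd e.symm (h1 a)
    | coe b =>
      have h2 := hπ.val_coe a (X - C a) (X_sub_C_ne_zero a)
      rw [e, hπ.val_coe b _ (X_sub_C_ne_zero a), rootMultiplicity_X_sub_C_self,
        rootMultiplicity_X_sub_C, WithZero.exp_inj] at h2
      by_contra hne
      rw [if_neg fun h => hne (by rw [h])] at h2
      omega

end Pool.Agent.AdmG

end

section

/-! Reparametrisation of Laurent series. -/

namespace Pool.Agent.AdmG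

open Pool.Agent.Adm
open scoped OnePoint

theorem root_Rep {k : Type} [Field k] [IsAlgClosed k] (e : ℕ) (he : 0 < e) (ζ : k)
    (hζ : IsPrimitiveRoot ζ e) (w : LaurentSeries k) (ho : w.order = e)
    (hs : scL ζ (hζ.ne_zero he.ne') w = w) :
    ∃ y : PowerSeries k, PowerSeries.constantCoeff y = 0 ∧ IsUnit (PowerSeries.coeff 1 y) ∧
      HahnSeries.ofPowerSeries ℤ k (y ^ e) = w ∧ PowerSeries.rescale ζ y = ζ • y := by
  have hw : w ≠ 0 := by
    rintro rfl
    rw [HahnSeries.order_zero] at ho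
    omega
  have hek : (e : k) ≠ 0 := by
    have : NeZero e := ⟨he.ne'⟩
    exact hζ.neZero'.1
  obtain ⟨w', hw'⟩ := exists_powL_of_scL e he ζ hζ w hs
  let u : PowerSeries k := PowerSeries.mk fun n => PowerSeries.coeff (e * n) w.powerSeriesPart
  have hu : PowerSeries.expand e he.ne' u = w.powerSeriesPart := by
    ext n
    rw [PowerSeries.coeff_expand]
    split_ifs with h
    · rw [PowerSeries.coeff_mk, Nat.mul_div_cancel' h]
    · rw [LaurentSeries.powerSeriesPart_coeff, ho, ← hw', powL_coeff_of_not_dvd]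
      rwa [Int.dvd_add_right dvd_rfl, Int.natCast_dvd_natCast]
  have hu0 : PowerSeries.constantCoeff u ≠ 0 := by
    rw [← PowerSeries.coeff_zero_eq_constantCoeff_apply, PowerSeries.coeff_mk,
      LaurentSeries.powerSeriesPart_coeff]
    simpa using hw
  obtain ⟨v, hv⟩ := exists_pow_eq_ps e hek u hu0
  refine ⟨PowerSeries.X * PowerSeries.expand e he.ne' v, by simp, ?_, ?_, ?_⟩
  · rw [PowerSeries.coeff_succ_X_mul, PowerSeries.coeff_zero_eq_constantCoeff_apply,
      PowerSeries.constantCoeff_expand]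
    refine Ne.isUnit fun h0 => hu0 ?_
    rw [← hv, map_pow, h0, zero_pow he.ne']
  · rw [mul_pow, ← map_pow (PowerSeries.expand e he.ne'), hv, hu, map_mul,
      HahnSeries.ofPowerSeries_X_pow, ← ho]
    exact w.single_order_mul_powerSeriesPart
  · rw [map_mul, rescale_expand_TR0 e he.ne' ζ hζ.pow_eq_one, PowerSeries.rescale_X,
      PowerSeries.smul_eq_C_mul, mul_assoc]

theorem exists_reparam_order {k : Type} [Field k] [IsAlgClosed k] (e : ℕ) (he : 0 < e) (ζ : k)
    (hζ : IsPrimitiveRoot ζ e) (w : LaurentSeries k) (ho : w.order = e)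
    (hs : scL ζ (hζ.ne_zero he.ne') w = w) :
    ∃ Φ : LaurentSeries k →+* LaurentSeries k, (∀ c, Φ (HahnSeries.C c) = HahnSeries.C c) ∧
      Φ w = HahnSeries.single (e : ℤ) 1 ∧
      ∀ x, Φ (scL ζ (hζ.ne_zero he.ne') x) = scL ζ (hζ.ne_zero he.ne') (Φ x) := by
  obtain ⟨y, hy0, hy1, hyw, hyζ⟩ := root_Rep e he ζ hζ w ho hs
  have hy : PowerSeries.HasSubst y := PowerSeries.HasSubst.of_constantCoeff_zero' hy0
  obtain ⟨φ, hs, hr, hl⟩ : ∃ φ : PowerSeries k, PowerSeries.HasSubst φ ∧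
      y.subst φ = PowerSeries.X ∧ φ.subst y = PowerSeries.X :=
    ⟨_, PowerSeries.HasSubst.substInvOfIsUnit y hy1, y.subst_substInvOfIsUnit_right hy0 hy1,
      y.subst_substInvOfIsUnit_left hy0 hy1⟩
  have hz : PowerSeries.HasSubst (ζ • PowerSeries.X : PowerSeries k) :=
    PowerSeries.HasSubst.smul_X' ζ
  have hφne : φ ≠ 0 := by
    rintro rfl
    rw [← PowerSeries.coe_substAlgHom hy, map_zero] at hl
    exact PowerSeries.X_ne_zero hl.symm
  have key0 : ∀ ψ : PowerSeries k, PowerSeries.HasSubst ψ → PowerSeries.rescale ζ ψ = ζ • ψ →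
      ∀ f : PowerSeries k,
        (PowerSeries.rescale ζ f).subst ψ = PowerSeries.rescale ζ (f.subst ψ) := by
    intro ψ hψ h f
    rw [PowerSeries.rescale_eq_subst ζ f, PowerSeries.rescale_eq_subst,
      PowerSeries.subst_comp_subst_apply hz hψ, PowerSeries.subst_comp_subst_apply hψ hz,
      ← PowerSeries.rescale_eq_subst ζ ψ, h, PowerSeries.subst_smul hψ, PowerSeries.subst_X hψ]
  have hinv : ∀ f : PowerSeries k, PowerSeries.subst φ (f.subst y) = f := fun f => by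
    rw [PowerSeries.subst_comp_subst_apply hy hs, hr, PowerSeries.X_subst]
  have hφζ : PowerSeries.rescale ζ φ = ζ • φ := by
    rw [← hinv (PowerSeries.rescale ζ φ), key0 y hy hyζ, hl, PowerSeries.rescale_X,
      ← PowerSeries.smul_eq_C_mul, PowerSeries.subst_smul hs, PowerSeries.subst_X hs]
  let S : PowerSeries k →+* PowerSeries k :=
    (PowerSeries.substAlgHom (R := k) hs : PowerSeries k →ₐ[k] PowerSeries k)
  have hS : ∀ f, S f = PowerSeries.subst φ f := fun f =>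
    congrFun (PowerSeries.coe_substAlgHom (R := k) hs) f
  have hSX : S PowerSeries.X = φ := by rw [hS, PowerSeries.subst_X hs]
  have hSC : ∀ c : k, S (PowerSeries.C c) = PowerSeries.C c := fun c => by
    rw [hS, PowerSeries.subst_C]; rfl
  let ι : PowerSeries k →+* LaurentSeries k := HahnSeries.ofPowerSeries ℤ k
  have hι : Function.Injective ι := HahnSeries.ofPowerSeries_injective
  have hιφ : ι φ ≠ 0 := fun h0 => hφne (hι (by rw [h0, map_zero]))
  have hunit : ∀ y : Submonoid.powers (PowerSeries.X : PowerSeries k),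
      IsUnit ((ι.comp S) y) := by
    rintro ⟨y, n, rfl⟩
    simp only [RingHom.comp_apply, map_pow, hSX]
    exact (pow_ne_zero n hιφ).isUnit
  let Φ : LaurentSeries k →+* LaurentSeries k := IsLocalization.lift hunit
  have hΦ : ∀ f : PowerSeries k, Φ (ι f) = ι (S f) := fun f =>
    IsLocalization.lift_eq hunit f
  have hιC : ∀ c : k, ι (PowerSeries.C c) = HahnSeries.C c := fun c =>
    HahnSeries.ofPowerSeries_C c
  refine ⟨Φ, fun c => ?_, ?_, ?_⟩
  · rw [← hιC, hΦ, hSC]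
  · rw [← hyw, hΦ, map_pow S, hS, hr]
    exact HahnSeries.ofPowerSeries_X_pow e
  · have hsc : ∀ f : PowerSeries k, scL ζ (hζ.ne_zero he.ne') (ι f) =
        ι (PowerSeries.rescale ζ f) := fun f => scL_coe ζ _ f
    have : Φ.comp (scL ζ (hζ.ne_zero he.ne')) = (scL ζ (hζ.ne_zero he.ne')).comp Φ := by
      apply IsLocalization.ringHom_ext (Submonoid.powers (PowerSeries.X : PowerSeries k))
      refine RingHom.ext fun f => ?_
      change Φ (scL ζ (hζ.ne_zero he.ne') (ι f)) = scL ζ (hζ.ne_zero he.ne') (Φ (ι f))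
      rw [hsc, hΦ, hΦ, hsc, hS, hS, key0 φ hs hφζ]
    exact fun x => DFunLike.congr_fun this x

end Pool.Agent.AdmG

end

section

/-! The two notions of local monodromy agree on the line. -/

namespace Pool.Agent.AdmG

open Pool.Agent.Adm
open scoped OnePoint

theorem order_powL_MonoE {k : Type} [Field k] (e : ℕ) (he : 0 < e) (x : LaurentSeries k) :
    (powL e he x).order = e * x.order := by
  rcases eq_or_ne x 0 with rfl | hx
  · simp
  have h0 : (0 : ℤ) < e := by exact_mod_cast he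
  refine le_antisymm (HahnSeries.order_le_of_coeff_ne_zero ?_) ?_
  · rw [powL_coeff_mul]
    exact HahnSeries.coeff_order_eq_zero.not.2 hx
  · have h1 : (powL e he x).coeff (powL e he x).order ≠ 0 :=
      HahnSeries.coeff_order_eq_zero.not.2 ((map_ne_zero (powL e he)).2 hx)
    by_cases hd : (e : ℤ) ∣ (powL e he x).order
    · obtain ⟨l, hl⟩ := hd
      rw [hl, powL_coeff_mul] at h1
      rw [hl]
      exact mul_le_mul_of_nonneg_left (HahnSeries.order_le_of_coeff_ne_zero h1) h0.le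
    · exact absurd (powL_coeff_of_not_dvd _ _ _ _ hd) h1

theorem reparam_MonoE {k G : Type} [Field k] [IsAlgClosed k] [Group G] (c : Cover k G)
    {P : Place k (RatFunc k)} {e : ℕ} {ζ : k} {g : G} (h : (toCov c).Mono P e ζ g)
    (f : RatFunc k) (hf : P.1 f = WithZero.exp (-1)) :
    ∃ j : c.L →+* LaurentSeries k,
      (∀ x : k, j (algebraMap (RatFunc k) c.L (RatFunc.C x)) = HahnSeries.C x) ∧
      j (algebraMap (RatFunc k) c.L f) = HahnSeries.single (e : ℤ) 1 ∧
      ∃ σ : c.L ≃ₐ[RatFunc k] c.L, c.ι σ = g ∧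
        ∀ (x : c.L) (n : ℤ), (j (σ x)).coeff n = ζ ^ n * (j x).coeff n := by
  obtain ⟨he, hζ, j, h1, h2, σ, h3, h4⟩ := h
  have h5 : ∀ x, j (σ x) = scL ζ (hζ.ne_zero he.ne') (j x) := fun x => by
    ext n
    exact h4 x n
  obtain ⟨Φ, a1, a2, a3⟩ := exists_reparam_order e he ζ hζ (j (algebraMap _ _ f))
    (by rw [h2 f 1 hf, mul_one]) (by rw [← h5, σ.commutes])
  refine ⟨Φ.comp j, fun x => ?_, a2, σ, h3, fun x n => ?_⟩
  · exact (congrArg Φ (h1 x)).trans (a1 x)
  · change (Φ (j (σ x))).coeff n = ζ ^ n * (Φ (j x)).coeff n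
    rw [h5, a3, scL_coeff]

theorem IsPlc.mono_iff {k G : Type} [Field k] [IsAlgClosed k] [Group G]
    {π : OnePoint k → Place k (RatFunc k)} (hπ : IsPlc π) (c : Cover k G) (a : OnePoint k)
    (e : ℕ) (ζ : k) (g : G) : (toCov c).Mono (π a) e ζ g ↔ c.Mono a e ζ g := by
  constructor
  · intro h
    refine ⟨h.1, h.2.1, ?_⟩
    induction a using OnePoint.rec with
    | infty =>
      have h1 := hπ.val_infty Polynomial.X Polynomial.X_ne_zero
      rw [RatFunc.algebraMap_X, Polynomial.natDegree_X] at h1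
      obtain ⟨j, a1, a2, a3⟩ := reparam_MonoE c h (RatFunc.X)⁻¹
        (by rw [map_inv₀, h1, WithZero.exp_neg]; rfl)
      refine ⟨j, a1, ?_, a3⟩
      rw [map_inv₀, map_inv₀, inv_eq_iff_eq_inv] at a2
      rw [a2]
      refine inv_eq_of_mul_eq_one_right ?_
      change _ * HahnSeries.single (-(e : ℤ)) (1 : k) = 1
      rw [HahnSeries.single_mul_single, add_neg_cancel, mul_one, HahnSeries.single_zero_one]
    | coe b =>
      have h1 := hπ.val_coe b (Polynomial.X - Polynomial.C b) (Polynomial.X_sub_C_ne_zero b)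
      rw [Polynomial.rootMultiplicity_X_sub_C_self, map_sub, RatFunc.algebraMap_X,
        RatFunc.algebraMap_C] at h1
      obtain ⟨j, a1, a2, a3⟩ := reparam_MonoE c h _ h1
      refine ⟨j, a1, ?_, a3⟩
      rw [map_sub, map_sub, a1, sub_eq_iff_eq_add'] at a2
      exact a2
  · rintro ⟨he, hζ, j, h1, h2, σ, h3, h4⟩
    refine ⟨he, hζ, j, h1, fun f m hf => ?_, σ, h3, h4⟩
    obtain ⟨J, b1, b2⟩ :=
      exists_ratFunc_hom HahnSeries.C (expand a 1) (eval₂_expand_ne_zero a 1 one_pos)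
    have b3 : j.comp (algebraMap (RatFunc k) c.L) = (powL e he).comp J :=
      ratFunc_hom_ext _ _ (fun x => by simp only [RingHom.comp_apply, h1, b1, powL_C])
        (by simp only [RingHom.comp_apply, h2, b2, powL_expand, mul_one])
    have b4 : f ≠ 0 := by
      rintro rfl
      rw [map_zero] at hf
      exact WithZero.exp_ne_zero hf.symm
    have b5 : -m = -(J f).order := WithZero.exp_injective (hf.symm.trans (hπ a J b1 b2 f b4))
    have b6 : j (algebraMap (RatFunc k) c.L f) = powL e he (J f) := DFunLike.congr_fun b3 f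
    change (j (algebraMap (RatFunc k) c.L f)).order = e * m
    rw [b6, order_powL_MonoE, neg_inj.1 b5]

end Pool.Agent.AdmG

end

section

/-! Every place of k(X) is the place of a point. -/

namespace Pool.Agent.AdmG

open Pool.Agent.Adm
open scoped OnePoint
open Polynomial

theorem const_Plc2 {k : Type} [Field k] (v : Place k (RatFunc k)) {c : k} (hc : c ≠ 0) :
    v.1 (algebraMap k[X] (RatFunc k) (C c)) = 1 := by
  have h := v.2.2 c hc
  rwa [IsScalarTower.algebraMap_apply k k[X] (RatFunc k), Polynomial.algebraMap_eq] at h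

open WithZero in
theorem gt_Plc2 {x : WithZero (Multiplicative ℤ)} (h : 1 < x) : ∃ e : ℕ, x = exp (e : ℤ) := by
  have h0 : x ≠ 0 := (zero_lt_one.trans h).ne'
  rw [← exp_log h0, ← exp_zero, exp_lt_exp] at h
  exact ⟨(log x).toNat, by rw [Int.toNat_of_nonneg h.le, exp_log h0]⟩

open WithZero in
theorem lt_Plc2 {x : WithZero (Multiplicative ℤ)} (h0 : x ≠ 0) (h : x < 1) :
    ∃ e : ℕ, x = exp (-(e : ℤ)) := by
  rw [← exp_log h0, ← exp_zero, exp_lt_exp] at h
  exact ⟨(-log x).toNat, by rw [Int.toNat_of_nonneg (by omega), neg_neg, exp_log h0]⟩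

theorem eq_Plc2 {k : Type} [Field k] [IsAlgClosed k] (v w : Place k (RatFunc k)) (e : ℕ)
    (h : ∀ a : k, v.1 (algebraMap k[X] (RatFunc k) (X - C a))
      = w.1 (algebraMap k[X] (RatFunc k) (X - C a)) ^ e) : w = v := by
  have h1 : ∀ s : Multiset k, v.1 (algebraMap k[X] (RatFunc k) (s.map fun a => X - C a).prod)
      = w.1 (algebraMap k[X] (RatFunc k) (s.map fun a => X - C a).prod) ^ e := by
    intro s
    induction s using Multiset.induction_on with
    | empty => simp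
    | cons a s ih => simp only [Multiset.map_cons, Multiset.prod_cons, map_mul, mul_pow, h, ih]
  have h2 : ∀ P : k[X], P ≠ 0 → v.1 (algebraMap k[X] (RatFunc k) P)
      = w.1 (algebraMap k[X] (RatFunc k) P) ^ e := by
    intro P hP
    have hl := leadingCoeff_ne_zero.2 hP
    rw [(IsAlgClosed.splits P).eq_prod_roots, map_mul, map_mul, map_mul, const_Plc2 v hl,
      const_Plc2 w hl, one_mul, one_mul, h1]
  have h3 : ∀ f : RatFunc k, f ≠ 0 → v.1 f = w.1 f ^ e := by
    intro f hf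
    rw [← RatFunc.num_div_denom f, map_div₀, map_div₀, h2 _ (RatFunc.num_ne_zero hf),
      h2 _ (RatFunc.denom_ne_zero f), div_pow]
  obtain ⟨f, hf⟩ := v.2.1 (WithZero.exp 1)
  have hf0 : f ≠ 0 := by
    rintro rfl
    rw [map_zero] at hf
    exact WithZero.exp_ne_zero hf.symm
  have hw : w.1 f ≠ 0 := by simpa using hf0
  have he : e = 1 := by
    rw [h3 f hf0, ← WithZero.exp_log hw, ← WithZero.exp_nsmul, WithZero.exp_inj,
      nsmul_eq_mul] at hf
    exact_mod_cast Int.eq_one_of_mul_eq_one_right (Int.natCast_nonneg e) hf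
  refine Subtype.ext (Valuation.ext fun g => ?_)
  rcases eq_or_ne g 0 with rfl | hg
  · simp
  · rw [h3 g hg, he, pow_one]

theorem IsPlc.surjective {k : Type} [Field k] [IsAlgClosed k]
    {π : OnePoint k → Place k (RatFunc k)} (hπ : IsPlc π) : Function.Surjective π := by
  intro v
  have hC : ∀ c : k, v.1 (algebraMap k[X] (RatFunc k) (C c)) ≤ 1 := fun c => by
    rcases eq_or_ne c 0 with rfl | hc
    · simp
    · exact (const_Plc2 v hc).le
  have hne : ∀ a : k, v.1 (algebraMap k[X] (RatFunc k) (X - C a)) ≠ 0 := fun a => by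
    rw [ne_eq, map_eq_zero, FaithfulSMul.algebraMap_eq_zero_iff]
    exact X_sub_C_ne_zero a
  rcases lt_or_ge 1 (v.1 (algebraMap k[X] (RatFunc k) X)) with hX | hX
  · obtain ⟨e, he⟩ := gt_Plc2 hX
    refine ⟨∞, eq_Plc2 v _ e fun a => ?_⟩
    rw [hπ.val_infty _ (X_sub_C_ne_zero a), natDegree_X_sub_C, map_sub,
      v.1.map_sub_eq_of_lt_left ((hC a).trans_lt hX), he, ← WithZero.exp_nsmul]
    simp
  · by_cases h1 : ∀ a : k, v.1 (algebraMap k[X] (RatFunc k) (X - C a)) = 1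
    · exact ⟨∞, eq_Plc2 v _ 0 fun a => by rw [h1, pow_zero]⟩
    · obtain ⟨a, ha⟩ := not_forall.1 h1
      have hlt : v.1 (algebraMap k[X] (RatFunc k) (X - C a)) < 1 :=
        lt_of_le_of_ne (by rw [map_sub]; exact v.1.map_sub_le hX (hC a)) ha
      obtain ⟨e, he⟩ := lt_Plc2 (hne a) hlt
      refine ⟨a, eq_Plc2 v _ e fun b => ?_⟩
      rw [hπ.val_coe _ _ (X_sub_C_ne_zero b), ← WithZero.exp_nsmul]
      rcases eq_or_ne b a with rfl | hb
      · rw [he, rootMultiplicity_X_sub_C_self]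
        simp
      · have e1 : (X - C b : k[X]) = C (a - b) + (X - C a) := by rw [map_sub]; ring
        have e2 := const_Plc2 v (sub_ne_zero.2 hb.symm)
        rw [rootMultiplicity_eq_zero (by simpa using sub_ne_zero.2 hb.symm), e1, map_add,
          v.1.map_add_eq_of_lt_left (by rw [e2]; exact hlt), e2]
        simp

end Pool.Agent.AdmG

end

section

/-! The projective line has genus zero. -/

namespace Pool.Agent.AdmG

open Pool.Agent.Adm
open scoped OnePoint
open Polynomial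
open scoped IntermediateField

theorem ff_ratFunc (k : Type) [Field k] :
    ∃ x : RatFunc k, Transcendental k x ∧ FiniteDimensional k⟮x⟯ (RatFunc k) := by
  exact ⟨RatFunc.X, RatFunc.transcendental_X, FunctionField.FiniteDimensional.adjoin_X⟩

section

variable {k : Type} [Field k] {π : OnePoint k → Place k (RatFunc k)}

theorem exists_h_Gen0 (hπ : IsPlc π) (E : k →₀ ℤ) : ∃ h : RatFunc k, h ≠ 0 ∧
    (∀ b : k, (π b).1 h = WithZero.exp (E b)) ∧
    (π ∞).1 h = WithZero.exp (-E.sum fun _ n => n) := by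
  classical
  induction E using Finsupp.induction_linear with
  | zero => exact ⟨1, one_ne_zero, fun b => by simp, by simp⟩
  | add E E' ih ih' =>
    obtain ⟨h, h0, h1, h2⟩ := ih
    obtain ⟨h', h0', h1', h2'⟩ := ih'
    refine ⟨h * h', mul_ne_zero h0 h0', fun b => ?_, ?_⟩
    · rw [map_mul, h1, h1', Finsupp.add_apply, WithZero.exp_add]
    · rw [map_mul, h2, h2', Finsupp.sum_add_index' (fun _ => rfl) (fun _ _ _ => rfl), neg_add,
        WithZero.exp_add]
  | single a n =>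
    refine ⟨algebraMap k[X] (RatFunc k) (X - C a) ^ (-n),
      zpow_ne_zero _ (RatFunc.algebraMap_ne_zero (X_sub_C_ne_zero a)), fun b => ?_, ?_⟩
    · rw [map_zpow₀, hπ.val_coe b _ (X_sub_C_ne_zero a), ← WithZero.exp_zsmul,
        rootMultiplicity_X_sub_C, Finsupp.single_apply]
      by_cases hb : b = a
      · rw [if_pos hb, if_pos hb.symm]
        simp
      · rw [if_neg hb, if_neg (Ne.symm hb)]
        simp
    · rw [map_zpow₀, hπ.val_infty _ (X_sub_C_ne_zero a), ← WithZero.exp_zsmul, natDegree_X_sub_C,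
        Finsupp.sum_single_index rfl]
      simp

theorem poly_Gen0 [IsAlgClosed k] (hπ : IsPlc π) {g : RatFunc k} (hg : g ≠ 0)
    (h : ∀ b : k, (π b).1 g ≤ 1) : ∃ P : k[X], algebraMap k[X] (RatFunc k) P = g := by
  have hn : g.num ≠ 0 := RatFunc.num_ne_zero hg
  have hd : g.denom ≠ 0 := RatFunc.denom_ne_zero g
  have h1 : g.denom.degree = 0 := by
    by_contra hne
    obtain ⟨b, hb⟩ := IsAlgClosed.exists_root g.denom hne
    have h2 := h b
    rw [← RatFunc.num_div_denom g, map_div₀, hπ.val_coe b _ hn, hπ.val_coe b _ hd,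
      ← WithZero.exp_sub, ← WithZero.exp_zero, WithZero.exp_le_exp] at h2
    have h3 := (rootMultiplicity_pos hd).2 hb
    have h4 : g.num.IsRoot b := (rootMultiplicity_pos hn).1 (by omega)
    obtain ⟨u, v, huv⟩ := RatFunc.isCoprime_num_denom g
    have h5 := congrArg (eval b) huv
    rw [eval_add, eval_mul, eval_mul, h4.eq_zero, hb.eq_zero, eval_one] at h5
    simp at h5
  refine ⟨g.num, ?_⟩
  have h2 := RatFunc.num_div_denom g
  rwa [(RatFunc.monic_denom g).degree_le_zero_iff_eq_one.1 h1.le, map_one, div_one] at h2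

theorem mem_Gen0 [IsAlgClosed k] (hπ : IsPlc π) (D : Place k (RatFunc k) →₀ ℤ) {h : RatFunc k}
    {d : ℤ} (h0 : h ≠ 0) (h1 : ∀ b : k, (π b).1 h = WithZero.exp (D (π b)))
    (h2 : (π ∞).1 h = WithZero.exp (D (π ∞) - d)) (f : RatFunc k) :
    f ∈ RR D ↔ ∃ P ∈ degreeLT k (d + 1).toNat, h * algebraMap k[X] (RatFunc k) P = f := by
  constructor
  · intro hf
    by_cases hf0 : f = 0
    · exact ⟨0, zero_mem _, by rw [map_zero, mul_zero, hf0]⟩
    obtain ⟨P, hP⟩ := poly_Gen0 hπ (div_ne_zero hf0 h0) fun b => by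
      rw [map_div₀, h1]
      exact div_le_one_of_le₀ (hf (π b)) zero_le
    have e : h * algebraMap k[X] (RatFunc k) P = f := by rw [hP, mul_div_cancel₀ _ h0]
    have hP0 : P ≠ 0 := by
      rintro rfl
      rw [map_zero, mul_zero] at e
      exact hf0 e.symm
    refine ⟨P, ?_, e⟩
    have h3 := hf (π ∞)
    rw [← e, map_mul, h2, hπ.val_infty P hP0, ← WithZero.exp_add, WithZero.exp_le_exp] at h3
    rw [mem_degreeLT, ← natDegree_lt_iff_degree_lt hP0]
    omega
  · rintro ⟨P, hP, rfl⟩ Q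
    by_cases hP0 : P = 0
    · simp [hP0]
    obtain ⟨a, rfl⟩ := hπ.surjective Q
    rw [mem_degreeLT, ← natDegree_lt_iff_degree_lt hP0] at hP
    induction a using OnePoint.rec with
    | infty =>
      rw [map_mul, h2, hπ.val_infty P hP0, ← WithZero.exp_add, WithZero.exp_le_exp]
      omega
    | coe b =>
      rw [map_mul, h1, hπ.val_coe b P hP0, ← WithZero.exp_add, WithZero.exp_le_exp]
      omega

end

theorem finrank_RR {k : Type} [Field k] [IsAlgClosed k] (D : Place k (RatFunc k) →₀ ℤ) :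
    Module.finrank k (RR D) = ((D.sum fun _ a => a) + 1).toNat := by
  obtain ⟨π, hπ⟩ := exists_isPlc k
  let e : Option k ≃ Place k (RatFunc k) := Equiv.ofBijective π ⟨hπ.injective, hπ.surjective⟩
  have hs : (D.sum fun _ a => a) =
      D (π ∞) + (Finsupp.some (D.equivMapDomain e.symm)).sum fun _ n => n := by
    rw [← Finsupp.sum_equivMapDomain e.symm D fun _ a => a,
      Finsupp.sum_option_index _ _ (fun _ => rfl) fun _ _ _ => rfl]
    rfl
  obtain ⟨h, h0, h1, h2⟩ := exists_h_Gen0 hπ (Finsupp.some (D.equivMapDomain e.symm))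
  have h3 := mem_Gen0 hπ D (d := D.sum fun _ a => a) h0 h1 (by rw [h2, hs]; congr 1; ring)
  let φ : k[X] →ₗ[k] RatFunc k :=
    (LinearMap.mulLeft k h).comp (IsScalarTower.toAlgHom k k[X] (RatFunc k)).toLinearMap
  have hφ : Function.Injective φ := fun P Q hPQ =>
    IsFractionRing.injective k[X] (RatFunc k) (mul_left_cancel₀ h0 hPQ)
  have h4 : RR D = (degreeLT k ((D.sum fun _ a => a) + 1).toNat).map φ :=
    Submodule.ext fun f => h3 f
  rw [h4, ← (Submodule.equivMapOfInjective φ hφ _).finrank_eq, (degreeLTEquiv k _).finrank_eq,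
    Module.finrank_fin_fun]

theorem hasGenus_ratFunc (k : Type) [Field k] [IsAlgClosed k] : HasGenus k (RatFunc k) 0 := by
  refine ⟨⟨0, ?_⟩, ?_⟩
  · rw [finrank_RR]
    simp
  · rintro x ⟨D, rfl⟩
    rw [finrank_RR]
    omega

end Pool.Agent.AdmG

end

section

/-! The stable curve obtained from a tree by gluing pairs of marked points. -/

namespace Pool.Agent.AdmG

open Pool.Agent.Adm
open scoped OnePoint

/-- Renumbering of the special points. -/
def eqv_Close1 (E J I : Type) : ((E ⊕ J) ⊕ (E ⊕ J)) ⊕ I ≃ (E ⊕ E) ⊕ ((J ⊕ J) ⊕ I) where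
  toFun := Sum.elim (Sum.elim (Sum.elim (fun ε => .inl (.inl ε)) fun j => .inr (.inl (.inl j)))
    (Sum.elim (fun ε => .inl (.inr ε)) fun j => .inr (.inl (.inr j)))) fun i => .inr (.inr i)
  invFun := Sum.elim (Sum.elim (fun ε => .inl (.inl (.inl ε))) fun ε => .inl (.inr (.inl ε)))
    (Sum.elim (Sum.elim (fun j => .inl (.inl (.inr j))) fun j => .inl (.inr (.inr j)))
      fun i => .inr i)
  left_inv := by rintro (((ε | j) | (ε | j)) | i) <;> rfl
  right_inv := by rintro ((ε | ε) | ((j | j) | i)) <;> rfl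

/-- The special points after gluing. -/
def pt_Close1 {k J I : Type} [Field k] (X : RC k ((J ⊕ J) ⊕ I)) :
    ((X.E ⊕ J) ⊕ (X.E ⊕ J)) ⊕ I → X.V × OnePoint k :=
  Sum.elim (Sum.elim X.src X.tgt) fun i => X.pt (.inr (.inr i))

theorem pt_eq_Close1 {k J I : Type} [Field k] (X : RC k ((J ⊕ J) ⊕ I))
    (h : ((X.E ⊕ J) ⊕ (X.E ⊕ J)) ⊕ I) : pt_Close1 X h = X.pt (eqv_Close1 X.E J I h) := by
  rcases h with ((ε | j) | (ε | j)) | i <;> rfl

theorem mk_inj_Close1 {k V : Type} [Field k] {π : OnePoint k → Place k (RatFunc k)}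
    (hπ : IsPlc π) {x y : V × OnePoint k}
    (h : (⟨x.1, π x.2⟩ : Σ _ : V, Place k (RatFunc k)) = ⟨y.1, π y.2⟩) : x = y :=
  Prod.ext (congrArg Sigma.fst h)
    (hπ.injective (congrArg (fun z : Σ _ : V, Place k (RatFunc k) => z.2) h))

theorem range_Close1 {k J I : Type} [Field k] (X : RC k ((J ⊕ J) ⊕ I))
    {π : OnePoint k → Place k (RatFunc k)} (hπ : IsPlc π) (v : X.V) (a : OnePoint k) :
    (⟨v, π a⟩ : Σ _ : X.V, Place k (RatFunc k)) ∈
      Set.range (fun h => (⟨(pt_Close1 X h).1, π (pt_Close1 X h).2⟩ :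
        Σ _ : X.V, Place k (RatFunc k))) ↔ (v, a) ∈ Set.range X.pt := by
  constructor
  · rintro ⟨h, e⟩
    exact ⟨_, (pt_eq_Close1 X h).symm.trans (mk_inj_Close1 hπ (y := (v, a)) e)⟩
  · rintro ⟨h, e⟩
    refine ⟨(eqv_Close1 X.E J I).symm h, ?_⟩
    simp only [pt_eq_Close1, Equiv.apply_symm_apply, e]

/-- The stable curve. -/
noncomputable def curve_Close1 (p g n : ℕ) {k J : Type} [Field k] [IsAlgClosed k] [CharP k p]
    [Fintype J] (hJ : Fintype.card J = g) (X : RC k ((J ⊕ J) ⊕ Fin n))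
    {π : OnePoint k → Place k (RatFunc k)} (hπ : IsPlc π) : StableCurve p g n where
  k := k
  V := X.V
  ne := X.ne
  E := X.E ⊕ J
  K _ := RatFunc k
  ff _ := ff_ratFunc k
  gen _ := 0
  genus _ := hasGenus_ratFunc k
  pt h := ⟨(pt_Close1 X h).1, π (pt_Close1 X h).2⟩
  inj h h' e := by
    have h1 := mk_inj_Close1 hπ e
    rw [pt_eq_Close1, pt_eq_Close1] at h1
    exact (eqv_Close1 X.E J (Fin n)).injective (X.inj h1)
  conn v w := (X.conn v w).mono fun _ _ ⟨ε, h⟩ => ⟨.inl ε, h⟩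
  total := by
    have := X.card
    simp only [Finset.sum_const_zero, Fintype.card_sum, hJ]
    omega
  stable v := by
    have h1 : Nat.card {h // (pt_Close1 X h).1 = v} = Nat.card {h // (X.pt h).1 = v} :=
      Nat.card_congr ((eqv_Close1 X.E J (Fin n)).subtypeEquiv fun h => by rw [pt_eq_Close1])
    have h2 := X.stable v
    simp only [mul_zero, zero_add]
    exact h1 ▸ h2

theorem RC.exists_curve (p g n : ℕ) {k J : Type} [Field k] [IsAlgClosed k] [CharP k p]
    [Fintype J] (hJ : Fintype.card J = g) (X : RC k ((J ⊕ J) ⊕ Fin n)) :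
    ∃ Y : StableCurve p g n, ∀ (G : Type) [Group G], Y.HasCover G ↔ X.Cv G := by
  obtain ⟨π, hπ⟩ := exists_isPlc k
  refine ⟨curve_Close1 p g n hJ X hπ, fun G _ => ⟨?_, ?_⟩⟩
  · rintro ⟨c, t, h1, h2, h3⟩
    refine ⟨fun v => ofCov (c v), t, fun v a => ?_, fun ε => ?_, h3⟩
    · obtain ⟨e, ζ, x, a1, a2⟩ := h1 v (π a)
      exact ⟨e, ζ, x, (hπ.mono_iff (ofCov (c v)) a e ζ x).1 a1,
        fun h => a2 fun h' => h ((range_Close1 X hπ v a).1 h')⟩
    · obtain ⟨e, ζ, x, a1, a2⟩ := h2 ε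
      exact ⟨e, ζ, x, (hπ.mono_iff (ofCov (c _)) _ e ζ x).1 a1,
        (hπ.mono_iff (ofCov (c _)) _ e _ _).1 a2⟩
  · rintro ⟨c, t, h1, h2, h3⟩
    refine ⟨fun v => toCov (c v), t, fun v P => ?_, fun ε => ?_, h3⟩
    · obtain ⟨a, rfl⟩ := hπ.surjective P
      obtain ⟨e, ζ, x, a1, a2⟩ := h1 v a
      exact ⟨e, ζ, x, (hπ.mono_iff (c v) a e ζ x).2 a1,
        fun h => a2 fun h' => h ((range_Close1 X hπ v a).2 h')⟩
    · obtain ⟨e, ζ, x, a1, a2⟩ := h2 ε
      exact ⟨e, ζ, x, (hπ.mono_iff (c _) _ e ζ x).2 a1, (hπ.mono_iff (c _) _ e _ _).2 a2⟩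

end Pool.Agent.AdmG

end

section

/-! From paths to chains of irreducible closed sets. -/

namespace Pool.Agent.AdmG

open Pool.Agent.Adm
open scoped OnePoint

theorem Nd.exists_curve {p g n : ℕ} {J : Type} [Fintype J] (hJ : Fintype.card J = g)
    (N : Nd p ((J ⊕ J) ⊕ Fin n)) :
    ∃ Y : StableCurve p g n, ∀ (G : Type) [Group G], Y.HasCover G ↔ Cl N.P G := by
  obtain ⟨X, hX⟩ := N.tr.real
  obtain ⟨Y, hY⟩ := RC.exists_curve p g n hJ X
  exact ⟨Y, fun G _ => (hY G).trans (hX ▸ ⟨X.cl_of_cv G, X.cv_of_cl G⟩)⟩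

theorem mem_U_iff {p g n : ℕ} (X : StableCurve p g n) (G : Type) [Group G] [Finite G] :
    (Quot.mk _ X : PiBar p g n) ∈ U p g n G ↔ X.HasCover G := by
  constructor
  · rintro ⟨X', h, hX'⟩
    have hw : ∀ A B : StableCurve p g n,
        (∀ (G : Type) [Group G] [Finite G], A.HasCover G ↔ B.HasCover G) →
        A.HasCover G = B.HasCover G := fun A B hAB => propext (hAB G)
    have : X'.HasCover G = X.HasCover G :=
      congrArg (Quot.lift (fun A : StableCurve p g n => A.HasCover G) hw) h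
    exact this ▸ hX'
  · intro h
    exact ⟨X, rfl, h⟩

theorem specializes_iff {p g n : ℕ} (Y X : StableCurve p g n) :
    @Specializes (PiBar p g n) _ (Quot.mk _ X) (Quot.mk _ Y) ↔ QLe Y X := by
  rw [specializes_iff_forall_open]
  constructor
  · intro h G _ _ hG
    refine (mem_U_iff X G).1 (h _ ?_ ((mem_U_iff Y G).2 hG))
    exact TopologicalSpace.GenerateOpen.basic _ ⟨G, _, inferInstance, rfl⟩
  · intro h s hs
    induction hs with
    | basic s hs =>
      obtain ⟨G, _, _, rfl⟩ := hs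
      intro hG
      exact (mem_U_iff X G).2 (h G ((mem_U_iff Y G).1 hG))
    | univ => exact fun _ => Set.mem_univ _
    | inter s t _ _ h1 h2 => exact fun hm => ⟨h1 hm.1, h2 hm.2⟩
    | sUnion S _ ih =>
      rintro ⟨t, ht, hm⟩
      exact ⟨t, ht, ih t ht hm⟩

theorem Path.le_dim {p g n : ℕ} {J : Type} [Fintype J] (hJ : Fintype.card J = g)
    {N N' : Nd p ((J ⊕ J) ⊕ Fin n)} {φ : N.k →+* N'.k} {r : ℕ} (h : Path RP N N' φ r) :
    (r : WithBot ℕ∞) ≤ topologicalKrullDim (PiBar p g n) := by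
  choose Y hY using fun M : Nd p ((J ⊕ J) ⊕ Fin n) => Nd.exists_curve hJ M
  let f : Nd p ((J ⊕ J) ⊕ Fin n) → TopologicalSpace.IrreducibleCloseds (PiBar p g n) := fun M =>
    ⟨closure {(Quot.mk _ (Y M) : PiBar p g n)}, isIrreducible_singleton.closure, isClosed_closure⟩
  have hle : ∀ M M', f M ≤ f M' ↔
      ∀ (G : Type) [Group G] [Finite G], Cl M.P G → Cl M'.P G := by
    intro M M'
    have h1 : f M ≤ f M' ↔ QLe (Y M) (Y M') := by
      rw [← specializes_iff, specializes_iff_closure_subset]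
      rfl
    rw [h1]
    exact ⟨fun h G _ _ hG => (hY M' G).1 (h G ((hY M G).2 hG)),
      fun h G _ _ hG => (hY M' G).2 (h G ((hY M G).1 hG))⟩
  have key : ∃ s : LTSeries (TopologicalSpace.IrreducibleCloseds (PiBar p g n)),
      s.length = r ∧ s.last ≤ f N' := by
    induction h with
    | refl => exact ⟨RelSeries.singleton _ (f N), rfl, le_rfl⟩
    | lift _ ψ hl ih =>
      obtain ⟨s, h1, h2⟩ := ih
      exact ⟨s, h1, h2.trans ((hle _ _).2 fun G _ _ hG => Cl.lift hl G hG)⟩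
    | @step M M' _ _ _ ψ hs ih =>
      obtain ⟨s, h1, h2⟩ := ih
      have h3 : f M < f M' := lt_of_le_not_ge ((hle _ _).2 fun G _ _ hG => Cl.lift hs.1 G hG)
        fun e => hs.not_le M.tr M'.tr ((hle _ _).1 e)
      exact ⟨s.snoc (f M') (h2.trans_lt h3), by simp [h1], by simp⟩
  obtain ⟨s, rfl, -⟩ := key
  exact Order.LTSeries.length_le_krullDim s

end Pool.Agent.AdmG

end

section

/-! Strict steps towards a smooth curve. -/

namespace Pool.Agent.AdmG

open Pool.Agent.Adm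
open scoped OnePoint
open Polynomial

variable {k k' F ι κ : Type} [Field k] [Field k'] [IsAlgClosed k'] [Field F] [Fintype F]

theorem exists_section_Ext3 {G A : Type} [Group G] [Group A] (H : Subgroup G)
    (H' : Subgroup (G × A)) (hm : H'.map (MonoidHom.fst G A) = H)
    (hno : ∀ a : A, ((1 : G), a) ∈ H' → a = 1) :
    ∃ ψ : H →* A, ∀ (x : G × A), x ∈ H' → ∀ hx : x.1 ∈ H, ψ ⟨x.1, hx⟩ = x.2 := by
  have hmem : ∀ x : H', ((MonoidHom.fst G A).comp H'.subtype) x ∈ H := fun x =>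
    hm ▸ Subgroup.mem_map_of_mem _ x.2
  let π : H' →* H := ((MonoidHom.fst G A).comp H'.subtype).codRestrict H hmem
  have hb : Function.Bijective π := by
    constructor
    · rw [injective_iff_map_eq_one]
      intro x hx
      have h1 : x.1.1 = 1 := congrArg Subtype.val hx
      have h2 : x.1.2 = 1 := hno _ (h1 ▸ x.2)
      exact Subtype.ext (Prod.ext h1 h2)
    · intro g
      have hg : g.1 ∈ H'.map (MonoidHom.fst G A) := hm.symm ▸ g.2
      obtain ⟨x, hx, e⟩ := hg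
      exact ⟨⟨x, hx⟩, Subtype.ext e⟩
  let E : H' ≃* H := MulEquiv.ofBijective π hb
  refine ⟨((MonoidHom.snd G A).comp H'.subtype).comp E.symm.toMonoidHom, fun x hx hx1 => ?_⟩
  have : E.symm ⟨x.1, hx1⟩ = ⟨x, hx⟩ := by
    rw [MulEquiv.symm_apply_eq]
    rfl
  show (E.symm ⟨x.1, hx1⟩).1.2 = x.2
  rw [this]

theorem dom_true_vtx (φ : k →+* k') (θ : F →+* k) {P : AP k ι} (hP : Nice P)
    (a : ι → OnePoint k') (hl : Lifts φ P (vtx a)) (n : ι → ℤ) (hfix : AllFix θ P n) (f : k'[X])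
    (c2 : Cover k' (Aff F)) (h : AffLab (φ.comp θ) c2 f) (hc : ¬ Aff.HasFix c2.ι.range)
    (h1 : ∀ i, labAt f (a i) ≡ n i [ZMOD (Fintype.card F - 1 : ℕ)])
    (h2 : ∀ x, x ∉ Set.range a → labAt f x ≡ 0 [ZMOD (Fintype.card F - 1 : ℕ)]) :
    Dom True φ (φ.comp θ) P (vtx a) n := by
  intro G _ _ d H hd ξ hξ
  obtain ⟨y, H', v1, v2, v3, v4⟩ := dom_vtx_core (φ.comp θ) a n f c2 h h1 h2 G
    (fun i => (d i).map φ) H (hl G d H hd) ξ hξ
  refine ⟨y, H', v1, v2, v3, fun _ => ?_⟩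
  by_contra hno
  obtain ⟨ψ, hψ⟩ := exists_section_Ext3 H H' v2 fun b hb => by
    by_contra hb1
    exact hno ⟨b, hb1, hb⟩
  obtain ⟨d', hd', hdd⟩ := hP.restr G d H H hd le_rfl
  have hlab : ∀ i, LabD (Fintype.card F - 1) θ (Aff.lin.comp ψ) (d' i) (n i) := by
    intro i
    have e1 : (d' i).1 = (d i).1 := congrArg (fun x => x.1) (hdd i)
    have e2 : (d' i).2.1 = (d i).2.1 := congrArg (fun x => x.2.1) (hdd i)
    have e3 : ((d' i).2.2 : G) = (d i).2.2 := congrArg (fun x => x.2.2) (hdd i)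
    have hv := hP.valid G d H hd i
    have hv' := hP.valid H d' _ hd' i
    have hy : ((d i).2.2, y i) ∈ H' := ((nice_vtx a).valid _ _ _ v1 i).2.2.2
    have e4 : ψ (d' i).2.2 = y i :=
      (congrArg ψ (Subtype.ext e3)).trans (hψ _ hy hv.2.2.2)
    have e5 : y i ^ (d i).1 = 1 := by
      rw [← e4, ← map_pow, ← e1, hv'.2.2.1, map_one]
    have e6 : (y i).u ^ (d i).1 = 1 := by
      have := congrArg Aff.lin e5
      rwa [map_pow, map_one] at this
    show Lab _ (d' i).1 (d' i).2.1 (θ ((Aff.lin (ψ (d' i).2.2) : Fˣ) : F)) (n i)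
    rw [e1, e2, e4, ← lab_map_iff φ, ← (hξ i).2]
    refine lab_of_root (card_sub_one_pos_VP F) hv.1 (hξ i).1 ?_ (v3 i)
    rw [← map_pow, ← map_pow, ← Units.val_pow_eq_pow_val, Aff.lin_apply, e6, Units.val_one,
      map_one, map_one]
  obtain ⟨β, hβ⟩ := hfix H d' _ ψ hd' hlab
  refine v4 hc ⟨β, ?_⟩
  rintro g ⟨x, hx, rfl⟩
  have hx1 : x.1 ∈ H := v2 ▸ Subgroup.mem_map_of_mem (MonoidHom.fst G (Aff F)) hx
  exact hβ _ ⟨⟨x.1, hx1⟩, hx1, hψ x hx hx1⟩

theorem step_of [Fintype κ] (φ : k →+* k') (θ : F →+* k) {P : AP k (W κ)} (hP : Nice P)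
    (u : κ → k') (hu : Function.Injective (gen u)) (hl : Lifts φ P (vtx (gen u)))
    (n : Option (Option κ) → ℕ) (hn : ∀ i, n i < Fintype.card F - 1)
    (h1 : Fintype.card F ≤ ∑ i, n i) (h2 : ∑ i, n i ≤ 2 * (Fintype.card F - 1))
    (hκ : (∏ j, (X - C (fin u j)) ^ n j : k'[X]).coeff (Fintype.card F - 1) ≠ 0)
    (hfix : AllFix θ P fun o => o.elim (-((∑ i, n i : ℕ) : ℤ)) fun o => (n o : ℤ)) :
    Step R0 φ P (vtx (gen u)) := by
  have ha : Function.Injective (fin u) := fun o o' e =>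
    Option.some_injective _ (hu (by rw [gen_some, gen_some, e]))
  obtain ⟨r1, r2, r3, r4⟩ := rootMultiplicity_prod_X_sub_C (fin u) ha n
  generalize (∏ j, (X - C (fin u j)) ^ n j : k'[X]) = f at hκ r1 r2 r3 r4
  have hm : ∀ x : k', f.rootMultiplicity x < Fintype.card F - 1 := by
    intro x
    by_cases hx : x ∈ Set.range (fin u)
    · obtain ⟨i, rfl⟩ := hx
      rw [r1 i]
      exact hn i
    · rw [r2 x hx]
      exact card_sub_one_pos_VP F
  obtain ⟨c2, hc2, hnf⟩ := exists_affLab_noFix (φ.comp θ) f r4 (r3 ▸ h1) (r3 ▸ h2) hκ hm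
  refine ⟨hl, F, inferInstance, inferInstance, φ.comp θ, _, ?_,
    dom_true_vtx φ θ hP (gen u) hl _ hfix f c2 hc2 hnf (fun i => ?_) fun x hx => ?_⟩
  · unfold R0
    rw [Fintype.sum_option]
    simp only [Option.elim_none, Option.elim_some, Nat.cast_sum, neg_add_cancel]
  · rcases i with _ | o
    · show -((f.natDegree : ℕ) : ℤ) ≡ -((∑ i, n i : ℕ) : ℤ) [ZMOD _]
      rw [r3]
    · show ((f.rootMultiplicity (fin u o) : ℕ) : ℤ) ≡ (n o : ℤ) [ZMOD _]
      rw [r1]
  · induction x using OnePoint.rec with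
    | infty => exact absurd ⟨none, rfl⟩ hx
    | coe b =>
      have hb : b ∉ Set.range (fin u) := by
        rintro ⟨o, rfl⟩
        exact hx ⟨some o, rfl⟩
      show ((f.rootMultiplicity b : ℕ) : ℤ) ≡ 0 [ZMOD _]
      rw [r2 b hb]
      rfl

end Pool.Agent.AdmG

end

section

/-! Computation of the Hasse coefficient. -/

namespace Pool.Agent.Adm

open Polynomial

variable {k : Type} [Field k]

theorem coeff_prod_pred {ι : Type} [Fintype ι] (a : ι → k) (n : ι → ℕ) (D : ℕ)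
    (hD : ∑ i, n i = D + 1) :
    (∏ j, (X - C (a j)) ^ n j : k[X]).coeff D = -∑ i, (n i : k) * a i := by
  have hm : ∀ j, ((X - C (a j)) ^ n j : k[X]).Monic := fun j => (monic_X_sub_C _).pow _
  have hd : (∏ j, (X - C (a j)) ^ n j : k[X]).natDegree = D + 1 := by
    rw [natDegree_prod_of_monic _ _ fun j _ => hm j, ← hD]
    exact Finset.sum_congr rfl fun j _ => by rw [natDegree_pow, natDegree_X_sub_C, mul_one]
  have h := Monic.nextCoeff_prod Finset.univ (fun j => ((X - C (a j)) ^ n j : k[X]))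
    fun j _ => hm j
  rw [nextCoeff_of_natDegree_pos (by omega), hd, Nat.add_sub_cancel] at h
  rw [h, ← Finset.sum_neg_distrib]
  exact Finset.sum_congr rfl fun j _ => by
    rw [(monic_X_sub_C _).nextCoeff_pow, nextCoeff_X_sub_C, nsmul_eq_mul, mul_neg]

theorem coeff_mul_X_sub_one_pow (p : ℕ) [Fact p.Prime] [CharP k p] (r : ℕ) (hr : 0 < r)
    (g : k[X]) (hg : g.natDegree ≤ p ^ r) :
    ((X - C 1) ^ (p ^ r - 2) * g).coeff (p ^ r - 1) = g.derivative.eval 1 := by
  have h2 : 2 ≤ p ^ r := (Fact.out : p.Prime).two_le.trans (Nat.le_self_pow hr.ne' p)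
  obtain ⟨m, hm⟩ : ∃ m, p ^ r = m + 2 := ⟨p ^ r - 2, by omega⟩
  have hq : ((X - C 1) ^ (m + 2) : k[X]) = X ^ (m + 2) - 1 := by
    rw [← hm, sub_pow_char_pow, map_one, one_pow]
  have hmo : ((X - C 1) ^ 2 : k[X]).Monic := (monic_X_sub_C _).pow _
  have hd2 : ((X - C 1) ^ 2 : k[X]).natDegree = 2 := by rw [natDegree_pow, natDegree_X_sub_C]
  have hne : ((X - C 1) ^ 2 : k[X]) ≠ 1 := fun h => by rw [h, natDegree_one] at hd2; omega
  have e1 := modByMonic_add_div g ((X - C 1) ^ 2 : k[X])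
  have e2 : (g %ₘ (X - C 1) ^ 2).natDegree ≤ 1 := by
    have := natDegree_modByMonic_lt g hmo hne
    omega
  have e3 : (g /ₘ (X - C 1) ^ 2).natDegree ≤ m := by
    rw [natDegree_divByMonic g hmo, hd2]; omega
  rw [eq_X_add_C_of_natDegree_le_one e2] at e1
  generalize (g %ₘ (X - C 1) ^ 2).coeff 1 = a at e1
  generalize (g %ₘ (X - C 1) ^ 2).coeff 0 = b at e1
  generalize g /ₘ (X - C 1) ^ 2 = h at e1 e3
  have hdm : ((X - C 1) ^ m : k[X]).natDegree = m := by
    rw [natDegree_pow, natDegree_X_sub_C, mul_one]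
  have c1 : ((X - C 1) ^ m : k[X]).coeff m = 1 := by
    have := ((monic_X_sub_C (1 : k)).pow m).coeff_natDegree
    rwa [hdm] at this
  have c2 : ((X - C 1) ^ m : k[X]).coeff (m + 1) = 0 := coeff_eq_zero_of_natDegree_lt (by omega)
  have c3 : h.coeff (m + 1) = 0 := coeff_eq_zero_of_natDegree_lt (by omega)
  have e4 : (X - C 1) ^ m * g = C a * ((X - C 1) ^ m * X) + C b * (X - C 1) ^ m +
      (X ^ (m + 2) * h - h) := by
    rw [← e1]
    linear_combination h * hq
  rw [hm, Nat.add_sub_cancel, show m + 2 - 1 = m + 1 from rfl, e4, ← e1]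
  simp only [coeff_add, coeff_sub, coeff_C_mul, coeff_mul_X, c1, c2, c3, coeff_X_pow_mul']
  simp [derivative_pow]

/-- The coefficient when the point 1 carries the label q - 2. -/
theorem coeff_prod_one (p : ℕ) [Fact p.Prime] [CharP k p] (r : ℕ) (hr : 0 < r) {ι : Type}
    [Fintype ι] [DecidableEq ι] (a : ι → k) (ha : Function.Injective a) (n : ι → ℕ) (i0 : ι)
    (h1 : a i0 = 1) (hn : n i0 = p ^ r - 2) (hD : ∑ i ∈ Finset.univ.erase i0, n i ≤ p ^ r) :
    (∏ j, (X - C (a j)) ^ n j : k[X]).coeff (p ^ r - 1) = 0 ↔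
      ∑ i ∈ Finset.univ.erase i0, (n i : k) / (1 - a i) = 0 := by
  have hne : ∀ i ∈ Finset.univ.erase i0, 1 - a i ≠ 0 := fun i hi h =>
    (Finset.mem_erase.1 hi).1 (ha (by rw [h1]; exact (sub_eq_zero.1 h).symm))
  have key : ∀ s : Finset ι, (∀ i ∈ s, 1 - a i ≠ 0) →
      (derivative (∏ j ∈ s, (X - C (a j)) ^ n j : k[X])).eval 1 =
        (∏ j ∈ s, (1 - a j) ^ n j) * ∑ i ∈ s, (n i : k) / (1 - a i) := by
    intro s
    induction s using Finset.induction_on with
    | empty => simp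
    | insert i s hi ih =>
      intro hs
      have h0 := hs i (Finset.mem_insert_self _ _)
      rw [Finset.prod_insert hi, Finset.prod_insert hi, Finset.sum_insert hi, derivative_mul,
        eval_add, eval_mul, eval_mul, ih fun j hj => hs j (Finset.mem_insert_of_mem hj),
        derivative_X_sub_C_pow]
      simp only [eval_prod, eval_pow, eval_sub, eval_X, eval_C, eval_mul]
      rcases n i with _ | m
      · simp
      · rw [Nat.add_sub_cancel]
        field_simp
        ring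
  have hdeg : (∏ j ∈ Finset.univ.erase i0, (X - C (a j)) ^ n j : k[X]).natDegree ≤ p ^ r := by
    rw [natDegree_prod_of_monic _ _ fun j _ => (monic_X_sub_C _).pow _]
    refine le_trans (le_of_eq (Finset.sum_congr rfl fun j _ => ?_)) hD
    rw [natDegree_pow, natDegree_X_sub_C, mul_one]
  rw [← Finset.mul_prod_erase _ _ (Finset.mem_univ i0), h1, hn,
    coeff_mul_X_sub_one_pow p r hr _ hdeg, key _ hne, mul_eq_zero, or_iff_right]
  exact Finset.prod_ne_zero_iff.2 fun i hi => pow_ne_zero _ (hne i hi)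

end Pool.Agent.Adm

end

section

/-! Affine quotients of the lower curve of each step have a fixed point. -/

namespace Pool.Agent.Adm

open scoped OnePoint
open Polynomial

variable {k F : Type} [Field k] [IsAlgClosed k] [Field F] [Fintype F]

omit [IsAlgClosed k] [Fintype F] in
theorem u_ne_one_Fix3 (θ : F →+* k) {m e : ℕ} {ζ : k} (he : 0 < e) (hζ : IsPrimitiveRoot ζ e)
    (u : Fˣ) (n : ℕ) (h0 : 0 < n) (h1 : n < m) (h : Lab m e ζ (θ u) n) : u ≠ 1 := by
  rintro rfl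
  have h2 : Lab m e ζ (θ ((1 : Fˣ) : F)) 0 := by
    rw [Units.val_one, map_one]
    exact lab_one m e ζ
  have h3 := (Lab.unique he hζ h2 h).dvd
  rw [sub_zero] at h3
  have h4 : m ∣ n := by exact_mod_cast h3
  exact absurd (Nat.le_of_dvd h0 h4) (by omega)

omit [IsAlgClosed k] in
theorem inj2_Fix3 : Function.Injective (![0, 1] : Fin 2 → k) := by
  intro i j h
  fin_cases i <;> fin_cases j <;> simp_all

omit [IsAlgClosed k] in
theorem inj3_Fix3 (x y : k) (hx : x ≠ 0) (hy : y ≠ 0) (hxy : x ≠ y) :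
    Function.Injective (![0, x, y] : Fin 3 → k) := by
  intro i j h
  fin_cases i <;> fin_cases j <;> simp_all [eq_comm]

theorem fix3 (θ : F →+* k) (p : ℕ) (hp : p.Prime) (hF : Fintype.card F = p ^ 2) (s s' : k)
    (h0 : s ≠ 0) (h1 : s ≠ 1) (h0' : s' ≠ 0) (h1' : s' ≠ 1) :
    AllFix θ (A3 s s') ![(p : ℤ) ^ 2 - p - 1, 0, 1, p, 0, 0, -(p : ℤ) ^ 2] := by
  intro G _ d ψ hA hL
  obtain ⟨c1, c3, c4, t1, t3, t4, ⟨e, ζ, g, g1, g3⟩, ⟨e', ζ', g', g3', g4⟩, hsup, m0, m1, m2, m3,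
    m4, m5, -⟩ := hA
  have hp2 := hp.two_le
  have hpk : (p : k) = 0 := by
    have := card_cast_eq_zero θ
    rw [hF, Nat.cast_pow] at this
    exact pow_eq_zero_iff (two_ne_zero) |>.1 this
  obtain ⟨N, hN⟩ : ∃ N : ℕ, p ^ 2 = N + p + 1 := by
    refine ⟨p ^ 2 - p - 1, ?_⟩
    have : p + 1 ≤ p ^ 2 := by nlinarith
    omega
  have hNZ : (p : ℤ) ^ 2 - p - 1 = N := by
    have : ((p ^ 2 : ℕ) : ℤ) = ((N + p + 1 : ℕ) : ℤ) := by rw [hN]
    push_cast at this
    linarith
  have hm : Fintype.card F - 1 = N + p := by omega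
  have L0 := hL 0
  have L1 := hL 1
  have L2 := hL 2
  have L3 := hL 3
  have L4 := hL 4
  have L5 := hL 5
  simp only [LabD, MonoidHom.comp_apply, Aff.lin_apply, hNZ] at L0 L1 L2 L3 L4 L5
  -- first component
  obtain ⟨a1, b1, -⟩ := c1.vertex θ ψ ![0, s, 1] (inj3_Fix3 s 1 h0 one_ne_zero h1) ![N, 0, 1]
    (S4 s) t1 (by
      intro x hx
      simp only [S4, Set.mem_insert_iff, Set.mem_singleton_iff, OnePoint.some_eq_iff,
        OnePoint.coe_ne_infty, or_false] at hx
      rcases hx with rfl | rfl | rfl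
      exacts [⟨0, rfl⟩, ⟨2, rfl⟩, ⟨1, rfl⟩])
    (by
      intro i
      fin_cases i
      exacts [⟨_, _, _, m0, L0⟩, ⟨_, _, _, m1, L1⟩, ⟨_, _, _, m2, L2⟩])
  have s1 : ∑ i, (![N, 0, 1] : Fin 3 → ℕ) i = N + 1 := by simp [Fin.sum_univ_three]
  rw [s1] at a1 b1
  have f1 := b1 (Or.inl (by omega))
  have l3 : Lab (Fintype.card F - 1) e ζ⁻¹ (θ (ψ g).u) ((N + 1 : ℕ) : ℤ) := by
    have := (a1 _ _ _ g1).inv
    rwa [neg_neg] at this
  -- middle component
  obtain ⟨a3, b3, -⟩ := c3.vertex θ ψ ![0, 1] inj2_Fix3 ![N + 1, p]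
    (S3 k) t3 (by
      intro x hx
      simp only [S3, Set.mem_insert_iff, Set.mem_singleton_iff, OnePoint.some_eq_iff,
        OnePoint.coe_ne_infty, or_false] at hx
      rcases hx with rfl | rfl
      exacts [⟨0, rfl⟩, ⟨1, rfl⟩])
    (by
      intro i
      fin_cases i
      exacts [⟨_, _, _, g3, l3⟩, ⟨_, _, _, m3, L3⟩])
  have s3 : ∑ i, (![N + 1, p] : Fin 2 → ℕ) i = Fintype.card F - 1 + 1 := by
    rw [Fin.sum_univ_two, hm]
    simp only [Matrix.cons_val_zero, Matrix.cons_val_one]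
    omega
  have f3 := b3 (Or.inr ⟨by rw [s3]; omega, by
    rw [coeff_prod_pred _ _ _ s3]
    simp [Fin.sum_univ_two, hpk]⟩)
  rw [s3] at a3
  have l4 : Lab (Fintype.card F - 1) e' ζ'⁻¹ (θ (ψ g').u) ((1 : ℕ) : ℤ) := by
    have := (a3 _ _ _ g3').inv
    rw [neg_neg] at this
    refine this.congr ?_
    push_cast
    exact Int.modEq_iff_dvd.2 ⟨-1, by ring⟩
  -- last component
  obtain ⟨-, b4, -⟩ := c4.vertex θ ψ ![0, 1, s'] (inj3_Fix3 1 s' one_ne_zero h0' h1'.symm)
    ![1, 0, 0] (S4 s') t4 (by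
      intro x hx
      simp only [S4, Set.mem_insert_iff, Set.mem_singleton_iff, OnePoint.some_eq_iff,
        OnePoint.coe_ne_infty, or_false] at hx
      rcases hx with rfl | rfl | rfl
      exacts [⟨0, rfl⟩, ⟨1, rfl⟩, ⟨2, rfl⟩])
    (by
      intro i
      fin_cases i
      exacts [⟨_, _, _, g4, l4⟩, ⟨_, _, _, m4, L4⟩, ⟨_, _, _, m5, L5⟩])
  have s4 : ∑ i, (![1, 0, 0] : Fin 3 → ℕ) i = 1 := by simp [Fin.sum_univ_three]
  rw [s4] at b4
  have f4 := b4 (Or.inl (by omega))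
  have u3 : (ψ g).u ≠ 1 := u_ne_one_Fix3 θ g3.1 g3.2.1 _ (N + 1) (by omega) (by omega) l3
  have u4 : (ψ g').u ≠ 1 := u_ne_one_Fix3 θ g4.1 g4.2.1 _ 1 (by omega) (by omega) l4
  have f13 := f1.sup f3 (ψ g) (Subgroup.mem_map_of_mem ψ g1.mem_range)
    (Subgroup.mem_map_of_mem ψ g3.mem_range) u3
  have f134 := f13.sup f4 (ψ g') (Subgroup.mem_sup_right (Subgroup.mem_map_of_mem ψ g3'.mem_range))
    (Subgroup.mem_map_of_mem ψ g4.mem_range) u4
  rw [← Subgroup.map_sup, ← Subgroup.map_sup, hsup, ← MonoidHom.range_eq_map] at f134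
  exact f134

end Pool.Agent.Adm

end

section

/-! Affine quotients of the lower curves have fixed points. -/

namespace Pool.Agent.AdmG

open Pool.Agent.Adm
open scoped OnePoint
open Polynomial

variable {k F κ : Type} [Field k] [IsAlgClosed k] [Field F] [Fintype F] [Fintype κ]

omit [IsAlgClosed k] [Fintype κ] in
theorem fin_inj {s : κ → k} (hs : Function.Injective (gen s)) : Function.Injective (fin s) := by
  intro o o' h
  exact Option.some_injective _ (hs (by rw [gen_some, gen_some, h]))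

/-- The facts on one line with marked points. -/
theorem vtx_Fx {κ : Type} [Fintype κ] (θ : F →+* k) (s : κ → k) (hs : Function.Injective (gen s))
    (n : Option (Option κ) → ℕ) {G : Type} [Group G] (d : W κ → Dat k G) (H : Subgroup G)
    (ψ : G →* Aff F) (hA : vtx (gen s) G d H)
    (hl : ∀ o, LabD (Fintype.card F - 1) θ (Aff.lin.comp ψ) (d (some o)) (n o)) :
    LabD (Fintype.card F - 1) θ (Aff.lin.comp ψ) (dinv (d none)) ((∑ i, n i : ℕ) : ℤ) ∧
    ((∑ i, n i ≤ Fintype.card F - 1 ∨ (∑ i, n i ≤ 2 * (Fintype.card F - 1) ∧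
      (∏ j, (X - C (fin s j)) ^ n j : k[X]).coeff (Fintype.card F - 1) = 0)) →
        Aff.HasFix (H.map ψ)) ∧
    ∀ o, 0 < (d o).1 ∧ IsPrimitiveRoot (d o).2.1 (d o).1 ∧ (d o).2.2 ∈ H := by
  obtain ⟨c, hT, hd, rfl⟩ := hA
  obtain ⟨a, b, -⟩ := c.vertex θ ψ (fin s) (fin_inj hs) n _ hT (by
      rintro x ⟨_ | o, ho⟩
      · exact absurd ho.symm (OnePoint.coe_ne_infty x)
      · exact ⟨o, OnePoint.coe_injective ho⟩)
    (fun o => ⟨_, _, _, hd (some o), hl o⟩)
  refine ⟨?_, b, fun o => ⟨(hd o).1, (hd o).2.1, Cover.Mono.mem_range (hd o)⟩⟩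
  have := (a _ _ _ (hd none)).inv
  rwa [neg_neg] at this

omit [Fintype κ] in
/-- The middle line. -/
theorem tri_Fx (θ : F →+* k) (p N : ℕ) (hpk : (p : k) = 0) (hm : Fintype.card F - 1 = N + p)
    (hp : 2 ≤ p) {G : Type} [Group G] (d : W Empty → Dat k G) (H : Subgroup G)
    (ψ : G →* Aff F) (hA : tri k G d H)
    (h0 : LabD (Fintype.card F - 1) θ (Aff.lin.comp ψ) (d (some none)) ((N + 1 : ℕ) : ℤ))
    (h1 : LabD (Fintype.card F - 1) θ (Aff.lin.comp ψ) (d (some (some none))) (p : ℤ)) :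
    LabD (Fintype.card F - 1) θ (Aff.lin.comp ψ) (dinv (d none)) ((1 : ℕ) : ℤ) ∧
    Aff.HasFix (H.map ψ) ∧ ∀ o, (d o).2.2 ∈ H := by
  have hi : Function.Injective (gen (Empty.elim : Empty → k)) := by
    rintro (_ | _ | _ | i) (_ | _ | _ | j) h <;>
      first | rfl | exact i.elim | exact j.elim | simp [gen] at h
  obtain ⟨a, b, c⟩ := vtx_Fx θ Empty.elim hi (fun o => o.elim (N + 1) fun _ => p) d H ψ hA (by
    rintro (_ | _ | i)
    exacts [h0, h1, i.elim])
  have s3 : ∑ o : Option (Option Empty), (o.elim (N + 1) fun _ => p : ℕ)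
      = Fintype.card F - 1 + 1 := by
    simp only [Fintype.sum_option, Option.elim, Finset.univ_eq_empty, Finset.sum_empty]
    omega
  refine ⟨?_, b (Or.inr ⟨by rw [s3]; omega, ?_⟩), fun o => (c o).2.2⟩
  · rw [s3] at a
    refine Lab.congr a ?_
    push_cast
    exact Int.modEq_iff_dvd.2 ⟨-1, by ring⟩
  · rw [coeff_prod_pred _ _ _ s3]
    simp [Fintype.sum_option, fin, hpk]

omit [IsAlgClosed k] [Fintype κ] in
theorem num_Fx (θ : F →+* k) (p : ℕ) (hp : p.Prime) (hF : Fintype.card F = p ^ 2) :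
    (p : k) = 0 ∧ ∃ M : ℕ, (p : ℤ) ^ 2 - p - 1 = M ∧ Fintype.card F - 1 = M + p := by
  have hp2 := hp.two_le
  refine ⟨?_, ?_⟩
  · have := card_cast_eq_zero θ
    rw [hF, Nat.cast_pow] at this
    exact pow_eq_zero_iff (two_ne_zero) |>.1 this
  · obtain ⟨M, hM⟩ : ∃ M : ℕ, p ^ 2 = M + p + 1 := by
      refine ⟨p ^ 2 - p - 1, ?_⟩
      have : p + 1 ≤ p ^ 2 := by nlinarith
      omega
    refine ⟨M, ?_, by omega⟩
    have : ((p ^ 2 : ℕ) : ℤ) = ((M + p + 1 : ℕ) : ℤ) := by rw [hM]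
    push_cast at this
    linarith

/-- The first two lines. -/
theorem two_Fx (θ : F →+* k) (p M : ℕ) (hpk : (p : k) = 0) (hm : Fintype.card F - 1 = M + p)
    (hp : 2 ≤ p) (s : κ → k) (hs : Function.Injective (gen s)) {G : Type} [Group G]
    (ψ : G →* Aff F) (x y a b : Dat k G) (d : Option κ → Dat k G) (H1 H2 : Subgroup G)
    (h1 : vtx (gen s) G (fun o => o.elim x fun o => o.elim a d) H1)
    (h2 : tri k G (fun o => o.elim y fun o => o.elim (dinv x) fun _ => b) H2)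
    (la : LabD (Fintype.card F - 1) θ (Aff.lin.comp ψ) a (M : ℤ))
    (lb : LabD (Fintype.card F - 1) θ (Aff.lin.comp ψ) b (p : ℤ))
    (l1 : LabD (Fintype.card F - 1) θ (Aff.lin.comp ψ) (d none) 1)
    (l0 : ∀ i, LabD (Fintype.card F - 1) θ (Aff.lin.comp ψ) (d (some i)) 0) :
    LabD (Fintype.card F - 1) θ (Aff.lin.comp ψ) (dinv y) ((1 : ℕ) : ℤ) ∧
      Aff.HasFix (H1.map ψ ⊔ H2.map ψ) ∧ y.2.2 ∈ H2 := by
  obtain ⟨a1, b1, c1⟩ := vtx_Fx θ s hs (fun o => o.elim M fun o => o.elim 1 fun _ => 0) _ H1 ψ h1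
    (by
      rintro (_ | _ | i)
      exacts [la, l1, l0 i])
  have s1 : ∑ o : Option (Option κ), (o.elim M fun o => o.elim 1 fun _ => 0 : ℕ) = M + 1 := by
    simp [Fintype.sum_option]
  rw [s1] at a1 b1
  obtain ⟨a2, b2, c2⟩ := tri_Fx θ p M hpk hm hp _ H2 ψ h2 a1 lb
  have u1 : (ψ x.2.2).u ≠ 1 :=
    u_ne_one_Fix3 θ (c1 none).1 (c1 none).2.1.inv _ (M + 1) (by omega) (by omega) a1
  exact ⟨a2, (b1 (Or.inl (by omega))).sup b2 (ψ x.2.2) (Subgroup.mem_map_of_mem ψ (c1 none).2.2)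
    (Subgroup.mem_map_of_mem ψ (c2 (some none))) u1, c2 none⟩

theorem allFix_vtx (θ : F →+* k) (s : κ → k) (hs : Function.Injective (gen s))
    (n : Option (Option κ) → ℕ) (h2 : ∑ i, n i ≤ 2 * (Fintype.card F - 1))
    (hκ : (∏ j, (X - C (fin s j)) ^ n j : k[X]).coeff (Fintype.card F - 1) = 0) (N : W κ → ℤ)
    (hN : ∀ o, N (some o) = n o) : AllFix θ (vtx (gen s)) N := by
  intro G _ d H ψ hA hl
  exact (vtx_Fx θ s hs n d H ψ hA fun o => hN o ▸ hl (some o)).2.1 (Or.inr ⟨h2, hκ⟩)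

theorem allFix_two (θ : F →+* k) (p : ℕ) (hp : p.Prime) (hF : Fintype.card F = p ^ 2) (s : κ → k)
    (hs : Function.Injective (gen s)) (N : W (Option κ) → ℤ)
    (h0 : N (some none) = (p : ℤ) ^ 2 - p - 1) (h1 : N (some (some none)) = p)
    (h2 : N (some (some (some none))) = 1) (h3 : ∀ i, N (some (some (some (some i)))) = 0) :
    AllFix θ (two (vtx (gen s))) N := by
  rintro G _ d H ψ ⟨x, H1, H2, a1, a2, rfl⟩ hl
  obtain ⟨hpk, M, hM, hm⟩ := num_Fx θ p hp hF
  rw [Subgroup.map_sup]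
  exact (two_Fx θ p M hpk hm hp.two_le s hs ψ x _ _ _ _ H1 H2 a1 a2 (hM ▸ h0 ▸ hl _) (h1 ▸ hl _)
    (h2 ▸ hl _) fun i => h3 i ▸ hl _).2.1

theorem allFix_three (θ : F →+* k) (p : ℕ) (hp : p.Prime) (hF : Fintype.card F = p ^ 2)
    (s s' : κ → k) (hs : Function.Injective (gen s)) (hs' : Function.Injective (gen s'))
    (N : W (Option κ ⊕ Option κ) → ℤ)
    (h0 : N (some none) = (p : ℤ) ^ 2 - p - 1) (h1 : N (some (some none)) = p)
    (h2 : N (some (some (some (.inl none)))) = 1)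
    (h3 : ∀ i, N (some (some (some (.inl (some i))))) = 0)
    (h4 : ∀ o, N (some (some (some (.inr o)))) = 0) :
    AllFix θ (three (vtx (gen s)) (vtx (gen s'))) N := by
  rintro G _ d H ψ ⟨x, y, H1, H2, H3, a1, a2, a3, rfl⟩ hl
  obtain ⟨hpk, M, hM, hm⟩ := num_Fx θ p hp hF
  have hp2 := hp.two_le
  obtain ⟨b1, b2, b3⟩ := two_Fx θ p M hpk hm hp2 s hs ψ x _ _ _ _ H1 H2 a1 a2 (hM ▸ h0 ▸ hl _)
    (h1 ▸ hl _) (h2 ▸ hl _) fun i => h3 i ▸ hl _
  obtain ⟨-, c2, c3⟩ := vtx_Fx θ s' hs' (fun o => o.elim 1 fun _ => 0) _ H3 ψ a3 (by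
    rintro (_ | o)
    · exact b1
    · have := hl (some (some (some (.inr o))))
      rw [h4] at this
      exact this)
  have s1 : ∑ o : Option (Option κ), (o.elim 1 fun _ => 0 : ℕ) = 1 := by
    simp [Fintype.sum_option]
  rw [s1] at c2
  have u1 : (ψ y.2.2).u ≠ 1 :=
    u_ne_one_Fix3 θ (c3 (some none)).1 (c3 (some none)).2.1 _ 1 (by omega) (by omega) b1
  rw [Subgroup.map_sup, Subgroup.map_sup]
  exact b2.sup (c2 (Or.inl (by omega))) (ψ y.2.2)
    (Subgroup.mem_sup_right (Subgroup.mem_map_of_mem ψ b3))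
    (Subgroup.mem_map_of_mem ψ (c3 (some none)).2.2) u1

end Pool.Agent.AdmG

end
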