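import Pool.Agent.Mg.F0854a0.G5d1e19
import Mathlib

section

/-! The Banach ring T of Laurent series converging on the unit circle of a complete
nonarchimedean field. -/

namespace Pool.Agent.Adm

open Filter Topology

noncomputable section

/-- Two-sided sequences tending to zero. -/
def T (C : Type) [NormedField C] : Type := ZeroAtInftyContinuousMap ℤ C

namespace T

variable {C : Type} [NormedField C]

instance : NormedAddCommGroup (T C) :=
  inferInstanceAs (NormedAddCommGroup (ZeroAtInftyContinuousMap ℤ C))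

instance [CompleteSpace C] : CompleteSpace (T C) :=
  inferInstanceAs (CompleteSpace (ZeroAtInftyContinuousMap ℤ C))

/-- The n-th coefficient. -/
def coeff (f : T C) (n : ℤ) : C := (show ZeroAtInftyContinuousMap ℤ C from f) n

/-- Constructor from a sequence tending to zero. -/
def mk (f : ℤ → C) (hf : Tendsto f cofinite (𝓝 0)) : T C :=
  (⟨⟨f, continuous_of_discreteTopology⟩, by rwa [cocompact_eq_cofinite]⟩ :
    ZeroAtInftyContinuousMap ℤ C)

@[simp] theorem coeff_mk (f : ℤ → C) (hf : Tendsto f cofinite (𝓝 0)) (n : ℤ) :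
    (mk f hf).coeff n = f n := rfl

@[ext] theorem ext {f g : T C} (h : ∀ n, f.coeff n = g.coeff n) : f = g :=
  ZeroAtInftyContinuousMap.ext h

theorem tendsto_coeff (f : T C) : Tendsto f.coeff cofinite (𝓝 0) := by
  have := (show ZeroAtInftyContinuousMap ℤ C from f).zero_at_infty'
  rwa [cocompact_eq_cofinite] at this

@[simp] theorem coeff_zero (n : ℤ) : (0 : T C).coeff n = 0 := rfl
@[simp] theorem coeff_add (f g : T C) (n : ℤ) : (f + g).coeff n = f.coeff n + g.coeff n := rfl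
@[simp] theorem coeff_neg (f : T C) (n : ℤ) : (-f).coeff n = -f.coeff n := rfl
@[simp] theorem coeff_sub (f g : T C) (n : ℤ) : (f - g).coeff n = f.coeff n - g.coeff n := rfl

theorem coeff_sum {ι : Type*} (s : Finset ι) (f : ι → T C) (n : ℤ) :
    (∑ i ∈ s, f i).coeff n = ∑ i ∈ s, (f i).coeff n := by
  classical
  induction s using Finset.induction_on with
  | empty => simp
  | insert a s ha ih => rw [Finset.sum_insert ha, Finset.sum_insert ha, coeff_add, ih]

theorem norm_coeff_le (f : T C) (n : ℤ) : ‖f.coeff n‖ ≤ ‖f‖ :=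
  BoundedContinuousFunction.norm_coe_le_norm
    (show ZeroAtInftyContinuousMap ℤ C from f).toBCF n

theorem norm_le (f : T C) {r : ℝ} (hr : 0 ≤ r) (h : ∀ n, ‖f.coeff n‖ ≤ r) : ‖f‖ ≤ r :=
  (BoundedContinuousFunction.norm_le (f := (show ZeroAtInftyContinuousMap ℤ C from f).toBCF)
    hr).2 h

theorem continuous_coeff (n : ℤ) : Continuous fun f : T C => f.coeff n := by
  refine (LipschitzWith.of_dist_le_mul (K := 1) fun f g => ?_).continuous
  rw [dist_eq_norm, dist_eq_norm, ← coeff_sub]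
  simpa using norm_coeff_le (f - g) n

/-- The monomial c V^n. -/
def mono (n : ℤ) (c : C) : T C :=
  mk (fun i => if i = n then c else 0) (by
    refine tendsto_const_nhds.congr' ?_
    filter_upwards [(Set.finite_singleton n).compl_mem_cofinite] with i hi
    rw [if_neg (by simpa using hi)])

theorem coeff_mono (n : ℤ) (c : C) (i : ℤ) : (mono n c).coeff i = if i = n then c else 0 := rfl

variable [CompleteSpace C] [IsUltrametricDist C]

omit [CompleteSpace C] [IsUltrametricDist C] in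
theorem tendsto_two_T1 (f g : T C) :
    Tendsto (fun p : ℤ × ℤ => f.coeff p.2 * g.coeff (p.1 - p.2)) cofinite (𝓝 0) := by
  have h1 : Function.Injective fun p : ℤ × ℤ => (p.2, p.1 - p.2) := by
    rintro ⟨a, b⟩ ⟨c, d⟩ h
    simp only [Prod.mk.injEq] at h ⊢
    omega
  exact (tendsto_mul_cofinite_nhds_zero f.tendsto_coeff g.tendsto_coeff).comp h1.tendsto_cofinite

theorem summable_two_T1 (f g : T C) :
    Summable fun p : ℤ × ℤ => f.coeff p.2 * g.coeff (p.1 - p.2) :=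
  NonarchimedeanAddGroup.summable_of_tendsto_cofinite_zero (tendsto_two_T1 f g)

omit [CompleteSpace C] [IsUltrametricDist C] in
theorem exists_max_T1 {a : ℤ → C} (ha : Tendsto a cofinite (𝓝 0)) :
    ∃ i, ∀ j, ‖a j‖ ≤ ‖a i‖ := by
  by_cases h : ∀ j, a j = 0
  · exact ⟨0, fun j => by rw [h j, h 0]⟩
  · obtain ⟨i0, h0⟩ := not_forall.mp h
    have h1 : {j | ¬ ‖a j‖ < ‖a i0‖}.Finite :=
      eventually_cofinite.mp (ha.norm.eventually_lt_const (by simpa using h0))
    obtain ⟨i, hi, hm⟩ := Set.exists_max_image _ (fun j => ‖a j‖) h1 ⟨i0, lt_irrefl _⟩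
    refine ⟨i, fun j => ?_⟩
    by_cases hj : ‖a j‖ < ‖a i0‖
    · exact hj.le.trans (not_lt.mp hi)
    · exact hm j hj

omit [CompleteSpace C] [IsUltrametricDist C] in
theorem exists_top_T1 {f : T C} (hf : f ≠ 0) : ∃ i, 0 < ‖f.coeff i‖ ∧
    (∀ j, ‖f.coeff j‖ ≤ ‖f.coeff i‖) ∧ ∀ j, i < j → ‖f.coeff j‖ < ‖f.coeff i‖ := by
  obtain ⟨i0, h0⟩ := exists_max_T1 f.tendsto_coeff
  have hp : 0 < ‖f.coeff i0‖ := by
    by_contra hc
    refine hf (ext fun n => ?_)
    exact norm_le_zero_iff.mp ((h0 n).trans (not_lt.mp hc))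
  have h1 : {j | ¬ ‖f.coeff j‖ < ‖f.coeff i0‖}.Finite :=
    eventually_cofinite.mp (f.tendsto_coeff.norm.eventually_lt_const (by simpa using hp))
  obtain ⟨i, hi, hm⟩ := Set.exists_max_image _ (fun j => j) h1 ⟨i0, lt_irrefl _⟩
  have hi' : ‖f.coeff i0‖ ≤ ‖f.coeff i‖ := not_lt.mp hi
  refine ⟨i, hp.trans_le hi', fun j => (h0 j).trans hi', fun j hj => lt_of_lt_of_le ?_ hi'⟩
  by_contra hc
  exact absurd (hm j hc) (not_le.mpr hj)

theorem summable_conv (f g : T C) (n : ℤ) : Summable fun i => f.coeff i * g.coeff (n - i) := by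
  exact (summable_two_T1 f g).prod_factor n

theorem tendsto_conv (f g : T C) :
    Tendsto (fun n => ∑' i, f.coeff i * g.coeff (n - i)) cofinite (𝓝 0) := by
  exact (summable_two_T1 f g).prod.tendsto_cofinite_zero

instance : Mul (T C) := ⟨fun f g => mk (fun n => ∑' i, f.coeff i * g.coeff (n - i))
  (tendsto_conv f g)⟩

instance : One (T C) := ⟨mono 0 1⟩

theorem coeff_mul (f g : T C) (n : ℤ) : (f * g).coeff n = ∑' i, f.coeff i * g.coeff (n - i) := rfl

theorem coeff_one (n : ℤ) : (1 : T C).coeff n = if n = 0 then 1 else 0 := rfl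

theorem mul_assoc' (f g h : T C) : f * g * h = f * (g * h) := by
  ext n
  have hs : Summable (Function.uncurry fun j i : ℤ =>
      f.coeff i * g.coeff (j - i) * h.coeff (n - j)) := by
    refine NonarchimedeanAddGroup.summable_of_tendsto_cofinite_zero ?_
    refine squeeze_zero_norm (a := fun p : ℤ × ℤ => ‖f.coeff p.2 * g.coeff (p.1 - p.2)‖ * ‖h‖)
      (fun p => ?_) ?_
    · change ‖f.coeff p.2 * g.coeff (p.1 - p.2) * h.coeff (n - p.1)‖ ≤ _
      rw [norm_mul]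
      exact mul_le_mul_of_nonneg_left (h.norm_coeff_le _) (norm_nonneg _)
    · simpa using (tendsto_two_T1 f g).norm.mul_const ‖h‖
  rw [coeff_mul, coeff_mul]
  simp only [coeff_mul, ← tsum_mul_right, ← tsum_mul_left]
  rw [← hs.tsum_comm]
  refine tsum_congr fun i => ?_
  rw [← (Equiv.addRight i).tsum_eq]
  refine tsum_congr fun k => ?_
  change f.coeff i * g.coeff (k + i - i) * h.coeff (n - (k + i)) = _
  rw [add_sub_cancel_right, mul_assoc, add_comm k i, sub_add_eq_sub_sub]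
theorem mul_comm' (f g : T C) : f * g = g * f := by
  ext n
  rw [coeff_mul, coeff_mul, ← (Equiv.subLeft n).tsum_eq]
  refine tsum_congr fun i => ?_
  rw [Equiv.subLeft_apply, sub_sub_cancel, mul_comm]
theorem one_mul' (f : T C) : 1 * f = f := by
  ext n
  rw [coeff_mul, tsum_eq_single 0 fun i hi => by rw [coeff_one, if_neg hi, zero_mul], coeff_one,
    if_pos rfl, one_mul, sub_zero]
theorem mul_add' (f g h : T C) : f * (g + h) = f * g + f * h := by
  ext n
  rw [coeff_add, coeff_mul, coeff_mul, coeff_mul,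
    ← (summable_conv f g n).tsum_add (summable_conv f h n)]
  exact tsum_congr fun i => by rw [coeff_add, mul_add]
theorem mul_zero' (f : T C) : f * 0 = 0 := by
  ext n
  simp [coeff_mul]
theorem norm_mul_le' (f g : T C) : ‖f * g‖ ≤ ‖f‖ * ‖g‖ := by
  refine norm_le _ (mul_nonneg (norm_nonneg _) (norm_nonneg _)) fun n => ?_
  rw [coeff_mul]
  refine IsUltrametricDist.norm_tsum_le_of_forall_le fun i => ?_
  rw [norm_mul]
  exact mul_le_mul (f.norm_coeff_le _) (g.norm_coeff_le _) (norm_nonneg _) (norm_nonneg _)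

instance : NormedCommRing (T C) :=
  { (inferInstance : NormedAddCommGroup (T C)) with
    mul := (· * ·)
    one := 1
    mul_assoc := mul_assoc'
    mul_comm := mul_comm'
    one_mul := one_mul'
    mul_one := fun f => by rw [mul_comm', one_mul']
    left_distrib := mul_add'
    right_distrib := fun f g h => by rw [mul_comm', mul_add', mul_comm' h, mul_comm' h]
    mul_zero := mul_zero'
    zero_mul := fun f => by rw [mul_comm', mul_zero']
    norm_mul_le := norm_mul_le' }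

theorem coeff_mono_mul (m : ℤ) (a : C) (f : T C) (n : ℤ) :
    (mono m a * f).coeff n = a * f.coeff (n - m) := by
  rw [coeff_mul, tsum_eq_single m fun i hi => by rw [coeff_mono, if_neg hi, zero_mul], coeff_mono,
    if_pos rfl]

theorem mono_mul_mono (m n : ℤ) (a b : C) : mono m a * mono n b = mono (m + n) (a * b) := by
  ext i
  rw [coeff_mono_mul, coeff_mono, coeff_mono]
  by_cases h : i = m + n
  · rw [if_pos h, if_pos (by omega)]
  · rw [if_neg h, if_neg (by omega), mul_zero]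

theorem mono_pow (m : ℤ) (a : C) (i : ℕ) : mono m a ^ i = mono (i * m) (a ^ i) := by
  induction i with
  | zero =>
    rw [pow_zero, pow_zero, Nat.cast_zero, zero_mul]
    rfl
  | succ i ih => rw [pow_succ, ih, mono_mul_mono, pow_succ, Nat.cast_succ, add_mul, one_mul]

/-- Constants. -/
def cst : C →+* T C where
  toFun c := mono 0 c
  map_one' := rfl
  map_zero' := by ext n; simp [coeff_mono]
  map_add' a b := by ext n; by_cases h : n = 0 <;> simp [coeff_mono, h]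
  map_mul' a b := by rw [mono_mul_mono, add_zero]

theorem cst_apply (c : C) : (cst c : T C) = mono 0 c := rfl

theorem coeff_cst_mul (c : C) (f : T C) (n : ℤ) : (cst c * f).coeff n = c * f.coeff n := by
  rw [cst_apply, coeff_mono_mul, sub_zero]

/-- Coefficients of a polynomial evaluated at a monomial, times a series. -/
theorem coeff_eval₂_mul (P : Polynomial C) (m : ℤ) (a : C) (f : T C) (n : ℤ) :
    (P.eval₂ cst (mono m a) * f).coeff n =
      ∑ i ∈ P.support, P.coeff i * a ^ i * f.coeff (n - i * m) := by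
  rw [Polynomial.eval₂_eq_sum, Polynomial.sum, Finset.sum_mul, coeff_sum]
  refine Finset.sum_congr rfl fun i _ => ?_
  rw [mul_assoc, coeff_cst_mul, mono_pow, coeff_mono_mul, mul_assoc]

instance : Nontrivial (T C) := ⟨⟨0, 1, fun h => by
  have := congrArg (fun f : T C => f.coeff 0) h
  simp [coeff_one] at this⟩⟩

theorem eq_zero_or_eq_zero (f g : T C) (h : f * g = 0) : f = 0 ∨ g = 0 := by
  by_contra hc
  obtain ⟨i, hi0, hi1, hi2⟩ := exists_top_T1 (not_or.mp hc).1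
  obtain ⟨k, hk0, hk1, hk2⟩ := exists_top_T1 (not_or.mp hc).2
  have h1 : (f * g).coeff (i + k) = 0 := by rw [h, coeff_zero]
  have hs := summable_conv f g (i + k)
  rw [coeff_mul, hs.tsum_eq_add_tsum_ite i, add_sub_cancel_left] at h1
  have ht : Tendsto (fun j => if j = i then 0 else f.coeff j * g.coeff (i + k - j)) cofinite
      (𝓝 0) := by
    refine hs.tendsto_cofinite_zero.congr' ?_
    filter_upwards [(Set.finite_singleton i).compl_mem_cofinite] with j hj
    rw [if_neg (by simpa using hj)]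
  obtain ⟨j, hj⟩ := exists_max_T1 ht
  have h2 := IsUltrametricDist.norm_tsum_le_of_forall_le hj
  rw [← neg_eq_of_add_eq_zero_right h1, norm_neg, norm_mul] at h2
  refine absurd h2 (not_le.mpr ?_)
  rcases lt_trichotomy j i with hji | hji | hji
  · rw [if_neg hji.ne, norm_mul]
    exact mul_lt_mul' (hi1 j) (hk2 _ (by omega)) (norm_nonneg _) hi0
  · rw [if_pos hji, norm_zero]
    exact mul_pos hi0 hk0
  · rw [if_neg hji.ne', norm_mul]
    exact lt_of_le_of_lt (mul_le_mul_of_nonneg_left (hk1 _) (norm_nonneg _))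
      (mul_lt_mul_of_pos_right (hi2 j hji) hk0)

instance : NoZeroDivisors (T C) := ⟨fun {f g} h => eq_zero_or_eq_zero f g h⟩

instance : IsDomain (T C) := NoZeroDivisors.to_isDomain _

/-- A nonzero polynomial evaluated at a nonconstant monomial is nonzero. -/
theorem eval₂_ne_zero (P : Polynomial C) (hP : P ≠ 0) (m : ℤ) (hm : m ≠ 0) (a : C) (ha : a ≠ 0) :
    P.eval₂ cst (mono m a) ≠ (0 : T C) := by
  intro h
  have h1 := coeff_eval₂_mul P m a 1 (P.natDegree * m)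
  rw [h, zero_mul, coeff_zero, Finset.sum_eq_single P.natDegree] at h1
  · rw [sub_self, coeff_one, if_pos rfl, mul_one] at h1
    exact mul_ne_zero (Polynomial.leadingCoeff_ne_zero.mpr hP) (pow_ne_zero _ ha) h1.symm
  · intro i _ hi
    rw [coeff_one, if_neg, mul_zero]
    intro h2
    have h3 := mul_right_cancel₀ hm (sub_eq_zero.mp h2)
    exact hi (by exact_mod_cast h3.symm)
  · intro h2
    exact absurd (Polynomial.natDegree_mem_support_of_nonzero hP) h2

end T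

end

end Pool.Agent.Adm

end

section

/-! Subrings of T and coefficientwise ring homomorphisms. -/

namespace Pool.Agent.Adm

open Filter Topology

noncomputable section

namespace T

variable {C : Type} [NormedField C] [CompleteSpace C] [IsUltrametricDist C]

omit [CompleteSpace C] [IsUltrametricDist C] in
theorem tendsto_le_T2 {a : ℤ → C} (f : T C) (h : ∀ n, ‖a n‖ ≤ ‖f.coeff n‖) :
    Tendsto a cofinite (𝓝 0) :=
  squeeze_zero_norm h (tendsto_zero_iff_norm_tendsto_zero.1 (tendsto_coeff f))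

omit [CompleteSpace C] [IsUltrametricDist C] in
theorem conv_T2 {l : C} (hl : l ≠ 0) (a b : ℤ → C) (n : ℤ) :
    l ^ n * ∑' i, a i * b (n - i) = ∑' i, (l ^ i * a i) * (l ^ (n - i) * b (n - i)) := by
  rw [← tsum_mul_left]
  refine tsum_congr fun i => ?_
  have : l ^ n = l ^ i * l ^ (n - i) := by rw [← zpow_add₀ hl, add_sub_cancel]
  rw [this]
  ring

omit [CompleteSpace C] [IsUltrametricDist C] in
theorem ne_zero_T2 {ζ : C} (h : ‖ζ‖ = 1) : ζ ≠ 0 := by
  rintro rfl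
  simp at h

omit [CompleteSpace C] [IsUltrametricDist C] in
theorem pwc_T2 {e : ℕ} (he : 0 < e) (a : ℤ → C) (n : ℤ) :
    (if (e : ℤ) ∣ e * n then a (e * n / e) else 0) = a n := by
  rw [if_pos (dvd_mul_right _ _), Int.mul_ediv_cancel_left _ (by omega)]

theorem tendsto_sc (ζ : C) (h : ‖ζ‖ = 1) (f : T C) :
    Tendsto (fun n : ℤ => ζ ^ n * f.coeff n) cofinite (𝓝 0) :=
  tendsto_le_T2 f fun n => by rw [norm_mul, norm_zpow, h, one_zpow, one_mul]

/-- The substitution V ↦ ζ V for ζ of norm one. -/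
def sc (ζ : C) (h : ‖ζ‖ = 1) : T C →+* T C where
  toFun f := mk (fun n => ζ ^ n * f.coeff n) (tendsto_sc ζ h f)
  map_one' := by
    ext n
    rw [coeff_mk, coeff_one]
    split_ifs with hn <;> simp [hn]
  map_zero' := by
    ext n
    simp
  map_add' f g := by
    ext n
    simp [mul_add]
  map_mul' f g := by
    ext n
    rw [coeff_mk, coeff_mul, coeff_mul, conv_T2 (ne_zero_T2 h)]
    rfl

@[simp] theorem coeff_sc (ζ : C) (h : ‖ζ‖ = 1) (f : T C) (n : ℤ) :
    (sc ζ h f).coeff n = ζ ^ n * f.coeff n := rfl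

theorem tendsto_pw (e : ℕ) (he : 0 < e) (f : T C) :
    Tendsto (fun n : ℤ => if (e : ℤ) ∣ n then f.coeff (n / e) else 0) cofinite (𝓝 0) := by
  have h1 : Tendsto (fun n : ℤ => n / (e : ℤ)) cofinite cofinite := by
    refine Tendsto.cofinite_of_finite_preimage_singleton fun b => ?_
    refine (Set.finite_Icc (e * b) (e * b + e)).subset fun n hn => ?_
    have h2 : n / (e : ℤ) = b := hn
    have h3 := Int.mul_ediv_add_emod n e
    have h4 := Int.emod_nonneg n (show (e : ℤ) ≠ 0 by omega)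
    have h5 := Int.emod_lt_of_pos n (show (0 : ℤ) < e by omega)
    rw [h2] at h3
    constructor <;> linarith
  refine squeeze_zero_norm (fun n => ?_)
    (tendsto_zero_iff_norm_tendsto_zero.1 ((tendsto_coeff f).comp h1))
  split_ifs <;> simp

/-- The substitution V ↦ V^e. -/
def pw (e : ℕ) (he : 0 < e) : T C →+* T C where
  toFun f := mk (fun n => if (e : ℤ) ∣ n then f.coeff (n / e) else 0) (tendsto_pw e he f)
  map_one' := by
    ext n
    rw [coeff_mk, coeff_one n]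
    by_cases h : (e : ℤ) ∣ n
    · obtain ⟨m, rfl⟩ := h
      rw [pwc_T2 he, coeff_one]
      simp [he.ne']
    · rw [if_neg h, if_neg (by rintro rfl; exact h (dvd_zero _))]
  map_zero' := by
    ext n
    simp
  map_add' f g := by
    ext n
    simp only [coeff_mk, coeff_add]
    split_ifs <;> simp
  map_mul' f g := by
    ext n
    rw [coeff_mk, coeff_mul _ _ n]
    simp only [coeff_mk]
    by_cases h : (e : ℤ) ∣ n
    · obtain ⟨m, rfl⟩ := h
      have hi : Function.Injective fun i : ℤ => (e : ℤ) * i :=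
        mul_right_injective₀ (by omega)
      rw [pwc_T2 he, coeff_mul]
      refine Eq.trans (tsum_congr fun i => ?_) (hi.tsum_eq fun i hi' => ?_)
      · rw [← mul_sub, pwc_T2 he, pwc_T2 he]
      · by_contra hn
        have : ¬ (e : ℤ) ∣ i := fun ⟨c, hc⟩ => hn ⟨c, hc.symm⟩
        exact hi' (by simp only [if_neg this, zero_mul])
    · rw [if_neg h]
      refine ((tsum_congr fun i => ?_).trans tsum_zero).symm
      by_cases h1 : (e : ℤ) ∣ i
      · rw [if_neg (c := (e : ℤ) ∣ n - i) (fun h2 => h (by simpa using dvd_add h2 h1)), mul_zero]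
      · rw [if_neg h1, zero_mul]

theorem coeff_pw (e : ℕ) (he : 0 < e) (f : T C) (n : ℤ) :
    (pw e he f).coeff n = if (e : ℤ) ∣ n then f.coeff (n / e) else 0 := rfl

theorem coeff_pw_mul (e : ℕ) (he : 0 < e) (f : T C) (n : ℤ) :
    (pw e he f).coeff (e * n) = f.coeff n := pwc_T2 he f.coeff n

theorem pw_injective (e : ℕ) (he : 0 < e) : Function.Injective (pw e he : T C → T C) := by
  intro f g h
  ext n
  rw [← coeff_pw_mul e he f, h, coeff_pw_mul]

theorem pw_mono (e : ℕ) (he : 0 < e) (n : ℤ) (c : C) : pw e he (mono n c) = mono (e * n) c := by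
  ext i
  by_cases h : (e : ℤ) ∣ i
  · obtain ⟨m, rfl⟩ := h
    rw [coeff_pw_mul, coeff_mono, coeff_mono]
    simp [he.ne']
  · rw [coeff_pw, if_neg h, coeff_mono, if_neg (by rintro rfl; exact h (dvd_mul_right _ _))]

theorem sc_pw (e : ℕ) (he : 0 < e) (ζ : C) (h : ‖ζ‖ = 1) (hζ : ζ ^ e = 1) (f : T C) :
    sc ζ h (pw e he f) = pw e he f := by
  ext i
  rw [coeff_sc]
  by_cases h : (e : ℤ) ∣ i
  · obtain ⟨m, rfl⟩ := h
    rw [zpow_mul, zpow_natCast, hζ, one_zpow, one_mul]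
  · rw [coeff_pw, if_neg h, mul_zero]

theorem exists_pw_of_sc (e : ℕ) (he : 0 < e) (ζ : C) (h : ‖ζ‖ = 1) (hζ : IsPrimitiveRoot ζ e)
    (f : T C) (hf : sc ζ h f = f) : ∃ g, pw e he g = f := by
  have hi : Function.Injective fun i : ℤ => (e : ℤ) * i := mul_right_injective₀ (by omega)
  refine ⟨mk (fun n => f.coeff (e * n)) ((tendsto_coeff f).comp hi.tendsto_cofinite), ?_⟩
  ext i
  by_cases h1 : (e : ℤ) ∣ i
  · obtain ⟨m, rfl⟩ := h1
    rw [coeff_pw_mul, coeff_mk]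
  · rw [coeff_pw, if_neg h1]
    have h2 : ζ ^ i * f.coeff i = f.coeff i := by rw [← coeff_sc ζ h, hf]
    by_contra h3
    exact h1 ((hζ.zpow_eq_one_iff_dvd i).1 ((mul_eq_right₀ (Ne.symm h3)).1 h2))

theorem tendsto_flip (f : T C) : Tendsto (fun n : ℤ => f.coeff (-n)) cofinite (𝓝 0) :=
  (tendsto_coeff f).comp neg_injective.tendsto_cofinite

/-- The substitution V ↦ V⁻¹. -/
def flip : T C →+* T C where
  toFun f := mk (fun n => f.coeff (-n)) (tendsto_flip f)
  map_one' := by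
    ext n
    rw [coeff_mk, coeff_one, coeff_one]
    simp
  map_zero' := by
    ext n
    simp
  map_add' f g := by
    ext n
    simp
  map_mul' f g := by
    ext n
    rw [coeff_mk, coeff_mul, coeff_mul, ← (Equiv.neg ℤ).tsum_eq]
    refine tsum_congr fun i => ?_
    simp only [coeff_mk, Equiv.neg_apply]
    congr 2
    ring

@[simp] theorem coeff_flip (f : T C) (n : ℤ) : (flip f).coeff n = f.coeff (-n) := rfl

theorem flip_flip (f : T C) : flip (flip f) = f := by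
  ext n
  simp

theorem flip_mono (n : ℤ) (c : C) : flip (mono n c) = mono (-n) c := by
  ext i
  rw [coeff_flip, coeff_mono, coeff_mono]
  simp only [neg_eq_iff_eq_neg]

theorem flip_sc (ζ : C) (h : ‖ζ‖ = 1) (f : T C) :
    flip (sc ζ h f) = sc ζ⁻¹ (by rw [norm_inv, h, inv_one]) (flip f) := by
  ext n
  simp

variable (C) in
/-- Power series in V. -/
def Tp : Subring (T C) where
  carrier := {f | ∀ n < 0, f.coeff n = 0}
  mul_mem' := by
    intro f g hf hg n hn
    rw [coeff_mul]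
    refine (tsum_congr fun i => ?_).trans tsum_zero
    by_cases h : i < 0
    · rw [hf i h, zero_mul]
    · rw [hg (n - i) (by omega), mul_zero]
  one_mem' := fun n hn => by rw [coeff_one, if_neg hn.ne]
  add_mem' := by
    intro f g hf hg n hn
    rw [coeff_add, hf n hn, hg n hn, add_zero]
  zero_mem' := fun n _ => rfl
  neg_mem' := by
    intro f hf n hn
    rw [coeff_neg, hf n hn, neg_zero]

theorem mem_Tp (f : T C) : f ∈ Tp C ↔ ∀ n < 0, f.coeff n = 0 := Iff.rfl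

variable (C) in
/-- Power series in V⁻¹. -/
def Tm : Subring (T C) where
  carrier := {f | ∀ n, 0 < n → f.coeff n = 0}
  mul_mem' := by
    intro f g hf hg n hn
    rw [coeff_mul]
    refine (tsum_congr fun i => ?_).trans tsum_zero
    by_cases h : 0 < i
    · rw [hf i h, zero_mul]
    · rw [hg (n - i) (by omega), mul_zero]
  one_mem' := fun n hn => by rw [coeff_one, if_neg hn.ne']
  add_mem' := by
    intro f g hf hg n hn
    rw [coeff_add, hf n hn, hg n hn, add_zero]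
  zero_mem' := fun n _ => rfl
  neg_mem' := by
    intro f hf n hn
    rw [coeff_neg, hf n hn, neg_zero]

theorem mem_Tm (f : T C) : f ∈ Tm C ↔ ∀ n, 0 < n → f.coeff n = 0 := Iff.rfl

/-- Series converging also on the circle of radius the norm of l. -/
def Tan (l : C) (hl : l ≠ 0) : Subring (T C) where
  carrier := {f | Tendsto (fun n : ℤ => l ^ n * f.coeff n) cofinite (𝓝 0)}
  mul_mem' := by
    intro f g hf hg
    refine (tendsto_coeff (mk _ hf * mk _ hg)).congr fun n => ?_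
    rw [coeff_mul, coeff_mul, conv_T2 hl]
    rfl
  one_mem' := by
    refine (tendsto_coeff (1 : T C)).congr fun n => ?_
    rw [coeff_one]
    split_ifs with hn <;> simp [hn]
  add_mem' := by
    intro f g hf hg
    refine (tendsto_coeff (mk _ hf + mk _ hg)).congr fun n => ?_
    simp [mul_add]
  zero_mem' := by
    refine (tendsto_coeff (0 : T C)).congr fun n => ?_
    simp
  neg_mem' := by
    intro f hf
    refine (tendsto_coeff (-mk _ hf)).congr fun n => ?_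
    simp

theorem mem_Tan (l : C) (hl : l ≠ 0) (f : T C) :
    f ∈ Tan l hl ↔ Tendsto (fun n : ℤ => l ^ n * f.coeff n) cofinite (𝓝 0) := Iff.rfl

theorem mono_mem_Tp (n : ℤ) (hn : 0 ≤ n) (c : C) : mono n c ∈ Tp C :=
  fun i hi => by rw [coeff_mono, if_neg (by omega)]

theorem mono_mem_Tm (n : ℤ) (hn : n ≤ 0) (c : C) : mono n c ∈ Tm C :=
  fun i hi => by rw [coeff_mono, if_neg (by omega)]

theorem mono_mem_Tan (l : C) (hl : l ≠ 0) (n : ℤ) (c : C) : mono n c ∈ Tan l hl := by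
  refine (tendsto_coeff (mono n (l ^ n * c))).congr fun i => ?_
  rw [coeff_mono, coeff_mono]
  split_ifs with h <;> simp [h]

theorem Tm_le_Tan (l : C) (hl : l ≠ 0) (h1 : 1 ≤ ‖l‖) : Tm C ≤ Tan l hl := by
  intro f hf
  refine tendsto_le_T2 f fun n => ?_
  by_cases h : 0 < n
  · rw [hf n h, mul_zero]
  · rw [norm_mul, norm_zpow]
    exact mul_le_of_le_one_left (norm_nonneg _) (zpow_le_one_of_nonpos₀ h1 (by omega))

/-- Restriction to the second circle: V ↦ l V. -/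
def res (l : C) (hl : l ≠ 0) : Tan l hl →+* T C where
  toFun f := mk (fun n => l ^ n * (f : T C).coeff n) f.2
  map_one' := by
    ext n
    rw [coeff_mk, OneMemClass.coe_one, coeff_one]
    split_ifs with hn <;> simp [hn]
  map_zero' := by
    ext n
    simp
  map_add' f g := by
    ext n
    simp [mul_add]
  map_mul' f g := by
    ext n
    rw [coeff_mk, MulMemClass.coe_mul, coeff_mul, coeff_mul, conv_T2 hl]
    rfl

@[simp] theorem coeff_res (l : C) (hl : l ≠ 0) (f : Tan l hl) (n : ℤ) :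
    (res l hl f).coeff n = l ^ n * (f : T C).coeff n := rfl

theorem res_injective (l : C) (hl : l ≠ 0) : Function.Injective (res l hl) := by
  intro f g h
  ext n
  have := congrArg (fun x : T C => x.coeff n) h
  exact mul_left_cancel₀ (zpow_ne_zero n hl) this

theorem res_mono (l : C) (hl : l ≠ 0) (n : ℤ) (c : C) :
    res l hl ⟨mono n c, mono_mem_Tan l hl n c⟩ = mono n (l ^ n * c) := by
  ext i
  rw [coeff_res, coeff_mono, coeff_mono]
  split_ifs with h <;> simp [h]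

/-- A power series converging on the big disc restricts to the annulus and to the small disc. -/
theorem exists_up (l : C) (hl : l ≠ 0) (h1 : 1 ≤ ‖l‖) :
    ∃ up : Tp C →+* Tan l hl, (∀ f, res l hl (up f) = (f : T C)) ∧
      ∀ f, ((up f : Tan l hl) : T C) ∈ Tp C := by
  have key : ∀ f : Tp C, ∃ g : Tan l hl, res l hl g = (f : T C) ∧ (g : T C) ∈ Tp C := by
    intro f
    have e : ∀ n : ℤ, l ^ n * (l ^ (-n) * (f : T C).coeff n) = (f : T C).coeff n := fun n => by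
      rw [← mul_assoc, ← zpow_add₀ hl, add_neg_cancel, zpow_zero, one_mul]
    have ht : Tendsto (fun n : ℤ => l ^ (-n) * (f : T C).coeff n) cofinite (𝓝 0) := by
      refine tendsto_le_T2 f fun n => ?_
      by_cases h : n < 0
      · rw [f.2 n h, mul_zero]
      · rw [norm_mul, norm_zpow]
        exact mul_le_of_le_one_left (norm_nonneg _) (zpow_le_one_of_nonpos₀ h1 (by omega))
    refine ⟨⟨mk _ ht, (tendsto_coeff (f : T C)).congr fun n => (e n).symm⟩, ext e, fun n hn => ?_⟩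
    rw [coeff_mk, f.2 n hn, mul_zero]
  choose u hu hu' using key
  refine ⟨{ toFun := u
            map_one' := res_injective l hl (by rw [hu, map_one]; rfl)
            map_mul' := fun f g => res_injective l hl (by rw [map_mul, hu, hu, hu]; rfl)
            map_zero' := res_injective l hl (by rw [hu, map_zero]; rfl)
            map_add' := fun f g => res_injective l hl (by rw [map_add, hu, hu, hu]; rfl) },
    hu, hu'⟩

theorem isClosed_Tp : IsClosed ((Tp C : Subring (T C)) : Set (T C)) := by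
  have : ((Tp C : Subring (T C)) : Set (T C)) = ⋂ n, ⋂ _ : n < 0, {f : T C | f.coeff n = 0} := by
    ext f
    simp [mem_Tp]
  rw [this]
  exact isClosed_iInter fun n => isClosed_iInter fun _ =>
    isClosed_eq (continuous_coeff n) continuous_const

theorem isClosed_Tm : IsClosed ((Tm C : Subring (T C)) : Set (T C)) := by
  have : ((Tm C : Subring (T C)) : Set (T C)) = ⋂ n, ⋂ _ : 0 < n, {f : T C | f.coeff n = 0} := by
    ext f
    simp [mem_Tm]
  rw [this]
  exact isClosed_iInter fun n => isClosed_iInter fun _ =>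
    isClosed_eq (continuous_coeff n) continuous_const

end T

end

end Pool.Agent.Adm

end

section

/-! The analytic package: meromorphic functions on the disc, the annulus and the outer disc
bounded by the circles of radii the norms of c1 and c2. -/

namespace Pool.Agent.Adm

open Filter Topology

noncomputable section

variable {C : Type} [NormedField C] [CompleteSpace C] [IsUltrametricDist C]

/-- The inclusion of T in its fraction field. -/
abbrev iT : T C →+* FractionRing (T C) := algebraMap (T C) (FractionRing (T C))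

/-- Rings QA, QM, QB of meromorphic functions, with restriction maps to the two circles followed
by the ramified pull-backs V ↦ V^e1, V ↦ V^e2; X is c1 V on the first circle, c2 V on the second. -/
structure AnPkg (c1 c2 : C) (e1 e2 : ℕ) (he1 : 0 < e1) (he2 : 0 < e2) : Type 1 where
  QA : Type
  QM : Type
  QB : Type
  [rA : CommRing QA]
  [rM : CommRing QM]
  [rB : CommRing QB]
  κA : RatFunc C →+* QA
  κM : RatFunc C →+* QM
  κB : RatFunc C →+* QB
  α : QA →+* FractionRing (T C)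
  μ1 : QM →+* FractionRing (T C)
  μ2 : QM →+* FractionRing (T C)
  β : QB →+* FractionRing (T C)
  α_inj : Function.Injective α
  μ1_inj : Function.Injective μ1
  μ2_inj : Function.Injective μ2
  β_inj : Function.Injective β
  α_C : ∀ c, α (κA (RatFunc.C c)) = iT (T.cst c)
  α_X : α (κA RatFunc.X) = iT (T.mono e1 c1)
  μ1_C : ∀ c, μ1 (κM (RatFunc.C c)) = iT (T.cst c)
  μ1_X : μ1 (κM RatFunc.X) = iT (T.mono e1 c1)
  μ2_C : ∀ c, μ2 (κM (RatFunc.C c)) = iT (T.cst c)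
  μ2_X : μ2 (κM RatFunc.X) = iT (T.mono e2 c2)
  β_C : ∀ c, β (κB (RatFunc.C c)) = iT (T.cst c)
  β_X : β (κB RatFunc.X) = iT (T.mono e2 c2)
  inter : ∀ a m b, α a = μ1 m → μ2 m = β b → ∃ r, κM r = m
  factor : ∀ (n : Type) [Fintype n] [DecidableEq n] (A1 A2 : Matrix n n (T C)),
    IsUnit A1 → IsUnit A2 →
    ∃ (UA : Matrix n n QA) (UM : Matrix n n QM) (UB : Matrix n n QB),
      IsUnit UA ∧ IsUnit UM ∧ IsUnit UB ∧
      A1.map (iT.comp (T.pw e1 he1)) * UA.map α = UM.map μ1 ∧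
      A2.map (iT.comp (T.pw e2 he2)) * UB.map β = UM.map μ2
  fracA : ∀ q : QA, ∃ d : Polynomial C, d ≠ 0 ∧ ∃ r : T C, r ∈ T.Tp C ∧
    α q * iT (d.eval₂ T.cst (T.mono e1 c1)) = iT (T.pw e1 he1 r)
  fracM : ∀ q : QM, ∃ d : Polynomial C, d ≠ 0 ∧ ∃ r : T C,
    Tendsto (fun n : ℤ => (c2 / c1) ^ n * r.coeff n) cofinite (𝓝 0) ∧
    μ1 q * iT (d.eval₂ T.cst (T.mono e1 c1)) = iT (T.pw e1 he1 r)
  fracB : ∀ q : QB, ∃ d : Polynomial C, d ≠ 0 ∧ ∃ r : T C, r ∈ T.Tm C ∧
    β q * iT (d.eval₂ T.cst (T.mono (-(e2 : ℤ)) c2⁻¹)) = iT (T.pw e2 he2 r)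
  evA : ∀ u : PowerSeries C, ‖PowerSeries.constantCoeff u‖ ≤ ‖c1‖ →
    (∀ P : Polynomial C, P ≠ 0 → P.eval₂ HahnSeries.C (u : LaurentSeries C) ≠ 0) →
    ∃ ψ : QA →+* LaurentSeries C, (∀ c, ψ (κA (RatFunc.C c)) = HahnSeries.C c) ∧
      ψ (κA RatFunc.X) = (u : LaurentSeries C) ∧
      ∀ (ζ : C) (h : ζ ≠ 0), scL ζ h (u : LaurentSeries C) = u → ∀ q, scL ζ h (ψ q) = ψ q
  evM : ∀ u : PowerSeries C, ‖c1‖ ≤ ‖PowerSeries.constantCoeff u‖ →
    ‖PowerSeries.constantCoeff u‖ ≤ ‖c2‖ →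
    (∀ P : Polynomial C, P ≠ 0 → P.eval₂ HahnSeries.C (u : LaurentSeries C) ≠ 0) →
    ∃ ψ : QM →+* LaurentSeries C, (∀ c, ψ (κM (RatFunc.C c)) = HahnSeries.C c) ∧
      ψ (κM RatFunc.X) = (u : LaurentSeries C) ∧
      ∀ (ζ : C) (h : ζ ≠ 0), scL ζ h (u : LaurentSeries C) = u → ∀ q, scL ζ h (ψ q) = ψ q
  evB : ∀ u : PowerSeries C, ‖PowerSeries.constantCoeff u‖ ≤ ‖c2‖⁻¹ →
    (∀ P : Polynomial C, P ≠ 0 → P.eval₂ HahnSeries.C (u : LaurentSeries C) ≠ 0) →
    ∃ ψ : QB →+* LaurentSeries C, (∀ c, ψ (κB (RatFunc.C c)) = HahnSeries.C c) ∧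
      ψ (κB RatFunc.X) = (u : LaurentSeries C)⁻¹ ∧
      ∀ (ζ : C) (h : ζ ≠ 0), scL ζ h (u : LaurentSeries C) = u → ∀ q, scL ζ h (ψ q) = ψ q

attribute [instance] AnPkg.rA AnPkg.rM AnPkg.rB

end

end Pool.Agent.Adm

end

section

/-! Formal expansion of convergent series at a point. -/

namespace Pool.Agent.Adm

open Filter Topology

noncomputable section

namespace T

variable {C : Type} [NormedField C] [CompleteSpace C] [IsUltrametricDist C]

omit [CompleteSpace C] in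
theorem nonarch_T4 : NonarchimedeanRing C :=
  { (inferInstance : IsTopologicalRing C) with
    is_nonarchimedean := NonarchimedeanAddGroup.is_nonarchimedean }

omit [CompleteSpace C] in
/-- Uniform bound for a fixed coefficient of the powers of a series. -/
theorem bound_T4 (v : PowerSeries C) (hv : ‖PowerSeries.constantCoeff v‖ ≤ 1) (i : ℕ) :
    ∃ K : ℝ, 0 ≤ K ∧ ∀ n : ℕ, ‖PowerSeries.coeff i (v ^ n)‖ ≤ K := by
  set R : ℝ := 1 + ∑ j ∈ Finset.range (i + 1), ‖PowerSeries.coeff j v‖ with hR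
  have hs : 0 ≤ ∑ j ∈ Finset.range (i + 1), ‖PowerSeries.coeff j v‖ :=
    Finset.sum_nonneg fun _ _ => norm_nonneg _
  have hR1 : 1 ≤ R := by linarith
  have hR0 : 0 ≤ R := by linarith
  have hv' : ∀ j ≤ i, ‖PowerSeries.coeff j v‖ ≤ R ^ j := by
    intro j hj
    rcases Nat.eq_zero_or_pos j with rfl | h0
    · simpa using hv
    · have h1 : ‖PowerSeries.coeff j v‖ ≤ ∑ j ∈ Finset.range (i + 1), ‖PowerSeries.coeff j v‖ :=
        Finset.single_le_sum (f := fun j => ‖PowerSeries.coeff j v‖) (fun _ _ => norm_nonneg _)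
          (Finset.mem_range.2 (by omega))
      calc ‖PowerSeries.coeff j v‖ ≤ R := by linarith
        _ ≤ R ^ j := le_self_pow₀ hR1 h0.ne'
  have key : ∀ n : ℕ, ∀ j ≤ i, ‖PowerSeries.coeff j (v ^ n)‖ ≤ R ^ j := by
    intro n
    induction n with
    | zero =>
      intro j _
      rw [pow_zero, PowerSeries.coeff_one]
      split_ifs with h
      · subst h; simp
      · simpa using pow_nonneg hR0 j
    | succ n ih =>
      intro j hj
      rw [pow_succ, PowerSeries.coeff_mul]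
      refine IsUltrametricDist.norm_sum_le_of_forall_le_of_nonneg (pow_nonneg hR0 j) ?_
      intro p hp
      rw [Finset.HasAntidiagonal.mem_antidiagonal] at hp
      rw [norm_mul, ← hp, pow_add]
      exact mul_le_mul (ih _ (by omega)) (hv' _ (by omega)) (norm_nonneg _) (pow_nonneg hR0 _)
  exact ⟨R ^ i, pow_nonneg hR0 i, fun n => key n i le_rfl⟩

/-- General expansion along a multiplicative family. -/
theorem gen_T4 (S : Subring (T C)) (w : ℤ → PowerSeries C) (h0 : w 0 = 1)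
    (hw : ∀ f ∈ S, ∀ g ∈ S, ∀ m n : ℤ, f.coeff m ≠ 0 → g.coeff n ≠ 0 → w (m + n) = w m * w n)
    (hs : ∀ f ∈ S, ∀ i : ℕ,
      Tendsto (fun n : ℤ => f.coeff n * PowerSeries.coeff i (w n)) cofinite (𝓝 0)) :
    ∃ ev : S →+* PowerSeries C,
      (∀ (n : ℤ) (c : C) (h : mono n c ∈ S), ev ⟨mono n c, h⟩ = PowerSeries.C c * w n) ∧
      ∀ ζ : C, (∀ n, PowerSeries.rescale ζ (w n) = w n) →
        ∀ f, PowerSeries.rescale ζ (ev f) = ev f := by
  haveI : NonarchimedeanRing C := nonarch_T4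
  have hsum : ∀ f ∈ S, ∀ i : ℕ,
      Summable (fun n : ℤ => f.coeff n * PowerSeries.coeff i (w n)) := fun f hf i =>
    NonarchimedeanAddGroup.summable_of_tendsto_cofinite_zero (hs f hf i)
  let E : T C → PowerSeries C := fun f =>
    PowerSeries.mk fun i => ∑' n : ℤ, f.coeff n * PowerSeries.coeff i (w n)
  have hE : ∀ f i, PowerSeries.coeff i (E f) = ∑' n : ℤ, f.coeff n * PowerSeries.coeff i (w n) :=
    fun f i => PowerSeries.coeff_mk _ _
  have hmono : ∀ (n : ℤ) (c : C), E (mono n c) = PowerSeries.C c * w n := by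
    intro n c
    ext i
    rw [hE, PowerSeries.coeff_C_mul, tsum_eq_single n]
    · simp [coeff_mono]
    · intro m hm
      simp [coeff_mono, hm]
  have hmul : ∀ f ∈ S, ∀ g ∈ S, E (f * g) = E f * E g := by
    intro f hf g hg
    ext i
    rw [hE, PowerSeries.coeff_mul]
    have h1 : HasSum (fun p : ℤ × ℤ => ∑ q ∈ Finset.HasAntidiagonal.antidiagonal i,
        (f.coeff p.1 * PowerSeries.coeff q.1 (w p.1)) *
          (g.coeff p.2 * PowerSeries.coeff q.2 (w p.2)))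
        (∑ q ∈ Finset.HasAntidiagonal.antidiagonal i,
          PowerSeries.coeff q.1 (E f) * PowerSeries.coeff q.2 (E g)) := by
      refine hasSum_sum fun q _ => ?_
      rw [hE, hE]
      exact (hsum f hf q.1).hasSum.mul_of_nonarchimedean (hsum g hg q.2).hasSum
    have h2 : (fun p : ℤ × ℤ => ∑ q ∈ Finset.HasAntidiagonal.antidiagonal i,
        (f.coeff p.1 * PowerSeries.coeff q.1 (w p.1)) *
          (g.coeff p.2 * PowerSeries.coeff q.2 (w p.2))) =
        fun p : ℤ × ℤ => f.coeff p.1 * g.coeff p.2 * PowerSeries.coeff i (w (p.1 + p.2)) := by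
      funext p
      by_cases ha : f.coeff p.1 = 0
      · simp [ha]
      by_cases hb : g.coeff p.2 = 0
      · simp [hb]
      rw [hw f hf g hg _ _ ha hb, PowerSeries.coeff_mul, Finset.mul_sum]
      exact Finset.sum_congr rfl fun q _ => by ring
    rw [h2] at h1
    let e : ℤ × ℤ ≃ ℤ × ℤ :=
      { toFun := fun p => (p.2, p.1 - p.2)
        invFun := fun p => (p.1 + p.2, p.1)
        left_inv := fun p => by simp
        right_inv := fun p => by simp }
    have h3 := (e.hasSum_iff (f := fun p : ℤ × ℤ =>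
      f.coeff p.1 * g.coeff p.2 * PowerSeries.coeff i (w (p.1 + p.2)))).2 h1
    refine (h3.prod_fiberwise fun n => ?_).tsum_eq
    have h4 := (summable_conv f g n).hasSum.mul_right (PowerSeries.coeff i (w n))
    rw [coeff_mul]
    have h5 : (fun m : ℤ => ((fun p : ℤ × ℤ => f.coeff p.1 * g.coeff p.2 *
        PowerSeries.coeff i (w (p.1 + p.2))) ∘ e) (n, m)) =
        fun m => f.coeff m * g.coeff (n - m) * PowerSeries.coeff i (w n) := by
      funext m
      change f.coeff m * g.coeff (n - m) * PowerSeries.coeff i (w (m + (n - m))) = _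
      rw [add_sub_cancel]
    rw [h5]
    exact h4
  refine ⟨{ toFun := fun f => E f
            map_one' := ?_
            map_mul' := fun f g => hmul f f.2 g g.2
            map_zero' := ?_
            map_add' := ?_ }, fun n c h => hmono n c, ?_⟩
  · have := hmono 0 1
    rw [h0, map_one, mul_one] at this
    exact this
  · ext i
    rw [hE]
    simp
  · intro f g
    ext i
    rw [map_add, hE, hE, hE, ← (hsum f f.2 i).tsum_add (hsum g g.2 i)]
    refine tsum_congr fun n => ?_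
    rw [Subring.coe_add, coeff_add, add_mul]
  · intro ζ hζ f
    ext i
    change PowerSeries.coeff i (PowerSeries.rescale ζ (E f)) = PowerSeries.coeff i (E f)
    rw [PowerSeries.coeff_rescale, hE, ← tsum_mul_left]
    refine tsum_congr fun n => ?_
    have := congrArg (PowerSeries.coeff i) (hζ n)
    rw [PowerSeries.coeff_rescale] at this
    rw [mul_left_comm, this]

/-- Expansion of a power series converging on the closed unit disc along V ↦ u. -/
theorem exists_evp (u : PowerSeries C) (hu : ‖PowerSeries.constantCoeff u‖ ≤ 1) :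
    ∃ ev : Tp C →+* PowerSeries C,
      (∀ (n : ℕ) (c : C) (h : mono n c ∈ Tp C), ev ⟨mono n c, h⟩ = PowerSeries.C c * u ^ n) ∧
      ∀ ζ : C, PowerSeries.rescale ζ u = u → ∀ f, PowerSeries.rescale ζ (ev f) = ev f := by
  obtain ⟨ev, h1, h2⟩ := gen_T4 (Tp C) (fun n => u ^ n.toNat) (by simp) (by
      intro f hf g hg m n hm hn
      have hm' : 0 ≤ m := not_lt.1 fun h => hm ((mem_Tp f).1 hf m h)
      have hn' : 0 ≤ n := not_lt.1 fun h => hn ((mem_Tp g).1 hg n h)
      rw [Int.toNat_add hm' hn', pow_add]) (by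
      intro f _ i
      obtain ⟨K, -, hK⟩ := bound_T4 u hu i
      refine squeeze_zero_norm (a := fun n => ‖f.coeff n‖ * K) (fun n => ?_) ?_
      · rw [norm_mul]
        exact mul_le_mul_of_nonneg_left (hK _) (norm_nonneg _)
      · simpa using (tendsto_coeff f).norm.mul_const K)
  refine ⟨ev, fun n c h => ?_, fun ζ hζ => h2 ζ fun n => ?_⟩
  · simpa using h1 n c h
  · rw [map_pow, hζ]

/-- Expansion of a series converging on the closed annulus along V ↦ u. -/
theorem exists_eva (l : C) (hl : l ≠ 0) (u : PowerSeries C)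
    (h1 : 1 ≤ ‖PowerSeries.constantCoeff u‖) (h2 : ‖PowerSeries.constantCoeff u‖ ≤ ‖l‖) :
    ∃ ev : Tan l hl →+* PowerSeries C,
      (∀ (n : ℕ) (c : C) (h : mono n c ∈ Tan l hl), ev ⟨mono n c, h⟩ = PowerSeries.C c * u ^ n) ∧
      ∀ ζ : C, PowerSeries.rescale ζ u = u → ∀ f, PowerSeries.rescale ζ (ev f) = ev f := by
  have hu0 : PowerSeries.constantCoeff u ≠ 0 := by
    intro h
    rw [h, norm_zero] at h1
    exact absurd h1 (by norm_num)
  let U : (PowerSeries C)ˣ :=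
    ⟨u, u⁻¹, PowerSeries.mul_inv_cancel u hu0, PowerSeries.inv_mul_cancel u hu0⟩
  have hUp : ∀ n : ℕ, ((U ^ (n : ℤ) : (PowerSeries C)ˣ) : PowerSeries C) = u ^ n := by
    intro n
    rw [zpow_natCast, Units.val_pow_eq_pow_val]
  have hUm : ∀ n : ℕ, ((U ^ (-(n : ℤ)) : (PowerSeries C)ˣ) : PowerSeries C) = u⁻¹ ^ n := by
    intro n
    rw [zpow_neg, ← inv_zpow, zpow_natCast, Units.val_pow_eq_pow_val]
    rfl
  have hl0 : 0 < ‖l‖ := norm_pos_iff.2 hl
  obtain ⟨ev, h3, h4⟩ := gen_T4 (Tan l hl)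
    (fun n => ((U ^ n : (PowerSeries C)ˣ) : PowerSeries C)) (by simp) (by
      intro f _ g _ m n _ _
      rw [zpow_add, Units.val_mul]) (by
      intro f hf i
      obtain ⟨K, hK0, hK⟩ := bound_T4 (PowerSeries.C l⁻¹ * u) (by
        rw [map_mul, PowerSeries.constantCoeff_C, norm_mul, norm_inv]
        exact (inv_mul_le_one₀ hl0).2 h2) i
      obtain ⟨K', hK0', hK'⟩ := bound_T4 u⁻¹ (by
        rw [PowerSeries.constantCoeff_inv, norm_inv]
        exact inv_le_one_of_one_le₀ h1) i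
      refine squeeze_zero_norm
        (a := fun n => ‖l ^ n * f.coeff n‖ * K + ‖f.coeff n‖ * K') (fun n => ?_) ?_
      · obtain ⟨m, rfl | rfl⟩ := Int.eq_nat_or_neg n
        · have h5 : f.coeff m * PowerSeries.coeff i (u ^ m) =
              (l ^ (m : ℤ) * f.coeff m) * PowerSeries.coeff i ((PowerSeries.C l⁻¹ * u) ^ m) := by
            rw [mul_pow, ← map_pow, PowerSeries.coeff_C_mul, zpow_natCast, inv_pow]
            have : l ^ m ≠ 0 := pow_ne_zero _ hl
            field_simp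
          rw [hUp, h5, norm_mul]
          have h6 := mul_le_mul_of_nonneg_left (hK m) (norm_nonneg (l ^ (m : ℤ) * f.coeff m))
          have h7 := mul_nonneg (norm_nonneg (f.coeff m)) hK0'
          linarith
        · rw [hUm, norm_mul]
          have h6 := mul_le_mul_of_nonneg_left (hK' m) (norm_nonneg (f.coeff (-m)))
          have h7 := mul_nonneg (norm_nonneg (l ^ (-(m : ℤ)) * f.coeff (-m))) hK0
          linarith
      · simpa using (((mem_Tan l hl f).1 hf).norm.mul_const K).add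
          ((tendsto_coeff f).norm.mul_const K'))
  refine ⟨ev, fun n c h => ?_, fun ζ hζ => h4 ζ fun n => ?_⟩
  · rw [h3 n c h, hUp]
  · have h5 : Units.map (PowerSeries.rescale ζ : PowerSeries C →+* PowerSeries C).toMonoidHom U
        = U := Units.ext hζ
    have h6 := congrArg (fun x : (PowerSeries C)ˣ => ((x ^ n : (PowerSeries C)ˣ) : PowerSeries C))
      h5
    simp only [← map_zpow] at h6
    exact h6

/-- Expansion of a power series in V⁻¹ along V⁻¹ ↦ u. -/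
theorem exists_evm (u : PowerSeries C) (hu : ‖PowerSeries.constantCoeff u‖ ≤ 1) :
    ∃ ev : Tm C →+* PowerSeries C,
      (∀ (n : ℕ) (c : C) (h : mono (-n) c ∈ Tm C), ev ⟨mono (-n) c, h⟩ = PowerSeries.C c * u ^ n) ∧
      ∀ ζ : C, PowerSeries.rescale ζ u = u → ∀ f, PowerSeries.rescale ζ (ev f) = ev f := by
  obtain ⟨ev, h1, h2⟩ := gen_T4 (Tm C) (fun n => u ^ (-n).toNat) (by simp) (by
      intro f hf g hg m n hm hn
      have hm' : 0 ≤ -m := by
        have := not_lt.1 fun h => hm ((mem_Tm f).1 hf m h)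
        omega
      have hn' : 0 ≤ -n := by
        have := not_lt.1 fun h => hn ((mem_Tm g).1 hg n h)
        omega
      rw [neg_add, Int.toNat_add hm' hn', pow_add]) (by
      intro f _ i
      obtain ⟨K, -, hK⟩ := bound_T4 u hu i
      refine squeeze_zero_norm (a := fun n => ‖f.coeff n‖ * K) (fun n => ?_) ?_
      · rw [norm_mul]
        exact mul_le_mul_of_nonneg_left (hK _) (norm_nonneg _)
      · simpa using (tendsto_coeff f).norm.mul_const K)
  refine ⟨ev, fun n c h => ?_, fun ζ hζ => h2 ζ fun n => ?_⟩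
  · simpa using h1 (-n) c h
  · rw [map_pow, hζ]

end T

end

end Pool.Agent.Adm

end

section

/-! Meromorphic functions on the inner disc and on the annulus. -/

namespace Pool.Agent.Adm

variable {C : Type} [NormedField C] [CompleteSpace C] [IsUltrametricDist C]

theorem core_AnA (S : Subring (T C)) (hm : ∀ (n : ℤ) (x : C), 0 ≤ n → T.mono n x ∈ S) (c : C) :
    ∃ (Q : Type) (_ : CommRing Q) (a : S →+* Q) (κ : RatFunc C →+* Q),
      (∀ q : Q, ∃ d : Polynomial C, d ≠ 0 ∧ ∃ r,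
        q * κ (algebraMap (Polynomial C) (RatFunc C) d) = a r) ∧
      ∀ (W : Type) [Field W] (ψ0 : S →+* W) (φ : C →+* W) (X : W),
        (∀ x, ψ0 ⟨T.mono 0 x, hm 0 x le_rfl⟩ = φ x) → ψ0 ⟨T.mono 1 c, hm 1 c zero_le_one⟩ = X →
        (∀ P : Polynomial C, P ≠ 0 → P.eval₂ φ X ≠ 0) →
        ∃ ψ : Q →+* W, (∀ r, ψ (a r) = ψ0 r) ∧ (Function.Injective ψ0 → Function.Injective ψ) ∧
          (∀ x, ψ (κ (RatFunc.C x)) = φ x) ∧ ψ (κ RatFunc.X) = X ∧
          ∀ s : W →+* W, (∀ r, s (ψ0 r) = ψ0 r) → ∀ q, s (ψ q) = ψ q := by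
  let ι : C →+* S := (T.cst : C →+* T C).codRestrict S fun x => hm 0 x le_rfl
  let π : Polynomial C →+* S := Polynomial.eval₂RingHom ι ⟨T.mono 1 c, hm 1 c zero_le_one⟩
  obtain ⟨Q, hQ, a, κ, h1, h2, h3⟩ := exists_loc π
  refine ⟨Q, hQ, a, κ, fun q => ?_, fun W _ ψ0 φ X e0 e1 hne => ?_⟩
  · obtain ⟨d, hd, r, hr⟩ := h2 q
    exact ⟨d, hd, r, by rw [h1, hr]⟩
  · have hc : ψ0.comp ι = φ := RingHom.ext e0
    have hπ : ∀ d, ψ0 (π d) = d.eval₂ φ X := fun d => by
      rw [← hc, ← e1, ← Polynomial.hom_eval₂]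
      rfl
    obtain ⟨ψ, p1, p2, p3⟩ := h3 W ψ0 fun d hd => by rw [hπ]; exact hne d hd
    refine ⟨ψ, p1, p2, fun x => ?_, ?_, p3⟩
    · rw [← RatFunc.algebraMap_C, h1, p1, hπ, Polynomial.eval₂_C]
    · rw [← RatFunc.algebraMap_X, h1, p1, hπ, Polynomial.eval₂_X]

theorem ne_AnA (e : ℕ) (he : 0 < e) (c : C) (hc : c ≠ 0) (P : Polynomial C) (hP : P ≠ 0) :
    P.eval₂ (iT.comp T.cst) (iT (T.mono e c)) ≠ (0 : FractionRing (T C)) := by
  rw [← Polynomial.hom_eval₂]
  exact fun h => T.eval₂_ne_zero P hP e (by exact_mod_cast he.ne') c hc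
    (IsFractionRing.injective (T C) (FractionRing (T C)) (h.trans (map_zero _).symm))

theorem chart_AnA (S : Subring (T C)) (hm : ∀ (n : ℤ) (x : C), 0 ≤ n → T.mono n x ∈ S) (c : C)
    (hc : c ≠ 0) (u : PowerSeries C) (ev : S →+* PowerSeries C)
    (h1 : ∀ (n : ℕ) (x : C) (h : T.mono n x ∈ S),
      ev ⟨T.mono n x, h⟩ = PowerSeries.C x * (PowerSeries.C c⁻¹ * u) ^ n)
    (h2 : ∀ ζ : C, PowerSeries.rescale ζ (PowerSeries.C c⁻¹ * u) = PowerSeries.C c⁻¹ * u →
      ∀ f, PowerSeries.rescale ζ (ev f) = ev f) :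
    ∃ ψ0 : S →+* LaurentSeries C, (∀ x, ψ0 ⟨T.mono 0 x, hm 0 x le_rfl⟩ = HahnSeries.C x) ∧
      ψ0 ⟨T.mono 1 c, hm 1 c zero_le_one⟩ = (u : LaurentSeries C) ∧
      ∀ (ζ : C) (h : ζ ≠ 0), scL ζ h (u : LaurentSeries C) = u → ∀ r, scL ζ h (ψ0 r) = ψ0 r := by
  refine ⟨(HahnSeries.ofPowerSeries ℤ C).comp ev, fun x => ?_, ?_, fun ζ h hu r => ?_⟩
  · have := h1 0 x (hm 0 x le_rfl)
    rw [pow_zero, mul_one] at this
    exact (congrArg (HahnSeries.ofPowerSeries ℤ C) this).trans (HahnSeries.ofPowerSeries_C x)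
  · have := h1 1 c (hm 1 c zero_le_one)
    rw [pow_one, ← mul_assoc, ← map_mul, mul_inv_cancel₀ hc, map_one, one_mul] at this
    exact congrArg (HahnSeries.ofPowerSeries ℤ C) this
  · rw [scL_coe] at hu
    have hu' : PowerSeries.rescale ζ u = u := HahnSeries.ofPowerSeries_injective hu
    have h3 : PowerSeries.rescale ζ (PowerSeries.C c⁻¹) = PowerSeries.C c⁻¹ := by
      ext n
      rw [PowerSeries.coeff_rescale, PowerSeries.coeff_C]
      split_ifs with hn
      · rw [hn, pow_zero, one_mul]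
      · rw [mul_zero]
    have h4 := h2 ζ (by rw [map_mul, hu', h3]) r
    exact (scL_coe ζ h (ev r)).trans (congrArg (HahnSeries.ofPowerSeries ℤ C) h4)

theorem cc_AnA {C : Type} [NormedField C] (c : C) (u : PowerSeries C) :
    ‖PowerSeries.constantCoeff (PowerSeries.C c⁻¹ * u)‖ =
      ‖c‖⁻¹ * ‖PowerSeries.constantCoeff u‖ := by
  rw [map_mul, PowerSeries.constantCoeff_C, norm_mul, norm_inv]

theorem exists_QA (c : C) (hc : c ≠ 0) (e : ℕ) (he : 0 < e) :
    ∃ (Q : Type) (_ : CommRing Q) (a : T.Tp C →+* Q) (κ : RatFunc C →+* Q)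
      (α : Q →+* FractionRing (T C)), Function.Injective α ∧
      (∀ r, α (a r) = iT (T.pw e he r)) ∧
      (∀ x, α (κ (RatFunc.C x)) = iT (T.cst x)) ∧ α (κ RatFunc.X) = iT (T.mono e c) ∧
      (∀ q : Q, ∃ d : Polynomial C, d ≠ 0 ∧ ∃ r,
        q * κ (algebraMap (Polynomial C) (RatFunc C) d) = a r) ∧
      ∀ u : PowerSeries C, ‖PowerSeries.constantCoeff u‖ ≤ ‖c‖ →
        (∀ P : Polynomial C, P ≠ 0 → P.eval₂ HahnSeries.C (u : LaurentSeries C) ≠ 0) →
        ∃ ψ : Q →+* LaurentSeries C, (∀ x, ψ (κ (RatFunc.C x)) = HahnSeries.C x) ∧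
          ψ (κ RatFunc.X) = (u : LaurentSeries C) ∧
          ∀ (ζ : C) (h : ζ ≠ 0), scL ζ h (u : LaurentSeries C) = u → ∀ q, scL ζ h (ψ q) = ψ q := by
  obtain ⟨Q, hQ, a, κ, h1, h2⟩ := core_AnA (T.Tp C) (fun n x hn => T.mono_mem_Tp n hn x) c
  obtain ⟨α, a1, a2, a3, a4, -⟩ := h2 (FractionRing (T C))
    (iT.comp ((T.pw e he).comp (T.Tp C).subtype)) (iT.comp T.cst) (iT (T.mono e c))
    (fun x => congrArg iT (by
      change T.pw e he (T.mono 0 x) = T.mono 0 x
      rw [T.pw_mono, mul_zero]))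
    (congrArg iT (by
      change T.pw e he (T.mono 1 c) = T.mono e c
      rw [T.pw_mono, mul_one])) (ne_AnA e he c hc)
  refine ⟨Q, hQ, a, κ, α, a2 ((IsFractionRing.injective (T C) (FractionRing (T C))).comp
    ((T.pw_injective e he).comp Subtype.val_injective)), a1, a3, a4, h1, fun u hu hP => ?_⟩
  have hn : 0 < ‖c‖ := norm_pos_iff.2 hc
  obtain ⟨ev, e1, e2⟩ := T.exists_evp (PowerSeries.C c⁻¹ * u) (by
    rw [cc_AnA, inv_mul_le_iff₀ hn, mul_one]; exact hu)
  obtain ⟨ψ0, b1, b2, b3⟩ := chart_AnA (T.Tp C) (fun n x hn => T.mono_mem_Tp n hn x) c hc u ev e1 e2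
  obtain ⟨ψ, -, -, p3, p4, p5⟩ := h2 (LaurentSeries C) ψ0 HahnSeries.C u b1 b2 hP
  exact ⟨ψ, p3, p4, fun ζ h hζ => p5 (scL ζ h) (b3 ζ h hζ)⟩

theorem exists_QM (c l : C) (hc : c ≠ 0) (hl : l ≠ 0) (e1 e2 : ℕ) (he1 : 0 < e1) (he2 : 0 < e2) :
    ∃ (Q : Type) (_ : CommRing Q) (a : T.Tan l hl →+* Q) (κ : RatFunc C →+* Q)
      (μ1 μ2 : Q →+* FractionRing (T C)), Function.Injective μ1 ∧ Function.Injective μ2 ∧
      (∀ r, μ1 (a r) = iT (T.pw e1 he1 r)) ∧ (∀ r, μ2 (a r) = iT (T.pw e2 he2 (T.res l hl r))) ∧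
      (∀ x, μ1 (κ (RatFunc.C x)) = iT (T.cst x)) ∧ μ1 (κ RatFunc.X) = iT (T.mono e1 c) ∧
      (∀ x, μ2 (κ (RatFunc.C x)) = iT (T.cst x)) ∧ μ2 (κ RatFunc.X) = iT (T.mono e2 (l * c)) ∧
      (∀ q : Q, ∃ d : Polynomial C, d ≠ 0 ∧ ∃ r,
        q * κ (algebraMap (Polynomial C) (RatFunc C) d) = a r) ∧
      ∀ u : PowerSeries C, ‖c‖ ≤ ‖PowerSeries.constantCoeff u‖ →
        ‖PowerSeries.constantCoeff u‖ ≤ ‖l * c‖ →
        (∀ P : Polynomial C, P ≠ 0 → P.eval₂ HahnSeries.C (u : LaurentSeries C) ≠ 0) →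
        ∃ ψ : Q →+* LaurentSeries C, (∀ x, ψ (κ (RatFunc.C x)) = HahnSeries.C x) ∧
          ψ (κ RatFunc.X) = (u : LaurentSeries C) ∧
          ∀ (ζ : C) (h : ζ ≠ 0), scL ζ h (u : LaurentSeries C) = u → ∀ q, scL ζ h (ψ q) = ψ q := by
  obtain ⟨Q, hQ, a, κ, h1, h2⟩ := core_AnA (T.Tan l hl) (fun n x _ => T.mono_mem_Tan l hl n x) c
  obtain ⟨μ1, a1, a2, a3, a4, -⟩ := h2 (FractionRing (T C))
    (iT.comp ((T.pw e1 he1).comp (T.Tan l hl).subtype)) (iT.comp T.cst) (iT (T.mono e1 c))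
    (fun x => congrArg iT (by
      change T.pw e1 he1 (T.mono 0 x) = T.mono 0 x
      rw [T.pw_mono, mul_zero]))
    (congrArg iT (by
      change T.pw e1 he1 (T.mono 1 c) = T.mono e1 c
      rw [T.pw_mono, mul_one])) (ne_AnA e1 he1 c hc)
  obtain ⟨μ2, c1, c2, c3, c4, -⟩ := h2 (FractionRing (T C))
    (iT.comp ((T.pw e2 he2).comp (T.res l hl))) (iT.comp T.cst) (iT (T.mono e2 (l * c)))
    (fun x => congrArg iT (by
      change T.pw e2 he2 (T.res l hl ⟨T.mono 0 x, T.mono_mem_Tan l hl 0 x⟩) = T.mono 0 x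
      rw [T.res_mono, T.pw_mono, mul_zero, zpow_zero, one_mul]))
    (congrArg iT (by
      change T.pw e2 he2 (T.res l hl ⟨T.mono 1 c, T.mono_mem_Tan l hl 1 c⟩) = T.mono e2 (l * c)
      rw [T.res_mono, T.pw_mono, mul_one, zpow_one])) (ne_AnA e2 he2 (l * c) (mul_ne_zero hl hc))
  refine ⟨Q, hQ, a, κ, μ1, μ2, a2 ((IsFractionRing.injective (T C) (FractionRing (T C))).comp
    ((T.pw_injective e1 he1).comp Subtype.val_injective)),
    c2 ((IsFractionRing.injective (T C) (FractionRing (T C))).comp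
    ((T.pw_injective e2 he2).comp (T.res_injective l hl))), a1, c1, a3, a4, c3, c4, h1,
    fun u hu hu' hP => ?_⟩
  have hn : 0 < ‖c‖ := norm_pos_iff.2 hc
  obtain ⟨ev, e1, e2⟩ := T.exists_eva l hl (PowerSeries.C c⁻¹ * u)
    (by rw [cc_AnA, le_inv_mul_iff₀ hn, mul_one]; exact hu)
    (by rw [cc_AnA, inv_mul_le_iff₀ hn, mul_comm, ← norm_mul]; exact hu')
  obtain ⟨ψ0, b1, b2, b3⟩ :=
    chart_AnA (T.Tan l hl) (fun n x _ => T.mono_mem_Tan l hl n x) c hc u ev e1 e2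
  obtain ⟨ψ, -, -, p3, p4, p5⟩ := h2 (LaurentSeries C) ψ0 HahnSeries.C u b1 b2 hP
  exact ⟨ψ, p3, p4, fun ζ h hζ => p5 (scL ζ h) (b3 ζ h hζ)⟩

end Pool.Agent.Adm

end

section

/-! Meromorphic functions on the outer disc. -/

namespace Pool.Agent.Adm

theorem exists_inv_AnB (k : Type) [Field k] : ∃ f : RatFunc k →+* RatFunc k,
    (∀ c, f (RatFunc.C c) = RatFunc.C c) ∧ f RatFunc.X = RatFunc.X⁻¹ := by
  refine exists_ratFunc_hom RatFunc.C _ fun P hP h => ?_
  have h1 : IsAlgebraic k (RatFunc.X⁻¹ : RatFunc k) :=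
    ⟨P, hP, by rwa [Polynomial.aeval_def, RatFunc.algebraMap_eq_C]⟩
  exact RatFunc.transcendental_X (IsAlgebraic.inv_iff.1 h1)

variable {C : Type} [NormedField C] [CompleteSpace C] [IsUltrametricDist C]

theorem exists_QB (c : C) (hc : c ≠ 0) (e : ℕ) (he : 0 < e) :
    ∃ (Q : Type) (_ : CommRing Q) (a : T.Tm C →+* Q) (κ : RatFunc C →+* Q)
      (β : Q →+* FractionRing (T C)), Function.Injective β ∧
      (∀ r, β (a r) = iT (T.pw e he r)) ∧
      (∀ x, β (κ (RatFunc.C x)) = iT (T.cst x)) ∧ β (κ RatFunc.X) = iT (T.mono e c) ∧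
      (∀ q : Q, ∃ d : Polynomial C, d ≠ 0 ∧ ∃ r,
        q * κ (d.eval₂ RatFunc.C RatFunc.X⁻¹) = a r) ∧
      ∀ u : PowerSeries C, ‖PowerSeries.constantCoeff u‖ ≤ ‖c‖⁻¹ →
        (∀ P : Polynomial C, P ≠ 0 → P.eval₂ HahnSeries.C (u : LaurentSeries C) ≠ 0) →
        ∃ ψ : Q →+* LaurentSeries C, (∀ x, ψ (κ (RatFunc.C x)) = HahnSeries.C x) ∧
          ψ (κ RatFunc.X) = (u : LaurentSeries C)⁻¹ ∧
          ∀ (ζ : C) (h : ζ ≠ 0), scL ζ h (u : LaurentSeries C) = u → ∀ q, scL ζ h (ψ q) = ψ q := by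
  let cs : C →+* T.Tm C := T.cst.codRestrict (T.Tm C) fun x => T.mono_mem_Tm 0 le_rfl x
  let w : T.Tm C := ⟨T.mono (-1) c⁻¹, T.mono_mem_Tm _ (by norm_num) _⟩
  obtain ⟨Q, _, a, κ, h1, h2, h3⟩ := exists_loc (Polynomial.eval₂RingHom cs w)
  obtain ⟨f, fC, fX⟩ := exists_inv_AnB C
  have kC : ∀ x, κ (RatFunc.C x) = a (cs x) := fun x => by simpa using h1 (Polynomial.C x)
  have kX : κ RatFunc.X = a w := by simpa using h1 Polynomial.X
  have key : ∀ (W : Type) [Field W] (ψ : Q →+* W), ψ (κ (f RatFunc.X)) = (ψ (a w))⁻¹ :=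
    fun W _ ψ => by
      rw [fX, ← kX]
      exact map_inv₀ (ψ.comp κ) _
  have he0 : (e : ℤ) ≠ 0 := by exact_mod_cast he.ne'
  let β0 : T.Tm C →+* FractionRing (T C) := iT.comp ((T.pw e he).comp (T.Tm C).subtype)
  have iinj : Function.Injective (iT : T C →+* FractionRing (T C)) :=
    IsFractionRing.injective _ _
  have pC : ((T.pw e he).comp (T.Tm C).subtype).comp cs = T.cst := by
    refine RingHom.ext fun x => ?_
    show T.pw e he (T.mono 0 x) = T.mono 0 x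
    rw [T.pw_mono, mul_zero]
  have pw : (T.pw e he).comp (T.Tm C).subtype w = T.mono (e * -1) c⁻¹ := T.pw_mono e he _ _
  obtain ⟨β, b1, b2, -⟩ := h3 _ β0 fun d hd => by
    show iT ((T.pw e he).comp (T.Tm C).subtype (d.eval₂ cs w)) ≠ 0
    rw [Polynomial.hom_eval₂, pC, pw, map_ne_zero_iff _ iinj]
    exact T.eval₂_ne_zero d hd _ (by simpa using he.ne') _ (inv_ne_zero hc)
  refine ⟨Q, inferInstance, a, κ.comp f, β,
    b2 (iinj.comp ((T.pw_injective e he).comp Subtype.val_injective)), b1, fun x => ?_, ?_,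
    fun q => ?_, fun u hu hP => ?_⟩
  · rw [RingHom.comp_apply, fC, kC, b1]
    exact congrArg iT (RingHom.congr_fun pC x)
  · rw [RingHom.comp_apply, key, b1]
    refine inv_eq_of_mul_eq_one_right ?_
    show iT ((T.pw e he).comp (T.Tm C).subtype w) * _ = 1
    rw [pw, ← map_mul, T.mono_mul_mono, inv_mul_cancel₀ hc, mul_neg_one, neg_add_cancel]
    exact map_one iT
  · obtain ⟨d, hd, r, hr⟩ := h2 q
    refine ⟨d, hd, r, ?_⟩
    have e1 : f.comp RatFunc.C = RatFunc.C := RingHom.ext fC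
    rw [RingHom.comp_apply, Polynomial.hom_eval₂, e1, map_inv₀, fX, inv_inv,
      ← hom_algebraMap (RingHom.id _) RatFunc.C RatFunc.X (fun _ => rfl) rfl, RingHom.id_apply, h1,
      hr]
  · obtain ⟨ev, v1, v2⟩ := T.exists_evm (PowerSeries.C c * u) (by
      rw [map_mul, PowerSeries.constantCoeff_C, norm_mul]
      exact (mul_le_mul_of_nonneg_left hu (norm_nonneg c)).trans_eq
        (mul_inv_cancel₀ (norm_ne_zero_iff.2 hc)))
    let ψ0 : T.Tm C →+* LaurentSeries C := (HahnSeries.ofPowerSeries ℤ C).comp ev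
    have qC : ψ0.comp cs = HahnSeries.C := by
      refine RingHom.ext fun x => ?_
      have : ev (cs x) = _ := v1 0 x (T.mono_mem_Tm 0 le_rfl x)
      show HahnSeries.ofPowerSeries ℤ C (ev (cs x)) = _
      rw [this, pow_zero, mul_one, HahnSeries.ofPowerSeries_C]
    have qw : ψ0 w = (u : LaurentSeries C) := by
      have : ev w = _ := v1 1 c⁻¹ w.2
      show HahnSeries.ofPowerSeries ℤ C (ev w) = _
      rw [this, pow_one, ← mul_assoc, ← map_mul, inv_mul_cancel₀ hc, map_one, one_mul]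
    obtain ⟨ψ, p1, -, p3⟩ := h3 _ ψ0 fun d hd => by
      show ψ0 (d.eval₂ cs w) ≠ 0
      rw [Polynomial.hom_eval₂, qC, qw]
      exact hP d hd
    refine ⟨ψ, fun x => ?_, ?_, fun ζ h hζ => p3 _ fun r => ?_⟩
    · rw [RingHom.comp_apply, fC, kC, p1]
      exact RingHom.congr_fun qC x
    · rw [RingHom.comp_apply, key, p1, qw]
    · rw [scL_coe] at hζ
      have e1 : PowerSeries.rescale ζ u = u := HahnSeries.ofPowerSeries_injective hζ
      have e2 : PowerSeries.rescale ζ (PowerSeries.C c * u) = PowerSeries.C c * u := by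
        rw [← PowerSeries.smul_eq_C_mul]
        ext n
        have := congrArg (PowerSeries.coeff n) e1
        rw [PowerSeries.coeff_rescale] at this
        rw [PowerSeries.coeff_rescale, PowerSeries.coeff_smul, smul_eq_mul, mul_left_comm, this]
      exact (scL_coe ζ h (ev r)).trans (congrArg _ (v2 ζ e2 r))

end Pool.Agent.Adm

end

section

/-! Cartan factorisation of matrices close to the identity. -/

namespace Pool.Agent.Adm

section AuxT5

attribute [local instance] Matrix.linftyOpNormedRing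

open scoped NNReal

variable {n : Type} [Fintype n] [DecidableEq n]

theorem norm_mono_T5 {R S : Type} [NormedRing R] [NormedRing S] (a : Matrix n n R)
    (b : Matrix n n S) (h : ∀ i j, ‖a i j‖ ≤ ‖b i j‖) : ‖a‖ ≤ ‖b‖ := by
  rw [Matrix.linfty_opNorm_def, Matrix.linfty_opNorm_def, NNReal.coe_le_coe]
  exact Finset.sup_mono_fun fun i _ => Finset.sum_le_sum fun j _ => h i j

theorem norm_le_T5 {R : Type} [NormedRing R] (a : Matrix n n R) (δ : ℝ≥0)
    (h : ∀ i j, ‖a i j‖ ≤ δ) : ‖a‖ ≤ Fintype.card n * δ := by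
  rw [Matrix.linfty_opNorm_def]
  have : ((Finset.univ : Finset n).sup fun i => ∑ j : n, ‖a i j‖₊) ≤ Fintype.card n * δ := by
    refine Finset.sup_le fun i _ => ?_
    calc ∑ j : n, ‖a i j‖₊ ≤ ∑ _j : n, δ := Finset.sum_le_sum fun j _ => h i j
      _ = Fintype.card n * δ := by simp
  exact_mod_cast this

theorem complete_T5 (R : Type) [NormedRing R] [CompleteSpace R] :
    @CompleteSpace (Matrix n n R)
      (Matrix.linftyOpNormedRing (n := n) (α := R)).toPseudoMetricSpace.toUniformSpace :=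
  (inferInstance : CompleteSpace (n → n → R))

theorem unit_T5 {R : Type} [NormedCommRing R] [CompleteSpace R] (S : Subring R)
    (hS : IsClosed (S : Set R)) (a : Matrix n n R) (ha : ∀ i j, a i j ∈ S) (h : ‖a‖ < 1) :
    ∃ b : Matrix n n S, IsUnit b ∧ b.map S.subtype = 1 + a := by
  have : CompleteSpace S := hS.completeSpace_coe
  have := complete_T5 (n := n) S
  let c : Matrix n n S := Matrix.of fun i j => -⟨a i j, ha i j⟩
  have hc : ‖c‖ < 1 := lt_of_le_of_lt (norm_mono_T5 c a fun i j => by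
    change ‖-(⟨a i j, ha i j⟩ : S)‖ ≤ _
    rw [norm_neg]
    exact le_rfl) h
  refine ⟨1 - c, isUnit_one_sub_of_norm_lt_one hc, ?_⟩
  ext i j
  by_cases hij : i = j <;> simp [c, hij]

theorem fix_T5 {R : Type} [NormedCommRing R] [CompleteSpace R] (π : R →+ R)
    (hn1 : ∀ x, ‖π x‖ ≤ ‖x‖) (x : Matrix n n R) (hx : ‖x‖ ≤ 1 / 4) :
    ∃ a : Matrix n n R, a = -(x + a * x).map π ∧ ‖x + a * x‖ ≤ 1 / 2 := by
  have := complete_T5 (n := n) R
  have hm : ∀ z : Matrix n n R, ‖z.map π‖ ≤ ‖z‖ := fun z =>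
    norm_mono_T5 _ _ fun i j => hn1 _
  have hc : ContractingWith (1 / 4 : ℝ≥0) fun a : Matrix n n R => -(x + a * x).map π := by
    refine ⟨by norm_num, LipschitzWith.of_dist_le_mul fun a b => ?_⟩
    rw [dist_eq_norm, dist_eq_norm]
    have : -(x + a * x).map π - -(x + b * x).map π = -((a - b) * x).map π := by
      ext i j
      simp [Matrix.sub_mul]
      ring
    rw [this, norm_neg]
    calc ‖((a - b) * x).map π‖ ≤ ‖(a - b) * x‖ := hm _
      _ ≤ ‖a - b‖ * ‖x‖ := norm_mul_le _ _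
      _ ≤ ‖a - b‖ * (1 / 4) := mul_le_mul_of_nonneg_left hx (norm_nonneg _)
      _ = _ := by push_cast; ring
  refine ⟨hc.fixedPoint, hc.fixedPoint_isFixedPt.symm, ?_⟩
  set a := hc.fixedPoint
  have ha : a = -(x + a * x).map π := hc.fixedPoint_isFixedPt.symm
  have h1 : ‖a‖ ≤ ‖x + a * x‖ := by
    conv_lhs => rw [ha, norm_neg]
    exact hm _
  have h2 : ‖x + a * x‖ ≤ 1 / 4 + ‖a‖ * (1 / 4) :=
    (norm_add_le _ _).trans (add_le_add hx ((norm_mul_le _ _).trans
      (mul_le_mul_of_nonneg_left hx (norm_nonneg _))))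
  linarith

theorem cartan_T5 {R : Type} [NormedCommRing R] [CompleteSpace R] (S1 S2 : Subring R)
    (h1 : IsClosed (S1 : Set R)) (h2 : IsClosed (S2 : Set R)) (π : R →+ R)
    (hπ1 : ∀ x, π x ∈ S1) (hπ2 : ∀ x, x - π x ∈ S2) (hn1 : ∀ x, ‖π x‖ ≤ ‖x‖)
    (hn2 : ∀ x, ‖x - π x‖ ≤ ‖x‖) (y : Matrix n n R) (δ : ℝ≥0)
    (hδ : (Fintype.card n : ℝ) * δ ≤ 1 / 4) (hy : ∀ i j, ‖(y - 1) i j‖ ≤ δ) :
    ∃ (b1 : Matrix n n S1) (b2 : Matrix n n S2), IsUnit b1 ∧ IsUnit b2 ∧
      y = b1.map S1.subtype * b2.map S2.subtype := by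
  obtain ⟨a, ha, hz⟩ := fix_T5 π hn1 (y - 1) ((norm_le_T5 _ δ hy).trans hδ)
  set z := y - 1 + a * (y - 1) with hzd
  have hna : ‖a‖ < 1 := by
    rw [ha, norm_neg]
    exact lt_of_le_of_lt ((norm_mono_T5 _ z fun i j => hn1 _).trans hz) (by norm_num)
  have hnw : ‖z - z.map π‖ < 1 :=
    lt_of_le_of_lt ((norm_mono_T5 _ z fun i j => hn2 _).trans hz) (by norm_num)
  obtain ⟨c1, u1, e1⟩ := unit_T5 S1 h1 a (fun i j => by
    rw [ha]
    exact S1.neg_mem (hπ1 _)) hna
  obtain ⟨c2, u2, e2⟩ := unit_T5 S2 h2 (z - z.map π) (fun i j => hπ2 _) hnw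
  obtain ⟨u, rfl⟩ := u1
  refine ⟨↑u⁻¹, c2, Units.isUnit _, u2, ?_⟩
  have e3 : (u : Matrix n n S1).map S1.subtype * y = c2.map S2.subtype := by
    rw [e1, e2, sub_eq_add_neg z, ← ha, hzd]
    noncomm_ring
  rw [← e3, ← Matrix.mul_assoc, ← Matrix.map_mul, Units.inv_mul, Matrix.map_one _ (map_zero _)
    (map_one _), Matrix.one_mul]

end AuxT5

theorem cartan_small {R : Type} [NormedCommRing R] [CompleteSpace R] (S1 S2 : Subring R)
    (h1 : IsClosed (S1 : Set R)) (h2 : IsClosed (S2 : Set R)) (π : R →+ R)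
    (hπ1 : ∀ x, π x ∈ S1) (hπ2 : ∀ x, x - π x ∈ S2) (hn1 : ∀ x, ‖π x‖ ≤ ‖x‖)
    (hn2 : ∀ x, ‖x - π x‖ ≤ ‖x‖) (n : Type) [Fintype n] [DecidableEq n] :
    ∃ δ : ℝ, 0 < δ ∧ ∀ y : Matrix n n R, (∀ i j, ‖(y - 1) i j‖ ≤ δ) →
      ∃ (b1 : Matrix n n S1) (b2 : Matrix n n S2), IsUnit b1 ∧ IsUnit b2 ∧
        y = b1.map S1.subtype * b2.map S2.subtype := by
  have hp : (0 : ℝ) < 1 / (4 * (Fintype.card n + 1)) := by positivity
  refine ⟨1 / (4 * (Fintype.card n + 1)), hp, fun y hy => ?_⟩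
  refine cartan_T5 S1 S2 h1 h2 π hπ1 hπ2 hn1 hn2 y ⟨_, hp.le⟩ ?_ hy
  change (Fintype.card n : ℝ) * (1 / (4 * (Fintype.card n + 1))) ≤ 1 / 4
  rw [mul_one_div, div_le_div_iff₀ (by positivity) (by positivity)]
  linarith

end Pool.Agent.Adm

end

section

/-! Cartan factorisation over T, on one circle and on two circles. -/

namespace Pool.Agent.Adm

noncomputable section

namespace T

variable {C : Type} [NormedField C] [CompleteSpace C] [IsUltrametricDist C]

/-- Evaluation of polynomials at V. -/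
def pol : Polynomial C →+* T C := Polynomial.eval₂RingHom cst (mono 1 1)

theorem pol_monomial_T6 (j : ℕ) (c : C) : pol (Polynomial.monomial j c) = mono j c := by
  simp only [pol, Polynomial.coe_eval₂RingHom, Polynomial.eval₂_monomial]
  rw [mono_pow, cst_apply, mono_mul_mono]
  simp

theorem exists_pol_approx (f : T C) (ε : ℝ) (hε : 0 < ε) :
    ∃ N0 : ℕ, ∀ N : ℕ, N0 ≤ N → ∃ P : Polynomial C, ‖f * mono N 1 - pol P‖ ≤ ε := by
  have h1 : ∀ᶠ i in Filter.cofinite, ‖f.coeff i‖ < ε :=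
    (NormedAddGroup.tendsto_nhds_zero.1 (tendsto_coeff f)) ε hε
  have h2 : {i : ℤ | ¬ ‖f.coeff i‖ < ε}.Finite := Filter.eventually_cofinite.1 h1
  obtain ⟨M, hM⟩ := (h2.image Int.natAbs).bddAbove
  refine ⟨M, fun N hN => ⟨∑ j ∈ Finset.range (N + M + 1),
    Polynomial.monomial j (f.coeff ((j : ℤ) - N)), ?_⟩⟩
  refine norm_le _ hε.le fun m => ?_
  rw [coeff_sub, mul_comm f, coeff_mono_mul, one_mul, map_sum, coeff_sum]
  simp only [pol_monomial_T6, coeff_mono]
  by_cases hm : 0 ≤ m ∧ m < (N + M + 1 : ℕ)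
  · obtain ⟨k, rfl⟩ := Int.eq_ofNat_of_zero_le hm.1
    rw [Finset.sum_eq_single k]
    · simp [hε.le]
    · intro b _ hb
      rw [if_neg (by exact_mod_cast hb.symm)]
    · intro hk
      exact absurd (Finset.mem_range.2 (by exact_mod_cast hm.2)) hk
  · rw [Finset.sum_eq_zero, sub_zero]
    · by_contra hc
      have h3 : (m - N).natAbs ≤ M := hM ⟨m - N, fun h => hc h.le, rfl⟩
      apply hm
      push_cast
      omega
    · intro b hb
      rw [if_neg]
      rintro rfl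
      exact hm ⟨Int.natCast_nonneg b, by exact_mod_cast Finset.mem_range.1 hb⟩

theorem norm_mono_le_T6 (m : ℤ) : ‖(mono m 1 : T C)‖ ≤ 1 := by
  refine norm_le _ zero_le_one fun i => ?_
  rw [coeff_mono]
  split_ifs <;> simp

/-- The projection keeping the coefficients of nonnegative index. -/
def posT6 : T C →+ T C where
  toFun f := mk (fun i => if 0 ≤ i then f.coeff i else 0) (by
    refine squeeze_zero_norm (a := fun i => ‖f.coeff i‖) (fun i => ?_)
      (tendsto_zero_iff_norm_tendsto_zero.1 (tendsto_coeff f))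
    split_ifs <;> simp)
  map_zero' := by ext i; simp
  map_add' f g := by
    ext i
    by_cases h : 0 ≤ i <;> simp [h]

theorem coeff_posT6 (f : T C) (i : ℤ) :
    (posT6 f).coeff i = if 0 ≤ i then f.coeff i else 0 := rfl

/-- The projection keeping the coefficients of negative index. -/
def negT6 : T C →+ T C where
  toFun f := f - posT6 f
  map_zero' := by rw [map_zero, sub_zero]
  map_add' f g := by rw [map_add]; abel

theorem negT6_apply (f : T C) : negT6 f = f - posT6 f := rfl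

theorem posT6_mem (f : T C) : posT6 f ∈ Tp C := by
  rw [mem_Tp]
  intro i hi
  rw [coeff_posT6, if_neg (by omega)]

theorem sub_posT6_mem (f : T C) : f - posT6 f ∈ Tm C := by
  rw [mem_Tm]
  intro i hi
  rw [coeff_sub, coeff_posT6, if_pos hi.le, sub_self]

theorem norm_posT6 (f : T C) : ‖posT6 f‖ ≤ ‖f‖ := by
  refine norm_le _ (norm_nonneg _) fun i => ?_
  rw [coeff_posT6]
  split_ifs
  · exact norm_coeff_le f i
  · simp

theorem norm_sub_posT6 (f : T C) : ‖f - posT6 f‖ ≤ ‖f‖ := by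
  refine norm_le _ (norm_nonneg _) fun i => ?_
  rw [coeff_sub, coeff_posT6]
  split_ifs
  · simp
  · simpa using norm_coeff_le f i

variable {n : Type} [Fintype n] [DecidableEq n]

theorem approx_T6 (A B : Matrix n n (T C)) (hAB : A * B = 1) (δ : ℝ) (hδ : 0 < δ) :
    ∃ (N : ℕ) (Λ : Matrix n n (Polynomial C)),
      ∀ i j, ‖(((mono (-(N : ℤ)) 1 : T C) • Λ.map pol) * B - 1) i j‖ ≤ δ := by
  set M : ℝ := ∑ k, ∑ j, ‖B k j‖ + 1 with hM
  have hM0 : 0 < M := by positivity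
  choose N0 hN0 using fun p : n × n => exists_pol_approx (A p.1 p.2) (δ / M) (div_pos hδ hM0)
  obtain ⟨N, hN⟩ := (Set.finite_range N0).bddAbove
  choose P hP using fun p : n × n => hN0 p N (hN ⟨p, rfl⟩)
  refine ⟨N, Matrix.of fun i j => P (i, j), fun i j => ?_⟩
  rw [← hAB, ← Matrix.sub_mul, Matrix.mul_apply]
  have h1 : ∀ k, ‖((mono (-(N : ℤ)) 1 : T C) • (Matrix.of fun i j => P (i, j)).map pol - A) i k‖
      ≤ δ / M := by
    intro k
    have h2 : ((mono (-(N : ℤ)) 1 : T C) • (Matrix.of fun i j => P (i, j)).map pol - A) i k =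
        -(mono (-(N : ℤ)) 1 * (A i k * mono N 1 - pol (P (i, k)))) := by
      have h3 : (mono (-(N : ℤ)) 1 : T C) * mono N 1 = 1 := by
        rw [mono_mul_mono, neg_add_cancel, one_mul]; rfl
      simp only [Matrix.sub_apply, Matrix.smul_apply, Matrix.map_apply, Matrix.of_apply,
        smul_eq_mul]
      linear_combination (A i k) * h3
    rw [h2, norm_neg]
    refine (norm_mul_le _ _).trans ?_
    have h4 := hP (i, k)
    have h5 := norm_mono_le_T6 (C := C) (-(N : ℤ))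
    calc _ ≤ 1 * (δ / M) := mul_le_mul h5 h4 (norm_nonneg _) zero_le_one
      _ = δ / M := one_mul _
  refine (norm_sum_le _ _).trans ?_
  have h6 : ∑ k, ‖B k j‖ ≤ M := by
    have : ∑ k, ‖B k j‖ ≤ ∑ k, ∑ j, ‖B k j‖ :=
      Finset.sum_le_sum fun k _ =>
        Finset.single_le_sum (f := fun j => ‖B k j‖) (fun _ _ => norm_nonneg _) (Finset.mem_univ j)
    linarith
  calc _ ≤ ∑ k, δ / M * ‖B k j‖ := Finset.sum_le_sum fun k _ =>
        (norm_mul_le _ _).trans (mul_le_mul_of_nonneg_right (h1 k) (norm_nonneg _))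
    _ = δ / M * ∑ k, ‖B k j‖ := (Finset.mul_sum _ _ _).symm
    _ ≤ δ / M * M := mul_le_mul_of_nonneg_left h6 (div_pos hδ hM0).le
    _ = δ := div_mul_cancel₀ _ hM0.ne'

theorem isUnit_map_T6 {R S : Type} [CommRing R] [CommRing S] (f : R →+* S) {b : Matrix n n R}
    (hb : IsUnit b) : IsUnit (b.map f) := hb.map f.mapMatrix

theorem cartan_gen_T6 (S1 S2 : Subring (T C))
    (h1 : IsClosed (S1 : Set (T C))) (h2 : IsClosed (S2 : Set (T C))) (π : T C →+ T C)
    (hπ1 : ∀ x, π x ∈ S1) (hπ2 : ∀ x, x - π x ∈ S2) (hn1 : ∀ x, ‖π x‖ ≤ ‖x‖)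
    (hn2 : ∀ x, ‖x - π x‖ ≤ ‖x‖) (A : Matrix n n (T C)) (hA : IsUnit A) :
    ∃ (N : ℕ) (Λ : Matrix n n (Polynomial C)) (c2 : Matrix n n S2) (c1 : Matrix n n S1),
      IsUnit c2 ∧ IsUnit c1 ∧ IsUnit (Λ.map pol) ∧
      (mono N 1 : T C) • A = c2.map S2.subtype * c1.map S1.subtype * Λ.map pol := by
  obtain ⟨δ, hδ, H⟩ := cartan_small S1 S2 h1 h2 π hπ1 hπ2 hn1 hn2 n
  obtain ⟨a, rfl⟩ := hA
  obtain ⟨N, Λ, hΛ⟩ := approx_T6 a.val a.inv a.val_inv δ hδ
  obtain ⟨b1, b2, ⟨u1, rfl⟩, ⟨u2, rfl⟩, hy⟩ := H _ hΛ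
  have h3 : (mono N 1 : T C) * mono (-(N : ℤ)) 1 = 1 := by
    rw [mono_mul_mono, add_neg_cancel, one_mul]; rfl
  have h4 : Λ.map pol = (mono N 1 : T C) •
      (u1.val.map S1.subtype * u2.val.map S2.subtype * a.val) := by
    rw [← hy, Matrix.mul_assoc, a.inv_val, Matrix.mul_one, smul_smul, h3, one_smul]
  have h5 : u1.inv.map S1.subtype * u1.val.map S1.subtype = 1 := by
    rw [← Matrix.map_mul, u1.inv_val, Matrix.map_one _ (map_zero _) (map_one _)]
  have h6 : u2.inv.map S2.subtype * u2.val.map S2.subtype = 1 := by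
    rw [← Matrix.map_mul, u2.inv_val, Matrix.map_one _ (map_zero _) (map_one _)]
  refine ⟨N, Λ, u2.inv, u1.inv, (u2⁻¹).isUnit, (u1⁻¹).isUnit, ?_, ?_⟩
  · rw [h4, Algebra.smul_def]
    refine IsUnit.mul (IsUnit.map _ (IsUnit.of_mul_eq_one _ h3)) ?_
    exact ((isUnit_map_T6 _ u1.isUnit).mul (isUnit_map_T6 _ u2.isUnit)).mul a.isUnit
  · rw [h4, Matrix.mul_smul]
    congr 1
    rw [Matrix.mul_assoc (u1.val.map _), Matrix.mul_assoc, ← Matrix.mul_assoc (u1.inv.map _), h5,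
      Matrix.one_mul, ← Matrix.mul_assoc, h6, Matrix.one_mul]

theorem cartan_mp (A : Matrix n n (T C)) (hA : IsUnit A) :
    ∃ (N : ℕ) (Λ : Matrix n n (Polynomial C)) (bm : Matrix n n (Tm C)) (bp : Matrix n n (Tp C)),
      IsUnit bm ∧ IsUnit bp ∧ IsUnit (Λ.map pol) ∧
      (mono N 1 : T C) • A = bm.map (Tm C).subtype * bp.map (Tp C).subtype * Λ.map pol :=
  cartan_gen_T6 (Tp C) (Tm C) isClosed_Tp isClosed_Tm posT6 posT6_mem sub_posT6_mem norm_posT6
    norm_sub_posT6 A hA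

theorem cartan_pm (A : Matrix n n (T C)) (hA : IsUnit A) :
    ∃ (N : ℕ) (Λ : Matrix n n (Polynomial C)) (bp : Matrix n n (Tp C)) (bm : Matrix n n (Tm C)),
      IsUnit bp ∧ IsUnit bm ∧ IsUnit (Λ.map pol) ∧
      (mono N 1 : T C) • A = bp.map (Tp C).subtype * bm.map (Tm C).subtype * Λ.map pol :=
  cartan_gen_T6 (Tm C) (Tp C) isClosed_Tm isClosed_Tp negT6
    (fun x => by rw [negT6_apply]; exact sub_posT6_mem x)
    (fun x => by rw [negT6_apply, sub_sub_cancel]; exact posT6_mem x)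
    (fun x => by rw [negT6_apply]; exact norm_sub_posT6 x)
    (fun x => by rw [negT6_apply, sub_sub_cancel]; exact norm_posT6 x) A hA

theorem cartan_two (l : C) (hl : l ≠ 0) (h1 : 1 ≤ ‖l‖) (A1 A2 : Matrix n n (T C))
    (hA1 : IsUnit A1) (hA2 : IsUnit A2) :
    ∃ (N1 N2 : ℕ) (Λ1 Λ2 : Matrix n n (Polynomial C)) (UM : Matrix n n (Tan l hl))
      (DA : Matrix n n (Tp C)) (DB : Matrix n n (Tm C)),
      IsUnit UM ∧ IsUnit DA ∧ IsUnit DB ∧ IsUnit (Λ1.map pol) ∧ IsUnit (Λ2.map pol) ∧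
      (mono N1 1 : T C) • A1 = UM.map (Tan l hl).subtype * DA.map (Tp C).subtype * Λ1.map pol ∧
      (mono N2 1 : T C) • A2 = UM.map (res l hl) * DB.map (Tm C).subtype * Λ2.map pol := by
  obtain ⟨N1, Λ1, bm, bp, hbm, hbp, hΛ1, e1⟩ := cartan_mp A1 hA1
  obtain ⟨up, hup, hup'⟩ := exists_up l hl h1
  let inc : Tm C →+* Tan l hl := Subring.inclusion (Tm_le_Tan l hl h1)
  let up' : Tp C →+* Tp C := ((Tan l hl).subtype.comp up).codRestrict (Tp C) hup'
  obtain ⟨w, hw⟩ := isUnit_map_T6 (res l hl) (isUnit_map_T6 inc hbm)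
  obtain ⟨N2, Λ2, cp, cm, hcp, hcm, hΛ2, e2⟩ := cartan_pm (w.inv * A2) ((w⁻¹).isUnit.mul hA2)
  obtain ⟨z, hz⟩ := isUnit_map_T6 up' hcp
  refine ⟨N1, N2, Λ1, Λ2, bm.map inc * cp.map up, z.inv * bp, cm,
    (isUnit_map_T6 inc hbm).mul (isUnit_map_T6 up hcp), (z⁻¹).isUnit.mul hbp, hcm, hΛ1, hΛ2,
    ?_, ?_⟩
  · have h2 : (bm.map inc).map (Tan l hl).subtype = bm.map (Tm C).subtype := rfl
    have h3 : (cp.map up).map (Tan l hl).subtype = z.val.map (Tp C).subtype := by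
      rw [hz]; rfl
    have h4 : z.val.map (Tp C).subtype * z.inv.map (Tp C).subtype = 1 := by
      rw [← Matrix.map_mul, z.val_inv, Matrix.map_one _ (map_zero _) (map_one _)]
    rw [e1, Matrix.map_mul, Matrix.map_mul, h2, h3, Matrix.mul_assoc (bm.map _) (z.val.map _),
      ← Matrix.mul_assoc (z.val.map _), h4, Matrix.one_mul]
  · have h2 : (cp.map up).map (res l hl) = cp.map (Tp C).subtype := by
      ext i j : 1
      exact hup (cp i j)
    rw [Matrix.map_mul, ← hw, h2, Matrix.mul_assoc w.val, Matrix.mul_assoc w.val, ← e2,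
      Matrix.mul_smul, ← Matrix.mul_assoc, w.val_inv, Matrix.one_mul]

end T

end

end Pool.Agent.Adm

end

section

/-! A meromorphic function on the annulus extending to both discs is rational. -/

namespace Pool.Agent.Adm

noncomputable section

namespace T

variable {C : Type} [NormedField C] [CompleteSpace C] [IsUltrametricDist C]

theorem exists_poly_of_bdd (c : C) (hc : c ≠ 0) (f : T C) (hf : f ∈ Tp C) (N : ℤ)
    (h : ∀ n, N < n → f.coeff n = 0) : ∃ P : Polynomial C, P.eval₂ cst (mono 1 c) = f := by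
  refine ⟨∑ i ∈ Finset.range (N.toNat + 1), Polynomial.monomial i (f.coeff i / c ^ i), ?_⟩
  ext n
  simp only [Polynomial.eval₂_finsetSum, Polynomial.eval₂_monomial, coeff_sum, coeff_cst_mul,
    mono_pow, coeff_mono, mul_one]
  rcases lt_or_ge n 0 with hn | hn
  · rw [hf n hn]
    exact Finset.sum_eq_zero fun i _ => by rw [if_neg (by omega), mul_zero]
  · lift n to ℕ using hn
    rw [Finset.sum_eq_single n (fun i _ hi => by rw [if_neg (by omega), mul_zero]) fun hn => by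
      rw [h n (by simp at hn; omega), zero_div, zero_mul], if_pos rfl,
      div_mul_cancel₀ _ (pow_ne_zero _ hc)]

theorem eval₂_mem_T7 (P : Polynomial C) (c : C) : P.eval₂ cst (mono 1 c) ∈ Tp C := by
  rw [Polynomial.eval₂_eq_sum_range]
  exact Subring.sum_mem _ fun i _ => Subring.mul_mem _ (mono_mem_Tp 0 le_rfl _)
    (Subring.pow_mem _ (mono_mem_Tp 1 zero_le_one c) i)

theorem coeff_res_T7 (l c : C) (hl : l ≠ 0) (r : Tan l hl) (P : Polynomial C) (n : ℤ) :
    l ^ n * (P.eval₂ cst (mono 1 c) * (r : T C)).coeff n =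
      (P.eval₂ cst (mono 1 (l * c)) * res l hl r).coeff n := by
  rw [coeff_eval₂_mul, coeff_eval₂_mul, Finset.mul_sum]
  refine Finset.sum_congr rfl fun i _ => ?_
  rw [coeff_res, mul_one, zpow_sub₀ hl, zpow_natCast, mul_pow]
  field_simp

theorem inter_poly (l c : C) (hl : l ≠ 0) (hc : c ≠ 0) (r : Tan l hl) (rA rB : T C)
    (hA : rA ∈ Tp C) (hB : rB ∈ Tm C) (d1 d2 d3 : Polynomial C) (h1 : d1 ≠ 0) (h3 : d3 ≠ 0)
    (e1 : rA * d2.eval₂ cst (mono 1 c) = (r : T C) * d1.eval₂ cst (mono 1 c))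
    (e2 : res l hl r * d3.eval₂ cst (mono (-1) (l * c)⁻¹) = rB * d2.eval₂ cst (mono 1 (l * c))) :
    ∃ P d : Polynomial C, d ≠ 0 ∧
      (r : T C) * d.eval₂ cst (mono 1 c) = P.eval₂ cst (mono 1 c) := by
  have hu : mono (-1) (l * c)⁻¹ * mono 1 (l * c) = (1 : T C) := by
    rw [mono_mul_mono, inv_mul_cancel₀ (mul_ne_zero hl hc)]
    rfl
  let _ : Invertible (mono (-1) (l * c)⁻¹ : T C) :=
    ⟨mono 1 (l * c), (mul_comm _ _).trans hu, hu⟩
  have h4 : d3.reverse.eval₂ cst (mono 1 (l * c)) * mono (-1) (l * c)⁻¹ ^ d3.natDegree =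
      d3.eval₂ cst (mono (-1) (l * c)⁻¹) :=
    Polynomial.eval₂_reverse_mul_pow cst (mono (-1) (l * c)⁻¹) d3
  have h5 : (d1 * d3.reverse).eval₂ cst (mono 1 (l * c)) * res l hl r =
      (d1 * Polynomial.X ^ d3.natDegree * d2).eval₂ cst (mono 1 (l * c)) * rB := by
    have h6 := congrArg (· ^ d3.natDegree) hu
    simp only [mul_pow, one_pow] at h6
    simp only [Polynomial.eval₂_mul, Polynomial.eval₂_X_pow]
    rw [← h4] at e2
    linear_combination (d1.eval₂ cst (mono 1 (l * c)) * mono 1 (l * c) ^ d3.natDegree) * e2 -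
      (d1.eval₂ cst (mono 1 (l * c)) * d3.reverse.eval₂ cst (mono 1 (l * c)) * res l hl r) * h6
  obtain ⟨P, hP⟩ := exists_poly_of_bdd c hc ((r : T C) * (d1 * d3.reverse).eval₂ cst (mono 1 c))
    (by
      rw [Polynomial.eval₂_mul, ← mul_assoc, ← e1]
      exact Subring.mul_mem _ (Subring.mul_mem _ hA (eval₂_mem_T7 _ _)) (eval₂_mem_T7 _ _))
    (d1 * Polynomial.X ^ d3.natDegree * d2).natDegree fun n hn => by
      refine (mul_eq_zero.1 ?_).resolve_left (zpow_ne_zero n hl)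
      rw [mul_comm (r : T C), coeff_res_T7, h5, coeff_eval₂_mul]
      refine Finset.sum_eq_zero fun i hi => ?_
      have := Polynomial.le_natDegree_of_mem_supp i hi
      rw [hB _ (by omega), mul_zero]
  exact ⟨P, _, mul_ne_zero h1 (Polynomial.reverse_eq_zero.not.2 h3), hP.symm⟩

end T

end

end Pool.Agent.Adm

end

section

/-! Construction of the analytic package. -/

namespace Pool.Agent.Adm

section

variable {C : Type} [NormedField C] [CompleteSpace C] [IsUltrametricDist C]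

theorem iT_inj_An : Function.Injective (iT : T C →+* FractionRing (T C)) :=
  IsFractionRing.injective (T C) (FractionRing (T C))

theorem pw_cst_An (e : ℕ) (he : 0 < e) (x : C) : T.pw e he (T.cst x) = T.cst x := by
  rw [T.cst_apply, T.pw_mono, mul_zero]

theorem pw_eval_An (e : ℕ) (he : 0 < e) (d : Polynomial C) (m : ℤ) (c : C) :
    T.pw e he (d.eval₂ T.cst (T.mono m c)) = d.eval₂ T.cst (T.mono (e * m) c) := by
  rw [Polynomial.hom_eval₂, T.pw_mono]
  congr 1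
  ext1 x
  exact pw_cst_An e he x

theorem hom_poly_An {Q : Type} [CommRing Q] (κ : RatFunc C →+* Q)
    (α : Q →+* FractionRing (T C)) (m : ℤ) (c : C)
    (hC : ∀ x, α (κ (RatFunc.C x)) = iT (T.cst x)) (hX : α (κ RatFunc.X) = iT (T.mono m c))
    (d : Polynomial C) :
    α (κ (algebraMap (Polynomial C) (RatFunc C) d)) = iT (d.eval₂ T.cst (T.mono m c)) := by
  have h := hom_algebraMap (α.comp κ) (iT.comp T.cst) (iT (T.mono m c)) hC hX d
  rw [Polynomial.hom_eval₂]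
  exact h

theorem hom_inv_An {Q : Type} [CommRing Q] (κ : RatFunc C →+* Q)
    (α : Q →+* FractionRing (T C)) (m : ℤ) (c : C) (hc : c ≠ 0)
    (hC : ∀ x, α (κ (RatFunc.C x)) = iT (T.cst x)) (hX : α (κ RatFunc.X) = iT (T.mono m c))
    (d : Polynomial C) :
    α (κ (d.eval₂ RatFunc.C RatFunc.X⁻¹)) = iT (d.eval₂ T.cst (T.mono (-m) c⁻¹)) := by
  have h1 : (α.comp κ) RatFunc.X⁻¹ = iT (T.mono (-m) c⁻¹) := by
    rw [map_inv₀, RingHom.comp_apply, hX]
    symm
    apply eq_inv_of_mul_eq_one_left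
    rw [← map_mul, T.mono_mul_mono, neg_add_cancel, inv_mul_cancel₀ hc]
    exact map_one iT
  have h2 : (α.comp κ).comp RatFunc.C = iT.comp T.cst := by
    ext1 x
    exact hC x
  have h := Polynomial.hom_eval₂ d RatFunc.C (α.comp κ) RatFunc.X⁻¹
  rw [h1, h2] at h
  rw [Polynomial.hom_eval₂ d T.cst iT]
  exact h

theorem factor_side_An {Q S : Type} [CommRing Q] [CommRing S] (j : S →+* T C) (a : S →+* Q)
    (κ : RatFunc C →+* Q) (α : Q →+* FractionRing (T C)) (e : ℕ) (he : 0 < e) (c : C)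
    (hc : c ≠ 0) (ha : ∀ r, α (a r) = iT (T.pw e he (j r)))
    (hC : ∀ x, α (κ (RatFunc.C x)) = iT (T.cst x)) (hX : α (κ RatFunc.X) = iT (T.mono e c))
    {n : Type} [Fintype n] [DecidableEq n] (A M : Matrix n n (T C)) (N : ℕ)
    (Λ : Matrix n n (Polynomial C)) (D : Matrix n n S) (hD : IsUnit D)
    (hΛ : IsUnit (Λ.map T.pol)) (h : (T.mono N 1 : T C) • A = M * D.map j * Λ.map T.pol) :
    ∃ U : Matrix n n Q, IsUnit U ∧
      A.map (iT.comp (T.pw e he)) * U.map α = M.map (iT.comp (T.pw e he)) := by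
  set φ : T C →+* FractionRing (T C) := iT.comp (T.pw e he) with hφ
  let θ : Polynomial C →+* RatFunc C :=
    Polynomial.eval₂RingHom RatFunc.C (RatFunc.C c⁻¹ * RatFunc.X)
  have hθ : α.comp (κ.comp θ) = φ.comp T.pol := by
    apply Polynomial.ringHom_ext
    · intro x
      simp only [θ, hφ, T.pol, RingHom.comp_apply, Polynomial.coe_eval₂RingHom,
        Polynomial.eval₂_C]
      rw [hC, pw_cst_An]
    · simp only [θ, hφ, T.pol, RingHom.comp_apply, Polynomial.coe_eval₂RingHom,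
        Polynomial.eval₂_X]
      rw [map_mul, map_mul, hC, hX, ← map_mul, T.cst_apply, T.mono_mul_mono, T.pw_mono,
        zero_add, mul_one, inv_mul_cancel₀ hc]
  have hθ' : ∀ P, α (κ (θ P)) = φ (T.pol P) := fun P => DFunLike.congr_fun hθ P
  have hunit : ∀ P, IsUnit (T.pol P : T C) → IsUnit (κ (θ P)) := by
    intro P hP
    have h0 : θ P ≠ 0 := by
      intro h0
      have h1 := hθ' P
      rw [h0, map_zero, map_zero] at h1
      exact (hP.map φ).ne_zero h1.symm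
    exact (IsUnit.mk0 _ h0).map κ
  have hΛ' : IsUnit (Λ.map (κ.comp θ)) := by
    rw [Matrix.isUnit_iff_isUnit_det] at hΛ ⊢
    have h1 : (Λ.map (κ.comp θ)).det = κ (θ Λ.det) := ((κ.comp θ).map_det Λ).symm
    have h2 : (Λ.map (T.pol : Polynomial C →+* T C)).det = T.pol Λ.det :=
      ((T.pol : Polynomial C →+* T C).map_det Λ).symm
    rw [h1]
    rw [h2] at hΛ
    exact hunit _ hΛ
  have hXN : (T.pol (Polynomial.X ^ N) : T C) = T.mono N 1 := by
    simp only [T.pol, Polynomial.coe_eval₂RingHom, Polynomial.eval₂_X_pow]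
    rw [T.mono_pow, mul_one, one_pow]
  have hv : IsUnit (κ (θ (Polynomial.X ^ N))) := by
    apply hunit
    rw [hXN]
    refine IsUnit.of_mul_eq_one (T.mono (-(N : ℤ)) 1) ?_
    rw [T.mono_mul_mono, add_neg_cancel, mul_one]
    rfl
  have hW : IsUnit (D.map a * Λ.map (κ.comp θ)) := (hD.map a.mapMatrix).mul hΛ'
  obtain ⟨W, hW⟩ := hW
  refine ⟨Matrix.scalar n (κ (θ (Polynomial.X ^ N))) * (↑W⁻¹ : Matrix n n Q),
    (hv.map (Matrix.scalar n)).mul (Units.isUnit _), ?_⟩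
  have e1 : (W : Matrix n n Q).map α = (D.map j).map φ * (Λ.map T.pol).map φ := by
    rw [hW, Matrix.map_mul]
    congr 1
    · ext i k
      exact ha _
    · ext i k
      exact hθ' _
  have e2 : A.map φ * (Matrix.scalar n (κ (θ (Polynomial.X ^ N)))).map α =
      M.map φ * (W : Matrix n n Q).map α := by
    rw [e1, ← Matrix.mul_assoc, ← Matrix.map_mul, ← Matrix.map_mul, ← h]
    ext i k
    simp only [Matrix.scalar_apply, Matrix.diagonal_map (map_zero α), Matrix.mul_diagonal,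
      Matrix.map_apply, Matrix.smul_apply, smul_eq_mul, map_mul, hθ', hXN]
    ring
  rw [Matrix.map_mul, ← Matrix.mul_assoc, e2, Matrix.mul_assoc, ← Matrix.map_mul,
    Units.mul_inv, Matrix.map_one α (map_zero α) (map_one α), Matrix.mul_one]

end

theorem nonempty_anPkg {C : Type} [NormedField C] [CompleteSpace C] [IsUltrametricDist C]
    (c1 c2 : C) (h1 : c1 ≠ 0) (h12 : ‖c1‖ ≤ ‖c2‖) (e1 e2 : ℕ) (he1 : 0 < e1) (he2 : 0 < e2) :
    Nonempty (AnPkg c1 c2 e1 e2 he1 he2) := by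
  have hn1 : 0 < ‖c1‖ := norm_pos_iff.2 h1
  have h2 : c2 ≠ 0 := norm_pos_iff.1 (lt_of_lt_of_le hn1 h12)
  have hl : c2 / c1 ≠ 0 := div_ne_zero h2 h1
  have hl1 : 1 ≤ ‖c2 / c1‖ := by
    rw [norm_div, one_le_div hn1]
    exact h12
  have hlc : c2 / c1 * c1 = c2 := div_mul_cancel₀ c2 h1
  obtain ⟨QA, rA, aA, κA, α, hα, haA, hAC, hAX, frA, evA⟩ := exists_QA c1 h1 e1 he1
  obtain ⟨QM, rM, aM, κM, μ1, μ2, hμ1, hμ2, haM1, haM2, hM1C, hM1X, hM2C, hM2X, frM, evM⟩ :=
    exists_QM c1 (c2 / c1) h1 hl e1 e2 he1 he2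
  obtain ⟨QB, rB, aB, κB, β, hβ, haB, hBC, hBX, frB, evB⟩ := exists_QB c2 h2 e2 he2
  rw [hlc] at hM2X evM
  have frA' : ∀ q : QA, ∃ d : Polynomial C, d ≠ 0 ∧ ∃ r : T C, r ∈ T.Tp C ∧
      α q * iT (d.eval₂ T.cst (T.mono e1 c1)) = iT (T.pw e1 he1 r) := by
    intro q
    obtain ⟨d, hd, r, hr⟩ := frA q
    refine ⟨d, hd, r, r.2, ?_⟩
    rw [← hom_poly_An κA α e1 c1 hAC hAX, ← map_mul, hr, haA]
  have frB' : ∀ q : QB, ∃ d : Polynomial C, d ≠ 0 ∧ ∃ r : T C, r ∈ T.Tm C ∧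
      β q * iT (d.eval₂ T.cst (T.mono (-(e2 : ℤ)) c2⁻¹)) = iT (T.pw e2 he2 r) := by
    intro q
    obtain ⟨d, hd, r, hr⟩ := frB q
    refine ⟨d, hd, r, r.2, ?_⟩
    rw [← hom_inv_An κB β e2 c2 h2 hBC hBX, ← map_mul, hr, haB]
  have frM' : ∀ q : QM, ∃ d : Polynomial C, d ≠ 0 ∧ ∃ r : T.Tan (c2 / c1) hl,
      μ1 q * iT (d.eval₂ T.cst (T.mono e1 c1)) = iT (T.pw e1 he1 r) ∧
      μ2 q * iT (d.eval₂ T.cst (T.mono e2 c2)) = iT (T.pw e2 he2 (T.res (c2 / c1) hl r)) := by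
    intro q
    obtain ⟨d, hd, r, hr⟩ := frM q
    refine ⟨d, hd, r, ?_, ?_⟩
    · rw [← hom_poly_An κM μ1 e1 c1 hM1C hM1X, ← map_mul, hr, haM1]
    · rw [← hom_poly_An κM μ2 e2 c2 hM2C hM2X, ← map_mul, hr, haM2]
  refine ⟨
    { QA := QA, QM := QM, QB := QB, κA := κA, κM := κM, κB := κB, α := α, μ1 := μ1, μ2 := μ2
      β := β, α_inj := hα, μ1_inj := hμ1, μ2_inj := hμ2, β_inj := hβ, α_C := hAC, α_X := hAX
      μ1_C := hM1C, μ1_X := hM1X, μ2_C := hM2C, μ2_X := hM2X, β_C := hBC, β_X := hBX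
      inter := ?_, factor := ?_, fracA := frA', fracM := ?_, fracB := frB'
      evA := evA, evM := evM, evB := evB }⟩
  · intro a m b hab hbc
    obtain ⟨d1, hd1, r1, hr1, E1⟩ := frA' a
    obtain ⟨d2, hd2, r2, E2, E2'⟩ := frM' m
    obtain ⟨d3, hd3, r3, hr3, E3⟩ := frB' b
    have F1 : r1 * d2.eval₂ T.cst (T.mono 1 c1) = (r2 : T C) * d1.eval₂ T.cst (T.mono 1 c1) := by
      apply T.pw_injective e1 he1
      apply iT_inj_An
      rw [map_mul, map_mul, map_mul, map_mul, pw_eval_An, pw_eval_An, mul_one, ← E1, ← E2, hab]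
      ring
    have F2 : T.res (c2 / c1) hl r2 * d3.eval₂ T.cst (T.mono (-1) (c2 / c1 * c1)⁻¹) =
        r3 * d2.eval₂ T.cst (T.mono 1 (c2 / c1 * c1)) := by
      rw [hlc]
      apply T.pw_injective e2 he2
      apply iT_inj_An
      rw [map_mul, map_mul, map_mul, map_mul, pw_eval_An, pw_eval_An, mul_one, mul_neg, mul_one,
        ← E2', ← E3, hbc]
      ring
    obtain ⟨P, d, hd, hP⟩ := T.inter_poly (c2 / c1) c1 hl h1 r2 r1 r3 hr1 hr3 d1 d2 d3 hd1 hd3 F1 F2
    have hP' : iT (T.pw e1 he1 r2) * iT (d.eval₂ T.cst (T.mono e1 c1)) =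
        iT (P.eval₂ T.cst (T.mono e1 c1)) := by
      have h := congrArg (T.pw e1 he1) hP
      rw [map_mul, pw_eval_An, pw_eval_An, mul_one] at h
      rw [← map_mul, h]
    have he1' : (e1 : ℤ) ≠ 0 := by exact_mod_cast he1.ne'
    have hne : ∀ w : Polynomial C, w ≠ 0 → iT (w.eval₂ T.cst (T.mono e1 c1)) ≠ 0 := by
      intro w hw h0
      exact T.eval₂_ne_zero w hw e1 he1' c1 h1 (iT_inj_An (by rw [h0, map_zero]))
    refine ⟨algebraMap (Polynomial C) (RatFunc C) P /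
      (algebraMap (Polynomial C) (RatFunc C) d2 * algebraMap (Polynomial C) (RatFunc C) d), ?_⟩
    apply hμ1
    have h := map_div₀ (μ1.comp κM) (algebraMap (Polynomial C) (RatFunc C) P)
      (algebraMap (Polynomial C) (RatFunc C) d2 * algebraMap (Polynomial C) (RatFunc C) d)
    rw [map_mul] at h
    simp only [RingHom.comp_apply, hom_poly_An κM μ1 e1 c1 hM1C hM1X] at h
    rw [h, div_eq_iff (mul_ne_zero (hne d2 hd2) (hne d hd)), ← mul_assoc, E2, hP']
  · intro n _ _ A1 A2 hA1 hA2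
    obtain ⟨N1, N2, Λ1, Λ2, UM, DA, DB, hUM, hDA, hDB, hΛ1, hΛ2, G1, G2⟩ :=
      T.cartan_two (c2 / c1) hl hl1 A1 A2 hA1 hA2
    obtain ⟨UA, hUA, K1⟩ := factor_side_An (T.Tp C).subtype aA κA α e1 he1 c1 h1 haA hAC hAX
      A1 _ N1 Λ1 DA hDA hΛ1 G1
    obtain ⟨UB, hUB, K2⟩ := factor_side_An (T.Tm C).subtype aB κB β e2 he2 c2 h2 haB hBC hBX
      A2 _ N2 Λ2 DB hDB hΛ2 G2
    refine ⟨UA, UM.map aM, UB, hUA, hUM.map aM.mapMatrix, hUB, ?_, ?_⟩
    · rw [K1]
      ext i k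
      exact (haM1 _).symm
    · rw [K2]
      ext i k
      exact (haM2 _).symm
  · intro q
    obtain ⟨d, hd, r, hr, -⟩ := frM' q
    exact ⟨d, hd, r, r.2, hr⟩

end Pool.Agent.Adm

end

section

/-! Laurent series over a trivially valued subfield converge on circles of radius less than one;
rationality criterion. -/

namespace Pool.Agent.Adm

open Filter Topology

noncomputable section

namespace T

variable {k C : Type} [Field k] [NormedField C] [CompleteSpace C] [IsUltrametricDist C]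

theorem tendsto_toNat_T3 : Tendsto Int.toNat atTop atTop :=
  tendsto_atTop_atTop.2 fun b => ⟨b, fun a ha => by omega⟩

theorem coeff_mul_T3 (x y : LaurentSeries k) (n : ℤ) :
    ∃ s : Finset ℤ, (x * y).coeff n = ∑ i ∈ s, x.coeff i * y.coeff (n - i) ∧
      ∀ i ∉ s, x.coeff i = 0 ∨ y.coeff (n - i) = 0 := by
  refine ⟨(Finset.antidiagonal x.isPWO_support y.isPWO_support n).image Prod.fst, ?_, ?_⟩
  · rw [HahnSeries.coeff_mul, Finset.sum_image]
    · refine Finset.sum_congr rfl fun ij hij => ?_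
      rw [Finset.mem_antidiagonal] at hij
      rw [← hij.2.2, add_sub_cancel_left]
    · intro a ha b hb hab
      rw [Finset.mem_coe, Finset.mem_antidiagonal] at ha hb
      refine Prod.ext hab ?_
      have h1 := ha.2.2
      have h2 := hb.2.2
      omega
  · intro i hi
    by_contra h
    rw [not_or] at h
    refine hi (Finset.mem_image.2 ⟨(i, n - i), ?_, rfl⟩)
    rw [Finset.mem_antidiagonal]
    exact ⟨h.1, h.2, by simp⟩

theorem tendsto_emb (φ : k →+* C) (hφ : ∀ x, ‖φ x‖ ≤ 1) (γ : C) (hγ : ‖γ‖ < 1)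
    (x : LaurentSeries k) :
    Tendsto (fun n : ℤ => γ ^ n * φ (x.coeff n)) cofinite (𝓝 0) := by
  rw [Int.cofinite_eq, tendsto_sup]
  constructor
  · refine tendsto_const_nhds.congr' ?_
    filter_upwards [eventually_lt_atBot x.order] with n hn
    rw [HahnSeries.coeff_eq_zero_of_lt_order hn, map_zero, mul_zero]
  · have h1 : Tendsto (fun n : ℤ => ‖γ‖ ^ n.toNat) atTop (𝓝 0) :=
      (tendsto_pow_atTop_nhds_zero_of_lt_one (norm_nonneg γ) hγ).comp tendsto_toNat_T3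
    refine squeeze_zero_norm' ?_ h1
    filter_upwards [eventually_ge_atTop (0 : ℤ)] with n hn
    rw [norm_mul, norm_zpow, ← zpow_natCast, Int.toNat_of_nonneg hn]
    exact mul_le_of_le_one_right (zpow_nonneg (norm_nonneg γ) n) (hφ _)

/-- The substitution z ↦ γ V. -/
def emb (φ : k →+* C) (hφ : ∀ x, ‖φ x‖ ≤ 1) (γ : C) (h0 : γ ≠ 0) (hγ : ‖γ‖ < 1) :
    LaurentSeries k →+* T C where
  toFun x := mk (fun n => γ ^ n * φ (x.coeff n)) (tendsto_emb φ hφ γ hγ x)
  map_one' := by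
    ext n
    by_cases hn : n = 0 <;> simp [hn, coeff_one, HahnSeries.coeff_one]
  map_zero' := by ext n; simp
  map_add' := by intro x y; ext n; simp [mul_add]
  map_mul' := by
    intro x y
    ext n
    obtain ⟨s, h1, h2⟩ := coeff_mul_T3 x y n
    rw [coeff_mul, tsum_eq_sum (s := s)]
    · simp only [coeff_mk]
      rw [h1, map_sum, Finset.mul_sum]
      refine Finset.sum_congr rfl fun i _ => ?_
      have h3 : γ ^ n = γ ^ i * γ ^ (n - i) := by rw [← zpow_add₀ h0, add_sub_cancel]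
      rw [h3, map_mul]
      ring
    · intro i hi
      rcases h2 i hi with h | h <;> simp [h]

@[simp] theorem coeff_emb (φ : k →+* C) (hφ : ∀ x, ‖φ x‖ ≤ 1) (γ : C) (h0 : γ ≠ 0) (hγ : ‖γ‖ < 1)
    (x : LaurentSeries k) (n : ℤ) : (emb φ hφ γ h0 hγ x).coeff n = γ ^ n * φ (x.coeff n) := rfl

theorem emb_single (φ : k →+* C) (hφ : ∀ x, ‖φ x‖ ≤ 1) (γ : C) (h0 : γ ≠ 0) (hγ : ‖γ‖ < 1)
    (n : ℤ) (c : k) : emb φ hφ γ h0 hγ (HahnSeries.single n c) = mono n (γ ^ n * φ c) := by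
  ext m
  by_cases hm : m = n <;> simp [hm, coeff_mono, HahnSeries.coeff_single]

theorem emb_C (φ : k →+* C) (hφ : ∀ x, ‖φ x‖ ≤ 1) (γ : C) (h0 : γ ≠ 0) (hγ : ‖γ‖ < 1) (c : k) :
    emb φ hφ γ h0 hγ (HahnSeries.C c) = cst (φ c) := by
  rw [HahnSeries.C_apply, emb_single, cst_apply, zpow_zero, one_mul]

omit [CompleteSpace C] [IsUltrametricDist C] in
theorem norm_phi (φ : k →+* C) (hφ : ∀ x, ‖φ x‖ ≤ 1) (c : k) (hc : c ≠ 0) : ‖φ c‖ = 1 := by
  refine le_antisymm (hφ c) ?_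
  have h1 : ‖φ c‖ * ‖φ c⁻¹‖ = 1 := by rw [← norm_mul, ← map_mul, mul_inv_cancel₀ hc, map_one, norm_one]
  calc (1 : ℝ) = ‖φ c‖ * ‖φ c⁻¹‖ := h1.symm
    _ ≤ ‖φ c‖ := mul_le_of_le_one_right (norm_nonneg _) (hφ _)

theorem emb_scL (φ : k →+* C) (hφ : ∀ x, ‖φ x‖ ≤ 1) (γ : C) (h0 : γ ≠ 0) (hγ : ‖γ‖ < 1)
    (ζ : k) (hζ : ζ ≠ 0) (x : LaurentSeries k) :
    emb φ hφ γ h0 hγ (scL ζ hζ x) = sc (φ ζ) (norm_phi φ hφ ζ hζ) (emb φ hφ γ h0 hγ x) := by
  ext n
  simp only [coeff_emb, scL_coeff, coeff_sc, map_mul, map_zpow₀]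
  ring

end T

end

end Pool.Agent.Adm

end

section

/-! Discreteness and a rationality criterion. -/

namespace Pool.Agent.Adm

/-- A finite dimensional subspace over a trivially valued subfield is discrete. -/
theorem exists_discrete {k C : Type} [Field k] [NormedField C] [IsUltrametricDist C]
    (φ : k →+* C) (hφ : ∀ x, ‖φ x‖ ≤ 1) {ι : Type} (s : Finset ι) (d : ι → C) :
    ∃ δ : ℝ, 0 < δ ∧ ∀ x : ι → k, ‖∑ i ∈ s, d i * φ (x i)‖ < δ → ∑ i ∈ s, d i * φ (x i) = 0 := by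
  classical
  have h1 : ∀ c : k, c ≠ 0 → ‖φ c‖ = 1 := fun c hc => by
    have h2 : ‖φ c‖ * ‖φ c⁻¹‖ = 1 := by
      rw [← norm_mul, ← map_mul, mul_inv_cancel₀ hc, map_one, norm_one]
    nlinarith [hφ c, hφ c⁻¹, norm_nonneg (φ c), norm_nonneg (φ c⁻¹)]
  induction s using Finset.induction_on with
  | empty => exact ⟨1, one_pos, fun _ _ => Finset.sum_empty⟩
  | insert a s ha ih =>
    obtain ⟨δ, hδ, H⟩ := ih
    obtain ⟨δ', h0, h2, H'⟩ : ∃ δ', 0 < δ' ∧ δ' ≤ δ ∧ ∀ x : ι → k,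
        ‖d a + ∑ i ∈ s, d i * φ (x i)‖ < δ' → d a + ∑ i ∈ s, d i * φ (x i) = 0 := by
      by_cases h : ∀ x : ι → k,
          ‖d a + ∑ i ∈ s, d i * φ (x i)‖ < δ → d a + ∑ i ∈ s, d i * φ (x i) = 0
      · exact ⟨δ, hδ, le_rfl, h⟩
      push Not at h
      obtain ⟨y, hy, hy'⟩ := h
      refine ⟨_, norm_pos_iff.2 hy', hy.le, fun x hx => absurd hx ?_⟩
      have e : ∑ i ∈ s, d i * φ ((x - y) i) =
          (d a + ∑ i ∈ s, d i * φ (x i)) + -(d a + ∑ i ∈ s, d i * φ (y i)) := by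
        simp only [Pi.sub_apply, map_sub, mul_sub, Finset.sum_sub_distrib]
        ring
      have h3 := H (x - y) (by
        rw [e]
        exact (IsUltrametricDist.norm_add_le_max _ _).trans_lt
          (max_lt (hx.trans hy) (by rwa [norm_neg])))
      rw [e, add_neg_eq_zero] at h3
      rw [h3]
      exact lt_irrefl _
    refine ⟨δ', h0, fun x => ?_⟩
    rw [Finset.sum_insert ha]
    by_cases hx : x a = 0
    · rw [hx, map_zero, mul_zero, zero_add]
      exact fun h => H x (h.trans_le h2)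
    · have e : d a * φ (x a) + ∑ i ∈ s, d i * φ (x i) =
          φ (x a) * (d a + ∑ i ∈ s, d i * φ ((x a)⁻¹ * x i)) := by
        rw [mul_add, Finset.mul_sum, mul_comm]
        congr 1
        refine Finset.sum_congr rfl fun i _ => ?_
        rw [mul_left_comm, ← map_mul, mul_inv_cancel_left₀ hx]
      rw [e, norm_mul, h1 _ hx, one_mul]
      intro h
      rw [H' (fun i => (x a)⁻¹ * x i) h, mul_zero]

theorem single_zpow_T3b {k : Type} [Field k] (s m : ℤ) :
    (HahnSeries.single s 1 : LaurentSeries k) ^ m = HahnSeries.single (s * m) 1 := by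
  rw [RatFunc.single_zpow s, RatFunc.single_zpow (s * m), zpow_mul]

/-- Rationality criterion: a series in z^e over k killed in high degrees by a nonzero polynomial
in z^(±e) over a bigger field is a rational function of z^(±e) over k. -/
theorem rational_of_eventually {k C : Type} [Field k] [Field C] (φ : k →+* C) (e : ℕ) (he : 0 < e)
    (s s' : ℤ) (hs : s = e ∨ s = -e) (hs' : s' = e ∨ s' = -e) (j : RatFunc k →+* LaurentSeries k)
    (hC : ∀ c, j (RatFunc.C c) = HahnSeries.C c) (hX : j RatFunc.X = HahnSeries.single s 1)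
    (x : LaurentSeries k) (hx : ∀ n : ℤ, ¬ (e : ℤ) ∣ n → x.coeff n = 0) (S : Finset ℕ)
    (d : ℕ → C) (hd : ∃ i ∈ S, d i ≠ 0) (N : ℤ)
    (h : ∀ n, N < n → ∑ i ∈ S, d i * φ (x.coeff (n - i * s')) = 0) : ∃ f, j f = x := by
  classical
  let _ := φ.toAlgebra
  obtain ⟨i0, hi0, hd0⟩ := hd
  obtain ⟨lam, hl⟩ := not_forall.1 (mt (Module.forall_dual_apply_eq_zero_iff k (d i0)).1 hd0)
  have h1 : ∀ (n : ℤ) (c : k), (e : ℤ) ∣ n → HahnSeries.single n c ∈ j.fieldRange := by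
    intro n c hn
    obtain ⟨m, rfl⟩ : s ∣ n := by
      rcases hs with rfl | rfl
      exacts [hn, neg_dvd.2 hn]
    refine ⟨RatFunc.C c * RatFunc.X ^ m, ?_⟩
    rw [map_mul, map_zpow₀, hC, hX, single_zpow_T3b, HahnSeries.C_apply,
      HahnSeries.single_mul_single, zero_add, mul_one]
  have hes : (e : ℤ) ∣ s' := by
    rcases hs' with rfl | rfl
    exacts [dvd_rfl, dvd_neg.2 dvd_rfl]
  have hs0 : s' ≠ 0 := by rcases hs' with rfl | rfl <;> omega
  let D : LaurentSeries k := ∑ i ∈ S, HahnSeries.single (i * s') (lam (d i))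
  have hD : D ∈ j.fieldRange := sum_mem fun i _ => h1 _ _ (hes.mul_left _)
  have hD0 : D ≠ 0 := fun e0 => hl (by
    have := congrArg (fun y : LaurentSeries k => y.coeff (i0 * s')) e0
    simp only [D, HahnSeries.coeff_sum, HahnSeries.coeff_zero] at this
    rwa [Finset.sum_eq_single_of_mem i0 hi0 fun i _ hi => HahnSeries.coeff_single_of_ne fun e1 =>
      hi (Nat.cast_injective (mul_right_cancel₀ hs0 e1)).symm,
      HahnSeries.coeff_single_same] at this)
  have h2 : ∀ n, (D * x).coeff n = ∑ i ∈ S, lam (d i) * x.coeff (n - i * s') := fun n => by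
    simp only [D, Finset.sum_mul, HahnSeries.coeff_sum, HahnSeries.coeff_single_mul]
  have h3 : ∀ n, N < n → (D * x).coeff n = 0 := fun n hn => by
    have := congrArg lam (h n hn)
    rw [map_sum, map_zero] at this
    rw [h2, ← this]
    refine Finset.sum_congr rfl fun i _ => ?_
    rw [mul_comm, ← smul_eq_mul, ← map_smul, mul_comm (d i)]
    rfl
  have h4 : ∀ n, ¬ (e : ℤ) ∣ n → (D * x).coeff n = 0 := fun n hn => by
    rw [h2]
    refine Finset.sum_eq_zero fun i _ => ?_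
    rw [hx _ fun h5 => hn ((dvd_sub_left (hes.mul_left _)).1 h5), mul_zero]
  have h5 : D * x = ∑ n ∈ Finset.Icc (D * x).order N, HahnSeries.single n ((D * x).coeff n) := by
    ext m
    rw [HahnSeries.coeff_sum, Finset.sum_eq_single m (fun n _ hn =>
      HahnSeries.coeff_single_of_ne hn.symm) fun hm => ?_, HahnSeries.coeff_single_same]
    rw [HahnSeries.coeff_single_same]
    by_contra h6
    exact hm (Finset.mem_Icc.2 ⟨HahnSeries.order_le_of_coeff_ne_zero h6,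
      not_lt.1 fun h7 => h6 (h3 m h7)⟩)
  have h6 : D * x ∈ j.fieldRange := by
    rw [h5]
    refine sum_mem fun n _ => ?_
    by_cases hn : (e : ℤ) ∣ n
    · exact h1 _ _ hn
    · rw [h4 n hn, map_zero]
      exact zero_mem _
  have h7 := mul_mem (inv_mem hD) h6
  rwa [inv_mul_cancel_left₀ hD0] at h7

end Pool.Agent.Adm

end

section

/-! Laurent series over k that are meromorphic on a disc or on the annulus are rational. -/

namespace Pool.Agent.Adm

open Filter Topology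

variable {k C : Type} [Field k] [NormedField C] [CompleteSpace C] [IsUltrametricDist C]

theorem supp_Rat (e : ℕ) (he : 0 < e) (m : ℤ) (hm : m = e ∨ m = -e) (c : C) (hc : c ≠ 0)
    (F : T C) (d : Polynomial C) (hd : d ≠ 0) (r : T C)
    (h : F * d.eval₂ T.cst (T.mono m c) = T.pw e he r) (n : ℤ) (hn : ¬ (e : ℤ) ∣ n) :
    F.coeff n = 0 := by
  have hem : (e : ℤ) ∣ m := by rcases hm with rfl | rfl <;> simp
  have hm0 : m ≠ 0 := by omega
  have ht : Tendsto (fun n : ℤ => if (e : ℤ) ∣ n then 0 else F.coeff n) cofinite (𝓝 0) := by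
    refine squeeze_zero_norm (fun n => ?_) (tendsto_zero_iff_norm_tendsto_zero.1 F.tendsto_coeff)
    split_ifs <;> simp
  have h1 : d.eval₂ T.cst (T.mono m c) * T.mk _ ht = 0 := by
    ext l
    have hi : ∀ i : ℕ, (e : ℤ) ∣ l - i * m ↔ (e : ℤ) ∣ l := fun i =>
      dvd_sub_left (hem.mul_left _)
    rw [T.coeff_eval₂_mul, T.coeff_zero]
    simp only [T.coeff_mk, hi]
    by_cases hl : (e : ℤ) ∣ l
    · simp [hl]
    · simp only [hl, if_false]
      rw [← T.coeff_eval₂_mul, mul_comm, h, T.coeff_pw, if_neg hl]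
  have h2 := (mul_eq_zero.1 h1).resolve_left (T.eval₂_ne_zero d hd m hm0 c hc)
  have h3 := congrArg (fun f : T C => f.coeff n) h2
  simpa [hn] using h3

omit [CompleteSpace C] [IsUltrametricDist C] in
theorem lead_Rat (d : Polynomial C) (hd : d ≠ 0) (a : ℕ → C) (ha : ∀ i, a i ≠ 0) :
    ∃ i ∈ d.support, d.coeff i * a i ≠ 0 := by
  obtain ⟨i, hi⟩ := Polynomial.support_nonempty.2 hd
  exact ⟨i, hi, mul_ne_zero (Polynomial.mem_support_iff.1 hi) (ha i)⟩

theorem rat_A (φ : k →+* C) (hφ : ∀ x, ‖φ x‖ ≤ 1) (γ : C) (h0 : γ ≠ 0) (hγ : ‖γ‖ < 1) (e : ℕ)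
    (he : 0 < e) (c : C) (hc : c ≠ 0) (j : RatFunc k →+* LaurentSeries k)
    (hC : ∀ x, j (RatFunc.C x) = HahnSeries.C x)
    (hX : j RatFunc.X = HahnSeries.single (-(e : ℤ)) 1) (x : LaurentSeries k)
    (d : Polynomial C) (hd : d ≠ 0) (r : T C) (hr : r ∈ T.Tp C)
    (h : T.flip (T.emb φ hφ γ h0 hγ x) * d.eval₂ T.cst (T.mono e c) = T.pw e he r) :
    ∃ f, j f = x := by
  have hx : ∀ n : ℤ, ¬ (e : ℤ) ∣ n → x.coeff n = 0 := by
    intro n hn
    have := supp_Rat e he e (Or.inl rfl) c hc _ d hd r h (-n) (by rwa [dvd_neg])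
    simpa [zpow_ne_zero _ h0] using this
  refine rational_of_eventually φ e he _ (-(e : ℤ)) (Or.inr rfl) (Or.inr rfl) j hC hX x hx
    d.support (fun i => d.coeff i * (c ^ i * γ ^ ((i : ℤ) * e)))
    (lead_Rat d hd _ fun i => mul_ne_zero (pow_ne_zero _ hc) (zpow_ne_zero _ h0)) 0 fun n hn => ?_
  have h1 := congrArg (fun f : T C => f.coeff (-n)) h
  have h2 : (T.pw e he r).coeff (-n) = 0 := by
    rw [T.coeff_pw]
    split_ifs with h3
    · exact hr _ (Int.ediv_neg_of_neg_of_pos (by omega) (by exact_mod_cast he))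
    · rfl
  simp only [h2] at h1
  rw [mul_comm, T.coeff_eval₂_mul] at h1
  apply mul_left_cancel₀ (zpow_ne_zero n h0)
  rw [mul_zero, ← h1, Finset.mul_sum]
  refine Finset.sum_congr rfl fun i _ => ?_
  rw [T.coeff_flip, T.coeff_emb, show -(-n - i * (e : ℤ)) = n + i * e by ring,
    show n - i * -(e : ℤ) = n + i * e by ring, zpow_add₀ h0]
  ring

theorem rat_M (φ : k →+* C) (hφ : ∀ x, ‖φ x‖ ≤ 1) (γ : C) (h0 : γ ≠ 0) (hγ : ‖γ‖ < 1) (e : ℕ)
    (he : 0 < e) (c2 : C) (hc : 1 ≤ ‖c2‖) (j : RatFunc k →+* LaurentSeries k)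
    (hC : ∀ x, j (RatFunc.C x) = HahnSeries.C x)
    (hX : j RatFunc.X = HahnSeries.single (e : ℤ) 1) (x : LaurentSeries k)
    (d : Polynomial C) (hd : d ≠ 0) (r : T C)
    (hr : Tendsto (fun n : ℤ => (c2 / γ ^ e) ^ n * r.coeff n) cofinite (𝓝 0))
    (h : T.emb φ hφ γ h0 hγ x * d.eval₂ T.cst (T.mono e (γ ^ e)) = T.pw e he r) :
    ∃ f, j f = x := by
  have hγe : γ ^ e ≠ 0 := pow_ne_zero _ h0
  have he' : (0 : ℤ) < e := by exact_mod_cast he
  have hx : ∀ n : ℤ, ¬ (e : ℤ) ∣ n → x.coeff n = 0 := by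
    intro n hn
    have := supp_Rat e he e (Or.inl rfl) _ hγe _ d hd r h n hn
    simpa [zpow_ne_zero _ h0] using this
  have key : ∀ n : ℤ, γ ^ n * ∑ i ∈ d.support, d.coeff i * φ (x.coeff (n - i * (e : ℤ))) =
      (T.pw e he r).coeff n := by
    intro n
    rw [← h, mul_comm (T.emb _ _ _ _ _ _), T.coeff_eval₂_mul, Finset.mul_sum]
    refine Finset.sum_congr rfl fun i _ => ?_
    have : γ ^ n = (γ ^ e) ^ i * γ ^ (n - i * (e : ℤ)) := by
      rw [← pow_mul, ← zpow_natCast, ← zpow_add₀ h0]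
      congr 1
      push_cast
      ring
    rw [T.coeff_emb, this]
    ring
  obtain ⟨δ, hδ, hdis⟩ := exists_discrete φ hφ d.support d.coeff
  have hfin : {m : ℤ | ¬ ‖(c2 / γ ^ e) ^ m * r.coeff m‖ < δ}.Finite := by
    have := (tendsto_zero_iff_norm_tendsto_zero.1 hr).eventually (gt_mem_nhds hδ)
    exact eventually_cofinite.1 this
  obtain ⟨M, hM⟩ := hfin.bddAbove
  obtain ⟨i0, hi0⟩ := Polynomial.support_nonempty.2 hd
  refine rational_of_eventually φ e he _ (e : ℤ) (Or.inl rfl) (Or.inl rfl) j hC hX x hx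
    d.support d.coeff ⟨i0, hi0, Polynomial.mem_support_iff.1 hi0⟩ (e * max M 0) fun n hn => ?_
  by_cases hd' : (e : ℤ) ∣ n
  · obtain ⟨m, rfl⟩ := hd'
    have hm : max M 0 < m := lt_of_mul_lt_mul_left hn he'.le
    have h1 : ‖(c2 / γ ^ e) ^ m * r.coeff m‖ < δ := by
      by_contra h2
      exact absurd (hM h2) (by omega)
    refine hdis (fun i => x.coeff (e * m - i * (e : ℤ))) (lt_of_le_of_lt ?_ h1)
    have h3 := key (e * m)
    rw [T.coeff_pw_mul] at h3
    rw [← h3, ← mul_assoc, zpow_mul, zpow_natCast, ← mul_zpow, div_mul_cancel₀ _ hγe, norm_mul,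
      norm_zpow]
    exact le_mul_of_one_le_left (norm_nonneg _) (one_le_zpow₀ hc (by omega))
  · have h3 := key n
    rw [T.coeff_pw, if_neg hd'] at h3
    exact (mul_eq_zero.1 h3).resolve_left (zpow_ne_zero _ h0)

theorem rat_B (φ : k →+* C) (hφ : ∀ x, ‖φ x‖ ≤ 1) (γ : C) (h0 : γ ≠ 0) (hγ : ‖γ‖ < 1) (e : ℕ)
    (he : 0 < e) (c : C) (hc : c ≠ 0) (j : RatFunc k →+* LaurentSeries k)
    (hC : ∀ x, j (RatFunc.C x) = HahnSeries.C x)
    (hX : j RatFunc.X = HahnSeries.single (e : ℤ) 1) (x : LaurentSeries k)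
    (d : Polynomial C) (hd : d ≠ 0) (r : T C) (hr : r ∈ T.Tm C)
    (h : T.emb φ hφ γ h0 hγ x * d.eval₂ T.cst (T.mono (-(e : ℤ)) c) = T.pw e he r) :
    ∃ f, j f = x := by
  have hx : ∀ n : ℤ, ¬ (e : ℤ) ∣ n → x.coeff n = 0 := by
    intro n hn
    have := supp_Rat e he _ (Or.inr rfl) c hc _ d hd r h n hn
    simpa [zpow_ne_zero _ h0] using this
  refine rational_of_eventually φ e he _ (-(e : ℤ)) (Or.inl rfl) (Or.inr rfl) j hC hX x hx
    d.support (fun i => d.coeff i * (c ^ i * γ ^ ((i : ℤ) * e)))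
    (lead_Rat d hd _ fun i => mul_ne_zero (pow_ne_zero _ hc) (zpow_ne_zero _ h0)) 0 fun n hn => ?_
  have h1 := congrArg (fun f : T C => f.coeff n) h
  have h2 : (T.pw e he r).coeff n = 0 := by
    rw [T.coeff_pw]
    split_ifs with h3
    · exact hr _ (Int.ediv_pos_of_pos_of_dvd hn (by positivity) h3)
    · rfl
  simp only [h2] at h1
  rw [mul_comm, T.coeff_eval₂_mul] at h1
  apply mul_left_cancel₀ (zpow_ne_zero n h0)
  rw [mul_zero, ← h1, Finset.mul_sum]
  refine Finset.sum_congr rfl fun i _ => ?_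
  rw [T.coeff_emb, show n - i * -(e : ℤ) = n + i * e by ring, zpow_add₀ h0]
  ring

end Pool.Agent.Adm

end

section

/-! Abstract patching of three packages along two fields. -/

namespace Pool.Agent.Adm

section aux
variable {G : Type} [Group G] [Fintype G] [DecidableEq G]

theorem real_cmb_P2 {Q W : Type} [CommRing Q] [CommRing W] {pk : Pkg Q G} {ψ : Q →+* W}
    {P : Matrix G G W} {Γ : pk.N →+* (G → W)} (h : pk.Real ψ P Γ) (v : G → Q) :
    Γ (∑ l, pk.i (v l) * pk.b l) = P.mulVec (fun l => ψ (v l)) := by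
  funext g
  rw [map_sum, Finset.sum_apply]
  refine Finset.sum_congr rfl fun l _ => ?_
  rw [map_mul, Pi.mul_apply, h.1, h.2.1, mul_comm]

theorem real_inj_P2 {Q W : Type} [CommRing Q] [CommRing W] {pk : Pkg Q G} {ψ : Q →+* W}
    {P : Matrix G G W} {Γ : pk.N →+* (G → W)} (h : pk.Real ψ P Γ) (hψ : Function.Injective ψ)
    (hP : IsUnit P) : Function.Injective Γ := by
  rw [injective_iff_map_eq_zero]
  intro n hn
  obtain ⟨v, rfl⟩ := pk.span n
  rw [real_cmb_P2 h, ← P.mulVec_zero] at hn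
  have h1 := Matrix.mulVec_injective_of_isUnit hP hn
  refine Finset.sum_eq_zero fun l _ => ?_
  have h2 : v l = 0 := hψ (by rw [map_zero]; exact congrFun h1 l)
  rw [h2, map_zero, zero_mul]

/-- Change of generators of a package. -/
def Pkg.chg_P2 {Q : Type} [CommRing Q] (pk : Pkg Q G) (U : Matrix G G Q) (hU : IsUnit U) :
    Pkg Q G where
  N := pk.N
  i := pk.i
  b := fun l => ∑ j, pk.i (U j l) * pk.b j
  ρ := pk.ρ
  span := fun n => by
    obtain ⟨w, rfl⟩ := pk.span n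
    obtain ⟨v, rfl⟩ := Matrix.mulVec_surjective_iff_isUnit.2 hU w
    refine ⟨v, ?_⟩
    simp only [Matrix.mulVec, dotProduct, map_sum, map_mul, Finset.sum_mul, Finset.mul_sum]
    rw [Finset.sum_comm]
    exact Finset.sum_congr rfl fun _ _ => Finset.sum_congr rfl fun _ _ => by ring
  ρ_i := pk.ρ_i

theorem real_chg_P2 {Q W : Type} [CommRing Q] [CommRing W] {pk : Pkg Q G} {ψ : Q →+* W}
    {P : Matrix G G W} {Γ : pk.N →+* (G → W)} (h : pk.Real ψ P Γ) (U : Matrix G G Q)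
    (hU : IsUnit U) : (pk.chg_P2 U hU).Real ψ (P * U.map ψ) Γ :=
  ⟨h.1, fun l g => congrFun (real_cmb_P2 h (fun j => U j l)) g, h.2.2⟩

theorem abs_P2 {K B E : Type} [Field K] [CommRing B] [Algebra K B] [Field E]
    (Φ : B →+* (G → E)) (hΦ : Function.Injective Φ) (σ : G → B →+* B)
    (hσ : ∀ g x h, Φ (σ g x) h = Φ x (h * g))
    (hK : ∀ r h h', Φ (algebraMap K B r) h = Φ (algebraMap K B r) h') (b : G → B)
    (P : Matrix G G E) (hP : IsUnit P) (hb : ∀ l h, Φ (b l) h = P h l)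
    (hs : ∀ x, ∃ r : G → K, x = ∑ l, algebraMap K B (r l) * b l)
    (hc : ∀ (x : B) (S : Set G), (∀ h ∈ S, Φ x h = 1) → (∀ h ∉ S, Φ x h = 0) →
      S = ∅ ∨ S = Set.univ) :
    IsField B ∧ Module.Finite K B ∧ Module.finrank K B ≤ Nat.card G ∧
      ∃ ρ : G →* (B ≃ₐ[K] B), Function.Injective ρ ∧ ∀ g x, ρ g x = σ g x := by
  have hsp : Submodule.span K (Set.range b) = ⊤ := by
    rw [eq_top_iff]
    intro x _
    obtain ⟨r, rfl⟩ := hs x
    refine Submodule.sum_mem _ fun l _ => ?_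
    rw [← Algebra.smul_def]
    exact Submodule.smul_mem _ _ (Submodule.subset_span ⟨l, rfl⟩)
  have hfin : Module.Finite K B := ⟨Submodule.fg_def.2 ⟨_, Set.finite_range b, hsp⟩⟩
  have : Nontrivial B := Φ.domain_nontrivial
  have : IsReduced B := isReduced_of_injective Φ hΦ
  have e1 : ∀ x, σ 1 x = x := fun x => hΦ (funext fun h => by rw [hσ, mul_one])
  have e2 : ∀ g g' x, σ (g * g') x = σ g (σ g' x) := fun g g' x =>
    hΦ (funext fun h => by rw [hσ, hσ, hσ, mul_assoc])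
  have e3 : ∀ g r, σ g (algebraMap K B r) = algebraMap K B r := fun g r =>
    hΦ (funext fun h => by rw [hσ]; exact hK r _ _)
  let τ : G → B →ₐ[K] B := fun g => { σ g with commutes' := e3 g }
  let ρ : G →* (B ≃ₐ[K] B) :=
    { toFun := fun g => AlgEquiv.ofAlgHom (τ g) (τ g⁻¹)
        (AlgHom.ext fun x => (e2 g g⁻¹ x).symm.trans (by rw [mul_inv_cancel]; exact e1 x))
        (AlgHom.ext fun x => (e2 g⁻¹ g x).symm.trans (by rw [inv_mul_cancel]; exact e1 x))
      map_one' := AlgEquiv.ext e1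
      map_mul' := fun g g' => AlgEquiv.ext (e2 g g') }
  refine ⟨isField_of_reduced (K := K) fun x hx => ?_, hfin, ?_, ρ, ?_, fun _ _ => rfl⟩
  · have h1 : ∀ h, Φ x h ≠ 1 → Φ x h = 0 := fun h k => by
      have h2 : Φ x h * Φ x h = Φ x h := by rw [← Pi.mul_apply, ← map_mul, hx]
      by_contra k'
      exact k (mul_left_cancel₀ k' (by rw [h2, mul_one]))
    rcases hc x {h | Φ x h = 1} (fun _ k => k) h1 with k | k
    · refine Or.inl (hΦ (funext fun h => ?_))
      rw [map_zero]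
      exact h1 h fun k' => (Set.ext_iff.1 k h).1 k'
    · refine Or.inr (hΦ (funext fun h => ?_))
      rw [map_one]
      exact (Set.ext_iff.1 k h).2 trivial
  · rw [Nat.card_eq_fintype_card]
    exact finrank_le_of_span_eq_top hsp
  · rw [injective_iff_map_eq_one]
    intro g hg
    have h1 : ∀ l, P g l = P 1 l := fun l => by
      have h2 : σ g (b l) = b l := DFunLike.congr_fun hg (b l)
      rw [← hb, ← hb, ← one_mul g, ← hσ, h2]
    have h3 := Matrix.vecMul_injective_of_isUnit hP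
      (a₁ := Pi.single g 1) (a₂ := Pi.single 1 1) (by
        funext l
        simp only [Matrix.single_one_vecMul, Matrix.row_apply]
        exact h1 l)
    by_contra k
    have h4 := congrFun h3 g
    rw [Pi.single_eq_same, Pi.single_eq_of_ne k] at h4
    exact one_ne_zero h4

theorem core_P2 {K QA QM QB E1 E2 : Type} [Field K]
    [CommRing QA] [CommRing QM] [CommRing QB] [Field E1] [Field E2]
    (κA : K →+* QA) (κM : K →+* QM) (κB : K →+* QB) (α : QA →+* E1) (μ1 : QM →+* E1)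
    (μ2 : QM →+* E2) (β : QB →+* E2) (hα : Function.Injective α) (hμ1 : Function.Injective μ1)
    (hβ : Function.Injective β)
    (hc1 : ∀ r, α (κA r) = μ1 (κM r)) (hc2 : ∀ r, μ2 (κM r) = β (κB r))
    (hint : ∀ a m b, α a = μ1 m → μ2 m = β b → ∃ r, κM r = m)
    (pA : Pkg QA G) (pM : Pkg QM G) (pB : Pkg QB G) (P1 : Matrix G G E1)
    (P2 : Matrix G G E2) (u1 : IsUnit P1) (u2 : IsUnit P2)
    (ΓA : pA.N →+* (G → E1)) (ΓM1 : pM.N →+* (G → E1))
    (ΓM2 : pM.N →+* (G → E2)) (ΓB : pB.N →+* (G → E2)) (hA : pA.Real α P1 ΓA)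
    (hM1 : pM.Real μ1 P1 ΓM1) (hM2 : pM.Real μ2 P2 ΓM2) (hB : pB.Real β P2 ΓB)
    (hconn : ∀ (a : pA.N) (m : pM.N) (b : pB.N) (S : Set G), ΓA a = ΓM1 m → ΓM2 m = ΓB b →
      (∀ h ∈ S, ΓM1 m h = 1) → (∀ h ∉ S, ΓM1 m h = 0) → S = ∅ ∨ S = Set.univ) :
    ∃ (B : Type) (_ : Field B) (_ : Algebra K B) (_ : FiniteDimensional K B) (_ : IsGalois K B)
      (ρ : G ≃* (B ≃ₐ[K] B)) (lA : B →+* pA.N) (lM : B →+* pM.N) (lB : B →+* pB.N),
      (∀ r, lA (algebraMap K B r) = pA.i (κA r)) ∧ (∀ r, lM (algebraMap K B r) = pM.i (κM r)) ∧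
      (∀ r, lB (algebraMap K B r) = pB.i (κB r)) ∧ (∀ g x, lA (ρ g x) = pA.ρ g (lA x)) ∧
      (∀ g x, lM (ρ g x) = pM.ρ g (lM x)) ∧ ∀ g x, lB (ρ g x) = pB.ρ g (lB x) := by
  let T := pA.N × pM.N × pB.N
  let fA : T →+* pA.N := RingHom.fst _ _
  let fM : T →+* pM.N := (RingHom.fst _ _).comp (RingHom.snd _ _)
  let fB : T →+* pB.N := (RingHom.snd _ _).comp (RingHom.snd _ _)
  let B : Subring T := (ΓA.comp fA).eqLocus (ΓM1.comp fM) ⊓ (ΓM2.comp fM).eqLocus (ΓB.comp fB)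
  have mem : ∀ x : T, x ∈ B ↔ ΓA x.1 = ΓM1 x.2.1 ∧ ΓM2 x.2.1 = ΓB x.2.2 := fun _ => Iff.rfl
  let Φ : B →+* (G → E1) := ΓM1.comp (fM.comp B.subtype)
  have hΦ : Function.Injective Φ := by
    rw [injective_iff_map_eq_zero]
    rintro ⟨⟨a, m, b⟩, hx⟩ h0
    obtain ⟨k1, k2⟩ := (mem _).1 hx
    have h0' : ΓM1 m = 0 := h0
    have j1 : m = 0 := real_inj_P2 hM1 hμ1 u1 (by rw [h0', map_zero])
    have j2 : a = 0 := real_inj_P2 hA hα u1 (by rw [map_zero, ← h0']; exact k1)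
    have j3 : b = 0 := real_inj_P2 hB hβ u2 (by
      rw [map_zero, ← map_zero ΓM2, ← j1]; exact k2.symm)
    subst j1 j2 j3
    rfl
  let ι : K →+* B := ((pA.i.comp κA).prod ((pM.i.comp κM).prod (pB.i.comp κB))).codRestrict B
    fun r => (mem _).2 ⟨funext fun h => (hA.1 _ h).trans ((hc1 r).trans (hM1.1 _ h).symm),
      funext fun h => (hM2.1 _ h).trans ((hc2 r).trans (hB.1 _ h).symm)⟩
  let : Algebra K B := ι.toAlgebra
  let σ : G → B →+* B := fun g =>
    (((pA.ρ g).prodMap ((pM.ρ g).prodMap (pB.ρ g))).comp B.subtype).codRestrict B fun x =>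
      (mem _).2 ⟨funext fun h => (hA.2.2 g _ h).trans
          ((congrFun ((mem _).1 x.2).1 _).trans (hM1.2.2 g _ h).symm),
        funext fun h => (hM2.2.2 g _ h).trans
          ((congrFun ((mem _).1 x.2).2 _).trans (hB.2.2 g _ h).symm)⟩
  let b : G → B := fun l => ⟨(pA.b l, pM.b l, pB.b l), (mem _).2
    ⟨funext fun h => (hA.2.1 l h).trans (hM1.2.1 l h).symm,
      funext fun h => (hM2.2.1 l h).trans (hB.2.1 l h).symm⟩⟩
  obtain ⟨hF, hfin, hrk, ρ, hρ, hρσ⟩ := abs_P2 (K := K) Φ hΦ σ (fun g x h => hM1.2.2 g _ h)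
    (fun r h h' => (hM1.1 _ h).trans (hM1.1 _ h').symm) b P1 u1 (fun l h => hM1.2.1 l h)
    (by
      rintro ⟨⟨a, m, b'⟩, hx⟩
      obtain ⟨k1, k2⟩ := (mem _).1 hx
      obtain ⟨vA, rfl⟩ := pA.span a
      obtain ⟨vM, rfl⟩ := pM.span m
      obtain ⟨vB, rfl⟩ := pB.span b'
      simp only [real_cmb_P2 hA, real_cmb_P2 hM1, real_cmb_P2 hM2, real_cmb_P2 hB] at k1 k2
      have j1 := Matrix.mulVec_injective_of_isUnit u1 k1
      have j2 := Matrix.mulVec_injective_of_isUnit u2 k2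
      choose r hr using fun l => hint (vA l) (vM l) (vB l) (congrFun j1 l) (congrFun j2 l)
      refine ⟨r, hΦ ?_⟩
      rw [map_sum]
      refine (map_sum ΓM1 _ _).trans (Finset.sum_congr rfl fun l _ => ?_)
      rw [← hr l]
      rfl)
    (fun x S => hconn x.1.1 x.1.2.1 x.1.2.2 S ((mem _).1 x.2).1 ((mem _).1 x.2).2)
  let : Field B := hF.toField
  obtain ⟨hG, hbij⟩ := galois_of_action ρ hρ hrk
  exact ⟨B, inferInstance, inferInstance, hfin, hG, MulEquiv.ofBijective ρ hbij,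
    fA.comp B.subtype, fM.comp B.subtype, fB.comp B.subtype, fun _ => rfl, fun _ => rfl,
    fun _ => rfl, fun g x => congrArg (fun z : B => z.1.1) (hρσ g x),
    fun g x => congrArg (fun z : B => z.1.2.1) (hρσ g x),
    fun g x => congrArg (fun z : B => z.1.2.2) (hρσ g x)⟩

end aux

theorem patch_abstract {K G QA QM QB E1 E2 : Type} [Field K] [Group G] [Fintype G]
    [DecidableEq G] [CommRing QA] [CommRing QM] [CommRing QB] [Field E1] [Field E2]
    (κA : K →+* QA) (κM : K →+* QM) (κB : K →+* QB) (α : QA →+* E1) (μ1 : QM →+* E1)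
    (μ2 : QM →+* E2) (β : QB →+* E2) (hα : Function.Injective α) (hμ1 : Function.Injective μ1)
    (hμ2 : Function.Injective μ2) (hβ : Function.Injective β)
    (hc1 : ∀ r, α (κA r) = μ1 (κM r)) (hc2 : ∀ r, μ2 (κM r) = β (κB r))
    (hint : ∀ a m b, α a = μ1 m → μ2 m = β b → ∃ r, κM r = m)
    (pA : Pkg QA G) (pM : Pkg QM G) (pB : Pkg QB G) (PA PM1 : Matrix G G E1)
    (PM2 PB : Matrix G G E2) (uA : IsUnit PA) (uM1 : IsUnit PM1) (uM2 : IsUnit PM2)
    (uB : IsUnit PB) (ΓA : pA.N →+* (G → E1)) (ΓM1 : pM.N →+* (G → E1))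
    (ΓM2 : pM.N →+* (G → E2)) (ΓB : pB.N →+* (G → E2)) (hA : pA.Real α PA ΓA)
    (hM1 : pM.Real μ1 PM1 ΓM1) (hM2 : pM.Real μ2 PM2 ΓM2) (hB : pB.Real β PB ΓB)
    (UA : Matrix G G QA) (UM : Matrix G G QM) (UB : Matrix G G QB) (vA : IsUnit UA)
    (vM : IsUnit UM) (vB : IsUnit UB) (h1 : PA * UA.map α = PM1 * UM.map μ1)
    (h2 : PM2 * UM.map μ2 = PB * UB.map β)
    (hconn : ∀ (a : pA.N) (m : pM.N) (b : pB.N) (S : Set G), ΓA a = ΓM1 m → ΓM2 m = ΓB b →
      (∀ h ∈ S, ΓM1 m h = 1) → (∀ h ∉ S, ΓM1 m h = 0) → S = ∅ ∨ S = Set.univ) :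
    ∃ (B : Type) (_ : Field B) (_ : Algebra K B) (_ : FiniteDimensional K B) (_ : IsGalois K B)
      (ρ : G ≃* (B ≃ₐ[K] B)) (lA : B →+* pA.N) (lM : B →+* pM.N) (lB : B →+* pB.N),
      (∀ r, lA (algebraMap K B r) = pA.i (κA r)) ∧ (∀ r, lM (algebraMap K B r) = pM.i (κM r)) ∧
      (∀ r, lB (algebraMap K B r) = pB.i (κB r)) ∧ (∀ g x, lA (ρ g x) = pA.ρ g (lA x)) ∧
      (∀ g x, lM (ρ g x) = pM.ρ g (lM x)) ∧ ∀ g x, lB (ρ g x) = pB.ρ g (lB x) := by
  have _ := hμ2
  have _ := uA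
  have _ := uB
  have a1 := real_chg_P2 hA UA vA
  have a2 := real_chg_P2 hB UB vB
  rw [h1] at a1
  rw [← h2] at a2
  exact core_P2 κA κM κB α μ1 μ2 β hα hμ1 hβ hc1 hc2 hint (pA.chg_P2 UA vA) (pM.chg_P2 UM vM)
    (pB.chg_P2 UB vB) _ _ (uM1.mul (vM.map μ1.mapMatrix)) (uM2.mul (vM.map μ2.mapMatrix))
    ΓA ΓM1 ΓM2 ΓB a1 (real_chg_P2 hM1 UM vM) (real_chg_P2 hM2 UM vM) a2 hconn

end Pool.Agent.Adm

end

section

/-! Bases of induced Galois algebras and transition matrices. -/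

namespace Pool.Agent.Adm

variable {k G : Type} [Field k] [Group G] [Fintype G] [DecidableEq G]

/-- The equivariant functions span all functions from G to L. -/
theorem Cover.span_inv_Ind1 (c : Cover k G) :
    Submodule.span c.L {v : G → c.L | ∀ (σ : c.L ≃ₐ[RatFunc k] c.L) (h : G),
      v (c.ι σ * h) = σ (v h)} = ⊤ := by
  classical
  by_contra hne
  obtain ⟨φ, hφ0, hφ⟩ := Submodule.exists_le_ker_of_lt_top _ (lt_top_iff_ne_top.2 hne)
  apply hφ0
  apply LinearMap.ext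
  intro v
  have hli : LinearIndependent c.L
      (fun σ : c.L ≃ₐ[RatFunc k] c.L => ((σ : c.L →* c.L) : c.L → c.L)) := by
    refine (linearIndependent_monoidHom c.L c.L).comp
      (fun σ : c.L ≃ₐ[RatFunc k] c.L => (σ : c.L →* c.L)) ?_
    intro σ τ hστ
    apply AlgEquiv.ext
    intro x
    exact DFunLike.congr_fun hστ x
  have key := Fintype.linearIndependent_iff.1 hli
    (fun σ => φ (fun h => σ (v ((c.ι σ)⁻¹ * h)))) ?_ 1
  · have h1 : (fun h => (1 : c.L ≃ₐ[RatFunc k] c.L) (v ((c.ι 1)⁻¹ * h))) = v := by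
      funext h
      simp
    simp only [h1] at key
    simpa using key
  · funext lam
    have hmem : (∑ σ : c.L ≃ₐ[RatFunc k] c.L, σ lam • fun h => σ (v ((c.ι σ)⁻¹ * h))) ∈
        {v : G → c.L | ∀ (σ : c.L ≃ₐ[RatFunc k] c.L) (h : G), v (c.ι σ * h) = σ (v h)} := by
      intro τ h
      simp only [Finset.sum_apply, Pi.smul_apply, smul_eq_mul, map_sum, map_mul]
      refine (Fintype.sum_equiv (Equiv.mulLeft τ) _ _ ?_).symm
      intro σ
      simp [mul_assoc]
    have h0 := hφ (Submodule.subset_span hmem)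
    rw [LinearMap.mem_ker, map_sum] at h0
    simp only [map_smul, smul_eq_mul] at h0
    simp only [Finset.sum_apply, Pi.smul_apply, smul_eq_mul, Pi.zero_apply]
    rw [← h0]
    refine Finset.sum_congr rfl ?_
    intro σ _
    rw [mul_comm]
    rfl

theorem Cover.exists_indBasis (c : Cover k G) : ∃ P : Matrix G G c.L, c.IndBasis P := by
  obtain ⟨b, hbW, hspan, hli⟩ := exists_linearIndependent c.L
    {v : G → c.L | ∀ (σ : c.L ≃ₐ[RatFunc k] c.L) (h : G), v (c.ι σ * h) = σ (v h)}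
  rw [c.span_inv_Ind1] at hspan
  have hsp : ⊤ ≤ Submodule.span c.L (Set.range ((↑) : b → (G → c.L))) := by
    rw [Subtype.range_coe, hspan]
  let B : Module.Basis b c.L (G → c.L) := Module.Basis.mk hli hsp
  let e : G ≃ b := (Pi.basisFun c.L G).indexEquiv B
  refine ⟨Matrix.of fun h i => (e i : G → c.L) h, ?_, ?_⟩
  · rw [← Matrix.linearIndependent_cols_iff_isUnit]
    exact hli.comp e e.injective
  · intro σ h i
    exact hbW (e i).2 σ h

/-- The solution of an equivariant linear system is fixed. -/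
theorem fixed_Ind1 {R' : Type} [CommRing R'] (s : R' →+* R') (g : G) (M1 M2 A : Matrix G G R')
    (hu : IsUnit M2) (h1 : ∀ h i, M1 (g * h) i = s (M1 h i))
    (h2 : ∀ h i, M2 (g * h) i = s (M2 h i)) (hA : M2 * A = M1) : ∀ i j, s (A i j) = A i j := by
  have h3 : M2 * A.map s = M2 * A := by
    rw [hA]
    ext h j
    obtain ⟨h', rfl⟩ : ∃ h', g * h' = h := ⟨g⁻¹ * h, by simp⟩
    rw [h1, ← hA, Matrix.mul_apply, Matrix.mul_apply, map_sum]
    refine Finset.sum_congr rfl ?_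
    intro l _
    rw [map_mul, h2, Matrix.map_apply]
  have h4 := hu.mul_left_cancel h3
  intro i j
  have := congrFun (congrFun h4 i) j
  rwa [Matrix.map_apply] at this

/-- Transition matrix between two induced algebras on a circle. -/
theorem exists_transition (c1 c2 : Cover k G) (P1 : Matrix G G c1.L) (P2 : Matrix G G c2.L)
    (h1 : c1.IndBasis P1) (h2 : c2.IndBasis P2) {R R' : Type} [CommRing R] [CommRing R']
    (p : R →+* R') (hp : Function.Injective p) (s : R' →+* R')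
    (hs : ∀ x, s x = x → ∃ y, p y = x) (J1 : c1.L →+* R') (J2 : c2.L →+* R')
    (σ1 : c1.L ≃ₐ[RatFunc k] c1.L) (σ2 : c2.L ≃ₐ[RatFunc k] c2.L) (hσ : c1.ι σ1 = c2.ι σ2)
    (hJ1 : ∀ x, J1 (σ1 x) = s (J1 x)) (hJ2 : ∀ x, J2 (σ2 x) = s (J2 x)) :
    ∃ A : Matrix G G R, IsUnit A ∧ P1.map J1 = P2.map J2 * A.map p := by
  have hu1 : IsUnit (P1.map J1) := h1.1.map J1.mapMatrix
  have hu2 : IsUnit (P2.map J2) := h2.1.map J2.mapMatrix
  have he1 : ∀ h i, (P1.map J1) (c2.ι σ2 * h) i = s ((P1.map J1) h i) := by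
    intro h i
    rw [Matrix.map_apply, Matrix.map_apply, ← hσ, h1.2, hJ1]
  have he2 : ∀ h i, (P2.map J2) (c2.ι σ2 * h) i = s ((P2.map J2) h i) := by
    intro h i
    rw [Matrix.map_apply, Matrix.map_apply, h2.2, hJ2]
  obtain ⟨u1, hu1'⟩ := hu1
  obtain ⟨u2, hu2'⟩ := hu2
  have hA : P2.map J2 * ((u2⁻¹ * u1 : (Matrix G G R')ˣ) : Matrix G G R') = P1.map J1 := by
    rw [← hu1', ← hu2', ← Units.val_mul, mul_inv_cancel_left]
  have hB : P1.map J1 * ((u1⁻¹ * u2 : (Matrix G G R')ˣ) : Matrix G G R') = P2.map J2 := by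
    rw [← hu1', ← hu2', ← Units.val_mul, mul_inv_cancel_left]
  have hfA := fixed_Ind1 s _ _ _ _ ⟨u2, hu2'⟩ he1 he2 hA
  have hfB := fixed_Ind1 s _ _ _ _ ⟨u1, hu1'⟩ he2 he1 hB
  choose A hAp using fun i j => hs _ (hfA i j)
  choose B hBp using fun i j => hs _ (hfB i j)
  have hA' : (Matrix.of A).map p = ((u2⁻¹ * u1 : (Matrix G G R')ˣ) : Matrix G G R') := by
    ext i j
    exact hAp i j
  have hB' : (Matrix.of B).map p = ((u1⁻¹ * u2 : (Matrix G G R')ˣ) : Matrix G G R') := by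
    ext i j
    exact hBp i j
  have hinj : Function.Injective (fun M : Matrix G G R => M.map p) := Matrix.map_injective hp
  have hAB : Matrix.of A * Matrix.of B = 1 := by
    apply hinj
    simp only
    rw [Matrix.map_mul, hA', hB', ← Units.val_mul, Matrix.map_one _ p.map_zero p.map_one]
    simp
  have hBA : Matrix.of B * Matrix.of A = 1 := by
    apply hinj
    simp only
    rw [Matrix.map_mul, hA', hB', ← Units.val_mul, Matrix.map_one _ p.map_zero p.map_one]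
    simp
  refine ⟨Matrix.of A, ⟨⟨Matrix.of A, Matrix.of B, hAB, hBA⟩, rfl⟩, ?_⟩
  rw [hA', hA]

end Pool.Agent.Adm

end

section

/-! Extension of scalars of induced Galois algebras. -/

namespace Pool.Agent.Adm

open scoped TensorProduct

theorem exists_pkg_Ind2 {F M Q G : Type} [CommRing F] [CommRing M] [Algebra F M] [CommRing Q]
    [Fintype G] (θ : F →+* Q) (b : G → M) (hb : ∀ m, ∃ v : G → F, m = ∑ l, v l • b l)
    (R : G → M →ₐ[F] M) :
    ∃ pk : Pkg Q G, ∀ (W : Type) [CommRing W] (f : Q →+* W) (g : M →+* W),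
      (∀ x, g (algebraMap F M x) = f (θ x)) →
      ∃ Γ : pk.N →+* W, (∀ q, Γ (pk.i q) = f q) ∧ (∀ l, Γ (pk.b l) = g (b l)) ∧
        ∀ (t : G) (T : W →+* W), (∀ q, T (f q) = f q) → (∀ m, T (g m) = g (R t m)) →
          ∀ n, Γ (pk.ρ t n) = T (Γ n) := by
  letI : Algebra F Q := θ.toAlgebra
  have hspan : ∀ n : Q ⊗[F] M, ∃ v : G → Q,
      n = ∑ l, (Algebra.TensorProduct.includeLeftRingHom (v l) : Q ⊗[F] M) *
        ((1 : Q) ⊗ₜ[F] b l) := by
    intro n
    induction n using TensorProduct.induction_on with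
    | zero => exact ⟨0, by simp⟩
    | tmul q m =>
      obtain ⟨v, rfl⟩ := hb m
      refine ⟨fun l => v l • q, ?_⟩
      rw [TensorProduct.tmul_sum]
      refine Finset.sum_congr rfl fun l _ => ?_
      rw [Algebra.TensorProduct.includeLeftRingHom_apply, Algebra.TensorProduct.tmul_mul_tmul,
        mul_one, one_mul, TensorProduct.smul_tmul]
    | add x y hx hy =>
      obtain ⟨v, rfl⟩ := hx
      obtain ⟨w, rfl⟩ := hy
      refine ⟨v + w, ?_⟩
      rw [← Finset.sum_add_distrib]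
      refine Finset.sum_congr rfl fun l _ => ?_
      rw [Pi.add_apply, map_add, add_mul]
  refine ⟨{ N := Q ⊗[F] M
            i := Algebra.TensorProduct.includeLeftRingHom
            b := fun l => (1 : Q) ⊗ₜ[F] b l
            ρ := fun t => (Algebra.TensorProduct.map (AlgHom.id F Q) (R t)).toRingHom
            span := hspan
            ρ_i := fun t q => by simp }, ?_⟩
  intro W _ f g hg
  letI : Algebra F W := (f.comp θ).toAlgebra
  let f' : Q →ₐ[F] W := { f with commutes' := fun _ => rfl }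
  let g' : M →ₐ[F] W := { g with commutes' := hg }
  have hl : ∀ (q : Q) (m : M),
      Algebra.TensorProduct.lift f' g' (fun _ _ => Commute.all _ _) (q ⊗ₜ[F] m) = f q * g m :=
    fun q m => Algebra.TensorProduct.lift_tmul _ _ _ q m
  refine ⟨(Algebra.TensorProduct.lift f' g' (fun _ _ => Commute.all _ _)).toRingHom, ?_, ?_, ?_⟩
  · intro q
    exact (hl q 1).trans (by rw [map_one, mul_one])
  · intro l
    exact (hl 1 (b l)).trans (by rw [map_one, one_mul])
  · intro t T h1 h2 n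
    show Algebra.TensorProduct.lift f' g' (fun _ _ => Commute.all _ _)
      (Algebra.TensorProduct.map (AlgHom.id F Q) (R t) n) =
        T (Algebra.TensorProduct.lift f' g' (fun _ _ => Commute.all _ _) n)
    induction n using TensorProduct.induction_on with
    | zero => rw [map_zero, map_zero, map_zero]
    | tmul q m =>
      rw [Algebra.TensorProduct.map_tmul, hl, hl, map_mul, h1, h2, AlgHom.id_apply]
    | add x y hx hy => rw [map_add, map_add, map_add, map_add, hx, hy]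

variable {k G : Type} [Field k] [Group G] [Fintype G] [DecidableEq G]

/-- The induced algebra as an algebra of equivariant functions. -/
def Cover.indAlg_Ind2 (c : Cover k G) : Subalgebra (RatFunc k) (G → c.L) where
  carrier := {f | ∀ (σ : c.L ≃ₐ[RatFunc k] c.L) (h : G), f (c.ι σ * h) = σ (f h)}
  mul_mem' := fun {a b} ha hb σ h => by
    rw [Pi.mul_apply, Pi.mul_apply, ha, hb, map_mul]
  add_mem' := fun {a b} ha hb σ h => by
    rw [Pi.add_apply, Pi.add_apply, ha, hb, map_add]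
  algebraMap_mem' := fun r σ h => (σ.commutes r).symm

/-- Right translation on the induced algebra. -/
def Cover.trans_Ind2 (c : Cover k G) (t : G) :
    c.indAlg_Ind2 →ₐ[RatFunc k] c.indAlg_Ind2 where
  toFun f := ⟨fun h => f.1 (h * t), fun σ h => by
    show f.1 (c.ι σ * h * t) = σ (f.1 (h * t))
    rw [mul_assoc]
    exact f.2 σ (h * t)⟩
  map_one' := rfl
  map_mul' _ _ := rfl
  map_zero' := rfl
  map_add' _ _ := rfl
  commutes' _ := rfl

theorem Cover.span_Ind2 (c : Cover k G) (P : Matrix G G c.L) (hP : c.IndBasis P)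
    (f : G → c.L) (hf : f ∈ c.indAlg_Ind2) :
    ∃ v : G → RatFunc k, ∀ h, f h = ∑ l, v l • P h l := by
  have hinj : Function.Injective P.mulVec := Matrix.mulVec_injective_iff_isUnit.2 hP.1
  obtain ⟨w, hw⟩ := Matrix.mulVec_surjective_iff_isUnit.2 hP.1 f
  have hfix : ∀ (σ : c.L ≃ₐ[RatFunc k] c.L) (l : G), σ (w l) = w l := by
    intro σ
    have : P.mulVec (fun l => σ (w l)) = P.mulVec w := by
      rw [hw]
      funext h
      obtain ⟨h', rfl⟩ : ∃ h', h = c.ι σ * h' := ⟨(c.ι σ)⁻¹ * h, by simp⟩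
      rw [hf σ h', ← hw]
      simp only [Matrix.mulVec, dotProduct, map_sum, map_mul, hP.2]
    exact fun l => congrFun (hinj this) l
  have hr : ∀ l, ∃ x : RatFunc k, algebraMap (RatFunc k) c.L x = w l := fun l =>
    (IsGalois.mem_range_algebraMap_iff_fixed (w l)).2 fun σ => hfix σ l
  choose v hv using hr
  refine ⟨v, fun h => ?_⟩
  rw [← hw]
  simp only [Matrix.mulVec, dotProduct, Algebra.smul_def, hv]
  exact Finset.sum_congr rfl fun l _ => mul_comm _ _

/-- The package obtained by extending scalars of the induced algebra along θ. -/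
theorem Cover.exists_pkg (c : Cover k G) (P : Matrix G G c.L) (hP : c.IndBasis P) {Q : Type}
    [CommRing Q] (θ : RatFunc k →+* Q) :
    ∃ pk : Pkg Q G, ∀ (W : Type) [CommRing W] (ψ : Q →+* W) (j : c.L →+* W),
      (∀ f, j (algebraMap (RatFunc k) c.L f) = ψ (θ f)) →
      ∃ Γ : pk.N →+* (G → W), pk.Real ψ (P.map j) Γ := by
  obtain ⟨pk, hpk⟩ := exists_pkg_Ind2 (F := RatFunc k) (M := c.indAlg_Ind2) θ
    (fun l => ⟨fun h => P h l, fun σ h => hP.2 σ h l⟩) (by
      intro m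
      obtain ⟨v, hv⟩ := c.span_Ind2 P hP m.1 m.2
      refine ⟨v, Subtype.ext (funext fun h => ?_)⟩
      rw [hv h, AddSubmonoidClass.coe_finsetSum, Finset.sum_apply]
      rfl) c.trans_Ind2
  refine ⟨pk, fun W _ ψ j hj => ?_⟩
  obtain ⟨Γ, h1, h2, h3⟩ := hpk (G → W) (RingHom.pi fun _ => ψ)
    (RingHom.pi fun h => j.comp ((Pi.evalRingHom (fun _ : G => c.L) h).comp
      c.indAlg_Ind2.val.toRingHom)) (fun x => funext fun _ => hj x)
  refine ⟨Γ, fun q h => by rw [h1]; rfl, fun l h => by rw [h2]; rfl, fun t n h => ?_⟩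
  rw [h3 t (RingHom.pi fun h => Pi.evalRingHom (fun _ : G => W) (h * t)) (fun _ => rfl)
    (fun _ => rfl) n]
  rfl

end Pool.Agent.Adm

end

section



end

section

/-! Patching of three coverings. -/

namespace Pool.Agent.Adm

/-- Monodromy data of c pass to c' through every chart of Q. -/
def Transfer {k C G Q : Type} [Field k] [Field C] [Group G] [CommRing Q] (c : Cover k G)
    (c' : Cover C G) (θ : RatFunc k →+* RatFunc C) (κ : RatFunc C →+* Q) : Prop :=
  ∀ (W : Type) [CommRing W] (ψ : Q →+* W) (s : W →+* W) (φ : k →+* W) (φ' : C →+* W) (u u' : W)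
    (g : G), (∀ q, s (ψ q) = ψ q) → (∀ x, ψ (κ (θ (RatFunc.C x))) = φ x) →
    ψ (κ (θ RatFunc.X)) = u → (∀ x, ψ (κ (RatFunc.C x)) = φ' x) → ψ (κ RatFunc.X) = u' →
    c.RMono φ u s g → c'.RMono φ' u' s g

theorem transfer_P3 {k C G Q : Type} [Field k] [Field C] [Group G] [Fintype G] [DecidableEq G]
    [CommRing Q] (c : Cover k G) (c' : Cover C G) (θ : RatFunc k →+* RatFunc C)
    (κ : RatFunc C →+* Q) (P : Matrix G G c.L) (hP : c.IndBasis P) (pk : Pkg Q G)
    (hpk : ∀ (W : Type) [CommRing W] (ψ : Q →+* W) (j : c.L →+* W),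
      (∀ f, j (algebraMap (RatFunc k) c.L f) = ψ (κ.comp θ f)) →
      ∃ Γ : pk.N →+* (G → W), pk.Real ψ (P.map j) Γ)
    (l : c'.L →+* pk.N) (hl : ∀ r, l (algebraMap (RatFunc C) c'.L r) = pk.i (κ r))
    (hρ : ∀ g, ∃ σ, c'.ι σ = g ∧ ∀ x, l (σ x) = pk.ρ g (l x)) : Transfer c c' θ κ := by
  rintro W _ ψ s φ φ' u u' g hs h1 h2 h3 h4 ⟨j, j1, j2, σ, rfl, hσ⟩
  have e : j.comp (algebraMap (RatFunc k) c.L) = ψ.comp (κ.comp θ) :=
    ratFunc_hom_ext _ _ (fun x => (j1 x).trans (h1 x).symm) (j2.trans h2.symm)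
  obtain ⟨Γ, hΓ⟩ := hpk W ψ j fun f => DFunLike.congr_fun e f
  obtain ⟨σ', e1, e2⟩ := hρ (c.ι σ)
  refine ⟨(Pi.evalRingHom (fun _ : G => W) 1).comp (Γ.comp l), fun x => ?_, ?_, σ', e1, fun x => ?_⟩
  · show Γ (l _) 1 = _
    rw [hl, hΓ.1, h3]
  · show Γ (l _) 1 = _
    rw [hl, hΓ.1, h4]
  · show Γ (l _) 1 = s (Γ (l x) 1)
    rw [e2]
    exact c.real_equivariant P hP pk ψ j Γ hΓ s hs σ hσ _

open scoped Pointwise in
theorem conn_P3 {G : Type} [Group G] (H1 H2 H3 : Subgroup G) (hG : H1 ⊔ H2 ⊔ H3 = ⊤) (S : Set G)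
    (h1 : ∀ r ∈ H1, ∀ h, r * h ∈ S ↔ h ∈ S) (h2 : ∀ r ∈ H2, ∀ h, r * h ∈ S ↔ h ∈ S)
    (h3 : ∀ r ∈ H3, ∀ h, r * h ∈ S ↔ h ∈ S) : S = ∅ ∨ S = Set.univ := by
  have h : (⊤ : Subgroup G) ≤ MulAction.stabilizer G S := by
    rw [← hG]
    exact sup_le (sup_le (fun r hr => MulAction.mem_stabilizer_set.2 (h1 r hr))
      fun r hr => MulAction.mem_stabilizer_set.2 (h2 r hr))
      fun r hr => MulAction.mem_stabilizer_set.2 (h3 r hr)
  rcases S.eq_empty_or_nonempty with h0 | ⟨x, hx⟩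
  · exact Or.inl h0
  refine Or.inr (Set.eq_univ_of_forall fun y => ?_)
  have := (MulAction.mem_stabilizer_set.1 (h (Subgroup.mem_top (y * x⁻¹))) x).2 hx
  rwa [smul_eq_mul, inv_mul_cancel_right] at this

theorem patch3 {k C G QA QM QB E1 E2 : Type} [Field k] [Field C] [Group G] [Fintype G]
    [DecidableEq G] [CommRing QA] [CommRing QM] [CommRing QB] [Field E1] [Field E2]
    (cA cM cB : Cover k G) (hG : cA.ι.range ⊔ cM.ι.range ⊔ cB.ι.range = ⊤)
    (θA θM θB : RatFunc k →+* RatFunc C) (κA : RatFunc C →+* QA) (κM : RatFunc C →+* QM)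
    (κB : RatFunc C →+* QB) (α : QA →+* E1) (μ1 : QM →+* E1) (μ2 : QM →+* E2) (β : QB →+* E2)
    (hα : Function.Injective α) (hμ1 : Function.Injective μ1) (hμ2 : Function.Injective μ2)
    (hβ : Function.Injective β) (hc1 : ∀ r, α (κA r) = μ1 (κM r))
    (hc2 : ∀ r, μ2 (κM r) = β (κB r))
    (hint : ∀ a m b, α a = μ1 m → μ2 m = β b → ∃ r, κM r = m)
    (JA : cA.L →+* E1) (JM1 : cM.L →+* E1) (JM2 : cM.L →+* E2) (JB : cB.L →+* E2)
    (hJA : ∀ f, JA (algebraMap (RatFunc k) cA.L f) = α (κA (θA f)))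
    (hJM1 : ∀ f, JM1 (algebraMap (RatFunc k) cM.L f) = μ1 (κM (θM f)))
    (hJM2 : ∀ f, JM2 (algebraMap (RatFunc k) cM.L f) = μ2 (κM (θM f)))
    (hJB : ∀ f, JB (algebraMap (RatFunc k) cB.L f) = β (κB (θB f)))
    (ratA : ∀ l q, JA l = α q → ∃ f, algebraMap (RatFunc k) cA.L f = l)
    (ratM : ∀ l q, JM1 l = μ1 q → ∃ f, algebraMap (RatFunc k) cM.L f = l)
    (ratB : ∀ l q, JB l = β q → ∃ f, algebraMap (RatFunc k) cB.L f = l)
    (PA : Matrix G G cA.L) (PM : Matrix G G cM.L) (PB : Matrix G G cB.L) (bA : cA.IndBasis PA)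
    (bM : cM.IndBasis PM) (bB : cB.IndBasis PB) (UA : Matrix G G QA) (UM : Matrix G G QM)
    (UB : Matrix G G QB) (vA : IsUnit UA) (vM : IsUnit UM) (vB : IsUnit UB)
    (h1 : PA.map JA * UA.map α = PM.map JM1 * UM.map μ1)
    (h2 : PM.map JM2 * UM.map μ2 = PB.map JB * UB.map β) :
    ∃ c : Cover C G, c.ι.range = ⊤ ∧ Transfer cA c θA κA ∧ Transfer cM c θM κM ∧
      Transfer cB c θB κB := by
  obtain ⟨pA, hpA⟩ := cA.exists_pkg PA bA (κA.comp θA)
  obtain ⟨pM, hpM⟩ := cM.exists_pkg PM bM (κM.comp θM)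
  obtain ⟨pB, hpB⟩ := cB.exists_pkg PB bB (κB.comp θB)
  obtain ⟨ΓA, hA⟩ := hpA E1 α JA hJA
  obtain ⟨ΓM1, hM1⟩ := hpM E1 μ1 JM1 hJM1
  obtain ⟨ΓM2, hM2⟩ := hpM E2 μ2 JM2 hJM2
  obtain ⟨ΓB, hB⟩ := hpB E2 β JB hJB
  obtain ⟨B, _, _, _, _, ρ, lA, lM, lB, a1, a2, a3, b1, b2, b3⟩ :=
    patch_abstract κA κM κB α μ1 μ2 β hα hμ1 hμ2 hβ hc1 hc2 hint pA pM pB (PA.map JA) (PM.map JM1)
      (PM.map JM2) (PB.map JB) (bA.1.map JA.mapMatrix) (bM.1.map JM1.mapMatrix)
      (bM.1.map JM2.mapMatrix) (bB.1.map JB.mapMatrix) ΓA ΓM1 ΓM2 ΓB hA hM1 hM2 hB UA UM UB vA vM vB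
      h1 h2 (fun a m b S e1 e2 s1 s0 => by
        obtain ⟨iM, t⟩ := cM.idem_invariant PM bM (κM.comp θM) pM μ1 hμ1 JM1 hJM1 ratM ΓM1 hM1 m S
          s1 s0
        obtain ⟨t1, t0⟩ := t E2 μ2 JM2 ΓM2 hJM2 hM2
        rw [← e1] at s1 s0
        rw [e2] at t1 t0
        exact conn_P3 _ _ _ hG S
          (cA.idem_invariant PA bA (κA.comp θA) pA α hα JA hJA ratA ΓA hA a S s1 s0).1 iM
          (cB.idem_invariant PB bB (κB.comp θB) pB β hβ JB hJB ratB ΓB hB b S t1 t0).1)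
  let c : Cover C G := { L := B, ι := ρ.symm.toMonoidHom }
  have hc : ∀ g, c.ι (ρ g) = g := fun g => ρ.symm_apply_apply g
  exact ⟨c, MonoidHom.range_eq_top.2 fun g => ⟨ρ g, hc g⟩,
    transfer_P3 cA c θA κA PA bA pA hpA lA a1 fun g => ⟨ρ g, hc g, b1 g⟩,
    transfer_P3 cM c θM κM PM bM pM hpM lM a2 fun g => ⟨ρ g, hc g, b2 g⟩,
    transfer_P3 cB c θB κB PB bB pB hpB lB a3 fun g => ⟨ρ g, hc g, b3 g⟩⟩

end Pool.Agent.Adm

end

section

/-! Smoothing two nodes at once: construction of the covering. -/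

namespace Pool.Agent.Adm

open scoped OnePoint

theorem node_S2a {k C G : Type} [Field k] [NormedField C] [CompleteSpace C]
    [IsUltrametricDist C] [IsAlgClosed C] [Group G] [Fintype G] [DecidableEq G] (φ : k →+* C)
    (hφ : ∀ x, ‖φ x‖ ≤ 1) (t : C) (h0 : t ≠ 0) (ht : ‖t‖ < 1) (c c' : Cover k G)
    (h : Glue c c') (P : Matrix G G c.L) (P' : Matrix G G c'.L) (hP : c.IndBasis P)
    (hP' : c'.IndBasis P') :
    ∃ (e : ℕ) (he : 0 < e) (γ : C) (g0 : γ ≠ 0) (g1 : ‖γ‖ < 1) (j : c.L →+* LaurentSeries k)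
      (j' : c'.L →+* LaurentSeries k), (γ ^ e) ^ 2 = t ∧
      (∀ x, j (algebraMap (RatFunc k) c.L (RatFunc.C x)) = HahnSeries.C x) ∧
      j (algebraMap (RatFunc k) c.L RatFunc.X) = HahnSeries.single (-(e : ℤ)) 1 ∧
      (∀ x, j' (algebraMap (RatFunc k) c'.L (RatFunc.C x)) = HahnSeries.C x) ∧
      j' (algebraMap (RatFunc k) c'.L RatFunc.X) = HahnSeries.single (e : ℤ) 1 ∧
      (∃ A : Matrix G G (T C), IsUnit A ∧ P.map (T.flip.comp ((T.emb φ hφ γ g0 g1).comp j)) =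
        P'.map ((T.emb φ hφ γ g0 g1).comp j') * A.map (T.pw e he)) ∧
      ∃ A : Matrix G G (T C), IsUnit A ∧ P'.map ((T.emb φ hφ γ g0 g1).comp j') =
        P.map (T.flip.comp ((T.emb φ hφ γ g0 g1).comp j)) * A.map (T.pw e he) := by
  obtain ⟨e, ζ, g, ⟨he, hζ, j, j1, j2, σ, j3, j4⟩, ⟨-, hζ', j', k1, k2, σ', k3, k4⟩⟩ := h
  obtain ⟨γ, hγ⟩ := IsAlgClosed.exists_pow_nat_eq t (n := e * 2) (by omega)
  have g0 : γ ≠ 0 := by
    rintro rfl
    rw [zero_pow (by omega)] at hγ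
    exact h0 hγ.symm
  have g1 : ‖γ‖ < 1 := by
    by_contra h1
    rw [← hγ, norm_pow] at ht
    exact absurd (one_le_pow₀ (not_lt.1 h1)) (not_le.2 ht)
  have hz : ζ⁻¹ ≠ 0 := hζ'.ne_zero he.ne'
  have hn : ‖φ ζ⁻¹‖ = 1 := T.norm_phi φ hφ _ hz
  have hs := T.exists_pw_of_sc e he (φ ζ⁻¹) hn (hζ'.map_of_injective φ.injective)
  have a1 : ∀ x, (T.flip.comp ((T.emb φ hφ γ g0 g1).comp j)) (σ x) =
      T.sc (φ ζ⁻¹) hn ((T.flip.comp ((T.emb φ hφ γ g0 g1).comp j)) x) := by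
    intro x
    ext n
    simp only [RingHom.comp_apply, T.coeff_flip, T.coeff_emb, T.coeff_sc, j4, map_mul, map_zpow₀,
      map_inv₀, inv_zpow']
    ring
  have a2 : ∀ x, ((T.emb φ hφ γ g0 g1).comp j') (σ' x) =
      T.sc (φ ζ⁻¹) hn (((T.emb φ hφ γ g0 g1).comp j') x) := by
    intro x
    ext n
    simp only [RingHom.comp_apply, T.coeff_emb, T.coeff_sc, k4, map_mul, map_zpow₀]
    ring
  refine ⟨e, he, γ, g0, g1, j, j', by rw [← pow_mul, hγ], j1, j2, k1, ?_,
    exists_transition c c' P P' hP hP' (T.pw e he) (T.pw_injective e he) _ hs _ _ σ σ'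
      (j3.trans k3.symm) a1 a2,
    exists_transition c' c P' P hP' hP (T.pw e he) (T.pw_injective e he) _ hs _ _ σ' σ
      (k3.trans j3.symm) a2 a1⟩
  rw [k2]
  simp [expand]

theorem agree_S2a {k C L Q : Type} [Field k] [NormedField C] [CompleteSpace C]
    [IsUltrametricDist C] [Field L] [Algebra (RatFunc k) L] [CommRing Q] (φ : k →+* C)
    (J : L →+* T C) (e : ℤ) (a b c : C) (hab : b * c = a)
    (hC : ∀ x, J (algebraMap (RatFunc k) L (RatFunc.C x)) = T.cst (φ x))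
    (hX : J (algebraMap (RatFunc k) L RatFunc.X) = T.mono e a)
    (θ : RatFunc k →+* RatFunc C) (tC : ∀ x, θ (RatFunc.C x) = RatFunc.C (φ x))
    (tX : θ RatFunc.X = RatFunc.C b * RatFunc.X) (κ : RatFunc C →+* Q)
    (α : Q →+* FractionRing (T C)) (aC : ∀ x, α (κ (RatFunc.C x)) = iT (T.cst x))
    (aX : α (κ RatFunc.X) = iT (T.mono e c)) (f : RatFunc k) :
    (iT.comp J) (algebraMap (RatFunc k) L f) = α (κ (θ f)) := by
  have h : (iT.comp J).comp (algebraMap (RatFunc k) L) = α.comp (κ.comp θ) := by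
    apply ratFunc_hom_ext
    · intro x
      simp only [RingHom.comp_apply]
      rw [hC, tC, aC]
    · simp only [RingHom.comp_apply]
      rw [hX, tX, map_mul, map_mul, aC, aX, ← map_mul, T.cst_apply, T.mono_mul_mono, zero_add, hab]
  exact DFunLike.congr_fun h f

theorem map_S2a {G L R R' : Type} [Fintype G] [CommRing L] [CommRing R] [CommRing R']
    {L' : Type} [CommRing L'] (P : Matrix G G L) (P' : Matrix G G L') (J : L →+* R)
    (J' : L' →+* R) (p : R →+* R) (i : R →+* R') (A : Matrix G G R)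
    (h : P.map J = P'.map J' * A.map p) :
    P.map (i.comp J) = P'.map (i.comp J') * A.map (i.comp p) := by
  have h1 := congrArg (fun M : Matrix G G R => M.map i) h
  simp only [Matrix.map_mul, Matrix.map_map] at h1
  exact h1

theorem smooth_core {k C G : Type} [Field k] [NormedField C] [CompleteSpace C]
    [IsUltrametricDist C] [IsAlgClosed C] [Group G] [Finite G] (φ : k →+* C)
    (hφ : ∀ x, ‖φ x‖ ≤ 1) (tA tB : C) (hA0 : tA ≠ 0) (hA : ‖tA‖ < 1) (hB0 : tB ≠ 0)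
    (hB : ‖tB‖ < 1) (cA cM cB : Cover k G) (hG : cA.ι.range ⊔ cM.ι.range ⊔ cB.ι.range = ⊤)
    (h1 : Glue cA cM) (h2 : Glue cM cB) (θA θM θB : RatFunc k →+* RatFunc C)
    (hAC : ∀ x, θA (RatFunc.C x) = RatFunc.C (φ x)) (hAX : θA RatFunc.X = RatFunc.C tA⁻¹ * RatFunc.X)
    (hMC : ∀ x, θM (RatFunc.C x) = RatFunc.C (φ x)) (hMX : θM RatFunc.X = RatFunc.X)
    (hBC : ∀ x, θB (RatFunc.C x) = RatFunc.C (φ x)) (hBX : θB RatFunc.X = RatFunc.C tB * RatFunc.X) :
    ∃ (c1 c2 : C) (e1 e2 : ℕ) (he1 : 0 < e1) (he2 : 0 < e2) (an : AnPkg c1 c2 e1 e2 he1 he2)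
      (c : Cover C G), c1 ^ 2 = tA ∧ c2 ^ 2 * tB = 1 ∧ c.ι.range = ⊤ ∧
      Transfer cA c θA an.κA ∧ Transfer cM c θM an.κM ∧ Transfer cB c θB an.κB := by
  classical
  have := Fintype.ofFinite G
  obtain ⟨PA, bA⟩ := cA.exists_indBasis
  obtain ⟨PM, bM⟩ := cM.exists_indBasis
  obtain ⟨PB, bB⟩ := cB.exists_indBasis
  obtain ⟨e1, he1, γ, g0, g1, jA, jM, g2, a1, a2, m1, m2, ⟨A1, uA1, eA1⟩, -⟩ :=
    node_S2a φ hφ tA hA0 hA cA cM h1 PA PM bA bM
  obtain ⟨e2, he2, δ, d0, d1, jN, jB, d2, n1, n2, b1, b2, -, ⟨A2, uA2, eA2⟩⟩ :=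
    node_S2a φ hφ tB hB0 hB cM cB h2 PM PB bM bB
  have ge : γ ^ e1 ≠ 0 := pow_ne_zero _ g0
  have de : δ ^ e2 ≠ 0 := pow_ne_zero _ d0
  have hc2 : 1 ≤ ‖(δ ^ e2)⁻¹‖ := by
    rw [norm_inv, norm_pow]
    exact (one_le_inv₀ (pow_pos (norm_pos_iff.2 d0) _)).2 (pow_le_one₀ (norm_nonneg _) d1.le)
  have hc1 : ‖γ ^ e1‖ ≤ 1 := by
    rw [norm_pow]
    exact pow_le_one₀ (norm_nonneg _) g1.le
  obtain ⟨an⟩ := nonempty_anPkg (γ ^ e1) (δ ^ e2)⁻¹ ge (hc1.trans hc2) e1 e2 he1 he2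
  obtain ⟨UA, UM, UB, vA, vM, vB, f1, f2⟩ := an.factor G A1 A2 uA1 uA2
  have hMX' : θM RatFunc.X = RatFunc.C (1 : C) * RatFunc.X := by rw [hMX, map_one, one_mul]
  have fl : ∀ x : C, T.flip (T.cst x) = T.cst x := fun x => by
    rw [T.cst_apply, T.flip_mono, neg_zero]
  have k1 : an.α.comp an.κA = an.μ1.comp an.κM :=
    ratFunc_hom_ext _ _ (fun x => (an.α_C x).trans (an.μ1_C x).symm) (an.α_X.trans an.μ1_X.symm)
  have k2 : an.μ2.comp an.κM = an.β.comp an.κB :=
    ratFunc_hom_ext _ _ (fun x => (an.μ2_C x).trans (an.β_C x).symm) (an.μ2_X.trans an.β_X.symm)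
  obtain ⟨c, r1, r2, r3, r4⟩ := patch3 cA cM cB hG θA θM θB an.κA an.κM an.κB an.α an.μ1 an.μ2 an.β
    an.α_inj an.μ1_inj an.μ2_inj an.β_inj (fun r => DFunLike.congr_fun k1 r)
    (fun r => DFunLike.congr_fun k2 r) an.inter
    (iT.comp (T.flip.comp ((T.emb φ hφ γ g0 g1).comp jA)))
    (iT.comp ((T.emb φ hφ γ g0 g1).comp jM))
    (iT.comp (T.flip.comp ((T.emb φ hφ δ d0 d1).comp jN)))
    (iT.comp ((T.emb φ hφ δ d0 d1).comp jB))
    (agree_S2a φ _ e1 (γ ^ e1)⁻¹ tA⁻¹ (γ ^ e1) (by rw [← g2]; field_simp)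
      (fun x => by simp only [RingHom.comp_apply]; rw [a1, T.emb_C, fl])
      (by
        simp only [RingHom.comp_apply]
        rw [a2, T.emb_single, T.flip_mono, neg_neg, map_one, mul_one, zpow_neg, zpow_natCast])
      θA hAC hAX an.κA an.α an.α_C an.α_X)
    (agree_S2a φ _ e1 (γ ^ e1) 1 (γ ^ e1) (one_mul _)
      (fun x => by simp only [RingHom.comp_apply]; rw [m1, T.emb_C])
      (by
        simp only [RingHom.comp_apply]
        rw [m2, T.emb_single, map_one, mul_one, zpow_natCast])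
      θM hMC hMX' an.κM an.μ1 an.μ1_C an.μ1_X)
    (agree_S2a φ _ e2 (δ ^ e2)⁻¹ 1 (δ ^ e2)⁻¹ (one_mul _)
      (fun x => by simp only [RingHom.comp_apply]; rw [n1, T.emb_C, fl])
      (by
        simp only [RingHom.comp_apply]
        rw [n2, T.emb_single, T.flip_mono, neg_neg, map_one, mul_one, zpow_neg, zpow_natCast])
      θM hMC hMX' an.κM an.μ2 an.μ2_C an.μ2_X)
    (agree_S2a φ _ e2 (δ ^ e2) tB (δ ^ e2)⁻¹ (by rw [← d2]; field_simp)
      (fun x => by simp only [RingHom.comp_apply]; rw [b1, T.emb_C])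
      (by
        simp only [RingHom.comp_apply]
        rw [b2, T.emb_single, map_one, mul_one, zpow_natCast])
      θB hBC hBX an.κB an.β an.β_C an.β_X)
    (fun l q hl => by
      obtain ⟨d, hd, r, hr, h⟩ := an.fracA q
      rw [← hl, RingHom.comp_apply, ← map_mul] at h
      obtain ⟨f, hf⟩ := rat_A φ hφ γ g0 g1 e1 he1 _ ge (jA.comp (algebraMap (RatFunc k) cA.L)) a1
        a2 (jA l) d hd r hr (iT_inj_An h)
      exact ⟨f, jA.injective hf⟩)
    (fun l q hl => by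
      obtain ⟨d, hd, r, hr, h⟩ := an.fracM q
      rw [← hl, RingHom.comp_apply, ← map_mul] at h
      obtain ⟨f, hf⟩ := rat_M φ hφ γ g0 g1 e1 he1 _ hc2 (jM.comp (algebraMap (RatFunc k) cM.L)) m1
        m2 (jM l) d hd r hr (iT_inj_An h)
      exact ⟨f, jM.injective hf⟩)
    (fun l q hl => by
      obtain ⟨d, hd, r, hr, h⟩ := an.fracB q
      rw [← hl, RingHom.comp_apply, ← map_mul] at h
      obtain ⟨f, hf⟩ := rat_B φ hφ δ d0 d1 e2 he2 _ (inv_ne_zero (inv_ne_zero de))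
        (jB.comp (algebraMap (RatFunc k) cB.L)) b1 b2 (jB l) d hd r hr (iT_inj_An h)
      exact ⟨f, jB.injective hf⟩)
    PA PM PB bA bM bB UA UM UB vA vM vB
    (by rw [map_S2a _ _ _ _ _ iT _ eA1, Matrix.mul_assoc, f1])
    (by rw [map_S2a _ _ _ _ _ iT _ eA2, Matrix.mul_assoc, f2])
  exact ⟨γ ^ e1, (δ ^ e2)⁻¹, e1, e2, he1, he2, an, c, g2, by rw [← d2]; field_simp, r1, r2, r3, r4⟩

end Pool.Agent.Adm

end

section

/-! Smoothing two nodes at once. -/

namespace Pool.Agent.Adm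

open scoped OnePoint

/-- A chart of Q in which the coordinate has the expansion U. -/
def ChartS2 {C Q : Type} [Field C] [CommRing Q] (κ : RatFunc C →+* Q) (U : LaurentSeries C) :
    Prop :=
  ∃ ψ : Q →+* LaurentSeries C, (∀ c, ψ (κ (RatFunc.C c)) = HahnSeries.C c) ∧
    ψ (κ RatFunc.X) = U ∧
    ∀ (ζ : C) (h : ζ ≠ 0), scL ζ h U = U → ∀ q, scL ζ h (ψ q) = ψ q

theorem C_mul_single_S2 {C : Type} [Field C] (a s : C) (n : ℤ) :
    (HahnSeries.C a * HahnSeries.single n s : LaurentSeries C) = HahnSeries.single n (a * s) := by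
  rw [HahnSeries.C_apply, HahnSeries.single_mul_single, zero_add]

theorem inv_single_S2 {C : Type} [Field C] (s : C) (hs : s ≠ 0) (n : ℤ) :
    (HahnSeries.single n s : LaurentSeries C)⁻¹ = HahnSeries.single (-n) s⁻¹ := by
  symm
  apply eq_inv_of_mul_eq_one_left
  rw [HahnSeries.single_mul_single, neg_add_cancel, inv_mul_cancel₀ hs]
  rfl

theorem coe_ps_S2 {C : Type} [Field C] (x s : C) (e : ℕ) :
    ((PowerSeries.C x + PowerSeries.C s * PowerSeries.X ^ e : PowerSeries C) : LaurentSeries C) =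
      HahnSeries.C x + HahnSeries.single (e : ℤ) s := by
  rw [map_add, map_mul, map_pow, HahnSeries.ofPowerSeries_C, HahnSeries.ofPowerSeries_C,
    HahnSeries.ofPowerSeries_X, HahnSeries.single_pow, C_mul_single_S2]
  simp

theorem cc_ps_S2 {C : Type} [Field C] (x s : C) (e : ℕ) (he : 0 < e) :
    PowerSeries.constantCoeff
      (PowerSeries.C x + PowerSeries.C s * PowerSeries.X ^ e : PowerSeries C) = x := by
  simp [he.ne']

theorem eval₂_hom_S2 {k W W' : Type} [Field k] [Field W] [Field W'] (φ : k →+* W) (u : W)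
    (j : W →+* W') (P : Polynomial k) (h : P.eval₂ (j.comp φ) (j u) ≠ 0) : P.eval₂ φ u ≠ 0 := by
  intro h0
  apply h
  rw [← Polynomial.hom_eval₂, h0, map_zero]

theorem exists_theta_S2 {k C : Type} [Field k] [Field C] (φ : k →+* C) (a : C) (ha : a ≠ 0) :
    ∃ θ : RatFunc k →+* RatFunc C, (∀ x, θ (RatFunc.C x) = RatFunc.C (φ x)) ∧
      θ RatFunc.X = RatFunc.C a * RatFunc.X := by
  refine exists_ratFunc_hom ((RatFunc.C : C →+* RatFunc C).comp φ) (RatFunc.C a * RatFunc.X) ?_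
  intro P hP
  obtain ⟨j, hC, hX⟩ := exists_chart (∞ : OnePoint C) 1 one_pos
  refine eval₂_hom_S2 _ _ j P ?_
  have h1 : j.comp ((RatFunc.C : C →+* RatFunc C).comp φ) =
      (HahnSeries.C : C →+* LaurentSeries C).comp φ := by
    refine RingHom.ext fun x => ?_
    simp only [RingHom.comp_apply, hC]
  have h2 : j (RatFunc.C a * RatFunc.X) = HahnSeries.C 0 + HahnSeries.single (-1 : ℤ) a := by
    rw [map_mul, hC, hX, map_zero, zero_add]
    change HahnSeries.C a * HahnSeries.single (-((1 : ℕ) : ℤ)) 1 = _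
    rw [C_mul_single_S2]
    simp
  rw [h1, h2, ← Polynomial.eval₂_map]
  exact eval₂_ne_zero_of_single 0 a ha (-1) (by decide) _ (Polynomial.map_ne_zero hP)

theorem eval₂_inv_S2 {C : Type} [Field C] (U : LaurentSeries C)
    (hU : ∀ P : Polynomial C, P ≠ 0 → P.eval₂ HahnSeries.C U ≠ 0) (P : Polynomial C)
    (hP : P ≠ 0) : P.eval₂ HahnSeries.C U⁻¹ ≠ 0 := by
  obtain ⟨j, hC, hX⟩ := exists_ratFunc_hom HahnSeries.C U hU
  obtain ⟨j', hC', hX'⟩ := exists_chart (∞ : OnePoint C) 1 one_pos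
  have h1 : j.comp (RatFunc.C : C →+* RatFunc C) = HahnSeries.C := RingHom.ext hC
  have h1' : j'.comp (RatFunc.C : C →+* RatFunc C) = HahnSeries.C := RingHom.ext hC'
  have h2 : P.eval₂ (RatFunc.C : C →+* RatFunc C) RatFunc.X⁻¹ ≠ 0 := by
    refine eval₂_hom_S2 _ _ j' P ?_
    have h3 : j' RatFunc.X⁻¹ = HahnSeries.C 0 + HahnSeries.single (1 : ℤ) 1 := by
      rw [map_inv₀, hX', map_zero, zero_add]
      change (HahnSeries.single (-((1 : ℕ) : ℤ)) 1 : LaurentSeries C)⁻¹ = _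
      rw [inv_single_S2 _ one_ne_zero]
      simp
    rw [h1', h3]
    exact eval₂_ne_zero_of_single 0 1 one_ne_zero 1 one_ne_zero P hP
  have h4 := (map_ne_zero j).2 h2
  rwa [Polynomial.hom_eval₂, h1, map_inv₀, hX] at h4

section charts

variable {C : Type} [NormedField C] [CompleteSpace C] [IsUltrametricDist C] {c1 c2 : C}
  {e1 e2 : ℕ} {he1 : 0 < e1} {he2 : 0 < e2}

theorem chartA_S2 (an : AnPkg c1 c2 e1 e2 he1 he2) (x s : C) (hs : s ≠ 0) (e : ℕ) (he : 0 < e)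
    (hx : ‖x‖ ≤ ‖c1‖) : ChartS2 an.κA (HahnSeries.C x + HahnSeries.single (e : ℤ) s) := by
  have := an.evA (PowerSeries.C x + PowerSeries.C s * PowerSeries.X ^ e)
    (by rwa [cc_ps_S2 x s e he])
    (by rw [coe_ps_S2]; exact eval₂_ne_zero_of_single x s hs e (by exact_mod_cast he.ne'))
  rwa [coe_ps_S2] at this

theorem chartM_S2 (an : AnPkg c1 c2 e1 e2 he1 he2) (x s : C) (hs : s ≠ 0) (e : ℕ) (he : 0 < e)
    (hx : ‖c1‖ ≤ ‖x‖) (hx' : ‖x‖ ≤ ‖c2‖) :
    ChartS2 an.κM (HahnSeries.C x + HahnSeries.single (e : ℤ) s) := by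
  have := an.evM (PowerSeries.C x + PowerSeries.C s * PowerSeries.X ^ e)
    (by rwa [cc_ps_S2 x s e he]) (by rwa [cc_ps_S2 x s e he])
    (by rw [coe_ps_S2]; exact eval₂_ne_zero_of_single x s hs e (by exact_mod_cast he.ne'))
  rwa [coe_ps_S2] at this

theorem chartB0_S2 (an : AnPkg c1 c2 e1 e2 he1 he2) (u : PowerSeries C) (U : LaurentSeries C)
    (hu : (u : LaurentSeries C) = U⁻¹) (hx : ‖PowerSeries.constantCoeff u‖ ≤ ‖c2‖⁻¹)
    (hU : ∀ P : Polynomial C, P ≠ 0 → P.eval₂ HahnSeries.C U ≠ 0) : ChartS2 an.κB U := by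
  obtain ⟨ψ, h1, h2, h3⟩ := an.evB u hx (by rw [hu]; exact eval₂_inv_S2 U hU)
  refine ⟨ψ, h1, by rw [h2, hu, inv_inv], fun ζ h hζ => h3 ζ h ?_⟩
  rw [hu, map_inv₀, hζ]

theorem chartB_S2 (an : AnPkg c1 c2 e1 e2 he1 he2) (x s : C) (hs : s ≠ 0) (e : ℕ) (he : 0 < e)
    (hc : c2 ≠ 0) (hx : ‖c2‖ ≤ ‖x‖) :
    ChartS2 an.κB (HahnSeries.C x + HahnSeries.single (e : ℤ) s) := by
  have hc' : 0 < ‖c2‖ := norm_pos_iff.2 hc
  have hx0 : x ≠ 0 := norm_pos_iff.1 (hc'.trans_le hx)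
  refine chartB0_S2 an (PowerSeries.C x + PowerSeries.C s * PowerSeries.X ^ e)⁻¹ _ ?_ ?_
    (eval₂_ne_zero_of_single x s hs e (by exact_mod_cast he.ne'))
  · rw [← coe_ps_S2]
    apply eq_inv_of_mul_eq_one_left
    rw [← map_mul, PowerSeries.inv_mul_cancel _ (by rwa [cc_ps_S2 x s e he]), map_one]
  · rw [PowerSeries.constantCoeff_inv, cc_ps_S2 x s e he, norm_inv]
    exact inv_anti₀ hc' hx

theorem chartI_S2 (an : AnPkg c1 c2 e1 e2 he1 he2) (s : C) (hs : s ≠ 0) (e : ℕ) (he : 0 < e) :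
    ChartS2 an.κB (HahnSeries.single (-(e : ℤ)) s) := by
  refine chartB0_S2 an (PowerSeries.C 0 + PowerSeries.C s⁻¹ * PowerSeries.X ^ e) _ ?_ ?_ ?_
  · rw [coe_ps_S2, inv_single_S2 s hs, map_zero, zero_add, neg_neg]
  · rw [cc_ps_S2 _ _ e he, norm_zero]
    positivity
  · have := eval₂_ne_zero_of_single 0 s hs (-(e : ℤ)) (by
      rw [neg_ne_zero]; exact_mod_cast he.ne')
    rwa [map_zero, zero_add] at this

end charts

section transfer

variable {k C G Q : Type} [Field k] [Field C] [Group G] [CommRing Q] {c0 : Cover k G}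
  {c : Cover C G} {θ : RatFunc k →+* RatFunc C} {κ : RatFunc C →+* Q} {φ : k →+* C} {a : C}

theorem transfer_S2 (hT : Transfer c0 c θ κ) (hC : ∀ x, θ (RatFunc.C x) = RatFunc.C (φ x))
    (hX : θ RatFunc.X = RatFunc.C a * RatFunc.X) {U : LaurentSeries C} (hU : ChartS2 κ U)
    {ζ : C} (h : ζ ≠ 0) (hζ : scL ζ h U = U) {g : G}
    (hr : c0.RMono ((HahnSeries.C : C →+* LaurentSeries C).comp φ) (HahnSeries.C a * U)
      (scL ζ h) g) : c.RMono HahnSeries.C U (scL ζ h) g := by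
  obtain ⟨ψ, h1, h2, h3⟩ := hU
  exact hT _ ψ (scL ζ h) _ _ _ U g (h3 ζ h hζ) (fun x => by rw [hC, h1]; rfl)
    (by rw [hX, map_mul, map_mul, h1, h2]) h1 h2 hr

theorem rmono_map_S2 (φ : k →+* C) {b : OnePoint k} {e : ℕ} {ζ : k} {g : G}
    (hm : c0.Mono b e ζ g) (h : φ ζ ≠ 0) :
    c0.RMono ((HahnSeries.C : C →+* LaurentSeries C).comp φ) (expand (b.map φ) e)
      (scL (φ ζ) h) g := by
  have := hm.rmono.comp (mapL φ) (scL (φ ζ) h) (fun x => mapL_scL φ ζ _ x)
  have h1 : (mapL φ).comp (HahnSeries.C : k →+* LaurentSeries k) =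
      (HahnSeries.C : C →+* LaurentSeries C).comp φ := RingHom.ext fun x => mapL_C φ x
  rwa [h1, mapL_expand] at this

variable [IsAlgClosed C]

theorem point_S2 (hT : Transfer c0 c θ κ) (hC : ∀ x, θ (RatFunc.C x) = RatFunc.C (φ x))
    (hX : θ RatFunc.X = RatFunc.C a * RatFunc.X) (ha : a ≠ 0) (x : C) {e : ℕ} (he : 0 < e)
    {ζ : C} (hζ : IsPrimitiveRoot ζ e)
    (hU : ChartS2 κ (HahnSeries.C x + HahnSeries.single (e : ℤ) a⁻¹)) {g : G}
    (hr : c0.RMono ((HahnSeries.C : C →+* LaurentSeries C).comp φ)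
      (HahnSeries.C (a * x) + HahnSeries.single (e : ℤ) 1) (scL ζ (hζ.ne_zero he.ne')) g) :
    c.Mono (x : OnePoint C) e ζ g := by
  refine Cover.RMono.mono_of_scaled he hζ x a⁻¹ (inv_ne_zero ha)
    (transfer_S2 hT hC hX hU _ ?_ ?_)
  · rw [map_add, scL_C, scL_single, zpow_natCast, hζ.pow_eq_one, one_mul]
  · rwa [mul_add, C_mul_single_S2, ← map_mul, mul_inv_cancel₀ ha]

theorem point_alg_S2 (hT : Transfer c0 c θ κ) (hC : ∀ x, θ (RatFunc.C x) = RatFunc.C (φ x))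
    (hX : θ RatFunc.X = RatFunc.C a * RatFunc.X) (ha : a ≠ 0) (x : C) (y : k) (hy : a * x = φ y)
    (hU : ∀ e : ℕ, 0 < e → ChartS2 κ (HahnSeries.C x + HahnSeries.single (e : ℤ) a⁻¹))
    {e : ℕ} {ζ : k} {g : G} (hm : c0.Mono (y : OnePoint k) e ζ g) :
    c.Mono (x : OnePoint C) e (φ ζ) g := by
  have hζ : IsPrimitiveRoot (φ ζ) e := hm.2.1.map_of_injective φ.injective
  refine point_S2 hT hC hX ha x hm.1 hζ (hU e hm.1) ?_
  rw [hy]
  exact rmono_map_S2 φ hm _

theorem point_tr_S2 [IsAlgClosed k] (hT : Transfer c0 c θ κ)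
    (hC : ∀ x, θ (RatFunc.C x) = RatFunc.C (φ x))
    (hX : θ RatFunc.X = RatFunc.C a * RatFunc.X) (ha : a ≠ 0) (x : C) (hy : ∀ y, a * x ≠ φ y)
    (hU : ∀ e : ℕ, 0 < e → ChartS2 κ (HahnSeries.C x + HahnSeries.single (e : ℤ) a⁻¹)) :
    c.Mono (x : OnePoint C) 1 1 1 := by
  refine point_S2 hT hC hX ha x one_pos IsPrimitiveRoot.one (hU 1 one_pos) ?_
  have := c0.rmono_transcendental φ (a * x) (fun ⟨y, h⟩ => hy y h.symm)
  have h1 : scL (1 : C) one_ne_zero = RingHom.id _ := RingHom.ext scL_one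
  rw [← h1] at this
  exact this

theorem infty_S2 (hT : Transfer c0 c θ κ) (hC : ∀ x, θ (RatFunc.C x) = RatFunc.C (φ x))
    (hX : θ RatFunc.X = RatFunc.C a * RatFunc.X) (ha : a ≠ 0)
    (hU : ∀ e : ℕ, 0 < e → ChartS2 κ (HahnSeries.single (-(e : ℤ)) a⁻¹))
    {e : ℕ} {ζ : k} {g : G} (hm : c0.Mono ∞ e ζ g) : c.Mono ∞ e (φ ζ) g := by
  have hζ : IsPrimitiveRoot (φ ζ) e := hm.2.1.map_of_injective φ.injective
  refine Cover.RMono.mono_infty_of_scaled hm.1 hζ a⁻¹ (inv_ne_zero ha)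
    (transfer_S2 hT hC hX (hU e hm.1) _ ?_ ?_)
  · rw [scL_single, zpow_neg, zpow_natCast, hζ.pow_eq_one, inv_one, one_mul]
  · rw [C_mul_single_S2, mul_inv_cancel₀ ha]
    exact rmono_map_S2 φ hm _

end transfer

theorem smooth_top {k C G : Type} [Field k] [IsAlgClosed k] [NormedField C] [CompleteSpace C]
    [IsUltrametricDist C] [IsAlgClosed C] [Group G] [Finite G] (φ : k →+* C)
    (hφ : ∀ x, ‖φ x‖ ≤ 1) (tA tB : C) (hA0 : tA ≠ 0) (hA : ‖tA‖ < 1) (hB0 : tB ≠ 0)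
    (hB : ‖tB‖ < 1) (cA cM cB : Cover k G) (hG : cA.ι.range ⊔ cM.ι.range ⊔ cB.ι.range = ⊤)
    (h1 : Glue cA cM) (h2 : Glue cM cB) :
    ∃ c : Cover C G, c.ι.range = ⊤ ∧
      (∀ (y : k) e ζ g, cA.Mono (y : OnePoint k) e ζ g →
        c.Mono ((tA * φ y : C) : OnePoint C) e (φ ζ) g) ∧
      (∀ (y : k) e ζ g, y ≠ 0 → cM.Mono (y : OnePoint k) e ζ g →
        c.Mono ((φ y : C) : OnePoint C) e (φ ζ) g) ∧
      (∀ (y : k) e ζ g, y ≠ 0 → cB.Mono (y : OnePoint k) e ζ g →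
        c.Mono ((φ y / tB : C) : OnePoint C) e (φ ζ) g) ∧
      (∀ e ζ g, cB.Mono ∞ e ζ g → c.Mono ∞ e (φ ζ) g) ∧
      ∀ x : C, (∀ y, x ≠ tA * φ y) → (∀ y, x ≠ φ y) → (∀ y, x ≠ φ y / tB) →
        c.Mono (x : OnePoint C) 1 1 1 := by
  obtain ⟨θA, hAC, hAX⟩ := exists_theta_S2 φ tA⁻¹ (inv_ne_zero hA0)
  obtain ⟨θM, hMC, hMX⟩ := exists_theta_S2 φ 1 one_ne_zero
  obtain ⟨θB, hBC, hBX⟩ := exists_theta_S2 φ tB hB0
  obtain ⟨c1, c2, e1, e2, he1, he2, an, c, hc1, hc2, hc, TA, TM, TB⟩ :=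
    smooth_core φ hφ tA tB hA0 hA hB0 hB cA cM cB hG h1 h2 θA θM θB hAC hAX hMC
      (by rw [hMX, map_one, one_mul]) hBC hBX
  have n1 : ‖c1‖ ^ 2 = ‖tA‖ := by rw [← hc1, norm_pow]
  have n2 : ‖c2‖ ^ 2 * ‖tB‖ = 1 := by rw [← norm_pow, ← norm_mul, hc2, norm_one]
  have p1 : 0 ≤ ‖c1‖ := norm_nonneg _
  have p2 : 0 ≤ ‖c2‖ := norm_nonneg _
  have pB : 0 < ‖tB‖ := norm_pos_iff.2 hB0
  have l1 : ‖c1‖ ≤ 1 := by nlinarith
  have l2 : 1 ≤ ‖c2‖ := by
    by_contra h
    have h' : ‖c2‖ < 1 := lt_of_not_ge h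
    have h3 : ‖c2‖ ^ 2 ≤ 1 := by nlinarith
    nlinarith
  have hc20 : c2 ≠ 0 := norm_pos_iff.1 (by linarith)
  have iA : tA⁻¹⁻¹ ≠ 0 := inv_ne_zero (inv_ne_zero hA0)
  have iM : (1 : C)⁻¹ ≠ 0 := inv_ne_zero one_ne_zero
  have iB : tB⁻¹ ≠ 0 := inv_ne_zero hB0
  refine ⟨c, hc, fun y e ζ g hm => ?_, fun y e ζ g hy hm => ?_, fun y e ζ g hy hm => ?_,
    fun e ζ g hm => ?_, fun x xA xM xB => ?_⟩
  · refine point_alg_S2 TA hAC hAX (inv_ne_zero hA0) _ y (inv_mul_cancel_left₀ hA0 _)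
      (fun e he => chartA_S2 an _ _ iA e he ?_) hm
    rw [norm_mul, ← n1]
    have := hφ y
    have := norm_nonneg (φ y)
    have h3 : ‖c1‖ ^ 2 * ‖φ y‖ ≤ ‖c1‖ ^ 2 * 1 := by gcongr
    nlinarith
  · have := T.norm_phi φ hφ y hy
    exact point_alg_S2 TM hMC hMX one_ne_zero _ y (one_mul _)
      (fun e he => chartM_S2 an _ _ iM e he (by rwa [this]) (by rwa [this])) hm
  · refine point_alg_S2 TB hBC hBX hB0 _ y (mul_div_cancel₀ _ hB0)
      (fun e he => chartB_S2 an _ _ iB e he hc20 ?_) hm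
    rw [norm_div, T.norm_phi φ hφ y hy, le_div_iff₀ pB]
    have h3 : ‖c2‖ * ‖tB‖ * 1 ≤ ‖c2‖ * ‖tB‖ * ‖c2‖ := by gcongr
    nlinarith
  · exact infty_S2 TB hBC hBX hB0 (fun e he => chartI_S2 an _ iB e he) hm
  · rcases le_total ‖x‖ ‖c1‖ with hx | hx
    · refine point_tr_S2 TA hAC hAX (inv_ne_zero hA0) x (fun y hy => xA y ?_)
        (fun e he => chartA_S2 an _ _ iA e he hx)
      rw [← hy, mul_inv_cancel_left₀ hA0]
    · rcases le_total ‖x‖ ‖c2‖ with hx' | hx'
      · refine point_tr_S2 TM hMC hMX one_ne_zero x (fun y hy => xM y ?_)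
          (fun e he => chartM_S2 an _ _ iM e he hx hx')
        rw [← hy, one_mul]
      · refine point_tr_S2 TB hBC hBX hB0 x (fun y hy => xB y ?_)
          (fun e he => chartB_S2 an _ _ iB e he hc20 hx')
        rw [← hy, mul_div_cancel_left₀ _ hB0]

theorem Glue.restr_S2 {k G : Type} [Field k] [Group G] {c c' : Cover k G} (h : Glue c c')
    (H : Subgroup G) (hc : c.ι.range ≤ H) (hc' : c'.ι.range ≤ H) :
    Glue (c.restr H hc) (c'.restr H hc') := by
  obtain ⟨e, ζ, g, h1, h2⟩ := h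
  exact ⟨e, ζ, _, h1.restr H hc, h2.restr H hc'⟩

theorem smooth_two {k C G : Type} [Field k] [IsAlgClosed k] [NormedField C] [CompleteSpace C]
    [IsUltrametricDist C] [IsAlgClosed C] [Group G] [Finite G] (φ : k →+* C)
    (hφ : ∀ x, ‖φ x‖ ≤ 1) (tA tB : C) (hA0 : tA ≠ 0) (hA : ‖tA‖ < 1) (hB0 : tB ≠ 0)
    (hB : ‖tB‖ < 1) (cA cM cB : Cover k G) (h1 : Glue cA cM) (h2 : Glue cM cB) :
    ∃ c : Cover C G, c.ι.range = cA.ι.range ⊔ cM.ι.range ⊔ cB.ι.range ∧
      (∀ (y : k) e ζ g, cA.Mono (y : OnePoint k) e ζ g →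
        c.Mono ((tA * φ y : C) : OnePoint C) e (φ ζ) g) ∧
      (∀ (y : k) e ζ g, y ≠ 0 → cM.Mono (y : OnePoint k) e ζ g →
        c.Mono ((φ y : C) : OnePoint C) e (φ ζ) g) ∧
      (∀ (y : k) e ζ g, y ≠ 0 → cB.Mono (y : OnePoint k) e ζ g →
        c.Mono ((φ y / tB : C) : OnePoint C) e (φ ζ) g) ∧
      (∀ e ζ g, cB.Mono ∞ e ζ g → c.Mono ∞ e (φ ζ) g) ∧
      ∀ x : C, (∀ y, x ≠ tA * φ y) → (∀ y, x ≠ φ y) → (∀ y, x ≠ φ y / tB) →
        c.Mono (x : OnePoint C) 1 1 1 := by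
  obtain ⟨H, hH⟩ : ∃ H, H = cA.ι.range ⊔ cM.ι.range ⊔ cB.ι.range := ⟨_, rfl⟩
  have hAH : cA.ι.range ≤ H := hH ▸ le_sup_left.trans le_sup_left
  have hMH : cM.ι.range ≤ H := hH ▸ le_sup_right.trans le_sup_left
  have hBH : cB.ι.range ≤ H := hH ▸ le_sup_right
  have hG : (cA.restr H hAH).ι.range ⊔ (cM.restr H hMH).ι.range ⊔ (cB.restr H hBH).ι.range = ⊤ := by
    apply Subgroup.map_injective H.subtype_injective
    rw [Cover.restr_range, Cover.restr_range, Cover.restr_range, Subgroup.map_sup,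
      Subgroup.map_sup, Subgroup.map_subgroupOf_eq_of_le hAH, Subgroup.map_subgroupOf_eq_of_le hMH,
      Subgroup.map_subgroupOf_eq_of_le hBH, ← MonoidHom.range_eq_map, Subgroup.range_subtype, hH]
  obtain ⟨c, hc, mA, mM, mB, mI, mT⟩ := smooth_top φ hφ tA tB hA0 hA hB0 hB _ _ _ hG
    (h1.restr_S2 H hAH hMH) (h2.restr_S2 H hMH hBH)
  refine ⟨c.map H.subtype, ?_, fun y e ζ g hm => (mA y e ζ _ (hm.restr H hAH)).map H.subtype,
    fun y e ζ g hy hm => (mM y e ζ _ hy (hm.restr H hMH)).map H.subtype,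
    fun y e ζ g hy hm => (mB y e ζ _ hy (hm.restr H hBH)).map H.subtype,
    fun e ζ g hm => (mI e ζ _ (hm.restr H hBH)).map H.subtype,
    fun x xA xM xB => (mT x xA xM xB).map H.subtype⟩
  rw [Cover.map_range, hc, ← MonoidHom.range_eq_map, Subgroup.range_subtype, hH]

end Pool.Agent.Adm

end

section

/-! Smoothing two nodes. -/

namespace Pool.Agent.AdmG

open Pool.Agent.Adm
open scoped OnePoint

theorem mem_gen_Sm3 {k κ : Type} [Field k] {s : κ → k} {y : k}
    (h : (y : OnePoint k) ∈ Set.range (gen s)) : y = 0 ∨ ∃ o : Option κ, y = o.elim 1 s := by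
  obtain ⟨_ | _ | o, h⟩ := h
  · exact absurd h.symm (OnePoint.coe_ne_infty y)
  · exact .inl (OnePoint.coe_eq_coe.1 h).symm
  · exact .inr ⟨o, (OnePoint.coe_eq_coe.1 h).symm⟩

variable {k C κ : Type} [Field k] [IsAlgClosed k] [NormedField C] [CompleteSpace C]
  [IsUltrametricDist C] [IsAlgClosed C]

theorem lifts_three (φ : k →+* C) (hφ : ∀ x, ‖φ x‖ ≤ 1) (t : C) (h0 : t ≠ 0) (ht : ‖t‖ < 1)
    (s s' : κ → k) (hs' : ∀ i, s' i ≠ 0) :
    Lifts φ (three (vtx (gen s)) (vtx (gen s')))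
      (vtx (gen (Sum.elim (fun o : Option κ => t * φ (o.elim 1 s))
        fun o : Option κ => φ (o.elim 1 s') / t))) := by
  rintro G _ _ d H ⟨x, y, H1, H2, H3, ⟨cA, TA, mA, rfl⟩, ⟨cM, TM, mM, rfl⟩, ⟨cB, TB, mB, rfl⟩, rfl⟩
  obtain ⟨c, h1, h2, h3, h4, h5, h6⟩ := smooth_two φ hφ t t h0 ht h0 ht cA cM cB
    ⟨_, _, _, mA none, mM (some none)⟩ ⟨_, _, _, mM none, mB (some none)⟩
  refine ⟨c, fun a => ?_, fun i => ?_, h1⟩
  · induction a using OnePoint.rec with
    | infty => exact ⟨_, _, _, h5 _ _ _ (mB none), fun hn => absurd ⟨none, rfl⟩ hn⟩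
    | coe a =>
      by_cases a1 : ∃ z, a = t * φ z
      · obtain ⟨z, rfl⟩ := a1
        obtain ⟨e, ζ, g, m, n⟩ := TA z
        refine ⟨e, _, g, h2 _ _ _ _ m, fun hn => n fun hy => hn ?_⟩
        rcases mem_gen_Sm3 hy with rfl | ⟨o, rfl⟩
        · exact ⟨some none, by rw [map_zero, mul_zero]; rfl⟩
        · exact ⟨some (some (some (.inl o))), rfl⟩
      by_cases a2 : ∃ z, a = φ z
      · obtain ⟨z, rfl⟩ := a2
        have z0 : z ≠ 0 := fun e => a1 ⟨0, by simp [e]⟩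
        obtain ⟨e, ζ, g, m, n⟩ := TM z
        refine ⟨e, _, g, h3 _ _ _ _ z0 m, fun hn => n fun hy => hn ?_⟩
        rcases mem_gen_Sm3 hy with rfl | ⟨_ | o, rfl⟩
        · exact absurd rfl z0
        · exact ⟨some (some none), congrArg OnePoint.some (map_one φ).symm⟩
        · exact o.elim
      by_cases a3 : ∃ z, a = φ z / t
      · obtain ⟨z, rfl⟩ := a3
        have z0 : z ≠ 0 := fun e => a1 ⟨0, by simp [e]⟩
        obtain ⟨e, ζ, g, m, n⟩ := TB z
        refine ⟨e, _, g, h4 _ _ _ _ z0 m, fun hn => n fun hy => hn ?_⟩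
        rcases mem_gen_Sm3 hy with rfl | ⟨o, rfl⟩
        · exact absurd rfl z0
        · exact ⟨some (some (some (.inr o))), rfl⟩
      exact ⟨1, 1, 1, h6 a (not_exists.1 a1) (not_exists.1 a2) (not_exists.1 a3), fun _ => rfl⟩
  · obtain _ | _ | _ | o | o := i
    · exact h5 _ _ _ (mB none)
    · have n0 := h2 0 _ _ _ (mA (some none))
      rw [map_zero, mul_zero] at n0
      exact n0
    · have n1 := h3 1 _ _ _ one_ne_zero (mM (some (some none)))
      rw [map_one] at n1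
      exact n1
    · exact h2 _ _ _ _ (mA (some (some o)))
    · refine h4 _ _ _ _ ?_ (mB (some (some o)))
      obtain _ | o := o
      · exact one_ne_zero
      · exact hs' o

end Pool.Agent.AdmG

end
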