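import Pool.Agent.Mg.F0854a0.G5d1e19
import Pool.Agent.Mg.F0854a0.G82424f
import Pool.Agent.Mg.F0854a0.G106170
import Mathlib

section

/-! The Kummer covering branched at b and at infinity. -/

namespace Pool.Agent.Adm

open scoped OnePoint
open Polynomial

theorem root_KB {W : Type} [Field W] {e : ℕ} (he : 0 < e) {η : W} (hη : IsPrimitiveRoot η e)
    {w y : W} (hw : w ≠ 0) (h : y ^ e = w ^ e) : ∃ i : ℕ, y = η ^ i * w := by
  have : NeZero e := ⟨he.ne'⟩
  obtain ⟨i, -, hi⟩ := hη.eq_pow_of_pow_eq_one (ξ := y / w)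
    (by rw [div_pow, h, div_self (pow_ne_zero _ hw)])
  exact ⟨i, by rw [hi, div_mul_cancel₀ _ hw]⟩

theorem pow_KB {W G : Type} [Field W] [Group G] {e : ℕ} (he : 0 < e) {η : W}
    (hη : IsPrimitiveRoot η e) {g : G} (hg : g ^ e = 1) {i j : ℕ} (h : η ^ i = η ^ j) :
    g ^ i = g ^ j := by
  rw [pow_eq_pow_mod i hη.pow_eq_one, pow_eq_pow_mod j hη.pow_eq_one] at h
  rw [pow_eq_pow_mod i hg, pow_eq_pow_mod j hg, hη.pow_inj (Nat.mod_lt _ he) (Nat.mod_lt _ he) h]

theorem cover_KB {k G : Type} [Field k] [Group G] (e : ℕ) (he : 0 < e)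
    (ζ : k) (hζ : IsPrimitiveRoot ζ e) (g : G) (hg : g ^ e = 1) :
    ∃ c : Cover k G, c.ι.range ≤ Subgroup.zpowers g ∧
      ∀ (a : OnePoint k) (d : ℕ) (hd : 0 < d) (ξ : k) (hξ : IsPrimitiveRoot ξ d)
        (y : LaurentSeries k) (m : ℕ), y ^ e = expand a d →
        scL ξ (hξ.ne_zero hd.ne') y = HahnSeries.C ζ ^ m * y → c.Mono a d ξ (g ^ m) := by
  have : NeZero e := ⟨he.ne'⟩
  have hζK : IsPrimitiveRoot (RatFunc.C ζ) e :=
    hζ.map_of_injective (RatFunc.C (K := k)).injective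
  let P : (RatFunc k)[X] := X ^ e - C RatFunc.X
  have hsep : P.Separable := separable_X_pow_sub_C _ hζK.neZero'.out RatFunc.X_ne_zero
  have : IsGalois (RatFunc k) P.SplittingField := IsGalois.of_separable_splitting_field hsep
  have hroot : ∀ s ∈ P.rootSet P.SplittingField,
      s ^ e = algebraMap (RatFunc k) P.SplittingField RatFunc.X := fun s hs => by
    have := (mem_rootSet.1 hs).2
    simpa [P, sub_eq_zero] using this
  obtain ⟨w, hw⟩ : ∃ w : P.SplittingField,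
      w ^ e = algebraMap (RatFunc k) P.SplittingField RatFunc.X := by
    obtain ⟨w, hw⟩ := (SplittingField.splits P).exists_eval_eq_zero
      (by rw [degree_map, degree_X_pow_sub_C he]; exact_mod_cast he.ne')
    exact ⟨w, by simpa [P, sub_eq_zero] using hw⟩
  have hw0 : w ≠ 0 := by
    rintro rfl
    rw [zero_pow he.ne', eq_comm, map_eq_zero] at hw
    exact RatFunc.X_ne_zero hw
  have hζL := hζK.map_of_injective (algebraMap (RatFunc k) P.SplittingField).injective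
  have hex : ∀ σ : P.SplittingField ≃ₐ[RatFunc k] P.SplittingField, ∃ i : ℕ,
      σ w = algebraMap (RatFunc k) P.SplittingField (RatFunc.C ζ) ^ i * w := fun σ =>
    root_KB he hζL hw0 (by rw [← map_pow, hw, AlgEquiv.commutes])
  choose ix hix using hex
  let ι : (P.SplittingField ≃ₐ[RatFunc k] P.SplittingField) →* G :=
    MonoidHom.mk' (fun σ => g ^ ix σ) fun σ τ => by
      rw [← pow_add]
      refine pow_KB he hζL hg (mul_right_cancel₀ hw0 ?_)
      rw [← hix, AlgEquiv.mul_apply, hix τ, map_mul, map_pow, AlgEquiv.commutes, hix σ, pow_add]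
      ring
  refine ⟨{ L := P.SplittingField, ι := ι }, ?_, fun a d hd ξ hξ y m hy hs => ?_⟩
  · rintro _ ⟨σ, rfl⟩
    exact Subgroup.npow_mem_zpowers g _
  obtain ⟨j0, hC, hX⟩ := exists_chart a d hd
  have hy0 : y ≠ 0 := by
    rintro rfl
    rw [zero_pow he.ne', ← hX, eq_comm, map_eq_zero] at hy
    exact RatFunc.X_ne_zero hy
  have hζW : IsPrimitiveRoot (HahnSeries.C ζ : LaurentSeries k) e :=
    hζ.map_of_injective HahnSeries.C_injective
  obtain ⟨j, hj⟩ := exists_extension (L := P.SplittingField) j0 (P.rootSet P.SplittingField)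
    (IntermediateField.adjoin_eq_top_of_algebra _ _ (SplittingField.adjoin_rootSet P))
    fun J hJ s hs => by
      obtain ⟨i, hi⟩ := root_KB he (hζW.map_of_injective
        (algebraMap _ (AlgebraicClosure (LaurentSeries k))).injective) (y := J s)
        ((_root_.map_ne_zero (algebraMap _ (AlgebraicClosure (LaurentSeries k)))).2 hy0)
        (by rw [← map_pow, hroot s hs, hJ, hX, ← hy, map_pow])
      exact ⟨HahnSeries.C ζ ^ i * y, by rw [hi, map_mul, map_pow]⟩
  obtain ⟨σ, h1, h2⟩ := Cover.exists_mono_of_chart { L := P.SplittingField, ι := ι } a d hd ξ hξ j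
    (fun x => (hj _).trans (hC x)) ((hj _).trans hX)
  obtain ⟨i, hi⟩ := root_KB he hζW hy0 (y := j w) (by rw [← map_pow, hw, hj, hX, hy])
  have h3 : j (σ w) = scL ξ (hξ.ne_zero hd.ne') (j w) := h2 w
  rw [hix σ, map_mul, map_pow, hj, hC, hi, map_mul, map_pow, scL_C, hs, mul_left_comm] at h3
  have h4 : g ^ ix σ = g ^ m := pow_KB he hζW hg (mul_right_cancel₀ hy0
    (mul_left_cancel₀ (pow_ne_zero _ (hζW.ne_zero he.ne')) h3))
  rw [← h4]
  exact h1

theorem exists_kummer0 {k G : Type} [Field k] [IsAlgClosed k] [Group G] (e : ℕ) (he : 0 < e)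
    (ζ : k) (hζ : IsPrimitiveRoot ζ e) (g : G) (hg : g ^ e = 1) :
    ∃ c : Cover k G, c.ι.range ≤ Subgroup.zpowers g ∧ c.Mono ((0 : k) : OnePoint k) e ζ g ∧
      c.Mono ∞ e ζ⁻¹ g ∧ ∀ a : k, a ≠ 0 → c.Mono (a : OnePoint k) 1 1 1 := by
  obtain ⟨c, h1, h2⟩ := cover_KB e he ζ hζ g hg
  refine ⟨c, h1, ?_, ?_, fun a ha => ?_⟩
  · have := h2 ((0 : k) : OnePoint k) e he ζ hζ (HahnSeries.single 1 1) 1
      (by simp [expand, HahnSeries.single_pow]) (by simp [scL_single, HahnSeries.C_apply])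
    rwa [pow_one] at this
  · have := h2 ∞ e he ζ⁻¹ hζ.inv (HahnSeries.single (-1) 1) 1
      (by simp [expand, HahnSeries.single_pow]) (by simp [scL_single, HahnSeries.C_apply])
    rwa [pow_one] at this
  · have : NeZero e := ⟨he.ne'⟩
    have h3 := order_eval₂_expand_coe a 1 one_pos X X_ne_zero
    rw [eval₂_X, rootMultiplicity_eq_zero (by simpa using ha)] at h3
    obtain ⟨y, hy⟩ := exists_pow_eq e hζ.neZero'.out (expand (a : OnePoint k) 1) (by simp [h3])
    have := h2 a 1 one_pos 1 IsPrimitiveRoot.one y 0 hy (by simp)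
    rwa [pow_zero] at this

theorem exists_kummer {k G : Type} [Field k] [IsAlgClosed k] [Group G] (e : ℕ) (he : 0 < e)
    (ζ : k) (hζ : IsPrimitiveRoot ζ e) (g : G) (hg : g ^ e = 1) (b : k) :
    ∃ c : Cover k G, c.ι.range ≤ Subgroup.zpowers g ∧ c.Mono (b : OnePoint k) e ζ g ∧
      c.Mono ∞ e ζ⁻¹ g ∧ ∀ a : k, a ≠ b → c.Mono (a : OnePoint k) 1 1 1 := by
  obtain ⟨c, h1, h2, h3, h4⟩ := exists_kummer0 e he ζ hζ g hg
  obtain ⟨c', k1, k2, k3⟩ := c.exists_translate b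
  refine ⟨c', k1 ▸ h1, ?_, k3 _ _ _ h3, fun a ha => ?_⟩
  · simpa using k2 _ _ _ _ h2
  · simpa using k2 _ _ _ _ (h4 (a - b) (sub_ne_zero.2 ha))

end Pool.Agent.Adm

end

section

/-! Smoothing one node, and moving a marked point. -/

namespace Pool.Agent.Adm

open scoped OnePoint

theorem tame_S1 {k C G : Type} [Field k] [Field C] [Group G] (φ : k →+* C) (tA tB : C)
    (c : Cover C G) (S : Set (OnePoint C))
    (hinf : ∃ e ζ g, c.Mono ∞ e ζ g ∧ (∞ ∉ S → g = 1))
    (hA : ∀ y : k, ∃ e ζ g, c.Mono ((tA * φ y : C) : OnePoint C) e ζ g ∧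
      (((tA * φ y : C) : OnePoint C) ∉ S → g = 1))
    (hM : ∀ y : k, y ≠ 0 → ∃ e ζ g, c.Mono ((φ y : C) : OnePoint C) e ζ g ∧
      (((φ y : C) : OnePoint C) ∉ S → g = 1))
    (hB : ∀ y : k, y ≠ 0 → ∃ e ζ g, c.Mono ((φ y / tB : C) : OnePoint C) e ζ g ∧
      (((φ y / tB : C) : OnePoint C) ∉ S → g = 1))
    (hr : ∀ x : C, (∀ y, x ≠ tA * φ y) → (∀ y, x ≠ φ y) → (∀ y, x ≠ φ y / tB) →
      c.Mono (x : OnePoint C) 1 1 1) : c.Tame S := by
  intro a
  induction a using OnePoint.rec with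
  | infty => exact hinf
  | coe x =>
    by_cases h1 : ∃ y, x = tA * φ y
    · obtain ⟨y, rfl⟩ := h1
      exact hA y
    by_cases h2 : ∃ y, x = φ y
    · obtain ⟨y, rfl⟩ := h2
      refine hM y ?_
      rintro rfl
      exact h1 ⟨0, by simp⟩
    by_cases h3 : ∃ y, x = φ y / tB
    · obtain ⟨y, rfl⟩ := h3
      refine hB y ?_
      rintro rfl
      exact h1 ⟨0, by simp⟩
    push Not at h1 h2 h3
    exact ⟨1, 1, 1, hr x h1 h2 h3, fun _ => rfl⟩

theorem notMem_S3_S1 {k : Type} [Field k] {y : k} (h0 : y ≠ 0) (h1 : y ≠ 1) :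
    (y : OnePoint k) ∉ S3 k := by
  simp [S3, h0, h1]

theorem le_range_S1 {k G : Type} [Field k] [Group G] {c c' : Cover k G} {a : OnePoint k} {e : ℕ}
    {ζ : k} {g : G} (h : c.Mono a e ζ g) (h' : c'.ι.range ≤ Subgroup.zpowers g) :
    c'.ι.range ≤ c.ι.range :=
  h'.trans ((Subgroup.zpowers_le (g := g)).2 h.mem_range)

variable {k C G : Type} [Field k] [IsAlgClosed k] [NormedField C] [CompleteSpace C]
  [IsUltrametricDist C] [IsAlgClosed C] [Group G] [Finite G]

theorem smooth_left (φ : k →+* C) (hφ : ∀ x, ‖φ x‖ ≤ 1) (t : C) (h0 : t ≠ 0) (ht : ‖t‖ < 1)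
    (c1 c2 : Cover k G) (T1 : c1.Tame (S3 k)) (T2 : c2.Tame (S3 k)) (h : Glue c1 c2) (e0 : ℕ)
    (ζ0 : k) (g0 : G) (hinf : c2.Mono ∞ e0 ζ0 g0) :
    ∃ c : Cover C G, c.ι.range = c1.ι.range ⊔ c2.ι.range ∧ c.Tame (S4 t) ∧
      (∀ d, c1.MD (0 : k) d → c.MD (0 : C) (d.map φ)) ∧
      (∀ d, c1.MD (1 : k) d → c.MD t (d.map φ)) ∧
      (∀ d, c2.MD (1 : k) d → c.MD (1 : C) (d.map φ)) ∧ c.Mono ∞ e0 (φ ζ0) g0 := by
  obtain ⟨cB, b1, b2, b3, b4⟩ := exists_kummer0 e0 hinf.1 ζ0⁻¹ hinf.2.1.inv g0 hinf.pow_eq_one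
  rw [inv_inv] at b3
  obtain ⟨c, r, mA, mM, mB, mI, mr⟩ :=
    smooth_two φ hφ t t h0 ht h0 ht c1 c2 cB h ⟨e0, ζ0, g0, hinf, b2⟩
  refine ⟨c, ?_, ?_, fun d hd => ?_, fun d hd => ?_, fun d hd => ?_, mI _ _ _ b3⟩
  · rw [r]
    exact sup_eq_left.2 ((le_range_S1 hinf b1).trans le_sup_right)
  · refine tame_S1 φ t t c _ ⟨_, _, _, mI _ _ _ b3, fun hn => absurd (by simp [S4]) hn⟩
      (fun y => ?_) (fun y hy => ?_) (fun y hy => ?_) mr
    · obtain ⟨e, ζ, g, hm, hg⟩ := T1 y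
      refine ⟨_, _, _, mA y e ζ g hm, fun hn => hg (notMem_S3_S1 ?_ ?_)⟩
      · rintro rfl
        exact hn (by simp [S4])
      · rintro rfl
        exact hn (by simp [S4])
    · obtain ⟨e, ζ, g, hm, hg⟩ := T2 y
      refine ⟨_, _, _, mM y e ζ g hy hm, fun hn => hg (notMem_S3_S1 hy ?_)⟩
      rintro rfl
      exact hn (by simp [S4])
    · exact ⟨_, _, _, mB y _ _ _ hy (b4 y hy), fun _ => rfl⟩
  · simpa [Cover.MD, Dat.map] using mA 0 _ _ _ hd
  · simpa [Cover.MD, Dat.map] using mA 1 _ _ _ hd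
  · simpa [Cover.MD, Dat.map] using mM 1 _ _ _ one_ne_zero hd

theorem smooth_right (φ : k →+* C) (hφ : ∀ x, ‖φ x‖ ≤ 1) (t : C) (h0 : t ≠ 0) (ht : ‖t‖ < 1)
    (c1 c2 : Cover k G) (T1 : c1.Tame (S3 k)) (T2 : c2.Tame (S3 k)) (h : Glue c1 c2) (e0 : ℕ)
    (ζ0 : k) (g0 : G) (hz : c1.Mono ((0 : k) : OnePoint k) e0 ζ0 g0) :
    ∃ c : Cover C G, c.ι.range = c1.ι.range ⊔ c2.ι.range ∧ c.Tame (S4 t⁻¹) ∧
      c.Mono ((0 : C) : OnePoint C) e0 (φ ζ0) g0 ∧
      (∀ d, c1.MD (1 : k) d → c.MD (1 : C) (d.map φ)) ∧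
      (∀ d, c2.MD (1 : k) d → c.MD (t⁻¹ : C) (d.map φ)) ∧
      ∀ d, c2.MD ∞ d → c.MD ∞ (d.map φ) := by
  obtain ⟨cA, a1, a2, a3, a4⟩ := exists_kummer0 e0 hz.1 ζ0 hz.2.1 g0 hz.pow_eq_one
  obtain ⟨c, r, mA, mM, mB, mI, mr⟩ :=
    smooth_two φ hφ t t h0 ht h0 ht cA c1 c2 ⟨e0, ζ0⁻¹, g0, a3, by rwa [inv_inv]⟩ h
  have hz' : c.Mono ((0 : C) : OnePoint C) e0 (φ ζ0) g0 := by simpa using mA 0 _ _ _ a2
  refine ⟨c, ?_, ?_, hz', fun d hd => ?_, fun d hd => ?_, fun d hd => mI _ _ _ hd⟩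
  · rw [r, sup_eq_right.2 (le_range_S1 hz a1)]
  · obtain ⟨e', ζ', g', hm', -⟩ := T2 ∞
    refine tame_S1 φ t t c _ ⟨_, _, _, mI _ _ _ hm', fun hn => absurd (by simp [S4]) hn⟩
      (fun y => ?_) (fun y hy => ?_) (fun y hy => ?_) mr
    · by_cases hy : y = 0
      · subst hy
        exact ⟨_, _, _, mA 0 _ _ _ a2, fun hn => absurd (by simp [S4]) hn⟩
      · exact ⟨_, _, _, mA y _ _ _ (a4 y hy), fun _ => rfl⟩
    · obtain ⟨e, ζ, g, hm, hg⟩ := T1 y
      refine ⟨_, _, _, mM y e ζ g hy hm, fun hn => hg (notMem_S3_S1 hy ?_)⟩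
      rintro rfl
      exact hn (by simp [S4])
    · obtain ⟨e, ζ, g, hm, hg⟩ := T2 y
      refine ⟨_, _, _, mB y e ζ g hy hm, fun hn => hg (notMem_S3_S1 hy ?_)⟩
      rintro rfl
      exact hn (by simp [S4])
  · simpa [Cover.MD, Dat.map] using mM 1 _ _ _ one_ne_zero hd
  · simpa [Cover.MD, Dat.map] using mB 1 _ _ _ one_ne_zero hd

theorem move_zero (φ : k →+* C) (hφ : ∀ x, ‖φ x‖ ≤ 1) (t : C) (h0 : t ≠ 0) (ht : ‖t‖ < 1)
    (c : Cover k G) (S : Set (OnePoint k)) (hT : c.Tame S) (hS : ∞ ∈ S) (d0 dinf : Dat k G)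
    (hz : c.MD (0 : k) d0) (hinf : c.MD ∞ dinf) :
    ∃ c' : Cover C G, c'.ι.range = c.ι.range ∧
      c'.Tame {x | x = ∞ ∨ x = (t : OnePoint C) ∨
        ∃ y : k, y ≠ 0 ∧ (y : OnePoint k) ∈ S ∧ x = ((φ y : C) : OnePoint C)} ∧
      c'.MD t (d0.map φ) ∧ c'.MD ∞ (dinf.map φ) ∧
      ∀ (y : k) d, y ≠ 0 → c.MD y d → c'.MD (φ y : C) (d.map φ) := by
  obtain ⟨e0, ζ0, g0⟩ := d0
  obtain ⟨e1, ζ1, g1⟩ := dinf
  have hz0 : c.Mono ((0 : k) : OnePoint k) e0 ζ0 g0 := hz
  have hi0 : c.Mono ∞ e1 ζ1 g1 := hinf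
  obtain ⟨cA, a1, a2, a3, a4⟩ := exists_kummer e0 hz0.1 ζ0 hz0.2.1 g0 hz0.pow_eq_one 1
  obtain ⟨cB, b1, b2, b3, b4⟩ := exists_kummer0 e1 hi0.1 ζ1⁻¹ hi0.2.1.inv g1 hi0.pow_eq_one
  rw [inv_inv] at b3
  obtain ⟨c', r, mA, mM, mB, mI, mr⟩ :=
    smooth_two φ hφ t t h0 ht h0 ht cA c cB ⟨e0, ζ0⁻¹, g0, a3, by rwa [inv_inv]⟩
      ⟨e1, ζ1, g1, hi0, b2⟩
  refine ⟨c', ?_, ?_, ?_, mI _ _ _ b3, fun y d hy hd => mM y _ _ _ hy hd⟩
  · rw [r, sup_eq_right.2 (le_range_S1 hz0 a1), sup_eq_left.2 (le_range_S1 hi0 b1)]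
  · refine tame_S1 φ t t c' _ ⟨_, _, _, mI _ _ _ b3, fun hn => absurd (Or.inl rfl) hn⟩
      (fun y => ?_) (fun y hy => ?_) (fun y hy => ?_) mr
    · by_cases hy : y = 1
      · subst hy
        exact ⟨_, _, _, mA 1 _ _ _ a2, fun hn => absurd (Or.inr (Or.inl (by simp))) hn⟩
      · exact ⟨_, _, _, mA y _ _ _ (a4 y hy), fun _ => rfl⟩
    · obtain ⟨e, ζ, g, hm, hg⟩ := hT y
      exact ⟨_, _, _, mM y e ζ g hy hm,
        fun hn => hg fun hy' => hn (Or.inr (Or.inr ⟨y, hy, hy', rfl⟩))⟩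
    · exact ⟨_, _, _, mB y _ _ _ hy (b4 y hy), fun _ => rfl⟩
  · simpa [Cover.MD, Dat.map] using mA 1 _ _ _ a2

end Pool.Agent.Adm

end

section

/-! Lifting coverings along the nodal part of the chain. -/

namespace Pool.Agent.Adm

open scoped OnePoint

theorem Cover.exists_bc {k k' G : Type} [Field k] [IsAlgClosed k] [Field k'] [IsAlgClosed k']
    [Group G] (c : Cover k G) (φ : k →+* k') (S : Set (OnePoint k)) (hT : c.Tame S) :
    ∃ c' : Cover k' G, c'.ι.range = c.ι.range ∧ c'.Tame (OnePoint.map φ '' S) ∧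
      ∀ a e ζ g, c.Mono a e ζ g → c'.Mono (a.map φ) e (φ ζ) g := by
  obtain ⟨c', h1, h2, h3⟩ := c.exists_baseChange φ (by
    obtain ⟨e, ζ, g, h, -⟩ := hT ∞
    exact ⟨_, e, ζ, g, h⟩)
  refine ⟨c', h1, fun a => ?_, h2⟩
  by_cases ha : ∃ b : OnePoint k, b.map φ = a
  · obtain ⟨b, rfl⟩ := ha
    obtain ⟨e, ζ, g, h, h'⟩ := hT b
    exact ⟨e, _, g, h2 _ _ _ _ h, fun hb => h' fun hb' => hb ⟨b, hb', rfl⟩⟩
  · induction a using OnePoint.rec with
    | infty => exact absurd ⟨∞, rfl⟩ ha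
    | coe x => exact ⟨1, 1, 1, h3 x (by rintro ⟨y, rfl⟩; exact ha ⟨y, rfl⟩), fun _ => rfl⟩

theorem S3_Lift1 {k k' : Type} [Field k] [Field k'] (φ : k →+* k') :
    OnePoint.map φ '' S3 k = S3 k' := by
  simp [S3, Set.image_insert_eq]

theorem S4_Lift1 {k k' : Type} [Field k] [Field k'] (φ : k →+* k') (s : k) :
    OnePoint.map φ '' S4 s = S4 (φ s) := by
  simp [S4, Set.image_insert_eq]

theorem bc_Lift1 {k k' G : Type} [Field k] [IsAlgClosed k] [Field k'] [IsAlgClosed k']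
    [Group G] (c : Cover k G) (φ : k →+* k') {S : Set (OnePoint k)} (hT : c.Tame S) :
    ∃ c' : Cover k' G, c'.ι.range = c.ι.range ∧ c'.Tame (OnePoint.map φ '' S) ∧
      (∀ {e ζ g}, c.Mono ((0 : k) : OnePoint k) e ζ g →
        c'.Mono ((0 : k') : OnePoint k') e (φ ζ) g) ∧
      (∀ {e ζ g}, c.Mono ((1 : k) : OnePoint k) e ζ g →
        c'.Mono ((1 : k') : OnePoint k') e (φ ζ) g) ∧
      (∀ {e ζ g}, c.Mono ∞ e ζ g → c'.Mono ∞ e (φ ζ) g) ∧
      ∀ {x : k} {e ζ g}, c.Mono x e ζ g → c'.Mono (φ x : k') e (φ ζ) g := by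
  obtain ⟨c', h1, h2, h3⟩ := c.exists_bc φ S hT
  refine ⟨c', h1, h2, fun h => ?_, fun h => ?_, fun h => h3 _ _ _ _ h, fun h => h3 _ _ _ _ h⟩
  · simpa using h3 _ _ _ _ h
  · simpa using h3 _ _ _ _ h

variable {k C : Type} [Field k] [IsAlgClosed k] [NormedField C] [CompleteSpace C]
  [IsUltrametricDist C] [IsAlgClosed C]

theorem lifts54 (φ : k →+* C) (hφ : ∀ x, ‖φ x‖ ≤ 1) (t : C) (h0 : t ≠ 0) (ht : ‖t‖ < 1) :
    Lifts φ (A5 k) (A4 t) := by
  rintro G _ _ d ⟨c1, c2, c3, c4, c5, T1, T2, T3, T4, T5, g12, ⟨e, ζ, g, m1, m2⟩,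
    ⟨e', ζ', g', m3, m4⟩, ⟨e'', ζ'', g'', m5, m6⟩, hr, d0, d1, d2, d3, d4, d5, d6⟩
  obtain ⟨c, r1, U1, a0, a1, a2, a3⟩ := smooth_left φ hφ t h0 ht c1 c2 T1 T2 g12 e ζ g m1
  obtain ⟨c3', r3, U3, x0, x1, x2, -⟩ := bc_Lift1 c3 φ T3
  obtain ⟨c4', r4, U4, y0, y1, y2, -⟩ := bc_Lift1 c4 φ T4
  obtain ⟨c5', r5, U5, z0, z1, z2, -⟩ := bc_Lift1 c5 φ T5
  rw [S3_Lift1] at U3 U4 U5
  exact ⟨c, c3', c4', c5', U1, U3, U4, U5, ⟨e, _, g, a3, map_inv₀ φ ζ ▸ x0 m2⟩,
    ⟨e', _, g', x2 m3, map_inv₀ φ ζ' ▸ y0 m4⟩, ⟨e'', _, g'', y2 m5, map_inv₀ φ ζ'' ▸ z0 m6⟩,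
    by rw [r1, r3, r4, r5, hr], a0 _ d0, a1 _ d1, a2 _ d2, x1 d3, y1 d4, z1 d5, z2 d6⟩

theorem lifts43 (φ : k →+* C) (hφ : ∀ x, ‖φ x‖ ≤ 1) (t : C) (h0 : t ≠ 0) (ht : ‖t‖ < 1) (s : k)
    {k' : Type} [Field k'] [IsAlgClosed k'] (ψA : k →+* k') (ψB : C →+* k')
    (hψ : ∀ (ζ : k) (e : ℕ), 0 < e → ζ ^ e = 1 → ψA ζ = ψB (φ ζ)) :
    Lifts ψA (A4 s) (A3 (ψA s) (ψB t⁻¹)) := by
  rintro G _ _ d ⟨c1, c3, c4, c5, T1, T3, T4, T5, ⟨e, ζ, g, m1, m2⟩,
    ⟨e', ζ', g', m3, m4⟩, g45, hr, d0, d1, d2, d3, d4, d5, d6⟩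
  have H : ∀ {c : Cover k G} {a e ζ g} {c' : Cover k' G} {a'}, c.Mono a e ζ g →
      c'.Mono a' e (ψB (φ ζ)) g → c'.Mono a' e (ψA ζ) g := fun h h' => by
    rwa [hψ _ _ h.1 h.2.1.pow_eq_one]
  obtain ⟨c, r4, U4, a0, a1, a2, a3⟩ := smooth_right φ hφ t h0 ht c4 c5 T4 T5 g45 e' ζ'⁻¹ g' m4
  obtain ⟨c1', r1, U1, x0, x1, x2, x3⟩ := bc_Lift1 c1 ψA T1
  obtain ⟨c3', r3, U3, y0, y1, y2, -⟩ := bc_Lift1 c3 ψA T3
  obtain ⟨c4', r5, U5, z0, z1, z2, z3⟩ := bc_Lift1 c ψB U4
  rw [S3_Lift1] at U3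
  rw [S4_Lift1] at U1 U5
  exact ⟨c1', c3', c4', U1, U3, U5, ⟨e, _, g, x2 m1, map_inv₀ ψA ζ ▸ y0 m2⟩,
    ⟨e', _, g', y2 m3, map_inv₀ ψA ζ' ▸ H m4 (z0 a0)⟩,
    by rw [r1, r3, r5, r4, ← sup_assoc, hr], x0 d0, x3 d1, x1 d2, y1 d3, H d4 (z1 (a1 _ d4)),
    H d5 (z3 (a2 _ d5)), H d6 (z2 (a3 _ d6))⟩

end Pool.Agent.Adm

end

section

/-! Formal lifting lemmas. -/

namespace Pool.Agent.AdmG

open Pool.Agent.Adm
open scoped OnePoint

variable {k k' k'' ι ι' : Type} [Field k] [Field k'] [Field k'']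

theorem dinv_Lf {G : Type} (φ : k →+* k') (x : Dat k G) : dinv (x.map φ) = (dinv x).map φ :=
  Prod.ext rfl (Prod.ext (map_inv₀ φ _).symm rfl)

theorem Lifts.refl (P : AP k ι) : Lifts (RingHom.id k) P P := by
  intro G _ _ d H h
  exact h

theorem Lifts.trans {φ : k →+* k'} {ψ : k' →+* k''} {P : AP k ι} {P' : AP k' ι} {P'' : AP k'' ι}
    (h : Lifts φ P P') (h' : Lifts ψ P' P'') : Lifts (ψ.comp φ) P P'' := by
  intro G _ _ d H hP
  exact h' G _ H (h G d H hP)

theorem lifts_vtx [IsAlgClosed k] [IsAlgClosed k'] (φ : k →+* k') (a : ι → OnePoint k) :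
    Lifts φ (vtx a) (vtx fun i => (a i).map φ) := by
  rintro G _ _ d H ⟨c, h1, h2, h3⟩
  obtain ⟨c', e1, e2, e3⟩ := c.exists_bc φ _ h1
  exact ⟨c', by rwa [← Set.range_comp] at e2, fun i => e3 _ _ _ _ (h2 i), e1.trans h3⟩

theorem lifts_gen [IsAlgClosed k] [IsAlgClosed k'] {κ : Type} (φ : k →+* k') (s : κ → k) :
    Lifts φ (vtx (gen s)) (vtx (gen fun i => φ (s i))) := by
  have e : (gen fun i => φ (s i)) = fun i => (gen s i).map φ := by
    funext o
    rcases o with _ | _ | _ | o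
    · rfl
    · exact congrArg OnePoint.some (map_zero φ).symm
    · exact congrArg OnePoint.some (map_one φ).symm
    · rfl
  rw [e]
  exact lifts_vtx φ _

theorem lifts_tri [IsAlgClosed k] [IsAlgClosed k'] (φ : k →+* k') : Lifts φ (tri k) (tri k') := by
  have h := lifts_gen φ (Empty.elim : Empty → k)
  rwa [show (fun i => φ (Empty.elim i)) = Empty.elim from funext fun i => i.elim] at h

theorem Lifts.glue {φ : k →+* k'} {P : AP k (Option ι)} {Q : AP k (Option ι')}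
    {P' : AP k' (Option ι)} {Q' : AP k' (Option ι')} (h : Lifts φ P P') (h' : Lifts φ Q Q') :
    Lifts φ (glue P Q) (glue P' Q') := by
  rintro G _ _ d H ⟨x, H1, H2, h1, h2, h3⟩
  refine ⟨x.map φ, H1, H2, ?_, ?_, h3⟩
  · convert h G _ _ h1 using 2 with o
    cases o <;> rfl
  · convert h' G _ _ h2 using 2 with o
    cases o
    · exact dinv_Lf φ x
    · rfl

theorem Lifts.reidx {φ : k →+* k'} {P : AP k ι} {P' : AP k' ι} (e : ι ≃ ι') (h : Lifts φ P P') :
    Lifts φ (reidx e P) (reidx e P') := by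
  intro G _ _ d H hP
  exact h G _ H hP

theorem Lifts.two [IsAlgClosed k] [IsAlgClosed k'] {κ : Type} {φ : k →+* k'} {A : AP k (W κ)}
    {A' : AP k' (W κ)} (h : Lifts φ A A') : Lifts φ (two A) (two A') := by
  rintro G _ _ d H ⟨x, H1, H2, h1, h2, h3⟩
  refine ⟨x.map φ, H1, H2, ?_, ?_, h3⟩
  · convert h G _ _ h1 using 2 with o
    rcases o with _ | _ | o <;> rfl
  · convert lifts_tri φ G _ _ h2 using 2 with o
    rcases o with _ | _ | o
    · rfl
    · exact dinv_Lf φ x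
    · rfl

theorem Lifts.three [IsAlgClosed k] [IsAlgClosed k'] {κ : Type} {φ : k →+* k'}
    {A B : AP k (W κ)} {A' B' : AP k' (W κ)} (h : Lifts φ A A') (h' : Lifts φ B B') :
    Lifts φ (three A B) (three A' B') := by
  rintro G _ _ d H ⟨x, y, H1, H2, H3, h1, h2, h3, h4⟩
  refine ⟨x.map φ, y.map φ, H1, H2, H3, ?_, ?_, ?_, h4⟩
  · convert h G _ _ h1 using 2 with o
    rcases o with _ | _ | o <;> rfl
  · convert lifts_tri φ G _ _ h2 using 2 with o
    rcases o with _ | _ | o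
    · rfl
    · exact dinv_Lf φ x
    · rfl
  · convert h' G _ _ h3 using 2 with o
    rcases o with _ | _ | o
    · rfl
    · exact dinv_Lf φ y
    · rfl

/-- Embeddings that agree on an algebraically closed subfield give the same lifts. -/
theorem Lifts.twist {k0 : Type} [Field k0] [IsAlgClosed k0] (φ0 : k0 →+* k) {ψ1 ψ2 : k →+* k'}
    (hψ : ∀ x, ψ1 (φ0 x) = ψ2 (φ0 x)) {P : AP k ι} {P' : AP k' ι} (hP : Nice P)
    (h : Lifts ψ2 P P') : Lifts ψ1 P P' := by
  intro G _ _ d H hd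
  convert h G d H hd using 2 with i
  obtain ⟨h1, h2, -⟩ := hP.valid G d H hd i
  obtain ⟨x, hx⟩ := root_mem_range φ0 _ _ h1 h2.pow_eq_one
  exact Prod.ext rfl (Prod.ext (show ψ1 (d i).2.1 = ψ2 (d i).2.1 by rw [← hx, hψ]) rfl)

theorem gen_empty_inj (k : Type) [Field k] :
    Function.Injective (gen (Empty.elim : Empty → k)) := by
  rintro (_ | _ | _ | a) (_ | _ | _ | b) h <;>
    first | rfl | exact a.elim | exact b.elim | simp [gen] at h

theorem tr_gen {κ : Type} [Finite κ] (s : κ → k) (hs : Function.Injective (gen s)) :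
    Tr k _ (vtx (gen s)) := by
  refine Tr.vtx _ hs ?_
  simp only [Finite.card_option]
  omega

theorem tr_tri (k : Type) [Field k] : Tr k _ (tri k) := by
  exact tr_gen _ (gen_empty_inj k)

end Pool.Agent.AdmG

end

section

/-! Basic contexts. -/

namespace Pool.Agent.AdmG

open Pool.Agent.Adm
open scoped OnePoint

variable {k0 ι ι' ι'' : Type} [Field k0]

theorem exists_ctx_glueL [Fintype ι'] (Q : Fam k0 (Option ι')) (R : (Option ι → ℤ) → Prop)
    (R' : (ι ⊕ ι' → ℤ) → Prop)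
    (h : ∀ n, R n → ∃ n' : Option ι' → ℤ, n' none = -n none ∧ R0 n' ∧
      R' (Sum.elim (fun i => n (some i)) fun i => n' (some i))) :
    ∃ C : Ctx k0 (Option ι) (ι ⊕ ι') R R', ∀ (K : Type) [Field K] (ψ : k0 →+* K) (P : AP K _),
      C.Φ K ψ P = glue P (Q.Q K ψ) := by
  refine ⟨⟨fun K _ ψ P => glue P (Q.Q K ψ), fun K _ ψ P hP => hP.glue (Q.tr K ψ),
    fun K K' _ _ _ _ ψ χ P P' hl => hl.glue (Q.lifts K K' ψ χ),
    fun K K' _ _ _ _ ψ χ P P' hP hP' hs => ?_⟩, fun _ _ _ _ => rfl⟩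
  obtain ⟨hl, F, iF, fF, θ, n, hn, hd⟩ := hs
  obtain ⟨n', h1, h2, h3⟩ := h n hn
  have h4 := Dom.of_lifts (Q.lifts K K' ψ χ) ((Q.tr K' (χ.comp ψ)).dom θ n' h2)
  rw [RingHom.id_comp] at h4
  exact ⟨hl.glue (Q.lifts K K' ψ χ), F, iF, fF, θ, _, h3,
    Dom.glue Or.inl hP.nice hP'.nice (Q.tr K' _).nice hd h4 h1⟩

theorem exists_ctx_glueR [Fintype ι'] (Q : Fam k0 (Option ι')) (R : (Option ι → ℤ) → Prop)
    (R' : (ι' ⊕ ι → ℤ) → Prop)
    (h : ∀ n, R n → ∃ n' : Option ι' → ℤ, n none = -n' none ∧ R0 n' ∧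
      R' (Sum.elim (fun i => n' (some i)) fun i => n (some i))) :
    ∃ C : Ctx k0 (Option ι) (ι' ⊕ ι) R R', ∀ (K : Type) [Field K] (ψ : k0 →+* K) (P : AP K _),
      C.Φ K ψ P = glue (Q.Q K ψ) P := by
  refine ⟨⟨fun K _ ψ P => glue (Q.Q K ψ) P, fun K _ ψ P hP => (Q.tr K ψ).glue hP,
    fun K K' _ _ _ _ ψ χ P P' hl => (Q.lifts K K' ψ χ).glue hl,
    fun K K' _ _ _ _ ψ χ P P' _ hP' hs => ?_⟩, fun _ _ _ _ => rfl⟩
  obtain ⟨hl, F, iF, fF, θ, n, hn, hd⟩ := hs
  obtain ⟨n', h1, h2, h3⟩ := h n hn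
  have h4 := Dom.of_lifts (Q.lifts K K' ψ χ) ((Q.tr K' (χ.comp ψ)).dom θ n' h2)
  rw [RingHom.id_comp] at h4
  exact ⟨(Q.lifts K K' ψ χ).glue hl, F, iF, fF, θ, _, h3,
    Dom.glue Or.inr (Q.tr K ψ).nice (Q.tr K' _).nice hP'.nice h4 hd h1⟩

theorem exists_ctx_reidx (k0 : Type) [Field k0] (e : ι ≃ ι') (R : (ι → ℤ) → Prop)
    (R' : (ι' → ℤ) → Prop) (h : ∀ n, R n → R' fun i => n (e.symm i)) :
    ∃ C : Ctx k0 ι ι' R R', ∀ (K : Type) [Field K] (ψ : k0 →+* K) (P : AP K _),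
      C.Φ K ψ P = reidx e P := by
  refine ⟨⟨fun K _ _ P => reidx e P, fun K _ _ P hP => hP.reidx e,
    fun K K' _ _ _ _ _ χ P P' hl => hl.reidx e,
    fun K K' _ _ _ _ _ χ P P' _ _ hs => ?_⟩, fun _ _ _ _ => rfl⟩
  obtain ⟨hl, F, iF, fF, θ, n, hn, hd⟩ := hs
  exact ⟨hl.reidx e, F, iF, fF, θ, _, h n hn, hd.reidx e⟩

theorem exists_ctx_comp {R : (ι → ℤ) → Prop} {R' : (ι' → ℤ) → Prop} {R'' : (ι'' → ℤ) → Prop}
    (C : Ctx k0 ι ι' R R') (C' : Ctx k0 ι' ι'' R' R'') :
    ∃ C'' : Ctx k0 ι ι'' R R'', ∀ (K : Type) [Field K] (ψ : k0 →+* K) (P : AP K _),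
      C''.Φ K ψ P = C'.Φ K ψ (C.Φ K ψ P) := by
  exact ⟨⟨fun K _ ψ P => C'.Φ K ψ (C.Φ K ψ P), fun K _ ψ P hP => C'.tr K ψ _ (C.tr K ψ P hP),
    fun K K' _ _ _ _ ψ χ P P' hl => C'.lifts K K' ψ χ _ _ (C.lifts K K' ψ χ P P' hl),
    fun K K' _ _ _ _ ψ χ P P' hP hP' hs => C'.step K K' ψ χ _ _ (C.tr K ψ P hP)
      (C.tr K' _ P' hP') (C.step K K' ψ χ P P' hP hP' hs)⟩, fun _ _ _ _ => rfl⟩

theorem R0.reidx [Fintype ι] [Fintype ι'] (e : ι ≃ ι') (n : ι → ℤ) (h : R0 n) :
    R0 fun i => n (e.symm i) := by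
  unfold R0 at h ⊢
  rw [← h]
  exact Equiv.sum_comp e.symm n

theorem exists_ctx_glueL0 [Fintype ι] [Fintype ι'] [Nonempty ι'] (Q : Fam k0 (Option ι')) :
    ∃ C : Ctx k0 (Option ι) (ι ⊕ ι') R0 R0, ∀ (K : Type) [Field K] (ψ : k0 →+* K) (P : AP K _),
      C.Φ K ψ P = glue P (Q.Q K ψ) := by
  classical
  obtain ⟨j⟩ := (inferInstance : Nonempty ι')
  refine exists_ctx_glueL Q R0 R0 fun n hn =>
    ⟨fun o => o.elim (-n none) fun i => if i = j then n none else 0, rfl, ?_, ?_⟩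
  · simp [R0, Fintype.sum_option]
  · simp only [R0, Fintype.sum_option] at hn
    simp only [R0, Fintype.sum_sum_type, Sum.elim_inl, Sum.elim_inr, Option.elim,
      Finset.sum_ite_eq', Finset.mem_univ, if_true]
    linarith

theorem exists_ctx_glueR0 [Fintype ι] [Fintype ι'] [Nonempty ι'] (Q : Fam k0 (Option ι')) :
    ∃ C : Ctx k0 (Option ι) (ι' ⊕ ι) R0 R0, ∀ (K : Type) [Field K] (ψ : k0 →+* K) (P : AP K _),
      C.Φ K ψ P = glue (Q.Q K ψ) P := by
  classical
  obtain ⟨j⟩ := (inferInstance : Nonempty ι')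
  refine exists_ctx_glueR Q R0 R0 fun n hn =>
    ⟨fun o => o.elim (-n none) fun i => if i = j then n none else 0, (neg_neg _).symm, ?_, ?_⟩
  · simp [R0, Fintype.sum_option]
  · simp only [R0, Fintype.sum_option] at hn
    simp only [R0, Fintype.sum_sum_type, Sum.elim_inl, Sum.elim_inr, Option.elim,
      Finset.sum_ite_eq', Finset.mem_univ, if_true]
    linarith

variable {p : ℕ} {R : (ι → ℤ) → Prop} {R' : (ι' → ℤ) → Prop}

theorem Path.trans {N N' N'' : Nd p ι} {φ : N.k →+* N'.k} {ψ : N'.k →+* N''.k} {r r' : ℕ}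
    (h : Path R N N' φ r) (h' : Path R N' N'' ψ r') : Path R N N'' (ψ.comp φ) (r + r') := by
  induction h' with
  | refl => exact h
  | lift _ χ hl ih => exact ih.lift χ hl
  | step _ χ hs ih => exact ih.step χ hs

theorem Path.ctx {N N' : Nd p ι} {φ : N.k →+* N'.k} {r : ℕ} (h : Path R N N' φ r)
    (C : Ctx k0 ι ι' R R') (ψ : k0 →+* N.k) :
    Path R' (N.ctx C ψ) (N'.ctx C (φ.comp ψ)) φ r := by
  induction h with
  | refl => exact Path.refl
  | @lift N1 N2 φ r _ χ hl ih =>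
    exact Path.lift (N'' := N2.ctx C ((χ.comp φ).comp ψ)) ih χ
      (C.lifts N1.k N2.k (φ.comp ψ) χ _ _ hl)
  | @step N1 N2 φ r _ χ hs ih =>
    exact Path.step (N'' := N2.ctx C ((χ.comp φ).comp ψ)) ih χ
      (C.step N1.k N2.k (φ.comp ψ) χ _ _ N1.tr N2.tr hs)

end Pool.Agent.AdmG

end

section

/-! From chains of trees to chains of curves of genus g. -/

namespace Pool.Agent.AdmG

open Pool.Agent.Adm
open scoped OnePoint

theorem base_Fin1 {p r : ℕ} [Fact p.Prime] {κ : Type} [Fintype κ] (h : Ch p κ r) :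
    ∃ (N N' : Nd p (W κ)) (φ : N.k →+* N'.k), Path R0 N N' φ r := by
  obtain ⟨S, h1, -, h3⟩ := h
  obtain ⟨N', φ, -, -, -, h4⟩ :=
    h3 { k := AlgebraicClosure (ZMod p), P := S _, tr := h1 _ } rfl
  exact ⟨_, N', φ, h4⟩

theorem Ch.le_dim_zero {p r n : ℕ} [Fact p.Prime] {κ : Type} [Fintype κ] (h : Ch p κ r)
    (hn : Fintype.card κ + 3 = n) : (r : WithBot ℕ∞) ≤ topologicalKrullDim (PiBar p 0 n) := by
  obtain ⟨N, N', φ, hp⟩ := base_Fin1 h
  have e : W κ ≃ (Fin 0 ⊕ Fin 0) ⊕ Fin n := Fintype.equivOfCardEq (by simp [← hn])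
  obtain ⟨C, -⟩ := exists_ctx_reidx N.k e R0 RP fun _ _ j => j.elim0
  exact (hp.ctx C (RingHom.id _)).le_dim (Fintype.card_fin 0)

theorem Ch.le_dim_glue {p r r' g n : ℕ} [Fact p.Prime] {κ κ' I I' : Type} [Fintype κ] [Fintype κ']
    [Fintype I] [Fintype I'] (h : Ch p κ r) (h' : Ch p κ' r')
    (e : W κ ≃ Option (Fin g ⊕ I)) (e' : W κ' ≃ Option (Fin g ⊕ I')) (f : I ⊕ I' ≃ Fin n)
    (hI : IsEmpty I ∨ Nonempty I') : (r : WithBot ℕ∞) ≤ topologicalKrullDim (PiBar p g n) := by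
  classical
  obtain ⟨N, N', φ, hp⟩ := base_Fin1 h
  obtain ⟨S', h1, h2, -⟩ := h'
  obtain ⟨C1, -⟩ := exists_ctx_reidx N.k e R0 R0 (R0.reidx e)
  let Q : Fam N.k (Option (Fin g ⊕ I')) :=
    { Q := fun K _ _ => AdmG.reidx e' (S' K)
      tr := fun K _ _ => (h1 K).reidx e'
      lifts := fun K K' _ _ _ _ _ χ => (h2 K K' χ).reidx e' }
  obtain ⟨C2, -⟩ := exists_ctx_glueL (ι := Fin g ⊕ I) Q R0
    (fun n => ∀ j, n (.inr (.inl j)) = -n (.inl (.inl j))) (by
      intro a ha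
      obtain ⟨m, hm⟩ : ∃ m : I' → ℤ, ∑ i, m i = -∑ i, a (some (.inr i)) := by
        rcases hI with hI | ⟨⟨i0⟩⟩
        · exact ⟨0, by simp⟩
        · exact ⟨Pi.single i0 (-∑ i, a (some (.inr i))), by simp⟩
      refine ⟨fun o => o.elim (-a none) (Sum.elim (fun j => -a (some (.inl j))) m), rfl, ?_,
        fun j => rfl⟩
      simp only [R0, Fintype.sum_option, Fintype.sum_sum_type, Option.elim, Sum.elim_inl,
        Sum.elim_inr, Finset.sum_neg_distrib, hm] at ha ⊢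
      linarith)
  obtain ⟨C3, -⟩ := exists_ctx_reidx N.k
    ((Equiv.sumSumSumComm (Fin g) I (Fin g) I').trans (Equiv.sumCongr (Equiv.refl _) f))
    (fun n => ∀ j, n (.inr (.inl j)) = -n (.inl (.inl j))) RP fun _ ha j => ha j
  exact (((hp.ctx C1 (RingHom.id _)).ctx C2 (RingHom.id _)).ctx C3 (RingHom.id _)).le_dim
    (Fintype.card_fin g)

end Pool.Agent.AdmG

end

section

/-! The contexts of the two recursive constructions. -/

namespace Pool.Agent.AdmG

open Pool.Agent.Adm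
open scoped OnePoint

variable {k k0 κ : Type} [Field k] [Field k0]

/-- Indices for `two`. -/
def eTwo (κ : Type) : Option (Option κ) ⊕ Option (Option Empty) ≃ W (Option κ) where
  toFun := Sum.elim (fun o => o.elim (some none) fun o => some (some (some o)))
    fun o => o.elim none fun _ => some (some none)
  invFun o := o.elim (.inr none) fun o => o.elim (.inl none) fun o =>
    o.elim (.inr (some none)) fun o => .inl (some o)
  left_inv := by rintro ((_ | o) | (_ | _ | o)) <;> first | rfl | exact o.elim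
  right_inv := by rintro (_ | _ | _ | o) <;> rfl

theorem two_eq (A : AP k (W κ)) :
    two A = reidx (eTwo κ) (glue A (reidx (sw (Option Empty)) (tri k))) := by
  funext G _ d H
  refine propext (exists_congr fun x => exists_congr fun H1 => exists_congr fun H2 =>
    and_congr (iff_of_eq (congrArg (fun f => A G f H1) (funext ?_)))
      (and_congr_left' (iff_of_eq (congrArg (fun f => tri k G f H2) (funext ?_)))))
  · rintro (_ | _ | o) <;> rfl
  · rintro (_ | _ | _ | o) <;> rfl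

/-- Indices for the line with three points glued to B. -/
def eMid (κ : Type) : Option (Option Empty) ⊕ Option (Option κ) ≃ W (Option κ) where
  toFun := Sum.elim (fun o => o.elim none fun _ => some none) fun o => some (some o)
  invFun o := o.elim (.inl none) fun o => o.elim (.inl (some none)) fun o => .inr o
  left_inv := by rintro ((_ | _ | o) | o) <;> first | rfl | exact o.elim
  right_inv := by rintro (_ | _ | o) <;> rfl

/-- Indices for `three`. -/
def eThree (κ : Type) :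
    Option (Option κ) ⊕ Option (Option (Option κ)) ≃ W (Option κ ⊕ Option κ) where
  toFun := Sum.elim (fun o => o.elim (some none) fun o => some (some (some (.inl o))))
    fun o => o.elim (some (some none)) fun o => o.elim none fun o => some (some (some (.inr o)))
  invFun o := o.elim (.inr (some none)) fun o => o.elim (.inl none) fun o =>
    o.elim (.inr none) (Sum.elim (fun o => .inl (some o)) fun o => .inr (some (some o)))
  left_inv := by rintro ((_ | o) | (_ | _ | o)) <;> rfl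
  right_inv := by rintro (_ | _ | _ | o | o) <;> rfl

theorem three_eq (A B : AP k (W κ)) :
    three A B = reidx (eThree κ) (glue A (reidx (eMid κ)
      (glue (tri k) (reidx (sw (Option κ)) B)))) := by
  funext G _ d H
  have e1 : ∀ x : Dat k G, (fun o : W κ => o.elim x fun o => o.elim (d (some none))
      fun o => d (some (some (some (.inl o))))) =
      fun o => o.elim x fun i => d (eThree κ (.inl i)) := fun x => by
    funext o
    rcases o with _ | _ | o <;> rfl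
  have e2 : ∀ x y : Dat k G, (fun o : W Empty => o.elim y fun o => o.elim (dinv x)
      fun _ => d (some (some none))) = fun o => o.elim y fun i =>
        (eMid κ (.inl i)).elim (dinv x) fun i => d (eThree κ (.inr i)) := fun x y => by
    funext o
    rcases o with _ | _ | _ | o <;> rfl
  have e3 : ∀ x y : Dat k G, (fun o : W κ => o.elim (d none) fun o => o.elim (dinv y)
      fun o => d (some (some (some (.inr o))))) = fun o => (sw (Option κ) o).elim (dinv y) fun i =>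
        (eMid κ (.inr i)).elim (dinv x) fun i => d (eThree κ (.inr i)) := fun x y => by
    funext o
    rcases o with _ | _ | o <;> rfl
  refine propext ⟨?_, ?_⟩
  · rintro ⟨x, y, H1, H2, H3, h1, h2, h3, rfl⟩
    rw [e1] at h1
    rw [e2] at h2
    rw [e3 x] at h3
    exact ⟨x, H1, H2 ⊔ H3, h1, ⟨y, H2, H3, h2, h3, rfl⟩, sup_assoc _ _ _⟩
  · rintro ⟨x, H1, _, h1, ⟨y, H2, H3, h2, h3, rfl⟩, rfl⟩
    refine ⟨x, y, H1, H2, H3, ?_, ?_, ?_, (sup_assoc _ _ _).symm⟩
    · rw [e1]; exact h1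
    · rw [e2]; exact h2
    · rw [e3 x]; exact h3

theorem Tr.two {A : AP k (W κ)} (h : Tr k _ A) : Tr k _ (two A) := by
  rw [two_eq]
  exact .reidx _ (.glue h (.reidx _ (tr_tri k)))

theorem Tr.three {A B : AP k (W κ)} (h : Tr k _ A) (h' : Tr k _ B) : Tr k _ (three A B) := by
  rw [three_eq]
  exact .reidx _ (.glue h (.reidx _ (.glue (tr_tri k) (.reidx _ h'))))

theorem exists_ctx_two (k0 κ : Type) [Field k0] [Fintype κ] :
    ∃ C : Ctx k0 (W κ) (W (Option κ)) R0 R0, ∀ (K : Type) [Field K] (ψ : k0 →+* K) (P : AP K _),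
      C.Φ K ψ P = two P := by
  obtain ⟨C1, h1⟩ := exists_ctx_glueL0 (k0 := k0) (ι := Option (Option κ))
    ⟨fun K _ _ => reidx (sw (Option Empty)) (tri K), fun K _ _ => .reidx _ (tr_tri K),
      fun _ _ _ _ _ _ _ χ => (lifts_tri χ).reidx _⟩
  obtain ⟨C2, h2⟩ := exists_ctx_reidx k0 (eTwo κ) R0 R0 (R0.reidx _)
  obtain ⟨C, h⟩ := exists_ctx_comp C1 C2
  exact ⟨C, fun K _ ψ P => by rw [h, h2, h1, two_eq]⟩

theorem exists_ctx_threeL [Fintype κ] (Q : Fam k0 (W κ)) :
    ∃ C : Ctx k0 (W κ) (W (Option κ ⊕ Option κ)) R0 R0,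
      ∀ (K : Type) [Field K] (ψ : k0 →+* K) (P : AP K _), C.Φ K ψ P = three P (Q.Q K ψ) := by
  obtain ⟨C1, h1⟩ := exists_ctx_glueL0 (k0 := k0) (ι := Option (Option κ))
    ⟨fun K _ ψ => reidx (eMid κ) (glue (tri K) (reidx (sw (Option κ)) (Q.Q K ψ))),
      fun K _ ψ => .reidx _ (.glue (tr_tri K) (.reidx _ (Q.tr K ψ))),
      fun K K' _ _ _ _ ψ χ => ((lifts_tri χ).glue ((Q.lifts K K' ψ χ).reidx _)).reidx _⟩
  obtain ⟨C2, h2⟩ := exists_ctx_reidx k0 (eThree κ) R0 R0 (R0.reidx _)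
  obtain ⟨C, h⟩ := exists_ctx_comp C1 C2
  exact ⟨C, fun K _ ψ P => by rw [h, h2, h1, three_eq]⟩

theorem exists_ctx_threeR [Fintype κ] (Q : Fam k0 (W κ)) :
    ∃ C : Ctx k0 (W κ) (W (Option κ ⊕ Option κ)) R0 R0,
      ∀ (K : Type) [Field K] (ψ : k0 →+* K) (P : AP K _), C.Φ K ψ P = three (Q.Q K ψ) P := by
  obtain ⟨C1, h1⟩ := exists_ctx_reidx k0 (sw (Option κ)) R0 R0 (R0.reidx _)
  obtain ⟨C2, h2⟩ := exists_ctx_glueR0 (k0 := k0) (ι := Option (Option κ))
    ⟨fun K _ _ => tri K, fun K _ _ => tr_tri K, fun _ _ _ _ _ _ _ χ => lifts_tri χ⟩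
  obtain ⟨C3, h3⟩ := exists_ctx_reidx k0 (eMid κ) R0 R0 (R0.reidx _)
  obtain ⟨C4, h4⟩ := exists_ctx_glueR0 (ι := Option (Option (Option κ))) Q
  obtain ⟨C5, h5⟩ := exists_ctx_reidx k0 (eThree κ) R0 R0 (R0.reidx _)
  obtain ⟨D2, g2⟩ := exists_ctx_comp C1 C2
  obtain ⟨D3, g3⟩ := exists_ctx_comp D2 C3
  obtain ⟨D4, g4⟩ := exists_ctx_comp D3 C4
  obtain ⟨C, h⟩ := exists_ctx_comp D4 C5
  exact ⟨C, fun K _ ψ P => by rw [h, h5, g4, h4, g3, h3, g2, h2, h1, three_eq]⟩

end Pool.Agent.AdmG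

end

section

/-! The smoothing steps are strict. -/

namespace Pool.Agent.AdmG

open Pool.Agent.Adm
open scoped OnePoint
open Polynomial

theorem exists_theta (p : ℕ) [Fact p.Prime] (k : Type) [Field k] [IsAlgClosed k] [CharP k p] :
    ∃ (F : Type) (_ : Field F) (_ : Fintype F) (_ : F →+* k), Fintype.card F = p ^ 2 := by
  classical
  let : Algebra (ZMod p) k := ZMod.algebra k p
  let : Fintype (GaloisField p 2) := Fintype.ofFinite _
  refine ⟨GaloisField p 2, inferInstance, inferInstance,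
    (IsAlgClosed.lift : GaloisField p 2 →ₐ[ZMod p] k).toRingHom, ?_⟩
  rw [← Nat.card_eq_fintype_card, GaloisField.card p 2 two_ne_zero]

variable {k k' κ : Type} [Field k] [IsAlgClosed k] [Field k'] [IsAlgClosed k'] [Fintype κ]

omit [IsAlgClosed k] in
theorem step_aux_St1 (p : ℕ) [hp : Fact p.Prime] [CharP k p] (φ : k →+* k') {F : Type} [Field F]
    [Fintype F] (θ : F →+* k) (hF : Fintype.card F = p ^ 2) {P : AP k (W κ)} (hP : Nice P)
    (u : κ → k') (hu : Function.Injective (gen u)) (hl : Lifts φ P (vtx (gen u))) (j0 : κ)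
    (hfix : ∀ N : W κ → ℤ, N (some none) = (p : ℤ) ^ 2 - p - 1 → N (some (some none)) = p →
      N (some (some (some j0))) = 1 → (∀ j, j ≠ j0 → N (some (some (some j))) = 0) →
      AllFix θ P N) : Step R0 φ P (vtx (gen u)) := by
  classical
  have h2 : 2 ≤ p := hp.out.two_le
  have h3 : p + 2 ≤ p ^ 2 := by nlinarith
  have : CharP k' p := charP_of_injective_ringHom φ.injective p
  let n : Option (Option κ) → ℕ := fun o =>
    o.elim (p ^ 2 - p - 1) fun o => o.elim p fun j => if j = j0 then 1 else 0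
  have hs : ∑ i, n i = p ^ 2 := by
    simp only [n, Fintype.sum_option, Option.elim_none, Option.elim_some, Finset.sum_ite_eq',
      Finset.mem_univ, if_true]
    omega
  have h0 : u j0 ≠ 0 := fun e => by
    have : gen u (some (some (some j0))) = gen u (some none) := by
      simp only [gen, Option.elim_none, Option.elim_some, e]
    simpa using hu this
  refine step_of φ θ hP u hu hl n ?_ (by omega) (by omega) ?_ (hfix _ ?_ rfl ?_ fun j hj => ?_)
  · rintro (_ | _ | j)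
    · change p ^ 2 - p - 1 < _
      omega
    · change p < _
      omega
    · change (if j = j0 then 1 else 0) < _
      split_ifs <;> omega
  · rw [coeff_prod_pred _ n _ (by omega), neg_ne_zero]
    simpa [n, fin, Fintype.sum_option] using h0
  · change ((p ^ 2 - p - 1 : ℕ) : ℤ) = _
    rw [Nat.cast_sub (by omega), Nat.cast_sub (by omega)]
    push_cast
    rfl
  · simp [n]
  · simp [n, hj]

theorem step_two (p : ℕ) [Fact p.Prime] [CharP k p] (φ : k →+* k') (s : κ → k)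
    (hs : Function.Injective (gen s)) (u : Option κ → k') (hu : Function.Injective (gen u))
    (hl : Lifts φ (two (vtx (gen s))) (vtx (gen u))) :
    Step R0 φ (two (vtx (gen s))) (vtx (gen u)) := by
  obtain ⟨F, _, _, θ, hF⟩ := exists_theta p k
  exact step_aux_St1 p φ θ hF (tr_gen s hs).two.nice u hu hl none fun N h0 h1 h2 h3 =>
    allFix_two θ p Fact.out hF s hs N h0 h1 h2 fun i => h3 _ (by simp)

theorem step_three (p : ℕ) [Fact p.Prime] [CharP k p] (φ : k →+* k') (s s' : κ → k)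
    (hs : Function.Injective (gen s)) (hs' : Function.Injective (gen s'))
    (u : Option κ ⊕ Option κ → k') (hu : Function.Injective (gen u))
    (hl : Lifts φ (three (vtx (gen s)) (vtx (gen s'))) (vtx (gen u))) :
    Step R0 φ (three (vtx (gen s)) (vtx (gen s'))) (vtx (gen u)) := by
  obtain ⟨F, _, _, θ, hF⟩ := exists_theta p k
  exact step_aux_St1 p φ θ hF ((tr_gen s hs).three (tr_gen s' hs')).nice u hu hl (.inl none)
    fun N h0 h1 h2 h3 => allFix_three θ p Fact.out hF s s' hs hs' N h0 h1 h2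
      (fun i => h3 _ (by simp)) fun o => h3 _ (by simp)

end Pool.Agent.AdmG

end

section

/-! Smoothing one node. -/

namespace Pool.Agent.AdmG

open Pool.Agent.Adm
open scoped OnePoint

variable {k C κ : Type} [Field k] [IsAlgClosed k] [NormedField C] [CompleteSpace C]
  [IsUltrametricDist C] [IsAlgClosed C]

theorem lifts_two (φ : k →+* C) (hφ : ∀ x, ‖φ x‖ ≤ 1) (t : C) (h0 : t ≠ 0) (ht : ‖t‖ < 1)
    (s : κ → k) :
    Lifts φ (two (vtx (gen s))) (vtx (gen fun o : Option κ => t * φ (o.elim 1 s))) := by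
  rintro G _ _ d H ⟨x, H1, H2, ⟨c1, T1, m1, rfl⟩, ⟨c2, T2, m2, rfl⟩, rfl⟩
  have hinf : c2.Mono ∞ (d none).1 (d none).2.1 (d none).2.2 := m2 none
  obtain ⟨cB, b1, b2, b3, b4⟩ := exists_kummer0 _ hinf.1 _ hinf.2.1.inv _ hinf.pow_eq_one
  rw [inv_inv] at b3
  obtain ⟨c, r, mA, mM, mB, mI, mr⟩ := smooth_two φ hφ t t h0 ht h0 ht c1 c2 cB
    ⟨_, _, _, m1 none, m2 (some none)⟩ ⟨_, _, _, hinf, b2⟩
  refine ⟨c, ?_, fun i => ?_, ?_⟩
  · refine tame_S1 φ t t c _ ⟨_, _, _, mI _ _ _ b3, fun hn => absurd ⟨none, rfl⟩ hn⟩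
      (fun y => ?_) (fun y hy => ?_) (fun y hy => ?_) mr
    · obtain ⟨e, ζ, g, hm, hg⟩ := T1 y
      refine ⟨_, _, _, mA y e ζ g hm, fun hn => hg ?_⟩
      rintro ⟨_ | _ | o, ho⟩
      · exact OnePoint.infty_ne_coe _ ho
      · obtain rfl : (0 : k) = y := OnePoint.coe_eq_coe.1 ho
        exact hn ⟨some none, OnePoint.coe_eq_coe.2 (by simp)⟩
      · obtain rfl : o.elim 1 s = y := OnePoint.coe_eq_coe.1 ho
        exact hn ⟨some (some (some o)), rfl⟩
    · obtain ⟨e, ζ, g, hm, hg⟩ := T2 y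
      refine ⟨_, _, _, mM y e ζ g hy hm, fun hn => hg ?_⟩
      rintro ⟨_ | _ | _ | o, ho⟩
      · exact OnePoint.infty_ne_coe _ ho
      · exact hy (OnePoint.coe_eq_coe.1 ho).symm
      · obtain rfl : (1 : k) = y := OnePoint.coe_eq_coe.1 ho
        exact hn ⟨some (some none), OnePoint.coe_eq_coe.2 (map_one φ).symm⟩
      · exact o.elim
    · exact ⟨_, _, _, mB y _ _ _ hy (b4 y hy), fun _ => rfl⟩
  · rcases i with _ | _ | _ | o
    · exact mI _ _ _ b3
    · have := mA 0 _ _ _ (m1 (some none))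
      rw [map_zero, mul_zero] at this
      exact this
    · have := mM 1 _ _ _ one_ne_zero (m2 (some (some none)))
      rw [map_one] at this
      exact this
    · exact mA _ _ _ _ (m1 (some (some o)))
  · rw [r]
    exact sup_eq_left.2 ((le_range_S1 hinf b1).trans le_sup_right)

end Pool.Agent.AdmG

end

section

/-! Algebraic independence. -/

namespace Pool.Agent.AdmG

open Pool.Agent.Adm
open scoped OnePoint

variable {k0 k K C κ κ' : Type} [Field k0] [Field k] [Field K] [Field C]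

theorem gen_iff_Ind1 (s : κ → K) :
    Function.Injective (gen s) ↔ Function.Injective s ∧ ∀ i, s i ≠ 0 ∧ s i ≠ 1 := by
  refine ⟨fun h => ⟨fun i j e => ?_, fun i => ⟨fun e => ?_, fun e => ?_⟩⟩, fun h => ?_⟩
  · simpa using h (a₁ := some (some (some i))) (a₂ := some (some (some j))) (congrArg OnePoint.some e)
  · simpa using h (a₁ := some (some (some i))) (a₂ := some none) (congrArg OnePoint.some e)
  · simpa using h (a₁ := some (some (some i))) (a₂ := some (some none)) (congrArg OnePoint.some e)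
  · rintro (_ | a) (_ | b) e
    · rfl
    · exact (OnePoint.infty_ne_coe _ e).elim
    · exact (OnePoint.coe_ne_infty _ e).elim
    · have e' : fin s a = fin s b := OnePoint.coe_injective e
      rcases a with _ | _ | a <;> rcases b with _ | _ | b
      · rfl
      · exact (zero_ne_one e').elim
      · exact ((h.2 b).1 e'.symm).elim
      · exact (one_ne_zero e').elim
      · rfl
      · exact ((h.2 b).2 e'.symm).elim
      · exact ((h.2 a).1 e').elim
      · exact ((h.2 a).2 e').elim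
      · rw [h.1 e']

theorem ind_iff (φ : k →+* K) (s : κ → K) :
    Ind φ s ↔ ∀ P : MvPolynomial κ k, MvPolynomial.eval₂ φ s P = 0 → P = 0 := by
  let := φ.toAlgebra
  exact algebraicIndependent_iff

theorem ind_empty [IsEmpty κ] (φ : k →+* K) (s : κ → K) : Ind φ s := by
  let := φ.toAlgebra
  exact algebraicIndependent_empty_type_iff.2 φ.injective

theorem Ind.map {φ : k →+* K} {s : κ → K} (h : Ind φ s) (ψ : K →+* C) :
    Ind (ψ.comp φ) fun i => ψ (s i) := by
  refine (ind_iff _ _).2 fun P hP => (ind_iff _ _).1 h P (ψ.injective ?_)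
  rw [MvPolynomial.eval₂_comp_left, map_zero]
  exact hP

theorem Ind.down {φ : k →+* K} {s : κ → K} (h : Ind φ s) (φ0 : k0 →+* k) :
    Ind (φ.comp φ0) s := by
  refine (ind_iff _ _).2 fun P hP => MvPolynomial.map_injective φ0 φ0.injective ?_
  rw [map_zero]
  exact (ind_iff _ _).1 h _ ((MvPolynomial.eval₂_map φ0 s φ P).trans hP)

theorem Ind.comp {φ : k →+* K} {s : κ → K} (h : Ind φ s) (f : κ' → κ)
    (hf : Function.Injective f) : Ind φ fun i => s (f i) := by
  let := φ.toAlgebra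
  exact AlgebraicIndependent.comp h f hf

theorem Ind.notMem {φ : k →+* K} {s : κ → K} (h : Ind φ s) (i : κ) : s i ∉ Set.range φ := by
  let := φ.toAlgebra
  rintro ⟨c, hc⟩
  exact AlgebraicIndependent.transcendental h i (hc ▸ isAlgebraic_algebraMap c)

theorem Ind.gen_inj {φ : k →+* K} {s : κ → K} (h : Ind φ s) : Function.Injective (gen s) := by
  let := φ.toAlgebra
  exact (gen_iff_Ind1 s).2 ⟨AlgebraicIndependent.injective h, fun i =>
    ⟨fun e => h.notMem i ⟨0, (map_zero φ).trans e.symm⟩,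
      fun e => h.notMem i ⟨1, (map_one φ).trans e.symm⟩⟩⟩

theorem gen_inj_iff (s : κ → K) :
    Function.Injective (gen s) ↔ Function.Injective s ∧ ∀ i, s i ≠ 0 ∧ s i ≠ 1 := by
  exact gen_iff_Ind1 s

theorem Ind.option [IsAlgClosed K] {φ : k →+* K} {s : κ → K} (h : Ind φ s) (ψ : K →+* C) (x : C)
    (hx : x ∉ Set.range ψ) : Ind (ψ.comp φ) fun o : Option κ => o.elim x fun i => ψ (s i) := by
  refine (ind_iff _ _).2 fun P hP => (MvPolynomial.optionEquivLeft k κ).injective ?_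
  have hi : Function.Injective (MvPolynomial.eval₂Hom φ s) :=
    (injective_iff_map_eq_zero _).2 ((ind_iff _ _).1 h)
  have e : (Polynomial.eval₂RingHom (ψ.comp (MvPolynomial.eval₂Hom φ s)) x).comp
      (MvPolynomial.optionEquivLeft k κ).toRingEquiv.toRingHom =
      MvPolynomial.eval₂Hom (ψ.comp φ) fun o : Option κ => o.elim x fun i => ψ (s i) := by
    refine MvPolynomial.ringHom_ext (fun c => by simp) fun o => ?_
    cases o <;> simp
  rw [map_zero]
  by_contra h0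
  refine eval₂_ne_zero_of_notMem ψ x hx _ ((Polynomial.map_ne_zero_iff hi).2 h0) ?_
  rw [Polynomial.eval₂_map]
  exact (RingHom.congr_fun e P).trans hP

theorem Ind.update [IsAlgClosed K] [DecidableEq κ] {φ : k →+* K} {s : κ → K} (A : Set κ)
    (h : Ind φ fun i : A => s i) (ψ : K →+* C) (i0 : κ) (hi : i0 ∉ A) (x : C)
    (hx : x ∉ Set.range ψ) :
    Ind (ψ.comp φ) fun i : (insert i0 A : Set κ) =>
      Function.update (fun i => ψ (s i)) i0 x i := by
  have h1 := (h.option ψ x hx).comp (fun i : (insert i0 A : Set κ) =>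
    if e : i.1 = i0 then none else some (⟨i, i.2.resolve_left e⟩ : A)) fun i j e => by
      dsimp only at e
      split_ifs at e with a b
      · exact Subtype.ext (a.trans b.symm)
      · exact Subtype.ext (congrArg (fun z : A => z.1) (Option.some.inj e))
  convert h1 using 2 with i
  by_cases e : i.1 = i0
  · rw [dif_pos e, e, Function.update_self]
    rfl
  · rw [dif_neg e, Function.update_of_ne e]
    rfl

theorem gen_update_inj [DecidableEq κ] {s : κ → K} (hs : Function.Injective (gen s))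
    (ψ : K →+* C) (i0 : κ) (x : C) (hx : x ∉ Set.range ψ) :
    Function.Injective (gen (Function.update (fun i => ψ (s i)) i0 x)) := by
  obtain ⟨h1, h2⟩ := (gen_inj_iff s).1 hs
  refine (gen_inj_iff _).2 ⟨fun i j e => ?_, fun i => ?_⟩
  · by_cases a : i = i0 <;> by_cases b : j = i0
    · rw [a, b]
    · rw [a, Function.update_self, Function.update_of_ne b] at e
      exact (hx ⟨_, e.symm⟩).elim
    · rw [b, Function.update_self, Function.update_of_ne a] at e
      exact (hx ⟨_, e⟩).elim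
    · rw [Function.update_of_ne a, Function.update_of_ne b] at e
      exact h1 (ψ.injective e)
  · by_cases a : i = i0
    · rw [a, Function.update_self]
      exact ⟨fun e => hx ⟨0, (map_zero ψ).trans e.symm⟩, fun e => hx ⟨1, (map_one ψ).trans e.symm⟩⟩
    · rw [Function.update_of_ne a]
      exact ⟨(map_ne_zero ψ).2 (h2 i).1, (map_ne_one_iff ψ ψ.injective).2 (h2 i).2⟩

end Pool.Agent.AdmG

end

section

/-! The completion of an algebraically closed field is algebraically closed. -/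

namespace Pool.Agent.Adm

open Polynomial in
theorem aux_FC1 {K L : Type} [Field K] [IsAlgClosed K] [NontriviallyNormedField L]
    [CompleteSpace L] [IsUltrametricDist L] [Algebra K L] (hi : DenseRange (algebraMap K L)) :
    IsAlgClosed L := by
  refine IsAlgClosed.of_exists_root _ fun f fmon firr => ?_
  have h0 : f.natDegree ≠ 0 := (Irreducible.natDegree_pos firr).ne'
  let F := f.SplittingField
  let : NormedField F := spectralNorm.normedField L F
  let : NormedAlgebra L F := spectralNorm.normedAlgebra L F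
  obtain ⟨a, ha⟩ : ∃ a : F, f.aeval a = 0 :=
    ⟨_, (eval_map_algebraMap ..).symm.trans (eval_rootOfSplits (SplittingField.splits f)
      (by simpa using degree_ne_of_natDegree_ne h0))⟩
  obtain ⟨x, rfl⟩ : a ∈ Set.range (algebraMap L F) := by
    rw [← (algebraMap_isometry L F).isClosedEmbedding.isClosed_range.closure_eq,
      Metric.mem_closure_iff]
    intro δ hδ
    have hε : (δ / (max ‖a‖ 1)) ^ f.natDegree / (f.natDegree + 1) > 0 := by positivity
    obtain ⟨g, gmon, gdeg, gcoeff⟩ :=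
      exists_monic_and_natDegree_eq_and_norm_map_algebraMap_coeff_sub_lt hi fmon hε
    obtain ⟨b, hb, hab⟩ := exists_aroots_norm_sub_lt_of_norm_coeff_sub_lt
      hε ha fmon (gmon.map _) (gdeg ▸ (g.natDegree_map _)) gcoeff
      (by simpa [Polynomial.map_map] using (IsAlgClosed.splits g).map ((algebraMap L F).comp _))
    rw [aroots_def, Splits.roots_map ((IsAlgClosed.splits g).map _), Multiset.mem_map] at hb
    refine ⟨b, hb.imp fun _ h => h.2, ?_⟩
    rw [← Real.rpow_natCast, ← mul_comm_div, div_self (by positivity), one_mul,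
      ← Real.rpow_mul (by positivity), mul_inv_cancel₀ (by simpa using h0), Real.rpow_one,
      div_mul_cancel₀ _ (by positivity)] at hab
    rwa [dist_eq_norm]
  exact ⟨x, (algebraMap L F).injective (by
    rwa [← aeval_algebraMap_apply_eq_algebraMap_eval, map_zero])⟩

theorem isAlgClosed_of_dense {K L : Type} [Field K] [IsAlgClosed K] [NormedField L]
    [CompleteSpace L] [IsUltrametricDist L] (φ : K →+* L) (h : DenseRange φ) : IsAlgClosed L := by
  by_cases hL : ∃ x : L, x ≠ 0 ∧ ‖x‖ ≠ 1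
  · exact @aux_FC1 K L _ _ (.ofNormNeOne hL) ‹_› ‹_› φ.toAlgebra h
  refine IsAlgClosed.of_ringEquiv K L (RingEquiv.ofBijective φ ⟨φ.injective, fun y => ?_⟩)
  obtain ⟨k, hk⟩ := Metric.denseRange_iff.1 h y 1 one_pos
  exact ⟨k, by_contra fun e => hL ⟨_, sub_ne_zero.2 (Ne.symm e), (dist_eq_norm y _ ▸ hk).ne⟩⟩

end Pool.Agent.Adm

end

section

/-! A complete algebraically closed nonarchimedean field over a trivially valued field. -/

namespace Pool.Agent.Adm

open UniformSpace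

/-- The property transported along the chain of fields. -/
def Good_FC (k C : Type) [Field k] [NormedField C] : Prop :=
  ∃ φ : k →+* C, (∀ x, ‖φ x‖ ≤ 1) ∧ ∃ t : C, t ≠ 0 ∧ ‖t‖ < 1

theorem Good_FC.map_FC {k C D : Type} [Field k] [NormedField C] [NormedField D]
    (h : Good_FC k C) (ψ : C →+* D) (hψ : ∀ x, ‖ψ x‖ = ‖x‖) : Good_FC k D := by
  obtain ⟨φ, h1, t, ht0, ht1⟩ := h
  refine ⟨ψ.comp φ, fun x => ?_, ψ t, (map_ne_zero ψ).2 ht0, ?_⟩
  · rw [RingHom.comp_apply, hψ]; exact h1 x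
  · rw [hψ]; exact ht1

theorem base_FC (k : Type) [Field k] :
    ∃ (K : Type) (_ : NormedField K) (_ : IsUltrametricDist K), Good_FC k K := by
  have he : (1 : NNReal) < 2 := by norm_num
  let v := (Polynomial.idealX k).valuation (RatFunc k)
  let g := WithZeroMulInt.toNNReal (e := 2) (ne_zero_of_lt he)
  have hg : StrictMono g := WithZeroMulInt.toNNReal_strictMono he
  have hmax : ∀ x y : RatFunc k, (g (v (x + y)) : ℝ) ≤ max (g (v x) : ℝ) (g (v y) : ℝ) := by
    intro x y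
    have h := v.map_add x y
    rcases le_total (v x) (v y) with h1 | h1
    · rw [max_eq_right h1] at h
      exact le_max_of_le_right (by exact_mod_cast hg.monotone h)
    · rw [max_eq_left h1] at h
      exact le_max_of_le_left (by exact_mod_cast hg.monotone h)
  let f : AbsoluteValue (RatFunc k) ℝ :=
    { toFun := fun x => (g (v x) : ℝ)
      map_mul' := fun x y => by simp only [map_mul, NNReal.coe_mul]
      nonneg' := fun x => NNReal.coe_nonneg _
      eq_zero' := fun x => by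
        simp only [NNReal.coe_eq_zero, map_eq_zero]
      add_le' := fun x y => by
        refine (hmax x y).trans (max_le ?_ ?_)
        · exact le_add_of_nonneg_right (NNReal.coe_nonneg _)
        · exact le_add_of_nonneg_left (NNReal.coe_nonneg _) }
  let _ : NormedField (RatFunc k) := f.toNormedField
  have hn : ∀ x : RatFunc k, ‖x‖ = (g (v x) : ℝ) := fun _ => rfl
  refine ⟨RatFunc k, inferInstance,
    IsUltrametricDist.isUltrametricDist_of_isNonarchimedean_norm hmax,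
    (algebraMap (Polynomial k) (RatFunc k)).comp Polynomial.C, fun x => ?_,
    algebraMap (Polynomial k) (RatFunc k) Polynomial.X, ?_, ?_⟩
  · rw [hn, RingHom.comp_apply]
    have h : v (algebraMap (Polynomial k) (RatFunc k) (Polynomial.C x)) ≤ 1 :=
      IsDedekindDomain.HeightOneSpectrum.valuation_le_one _ _
    have h2 := hg.monotone h
    rw [map_one] at h2
    exact_mod_cast h2
  · exact (map_ne_zero_iff _ (IsFractionRing.injective _ _)).2 Polynomial.X_ne_zero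
  · rw [hn]
    have h : v (algebraMap (Polynomial k) (RatFunc k) Polynomial.X) < 1 := by
      refine (IsDedekindDomain.HeightOneSpectrum.valuation_lt_one_iff_mem _ _).2 ?_
      rw [Polynomial.idealX_span]
      exact Ideal.mem_span_singleton_self _
    have h2 := hg h
    rw [map_one] at h2
    exact_mod_cast h2

theorem ultra_completion_FC (K : Type) [NormedField K] [IsUltrametricDist K] :
    IsUltrametricDist (Completion K) := by
  refine IsUltrametricDist.isUltrametricDist_of_isNonarchimedean_norm fun x y => ?_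
  refine Completion.induction_on₂ x y ?_ fun a b => ?_
  · exact isClosed_le (by fun_prop) (by fun_prop)
  · rw [← Completion.coe_add, Completion.norm_coe, Completion.norm_coe, Completion.norm_coe]
    exact IsUltrametricDist.norm_add_le_max a b

theorem completion_FC (k K : Type) [Field k] [NormedField K] (h : Good_FC k K) :
    Good_FC k (Completion K) :=
  h.map_FC Completion.coeRingHom fun x => Completion.norm_coe x

theorem closure_FC (k L : Type) [Field k] [i : NormedField L] [IsUltrametricDist L]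
    [CompleteSpace L] (h : Good_FC k L) :
    ∃ (Ω : Type) (_ : NormedField Ω) (_ : IsUltrametricDist Ω) (_ : IsAlgClosed Ω),
      Good_FC k Ω := by
  let _ : NontriviallyNormedField L :=
    { i with
      non_trivial := by
        obtain ⟨_, _, t, ht0, ht1⟩ := h
        refine ⟨t⁻¹, ?_⟩
        rw [norm_inv]
        exact (one_lt_inv₀ (norm_pos_iff.2 ht0)).2 ht1 }
  let _ : NormedField (AlgebraicClosure L) := spectralNorm.normedField L (AlgebraicClosure L)
  have hna : ∀ x y : AlgebraicClosure L, ‖x + y‖ ≤ max ‖x‖ ‖y‖ := isNonarchimedean_spectralNorm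
  have hφ : ∀ x, ‖algebraMap L (AlgebraicClosure L) x‖ = ‖x‖ := spectralNorm_extends
  exact ⟨AlgebraicClosure L, inferInstance,
    IsUltrametricDist.isUltrametricDist_of_isNonarchimedean_norm hna, inferInstance,
    h.map_FC (algebraMap L _) hφ⟩

theorem exists_bigField (k : Type) [Field k] :
    ∃ (C : Type) (_ : NormedField C) (_ : CompleteSpace C) (_ : IsUltrametricDist C)
      (_ : IsAlgClosed C) (φ : k →+* C), (∀ x, ‖φ x‖ ≤ 1) ∧ ∃ t : C, t ≠ 0 ∧ ‖t‖ < 1 := by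
  obtain ⟨K, _, _, h0⟩ := base_FC k
  have := ultra_completion_FC K
  obtain ⟨Ω, _, _, _, h1⟩ := closure_FC k (Completion K) (completion_FC k K h0)
  have := ultra_completion_FC Ω
  exact ⟨Completion Ω, inferInstance, inferInstance, inferInstance,
    isAlgClosed_of_dense (K := Ω) Completion.coeRingHom Completion.denseRange_coe,
    completion_FC k Ω h1⟩

end Pool.Agent.Adm

end

section

/-! Algebraic independence, continued. -/

namespace Pool.Agent.AdmG

open Pool.Agent.Adm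
open scoped OnePoint

variable {k0 k K κ : Type} [Field k0] [Field k] [Field K]

theorem of_alg_Ind2 [Finite κ] [Algebra k K] {s s' : κ → K} (h : AlgebraicIndependent k s)
    (ha : ∀ i, IsAlgebraic (Algebra.adjoin k (Set.range s')) (s i)) :
    AlgebraicIndependent k s' := by
  let M := AlgebraicIndependent.matroid k K
  have h1 : M.Indep (Set.range s) :=
    AlgebraicIndependent.matroid_indep_iff.2 h.to_subtype_range
  have h2 : Set.range s ⊆ M.closure (Set.range s') := by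
    rintro _ ⟨i, rfl⟩
    rw [AlgebraicIndependent.matroid_closure_eq]
    exact ha i
  have h3 : (Set.univ : Set κ).encard ≤ M.eRk (Set.range s') := by
    rw [← M.eRk_closure_eq, ← h.injective.encard_image, Set.image_univ, ← h1.eRk_eq_encard]
    exact M.eRk_mono h2
  have h4 : (s' '' Set.univ).encard ≤ (Set.univ : Set κ).encard := Set.encard_image_le _ _
  have h5 := M.eRk_le_encard (Set.range s')
  have h6 : Function.Injective s' := Set.injOn_univ.1 (Set.finite_univ.injOn_of_encard_image_eq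
    (le_antisymm h4 (by rw [Set.image_univ]; exact h3.trans h5)))
  rw [Set.image_univ] at h4
  exact AlgebraicIndependent.of_subtype_range h6 (AlgebraicIndependent.matroid_indep_iff.1
    ((Matroid.indep_iff_eRk_eq_encard_of_finite (Set.finite_range s')).2
      (le_antisymm h5 (h4.trans h3))))

theorem alg_Ind2 [Algebra k K] (s : κ → K) (i : κ) :
    IsAlgebraic (Algebra.adjoin k (Set.range s)) (s i) :=
  isAlgebraic_algebraMap (⟨s i, Algebra.subset_adjoin ⟨i, rfl⟩⟩ : Algebra.adjoin k (Set.range s))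

theorem lift_Ind2 {k1 : Type} [Field k1] (φ : k0 →+* k1) (s : κ → k1) (h : Ind φ s) :
    ∃ f : FractionRing (MvPolynomial κ k0) →+* k1, ∀ P,
      f (algebraMap (MvPolynomial κ k0) _ P) = MvPolynomial.eval₂ φ s P := by
  have hi : Function.Injective (MvPolynomial.eval₂Hom φ s) :=
    (injective_iff_map_eq_zero _).2 ((ind_iff φ s).1 h)
  exact ⟨IsFractionRing.lift hi, fun P => IsFractionRing.lift_algebraMap hi P⟩

theorem norm_Ind2 {C : Type} [NormedField C] (φ : k →+* C) (hφ : ∀ x, ‖φ x‖ ≤ 1) (c : k)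
    (hc : c ≠ 0) : ‖φ c‖ = 1 := by
  refine le_antisymm (hφ c) ?_
  have h1 : ‖φ c‖ * ‖φ c⁻¹‖ = 1 := by
    rw [← norm_mul, ← map_mul, mul_inv_cancel₀ hc, map_one, norm_one]
  exact h1.symm.le.trans (mul_le_of_le_one_right (norm_nonneg _) (hφ _))

theorem Ind.inv [Finite κ] {φ : k →+* K} {s : κ → K} (h : Ind φ s) : Ind φ fun i => (s i)⁻¹ := by
  let _ := φ.toAlgebra
  refine of_alg_Ind2 h fun i => ?_
  have := (alg_Ind2 (k := k) (fun i => (s i)⁻¹) i).inv
  rwa [inv_inv] at this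

theorem Ind.scale [Finite κ] {φ : k →+* K} {s : κ → K} {t : K}
    (h : Ind φ fun o : Option κ => o.elim t s) :
    Ind φ fun o : Option κ => t * o.elim 1 s := by
  let _ := φ.toAlgebra
  have ht : t ≠ 0 := fun e => h.notMem none ⟨0, (map_zero φ).trans e.symm⟩
  have h0 := alg_Ind2 (k := k) (fun o : Option κ => t * o.elim 1 s) none
  refine of_alg_Ind2 h ?_
  rintro (_ | i)
  · simpa using h0
  · have := h0.inv.mul (alg_Ind2 (k := k) (fun o : Option κ => t * o.elim 1 s) (some i))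
    simpa [ht] using this

theorem exists_amalgam_ind {k1 k2 : Type} [Field k1] [Field k2] (p : ℕ) [CharP k0 p]
    (φ1 : k0 →+* k1) (φ2 : k0 →+* k2) (s1 : κ → k1) (s2 : κ → k2) (h1 : Ind φ1 s1)
    (h2 : Ind φ2 s2) :
    ∃ (K : Type) (_ : Field K) (_ : IsAlgClosed K) (_ : CharP K p) (ψ1 : k1 →+* K)
      (ψ2 : k2 →+* K), (∀ x, ψ1 (φ1 x) = ψ2 (φ2 x)) ∧ ∀ i, ψ1 (s1 i) = ψ2 (s2 i) := by
  obtain ⟨f1, e1⟩ := lift_Ind2 φ1 s1 h1
  obtain ⟨f2, e2⟩ := lift_Ind2 φ2 s2 h2
  obtain ⟨K, _, _, ψ1, ψ2, h⟩ := amalg_TW f1 f2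
  refine ⟨K, inferInstance, inferInstance,
    charP_of_injective_ringHom (ψ1.comp φ1).injective p, ψ1, ψ2, fun x => ?_, fun i => ?_⟩
  · have := h (algebraMap (MvPolynomial κ k0) _ (MvPolynomial.C x))
    rwa [e1, e2, MvPolynomial.eval₂_C, MvPolynomial.eval₂_C] at this
  · have := h (algebraMap (MvPolynomial κ k0) _ (MvPolynomial.X i))
    rwa [e1, e2, MvPolynomial.eval₂_X, MvPolynomial.eval₂_X] at this

theorem exists_big (p : ℕ) (k : Type) [Field k] [CharP k p] :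
    ∃ (C : Type) (_ : NormedField C) (_ : CompleteSpace C) (_ : IsUltrametricDist C)
      (_ : IsAlgClosed C) (_ : CharP C p) (φ : k →+* C), (∀ x, ‖φ x‖ ≤ 1) ∧
        ∃ t : C, t ≠ 0 ∧ ‖t‖ < 1 ∧ ∀ a, φ a + t ∉ Set.range φ := by
  obtain ⟨C, _, _, _, _, φ, hφ, t, h0, ht⟩ := exists_bigField k
  refine ⟨C, inferInstance, inferInstance, inferInstance, inferInstance,
    charP_of_injective_ringHom φ.injective p, φ, hφ, t, h0, ht, ?_⟩
  rintro a ⟨b, hb⟩
  have e : t = φ (b - a) := by rw [map_sub, hb, add_sub_cancel_left]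
  have h1 : b - a ≠ 0 := fun h => h0 (by rw [e, h, map_zero])
  exact ht.ne (by rw [e]; exact norm_Ind2 φ hφ _ h1)

theorem gen_three_inj {C : Type} [NormedField C] (φ : k →+* C) (hφ : ∀ x, ‖φ x‖ ≤ 1) (t : C)
    (h0 : t ≠ 0) (ht : ‖t‖ < 1) (s s' : κ → k) (hs : Function.Injective (gen s))
    (hs' : Function.Injective (gen s')) :
    Function.Injective (gen (Sum.elim (fun o : Option κ => t * φ (o.elim 1 s))
      fun o : Option κ => φ (o.elim 1 s') / t)) := by
  have key : ∀ u : κ → k, Function.Injective (gen u) →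
      Function.Injective (fun o : Option κ => o.elim 1 u) ∧
        ∀ o : Option κ, ‖φ (o.elim 1 u)‖ = 1 := by
    intro u hu
    obtain ⟨h1, h2⟩ := (gen_inj_iff u).1 hu
    constructor
    · rintro (_ | i) (_ | j) e
      · rfl
      · exact absurd e.symm (h2 j).2
      · exact absurd e (h2 i).2
      · exact congrArg some (h1 e)
    · rintro (_ | i)
      · exact norm_Ind2 φ hφ _ one_ne_zero
      · exact norm_Ind2 φ hφ _ (h2 i).1
  obtain ⟨a1, a2⟩ := key s hs
  obtain ⟨b1, b2⟩ := key s' hs'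
  have hp : 0 < ‖t‖ := norm_pos_iff.2 h0
  have n1 : ∀ o : Option κ, ‖t * φ (o.elim 1 s)‖ < 1 := fun o => by
    rwa [norm_mul, a2, mul_one]
  have n2 : ∀ o : Option κ, 1 < ‖φ (o.elim 1 s') / t‖ := fun o => by
    rwa [norm_div, b2, one_lt_div hp]
  refine (gen_inj_iff _).2 ⟨?_, ?_⟩
  · rintro (i | i) (j | j) e
    · exact congrArg Sum.inl (a1 (φ.injective (mul_left_cancel₀ h0 e)))
    · exact absurd (congrArg norm e) ((n1 i).trans (n2 j)).ne
    · exact absurd (congrArg norm e) ((n1 j).trans (n2 i)).ne'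
    · exact congrArg Sum.inr (b1 (φ.injective ((div_left_inj' h0).1 e)))
  · rintro (i | i)
    · refine ⟨mul_ne_zero h0 (norm_pos_iff.1 (by rw [a2]; exact one_pos)), fun e => ?_⟩
      exact (n1 i).ne ((congrArg norm e).trans norm_one)
    · refine ⟨norm_pos_iff.1 (one_pos.trans (n2 i)), fun e => ?_⟩
      exact (n2 i).ne' ((congrArg norm e).trans norm_one)

end Pool.Agent.AdmG

end

section

/-! Chains: start, renumbering, one more point. -/

namespace Pool.Agent.AdmG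

open Pool.Agent.Adm
open scoped OnePoint

/-- A path may start at any node with the same field and the same property. -/
theorem start_Ch1 {p r : ℕ} {ι : Type} {R : (ι → ℤ) → Prop} (N : Nd p ι) (P : AP N.k ι)
    (hP : Tr N.k ι P) (hN : N.P = P) {N' : Nd p ι} {φ : N.k →+* N'.k}
    (h : Path R ({ k := N.k, P := P, tr := hP } : Nd p ι) N' φ r) : Path R N N' φ r := by
  subst hN
  exact h

theorem ch_base (p : ℕ) : Ch p Empty 0 := by
  refine ⟨fun k _ => tri k, fun k _ => tr_tri k, fun k k' _ _ _ _ φ => lifts_tri φ, ?_⟩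
  intro N hN
  exact ⟨N, RingHom.id _, Empty.elim, ind_empty _ _, hN, Path.refl⟩

theorem reidx_gen_Ch1 {k κ κ' : Type} [Field k] (e : κ ≃ κ') (s : κ → k) :
    reidx e.optionCongr.optionCongr.optionCongr (vtx (gen s)) =
      vtx (gen fun i => s (e.symm i)) := by
  have ha : ∀ o : W κ, gen (fun i => s (e.symm i)) (e.optionCongr.optionCongr.optionCongr o) =
      gen s o := by
    rintro (_ | _ | _ | i)
    · rfl
    · rfl
    · rfl
    · simp [gen]
  have hr : Set.range (gen fun i => s (e.symm i)) = Set.range (gen s) := by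
    ext x
    constructor
    · rintro ⟨o, rfl⟩
      obtain ⟨o, rfl⟩ := e.optionCongr.optionCongr.optionCongr.surjective o
      exact ⟨o, (ha o).symm⟩
    · rintro ⟨o, rfl⟩
      exact ⟨_, ha o⟩
  funext G _ d H
  apply propext
  constructor
  · rintro ⟨c, h1, h2, h3⟩
    refine ⟨c, hr ▸ h1, fun o => ?_, h3⟩
    obtain ⟨o, rfl⟩ := e.optionCongr.optionCongr.optionCongr.surjective o
    rw [ha]
    exact h2 o
  · rintro ⟨c, h1, h2, h3⟩
    refine ⟨c, hr ▸ h1, fun o => ?_, h3⟩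
    rw [← ha]
    exact h2 _

theorem Ch.equiv {p r : ℕ} {κ κ' : Type} [Fintype κ] [Fintype κ'] (e : κ ≃ κ') (h : Ch p κ r) :
    Ch p κ' r := by
  obtain ⟨S, h1, h2, h3⟩ := h
  let E : W κ ≃ W κ' := e.optionCongr.optionCongr.optionCongr
  refine ⟨fun k _ => reidx E (S k), fun k _ => Tr.reidx E (h1 k),
    fun k k' _ _ _ _ φ => (h2 k k' φ).reidx E, ?_⟩
  intro N hN
  obtain ⟨N', φ, s, hs, hN', hp⟩ := h3 { k := N.k, P := S N.k, tr := h1 _ } rfl
  obtain ⟨C, hC⟩ := exists_ctx_reidx N.k E R0 R0 fun n hn => R0.reidx E n hn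
  have hq := hp.ctx C (RingHom.id N.k)
  refine ⟨N'.ctx C (φ.comp (RingHom.id N.k)), φ, fun i => s (e.symm i),
    hs.comp _ e.symm.injective, ?_, start_Ch1 N _ _ (hN.trans (hC _ _ _).symm) hq⟩
  change C.Φ _ _ _ = _
  rw [hC, hN']
  exact reidx_gen_Ch1 e s

theorem Ch.succ {p r : ℕ} [Fact p.Prime] {κ : Type} [Fintype κ] (h : Ch p κ r) :
    Ch p (Option κ) (r + 1) := by
  obtain ⟨S, h1, h2, h3⟩ := h
  refine ⟨fun k _ => two (S k), fun k _ => (h1 k).two,
    fun k k' _ _ _ _ φ => (h2 k k' φ).two, ?_⟩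
  intro N hN
  obtain ⟨N', φ, s, hs, hN', hp⟩ := h3 { k := N.k, P := S N.k, tr := h1 _ } rfl
  obtain ⟨C, hC⟩ := exists_ctx_two N.k κ
  have hq := start_Ch1 N _ _ (hN.trans (hC _ _ _).symm) (hp.ctx C (RingHom.id N.k))
  obtain ⟨K, _, _, _, _, _, ψ, hψ, t, h0, ht, hr⟩ := exists_big p N'.k
  have ht' : t ∉ Set.range ψ := by simpa using hr 0
  have hi := (hs.option ψ t ht').scale
  have he : (fun o : Option κ => t * o.elim 1 fun i => ψ (s i)) =
      fun o : Option κ => t * ψ (o.elim 1 s) := by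
    funext o
    cases o <;> simp
  rw [he] at hi
  have hst := step_two p ψ s hs.gen_inj _ hi.gen_inj (lifts_two ψ hψ t h0 ht s)
  let M : Nd p (W (Option κ)) :=
    { k := K, P := vtx (gen fun o : Option κ => t * ψ (o.elim 1 s)), tr := tr_gen _ hi.gen_inj }
  have hs' : Step R0 ψ (C.Φ N'.k (φ.comp (RingHom.id N.k)) N'.P) M.P := by
    rw [hC, hN']
    exact hst
  exact ⟨M, ψ.comp φ, _, hi, rfl,
    Path.step (N' := N'.ctx C (φ.comp (RingHom.id N.k))) (N'' := M) hq ψ hs'⟩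

end Pool.Agent.AdmG

end

section

/-! Moving a point off the involution locus is strict. -/

namespace Pool.Agent.AdmG

open Pool.Agent.Adm
open scoped OnePoint
open Polynomial

/-- The labels at the finite points. -/
def lab_St2 {κ : Type} [DecidableEq κ] (p : ℕ) (i0 i1 : κ) : Option (Option κ) → ℕ := fun o =>
  o.elim (p - 1) fun o => o.elim (p ^ 2 - 2) fun i =>
    (if i = i0 then 1 else 0) + (if i = i1 then 1 else 0)

theorem sum_erase_St2 {κ M : Type} [Fintype κ] [DecidableEq κ] [AddCommMonoid M]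
    (f : Option (Option κ) → M) :
    ∑ i ∈ Finset.univ.erase (some none), f i = f none + ∑ i, f (some (some i)) := by
  rw [← Finset.filter_ne', Finset.sum_filter, Fintype.sum_option, Fintype.sum_option]
  simp

theorem sum_lab_St2 {κ : Type} [Fintype κ] [DecidableEq κ] (p : ℕ) (i0 i1 : κ) :
    ∑ i, lab_St2 p i0 i1 (some (some i)) = 2 := by
  simp [lab_St2, Finset.sum_add_distrib]

theorem coeff_St2 {K κ : Type} [Field K] [Fintype κ] [DecidableEq κ] (p : ℕ) [Fact p.Prime]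
    [CharP K p] (s : κ → K) (hs : Function.Injective (gen s)) (i0 i1 : κ) :
    (∏ j, (X - C (fin s j)) ^ lab_St2 p i0 i1 j : K[X]).coeff (p ^ 2 - 1) = 0 ↔
      s i0 * s i1 = 1 := by
  have hp : 2 ≤ p := (Fact.out : p.Prime).two_le
  have hi := fin_inj hs
  have hne : ∀ i, 1 - s i ≠ 0 := fun i e => by
    have : fin s (some none) = fin s (some (some i)) := sub_eq_zero.1 e
    cases hi this
  rw [coeff_prod_one p 2 two_pos (fin s) hi (lab_St2 p i0 i1) (some none) rfl rfl (by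
    rw [sum_erase_St2, sum_lab_St2]
    change p - 1 + 2 ≤ p ^ 2
    have : p * 2 ≤ p * p := Nat.mul_le_mul_left p hp
    rw [pow_two]
    omega), sum_erase_St2]
  have e1 : ((lab_St2 p i0 i1 none : ℕ) : K) / (1 - fin s none) = -1 := by
    change ((p - 1 : ℕ) : K) / (1 - 0) = -1
    rw [Nat.cast_sub (by omega), CharP.cast_eq_zero]
    simp
  have e2 : ∑ i, ((lab_St2 p i0 i1 (some (some i)) : ℕ) : K) / (1 - fin s (some (some i))) =
      1 / (1 - s i0) + 1 / (1 - s i1) := by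
    have : ∀ i, ((lab_St2 p i0 i1 (some (some i)) : ℕ) : K) / (1 - fin s (some (some i))) =
        (if i = i0 then 1 / (1 - s i) else 0) + (if i = i1 then 1 / (1 - s i) else 0) := by
      intro i
      change (((if i = i0 then 1 else 0) + (if i = i1 then 1 else 0) : ℕ) : K) / (1 - s i) = _
      rw [Nat.cast_add, add_div]
      congr 1 <;> split_ifs <;> simp
    simp only [this, Finset.sum_add_distrib, Finset.sum_ite_eq', Finset.mem_univ, if_true]
  rw [e1, e2]
  have a0 := hne i0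
  have a1 := hne i1
  have e3 : -1 + (1 / (1 - s i0) + 1 / (1 - s i1)) =
      (1 - s i0 * s i1) / ((1 - s i0) * (1 - s i1)) := by
    field_simp
    ring
  rw [e3, div_eq_zero_iff, or_iff_left (mul_ne_zero a0 a1), sub_eq_zero, eq_comm]

variable {k k' κ : Type} [Field k] [IsAlgClosed k] [Field k'] [IsAlgClosed k'] [Fintype κ]

theorem step_move (p : ℕ) [Fact p.Prime] [CharP k p] (φ : k →+* k') (s : κ → k)
    (hs : Function.Injective (gen s)) (u : κ → k') (hu : Function.Injective (gen u))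
    (hl : Lifts φ (vtx (gen s)) (vtx (gen u))) (i0 i1 : κ) (hne : i0 ≠ i1)
    (h : s i0 * s i1 = 1) (h' : u i0 * u i1 ≠ 1) : Step R0 φ (vtx (gen s)) (vtx (gen u)) := by
  classical
  obtain ⟨F, _, _, θ, hF⟩ := exists_theta p k
  have : CharP k' p := charP_of_injective_ringHom φ.injective p
  have hp : 2 ≤ p := (Fact.out : p.Prime).two_le
  have hpp : p * 2 ≤ p ^ 2 := by rw [pow_two]; exact Nat.mul_le_mul_left p hp
  have hsum : ∑ i, lab_St2 p i0 i1 i = p - 1 + (p ^ 2 - 2 + 2) := by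
    rw [Fintype.sum_option, Fintype.sum_option, sum_lab_St2]
    rfl
  have h2 : ∑ i, lab_St2 p i0 i1 i ≤ 2 * (Fintype.card F - 1) := by
    rw [hsum, hF]
    omega
  refine step_of φ θ (nice_vtx _) u hu hl (lab_St2 p i0 i1) ?_ ?_ h2 ?_ ?_
  · rw [hF]
    rintro (_ | _ | i)
    · change p - 1 < _
      omega
    · change p ^ 2 - 2 < _
      omega
    · change (if i = i0 then 1 else 0) + (if i = i1 then 1 else 0) < _
      split_ifs <;> omega
  · rw [hsum, hF]
    omega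
  · rw [hF]
    exact fun e => h' ((coeff_St2 p u hu i0 i1).1 e)
  · refine allFix_vtx θ s hs (lab_St2 p i0 i1) h2 ?_ _ fun _ => rfl
    rw [hF]
    exact (coeff_St2 p s hs i0 i1).2 h

end Pool.Agent.AdmG

end

section

/-! Lifting coverings to smooth curves. -/

namespace Pool.Agent.Adm

open scoped OnePoint

theorem translate_Lift2 {k G : Type} [Field k] [IsAlgClosed k] [Group G] (c : Cover k G) (b : k)
    {S S' : Set (OnePoint k)} (hT : c.Tame S) (h0 : ∞ ∈ S')
    (h : ∀ a : k, (a : OnePoint k) ∈ S → ((a + b : k) : OnePoint k) ∈ S') :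
    ∃ c' : Cover k G, c'.ι.range = c.ι.range ∧ c'.Tame S' ∧
      (∀ (a : k) d, c.MD a d → c'.MD (a + b : k) d) ∧ ∀ d, c.MD ∞ d → c'.MD ∞ d := by
  obtain ⟨c', h1, h2, h3⟩ := c.exists_translate b
  refine ⟨c', h1, fun x => ?_, fun a d => h2 a _ _ _, fun d => h3 _ _ _⟩
  induction x using OnePoint.rec with
  | infty =>
    obtain ⟨e, ζ, g, m, -⟩ := hT ∞
    exact ⟨e, ζ, g, h3 _ _ _ m, fun hn => absurd h0 hn⟩
  | coe x =>
    obtain ⟨y, rfl⟩ : ∃ y, x = y + b := ⟨x - b, (sub_add_cancel x b).symm⟩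
    obtain ⟨e, ζ, g, m, n⟩ := hT y
    exact ⟨e, ζ, g, h2 _ _ _ _ m, fun hn => n fun hy => hn (h y hy)⟩

theorem mem_S7_Lift2 {k : Type} [Field k] (a : Fin 6 → k) (i : Fin 6) {x : k} (h : x = a i) :
    (x : OnePoint k) ∈ S7 a := .inr ⟨i, by rw [h]⟩

variable {k C : Type} [Field k] [IsAlgClosed k] [NormedField C] [CompleteSpace C]
  [IsUltrametricDist C] [IsAlgClosed C]

theorem lifts32 (φ : k →+* C) (hφ : ∀ x, ‖φ x‖ ≤ 1) (tA tB : C) (hA0 : tA ≠ 0) (hA : ‖tA‖ < 1)
    (hB0 : tB ≠ 0) (hB : ‖tB‖ < 1) (s s' : k) (hs' : s' ≠ 0) :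
    Lifts φ (A3 s s') (A1 ![0, tA * φ s, tA, 1, tB⁻¹, φ s' / tB]) := by
  rintro G _ _ d ⟨c1, c3, c4, T1, T3, T4, g1, g2, hG, m0, m1, m2, m3, m4, m5, m6⟩
  obtain ⟨c, h1, h2, h3, h4, h5, h6⟩ := smooth_top φ hφ tA tB hA0 hA hB0 hB c1 c3 c4 hG g1 g2
  refine ⟨c, fun x => ?_, h1, fun i => ?_, h5 _ _ _ m6⟩
  · induction x using OnePoint.rec with
    | infty => exact ⟨_, _, _, h5 _ _ _ m6, fun hn => absurd (.inl rfl) hn⟩
    | coe x =>
      by_cases a1 : ∃ y, x = tA * φ y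
      · obtain ⟨y, rfl⟩ := a1
        obtain ⟨e, ζ, g, m, n⟩ := T1 y
        refine ⟨e, _, g, h2 _ _ _ _ m, fun hn => n fun hy => hn ?_⟩
        simp only [S4, Set.mem_insert_iff, Set.mem_singleton_iff, OnePoint.coe_eq_coe,
          OnePoint.coe_ne_infty, or_false] at hy
        rcases hy with rfl | rfl | rfl
        · exact mem_S7_Lift2 _ 0 (by simp)
        · exact mem_S7_Lift2 _ 2 (by simp)
        · exact mem_S7_Lift2 _ 1 (by simp)
      by_cases a2 : ∃ y, x = φ y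
      · obtain ⟨y, rfl⟩ := a2
        have y0 : y ≠ 0 := fun e => a1 ⟨0, by simp [e]⟩
        obtain ⟨e, ζ, g, m, n⟩ := T3 y
        refine ⟨e, _, g, h3 _ _ _ _ y0 m, fun hn => n fun hy => hn ?_⟩
        simp only [S3, Set.mem_insert_iff, Set.mem_singleton_iff, OnePoint.coe_eq_coe,
          OnePoint.coe_ne_infty, or_false, y0, false_or] at hy
        exact mem_S7_Lift2 _ 3 (by simp [hy])
      by_cases a3 : ∃ y, x = φ y / tB
      · obtain ⟨y, rfl⟩ := a3
        have y0 : y ≠ 0 := fun e => a1 ⟨0, by simp [e]⟩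
        obtain ⟨e, ζ, g, m, n⟩ := T4 y
        refine ⟨e, _, g, h4 _ _ _ _ y0 m, fun hn => n fun hy => hn ?_⟩
        simp only [S4, Set.mem_insert_iff, Set.mem_singleton_iff, OnePoint.coe_eq_coe,
          OnePoint.coe_ne_infty, or_false, y0, false_or] at hy
        rcases hy with rfl | rfl
        · exact mem_S7_Lift2 _ 4 (by simp)
        · exact mem_S7_Lift2 _ 5 (by simp)
      exact ⟨1, 1, 1, h6 x (not_exists.1 a1) (not_exists.1 a2) (not_exists.1 a3), fun _ => rfl⟩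
  · have n0 := h2 _ _ _ _ m0
    have n2 := h2 _ _ _ _ m2
    have n3 := h3 _ _ _ _ one_ne_zero m3
    have n4 := h4 _ _ _ _ one_ne_zero m4
    rw [map_zero, mul_zero] at n0
    rw [map_one, mul_one] at n2
    rw [map_one] at n3
    rw [map_one, one_div] at n4
    fin_cases i
    exacts [n0, h2 _ _ _ _ m1, n2, n3, n4, h4 _ _ _ _ hs' m5]

theorem lifts_move (φ : k →+* C) (hφ : ∀ x, ‖φ x‖ ≤ 1) (t : C) (h0 : t ≠ 0) (ht : ‖t‖ < 1)
    (a : Fin 6 → k) (ha : Function.Injective a) (i0 : Fin 6) :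
    Lifts φ (A1 a) (A1 (Function.update (fun i => φ (a i)) i0 (φ (a i0) + t))) := by
  rintro G _ _ d ⟨c, T, hG, m, m6⟩
  obtain ⟨c1, r1, T1, m1, n1⟩ := translate_Lift2 c (-a i0) (S' := S7 fun i => a i + -a i0) T
    (.inl rfl) fun x hx => by
      obtain ⟨i, hi⟩ := hx.resolve_left (OnePoint.coe_ne_infty x)
      exact mem_S7_Lift2 _ i (by rw [OnePoint.coe_eq_coe.1 hi])
  obtain ⟨c2, r2, T2, m2, n2, k2⟩ := move_zero φ hφ t h0 ht c1 _ T1 (.inl rfl) (d i0.castSucc) (d 6)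
    (add_neg_cancel (a i0) ▸ m1 _ _ (m i0)) (n1 _ m6)
  have e : ∀ i, φ (a i + -a i0) + φ (a i0) = φ (a i) := fun i => by simp
  obtain ⟨c3, r3, T3, m3, n3⟩ := translate_Lift2 c2 (φ (a i0))
    (S' := S7 (Function.update (fun i => φ (a i)) i0 (φ (a i0) + t))) T2 (.inl rfl) fun x hx => by
      rcases hx.resolve_left (OnePoint.coe_ne_infty x) with hx | ⟨y, y0, hy, hx⟩
      · exact mem_S7_Lift2 _ i0 (by rw [OnePoint.coe_eq_coe.1 hx, Function.update_self, add_comm])
      · obtain ⟨i, hi⟩ := hy.resolve_left (OnePoint.coe_ne_infty y)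
        obtain rfl := OnePoint.coe_eq_coe.1 hi
        refine mem_S7_Lift2 _ i ?_
        rw [OnePoint.coe_eq_coe.1 hx, e, Function.update_of_ne (by rintro rfl; simp at y0)]
  refine ⟨c3, T3, r3.trans (r2.trans (r1.trans hG)), fun i => ?_, n3 _ n2⟩
  by_cases hi : i = i0
  · subst hi
    rw [Function.update_self, add_comm]
    exact m3 _ _ m2
  · rw [Function.update_of_ne hi, ← e]
    exact m3 _ _ (k2 _ _ (fun h => hi (ha (add_neg_eq_zero.1 h))) (m1 _ _ (m i)))

end Pool.Agent.Adm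

end

section

/-! Moving a marked point. -/

namespace Pool.Agent.AdmG

open Pool.Agent.Adm
open scoped OnePoint

variable {k C κ : Type} [Field k] [IsAlgClosed k] [NormedField C] [CompleteSpace C]
  [IsUltrametricDist C] [IsAlgClosed C]

/-- Infinity and a family of finite points. -/
def pts_Mv {K ι : Type} (a : ι → K) : Option ι → OnePoint K := fun o =>
  o.elim ∞ fun o => (a o : OnePoint K)

theorem mem_pts_Mv {K ι : Type} {a : ι → K} {x : K} :
    (x : OnePoint K) ∈ Set.range (pts_Mv a) ↔ ∃ i, a i = x := by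
  constructor
  · rintro ⟨_ | i, h⟩
    · exact absurd h (OnePoint.infty_ne_coe x)
    · exact ⟨i, OnePoint.coe_eq_coe.1 h⟩
  · rintro ⟨i, rfl⟩
    exact ⟨some i, rfl⟩

theorem move_Mv {ι : Type} (φ : k →+* C) (hφ : ∀ x, ‖φ x‖ ≤ 1) (t : C) (h0 : t ≠ 0)
    (ht : ‖t‖ < 1) (a : ι → k) (ha : Function.Injective a) (i0 : ι) (a' : ι → C)
    (e0 : a' i0 = φ (a i0) + t) (e1 : ∀ i, i ≠ i0 → a' i = φ (a i)) :
    Lifts φ (vtx (pts_Mv a)) (vtx (pts_Mv a')) := by
  rintro G _ _ d H ⟨c, T, m, hG⟩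
  obtain ⟨c1, r1, T1, m1, n1⟩ := translate_Lift2 c (-a i0)
    (S' := Set.range (pts_Mv fun i => a i + -a i0)) T ⟨none, rfl⟩ fun x hx => by
      obtain ⟨i, rfl⟩ := mem_pts_Mv.1 hx
      exact ⟨some i, rfl⟩
  obtain ⟨c2, r2, T2, m2, n2, k2⟩ := move_zero φ hφ t h0 ht c1 _ T1 ⟨none, rfl⟩ (d (some i0))
    (d none) (add_neg_cancel (a i0) ▸ m1 _ _ (m (some i0))) (n1 _ (m none))
  have e : ∀ i, φ (a i + -a i0) + φ (a i0) = φ (a i) := fun i => by simp
  obtain ⟨c3, r3, T3, m3, n3⟩ := translate_Lift2 c2 (φ (a i0))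
    (S' := Set.range (pts_Mv a')) T2 ⟨none, rfl⟩ fun x hx => by
      rcases hx.resolve_left (OnePoint.coe_ne_infty x) with hx | ⟨y, y0, hy, hx⟩
      · exact mem_pts_Mv.2 ⟨i0, by rw [OnePoint.coe_eq_coe.1 hx, e0, add_comm]⟩
      · obtain ⟨i, rfl⟩ := mem_pts_Mv.1 hy
        refine mem_pts_Mv.2 ⟨i, ?_⟩
        rw [OnePoint.coe_eq_coe.1 hx, e, e1 i (by rintro rfl; simp at y0)]
  refine ⟨c3, T3, ?_, r3.trans (r2.trans (r1.trans hG))⟩
  rintro (_ | i)
  · exact n3 _ n2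
  · change c3.MD (a' i : OnePoint C) _
    by_cases hi : i = i0
    · subst hi
      rw [e0, add_comm]
      exact m3 _ _ m2
    · rw [e1 i hi, ← e]
      exact m3 _ _ (k2 _ _ (fun h => hi (ha (add_neg_eq_zero.1 h))) (m1 _ _ (m (some i))))

theorem lifts_move [DecidableEq κ] (φ : k →+* C) (hφ : ∀ x, ‖φ x‖ ≤ 1) (t : C) (h0 : t ≠ 0)
    (ht : ‖t‖ < 1) (s : κ → k) (hs : Function.Injective (gen s)) (i0 : κ) :
    Lifts φ (vtx (gen s)) (vtx (gen (Function.update (fun i => φ (s i)) i0 (φ (s i0) + t)))) := by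
  refine move_Mv φ hφ t h0 ht (fin s) (fun o o' h => ?_) (some (some i0))
    (fin (Function.update (fun i => φ (s i)) i0 (φ (s i0) + t))) ?_ ?_
  · exact Option.some_injective _ (hs (by rw [gen_some, gen_some, h]))
  · change Function.update (fun i => φ (s i)) i0 (φ (s i0) + t) i0 = _
    exact Function.update_self _ _ _
  · rintro (_ | _ | i) h
    · exact (map_zero φ).symm
    · exact (map_one φ).symm
    · exact Function.update_of_ne (a := i) (a' := i0) (fun e => h (by rw [e])) (φ (s i0) + t)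
        fun i => φ (s i)

end Pool.Agent.AdmG

end

section

/-! Moving points off the involution locus. -/

namespace Pool.Agent.AdmG

open Pool.Agent.Adm
open scoped OnePoint

theorem aux_Ch2 {p : ℕ} [Fact p.Prime] {k0 α : Type} [Field k0] [Fintype α]
    (N : Nd p (W (α ⊕ α))) (φ0 : k0 →+* N.k) (s : α ⊕ α → N.k) (hN : N.P = vtx (gen s))
    (hs : Function.Injective (gen s)) (hi : Ind φ0 fun o => s (.inl o))
    (h : ∀ o, s (.inr o) * s (.inl o) = 1) (T : Finset α) :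
    ∃ (N' : Nd p (W (α ⊕ α))) (φ : N.k →+* N'.k) (s' : α ⊕ α → N'.k),
      N'.P = vtx (gen s') ∧ Function.Injective (gen s') ∧
      (Ind (φ.comp φ0) fun i : {i : α ⊕ α | ∀ o, i = .inr o → o ∈ T} => s' i) ∧
      (∀ o ∉ T, s' (.inr o) * s' (.inl o) = 1) ∧ Path R0 N N' φ T.card := by
  classical
  induction T using Finset.induction_on with
  | empty =>
    refine ⟨N, RingHom.id _, s, hN, hs, ?_, fun o _ => h o, Path.refl⟩
    have e : ∀ i : {i : α ⊕ α | ∀ o, i = .inr o → o ∈ (∅ : Finset α)},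
        Sum.inl (i.1.elim id id) = i.1 := by
      rintro ⟨a | a, ha⟩
      · rfl
      · exact absurd (ha a rfl) (Finset.notMem_empty a)
    have := hi.comp (fun i : {i : α ⊕ α | ∀ o, i = .inr o → o ∈ (∅ : Finset α)} => i.1.elim id id)
      fun i j hij => Subtype.ext (by rw [← e i, ← e j]; exact congrArg _ hij)
    simp only [e] at this
    exact this
  | insert o T ho ih =>
    obtain ⟨N', φ, s', h1, h2, h3, h4, h5⟩ := ih
    obtain ⟨C, _, _, _, _, _, ψ, hψ, t, h0, ht, hr⟩ := exists_big p N'.k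
    have hu := gen_update_inj h2 ψ (.inr o) _ (hr (s' (.inr o)))
    have hst := step_move p ψ s' h2 _ hu (lifts_move ψ hψ t h0 ht s' h2 (.inr o)) (.inr o) (.inl o)
      (by simp) (h4 o ho) (by
        rw [Function.update_self, Function.update_of_ne (by simp), add_mul, ← map_mul, h4 o ho,
          map_one]
        simpa [h0] using right_ne_zero_of_mul_eq_one (h4 o ho))
    refine ⟨⟨C, vtx (gen _), tr_gen _ hu⟩, ψ.comp φ, _, rfl, hu, ?_, fun o' ho' => ?_, ?_⟩
    · have e : ∀ i : α ⊕ α, (∀ o', i = .inr o' → o' ∈ insert o T) →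
          i ∈ (insert (.inr o) {i : α ⊕ α | ∀ o, i = .inr o → o ∈ T} : Set (α ⊕ α)) := by
        intro i hi'
        by_cases e : i = .inr o
        · exact Or.inl e
        · refine Or.inr fun o' e' => (Finset.mem_insert.1 (hi' o' e')).resolve_left ?_
          rintro rfl
          exact e e'
      exact (Ind.update _ h3 ψ (.inr o) (fun h' => ho (h' o rfl)) _ (hr (s' (.inr o)))).comp
        (fun i : {i : α ⊕ α | ∀ o', i = .inr o' → o' ∈ insert o T} => ⟨i.1, e i.1 i.2⟩)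
        fun i j hij => Subtype.ext (congrArg (·.1) hij)
    · rw [Finset.mem_insert, not_or] at ho'
      rw [Function.update_of_ne (by simpa using ho'.1), Function.update_of_ne (by simp), ← map_mul,
        h4 o' ho'.2, map_one]
    · rw [Finset.card_insert_of_notMem ho]
      exact h5.step (N'' := ⟨C, vtx (gen _), tr_gen _ hu⟩) ψ (by rw [h1]; exact hst)

theorem exists_moves {p : ℕ} [Fact p.Prime] {k0 α : Type} [Field k0] [Fintype α]
    (N : Nd p (W (α ⊕ α))) (φ0 : k0 →+* N.k) (s : α ⊕ α → N.k) (hN : N.P = vtx (gen s))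
    (hs : Function.Injective (gen s)) (hi : Ind φ0 fun o => s (.inl o))
    (h : ∀ o, s (.inr o) * s (.inl o) = 1) :
    ∃ (N' : Nd p (W (α ⊕ α))) (φ : N.k →+* N'.k) (s' : α ⊕ α → N'.k),
      Ind (φ.comp φ0) s' ∧ N'.P = vtx (gen s') ∧ Path R0 N N' φ (Fintype.card α) := by
  obtain ⟨N', φ, s', h1, -, h3, -, h5⟩ := aux_Ch2 N φ0 s hN hs hi h Finset.univ
  exact ⟨N', φ, s', h3.comp (fun i => ⟨i, fun o _ => Finset.mem_univ o⟩)
    fun i j hij => congrArg (·.1) hij, h1, h5⟩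

end Pool.Agent.AdmG

end

section

/-! The doubling construction. -/

namespace Pool.Agent.AdmG

open Pool.Agent.Adm
open scoped OnePoint

theorem lifts_of_eq_Ch3 {k ι : Type} [Field k] {P P' : AP k ι} (h : P = P') :
    Lifts (RingHom.id k) P P' := h ▸ Lifts.refl P

theorem path_lift_Ch3 {p : ℕ} {ι : Type} {R : (ι → ℤ) → Prop} {N N' : Nd p ι}
    {ψ : N.k →+* N'.k} (h : Lifts ψ N.P N'.P) : Path R N N' ψ 0 := by
  have := (Path.refl (R := R) (N := N)).lift ψ h
  rwa [RingHom.comp_id] at this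

theorem exists_top {p : ℕ} [Fact p.Prime] {k0 κ : Type} [Field k0] [IsAlgClosed k0] [CharP k0 p]
    [Fintype κ] (N : Nd p (W (Option κ ⊕ Option κ))) (φ0 : k0 →+* N.k) (s s' : κ → N.k)
    (hN : N.P = three (vtx (gen s)) (vtx (gen s'))) (hs : Ind φ0 s) (hs' : Ind φ0 s') :
    ∃ (N' : Nd p (W (Option κ ⊕ Option κ))) (φ : N.k →+* N'.k) (u : Option κ ⊕ Option κ → N'.k),
      Ind (φ.comp φ0) u ∧ N'.P = vtx (gen u) ∧ Path R0 N N' φ (Fintype.card κ + 2) := by
  obtain ⟨K, _, _, _, ψ1, ψ2, e0, e1⟩ :=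
    exists_amalgam_ind p φ0 φ0 s (fun i => (s' i)⁻¹) hs hs'.inv
  have ia := hs.map ψ1
  have ha := ia.gen_inj
  have hb := (hs'.map ψ2).gen_inj
  have hb0 : ∀ i, ψ2 (s' i) ≠ 0 := fun i => (((gen_inj_iff _).1 hb).2 i).1
  obtain ⟨C, _, _, _, _, _, φ, hφ, t, h0, ht, hr⟩ := exists_big p K
  have hu := gen_three_inj φ hφ t h0 ht _ _ ha hb
  let N1 : Nd p (W (Option κ ⊕ Option κ)) :=
    { k := K, P := three (vtx (gen fun i => ψ1 (s i))) (vtx (gen fun i => ψ2 (s' i)))
      tr := (tr_gen _ ha).three (tr_gen _ hb) }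
  let N2 : Nd p (W (Option κ ⊕ Option κ)) := { k := C, P := _, tr := tr_gen _ hu }
  have l1 : Lifts ψ1 N.P N1.P := by
    rw [hN]
    exact Lifts.three (lifts_gen ψ1 s) (Lifts.twist φ0 e0 (nice_vtx _) (lifts_gen ψ2 s'))
  have l2 : Step R0 φ N1.P N2.P :=
    step_three p φ _ _ ha hb _ hu (lifts_three φ hφ t h0 ht _ _ hb0)
  have hi := (ia.option φ t (by simpa using hr 0)).scale
  obtain ⟨N', φ', u, a1, a2, a3⟩ := exists_moves N2 (φ.comp (ψ1.comp φ0)) _ rfl hu
    (by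
      convert hi using 2 with o
      cases o
      · exact congrArg (t * ·) (map_one φ)
      · rfl)
    (by
      rintro (_ | i)
      · change φ 1 / t * (t * φ 1) = 1
        rw [map_one]
        field_simp
      · change φ (ψ2 (s' i)) / t * (t * φ (ψ1 (s i))) = 1
        have := (map_ne_zero φ).2 (hb0 i)
        rw [e1, map_inv₀, map_inv₀]
        field_simp)
  have a4 := ((path_lift_Ch3 (R := R0) (N' := N1) l1).step (N'' := N2) φ l2).trans a3
  rw [Fintype.card_option, show 0 + 1 + (Fintype.card κ + 1) = Fintype.card κ + 2 by omega] at a4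
  refine ⟨N', _, u, ?_, a2, a4⟩
  rw [RingHom.comp_assoc, RingHom.comp_assoc]
  exact a1

theorem Ch.double {p r : ℕ} [Fact p.Prime] {κ : Type} [Fintype κ] (h : Ch p κ r) :
    Ch p (Option κ ⊕ Option κ) (2 * r + Fintype.card κ + 2) := by
  obtain ⟨S, h1, h2, h3⟩ := h
  refine ⟨fun k _ => three (S k) (S k), fun k _ => (h1 k).three (h1 k),
    fun k k' _ _ _ _ φ => (h2 k k' φ).three (h2 k k' φ), fun N hN => ?_⟩
  let M0 : Nd p (W κ) := { k := N.k, P := S N.k, tr := h1 _ }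
  obtain ⟨N1, φ1, s, a1, a2, a3⟩ := h3 M0 rfl
  let M1 : Nd p (W κ) := { k := N1.k, P := S N1.k, tr := h1 _ }
  obtain ⟨N2, φ2, s', b1, b2, b3⟩ := h3 M1 rfl
  obtain ⟨CL, cl⟩ := exists_ctx_threeL (k0 := N.k) (κ := κ)
    { Q := fun K _ _ => S K, tr := fun K _ _ => h1 K, lifts := fun K K' _ _ _ _ _ χ => h2 K K' χ }
  obtain ⟨CR, cr⟩ := exists_ctx_threeR (k0 := N1.k) (κ := κ)
    { Q := fun K _ ψ => vtx (gen fun i => ψ (s i))
      tr := fun K _ ψ => tr_gen _ (a1.map ψ).gen_inj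
      lifts := fun K K' _ _ _ _ ψ χ => lifts_gen χ fun i => ψ (s i) }
  have pa := a3.ctx CL (RingHom.id _)
  have pb := b3.ctx CR (RingHom.id _)
  obtain ⟨N', φ, u, c1, c2, c3⟩ := exists_top (k0 := N.k) (N2.ctx CR (φ2.comp (RingHom.id _)))
    (φ2.comp φ1) (fun i => φ2 (s i)) s' ((cr _ _ _).trans (by rw [b2]; rfl)) (a1.map φ2)
    (b1.down φ1)
  have l1 : Lifts (RingHom.id N.k) N.P (M0.ctx CL (RingHom.id _)).P :=
    lifts_of_eq_Ch3 (hN.trans (cl _ _ _).symm)
  have l2 : Lifts (RingHom.id N1.k) (N1.ctx CL (φ1.comp (RingHom.id _))).P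
      (M1.ctx CR (RingHom.id _)).P :=
    lifts_of_eq_Ch3 ((cl _ _ _).trans (Eq.trans (by rw [a2]; rfl) (cr _ _ _).symm))
  have q1 := (path_lift_Ch3 (N' := M0.ctx CL (RingHom.id _)) l1).trans pa
  have q2 := ((q1.trans (path_lift_Ch3 (N' := M1.ctx CR (RingHom.id _)) l2)).trans pb).trans c3
  rw [show 0 + r + 0 + r + (Fintype.card κ + 2) = 2 * r + Fintype.card κ + 2 by omega] at q2
  exact ⟨N', _, u, c1, c2, q2⟩

end Pool.Agent.AdmG

end

section

/-! Lengths of the chains. -/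

namespace Pool.Agent.AdmG

open Pool.Agent.Adm
open scoped OnePoint

theorem num_ind (A : ℕ → ℕ → Prop) (h0 : A 0 0) (h1 : ∀ c r, A c r → A (c + 1) (r + 1))
    (h2 : ∀ c r, A c r → A (2 * c + 2) (2 * r + c + 2)) (c : ℕ) :
    ∃ r, A c r ∧ c ≤ r ∧ (4 ≤ c → c + 1 ≤ r) ∧ (c + 3) * (Nat.log 2 (c + 2) - 2) ≤ 2 * r := by
  induction c using Nat.strong_induction_on with
  | _ c ih =>
    rcases lt_or_ge c 2 with hc | hc
    · interval_cases c
      · exact ⟨0, h0, le_rfl, by omega, by norm_num⟩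
      · exact ⟨1, h1 0 0 h0, le_rfl, by omega, by norm_num⟩
    obtain ⟨c', hc'⟩ : ∃ c', c = 2 * c' + 2 ∨ c = 2 * c' + 3 := ⟨(c - 2) / 2, by omega⟩
    obtain ⟨r, hA, a1, -, a3⟩ := ih c' (by omega)
    have hL : Nat.log 2 (c + 2) = Nat.log 2 (c' + 2) + 1 := by
      rw [Nat.log_of_one_lt_of_le (by norm_num) (by omega)]
      congr 2
      omega
    have h4 : 2 ≤ Nat.log 2 (c' + 2) → 2 ≤ c' := fun h => by
      have := Nat.pow_le_of_le_log (by omega) h
      omega
    rw [hL]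
    generalize Nat.log 2 (c' + 2) = L at a3 h4
    rcases hc' with rfl | rfl
    · refine ⟨_, h2 c' r hA, by omega, by omega, ?_⟩
      rcases L with _ | _ | _ | L
      · simp
      · simp
      · have := h4 le_rfl
        omega
      · rw [show L + 1 + 1 + 1 - 2 = L + 1 by omega] at a3
        rw [show L + 1 + 1 + 1 + 1 - 2 = L + 2 by omega]
        nlinarith
    · refine ⟨_, h1 _ _ (h2 c' r hA), by omega, by omega, ?_⟩
      rcases L with _ | _ | L
      · simp
      · simp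
      · rw [show L + 1 + 1 - 2 = L by omega] at a3
        rw [show L + 1 + 1 + 1 - 2 = L + 1 by omega]
        nlinarith

theorem exists_ch (p : ℕ) [Fact p.Prime] (c : ℕ) :
    ∃ r, Ch p (Fin c) r ∧ c ≤ r ∧ (4 ≤ c → c + 1 ≤ r) ∧
      (c + 3) * (Nat.log 2 (c + 2) - 2) ≤ 2 * r := by
  refine num_ind (fun c r => Ch p (Fin c) r)
    ((ch_base p).equiv (Equiv.equivOfIsEmpty _ _))
    (fun c r h => h.succ.equiv (finSuccEquiv c).symm) (fun c r h => ?_) c
  have := h.double.equiv (Fintype.equivFinOfCardEq (n := 2 * c + 2) (by simp; omega))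
  rwa [Fintype.card_fin] at this

theorem ch_fin_succ {p c r : ℕ} [Fact p.Prime] (h : Ch p (Fin c) r) :
    Ch p (Fin (c + 1)) (r + 1) := by
  exact h.succ.equiv (finSuccEquiv c).symm

end Pool.Agent.AdmG

end

section

/-! The lower bound for the dimension. -/

namespace Pool.Agent.AdmG

open Pool.Agent.Adm
open scoped OnePoint

theorem Ch.le_dim {p r c g n : ℕ} [Fact p.Prime] (h : Ch p (Fin c) r) (hc : c + 3 = g + n) :
    (r : WithBot ℕ∞) ≤ topologicalKrullDim (PiBar p g n) := by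
  rcases Nat.eq_zero_or_pos g with rfl | hg
  · exact h.le_dim_zero (by simpa using hc)
  rcases Nat.eq_zero_or_pos n with rfl | hn
  · have h1 := ch_fin_succ h
    have e : W (Fin (c + 1)) ≃ Option (Fin g ⊕ Empty) :=
      Fintype.equivOfCardEq (by simp [W]; omega)
    have h2 := h1.le_dim_glue h1 e e (Fintype.equivOfCardEq (by simp)) (n := 0)
      (Or.inl inferInstance)
    exact le_trans (by exact_mod_cast Nat.le_succ r) h2
  · obtain ⟨r', h', -⟩ := exists_ch p (g - 1)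
    exact h.le_dim_glue (I := Fin (n - 1)) (I' := Unit) h'
      (Fintype.equivOfCardEq (by simp [W]; omega)) (Fintype.equivOfCardEq (by simp [W]; omega))
      (Fintype.equivOfCardEq (by simp; omega)) (Or.inr inferInstance)

theorem main (p : ℕ) (hp : p.Prime) (g n : ℕ) (h : 7 ≤ g + n) :
    ((g + n - 2 : ℕ) : WithBot ℕ∞) ≤ topologicalKrullDim (PiBar p g n) ∧
    (((g + n) * (Nat.log 2 (g + n - 1) - 2) / 2 : ℕ) : WithBot ℕ∞) ≤
      topologicalKrullDim (PiBar p g n) ∧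
    (g = 0 ∨ 257 ≤ g + n →
      ((3 * g + n - 3 : ℕ) : WithBot ℕ∞) < topologicalKrullDim (PiBar p g n)) := by
  have : Fact p.Prime := ⟨hp⟩
  obtain ⟨c, hc⟩ : ∃ c, c + 3 = g + n := ⟨g + n - 3, by omega⟩
  obtain ⟨r, h0, -, h1, h2⟩ := exists_ch p c
  have h3 := h0.le_dim hc
  have h4 := h1 (by omega)
  rw [hc, show c + 2 = g + n - 1 by omega] at h2
  refine ⟨le_trans ?_ h3, le_trans ?_ h3, fun h5 => lt_of_lt_of_le ?_ h3⟩
  · exact Nat.cast_le.2 (by omega)
  · exact Nat.cast_le.2 (by omega)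
  · refine Nat.cast_lt.2 ?_
    rcases h5 with rfl | h5
    · omega
    · have h6 : 8 ≤ Nat.log 2 (g + n - 1) := Nat.le_log_of_pow_le (by norm_num) (by omega)
      have h7 : (g + n) * 6 ≤ (g + n) * (Nat.log 2 (g + n - 1) - 2) :=
        Nat.mul_le_mul_left _ (by omega)
      omega

end Pool.Agent.AdmG

end
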