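import Mathlib
import Pool.Agent.Adq.D7

section

/-! Valuations of rank one centred at a prime of height one. -/

namespace Pool.Agent.Adm

open Filter Topology in
theorem homog_VL1 {Γ : Type} [CommGroup Γ] (c : Γ → ℤ) (h1 : ∀ a b, c (a * b) ≤ c a + c b)
    (h2 : ∀ a b, c a + c b ≤ c (a * b) + 1) (h3 : ∀ a, ∃ N : ℕ, ∀ n : ℕ, -(N * n : ℤ) ≤ c (a ^ n)) :
    ∃ l : Γ → ℝ, (∀ a b, l (a * b) = l a + l b) ∧
      ∀ a, Tendsto (fun n : ℕ => (c (a ^ n) : ℝ) / n) atTop (𝓝 (l a)) := by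
  have hs : ∀ a, Subadditive fun n : ℕ => (c (a ^ n) : ℝ) := fun a m n => by
    simp only [pow_add]
    exact_mod_cast h1 _ _
  have hb : ∀ a, BddBelow (Set.range fun n : ℕ => (c (a ^ n) : ℝ) / n) := fun a => by
    obtain ⟨N, hN⟩ := h3 a
    refine ⟨-N, ?_⟩
    rintro _ ⟨n, rfl⟩
    rcases n.eq_zero_or_pos with rfl | hn
    · simp
    · rw [le_div_iff₀ (by exact_mod_cast hn), neg_mul]
      exact_mod_cast hN n
  have T := fun a => (hs a).tendsto_lim (hb a)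
  refine ⟨fun a => (hs a).lim, fun a b => le_antisymm ?_ ?_, T⟩
  · refine le_of_tendsto_of_tendsto' (T (a * b)) ((T a).add (T b)) fun n => ?_
    rw [← add_div, mul_pow]
    exact div_le_div_of_nonneg_right (by exact_mod_cast h1 _ _) (Nat.cast_nonneg n)
  · have h := (T (a * b)).add (tendsto_one_div_atTop_nhds_zero_nat (𝕜 := ℝ))
    rw [add_zero] at h
    refine le_of_tendsto_of_tendsto' ((T a).add (T b)) h fun n => ?_
    rw [← add_div, ← add_div, mul_pow]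
    exact div_le_div_of_nonneg_right (by exact_mod_cast h2 _ _) (Nat.cast_nonneg n)

theorem exists_log {Γ : Type} [CommGroup Γ] [LinearOrder Γ] [IsOrderedMonoid Γ] (τ : Γ)
    (hτ : τ < 1) (hc : ∀ γ, ∃ n : ℕ, τ ^ n ≤ γ) :
    ∃ l : Γ → ℝ, (∀ a b, l (a * b) = l a + l b) ∧ (∀ a b, a ≤ b → l b ≤ l a) ∧ l τ = 1 := by
  have anti : ∀ m n : ℤ, τ ^ m ≤ τ ^ n ↔ n ≤ m := fun m n => by
    rw [← inv_le_inv_iff, ← inv_zpow, ← inv_zpow, zpow_le_zpow_iff_right (one_lt_inv'.2 hτ)]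
  have low : ∀ (γ : Γ) (N n : ℕ) (m : ℤ), τ ^ N ≤ γ⁻¹ → τ ^ m ≤ γ ^ n → -(N * n : ℤ) ≤ m := by
    intro γ N n m h1 h2
    rw [← anti, zpow_neg, zpow_mul, zpow_natCast, zpow_natCast, ← inv_pow]
    exact h2.trans (pow_le_pow_left' (le_inv'.1 h1) n)
  have ex : ∀ γ : Γ, ∃ c : ℤ, τ ^ c ≤ γ ∧ ∀ m : ℤ, τ ^ m ≤ γ → c ≤ m := fun γ => by
    obtain ⟨N, hN⟩ := hc γ⁻¹
    obtain ⟨n, hn⟩ := hc γ
    exact Int.exists_least_of_bdd ⟨_, fun m hm => low γ N 1 m hN (by rwa [pow_one])⟩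
      ⟨n, by rwa [zpow_natCast]⟩
  choose c c1 c2 using ex
  have c3 : ∀ γ, γ < τ ^ (c γ - 1) := fun γ => lt_of_not_ge fun h => by
    have := c2 γ _ h
    omega
  obtain ⟨l, hl, T⟩ := homog_VL1 c
    (fun a b => c2 _ _ (by rw [zpow_add]; exact mul_le_mul' (c1 a) (c1 b)))
    (fun a b => by
      have h := (c1 (a * b)).trans_lt (mul_lt_mul_of_lt_of_lt (c3 a) (c3 b))
      rw [← zpow_add, lt_iff_not_ge, anti] at h
      omega)
    (fun a => (hc a⁻¹).imp fun N hN n => low a N n _ hN (c1 _))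
  refine ⟨l, hl, fun a b hab => le_of_tendsto_of_tendsto' (T b) (T a) fun n => ?_, ?_⟩
  · refine div_le_div_of_nonneg_right ?_ (Nat.cast_nonneg n)
    exact_mod_cast c2 _ _ ((c1 _).trans (pow_le_pow_left' hab n))
  · refine tendsto_nhds_unique (T τ) (tendsto_const_nhds.congr' ?_)
    filter_upwards [Filter.eventually_gt_atTop 0] with n hn
    have h : c (τ ^ n) = n := le_antisymm (c2 _ _ (zpow_natCast τ n).le)
      ((anti _ _).1 ((c1 _).trans (zpow_natCast τ n).ge))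
    rw [h, Int.cast_natCast, div_self (by exact_mod_cast hn.ne')]

theorem exists_mul_pow_dvd {A : Type} [CommRing A] [IsDomain A] (P : Ideal A) [P.IsPrime]
    (hht : ∀ Q : Ideal A, Q.IsPrime → Q ≤ P → Q = ⊥ ∨ Q = P) {a b : A} (ha : a ≠ 0)
    (hb : b ∈ P) : ∃ (n : ℕ) (s : A), s ∉ P ∧ a ∣ s * b ^ n := by
  by_contra hn
  let S : Submonoid A := P.primeCompl ⊔ Submonoid.powers b
  have hd : Disjoint (Ideal.span {a} : Set A) S := by
    refine Set.disjoint_left.2 fun x hx hS => ?_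
    obtain ⟨s, hs, _, ⟨n, rfl⟩, rfl⟩ := Submonoid.mem_sup.1 hS
    exact hn ⟨n, s, hs, Ideal.mem_span_singleton.1 hx⟩
  obtain ⟨Q, hQ, h1, h2⟩ := Ideal.exists_le_prime_disjoint _ S hd
  have h3 : Q ≤ P := fun x hx => by_contra fun hxP =>
    Set.disjoint_left.1 h2 hx (Submonoid.mem_sup_left hxP)
  rcases hht Q hQ h3 with rfl | rfl
  · exact ha (h1 (Ideal.mem_span_singleton_self a))
  · exact Set.disjoint_left.1 h2 hb (Submonoid.mem_sup_right (Submonoid.mem_powers b))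

theorem exp_VL1 {Γ : Type} [LinearOrderedCommGroupWithZero Γ] (τ : Γ) (h0 : τ ≠ 0) (hτ : τ < 1)
    (hc : ∀ γ, γ ≠ 0 → ∃ n : ℕ, τ ^ n ≤ γ) :
    ∃ g : Γ →*₀ ℝ, Monotone g ∧ g τ < 1 := by
  classical
  obtain ⟨l, l1, l2, l3⟩ := exists_log (Units.mk0 τ h0) hτ fun γ => hc γ γ.ne_zero
  have l0 : l 1 = 0 := by
    have := l1 1 1
    rw [one_mul] at this
    linarith
  let g : Γ → ℝ := fun y => if h : y = 0 then 0 else Real.exp (-l (Units.mk0 y h))
  have g0 : g 0 = 0 := dif_pos rfl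
  have g1 : ∀ y : Γˣ, g y = Real.exp (-l y) := fun y => by
    simp only [g, dif_neg y.ne_zero, Units.mk0_val]
  refine ⟨⟨⟨g, g0⟩, ?_, fun x y => ?_⟩, fun x y hxy => ?_, ?_⟩
  · change g (1 : Γˣ) = 1
    rw [g1, l0, neg_zero, Real.exp_zero]
  · change g (x * y) = g x * g y
    rcases GroupWithZero.eq_zero_or_unit x with rfl | ⟨x, rfl⟩
    · rw [zero_mul, g0, zero_mul]
    rcases GroupWithZero.eq_zero_or_unit y with rfl | ⟨y, rfl⟩
    · rw [mul_zero, g0, mul_zero]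
    rw [← Units.val_mul, g1, g1, g1, l1, neg_add, Real.exp_add]
  · change g x ≤ g y
    rcases GroupWithZero.eq_zero_or_unit y with rfl | ⟨y, rfl⟩
    · rw [le_zero_iff.1 hxy]
    rcases GroupWithZero.eq_zero_or_unit x with rfl | ⟨x, rfl⟩
    · rw [g0, g1]
      exact (Real.exp_pos _).le
    rw [g1, g1]
    exact Real.exp_le_exp.2 (neg_le_neg (l2 x y hxy))
  · change g (Units.mk0 τ h0) < 1
    rw [g1, l3]
    exact Real.exp_lt_one_iff.2 (by norm_num)

theorem val_VL1 {A K : Type} [CommRing A] [Field K] (P : Ideal A) [P.IsPrime] (φ : A →+* K)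
    (hφ : Function.Injective φ) : ∃ O : ValuationSubring K, (∀ a, O.valuation (φ a) ≤ 1) ∧
      ∀ a, O.valuation (φ a) = 1 ↔ a ∉ P := by
  have hu : ∀ s : P.primeCompl, IsUnit (φ s) := fun s => IsUnit.mk0 _ fun h =>
    s.2 (by rw [(map_eq_zero_iff φ hφ).1 h]; exact P.zero_mem)
  let f : Localization.AtPrime P →+* K := IsLocalization.lift hu
  have hf : ∀ a, f (algebraMap A _ a) = φ a := IsLocalization.lift_eq hu
  obtain ⟨O, h, hl⟩ := IsLocalRing.exists_factor_valuationRing f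
  refine ⟨O, fun a => (O.valuation_le_one_iff _).2 (hf a ▸ h _), fun a => ?_⟩
  rw [← hf, ← O.valuation_eq_one_iff ⟨_, h (algebraMap A _ a)⟩]
  exact (isUnit_map_iff (f.codRestrict O.toSubring h) _).trans
    (IsLocalization.AtPrime.isUnit_to_map_iff _ P a)

theorem exists_normed {A : Type} [CommRing A] [IsDomain A] (P : Ideal A) [P.IsPrime]
    (hP : P ≠ ⊥) (hht : ∀ Q : Ideal A, Q.IsPrime → Q ≤ P → Q = ⊥ ∨ Q = P) :
    ∃ (K : Type) (_ : NormedField K) (_ : IsUltrametricDist K) (ψ : A →+* K),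
      Function.Injective ψ ∧ (∀ a, ‖ψ a‖ ≤ 1) ∧ ∀ a, ‖ψ a‖ < 1 ↔ a ∈ P := by
  have hφ := IsFractionRing.injective A (FractionRing A)
  obtain ⟨O, o1, o2⟩ := val_VL1 P _ hφ
  obtain ⟨t, ht, ht0⟩ := Submodule.exists_mem_ne_zero_of_ne_bot hP
  let w := O.valuation.comap (algebraMap A (FractionRing A))
  have w1 : ∀ a, w a ≤ 1 := o1
  have w2 : ∀ a, w a = 1 ↔ a ∉ P := o2
  have w0 : ∀ a, a ≠ 0 → w a ≠ 0 := fun a ha =>
    O.valuation.ne_zero_iff.2 ((map_ne_zero_iff _ hφ).2 ha)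
  have key : ∀ a, a ≠ 0 → ∀ b ∈ P, ∃ n : ℕ, w b ^ n ≤ w a := fun a ha b hb => by
    obtain ⟨n, s, hs, c, hc⟩ := exists_mul_pow_dvd P hht ha hb
    have h := congrArg w hc
    rw [map_mul, map_mul, map_pow, (w2 s).2 hs, one_mul] at h
    exact ⟨n, h ▸ mul_le_of_le_one_right' (w1 c)⟩
  obtain ⟨g, hg, hgt⟩ := exp_VL1 (w t) (w0 t ht0) ((w1 t).lt_of_ne fun h => (w2 t).1 h ht)
    fun γ hγ => by
      obtain ⟨x, rfl⟩ := O.valuation_surjective γ
      obtain ⟨a, b, hb, rfl⟩ := IsFractionRing.div_surjective (A := A) x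
      have hb0 := w0 b (nonZeroDivisors.ne_zero hb)
      have ha : a ≠ 0 := fun h => hγ (by simp [h])
      obtain ⟨n, hn⟩ := key a ha t ht
      refine ⟨n, hn.trans ?_⟩
      rw [map_div₀]
      exact (le_div_iff₀ (zero_lt_iff.2 hb0)).2 (mul_le_of_le_one_right' (w1 b))
  have gn : ∀ y, 0 ≤ g y := fun y => by simpa using hg (zero_le (a := y))
  let v := O.valuation
  have hmax : ∀ x y : FractionRing A, g (v (x + y)) ≤ max (g (v x)) (g (v y)) := fun x y =>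
    (hg (v.map_add x y)).trans_eq hg.map_max
  let f : AbsoluteValue (FractionRing A) ℝ :=
    { toFun := fun x => g (v x)
      map_mul' := fun x y => by simp only [map_mul]
      nonneg' := fun x => gn _
      eq_zero' := fun x => by simp only [map_eq_zero]
      add_le' := fun x y => (hmax x y).trans
        (max_le (le_add_of_nonneg_right (gn _)) (le_add_of_nonneg_left (gn _))) }
  let _ : NormedField (FractionRing A) := f.toNormedField
  have hn : ∀ a : A, ‖algebraMap A (FractionRing A) a‖ = g (w a) := fun _ => rfl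
  refine ⟨FractionRing A, inferInstance,
    IsUltrametricDist.isUltrametricDist_of_isNonarchimedean_norm hmax, algebraMap A _, hφ,
    fun a => ?_, fun a => ⟨fun h => by_contra fun ha => ?_, fun ha => ?_⟩⟩
  · rw [hn, ← map_one g]
    exact hg (w1 a)
  · rw [hn, (w2 a).2 ha, map_one] at h
    exact h.false
  · obtain ⟨n, h⟩ := key t ht0 a ha
    have h1 := (hg h).trans_lt hgt
    rw [map_pow] at h1
    rw [hn]
    exact lt_of_not_ge fun h2 => (one_le_pow₀ h2).not_gt h1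

end Pool.Agent.Adm

end

section

/-! Well separated arithmetic progressions modulo an odd number. -/

namespace Pool.Agent.Adm

theorem sep_LC1 (ε : ℕ) (v : ℕ → ℕ) (T : Finset ℕ) (h1 : ∀ s ∈ T, 1 ≤ v s)
    (h : ∀ s ∈ T, ∀ s' ∈ T, s ≠ s' → v s + ε ≤ v s' ∨ v s' + ε ≤ v s) :
    (∀ B, 1 ≤ B → (∀ s ∈ T, v s + ε ≤ B) → 1 + ε * T.card ≤ B) ∧
      2 * T.card + ε * (T.card * (T.card - 1)) ≤ 2 * ∑ s ∈ T, v s := by
  classical
  induction T using Finset.induction_on_max_value v with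
  | empty => exact ⟨fun B hB _ => by simpa using hB, by simp⟩
  | insert a T ha hm ih =>
    obtain ⟨i1, i2⟩ := ih (fun s hs => h1 s (Finset.mem_insert_of_mem hs))
      fun s hs s' hs' => h s (Finset.mem_insert_of_mem hs) s' (Finset.mem_insert_of_mem hs')
    have h2 : 1 + ε * T.card ≤ v a := by
      refine i1 _ (h1 a (Finset.mem_insert_self _ _)) fun s hs => ?_
      have := h s (Finset.mem_insert_of_mem hs) a (Finset.mem_insert_self _ _)
        fun e => ha (e ▸ hs)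
      have := hm s hs
      omega
    rw [Finset.card_insert_of_notMem ha, Finset.sum_insert ha]
    refine ⟨fun B _ hB => ?_, ?_⟩
    · have := hB a (Finset.mem_insert_self _ _)
      rw [mul_add]
      omega
    · rw [Nat.add_sub_cancel]
      rcases Nat.eq_zero_or_pos T.card with e | e
      · rw [e] at h2 ⊢
        omega
      · obtain ⟨n, hn⟩ : ∃ n, T.card = n + 1 := ⟨T.card - 1, by omega⟩
        rw [hn] at h2 i2 ⊢
        rw [Nat.add_sub_cancel] at i2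
        nlinarith

theorem sum_ge_of_separated (K ε : ℕ) (v : ℕ → ℕ) (h1 : ∀ s < K, 1 ≤ v s)
    (h : ∀ s < K, ∀ s' < K, s ≠ s' → v s + ε ≤ v s' ∨ v s' + ε ≤ v s) :
    2 * K + ε * (K * (K - 1)) ≤ 2 * ∑ s ∈ Finset.range K, v s := by
  have := (sep_LC1 ε v (Finset.range K) (fun s hs => h1 s (Finset.mem_range.1 hs))
    fun s hs s' hs' => h s (Finset.mem_range.1 hs) s' (Finset.mem_range.1 hs')).2
  rwa [Finset.card_range] at this

theorem val_sep_LC1 {m : ℕ} [NeZero m] {K ε : ℕ} {t : ZMod m}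
    (h : ∀ j, 0 < j → j < K → ε ≤ ((j : ZMod m) * t).val ∧ ((j : ZMod m) * t).val + ε ≤ m)
    (x : ZMod m) (s : ℕ) (hs : s < K) (s' : ℕ) (hs' : s' < K) (hne : s ≠ s') :
    (x + s * t).val + ε ≤ (x + s' * t).val ∨ (x + s' * t).val + ε ≤ (x + s * t).val := by
  wlog hlt : s < s' generalizing s s'
  · exact (this s' hs' s hs hne.symm (by omega)).symm
  obtain ⟨j, rfl⟩ : ∃ j, s' = s + j := ⟨s' - s, by omega⟩
  obtain ⟨h1, h2⟩ := h j (by omega) (by omega)
  have e : x + ((s + j : ℕ) : ZMod m) * t = (x + s * t) + j * t := by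
    push_cast
    ring
  rw [e]
  by_cases hl : (x + s * t).val + ((j : ZMod m) * t).val < m
  · rw [ZMod.val_add_of_lt hl]
    omega
  · have := ZMod.val_add_val_of_le (not_lt.1 hl)
    omega

theorem final_LC1 {m : ℕ} [NeZero m] {K ε : ℕ} {t : ZMod m} (hK : 0 < K)
    (h : ∀ j, 0 < j → j < K → ε ≤ ((j : ZMod m) * t).val ∧ ((j : ZMod m) * t).val + ε ≤ m)
    (h2 : 2 * m ≤ 3 * ε * (K - 1)) (x : ZMod m) (hx : ∀ s < K, x + (s : ZMod m) * t ≠ 0) :
    K * m < 3 * ∑ s ∈ Finset.range K, (x + (s : ZMod m) * t).val := by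
  have := sum_ge_of_separated K ε (fun s => (x + (s : ZMod m) * t).val)
    (fun s hs => ZMod.val_pos.2 (hx s hs)) (val_sep_LC1 h x)
  have h3 := Nat.mul_le_mul_left K h2
  nlinarith

theorem pigeon_LC1 {m : ℕ} [NeZero m] (d : ZMod m) : ∃ o δ : ℕ, 0 < o ∧ o ≤ 5 ∧ 6 * δ ≤ m ∧
    ((o : ZMod m) * d = δ ∨ (o : ZMod m) * d = -δ) := by
  by_contra hc
  have h : ∀ j : ℕ, 0 < j → j < 6 → m / 6 + 1 ≤ ((j : ZMod m) * d).val ∧
      ((j : ZMod m) * d).val + (m / 6 + 1) ≤ m := by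
    intro j h1 h2
    have h3 := ZMod.val_lt ((j : ZMod m) * d)
    constructor
    · by_contra h4
      exact hc ⟨j, ((j : ZMod m) * d).val, h1, by omega, by omega,
        .inl (ZMod.natCast_zmod_val _).symm⟩
    · by_contra h4
      refine hc ⟨j, m - ((j : ZMod m) * d).val, h1, by omega, by omega, .inr ?_⟩
      rw [Nat.cast_sub h3.le, ZMod.natCast_self, ZMod.natCast_zmod_val]
      ring
  have := (sep_LC1 (m / 6 + 1) (fun s => (0 + (s : ZMod m) * d).val + 1) (Finset.range 6)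
    (fun _ _ => by omega) (fun s hs s' hs' hne => by
      have := val_sep_LC1 h 0 s (Finset.mem_range.1 hs) s' (Finset.mem_range.1 hs') hne
      omega)).1 (m + 1) (by omega) (fun s hs => by
      rcases Nat.eq_zero_or_pos s with rfl | h0
      · have := h 1 one_pos (by norm_num)
        simp only [Nat.cast_zero, zero_mul, add_zero, ZMod.val_zero]
        omega
      · have := h s h0 (Finset.mem_range.1 hs)
        rw [zero_add]
        omega)
  rw [Finset.card_range] at this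
  omega

theorem pm_LC1 {m : ℕ} [NeZero m] {K ε : ℕ} {t : ZMod m} (hε : 0 < ε) (hK : K * ε ≤ m)
    (ht : t = ε ∨ t = -ε) (j : ℕ) (h1 : 0 < j) (h2 : j < K) :
    ε ≤ ((j : ZMod m) * t).val ∧ ((j : ZMod m) * t).val + ε ≤ m := by
  have h3 : j * ε + ε ≤ m := by nlinarith
  have h4 : ε ≤ j * ε := Nat.le_mul_of_pos_left _ h1
  have h5 : ((j * ε : ℕ) : ZMod m).val = j * ε := ZMod.val_cast_of_lt (by omega)
  rcases ht with rfl | rfl
  · rw [← Nat.cast_mul, h5]
    omega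
  · have : NeZero ((j * ε : ℕ) : ZMod m) := ⟨fun e => by
      rw [e, ZMod.val_zero] at h5
      omega⟩
    rw [mul_neg, ← Nat.cast_mul, ZMod.val_neg_of_ne_zero, h5]
    omega

theorem cop_LC1 {m : ℕ} {j K : ℕ} {d : ZMod m} (h : Nat.Coprime j K) (h1 : (j : ZMod m) * d = 0)
    (h2 : (K : ZMod m) * d = 0) : d = 0 := by
  obtain ⟨a, b, hab⟩ := (Nat.isCoprime_iff_coprime.2 h).map (Int.castRingHom (ZMod m))
  simp only [eq_intCast, Int.cast_natCast] at hab
  linear_combination a * h1 + b * h2 - d * hab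

theorem tors_LC1 {m : ℕ} [NeZero m] {K : ℕ} (hK : K.Prime) {d : ZMod m} (hd : d ≠ 0)
    (h : (K : ZMod m) * d = 0) : ∃ ε, m = K * ε ∧ ∀ j, 0 < j → j < K →
      ε ≤ ((j : ZMod m) * d).val ∧ ((j : ZMod m) * d).val + ε ≤ m := by
  obtain ⟨ε, hε⟩ : K ∣ m := by
    by_contra hc
    exact hd (cop_LC1 ((Nat.Prime.coprime_iff_not_dvd hK).2 hc) h (by simp))
  refine ⟨ε, hε, fun j h1 h2 => ?_⟩
  have h3 : (j : ZMod m) * d ≠ 0 := fun e =>
    hd (cop_LC1 ((Nat.Prime.coprime_iff_not_dvd hK).2 (Nat.not_dvd_of_pos_of_lt h1 h2)) h e)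
  have h4 : m ∣ K * ((j : ZMod m) * d).val := by
    rw [← ZMod.natCast_eq_zero_iff, Nat.cast_mul, ZMod.natCast_zmod_val]
    linear_combination j * h
  have h5 := ZMod.val_lt ((j : ZMod m) * d)
  have h6 := ZMod.val_pos.2 h3
  generalize ((j : ZMod m) * d).val = y at h4 h5 h6
  subst hε
  obtain ⟨c, rfl⟩ := Nat.dvd_of_mul_dvd_mul_left hK.pos h4
  have h7 : 0 < c := Nat.pos_of_mul_pos_left h6
  have h8 : c < K := by
    by_contra h9
    nlinarith [not_lt.1 h9]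
  constructor <;> nlinarith

theorem exists_good_step (m : ℕ) [NeZero m] (hm : Odd m) (d : ZMod m) (hd : d ≠ 0) :
    ∃ o e K : ℕ, 0 < o ∧ o ≤ 5 ∧ 0 < K ∧ K ≤ 12 ∧ ∀ x : ZMod m,
      (∀ s < K, x + ((s * o * 2 ^ e : ℕ) : ZMod m) * d ≠ 0) →
      K * m < 3 * ∑ s ∈ Finset.range K, (x + ((s * o * 2 ^ e : ℕ) : ZMod m) * d).val := by
  have hc : ∀ s o e : ℕ, ((s * o * 2 ^ e : ℕ) : ZMod m) * d = s * (2 ^ e * (o * d)) := by
    intro s o e
    push_cast
    ring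
  simp only [hc]
  obtain ⟨o, δ, h1, h2, h3, h4⟩ := pigeon_LC1 d
  rcases Nat.eq_zero_or_pos δ with rfl | hδ
  · have h5 : (o : ZMod m) * d = 0 := by simpa using h4
    have h6 : ¬ Nat.Coprime o m := fun h => hd (cop_LC1 h h5 (by simp))
    have h7 : o = 3 ∨ o = 5 := by
      have h8 : Nat.Coprime 2 m := (Nat.coprime_two_left).2 hm
      have h9 : Nat.Coprime (2 ^ 2) m := h8.pow_left 2
      interval_cases o
      · exact absurd (Nat.coprime_one_left m) h6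
      · exact absurd h8 h6
      · exact .inl rfl
      · exact absurd h9 h6
      · exact .inr rfl
    have h8 : o.Prime := by rcases h7 with rfl | rfl <;> norm_num
    obtain ⟨ε, e1, e2⟩ := tors_LC1 h8 hd h5
    refine ⟨1, 0, o, one_pos, by norm_num, h1, by omega, final_LC1 (ε := ε) h1 ?_ ?_⟩
    · simpa using e2
    · rcases h7 with rfl | rfl <;> omega
  · have hex : ∃ e, m < 12 * (2 ^ e * δ) := ⟨m, by nlinarith [Nat.lt_two_pow_self (n := m)]⟩
    have e1 := Nat.find_spec hex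
    have e2 : 6 * (2 ^ Nat.find hex * δ) ≤ m := by
      rcases Nat.eq_zero_or_pos (Nat.find hex) with e | e
      · rw [e]
        simpa using h3
      · have := Nat.find_min hex (m := Nat.find hex - 1) (by omega)
        obtain ⟨n, hn⟩ : ∃ n, Nat.find hex = n + 1 := ⟨Nat.find hex - 1, by omega⟩
        rw [hn, Nat.add_sub_cancel] at this
        rw [hn, pow_succ]
        nlinarith
    generalize Nat.find hex = e at e1 e2
    have hε : 0 < 2 ^ e * δ := by positivity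
    have ht : (2 : ZMod m) ^ e * (o * d) = ((2 ^ e * δ : ℕ) : ZMod m) ∨
        (2 : ZMod m) ^ e * (o * d) = -((2 ^ e * δ : ℕ) : ZMod m) := by
      push_cast
      rcases h4 with h | h <;> rw [h]
      · exact .inl rfl
      · exact .inr (mul_neg _ _)
    generalize 2 ^ e * δ = ε at e1 e2 hε ht
    have e3 : 6 ≤ m / ε := (Nat.le_div_iff_mul_le hε).2 e2
    have e4 : m / ε < 12 := (Nat.div_lt_iff_lt_mul hε).2 e1
    have e5 : m / ε * ε ≤ m := Nat.div_mul_le_self _ _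
    have e6 : m < m / ε * ε + ε := Nat.lt_div_mul_add hε
    refine ⟨o, e, m / ε, h1, h2, by omega, by omega,
      final_LC1 (ε := ε) (by omega) (pm_LC1 hε e5 ht) ?_⟩
    obtain ⟨n, hn⟩ : ∃ n, m / ε = n + 1 := ⟨m / ε - 1, by omega⟩
    rw [hn] at e6 ⊢
    rw [Nat.add_sub_cancel]
    nlinarith

end Pool.Agent.Adm

end

section

/-! A long progression of pure vectors has a difference with at most two nonzero entries. -/

namespace Pool.Agent.Adm

open Finset in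
theorem aux_LC2 {K K' K'' m : ℕ} (p' : 0 < K') (p'' : 0 < K'') (f : ℕ → ℕ → ℕ → ℕ)
    (h : ∀ s' < K', ∀ s'' < K'', K * m < 3 * ∑ s ∈ range K, f s s' s'') :
    K' * (K'' * (K * m)) < 3 * ∑ s' ∈ range K', ∑ s'' ∈ range K'', ∑ s ∈ range K, f s s' s'' := by
  have h1 : ∑ _s' ∈ range K', ∑ _s'' ∈ range K'', K * m <
      ∑ s' ∈ range K', ∑ s'' ∈ range K'', 3 * ∑ s ∈ range K, f s s' s'' :=
    sum_lt_sum_of_nonempty (nonempty_range_iff.2 p'.ne') fun s' h' =>
      sum_lt_sum_of_nonempty (nonempty_range_iff.2 p''.ne') fun s'' h'' =>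
        h s' (mem_range.1 h') s'' (mem_range.1 h'')
  simpa only [sum_const, card_range, smul_eq_mul, ← mul_sum] using h1

open Finset in
theorem box_LC2 {K1 K2 K3 m : ℕ} (p1 : 0 < K1) (p2 : 0 < K2) (p3 : 0 < K3)
    (f1 f2 f3 : ℕ → ℕ → ℕ → ℕ)
    (h : ∀ s1 < K1, ∀ s2 < K2, ∀ s3 < K3, f1 s1 s2 s3 + f2 s1 s2 s3 + f3 s1 s2 s3 ≤ m)
    (h1 : ∀ s2 < K2, ∀ s3 < K3, K1 * m < 3 * ∑ s ∈ range K1, f1 s s2 s3)
    (h2 : ∀ s1 < K1, ∀ s3 < K3, K2 * m < 3 * ∑ s ∈ range K2, f2 s1 s s3)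
    (h3 : ∀ s1 < K1, ∀ s2 < K2, K3 * m < 3 * ∑ s ∈ range K3, f3 s1 s2 s) : False := by
  have a1 := aux_LC2 p2 p3 f1 h1
  have a2 := aux_LC2 p1 p3 (fun s a b => f2 a s b) h2
  have a3 := aux_LC2 p1 p2 (fun s a b => f3 a b s) h3
  have e1 : ∑ b ∈ range K2, ∑ c ∈ range K3, ∑ a ∈ range K1, f1 a b c =
      ∑ a ∈ range K1, ∑ b ∈ range K2, ∑ c ∈ range K3, f1 a b c :=
    (sum_congr rfl fun _ _ => sum_comm).trans sum_comm
  have e2 : ∑ a ∈ range K1, ∑ c ∈ range K3, ∑ b ∈ range K2, f2 a b c =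
      ∑ a ∈ range K1, ∑ b ∈ range K2, ∑ c ∈ range K3, f2 a b c :=
    sum_congr rfl fun _ _ => sum_comm
  have a4 : ∑ a ∈ range K1, ∑ b ∈ range K2, ∑ c ∈ range K3, (f1 a b c + f2 a b c + f3 a b c) ≤
      ∑ _a ∈ range K1, ∑ _b ∈ range K2, ∑ _c ∈ range K3, m :=
    sum_le_sum fun a ha => sum_le_sum fun b hb => sum_le_sum fun c hc =>
      h a (mem_range.1 ha) b (mem_range.1 hb) c (mem_range.1 hc)
  simp only [sum_add_distrib, sum_const, card_range, smul_eq_mul] at a4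
  rw [e1, mul_left_comm K3, mul_left_comm K2] at a1
  rw [e2, mul_left_comm K3] at a2
  omega

theorem shift_LC2 {r c : ℕ} (hr : 3 * c < r) (e : Fin 3 → ℕ) :
    ∃ (a : ℕ) (j : Fin 3 → ℕ), ∀ i, j i + c < r ∧ a + j i ≡ e i [MOD r] := by
  have : NeZero r := ⟨by omega⟩
  obtain ⟨a, -, ha⟩ := Finset.exists_mem_notMem_of_card_lt_card
    (s := (Finset.univ ×ˢ Finset.range c).image fun x : Fin 3 × ℕ => (e x.1 + 1 + x.2 : ZMod r))
    (t := Finset.univ) (Finset.card_image_le.trans_lt (by simpa using hr))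
  refine ⟨a.val, fun i => (e i - a : ZMod r).val, fun i => ⟨?_, ?_⟩⟩
  · by_contra h
    simp only at h
    have h1 := ZMod.val_lt (e i - a : ZMod r)
    refine ha (Finset.mem_image.2 ⟨(i, r - (1 + (e i - a : ZMod r).val)), by simp; omega, ?_⟩)
    rw [Nat.cast_sub (by omega)]
    simp only [ZMod.natCast_self, Nat.cast_add, Nat.cast_one, ZMod.natCast_zmod_val]
    ring
  · rw [← ZMod.natCast_eq_natCast_iff]
    simp

theorem not_three_of_pure {ι : Type} [Fintype ι] (r n : ℕ) (hr : 3 * (n + 8) < r)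
    (U D : ι → ZMod (2 ^ r - 1))
    (h : ∀ N : ℕ, N < 2 ^ (r - n) → (∀ l, U l + (N : ZMod (2 ^ r - 1)) * D l ≠ 0) ∧
      ∀ a : ℕ, ∑ l, (2 ^ a * (U l + (N : ZMod (2 ^ r - 1)) * D l)).val ≤ 2 ^ r - 1)
    (l1 l2 l3 : ι) (h12 : l1 ≠ l2) (h13 : l1 ≠ l3) (h23 : l2 ≠ l3) :
    D l1 = 0 ∨ D l2 = 0 ∨ D l3 = 0 := by
  classical
  by_contra hc
  simp only [not_or] at hc
  have h2 : 2 ≤ 2 ^ r := Nat.le_self_pow (by omega) 2
  have : NeZero (2 ^ r - 1) := ⟨by omega⟩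
  have hodd : Odd (2 ^ r - 1) :=
    Nat.Even.sub_odd (by omega) (Nat.even_pow.2 ⟨even_two, by omega⟩) odd_one
  have hpow : (2 : ZMod (2 ^ r - 1)) ^ r = 1 := by
    have := ZMod.natCast_self (2 ^ r - 1)
    rw [Nat.cast_sub (by omega), sub_eq_zero] at this
    exact_mod_cast this
  have hu : IsUnit (2 : ZMod (2 ^ r - 1)) := IsUnit.of_pow_eq_one hpow (by omega)
  obtain ⟨o1, e1, K1, -, b1, p1, c1, g1⟩ := exists_good_step _ hodd _ hc.1
  obtain ⟨o2, e2, K2, -, b2, p2, c2, g2⟩ := exists_good_step _ hodd _ hc.2.1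
  obtain ⟨o3, e3, K3, -, b3, p3, c3, g3⟩ := exists_good_step _ hodd _ hc.2.2
  obtain ⟨a, j, hj⟩ := shift_LC2 hr ![e1, e2, e3]
  have bd : ∀ i o K s : ℕ, i + (n + 8) < r → o ≤ 5 → K ≤ 12 → s < K →
      3 * (s * o * 2 ^ i) < 2 ^ (r - n) := fun i o K s h1 h3 h4 h5 => by
    have e : 2 ^ (i + 8) ≤ 2 ^ (r - n) := Nat.pow_le_pow_right two_pos (by omega)
    have e' : s * o * 2 ^ i ≤ 11 * 5 * 2 ^ i :=
      Nat.mul_le_mul_right _ (Nat.mul_le_mul (by omega) h3)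
    have : 0 < 2 ^ i := by positivity
    rw [pow_add] at e
    omega
  have step : ∀ (l : ι) (o e K i R : ℕ), a + i ≡ e [MOD r] →
      (∀ x : ZMod (2 ^ r - 1), (∀ s < K, x + ((s * o * 2 ^ e : ℕ) : ZMod (2 ^ r - 1)) * D l ≠ 0) →
        K * (2 ^ r - 1) < 3 * ∑ s ∈ Finset.range K,
          (x + ((s * o * 2 ^ e : ℕ) : ZMod (2 ^ r - 1)) * D l).val) →
      ∀ N : ℕ → ℕ, (∀ s, N s = s * o * 2 ^ i + R) → (∀ s < K, N s < 2 ^ (r - n)) →
      K * (2 ^ r - 1) < 3 * ∑ s ∈ Finset.range K,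
        (2 ^ a * (U l + (N s : ZMod (2 ^ r - 1)) * D l)).val := by
    intro l o e K i R h1 h3 N h4 h5
    have e0 : (2 : ZMod (2 ^ r - 1)) ^ e = 2 ^ a * 2 ^ i := by
      rw [← pow_add, pow_eq_pow_of_modEq h1 hpow]
    have e1 : ∀ s, 2 ^ a * (U l + (N s : ZMod (2 ^ r - 1)) * D l) =
        2 ^ a * (U l + R * D l) + ((s * o * 2 ^ e : ℕ) : ZMod (2 ^ r - 1)) * D l := fun s => by
      rw [h4]
      push_cast
      rw [e0]
      ring
    simp only [e1]
    refine h3 _ fun s hs e2 => (h _ (h5 s hs)).1 l ?_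
    rw [← e1] at e2
    exact (hu.pow a).mul_right_eq_zero.1 e2
  let N : ℕ → ℕ → ℕ → ℕ := fun s1 s2 s3 =>
    s1 * o1 * 2 ^ j 0 + s2 * o2 * 2 ^ j 1 + s3 * o3 * 2 ^ j 2
  have hN : ∀ s1 < K1, ∀ s2 < K2, ∀ s3 < K3, N s1 s2 s3 < 2 ^ (r - n) := fun s1 q1 s2 q2 s3 q3 => by
    have := bd _ _ _ _ (hj 0).1 b1 c1 q1
    have := bd _ _ _ _ (hj 1).1 b2 c2 q2
    have := bd _ _ _ _ (hj 2).1 b3 c3 q3
    simp only [N]
    omega
  let f : ι → ℕ → ℕ → ℕ → ℕ := fun l s1 s2 s3 =>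
    (2 ^ a * (U l + (N s1 s2 s3 : ZMod (2 ^ r - 1)) * D l)).val
  refine box_LC2 (m := 2 ^ r - 1) p1 p2 p3 (f l1) (f l2) (f l3) (fun s1 q1 s2 q2 s3 q3 => ?_)
    (fun s2 q2 s3 q3 => step l1 o1 e1 K1 (j 0) (s2 * o2 * 2 ^ j 1 + s3 * o3 * 2 ^ j 2) (hj 0).2 g1
      (fun s => N s s2 s3) (fun s => add_assoc _ _ _) fun s q => hN s q s2 q2 s3 q3)
    (fun s1 q1 s3 q3 => step l2 o2 e2 K2 (j 1) (s1 * o1 * 2 ^ j 0 + s3 * o3 * 2 ^ j 2) (hj 1).2 g2
      (fun s => N s1 s s3) (fun s => by simp only [N]; ring) fun s q => hN s1 q1 s q s3 q3)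
    fun s1 q1 s2 q2 => step l3 o3 e3 K3 (j 2) (s1 * o1 * 2 ^ j 0 + s2 * o2 * 2 ^ j 1) (hj 2).2 g3
      (fun s => N s1 s2 s) (fun s => add_comm _ _) fun s q => hN s1 q1 s2 q2 s q
  refine le_trans ?_ ((Finset.sum_le_sum_of_subset (Finset.subset_univ {l1, l2, l3})).trans
    ((h _ (hN s1 q1 s2 q2 s3 q3)).2 a))
  rw [Finset.sum_insert (by simp [h12, h13]), Finset.sum_pair h23, add_assoc]

end Pool.Agent.Adm

end

section

/-! An injective additive map sending differences of basis vectors to vectors of support two is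
monomial. -/

namespace Pool.Agent.Adm

/-- at most two non-zero entries -/
def TwoLC4 {ι' R : Type} [CommRing R] (w : ι' → R) : Prop :=
  ∀ l1 l2 l3, l1 ≠ l2 → l1 ≠ l3 → l2 ≠ l3 → w l1 = 0 ∨ w l2 = 0 ∨ w l3 = 0

/-- `w = x (e b - e a)` -/
def ShLC4 {ι' R : Type} [CommRing R] (w : ι' → R) (b a : ι') (x : R) : Prop :=
  b ≠ a ∧ w b = x ∧ w a = -x ∧ ∀ l, l ≠ a → l ≠ b → w l = 0

theorem sum_two_LC4 {ι' R : Type} [Fintype ι'] [CommRing R] {w : ι' → R} {a b : ι'} (hab : b ≠ a)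
    (hs : ∑ l, w l = 0) (h : ∀ l, l ≠ a → l ≠ b → w l = 0) : w b = -w a := by
  rw [Finset.sum_eq_add a b hab.symm (fun l _ hl => h l hl.1 hl.2)
    (fun h => absurd (Finset.mem_univ _) h) (fun h => absurd (Finset.mem_univ _) h)] at hs
  exact eq_neg_of_add_eq_zero_right hs

theorem sh_LC4 {ι' R : Type} [Fintype ι'] [CommRing R] {w : ι' → R} (hs : ∑ l, w l = 0)
    (h : TwoLC4 w) {a : ι'} (ha : w a ≠ 0) : ∃ b, ShLC4 w b a (-w a) := by
  have hb : ∃ b, b ≠ a ∧ w b ≠ 0 := by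
    by_contra hno
    apply ha
    rw [← hs, Finset.sum_eq_single a]
    · intro b _ hb
      by_contra hw
      exact hno ⟨b, hb, hw⟩
    · exact fun h => absurd (Finset.mem_univ _) h
  obtain ⟨b, hb, hwb⟩ := hb
  have h0 : ∀ l, l ≠ a → l ≠ b → w l = 0 := fun l hla hlb =>
    ((h a b l hb.symm hla.symm hlb.symm).resolve_left ha).resolve_left hwb
  exact ⟨b, hb, sum_two_LC4 hb hs h0, (neg_neg _).symm, h0⟩

theorem sh_ext_LC4 {ι' R : Type} [CommRing R] {w w' : ι' → R} {a b : ι'} {x : R}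
    (h : ShLC4 w b a x) (h' : ShLC4 w' b a x) : w = w' := by
  funext l
  by_cases hla : l = a
  · rw [hla, h.2.2.1, h'.2.2.1]
  by_cases hlb : l = b
  · rw [hlb, h.2.1, h'.2.1]
  rw [h.2.2.2 l hla hlb, h'.2.2.2 l hla hlb]

theorem common_LC4 {ι' R : Type} [Fintype ι'] [CommRing R] {v w : ι' → R} (hv : ∑ l, v l = 0)
    (hw : ∑ l, w l = 0) (h0 : v ≠ 0) (h1 : TwoLC4 v) (h2 : TwoLC4 (v - w))
    (hind : ∀ x y : R, y • v = x • w → x = 0) : ∃ a, v a ≠ 0 ∧ w a = v a := by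
  obtain ⟨a, ha⟩ := Function.ne_iff.1 h0
  have ha' : v a ≠ 0 := ha
  obtain ⟨b, hb, hvb, -, hz⟩ := sh_LC4 hv h1 ha'
  have hb' : v b ≠ 0 := by
    rw [hvb]
    exact neg_ne_zero.2 ha'
  by_cases e1 : w a = v a
  · exact ⟨a, ha', e1⟩
  by_cases e2 : w b = v b
  · exact ⟨b, hb', e2⟩
  exfalso
  have hz' : ∀ l, l ≠ a → l ≠ b → w l = 0 := by
    intro l hla hlb
    have := ((h2 a b l hb.symm hla.symm hlb.symm).resolve_left
      (sub_ne_zero.2 (Ne.symm e1))).resolve_left (sub_ne_zero.2 (Ne.symm e2))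
    rw [Pi.sub_apply, hz l hla hlb, zero_sub, neg_eq_zero] at this
    exact this
  have hwb := sum_two_LC4 hb hw hz'
  refine ha' (hind (v a) (w a) ?_)
  funext l
  rw [Pi.smul_apply, Pi.smul_apply, smul_eq_mul, smul_eq_mul]
  by_cases hla : l = a
  · rw [hla, mul_comm]
  by_cases hlb : l = b
  · rw [hlb, hvb, hwb]
    ring
  rw [hz l hla hlb, hz' l hla hlb, mul_zero, mul_zero]

theorem third_LC4 {ι' R : Type} [Fintype ι'] [CommRing R] {u v w : ι' → R} {a b c : ι'} {x : R}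
    (hx : x ≠ 0) (hx2 : x + x ≠ 0) (hv : ShLC4 v b a x) (hw : ShLC4 w c a x) (hbc : b ≠ c)
    (h0 : u ≠ 0) (h1 : TwoLC4 u) (sv : ∑ l, (u - v) l = 0) (sw : ∑ l, (u - w) l = 0)
    (h2 : TwoLC4 (u - v)) (h3 : TwoLC4 (u - w)) : u a = -x := by
  by_contra hne
  obtain ⟨hba, vb, va, vz⟩ := hv
  obtain ⟨hca, wc, wa, wz⟩ := hw
  have n1 : (u - v) a ≠ 0 := by
    rw [Pi.sub_apply, va]
    exact sub_ne_zero.2 hne
  have n2 : (u - w) a ≠ 0 := by
    rw [Pi.sub_apply, wa]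
    exact sub_ne_zero.2 hne
  obtain ⟨d, hda, ud, -, uz⟩ := sh_LC4 sv h2 n1
  obtain ⟨e, hea, ue, -, uz'⟩ := sh_LC4 sw h3 n2
  simp only [Pi.sub_apply] at ud ue uz uz'
  have vc : v c = 0 := vz c hca hbc.symm
  have wb : w b = 0 := wz b hba hbc
  rw [va] at ud
  rw [wa] at ue
  by_cases hdb : d = b
  · subst hdb
    rw [vb] at ud
    have uc : u c = 0 := by
      have := uz c hca hbc.symm
      rwa [vc, sub_zero] at this
    have hec : e = c := by
      by_contra hec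
      have := uz' c hca (Ne.symm hec)
      rw [uc, wc, zero_sub, neg_eq_zero] at this
      exact hx this
    subst hec
    rw [uc, wc] at ue
    have ua : u a = 0 := by linear_combination ue
    apply h0
    funext l
    by_cases hla : l = a
    · rw [hla, ua, Pi.zero_apply]
    by_cases hld : l = d
    · rw [hld, Pi.zero_apply]
      linear_combination ud - ua
    have := uz l hla hld
    rwa [vz l hla hld, sub_zero] at this
  · have ub : u b = x := by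
      have := uz b hba (Ne.symm hdb)
      rwa [vb, sub_eq_zero] at this
    have heb : e = b := by
      by_contra heb
      have := uz' b hba (Ne.symm heb)
      rw [ub, wb, sub_zero] at this
      exact hx this
    subst heb
    rw [ub, wb] at ue
    have uc : u c = x := by
      have := uz' c hca hbc.symm
      rwa [wc, sub_eq_zero] at this
    have ua : u a = -(x + x) := by linear_combination ue
    rcases h1 a e c hba.symm hca.symm hbc with h | h | h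
    · exact hx2 (neg_eq_zero.1 (ua ▸ h))
    · exact hx (ub ▸ h)
    · exact hx (uc ▸ h)

theorem monomial_of_support {ι ι' Γ : Type} [Fintype ι] [DecidableEq ι] [Fintype ι']
    [AddCommGroup Γ] (m : ℕ) (hm : Odd m) (hm1 : 1 < m) (h3 : 3 ≤ Fintype.card ι)
    (hc : Fintype.card ι = Fintype.card ι') (lab : Γ →+ (ι → ZMod m)) (lab' : Γ →+ (ι' → ZMod m))
    (hi : Function.Injective lab) (hi' : Function.Injective lab') (hs : ∀ γ, ∑ l, lab γ l = 0)
    (hs' : ∀ γ, ∑ l, lab' γ l = 0) (hsurj : ∀ x : ι → ZMod m, ∑ l, x l = 0 → ∃ γ, lab γ = x)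
    (h : ∀ i j, i ≠ j → ∀ γ, lab γ = Pi.single i 1 - Pi.single j 1 → ∀ l1 l2 l3, l1 ≠ l2 →
      l1 ≠ l3 → l2 ≠ l3 → lab' γ l1 = 0 ∨ lab' γ l2 = 0 ∨ lab' γ l3 = 0) :
    ∃ (τ : ι ≃ ι') (x : ZMod m), ∀ γ l, lab' γ (τ l) = x * lab γ l := by
  classical
  have : Fact (1 < m) := ⟨hm1⟩
  have : NeZero m := ⟨by omega⟩
  obtain ⟨j0, i1, i2, h01, h02, h12⟩ := Fintype.two_lt_card_iff.1 (Nat.lt_of_succ_le h3)
  have hg : ∀ i : ι, ∃ γ, lab γ = Pi.single i 1 - Pi.single j0 1 := fun i =>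
    hsurj _ (by simp [Finset.sum_sub_distrib])
  choose g hg using hg
  have hval : ∀ (x : ZMod m) (γ : Γ), lab (x.val • γ) = x • lab γ := fun x γ => by
    rw [map_nsmul, ← Nat.cast_smul_eq_nsmul (ZMod m), ZMod.natCast_zmod_val]
  have hval' : ∀ (x : ZMod m) (γ : Γ), lab' (x.val • γ) = x • lab' γ := fun x γ => by
    rw [map_nsmul, ← Nat.cast_smul_eq_nsmul (ZMod m), ZMod.natCast_zmod_val]
  have hind : ∀ i i', i ≠ i' → i' ≠ j0 → ∀ x y : ZMod m, y • lab' (g i) = x • lab' (g i') →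
      x = 0 := by
    intro i i' hii hj x y e
    rw [← hval', ← hval'] at e
    have e' := congrArg (fun γ => lab γ i') (hi' e)
    simp only [hval, hg, Pi.smul_apply, Pi.sub_apply, Pi.single_eq_same,
      Pi.single_eq_of_ne hii.symm, Pi.single_eq_of_ne hj, sub_zero, smul_eq_mul, mul_zero,
      mul_one] at e'
    exact e'.symm
  have hg0 : lab' (g j0) = 0 := by
    rw [hi (show lab (g j0) = lab 0 by rw [hg, sub_self, map_zero]), map_zero]
  have hinj : ∀ i i', i' ≠ j0 → lab' (g i) = lab' (g i') → i = i' := by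
    intro i i' hj e
    by_contra hii
    exact one_ne_zero (hind i i' hii hj 1 1 (by rw [e]))
  have hne : ∀ i, i ≠ j0 → lab' (g i) ≠ 0 := fun i hj e =>
    hj (hinj j0 i hj (by rw [e, hg0])).symm
  have t1 : ∀ i, i ≠ j0 → TwoLC4 (lab' (g i)) := fun i hj => h i j0 hj _ (hg i)
  have t2 : ∀ i i', i ≠ i' → TwoLC4 (lab' (g i) - lab' (g i')) := by
    intro i i' hii
    rw [← map_sub]
    exact h i i' hii _ (by rw [map_sub, hg, hg, sub_sub_sub_cancel_right])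
  have s2 : ∀ i i', ∑ l, (lab' (g i) - lab' (g i')) l = 0 := fun i i' => by
    rw [← map_sub]
    exact hs' _
  obtain ⟨a, ha, ha'⟩ := common_LC4 (hs' (g i1)) (hs' (g i2)) (hne i1 h01.symm) (t1 i1 h01.symm)
    (t2 i1 i2 h12) (hind i1 i2 h12 h02.symm)
  obtain ⟨x, hx⟩ : ∃ x, x = -lab' (g i1) a := ⟨_, rfl⟩
  have hx0 : x ≠ 0 := hx ▸ neg_ne_zero.2 ha
  have hx2 : x + x ≠ 0 := by
    have hu : IsUnit ((2 : ℕ) : ZMod m) :=
      (ZMod.isUnit_iff_coprime 2 m).2 (Nat.coprime_two_left.2 hm)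
    rw [← two_mul]
    intro e
    exact hx0 (hu.mul_right_eq_zero.1 (by exact_mod_cast e))
  obtain ⟨b, hb⟩ := sh_LC4 (hs' (g i1)) (t1 i1 h01.symm) ha
  obtain ⟨c, hc'⟩ := sh_LC4 (hs' (g i2)) (t1 i2 h02.symm) (ha' ▸ ha : lab' (g i2) a ≠ 0)
  rw [ha', ← hx] at hc'
  rw [← hx] at hb
  have hbc : b ≠ c := by
    rintro rfl
    exact h12 (hinj i1 i2 h02.symm (sh_ext_LC4 hb hc'))
  have hall : ∀ i, i ≠ j0 → lab' (g i) a = -x := by
    intro i hj
    by_cases e1 : i = i1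
    · rw [e1, hb.2.2.1]
    by_cases e2 : i = i2
    · rw [e2, hc'.2.2.1]
    exact third_LC4 hx0 hx2 hb hc' hbc (hne i hj) (t1 i hj) (s2 _ _) (s2 _ _) (t2 _ _ e1)
      (t2 _ _ e2)
  have hτ : ∀ i, ∃ b, (i = j0 → b = a) ∧ (i ≠ j0 → ShLC4 (lab' (g i)) b a x) := by
    intro i
    by_cases hj : i = j0
    · exact ⟨a, fun _ => rfl, fun h => absurd hj h⟩
    · obtain ⟨b, hb⟩ := sh_LC4 (hs' (g i)) (t1 i hj)
        (by rw [hall i hj]; exact neg_ne_zero.2 hx0 : lab' (g i) a ≠ 0)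
      rw [hall i hj, neg_neg] at hb
      exact ⟨b, fun h => absurd h hj, fun _ => hb⟩
  choose τ hτ0 hτ using hτ
  have hτi : Function.Injective τ := by
    intro i i' e
    by_cases hj : i = j0 <;> by_cases hj' : i' = j0
    · rw [hj, hj']
    · exact absurd (by rw [← e, hτ0 i hj]) (hτ i' hj').1
    · exact absurd (by rw [e, hτ0 i' hj']) (hτ i hj).1
    · exact hinj i i' hj' (sh_ext_LC4 (hτ i hj) (e ▸ hτ i' hj'))
  have hv : ∀ i l, lab' (g i) (τ l) = x * lab (g i) l := by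
    intro i l
    rw [hg, Pi.sub_apply]
    by_cases hj : i = j0
    · rw [hj, hg0, sub_self, mul_zero, Pi.zero_apply]
    obtain ⟨-, e1, e2, e3⟩ := hτ i hj
    by_cases hl : l = j0
    · rw [hτ0 l hl, e2, hl, Pi.single_eq_same, Pi.single_eq_of_ne (Ne.symm hj)]
      ring
    by_cases hli : l = i
    · rw [hli, e1, Pi.single_eq_same, Pi.single_eq_of_ne hj]
      ring
    rw [e3 _ (hτ l hl).1 fun e => hli (hτi e), Pi.single_eq_of_ne hl, Pi.single_eq_of_ne hli]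
    ring
  refine ⟨Equiv.ofBijective τ ((Fintype.bijective_iff_injective_and_card τ).2 ⟨hτi, hc⟩), x,
    fun γ l => ?_⟩
  have hγ : γ = ∑ i, (lab γ i).val • g i := by
    apply hi
    rw [map_sum]
    funext k
    simp only [hval, hg, Finset.sum_apply, Pi.smul_apply, Pi.sub_apply, smul_eq_mul, mul_sub,
      Finset.sum_sub_distrib, ← Finset.sum_mul, hs, zero_mul, sub_zero]
    simp [Pi.single_apply]
  rw [Equiv.ofBijective_apply, hγ, map_sum, map_sum, Finset.sum_apply, Finset.sum_apply,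
    Finset.mul_sum]
  refine Finset.sum_congr rfl fun i _ => ?_
  rw [hval, hval', Pi.smul_apply, Pi.smul_apply, hv, smul_eq_mul, smul_eq_mul]
  ring

end Pool.Agent.Adm

end

section

/-! Generic points of the closure of a set of primes. -/

namespace Pool.Agent.Adm

theorem exists_min_primes {A : Type} [CommRing A] [IsNoetherianRing A] (W : Set (Ideal A))
    (hW : ∀ Q ∈ W, Q.IsPrime) :
    ∃ M : Set (Ideal A), M.Finite ∧
      (∀ P ∈ M, P.IsPrime ∧ ∀ D, D ∉ P → ∃ Q ∈ W, P ≤ Q ∧ D ∉ Q) ∧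
      ∀ Q ∈ W, ∃ P ∈ M, P ≤ Q := by
  classical
  have hf := Ideal.finite_minimalPrimes_of_isNoetherianRing A (sInf W)
  have hle : ∀ Q ∈ W, ∃ P ∈ (sInf W).minimalPrimes, P ≤ Q := fun Q hQ =>
    haveI := hW Q hQ
    Ideal.exists_minimalPrimes_le (sInf_le hQ)
  refine ⟨_, hf, fun P hP => ⟨hP.1.1, fun D hD => ?_⟩, hle⟩
  haveI : P.IsPrime := hP.1.1
  have h1 : ∀ P' ∈ hf.toFinset.erase P, ∃ x ∈ P', x ∉ P := by
    intro P' h
    rw [Finset.mem_erase, Set.Finite.mem_toFinset] at h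
    by_contra hc
    push Not at hc
    exact h.1 (le_antisymm hc (hP.2 h.2.1 hc))
  choose! x hx hx' using h1
  have h2 : D * ∏ P' ∈ hf.toFinset.erase P, x P' ∉ P := by
    intro h
    rcases Ideal.IsPrime.mem_or_mem ‹_› h with h | h
    · exact hD h
    · obtain ⟨P', h3, h4⟩ := Ideal.IsPrime.prod_mem_iff.1 h
      exact hx' P' h3 h4
  have h3 : ∃ Q ∈ W, D * ∏ P' ∈ hf.toFinset.erase P, x P' ∉ Q := by
    by_contra hc
    push Not at hc
    exact h2 (hP.1.2 (Submodule.mem_sInf.2 hc))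
  obtain ⟨Q, hQ, h4⟩ := h3
  obtain ⟨P', h5, h6⟩ := hle Q hQ
  refine ⟨Q, hQ, ?_, fun h => h4 (Q.mul_mem_right _ h)⟩
  by_contra hc
  have h7 : P' ∈ hf.toFinset.erase P :=
    Finset.mem_erase.2 ⟨fun e => hc (e ▸ h6), hf.mem_toFinset.2 h5⟩
  exact h4 (Q.mul_mem_left _ (Ideal.prod_mem Q h7 (h6 (hx P' h7))))

end Pool.Agent.Adm

end

section

/-! Maximal chains in abstract spaces. -/

namespace Pool.Agent.Adm

theorem longer_MX {α : Type*} [PartialOrder α] (s : LTSeries α) (w : α)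
    (hc : ∀ i, w < s i ∨ s i < w) : ∃ t : LTSeries α, t.length = s.length + 1 := by
  rcases hc 0 with h0 | h0
  · exact ⟨s.cons w h0, by simp⟩
  by_cases h : ∃ i : Fin s.length, s i.castSucc < w ∧ w < s i.succ
  · obtain ⟨i, h1, h2⟩ := h
    exact ⟨s.insertNth i w h1 h2, by simp⟩
  · have h1 : ∀ i, s i < w := fun i => by
      induction i using Fin.induction with
      | zero => exact h0
      | succ i ih => exact (hc i.succ).resolve_left fun h2 => h ⟨i, ih, h2⟩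
    exact ⟨s.snoc w (h1 _), by simp⟩

theorem exists_isMaxChain {X : Type*} [TopologicalSpace X]
    (hu : IsIrreducible (Set.univ : Set X)) (B : ℕ)
    (hB : ∀ s : LTSeries (TopologicalSpace.IrreducibleCloseds X), s.length ≤ B) (r : ℕ)
    (hr : (r : WithBot ℕ∞) ≤ topologicalKrullDim X) :
    ∃ m, r ≤ m ∧ ∃ V : Fin (m + 1) → Set X, IsMaxChain V := by
  classical
  obtain ⟨s₀, h₀⟩ := Order.le_krullDim_iff.1 hr
  have hP := Nat.findGreatest_spec
    (P := fun n => ∃ s : LTSeries (TopologicalSpace.IrreducibleCloseds X), s.length = n)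
    (hB s₀) ⟨s₀, rfl⟩
  obtain ⟨s, hs⟩ := hP
  have hmax : ∀ t : LTSeries (TopologicalSpace.IrreducibleCloseds X), t.length ≤ s.length :=
    fun t => hs ▸ Nat.le_findGreatest (hB t) ⟨t, rfl⟩
  have key : ∀ w : TopologicalSpace.IrreducibleCloseds X, (∀ i, w ≤ s i ∨ s i ≤ w) →
      ∃ i, s i = w := fun w hw => by
    by_contra hn
    obtain ⟨t, ht⟩ := longer_MX s w fun i => (hw i).imp
      (fun h => lt_of_le_of_ne h fun e => hn ⟨i, e.symm⟩)
      fun h => lt_of_le_of_ne h fun e => hn ⟨i, e⟩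
    have := hmax t
    omega
  refine ⟨s.length, h₀ ▸ hmax s₀, fun i => (s (Fin.rev i) : Set X),
    fun i => ⟨(s _).isIrreducible, (s _).isClosed⟩, ?_, fun i j hij => ?_, fun W h1 h2 h3 => ?_⟩
  · obtain ⟨i, hi⟩ := key ⟨Set.univ, hu, isClosed_univ⟩ fun i => Or.inr (Set.subset_univ _)
    have h : s i ≤ s (Fin.rev 0) := s.monotone (by rw [Fin.rev_zero]; exact Fin.le_last _)
    rw [hi] at h
    exact Set.univ_subset_iff.1 h
  · exact SetLike.coe_ssubset_coe.2 (s.strictMono (Fin.rev_lt_rev.2 hij))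
  · obtain ⟨i, hi⟩ := key ⟨W, h1, h2⟩ fun i => by
      have := h3 (Fin.rev i)
      simp only [Fin.rev_rev] at this
      exact this
    refine ⟨Fin.rev i, ?_⟩
    simp only [Fin.rev_rev, hi]
    rfl

theorem isMaxChain_of_points {X : Type*} [TopologicalSpace X] {m : ℕ}
    (hs : ∀ V : Set X, IsIrreducible V → IsClosed V → ∃ x, V = closure {x})
    (y : Fin (m + 1) → X) (htop : ∀ x, y 0 ⤳ x)
    (hstep : ∀ i : Fin m, y i.castSucc ⤳ y i.succ ∧ ¬ y i.succ ⤳ y i.castSucc ∧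
      ∀ x, y i.castSucc ⤳ x → x ⤳ y i.succ → x ⤳ y i.castSucc ∨ y i.succ ⤳ x)
    (hbot : ∀ x, y (Fin.last m) ⤳ x → x ⤳ y (Fin.last m)) :
    IsMaxChain fun i => closure {y i} := by
  refine ⟨fun i => ⟨isIrreducible_singleton.closure, isClosed_closure⟩,
    Set.eq_univ_of_forall fun x => specializes_iff_mem_closure.1 (htop x),
    Fin.strictAnti_iff_succ_lt.2 fun i => ⟨specializes_iff_closure_subset.1 (hstep i).1,
      fun h => (hstep i).2.1 (specializes_iff_closure_subset.2 h)⟩, fun W h1 h2 h3 => ?_⟩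
  obtain ⟨x, rfl⟩ := hs W h1 h2
  by_contra hn
  have hn' : ∀ i, y i ⤳ x → ¬ x ⤳ y i := fun i a b => hn ⟨i, Set.Subset.antisymm
    (specializes_iff_closure_subset.1 b) (specializes_iff_closure_subset.1 a)⟩
  have h : ∀ i, y i ⤳ x := fun i => by
    induction i using Fin.induction with
    | zero => exact htop x
    | succ i ih =>
      rcases h3 i.succ with h | h
      · exact specializes_iff_closure_subset.2 h
      · exact ((hstep i).2.2 x ih (specializes_iff_closure_subset.2 h)).resolve_left (hn' _ ih)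
  exact hn' _ (h _) (hbot x (h _))

end Pool.Agent.Adm

end
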