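import Mathlib
import Pool.Agent.AdmG.Defs

section

/-!
Admissible coverings of pointed stable curves of genus zero in characteristic p, and the space of
their admissible fundamental groups with the anabelian topology.
-/

namespace Pool.Agent.Adm

open scoped OnePoint

/-- A finite Galois extension L of the function field k(X) of a projective line, with a
homomorphism from its Galois group to G.  It describes the restriction of a Galois G-covering to
one irreducible component; the image of the homomorphism is the decomposition group. -/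
structure Cover (k : Type) [Field k] (G : Type) [Group G] : Type 1 where
  L : Type
  [field : Field L]
  [alg : Algebra (RatFunc k) L]
  [fin : FiniteDimensional (RatFunc k) L]
  [gal : IsGalois (RatFunc k) L]
  ι : (L ≃ₐ[RatFunc k] L) →* G

attribute [instance] Cover.field Cover.alg Cover.fin Cover.gal

/-- The coordinate X near the point a of the projective line, as a Laurent series in a local
parameter z of a place of ramification index dividing e: a + z^e, or z^(-e) at infinity. -/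
noncomputable def expand {k : Type} [Field k] (a : OnePoint k) (e : ℕ) : LaurentSeries k :=
  a.elim (HahnSeries.single (-(e : ℤ)) 1) (fun b => HahnSeries.C b + HahnSeries.single (e : ℤ) 1)

/-- Tame local monodromy: L embeds over k into k((z)) with X sent to expand a e (a place above a,
tamely ramified since k has the primitive e-th root of unity ζ), and the automorphism σ of L
induced by z ↦ ζ z (a generator of the inertia group of that place) is sent to g. -/
def Cover.Mono {k G : Type} [Field k] [Group G] (c : Cover k G) (a : OnePoint k) (e : ℕ) (ζ : k)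
    (g : G) : Prop :=
  0 < e ∧ IsPrimitiveRoot ζ e ∧ ∃ j : c.L →+* LaurentSeries k,
    (∀ x : k, j (algebraMap (RatFunc k) c.L (RatFunc.C x)) = HahnSeries.C x) ∧
    j (algebraMap (RatFunc k) c.L RatFunc.X) = expand a e ∧
    ∃ σ : c.L ≃ₐ[RatFunc k] c.L, c.ι σ = g ∧
      ∀ (x : c.L) (n : ℤ), (j (σ x)).coeff n = ζ ^ n * (j x).coeff n

/-- An n-pointed stable curve of genus zero over an algebraically closed field of characteristic
p: a finite tree of projective lines.  For adjacent v, w the point node v w of the line v is glued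
to the point node w v of the line w; the i-th marked point is mark i on the line comp i; the
special points of each line are distinct and at least three. -/
structure StableCurve (p n : ℕ) : Type 1 where
  k : Type
  [field : Field k]
  [closed : IsAlgClosed k]
  [char : CharP k p]
  V : Type
  [fin : Finite V]
  T : SimpleGraph V
  tree : T.IsTree
  node : V → V → OnePoint k
  comp : Fin n → V
  mark : Fin n → OnePoint k
  node_inj : ∀ v w w', T.Adj v w → T.Adj v w' → node v w = node v w' → w = w'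
  mark_inj : ∀ i j, comp i = comp j → mark i = mark j → i = j
  mark_ne_node : ∀ i w, T.Adj (comp i) w → mark i ≠ node (comp i) w
  stable : ∀ v, 3 ≤ {a | (∃ w, T.Adj v w ∧ node v w = a) ∨ ∃ i, comp i = v ∧ mark i = a}.ncard

attribute [instance] StableCurve.field StableCurve.closed StableCurve.char StableCurve.fin

/-- The special points (nodes and marked points) of the component v. -/
def StableCurve.Special {p n : ℕ} (X : StableCurve p n) (v : X.V) (a : OnePoint X.k) : Prop :=
  (∃ w, X.T.Adj v w ∧ X.node v w = a) ∨ ∃ i, X.comp i = v ∧ X.mark i = a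

/-- X has a connected Galois admissible covering with group G: coverings of the components, tame
everywhere and unramified outside the special points, whose inertia generators agree at each node
(z ↦ ζ z on one branch, z ↦ ζ⁻¹ z on the other), and whose decomposition groups generate G. -/
def StableCurve.HasCover {p n : ℕ} (X : StableCurve p n) (G : Type) [Group G] : Prop :=
  ∃ c : X.V → Cover X.k G,
    (∀ v a, ∃ e ζ g, (c v).Mono a e ζ g ∧ (¬ X.Special v a → g = 1)) ∧
    (∀ v w, X.T.Adj v w →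
      ∃ e ζ g, (c v).Mono (X.node v w) e ζ g ∧ (c w).Mono (X.node w v) e ζ⁻¹ g) ∧
    ⨆ v, (c v).ι.range = ⊤

/-- The set of admissible fundamental groups of type (0, n): curves are identified when their
admissible fundamental groups have the same finite quotients. -/
def PiBar (p n : ℕ) : Type 1 :=
  Quot fun X Y : StableCurve p n =>
    ∀ (G : Type) [Group G] [Finite G], X.HasCover G ↔ Y.HasCover G

/-- The set U_G of fundamental groups having the finite group G as a quotient. -/
def U (p n : ℕ) (G : Type) [Group G] : Set (PiBar p n) :=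
  {x | ∃ X : StableCurve p n, Quot.mk _ X = x ∧ X.HasCover G}

/-- The anabelian topology, generated by the sets U_G for finite groups G. -/
instance topPiBar (p n : ℕ) : TopologicalSpace (PiBar p n) :=
  TopologicalSpace.generateFrom
    {s | ∃ (G : Type) (_ : Group G) (_ : Finite G), s = U p n G}

end Pool.Agent.Adm

end

section

/-! Basic ring homomorphisms of Laurent series fields, relative monodromy, auxiliary notions. -/

namespace Pool.Agent.Adm

open scoped OnePoint
open HahnSeries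

noncomputable section

variable {k k' : Type} [Field k] [Field k']

/-- The substitution z ↦ ζ z. -/
def scL (ζ : k) (h : ζ ≠ 0) : LaurentSeries k →+* LaurentSeries k where
  toFun x := ⟨fun n => ζ ^ n * x.coeff n, x.isPWO_support.mono (by
    intro n hn
    simp only [Function.mem_support, ne_eq, mul_eq_zero, not_or] at hn
    exact hn.2)⟩
  map_one' := by
    ext n
    by_cases hn : n = 0 <;> simp [hn, coeff_one]
  map_zero' := by ext n; simp
  map_add' x y := by ext n; simp [mul_add]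
  map_mul' x y := by
    ext n
    have hs : ∀ w : LaurentSeries k, (⟨fun n => ζ ^ n * w.coeff n, w.isPWO_support.mono (by
        intro n hn
        simp only [Function.mem_support, ne_eq, mul_eq_zero, not_or] at hn
        exact hn.2)⟩ : LaurentSeries k).support = w.support := by
      intro w
      ext m
      simp [zpow_ne_zero _ h]
    simp only [coeff_mul, hs, Finset.mul_sum]
    refine Finset.sum_congr rfl ?_
    intro ij hij
    rw [Finset.mem_antidiagonal] at hij
    rw [← hij.2.2, zpow_add₀ h]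
    ring

@[simp] theorem scL_coeff (ζ : k) (h : ζ ≠ 0) (x : LaurentSeries k) (n : ℤ) :
    (scL ζ h x).coeff n = ζ ^ n * x.coeff n := rfl

theorem scL_single (ζ : k) (h : ζ ≠ 0) (n : ℤ) (c : k) :
    scL ζ h (single n c) = single n (ζ ^ n * c) := by
  ext m
  by_cases hm : m = n <;> simp [hm, coeff_single]

@[simp] theorem scL_C (ζ : k) (h : ζ ≠ 0) (c : k) : scL ζ h (C c) = C c := by
  rw [C_apply, scL_single]; simp

theorem scL_scL (ζ ξ : k) (h : ζ ≠ 0) (h' : ξ ≠ 0) (x : LaurentSeries k) :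
    scL ζ h (scL ξ h' x) = scL (ζ * ξ) (mul_ne_zero h h') x := by
  ext n; simp [mul_zpow, mul_assoc]

@[simp] theorem scL_one (x : LaurentSeries k) : scL (1 : k) one_ne_zero x = x := by
  ext n; simp

/-- Coefficientwise extension of scalars. -/
def mapL (φ : k →+* k') : LaurentSeries k →+* LaurentSeries k' where
  toFun x := x.map φ
  map_one' := HahnSeries.map_one φ.toMonoidWithZeroHom
  map_zero' := by ext n; simp
  map_add' x y := by ext n; simp
  map_mul' x y := HahnSeries.map_mul φ.toNonUnitalRingHom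

@[simp] theorem mapL_coeff (φ : k →+* k') (x : LaurentSeries k) (n : ℤ) :
    (mapL φ x).coeff n = φ (x.coeff n) := rfl

theorem mapL_single (φ : k →+* k') (n : ℤ) (c : k) : mapL φ (single n c) = single n (φ c) := by
  ext m
  by_cases hm : m = n <;> simp [hm, coeff_single]

@[simp] theorem mapL_C (φ : k →+* k') (c : k) : mapL φ (C c) = C (φ c) := by
  rw [C_apply, mapL_single, C_apply]

theorem mapL_scL (φ : k →+* k') (ζ : k) (h : ζ ≠ 0) (x : LaurentSeries k) :
    mapL φ (scL ζ h x) = scL (φ ζ) ((map_ne_zero φ).2 h) (mapL φ x) := by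
  ext n; simp

theorem mapL_expand (φ : k →+* k') (a : OnePoint k) (e : ℕ) :
    mapL φ (expand a e) = expand (a.map φ) e := by
  induction a using OnePoint.rec with
  | infty => simp [expand, mapL_single]
  | coe b => simp [expand, mapL_single]

/-- The substitution z ↦ z^e. -/
def powL (e : ℕ) (he : 0 < e) : LaurentSeries k →+* LaurentSeries k :=
  embDomainRingHom (AddMonoidHom.mulLeft (e : ℤ))
    (fun a b hab => mul_left_cancel₀ (by exact_mod_cast he.ne' : (e : ℤ) ≠ 0) hab)
    (fun a b => by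
      have : (0 : ℤ) < e := by exact_mod_cast he
      simp only [AddMonoidHom.coe_mulLeft]
      exact mul_le_mul_iff_right₀ this)

theorem powL_coeff_mul (e : ℕ) (he : 0 < e) (x : LaurentSeries k) (n : ℤ) :
    (powL e he x).coeff (e * n) = x.coeff n := by
  simp only [powL, embDomainRingHom_apply]
  exact embDomain_coeff (f := ⟨⟨_, _⟩, _⟩) (x := x) (a := n)

theorem powL_coeff_of_not_dvd (e : ℕ) (he : 0 < e) (x : LaurentSeries k) (n : ℤ)
    (hn : ¬ (e : ℤ) ∣ n) : (powL e he x).coeff n = 0 := by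
  simp only [powL, embDomainRingHom_apply]
  apply embDomain_of_notMem_range
  rintro ⟨m, hm⟩
  exact hn ⟨m, hm.symm⟩

theorem powL_single (e : ℕ) (he : 0 < e) (n : ℤ) (c : k) :
    powL e he (single n c) = single (e * n) c := by
  ext m
  by_cases hm : (e : ℤ) ∣ m
  · obtain ⟨l, rfl⟩ := hm
    rw [powL_coeff_mul]
    have : (e : ℤ) ≠ 0 := by exact_mod_cast he.ne'
    by_cases hl : l = n
    · simp [hl]
    · rw [coeff_single_of_ne hl, coeff_single_of_ne (fun h => hl (mul_left_cancel₀ this h))]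
  · rw [powL_coeff_of_not_dvd _ _ _ _ hm, coeff_single_of_ne]
    rintro rfl
    exact hm (dvd_mul_right _ _)

@[simp] theorem powL_C (e : ℕ) (he : 0 < e) (c : k) : powL e he (C c) = C c := by
  rw [C_apply, powL_single]; simp

theorem powL_expand (e : ℕ) (he : 0 < e) (a : OnePoint k) (d : ℕ) :
    powL e he (expand a d) = expand a (e * d) := by
  induction a using OnePoint.rec with
  | infty => simp [expand, powL_single]
  | coe b => simp [expand, powL_single]

theorem scL_powL (e : ℕ) (he : 0 < e) (ζ : k) (h : ζ ≠ 0) (x : LaurentSeries k) :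
    scL ζ h (powL e he x) = powL e he (scL (ζ ^ e) (pow_ne_zero _ h) x) := by
  ext m
  by_cases hm : (e : ℤ) ∣ m
  · obtain ⟨l, rfl⟩ := hm
    rw [scL_coeff, powL_coeff_mul, powL_coeff_mul, scL_coeff, zpow_mul, zpow_natCast]
  · rw [scL_coeff, powL_coeff_of_not_dvd _ _ _ _ hm, powL_coeff_of_not_dvd _ _ _ _ hm, mul_zero]

theorem scL_expand (a : OnePoint k) (e : ℕ) (ζ : k) (h : ζ ≠ 0) (hζ : ζ ^ e = 1) :
    scL ζ h (expand a e) = expand a e := by
  induction a using OnePoint.rec with
  | infty => simp [expand, scL_single, hζ]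
  | coe b => simp [expand, scL_single, hζ]

/-- A series fixed by z ↦ ζ z, ζ a primitive e-th root of unity, is a series in z^e. -/
theorem exists_powL_of_scL (e : ℕ) (he : 0 < e) (ζ : k) (hζ : IsPrimitiveRoot ζ e)
    (x : LaurentSeries k) (hx : scL ζ (hζ.ne_zero he.ne') x = x) : ∃ y, powL e he y = x := by
  have h0 : (0 : ℤ) < e := by exact_mod_cast he
  refine ⟨HahnSeries.ofSuppBddBelow (fun n => x.coeff (e * n)) ?_, ?_⟩
  · refine ⟨min x.order 0, fun n hn => ?_⟩
    have h1 : x.order ≤ e * n := order_le_of_coeff_ne_zero hn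
    by_contra h2
    push Not at h2
    have h3 : n < x.order := lt_of_lt_of_le h2 (min_le_left _ _)
    have h4 : n < 0 := lt_of_lt_of_le h2 (min_le_right _ _)
    nlinarith
  · ext m
    by_cases hm : (e : ℤ) ∣ m
    · obtain ⟨l, rfl⟩ := hm
      rw [powL_coeff_mul]
      rfl
    · rw [powL_coeff_of_not_dvd _ _ _ _ hm]
      have h1 := congrArg (fun w : LaurentSeries k => w.coeff m) hx
      simp only [scL_coeff] at h1
      by_contra h2
      have h3 : ζ ^ m = 1 := mul_right_cancel₀ (Ne.symm h2) (by rw [h1, one_mul])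
      exact hm ((hζ.zpow_eq_one_iff_dvd m).1 h3)

/-- Two ring homomorphisms out of k(X) agreeing on constants and on X agree. -/
theorem ratFunc_hom_ext {W : Type} [CommRing W] (f g : RatFunc k →+* W)
    (hC : ∀ c, f (RatFunc.C c) = g (RatFunc.C c)) (hX : f RatFunc.X = g RatFunc.X) : f = g := by
  apply IsLocalization.ringHom_ext (nonZeroDivisors (Polynomial k))
  apply Polynomial.ringHom_ext
  · intro c; simpa using hC c
  · simpa using hX

theorem hom_algebraMap {W : Type} [CommRing W] (f : RatFunc k →+* W) (φ : k →+* W) (u : W)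
    (hC : ∀ c, f (RatFunc.C c) = φ c) (hX : f RatFunc.X = u) (P : Polynomial k) :
    f (algebraMap (Polynomial k) (RatFunc k) P) = P.eval₂ φ u := by
  have : f.comp (algebraMap (Polynomial k) (RatFunc k)) = Polynomial.eval₂RingHom φ u := by
    apply Polynomial.ringHom_ext
    · intro c; simpa using hC c
    · simpa using hX
  exact DFunLike.congr_fun this P

/-- Existence of a homomorphism out of k(X) at a transcendental element. -/
theorem exists_ratFunc_hom {W : Type} [Field W] (φ : k →+* W) (u : W)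
    (h : ∀ P : Polynomial k, P ≠ 0 → P.eval₂ φ u ≠ 0) :
    ∃ f : RatFunc k →+* W, (∀ c, f (RatFunc.C c) = φ c) ∧ f RatFunc.X = u := by
  have hφ : nonZeroDivisors (Polynomial k) ≤
      (nonZeroDivisors W).comap (Polynomial.eval₂RingHom φ u) := by
    intro P hP
    exact mem_nonZeroDivisors_of_ne_zero (h P (nonZeroDivisors.ne_zero hP))
  refine ⟨RatFunc.liftRingHom _ hφ, fun c => ?_, ?_⟩
  · have := RatFunc.liftRingHom_apply_div _ hφ (Polynomial.C c) 1
    simpa using this
  · have := RatFunc.liftRingHom_apply_div _ hφ Polynomial.X 1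
    simpa using this

variable {G : Type} [Group G]

/-- Monodromy relative to a ring W with an endomorphism s. -/
def Cover.RMono (c : Cover k G) {W : Type} [CommRing W] (φ : k →+* W) (u : W) (s : W →+* W)
    (g : G) : Prop :=
  ∃ j : c.L →+* W, (∀ x : k, j (algebraMap (RatFunc k) c.L (RatFunc.C x)) = φ x) ∧
    j (algebraMap (RatFunc k) c.L RatFunc.X) = u ∧
    ∃ σ : c.L ≃ₐ[RatFunc k] c.L, c.ι σ = g ∧ ∀ x, j (σ x) = s (j x)

theorem Cover.Mono.rmono {c : Cover k G} {a : OnePoint k} {e : ℕ} {ζ : k} {g : G}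
    (h : c.Mono a e ζ g) : c.RMono HahnSeries.C (expand a e) (scL ζ (h.2.1.ne_zero h.1.ne')) g := by
  obtain ⟨he, hζ, j, h1, h2, σ, h3, h4⟩ := h
  exact ⟨j, h1, h2, σ, h3, fun x => by ext n; exact h4 x n⟩

theorem Cover.RMono.mono {c : Cover k G} {a : OnePoint k} {e : ℕ} {ζ : k} {g : G} (he : 0 < e)
    (hζ : IsPrimitiveRoot ζ e)
    (h : c.RMono HahnSeries.C (expand a e) (scL ζ (hζ.ne_zero he.ne')) g) : c.Mono a e ζ g := by
  obtain ⟨j, h1, h2, σ, h3, h4⟩ := h
  exact ⟨he, hζ, j, h1, h2, σ, h3, fun x n => by rw [h4, scL_coeff]⟩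

theorem Cover.RMono.comp {c : Cover k G} {W W' : Type} [CommRing W] [CommRing W'] {φ : k →+* W}
    {u : W} {s : W →+* W} {g : G} (h : c.RMono φ u s g) (Ψ : W →+* W') (s' : W' →+* W')
    (hs : ∀ x, Ψ (s x) = s' (Ψ x)) : c.RMono (Ψ.comp φ) (Ψ u) s' g := by
  obtain ⟨j, h1, h2, σ, h3, h4⟩ := h
  exact ⟨Ψ.comp j, fun x => by simp [h1], by simp [h2], σ, h3, fun x => by simp [h4, hs]⟩

theorem Cover.Mono.mem_range {c : Cover k G} {a : OnePoint k} {e : ℕ} {ζ : k} {g : G}
    (h : c.Mono a e ζ g) : g ∈ c.ι.range := by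
  obtain ⟨-, -, -, -, -, σ, h3, -⟩ := h
  exact ⟨σ, h3⟩

theorem Cover.Mono.pow_eq_one {c : Cover k G} {a : OnePoint k} {e : ℕ} {ζ : k} {g : G}
    (h : c.Mono a e ζ g) : g ^ e = 1 := by
  obtain ⟨he, hζ, j, h1, h2, σ, h3, h4⟩ := h
  have h5 : ∀ (i : ℕ) (x : c.L) (n : ℤ), (j ((σ ^ i) x)).coeff n = (ζ ^ i) ^ n * (j x).coeff n := by
    intro i
    induction i with
    | zero => intro x n; simp
    | succ i ih =>
      intro x n
      rw [pow_succ', AlgEquiv.mul_apply, h4, ih, pow_succ', mul_zpow, mul_assoc]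
  have h6 : σ ^ e = 1 := by
    ext x
    apply j.injective
    ext n
    rw [h5, hζ.pow_eq_one]
    simp
  rw [← h3, ← map_pow, h6, map_one]

/-- Push a covering forward along a group homomorphism. -/
def Cover.map {H : Type} [Group H] (c : Cover k G) (f : G →* H) : Cover k H :=
  { c with ι := f.comp c.ι }

theorem Cover.map_range {H : Type} [Group H] (c : Cover k G) (f : G →* H) :
    (c.map f).ι.range = c.ι.range.map f := MonoidHom.range_comp f c.ι

theorem Cover.Mono.map {H : Type} [Group H] {c : Cover k G} {a : OnePoint k} {e : ℕ} {ζ : k}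
    {g : G} (h : c.Mono a e ζ g) (f : G →* H) : (c.map f).Mono a e ζ (f g) := by
  obtain ⟨he, hζ, j, h1, h2, σ, h3, h4⟩ := h
  exact ⟨he, hζ, j, h1, h2, σ, by rw [← h3]; rfl, h4⟩

/-- Restrict the group of a covering to a subgroup containing the image. -/
def Cover.restr (c : Cover k G) (H : Subgroup G) (h : c.ι.range ≤ H) : Cover k H :=
  { c with ι := c.ι.codRestrict H (fun σ => h ⟨σ, rfl⟩) }

theorem Cover.restr_range (c : Cover k G) (H : Subgroup G) (h : c.ι.range ≤ H) :
    (c.restr H h).ι.range = c.ι.range.subgroupOf H := by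
  ext x
  constructor
  · rintro ⟨σ, rfl⟩; exact ⟨σ, rfl⟩
  · rintro ⟨σ, hσ⟩; exact ⟨σ, Subtype.ext hσ⟩

theorem Cover.Mono.restr {c : Cover k G} {a : OnePoint k} {e : ℕ} {ζ : k} {g : G}
    (hm : c.Mono a e ζ g) (H : Subgroup G) (h : c.ι.range ≤ H) :
    (c.restr H h).Mono a e ζ ⟨g, h hm.mem_range⟩ := by
  obtain ⟨he, hζ, j, h1, h2, σ, h3, h4⟩ := hm
  exact ⟨he, hζ, j, h1, h2, σ, Subtype.ext h3, h4⟩

/-- Tame everywhere, unramified outside S. -/
def Cover.Tame (c : Cover k G) (S : Set (OnePoint k)) : Prop :=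
  ∀ a, ∃ e ζ g, c.Mono a e ζ g ∧ (a ∉ S → g = 1)

/-- The point at infinity of c is glued to the point zero of c'. -/
def Glue (c c' : Cover k G) : Prop :=
  ∃ e ζ g, c.Mono ∞ e ζ g ∧ c'.Mono ((0 : k) : OnePoint k) e ζ⁻¹ g

/-- Local monodromy data. -/
abbrev Dat (k G : Type) : Type := ℕ × k × G

/-- Monodromy with packaged data. -/
def Cover.MD (c : Cover k G) (a : OnePoint k) (d : Dat k G) : Prop := c.Mono a d.1 d.2.1 d.2.2

/-- Extension of scalars on monodromy data. -/
def Dat.map (φ : k →+* k') (d : Dat k G) : Dat k' G := (d.1, φ d.2.1, d.2.2)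

end

end Pool.Agent.Adm

end

section

/-! The affine group of a finite field and labels of characters. -/

namespace Pool.Agent.Adm

/-- Affine maps x ↦ u x + b, composed from left to right. -/
@[ext] structure Aff (F : Type) [Field F] where
  u : Fˣ
  b : F

namespace Aff

variable {F : Type} [Field F]

instance : Mul (Aff F) := ⟨fun g h => ⟨g.u * h.u, h.u * g.b + h.b⟩⟩
instance : One (Aff F) := ⟨⟨1, 0⟩⟩
instance : Inv (Aff F) := ⟨fun g => ⟨g.u⁻¹, -((g.u⁻¹ : Fˣ) * g.b)⟩⟩

@[simp] theorem mul_u (g h : Aff F) : (g * h).u = g.u * h.u := rfl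
@[simp] theorem mul_b (g h : Aff F) : (g * h).b = h.u * g.b + h.b := rfl
@[simp] theorem one_u : (1 : Aff F).u = 1 := rfl
@[simp] theorem one_b : (1 : Aff F).b = 0 := rfl
@[simp] theorem inv_u (g : Aff F) : g⁻¹.u = g.u⁻¹ := rfl
@[simp] theorem inv_b (g : Aff F) : g⁻¹.b = -((g.u⁻¹ : Fˣ) * g.b) := rfl

instance : Group (Aff F) :=
  Group.ofLeftAxioms
    (fun a b c => Aff.ext (mul_assoc _ _ _) (by simp; ring))
    (fun a => Aff.ext (one_mul _) (by simp))
    (fun a => Aff.ext (inv_mul_cancel _) (by simp))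

instance [Finite F] : Finite (Aff F) :=
  Finite.of_injective (fun g : Aff F => (g.u, g.b)) fun g h e => by
    simp only [Prod.mk.injEq] at e
    exact Aff.ext e.1 e.2

/-- The linear part. -/
def lin : Aff F →* Fˣ where
  toFun g := g.u
  map_one' := rfl
  map_mul' _ _ := rfl

@[simp] theorem lin_apply (g : Aff F) : lin g = g.u := rfl

/-- The homotheties. -/
def inl : Fˣ →* Aff F where
  toFun u := ⟨u, 0⟩
  map_one' := rfl
  map_mul' a b := Aff.ext rfl (by simp)

@[simp] theorem inl_u (u : Fˣ) : (inl u : Aff F).u = u := rfl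
@[simp] theorem inl_b (u : Fˣ) : (inl u : Aff F).b = 0 := rfl

/-- g fixes the point β. -/
def Fixes (g : Aff F) (β : F) : Prop := g.u * β + g.b = β

/-- All elements of the subgroup fix a common point. -/
def HasFix (H : Subgroup (Aff F)) : Prop := ∃ β, ∀ g ∈ H, g.Fixes β

end Aff

/-- The root of unity c, value of a character of order dividing m on an inertia generator with
data (e, ζ), has label n modulo m. -/
def Lab {k : Type} [Field k] (m e : ℕ) (ζ c : k) (n : ℤ) : Prop :=
  ∃ r t : ℤ, m * r = e * (n + m * t) ∧ c = ζ ^ r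

/-- Label of a character on packaged monodromy data. -/
def LabD {F k G : Type} [Field F] [Field k] [Group G] (m : ℕ) (θ : F →+* k) (χ : G →* Fˣ)
    (d : Dat k G) (n : ℤ) : Prop :=
  Lab m d.1 d.2.1 (θ (χ d.2.2)) n

end Pool.Agent.Adm

end

section

/-! Coverings of trees of projective lines with monodromy data at the marked points. -/

namespace Pool.Agent.AdmG

open Pool.Agent.Adm (Cover Dat Aff LabD expand)
open scoped OnePoint

/-- A property of a group G, monodromy data indexed by ι and a subgroup of G. -/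
abbrev AP (k ι : Type) [Field k] : Type 1 :=
  ∀ (G : Type) [Group G], (ι → Dat k G) → Subgroup G → Prop

section

variable {k k' ι ι' : Type} [Field k] [Field k']

/-- The datum seen from the other branch of a node. -/
def dinv {G : Type} (x : Dat k G) : Dat k G := (x.1, x.2.1⁻¹, x.2.2)

/-- Push a datum along a map of groups. -/
def dpush {G G' : Type} (f : G → G') (x : Dat k G) : Dat k G' := (x.1, x.2.1, f x.2.2)

/-- One projective line with the marked points a. -/
def vtx (a : ι → OnePoint k) : AP k ι := fun G _ d H =>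
  ∃ c : Cover k G, c.Tame (Set.range a) ∧ (∀ i, c.MD (a i) (d i)) ∧ c.ι.range = H

/-- Two curves glued at the marked points `none`. -/
def glue (P : AP k (Option ι)) (Q : AP k (Option ι')) : AP k (ι ⊕ ι') := fun G _ d H =>
  ∃ (x : Dat k G) (H1 H2 : Subgroup G), P G (fun o => o.elim x fun i => d (.inl i)) H1 ∧
    Q G (fun o => o.elim (dinv x) fun i => d (.inr i)) H2 ∧ H = H1 ⊔ H2

/-- Renumbering of the marked points. -/
def reidx (e : ι ≃ ι') (P : AP k ι) : AP k ι' := fun G _ d H => P G (fun i => d (e i)) H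

/-- Coverings of type P lift to coverings of type P' with the same data. -/
def Lifts (φ : k →+* k') (P : AP k ι) (P' : AP k' ι) : Prop :=
  ∀ (G : Type) [Group G] [Finite G] (d : ι → Dat k G) (H : Subgroup G), P G d H →
    P' G (fun i => (d i).map φ) H

/-- ξ is a system of roots of the roots of unity of d. -/
def Roots (φ : k →+* k') (m : ℕ) {G : Type} (d : ι → Dat k G) (ξ : ι → k') : Prop :=
  ∀ i, IsPrimitiveRoot (ξ i) ((d i).1 * m) ∧ ξ i ^ m = φ (d i).2.1

/-- The data of a covering with group G × Aff F lying over d. -/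
def ovr {G A : Type} (m : ℕ) (d : ι → Dat k G) (ξ : ι → k') (y : ι → A) : ι → Dat k' (G × A) :=
  fun i => ((d i).1 * m, ξ i, ((d i).2.2, y i))

/-- Coverings of type P are dominated by coverings of type P' with an affine quotient of labels n;
if b holds, the dominating covering is strictly bigger. -/
def Dom {F : Type} [Field F] [Fintype F] (b : Prop) (φ : k →+* k') (θ : F →+* k') (P : AP k ι)
    (P' : AP k' ι) (n : ι → ℤ) : Prop :=
  ∀ (G : Type) [Group G] [Finite G] (d : ι → Dat k G) (H : Subgroup G), P G d H →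
    ∀ ξ : ι → k', Roots φ (Fintype.card F - 1) d ξ →
      ∃ (y : ι → Aff F) (H' : Subgroup (G × Aff F)),
        P' (G × Aff F) (ovr (Fintype.card F - 1) d ξ y) H' ∧
        H'.map (MonoidHom.fst G (Aff F)) = H ∧
        (∀ i, θ (y i).u = (ξ i ^ (d i).1) ^ n i) ∧
        (b → ∃ a : Aff F, a ≠ 1 ∧ ((1 : G), a) ∈ H')

/-- Every affine quotient with labels n has a fixed point. -/
def AllFix {F : Type} [Field F] [Fintype F] (θ : F →+* k) (P : AP k ι) (n : ι → ℤ) : Prop :=
  ∀ (G : Type) [Group G] (d : ι → Dat k G) (H : Subgroup G) (ψ : G →* Aff F), P G d H →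
    (∀ i, LabD (Fintype.card F - 1) θ (Aff.lin.comp ψ) (d i) (n i)) → Aff.HasFix (H.map ψ)

end

/-- Properties describing trees of projective lines. -/
inductive Tr (k : Type) [Field k] : (ι : Type) → AP k ι → Prop
  | vtx {ι : Type} [Finite ι] (a : ι → OnePoint k) (ha : Function.Injective a)
      (h3 : 2 < Nat.card ι) : Tr k ι (vtx a)
  | glue {ι ι' : Type} {P : AP k (Option ι)} {Q : AP k (Option ι')} (hP : Tr k _ P)
      (hQ : Tr k _ Q) : Tr k _ (glue P Q)
  | reidx {ι ι' : Type} (e : ι ≃ ι') {P : AP k ι} (hP : Tr k _ P) : Tr k _ (reidx e P)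

/-- Formal properties of trees. -/
structure Nice {k ι : Type} [Field k] (P : AP k ι) : Prop where
  valid : ∀ (G : Type) [Group G] (d : ι → Dat k G) (H : Subgroup G), P G d H → ∀ i,
    0 < (d i).1 ∧ IsPrimitiveRoot (d i).2.1 (d i).1 ∧ (d i).2.2 ^ (d i).1 = 1 ∧ (d i).2.2 ∈ H
  map : ∀ (G G' : Type) [Group G] [Group G'] (f : G →* G') (d : ι → Dat k G) (H : Subgroup G),
    P G d H → P G' (fun i => dpush f (d i)) (H.map f)
  restr : ∀ (G : Type) [Group G] (d : ι → Dat k G) (H M : Subgroup G), P G d H → H ≤ M →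
    ∃ d' : ι → Dat k M, P M d' (H.subgroupOf M) ∧ ∀ i, dpush M.subtype (d' i) = d i
  triv : ∀ (G : Type) [Group G], P G (fun _ => (1, 1, 1)) ⊥

/-- Coverings of the curve obtained by gluing the marked points inl (inl j) and inl (inr j). -/
def Cl {k J I : Type} [Field k] (P : AP k ((J ⊕ J) ⊕ I)) (G : Type) [Group G] : Prop :=
  ∃ (d : (J ⊕ J) ⊕ I → Dat k G) (H : Subgroup G) (t : J → G), P G d H ∧
    (∀ j, d (.inl (.inr j)) = dinv (dpush (fun x => (t j)⁻¹ * x * t j) (d (.inl (.inl j))))) ∧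
    H ⊔ Subgroup.closure (Set.range t) = ⊤

/-- A tree of projective lines over an algebraically closed field of characteristic p. -/
structure Nd (p : ℕ) (ι : Type) : Type 1 where
  k : Type
  [field : Field k]
  [closed : IsAlgClosed k]
  [char : CharP k p]
  P : AP k ι
  tr : Tr k ι P

attribute [instance] Nd.field Nd.closed Nd.char

/-- A strict generisation, detected by labels satisfying R. -/
def Step {k k' ι : Type} [Field k] [Field k'] (R : (ι → ℤ) → Prop) (φ : k →+* k') (P : AP k ι)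
    (P' : AP k' ι) : Prop :=
  Lifts φ P P' ∧ ∃ (F : Type) (_ : Field F) (_ : Fintype F) (θ : F →+* k') (n : ι → ℤ),
    R n ∧ Dom True φ θ P P' n

/-- A sequence of generisations, r of them strict. -/
inductive Path {p : ℕ} {ι : Type} (R : (ι → ℤ) → Prop) (N : Nd p ι) :
    (N' : Nd p ι) → (N.k →+* N'.k) → ℕ → Prop
  | refl : Path R N N (RingHom.id _) 0
  | lift {N' N'' : Nd p ι} {φ : N.k →+* N'.k} {r : ℕ} (h : Path R N N' φ r) (ψ : N'.k →+* N''.k)
      (hl : Lifts ψ N'.P N''.P) : Path R N N'' (ψ.comp φ) r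
  | step {N' N'' : Nd p ι} {φ : N.k →+* N'.k} {r : ℕ} (h : Path R N N' φ r) (ψ : N'.k →+* N''.k)
      (hs : Step R ψ N'.P N''.P) : Path R N N'' (ψ.comp φ) (r + 1)

/-- Labels with sum zero. -/
def R0 {ι : Type} [Fintype ι] (n : ι → ℤ) : Prop := ∑ i, n i = 0

/-- Labels that are opposite on glued pairs. -/
def RP {J I : Type} (n : (J ⊕ J) ⊕ I → ℤ) : Prop :=
  ∀ j, n (.inl (.inr j)) = -n (.inl (.inl j))

/-- An operation on trees over extensions of k0 that preserves generisations. -/
structure Ctx (k0 ι ι' : Type) [Field k0] (R : (ι → ℤ) → Prop) (R' : (ι' → ℤ) → Prop) :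
    Type 1 where
  Φ : ∀ (K : Type) [Field K], (k0 →+* K) → AP K ι → AP K ι'
  tr : ∀ (K : Type) [Field K] (ψ : k0 →+* K) (P : AP K ι), Tr K ι P → Tr K ι' (Φ K ψ P)
  lifts : ∀ (K K' : Type) [Field K] [IsAlgClosed K] [Field K'] [IsAlgClosed K'] (ψ : k0 →+* K)
    (χ : K →+* K') (P : AP K ι) (P' : AP K' ι), Lifts χ P P' →
      Lifts χ (Φ K ψ P) (Φ K' (χ.comp ψ) P')
  step : ∀ (K K' : Type) [Field K] [IsAlgClosed K] [Field K'] [IsAlgClosed K'] (ψ : k0 →+* K)
    (χ : K →+* K') (P : AP K ι) (P' : AP K' ι), Tr K ι P → Tr K' ι P' → Step R χ P P' →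
      Step R' χ (Φ K ψ P) (Φ K' (χ.comp ψ) P')

/-- A node in a context. -/
@[reducible] def Nd.ctx {p : ℕ} {k0 ι ι' : Type} [Field k0] {R : (ι → ℤ) → Prop}
    {R' : (ι' → ℤ) → Prop} (N : Nd p ι) (C : Ctx k0 ι ι' R R') (ψ : k0 →+* N.k) : Nd p ι' :=
  { k := N.k, P := C.Φ N.k ψ N.P, tr := C.tr _ _ _ N.tr }

/-- A family of trees over all extensions of k0, compatible with base change. -/
structure Fam (k0 ι : Type) [Field k0] : Type 1 where
  Q : ∀ (K : Type) [Field K], (k0 →+* K) → AP K ι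
  tr : ∀ (K : Type) [Field K] (ψ : k0 →+* K), Tr K ι (Q K ψ)
  lifts : ∀ (K K' : Type) [Field K] [IsAlgClosed K] [Field K'] [IsAlgClosed K'] (ψ : k0 →+* K)
    (χ : K →+* K'), Lifts χ (Q K ψ) (Q K' (χ.comp ψ))

/-- Three more indices, for the points infinity, 0 and 1. -/
abbrev W (κ : Type) : Type := Option (Option (Option κ))

/-- The points infinity, 0, 1, s. -/
def gen {k κ : Type} [Field k] (s : κ → k) : W κ → OnePoint k := fun o =>
  o.elim ∞ fun o => ((o.elim 0 fun o => o.elim 1 s : k) : OnePoint k)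

/-- The finite points 0, 1, s. -/
def fin {k κ : Type} [Field k] (s : κ → k) : Option (Option κ) → k := fun o =>
  o.elim 0 fun o => o.elim 1 s

theorem gen_none {k κ : Type} [Field k] (s : κ → k) : gen s none = ∞ := rfl

theorem gen_some {k κ : Type} [Field k] (s : κ → k) (o : Option (Option κ)) :
    gen s (some o) = ((fin s o : k) : OnePoint k) := rfl

/-- Algebraic independence over the image of φ. -/
def Ind {k K κ : Type} [Field k] [Field K] (φ : k →+* K) (s : κ → K) : Prop :=
  @AlgebraicIndependent κ k K s _ _ φ.toAlgebra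

/-- There is a tree defined over every field from which r strict generisations lead to the generic
smooth curve with marked points W κ. -/
def Ch (p : ℕ) (κ : Type) [Fintype κ] (r : ℕ) : Prop :=
  ∃ S : ∀ (k : Type) [Field k], AP k (W κ), (∀ (k : Type) [Field k], Tr k _ (S k)) ∧
    (∀ (k k' : Type) [Field k] [IsAlgClosed k] [Field k'] [IsAlgClosed k'] (φ : k →+* k'),
      Lifts φ (S k) (S k')) ∧
    ∀ N : Nd p (W κ), N.P = S N.k → ∃ (N' : Nd p (W κ)) (φ : N.k →+* N'.k) (s : κ → N'.k),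
      Ind φ s ∧ N'.P = vtx (gen s) ∧ Path R0 N N' φ r

/-- Exchange of the first two extra indices. -/
def sw (α : Type) : Option (Option α) ≃ Option (Option α) where
  toFun o := o.elim (some none) fun o => o.elim none fun a => some (some a)
  invFun o := o.elim (some none) fun o => o.elim none fun a => some (some a)
  left_inv := by rintro (_ | _ | a) <;> rfl
  right_inv := by rintro (_ | _ | a) <;> rfl

/-- The line with the points infinity, 0, 1. -/
def tri (k : Type) [Field k] : AP k (W Empty) := vtx (gen Empty.elim)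

/-- A with its point infinity glued to the point 0 of a line with the points infinity, 0, 1. -/
def two {k κ : Type} [Field k] (A : AP k (W κ)) : AP k (W (Option κ)) := fun G _ d H =>
  ∃ (x : Dat k G) (H1 H2 : Subgroup G),
    A G (fun o => o.elim x fun o => o.elim (d (some none)) fun o => d (some (some (some o)))) H1 ∧
    tri k G (fun o => o.elim (d none) fun o => o.elim (dinv x) fun _ => d (some (some none))) H2 ∧
    H = H1 ⊔ H2

/-- The chain A, line with three points, B: infinity of A is glued to 0 of the line, infinity of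
the line to 0 of B. -/
def three {k κ : Type} [Field k] (A B : AP k (W κ)) : AP k (W (Option κ ⊕ Option κ)) :=
  fun G _ d H => ∃ (x y : Dat k G) (H1 H2 H3 : Subgroup G),
    A G (fun o => o.elim x fun o => o.elim (d (some none))
      fun o => d (some (some (some (.inl o))))) H1 ∧
    tri k G (fun o => o.elim y fun o => o.elim (dinv x) fun _ => d (some (some none))) H2 ∧
    B G (fun o => o.elim (d none) fun o => o.elim (dinv y)
      fun o => d (some (some (some (.inr o))))) H3 ∧
    H = H1 ⊔ H2 ⊔ H3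

/-- A tree of projective lines as a geometric object. -/
structure RC (k ι : Type) [Field k] : Type 1 where
  V : Type
  [finV : Fintype V]
  ne : Nonempty V
  E : Type
  [finE : Fintype E]
  pt : (E ⊕ E) ⊕ ι → V × OnePoint k
  inj : Function.Injective pt
  conn : ∀ v w, Relation.EqvGen
    (fun a b => ∃ ε, (pt (.inl (.inl ε))).1 = a ∧ (pt (.inl (.inr ε))).1 = b) v w
  card : Fintype.card E + 1 = Fintype.card V
  stable : ∀ v, 2 < Nat.card {h // (pt h).1 = v}
  gauge : ∀ (G : Type) [Group G] (t : E → G), ∃ u : V → G,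
    ∀ ε, t ε = (u (pt (.inl (.inl ε))).1)⁻¹ * u (pt (.inl (.inr ε))).1

attribute [instance] RC.finV RC.finE

/-- Coverings of a tree. -/
def RC.Adm {k ι : Type} [Field k] (X : RC k ι) : AP k ι := fun G _ d H =>
  ∃ c : X.V → Cover k G, (∀ v, (c v).Tame {a | (v, a) ∈ Set.range X.pt}) ∧
    (∀ ε, ∃ x : Dat k G, (c (X.pt (.inl (.inl ε))).1).MD (X.pt (.inl (.inl ε))).2 x ∧
      (c (X.pt (.inl (.inr ε))).1).MD (X.pt (.inl (.inr ε))).2 (dinv x)) ∧
    (∀ i, (c (X.pt (.inr i)).1).MD (X.pt (.inr i)).2 (d i)) ∧ ⨆ v, (c v).ι.range = H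

/-- First branches of the nodes after gluing pairs of marked points. -/
def RC.src {k J I : Type} [Field k] (X : RC k ((J ⊕ J) ⊕ I)) : X.E ⊕ J → X.V × OnePoint k :=
  Sum.elim (fun ε => X.pt (.inl (.inl ε))) fun j => X.pt (.inr (.inl (.inl j)))

/-- Second branches of the nodes after gluing pairs of marked points. -/
def RC.tgt {k J I : Type} [Field k] (X : RC k ((J ⊕ J) ⊕ I)) : X.E ⊕ J → X.V × OnePoint k :=
  Sum.elim (fun ε => X.pt (.inl (.inr ε))) fun j => X.pt (.inr (.inl (.inr j)))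

/-- Connected coverings of the curve obtained by gluing pairs of marked points. -/
def RC.Cv {k J I : Type} [Field k] (X : RC k ((J ⊕ J) ⊕ I)) (G : Type) [Group G] : Prop :=
  ∃ (c : X.V → Cover k G) (t : X.E ⊕ J → G), (∀ v, (c v).Tame {a | (v, a) ∈ Set.range X.pt}) ∧
    (∀ ε, ∃ e ζ x, (c (X.src ε).1).Mono (X.src ε).2 e ζ x ∧
      (c (X.tgt ε).1).Mono (X.tgt ε).2 e ζ⁻¹ ((t ε)⁻¹ * x * t ε)) ∧
    ∀ a b : X.V × G, Relation.EqvGen
      (fun a b => (a.1 = b.1 ∧ a.2⁻¹ * b.2 ∈ (c a.1).ι.range) ∨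
        ∃ ε, a.1 = (X.src ε).1 ∧ b = ((X.tgt ε).1, a.2 * t ε)) a b

/-- A place above a, with a generator of its inertia group. -/
structure Chart {k G : Type} [Field k] [Group G] (c : Cover k G) (a : OnePoint k) : Type where
  e : ℕ
  ζ : k
  he : 0 < e
  hζ : IsPrimitiveRoot ζ e
  j : c.L →+* LaurentSeries k
  hC : ∀ x : k, j (algebraMap (RatFunc k) c.L (RatFunc.C x)) = HahnSeries.C x
  hX : j (algebraMap (RatFunc k) c.L RatFunc.X) = expand a e
  σ : c.L ≃ₐ[RatFunc k] c.L
  hσ : ∀ x, j (σ x) = Pool.Agent.Adm.scL ζ (hζ.ne_zero he.ne') (j x)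

/-- π a is the place of k(X) at the point a. -/
def IsPlc {k : Type} [Field k] (π : OnePoint k → Place k (RatFunc k)) : Prop :=
  ∀ (a : OnePoint k) (j : RatFunc k →+* LaurentSeries k),
    (∀ c, j (RatFunc.C c) = HahnSeries.C c) → j RatFunc.X = expand a 1 →
      ∀ f, f ≠ 0 → (π a).1 f = WithZero.exp (-(j f).order)

/-- A covering of the line in the two descriptions. -/
def toCov {k G : Type} [Field k] [Group G] (c : Cover k G) : Cov (RatFunc k) G :=
  { L := c.L, ι := c.ι }

/-- A covering of the line in the two descriptions. -/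
def ofCov {k G : Type} [Field k] [Group G] (c : Cov (RatFunc k) G) : Cover k G :=
  { L := c.L, ι := c.ι }

/-- The finite quotients of Y are finite quotients of X. -/
def QLe {p g n : ℕ} (Y X : StableCurve p g n) : Prop :=
  ∀ (G : Type) [Group G] [Finite G], Y.HasCover G → X.HasCover G

end Pool.Agent.AdmG

end

section

/-! Lemmas on labels and on the affine group. -/

namespace Pool.Agent.Adm

variable {k : Type} [Field k]

theorem Lab.unique {m e : ℕ} {ζ c : k} {n n' : ℤ} (he : 0 < e) (hζ : IsPrimitiveRoot ζ e)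
    (h : Lab m e ζ c n) (h' : Lab m e ζ c n') : n ≡ n' [ZMOD m] := by
  obtain ⟨r, t, h1, h2⟩ := h
  obtain ⟨r', t', h1', h2'⟩ := h'
  have hz : ζ ≠ 0 := hζ.ne_zero he.ne'
  have h3 : ζ ^ (r' - r) = 1 := by
    rw [zpow_sub₀ hz, ← h2, ← h2', div_self]
    rw [h2]
    exact zpow_ne_zero _ hz
  obtain ⟨s, hs⟩ := (hζ.zpow_eq_one_iff_dvd _).1 h3
  have he' : (e : ℤ) ≠ 0 := by exact_mod_cast he.ne'
  rw [Int.modEq_iff_dvd]
  refine ⟨s - t' + t, mul_left_cancel₀ he' ?_⟩
  linear_combination h1 - h1' + (m : ℤ) * hs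

theorem Lab.congr {m e : ℕ} {ζ c : k} {n n' : ℤ} (h : Lab m e ζ c n) (hn : n ≡ n' [ZMOD m]) :
    Lab m e ζ c n' := by
  obtain ⟨r, t, h1, h2⟩ := h
  obtain ⟨s, hs⟩ := Int.modEq_iff_dvd.1 hn
  exact ⟨r, t - s, by linear_combination h1 - (e : ℤ) * hs, h2⟩

theorem Lab.inv {m e : ℕ} {ζ c : k} {n : ℤ} (h : Lab m e ζ c n) : Lab m e ζ⁻¹ c (-n) := by
  obtain ⟨r, t, h1, h2⟩ := h
  exact ⟨-r, -t, by linear_combination -h1, by rw [h2, inv_zpow', neg_neg]⟩

theorem Lab.of_inv {m e : ℕ} {ζ c : k} {n : ℤ} (h : Lab m e ζ⁻¹ c n) : Lab m e ζ c (-n) := by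
  have := h.inv
  rwa [inv_inv] at this

theorem lab_one (m e : ℕ) (ζ : k) : Lab m e ζ 1 0 := ⟨0, 0, by simp, by simp⟩

theorem Lab.eq_one {m e : ℕ} {ζ c : k} {n : ℤ} (hm : 0 < m) (hζ : ζ ^ e = 1)
    (h : Lab m e ζ c n) (hn : n ≡ 0 [ZMOD m]) : c = 1 := by
  obtain ⟨r, t, h1, h2⟩ := h
  obtain ⟨s, hs⟩ := Int.modEq_iff_dvd.1 hn
  have hm' : (m : ℤ) ≠ 0 := by exact_mod_cast hm.ne'
  have h3 : r = e * (t - s) := mul_left_cancel₀ hm' (by linear_combination h1 - (e : ℤ) * hs)
  rw [h2, h3, zpow_mul, zpow_natCast, hζ, one_zpow]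

theorem exists_lab {m e : ℕ} {ζ c : k} (hm : 0 < m) (he : 0 < e) (hζ : IsPrimitiveRoot ζ e)
    (h1 : c ^ e = 1) (h2 : c ^ m = 1) : ∃ n : ℕ, n < m ∧ Lab m e ζ c n := by
  have : NeZero e := ⟨he.ne'⟩
  obtain ⟨i, -, rfl⟩ := hζ.eq_pow_of_pow_eq_one h1
  rw [← pow_mul] at h2
  obtain ⟨N, hN⟩ := hζ.dvd_of_pow_eq_one _ h2
  refine ⟨N % m, Nat.mod_lt _ hm, i, (N / m : ℕ), ?_, by rw [zpow_natCast]⟩
  have h3 : N % m + m * (N / m) = N := Nat.mod_add_div N m
  have h4 : m * i = e * (N % m + m * (N / m)) := by rw [h3, mul_comm, hN]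
  exact_mod_cast h4

theorem lab_map_iff {k' : Type} [Field k'] (φ : k →+* k') {m e : ℕ} {ζ c : k} {n : ℤ} :
    Lab m e (φ ζ) (φ c) n ↔ Lab m e ζ c n := by
  constructor
  · rintro ⟨r, t, h1, h2⟩
    exact ⟨r, t, h1, φ.injective (by rw [h2, map_zpow₀])⟩
  · rintro ⟨r, t, h1, h2⟩
    exact ⟨r, t, h1, by rw [h2, map_zpow₀]⟩

theorem lab_of_root {m e : ℕ} {ξ c : k} {n : ℤ} (hm : 0 < m) (he : 0 < e)
    (hξ : IsPrimitiveRoot ξ (e * m)) (h1 : c ^ e = 1) (h2 : c = (ξ ^ e) ^ n) :
    Lab m e (ξ ^ m) c n := by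
  have h3 : ξ ^ ((e : ℤ) * n * e) = 1 := by
    rw [zpow_mul, zpow_mul, zpow_natCast, zpow_natCast, ← h2, h1]
  obtain ⟨r, hr⟩ := (hξ.zpow_eq_one_iff_dvd _).1 h3
  have he' : (e : ℤ) ≠ 0 := by exact_mod_cast he.ne'
  have h4 : (e : ℤ) * n = m * r := mul_left_cancel₀ he' (by
    push_cast at hr
    linear_combination hr)
  refine ⟨r, 0, by linear_combination -h4, ?_⟩
  rw [h2, ← zpow_natCast, ← zpow_mul, h4, zpow_mul, zpow_natCast]

theorem exists_root_lift [IsAlgClosed k] {m e : ℕ} {ζ : k} (hm : (m : k) ≠ 0) (he : 0 < e)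
    (hζ : IsPrimitiveRoot ζ e) : ∃ ξ : k, IsPrimitiveRoot ξ (e * m) ∧ ξ ^ m = ζ := by
  have : NeZero e := ⟨he.ne'⟩
  have hm0 : m ≠ 0 := by rintro rfl; simp at hm
  have hek : (e : k) ≠ 0 := (hζ.neZero' (n := e)).ne
  have : NeZero ((e * m : ℕ) : k) := ⟨by push_cast; exact mul_ne_zero hek hm⟩
  have : NeZero (e * m) := ⟨mul_ne_zero he.ne' hm0⟩
  obtain ⟨ξ0, h0⟩ := HasEnoughRootsOfUnity.exists_primitiveRoot k (e * m)
  have h1 : IsPrimitiveRoot (ξ0 ^ m) e :=
    h0.pow (Nat.pos_of_ne_zero (mul_ne_zero he.ne' hm0)) (mul_comm _ _)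
  obtain ⟨i, -, hi, rfl⟩ := (h1.isPrimitiveRoot_iff).1 hζ
  obtain ⟨u, hu⟩ := ZMod.unitsMap_surjective (dvd_mul_right e m) (ZMod.unitOfCoprime i hi)
  have hc : Nat.Coprime (u : ZMod (e * m)).val (e * m) := ZMod.val_coe_unit_coprime u
  refine ⟨ξ0 ^ (u : ZMod (e * m)).val, h0.pow_of_coprime _ hc, ?_⟩
  have h2 : (((u : ZMod (e * m)).val : ℕ) : ZMod e) = (i : ZMod e) := by
    have := congrArg (fun x : (ZMod e)ˣ => (x : ZMod e)) hu
    simp only [ZMod.unitsMap_val, ZMod.coe_unitOfCoprime] at this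
    rw [← this, ZMod.natCast_val]
  rw [ZMod.natCast_eq_natCast_iff'] at h2
  rw [← pow_mul, mul_comm, pow_mul, ← pow_mod_orderOf, ← h1.eq_orderOf, h2]
  conv_rhs => rw [← pow_mod_orderOf, ← h1.eq_orderOf]

end Pool.Agent.Adm

end

section

/-! Lemmas on the affine group and on finite fields. -/

namespace Pool.Agent.Adm

namespace Aff

variable {F : Type} [Field F]

theorem pow_of_u_AffL {g : Aff F} (hu : g.u = 1) (n : ℕ) :
    (g ^ n).u = 1 ∧ (g ^ n).b = n * g.b := by
  induction n with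
  | zero => simp
  | succ n ih =>
    rw [pow_succ]
    refine ⟨by simp [ih.1, hu], ?_⟩
    rw [mul_b, ih.2, hu]
    push_cast
    ring

theorem eq_one_of_pow {g : Aff F} {e : ℕ} (he : (e : F) ≠ 0) (h : g ^ e = 1) (hu : g.u = 1) :
    g = 1 := by
  have h1 := (pow_of_u_AffL hu e).2
  rw [h, one_b] at h1
  refine Aff.ext hu ?_
  rcases mul_eq_zero.1 h1.symm with h2 | h2
  · exact absurd h2 he
  · exact h2

theorem u_sub_one_ne_AffL {g : Aff F} (hu : g.u ≠ 1) : (g.u : F) - 1 ≠ 0 := by
  intro h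
  apply hu
  ext
  simpa using sub_eq_zero.1 h

theorem Fixes.unique {g : Aff F} {β β' : F} (hu : g.u ≠ 1) (h : g.Fixes β) (h' : g.Fixes β') :
    β = β' := by
  have h1 := u_sub_one_ne_AffL hu
  unfold Fixes at h h'
  have h2 : ((g.u : F) - 1) * (β - β') = 0 := by linear_combination h - h'
  rcases mul_eq_zero.1 h2 with h3 | h3
  · exact absurd h3 h1
  · exact sub_eq_zero.1 h3

theorem exists_conj {g g' : Aff F} (hu : g.u = g'.u) (h : g.u = 1 → g = 1 ∧ g' = 1) :
    ∃ γ : Aff F, γ * g' * γ⁻¹ = g := by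
  by_cases h1 : g.u = 1
  · obtain ⟨h2, h3⟩ := h h1
    exact ⟨1, by rw [h2, h3]; simp⟩
  · have h2 := u_sub_one_ne_AffL h1
    refine ⟨⟨1, (g.b - g'.b) / ((g.u : F) - 1)⟩, Aff.ext (by simp [hu]) ?_⟩
    simp only [mul_b, inv_u, inv_b, inv_one, Units.val_one, one_mul, ← hu]
    field_simp
    ring

theorem HasFix.mono {H H' : Subgroup (Aff F)} (h : HasFix H') (hle : H ≤ H') : HasFix H := by
  obtain ⟨β, hβ⟩ := h
  exact ⟨β, fun g hg => hβ g (hle hg)⟩

theorem hasFix_bot : HasFix (⊥ : Subgroup (Aff F)) := by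
  refine ⟨0, fun g hg => ?_⟩
  rw [Subgroup.mem_bot] at hg
  subst hg
  simp [Fixes]

theorem fixes_conj_AffL (γ g : Aff F) (β : F) :
    (γ * g * γ⁻¹).Fixes β ↔ g.Fixes (γ.u * β + γ.b) := by
  have h0 : (γ.u : F) ≠ 0 := γ.u.ne_zero
  simp only [Fixes, mul_u, mul_b, inv_u, inv_b, Units.val_mul, Units.val_inv_eq_inv_val]
  constructor
  · intro h
    have h1 : (γ.u : F) * (γ.u : F)⁻¹ = 1 := mul_inv_cancel₀ h0
    linear_combination (γ.u : F) * h
      - ((γ.u : F) * g.u * β + (g.u : F) * γ.b + g.b - γ.b) * h1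
  · intro h
    have h1 : (γ.u : F) * (γ.u : F)⁻¹ = 1 := mul_inv_cancel₀ h0
    linear_combination (γ.u : F)⁻¹ * h + β * h1

theorem hasFix_map_conj (H : Subgroup (Aff F)) (γ : Aff F) :
    HasFix (H.map (MulAut.conj γ).toMonoidHom) ↔ HasFix H := by
  constructor
  · rintro ⟨β, hβ⟩
    refine ⟨γ.u * β + γ.b, fun g hg => (fixes_conj_AffL γ g β).1 (hβ _ ⟨g, hg, rfl⟩)⟩
  · rintro ⟨β, hβ⟩
    refine ⟨(γ.u : F)⁻¹ * (β - γ.b), ?_⟩
    rintro _ ⟨g, hg, rfl⟩
    refine (fixes_conj_AffL γ g _).2 ?_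
    have h0 : (γ.u : F) ≠ 0 := γ.u.ne_zero
    have h1 : (γ.u : F) * ((γ.u : F)⁻¹ * (β - γ.b)) + γ.b = β := by
      field_simp
      ring
    rw [h1]
    exact hβ g hg

/-- The stabiliser of a point. -/
def stab_AffL (β : F) : Subgroup (Aff F) where
  carrier := {g | g.Fixes β}
  mul_mem' := by
    intro a b ha hb
    simp only [Set.mem_ofPred_eq, Fixes, mul_u, mul_b, Units.val_mul] at ha hb ⊢
    linear_combination (b.u : F) * ha + hb
  one_mem' := by simp [Fixes]
  inv_mem' := by
    intro a ha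
    have h0 : (a.u : F) ≠ 0 := a.u.ne_zero
    have h1 : (a.u : F) * (a.u : F)⁻¹ = 1 := mul_inv_cancel₀ h0
    simp only [Set.mem_ofPred_eq, Fixes, inv_u, inv_b, Units.val_inv_eq_inv_val] at ha ⊢
    linear_combination -(a.u : F)⁻¹ * ha + β * h1

theorem HasFix.sup {H H' : Subgroup (Aff F)} (h : HasFix H) (h' : HasFix H') (g : Aff F)
    (hg : g ∈ H) (hg' : g ∈ H') (hu : g.u ≠ 1) : HasFix (H ⊔ H') := by
  obtain ⟨β, hβ⟩ := h
  obtain ⟨β', hβ'⟩ := h'
  have e : β = β' := Fixes.unique hu (hβ g hg) (hβ' g hg')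
  subst e
  have hle : H ⊔ H' ≤ stab_AffL β := sup_le (fun x hx => hβ x hx) (fun x hx => hβ' x hx)
  exact ⟨β, fun x hx => hle hx⟩

end Aff

/-- Facts on a finite field F embedded in a domain. -/
theorem card_cast_eq_zero {F W : Type} [Field F] [Fintype F] [CommRing W] (θ : F →+* W) :
    (Fintype.card F : W) = 0 := by
  rw [← map_natCast θ, FiniteField.cast_card_eq_zero, map_zero]

theorem card_sub_one_cast_ne_zero {F W : Type} [Field F] [Fintype F] [CommRing W] [Nontrivial W]
    (θ : F →+* W) : ((Fintype.card F - 1 : ℕ) : W) ≠ 0 := by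
  rw [Nat.cast_sub Fintype.card_pos, card_cast_eq_zero θ]
  simp

theorem exists_eq_of_pow_card {F W : Type} [Field F] [Fintype F] [CommRing W] [IsDomain W]
    (θ : F →+* W) (x : W) (hx : x ^ Fintype.card F = x) : ∃ a, θ a = x := by
  classical
  have h1 : (∏ a : F, (Polynomial.X - Polynomial.C a)) =
      (Polynomial.X ^ Fintype.card F - Polynomial.X : Polynomial F) := by
    have hq : 1 < Fintype.card F := Fintype.one_lt_card
    have hm : (Polynomial.X ^ Fintype.card F - Polynomial.X : Polynomial F).Monic :=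
      Polynomial.monic_X_pow_sub (by rw [Polynomial.degree_X]; exact_mod_cast hq)
    have hr := FiniteField.roots_X_pow_card_sub_X F
    have hd := FiniteField.X_pow_card_sub_X_natDegree_eq F hq
    have h2 := Polynomial.prod_multiset_X_sub_C_of_monic_of_roots_card_eq hm
      (by rw [hr, hd]; rfl)
    rw [hr] at h2
    exact h2
  have h2 := congrArg (Polynomial.eval₂RingHom θ x) h1
  rw [map_prod] at h2
  simp only [Polynomial.coe_eval₂RingHom, Polynomial.eval₂_sub, Polynomial.eval₂_X,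
    Polynomial.eval₂_C, Polynomial.eval₂_X_pow, hx, sub_self] at h2
  obtain ⟨a, -, ha⟩ := Finset.prod_eq_zero_iff.1 h2
  exact ⟨a, (sub_eq_zero.1 ha).symm⟩

theorem exists_unit_of_pow_card_sub_one {F W : Type} [Field F] [Fintype F] [CommRing W]
    [IsDomain W] (θ : F →+* W) (x : W) (hx : x ^ (Fintype.card F - 1) = 1) :
    ∃ a : Fˣ, θ a = x := by
  have hq : 1 < Fintype.card F := Fintype.one_lt_card
  have h1 : x ^ Fintype.card F = x := by
    have e : Fintype.card F = (Fintype.card F - 1) + 1 := by omega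
    rw [e, pow_succ, hx, one_mul]
  obtain ⟨a, ha⟩ := exists_eq_of_pow_card θ x h1
  have ha0 : a ≠ 0 := by
    rintro rfl
    rw [map_zero] at ha
    rw [← ha, zero_pow (by omega)] at hx
    exact zero_ne_one hx
  exact ⟨Units.mk0 a ha0, ha⟩

theorem add_pow_card_of_hom {F W : Type} [Field F] [Fintype F] [CommRing W] (θ : F →+* W)
    (x y : W) : (x + y) ^ Fintype.card F = x ^ Fintype.card F + y ^ Fintype.card F := by
  rcases subsingleton_or_nontrivial W with hW | hW
  · exact Subsingleton.elim _ _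
  obtain ⟨p, hp⟩ := CharP.exists F
  obtain ⟨n, hpp, hn⟩ := FiniteField.card F p
  have : Fact p.Prime := ⟨hpp⟩
  have : CharP W p := charP_of_injective_ringHom θ.injective p
  rw [hn]
  exact add_pow_char_pow x y p n

theorem sub_pow_card_of_hom {F W : Type} [Field F] [Fintype F] [CommRing W] (θ : F →+* W)
    (x y : W) : (x - y) ^ Fintype.card F = x ^ Fintype.card F - y ^ Fintype.card F := by
  have h := add_pow_card_of_hom θ (x - y) y
  rw [sub_add_cancel] at h
  rw [h, add_sub_cancel_right]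

end Pool.Agent.Adm

end

section



end

section

/-! Orders of expansions of polynomials. -/

namespace Pool.Agent.Adm

open scoped OnePoint
open Polynomial

variable {k : Type} [Field k]

theorem coeff_eval_H0 (s : k) (n : ℤ) (Q : k[X]) (j : ℤ) :
    (Q.eval₂ HahnSeries.C (HahnSeries.single n s : LaurentSeries k)).coeff j =
      ∑ i ∈ Q.support, if j = i * n then Q.coeff i * s ^ i else 0 := by
  rw [eval₂_eq_sum, Polynomial.sum, HahnSeries.coeff_sum]
  refine Finset.sum_congr rfl fun i _ => ?_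
  rw [HahnSeries.single_pow, HahnSeries.C_apply, HahnSeries.single_mul_single, zero_add,
    HahnSeries.coeff_single, nsmul_eq_mul]
  split_ifs <;> rfl

theorem coeff_mul_H0 (s : k) {n : ℤ} (hn : n ≠ 0) (Q : k[X]) (m : ℕ) :
    (Q.eval₂ HahnSeries.C (HahnSeries.single n s : LaurentSeries k)).coeff (m * n) =
      Q.coeff m * s ^ m := by
  rw [coeff_eval_H0, Finset.sum_eq_single m, if_pos rfl]
  · intro i _ hi
    exact if_neg fun e => hi (by exact_mod_cast (mul_right_cancel₀ hn e).symm)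
  · intro hm
    rw [if_pos rfl, notMem_support_iff.1 hm, zero_mul]

theorem coeff_ne_H0 (s : k) (n : ℤ) (Q : k[X]) (j : ℤ)
    (h : (Q.eval₂ HahnSeries.C (HahnSeries.single n s : LaurentSeries k)).coeff j ≠ 0) :
    ∃ i ∈ Q.support, j = i * n := by
  rw [coeff_eval_H0] at h
  obtain ⟨i, hi, h1⟩ := Finset.exists_ne_zero_of_sum_ne_zero h
  exact ⟨i, hi, by_contra fun e => h1 (if_neg e)⟩

theorem ne_zero_H0 {s : k} (hs : s ≠ 0) {n : ℤ} (hn : n ≠ 0) {Q : k[X]} (hQ : Q ≠ 0) :
    Q.eval₂ HahnSeries.C (HahnSeries.single n s : LaurentSeries k) ≠ 0 := by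
  intro h
  have h1 := coeff_mul_H0 s hn Q Q.natDegree
  rw [h] at h1
  exact mul_ne_zero (leadingCoeff_ne_zero.2 hQ) (pow_ne_zero _ hs) h1.symm

theorem shift_H0 (x : k) (u : LaurentSeries k) (P : k[X]) :
    P.eval₂ HahnSeries.C (HahnSeries.C x + u) = (P.comp (X + C x)).eval₂ HahnSeries.C u := by
  rw [eval₂_comp, eval₂_add, eval₂_X, eval₂_C, add_comm]

theorem order_H0 {n : ℤ} (hn : n ≠ 0) {Q : k[X]} {m : ℕ} (hm : m ∈ Q.support)
    (h : ∀ i ∈ Q.support, (m : ℤ) * n ≤ i * n) :
    (Q.eval₂ HahnSeries.C (HahnSeries.single n 1 : LaurentSeries k)).order = m * n := by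
  have hQ : Q ≠ 0 := by
    rintro rfl
    simp at hm
  refine le_antisymm (HahnSeries.order_le_of_coeff_ne_zero ?_) ?_
  · rw [coeff_mul_H0 1 hn, one_pow, mul_one]
    exact mem_support_iff.1 hm
  · obtain ⟨i, hi, e⟩ := coeff_ne_H0 1 n Q _
      (HahnSeries.coeff_order_eq_zero.not.2 (ne_zero_H0 one_ne_zero hn hQ))
    rw [e]
    exact h i hi

theorem eval₂_expand_ne_zero (a : OnePoint k) (e : ℕ) (he : 0 < e) (P : k[X]) (hP : P ≠ 0) :
    P.eval₂ HahnSeries.C (expand a e) ≠ 0 := by
  have h0 : (e : ℤ) ≠ 0 := by exact_mod_cast he.ne'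
  induction a using OnePoint.rec with
  | infty => exact ne_zero_H0 one_ne_zero (neg_ne_zero.2 h0) hP
  | coe b =>
    show P.eval₂ HahnSeries.C (HahnSeries.C b + HahnSeries.single (e : ℤ) 1) ≠ 0
    rw [shift_H0]
    exact ne_zero_H0 one_ne_zero h0 (comp_X_add_C_ne_zero_iff.2 hP)

theorem order_eval₂_expand_coe (a : k) (e : ℕ) (he : 0 < e) (P : k[X]) (hP : P ≠ 0) :
    (P.eval₂ HahnSeries.C (expand (a : OnePoint k) e)).order = e * P.rootMultiplicity a := by
  have h0 : (0 : ℤ) < e := by exact_mod_cast he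
  show (P.eval₂ HahnSeries.C (HahnSeries.C a + HahnSeries.single (e : ℤ) 1)).order = _
  rw [shift_H0, rootMultiplicity_eq_natTrailingDegree, mul_comm]
  refine order_H0 h0.ne' (natTrailingDegree_mem_support_of_nonzero
    (comp_X_add_C_ne_zero_iff.2 hP)) fun i hi => ?_
  exact mul_le_mul_of_nonneg_right (by exact_mod_cast natTrailingDegree_le_of_mem_supp i hi) h0.le

theorem order_eval₂_expand_infty (e : ℕ) (he : 0 < e) (P : k[X]) (hP : P ≠ 0) :
    (P.eval₂ HahnSeries.C (expand (∞ : OnePoint k) e)).order = -(e * P.natDegree : ℤ) := by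
  have h0 : (0 : ℤ) < e := by exact_mod_cast he
  show (P.eval₂ HahnSeries.C (HahnSeries.single (-(e : ℤ)) 1)).order = _
  rw [order_H0 (neg_ne_zero.2 h0.ne') (natDegree_mem_support_of_nonzero hP) fun i hi => ?_]
  · ring
  · exact mul_le_mul_of_nonpos_right (by exact_mod_cast le_natDegree_of_mem_supp i hi)
      (neg_nonpos.2 h0.le)

/-- The expansion of rational functions at a point. -/
theorem exists_chart (a : OnePoint k) (e : ℕ) (he : 0 < e) :
    ∃ j : RatFunc k →+* LaurentSeries k, (∀ c, j (RatFunc.C c) = HahnSeries.C c) ∧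
      j RatFunc.X = expand a e :=
  exists_ratFunc_hom HahnSeries.C (expand a e) (eval₂_expand_ne_zero a e he)

/-- A nonconstant power series of the form x + s z^e is transcendental. -/
theorem eval₂_ne_zero_of_single (x s : k) (hs : s ≠ 0) (n : ℤ) (hn : n ≠ 0) (P : k[X])
    (hP : P ≠ 0) :
    P.eval₂ HahnSeries.C (HahnSeries.C x + HahnSeries.single n s : LaurentSeries k) ≠ 0 := by
  rw [shift_H0]
  exact ne_zero_H0 hs hn (comp_X_add_C_ne_zero_iff.2 hP)

theorem scL_coe (ζ : k) (h : ζ ≠ 0) (u : PowerSeries k) :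
    scL ζ h (u : LaurentSeries k) = (PowerSeries.rescale ζ u : PowerSeries k) := by
  ext n
  rw [scL_coeff, PowerSeries.coeff_coe, PowerSeries.coeff_coe]
  split_ifs with hn
  · rw [mul_zero]
  · obtain ⟨m, rfl⟩ := Int.eq_ofNat_of_zero_le (not_lt.1 hn)
    rw [PowerSeries.coeff_rescale, Int.natAbs_natCast, zpow_natCast]

/-- An eigenvector of z ↦ ζ z has eigenvalue ζ to the order. -/
theorem eigen_eq_zpow (ζ : k) (h : ζ ≠ 0) (y : LaurentSeries k) (hy : y ≠ 0) (c : k)
    (hc : scL ζ h y = HahnSeries.C c * y) : c = ζ ^ y.order := by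
  have h1 := congrArg (fun w : LaurentSeries k => w.coeff y.order) hc
  simp only [scL_coeff, HahnSeries.C_mul_eq_smul, HahnSeries.coeff_smul, smul_eq_mul] at h1
  exact (mul_right_cancel₀ (HahnSeries.coeff_order_eq_zero.not.2 hy) h1).symm

end Pool.Agent.Adm

end

section

/-! Consequences of the Hensel lemma in Laurent series fields. -/

namespace Pool.Agent.Adm

open Polynomial

variable {k : Type} [Field k]

/-- Simple roots of the reduction lift. -/
theorem lift_root_H2 (P : (PowerSeries k)[X]) (hP : P.Monic) (a : k)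
    (h1 : (P.map (PowerSeries.constantCoeff (R := k))).eval a = 0)
    (h2 : (P.map (PowerSeries.constantCoeff (R := k))).derivative.eval a ≠ 0) :
    ∃ v : PowerSeries k, P.eval v = 0 ∧ PowerSeries.constantCoeff v = a := by
  have key : ∀ Q : (PowerSeries k)[X], PowerSeries.constantCoeff (Q.eval (PowerSeries.C a)) =
      (Q.map (PowerSeries.constantCoeff (R := k))).eval a := fun Q => by
    rw [eval_map, ← Polynomial.eval₂_at_apply]
    simp
  have hH : HenselianRing (PowerSeries k) (Ideal.span {PowerSeries.X}) := inferInstance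
  obtain ⟨v, hv, hv'⟩ := hH.is_henselian P hP (PowerSeries.C a)
    (by rw [Ideal.mem_span_singleton, PowerSeries.X_dvd_iff, key, h1])
    (by
      refine IsUnit.map _ ?_
      rw [PowerSeries.isUnit_iff_constantCoeff, key, ← derivative_map]
      exact h2.isUnit)
  refine ⟨v, hv, ?_⟩
  rw [Ideal.mem_span_singleton, PowerSeries.X_dvd_iff, map_sub, sub_eq_zero] at hv'
  simpa using hv'

/-- Hensel: a monic polynomial over k[[z]] with separable reduction splits. -/
theorem splits_of_separable_reduction [IsAlgClosed k] (P : (PowerSeries k)[X]) (hP : P.Monic)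
    (hsep : (P.map (PowerSeries.constantCoeff (R := k))).Separable) :
    (P.map (HahnSeries.ofPowerSeries ℤ k)).Splits := by
  classical
  set Q := P.map (PowerSeries.constantCoeff (R := k)) with hQ
  have hQm : Q.Monic := hP.map _
  have h : ∀ a : k, ∃ v : PowerSeries k, a ∈ Q.roots →
      P.eval v = 0 ∧ PowerSeries.constantCoeff v = a := fun a => by
    by_cases ha : a ∈ Q.roots
    · have h1 : Q.eval a = 0 := (mem_roots hQm.ne_zero).1 ha
      have h2 : Q.derivative.eval a ≠ 0 := by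
        simpa using hsep.aeval_derivative_ne_zero (x := a) (by simpa using h1)
      obtain ⟨v, hv⟩ := lift_root_H2 P hP a h1 h2
      exact ⟨v, fun _ => hv⟩
    · exact ⟨0, fun h => absurd h ha⟩
  choose v hv using h
  have hR : (P.map (HahnSeries.ofPowerSeries ℤ k)).Monic := hP.map _
  rw [splits_iff_card_roots]
  refine le_antisymm (card_roots' _) ?_
  rw [hP.natDegree_map, ← hP.natDegree_map (PowerSeries.constantCoeff (R := k)), ← hQ,
    (IsAlgClosed.splits Q).natDegree_eq_card_roots,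
    ← Multiset.toFinset_card_of_nodup (nodup_roots hsep)]
  refine le_trans ?_ (Multiset.toFinset_card_le _)
  refine Finset.card_le_card_of_injOn (fun a => HahnSeries.ofPowerSeries ℤ k (v a)) ?_ ?_
  · intro a ha
    have ha' : a ∈ Q.roots := by simpa using ha
    simp only [Finset.mem_coe, Multiset.mem_toFinset]
    rw [mem_roots hR.ne_zero, IsRoot.def, eval_map, Polynomial.eval₂_at_apply, (hv a ha').1,
      map_zero]
  · intro a ha b hb hab
    have ha' : a ∈ Q.roots := by simpa using ha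
    have hb' : b ∈ Q.roots := by simpa using hb
    rw [← (hv a ha').2, ← (hv b hb').2, HahnSeries.ofPowerSeries_injective hab]

theorem exists_pow_eq_ps [IsAlgClosed k] (m : ℕ) (hm : (m : k) ≠ 0) (u : PowerSeries k)
    (hu : PowerSeries.constantCoeff u ≠ 0) : ∃ v : PowerSeries k, v ^ m = u := by
  have hm0 : m ≠ 0 := by
    rintro rfl
    simp at hm
  obtain ⟨a, ha⟩ := IsAlgClosed.exists_pow_nat_eq (PowerSeries.constantCoeff u)
    (Nat.pos_of_ne_zero hm0)
  have ha0 : a ≠ 0 := by
    rintro rfl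
    rw [zero_pow hm0] at ha
    exact hu ha.symm
  obtain ⟨v, hv, -⟩ := lift_root_H2 (X ^ m - C u) (monic_X_pow_sub_C u hm0) a
    (by simp [ha]) (by simp [derivative_X_pow, hm, ha0])
  exact ⟨v, by simpa [sub_eq_zero] using hv⟩

theorem exists_pow_eq [IsAlgClosed k] (m : ℕ) (hm : (m : k) ≠ 0) (x : LaurentSeries k)
    (hd : (m : ℤ) ∣ x.order) : ∃ y : LaurentSeries k, y ^ m = x := by
  have hm0 : m ≠ 0 := by
    rintro rfl
    simp at hm
  by_cases hx : x = 0
  · exact ⟨0, by rw [hx, zero_pow hm0]⟩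
  obtain ⟨d, hd⟩ := hd
  have hu : PowerSeries.constantCoeff x.powerSeriesPart ≠ 0 := by
    rw [← PowerSeries.coeff_zero_eq_constantCoeff_apply, LaurentSeries.powerSeriesPart_coeff]
    simpa using HahnSeries.coeff_order_eq_zero.not.2 hx
  obtain ⟨v, hv⟩ := exists_pow_eq_ps m hm _ hu
  refine ⟨HahnSeries.single d 1 * (v : LaurentSeries k), ?_⟩
  rw [mul_pow, ← map_pow (HahnSeries.ofPowerSeries ℤ k), hv, HahnSeries.single_pow,
    one_pow, nsmul_eq_mul, ← hd,
    LaurentSeries.single_order_mul_powerSeriesPart]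

/-- Artin-Schreier equations with regular right-hand side are solvable. -/
theorem exists_as_root [IsAlgClosed k] (q : ℕ) (hq : 1 < q) (hq0 : (q : k) = 0)
    (x : LaurentSeries k) (hx : ∀ n < 0, x.coeff n = 0) : ∃ w : LaurentSeries k, w ^ q - w = x := by
  set u : PowerSeries k := PowerSeries.mk fun n => x.coeff n with hu
  have hux : (u : LaurentSeries k) = x := by
    ext n
    rw [PowerSeries.coeff_coe]
    split_ifs with h
    · exact (hx n h).symm
    · rw [hu, PowerSeries.coeff_mk, Int.natAbs_of_nonneg (not_lt.1 h)]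
  have hmon : ∀ {R : Type} [CommRing R] [Nontrivial R] (c : R),
      (X ^ q - (X + C c) : R[X]).Monic ∧ (X ^ q - (X + C c) : R[X]).degree = q := fun c => by
    have h : (X + C c).degree < (q : WithBot ℕ) := by
      rw [degree_X_add_C]
      exact_mod_cast hq
    refine ⟨monic_X_pow_sub h, ?_⟩
    rw [degree_sub_eq_left_of_degree_lt (by rwa [degree_X_pow]), degree_X_pow]
  obtain ⟨a, ha⟩ := IsAlgClosed.exists_root (X ^ q - (X + C (PowerSeries.constantCoeff u)))
    (by
      rw [(hmon _).2]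
      exact_mod_cast (by omega : q ≠ 0))
  obtain ⟨v, hv, -⟩ := lift_root_H2 (X ^ q - (X + C u)) (hmon u).1 a
    (by simpa using ha) (by simp [derivative_X_pow, hq0])
  refine ⟨(v : LaurentSeries k), ?_⟩
  have h : v ^ q - v = u := by
    have : v ^ q - (v + u) = 0 := by simpa using hv
    linear_combination this
  rw [← hux, ← h, map_sub, map_pow]

end Pool.Agent.Adm

end

section



end

section

/-! Polar parts and regular rational functions. -/

namespace Pool.Agent.Adm

open scoped OnePoint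
open Polynomial

variable {k : Type} [Field k]

/-- A family of expansions of rational functions in a uniformiser at every point. -/
def IsCharts (J : OnePoint k → RatFunc k →+* LaurentSeries k) : Prop :=
  ∀ a, (∀ c, J a (RatFunc.C c) = HahnSeries.C c) ∧ J a RatFunc.X = expand a 1

/-- No pole. -/
def Reg (x : LaurentSeries k) : Prop := ∀ n < 0, x.coeff n = 0

theorem reg_of_order_VF4 {x : LaurentSeries k} (h : 0 ≤ x.order) : Reg x :=
  fun _ hn => HahnSeries.coeff_eq_zero_of_lt_order (lt_of_lt_of_le hn h)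

theorem Reg.order_nonneg_VF4 {x : LaurentSeries k} (h : Reg x) : 0 ≤ x.order := by
  by_cases hx : x = 0
  · simp [hx]
  · by_contra h1
    exact HahnSeries.coeff_order_eq_zero.not.2 hx (h _ (not_le.1 h1))

theorem reg_zero_VF4 : Reg (0 : LaurentSeries k) := fun _ _ => by simp

theorem reg_single_VF4 (n : ℤ) (hn : 0 ≤ n) (c : k) :
    Reg (HahnSeries.single n c : LaurentSeries k) := fun m hm =>
  HahnSeries.coeff_single_of_ne (by omega)

theorem reg_C_VF4 (c : k) : Reg (HahnSeries.C c : LaurentSeries k) :=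
  reg_single_VF4 0 le_rfl c

theorem Reg.add {x y : LaurentSeries k} (hx : Reg x) (hy : Reg y) : Reg (x + y) := by
  intro n hn
  simp [hx n hn, hy n hn]

theorem Reg.sub {x y : LaurentSeries k} (hx : Reg x) (hy : Reg y) : Reg (x - y) := by
  intro n hn
  simp [hx n hn, hy n hn]

theorem Reg.mul {x y : LaurentSeries k} (hx : Reg x) (hy : Reg y) : Reg (x * y) := by
  by_cases h1 : x = 0
  · simpa [h1] using reg_zero_VF4
  by_cases h2 : y = 0
  · simpa [h2] using reg_zero_VF4
  apply reg_of_order_VF4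
  rw [HahnSeries.order_mul h1 h2]
  exact add_nonneg hx.order_nonneg_VF4 hy.order_nonneg_VF4

theorem Reg.pow {x : LaurentSeries k} (hx : Reg x) (n : ℕ) : Reg (x ^ n) := by
  induction n with
  | zero => simpa using reg_C_VF4 (1 : k)
  | succ n ih => rw [pow_succ]; exact ih.mul hx

theorem reg_inv_VF4 {x : LaurentSeries k} (hx : x.order = 0) : Reg x⁻¹ := by
  by_cases h : x = 0
  · simpa [h] using reg_zero_VF4
  apply reg_of_order_VF4
  have h1 := HahnSeries.order_mul h (inv_ne_zero h)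
  rw [mul_inv_cancel₀ h, HahnSeries.order_one, hx] at h1
  omega

variable {J : OnePoint k → RatFunc k →+* LaurentSeries k}

theorem IsCharts.eval_VF4 (hJ : IsCharts J) (a : OnePoint k) (P : k[X]) :
    J a (algebraMap k[X] (RatFunc k) P) = P.eval₂ HahnSeries.C (expand a 1) :=
  hom_algebraMap (J a) HahnSeries.C (expand a 1) (hJ a).1 (hJ a).2 P

theorem IsCharts.order_VF4 (hJ : IsCharts J) (a : k) (P : k[X]) (hP : P ≠ 0) :
    (J a (algebraMap k[X] (RatFunc k) P)).order = P.rootMultiplicity a := by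
  rw [hJ.eval_VF4, order_eval₂_expand_coe a 1 one_pos P hP]
  simp

theorem IsCharts.reg_poly (hJ : IsCharts J) (a : k) (P : k[X]) :
    Reg (J a (algebraMap k[X] (RatFunc k) P)) := by
  by_cases hP : P = 0
  · simpa [hP] using reg_zero_VF4
  apply reg_of_order_VF4
  rw [hJ.order_VF4 a P hP]
  exact Int.natCast_nonneg _

theorem IsCharts.reg_inv_VF4 (hJ : IsCharts J) (a : k) (P : k[X]) (hP : ¬ P.IsRoot a) :
    Reg (J a (algebraMap k[X] (RatFunc k) P))⁻¹ := by
  have h0 : P ≠ 0 := by
    rintro rfl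
    exact hP (by simp)
  apply Pool.Agent.Adm.reg_inv_VF4
  rw [hJ.order_VF4 a P h0, rootMultiplicity_eq_zero hP]
  rfl

theorem IsCharts.exists_finset (hJ : IsCharts J) (h : RatFunc k) :
    ∃ S : Finset k, ∀ a : k, a ∉ S → Reg (J a h) := by
  classical
  refine ⟨h.denom.roots.toFinset, fun a ha => ?_⟩
  have h1 : ¬ h.denom.IsRoot a := by
    intro h2
    exact ha (Multiset.mem_toFinset.2 ((mem_roots h.denom_ne_zero).2 h2))
  rw [← h.num_div_denom, map_div₀, div_eq_mul_inv]
  exact (hJ.reg_poly a _).mul (hJ.reg_inv_VF4 a _ h1)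

theorem IsCharts.single_VF4 (hJ : IsCharts J) (a : k) (c : k) (s : ℕ) :
    J a (RatFunc.C c * (algebraMap k[X] (RatFunc k) ((X - C a) ^ s))⁻¹) =
      HahnSeries.single (-(s : ℤ)) c := by
  have h1 : J a (algebraMap k[X] (RatFunc k) ((X - C a) ^ s)) = HahnSeries.single (s : ℤ) 1 := by
    rw [hJ.eval_VF4, eval₂_pow, eval₂_sub, eval₂_X, eval₂_C]
    simp [expand, HahnSeries.single_pow]
  have h2 : (HahnSeries.single (s : ℤ) (1 : k) : LaurentSeries k)⁻¹ =
      HahnSeries.single (-(s : ℤ)) 1 := by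
    apply inv_eq_of_mul_eq_one_right
    rw [HahnSeries.single_mul_single]
    simp
  rw [map_mul, map_inv₀, h1, h2, (hJ a).1, HahnSeries.C_apply, HahnSeries.single_mul_single]
  simp

theorem IsCharts.exists_polar_VF4 (hJ : IsCharts J) (a : k) (N : ℕ) :
    ∀ V : LaurentSeries k, (∀ n < -(N : ℤ), V.coeff n = 0) →
    ∃ r : RatFunc k, Reg (V - J a r) ∧ ∀ b : k, b ≠ a → Reg (J b r) := by
  induction N with
  | zero =>
    intro V hV
    refine ⟨0, fun n hn => ?_, fun b _ => by simpa using reg_zero_VF4⟩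
    simpa using hV n (by simpa using hn)
  | succ N ih =>
    intro V hV
    set r0 : RatFunc k := RatFunc.C (V.coeff (-((N + 1 : ℕ) : ℤ))) *
      (algebraMap k[X] (RatFunc k) ((X - C a) ^ (N + 1)))⁻¹ with hr0
    obtain ⟨r, h1, h2⟩ := ih (V - J a r0) (by
      intro n hn
      rw [hr0, hJ.single_VF4, HahnSeries.coeff_sub]
      by_cases h : n = -((N + 1 : ℕ) : ℤ)
      · rw [h, HahnSeries.coeff_single_same, sub_self]
      · rw [HahnSeries.coeff_single_of_ne h, hV n (by push_cast at h ⊢; omega), sub_self])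
    refine ⟨r0 + r, ?_, fun b hb => ?_⟩
    · rw [map_add, ← sub_sub]; exact h1
    · rw [map_add]
      refine Reg.add ?_ (h2 b hb)
      rw [hr0, map_mul, map_inv₀, (hJ b).1]
      refine (reg_C_VF4 _).mul (hJ.reg_inv_VF4 b _ ?_)
      simp [IsRoot, sub_eq_zero, hb]

theorem IsCharts.exists_polar (hJ : IsCharts J) (a : k) (V : LaurentSeries k) :
    ∃ r : RatFunc k, Reg (V - J a r) ∧ ∀ b : k, b ≠ a → Reg (J b r) :=
  hJ.exists_polar_VF4 a (-V.order).toNat V
    (fun n hn => HahnSeries.coeff_eq_zero_of_lt_order (by omega))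

theorem IsCharts.coeff_infty (hJ : IsCharts J) (P : k[X]) (n : ℤ) :
    (J ∞ (algebraMap k[X] (RatFunc k) P)).coeff n =
      if n ≤ 0 then P.coeff (-n).toNat else 0 := by
  induction P using Polynomial.induction_on' with
  | add p q hp hq =>
    rw [map_add, map_add, HahnSeries.coeff_add, hp, hq]
    split_ifs <;> simp
  | monomial i c =>
    have h1 : J ∞ (algebraMap k[X] (RatFunc k) (monomial i c)) =
        HahnSeries.single (-(i : ℤ)) c := by
      rw [hJ.eval_VF4, eval₂_monomial]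
      simp [expand, HahnSeries.single_pow, HahnSeries.single_mul_single]
    rw [h1, coeff_monomial]
    by_cases h : n = -(i : ℤ)
    · subst h
      simp
    · rw [HahnSeries.coeff_single_of_ne h]
      split_ifs with h2 h3
      · exact absurd (by omega) h
      · rfl
      · rfl

theorem IsCharts.exists_polar_infty (hJ : IsCharts J) (V : LaurentSeries k) :
    ∃ P : k[X], ∀ n ≤ 0, (V - J ∞ (algebraMap k[X] (RatFunc k) P)).coeff n = 0 := by
  refine ⟨∑ i ∈ Finset.range ((-V.order).toNat + 1), monomial i (V.coeff (-(i : ℤ))),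
    fun n hn => ?_⟩
  rw [HahnSeries.coeff_sub, hJ.coeff_infty, if_pos hn, finsetSum_coeff]
  simp only [coeff_monomial, Finset.sum_ite_eq', Finset.mem_range]
  have h1 : -(((-n).toNat : ℕ) : ℤ) = n := by omega
  split_ifs with h
  · rw [h1, sub_self]
  · rw [HahnSeries.coeff_eq_zero_of_lt_order (by omega), sub_self]

theorem IsCharts.exists_poly [IsAlgClosed k] (hJ : IsCharts J) (h : RatFunc k)
    (hreg : ∀ a : k, Reg (J a h)) : ∃ P : k[X], algebraMap k[X] (RatFunc k) P = h := by
  have hd : h.denom = 1 := by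
    by_contra h1
    have h2 : h.denom.degree ≠ 0 := fun h3 =>
      h1 (h.monic_denom.degree_le_zero_iff_eq_one.1 h3.le)
    obtain ⟨a, ha⟩ := IsAlgClosed.exists_root h.denom h2
    have h3 : ¬ h.num.IsRoot a := by
      intro h4
      obtain ⟨u, v, huv⟩ := h.isCoprime_num_denom
      have h5 := congrArg (eval a) huv
      rw [eval_add, eval_mul, eval_mul, h4, ha] at h5
      simp at h5
    have h4 : h.num ≠ 0 := by
      intro h5
      exact h3 (by simp [h5])
    have h5 : h ≠ 0 := fun h6 => h4 (by simp [h6])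
    have h6 : algebraMap k[X] (RatFunc k) h.denom ≠ 0 :=
      RatFunc.algebraMap_ne_zero h.denom_ne_zero
    have h7 : algebraMap k[X] (RatFunc k) h.num = h * algebraMap k[X] (RatFunc k) h.denom := by
      rw [← div_eq_iff h6, h.num_div_denom]
    have h8 := hJ.order_VF4 a h.num h4
    rw [h7, map_mul, HahnSeries.order_mul ((_root_.map_ne_zero _).2 h5) ((_root_.map_ne_zero _).2 h6),
      hJ.order_VF4 a _ h.denom_ne_zero, rootMultiplicity_eq_zero h3] at h8
    have h9 := (rootMultiplicity_pos h.denom_ne_zero).2 ha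
    have h10 := (hreg a).order_nonneg_VF4
    omega
  refine ⟨h.num, ?_⟩
  have h1 := h.num_div_denom
  rwa [hd, map_one, div_one] at h1

theorem exists_isCharts (k : Type) [Field k] :
    ∃ J : OnePoint k → RatFunc k →+* LaurentSeries k, IsCharts J := by
  choose J hJ using fun a : OnePoint k => exists_chart a 1 one_pos
  exact ⟨J, hJ⟩

end Pool.Agent.Adm

end

section

/-! Galois theoretic tools. -/

namespace Pool.Agent.Adm

/-- An endomorphism of the target fixing the base induces an automorphism of a normal extension. -/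
theorem exists_aut_of_normal {F L W : Type} [Field F] [Field L] [Field W] [Algebra F L]
    [Normal F L] (j j' : L →+* W) (h : ∀ x, j' (algebraMap F L x) = j (algebraMap F L x)) :
    ∃ σ : L ≃ₐ[F] L, ∀ x, j (σ x) = j' x := by
  let : Algebra L W := j.toAlgebra
  let : Algebra F W := (j.comp (algebraMap F L)).toAlgebra
  have : IsScalarTower F L W := IsScalarTower.of_algebraMap_eq fun _ => rfl
  let φ : L →ₐ[F] W := { j' with commutes' := h }
  exact ⟨φ.restrictNormal' L, fun x => φ.restrictNormal_commutes L x⟩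

/-- Extending an embedding to an algebraic extension when all extensions to the algebraic closure
send a generating set into W. -/
theorem exists_extension {F L W : Type} [Field F] [Field L] [Field W] [Algebra F L]
    [Algebra.IsAlgebraic F L] (j0 : F →+* W) (S : Set L)
    (hS : IntermediateField.adjoin F S = ⊤)
    (h : ∀ J : L →+* AlgebraicClosure W,
      (∀ x, J (algebraMap F L x) = algebraMap W (AlgebraicClosure W) (j0 x)) →
      ∀ s ∈ S, J s ∈ Set.range (algebraMap W (AlgebraicClosure W))) :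
    ∃ j : L →+* W, ∀ x, j (algebraMap F L x) = j0 x := by
  let : Algebra F (AlgebraicClosure W) :=
    ((algebraMap W (AlgebraicClosure W)).comp j0).toAlgebra
  let J : L →ₐ[F] AlgebraicClosure W := IsAlgClosed.lift
  have hJ : ∀ x, (J : L →+* AlgebraicClosure W) (algebraMap F L x) =
      algebraMap W (AlgebraicClosure W) (j0 x) := fun x => J.commutes x
  have hmem : ∀ x : L, (J : L →+* AlgebraicClosure W) x ∈
      (algebraMap W (AlgebraicClosure W)).fieldRange := by
    intro x
    have hx : x ∈ IntermediateField.adjoin F S := hS ▸ IntermediateField.mem_top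
    induction hx using IntermediateField.adjoin_induction with
    | mem x hx => exact h _ hJ x hx
    | algebraMap x => exact ⟨j0 x, (hJ x).symm⟩
    | add x y _ _ hx hy => rw [map_add]; exact add_mem hx hy
    | inv x _ hx => rw [map_inv₀]; exact inv_mem hx
    | mul x y _ _ hx hy => rw [map_mul]; exact mul_mem hx hy
  choose f hf using hmem
  have hi := (algebraMap W (AlgebraicClosure W)).injective
  refine ⟨{ toFun := f
            map_one' := hi (by rw [hf, map_one, map_one])
            map_mul' := fun x y => hi (by rw [hf, map_mul, map_mul, hf, hf])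
            map_zero' := hi (by rw [hf, map_zero, map_zero])
            map_add' := fun x y => hi (by rw [hf, map_add, map_add, hf, hf]) },
    fun x => hi ((hf _).trans (hJ x))⟩

/-- A faithful action of a group of order at least the degree identifies the Galois group. -/
theorem galois_of_action {K B H : Type} [Field K] [Field B] [Algebra K B] [FiniteDimensional K B]
    [Group H] [Finite H] (ρ : H →* (B ≃ₐ[K] B)) (hρ : Function.Injective ρ)
    (hc : Module.finrank K B ≤ Nat.card H) : IsGalois K B ∧ Function.Bijective ρ := by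
  have h1 : Nat.card (B ≃ₐ[K] B) ≤ Module.finrank K B := by
    rw [Nat.card_eq_fintype_card]
    exact AlgEquiv.card_le
  have h2 := Nat.card_le_card_of_injective ρ hρ
  exact ⟨IsGalois.of_card_aut_eq_finrank K B (le_antisymm h1 (hc.trans h2)),
    hρ.bijective_of_nat_card_le (h1.trans hc)⟩

/-- A reduced finite algebra over a field without nontrivial idempotents is a field. -/
theorem isField_of_reduced {K B : Type} [Field K] [CommRing B] [Algebra K B] [Module.Finite K B]
    [Nontrivial B] [IsReduced B] (h : ∀ x : B, x * x = x → x = 0 ∨ x = 1) : IsField B := by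
  have : IsArtinianRing B := IsArtinianRing.of_finite K B
  refine ⟨exists_pair_ne B, mul_comm, fun {x} hx => ?_⟩
  obtain ⟨n, y, hy⟩ := IsArtinian.exists_pow_succ_smul_dvd x (1 : B)
  rw [smul_eq_mul, smul_eq_mul, mul_one, Nat.succ_eq_add_one] at hy
  have h1 : x * (x * y - 1) = 0 := IsReduced.eq_zero _ ⟨n + 1, by
    rw [mul_pow, pow_succ (x * y - 1), pow_succ x]
    linear_combination (x * (x * y - 1) ^ n) * hy⟩
  rcases h (x * y) (by linear_combination y * h1) with h2 | h2
  · exact absurd (by linear_combination x * h2 - h1) hx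
  · exact ⟨y, h2⟩

end Pool.Agent.Adm

end

section

/-! Galois theoretic tools. -/

namespace Pool.Agent.Adm

open scoped OnePoint

variable {k G : Type} [Field k] [Group G]

/-- From a chart to monodromy. -/
theorem Cover.exists_mono_of_chart (c : Cover k G) (a : OnePoint k) (e : ℕ) (he : 0 < e) (ζ : k)
    (hζ : IsPrimitiveRoot ζ e) (j : c.L →+* LaurentSeries k)
    (hC : ∀ x : k, j (algebraMap (RatFunc k) c.L (RatFunc.C x)) = HahnSeries.C x)
    (hX : j (algebraMap (RatFunc k) c.L RatFunc.X) = expand a e) :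
    ∃ σ : c.L ≃ₐ[RatFunc k] c.L, c.Mono a e ζ (c.ι σ) ∧
      ∀ x, j (σ x) = scL ζ (hζ.ne_zero he.ne') (j x) := by
  have hr : (scL ζ (hζ.ne_zero he.ne')).comp (j.comp (algebraMap (RatFunc k) c.L)) =
      j.comp (algebraMap (RatFunc k) c.L) := by
    apply ratFunc_hom_ext
    · intro x
      simp only [RingHom.comp_apply, hC, scL_C]
    · simp only [RingHom.comp_apply, hX]
      exact scL_expand a e ζ _ hζ.pow_eq_one
  obtain ⟨σ, hσ⟩ := exists_aut_of_normal (F := RatFunc k) j ((scL ζ (hζ.ne_zero he.ne')).comp j)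
    (fun x => DFunLike.congr_fun hr x)
  exact ⟨σ, Cover.RMono.mono he hζ ⟨j, hC, hX, σ, rfl, hσ⟩, hσ⟩

/-- The trivial covering. -/
theorem exists_trivial_cover (k G : Type) [Field k] [Group G] :
    ∃ c : Cover k G, c.ι.range = ⊥ ∧
      ∀ (a : OnePoint k) (e : ℕ) (ζ : k), 0 < e → IsPrimitiveRoot ζ e → c.Mono a e ζ 1 := by
  let c : Cover k G := { L := RatFunc k, ι := 1 }
  refine ⟨c, MonoidHom.range_one, fun a e ζ he hζ => ?_⟩
  obtain ⟨j, h1, h2⟩ := exists_chart a e he
  obtain ⟨σ, h, -⟩ := c.exists_mono_of_chart a e he ζ hζ j h1 h2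
  exact h

/-- Rescaling the local parameter. -/
theorem Cover.RMono.mono_of_scaled [IsAlgClosed k] {c : Cover k G} {e : ℕ} {ζ : k} {g : G}
    (he : 0 < e) (hζ : IsPrimitiveRoot ζ e) (x s : k) (hs : s ≠ 0)
    (h : c.RMono HahnSeries.C (HahnSeries.C x + HahnSeries.single (e : ℤ) s)
      (scL ζ (hζ.ne_zero he.ne')) g) : c.Mono (x : OnePoint k) e ζ g := by
  obtain ⟨r, hr⟩ := IsAlgClosed.exists_pow_nat_eq s⁻¹ he
  have hr0 : r ≠ 0 := by
    rintro rfl
    rw [zero_pow he.ne'] at hr
    exact inv_ne_zero hs hr.symm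
  have h2 := h.comp (scL r hr0) (scL ζ (hζ.ne_zero he.ne')) (fun y => by
    rw [scL_scL, scL_scL]
    simp only [mul_comm])
  have h3 : (scL r hr0).comp HahnSeries.C = HahnSeries.C := by
    exact RingHom.ext fun y => scL_C r hr0 y
  have h4 : scL r hr0 (HahnSeries.C x + HahnSeries.single (e : ℤ) s) =
      expand (x : OnePoint k) e := by
    rw [map_add, scL_C, scL_single, zpow_natCast, hr, inv_mul_cancel₀ hs]
    rfl
  rw [h3, h4] at h2
  exact h2.mono he hζ

theorem Cover.RMono.mono_infty_of_scaled [IsAlgClosed k] {c : Cover k G} {e : ℕ} {ζ : k} {g : G}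
    (he : 0 < e) (hζ : IsPrimitiveRoot ζ e) (s : k) (hs : s ≠ 0)
    (h : c.RMono HahnSeries.C (HahnSeries.single (-(e : ℤ)) s)
      (scL ζ (hζ.ne_zero he.ne')) g) : c.Mono ∞ e ζ g := by
  obtain ⟨r, hr⟩ := IsAlgClosed.exists_pow_nat_eq s he
  have hr0 : r ≠ 0 := by
    rintro rfl
    rw [zero_pow he.ne'] at hr
    exact hs hr.symm
  have h2 := h.comp (scL r hr0) (scL ζ (hζ.ne_zero he.ne')) (fun y => by
    rw [scL_scL, scL_scL]
    simp only [mul_comm])
  have h3 : (scL r hr0).comp HahnSeries.C = HahnSeries.C := by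
    exact RingHom.ext fun y => scL_C r hr0 y
  have h4 : scL r hr0 (HahnSeries.single (-(e : ℤ)) s) = expand (∞ : OnePoint k) e := by
    rw [scL_single, zpow_neg, zpow_natCast, hr, inv_mul_cancel₀ hs]
    rfl
  rw [h3, h4] at h2
  exact h2.mono he hζ

end Pool.Agent.Adm

end

section

/-! Amalgamation of fields identifying two transcendental elements. -/

namespace Pool.Agent.Adm

open Polynomial in
theorem mem_range_TW {k0 k : Type} [Field k0] [IsAlgClosed k0] [Field k]
    (φ : k0 →+* k) (s : k) (P : Polynomial k0) (hP : P ≠ 0) (h : P.eval₂ φ s = 0) :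
    s ∈ Set.range φ := by
  have h1 := (IsAlgClosed.splits P).eq_prod_roots
  rw [h1, eval₂_mul, eval₂_C, eval₂_multiset_prod, Multiset.map_map] at h
  rcases mul_eq_zero.1 h with h2 | h2
  · exact absurd (φ.injective (h2.trans (map_zero φ).symm)) (leadingCoeff_ne_zero.2 hP)
  · obtain ⟨a, -, ha⟩ := Multiset.mem_map.1 (Multiset.prod_eq_zero_iff.1 h2)
    simp only [Function.comp_apply, eval₂_sub, eval₂_X, eval₂_C] at ha
    exact ⟨a, (sub_eq_zero.1 ha).symm⟩

theorem amalg_TW {E k1 k2 : Type} [Field E] [Field k1] [Field k2] (f1 : E →+* k1)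
    (f2 : E →+* k2) :
    ∃ (k : Type) (_ : Field k) (_ : IsAlgClosed k) (ψ1 : k1 →+* k) (ψ2 : k2 →+* k),
      ∀ x, ψ1 (f1 x) = ψ2 (f2 x) := by
  let _ : Algebra E k1 := f1.toAlgebra
  let _ : Algebra E k2 := f2.toAlgebra
  obtain ⟨M, hM⟩ := Ideal.exists_maximal (TensorProduct E k1 k2)
  let _ : Field (TensorProduct E k1 k2 ⧸ M) := Ideal.Quotient.field M
  refine ⟨AlgebraicClosure (TensorProduct E k1 k2 ⧸ M), inferInstance, inferInstance,
    (algebraMap _ _ : (TensorProduct E k1 k2 ⧸ M) →+* _).comp ((Ideal.Quotient.mk M).comp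
      (Algebra.TensorProduct.includeLeftRingHom : k1 →+* TensorProduct E k1 k2)),
    (algebraMap _ _ : (TensorProduct E k1 k2 ⧸ M) →+* _).comp ((Ideal.Quotient.mk M).comp
      (Algebra.TensorProduct.includeRight : k2 →ₐ[E] TensorProduct E k1 k2).toRingHom),
    fun x => ?_⟩
  have h1 : (Algebra.TensorProduct.includeLeftRingHom : k1 →+* TensorProduct E k1 k2) (f1 x) =
      (Algebra.TensorProduct.includeRight : k2 →ₐ[E] TensorProduct E k1 k2).toRingHom (f2 x) := by
    have e1 := (Algebra.TensorProduct.includeLeft :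
      k1 →ₐ[E] TensorProduct E k1 k2).commutes x
    have e2 := (Algebra.TensorProduct.includeRight :
      k2 →ₐ[E] TensorProduct E k1 k2).commutes x
    exact e1.trans e2.symm
  simp only [RingHom.comp_apply]
  rw [h1]

theorem exists_amalgam {k0 k1 k2 : Type} [Field k0] [IsAlgClosed k0] [Field k1] [Field k2]
    (φ1 : k0 →+* k1) (φ2 : k0 →+* k2) (s1 : k1) (s2 : k2) (h1 : s1 ∉ Set.range φ1)
    (h2 : s2 ∉ Set.range φ2) :
    ∃ (k : Type) (_ : Field k) (_ : IsAlgClosed k) (ψ1 : k1 →+* k) (ψ2 : k2 →+* k),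
      (∀ x, ψ1 (φ1 x) = ψ2 (φ2 x)) ∧ ψ1 s1 = ψ2 s2 := by
  obtain ⟨f1, a1, b1⟩ := exists_ratFunc_hom φ1 s1
    (fun P hP h => h1 (mem_range_TW φ1 s1 P hP h))
  obtain ⟨f2, a2, b2⟩ := exists_ratFunc_hom φ2 s2
    (fun P hP h => h2 (mem_range_TW φ2 s2 P hP h))
  obtain ⟨k, i1, i2, ψ1, ψ2, h⟩ := amalg_TW f1 f2
  refine ⟨k, i1, i2, ψ1, ψ2, fun x => ?_, ?_⟩
  · rw [← a1, ← a2, h]
  · rw [← b1, ← b2, h]

/-- Roots of unity come from an algebraically closed subfield. -/
theorem root_mem_range {k0 k : Type} [Field k0] [IsAlgClosed k0] [Field k] (φ : k0 →+* k) (ζ : k)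
    (e : ℕ) (he : 0 < e) (h : ζ ^ e = 1) : ζ ∈ Set.range φ := by
  refine mem_range_TW φ ζ (Polynomial.X ^ e - Polynomial.C 1)
    (Polynomial.X_pow_sub_C_ne_zero he 1) ?_
  rw [Polynomial.eval₂_sub, Polynomial.eval₂_X_pow, Polynomial.eval₂_C, map_one, h, sub_self]

/-- An element outside an algebraically closed subfield is transcendental. -/
theorem eval₂_ne_zero_of_notMem {k0 k : Type} [Field k0] [IsAlgClosed k0] [Field k]
    (φ : k0 →+* k) (s : k) (h : s ∉ Set.range φ) (P : Polynomial k0) (hP : P ≠ 0) :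
    P.eval₂ φ s ≠ 0 := fun h0 => h (mem_range_TW φ s P hP h0)

end Pool.Agent.Adm

end

section

/-! Hilbert 90 for the affine group; powers of rational functions. -/

namespace Pool.Agent.Adm

open Polynomial

/-- Hilbert 90 for the affine group. -/
theorem exists_gens {K L F : Type} [Field K] [Field L] [Algebra K L] [FiniteDimensional K L]
    [IsGalois K L] [Field F] (θ : F →+* K) (ψ : (L ≃ₐ[K] L) →* Aff F) :
    ∃ y w : L, y ≠ 0 ∧ (∀ σ, σ y = algebraMap K L (θ (ψ σ).u) * y) ∧
      ∀ σ, σ w = algebraMap K L (θ (ψ σ).u) * w + algebraMap K L (θ (ψ σ).b) := by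
  classical
  let φ : F →+* L := (algebraMap K L).comp θ
  have hφ : ∀ (σ : L ≃ₐ[K] L) (x : F), σ (φ x) = φ x := fun σ x => σ.commutes _
  obtain ⟨y, hy⟩ := groupCohomology.isMulCoboundary₁_of_isMulCocycle₁_of_aut_to_units
    (K := K) (L := L) (fun σ => Units.map (φ : F →* L) (ψ σ).u) (by
      intro g h
      ext
      simp only [map_mul, Aff.mul_u, AlgEquiv.smul_units_def, Units.val_mul, Units.coe_map,
        MonoidHom.coe_coe, hφ]
      ring)
  obtain ⟨l, hl⟩ := Algebra.trace_surjective K L 1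
  have hl1 : ∑ τ : L ≃ₐ[K] L, τ l = 1 := by
    rw [← trace_eq_sum_automorphisms, hl, map_one]
  let c : (L ≃ₐ[K] L) → F := fun τ => -(((ψ τ).u : F)⁻¹ * (ψ τ).b)
  have hc : ∀ σ τ, c τ = (ψ σ).u * c (σ * τ) + (ψ σ).b := by
    intro σ τ
    have h1 := (ψ σ).u.ne_zero
    have h2 := (ψ τ).u.ne_zero
    simp only [c, map_mul, Aff.mul_u, Aff.mul_b, Units.val_mul]
    field_simp
    ring
  refine ⟨y, ∑ τ : L ≃ₐ[K] L, τ l * φ (c τ), y.ne_zero, fun σ => ?_, fun σ => ?_⟩
  · have h1 := congrArg Units.val (div_eq_iff_eq_mul.1 (hy σ))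
    simpa [AlgEquiv.smul_units_def, φ] using h1
  · change _ = φ (ψ σ).u * _ + φ (ψ σ).b
    have h1 : ∑ τ : L ≃ₐ[K] L, (σ * τ) l * φ (c (σ * τ)) = ∑ τ : L ≃ₐ[K] L, τ l * φ (c τ) :=
      Fintype.sum_bijective _ (Group.mulLeft_bijective σ) _ _ fun _ => rfl
    have h2 : ∑ τ : L ≃ₐ[K] L, (σ * τ) l = 1 := by
      rw [← hl1]
      exact Fintype.sum_bijective _ (Group.mulLeft_bijective σ) _ _ fun _ => rfl
    rw [map_sum, ← h1, ← mul_one (φ (ψ σ).b), ← h2, Finset.mul_sum, Finset.mul_sum,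
      ← Finset.sum_add_distrib]
    refine Finset.sum_congr rfl fun τ _ => ?_
    rw [map_mul, hφ, hc σ τ, map_add, map_mul, AlgEquiv.mul_apply]
    ring

theorem eq_prod_VF0 {k : Type} [Field k] [IsAlgClosed k] [DecidableEq k] (P : k[X])
    (s : Finset k) (hs : P.roots.toFinset ⊆ s) :
    P = C P.leadingCoeff * ∏ a ∈ s, (X - C a) ^ P.rootMultiplicity a := by
  have h1 : ∏ a ∈ s, (X - C a) ^ P.rootMultiplicity a = (P.roots.map (X - C ·)).prod := by
    rw [Finset.prod_multiset_map_count]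
    symm
    refine Finset.prod_subset_one_on_sdiff hs (fun a ha => ?_) fun a _ => by rw [count_roots]
    rw [← count_roots, Multiset.count_eq_zero_of_notMem, pow_zero]
    simpa using (Finset.mem_sdiff.1 ha).2
  rw [h1]
  exact (IsAlgClosed.splits P).eq_prod_roots

/-- A rational function all of whose finite orders are divisible by m is an m-th power. -/
theorem exists_pow_eq_ratFunc {k : Type} [Field k] [IsAlgClosed k] (m : ℕ) (hm : 0 < m)
    (P Q : k[X]) (hP : P ≠ 0) (hQ : Q ≠ 0)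
    (h : ∀ a : k, (P.rootMultiplicity a : ℤ) ≡ Q.rootMultiplicity a [ZMOD m]) :
    ∃ g : RatFunc k, g ≠ 0 ∧
      algebraMap k[X] (RatFunc k) P = g ^ m * algebraMap k[X] (RatFunc k) Q := by
  classical
  choose t ht using fun a => (h a).symm.dvd
  obtain ⟨c, hc⟩ := IsAlgClosed.exists_pow_nat_eq (P.leadingCoeff / Q.leadingCoeff) hm
  have hP' := leadingCoeff_ne_zero.2 hP
  have hQ' := leadingCoeff_ne_zero.2 hQ
  have hc0 : c ≠ 0 := by
    rintro rfl
    rw [zero_pow hm.ne'] at hc
    exact div_ne_zero hP' hQ' hc.symm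
  have hc1 : P.leadingCoeff = c ^ m * Q.leadingCoeff := by
    rw [hc, div_mul_cancel₀ _ hQ']
  let ι := algebraMap k[X] (RatFunc k)
  have hι : Function.Injective ι := IsFractionRing.injective _ _
  have hX : ∀ a : k, ι (X - C a) ≠ 0 := fun a => (map_ne_zero_iff ι hι).2 (X_sub_C_ne_zero a)
  let s := P.roots.toFinset ∪ Q.roots.toFinset
  refine ⟨ι (C c) * ∏ a ∈ s, ι (X - C a) ^ t a,
    mul_ne_zero ((map_ne_zero_iff ι hι).2 (C_ne_zero.2 hc0))
      (Finset.prod_ne_zero_iff.2 fun a _ => zpow_ne_zero _ (hX a)), ?_⟩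
  have e1 := congrArg ι (eq_prod_VF0 P s Finset.subset_union_left)
  have e2 := congrArg ι (eq_prod_VF0 Q s Finset.subset_union_right)
  change ι P = _ * ι Q
  rw [e1, e2, hc1, map_mul, map_mul, map_mul, map_mul, map_prod, map_prod, mul_pow,
    ← Finset.prod_pow, map_pow, map_pow, mul_mul_mul_comm, ← Finset.prod_mul_distrib]
  congr 1
  refine Finset.prod_congr rfl fun a _ => ?_
  rw [map_pow, map_pow, ← zpow_natCast, ← zpow_natCast, ← zpow_natCast, ← zpow_mul,
    ← zpow_add₀ (hX a)]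
  congr 1
  linear_combination ht a

end Pool.Agent.Adm

end

section

/-! Kummer and Artin-Schreier generators of an affine covering. -/

namespace Pool.Agent.Adm

open scoped OnePoint
open Polynomial

variable {k G F : Type} [Field k] [Group G] [Field F] [Fintype F]

theorem Cover.lab_aux_VF1 (c : Cover k G) (θ : F →+* k) (χ : G →* Fˣ) (y : c.L) (P Q : k[X])
    (hP : P ≠ 0) (hQ : Q ≠ 0)
    (hy : ∀ σ : c.L ≃ₐ[RatFunc k] c.L,
      σ y = algebraMap (RatFunc k) c.L (RatFunc.C (θ (χ (c.ι σ)))) * y)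
    (hm : y ^ (Fintype.card F - 1) * algebraMap (RatFunc k) c.L (algebraMap k[X] (RatFunc k) Q) =
      algebraMap (RatFunc k) c.L (algebraMap k[X] (RatFunc k) P))
    (a : OnePoint k) (e : ℕ) (ζ : k) (g : G) (h : c.Mono a e ζ g) :
    ∃ r : ℤ, ((Fintype.card F - 1 : ℕ) : ℤ) * r +
        (Q.eval₂ HahnSeries.C (expand a e)).order = (P.eval₂ HahnSeries.C (expand a e)).order ∧
      θ (χ g) = ζ ^ r := by
  obtain ⟨he, hζ, j, h1, h2, σ, h3, h4⟩ := h
  have hζ0 : ζ ≠ 0 := hζ.ne_zero he.ne'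
  have hJ : ∀ R : k[X], j (algebraMap (RatFunc k) c.L (algebraMap k[X] (RatFunc k) R)) =
      R.eval₂ HahnSeries.C (expand a e) := fun R =>
    hom_algebraMap (j.comp (algebraMap (RatFunc k) c.L)) HahnSeries.C (expand a e) h1 h2 R
  have hm' := congrArg j hm
  rw [map_mul, map_pow, hJ, hJ] at hm'
  have hP' := eval₂_expand_ne_zero a e he P hP
  have hQ' := eval₂_expand_ne_zero a e he Q hQ
  have hpow : j y ^ (Fintype.card F - 1) ≠ 0 := by
    intro h0
    rw [h0, zero_mul] at hm'
    exact hP' hm'.symm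
  have hcard : Fintype.card F - 1 ≠ 0 := by
    have := Fintype.one_lt_card (α := F)
    omega
  have hy0 : j y ≠ 0 := fun h0 => hpow (by rw [h0, zero_pow hcard])
  refine ⟨(j y).order, ?_, ?_⟩
  · rw [← hm', HahnSeries.order_mul hpow hQ', HahnSeries.order_pow, nsmul_eq_mul]
  · apply eigen_eq_zpow ζ hζ0 (j y) hy0
    have h5 : scL ζ hζ0 (j y) = j (σ y) := by
      ext n
      rw [scL_coeff, h4]
    rw [h5, hy σ, map_mul, h1, h3]

/-- Labels read off from a Kummer generator. -/
theorem Cover.lab_of_gen (c : Cover k G) (θ : F →+* k) (χ : G →* Fˣ) (y : c.L) (P Q : k[X])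
    (hP : P ≠ 0) (hQ : Q ≠ 0)
    (hy : ∀ σ : c.L ≃ₐ[RatFunc k] c.L,
      σ y = algebraMap (RatFunc k) c.L (RatFunc.C (θ (χ (c.ι σ)))) * y)
    (hm : y ^ (Fintype.card F - 1) * algebraMap (RatFunc k) c.L (algebraMap k[X] (RatFunc k) Q) =
      algebraMap (RatFunc k) c.L (algebraMap k[X] (RatFunc k) P)) :
    (∀ (a : k) e ζ g, c.Mono (a : OnePoint k) e ζ g → Lab (Fintype.card F - 1) e ζ (θ (χ g))
      ((P.rootMultiplicity a : ℤ) - Q.rootMultiplicity a)) ∧
    ∀ e ζ g, c.Mono ∞ e ζ g → Lab (Fintype.card F - 1) e ζ (θ (χ g))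
      (-(P.natDegree : ℤ) + Q.natDegree) := by
  refine ⟨fun a e ζ g h => ?_, fun e ζ g h => ?_⟩
  · obtain ⟨r, hr, hc⟩ := c.lab_aux_VF1 θ χ y P Q hP hQ hy hm a e ζ g h
    rw [order_eval₂_expand_coe a e h.1 P hP, order_eval₂_expand_coe a e h.1 Q hQ] at hr
    exact ⟨r, 0, by linear_combination hr, hc⟩
  · obtain ⟨r, hr, hc⟩ := c.lab_aux_VF1 θ χ y P Q hP hQ hy hm ∞ e ζ g h
    rw [order_eval₂_expand_infty e h.1 P hP, order_eval₂_expand_infty e h.1 Q hQ] at hr
    exact ⟨r, 0, by linear_combination hr, hc⟩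

/-- Normalised generators. -/
theorem Cover.exists_norm_gens [IsAlgClosed k] (c : Cover k G) (θ : F →+* k) (ψ : G →* Aff F)
    (f : k[X]) (hf : f ≠ 0)
    (hS : ∀ a : k, ∃ e ζ g, c.Mono (a : OnePoint k) e ζ g ∧
      Lab (Fintype.card F - 1) e ζ (θ (ψ g).u) (f.rootMultiplicity a)) :
    ∃ y w : c.L,
      y ^ (Fintype.card F - 1) = algebraMap (RatFunc k) c.L (algebraMap k[X] (RatFunc k) f) ∧
      (∀ σ : c.L ≃ₐ[RatFunc k] c.L,
        σ y = algebraMap (RatFunc k) c.L (RatFunc.C (θ (ψ (c.ι σ)).u)) * y) ∧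
      ∀ σ : c.L ≃ₐ[RatFunc k] c.L,
        σ w = algebraMap (RatFunc k) c.L (RatFunc.C (θ (ψ (c.ι σ)).u)) * w +
          algebraMap (RatFunc k) c.L (RatFunc.C (θ (ψ (c.ι σ)).b)) := by
  obtain ⟨y0, w, hy0, h1, h2⟩ := exists_gens (K := RatFunc k) (L := c.L)
    ((RatFunc.C : k →+* RatFunc k).comp θ) (ψ.comp c.ι)
  simp only [RingHom.comp_apply, MonoidHom.comp_apply] at h1 h2
  have hcard : 0 < Fintype.card F - 1 := by
    have := Fintype.one_lt_card (α := F)
    omega
  have hfix : ∀ σ : c.L ≃ₐ[RatFunc k] c.L,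
      σ (y0 ^ (Fintype.card F - 1)) = y0 ^ (Fintype.card F - 1) := by
    intro σ
    rw [map_pow, h1 σ, mul_pow, ← map_pow, ← map_pow, ← map_pow,
      FiniteField.pow_card_sub_one_eq_one _ (Units.ne_zero _), map_one, map_one, map_one, one_mul]
  obtain ⟨R, hR⟩ := (IsGalois.mem_range_algebraMap_iff_fixed (F := RatFunc k)
    (y0 ^ (Fintype.card F - 1))).2 hfix
  have hR0 : R ≠ 0 := by
    rintro rfl
    rw [map_zero] at hR
    exact pow_ne_zero _ hy0 hR.symm
  have hP : R.num ≠ 0 := RatFunc.num_ne_zero hR0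
  have hQ : R.denom ≠ 0 := RatFunc.denom_ne_zero R
  have hQ' : algebraMap k[X] (RatFunc k) R.denom ≠ 0 := RatFunc.algebraMap_ne_zero hQ
  have hRQ : R * algebraMap k[X] (RatFunc k) R.denom = algebraMap k[X] (RatFunc k) R.num :=
    ((div_eq_iff hQ').1 (RatFunc.num_div_denom R)).symm
  have hm : y0 ^ (Fintype.card F - 1) *
      algebraMap (RatFunc k) c.L (algebraMap k[X] (RatFunc k) R.denom) =
      algebraMap (RatFunc k) c.L (algebraMap k[X] (RatFunc k) R.num) := by
    rw [← hR, ← map_mul, hRQ]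
  have hlab := (c.lab_of_gen θ (Aff.lin.comp ψ) y0 R.num R.denom hP hQ h1 hm).1
  obtain ⟨g, hg0, hg⟩ := exists_pow_eq_ratFunc (Fintype.card F - 1) hcard R.num (R.denom * f) hP
    (mul_ne_zero hQ hf) (by
      intro a
      obtain ⟨e, ζ, g, hM, hL⟩ := hS a
      have h3 := Lab.unique hM.1 hM.2.1 hL (hlab a e ζ g hM)
      rw [Polynomial.rootMultiplicity_mul (mul_ne_zero hQ hf)]
      push_cast
      have h4 := (h3.symm.add_left (R.denom.rootMultiplicity a : ℤ))
      rwa [add_sub_cancel] at h4)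
  have hg' : algebraMap (RatFunc k) c.L g ≠ 0 := (_root_.map_ne_zero _).2 hg0
  have hRg : R = g ^ (Fintype.card F - 1) * algebraMap k[X] (RatFunc k) f := by
    apply mul_right_cancel₀ hQ'
    rw [hRQ, hg, map_mul]
    ring
  refine ⟨y0 / algebraMap (RatFunc k) c.L g, w, ?_, fun σ => ?_, h2⟩
  · rw [div_pow, ← hR, div_eq_iff (pow_ne_zero _ hg'), hRg, map_mul, map_pow, mul_comm]
  · rw [map_div₀, h1 σ, AlgEquiv.commutes, mul_div_assoc]

end Pool.Agent.Adm

end

section

/-! Local-global principle for the twisted Artin-Schreier equation. -/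

namespace Pool.Agent.Adm

open scoped OnePoint
open Polynomial

variable {k F : Type} [Field k] [Field F] [Fintype F]
  {J : OnePoint k → RatFunc k →+* LaurentSeries k}

theorem van_mul_VF5 {x y : LaurentSeries k} {a b : ℤ} (hx : ∀ n < a, x.coeff n = 0)
    (hy : ∀ n < b, y.coeff n = 0) : ∀ n < a + b, (x * y).coeff n = 0 := by
  intro n hn
  rw [HahnSeries.coeff_mul]
  refine Finset.sum_eq_zero fun ij hij => ?_
  rw [Finset.mem_antidiagonal] at hij
  by_cases h1 : ij.1 < a
  · rw [hx _ h1, zero_mul]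
  · rw [hy ij.2 (by have := hij.2.2; omega), mul_zero]

theorem van_pow_VF5 {x : LaurentSeries k} {a : ℤ} (hx : ∀ n < a, x.coeff n = 0) (m : ℕ) :
    ∀ n < m * a, (x ^ m).coeff n = 0 := by
  induction m with
  | zero =>
    intro n hn
    rw [pow_zero, HahnSeries.coeff_one, if_neg (by omega)]
  | succ m ih =>
    intro n hn
    rw [pow_succ]
    exact van_mul_VF5 ih hx n (by push_cast at hn; linarith)

theorem IsCharts.van_infty_VF5 (hJ : IsCharts J) (f : k[X]) {d : ℕ} (hd : f.natDegree ≤ d) :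
    ∀ n < -(d : ℤ), (J ∞ (algebraMap k[X] (RatFunc k) f)).coeff n = 0 := by
  intro n hn
  rw [hJ.coeff_infty, if_pos (by omega)]
  exact coeff_eq_zero_of_natDegree_lt (by omega)

theorem sum_pow_card_VF5 {W : Type} [CommRing W] (θ : F →+* W) (g : ℕ → W) (m : ℕ) :
    (∑ i ∈ Finset.range m, g i) ^ Fintype.card F =
      ∑ i ∈ Finset.range m, g i ^ Fintype.card F := by
  induction m with
  | zero => simp
  | succ m ih => rw [Finset.sum_range_succ, Finset.sum_range_succ, add_pow_card_of_hom θ, ih]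

theorem IsCharts.poly_eq_zero (hJ : IsCharts J) (θ : F →+* k) (f P : k[X]) (V : LaurentSeries k)
    (hV : ∀ n ≤ 0, V.coeff n = 0)
    (hD : f.natDegree ≤ Fintype.card F - 1 ∨
      (f.natDegree ≤ 2 * (Fintype.card F - 1) ∧ f.coeff (Fintype.card F - 1) = 0))
    (h : V ^ Fintype.card F * J ∞ (algebraMap k[X] (RatFunc k) f) - V =
      J ∞ (algebraMap k[X] (RatFunc k) P)) : P = 0 := by
  have hq : 1 < Fintype.card F := Fintype.one_lt_card
  have key : ∀ n < 1, (V ^ Fintype.card F * J ∞ (algebraMap k[X] (RatFunc k) f)).coeff n = 0 := by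
    rcases hD with hD | ⟨hD, h0⟩
    · intro n hn
      exact van_mul_VF5 (van_pow_VF5 (a := 1) (fun n hn => hV n (by omega)) _)
        (hJ.van_infty_VF5 f hD) n (by omega)
    · obtain ⟨R, hR⟩ : ∃ R, R = V - HahnSeries.single 1 (V.coeff 1) := ⟨_, rfl⟩
      have hR2 : ∀ n < 2, R.coeff n = 0 := by
        intro n hn
        rw [hR, HahnSeries.coeff_sub]
        by_cases h1 : n = 1
        · rw [h1, HahnSeries.coeff_single_same, sub_self]
        · rw [HahnSeries.coeff_single_of_ne h1, hV n (by omega), sub_zero]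
      have hR3 : ∀ n < 2,
          (R ^ Fintype.card F * J ∞ (algebraMap k[X] (RatFunc k) f)).coeff n = 0 := by
        intro n hn
        exact van_mul_VF5 (van_pow_VF5 hR2 _) (hJ.van_infty_VF5 f hD) n (by omega)
      have hVR : V = HahnSeries.single 1 (V.coeff 1) + R := by rw [hR, add_sub_cancel]
      have h1 := congrArg (fun w : LaurentSeries k => w.coeff 1) h
      have h2 : V ^ Fintype.card F = HahnSeries.single (Fintype.card F : ℤ)
          (V.coeff 1 ^ Fintype.card F) + R ^ Fintype.card F := by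
        conv_lhs => rw [hVR, add_pow_card_of_hom (HahnSeries.C.comp θ), HahnSeries.single_pow]
        simp
      have h3 : (HahnSeries.single (Fintype.card F : ℤ) (V.coeff 1 ^ Fintype.card F) *
          J ∞ (algebraMap k[X] (RatFunc k) f)).coeff 1 = 0 := by
        rw [HahnSeries.coeff_single_mul, hJ.coeff_infty, if_pos (by omega)]
        have : (-(1 - (Fintype.card F : ℤ))).toNat = Fintype.card F - 1 := by omega
        rw [this, h0, mul_zero]
      simp only [HahnSeries.coeff_sub] at h1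
      rw [h2, add_mul, HahnSeries.coeff_add, h3, hR3 1 (by omega), hJ.coeff_infty,
        if_neg (by omega), add_zero, zero_sub, neg_eq_zero] at h1
      rw [h1, map_zero, zero_add] at hVR
      intro n hn
      rw [hVR]
      exact hR3 n (by omega)
  ext m
  have h1 := congrArg (fun w : LaurentSeries k => w.coeff (-(m : ℤ))) h
  simp only [HahnSeries.coeff_sub] at h1
  rw [key _ (by omega), hV _ (by omega), hJ.coeff_infty, if_pos (by omega), sub_zero] at h1
  simpa using h1.symm

theorem IsCharts.exists_global [IsAlgClosed k] (hJ : IsCharts J) (θ : F →+* k) (f : k[X])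
    (hD : f.natDegree ≤ Fintype.card F - 1 ∨
      (f.natDegree ≤ 2 * (Fintype.card F - 1) ∧ f.coeff (Fintype.card F - 1) = 0))
    (h : RatFunc k)
    (hloc : ∀ a, ∃ V, V ^ Fintype.card F * J a (algebraMap k[X] (RatFunc k) f) - V = J a h) :
    ∃ r : RatFunc k, r ^ Fintype.card F * algebraMap k[X] (RatFunc k) f - r = h := by
  classical
  have shift : ∀ (a : OnePoint k) (h r : RatFunc k) (V : LaurentSeries k),
      V ^ Fintype.card F * J a (algebraMap k[X] (RatFunc k) f) - V = J a h →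
      (V - J a r) ^ Fintype.card F * J a (algebraMap k[X] (RatFunc k) f) - (V - J a r) =
        J a (h - (r ^ Fintype.card F * algebraMap k[X] (RatFunc k) f - r)) := by
    intro a h r V hV
    rw [sub_pow_card_of_hom (HahnSeries.C.comp θ), map_sub, map_sub, map_mul, map_pow, ← hV]
    ring
  obtain ⟨S, hS⟩ := hJ.exists_finset h
  induction S using Finset.induction_on generalizing h with
  | empty =>
    obtain ⟨P, rfl⟩ := hJ.exists_poly h fun a => hS a (Finset.notMem_empty a)
    obtain ⟨V, hV⟩ := hloc ∞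
    obtain ⟨Q, hQ⟩ := hJ.exists_polar_infty V
    have h1 := shift ∞ _ (algebraMap k[X] (RatFunc k) Q) V hV
    rw [← map_pow, ← map_mul, ← map_sub, ← map_sub] at h1
    have h2 := hJ.poly_eq_zero θ f _ _ hQ hD h1
    refine ⟨algebraMap k[X] (RatFunc k) Q, ?_⟩
    rw [← map_pow, ← map_mul, ← map_sub, sub_eq_zero.1 h2]
  | insert a S ha ih =>
    obtain ⟨V, hV⟩ := hloc a
    obtain ⟨r, hr, hr'⟩ := hJ.exists_polar a V
    obtain ⟨r', h'⟩ := ih (h - (r ^ Fintype.card F * algebraMap k[X] (RatFunc k) f - r))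
      (fun b => by
        obtain ⟨W, hW⟩ := hloc b
        exact ⟨_, shift b h r W hW⟩)
      (fun b hb => by
        by_cases e : b = a
        · subst e
          rw [← shift b h r V hV]
          exact ((hr.pow _).mul (hJ.reg_poly b f)).sub hr
        · rw [map_sub, map_sub, map_mul, map_pow]
          exact (hS b (by simp [e, hb])).sub
            ((((hr' b e).pow _).mul (hJ.reg_poly b f)).sub (hr' b e)))
    refine ⟨r + r', ?_⟩
    rw [add_pow_card_of_hom (RatFunc.C.comp θ)]
    linear_combination h'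

/-- Descent of a solution from k((z)) to k((z^e)). -/
theorem exists_sol_descend (θ : F →+* k) (e : ℕ) (he : 0 < e) (ζ : k) (hζ : IsPrimitiveRoot ζ e)
    (A B x : LaurentSeries k) (h : x ^ Fintype.card F * powL e he A - x = powL e he B) :
    ∃ V : LaurentSeries k, V ^ Fintype.card F * A - V = B := by
  have hz : ζ ≠ 0 := hζ.ne_zero he.ne'
  have : NeZero e := ⟨he.ne'⟩
  have he0 : (e : k) ≠ 0 := hζ.neZero'.out
  obtain ⟨g, hg⟩ : ∃ g : ℕ → LaurentSeries k, ∀ i, g i = scL (ζ ^ i) (pow_ne_zero _ hz) x :=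
    ⟨_, fun _ => rfl⟩
  have fix : ∀ (i : ℕ) (y : LaurentSeries k),
      scL (ζ ^ i) (pow_ne_zero _ hz) (powL e he y) = powL e he y := by
    intro i y
    rw [scL_powL]
    congr 1
    ext n
    rw [scL_coeff, ← pow_mul, mul_comm i e, pow_mul, hζ.pow_eq_one, one_pow, one_zpow, one_mul]
  have h1 : ∀ i, g i ^ Fintype.card F * powL e he A - g i = powL e he B := by
    intro i
    rw [hg, ← fix i A, ← map_pow, ← map_mul, ← map_sub, h, fix]
  have h2 : ∀ i, scL ζ hz (g i) = g (i + 1) := by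
    intro i
    rw [hg, hg, scL_scL]
    ext n
    rw [scL_coeff, scL_coeff, pow_succ']
  have h3 : g e = g 0 := by
    rw [hg, hg]
    ext n
    rw [scL_coeff, scL_coeff, hζ.pow_eq_one, pow_zero]
  have h4 : scL ζ hz (∑ i ∈ Finset.range e, g i) = ∑ i ∈ Finset.range e, g i := by
    rw [map_sum, Finset.sum_congr rfl fun i _ => h2 i]
    have := (Finset.sum_range_succ g e).symm.trans (Finset.sum_range_succ' g e)
    rw [h3] at this
    exact (add_right_cancel this).symm
  have h5 : ((e : k)⁻¹) ^ Fintype.card F = (e : k)⁻¹ := by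
    rw [← map_natCast θ, ← map_inv₀, ← map_pow, FiniteField.pow_card]
  obtain ⟨V, hV⟩ := exists_powL_of_scL e he ζ hζ
    (HahnSeries.C (e : k)⁻¹ * ∑ i ∈ Finset.range e, g i) (by rw [map_mul, scL_C, h4])
  refine ⟨V, (powL e he).injective ?_⟩
  rw [map_sub, map_mul, map_pow, hV, mul_pow, ← map_pow, h5,
    sum_pow_card_VF5 (HahnSeries.C.comp θ), mul_assoc, ← mul_sub, Finset.sum_mul,
    ← Finset.sum_sub_distrib, Finset.sum_congr rfl fun i _ => h1 i, Finset.sum_const,
    Finset.card_range, nsmul_eq_mul, ← mul_assoc,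
    ← map_natCast (HahnSeries.C : k →+* LaurentSeries k), ← map_mul, inv_mul_cancel₀ he0, map_one,
    one_mul]

end Pool.Agent.Adm

end

section

/-! Affine coverings of one component with labels given by a polynomial. -/

namespace Pool.Agent.Adm

open scoped OnePoint
open Polynomial

variable {k G F : Type} [Field k] [IsAlgClosed k] [Group G] [Field F] [Fintype F]

theorem Cover.vertex_poly (c : Cover k G) (θ : F →+* k) (ψ : G →* Aff F) (f : k[X]) (hf : f ≠ 0)
    (hinf : ∃ e ζ g, c.Mono ∞ e ζ g)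
    (hS : ∀ a : k, ∃ e ζ g, c.Mono (a : OnePoint k) e ζ g ∧
      Lab (Fintype.card F - 1) e ζ (θ (ψ g).u) (f.rootMultiplicity a)) :
    (∀ e ζ g, c.Mono ∞ e ζ g → Lab (Fintype.card F - 1) e ζ (θ (ψ g).u) (-(f.natDegree : ℤ))) ∧
    ((f.natDegree ≤ Fintype.card F - 1 ∨
      (f.natDegree ≤ 2 * (Fintype.card F - 1) ∧ f.coeff (Fintype.card F - 1) = 0)) →
        Aff.HasFix (c.ι.range.map ψ)) ∧
    (f.natDegree = 0 → c.ι.range.map ψ = ⊥) := by
  obtain ⟨y, w, hy, hσy, hσw⟩ := c.exists_norm_gens θ ψ f hf hS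
  have hq : 1 < Fintype.card F := Fintype.one_lt_card
  let Θ : F →+* c.L := (algebraMap (RatFunc k) c.L).comp (RatFunc.C.comp θ)
  have hΘ : ∀ x, algebraMap (RatFunc k) c.L (RatFunc.C (θ x)) = Θ x := fun _ => rfl
  have hΘσ : ∀ (σ : c.L ≃ₐ[RatFunc k] c.L) x, σ (Θ x) = Θ x := fun σ x => σ.commutes _
  have hΘq : ∀ x, Θ x ^ Fintype.card F = Θ x := fun x => by
    rw [← map_pow, FiniteField.pow_card]
  simp only [hΘ] at hσy hσw
  have hy0 : y ≠ 0 := by
    rintro rfl
    rw [zero_pow (by omega), eq_comm, map_eq_zero] at hy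
    exact RatFunc.algebraMap_ne_zero hf hy
  have hyq : y ^ Fintype.card F =
      algebraMap (RatFunc k) c.L (algebraMap k[X] (RatFunc k) f) * y := by
    rw [← hy, ← pow_succ, Nat.sub_add_cancel hq.le]
  have key : (f.natDegree ≤ Fintype.card F - 1 ∨
      (f.natDegree ≤ 2 * (Fintype.card F - 1) ∧ f.coeff (Fintype.card F - 1) = 0)) →
        Aff.HasFix (c.ι.range.map ψ) := by
    intro hD
    obtain ⟨h, hh⟩ : ∃ h, algebraMap (RatFunc k) c.L h = (w ^ Fintype.card F - w) / y := by
      refine (IsGalois.mem_range_algebraMap_iff_fixed _).2 fun σ => ?_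
      have := (map_ne_zero Θ).2 (ψ (c.ι σ)).u.ne_zero
      rw [map_div₀, map_sub, map_pow, hσw, hσy, add_pow_card_of_hom Θ, mul_pow, hΘq, hΘq]
      field_simp
      ring
    have hv : (w / y) ^ Fintype.card F *
        algebraMap (RatFunc k) c.L (algebraMap k[X] (RatFunc k) f) - w / y =
          algebraMap (RatFunc k) c.L h := by
      have h1 : algebraMap (RatFunc k) c.L (algebraMap k[X] (RatFunc k) f) ≠ 0 := by
        rw [← hy]
        exact pow_ne_zero _ hy0
      rw [hh, div_pow, hyq]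
      field_simp
    obtain ⟨J, hJ⟩ := exists_isCharts k
    obtain ⟨r, hr⟩ := hJ.exists_global θ f hD h fun a => by
      obtain ⟨e, ζ, g, he, hζ, j, h1, h2, -⟩ : ∃ e ζ g, c.Mono a e ζ g := by
        induction a using OnePoint.rec with
        | infty => exact hinf
        | coe a => exact (hS a).imp fun e => Exists.imp fun ζ => Exists.imp fun g => And.left
      have e1 : j.comp (algebraMap (RatFunc k) c.L) = (powL e he).comp (J a) :=
        ratFunc_hom_ext _ _ (fun x => by simp [h1, (hJ a).1, powL_single])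
          (by simp [h2, (hJ a).2, powL_expand])
      have e2 : ∀ x, j (algebraMap (RatFunc k) c.L x) = powL e he (J a x) := fun x =>
        DFunLike.congr_fun e1 x
      refine exists_sol_descend θ e he ζ hζ _ _ (j (w / y)) ?_
      rw [← e2, ← e2, ← hv, map_sub, map_mul, map_pow]
    have h3 := congrArg (algebraMap (RatFunc k) c.L) hr
    rw [map_sub, map_mul, map_pow, hh, eq_div_iff hy0] at h3
    obtain ⟨β, hβ⟩ := exists_eq_of_pow_card Θ (w - algebraMap (RatFunc k) c.L r * y) (by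
      rw [sub_pow_card_of_hom Θ, mul_pow, hyq]
      linear_combination -h3)
    refine ⟨β, ?_⟩
    rintro _ ⟨_, ⟨σ, rfl⟩, rfl⟩
    have h4 := congrArg σ hβ
    rw [hΘσ, map_sub, map_mul, hσw, hσy, σ.commutes] at h4
    refine Θ.injective ?_
    rw [map_add, map_mul]
    linear_combination Θ (ψ (c.ι σ)).u * hβ - h4
  refine ⟨fun e ζ g hg => ?_, key, fun h0 => ?_⟩
  · simpa using (c.lab_of_gen θ (Aff.lin.comp ψ) y f 1 hf one_ne_zero hσy
      (by simpa using hy)).2 e ζ g hg
  · obtain ⟨β, hβ⟩ := key (.inl (h0 ▸ Nat.zero_le _))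
    obtain ⟨d, hd⟩ := IsAlgClosed.exists_pow_nat_eq (f.coeff 0)
      (n := Fintype.card F - 1) (by omega)
    rw [eq_C_of_natDegree_eq_zero h0, ← hd, RatFunc.algebraMap_C, map_pow, map_pow] at hy
    have hd0 : algebraMap (RatFunc k) c.L (RatFunc.C d) ≠ 0 := fun e => by
      rw [e, zero_pow (by omega)] at hy
      exact pow_ne_zero _ hy0 hy
    obtain ⟨a, ha⟩ := exists_unit_of_pow_card_sub_one Θ
      (y / algebraMap (RatFunc k) c.L (RatFunc.C d))
      (by rw [div_pow, hy, div_self (pow_ne_zero _ hd0)])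
    rw [eq_bot_iff]
    rintro _ ⟨_, ⟨σ, rfl⟩, rfl⟩
    have h1 : σ y = y := by
      rw [eq_div_iff hd0] at ha
      rw [← ha, map_mul, hΘσ, σ.commutes]
    have h2 : (ψ (c.ι σ)).u = 1 := by
      rw [hσy, mul_eq_right₀ hy0, ← map_one Θ] at h1
      exact Units.ext (Θ.injective h1)
    have h3 := hβ _ ⟨_, ⟨σ, rfl⟩, rfl⟩
    rw [Aff.Fixes, h2, Units.val_one, one_mul, add_eq_left] at h3
    exact Aff.ext h2 h3

end Pool.Agent.Adm

end

section

/-! Affine coverings of one component with prescribed labels. -/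

namespace Pool.Agent.Adm

open scoped OnePoint
open Polynomial

variable {k G F : Type} [Field k] [IsAlgClosed k] [Group G] [Field F] [Fintype F]

omit [IsAlgClosed k] in
theorem rootMultiplicity_prod_X_sub_C {ι : Type} [Fintype ι] (a : ι → k)
    (ha : Function.Injective a) (n : ι → ℕ) :
    (∀ i, (∏ j, (X - C (a j)) ^ n j : k[X]).rootMultiplicity (a i) = n i) ∧
      (∀ x, x ∉ Set.range a → (∏ j, (X - C (a j)) ^ n j : k[X]).rootMultiplicity x = 0) ∧
      (∏ j, (X - C (a j)) ^ n j : k[X]).natDegree = ∑ j, n j ∧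
      (∏ j, (X - C (a j)) ^ n j : k[X]).Monic := by
  classical
  have hm : ∀ s : Finset ι, (∏ j ∈ s, (X - C (a j)) ^ n j : k[X]).Monic := fun s =>
    monic_prod_of_monic _ _ fun j _ => (monic_X_sub_C _).pow _
  have h0 : ∀ (s : Finset ι) (x : k), (∀ j ∈ s, x ≠ a j) →
      (∏ j ∈ s, (X - C (a j)) ^ n j : k[X]).rootMultiplicity x = 0 := fun s x h => by
    refine rootMultiplicity_eq_zero ?_
    rw [IsRoot.def, eval_prod]
    refine Finset.prod_ne_zero_iff.2 fun j hj => ?_
    rw [eval_pow, eval_sub, eval_X, eval_C]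
    exact pow_ne_zero _ (sub_ne_zero.2 (h j hj))
  refine ⟨fun i => ?_, fun x hx => h0 _ x fun j _ e => hx ⟨j, e.symm⟩, ?_, hm _⟩
  · rw [← Finset.prod_erase_mul _ _ (Finset.mem_univ i),
      rootMultiplicity_mul_X_sub_C_pow (hm _).ne_zero,
      h0 _ _ fun j hj e => (Finset.mem_erase.1 hj).1 (ha e).symm, zero_add]
  · rw [natDegree_prod_of_monic _ _ fun j _ => (monic_X_sub_C _).pow _]
    exact Finset.sum_congr rfl fun j _ => by
      rw [(monic_X_sub_C _).natDegree_pow, natDegree_X_sub_C, mul_one]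

theorem Cover.vertex (c : Cover k G) (θ : F →+* k) (ψ : G →* Aff F) {ι : Type} [Fintype ι]
    (a : ι → k) (ha : Function.Injective a) (n : ι → ℕ) (S : Set (OnePoint k)) (hT : c.Tame S)
    (hS : ∀ x : k, (x : OnePoint k) ∈ S → x ∈ Set.range a)
    (hl : ∀ i, ∃ e ζ g, c.Mono (a i : OnePoint k) e ζ g ∧
      Lab (Fintype.card F - 1) e ζ (θ (ψ g).u) (n i)) :
    (∀ e ζ g, c.Mono ∞ e ζ g →
      Lab (Fintype.card F - 1) e ζ (θ (ψ g).u) (-((∑ i, n i : ℕ) : ℤ))) ∧
    ((∑ i, n i ≤ Fintype.card F - 1 ∨ (∑ i, n i ≤ 2 * (Fintype.card F - 1) ∧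
      (∏ j, (X - C (a j)) ^ n j : k[X]).coeff (Fintype.card F - 1) = 0)) →
        Aff.HasFix (c.ι.range.map ψ)) ∧
    (∑ i, n i = 0 → c.ι.range.map ψ = ⊥) := by
  obtain ⟨h1, h2, h3, h4⟩ := rootMultiplicity_prod_X_sub_C a ha n
  rw [← h3]
  refine c.vertex_poly θ ψ _ h4.ne_zero ((hT ∞).imp fun _ h => h.imp fun _ h =>
    h.imp fun _ h => h.1) fun x => ?_
  by_cases hx : x ∈ Set.range a
  · obtain ⟨i, rfl⟩ := hx
    rw [h1]
    exact hl i
  · obtain ⟨e, ζ, g, h5, h6⟩ := hT x
    refine ⟨e, ζ, g, h5, ?_⟩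
    rw [h2 x hx, h6 fun h => hx (hS x h), map_one, Aff.one_u, Units.val_one, map_one]
    exact lab_one _ _ _

/-- Characters of a connected tame covering of the line are bounded in number. -/
theorem Cover.card_hom_le (c : Cover k G) (θ : F →+* k) (hc : c.ι.range = ⊤) {r : ℕ}
    (a : Fin r → k) (S : Set (OnePoint k)) (hT : c.Tame S)
    (hS : ∀ x : k, (x : OnePoint k) ∈ S → x ∈ Set.range a) :
    Finite (G →* Fˣ) ∧ Nat.card (G →* Fˣ) ≤ Fintype.card F ^ r := by
  choose e ζ g hm hg using hT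
  have hi : Function.Injective fun (χ : G →* Fˣ) (i : Fin r) => (χ (g (a i)) : F) := by
    intro χ χ' h
    have h1 := (c.vertex_poly θ (Aff.inl.comp (χ / χ')) 1 one_ne_zero ⟨_, _, _, hm ∞⟩
      fun x => ⟨_, _, _, hm x, ?_⟩).2.2 natDegree_one
    · ext y : 1
      have h2 : (Aff.inl.comp (χ / χ')) y ∈ c.ι.range.map (Aff.inl.comp (χ / χ')) :=
        Subgroup.mem_map_of_mem _ (hc ▸ Subgroup.mem_top y)
      rw [h1, Subgroup.mem_bot] at h2
      exact div_eq_one.1 (congrArg Aff.u h2)
    · have h2 : ((Aff.inl.comp (χ / χ')) (g x)).u = 1 := by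
        by_cases hx : x ∈ Set.range a
        · obtain ⟨i, rfl⟩ := hx
          exact div_eq_one.2 (Units.ext (congrFun h i))
        · rw [hg x fun h => hx (hS x h), map_one, Aff.one_u]
      rw [h2, Units.val_one, map_one, ← C_1, rootMultiplicity_C]
      exact lab_one _ _ _
  refine ⟨Finite.of_injective _ hi, (Nat.card_le_card_of_injective _ hi).trans_eq ?_⟩
  rw [Nat.card_fun, Nat.card_eq_fintype_card, Nat.card_eq_fintype_card, Fintype.card_fin]

end Pool.Agent.Adm

end

section

/-! The Kummer-Artin-Schreier extension. -/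

namespace Pool.Agent.Adm

theorem step_EX2 {F K Ω : Type} [Field F] [Fintype F] [Field K] [Field Ω] [Algebra K Ω]
    (θ : F →+* K) (f h : K) (y w y' w' : Ω) (hy0 : y ≠ 0)
    (hy : y ^ (Fintype.card F - 1) = algebraMap K Ω f)
    (hw : w ^ Fintype.card F - w = algebraMap K Ω h * y)
    (hy' : y' ^ (Fintype.card F - 1) = algebraMap K Ω f)
    (hw' : w' ^ Fintype.card F - w' = algebraMap K Ω h * y') :
    ∃ g : Aff F, y' = algebraMap K Ω (θ g.u) * y ∧
      w' = algebraMap K Ω (θ g.u) * w + algebraMap K Ω (θ g.b) := by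
  let φ : F →+* Ω := (algebraMap K Ω).comp θ
  have h1 : (y' / y) ^ (Fintype.card F - 1) = 1 := by
    rw [div_pow, hy', ← hy, div_self (pow_ne_zero _ hy0)]
  obtain ⟨a, ha⟩ := exists_unit_of_pow_card_sub_one φ _ h1
  have ha' : y' = φ a * y := by rw [ha, div_mul_cancel₀ _ hy0]
  have haq : φ a ^ Fintype.card F = φ a := by rw [← map_pow, FiniteField.pow_card]
  have h2 : (w' - φ a * w) ^ Fintype.card F = w' - φ a * w := by
    rw [sub_pow_card_of_hom φ, mul_pow, haq]
    rw [ha'] at hw'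
    linear_combination hw' - φ a * hw
  obtain ⟨b, hb⟩ := exists_eq_of_pow_card φ _ h2
  refine ⟨⟨a, b⟩, ha', ?_⟩
  change w' = φ a * w + φ b
  rw [hb]
  ring

theorem uniq_EX2 {F K Ω : Type} [Field F] [Field K] [Field Ω] [Algebra K Ω]
    (θ : F →+* K) (y w : Ω) (hy0 : y ≠ 0) (g g' : Aff F)
    (h1 : algebraMap K Ω (θ g.u) * y = algebraMap K Ω (θ g'.u) * y)
    (h2 : algebraMap K Ω (θ g.u) * w + algebraMap K Ω (θ g.b) =
      algebraMap K Ω (θ g'.u) * w + algebraMap K Ω (θ g'.b)) : g = g' := by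
  have e1 := mul_right_cancel₀ hy0 h1
  rw [e1] at h2
  have e2 := add_left_cancel h2
  exact Aff.ext (Units.ext (θ.injective ((algebraMap K Ω).injective e1)))
    (θ.injective ((algebraMap K Ω).injective e2))

theorem conj_EX2 {K Ω Ω' : Type} [Field K] [Field Ω] [Algebra K Ω] [Field Ω'] [Algebra K Ω']
    (q : ℕ) (f h : K) (y w : Ω) (σ : Ω →ₐ[K] Ω')
    (hy : y ^ (q - 1) = algebraMap K Ω f)
    (hw : w ^ q - w = algebraMap K Ω h * y) :
    σ y ^ (q - 1) = algebraMap K Ω' f ∧ σ w ^ q - σ w = algebraMap K Ω' h * σ y := by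
  constructor
  · rw [← map_pow, hy, AlgHom.commutes]
  · rw [← map_pow, ← map_sub, hw, map_mul, AlgHom.commutes]

theorem hom_EX2 {F K L : Type} [Field F] [Fintype F] [Field K] [Field L] [Algebra K L]
    (θ : F →+* K) (f h : K) (y w : L) (hy0 : y ≠ 0)
    (hy : y ^ (Fintype.card F - 1) = algebraMap K L f)
    (hw : w ^ Fintype.card F - w = algebraMap K L h * y) :
    ∃ ι : (L ≃ₐ[K] L) →* Aff F, (∀ σ : L ≃ₐ[K] L, σ y = algebraMap K L (θ (ι σ).u) * y) ∧
      ∀ σ : L ≃ₐ[K] L, σ w = algebraMap K L (θ (ι σ).u) * w + algebraMap K L (θ (ι σ).b) := by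
  have key : ∀ σ : L ≃ₐ[K] L, ∃ g : Aff F, σ y = algebraMap K L (θ g.u) * y ∧
      σ w = algebraMap K L (θ g.u) * w + algebraMap K L (θ g.b) := fun σ =>
    step_EX2 θ f h y w (σ y) (σ w) hy0 hy hw (conj_EX2 _ f h y w (σ : L →ₐ[K] L) hy hw).1
      (conj_EX2 _ f h y w (σ : L →ₐ[K] L) hy hw).2
  choose i hi1 hi2 using key
  refine ⟨MonoidHom.mk' i fun σ τ => uniq_EX2 θ y w hy0 _ _ ?_ ?_, hi1, hi2⟩
  · rw [← hi1, AlgEquiv.mul_apply, hi1 τ, map_mul, AlgEquiv.commutes, hi1 σ]
    simp only [Aff.mul_u, Units.val_mul, map_mul]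
    ring
  · rw [← hi2, AlgEquiv.mul_apply, hi2 τ, map_add, map_mul, AlgEquiv.commutes, AlgEquiv.commutes,
      hi2 σ]
    simp only [Aff.mul_u, Aff.mul_b, Units.val_mul, map_mul, map_add]
    ring

open Polynomial in
theorem sepAS_EX2 {E Ω : Type} [Field E] [Field Ω] [Algebra E Ω] (q : ℕ) (hq : (q : E) = 0)
    (c : E) (w : Ω) (hw : w ^ q - w = algebraMap E Ω c) : IsSeparable E w := by
  have hs : Separable (X ^ q - X - C c : E[X]) := by
    have hd : derivative (X ^ q - X - C c : E[X]) = -1 := by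
      simp [derivative_X_pow, hq]
    rw [Separable, hd]
    exact isCoprime_one_right.neg_right
  refine hs.of_dvd (minpoly.dvd E w ?_)
  simp [hw]

open Polynomial in
theorem exists_AS_EX2 {Ω : Type} [Field Ω] [IsAlgClosed Ω] (q : ℕ) (hq : 1 < q) (c : Ω) :
    ∃ w : Ω, w ^ q - w = c := by
  have hd : (X ^ q - X - C c : Polynomial Ω).degree = q := by
    have : (X ^ q - X - C c : Polynomial Ω) = X ^ q - (X + C c) := by ring
    rw [this, degree_sub_eq_left_of_degree_lt, degree_X_pow]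
    rw [degree_X_add_C, degree_X_pow]
    exact_mod_cast hq
  obtain ⟨w, hw⟩ := IsAlgClosed.exists_root (X ^ q - X - C c : Polynomial Ω) (by
    rw [hd]
    exact_mod_cast (by omega : q ≠ 0))
  refine ⟨w, ?_⟩
  have : w ^ q - w - c = 0 := by simpa using hw
  exact sub_eq_zero.1 this

open IntermediateField Polynomial in
theorem gal_EX2 {F K Ω : Type} [Field F] [Fintype F] [Field K] [Field Ω] [Algebra K Ω]
    [Normal K Ω] (θ : F →+* K) (f h : K) (hf : f ≠ 0) (y w : Ω) (hy0 : y ≠ 0)
    (hy : y ^ (Fintype.card F - 1) = algebraMap K Ω f)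
    (hw : w ^ Fintype.card F - w = algebraMap K Ω h * y) :
    FiniteDimensional K (adjoin K {y, w}) ∧ IsGalois K (adjoin K {y, w}) := by
  have sy : IsSeparable K y := by
    refine (separable_X_pow_sub_C f (card_sub_one_cast_ne_zero θ) hf).of_dvd
      (minpoly.dvd K y ?_)
    simp [hy]
  have sw : IsSeparable K w := by
    have := (isSeparable_adjoin_simple_iff_isSeparable K Ω).2 sy
    refine IsSeparable.of_algebra_isSeparable_of_isSeparable K (E := K⟮y⟯) ?_
    refine sepAS_EX2 (Fintype.card F) (card_cast_eq_zero ((algebraMap K K⟮y⟯).comp θ))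
      (algebraMap K K⟮y⟯ h * AdjoinSimple.gen K y) w ?_
    rw [hw, map_mul, AdjoinSimple.algebraMap_gen, ← IsScalarTower.algebraMap_apply]
  have sep : ∀ x ∈ ({y, w} : Set Ω), IsSeparable K x := by
    rintro x (rfl | rfl)
    exacts [sy, sw]
  have hsep : Algebra.IsSeparable K (adjoin K {y, w}) :=
    (isSeparable_adjoin_iff_isSeparable K Ω).2 sep
  have hnor : Normal K (adjoin K {y, w}) := by
    rw [normal_iff_forall_map_le]
    intro σ
    obtain ⟨c1, c2⟩ := conj_EX2 _ f h y w σ hy hw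
    obtain ⟨g, g1, g2⟩ := step_EX2 θ f h y w (σ y) (σ w) hy0 hy hw c1 c2
    have my : y ∈ adjoin K ({y, w} : Set Ω) := subset_adjoin _ _ (by simp)
    have mw : w ∈ adjoin K ({y, w} : Set Ω) := subset_adjoin _ _ (by simp)
    rw [adjoin_map, adjoin_le_iff]
    rintro _ ⟨x, (rfl | rfl), rfl⟩
    · rw [g1]
      exact mul_mem (IntermediateField.algebraMap_mem _ _) my
    · rw [g2]
      exact add_mem (mul_mem (IntermediateField.algebraMap_mem _ _) mw)
        (IntermediateField.algebraMap_mem _ _)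
  exact ⟨finiteDimensional_adjoin fun x hx => (sep x hx).isIntegral, IsGalois.mk⟩

theorem exists_affine_ext {k F : Type} [Field k] [Field F] [Fintype F] (θ : F →+* k)
    (f h : RatFunc k) (hf : f ≠ 0) :
    ∃ (c : Cover k (Aff F)) (y w : c.L),
      y ^ (Fintype.card F - 1) = algebraMap (RatFunc k) c.L f ∧
      w ^ Fintype.card F - w = algebraMap (RatFunc k) c.L h * y ∧
      IntermediateField.adjoin (RatFunc k) {y, w} = ⊤ ∧
      (∀ σ : c.L ≃ₐ[RatFunc k] c.L,
        σ y = algebraMap (RatFunc k) c.L (RatFunc.C (θ (c.ι σ).u)) * y) ∧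
      ∀ σ : c.L ≃ₐ[RatFunc k] c.L,
        σ w = algebraMap (RatFunc k) c.L (RatFunc.C (θ (c.ι σ).u)) * w +
          algebraMap (RatFunc k) c.L (RatFunc.C (θ (c.ι σ).b)) := by
  have hq : 1 < Fintype.card F := Fintype.one_lt_card
  let Ω := AlgebraicClosure (RatFunc k)
  let θ' : F →+* RatFunc k := (RatFunc.C : k →+* RatFunc k).comp θ
  obtain ⟨y, hy⟩ := IsAlgClosed.exists_pow_nat_eq (algebraMap (RatFunc k) Ω f)
    (n := Fintype.card F - 1) (by omega)
  have hy0 : y ≠ 0 := by
    rintro rfl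
    rw [zero_pow (by omega)] at hy
    exact hf ((map_eq_zero _).1 hy.symm)
  obtain ⟨w, hw⟩ := exists_AS_EX2 _ hq (algebraMap (RatFunc k) Ω h * y)
  obtain ⟨hfin, hgal⟩ := gal_EX2 θ' f h hf y w hy0 hy hw
  let L := IntermediateField.adjoin (RatFunc k) ({y, w} : Set Ω)
  have my : y ∈ L := IntermediateField.subset_adjoin _ _ (by simp)
  have mw : w ∈ L := IntermediateField.subset_adjoin _ _ (by simp)
  have hy' : (⟨y, my⟩ : L) ^ (Fintype.card F - 1) = algebraMap (RatFunc k) L f :=
    Subtype.ext (by simpa using hy)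
  have hw' : (⟨w, mw⟩ : L) ^ Fintype.card F - ⟨w, mw⟩ = algebraMap (RatFunc k) L h * ⟨y, my⟩ :=
    Subtype.ext (by simpa using hw)
  have hy0' : (⟨y, my⟩ : L) ≠ 0 := fun e => hy0 (congrArg Subtype.val e)
  obtain ⟨ι, h1, h2⟩ := hom_EX2 θ' f h _ _ hy0' hy' hw'
  refine ⟨⟨L, ι⟩, ⟨y, my⟩, ⟨w, mw⟩, hy', hw', ?_, h1, h2⟩
  apply IntermediateField.lift_injective L
  rw [IntermediateField.lift_adjoin, IntermediateField.lift_top, Set.image_pair]

end Pool.Agent.Adm

end

section

/-! Compositum of two coverings. -/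

namespace Pool.Agent.Adm

open scoped OnePoint

/-- The compositum of two finite Galois extensions. -/
theorem exists_compositum_PR (F L1 L2 : Type) [Field F] [Field L1] [Field L2] [Algebra F L1]
    [Algebra F L2] [FiniteDimensional F L1] [FiniteDimensional F L2] [IsGalois F L1]
    [IsGalois F L2] :
    ∃ (L : Type) (_ : Field L) (_ : Algebra F L) (_ : FiniteDimensional F L) (_ : IsGalois F L)
      (f1 : L1 →ₐ[F] L) (f2 : L2 →ₐ[F] L),
      ∀ K : IntermediateField F L, (∀ x, f1 x ∈ K) → (∀ x, f2 x ∈ K) → K = ⊤ := by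
  let Ω := AlgebraicClosure F
  let g1 : L1 →ₐ[F] Ω := IsAlgClosed.lift
  let g2 : L2 →ₐ[F] Ω := IsAlgClosed.lift
  let e1 : L1 ≃ₐ[F] g1.fieldRange := AlgEquiv.ofInjectiveField g1
  let e2 : L2 ≃ₐ[F] g2.fieldRange := AlgEquiv.ofInjectiveField g2
  have : FiniteDimensional F g1.fieldRange := e1.toLinearEquiv.finiteDimensional
  have : FiniteDimensional F g2.fieldRange := e2.toLinearEquiv.finiteDimensional
  have : IsGalois F g1.fieldRange := IsGalois.of_algEquiv e1
  have : IsGalois F g2.fieldRange := IsGalois.of_algEquiv e2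
  let M : IntermediateField F Ω := g1.fieldRange ⊔ g2.fieldRange
  have hG : IsGalois F M := ⟨⟩
  refine ⟨M, inferInstance, inferInstance, inferInstance, hG,
    (IntermediateField.inclusion le_sup_left).comp e1.toAlgHom,
    (IntermediateField.inclusion le_sup_right).comp e2.toAlgHom, fun K h1 h2 => ?_⟩
  have h3 : M ≤ K.map M.val := by
    refine sup_le ?_ ?_
    · rintro _ ⟨x, rfl⟩
      exact ⟨_, h1 x, rfl⟩
    · rintro _ ⟨x, rfl⟩
      exact ⟨_, h2 x, rfl⟩
  refine top_le_iff.1 fun x _ => ?_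
  obtain ⟨y, hy, e⟩ := h3 x.2
  rwa [← show y = x from Subtype.ext e]

/-- Two embeddings which agree on the base extend to the compositum after a twist. -/
theorem exists_chart_PR {F L1 L2 L W : Type} [Field F] [Field L1] [Field L2] [Field L] [Field W]
    [Algebra F L1] [Algebra F L2] [Algebra F L] [FiniteDimensional F L] [Normal F L2]
    (f1 : L1 →ₐ[F] L) (f2 : L2 →ₐ[F] L)
    (hK : ∀ K : IntermediateField F L, (∀ x, f1 x ∈ K) → (∀ x, f2 x ∈ K) → K = ⊤)
    (j1 : L1 →+* W) (j2 : L2 →+* W)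
    (h : ∀ x, j1 (algebraMap F L1 x) = j2 (algebraMap F L2 x)) :
    ∃ (j : L →+* W) (τ : L2 ≃ₐ[F] L2), (∀ x, j (f1 x) = j1 x) ∧ ∀ x, j (f2 x) = j2 (τ x) := by
  let : Algebra L1 L := f1.toRingHom.toAlgebra
  have : IsScalarTower F L1 L := IsScalarTower.of_algebraMap_eq fun x => (f1.commutes x).symm
  have : Algebra.IsAlgebraic L1 L := Algebra.IsAlgebraic.tower_top (K := F) L1
  have hS : IntermediateField.adjoin L1 (Set.range f2) = ⊤ := by
    have := hK ((IntermediateField.adjoin L1 (Set.range f2)).restrictScalars F)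
      (fun x => (IntermediateField.adjoin L1 (Set.range f2)).algebraMap_mem x)
      (fun x => IntermediateField.subset_adjoin L1 _ ⟨x, rfl⟩)
    exact (IntermediateField.restrictScalars_eq_top_iff).1 this
  obtain ⟨j, hj⟩ := exists_extension j1 (Set.range f2) hS (fun J hJ => by
    rintro _ ⟨x, rfl⟩
    obtain ⟨σ, hσ⟩ := exists_aut_of_normal (F := F)
      ((algebraMap W (AlgebraicClosure W)).comp j2) (J.comp f2.toRingHom) (fun y => by
        change J (f2 (algebraMap F L2 y)) = algebraMap W _ (j2 (algebraMap F L2 y))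
        rw [← h, ← hJ, f2.commutes, ← f1.commutes]
        rfl)
    exact ⟨j2 (σ x), hσ x⟩)
  obtain ⟨τ, hτ⟩ := exists_aut_of_normal (F := F) j2 (j.comp f2.toRingHom) (fun y => by
    change j (f2 (algebraMap F L2 y)) = j2 (algebraMap F L2 y)
    rw [← h, ← hj, f2.commutes, ← f1.commutes]
    rfl)
  exact ⟨j, τ, hj, fun x => (hτ x).symm⟩

/-- Restriction of automorphisms to a normal subextension. -/
theorem exists_restrict_PR {F L1 L : Type} [Field F] [Field L1] [Field L] [Algebra F L1]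
    [Algebra F L] [Normal F L1] [Normal F L] (f : L1 →ₐ[F] L) :
    ∃ r : (L ≃ₐ[F] L) →* (L1 ≃ₐ[F] L1), Function.Surjective r ∧
      ∀ σ x, f (r σ x) = σ (f x) := by
  let : Algebra L1 L := f.toRingHom.toAlgebra
  have : IsScalarTower F L1 L := IsScalarTower.of_algebraMap_eq fun x => (f.commutes x).symm
  exact ⟨AlgEquiv.restrictNormalHom L1, AlgEquiv.restrictNormalHom_surjective L,
    fun σ x => AlgEquiv.restrictNormal_commutes σ L1 x⟩

theorem exists_product {k G1 G2 : Type} [Field k] [Group G1] [Group G2] (c1 : Cover k G1)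
    (c2 : Cover k G2) :
    ∃ c : Cover k (G1 × G2), c.ι.range.map (MonoidHom.fst G1 G2) = c1.ι.range ∧
      c.ι.range.map (MonoidHom.snd G1 G2) = c2.ι.range ∧
      ∀ (a : OnePoint k) (e1 e2 : ℕ) (ξ : k) (g1 : G1) (g2 : G2), IsPrimitiveRoot ξ (e1 * e2) →
        c1.Mono a e1 (ξ ^ e2) g1 → c2.Mono a e2 (ξ ^ e1) g2 →
        ∃ u : G2, c.Mono a (e1 * e2) ξ (g1, u⁻¹ * g2 * u) := by
  obtain ⟨L, _, _, _, _, f1, f2, hK⟩ := exists_compositum_PR (RatFunc k) c1.L c2.L
  obtain ⟨r1, hr1, hf1⟩ := exists_restrict_PR f1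
  obtain ⟨r2, hr2, hf2⟩ := exists_restrict_PR f2
  let c : Cover k (G1 × G2) := { L := L, ι := (c1.ι.comp r1).prod (c2.ι.comp r2) }
  refine ⟨c, ?_, ?_, ?_⟩
  · ext g
    constructor
    · rintro ⟨_, ⟨σ, rfl⟩, rfl⟩
      exact ⟨r1 σ, rfl⟩
    · rintro ⟨σ, rfl⟩
      obtain ⟨σ, rfl⟩ := hr1 σ
      exact ⟨_, ⟨σ, rfl⟩, rfl⟩
  · ext g
    constructor
    · rintro ⟨_, ⟨σ, rfl⟩, rfl⟩
      exact ⟨r2 σ, rfl⟩
    · rintro ⟨σ, rfl⟩
      obtain ⟨σ, rfl⟩ := hr2 σ
      exact ⟨_, ⟨σ, rfl⟩, rfl⟩
  · intro a e1 e2 ξ g1 g2 hξ h1 h2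
    have he1 := h1.1
    have he2 := h2.1
    have he : 0 < e1 * e2 := Nat.mul_pos he1 he2
    obtain ⟨j1, a1, b1, σ1, rfl, d1⟩ := h1.rmono
    obtain ⟨j2, a2, b2, σ2, rfl, d2⟩ := h2.rmono
    have hb : ((powL e2 he2).comp j1).comp (algebraMap (RatFunc k) c1.L) =
        ((powL e1 he1).comp j2).comp (algebraMap (RatFunc k) c2.L) :=
      ratFunc_hom_ext _ _ (fun x => by simp only [RingHom.comp_apply, a1, a2, powL_C])
        (by simp [b1, b2, powL_expand, mul_comm])
    obtain ⟨j, τ, k1, k2⟩ := exists_chart_PR f1 f2 hK ((powL e2 he2).comp j1)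
      ((powL e1 he1).comp j2) (fun x => DFunLike.congr_fun hb x)
    obtain ⟨σ, m, hσ⟩ := c.exists_mono_of_chart a (e1 * e2) he ξ hξ j
      (fun x => by
        change j (algebraMap (RatFunc k) L _) = _
        rw [← f1.commutes, k1]
        simp only [RingHom.comp_apply, a1, powL_C])
      (by
        change j (algebraMap (RatFunc k) L _) = _
        rw [← f1.commutes, k1]
        simp [b1, powL_expand, mul_comm])
    have s1 : r1 σ = σ1 := by
      ext x
      apply ((powL e2 he2).comp j1).injective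
      rw [← k1, hf1, hσ, k1]
      simp only [RingHom.comp_apply]
      rw [scL_powL, d1]
    have s2 : r2 σ = τ⁻¹ * σ2 * τ := by
      rw [mul_assoc, eq_inv_mul_iff_mul_eq]
      ext x
      apply ((powL e1 he1).comp j2).injective
      rw [AlgEquiv.mul_apply, AlgEquiv.mul_apply, ← k2, hf2, hσ, k2]
      simp only [RingHom.comp_apply]
      rw [scL_powL, d2]
    refine ⟨c2.ι τ, ?_⟩
    have e : c.ι σ = (c1.ι σ1, (c2.ι τ)⁻¹ * c2.ι σ2 * c2.ι τ) := by
      change (c1.ι (r1 σ), c2.ι (r2 σ)) = _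
      rw [s1, s2, map_mul, map_mul, map_inv]
    rwa [e] at m

end Pool.Agent.Adm

end

section

/-! One line, and renumbering. -/

namespace Pool.Agent.AdmG

open Pool.Agent.Adm
open scoped OnePoint

variable {k ι ι' : Type} [Field k]

/-- The line with marked points a. -/
def vtx_Real1 (a : ι → OnePoint k) (ha : Function.Injective a) (h3 : 2 < Nat.card ι) :
    RC k ι where
  V := Unit
  ne := ⟨()⟩
  E := Empty
  pt := Sum.elim (Sum.elim Empty.elim Empty.elim) fun i => ((), a i)
  inj := by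
    rintro ((e | e) | i) ((e' | e') | j) h
    all_goals first | exact e.elim | exact e'.elim | skip
    exact congrArg Sum.inr (ha (congrArg Prod.snd h))
  conn := fun _ _ => Relation.EqvGen.refl _
  card := rfl
  stable := fun v => by
    refine h3.trans_eq (Nat.card_congr ?_)
    exact
      { toFun := fun i => ⟨.inr i, rfl⟩
        invFun := fun h => Sum.elim (Sum.elim Empty.elim Empty.elim) id h.1
        left_inv := fun _ => rfl
        right_inv := by
          rintro ⟨(e | e) | i, h⟩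
          · exact e.elim
          · exact e.elim
          · rfl }
  gauge := fun _ _ _ => ⟨fun _ => 1, fun ε => ε.elim⟩

theorem range_vtx_Real1 (a : ι → OnePoint k) (ha : Function.Injective a) (h3 : 2 < Nat.card ι)
    (v : Unit) : {b | (v, b) ∈ Set.range (vtx_Real1 a ha h3).pt} = Set.range a := by
  ext b
  constructor
  · rintro ⟨(e | e) | i, h⟩
    · exact e.elim
    · exact e.elim
    · exact ⟨i, congrArg Prod.snd h⟩
  · rintro ⟨i, rfl⟩
    exact ⟨.inr i, rfl⟩

theorem RC.exists_vtx [Finite ι] (a : ι → OnePoint k) (ha : Function.Injective a)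
    (h3 : 2 < Nat.card ι) : ∃ X : RC k ι, X.Adm = vtx a := by
  refine ⟨vtx_Real1 a ha h3, ?_⟩
  funext G _ d H
  refine propext ⟨?_, ?_⟩
  · rintro ⟨c, h1, -, h2, h4⟩
    refine ⟨c (), ?_, h2, ?_⟩
    · exact range_vtx_Real1 a ha h3 () ▸ h1 ()
    · rw [← h4]
      exact (iSup_unique (ι := Unit) (f := fun v => (c v).ι.range)).symm
  · rintro ⟨c, h1, h2, h4⟩
    refine ⟨fun _ => c, fun v => ?_, fun ε => ε.elim, h2, ?_⟩
    · exact (range_vtx_Real1 a ha h3 v).symm ▸ h1
    · rw [← h4]
      exact iSup_unique (ι := Unit) (f := fun _ => c.ι.range)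

/-- Renumbering of the marked points of a tree. -/
def reidx_Real1 (e : ι ≃ ι') (X : RC k ι) : RC k ι' where
  V := X.V
  ne := X.ne
  E := X.E
  pt := X.pt ∘ Equiv.sumCongr (Equiv.refl _) e.symm
  inj := X.inj.comp (Equiv.injective _)
  conn := X.conn
  card := X.card
  stable := fun v => (X.stable v).trans_eq (Nat.card_congr
    (Equiv.subtypeEquiv (Equiv.sumCongr (Equiv.refl _) e.symm) fun _ => Iff.rfl).symm)
  gauge := X.gauge

theorem RC.exists_reidx (e : ι ≃ ι') (X : RC k ι) : ∃ Y : RC k ι', Y.Adm = reidx e X.Adm := by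
  refine ⟨reidx_Real1 e X, ?_⟩
  have hr : Set.range (reidx_Real1 e X).pt = Set.range X.pt :=
    (Equiv.surjective _).range_comp X.pt
  funext G _ d H
  refine propext ⟨?_, ?_⟩
  · rintro ⟨c, h1, h2, h3, h4⟩
    refine ⟨c, fun v => hr ▸ h1 v, h2, fun i => ?_, h4⟩
    have := h3 (e i)
    have e1 : (reidx_Real1 e X).pt (.inr (e i)) = X.pt (.inr i) :=
      congrArg (fun j => X.pt (.inr j)) (e.symm_apply_apply i)
    rw [e1] at this
    exact this
  · rintro ⟨c, h1, h2, h3, h4⟩
    refine ⟨c, fun v => hr.symm ▸ h1 v, h2, fun i => ?_, h4⟩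
    have := h3 (e.symm i)
    simp only [Equiv.apply_symm_apply] at this
    exact this

end Pool.Agent.AdmG

end

section

/-! Reparametrisation at infinity. -/

namespace Pool.Agent.Adm

theorem rescale_expand_TR0 {k : Type} [Field k] (e : ℕ) (he : e ≠ 0) (ζ : k) (hζ : ζ ^ e = 1)
    (v : PowerSeries k) :
    PowerSeries.rescale ζ (PowerSeries.expand e he v) = PowerSeries.expand e he v := by
  ext n
  rw [PowerSeries.coeff_rescale, PowerSeries.coeff_expand]
  split_ifs with h
  · obtain ⟨m, rfl⟩ := h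
    rw [pow_mul, hζ, one_pow, one_mul]
  · rw [mul_zero]

theorem exists_phi_TR0 {k : Type} [Field k] [IsAlgClosed k] (e : ℕ) (he : (e : k) ≠ 0) (b : k) :
    ∃ φ : PowerSeries k, PowerSeries.constantCoeff φ = 0 ∧ φ ≠ 0 ∧
      φ ^ e * (1 + PowerSeries.C b * PowerSeries.X ^ e) = PowerSeries.X ^ e ∧
      ∀ ζ : k, ζ ^ e = 1 → PowerSeries.rescale ζ φ = ζ • φ := by
  have he0 : e ≠ 0 := by
    rintro rfl
    exact he (by simp)
  have hu : PowerSeries.constantCoeff (1 + PowerSeries.C b * PowerSeries.X : PowerSeries k) ≠ 0 := by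
    simp
  obtain ⟨v, hv⟩ := exists_pow_eq_ps e he
    ((1 + PowerSeries.C b * PowerSeries.X : PowerSeries k)⁻¹)
    (by rw [PowerSeries.constantCoeff_inv]; exact inv_ne_zero hu)
  have h1 : v ^ e * (1 + PowerSeries.C b * PowerSeries.X) = 1 := by
    rw [hv]; exact PowerSeries.inv_mul_cancel _ hu
  have h2 : (PowerSeries.expand e he0 v) ^ e * (1 + PowerSeries.C b * PowerSeries.X ^ e) = 1 := by
    have := congrArg (PowerSeries.expand e he0) h1
    rwa [map_mul, map_pow, map_add, map_one, map_mul, PowerSeries.expand_C,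
      PowerSeries.expand_X] at this
  refine ⟨PowerSeries.X * PowerSeries.expand e he0 v, by simp, ?_, ?_, ?_⟩
  · refine mul_ne_zero PowerSeries.X_ne_zero ?_
    intro h0
    rw [h0, zero_pow he0, zero_mul] at h2
    exact zero_ne_one h2
  · rw [mul_pow, mul_assoc, h2, mul_one]
  · intro ζ hζ
    rw [map_mul, rescale_expand_TR0 e he0 ζ hζ, PowerSeries.rescale_X, PowerSeries.smul_eq_C_mul,
      mul_assoc]

/-- A reparametrisation of k((z)) sending z^(-e) to z^(-e) + b, commuting with z ↦ ζ z. -/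
theorem exists_reparam {k : Type} [Field k] [IsAlgClosed k] (e : ℕ) (he : (e : k) ≠ 0) (b : k) :
    ∃ Φ : LaurentSeries k →+* LaurentSeries k, (∀ c, Φ (HahnSeries.C c) = HahnSeries.C c) ∧
      Φ (HahnSeries.single (-(e : ℤ)) 1) = HahnSeries.single (-(e : ℤ)) 1 + HahnSeries.C b ∧
      ∀ (ζ : k) (h : ζ ≠ 0), ζ ^ e = 1 → ∀ x, Φ (scL ζ h x) = scL ζ h (Φ x) := by
  obtain ⟨φ, hφ0, hφne, hφe, hφζ⟩ := exists_phi_TR0 e he b
  have hs : PowerSeries.HasSubst φ := PowerSeries.HasSubst.of_constantCoeff_zero' hφ0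
  let S : PowerSeries k →+* PowerSeries k :=
    (PowerSeries.substAlgHom (R := k) hs : PowerSeries k →ₐ[k] PowerSeries k)
  have hS : ∀ f, S f = PowerSeries.subst φ f := fun f =>
    congrFun (PowerSeries.coe_substAlgHom (R := k) hs) f
  have hSX : S PowerSeries.X = φ := by rw [hS, PowerSeries.subst_X hs]
  have hSC : ∀ c : k, S (PowerSeries.C c) = PowerSeries.C c := fun c => by
    rw [hS, PowerSeries.subst_C]; rfl
  let ι : PowerSeries k →+* LaurentSeries k := HahnSeries.ofPowerSeries ℤ k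
  have hι : Function.Injective ι := HahnSeries.ofPowerSeries_injective
  have hιφ : ι φ ≠ 0 := fun h0 => hφne (hι (by rw [h0, map_zero]))
  have hunit : ∀ y : Submonoid.powers (PowerSeries.X : PowerSeries k),
      IsUnit ((ι.comp S) y) := by
    rintro ⟨y, n, rfl⟩
    simp only [RingHom.comp_apply, map_pow, hSX]
    exact (pow_ne_zero n hιφ).isUnit
  let Φ : LaurentSeries k →+* LaurentSeries k := IsLocalization.lift hunit
  have hΦ : ∀ f : PowerSeries k, Φ (ι f) = ι (S f) := fun f =>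
    IsLocalization.lift_eq hunit f
  have hιC : ∀ c : k, ι (PowerSeries.C c) = HahnSeries.C c := fun c =>
    HahnSeries.ofPowerSeries_C c
  have hιX : ι (PowerSeries.X ^ e) = HahnSeries.single (e : ℤ) 1 :=
    HahnSeries.ofPowerSeries_X_pow e
  have hinv : (HahnSeries.single (-(e : ℤ)) 1 : LaurentSeries k) * ι (PowerSeries.X ^ e) = 1 := by
    rw [hιX, HahnSeries.single_mul_single]
    simp
  refine ⟨Φ, fun c => ?_, ?_, fun ζ h hζ => ?_⟩
  · rw [← hιC, hΦ, hSC]
  · have h1 : Φ (HahnSeries.single (-(e : ℤ)) 1) * ι φ ^ e = 1 := by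
      have := congrArg Φ hinv
      rwa [map_mul, Φ.map_one, hΦ, map_pow S, hSX, map_pow ι] at this
    have h2 : ι φ ^ e * (1 + HahnSeries.C b * ι (PowerSeries.X ^ e)) = ι (PowerSeries.X ^ e) := by
      have := congrArg ι hφe
      rwa [map_mul, map_pow ι φ, map_add, map_one, map_mul, hιC] at this
    apply mul_right_cancel₀ (pow_ne_zero e hιφ)
    rw [h1]
    linear_combination (-(HahnSeries.single (-(e : ℤ)) 1 : LaurentSeries k)) * h2 +
      (HahnSeries.C b * ι φ ^ e - 1) * hinv
  · have hsc : ∀ f : PowerSeries k, scL ζ h (ι f) = ι (PowerSeries.rescale ζ f) := fun f =>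
      scL_coe ζ h f
    have hz : PowerSeries.HasSubst (ζ • PowerSeries.X : PowerSeries k) :=
      PowerSeries.HasSubst.smul_X' ζ
    have key : ∀ f : PowerSeries k,
        S (PowerSeries.rescale ζ f) = PowerSeries.rescale ζ (S f) := by
      intro f
      rw [hS, hS, PowerSeries.rescale_eq_subst ζ f, PowerSeries.rescale_eq_subst,
        PowerSeries.subst_comp_subst_apply hz hs, PowerSeries.subst_comp_subst_apply hs hz,
        ← PowerSeries.rescale_eq_subst ζ φ, hφζ ζ hζ, PowerSeries.subst_smul hs,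
        PowerSeries.subst_X hs]
    have : Φ.comp (scL ζ h) = (scL ζ h).comp Φ := by
      apply IsLocalization.ringHom_ext (Submonoid.powers (PowerSeries.X : PowerSeries k))
      refine RingHom.ext fun f => ?_
      change Φ (scL ζ h (ι f)) = scL ζ h (Φ (ι f))
      rw [hsc, hΦ, hΦ, hsc, key]
    exact fun x => DFunLike.congr_fun this x

end Pool.Agent.Adm

end

section

/-! Normalising a connected covering along a tree. -/

namespace Pool.Agent.AdmG

open Pool.Agent.Adm
open scoped OnePoint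

theorem RC.cl_of_cv {k J I : Type} [Field k] (X : RC k ((J ⊕ J) ⊕ I)) (G : Type) [Group G]
    (h : X.Cv G) : Cl X.Adm G := by
  obtain ⟨c, t, h1, h2, h3⟩ := h
  obtain ⟨u, hu⟩ := X.gauge G fun ε => t (.inl ε)
  choose e ζ x m1 m2 using h2
  let c' : X.V → Cover k G := fun v => (c v).map (MulAut.conj (u v)).toMonoidHom
  let t' : X.E ⊕ J → G := fun ε => u (X.src ε).1 * t ε * (u (X.tgt ε).1)⁻¹
  let y : X.E ⊕ J → Dat k G := fun ε => (e ε, ζ ε, u (X.src ε).1 * x ε * (u (X.src ε).1)⁻¹)
  have ht : ∀ v, (c' v).Tame {a | (v, a) ∈ Set.range X.pt} := fun v a => by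
    obtain ⟨n, ξ, g, a1, a2⟩ := h1 v a
    exact ⟨n, ξ, _, a1.map _, fun h => by rw [a2 h, map_one]⟩
  have n1 : ∀ ε, (c' (X.src ε).1).MD (X.src ε).2 (y ε) := fun ε => (m1 ε).map _
  have n2 : ∀ ε, (c' (X.tgt ε).1).MD (X.tgt ε).2
      (dinv (dpush (fun g => (t' ε)⁻¹ * g * t' ε) (y ε))) := fun ε => by
    have e1 : (t' ε)⁻¹ * (u (X.src ε).1 * x ε * (u (X.src ε).1)⁻¹) * t' ε =
        u (X.tgt ε).1 * ((t ε)⁻¹ * x ε * t ε) * (u (X.tgt ε).1)⁻¹ := by
      simp only [t']
      group
    change (c' (X.tgt ε).1).Mono (X.tgt ε).2 (e ε) (ζ ε)⁻¹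
      ((t' ε)⁻¹ * (u (X.src ε).1 * x ε * (u (X.src ε).1)⁻¹) * t' ε)
    rw [e1]
    exact (m2 ε).map _
  have n3 : ∀ ε, t' (.inl ε) = 1 := fun ε => by
    change u (X.pt (.inl (.inl ε))).1 * t (.inl ε) * (u (X.pt (.inl (.inr ε))).1)⁻¹ = 1
    rw [hu ε]
    group
  choose n ξ g m3 _ using fun i : I => ht (X.pt (.inr (.inr i))).1 (X.pt (.inr (.inr i))).2
  refine ⟨Sum.elim (Sum.elim (fun j => y (.inr j)) fun j =>
      dinv (dpush (fun g => (t' (.inr j))⁻¹ * g * t' (.inr j)) (y (.inr j))))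
    fun i => (n i, ξ i, g i), _, fun j => t' (.inr j),
    ⟨c', ht, fun ε => ⟨y (.inl ε), n1 (.inl ε), ?_⟩, ?_, rfl⟩, fun j => rfl, ?_⟩
  · have := n2 (.inl ε)
    simp only [n3, inv_one, one_mul, mul_one] at this
    exact this
  · rintro ((j | j) | i)
    exacts [n1 (.inr j), n2 (.inr j), m3 i]
  · obtain ⟨v⟩ := X.ne
    refine (Subgroup.eq_top_iff' _).2 fun z => ?_
    generalize hM : (⨆ v, (c' v).ι.range) ⊔ Subgroup.closure (Set.range fun j => t' (.inr j)) = M
    have key : ∀ a b : X.V × G, Relation.EqvGen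
        (fun a b => (a.1 = b.1 ∧ a.2⁻¹ * b.2 ∈ (c a.1).ι.range) ∨
          ∃ ε, a.1 = (X.src ε).1 ∧ b = ((X.tgt ε).1, a.2 * t ε)) a b →
        (a.2 * (u a.1)⁻¹)⁻¹ * (b.2 * (u b.1)⁻¹) ∈ M := by
      intro a b hab
      induction hab with
      | rel a b hab =>
        rcases hab with ⟨a1, σ, a2⟩ | ⟨ε, a1, rfl⟩
        · refine hM ▸ Subgroup.mem_sup_left (Subgroup.mem_iSup_of_mem a.1 ⟨σ, ?_⟩)
          change u a.1 * (c a.1).ι σ * (u a.1)⁻¹ = _
          rw [a2, ← a1]
          group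
        · have e1 : (a.2 * (u a.1)⁻¹)⁻¹ * (a.2 * t ε * (u (X.tgt ε).1)⁻¹) = t' ε := by
            simp only [t', a1]
            group
          rw [e1]
          rcases ε with ε | j
          · exact n3 ε ▸ M.one_mem
          · exact hM ▸ Subgroup.mem_sup_right (Subgroup.subset_closure ⟨j, rfl⟩)
      | refl a => exact inv_mul_cancel (a.2 * (u a.1)⁻¹) ▸ M.one_mem
      | symm a b _ ih => simpa only [mul_inv_rev, inv_inv, mul_assoc] using M.inv_mem ih
      | trans a b d _ _ ih1 ih2 =>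
        simpa only [mul_assoc, mul_inv_cancel_left] using M.mul_mem ih1 ih2
    simpa using key _ _ (h3 (v, u v) (v, z * u v))

end Pool.Agent.AdmG

end

section

/-! Generation implies connectedness. -/

namespace Pool.Agent.AdmG

open Pool.Agent.Adm
open scoped OnePoint

theorem conn_Close3 {V G : Type} [Group G] (v0 : V) {r : V × G → V × G → Prop}
    (hr : Equivalence r) (h1 : ∀ v w x, r (v, x) (w, x)) (S : Set G)
    (hS : Subgroup.closure S = ⊤) (h2 : ∀ s ∈ S, ∀ x, ∃ v w, r (v, x) (w, x * s)) (a b : V × G) :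
    r a b := by
  have h3 : ∀ g x, r (v0, x) (v0, x * g) := by
    intro g
    have hg : g ∈ Subgroup.closure S := by rw [hS]; trivial
    induction hg using Subgroup.closure_induction with
    | mem s hs =>
      intro x
      obtain ⟨v, w, h⟩ := h2 s hs x
      exact hr.trans (h1 _ _ _) (hr.trans h (h1 _ _ _))
    | one => intro x; rw [mul_one]; exact hr.refl _
    | mul g g' _ _ ih ih' => intro x; rw [← mul_assoc]; exact hr.trans (ih x) (ih' _)
    | inv g _ ih =>
      intro x
      have := ih (x * g⁻¹)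
      rw [inv_mul_cancel_right] at this
      exact hr.symm this
  have h4 := h3 (a.2⁻¹ * b.2) a.2
  rw [mul_inv_cancel_left] at h4
  exact hr.trans (h1 a.1 v0 a.2) (hr.trans h4 (h1 v0 b.1 b.2))

theorem RC.cv_of_cl {k J I : Type} [Field k] (X : RC k ((J ⊕ J) ⊕ I)) (G : Type) [Group G]
    (h : Cl X.Adm G) : X.Cv G := by
  obtain ⟨d, H, t, ⟨c, h1, h2, h3, h4⟩, h5, h6⟩ := h
  obtain ⟨v0⟩ := X.ne
  refine ⟨c, Sum.elim (fun _ => 1) t, h1, ?_, ?_⟩
  · rintro (ε | j)
    · obtain ⟨x, a, b⟩ := h2 ε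
      refine ⟨x.1, x.2.1, x.2.2, a, ?_⟩
      rw [Sum.elim_inl, inv_one, one_mul, mul_one]
      exact b
    · have a := h3 (.inl (.inl j))
      have b := h3 (.inl (.inr j))
      rw [h5] at b
      exact ⟨_, _, _, a, b⟩
  · refine conn_Close3 v0 (Relation.EqvGen.is_equivalence _) (fun v w x => ?_)
      ((⋃ v, ((c v).ι.range : Set G)) ∪ Set.range t) ?_ ?_
    · induction X.conn v w with
      | rel a b h =>
        obtain ⟨ε, rfl, rfl⟩ := h
        exact Relation.EqvGen.rel _ _ (Or.inr ⟨.inl ε, rfl, Prod.ext rfl (mul_one x).symm⟩)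
      | refl a => exact Relation.EqvGen.refl _
      | symm a b _ ih => exact ih.symm _ _
      | trans a b e _ _ ih ih' => exact ih.trans _ _ _ ih'
    · rw [Subgroup.closure_union, Subgroup.closure_iUnion]
      simpa only [Subgroup.closure_eq, h4] using h6
    · rintro s (hs | ⟨j, rfl⟩) x
      · obtain ⟨v, hv⟩ := Set.mem_iUnion.1 hs
        exact ⟨v, v, Relation.EqvGen.rel _ _ (Or.inl ⟨rfl, by rwa [inv_mul_cancel_left]⟩)⟩
      · exact ⟨_, _, Relation.EqvGen.rel _ _ (Or.inr ⟨.inr j, rfl, rfl⟩)⟩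

end Pool.Agent.AdmG

end

section

/-! Localisation of a ring at the nonzero polynomials. -/

namespace Pool.Agent.Adm

theorem exists_loc {C R : Type} [Field C] [CommRing R] (π : Polynomial C →+* R) :
    ∃ (Q : Type) (_ : CommRing Q) (a : R →+* Q) (κ : RatFunc C →+* Q),
      (∀ P, κ (algebraMap (Polynomial C) (RatFunc C) P) = a (π P)) ∧
      (∀ q : Q, ∃ d : Polynomial C, d ≠ 0 ∧ ∃ r : R, q * a (π d) = a r) ∧
      ∀ (W : Type) [Field W] (ψ0 : R →+* W), (∀ d : Polynomial C, d ≠ 0 → ψ0 (π d) ≠ 0) →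
        ∃ ψ : Q →+* W, (∀ r, ψ (a r) = ψ0 r) ∧ (Function.Injective ψ0 → Function.Injective ψ) ∧
          ∀ s : W →+* W, (∀ r, s (ψ0 r) = ψ0 r) → ∀ q, s (ψ q) = ψ q := by
  let M : Submonoid R := (nonZeroDivisors (Polynomial C)).map π
  have hu : ∀ d : nonZeroDivisors (Polynomial C),
      IsUnit (((algebraMap R (Localization M)).comp π) d) := fun d =>
    IsLocalization.map_units (Localization M) (⟨π d, d, d.2, rfl⟩ : M)
  have hs : ∀ q : Localization M, ∃ d : Polynomial C, d ≠ 0 ∧ ∃ r : R,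
      q * algebraMap R (Localization M) (π d) = algebraMap R (Localization M) r := fun q => by
    obtain ⟨⟨r, _, d, hd, rfl⟩, h⟩ := IsLocalization.surj M q
    exact ⟨d, nonZeroDivisors.ne_zero hd, r, h⟩
  refine ⟨Localization M, inferInstance, algebraMap R _, IsLocalization.lift hu,
    fun P => IsLocalization.lift_eq hu P, hs, fun W _ ψ0 h0 => ?_⟩
  have hv : ∀ y : M, IsUnit (ψ0 y) := by
    rintro ⟨_, d, hd, rfl⟩
    exact (h0 d (nonZeroDivisors.ne_zero hd)).isUnit
  have he : ∀ r, IsLocalization.lift hv (algebraMap R (Localization M) r) = ψ0 r :=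
    IsLocalization.lift_eq hv
  refine ⟨IsLocalization.lift hv, he, fun hi => (injective_iff_map_eq_zero _).2 fun q hq => ?_,
    fun s hs' q => ?_⟩
  · obtain ⟨d, hd, r, h⟩ := hs q
    have h1 := congrArg (IsLocalization.lift hv) h
    rw [map_mul, hq, zero_mul, he] at h1
    rw [hi (h1.symm.trans (map_zero ψ0).symm), map_zero] at h
    exact (hu ⟨d, mem_nonZeroDivisors_of_ne_zero hd⟩).mul_left_eq_zero.1 h
  · obtain ⟨d, hd, r, h⟩ := hs q
    have h1 := congrArg (IsLocalization.lift hv) h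
    rw [map_mul, he, he] at h1
    have h2 := congrArg s h1
    rw [map_mul, hs', hs'] at h2
    exact mul_right_cancel₀ (h0 d hd) (h2.trans h1.symm)

end Pool.Agent.Adm

end

section

/-! Notions used in the algebraic patching argument. -/

namespace Pool.Agent.Adm

variable {k G : Type} [Field k] [Group G] [Fintype G] [DecidableEq G]

/-- The columns of P form a basis of the G-Galois algebra induced from the covering c. -/
def Cover.IndBasis (c : Cover k G) (P : Matrix G G c.L) : Prop :=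
  IsUnit P ∧ ∀ (σ : c.L ≃ₐ[RatFunc k] c.L) (h i : G), P (c.ι σ * h) i = σ (P h i)

/-- A Q-algebra N generated as a module by elements b indexed by G, with endomorphisms ρ g. -/
structure Pkg (Q G : Type) [CommRing Q] [Fintype G] : Type 1 where
  N : Type
  [ring : CommRing N]
  i : Q →+* N
  b : G → N
  ρ : G → N →+* N
  span : ∀ n : N, ∃ v : G → Q, n = ∑ l, i (v l) * b l
  ρ_i : ∀ g q, ρ g (i q) = i q

attribute [instance] Pkg.ring

/-- Γ realises the package in functions on G with values in W. -/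
def Pkg.Real {Q W : Type} [CommRing Q] [CommRing W] (pk : Pkg Q G) (ψ : Q →+* W)
    (P : Matrix G G W) (Γ : pk.N →+* (G → W)) : Prop :=
  (∀ q h, Γ (pk.i q) h = ψ q) ∧ (∀ l h, Γ (pk.b l) h = P h l) ∧
    ∀ g n h, Γ (pk.ρ g n) h = Γ n (h * g)

end Pool.Agent.Adm

end

section

/-! Idempotents and equivariance. -/

namespace Pool.Agent.Adm

variable {k G : Type} [Field k] [Group G] [Fintype G] [DecidableEq G]

omit [DecidableEq G] in
theorem real_sum_Ind3 {Q W : Type} [CommRing Q] [CommRing W] {pk : Pkg Q G} {ψ : Q →+* W}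
    {P : Matrix G G W} {Γ : pk.N →+* (G → W)} (hΓ : pk.Real ψ P Γ) (v : G → Q) (h : G) :
    Γ (∑ l, pk.i (v l) * pk.b l) h = ∑ l, P h l * ψ (v l) := by
  rw [map_sum, Finset.sum_apply]
  refine Finset.sum_congr rfl fun l _ => ?_
  rw [map_mul, Pi.mul_apply, hΓ.1, hΓ.2.1, mul_comm]

/-- An idempotent coming from the package is a union of cosets of the decomposition group, and
it is the same in every realisation. -/
theorem Cover.idem_invariant (c : Cover k G) (P : Matrix G G c.L) (hP : c.IndBasis P) {Q E : Type}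
    [CommRing Q] [Field E] (θ : RatFunc k →+* Q) (pk : Pkg Q G) (α : Q →+* E)
    (hα : Function.Injective α) (J : c.L →+* E)
    (hJ : ∀ f, J (algebraMap (RatFunc k) c.L f) = α (θ f))
    (hrat : ∀ l q, J l = α q → ∃ f, algebraMap (RatFunc k) c.L f = l)
    (Γ : pk.N →+* (G → E)) (hΓ : pk.Real α (P.map J) Γ) (n : pk.N) (S : Set G)
    (h1 : ∀ h ∈ S, Γ n h = 1) (h0 : ∀ h ∉ S, Γ n h = 0) :
    (∀ r ∈ c.ι.range, ∀ h, r * h ∈ S ↔ h ∈ S) ∧
      ∀ (E' : Type) [Field E'] (α' : Q →+* E') (J' : c.L →+* E') (Γ' : pk.N →+* (G → E')),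
        (∀ f, J' (algebraMap (RatFunc k) c.L f) = α' (θ f)) → pk.Real α' (P.map J') Γ' →
        (∀ h ∈ S, Γ' n h = 1) ∧ ∀ h ∉ S, Γ' n h = 0 := by
  classical
  obtain ⟨v, rfl⟩ := pk.span n
  obtain ⟨w, hw⟩ := (Matrix.mulVec_surjective_iff_isUnit.2 hP.1)
    fun h => if h ∈ S then (1 : c.L) else 0
  have hw' : ∀ h, ∑ l, P h l * w l = if h ∈ S then (1 : c.L) else 0 := congrFun hw
  have e1 : (fun l => J (w l)) = fun l => α (v l) := by
    refine Matrix.mulVec_injective_of_isUnit (hP.1.map J.mapMatrix) (funext fun h => ?_)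
    have a1 : ∑ l, J (P h l) * J (w l) = if h ∈ S then 1 else 0 := by
      simp only [← map_mul, ← map_sum, hw']
      split_ifs <;> simp
    have a2 : ∑ l, J (P h l) * α (v l) = if h ∈ S then 1 else 0 := by
      refine (real_sum_Ind3 hΓ v h).symm.trans ?_
      split_ifs with hh
      · exact h1 h hh
      · exact h0 h hh
    exact a1.trans a2.symm
  choose f hf using fun l => hrat (w l) (v l) (congrFun e1 l)
  have e2 : ∀ l, v l = θ (f l) := fun l => hα (by rw [← hJ, hf]; exact (congrFun e1 l).symm)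
  refine ⟨?_, fun E' _ α' J' Γ' hJ' hΓ' => ?_⟩
  · rintro _ ⟨σ, rfl⟩ h
    have a1 : (if c.ι σ * h ∈ S then (1 : c.L) else 0) = σ (if h ∈ S then (1 : c.L) else 0) := by
      rw [← hw', ← hw', map_sum]
      refine Finset.sum_congr rfl fun l _ => ?_
      rw [map_mul, hP.2, ← hf, AlgEquiv.commutes]
    by_cases a2 : h ∈ S <;> by_cases a3 : c.ι σ * h ∈ S <;> simp_all
  · have a1 : ∀ h, Γ' (∑ l, pk.i (v l) * pk.b l) h = J' (if h ∈ S then (1 : c.L) else 0) := by
      intro h
      rw [real_sum_Ind3 hΓ', ← hw', map_sum]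
      refine Finset.sum_congr rfl fun l _ => ?_
      rw [map_mul, ← hf, hJ', e2, Matrix.map_apply]
    exact ⟨fun h hh => by rw [a1, if_pos hh, map_one], fun h hh => by rw [a1, if_neg hh, map_zero]⟩

/-- Equivariance of evaluation at the identity. -/
theorem Cover.real_equivariant (c : Cover k G) (P : Matrix G G c.L) (hP : c.IndBasis P)
    {Q W : Type} [CommRing Q] [CommRing W] (pk : Pkg Q G) (ψ : Q →+* W) (j : c.L →+* W)
    (Γ : pk.N →+* (G → W)) (hΓ : pk.Real ψ (P.map j) Γ) (s : W →+* W) (hs : ∀ q, s (ψ q) = ψ q)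
    (σ : c.L ≃ₐ[RatFunc k] c.L) (hσ : ∀ x, j (σ x) = s (j x)) (n : pk.N) :
    Γ (pk.ρ (c.ι σ) n) 1 = s (Γ n 1) := by
  obtain ⟨v, rfl⟩ := pk.span n
  rw [hΓ.2.2, real_sum_Ind3 hΓ, real_sum_Ind3 hΓ, map_sum]
  refine Finset.sum_congr rfl fun l _ => ?_
  rw [map_mul, hs, Matrix.map_apply, Matrix.map_apply, ← hσ, ← hP.2, one_mul, mul_one]

end Pool.Agent.Adm

end

section

/-! Coverings are unramified at transcendental points. -/

namespace Pool.Agent.Adm

open Polynomial in
/-- A primitive element whose minimal polynomial has polynomial coefficients. -/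
theorem exists_integral_primitive_TC {k L : Type} [Field k] [Field L] [Algebra (RatFunc k) L]
    [FiniteDimensional (RatFunc k) L] [Algebra.IsSeparable (RatFunc k) L] :
    ∃ (β : L) (Q : (k[X])[X]), IntermediateField.adjoin (RatFunc k) {β} = ⊤ ∧ Q.Monic ∧
      minpoly (RatFunc k) β = Q.map (algebraMap k[X] (RatFunc k)) := by
  let _ : Algebra k[X] L :=
    ((algebraMap (RatFunc k) L).comp (algebraMap k[X] (RatFunc k))).toAlgebra
  have : IsScalarTower k[X] (RatFunc k) L := IsScalarTower.of_algebraMap_eq (fun _ => rfl)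
  obtain ⟨β, hβ⟩ := Field.exists_primitive_element (RatFunc k) L
  have h1 : IsAlgebraic k[X] β :=
    (IsFractionRing.isAlgebraic_iff k[X] (RatFunc k) L).2 (Algebra.IsAlgebraic.isAlgebraic β)
  obtain ⟨D, hD, hI⟩ := h1.exists_integral_multiple
  refine ⟨D • β, minpoly k[X] (D • β), ?_, minpoly.monic hI,
    minpoly.isIntegrallyClosed_eq_field_fractions' (RatFunc k) hI⟩
  rw [eq_top_iff, ← hβ, IntermediateField.adjoin_simple_le_iff]
  have h2 : algebraMap k[X] (RatFunc k) D ≠ 0 := by
    simpa using hD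
  have h3 : β = (algebraMap k[X] (RatFunc k) D)⁻¹ • (D • β) := by
    rw [← algebraMap_smul (RatFunc k) D β, smul_smul, inv_mul_cancel₀ h2, one_smul]
  have h4 := IntermediateField.mem_adjoin_simple_self (RatFunc k) (D • β)
  have h5 := IntermediateField.smul_mem _ h4 (x := (algebraMap k[X] (RatFunc k) D)⁻¹)
  rwa [← h3] at h5

theorem Cover.rmono_transcendental {k k' G : Type} [Field k] [IsAlgClosed k] [Field k']
    [IsAlgClosed k'] [Group G] (c : Cover k G) (φ : k →+* k') (x : k') (hx : x ∉ Set.range φ) :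
    c.RMono ((HahnSeries.C : k' →+* LaurentSeries k').comp φ)
      (HahnSeries.C x + HahnSeries.single 1 1) (RingHom.id _) 1 := by
  obtain ⟨β, Q, hβ, hQ, hmin⟩ := exists_integral_primitive_TC (k := k) (L := c.L)
  have hev := eval₂_ne_zero_of_notMem φ x hx
  obtain ⟨f, hfC, hfX⟩ := exists_ratFunc_hom φ x hev
  let ψ : Polynomial k →+* PowerSeries k' :=
    Polynomial.eval₂RingHom ((PowerSeries.C : k' →+* PowerSeries k').comp φ)
      (PowerSeries.C x + PowerSeries.X)
  have h1 : (PowerSeries.constantCoeff (R := k')).comp ψ =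
      f.comp (algebraMap (Polynomial k) (RatFunc k)) := by
    apply Polynomial.ringHom_ext
    · intro a; simp [ψ, hfC]
    · simp [ψ, hfX]
  have h2 : (HahnSeries.ofPowerSeries ℤ k').comp ψ =
      Polynomial.eval₂RingHom ((HahnSeries.C : k' →+* LaurentSeries k').comp φ)
        (HahnSeries.C x + HahnSeries.single 1 1) := by
    apply Polynomial.ringHom_ext
    · intro a; simp [ψ, HahnSeries.ofPowerSeries_C]
    · simp [ψ, HahnSeries.ofPowerSeries_C, HahnSeries.ofPowerSeries_X]
  have h3 : ∀ P : Polynomial k, P ≠ 0 →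
      P.eval₂ ((HahnSeries.C : k' →+* LaurentSeries k').comp φ)
        (HahnSeries.C x + HahnSeries.single 1 1) ≠ 0 := by
    intro P hP h0
    have h4 : HahnSeries.ofPowerSeries ℤ k' (ψ P) = 0 := by
      rw [← h0]; exact DFunLike.congr_fun h2 P
    have h5 : ψ P = 0 := HahnSeries.ofPowerSeries_injective (Γ := ℤ) (by rw [h4, map_zero])
    have h6 := DFunLike.congr_fun h1 P
    simp only [RingHom.comp_apply] at h6
    rw [h5, map_zero, hom_algebraMap f φ x hfC hfX] at h6
    exact hev P hP h6.symm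
  obtain ⟨j0, hjC, hjX⟩ := exists_ratFunc_hom _ _ h3
  have h7 : j0.comp (algebraMap (Polynomial k) (RatFunc k)) =
      (HahnSeries.ofPowerSeries ℤ k').comp ψ := by
    rw [h2]
    exact RingHom.ext fun P => hom_algebraMap j0 _ _ hjC hjX P
  have hsep : ((Q.map ψ).map (PowerSeries.constantCoeff (R := k'))).Separable := by
    rw [Polynomial.map_map, h1, ← Polynomial.map_map, ← hmin]
    exact Polynomial.Separable.map (Algebra.IsSeparable.isSeparable (RatFunc k) β)
  have hspl := splits_of_separable_reduction (Q.map ψ) (hQ.map ψ) hsep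
  rw [Polynomial.map_map, ← h7, ← Polynomial.map_map, ← hmin] at hspl
  obtain ⟨j, hj⟩ := exists_extension (L := c.L) j0 {β} hβ (by
    intro J hJ s hs
    rw [Set.mem_singleton_iff] at hs
    subst hs
    have h8 : (minpoly (RatFunc k) s).map j0 ≠ 0 :=
      ((minpoly.monic (Algebra.IsIntegral.isIntegral s)).map j0).ne_zero
    refine hspl.mem_range_of_isRoot h8 ?_
    have h9 : (algebraMap (LaurentSeries k') (AlgebraicClosure (LaurentSeries k'))).comp j0 =
        J.comp (algebraMap (RatFunc k) c.L) := RingHom.ext fun y => (hJ y).symm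
    rw [Polynomial.IsRoot.def, Polynomial.map_map, h9, Polynomial.eval_map,
      ← Polynomial.hom_eval₂, ← Polynomial.aeval_def, minpoly.aeval, map_zero])
  exact ⟨j, fun y => by rw [hj, hjC], by rw [hj, hjX], 1, map_one _, fun y => rfl⟩

end Pool.Agent.Adm

end

section

/-! Translation of the coordinate. -/

namespace Pool.Agent.Adm

open scoped OnePoint

theorem exists_shift_TR {k : Type} [Field k] (b : k) :
    ∃ f : RatFunc k →+* RatFunc k, (∀ c, f (RatFunc.C c) = RatFunc.C c) ∧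
      f RatFunc.X = RatFunc.X + RatFunc.C b := by
  refine exists_ratFunc_hom RatFunc.C _ fun P hP h => ?_
  have e : P.eval₂ RatFunc.C (RatFunc.X + RatFunc.C b) =
      algebraMap (Polynomial k) (RatFunc k) (P.comp (Polynomial.X + Polynomial.C b)) := by
    rw [Polynomial.comp, Polynomial.hom_eval₂]
    congr 1
    simp
  rw [e, map_eq_zero_iff _ (IsFractionRing.injective _ _),
    Polynomial.comp_X_add_C_eq_zero_iff] at h
  exact hP h

theorem exists_equiv_TR {k : Type} [Field k] (b : k) :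
    ∃ τ : RatFunc k ≃+* RatFunc k, (∀ c, τ (RatFunc.C c) = RatFunc.C c) ∧
      τ RatFunc.X = RatFunc.X + RatFunc.C b := by
  obtain ⟨f, f1, f2⟩ := exists_shift_TR b
  obtain ⟨g, g1, g2⟩ := exists_shift_TR (-b)
  refine ⟨RingEquiv.ofRingHom f g ?_ ?_, f1, f2⟩
  · refine ratFunc_hom_ext _ _ (fun c => by simp [f1, g1]) ?_
    rw [RingHom.comp_apply, g2, map_add, f2, f1, map_neg, add_neg_cancel_right, RingHom.id_apply]
  · refine ratFunc_hom_ext _ _ (fun c => by simp [f1, g1]) ?_
    rw [RingHom.comp_apply, f2, map_add, g2, g1, map_neg, neg_add_cancel_right, RingHom.id_apply]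

/-- A copy of a type. -/
def Copy_TR (L : Type) : Type := L

instance field_Copy_TR (L : Type) [Field L] : Field (Copy_TR L) := inferInstanceAs (Field L)

theorem exists_twist_TR {k G : Type} [Field k] [Group G] (c : Cover k G)
    (τ : RatFunc k ≃+* RatFunc k) :
    ∃ (c' : Cover k G) (e : c'.L ≃+* c.L),
      (∀ r, e (algebraMap (RatFunc k) c'.L r) = algebraMap (RatFunc k) c.L (τ r)) ∧
      c'.ι.range ≤ c.ι.range ∧
      ∀ σ : c.L ≃ₐ[RatFunc k] c.L, ∃ σ' : c'.L ≃ₐ[RatFunc k] c'.L,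
        c'.ι σ' = c.ι σ ∧ ∀ x, e (σ' x) = σ (e x) := by
  let e : Copy_TR c.L ≃+* c.L := RingEquiv.refl c.L
  let alg : Algebra (RatFunc k) (Copy_TR c.L) :=
    (e.symm.toRingHom.comp ((algebraMap (RatFunc k) c.L).comp τ.toRingHom)).toAlgebra
  have ha : ∀ r, e (algebraMap (RatFunc k) (Copy_TR c.L) r) = algebraMap (RatFunc k) c.L (τ r) :=
    fun _ => rfl
  have he : (algebraMap (RatFunc k) (Copy_TR c.L)).comp (τ.symm : RatFunc k →+* RatFunc k) =
      (e.symm : c.L →+* Copy_TR c.L).comp (algebraMap (RatFunc k) c.L) := by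
    ext r
    apply e.injective
    simp [ha]
  have fin : FiniteDimensional (RatFunc k) (Copy_TR c.L) :=
    Module.Finite.of_equiv_equiv τ.symm e.symm he
  have gal : IsGalois (RatFunc k) (Copy_TR c.L) := IsGalois.of_equiv_equiv he
  let m : (Copy_TR c.L ≃ₐ[RatFunc k] Copy_TR c.L) →* (c.L ≃ₐ[RatFunc k] c.L) :=
    { toFun := fun σ =>
        { e.symm.trans (σ.toRingEquiv.trans e) with
          commutes' := fun r => by
            obtain ⟨r, rfl⟩ := τ.surjective r
            exact congrArg e (σ.commutes r) }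
      map_one' := rfl
      map_mul' := fun _ _ => rfl }
  refine ⟨{ L := Copy_TR c.L, ι := c.ι.comp m }, e, ha, ?_, fun σ => ⟨?_, ?_, ?_⟩⟩
  · rintro _ ⟨σ, rfl⟩
    exact ⟨m σ, rfl⟩
  · exact { e.trans (σ.toRingEquiv.trans e.symm) with
      commutes' := fun r => congrArg e.symm (σ.commutes (τ r)) }
  · rfl
  · exact fun _ => rfl

theorem Cover.exists_translate' {k G : Type} [Field k] [Group G] (c : Cover k G) (b : k) :
    ∃ c' : Cover k G, c'.ι.range = c.ι.range ∧
      ∀ (W : Type) [CommRing W] (ψ : k →+* W) (u : W) (s : W →+* W) (g : G),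
        c.RMono ψ u s g → c'.RMono ψ (u + ψ b) s g := by
  obtain ⟨τ, t1, t2⟩ := exists_equiv_TR b
  obtain ⟨c', e, h1, h2, h3⟩ := exists_twist_TR c τ
  refine ⟨c', le_antisymm h2 ?_, ?_⟩
  · rintro _ ⟨σ, rfl⟩
    obtain ⟨σ', h4, -⟩ := h3 σ
    exact ⟨σ', h4⟩
  · rintro W _ ψ u s g ⟨j, j1, j2, σ, j3, j4⟩
    obtain ⟨σ', h4, h5⟩ := h3 σ
    refine ⟨j.comp e.toRingHom, fun x => ?_, ?_, σ', h4.trans j3, fun x => ?_⟩
    · show j (e _) = _
      rw [h1, t1, j1]
    · show j (e _) = _
      rw [h1, t2, map_add, map_add, j1, j2]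
    · show j (e _) = s (j (e x))
      rw [h5, j4]

theorem Cover.exists_translate {k G : Type} [Field k] [IsAlgClosed k] [Group G] (c : Cover k G)
    (b : k) :
    ∃ c' : Cover k G, c'.ι.range = c.ι.range ∧
      (∀ (a : k) e ζ g, c.Mono (a : OnePoint k) e ζ g → c'.Mono ((a + b : k) : OnePoint k) e ζ g) ∧
      ∀ e ζ g, c.Mono ∞ e ζ g → c'.Mono ∞ e ζ g := by
  obtain ⟨c', h1, h2⟩ := c.exists_translate' b
  refine ⟨c', h1, fun a e ζ g h => Cover.RMono.mono h.1 h.2.1 ?_,
    fun e ζ g h => Cover.RMono.mono h.1 h.2.1 ?_⟩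
  · have h3 := h2 _ _ _ _ _ h.rmono
    have h4 : expand (a : OnePoint k) e + HahnSeries.C b = expand ((a + b : k) : OnePoint k) e := by
      simp only [expand, OnePoint.elim_some, map_add]
      ring
    rwa [h4] at h3
  · have he : (e : k) ≠ 0 := by
      have : NeZero e := ⟨h.1.ne'⟩
      exact (h.2.1.neZero' (n := e)).out
    obtain ⟨Φ, p1, p2, p3⟩ := exists_reparam e he (-b)
    have h3 := h2 _ _ _ _ _ (h.rmono.comp Φ (scL ζ (h.2.1.ne_zero h.1.ne'))
      (p3 ζ _ h.2.1.pow_eq_one))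
    have h4 : Φ.comp HahnSeries.C = HahnSeries.C := RingHom.ext p1
    have h5 : Φ (expand ∞ e) + HahnSeries.C b = expand ∞ e := by
      simp only [expand, OnePoint.elim_infty]
      rw [p2, map_neg, neg_add_cancel_right]
    rwa [h4, h5] at h3

end Pool.Agent.Adm

end

section

/-! Linear independence under extension of constants. -/

namespace Pool.Agent.Adm

/-- Coefficientwise application of an additive map. -/
def lamBC0 {k k' : Type} [Field k] [Field k'] (l : k' →+ k) :
    LaurentSeries k' →+ LaurentSeries k where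
  toFun x := x.map l
  map_zero' := by ext n; simp
  map_add' x y := by ext n; simp

theorem lam_mulBC0 {k k' : Type} [Field k] [Field k'] (φ : k →+* k') (l : k' →+ k)
    (hl : ∀ (c : k') (a : k), l (c * φ a) = l c * a) (c : k') (y : LaurentSeries k) :
    lamBC0 l (HahnSeries.C c * mapL φ y) = HahnSeries.C (l c) * y := by
  ext n
  rw [HahnSeries.C_mul_eq_smul, HahnSeries.C_mul_eq_smul]
  show l ((c • mapL φ y).coeff n) = _
  rw [HahnSeries.coeff_smul, HahnSeries.coeff_smul, mapL_coeff, smul_eq_mul, smul_eq_mul, hl]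

theorem polyBC0 {k k' : Type} [Field k] [Field k'] (φ : k →+* k')
    (u : LaurentSeries k) (j : RatFunc k →+* LaurentSeries k)
    (hC : ∀ c, j (RatFunc.C c) = HahnSeries.C c) (hX : j RatFunc.X = u)
    {ι : Type} [Fintype ι] (b : ι → LaurentSeries k)
    (hb : ∀ r : ι → RatFunc k, ∑ i, j (r i) * b i = 0 → ∀ i, r i = 0)
    (P : ι → Polynomial k')
    (hP : ∑ i, (P i).eval₂ HahnSeries.C (mapL φ u) * mapL φ (b i) = 0) (i : ι) : P i = 0 := by
  let _ : Algebra k k' := φ.toAlgebra
  ext n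
  rw [Polynomial.coeff_zero, ← Module.forall_dual_apply_eq_zero_iff k]
  intro lam
  have hl : ∀ (c : k') (a : k), lam.toAddMonoidHom (c * φ a) = lam.toAddMonoidHom c * a := by
    intro c a
    have : c * φ a = a • c := by rw [Algebra.smul_def, mul_comm]; rfl
    rw [this, mul_comm]
    exact lam.map_smul a c
  have h1 := congrArg (lamBC0 lam.toAddMonoidHom) hP
  rw [map_zero, map_sum] at h1
  have h2 := hb (fun i => algebraMap (Polynomial k) (RatFunc k)
    (∑ m ∈ (P i).support, Polynomial.monomial m (lam ((P i).coeff m)))) (by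
      rw [← h1]
      refine Finset.sum_congr rfl fun i _ => ?_
      rw [hom_algebraMap j HahnSeries.C u hC hX, Polynomial.eval₂_finsetSum,
        Polynomial.eval₂_eq_sum, Polynomial.sum_def, Finset.sum_mul, Finset.sum_mul, map_sum]
      refine Finset.sum_congr rfl fun m _ => ?_
      rw [Polynomial.eval₂_monomial, mul_assoc, mul_assoc, ← map_pow, ← map_mul,
        lam_mulBC0 φ _ hl]
      rfl) i
  have h3 := congrArg (fun Q => Polynomial.coeff Q n)
    ((map_eq_zero_iff _ (IsFractionRing.injective (Polynomial k) (RatFunc k))).1 h2)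
  simp only [Polynomial.finsetSum_coeff, Polynomial.coeff_monomial, Finset.sum_ite_eq',
    Polynomial.coeff_zero] at h3
  by_cases hn : n ∈ (P i).support
  · rwa [if_pos hn] at h3
  · rw [Polynomial.notMem_support_iff.1 hn, map_zero]

/-- Linear independence over k(X) of Laurent series persists over k'(X). -/
theorem linearIndependent_mapL {k k' : Type} [Field k] [Field k'] (φ : k →+* k')
    (u : LaurentSeries k) (j : RatFunc k →+* LaurentSeries k)
    (hC : ∀ c, j (RatFunc.C c) = HahnSeries.C c) (hX : j RatFunc.X = u)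
    (j' : RatFunc k' →+* LaurentSeries k') (hC' : ∀ c, j' (RatFunc.C c) = HahnSeries.C c)
    (hX' : j' RatFunc.X = mapL φ u) {ι : Type} [Fintype ι] (b : ι → LaurentSeries k)
    (hb : ∀ r : ι → RatFunc k, ∑ i, j (r i) * b i = 0 → ∀ i, r i = 0)
    (r : ι → RatFunc k') (hr : ∑ i, j' (r i) * mapL φ (b i) = 0) : ∀ i, r i = 0 := by
  obtain ⟨d, hd⟩ := IsLocalization.exist_integer_multiples_of_finite
    (nonZeroDivisors (Polynomial k')) r
  choose P hP using hd
  have h0 := polyBC0 φ u j hC hX b hb P (by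
    have := congrArg (fun w => j' (algebraMap (Polynomial k') (RatFunc k') d) * w) hr
    simp only [mul_zero, Finset.mul_sum] at this
    rw [← this]
    refine Finset.sum_congr rfl fun i _ => ?_
    rw [← hom_algebraMap j' HahnSeries.C _ hC' hX', hP, Algebra.smul_def, map_mul, mul_assoc])
  intro i
  have h1 := hP i
  rw [h0 i, map_zero, Algebra.smul_def] at h1
  exact (mul_eq_zero.1 h1.symm).resolve_left
    ((map_ne_zero_iff _ (IsFractionRing.injective (Polynomial k') (RatFunc k'))).2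
      (nonZeroDivisors.ne_zero d.2))

end Pool.Agent.Adm

end

section

/-! Base change of coverings along an extension of algebraically closed fields. -/

namespace Pool.Agent.Adm

open scoped OnePoint TensorProduct

theorem lift_BC {F F' L W : Type} [Field F] [Field F'] [Field L] [Algebra F F'] [Algebra F L]
    [CommRing W] (j' : F' →+* W) (j : L →+* W)
    (h : ∀ x : F, j' (algebraMap F F' x) = j (algebraMap F L x)) :
    ∃ J : F' ⊗[F] L →+* W, ∀ y x, J (y ⊗ₜ x) = j' y * j x := by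
  letI : Algebra F W := (j.comp (algebraMap F L)).toAlgebra
  let f : F' →ₐ[F] W := ⟨j', h⟩
  let g : L →ₐ[F] W := ⟨j, fun _ => rfl⟩
  exact ⟨(Algebra.TensorProduct.lift f g (fun _ _ => Commute.all _ _)).toRingHom, fun _ _ => rfl⟩

theorem domain_BC {F F' L W : Type} [Field F] [Field F'] [Field L] [Algebra F F'] [Algebra F L]
    [Field W] (j' : F' →+* W) (j : L →+* W)
    (h : ∀ x : F, j' (algebraMap F F' x) = j (algebraMap F L x)) {ι : Type} [Fintype ι]
    (b : Module.Basis ι F L) (hb : ∀ r : ι → F', ∑ i, j' (r i) * j (b i) = 0 → ∀ i, r i = 0) :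
    IsDomain (F' ⊗[F] L) := by
  obtain ⟨J, hJ⟩ := lift_BC j' j h
  refine Function.Injective.isDomain J ((injective_iff_map_eq_zero J).2 fun z hz => ?_)
  have e := (Algebra.TensorProduct.basis F' b).sum_repr z
  have h0 := hb (fun i => (Algebra.TensorProduct.basis F' b).repr z i) (by
    rw [← hz]
    conv_rhs => rw [← e, map_sum]
    refine Finset.sum_congr rfl fun i _ => ?_
    rw [Algebra.TensorProduct.basis_repr_symm_apply', hJ])
  rw [← e]
  exact Finset.sum_eq_zero fun i _ => by rw [h0 i, zero_smul]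

/-- The action of the Galois group on the tensor product. -/
noncomputable def rho_BC (F F' L : Type) [Field F] [Field F'] [Field L] [Algebra F F']
    [Algebra F L] : (L ≃ₐ[F] L) →* (F' ⊗[F] L ≃ₐ[F'] F' ⊗[F] L) :=
  MonoidHom.mk' (fun σ => Algebra.TensorProduct.congr (AlgEquiv.refl : F' ≃ₐ[F'] F') σ)
    (fun σ τ => by
      refine AlgEquiv.ext fun z => ?_
      induction z using TensorProduct.induction_on with
      | zero => simp only [map_zero]
      | tmul y x => rfl
      | add a b ha hb => simp only [map_add, ha, hb])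

theorem rho_tmul_BC {F F' L : Type} [Field F] [Field F'] [Field L] [Algebra F F'] [Algebra F L]
    (σ : L ≃ₐ[F] L) (y : F') (x : L) : rho_BC F F' L σ (y ⊗ₜ x) = y ⊗ₜ σ x := rfl

theorem rho_inj_BC (F F' L : Type) [Field F] [Field F'] [Field L] [Algebra F F'] [Algebra F L]
    [Nontrivial (F' ⊗[F] L)] : Function.Injective (rho_BC F F' L) := by
  refine (injective_iff_map_eq_one _).2 fun σ hσ => AlgEquiv.ext fun x => ?_
  have h1 := rho_tmul_BC σ (1 : F') x
  rw [hσ] at h1
  exact (Algebra.TensorProduct.includeRight : L →ₐ[F] F' ⊗[F] L).toRingHom.injective h1.symm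

theorem abstract_BC {F F' L : Type} [Field F] [Field F'] [Field L] [Algebra F F'] [Algebra F L]
    [FiniteDimensional F L] [IsGalois F L] [IsDomain (F' ⊗[F] L)] :
    ∃ (L' : Type) (_ : Field L') (_ : Algebra F' L') (_ : FiniteDimensional F' L')
      (_ : IsGalois F' L') (ρ : (L ≃ₐ[F] L) ≃* (L' ≃ₐ[F'] L')),
      ∀ (W : Type) [CommRing W] (j' : F' →+* W) (j : L →+* W),
        (∀ x : F, j' (algebraMap F F' x) = j (algebraMap F L x)) →
        ∃ J : L' →+* W, (∀ y, J (algebraMap F' L' y) = j' y) ∧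
          ∀ (σ : L ≃ₐ[F] L) (s : W →+* W), (∀ y, s (j' y) = j' y) → (∀ x, j (σ x) = s (j x)) →
            ∀ z, J (ρ σ z) = s (J z) := by
  letI : Field (F' ⊗[F] L) := fieldOfFiniteDimensional F' (F' ⊗[F] L)
  obtain ⟨hg, hρ⟩ := galois_of_action (K := F') (B := F' ⊗[F] L) (rho_BC F F' L)
    (rho_inj_BC F F' L) (by rw [Module.finrank_baseChange, IsGalois.card_aut_eq_finrank])
  refine ⟨F' ⊗[F] L, inferInstance, inferInstance, inferInstance, hg,
    MulEquiv.ofBijective _ hρ, fun W _ j' j h => ?_⟩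
  obtain ⟨J, hJ⟩ := lift_BC j' j h
  refine ⟨J, fun y => ?_, fun σ s hs hσ z => ?_⟩
  · have := hJ y 1
    rw [map_one, mul_one] at this
    exact this
  · change J (rho_BC F F' L σ z) = s (J z)
    induction z using TensorProduct.induction_on with
    | zero => simp only [map_zero]
    | tmul y x => rw [rho_tmul_BC, hJ, hJ, map_mul, hs, hσ]
    | add a b ha hb => simp only [map_add, ha, hb]

theorem theta_BC {k k' : Type} [Field k] [Field k'] (φ : k →+* k') :
    ∃ θ : RatFunc k →+* RatFunc k', (∀ c, θ (RatFunc.C c) = RatFunc.C (φ c)) ∧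
      θ RatFunc.X = RatFunc.X := by
  refine exists_ratFunc_hom (RatFunc.C.comp φ) RatFunc.X fun P hP => ?_
  rw [← Polynomial.eval₂_map,
    ← hom_algebraMap (RingHom.id (RatFunc k')) RatFunc.C RatFunc.X (fun _ => rfl) rfl]
  exact RatFunc.algebraMap_ne_zero (Polynomial.map_ne_zero hP)

theorem Cover.exists_baseChange' {k k' G : Type} [Field k] [Field k'] [Group G] (c : Cover k G)
    (φ : k →+* k') (h : ∃ a e ζ g, c.Mono a e ζ g) :
    ∃ c' : Cover k' G, c'.ι.range = c.ι.range ∧
      ∀ (W : Type) [Field W] (ψ : k' →+* W) (u : W) (s : W →+* W) (g : G),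
        (∀ P : Polynomial k', P ≠ 0 → P.eval₂ ψ u ≠ 0) → (∀ x, s (ψ x) = ψ x) → s u = u →
        c.RMono (ψ.comp φ) u s g → c'.RMono ψ u s g := by
  obtain ⟨θ, θC, θX⟩ := theta_BC φ
  letI : Algebra (RatFunc k) (RatFunc k') := θ.toAlgebra
  have compat : ∀ {W : Type} [CommRing W] (ψ : k' →+* W) (u : W) (j' : RatFunc k' →+* W)
      (j : c.L →+* W), (∀ x, j' (RatFunc.C x) = ψ x) → j' RatFunc.X = u →
      (∀ x : k, j (algebraMap (RatFunc k) c.L (RatFunc.C x)) = ψ (φ x)) →
      j (algebraMap (RatFunc k) c.L RatFunc.X) = u →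
      ∀ x, j' (algebraMap (RatFunc k) (RatFunc k') x) = j (algebraMap (RatFunc k) c.L x) := by
    intro W _ ψ u j' j h1 h2 h3 h4 x
    refine DFunLike.congr_fun (ratFunc_hom_ext (j'.comp θ)
      (j.comp (algebraMap (RatFunc k) c.L)) (fun y => ?_) ?_) x
    · rw [RingHom.comp_apply, RingHom.comp_apply, θC, h1, h3]
    · rw [RingHom.comp_apply, RingHom.comp_apply, θX, h2, h4]
  obtain ⟨a, e, ζ, g0, he, -, j, jC, jX, -⟩ := h
  obtain ⟨j', jC', jX'⟩ := exists_chart (a.map φ) e he
  have : IsDomain (RatFunc k' ⊗[RatFunc k] c.L) := by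
    refine domain_BC j' ((mapL φ).comp j) (compat HahnSeries.C _ j' _ jC' jX' (fun x => ?_) ?_)
      (Module.finBasis (RatFunc k) c.L) ?_
    · rw [RingHom.comp_apply, jC, mapL_C]
    · rw [RingHom.comp_apply, jX, mapL_expand]
    · refine linearIndependent_mapL φ (expand a e) (j.comp (algebraMap (RatFunc k) c.L)) jC jX j'
        jC' (by rw [jX', mapL_expand]) (fun i => j (Module.finBasis (RatFunc k) c.L i))
        (fun r hr => ?_)
      refine Fintype.linearIndependent_iff.1 (Module.finBasis (RatFunc k) c.L).linearIndependent r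
        (j.injective ?_)
      rw [map_zero, ← hr, map_sum]
      refine Finset.sum_congr rfl fun i _ => ?_
      rw [Algebra.smul_def, map_mul, RingHom.comp_apply]
  obtain ⟨L', _, _, _, _, ρ, hρ⟩ := abstract_BC (F := RatFunc k) (F' := RatFunc k') (L := c.L)
  refine ⟨{ L := L', ι := c.ι.comp ρ.symm.toMonoidHom }, ?_, ?_⟩
  · ext g
    constructor
    · rintro ⟨τ, rfl⟩
      exact ⟨ρ.symm τ, rfl⟩
    · rintro ⟨σ, rfl⟩
      exact ⟨ρ σ, congrArg c.ι (ρ.symm_apply_apply σ)⟩
  · rintro W _ ψ u s g hP hs hu ⟨i, iC, iX, σ, hσ, hi⟩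
    obtain ⟨i', iC', iX'⟩ := exists_ratFunc_hom ψ u hP
    obtain ⟨J, hJ, hJ'⟩ := hρ W i' i (compat ψ u i' i iC' iX' iC iX)
    refine ⟨J, fun x => (hJ _).trans (iC' x), (hJ _).trans iX', ρ σ,
      (congrArg c.ι (ρ.symm_apply_apply σ)).trans hσ, hJ' σ s (fun y => ?_) hi⟩
    refine DFunLike.congr_fun (ratFunc_hom_ext (s.comp i') i' (fun x => ?_) ?_) y
    · rw [RingHom.comp_apply, iC', hs]
    · rw [RingHom.comp_apply, iX', hu]

theorem Cover.exists_baseChange {k k' G : Type} [Field k] [IsAlgClosed k] [Field k']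
    [IsAlgClosed k'] [Group G] (c : Cover k G) (φ : k →+* k') (h : ∃ a e ζ g, c.Mono a e ζ g) :
    ∃ c' : Cover k' G, c'.ι.range = c.ι.range ∧
      (∀ a e ζ g, c.Mono a e ζ g → c'.Mono (a.map φ) e (φ ζ) g) ∧
      ∀ x : k', x ∉ Set.range φ → c'.Mono (x : OnePoint k') 1 1 1 := by
  obtain ⟨c', h1, h2⟩ := c.exists_baseChange' φ h
  refine ⟨c', h1, fun a e ζ g hm => ?_, fun x hx => ?_⟩
  · have hζ : IsPrimitiveRoot (φ ζ) e := hm.2.1.map_of_injective φ.injective
    refine Cover.RMono.mono hm.1 hζ (h2 _ _ _ _ g (eval₂_expand_ne_zero _ e hm.1)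
      (fun x => scL_C _ _ x) (scL_expand _ e _ _ hζ.pow_eq_one) ?_)
    have h3 := hm.rmono.comp (mapL φ) (scL (φ ζ) (hζ.ne_zero hm.1.ne')) (mapL_scL φ ζ _)
    rw [mapL_expand] at h3
    have h4 : (mapL φ).comp HahnSeries.C =
        (HahnSeries.C : k' →+* LaurentSeries k').comp φ := RingHom.ext (mapL_C φ)
    rwa [h4] at h3
  · refine Cover.RMono.mono one_pos IsPrimitiveRoot.one (h2 _ _ _ _ 1
      (eval₂_expand_ne_zero _ 1 one_pos) (fun x => scL_C _ _ x)
      (scL_expand _ 1 _ _ (one_pow 1)) ?_)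
    have h4 : scL (1 : k') (IsPrimitiveRoot.one.ne_zero one_pos.ne') = RingHom.id _ :=
      RingHom.ext scL_one
    rw [h4]
    exact c.rmono_transcendental φ x hx

end Pool.Agent.Adm

end
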