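import Pool.Agent.Mg.F0854a0.G5d1e19
import Mathlib

section

/-! A compatible system of roots of unity in the algebraic closure of the field with two
elements. -/

namespace Pool.Agent.Adm

/-- The algebraic closure of the field with two elements. -/
abbrev K0 : Type := AlgebraicClosure (ZMod 2)

/-- The product of the first odd numbers. -/
def oddProd_Xi (n : ℕ) : ℕ := ∏ i ∈ Finset.range n, (2 * i + 1)

theorem oddProd_pos_Xi (n : ℕ) : 0 < oddProd_Xi n :=
  Finset.prod_pos fun _ _ => Nat.succ_pos _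

theorem dvd_oddProd_Xi {e : ℕ} (he : Odd e) : e ∣ oddProd_Xi e := by
  obtain ⟨j, rfl⟩ := he
  exact Finset.dvd_prod_of_mem (fun i => 2 * i + 1) (Finset.mem_range.2 (by omega : j < 2 * j + 1))

theorem odd_ne_zero_Xi (n : ℕ) : ((2 * n + 1 : ℕ) : K0) ≠ 0 := by
  rw [Ne, CharP.cast_eq_zero_iff K0 2]
  omega

theorem exists_tower_Xi : ∃ ζ : ℕ → K0, (∀ n, IsPrimitiveRoot (ζ n) (oddProd_Xi n)) ∧
    ∀ n, ζ (n + 1) ^ (2 * n + 1) = ζ n := by
  have step : ∀ (n : ℕ) (z : {z : K0 // IsPrimitiveRoot z (oddProd_Xi n)}),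
      ∃ w : {w : K0 // IsPrimitiveRoot w (oddProd_Xi (n + 1))}, w.1 ^ (2 * n + 1) = z.1 := by
    intro n z
    obtain ⟨w, h1, h2⟩ := exists_root_lift (odd_ne_zero_Xi n) (oddProd_pos_Xi n) z.2
    exact ⟨⟨w, by rwa [oddProd_Xi, Finset.prod_range_succ]⟩, h2⟩
  choose f hf using step
  let ζ : ∀ n, {z : K0 // IsPrimitiveRoot z (oddProd_Xi n)} := fun n =>
    Nat.rec ⟨1, IsPrimitiveRoot.one⟩ f n
  exact ⟨fun n => (ζ n).1, fun n => (ζ n).2, fun n => hf n (ζ n)⟩

theorem exists_xi : ∃ ξ : ℕ → K0, (∀ e, Odd e → IsPrimitiveRoot (ξ e) e) ∧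
    ∀ e e', Odd e → Odd e' → ξ (e * e') ^ e' = ξ e := by
  obtain ⟨ζ, h1, h2⟩ := exists_tower_Xi
  have h3 : ∀ n n', n ≤ n' → ∃ c, oddProd_Xi n' = oddProd_Xi n * c ∧ ζ n' ^ c = ζ n := by
    intro n n' h
    induction n', h using Nat.le_induction with
    | base => exact ⟨1, (mul_one _).symm, pow_one _⟩
    | succ m _ ih =>
      obtain ⟨c, a1, a2⟩ := ih
      refine ⟨(2 * m + 1) * c, ?_, by rw [pow_mul, h2, a2]⟩
      rw [oddProd_Xi, Finset.prod_range_succ, ← oddProd_Xi, a1]
      ring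
  refine ⟨fun e => ζ e ^ (oddProd_Xi e / e), fun e he => ?_, fun e e' he he' => ?_⟩
  · exact (h1 e).pow (oddProd_pos_Xi e) (Nat.div_mul_cancel (dvd_oddProd_Xi he)).symm
  · obtain ⟨c, a1, a2⟩ := h3 e (e * e') (Nat.le_mul_of_pos_right e he'.pos)
    obtain ⟨a, ha⟩ := dvd_oddProd_Xi he
    obtain ⟨b, hb⟩ := dvd_oddProd_Xi (he.mul he')
    have e1 : b * e' = c * a := by
      refine Nat.eq_of_mul_eq_mul_left he.pos ?_
      rw [ha] at a1
      rw [show e * (b * e') = e * e' * b by ring, ← hb, a1]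
      ring
    have e2 : oddProd_Xi (e * e') / (e * e') = b := by
      rw [hb, Nat.mul_div_cancel_left _ (he.mul he').pos]
    have e3 : oddProd_Xi e / e = a := by
      rw [ha, Nat.mul_div_cancel_left _ he.pos]
    simp only [e2, e3]
    rw [← pow_mul, e1, pow_mul, a2]

end Pool.Agent.Adm

end

section

/-! Change of the local parameter. -/

namespace Pool.Agent.Adm

open scoped OnePoint

variable {k : Type} [Field k] [IsAlgClosed k]

omit [IsAlgClosed k] in
theorem powL_coe_SUB (e : ℕ) (he : 0 < e) (u : PowerSeries k) :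
    powL e he (u : LaurentSeries k) =
      ((PowerSeries.expand e he.ne' u : PowerSeries k) : LaurentSeries k) := by
  have h0 : (0 : ℤ) < e := by exact_mod_cast he
  ext n
  by_cases hn : (e : ℤ) ∣ n
  · obtain ⟨l, rfl⟩ := hn
    rw [powL_coeff_mul, PowerSeries.coeff_coe, PowerSeries.coeff_coe, Int.natAbs_mul,
      Int.natAbs_natCast, PowerSeries.coeff_expand_mul]
    by_cases hl : l < 0
    · rw [if_pos hl, if_pos (mul_neg_of_pos_of_neg h0 hl)]
    · rw [if_neg hl, if_neg (not_lt.2 (mul_nonneg h0.le (not_lt.1 hl)))]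
  · rw [powL_coeff_of_not_dvd _ _ _ _ hn, PowerSeries.coeff_coe,
      PowerSeries.coeff_expand_of_not_dvd _ _ _ fun h => hn (Int.natCast_dvd.2 h), ite_self]

omit [IsAlgClosed k] in
theorem exists_subst_SUB (φ : PowerSeries k) (hs : PowerSeries.HasSubst φ) (hne : φ ≠ 0) :
    ∃ Φ : LaurentSeries k →+* LaurentSeries k, ∀ f : PowerSeries k,
      Φ (f : LaurentSeries k) = ((PowerSeries.subst φ f : PowerSeries k) : LaurentSeries k) := by
  let S : PowerSeries k →+* PowerSeries k :=
    (PowerSeries.substAlgHom (R := k) hs : PowerSeries k →ₐ[k] PowerSeries k)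
  have hS : ∀ f, S f = PowerSeries.subst φ f := fun f =>
    congrFun (PowerSeries.coe_substAlgHom (R := k) hs) f
  have hSX : S PowerSeries.X = φ := by rw [hS, PowerSeries.subst_X hs]
  let ι : PowerSeries k →+* LaurentSeries k := HahnSeries.ofPowerSeries ℤ k
  have hι : Function.Injective ι := HahnSeries.ofPowerSeries_injective
  have hιφ : ι φ ≠ 0 := fun h0 => hne (hι (by rw [h0, map_zero]))
  have hunit : ∀ y : Submonoid.powers (PowerSeries.X : PowerSeries k),
      IsUnit ((ι.comp S) y) := by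
    rintro ⟨y, n, rfl⟩
    simp only [RingHom.comp_apply, map_pow, hSX]
    exact (pow_ne_zero n hιφ).isUnit
  refine ⟨IsLocalization.lift hunit, fun f => ?_⟩
  rw [← hS]
  exact IsLocalization.lift_eq hunit f

omit [IsAlgClosed k] in
theorem hom_ext_SUB {W : Type} [CommRing W] (f g : LaurentSeries k →+* W)
    (h : ∀ u : PowerSeries k, f (u : LaurentSeries k) = g (u : LaurentSeries k)) : f = g := by
  apply IsLocalization.ringHom_ext (Submonoid.powers (PowerSeries.X : PowerSeries k))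
  exact RingHom.ext h

theorem exists_phi_SUB (e : ℕ) (he : 0 < e) (hek : (e : k) ≠ 0) (w : PowerSeries k)
    (hw : PowerSeries.coeff 1 w ≠ 0) :
    ∃ φ : PowerSeries k, PowerSeries.constantCoeff φ = 0 ∧ PowerSeries.coeff 1 φ ≠ 0 ∧
      PowerSeries.C (PowerSeries.constantCoeff w) + φ ^ e = PowerSeries.expand e he.ne' w ∧
      ∀ ζ : k, ζ ^ e = 1 → PowerSeries.rescale ζ φ = ζ • φ := by
  have h1 : PowerSeries.constantCoeff (PowerSeries.mk fun p => PowerSeries.coeff (p + 1) w) ≠ 0 := by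
    simpa using hw
  obtain ⟨v, hv⟩ := exists_pow_eq_ps e hek _ h1
  have hv0 : PowerSeries.constantCoeff v ≠ 0 := by
    intro h0
    apply h1
    rw [← hv, map_pow, h0, zero_pow he.ne']
  refine ⟨PowerSeries.X * PowerSeries.expand e he.ne' v, by simp, ?_, ?_, fun ζ hζ => ?_⟩
  · rw [PowerSeries.coeff_succ_X_mul, PowerSeries.coeff_zero_eq_constantCoeff_apply,
      PowerSeries.constantCoeff_expand]
    exact hv0
  · conv_rhs => rw [PowerSeries.eq_X_mul_shift_add_const w]
    rw [map_add, map_mul, PowerSeries.expand_C, PowerSeries.expand_X, ← hv, map_pow, mul_pow,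
      add_comm]
  · rw [map_mul, rescale_expand_TR0 e he.ne' ζ hζ, PowerSeries.rescale_X,
      PowerSeries.smul_eq_C_mul, mul_assoc]

/-- An automorphism of k((z)) sending a + z^e to w(z^e). -/
theorem exists_reparam_equiv (e : ℕ) (he : 0 < e) (hek : (e : k) ≠ 0) (w : PowerSeries k)
    (hw : PowerSeries.coeff 1 w ≠ 0) :
    ∃ Φ : LaurentSeries k ≃+* LaurentSeries k, (∀ c, Φ (HahnSeries.C c) = HahnSeries.C c) ∧
      Φ (HahnSeries.C (PowerSeries.constantCoeff w) + HahnSeries.single (e : ℤ) 1) =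
        powL e he (w : LaurentSeries k) ∧
      ∀ (ζ : k) (h : ζ ≠ 0), ζ ^ e = 1 → ∀ x, Φ (scL ζ h x) = scL ζ h (Φ x) := by
  obtain ⟨φ, hφ0, hφ1, hφe, hφζ⟩ := exists_phi_SUB e he hek w hw
  have hs : PowerSeries.HasSubst φ := PowerSeries.HasSubst.of_constantCoeff_zero' hφ0
  have hu : IsUnit (PowerSeries.coeff 1 φ) := hφ1.isUnit
  have hs' := PowerSeries.HasSubst.substInvOfIsUnit φ hu
  have hl := PowerSeries.subst_substInvOfIsUnit_left φ hφ0 hu
  have hr := PowerSeries.subst_substInvOfIsUnit_right φ hφ0 hu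
  have hne : φ ≠ 0 := fun h0 => hφ1 (by rw [h0, map_zero])
  have hne' : φ.substInvOfIsUnit hu ≠ 0 := fun h0 => by
    have h1 := PowerSeries.coeff_one_substInvOfIsUnit φ hu
    rw [h0, map_zero] at h1
    exact Units.ne_zero _ h1.symm
  obtain ⟨Φ, hΦ⟩ := exists_subst_SUB φ hs hne
  obtain ⟨Ψ, hΨ⟩ := exists_subst_SUB _ hs' hne'
  have e1 : Φ.comp Ψ = RingHom.id _ := hom_ext_SUB _ _ fun u => by
    rw [RingHom.comp_apply, hΨ, hΦ, PowerSeries.subst_comp_subst_apply hs' hs, hl,
      PowerSeries.X_subst, RingHom.id_apply]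
  have e2 : Ψ.comp Φ = RingHom.id _ := hom_ext_SUB _ _ fun u => by
    rw [RingHom.comp_apply, hΦ, hΨ, PowerSeries.subst_comp_subst_apply hs hs', hr,
      PowerSeries.X_subst, RingHom.id_apply]
  have hC : ∀ c : k, Φ (HahnSeries.C c) = HahnSeries.C c := fun c => by
    rw [← HahnSeries.ofPowerSeries_C, hΦ, PowerSeries.subst_C]
    rfl
  refine ⟨RingEquiv.ofRingHom Φ Ψ e1 e2, hC, ?_, fun ζ h hζ => ?_⟩
  · change Φ _ = _
    have hX : Φ (HahnSeries.single (e : ℤ) 1) = ((φ ^ e : PowerSeries k) : LaurentSeries k) := by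
      rw [← HahnSeries.ofPowerSeries_X_pow, map_pow, map_pow, map_pow, hΦ, PowerSeries.subst_X hs]
    rw [map_add, hC, hX, powL_coe_SUB, ← hφe, map_add, HahnSeries.ofPowerSeries_C]
  · have hz : PowerSeries.HasSubst (ζ • PowerSeries.X : PowerSeries k) :=
      PowerSeries.HasSubst.smul_X' ζ
    have : Φ.comp (scL ζ h) = (scL ζ h).comp Φ := hom_ext_SUB _ _ fun f => by
      rw [RingHom.comp_apply, RingHom.comp_apply, scL_coe, hΦ, hΦ, scL_coe,
        PowerSeries.rescale_eq_subst ζ f, PowerSeries.rescale_eq_subst,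
        PowerSeries.subst_comp_subst_apply hz hs, PowerSeries.subst_comp_subst_apply hs hz,
        ← PowerSeries.rescale_eq_subst ζ φ, hφζ ζ hζ, PowerSeries.subst_smul hs,
        PowerSeries.subst_X hs]
    exact fun x => DFunLike.congr_fun this x

theorem Cover.mono_iff_rmono {G : Type} [Group G] (c : Cover k G) {e : ℕ} (he : 0 < e) {ζ : k}
    (hζ : IsPrimitiveRoot ζ e) (w : PowerSeries k) (hw : PowerSeries.coeff 1 w ≠ 0) (g : G) :
    c.Mono (PowerSeries.constantCoeff w : k) e ζ g ↔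
      c.RMono HahnSeries.C (powL e he (w : LaurentSeries k)) (scL ζ (hζ.ne_zero he.ne')) g := by
  have : NeZero e := ⟨he.ne'⟩
  have hek : (e : k) ≠ 0 := (hζ.neZero').out
  obtain ⟨Φ, hC, hX, hs⟩ := exists_reparam_equiv e he hek w hw
  have hs' := hs ζ (hζ.ne_zero he.ne') hζ.pow_eq_one
  constructor
  · intro h
    have h1 := h.rmono.comp (Φ : LaurentSeries k →+* LaurentSeries k) _ hs'
    have e1 : (Φ : LaurentSeries k →+* LaurentSeries k).comp HahnSeries.C = HahnSeries.C :=
      RingHom.ext hC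
    have e2 : (Φ : LaurentSeries k →+* LaurentSeries k)
        (expand ((PowerSeries.constantCoeff w : k) : OnePoint k) e) =
        powL e he (w : LaurentSeries k) := hX
    rwa [e1, e2] at h1
  · intro h
    have h1 := h.comp (Φ.symm : LaurentSeries k →+* LaurentSeries k)
      (scL ζ (hζ.ne_zero he.ne')) fun x => by
        change Φ.symm _ = scL ζ _ (Φ.symm x)
        rw [RingEquiv.symm_apply_eq, hs', RingEquiv.apply_symm_apply]
    have e1 : (Φ.symm : LaurentSeries k →+* LaurentSeries k).comp HahnSeries.C = HahnSeries.C :=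
      RingHom.ext fun x => by
        change Φ.symm (HahnSeries.C x) = HahnSeries.C x
        rw [RingEquiv.symm_apply_eq, hC]
    have e2 : (Φ.symm : LaurentSeries k →+* LaurentSeries k) (powL e he (w : LaurentSeries k)) =
        expand ((PowerSeries.constantCoeff w : k) : OnePoint k) e := by
      change Φ.symm _ = _
      rw [RingEquiv.symm_apply_eq]
      exact hX.symm
    rw [e1, e2] at h1
    exact h1.mono he hζ

omit [IsAlgClosed k] in
theorem scL_powL_self (e : ℕ) (he : 0 < e) (ζ : k) (h : ζ ≠ 0) (hζ : ζ ^ e = 1)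
    (x : LaurentSeries k) : scL ζ h (powL e he x) = powL e he x := by
  rw [scL_powL]
  congr 1
  ext n
  rw [scL_coeff, hζ, one_zpow, one_mul]

theorem exists_root_series (N : ℕ) (hN : (N : k) ≠ 0) (α : k) (hα : α ≠ 0) :
    ∃ w : PowerSeries k, PowerSeries.constantCoeff w = α ∧ PowerSeries.coeff 1 w ≠ 0 ∧
      w ^ N = PowerSeries.C (α ^ N) + PowerSeries.X := by
  obtain ⟨v, hv⟩ := exists_pow_eq_ps N hN (PowerSeries.C (α ^ N) + PowerSeries.X)
    (by simpa using fun h => absurd h hα)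
  have h1 : PowerSeries.constantCoeff v ^ N = α ^ N := by
    rw [← map_pow, hv]
    simp
  have hN0 : N ≠ 0 := by
    rintro rfl
    simp at hN
  have h2 : PowerSeries.constantCoeff v ≠ 0 := fun h0 => by
    rw [h0, zero_pow hN0] at h1
    exact pow_ne_zero N hα h1.symm
  have h3 : (PowerSeries.C (α / PowerSeries.constantCoeff v) * v) ^ N =
      PowerSeries.C (α ^ N) + PowerSeries.X := by
    rw [mul_pow, ← map_pow, div_pow, h1, div_self (pow_ne_zero N hα), map_one, one_mul, hv]
  refine ⟨PowerSeries.C (α / PowerSeries.constantCoeff v) * v, ?_, fun h0 => ?_, h3⟩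
  · rw [map_mul, PowerSeries.constantCoeff_C, div_mul_cancel₀ _ h2]
  · have h4 := congrArg (PowerSeries.coeff 1) h3
    rw [PowerSeries.coeff_one_pow, h0, map_add, PowerSeries.coeff_C, if_neg one_ne_zero,
      PowerSeries.coeff_one_X, mul_zero, zero_mul, zero_add] at h4
    exact zero_ne_one h4

theorem root_const_SUB {W : Type} [Field W] (φ : k →+* W) (N : ℕ) (hN : N ≠ 0) (y : W)
    (h : y ^ N = 1) : ∃ ω : k, ω ^ N = 1 ∧ y = φ ω := by
  let := φ.toAlgebra
  have hi : IsIntegral k y :=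
    ⟨Polynomial.X ^ N - Polynomial.C 1, Polynomial.monic_X_pow_sub_C 1 hN, by simp [h]⟩
  obtain ⟨ω, hω⟩ := minpoly.mem_range_of_degree_eq_one k y
    (IsAlgClosed.degree_eq_one_of_irreducible k (minpoly.irreducible hi))
  have hω' : φ ω = y := hω
  exact ⟨ω, φ.injective (by rw [map_pow, map_one, hω', h]), hω'.symm⟩

theorem root_eq_series (N : ℕ) (hN : (N : k) ≠ 0) (e : ℕ) (he : 0 < e) (a : k) (ha : a ≠ 0)
    (η : LaurentSeries k) (h : η ^ N = HahnSeries.C a + HahnSeries.single (e : ℤ) 1) :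
    ∃ w : PowerSeries k, η = powL e he (w : LaurentSeries k) ∧ PowerSeries.coeff 1 w ≠ 0 ∧
      PowerSeries.constantCoeff w ^ N = a := by
  have hN0 : N ≠ 0 := by
    rintro rfl
    simp at hN
  obtain ⟨α, hα⟩ := IsAlgClosed.exists_pow_nat_eq a (Nat.pos_of_ne_zero hN0)
  have hα0 : α ≠ 0 := by
    rintro rfl
    rw [zero_pow hN0] at hα
    exact ha hα.symm
  obtain ⟨w, hw0, hw1, hw⟩ := exists_root_series N hN α hα0
  have hwne : (w : LaurentSeries k) ≠ 0 := fun h0 => hw1 (by
    rw [HahnSeries.ofPowerSeries_injective (h0.trans (map_zero _).symm), map_zero])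
  have hp : powL e he (w : LaurentSeries k) ≠ 0 := (map_ne_zero _).2 hwne
  have h1 : powL e he (w : LaurentSeries k) ^ N = η ^ N := by
    rw [← map_pow, ← map_pow (HahnSeries.ofPowerSeries ℤ k), hw, map_add, map_add, hα,
      HahnSeries.ofPowerSeries_C, HahnSeries.ofPowerSeries_X, powL_C, powL_single, mul_one, h]
  obtain ⟨ω, hω, hy⟩ := root_const_SUB (HahnSeries.C : k →+* LaurentSeries k) N hN0
    (η / powL e he (w : LaurentSeries k)) (by rw [div_pow, ← h1, div_self (pow_ne_zero N hp)])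
  have hω0 : ω ≠ 0 := by
    rintro rfl
    rw [zero_pow hN0] at hω
    exact zero_ne_one hω
  refine ⟨PowerSeries.C ω * w, ?_, ?_, ?_⟩
  · rw [map_mul, map_mul, HahnSeries.ofPowerSeries_C, powL_C, ← hy, div_mul_cancel₀ _ hp]
  · rw [PowerSeries.coeff_C_mul]
    exact mul_ne_zero hω0 hw1
  · rw [map_mul, PowerSeries.constantCoeff_C, mul_pow, hω, one_mul, hw0, hα]

theorem root_eq_single (N : ℕ) (hN : (N : k) ≠ 0) (n : ℤ) (η : LaurentSeries k)
    (h : η ^ N = HahnSeries.single n 1) :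
    ∃ (n' : ℤ) (ω : k), n = N * n' ∧ ω ^ N = 1 ∧ η = HahnSeries.single n' ω := by
  have hN0 : N ≠ 0 := by
    rintro rfl
    simp at hN
  have h1 : n = N * η.order := by
    have := congrArg HahnSeries.order h
    rw [HahnSeries.order_pow, HahnSeries.order_single one_ne_zero, nsmul_eq_mul] at this
    exact this.symm
  obtain ⟨ω, hω, hy⟩ := root_const_SUB (HahnSeries.C : k →+* LaurentSeries k) N hN0
    (η * HahnSeries.single (-η.order) 1) (by
      rw [mul_pow, h, HahnSeries.single_pow, HahnSeries.single_mul_single, one_pow, one_mul,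
        nsmul_eq_mul, h1, mul_neg, add_neg_cancel]
      rfl)
  refine ⟨η.order, ω, h1, hω, ?_⟩
  have h2 := congrArg (· * HahnSeries.single η.order (1 : k)) hy
  simp only [mul_assoc, HahnSeries.single_mul_single, neg_add_cancel, mul_one,
    HahnSeries.C_apply, zero_add] at h2
  rw [← h2]
  exact (mul_one η).symm

end Pool.Agent.Adm

end

section

/-! Conjugacy in regular wreath products. -/

namespace Pool.Agent.Adm

variable {B A : Type} [Group B] [Group A]

theorem pow_right_CJ (g : RegularWreathProduct B A) (e : ℕ) : (g ^ e).right = g.right ^ e :=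
  map_pow RegularWreathProduct.rightHom g e

theorem pow_succ_left_CJ (g : RegularWreathProduct B A) (i : ℕ) :
    (g ^ (i + 1)).left (g.right ^ (i + 1)) =
      g.left (g.right ^ (i + 1)) * (g ^ i).left (g.right ^ i) := by
  rw [pow_succ' g, RegularWreathProduct.mul_left, Pi.mul_apply]
  congr 2
  rw [pow_succ', inv_mul_cancel_left]

theorem wr_isConj_of_right_one {g g' : RegularWreathProduct B A} (h : g.right = 1)
    (h' : g'.right = 1) (hl : ∀ t, IsConj (g.left t) (g'.left t)) : IsConj g g' := by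
  choose c hc using fun t => isConj_iff.1 (hl t)
  refine isConj_iff.2 ⟨⟨c, 1⟩, ?_⟩
  ext t
  · simp [h, ← hc]
  · simp [h, h']

theorem wr_isConj_of_gen [Fintype A] {g g' : RegularWreathProduct B A} (hr : g.right = g'.right)
    (hg : ∀ t, t ∈ Subgroup.zpowers g.right)
    (hl : IsConj ((g ^ Fintype.card A).left 1) ((g' ^ Fintype.card A).left 1)) : IsConj g g' := by
  obtain ⟨u, hu⟩ := isConj_iff.1 hl
  have ho : orderOf g.right = Fintype.card A := by
    rw [orderOf_eq_card_of_forall_mem_zpowers hg, Nat.card_eq_fintype_card]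
  have hN : g.right ^ Fintype.card A = 1 := pow_card_eq_one
  let f : ℕ → B := fun i => (g' ^ i).left (g.right ^ i) * u * ((g ^ i).left (g.right ^ i))⁻¹
  have hf : ∀ i, f (i + 1) =
      g'.left (g.right ^ (i + 1)) * f i * (g.left (g.right ^ (i + 1)))⁻¹ := by
    intro i
    have h1 := pow_succ_left_CJ g i
    have h2 := pow_succ_left_CJ g' i
    rw [← hr] at h2
    simp only [f, h1, h2, mul_inv_rev, mul_assoc]
  have hper : Function.Periodic f (Fintype.card A) := by
    intro i
    induction i with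
    | zero =>
      simp only [f, zero_add, hN, pow_zero, RegularWreathProduct.one_left, Pi.one_apply, ← hu]
      group
    | succ i ih =>
      rw [add_right_comm, hf, hf, ih, add_right_comm, pow_add _ (i + 1), hN, mul_one]
  have hwd : ∀ i j, g.right ^ i = g.right ^ j → f i = f j := by
    intro i j hij
    rw [pow_eq_pow_iff_modEq, ho] at hij
    rw [← hper.map_mod_nat i, ← hper.map_mod_nat j, hij]
  have hex : ∀ t : A, ∃ i : ℕ, g.right ^ i = t := fun t =>
    (Submonoid.mem_powers_iff _ _).1 (mem_powers_iff_mem_zpowers.2 (hg t))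
  choose e he using hex
  have hc : ∀ i, f (e (g.right ^ i)) = f i := fun i => hwd _ _ (he _)
  refine isConj_iff.2 ⟨⟨fun t => f (e t), 1⟩, ?_⟩
  rw [mul_inv_eq_iff_eq_mul]
  ext t
  · have ht : t = g.right ^ (e (g.right⁻¹ * t) + 1) := by
      rw [pow_succ', he, mul_inv_cancel_left]
    generalize e (g.right⁻¹ * t) = i at ht
    subst ht
    have h3 : g.right⁻¹ * g.right ^ (i + 1) = g.right ^ i := by
      rw [pow_succ', inv_mul_cancel_left]
    simp only [RegularWreathProduct.mul_left, Pi.mul_apply, inv_one, one_mul, ← hr, h3, hc, hf,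
      inv_mul_cancel_right]
  · simp [hr]

theorem wr_conj_left (g w : RegularWreathProduct B A) (h : g.right = 1) (t : A) :
    (w⁻¹ * g * w).left t =
      (w.left (w.right * t))⁻¹ * g.left (w.right * t) * w.left (w.right * t) := by
  simp [h]

theorem wr_pow_right (g : RegularWreathProduct B A) (e : ℕ) : (g ^ e).right = g.right ^ e := by
  exact pow_right_CJ g e

theorem wr_pow_left (g : RegularWreathProduct B A) (h : g.right = 1) (e : ℕ) (t : A) :
    (g ^ e).left t = g.left t ^ e := by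
  induction e with
  | zero => simp
  | succ e ih => rw [pow_succ', pow_succ', RegularWreathProduct.mul_left, Pi.mul_apply, h, inv_one,
      one_mul, ih]

theorem wr_inv_left (g : RegularWreathProduct B A) (h : g.right = 1) (t : A) :
    g⁻¹.left t = (g.left t)⁻¹ := by
  simp [h]

theorem exists_wr_hom {Γ : Type} [Group Γ] (κ : Γ →* A) (s : A → Γ) (hs : ∀ t, κ (s t) = t)
    (β : κ.ker →* B) : ∃ ι : Γ →* RegularWreathProduct B A, (∀ x, (ι x).right = κ x) ∧
      ∀ x t (h : κ.ker), (h : Γ) = (s t)⁻¹ * x * s ((κ x)⁻¹ * t) → (ι x).left t = β h := by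
  have hm : ∀ x t, (s t)⁻¹ * x * s ((κ x)⁻¹ * t) ∈ κ.ker := by
    intro x t
    simp [MonoidHom.mem_ker, hs]
  refine ⟨MonoidHom.mk' (fun x => ⟨fun t => β ⟨_, hm x t⟩, κ x⟩) ?_, fun x => rfl, ?_⟩
  · intro x y
    ext t
    · simp only [RegularWreathProduct.mul_left, Pi.mul_apply, ← map_mul]
      congr 1
      apply Subtype.ext
      simp only [Subgroup.coe_mul, map_mul, mul_inv_rev, mul_assoc, mul_inv_cancel_left]
    · simp
  · intro x t h hh
    change β _ = β h
    congr 1
    exact Subtype.ext hh.symm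

theorem exists_wr_base : ∃ i : (A → B) →* RegularWreathProduct B A,
    ∀ b, (i b).left = b ∧ (i b).right = 1 := by
  refine ⟨MonoidHom.mk' (fun b => ⟨b, 1⟩) ?_, fun b => ⟨rfl, rfl⟩⟩
  intro x y
  ext t
  · simp
  · simp

theorem exists_wr_eval {Γ : Type} [Group Γ] (π : Γ →* RegularWreathProduct B A) :
    ∃ β : (RegularWreathProduct.rightHom.comp π).ker →* B, ∀ h, β h = (π h).left 1 := by
  refine ⟨MonoidHom.mk' (fun h => (π h).left 1) ?_, fun h => rfl⟩
  intro x y
  have hx : (π x).right = 1 := x.2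
  simp [hx]

theorem isConj_pi {J : Type} {C : J → Type} [∀ j, Group (C j)] {g g' : ∀ j, C j}
    (h : ∀ j, IsConj (g j) (g' j)) : IsConj g g' := by
  choose c hc using fun j => isConj_iff.1 (h j)
  exact isConj_iff.2 ⟨c, funext hc⟩

end Pool.Agent.Adm

end

section

/-! Every polynomial is the determinant of a matrix with affine entries. -/

namespace Pool.Agent.Adm

open MvPolynomial

section

open Matrix

variable {σ R : Type} [Fintype σ] [CommRing R]

/-- Polynomials of degree at most one. -/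
def Aff_DU (p : MvPolynomial σ R) : Prop := ∃ (a : R) (b : σ → R), p = C a + ∑ l, C (b l) * X l

theorem aff_C_DU (a : R) : Aff_DU (C a : MvPolynomial σ R) := ⟨a, 0, by simp⟩

theorem aff_zero_DU : Aff_DU (0 : MvPolynomial σ R) := ⟨0, 0, by simp⟩

theorem aff_one_DU : Aff_DU (1 : MvPolynomial σ R) := ⟨1, 0, by simp⟩

theorem aff_X_DU (l : σ) (a : R) : Aff_DU (-(X l * C a) : MvPolynomial σ R) := by
  classical
  refine ⟨0, Pi.single l (-a), ?_⟩
  rw [Finset.sum_eq_single l (fun j _ hj => by simp [hj]) (by simp)]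
  simp [mul_comm]

theorem inv_DU (g : MvPolynomial σ R) :
    ∃ (ι : Type) (_ : Fintype ι) (_ : DecidableEq ι) (A B : Matrix ι ι (MvPolynomial σ R))
      (u : Matrix Unit ι (MvPolynomial σ R)) (v : Matrix ι Unit (MvPolynomial σ R)),
      (∀ i j, Aff_DU (A i j)) ∧ (∀ i j, ∃ a, u i j = C a) ∧ (∀ i j, ∃ a, v i j = C a) ∧
      A * B = 1 ∧ A.det = 1 ∧ (u * B * v) () () = g := by
  induction g using MvPolynomial.induction_on with
  | C a =>
    exact ⟨Unit, inferInstance, inferInstance, 1, 1, Matrix.of fun _ _ => C a, 1,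
      fun _ _ => by rw [one_apply_eq]; exact aff_one_DU, fun _ _ => ⟨a, rfl⟩,
      fun _ _ => ⟨1, by simp⟩, by simp, by simp, by simp⟩
  | add p q hp hq =>
    obtain ⟨ι, _, _, A, B, u, v, h1, h2, h3, h4, h5, h6⟩ := hp
    obtain ⟨κ, _, _, A', B', u', v', k1, k2, k3, k4, k5, k6⟩ := hq
    refine ⟨ι ⊕ κ, inferInstance, inferInstance, fromBlocks A 0 0 A', fromBlocks B 0 0 B',
      fromCols u u', fromRows v v', ?_, ?_, ?_, ?_, ?_, ?_⟩
    · rintro (i | i) (j | j)
      · exact h1 i j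
      · exact aff_zero_DU
      · exact aff_zero_DU
      · exact k1 i j
    · rintro i (j | j)
      · exact h2 i j
      · exact k2 i j
    · rintro (i | i) j
      · exact h3 i j
      · exact k3 i j
    · simp [fromBlocks_multiply, h4, k4]
    · rw [det_fromBlocks_zero₂₁, h5, k5, mul_one]
    · simp [fromCols_mul_fromBlocks, fromCols_mul_fromRows, h6, k6]
  | mul_X p l hp =>
    obtain ⟨ι, _, _, A, B, u, v, h1, h2, h3, h4, h5, h6⟩ := hp
    refine ⟨ι ⊕ Unit, inferInstance, inferInstance,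
      fromBlocks A (-((X l : MvPolynomial σ R) • v)) 0 1,
      fromBlocks B ((X l : MvPolynomial σ R) • (B * v)) 0 1,
      fromCols u 0, fromRows 0 1, ?_, ?_, ?_, ?_, ?_, ?_⟩
    · rintro (i | i) (j | j)
      · exact h1 i j
      · obtain ⟨a, ha⟩ := h3 i j
        simpa [ha] using aff_X_DU l a
      · exact aff_zero_DU
      · exact aff_one_DU
    · rintro i (j | j)
      · exact h2 i j
      · exact ⟨0, by simp⟩
    · rintro (i | i) j
      · exact ⟨0, by simp⟩
      · exact ⟨1, by simp⟩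
    · simp [fromBlocks_multiply, h4, ← Matrix.mul_assoc]
    · rw [det_fromBlocks_zero₂₁, h5, det_one, mul_one]
    · simp [fromCols_mul_fromBlocks, fromCols_mul_fromRows, ← Matrix.mul_assoc, h6, mul_comm]

theorem mat_DU (g : MvPolynomial σ R) :
    ∃ (ι : Type) (_ : Fintype ι) (_ : DecidableEq ι) (M : Matrix ι ι (MvPolynomial σ R)),
      (∀ i j, Aff_DU (M i j)) ∧ M.det = g := by
  obtain ⟨ι, _, _, A, B, u, v, h1, h2, h3, h4, h5, h6⟩ := inv_DU g
  refine ⟨ι ⊕ Unit, inferInstance, inferInstance, fromBlocks A v (-u) 0, ?_, ?_⟩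
  · rintro (i | i) (j | j)
    · exact h1 i j
    · obtain ⟨a, ha⟩ := h3 i j
      simpa [ha] using aff_C_DU a
    · obtain ⟨a, ha⟩ := h2 i j
      simpa [ha] using aff_C_DU (σ := σ) (-a)
    · exact aff_zero_DU
  · have hB : B.det = 1 := by
      have := congrArg det h4
      rwa [det_mul, h5, one_mul, det_one] at this
    have e : fromBlocks A v (-u) 0 * fromBlocks B (-(B * v)) 0 1 =
        fromBlocks 1 0 (-(u * B)) (u * B * v) := by
      simp [fromBlocks_multiply, h4, ← Matrix.mul_assoc]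
    have := congrArg det e
    rwa [det_mul, det_fromBlocks_zero₂₁, det_fromBlocks_zero₁₂, hB, det_one, det_one, mul_one,
      mul_one, one_mul, det_unique (u * B * v), h6] at this

theorem odd_DU (g : MvPolynomial σ R) :
    ∃ (ι : Type) (_ : Fintype ι) (_ : DecidableEq ι) (M : Matrix ι ι (MvPolynomial σ R)),
      Odd (Fintype.card ι) ∧ (∀ i j, Aff_DU (M i j)) ∧ M.det = g := by
  obtain ⟨ι, _, _, M, h1, h2⟩ := mat_DU g
  rcases Nat.even_or_odd (Fintype.card ι) with h | h
  · refine ⟨ι ⊕ Unit, inferInstance, inferInstance, fromBlocks M 0 0 1, ?_, ?_, ?_⟩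
    · simpa using h.add_one
    · rintro (i | i) (j | j)
      · exact h1 i j
      · exact aff_zero_DU
      · exact aff_zero_DU
      · exact aff_one_DU
    · rw [det_fromBlocks_zero₂₁, h2, det_one, mul_one]
  · exact ⟨ι, _, _, M, h, h1, h2⟩

end

theorem exists_det_eq {σ R : Type} [Fintype σ] [CommRing R] (g : MvPolynomial σ R) :
    ∃ s : ℕ, Odd s ∧ ∃ (M0 : Matrix (Fin s) (Fin s) R) (M1 : σ → Matrix (Fin s) (Fin s) R),
      (Matrix.of fun i j => C (M0 i j) + ∑ l, C (M1 l i j) * X l : Matrix (Fin s) (Fin s)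
        (MvPolynomial σ R)).det = g := by
  obtain ⟨ι, _, _, M, h0, h1, h2⟩ := odd_DU g
  choose a b hab using h1
  let e := (Fintype.equivFin ι).symm
  refine ⟨_, h0, Matrix.of fun i j => a (e i) (e j), fun l => Matrix.of fun i j => b (e i) (e j) l,
    ?_⟩
  rw [← h2, ← Matrix.det_submatrix_equiv_self e]
  congr 1
  ext1 i j
  exact (hab _ _).symm

end Pool.Agent.Adm

end

section

/-! A compactness argument for endomorphisms of the algebraic closure of a finite field. -/

namespace Pool.Agent.Adm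

theorem const_CMP {I A : Type} (𝒰 : Ultrafilter I) (f : I → A) {s : Set A} (hs : s.Finite)
    (hf : ∀ i, f i ∈ s) : ∃ a, ∀ᶠ i in 𝒰, f i = a := by
  have h : ∀ᶠ i in 𝒰, ∃ a ∈ s, f i = a := Filter.Eventually.of_forall fun i => ⟨_, hf i, rfl⟩
  obtain ⟨a, -, ha⟩ := (Ultrafilter.eventually_exists_mem_iff hs).1 h
  exact ⟨a, ha⟩

theorem finite_CMP (x : K0) : ∃ s : Set K0, s.Finite ∧ ∀ σ : K0 →+* K0, σ x ∈ s := by
  refine ⟨(minpoly (ZMod 2) x).rootSet K0, Polynomial.rootSet_finite _ _, fun σ => ?_⟩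
  have hx : IsIntegral (ZMod 2) x := Algebra.IsIntegral.isIntegral x
  let τ : K0 →ₐ[ZMod 2] K0 :=
    { σ with
      commutes' := fun c => congrArg (fun f : ZMod 2 →+* K0 => f c)
        (RingHom.ext_zmod (σ.comp (algebraMap (ZMod 2) K0)) (algebraMap (ZMod 2) K0)) }
  rw [Polynomial.mem_rootSet_of_ne (minpoly.ne_zero hx)]
  change Polynomial.aeval (τ x) _ = 0
  rw [Polynomial.aeval_algHom_apply, minpoly.aeval, map_zero]

theorem exists_forall_of_finite {T U : Type} [Finite U] (P : U → (K0 →+* K0) → T → Prop)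
    (hloc : ∀ t, ∃ S : Finset K0, ∀ u σ σ', (∀ x ∈ S, σ x = σ' x) → P u σ t → P u σ' t)
    (hfin : ∀ S : Finset T, ∃ u σ, ∀ t ∈ S, P u σ t) : ∃ u σ, ∀ t, P u σ t := by
  classical
  choose u σ h using hfin
  let 𝒰 : Ultrafilter (Finset T) := Ultrafilter.of Filter.atTop
  have hU : (𝒰 : Filter (Finset T)) ≤ Filter.atTop := Ultrafilter.of_le _
  obtain ⟨u0, hu⟩ := const_CMP 𝒰 u Set.finite_univ fun _ => trivial
  have h1 : ∀ x, ∃ a, ∀ᶠ S in 𝒰, σ S x = a := fun x => by
    obtain ⟨s, hs, h2⟩ := finite_CMP x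
    exact const_CMP 𝒰 (fun S => σ S x) hs fun S => h2 _
  choose s hs using h1
  let τ : K0 →+* K0 :=
    { toFun := s
      map_one' := by
        obtain ⟨S, h2⟩ := (hs 1).exists
        rw [← h2, map_one]
      map_zero' := by
        obtain ⟨S, h2⟩ := (hs 0).exists
        rw [← h2, map_zero]
      map_mul' := fun x y => by
        obtain ⟨S, h2, h3, h4⟩ := ((hs x).and ((hs y).and (hs (x * y)))).exists
        rw [← h2, ← h3, ← h4, map_mul]
      map_add' := fun x y => by
        obtain ⟨S, h2, h3, h4⟩ := ((hs x).and ((hs y).and (hs (x + y)))).exists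
        rw [← h2, ← h3, ← h4, map_add] }
  refine ⟨u0, τ, fun t => ?_⟩
  obtain ⟨A, hA⟩ := hloc t
  have h2 : ∀ᶠ S in 𝒰, ∀ x ∈ A, σ S x = s x := (Filter.eventually_all_finset A).2 fun x _ => hs x
  have h3 : ∀ᶠ S : Finset T in 𝒰, ({t} : Finset T) ≤ S :=
    (Filter.eventually_ge_atTop ({t} : Finset T)).filter_mono hU
  obtain ⟨S, h4, h5, h6⟩ := (hu.and (h2.and h3)).exists
  exact hA u0 (σ S) τ h5 (h4 ▸ h S t (h6 (Finset.mem_singleton_self t)))

end Pool.Agent.Adm

end
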