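import Pool.Agent.Mg.F0854a0.G82424f
import Pool.Agent.Mg.F0854a0.Gea2904
import Pool.Agent.Mg.F0854a0.G6ceadf
import Pool.Agent.Mg.F0854a0.G106170
import Pool.Agent.Mg.F0854a0.G5d1e19
import Mathlib
import Pool.Agent.AdmG.Defs

section

/-! Substitutions close to the identity on the circle. -/

namespace Pool.Agent.Adm.T

variable {C : Type} [NormedField C] [CompleteSpace C] [IsUltrametricDist C]

open Filter Topology

theorem ultra_MM1 : IsUltrametricDist (T C) :=
  IsUltrametricDist.isUltrametricDist_of_forall_norm_add_le_max_norm fun f g =>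
    norm_le _ (le_max_of_le_left (norm_nonneg _)) fun n => by
      rw [coeff_add]
      exact (IsUltrametricDist.norm_add_le_max _ _).trans
        (max_le_max (norm_coeff_le _ _) (norm_coeff_le _ _))

theorem norm_mono_MM1 (n : ℤ) (c : C) : ‖mono n c‖ ≤ ‖c‖ := by
  refine norm_le _ (norm_nonneg _) fun i => ?_
  rw [coeff_mono]
  split_ifs
  · exact le_rfl
  · simp

theorem norm_cst_mul_MM1 (c : C) (f : T C) : ‖cst c * f‖ ≤ ‖c‖ * ‖f‖ :=
  (norm_mul_le _ _).trans (mul_le_mul_of_nonneg_right (norm_mono_MM1 0 c) (norm_nonneg _))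

theorem cst_mul_mono_MM1 (c : C) (n : ℤ) : cst c * mono n 1 = mono n c := by
  rw [cst_apply, mono_mul_mono, zero_add, mul_one]

theorem summable_MM1 (f : T C) {w : ℤ → T C} (hw : ∀ n, ‖w n‖ ≤ 1) :
    Summable fun n => cst (f.coeff n) * w n := by
  have := ultra_MM1 (C := C)
  refine NonarchimedeanAddGroup.summable_of_tendsto_cofinite_zero ?_
  refine squeeze_zero_norm (a := fun n => ‖f.coeff n‖) (fun n => ?_) ?_
  · exact (norm_cst_mul_MM1 _ _).trans (mul_le_of_le_one_right (norm_nonneg _) (hw n))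
  · simpa using f.tendsto_coeff.norm

theorem hasSum_mono_MM1 (f : T C) : HasSum (fun n => mono n (f.coeff n)) f := by
  have h1 := (summable_MM1 f norm_mono_le_T6).hasSum
  simp only [cst_mul_mono_MM1] at h1
  convert h1 using 1
  ext k
  have h2 := h1.map (AddMonoidHom.mk' (fun g : T C => g.coeff k) fun a b => coeff_add a b k)
    (continuous_coeff k)
  have h3 : HasSum (fun n => (mono n (f.coeff n)).coeff k) (f.coeff k) := by
    have h4 := hasSum_single (f := fun n => (mono n (f.coeff n)).coeff k) k fun n hn => by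
      rw [coeff_mono, if_neg hn.symm]
    rwa [coeff_mono, if_pos rfl] at h4
  exact h3.unique h2

theorem ext_MM1 (A B : T C →+ T C) (hA : Continuous A) (hB : Continuous B)
    (h : ∀ n c, A (mono n c) = B (mono n c)) (f : T C) : A f = B f := by
  have h1 := (hasSum_mono_MM1 f).map A hA
  have h2 := (hasSum_mono_MM1 f).map B hB
  have e : A ∘ (fun n => mono n (f.coeff n)) = B ∘ fun n => mono n (f.coeff n) :=
    funext fun n => h _ _
  rw [e] at h1
  exact h1.unique h2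

theorem norm_le_one_MM1 {x : T C} (h : ‖x - 1‖ ≤ 1) : ‖x‖ ≤ 1 := by
  have := ultra_MM1 (C := C)
  have h1 := IsUltrametricDist.norm_add_le_max (x - 1) 1
  rw [sub_add_cancel] at h1
  exact h1.trans (max_le h (norm_mono_le_T6 0))

theorem zpow_near_MM1 (u : (T C)ˣ) {ρ : ℝ} (hρ : ρ < 1) (h : ‖(u : T C) - 1‖ ≤ ρ) (n : ℤ) :
    ‖((u ^ n : (T C)ˣ) : T C) - 1‖ ≤ ρ := by
  have := ultra_MM1 (C := C)
  have h0 : 0 ≤ ρ := (norm_nonneg _).trans h
  let S : Subgroup (T C)ˣ :=
    { carrier := {x | ‖(x : T C) - 1‖ ≤ ρ}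
      one_mem' := by simpa using h0
      mul_mem' := fun {x y} hx hy => by
        have hx' : ‖(x : T C) - 1‖ ≤ ρ := hx
        have hy' : ‖(y : T C) - 1‖ ≤ ρ := hy
        have e : ((x * y : (T C)ˣ) : T C) - 1 = x * (y - 1) + (x - 1) := by
          rw [Units.val_mul]
          ring
        change ‖((x * y : (T C)ˣ) : T C) - 1‖ ≤ ρ
        rw [e]
        refine (IsUltrametricDist.norm_add_le_max _ _).trans (max_le ?_ hx')
        refine (norm_mul_le _ _).trans ?_
        exact (mul_le_of_le_one_left (norm_nonneg _)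
          (norm_le_one_MM1 (hx'.trans hρ.le))).trans hy'
      inv_mem' := fun {x} hx => by
        have hx' : ‖(x : T C) - 1‖ ≤ ρ := hx
        have e : ((x⁻¹ : (T C)ˣ) : T C) - 1 = -(((x⁻¹ : (T C)ˣ) : T C) * (x - 1)) := by
          rw [mul_sub, Units.inv_mul]
          ring
        have h1 : ‖((x⁻¹ : (T C)ˣ) : T C) - 1‖ ≤ ‖((x⁻¹ : (T C)ˣ) : T C)‖ * ρ := by
          rw [e, norm_neg]
          exact (norm_mul_le _ _).trans (mul_le_mul_of_nonneg_left hx' (norm_nonneg _))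
        have h2 := IsUltrametricDist.norm_add_le_max (((x⁻¹ : (T C)ˣ) : T C) - 1) 1
        rw [sub_add_cancel] at h2
        have h3 : ‖(1 : T C)‖ ≤ 1 := norm_mono_le_T6 0
        have h4 : ‖((x⁻¹ : (T C)ˣ) : T C)‖ ≤ 1 := by
          rcases le_max_iff.1 h2 with h5 | h5
          · nlinarith [norm_nonneg ((x⁻¹ : (T C)ˣ) : T C)]
          · exact h5.trans h3
        exact h1.trans (mul_le_of_le_one_left h0 h4) }
  exact S.zpow_mem h n

theorem exists_fam_MM1 (v : T C) (hv : ‖v - mono 1 1‖ < 1) :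
    ∃ w : ℤ → T C, w 0 = 1 ∧ w 1 = v ∧ (∀ m n, w (m + n) = w m * w n) ∧
      ∀ n, ‖w n - mono n 1‖ ≤ ‖v - mono 1 1‖ := by
  have h1 : ‖mono (-1) 1 * (mono 1 1 - v)‖ ≤ ‖v - mono 1 1‖ := by
    rw [norm_sub_rev]
    exact (norm_mul_le _ _).trans (mul_le_of_le_one_left (norm_nonneg _) (norm_mono_le_T6 _))
  let u : (T C)ˣ := Units.oneSub _ (h1.trans_lt hv)
  have hu : (u : T C) = 1 - mono (-1) 1 * (mono 1 1 - v) := rfl
  have h2 : ‖(u : T C) - 1‖ ≤ ‖v - mono 1 1‖ := by
    rwa [hu, sub_sub_cancel_left, norm_neg]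
  refine ⟨fun n => mono n 1 * ((u ^ n : (T C)ˣ) : T C), ?_, ?_, fun m n => ?_, fun n => ?_⟩
  · simp only [zpow_zero, Units.val_one, mul_one]
    rfl
  · have e : (mono 1 1 : T C) * mono (-1) 1 = 1 := by
      rw [mono_mul_mono, add_neg_cancel, mul_one]
      rfl
    simp only [zpow_one, hu]
    rw [mul_sub, ← mul_assoc, e]
    ring
  · have e : (mono (m + n) 1 : T C) = mono m 1 * mono n 1 := by rw [mono_mul_mono, mul_one]
    simp only [zpow_add, Units.val_mul, e]
    ring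
  · rw [← mul_sub_one]
    exact (norm_mul_le _ _).trans ((mul_le_of_le_one_left (norm_nonneg _)
      (norm_mono_le_T6 _)).trans (zpow_near_MM1 u hv h2 n))

theorem exists_subst_hom (v : T C) (hv : ‖v - mono 1 1‖ < 1) :
    ∃ Ψ : T C →+* T C, (∀ x, Ψ (cst x) = cst x) ∧ Ψ (mono 1 1) = v ∧
      (∀ f, ‖Ψ f - f‖ ≤ ‖v - mono 1 1‖ * ‖f‖) ∧ (v ∈ Tp C → ∀ f ∈ Tp C, Ψ f ∈ Tp C) := by
  have := ultra_MM1 (C := C)
  obtain ⟨w, h0, h1, hm, hn⟩ := exists_fam_MM1 v hv
  have hw : ∀ n, ‖w n‖ ≤ 1 := fun n => by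
    have h2 := IsUltrametricDist.norm_add_le_max (w n - mono n 1) (mono n 1)
    rw [sub_add_cancel] at h2
    exact h2.trans (max_le ((hn n).trans hv.le) (norm_mono_le_T6 n))
  let A : T C →+ T C := AddMonoidHom.mk' (fun f => ∑' n, cst (f.coeff n) * w n) fun f g => by
    rw [← (summable_MM1 f hw).tsum_add (summable_MM1 g hw)]
    exact tsum_congr fun n => by rw [coeff_add, map_add, add_mul]
  have hA : ∀ f, A f = ∑' n, cst (f.coeff n) * w n := fun _ => rfl
  have hA1 : ∀ n c, A (mono n c) = cst c * w n := fun n c => by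
    rw [hA, tsum_eq_single n fun i hi => by rw [coeff_mono, if_neg hi, map_zero, zero_mul],
      coeff_mono, if_pos rfl]
  have hA2 : ∀ f, ‖A f - f‖ ≤ ‖v - mono 1 1‖ * ‖f‖ := fun f => by
    rw [hA, ← ((summable_MM1 f hw).hasSum.sub (hasSum_mono_MM1 f)).tsum_eq]
    refine IsUltrametricDist.norm_tsum_le_of_forall_le fun n => ?_
    rw [← cst_mul_mono_MM1 (f.coeff n), ← mul_sub, mul_comm ‖v - mono 1 1‖]
    exact (norm_cst_mul_MM1 _ _).trans
      (mul_le_mul (norm_coeff_le _ _) (hn n) (norm_nonneg _) (norm_nonneg _))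
  have hc : Continuous A := by
    refine AddMonoidHomClass.continuous_of_bound A 1 fun f => ?_
    rw [hA, one_mul]
    refine IsUltrametricDist.norm_tsum_le_of_forall_le fun n => ?_
    exact (norm_cst_mul_MM1 _ _).trans
      ((mul_le_of_le_one_right (norm_nonneg _) (hw n)).trans (norm_coeff_le _ _))
  have hmul : ∀ f g, A (f * g) = A f * A g := fun f g => by
    refine ext_MM1 (A.comp (AddMonoidHom.mulRight g)) ((AddMonoidHom.mulRight (A g)).comp A)
      (hc.comp (continuous_mul_const g)) ((continuous_mul_const _).comp hc) (fun m a => ?_) f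
    refine ext_MM1 (A.comp (AddMonoidHom.mulLeft (mono m a)))
      ((AddMonoidHom.mulLeft (A (mono m a))).comp A)
      (hc.comp (continuous_const_mul _)) ((continuous_const_mul _).comp hc) (fun n b => ?_) g
    change A (mono m a * mono n b) = A (mono m a) * A (mono n b)
    rw [mono_mul_mono, hA1, hA1, hA1, hm, map_mul]
    ring
  have hcst : ∀ x, A (cst x) = cst x := fun x => by rw [cst_apply, hA1, h0, mul_one, cst_apply]
  have hone : A 1 = 1 := by simpa only [map_one] using hcst 1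
  refine ⟨{ A with map_one' := hone, map_mul' := hmul }, hcst, ?_, hA2, fun hp f hf => ?_⟩
  · change A (mono 1 1) = v
    rw [hA1, h1, map_one, one_mul]
  · have h2 : ∀ n : ℕ, w n ∈ Tp C := fun n => by
      induction n with
      | zero =>
        rw [Nat.cast_zero, h0]
        exact one_mem _
      | succ n ih =>
        rw [Nat.cast_succ, hm, h1]
        exact mul_mem ih hp
    refine tsum_mem isClosed_Tp fun n => ?_
    rcases lt_or_ge n 0 with h3 | h3
    · rw [hf n h3, map_zero, zero_mul]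
      exact zero_mem _
    · obtain ⟨m, rfl⟩ := Int.eq_ofNat_of_zero_le h3
      exact mul_mem (mono_mem_Tp 0 le_rfl _) (h2 m)

theorem exists_subst (v : T C) (hv : ‖v - mono 1 1‖ < 1) (hp : v ∈ Tp C) :
    ∃ Ψ : T C →+* T C, (∀ x, Ψ (cst x) = cst x) ∧ Ψ (mono 1 1) = v ∧
      (∀ f ∈ Tp C, Ψ f ∈ Tp C) ∧ ∀ f, Ψ f ∈ Tp C → f ∈ Tp C := by
  obtain ⟨Ψ, h1, h2, h3, h4⟩ := exists_subst_hom v hv
  refine ⟨Ψ, h1, h2, h4 hp, fun f hf => ?_⟩
  have h5 : Ψ (f - posT6 f) ∈ Tp C := by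
    rw [map_sub]
    exact sub_mem hf (h4 hp _ (posT6_mem f))
  have h6 : ‖f - posT6 f‖ ≤ ‖v - mono 1 1‖ * ‖f - posT6 f‖ := by
    refine le_trans (norm_le _ (norm_nonneg _) fun n => ?_) (h3 _)
    rcases lt_or_ge n 0 with h | h
    · refine le_of_eq_of_le ?_ (norm_coeff_le _ n)
      rw [coeff_sub (Ψ _), h5 n h, zero_sub, norm_neg]
    · rw [coeff_sub, coeff_posT6, if_pos h, sub_self, norm_zero]
      exact norm_nonneg _
  have h7 : ‖f - posT6 f‖ = 0 := by nlinarith [norm_nonneg (f - posT6 f)]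
  rw [sub_eq_zero.1 (norm_eq_zero.1 h7)]
  exact posT6_mem f

end Pool.Agent.Adm.T

end

section

/-! Small polynomial perturbations of the coordinate. -/

namespace Pool.Agent.Adm

open Polynomial

variable {C : Type} [NormedField C] [IsUltrametricDist C]

/-- The polynomial ε is small on the disc of radius the norm of c. -/
def SmallOn (c : C) (ε : C[X]) : Prop := ∀ i, ‖ε.coeff i‖ * ‖c‖ ^ i < ‖c‖

theorem mul_le_MM2 {p q : C[X]} (hp : ∀ j, ‖p.coeff j‖ ≤ 1) (hq : ∀ j, ‖q.coeff j‖ ≤ 1) (j : ℕ) :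
    ‖(p * q).coeff j‖ ≤ 1 := by
  rw [coeff_mul]
  refine IsUltrametricDist.norm_sum_le_of_forall_le_of_nonneg zero_le_one fun x _ => ?_
  rw [norm_mul]
  exact mul_le_one₀ (hp _) (norm_nonneg _) (hq _)

omit [IsUltrametricDist C] in
theorem SmallOn.bound_MM2 {c : C} {ε : C[X]} (h : SmallOn c ε) :
    ∃ r : ℝ, 0 ≤ r ∧ r < ‖c‖ ∧ ∀ i, ‖ε.coeff i‖ * ‖c‖ ^ i ≤ r := by
  obtain ⟨j, -, hj⟩ := Finset.exists_max_image (Finset.range (ε.natDegree + 1))
    (fun i => ‖ε.coeff i‖ * ‖c‖ ^ i) ⟨0, by simp⟩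
  refine ⟨_, by positivity, h j, fun i => ?_⟩
  rcases le_or_gt i ε.natDegree with hi | hi
  · exact hj i (Finset.mem_range.2 (by omega))
  · rw [coeff_eq_zero_of_natDegree_lt hi, norm_zero, zero_mul]
    positivity

theorem pow_sub_MM2 {c x y : C} (hx : ‖x‖ ≤ ‖c‖) (hy : ‖y‖ ≤ ‖c‖) (i : ℕ) :
    ‖x ^ i - y ^ i‖ * ‖c‖ ≤ ‖c‖ ^ i * ‖x - y‖ := by
  induction i with
  | zero => simp
  | succ i ih =>
    have h1 : x ^ (i + 1) - y ^ (i + 1) = x * (x ^ i - y ^ i) + (x - y) * y ^ i := by ring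
    have h2 : ‖x ^ (i + 1) - y ^ (i + 1)‖ ≤ ‖c‖ ^ i * ‖x - y‖ := by
      rw [h1]
      refine (IsUltrametricDist.norm_add_le_max _ _).trans (max_le ?_ ?_)
      · rw [norm_mul, mul_comm]
        exact (mul_le_mul_of_nonneg_left hx (norm_nonneg _)).trans ih
      · rw [norm_mul, norm_pow, mul_comm]
        gcongr
    calc _ ≤ ‖c‖ ^ i * ‖x - y‖ * ‖c‖ := mul_le_mul_of_nonneg_right h2 (norm_nonneg _)
      _ = _ := by ring

theorem exists_interp {σ : Type} [Fintype σ] (A b : σ → C) (hA : ∀ s, ‖A s‖ ≤ 1)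
    (hA' : ∀ s t, s ≠ t → ‖A s - A t‖ = 1) (r : ℝ) (hr : 0 ≤ r) (hb : ∀ s, ‖b s‖ ≤ r) :
    ∃ ε : C[X], (∀ i, ‖ε.coeff i‖ ≤ r) ∧ ∀ s, ε.eval (A s) = b s := by
  classical
  have hinj : Function.Injective A := fun s t e => by
    by_contra hne
    have h := hA' s t hne
    rw [e, sub_self, norm_zero] at h
    exact zero_ne_one h
  refine ⟨Lagrange.interpolate Finset.univ A b, fun i => ?_, fun s =>
    Lagrange.eval_interpolate_at_node b hinj.injOn (Finset.mem_univ s)⟩
  rw [Lagrange.interpolate_apply, finsetSum_coeff]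
  refine IsUltrametricDist.norm_sum_le_of_forall_le_of_nonneg hr fun s _ => ?_
  have h1 : ∀ j, ‖(Lagrange.basis Finset.univ A s).coeff j‖ ≤ 1 := by
    refine Finset.prod_induction _ (fun p : C[X] => ∀ j, ‖p.coeff j‖ ≤ 1)
      (fun _ _ => mul_le_MM2) (fun j => ?_) fun t ht j => ?_
    · rw [coeff_one]
      split_ifs <;> simp
    · rw [Lagrange.basisDivisor, coeff_C_mul, norm_mul, norm_inv,
        hA' s t (Finset.ne_of_mem_erase ht).symm, inv_one, one_mul, coeff_sub]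
      rcases j with _ | _ | j
      · simpa using hA t
      · simp
      · simp [coeff_X]
  rw [coeff_C_mul, norm_mul]
  exact (mul_le_of_le_one_right (norm_nonneg _) (h1 i)).trans (hb s)

theorem exists_smallOn [IsAlgClosed C] (ε : C[X]) (t : C) (h0 : t ≠ 0) (h1 : ‖t‖ < 1)
    (h : ∀ i, ‖ε.coeff i‖ ≤ ‖t‖) : ∃ c : C, 1 < ‖c‖ ∧ SmallOn c ε := by
  obtain ⟨c, hc⟩ := IsAlgClosed.exists_pow_nat_eq t⁻¹ (Nat.succ_pos ε.natDegree)
  have ht : 0 < ‖t‖ := norm_pos_iff.2 h0
  have h2 : ‖t‖ * ‖c‖ ^ (ε.natDegree + 1) = 1 := by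
    rw [← norm_pow, hc, norm_inv, mul_inv_cancel₀ ht.ne']
  have h3 : 1 < ‖c‖ := by
    by_contra h4
    have h5 : ‖c‖ ^ (ε.natDegree + 1) ≤ 1 := pow_le_one₀ (norm_nonneg c) (not_lt.1 h4)
    nlinarith
  refine ⟨c, h3, fun i => ?_⟩
  rcases le_or_gt i ε.natDegree with hi | hi
  · refine lt_of_le_of_lt ?_ (h2.trans_lt h3)
    exact mul_le_mul (h i) (pow_le_pow_right₀ h3.le (by omega)) (by positivity) ht.le
  · rw [coeff_eq_zero_of_natDegree_lt hi, norm_zero, zero_mul]
    linarith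

theorem SmallOn.inj {c : C} {ε : C[X]} (h : SmallOn c ε) {x y : C} (hx : ‖x‖ ≤ ‖c‖)
    (hy : ‖y‖ ≤ ‖c‖) (e : (X + ε).eval x = (X + ε).eval y) : x = y := by
  obtain ⟨r, h0, h1, h2⟩ := h.bound_MM2
  have h3 : c * (x - y) = ∑ i ∈ Finset.range (ε.natDegree + 1),
      -(ε.coeff i * ((x ^ i - y ^ i) * c)) := by
    rw [eval_add, eval_add, eval_X, eval_X, eval_eq_sum_range, eval_eq_sum_range] at e
    have h4 : ∀ i, -(ε.coeff i * ((x ^ i - y ^ i) * c)) =
        c * (ε.coeff i * y ^ i) - c * (ε.coeff i * x ^ i) := fun i => by ring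
    simp only [h4]
    rw [Finset.sum_sub_distrib, ← Finset.mul_sum, ← Finset.mul_sum]
    linear_combination c * e
  have h5 : ‖c * (x - y)‖ ≤ r * ‖x - y‖ := by
    rw [h3]
    refine IsUltrametricDist.norm_sum_le_of_forall_le_of_nonneg (by positivity) fun i _ => ?_
    rw [norm_neg, norm_mul, norm_mul]
    calc _ ≤ ‖ε.coeff i‖ * (‖c‖ ^ i * ‖x - y‖) :=
          mul_le_mul_of_nonneg_left (pow_sub_MM2 hx hy i) (norm_nonneg _)
      _ ≤ r * ‖x - y‖ := by
          rw [← mul_assoc]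
          exact mul_le_mul_of_nonneg_right (h2 i) (norm_nonneg _)
  rw [norm_mul] at h5
  by_contra hne
  have h6 : 0 < ‖x - y‖ := norm_pos_iff.2 (sub_ne_zero.2 hne)
  nlinarith

theorem SmallOn.deriv_ne {c : C} {ε : C[X]} (h : SmallOn c ε) {x : C} (hx : ‖x‖ ≤ ‖c‖) :
    (derivative (X + ε)).eval x ≠ 0 := by
  obtain ⟨r, h0, h1, h2⟩ := h.bound_MM2
  intro e
  rw [derivative_add, derivative_X, eval_add, eval_one, eval_eq_sum_range] at e
  have h3 : ‖c * ∑ i ∈ Finset.range (ε.derivative.natDegree + 1),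
      ε.derivative.coeff i * x ^ i‖ ≤ r := by
    rw [Finset.mul_sum]
    refine IsUltrametricDist.norm_sum_le_of_forall_le_of_nonneg h0 fun i _ =>
      le_trans ?_ (h2 (i + 1))
    have h4 : ‖((i : C) + 1)‖ ≤ 1 := by
      exact_mod_cast IsUltrametricDist.norm_natCast_le_one C (i + 1)
    rw [coeff_derivative, norm_mul, norm_mul, norm_mul, norm_pow]
    calc _ ≤ ‖c‖ * (‖ε.coeff (i + 1)‖ * 1 * ‖c‖ ^ i) := by gcongr
      _ = _ := by ring
  rw [eq_neg_of_add_eq_zero_right e, mul_neg, mul_one, norm_neg] at h3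
  linarith

theorem SmallOn.natDegree_pos {c : C} {ε : C[X]} (h : SmallOn c ε) : 0 < (X + ε).natDegree := by
  refine Nat.pos_of_ne_zero fun e => h.deriv_ne (x := 0) (by simp) ?_
  rw [derivative_of_natDegree_zero e, eval_zero]

omit [IsUltrametricDist C] in
theorem exists_dvd_comp (π d : C[X]) (hd : d ≠ 0) : ∃ d' : C[X], d' ≠ 0 ∧ d ∣ d'.comp π := by
  have := (AdjoinRoot.powerBasis hd).finite
  obtain ⟨d', h1, h2⟩ := Algebra.IsIntegral.isIntegral (R := C) (aeval (AdjoinRoot.root d) π)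
  refine ⟨d', h1.ne_zero, AdjoinRoot.mk_eq_zero.1 ?_⟩
  rw [← AdjoinRoot.aeval_eq, aeval_comp]
  exact h2

theorem SmallOn.norm_lt [CompleteSpace C] {c : C} {ε : C[X]} (h : SmallOn c ε) (hc : c ≠ 0) :
    ‖T.cst c⁻¹ * (X + ε).eval₂ T.cst (T.mono 1 c) - T.mono 1 1‖ < 1 ∧
      T.cst c⁻¹ * (X + ε).eval₂ T.cst (T.mono 1 c) ∈ T.Tp C := by
  obtain ⟨r, h0, h1, h2⟩ := h.bound_MM2
  have hc' : 0 < ‖c‖ := norm_pos_iff.2 hc
  constructor
  · have h3 : T.cst c⁻¹ * T.mono 1 c = (T.mono 1 1 : T C) := by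
      rw [T.cst_apply, T.mono_mul_mono, zero_add, inv_mul_cancel₀ hc]
    rw [eval₂_add, eval₂_X, mul_add, h3, add_sub_cancel_left]
    refine lt_of_le_of_lt (T.norm_le _ (r := ‖c‖⁻¹ * r) (by positivity) fun n => ?_) ?_
    · rw [T.coeff_cst_mul, norm_mul, norm_inv, ← mul_one (eval₂ _ _ ε), T.coeff_eval₂_mul]
      refine mul_le_mul_of_nonneg_left ?_ (by positivity)
      refine IsUltrametricDist.norm_sum_le_of_forall_le_of_nonneg h0 fun i _ => ?_
      rw [T.coeff_one]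
      split_ifs
      · rw [mul_one, norm_mul, norm_pow]
        exact h2 i
      · rwa [mul_zero, norm_zero]
    · rwa [inv_mul_lt_one₀ hc']
  · refine Subring.mul_mem _ (T.mono_mem_Tp 0 le_rfl _) ?_
    rw [eval₂_eq_sum_range]
    exact Subring.sum_mem _ fun i _ => Subring.mul_mem _ (T.mono_mem_Tp 0 le_rfl _)
      (Subring.pow_mem _ (T.mono_mem_Tp 1 zero_le_one _) i)

/-- The substitution X ↦ π on rational functions. -/
theorem exists_theta_poly {k K : Type} [Field k] [Field K] (φ : k →+* K) (π : K[X])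
    (hπ : 0 < π.natDegree) :
    ∃ θ : RatFunc k →+* RatFunc K, (∀ x, θ (RatFunc.C x) = RatFunc.C (φ x)) ∧
      θ RatFunc.X = algebraMap K[X] (RatFunc K) π := by
  refine exists_ratFunc_hom (RatFunc.C.comp φ) _ fun P hP h => ?_
  have h1 : algebraMap K[X] (RatFunc K) ((P.map φ).comp π) =
      P.eval₂ (RatFunc.C.comp φ) (algebraMap K[X] (RatFunc K) π) := by
    rw [Polynomial.comp, eval₂_map, hom_eval₂]
    congr 1
  rw [← h1, map_eq_zero_iff _ (IsFractionRing.injective K[X] (RatFunc K)), comp_eq_zero_iff] at h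
  rcases h with h | ⟨-, h⟩
  · exact hP ((Polynomial.map_eq_zero φ).1 h)
  · rw [h, natDegree_C] at hπ
    exact lt_irrefl _ hπ

end Pool.Agent.Adm

end

section

/-! Deformation of a covering unramified at infinity along a perturbation of the coordinate:
construction. -/

namespace Pool.Agent.Adm

open scoped OnePoint
open Polynomial

theorem pw_one_MM3 {C : Type} [NormedField C] [CompleteSpace C] [IsUltrametricDist C] (f : T C) :
    T.pw 1 one_pos f = f := by
  ext n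
  rw [T.coeff_pw]
  simp

theorem mono_mem_MM3 {C : Type} [NormedField C] [CompleteSpace C] [IsUltrametricDist C] (n : ℤ)
    (hn : 0 ≤ n) (c : C) : T.mono n c ∈ T.Tp C := by
  intro i hi
  rw [T.coeff_mono, if_neg (by omega)]

theorem eval_mem_MM3 {C : Type} [NormedField C] [CompleteSpace C] [IsUltrametricDist C] (c : C)
    (p : C[X]) : p.eval₂ T.cst (T.mono 1 c) ∈ T.Tp C := by
  rw [eval₂_eq_sum_range]
  exact sum_mem fun i _ => mul_mem (mono_mem_MM3 0 le_rfl _)
    (pow_mem (mono_mem_MM3 1 zero_le_one c) _)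

theorem deform_core {k C G : Type} [Field k] [NormedField C] [CompleteSpace C]
    [IsUltrametricDist C] [Group G] [Finite G] (φ : k →+* C) (hφ : ∀ x, ‖φ x‖ ≤ 1) (c1 : C)
    (h1 : 1 < ‖c1‖) (ε : C[X]) (hε : SmallOn c1 ε) (c : Cover k G) (hc : c.ι.range = ⊤)
    (hinf : c.Mono ∞ 1 1 1) (θA θB : RatFunc k →+* RatFunc C)
    (hAC : ∀ x, θA (RatFunc.C x) = RatFunc.C (φ x))
    (hAX : θA RatFunc.X = algebraMap C[X] (RatFunc C) (X + ε))
    (hBC : ∀ x, θB (RatFunc.C x) = RatFunc.C (φ x)) (hBX : θB RatFunc.X = RatFunc.X) :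
    ∃ (an : AnPkg c1 c1 1 1 one_pos one_pos) (c' : Cover C G), c'.ι.range = ⊤ ∧
      Transfer c c' θA an.κA ∧
      Transfer ({ L := RatFunc k, ι := 1 } : Cover k G) c' θB an.κB := by
  classical
  have := Fintype.ofFinite G
  have c0 : c1 ≠ 0 := norm_pos_iff.1 (one_pos.trans h1)
  have g0 : c1⁻¹ ≠ 0 := inv_ne_zero c0
  have g1 : ‖c1⁻¹‖ < 1 := by
    rw [norm_inv]
    exact inv_lt_one_of_one_lt₀ h1
  obtain ⟨-, -, j, j1, j2, -⟩ := hinf
  have j2' : j (algebraMap (RatFunc k) c.L RatFunc.X) = HahnSeries.single (-((1 : ℕ) : ℤ)) 1 := j2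
  obtain ⟨Ψ, ΨC, Ψ1, -, Ψq⟩ := T.exists_subst _ (hε.norm_lt c0).1 (hε.norm_lt c0).2
  have Ψm : Ψ (T.mono 1 c1) = (X + ε).eval₂ T.cst (T.mono 1 c1) := by
    have e : (T.mono 1 c1 : T C) = T.cst c1 * T.mono 1 1 := by
      rw [T.cst_apply, T.mono_mul_mono, zero_add, mul_one]
    conv_lhs => rw [e]
    rw [map_mul, ΨC, Ψ1, ← mul_assoc, ← map_mul, mul_inv_cancel₀ c0, map_one, one_mul]
  have Ψe : ∀ p : C[X], Ψ (p.eval₂ T.cst (T.mono 1 c1)) =
      (p.comp (X + ε)).eval₂ T.cst (T.mono 1 c1) := by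
    intro p
    rw [hom_eval₂, eval₂_comp, Ψm, show Ψ.comp T.cst = T.cst from RingHom.ext ΨC]
  let F : c.L →+* T C := T.flip.comp ((T.emb φ hφ c1⁻¹ g0 g1).comp j)
  have FC : ∀ x, F (algebraMap (RatFunc k) c.L (RatFunc.C x)) = T.cst (φ x) := by
    intro x
    simp only [F, RingHom.comp_apply]
    rw [j1, T.emb_C, T.cst_apply, T.flip_mono, neg_zero]
  have FX : F (algebraMap (RatFunc k) c.L RatFunc.X) = T.mono 1 c1 := by
    simp only [F, RingHom.comp_apply]
    rw [j2', T.emb_single, T.flip_mono, neg_neg, map_one, mul_one, Nat.cast_one, zpow_neg,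
      zpow_one, inv_inv]
  obtain ⟨PA, bA⟩ := c.exists_indBasis
  let c0' : Cover k G := { L := RatFunc k, ι := 1 }
  have b0 : c0'.IndBasis 1 := by
    refine ⟨isUnit_one, fun σ h i => ?_⟩
    change (1 : Matrix G G c0'.L) (1 * h) i = _
    rw [one_mul, Matrix.one_apply]
    split_ifs
    · exact (map_one σ).symm
    · exact (map_zero σ).symm
  obtain ⟨an⟩ := nonempty_anPkg c1 c1 c0 le_rfl 1 1 one_pos one_pos
  obtain ⟨UA, UM, UB, vA, vM, vB, f1, f2⟩ := an.factor G (PA.map (Ψ.comp F)) 1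
    (bA.1.map (Ψ.comp F).mapMatrix) isUnit_one
  have k1 : an.α.comp an.κA = an.μ1.comp an.κM :=
    ratFunc_hom_ext _ _ (fun x => (an.α_C x).trans (an.μ1_C x).symm) (an.α_X.trans an.μ1_X.symm)
  have k2 : an.μ2.comp an.κM = an.β.comp an.κB :=
    ratFunc_hom_ext _ _ (fun x => (an.μ2_C x).trans (an.β_C x).symm) (an.μ2_X.trans an.β_X.symm)
  have ap : ∀ p : C[X], an.α (an.κA (algebraMap C[X] (RatFunc C) p)) =
      iT (p.eval₂ T.cst (T.mono 1 c1)) := by
    intro p
    have e : (an.α.comp an.κA).comp (algebraMap C[X] (RatFunc C)) =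
        iT.comp (eval₂RingHom T.cst (T.mono 1 c1)) := by
      apply Polynomial.ringHom_ext
      · intro x
        simp only [RingHom.comp_apply, coe_eval₂RingHom, eval₂_C]
        exact an.α_C x
      · simp only [RingHom.comp_apply, coe_eval₂RingHom, eval₂_X]
        exact an.α_X
    exact DFunLike.congr_fun e p
  have hJA : (iT.comp (Ψ.comp F)).comp (algebraMap (RatFunc k) c.L) =
      an.α.comp (an.κA.comp θA) := by
    apply ratFunc_hom_ext
    · intro x
      simp only [RingHom.comp_apply]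
      rw [FC, ΨC, hAC, an.α_C]
    · simp only [RingHom.comp_apply]
      rw [FX, Ψm, hAX, ap]
  obtain ⟨c', r1, r2, -, r4⟩ := patch3 c c0' c0' (by rw [hc, top_sup_eq, top_sup_eq]) θA θB θB
    an.κA an.κM an.κB an.α an.μ1 an.μ2 an.β an.α_inj an.μ1_inj an.μ2_inj an.β_inj
    (fun r => DFunLike.congr_fun k1 r) (fun r => DFunLike.congr_fun k2 r) an.inter
    (iT.comp (Ψ.comp F)) (an.μ1.comp (an.κM.comp θB)) (an.μ2.comp (an.κM.comp θB))
    (an.β.comp (an.κB.comp θB)) (fun f => DFunLike.congr_fun hJA f) (fun _ => rfl) (fun _ => rfl)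
    (fun _ => rfl)
    (fun l q hl => by
      obtain ⟨d, hd, r, hr, h⟩ := an.fracA q
      rw [← hl, RingHom.comp_apply, ← map_mul, pw_one_MM3] at h
      have h' : Ψ (F l) * d.eval₂ T.cst (T.mono 1 c1) = r := iT_inj_An h
      obtain ⟨d', hd', e, he⟩ := exists_dvd_comp (X + ε) d hd
      have hm : F l * d'.eval₂ T.cst (T.mono 1 c1) ∈ T.Tp C := by
        apply Ψq
        rw [map_mul, Ψe, he, eval₂_mul, ← mul_assoc, h']
        exact mul_mem hr (eval_mem_MM3 c1 e)
      obtain ⟨f, hf⟩ := rat_A φ hφ c1⁻¹ g0 g1 1 one_pos c1 c0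
        (j.comp (algebraMap (RatFunc k) c.L)) j1 j2' (j l) d' hd' _ hm (pw_one_MM3 _).symm
      exact ⟨f, j.injective hf⟩)
    (fun l _ _ => ⟨l, rfl⟩) (fun l _ _ => ⟨l, rfl⟩) PA 1 1 bA b0 b0 UA UM UB vA vM vB
    (by
      rw [Matrix.map_one _ (map_zero _) (map_one _), Matrix.one_mul, ← f1]
      congr 1
      ext a b
      simp only [Matrix.map_apply, RingHom.comp_apply, pw_one_MM3])
    (by
      rw [Matrix.map_one _ (map_zero _) (map_one _)] at f2
      rw [Matrix.map_one _ (map_zero _) (map_one _), Matrix.map_one _ (map_zero _) (map_one _),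
        f2, Matrix.one_mul])
  exact ⟨an, c', r1, r2, r4⟩

end Pool.Agent.Adm

end

section

/-! Deformation of a covering unramified at infinity: monodromy. -/

namespace Pool.Agent.Adm

open scoped OnePoint
open Polynomial

theorem powL_taylor_MM4 {C : Type} [Field C] (π : C[X]) (x : C) (e : ℕ) (he : 0 < e) :
    powL e he (((taylor x π : C[X]) : PowerSeries C) : LaurentSeries C) =
      π.eval₂ HahnSeries.C (HahnSeries.C x + HahnSeries.single (e : ℤ) 1) := by
  have h : (((powL e he).comp (HahnSeries.ofPowerSeries ℤ C)).comp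
      coeToPowerSeries.ringHom).comp (taylorAlgHom x).toRingHom =
      eval₂RingHom HahnSeries.C (HahnSeries.C x + HahnSeries.single (e : ℤ) 1) := by
    apply Polynomial.ringHom_ext
    · intro a
      change powL e he (((taylor x (Polynomial.C a) : C[X]) : PowerSeries C) : LaurentSeries C) = _
      rw [taylor_C, Polynomial.coe_C, HahnSeries.ofPowerSeries_C, powL_C, coe_eval₂RingHom,
        eval₂_C]
    · change powL e he (((taylor x X : C[X]) : PowerSeries C) : LaurentSeries C) = _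
      rw [taylor_X, Polynomial.coe_add, Polynomial.coe_C, Polynomial.coe_X, map_add, map_add,
        HahnSeries.ofPowerSeries_C, HahnSeries.ofPowerSeries_X, powL_C, powL_single, mul_one,
        coe_eval₂RingHom, eval₂_X, add_comm]
  exact DFunLike.congr_fun h π

theorem point_MM4 {k C G Q : Type} [Field k] [Field C] [IsAlgClosed C] [Group G] [CommRing Q]
    {c0 : Cover k G} {c : Cover C G} {θ : RatFunc k →+* RatFunc C} {κ : RatFunc C →+* Q}
    {φ : k →+* C} (hT : Transfer c0 c θ κ) (hC : ∀ x, θ (RatFunc.C x) = RatFunc.C (φ x))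
    {π : C[X]} (hX : θ RatFunc.X = algebraMap C[X] (RatFunc C) π) (x : C)
    (hd : (derivative π).eval x ≠ 0) {e : ℕ} (he : 0 < e) {ζ : C} (hζ : IsPrimitiveRoot ζ e)
    (hU : ChartS2 κ (HahnSeries.C x + HahnSeries.single (e : ℤ) 1)) {g : G}
    (hr : c0.RMono ((HahnSeries.C : C →+* LaurentSeries C).comp φ)
      (HahnSeries.C (π.eval x) + HahnSeries.single (e : ℤ) 1) (scL ζ (hζ.ne_zero he.ne')) g) :
    c.Mono (x : OnePoint C) e ζ g := by
  have : NeZero e := ⟨he.ne'⟩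
  have hek : (e : C) ≠ 0 := (hζ.neZero').out
  obtain ⟨Φ, p1, p2, p3⟩ := exists_reparam_equiv e he hek ((taylor x π : C[X]) : PowerSeries C)
    (by rwa [Polynomial.coeff_coe, taylor_coeff_one])
  rw [constantCoeff_coe, taylor_coeff_zero, powL_taylor_MM4] at p2
  have h1 := hr.comp (Φ : LaurentSeries C →+* LaurentSeries C) _
    (p3 ζ (hζ.ne_zero he.ne') hζ.pow_eq_one)
  have e1 : (Φ : LaurentSeries C →+* LaurentSeries C).comp
      ((HahnSeries.C : C →+* LaurentSeries C).comp φ) =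
      (HahnSeries.C : C →+* LaurentSeries C).comp φ := RingHom.ext fun y => p1 (φ y)
  have e2 : (Φ : LaurentSeries C →+* LaurentSeries C)
      (HahnSeries.C (π.eval x) + HahnSeries.single (e : ℤ) 1) =
      π.eval₂ HahnSeries.C (HahnSeries.C x + HahnSeries.single (e : ℤ) 1) := p2
  rw [e1, e2] at h1
  obtain ⟨ψ, q1, q2, q3⟩ := hU
  refine Cover.RMono.mono he hζ (hT _ ψ (scL ζ (hζ.ne_zero he.ne')) _ _ _ _ g (q3 ζ _ ?_)
    (fun y => by rw [hC, q1]; rfl) ?_ q1 q2 h1)
  · rw [map_add, scL_C, scL_single, zpow_natCast, hζ.pow_eq_one, one_mul]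
  · rw [hX]
    exact hom_algebraMap (ψ.comp κ) _ _ q1 q2 π

theorem deform_top {k C G : Type} [Field k] [IsAlgClosed k] [NormedField C] [CompleteSpace C]
    [IsUltrametricDist C] [IsAlgClosed C] [Group G] [Finite G] (φ : k →+* C)
    (hφ : ∀ x, ‖φ x‖ ≤ 1) (c1 : C) (h1 : 1 < ‖c1‖) (ε : C[X]) (hε : SmallOn c1 ε) (c : Cover k G)
    (hc : c.ι.range = ⊤) (hinf : c.Mono ∞ 1 1 1) :
    ∃ c' : Cover C G, c'.ι.range = ⊤ ∧
      (∀ (x : C) (y : k) e ζ g, ‖x‖ ≤ ‖c1‖ → (X + ε).eval x = φ y →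
        c.Mono (y : OnePoint k) e ζ g → c'.Mono (x : OnePoint C) e (φ ζ) g) ∧
      (∀ x : C, ‖x‖ ≤ ‖c1‖ → (X + ε).eval x ∉ Set.range φ → c'.Mono (x : OnePoint C) 1 1 1) ∧
      (∀ x : C, ‖c1‖ ≤ ‖x‖ → c'.Mono (x : OnePoint C) 1 1 1) ∧ c'.Mono ∞ 1 1 1 := by
  obtain ⟨θA, hAC, hAX⟩ := exists_theta_poly φ (X + ε) hε.natDegree_pos
  obtain ⟨θB, hBC, hBX⟩ := exists_theta_S2 φ 1 one_ne_zero
  obtain ⟨an, c', hc', TA, TB⟩ := deform_core φ hφ c1 h1 ε hε c hc hinf θA θB hAC hAX hBC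
    (by rw [hBX, map_one, one_mul])
  have hc0 : c1 ≠ 0 := norm_pos_iff.1 (one_pos.trans h1)
  have iM : (1 : C)⁻¹ ≠ 0 := inv_ne_zero one_ne_zero
  refine ⟨c', hc', fun x y e ζ g hx hy hm => ?_, fun x hx hy => ?_, fun x hx => ?_, ?_⟩
  · refine point_MM4 TA hAC hAX x (hε.deriv_ne hx) hm.1 (hm.2.1.map_of_injective φ.injective)
      (chartA_S2 an x 1 one_ne_zero e hm.1 hx) ?_
    rw [hy]
    exact rmono_map_S2 φ hm _
  · refine point_MM4 TA hAC hAX x (hε.deriv_ne hx) one_pos IsPrimitiveRoot.one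
      (chartA_S2 an x 1 one_ne_zero 1 one_pos hx) ?_
    have h2 := c.rmono_transcendental φ _ hy
    have h3 : scL (1 : C) one_ne_zero = RingHom.id _ := RingHom.ext scL_one
    rw [← h3] at h2
    exact h2
  · refine point_tr_S2 TB hBC hBX one_ne_zero x (fun y hy => ?_)
      (fun e he => chartB_S2 an _ _ iM e he hc0 hx)
    have h2 := hφ y
    rw [← hy, one_mul] at h2
    exact absurd (h1.trans_le (hx.trans h2)) (lt_irrefl _)
  · obtain ⟨j, j1, j2⟩ := exists_chart (∞ : OnePoint k) 1 one_pos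
    obtain ⟨σ, hσ, -⟩ := ({ L := RatFunc k, ι := 1 } : Cover k G).exists_mono_of_chart ∞ 1
      one_pos 1 IsPrimitiveRoot.one j j1 j2
    have h2 := infty_S2 TB hBC hBX one_ne_zero (fun e he => chartI_S2 an _ iM e he) hσ
    rw [map_one] at h2
    exact h2

end Pool.Agent.Adm

end

section

/-! Complete algebraically closed extensions and coefficient fields. -/

namespace Pool.Agent.Adm

open UniformSpace Polynomial

theorem closure_VL2 (L : Type) [i : NormedField L] [IsUltrametricDist L]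
    [CompleteSpace L] (t : L) (ht0 : t ≠ 0) (ht1 : ‖t‖ < 1) :
    ∃ (Ω : Type) (_ : NormedField Ω) (_ : IsUltrametricDist Ω) (_ : IsAlgClosed Ω)
      (ψ : L →+* Ω), ∀ x, ‖ψ x‖ = ‖x‖ := by
  let _ : NontriviallyNormedField L :=
    { i with
      non_trivial := by
        refine ⟨t⁻¹, ?_⟩
        rw [norm_inv]
        exact (one_lt_inv₀ (norm_pos_iff.2 ht0)).2 ht1 }
  let _ : NormedField (AlgebraicClosure L) := spectralNorm.normedField L (AlgebraicClosure L)
  have hna : ∀ x y : AlgebraicClosure L, ‖x + y‖ ≤ max ‖x‖ ‖y‖ := isNonarchimedean_spectralNorm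
  have hφ : ∀ x, ‖algebraMap L (AlgebraicClosure L) x‖ = ‖x‖ := spectralNorm_extends
  exact ⟨AlgebraicClosure L, inferInstance,
    IsUltrametricDist.isUltrametricDist_of_isNonarchimedean_norm hna, inferInstance,
    algebraMap L _, hφ⟩

theorem exists_big_ext (K : Type) [NormedField K] [IsUltrametricDist K] (t : K) (h0 : t ≠ 0)
    (h1 : ‖t‖ < 1) :
    ∃ (C : Type) (_ : NormedField C) (_ : CompleteSpace C) (_ : IsUltrametricDist C)
      (_ : IsAlgClosed C) (ψ : K →+* C), ∀ x, ‖ψ x‖ = ‖x‖ := by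
  have := ultra_completion_FC K
  have hn : ∀ x : K, ‖(Completion.coeRingHom x : Completion K)‖ = ‖x‖ :=
    fun x => Completion.norm_coe x
  obtain ⟨Ω, _, _, _, ψ, hψ⟩ := closure_VL2 (Completion K) (Completion.coeRingHom t)
    ((_root_.map_ne_zero _).2 h0) (by rw [hn]; exact h1)
  have := ultra_completion_FC Ω
  have hn' : ∀ x : Ω, ‖(Completion.coeRingHom x : Completion Ω)‖ = ‖x‖ :=
    fun x => Completion.norm_coe x
  refine ⟨Completion Ω, inferInstance, inferInstance, inferInstance,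
    isAlgClosed_of_dense (K := Ω) Completion.coeRingHom Completion.denseRange_coe,
    Completion.coeRingHom.comp (ψ.comp Completion.coeRingHom), fun x => ?_⟩
  rw [RingHom.comp_apply, RingHom.comp_apply, hn', hψ, hn]

theorem integral_le_VL2 {C : Type} [NormedField C] [IsUltrametricDist C] (F : Subfield C)
    (hF : ∀ x ∈ F, ‖x‖ ≤ 1) {y : C} (hy : IsIntegral F y) : ‖y‖ ≤ 1 := by
  let v := NormedField.valuation (K := C)
  let f : F →+* v.integer := F.subtype.codRestrict v.integer fun x => by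
    rw [Valuation.mem_integer_iff]
    exact_mod_cast hF x x.2
  obtain ⟨p, hp, h⟩ := hy
  have h1 : IsIntegral v.integer y := by
    refine ⟨p.map f, hp.map f, ?_⟩
    rw [Polynomial.eval₂_map]
    exact h
  have h2 := (Valuation.integer.integers v).mem_of_integral h1
  rw [Valuation.mem_integer_iff] at h2
  exact_mod_cast h2

theorem norm_one_VL2 {C : Type} [NormedField C] (F : Subfield C)
    (hF : ∀ x ∈ F, ‖x‖ ≤ 1) {x : C} (hx : x ∈ F) (h0 : x ≠ 0) : ‖x‖ = 1 := by
  refine le_antisymm (hF x hx) ?_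
  have h := hF _ (F.inv_mem hx)
  rw [norm_inv] at h
  exact (inv_le_one₀ (norm_pos_iff.2 h0)).1 h

theorem aeval_one_VL2 {C : Type} [NormedField C] (F : Subfield C) [IsAlgClosed F]
    (hF : ∀ x ∈ F, ‖x‖ ≤ 1) {y : C} (hy : ∀ x ∈ F, ‖y - x‖ = 1) (P : F[X]) (hP : P ≠ 0) :
    ‖aeval y P‖ = 1 := by
  have hm : ∀ s : Multiset F, ‖aeval y (s.map fun a => X - Polynomial.C a).prod‖ = 1 := by
    intro s
    induction s using Multiset.induction_on with
    | empty => simp
    | cons a s ih =>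
      rw [Multiset.map_cons, Multiset.prod_cons, map_mul, norm_mul, ih, mul_one, map_sub,
        aeval_X, aeval_C]
      exact hy a a.2
  rw [(IsAlgClosed.splits P).eq_prod_roots, map_mul, norm_mul, hm, mul_one, aeval_C]
  exact norm_one_VL2 F hF P.leadingCoeff.2
    ((_root_.map_ne_zero (algebraMap F C)).2 (leadingCoeff_ne_zero.2 hP))

theorem exists_coef_field {C k0 : Type} [NormedField C] [IsUltrametricDist C] [IsAlgClosed C]
    [Field k0] (θ : k0 →+* C) (hθ : ∀ x, ‖θ x‖ ≤ 1) :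
    ∃ (k : Type) (_ : Field k) (_ : IsAlgClosed k) (φ : k →+* C) (θ0 : k0 →+* k),
      φ.comp θ0 = θ ∧ (∀ x, ‖φ x‖ ≤ 1) ∧ ∀ y : C, ‖y‖ ≤ 1 → ∃ x, ‖y - φ x‖ < 1 := by
  obtain ⟨F, hle, hmax⟩ := zorn_le_nonempty₀ {F : Subfield C | ∀ x ∈ F, ‖x‖ ≤ 1}
    (fun c hc hch y hy => ⟨sSup c, fun x hx => by
      obtain ⟨G, hG, hxG⟩ := (Subfield.mem_sSup_of_directedOn ⟨y, hy⟩ hch.directedOn).1 hx
      exact hc hG x hxG, fun z hz => le_sSup hz⟩) θ.fieldRange
    (by rintro _ ⟨x, rfl⟩; exact hθ x)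
  have hF : ∀ x ∈ F, ‖x‖ ≤ 1 := hmax.1
  have key : ∀ y : C, (∀ z ∈ IntermediateField.adjoin F {y}, ‖z‖ ≤ 1) → y ∈ F := by
    intro y hy
    have h1 : F ≤ (IntermediateField.adjoin F {y}).toSubfield := fun x hx =>
      (IntermediateField.adjoin F {y}).algebraMap_mem ⟨x, hx⟩
    exact hmax.2 (y := (IntermediateField.adjoin F {y}).toSubfield) hy h1
      (IntermediateField.mem_adjoin_simple_self F y)
  have hac : IsAlgClosed F := by
    refine IsAlgClosed.of_exists_root F fun p hp hirr => ?_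
    obtain ⟨y, hy⟩ := IsAlgClosed.exists_aeval_eq_zero C p (degree_pos_of_irreducible hirr).ne'
    have hint : IsIntegral F y := ⟨p, hp, by rwa [← aeval_def]⟩
    have hfd := IntermediateField.adjoin.finiteDimensional hint
    have hyF : y ∈ F := key y fun z hz => by
      refine integral_le_VL2 F hF ?_
      exact (IsIntegral.of_finite F (⟨z, hz⟩ : IntermediateField.adjoin F {y})).map
        (IntermediateField.adjoin F {y}).val
    refine ⟨⟨y, hyF⟩, (algebraMap F C).injective ?_⟩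
    rw [map_zero, ← hy, ← aeval_algebraMap_apply_eq_algebraMap_eval]
    rfl
  refine ⟨F, inferInstance, hac, F.subtype, θ.codRestrict F fun x => hle ⟨x, rfl⟩, rfl,
    fun x => hF x x.2, fun y hy => ?_⟩
  by_contra hne
  have h1 : ∀ x ∈ F, ‖y - x‖ = 1 := by
    intro x hx
    refine le_antisymm ?_ (not_lt.1 fun h => hne ⟨⟨x, hx⟩, h⟩)
    rw [sub_eq_add_neg]
    refine (IsUltrametricDist.norm_add_le_max _ _).trans (max_le hy ?_)
    rw [norm_neg]
    exact hF x hx
  have hyF : y ∈ F := key y fun z hz => by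
    obtain ⟨r, s, rfl⟩ := (IntermediateField.mem_adjoin_simple_iff F z).1 hz
    by_cases hr : r = 0
    · simp [hr]
    by_cases hs : s = 0
    · simp [hs]
    rw [norm_div, aeval_one_VL2 F hF h1 r hr, aeval_one_VL2 F hF h1 s hs, div_one]
  have := h1 y hyF
  simp at this

end Pool.Agent.Adm

end

section

/-! Strictness of a step, and chains in the space of fundamental groups. -/

namespace Pool.Agent.Adm

/-- The finite quotients of Y are finite quotients of X. -/
def QLe {p n : ℕ} (Y X : StableCurve p n) : Prop :=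
  ∀ (G : Type) [Group G] [Finite G], Y.HasCover G → X.HasCover G

theorem qle_of_lifts {p : ℕ} {k k' : Type} [Field k] [Field k'] {Y X : StableCurve p 7}
    {A : AdmP k} {A' : AdmP k'} (hY : Describes Y A) (hX : Describes X A') (φ : k →+* k')
    (hl : Lifts φ A A') : QLe Y X := by
  intro G _ _ h
  obtain ⟨d, hd⟩ := (hY G).1 h
  exact (hX G).2 ⟨_, hl G d hd⟩

/-- Characters that are linear parts of affine actions without a fixed point. -/
def nfSetStrict (F : Type) [Field F] (G : Type) [Group G] : Set (G →* Fˣ) :=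
  {χ | ∃ ψ : G →* Aff F, Aff.lin.comp ψ = χ ∧ ¬ Aff.HasFix ψ.range}

theorem not_qle {p : ℕ} {k k' F : Type} [Field k] [Field k'] [Field F] [Fintype F]
    {Y X : StableCurve p 7} {A : AdmP k} {A' : AdmP k'} (hY : Describes Y A)
    (hX : Describes X A') (φ : k →+* k') (hl : Lifts φ A A') (θ : F →+* k) (n : Fin 7 → ℤ)
    (hfix : AllFix θ A n) (hnew : NewCov (φ.comp θ) A' n)
    (hne : ∃ (G : Type) (_ : Group G) (_ : Finite G), Y.HasCover G) (N : ℕ)
    (hb : ∀ (G : Type) [Group G] [Finite G], Y.HasCover G → Nat.card (G →* Fˣ) ≤ N) :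
    ¬ QLe X Y := by
  intro hq
  classical
  let P : ℕ → Prop := fun m => ∃ (G : Type) (_ : Group G) (_ : Finite G), Y.HasCover G ∧
    (nfSetStrict F G).ncard = m
  have hP : ∀ m, P m → m ≤ N := by
    rintro m ⟨G, _, _, h, rfl⟩
    have : Finite (G →* Fˣ) := DFunLike.finite _
    exact (Set.ncard_le_card _).trans (hb G h)
  obtain ⟨G1, i1, i2, h1⟩ := hne
  have hP1 : P (nfSetStrict F G1).ncard := ⟨G1, i1, i2, h1, rfl⟩
  have hmax := Nat.findGreatest_spec (hP _ hP1) hP1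
  obtain ⟨G, _, _, hG, hGe⟩ := hmax
  obtain ⟨d, hd⟩ := (hY G).1 hG
  obtain ⟨H, _, _, pr, ψ, d', hd', hsurj, hnf, hlab⟩ := hnew G _ (hl G d hd)
  have hH : Y.HasCover H := hq H ((hX H).2 ⟨d', hd'⟩)
  have hPH : P (nfSetStrict F H).ncard := ⟨H, _, inferInstance, hH, rfl⟩
  have hle := Nat.le_findGreatest (hP _ hPH) hPH
  rw [← hGe] at hle
  have : Finite (H →* Fˣ) := DFunLike.finite _
  have hinj : Function.Injective fun χ : G →* Fˣ => χ.comp pr := by
    intro a b hab
    ext g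
    obtain ⟨h, rfl⟩ := hsurj g
    exact congrArg Units.val (DFunLike.congr_fun hab h)
  have hsub : (fun χ : G →* Fˣ => χ.comp pr) '' nfSetStrict F G ⊂ nfSetStrict F H := by
    constructor
    · rintro _ ⟨χ, ⟨ψ0, rfl, h0⟩, rfl⟩
      refine ⟨ψ0.comp pr, rfl, ?_⟩
      rintro ⟨β, hβ⟩
      refine h0 ⟨β, ?_⟩
      rintro _ ⟨g, rfl⟩
      obtain ⟨h, rfl⟩ := hsurj g
      exact hβ _ ⟨h, rfl⟩
    · intro hc
      obtain ⟨χ, ⟨ψ0, rfl, h0⟩, he⟩ := hc (⟨ψ, rfl, hnf⟩ : Aff.lin.comp ψ ∈ nfSetStrict F H)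
      refine h0 (hfix G d ψ0 hd fun i => ?_)
      exact (lab_map_iff φ).1 (hlab _ he i)
  have hlt := Set.ncard_lt_ncard hsub (Set.toFinite _)
  rw [Set.ncard_image_of_injective _ hinj] at hlt
  omega

/-- The class of a curve. -/
def clsStrict {p n : ℕ} (X : StableCurve p n) : PiBar p n := Quot.mk _ X

theorem mem_U_Strict {p n : ℕ} (X : StableCurve p n) (G : Type) [Group G] [Finite G] :
    clsStrict X ∈ U p n G ↔ X.HasCover G := by
  constructor
  · rintro ⟨X', h, hX'⟩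
    have hw : ∀ A B : StableCurve p n,
        (∀ (G : Type) [Group G] [Finite G], A.HasCover G ↔ B.HasCover G) →
        A.HasCover G = B.HasCover G := fun A B hAB => propext (hAB G)
    have : X'.HasCover G = X.HasCover G :=
      congrArg (Quot.lift (fun A : StableCurve p n => A.HasCover G) hw) h
    exact this ▸ hX'
  · intro h
    exact ⟨X, rfl, h⟩

theorem specializes_iff_Strict {p n : ℕ} (Y X : StableCurve p n) :
    clsStrict X ⤳ clsStrict Y ↔ QLe Y X := by
  rw [specializes_iff_forall_open]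
  constructor
  · intro h G _ _ hG
    refine (mem_U_Strict X G).1 (h _ ?_ ((mem_U_Strict Y G).2 hG))
    exact TopologicalSpace.GenerateOpen.basic _ ⟨G, _, inferInstance, rfl⟩
  · intro h s hs
    induction hs with
    | basic s hs =>
      obtain ⟨G, _, _, rfl⟩ := hs
      intro hG
      exact (mem_U_Strict X G).2 (h G ((mem_U_Strict Y G).1 hG))
    | univ => exact fun _ => Set.mem_univ _
    | inter s t _ _ h1 h2 => exact fun hm => ⟨h1 hm.1, h2 hm.2⟩
    | sUnion S _ ih =>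
      rintro ⟨t, ht, hm⟩
      exact ⟨t, ht, ih t ht hm⟩

theorem le_krullDim_of_chain {p n r : ℕ} (x : Fin (r + 1) → StableCurve p n)
    (h1 : ∀ i : Fin r, QLe (x i.castSucc) (x i.succ))
    (h2 : ∀ i : Fin r, ¬ QLe (x i.succ) (x i.castSucc)) :
    (r : WithBot ℕ∞) ≤ topologicalKrullDim (PiBar p n) := by
  let f : Fin (r + 1) → TopologicalSpace.IrreducibleCloseds (PiBar p n) := fun i =>
    ⟨closure {clsStrict (x i)}, isIrreducible_singleton.closure, isClosed_closure⟩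
  have hle : ∀ i j, f i ≤ f j ↔ QLe (x i) (x j) := by
    intro i j
    rw [← specializes_iff_Strict, specializes_iff_closure_subset]
    rfl
  let s : LTSeries (TopologicalSpace.IrreducibleCloseds (PiBar p n)) :=
    ⟨r, f, fun i => lt_of_le_not_ge ((hle _ _).2 (h1 i)) fun h => h2 i ((hle _ _).1 h)⟩
  exact Order.LTSeries.length_le_krullDim s

end Pool.Agent.Adm

end

section

/-! Connected multigraphs with one edge less than vertices. -/

namespace Pool.Agent.AdmG

variable {V E : Type} [Fintype V] [Fintype E] (src tgt : E → V)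

omit [Fintype V] [Fintype E] in
theorem cross_BgT {U : Finset V} {v w : V}
    (h : Relation.EqvGen (fun a b => ∃ ε, src ε = a ∧ tgt ε = b) v w) (hn : ¬ (v ∈ U ↔ w ∈ U)) :
    ∃ ε, ¬ (src ε ∈ U ↔ tgt ε ∈ U) := by
  induction h with
  | rel a b h =>
    obtain ⟨ε, rfl, rfl⟩ := h
    exact ⟨ε, hn⟩
  | refl a => exact absurd Iff.rfl hn
  | symm a b _ ih => exact ih fun e => hn e.symm
  | trans a b c _ _ ih1 ih2 =>
    by_cases e : a ∈ U ↔ b ∈ U
    · exact ih2 fun e' => hn (e.trans e')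
    · exact ih1 e

omit [Fintype E] in
theorem grow_BgT [DecidableEq V] [DecidableEq E]
    (h : ∀ v w, Relation.EqvGen (fun a b => ∃ ε, src ε = a ∧ tgt ε = b) v w) (v0 : V)
    (P : Finset E → Prop) (h0 : P ∅)
    (step : ∀ (F : Finset E) (ε : E) (b : V), P F → (∀ e ∈ F, src e ≠ b ∧ tgt e ≠ b) →
      src ε ≠ tgt ε → (src ε = b ∨ tgt ε = b) → P (insert ε F)) :
    ∃ F : Finset E, F.card + 1 = Fintype.card V ∧ P F := by
  have key : ∀ n, n + 1 ≤ Fintype.card V → ∃ (U : Finset V) (F : Finset E), U.card = n + 1 ∧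
      F.card = n ∧ v0 ∈ U ∧ (∀ e ∈ F, src e ∈ U ∧ tgt e ∈ U) ∧ P F := by
    intro n
    induction n with
    | zero => exact fun _ => ⟨{v0}, ∅, rfl, rfl, Finset.mem_singleton_self _, by simp, h0⟩
    | succ n ih =>
      intro hn
      obtain ⟨U, F, h1, h2, h3, h4, h5⟩ := ih (by omega)
      obtain ⟨w, -, hw⟩ := Finset.exists_mem_notMem_of_card_lt_card (s := U) (t := Finset.univ)
        (by rw [Finset.card_univ]; omega)
      obtain ⟨ε, hε⟩ := cross_BgT src tgt (h v0 w) fun e => hw (e.1 h3)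
      have hF : ε ∉ F := fun e => hε (iff_of_true (h4 ε e).1 (h4 ε e).2)
      have hne : src ε ≠ tgt ε := fun e => hε (by rw [e])
      obtain ⟨b, hb, h6, h7⟩ : ∃ b, b ∉ U ∧ (src ε = b ∨ tgt ε = b) ∧
          src ε ∈ insert b U ∧ tgt ε ∈ insert b U := by
        by_cases e : src ε ∈ U
        · exact ⟨tgt ε, fun e' => hε (iff_of_true e e'), .inr rfl, Finset.mem_insert_of_mem e,
            Finset.mem_insert_self _ _⟩
        · refine ⟨src ε, e, .inl rfl, Finset.mem_insert_self _ _, Finset.mem_insert_of_mem ?_⟩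
          by_contra e'
          exact hε (iff_of_false e e')
      refine ⟨insert b U, insert ε F, by rw [Finset.card_insert_of_notMem hb, h1],
        by rw [Finset.card_insert_of_notMem hF, h2], Finset.mem_insert_of_mem h3, fun e he => ?_,
        step F ε b h5 (fun e he => ⟨fun e' => hb (e' ▸ (h4 e he).1),
          fun e' => hb (e' ▸ (h4 e he).2)⟩) hne h6⟩
      rcases Finset.mem_insert.1 he with rfl | he
      · exact h7
      · exact ⟨Finset.mem_insert_of_mem (h4 e he).1, Finset.mem_insert_of_mem (h4 e he).2⟩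
  have hp : 0 < Fintype.card V := Fintype.card_pos_iff.2 ⟨v0⟩
  obtain ⟨U, F, -, h2, -, -, h5⟩ := key (Fintype.card V - 1) (by omega)
  exact ⟨F, by omega, h5⟩

theorem card_le_of_conn
    (h : ∀ v w, Relation.EqvGen (fun a b => ∃ ε, src ε = a ∧ tgt ε = b) v w) :
    Fintype.card V ≤ Fintype.card E + 1 := by
  classical
  rcases isEmpty_or_nonempty V with hV | ⟨⟨v0⟩⟩
  · simp
  · obtain ⟨F, h1, -⟩ := grow_BgT src tgt h v0 (fun _ => True) trivial fun _ _ _ _ _ _ _ => trivial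
    have := F.card_le_univ
    omega

theorem exists_gauge (h : ∀ v w, Relation.EqvGen (fun a b => ∃ ε, src ε = a ∧ tgt ε = b) v w)
    (hc : Fintype.card E + 1 = Fintype.card V) (G : Type) [Group G] (t : E → G) :
    ∃ u : V → G, ∀ ε, t ε = (u (src ε))⁻¹ * u (tgt ε) := by
  classical
  obtain ⟨v0⟩ : Nonempty V := Fintype.card_pos_iff.1 (by omega)
  obtain ⟨F, h1, u, hu⟩ := grow_BgT src tgt h v0
    (fun F => ∃ u : V → G, ∀ ε ∈ F, t ε = (u (src ε))⁻¹ * u (tgt ε)) ⟨fun _ => 1, by simp⟩ <| by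
      rintro F ε b ⟨u, hu⟩ h2 h3 (rfl | rfl)
      · refine ⟨Function.update u (src ε) (u (tgt ε) * (t ε)⁻¹), fun e he => ?_⟩
        rcases Finset.mem_insert.1 he with rfl | he
        · rw [Function.update_self, Function.update_of_ne h3.symm]
          group
        · rw [Function.update_of_ne (h2 e he).1, Function.update_of_ne (h2 e he).2, hu e he]
      · refine ⟨Function.update u (tgt ε) (u (src ε) * t ε), fun e he => ?_⟩
        rcases Finset.mem_insert.1 he with rfl | he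
        · rw [Function.update_self, Function.update_of_ne h3]
          group
        · rw [Function.update_of_ne (h2 e he).1, Function.update_of_ne (h2 e he).2, hu e he]
  obtain rfl : F = Finset.univ := F.eq_univ_of_card (by omega)
  exact ⟨u, fun ε => hu ε (Finset.mem_univ _)⟩

theorem isTree_of_card (h : ∀ v w, Relation.EqvGen (fun a b => ∃ ε, src ε = a ∧ tgt ε = b) v w)
    (hc : Fintype.card E + 1 = Fintype.card V) :
    (SimpleGraph.fromRel fun a b => ∃ ε, src ε = a ∧ tgt ε = b).IsTree ∧ (∀ ε, src ε ≠ tgt ε) ∧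
      Function.Injective fun ε => s(src ε, tgt ε) := by
  classical
  obtain ⟨v0⟩ : Nonempty V := Fintype.card_pos_iff.1 (by omega)
  obtain ⟨F, h1, h2, h3⟩ := grow_BgT src tgt h v0
    (fun F => (∀ ε ∈ F, src ε ≠ tgt ε) ∧
      ∀ e ∈ F, ∀ e' ∈ F, s(src e, tgt e) = s(src e', tgt e') → e = e') (by simp) <| by
      rintro F ε b ⟨h1, h2⟩ h3 h4 h5
      have h6 : ∀ e ∈ F, s(src e, tgt e) ≠ s(src ε, tgt ε) := fun e he e' => by
        have h7 : b ∈ s(src ε, tgt ε) := Sym2.mem_iff.2 (h5.imp Eq.symm Eq.symm)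
        rw [← e', Sym2.mem_iff] at h7
        exact h7.elim (h3 e he).1.symm (h3 e he).2.symm
      refine ⟨fun e he => ?_, fun e he e' he' h7 => ?_⟩
      · rcases Finset.mem_insert.1 he with rfl | he
        exacts [h4, h1 e he]
      · rcases Finset.mem_insert.1 he with e1 | e1 <;> rcases Finset.mem_insert.1 he' with e2 | e2
        exacts [e1.trans e2.symm, absurd (e1 ▸ h7.symm) (h6 e' e2), absurd (e2 ▸ h7) (h6 e e1),
          h2 e e1 e' e2 h7]
  obtain rfl : F = Finset.univ := F.eq_univ_of_card (by omega)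
  have h4 : ∀ ε, src ε ≠ tgt ε := fun ε => h2 ε (Finset.mem_univ _)
  have h5 : Function.Injective fun ε => s(src ε, tgt ε) := fun e e' =>
    h3 e (Finset.mem_univ _) e' (Finset.mem_univ _)
  refine ⟨SimpleGraph.isTree_iff_connected_and_card.2 ⟨?_, ?_⟩, h4, h5⟩
  · have : Nonempty V := ⟨v0⟩
    refine ⟨fun v w => ?_⟩
    induction h v w with
    | rel a b h =>
      obtain ⟨ε, rfl, rfl⟩ := h
      exact SimpleGraph.Adj.reachable
        ((SimpleGraph.fromRel_adj _ _ _).2 ⟨h4 ε, .inl ⟨ε, rfl, rfl⟩⟩)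
    | refl a => exact .refl a
    | symm a b _ ih => exact ih.symm
    | trans a b c _ _ ih1 ih2 => exact ih1.trans ih2
  · have e : (SimpleGraph.fromRel fun a b => ∃ ε, src ε = a ∧ tgt ε = b).edgeSet =
        Set.range fun ε => s(src ε, tgt ε) := by
      ext x
      induction x using Sym2.ind with
      | h a b =>
        rw [SimpleGraph.mem_edgeSet, SimpleGraph.fromRel_adj]
        constructor
        · rintro ⟨-, ⟨ε, rfl, rfl⟩ | ⟨ε, rfl, rfl⟩⟩
          exacts [⟨ε, rfl⟩, ⟨ε, Sym2.eq_swap⟩]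
        · rintro ⟨ε, e⟩
          rcases Sym2.eq_iff.1 e with ⟨rfl, rfl⟩ | ⟨rfl, rfl⟩
          exacts [⟨h4 ε, .inl ⟨ε, rfl, rfl⟩⟩, ⟨(h4 ε).symm, .inr ⟨ε, rfl, rfl⟩⟩]
    rw [e, Nat.card_range_of_injective h5, Nat.card_eq_fintype_card, Nat.card_eq_fintype_card, hc]

end Pool.Agent.AdmG

end

section

/-! Residue fields of places and growth of Riemann-Roch spaces. -/

namespace Pool.Agent.AdmG

open scoped IntermediateField

variable {k K : Type} [Field k] [IsAlgClosed k] [Field K] [Algebra k K]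

omit [IsAlgClosed k] in
theorem finiteDimensional_of_transcendental
    (ff : ∃ x : K, Transcendental k x ∧ FiniteDimensional k⟮x⟯ K) (f : K)
    (hf : Transcendental k f) : Algebra.IsAlgebraic k⟮f⟯ K := by
  obtain ⟨x, hx, hfin⟩ := ff
  have h1 : IsTranscendenceBasis k fun _ : Unit => x := by
    rw [(algebraicIndependent_unique_type_iff.2 hx).isTranscendenceBasis_iff_isAlgebraic,
      Set.range_const, ← IntermediateField.isAlgebraic_adjoin_iff_top]
    infer_instance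
  have h2 : IsTranscendenceBasis k fun _ : Unit => f :=
    (algebraicIndependent_unique_type_iff.2 hf).isTranscendenceBasis_of_trdeg_le_of_finite
      h1.cardinalMk_eq_trdeg.ge
  have h3 := h2.isAlgebraic_field
  rwa [Set.range_const] at h3

theorem Place.exists_residue (ff : ∃ x : K, Transcendental k x ∧ FiniteDimensional k⟮x⟯ K)
    (P : Place k K) (f : K) (hf : P.1 f ≤ 1) : ∃ c : k, P.1 (f - algebraMap k K c) < 1 := by
  by_cases ht : IsAlgebraic k f
  · have h1 := IntermediateField.adjoin.finiteDimensional ht.isIntegral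
    obtain ⟨c, hc⟩ := (IsAlgClosed.algebraMap_bijective_of_isIntegral (k := k) (K := k⟮f⟯)).2
      (IntermediateField.AdjoinSimple.gen k f)
    refine ⟨c, ?_⟩
    have h2 : algebraMap k K c = f := congrArg Subtype.val hc
    simp [h2]
  by_contra hc
  push Not at hc
  have h1 : ∀ c : k, P.1 (algebraMap k K c) ≤ 1 := fun c => by
    rcases eq_or_ne c 0 with rfl | h
    · simp
    · exact (P.2.2 c h).le
  have h2 : ∀ c : k, P.1 (f - algebraMap k K c) = 1 := fun c =>
    le_antisymm (P.1.map_sub_le hf (h1 c)) (hc c)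
  have h3 : ∀ Q : Polynomial k, Q ≠ 0 → P.1 (Polynomial.aeval f Q) = 1 := by
    intro Q hQ
    rw [(IsAlgClosed.splits Q).eq_prod_roots, map_mul, map_mul, Polynomial.aeval_C,
      P.2.2 _ (Polynomial.leadingCoeff_ne_zero.2 hQ), one_mul, map_multiset_prod,
      map_multiset_prod]
    refine Multiset.prod_eq_one fun a ha => ?_
    simp only [Multiset.mem_map] at ha
    obtain ⟨_, ⟨_, ⟨c, -, rfl⟩, rfl⟩, rfl⟩ := ha
    simpa using h2 c
  have h4 : P.1.IsTrivialOn k⟮f⟯ := ⟨fun a ha => by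
    obtain ⟨r, s, h⟩ := (IntermediateField.mem_adjoin_simple_iff k (a : K)).1 a.2
    have h0 : (a : K) ≠ 0 := fun e => ha (Subtype.ext e)
    change P.1 (a : K) = 1
    rw [h] at h0 ⊢
    rw [map_div₀, h3 r, h3 s, div_one]
    · rintro rfl
      simp at h0
    · rintro rfl
      simp at h0⟩
  obtain ⟨y, hy⟩ := P.2.1 (WithZero.exp 1)
  have h5 := finiteDimensional_of_transcendental ff f ht
  refine Valuation.transcendental_of_ne_one k⟮f⟯ (v := P.1) y ?_ ?_ (h5.1 y)
  · rintro rfl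
    exact WithZero.exp_ne_zero (hy.symm.trans (map_zero _))
  · rw [hy, ← WithZero.exp_zero]
    simp

theorem le_exp_BgR0 {a : WithZero (Multiplicative ℤ)} {m : ℤ} (h : a < WithZero.exp (m + 1)) :
    a ≤ WithZero.exp m := by
  rcases eq_or_ne a 0 with rfl | h0
  · exact zero_le
  · rw [← WithZero.exp_log h0] at h ⊢
    rw [WithZero.exp_lt_exp] at h
    rw [WithZero.exp_le_exp]
    omega

theorem finrank_RR_succ (ff : ∃ x : K, Transcendental k x ∧ FiniteDimensional k⟮x⟯ K)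
    (P : Place k K) (m : ℤ) (h : FiniteDimensional k (RR (Finsupp.single P m))) :
    FiniteDimensional k (RR (Finsupp.single P (m + 1))) ∧
      Module.finrank k (RR (Finsupp.single P (m + 1))) ≤
        Module.finrank k (RR (Finsupp.single P m)) + 1 := by
  have key : ∀ f ∈ RR (Finsupp.single P (m + 1)), P.1 f < WithZero.exp (m + 1) →
      f ∈ RR (Finsupp.single P m) := by
    intro f hf h1 Q
    rcases eq_or_ne Q P with rfl | hQ
    · rw [Finsupp.single_eq_same]
      exact le_exp_BgR0 h1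
    · have := hf Q
      rwa [Finsupp.single_eq_of_ne hQ] at this ⊢
  obtain ⟨f0, h0⟩ : ∃ f0 : K, RR (Finsupp.single P (m + 1)) ≤
      RR (Finsupp.single P m) ⊔ Submodule.span k {f0} := by
    by_cases h1 : ∀ f ∈ RR (Finsupp.single P (m + 1)), P.1 f < WithZero.exp (m + 1)
    · exact ⟨0, fun f hf => Submodule.mem_sup_left (key f hf (h1 f hf))⟩
    push Not at h1
    obtain ⟨f0, h1, h2⟩ := h1
    have h3 : P.1 f0 = WithZero.exp (m + 1) := le_antisymm (by simpa using h1 P) h2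
    have h4 : f0 ≠ 0 := by
      rintro rfl
      exact WithZero.exp_ne_zero (h3.symm.trans (map_zero _))
    refine ⟨f0, fun f hf => ?_⟩
    obtain ⟨c, hc⟩ := P.exists_residue ff (f / f0) (by
      rw [map_div₀, h3, div_le_one₀ WithZero.exp_pos]
      simpa using hf P)
    have h5 : f - c • f0 ∈ RR (Finsupp.single P m) := by
      refine key _ (sub_mem hf (Submodule.smul_mem _ _ h1)) ?_
      rw [show f - c • f0 = (f / f0 - algebraMap k K c) * f0 by
        rw [Algebra.smul_def, sub_mul, div_mul_cancel₀ _ h4], map_mul, h3]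
      exact mul_lt_of_lt_one_left WithZero.exp_pos hc
    rw [← sub_add_cancel f (c • f0)]
    exact Submodule.add_mem_sup h5
      (Submodule.smul_mem _ _ (Submodule.mem_span_singleton_self f0))
  refine ⟨Submodule.finiteDimensional_of_le h0, (Submodule.finrank_mono h0).trans
    ((Submodule.finrank_add_le_finrank_add_finrank _ _).trans (Nat.add_le_add_left ?_ _))⟩
  simpa using finrank_span_le_card ({f0} : Set K)

end Pool.Agent.AdmG

end

section

/-! A function field of genus zero over an algebraically closed field is rational. -/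

namespace Pool.Agent.AdmG

open scoped IntermediateField

section

variable {k K : Type} [Field k] [Field K] [Algebra k K]

theorem mem_RR_BgR {P : Place k K} {m : ℤ} {f : K} : f ∈ RR (Finsupp.single P m) ↔
    P.1 f ≤ WithZero.exp m ∧ ∀ Q : Place k K, Q ≠ P → Q.1 f ≤ 1 := by
  constructor
  · intro h
    refine ⟨?_, fun Q hQ => ?_⟩
    · have := h P
      rwa [Finsupp.single_eq_same] at this
    · have := h Q
      rwa [Finsupp.single_eq_of_ne hQ, WithZero.exp_zero] at this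
  · rintro ⟨h, h'⟩ Q
    by_cases hQ : Q = P
    · rwa [hQ, Finsupp.single_eq_same]
    · rw [Finsupp.single_eq_of_ne hQ, WithZero.exp_zero]
      exact h' Q hQ

theorem mul_mem_BgR {P : Place k K} {m n : ℤ} {f g : K} (hf : f ∈ RR (Finsupp.single P m))
    (hg : g ∈ RR (Finsupp.single P n)) : f * g ∈ RR (Finsupp.single P (m + n)) := by
  intro Q
  rw [map_mul, Finsupp.single_add, Finsupp.add_apply, WithZero.exp_add]
  exact mul_le_mul' (hf Q) (hg Q)

theorem mono_BgR {P : Place k K} {m n : ℤ} (h : m ≤ n) {f : K}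
    (hf : f ∈ RR (Finsupp.single P m)) : f ∈ RR (Finsupp.single P n) :=
  mem_RR_BgR.2 ⟨(mem_RR_BgR.1 hf).1.trans (WithZero.exp_le_exp.2 h), (mem_RR_BgR.1 hf).2⟩

theorem one_mem_BgR (P : Place k K) : (1 : K) ∈ RR (Finsupp.single P 0) := by
  intro Q
  simp

theorem pow_mem_BgR {P : Place k K} {f : K} (hf : f ∈ RR (Finsupp.single P 1)) (n : ℕ) :
    f ^ n ∈ RR (Finsupp.single P n) := by
  induction n with
  | zero =>
    rw [pow_zero]
    exact one_mem_BgR P
  | succ n ih =>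
    rw [pow_succ, Nat.cast_succ]
    exact mul_mem_BgR ih hf

theorem le_one_BgR (Q : Place k K) {x w : K} (hx : Q.1 x ≤ 1)
    (hw : IsIntegral (Algebra.adjoin k {x}) w) : Q.1 w ≤ 1 := by
  have h : (Algebra.adjoin k {x}).toSubring ≤ Q.1.integer := by
    intro y hy
    have hy' : y ∈ Algebra.adjoin k {x} := hy
    clear hy
    induction hy' using Algebra.adjoin_induction with
    | mem y hy => exact hy ▸ hx
    | algebraMap c =>
      rcases eq_or_ne c 0 with rfl | hc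
      · rw [map_zero]
        exact zero_mem _
      · exact (Q.2.2 c hc).le
    | add y z _ _ hy hz => exact add_mem hy hz
    | mul y z _ _ hy hz => exact mul_mem hy hz
  exact (Valuation.integer.integers Q.1).isIntegral_iff_v_le_one.1
    (hw.map_of_comp_eq (Subring.inclusion h) (RingHom.id K) rfl)

theorem indep_BgR {x w : K} (hx : Transcendental k x) (hw : w ∉ k⟮x⟯) :
    LinearIndependent k fun p : ℕ × Fin 2 => x ^ p.1 * ![1, w] p.2 := by
  have h1 : LinearIndependent k fun i : ℕ => x ^ i := by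
    have := (Polynomial.basisMonomials k).linearIndependent.map' (Polynomial.aeval x).toLinearMap
      (LinearMap.ker_eq_bot.2 (transcendental_iff_injective.1 hx))
    have e : (Polynomial.aeval x).toLinearMap ∘ Polynomial.basisMonomials k =
        fun i : ℕ => x ^ i := by
      funext i
      simp [Polynomial.aeval_monomial]
    rwa [e] at this
  have h2 : LinearIndependent k fun i : ℕ => IntermediateField.AdjoinSimple.gen k x ^ i :=
    LinearIndependent.of_comp k⟮x⟯.val.toLinearMap h1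
  have h3 : LinearIndependent k⟮x⟯ ![1, w] := by
    refine (LinearIndependent.pair_iff' one_ne_zero).2 fun a e => hw ?_
    rw [← e, Algebra.smul_def, mul_one]
    exact a.2
  exact linearIndependent_smul h2 h3

end

theorem exists_equiv_of_genus_zero {k K : Type} [Field k] [IsAlgClosed k] [Field K] [Algebra k K]
    (ff : ∃ x : K, Transcendental k x ∧ FiniteDimensional k⟮x⟯ K) (hg : HasGenus k K 0)
    (P : Place k K) : Nonempty (RatFunc k ≃ₐ[k] K) := by
  have h2 : 2 ≤ Module.finrank k (RR (Finsupp.single P 1)) := by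
    have := hg.2 ⟨Finsupp.single P 1, rfl⟩
    rw [Finsupp.sum_single_index rfl] at this
    omega
  have hfin : FiniteDimensional k (RR (Finsupp.single P 1)) :=
    Module.finite_of_finrank_pos (by omega)
  obtain ⟨x, hx, hx'⟩ : ∃ x ∈ RR (Finsupp.single P 1), x ∉ Submodule.span k {(1 : K)} := by
    by_contra hno
    have hle : RR (Finsupp.single P 1) ≤ Submodule.span k {(1 : K)} := fun x hx => by
      by_contra h
      exact hno ⟨x, hx, h⟩
    have := Submodule.finrank_mono hle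
    rw [finrank_span_singleton one_ne_zero] at this
    omega
  have ht : Transcendental k x := by
    intro h
    obtain ⟨c, hc⟩ : x ∈ (algebraMap k K).range := minpoly.mem_range_of_degree_eq_one k x
      (IsAlgClosed.degree_eq_one_of_irreducible k (minpoly.irreducible h.isIntegral))
    exact hx' (Submodule.mem_span_singleton.2 ⟨c, by rw [Algebra.smul_def, mul_one, hc]⟩)
  have hgr : ∀ n : ℕ, FiniteDimensional k (RR (Finsupp.single P (1 + (n : ℤ)))) ∧
      Module.finrank k (RR (Finsupp.single P (1 + (n : ℤ)))) ≤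
        Module.finrank k (RR (Finsupp.single P 1)) + n := by
    intro n
    induction n with
    | zero =>
      rw [Nat.cast_zero, add_zero]
      exact ⟨hfin, le_rfl⟩
    | succ n ih =>
      obtain ⟨h1, h2⟩ := finrank_RR_succ ff P _ ih.1
      rw [Nat.cast_succ, ← add_assoc]
      exact ⟨h1, by omega⟩
  have htop : k⟮x⟯ = ⊤ := by
    refine top_unique fun w _ => ?_
    by_contra hw
    obtain ⟨a, ha, hi⟩ := (IntermediateField.isAlgebraic_adjoin_iff.1
      ((finiteDimensional_of_transcendental ff x ht).isAlgebraic w)).exists_integral_multiple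
    obtain ⟨u, hu⟩ : ∃ u, u = a • w := ⟨_, rfl⟩
    rw [← hu] at hi
    have hu' : u ∉ k⟮x⟯ := by
      intro h
      have ha0 : (a : K) ≠ 0 := fun e => ha (Subtype.ext e)
      have e : w = u / a := by
        rw [hu, eq_div_iff ha0, mul_comm]
        rfl
      exact hw (e ▸ div_mem h (IntermediateField.algebra_adjoin_le_adjoin k _ a.2))
    obtain ⟨c, hc⟩ : ∃ c : ℕ, u ∈ RR (Finsupp.single P c) := by
      refine ⟨(WithZero.log (P.1 u)).toNat, mem_RR_BgR.2 ⟨?_, fun Q hQ =>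
        le_one_BgR Q ((mem_RR_BgR.1 hx).2 Q hQ) hi⟩⟩
      rcases eq_or_ne (P.1 u) 0 with h | h
      · rw [h]
        exact zero_le
      · exact (WithZero.log_le_iff_le_exp h).1 (Int.self_le_toNat _)
    obtain ⟨n, hn⟩ : ∃ n, n = Module.finrank k (RR (Finsupp.single P 1)) + c := ⟨_, rfl⟩
    obtain ⟨h1, h3⟩ := hgr (n + c)
    have hm : ∀ p : Fin (n + 1) × Fin 2,
        x ^ p.1.1 * ![1, u] p.2 ∈ RR (Finsupp.single P (1 + ((n + c : ℕ) : ℤ))) := by
      rintro ⟨i, j⟩
      have hj : ![1, u] j ∈ RR (Finsupp.single P c) := by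
        fin_cases j
        · exact mono_BgR (Int.natCast_nonneg c) (one_mem_BgR P)
        · exact hc
      have := i.2
      exact mono_BgR (by push_cast; omega) (mul_mem_BgR (pow_mem_BgR hx i) hj)
    have hli : LinearIndependent k fun p : Fin (n + 1) × Fin 2 =>
        (⟨_, hm p⟩ : RR (Finsupp.single P (1 + ((n + c : ℕ) : ℤ)))) :=
      LinearIndependent.of_comp (Submodule.subtype _) ((indep_BgR ht hu').comp (Prod.map Fin.val id)
        (Fin.val_injective.prodMap Function.injective_id))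
    have := hli.fintype_card_le_finrank
    rw [Fintype.card_prod, Fintype.card_fin, Fintype.card_fin] at this
    omega
  exact ⟨((RatFunc.algEquivOfTranscendental x ht).trans (IntermediateField.equivOfEq htop)).trans
    IntermediateField.topEquiv⟩

end Pool.Agent.AdmG

end

section

/-! Transport of places and coverings along an isomorphism of function fields. -/

namespace Pool.Agent.AdmG

variable {k K K' : Type} [Field k] [Field K] [Field K'] [Algebra k K] [Algebra k K']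

/-- Pull back of a place. -/
def pull_BgC (e : K' ≃ₐ[k] K) (P : Place k K) : Place k K' :=
  ⟨P.1.comap (e : K' →+* K), P.2.1.comp e.surjective, fun c hc => by
    rw [Valuation.comap_apply]
    exact (congrArg P.1 (e.commutes c)).trans (P.2.2 c hc)⟩

theorem exists_place_equiv (e : K' ≃ₐ[k] K) :
    ∃ β : Place k K ≃ Place k K', ∀ (P : Place k K) (f : K'), (β P).1 f = P.1 (e f) :=
  ⟨⟨pull_BgC e, pull_BgC e.symm,
    fun P => Subtype.ext (Valuation.ext fun f => congrArg P.1 (e.apply_symm_apply f)),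
    fun P => Subtype.ext (Valuation.ext fun f => congrArg P.1 (e.symm_apply_apply f))⟩,
    fun _ _ => rfl⟩

theorem Cov.exists_transport {G : Type} [Group G] (e : K' ≃ₐ[k] K) (c : Cov K G) :
    ∃ c' : Cov K' G, c'.ι.range = c.ι.range ∧
      ∀ (P : Place k K) (P' : Place k K'), (∀ f, P'.1 f = P.1 (e f)) →
        ∀ m ζ g, c.Mono P m ζ g → c'.Mono P' m ζ g := by
  let A : Algebra K' c.L := ((algebraMap K c.L).comp (e : K' →+* K)).toAlgebra
  have h0 : ∀ f, algebraMap K' c.L f = algebraMap K c.L (e f) := fun _ => rfl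
  have hc : (algebraMap K' c.L).comp (e.symm.toRingEquiv : K →+* K') =
      ((RingEquiv.refl c.L : c.L ≃+* c.L) : c.L →+* c.L).comp (algebraMap K c.L) := by
    ext x
    exact congrArg (algebraMap K c.L) (e.apply_symm_apply x)
  have : FiniteDimensional K' c.L := Module.Finite.of_equiv_equiv _ _ hc
  have : IsGalois K' c.L := IsGalois.of_equiv_equiv hc
  let μ : (c.L ≃ₐ[K'] c.L) ≃* (c.L ≃ₐ[K] c.L) :=
    { toFun := fun σ => AlgEquiv.ofRingEquiv (f := σ.toRingEquiv) fun x => by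
        obtain ⟨y, rfl⟩ := e.surjective x
        exact σ.commutes y
      invFun := fun σ => AlgEquiv.ofRingEquiv (f := σ.toRingEquiv) fun x => σ.commutes (e x)
      left_inv := fun _ => rfl
      right_inv := fun _ => rfl
      map_mul' := fun _ _ => rfl }
  refine ⟨{ L := c.L, ι := c.ι.comp μ.toMonoidHom }, ?_, ?_⟩
  · ext g
    exact ⟨fun ⟨σ, h⟩ => ⟨μ σ, h⟩, fun ⟨σ, h⟩ => ⟨μ.symm σ, h⟩⟩
  · rintro P P' hP m ζ g ⟨h1, h2, j, h3, h4, σ, h5, h6⟩
    refine ⟨h1, h2, j, fun x => ?_, fun f n hf => h4 (e f) n (hP f ▸ hf), μ.symm σ, h5, h6⟩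
    exact (congrArg (fun y => j (algebraMap K c.L y)) (e.commutes x)).trans (h3 x)

end Pool.Agent.AdmG

end

section

/-! A stable curve of genus zero is a tree of projective lines. -/

namespace Pool.Agent.AdmG

open Pool.Agent.Adm (Cover)
open scoped IntermediateField

theorem exists_coord_BgA {k K : Type} [Field k] [IsAlgClosed k] [Field K] [Algebra k K]
    (ff : ∃ x : K, Transcendental k x ∧ FiniteDimensional k⟮x⟯ K) (hg : HasGenus k K 0)
    (P₀ : Place k K) : ∃ γ : Place k K ≃ OnePoint k, ∀ (G : Type) [Group G],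
      (∀ c : Cov K G, ∃ c' : Cover k G, c'.ι.range = c.ι.range ∧
        ∀ P m ζ g, c.Mono P m ζ g → c'.Mono (γ P) m ζ g) ∧
      ∀ c' : Cover k G, ∃ c : Cov K G, c.ι.range = c'.ι.range ∧
        ∀ P m ζ g, c'.Mono (γ P) m ζ g → c.Mono P m ζ g := by
  obtain ⟨e⟩ := exists_equiv_of_genus_zero ff hg P₀
  obtain ⟨β, hβ⟩ := exists_place_equiv e
  obtain ⟨π, hπ⟩ := exists_isPlc k
  obtain ⟨γ, hγ⟩ : ∃ γ : Place k K ≃ OnePoint k, ∀ P, π (γ P) = β P :=
    ⟨β.trans (Equiv.ofBijective π ⟨hπ.injective, hπ.surjective⟩).symm, fun P =>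
      (Equiv.ofBijective π ⟨hπ.injective, hπ.surjective⟩).apply_symm_apply (β P)⟩
  refine ⟨γ, fun G _ => ⟨fun c => ?_, fun c' => ?_⟩⟩
  · obtain ⟨c', h1, h2⟩ := Cov.exists_transport e c
    refine ⟨ofCov c', h1, fun P m ζ g h => (hπ.mono_iff (ofCov c') _ m ζ g).1 ?_⟩
    rw [hγ]
    exact h2 P (β P) (hβ P) m ζ g h
  · obtain ⟨c, h1, h2⟩ := Cov.exists_transport e.symm (toCov c')
    refine ⟨c, h1, fun P m ζ g h => h2 (π (γ P)) P (fun f => ?_) m ζ g
      ((hπ.mono_iff c' _ m ζ g).2 h)⟩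
    rw [hγ, hβ, e.apply_symm_apply]

/-- Renumbering of the special points. -/
def eqv_BgA (E I : Type) : (E ⊕ E) ⊕ ((Empty ⊕ Empty) ⊕ I) ≃ (E ⊕ E) ⊕ I :=
  Equiv.sumCongr (Equiv.refl _) (Equiv.emptySum _ _)

/-- Coordinates of points. -/
def phi_BgA {V A : Type} {B : V → Type} (γ : ∀ v, B v ≃ A) (s : Σ v, B v) : V × A :=
  (s.1, γ s.1 s.2)

theorem phi_inj_BgA {V A : Type} {B : V → Type} (γ : ∀ v, B v ≃ A) :
    Function.Injective (phi_BgA γ) := by
  rintro ⟨v, P⟩ ⟨w, Q⟩ e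
  have e1 : v = w := congrArg Prod.fst e
  subst e1
  have e2 : P = Q := (γ v).injective (congrArg Prod.snd e)
  rw [e2]

/-- The tree of projective lines. -/
def rc_BgA {p n : ℕ} (Y : StableCurve p 0 n) (h0 : ∀ v, Y.gen v = 0)
    (hc : Fintype.card Y.E + 1 = Fintype.card Y.V)
    (γ : ∀ v, Place Y.k (Y.K v) ≃ OnePoint Y.k) : RC Y.k ((Empty ⊕ Empty) ⊕ Fin n) where
  V := Y.V
  ne := Y.ne
  E := Y.E
  pt h := phi_BgA γ (Y.pt (eqv_BgA _ _ h))
  inj := (phi_inj_BgA γ).comp (Y.inj.comp (eqv_BgA _ _).injective)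
  conn := Y.conn
  card := hc
  stable v := by
    have h2 := Y.stable v
    rw [h0, mul_zero, zero_add] at h2
    exact h2.trans_eq (Nat.card_congr ((eqv_BgA _ _).subtypeEquiv fun h => Iff.rfl)).symm
  gauge G _ t := exists_gauge _ _ Y.conn hc G t

theorem range_BgA {p n : ℕ} (Y : StableCurve p 0 n) (h0 : ∀ v, Y.gen v = 0)
    (hc : Fintype.card Y.E + 1 = Fintype.card Y.V)
    (γ : ∀ v, Place Y.k (Y.K v) ≃ OnePoint Y.k) (v : Y.V) (P : Place Y.k (Y.K v)) :
    (v, γ v P) ∈ Set.range (rc_BgA Y h0 hc γ).pt ↔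
      (⟨v, P⟩ : Σ v, Place Y.k (Y.K v)) ∈ Set.range Y.pt := by
  constructor
  · rintro ⟨h, e⟩
    exact ⟨eqv_BgA _ _ h, phi_inj_BgA γ e⟩
  · rintro ⟨h, e⟩
    obtain ⟨h, rfl⟩ := (eqv_BgA Y.E (Fin n)).surjective h
    exact ⟨h, congrArg (phi_BgA γ) e⟩

theorem StableCurve.exists_rc {p n : ℕ} (Y : StableCurve p 0 n) :
    ∃ X : RC Y.k ((Empty ⊕ Empty) ⊕ Fin n), ∀ (G : Type) [Group G], Y.HasCover G ↔ X.Cv G := by
  have h1 := card_le_of_conn _ _ Y.conn
  have h2 := Y.total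
  have hc : Fintype.card Y.E + 1 = Fintype.card Y.V := by omega
  have h0 : ∀ v, Y.gen v = 0 := fun v =>
    Finset.sum_eq_zero_iff.1 (show ∑ v, Y.gen v = 0 by omega) v (Finset.mem_univ v)
  have hP : ∀ v, Nonempty (Place Y.k (Y.K v)) := fun v => by
    have h3 := Y.stable v
    rw [h0, mul_zero, zero_add] at h3
    obtain ⟨h, rfl⟩ := (Nat.card_pos_iff.1 (lt_trans two_pos h3)).1
    exact ⟨(Y.pt h).2⟩
  choose γ hγ using fun v => exists_coord_BgA (Y.ff v) (by simpa only [h0 v] using Y.genus v) (hP v).some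
  refine ⟨rc_BgA Y h0 hc γ, fun G _ => ⟨?_, ?_⟩⟩
  · rintro ⟨c, t, a1, a2, a3⟩
    choose c' hr hm using fun v => (hγ v G).1 (c v)
    refine ⟨c', Sum.elim t Empty.elim, fun v a => ?_, ?_, fun a b => (a3 a b).mono ?_⟩
    · obtain ⟨P, rfl⟩ := (γ v).surjective a
      obtain ⟨e, ζ, x, b1, b2⟩ := a1 v P
      exact ⟨e, ζ, x, hm v P e ζ x b1, fun h => b2 fun h' => h ((range_BgA Y h0 hc γ v P).2 h')⟩
    · rintro (ε | ε)
      · obtain ⟨e, ζ, x, b1, b2⟩ := a2 ε
        exact ⟨e, ζ, x, hm _ _ _ _ _ b1, hm _ _ _ _ _ b2⟩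
      · exact ε.elim
    · rintro a b (⟨b1, b2⟩ | ⟨ε, b1, b2⟩)
      · exact .inl ⟨b1, (hr a.1).symm ▸ b2⟩
      · exact .inr ⟨.inl ε, b1, b2⟩
  · rintro ⟨c', t, a1, a2, a3⟩
    choose c hr hm using fun v => (hγ v G).2 (c' v)
    refine ⟨c, fun ε => t (.inl ε), fun v P => ?_, fun ε => ?_, fun a b => (a3 a b).mono ?_⟩
    · obtain ⟨e, ζ, x, b1, b2⟩ := a1 v (γ v P)
      exact ⟨e, ζ, x, hm v P e ζ x b1, fun h => b2 fun h' => h ((range_BgA Y h0 hc γ v P).1 h')⟩
    · obtain ⟨e, ζ, x, b1, b2⟩ := a2 (.inl ε)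
      exact ⟨e, ζ, x, hm _ _ _ _ _ b1, hm _ _ _ _ _ b2⟩
    · rintro a b (⟨b1, b2⟩ | ⟨ε | ε, b1, b2⟩)
      · exact .inl ⟨b1, (hr a.1).symm ▸ b2⟩
      · exact .inr ⟨ε, b1, b2⟩
      · exact ε.elim

end Pool.Agent.AdmG

end

section

/-! From trees with a set of edges to trees given by a simple graph. -/

namespace Pool.Agent.AdmG

open scoped OnePoint
open Sum

theorem graph_BgB {k ι : Type} [Field k] (X : RC k ι) :
    ∃ (T : SimpleGraph X.V) (node : X.V → X.V → OnePoint k), T.IsTree ∧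
      (∀ v w, T.Adj v w ↔ ∃ δ : X.E ⊕ X.E, (X.pt (inl δ)).1 = v ∧ (X.pt (inl δ.swap)).1 = w) ∧
      ∀ δ : X.E ⊕ X.E, node (X.pt (inl δ)).1 (X.pt (inl δ.swap)).1 = (X.pt (inl δ)).2 := by
  classical
  obtain ⟨h1, h2, h3⟩ := isTree_of_card (fun ε => (X.pt (inl (inl ε))).1)
    (fun ε => (X.pt (inl (inr ε))).1) X.conn X.card
  have hi : ∀ δ δ' : X.E ⊕ X.E, (X.pt (inl δ)).1 = (X.pt (inl δ')).1 →
      (X.pt (inl δ.swap)).1 = (X.pt (inl δ'.swap)).1 → δ = δ' := by
    rintro (ε | ε) (ε' | ε') e1 e2 <;> simp only [swap_inl, swap_inr] at e2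
    · exact congrArg inl (h3 (by simp only [e1, e2]))
    · obtain rfl : ε = ε' := h3 (by simp only [e1, e2, Sym2.eq_swap])
      exact absurd e1 (h2 ε)
    · obtain rfl : ε = ε' := h3 (by simp only [e1, e2, Sym2.eq_swap])
      exact absurd e2 (h2 ε)
    · exact congrArg inr (h3 (by simp only [e1, e2]))
  refine ⟨_, fun v w => if h : ∃ δ : X.E ⊕ X.E, (X.pt (inl δ)).1 = v ∧ (X.pt (inl δ.swap)).1 = w
    then (X.pt (inl h.choose)).2 else ∞, h1, fun v w => ?_, fun δ => ?_⟩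
  · rw [SimpleGraph.fromRel_adj]
    constructor
    · rintro ⟨-, ⟨ε, e1, e2⟩ | ⟨ε, e1, e2⟩⟩
      · exact ⟨inl ε, e1, e2⟩
      · exact ⟨inr ε, e2, e1⟩
    · rintro ⟨ε | ε, rfl, rfl⟩
      · exact ⟨h2 ε, Or.inl ⟨ε, rfl, rfl⟩⟩
      · exact ⟨(h2 ε).symm, Or.inr ⟨ε, rfl, rfl⟩⟩
  · have h : ∃ δ' : X.E ⊕ X.E, (X.pt (inl δ')).1 = (X.pt (inl δ)).1 ∧
        (X.pt (inl δ'.swap)).1 = (X.pt (inl δ.swap)).1 := ⟨δ, rfl, rfl⟩
    simp only [dif_pos h]
    rw [hi _ _ h.choose_spec.1 h.choose_spec.2]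

theorem RC.exists_adm (p : ℕ) {n : ℕ} {k : Type} [Field k] [IsAlgClosed k] [CharP k p]
    (X : RC k ((Empty ⊕ Empty) ⊕ Fin n)) :
    ∃ Z : Pool.Agent.Adm.StableCurve p n, ∀ (G : Type) [Group G], Z.HasCover G ↔ Cl X.Adm G := by
  obtain ⟨T, node, hT, hA, hN⟩ := graph_BgB X
  have hS : ∀ v a, ((∃ w, T.Adj v w ∧ node v w = a) ∨
      ∃ i, (X.pt (inr (inr i))).1 = v ∧ (X.pt (inr (inr i))).2 = a) ↔ (v, a) ∈ Set.range X.pt := by
    intro v a
    constructor
    · rintro (⟨w, h, rfl⟩ | ⟨i, rfl, rfl⟩)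
      · obtain ⟨δ, rfl, rfl⟩ := (hA v w).1 h
        exact ⟨inl δ, by rw [hN]⟩
      · exact ⟨_, rfl⟩
    · rintro ⟨δ | (j | j) | i, h⟩
      · obtain ⟨rfl, rfl⟩ := Prod.ext_iff.1 h
        exact Or.inl ⟨_, (hA _ _).2 ⟨δ, rfl, rfl⟩, hN δ⟩
      · exact j.elim
      · exact j.elim
      · exact Or.inr ⟨i, congrArg Prod.fst h, congrArg Prod.snd h⟩
  refine ⟨{ k := k, V := X.V, T := T, tree := hT, node := node
            comp := fun i => (X.pt (inr (inr i))).1, mark := fun i => (X.pt (inr (inr i))).2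
            node_inj := ?_, mark_inj := ?_, mark_ne_node := ?_, stable := ?_ }, fun G _ => ?_⟩
  · intro v w w' h h' e
    obtain ⟨δ, rfl, rfl⟩ := (hA v w).1 h
    obtain ⟨δ', e1, rfl⟩ := (hA _ w').1 h'
    rw [hN, ← e1, hN] at e
    rw [inl_injective (X.inj (Prod.ext e1.symm e))]
  · intro i j e1 e2
    exact inr_injective (inr_injective (X.inj (Prod.ext e1 e2)))
  · intro i w h e
    obtain ⟨δ, e1, rfl⟩ := (hA _ w).1 h
    rw [← e1, hN] at e
    exact inl_ne_inr (X.inj (Prod.ext e1 e.symm))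
  · intro v
    have e : {a | (∃ w, T.Adj v w ∧ node v w = a) ∨
        ∃ i, (X.pt (inr (inr i))).1 = v ∧ (X.pt (inr (inr i))).2 = a} =
        Set.range fun h : {h // (X.pt h).1 = v} => (X.pt h.1).2 := by
      ext a
      rw [Set.mem_ofPred_eq, hS]
      constructor
      · rintro ⟨h, e⟩
        exact ⟨⟨h, congrArg Prod.fst e⟩, congrArg Prod.snd e⟩
      · rintro ⟨h, rfl⟩
        exact ⟨h.1, Prod.ext h.2 rfl⟩
    rw [e, Set.ncard_range_of_injective]
    · exact X.stable v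
    · exact fun h h' e => Subtype.ext (X.inj (Prod.ext (h.2.trans h'.2.symm) e))
  · constructor
    · rintro ⟨c, h1, h2, h3⟩
      choose e ζ g hm hg using h1
      refine ⟨Sum.elim (Sum.elim Empty.elim Empty.elim) fun i =>
        (e (X.pt (inr (inr i))).1 (X.pt (inr (inr i))).2,
          ζ (X.pt (inr (inr i))).1 (X.pt (inr (inr i))).2,
          g (X.pt (inr (inr i))).1 (X.pt (inr (inr i))).2), ⊤, Empty.elim,
        ⟨c, fun v a => ⟨_, _, _, hm v a, fun h => hg v a fun h' => h ((hS v a).1 h')⟩,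
          fun ε => ?_, ?_, h3⟩, fun j => j.elim, top_sup_eq _⟩
      · obtain ⟨e, ζ, g, m1, m2⟩ := h2 _ _ ((hA _ _).2 ⟨inl ε, rfl, rfl⟩)
        have n1 := hN (inl ε)
        have n2 := hN (inr ε)
        simp only [swap_inl, swap_inr] at n1 n2 m1 m2
        rw [n1] at m1
        rw [n2] at m2
        exact ⟨(e, ζ, g), m1, m2⟩
      · rintro ((j | j) | i)
        · exact j.elim
        · exact j.elim
        · exact hm _ _
    · rintro ⟨d, H, t, ⟨c, h1, h2, -, h3⟩, -, h4⟩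
      refine ⟨c, fun v a => ?_, fun v w h => ?_, ?_⟩
      · obtain ⟨e, ζ, g, hm, hg⟩ := h1 v a
        exact ⟨e, ζ, g, hm, fun h => hg fun h' => h ((hS v a).2 h')⟩
      · obtain ⟨ε | ε, rfl, rfl⟩ := (hA v w).1 h
        · obtain ⟨x, m1, m2⟩ := h2 ε
          have n1 := hN (inl ε)
          have n2 := hN (inr ε)
          simp only [swap_inl, swap_inr] at n1 n2 ⊢
          rw [n1, n2]
          exact ⟨x.1, x.2.1, x.2.2, m1, m2⟩
        · obtain ⟨x, m1, m2⟩ := h2 ε
          have n1 := hN (inl ε)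
          have n2 := hN (inr ε)
          simp only [swap_inl, swap_inr] at n1 n2 ⊢
          rw [n1, n2]
          exact ⟨x.1, x.2.1⁻¹, x.2.2, m2, by rw [inv_inv]; exact m1⟩
      · rw [Set.range_eq_empty, Subgroup.closure_empty, sup_bot_eq, ← h3] at h4
        exact h4

end Pool.Agent.AdmG

end

section

/-! From trees given by a simple graph to trees with a set of edges. -/

namespace Pool.Agent.AdmG

theorem exists_ends_BgE {V : Type} (T : SimpleGraph V) :
    ∃ src tgt : T.edgeSet → V, ∀ ε, s(src ε, tgt ε) = ε.1 :=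
  ⟨fun ε => ε.1.out.1, fun ε => ε.1.out.2, fun ε => ε.1.out_eq⟩

theorem darts_BgE {V : Type} {T : SimpleGraph V} {src tgt : T.edgeSet → V}
    (h : ∀ ε, s(src ε, tgt ε) = ε.1) :
    Function.Injective (Sum.elim (fun ε => (src ε, tgt ε)) fun ε => (tgt ε, src ε)) ∧
      ∀ v w, T.Adj v w ↔ (v, w) ∈
        Set.range (Sum.elim (fun ε => (src ε, tgt ε)) fun ε => (tgt ε, src ε)) := by
  have adj : ∀ ε, T.Adj (src ε) (tgt ε) := fun ε => T.mem_edgeSet.1 (h ε ▸ ε.2)
  have inj : ∀ ε ε', s(src ε, tgt ε) = s(src ε', tgt ε') → ε = ε' := fun ε ε' e =>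
    Subtype.ext ((h ε).symm.trans (e.trans (h ε')))
  refine ⟨?_, fun v w => ⟨fun e => ?_, ?_⟩⟩
  · rintro (ε | ε) (ε' | ε') e <;> obtain ⟨e1, e2⟩ := Prod.mk.inj e
    · exact congrArg _ (inj _ _ (by rw [e1, e2]))
    · obtain rfl := inj ε ε' (by rw [e1, e2, Sym2.eq_swap])
      exact absurd e1 (adj ε).ne
    · obtain rfl := inj ε ε' (by rw [e1, e2, Sym2.eq_swap])
      exact absurd e2 (adj ε).ne
    · exact congrArg _ (inj _ _ (by rw [e1, e2]))
  · rcases Sym2.eq_iff.1 (h ⟨s(v, w), T.mem_edgeSet.2 e⟩) with ⟨e1, e2⟩ | ⟨e1, e2⟩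
    · exact ⟨.inl _, Prod.ext e1 e2⟩
    · exact ⟨.inr _, Prod.ext e2 e1⟩
  · rintro ⟨ε | ε, e⟩ <;> obtain ⟨rfl, rfl⟩ := Prod.mk.inj e
    exacts [adj ε, (adj ε).symm]

theorem exists_rc_of_adm {p n : ℕ} (Z : Pool.Agent.Adm.StableCurve p n) :
    ∃ X : RC Z.k ((Empty ⊕ Empty) ⊕ Fin n), ∀ (G : Type) [Group G], Z.HasCover G ↔ Cl X.Adm G := by
  obtain ⟨src, tgt, hst⟩ := exists_ends_BgE Z.T
  obtain ⟨hinj, hadj⟩ := darts_BgE hst
  obtain ⟨D, hD⟩ : ∃ D : Z.T.edgeSet ⊕ Z.T.edgeSet → Z.V × Z.V,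
    D = Sum.elim (fun ε => (src ε, tgt ε)) fun ε => (tgt ε, src ε) := ⟨_, rfl⟩
  have adj : ∀ ε, Z.T.Adj (src ε) (tgt ε) := fun ε => (hadj _ _).2 ⟨.inl ε, rfl⟩
  let pt : (Z.T.edgeSet ⊕ Z.T.edgeSet) ⊕ ((Empty ⊕ Empty) ⊕ Fin n) → Z.V × OnePoint Z.k :=
    Sum.elim (fun h => ((Sum.elim src tgt h), Z.node (Sum.elim src tgt h) (Sum.elim tgt src h)))
      (Sum.elim (fun j => (Sum.elim id id j : Empty).elim) fun i => (Z.comp i, Z.mark i))
  have hd : ∀ h, D h = (Sum.elim src tgt h, Sum.elim tgt src h) := by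
    rintro (ε | ε) <;> rw [hD] <;> rfl
  rw [← hD] at hinj hadj
  have adj' : ∀ h, Z.T.Adj (Sum.elim src tgt h) (Sum.elim tgt src h) := fun h =>
    (hadj _ _).2 ⟨h, hd h⟩
  have hsp : ∀ v a, (v, a) ∈ Set.range pt ↔ Z.Special v a := by
    intro v a
    constructor
    · rintro ⟨h | (j | i), e⟩
      · obtain ⟨rfl, rfl⟩ := Prod.mk.inj e
        exact .inl ⟨_, adj' h, rfl⟩
      · exact (Sum.elim id id j : Empty).elim
      · exact .inr ⟨i, Prod.mk.inj e⟩
    · rintro (⟨w, e, rfl⟩ | ⟨i, rfl, rfl⟩)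
      · obtain ⟨h, e'⟩ := (hadj v w).1 e
        obtain ⟨rfl, rfl⟩ := Prod.mk.inj ((hd h).symm.trans e')
        exact ⟨.inl h, rfl⟩
      · exact ⟨.inr (.inr i), rfl⟩
  have hpi : Function.Injective pt := by
    have hE : ∀ j : Empty ⊕ Empty, False := fun j => (Sum.elim id id j : Empty).elim
    rintro (h | (j | i)) (h' | (j' | i')) e
    · obtain ⟨e1, e2⟩ := Prod.mk.inj e
      refine congrArg _ (hinj ?_)
      rw [hd, hd, Z.node_inj _ _ _ (adj' h) (e1 ▸ adj' h') (e2.trans (by rw [e1])), e1]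
    · exact (hE j').elim
    · obtain ⟨e1, e2⟩ := Prod.mk.inj e
      exact absurd (e2.symm.trans (by rw [e1])) (Z.mark_ne_node i' _ (e1 ▸ adj' h))
    · exact (hE j).elim
    · exact (hE j).elim
    · exact (hE j).elim
    · obtain ⟨e1, e2⟩ := Prod.mk.inj e
      exact absurd (e2.trans (by rw [e1])) (Z.mark_ne_node i _ (e1 ▸ adj' h'))
    · exact (hE j').elim
    · obtain ⟨e1, e2⟩ := Prod.mk.inj e
      rw [Z.mark_inj i i' e1 e2]
  have conn : ∀ v w, Relation.EqvGen (fun a b => ∃ ε, src ε = a ∧ tgt ε = b) v w := by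
    intro v w
    obtain ⟨q⟩ := Z.tree.connected.preconnected v w
    induction q with
    | nil => exact .refl _
    | cons e _ ih =>
      refine .trans _ _ _ ?_ ih
      obtain ⟨ε | ε, e'⟩ := (hadj _ _).1 e
      · exact .rel _ _ ⟨ε, Prod.mk.inj ((hd _).symm.trans e')⟩
      · exact .symm _ _ (.rel _ _ ⟨ε, (Prod.mk.inj ((hd _).symm.trans e')).symm⟩)
  let _ := Fintype.ofFinite Z.V
  let _ := Fintype.ofFinite Z.T.edgeSet
  have card : Fintype.card Z.T.edgeSet + 1 = Fintype.card Z.V := by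
    rw [← Z.tree.card_edgeFinset, SimpleGraph.edgeFinset, Set.toFinset_card]
  have stab : ∀ v, 2 < Nat.card {h // (pt h).1 = v} := by
    intro v
    choose g hg using fun a : {a | Z.Special v a} => (hsp v a).2 a.2
    refine lt_of_lt_of_le (Z.stable v) (Nat.card_le_card_of_injective
      (fun a => ⟨g a, congrArg Prod.fst (hg a)⟩) fun a a' e => Subtype.ext ?_)
    have e' : g a = g a' := congrArg Subtype.val e
    exact congrArg Prod.snd ((hg a).symm.trans (e' ▸ hg a'))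
  refine ⟨⟨Z.V, Z.tree.connected.nonempty, Z.T.edgeSet, pt, hpi, conn, card, stab,
    exists_gauge src tgt conn card⟩, fun G _ => ⟨?_, ?_⟩⟩
  · rintro ⟨c, h1, h2, h3⟩
    choose e ζ g hm hg using h1
    refine ⟨fun h => (e (pt (.inr h)).1 (pt (.inr h)).2, ζ _ (pt (.inr h)).2, g _ (pt (.inr h)).2),
      ⊤, Empty.elim, ⟨c, fun v a => ⟨_, _, _, hm v a, fun h => hg v a fun h' => h ((hsp v a).2 h')⟩,
        fun ε => ?_, fun i => hm _ _, h3⟩, fun j => j.elim, top_sup_eq _⟩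
    obtain ⟨e', ζ', g', h4, h5⟩ := h2 _ _ (adj ε)
    exact ⟨(e', ζ', g'), h4, h5⟩
  · rintro ⟨d, H, t, ⟨c, h1, h2, -, h3⟩, -, h4⟩
    refine ⟨c, fun v a => ?_, fun v w e => ?_, ?_⟩
    · obtain ⟨e, ζ, g, hm, hg⟩ := h1 v a
      exact ⟨e, ζ, g, hm, fun h => hg fun h' => h ((hsp v a).1 h')⟩
    · obtain ⟨ε | ε, e'⟩ := (hadj _ _).1 e <;>
        obtain ⟨rfl, rfl⟩ := Prod.mk.inj ((hd _).symm.trans e') <;>
        obtain ⟨x, h5, h6⟩ := h2 ε
      · exact ⟨_, _, _, h5, h6⟩
      · exact ⟨_, _, _, h6, by rw [show (dinv x).2.1⁻¹ = x.2.1 from inv_inv _]; exact h5⟩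
    · rw [Set.range_eq_empty, Subgroup.closure_empty, sup_bot_eq] at h4
      exact h3.trans h4

end Pool.Agent.AdmG

end

section

/-! The two descriptions of the space in genus zero agree. -/

namespace Pool.Agent.AdmG

theorem toAdm_BgH {p n : ℕ} (Y : StableCurve p 0 n) :
    ∃ Z : Pool.Agent.Adm.StableCurve p n, ∀ (G : Type) [Group G], Z.HasCover G ↔ Y.HasCover G := by
  obtain ⟨X, hX⟩ := Y.exists_rc
  obtain ⟨Z, hZ⟩ := X.exists_adm p
  exact ⟨Z, fun G _ => (hZ G).trans (Iff.trans ⟨X.cv_of_cl G, X.cl_of_cv G⟩ (hX G).symm)⟩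

theorem ofAdm_BgH {p n : ℕ} (Z : Pool.Agent.Adm.StableCurve p n) :
    ∃ Y : StableCurve p 0 n, ∀ (G : Type) [Group G], Y.HasCover G ↔ Z.HasCover G := by
  obtain ⟨X, hX⟩ := exists_rc_of_adm Z
  obtain ⟨Y, hY⟩ := RC.exists_curve p 0 n Fintype.card_empty X
  exact ⟨Y, fun G _ => (hY G).trans (Iff.trans ⟨X.cl_of_cv G, X.cv_of_cl G⟩ (hX G).symm)⟩

theorem mem_U_BgH {p g n : ℕ} (G : Type) [Group G] [Finite G] (X : StableCurve p g n) :
    (Quot.mk _ X : PiBar p g n) ∈ U p g n G ↔ X.HasCover G := by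
  refine ⟨?_, fun h => ⟨X, rfl, h⟩⟩
  rintro ⟨Y, e, h⟩
  have := congrArg (Quot.lift (fun X : StableCurve p g n => X.HasCover G)
    fun a b hab => propext (hab G)) e
  exact (Iff.of_eq this).1 h

theorem mem_U'_BgH {p n : ℕ} (G : Type) [Group G] [Finite G]
    (X : Pool.Agent.Adm.StableCurve p n) :
    (Quot.mk _ X : Pool.Agent.Adm.PiBar p n) ∈ Pool.Agent.Adm.U p n G ↔ X.HasCover G := by
  refine ⟨?_, fun h => ⟨X, rfl, h⟩⟩
  rintro ⟨Y, e, h⟩
  have := congrArg (Quot.lift (fun X : Pool.Agent.Adm.StableCurve p n => X.HasCover G)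
    fun a b hab => propext (hab G)) e
  exact (Iff.of_eq this).1 h

theorem nonempty_homeomorph (p n : ℕ) : Nonempty (PiBar p 0 n ≃ₜ Pool.Agent.Adm.PiBar p n) := by
  choose f hf using fun Y : StableCurve p 0 n => toAdm_BgH Y
  choose g hg using fun Z : Pool.Agent.Adm.StableCurve p n => ofAdm_BgH Z
  let F : PiBar p 0 n → Pool.Agent.Adm.PiBar p n :=
    Quot.map f fun a b h G _ _ => (hf a G).trans ((h G).trans (hf b G).symm)
  let F' : Pool.Agent.Adm.PiBar p n → PiBar p 0 n :=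
    Quot.map g fun a b h G _ _ => (hg a G).trans ((h G).trans (hg b G).symm)
  refine ⟨⟨⟨F, F', ?_, ?_⟩, ?_, ?_⟩⟩
  · rintro ⟨Y⟩
    exact Quot.sound fun G _ _ => (hg _ G).trans (hf Y G)
  · rintro ⟨Z⟩
    exact Quot.sound fun G _ _ => (hf _ G).trans (hg Z G)
  · refine continuous_generateFrom_iff.2 ?_
    rintro _ ⟨G, _, _, rfl⟩
    refine TopologicalSpace.isOpen_generateFrom_of_mem ⟨G, inferInstance, inferInstance, ?_⟩
    ext ⟨Y⟩
    exact (mem_U'_BgH G (f Y)).trans ((hf Y G).trans (mem_U_BgH G Y).symm)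
  · refine continuous_generateFrom_iff.2 ?_
    rintro _ ⟨G, _, _, rfl⟩
    refine TopologicalSpace.isOpen_generateFrom_of_mem ⟨G, inferInstance, inferInstance, ?_⟩
    ext ⟨Z⟩
    exact (mem_U_BgH G (g Z)).trans ((hg Z G).trans (mem_U'_BgH G Z).symm)

end Pool.Agent.AdmG

end
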