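import Pool.Agent.Mg.F0854a0.G8022e6
import Pool.Agent.Mg.F0854a0.Gd4bfd2
import Pool.Agent.Mg.F0854a0.G8f1e9c
import Pool.Agent.Mg.F0854a0.G82424f
import Pool.Agent.Mg.F0854a0.G6ceadf

section

/-! Specialisation of Laurent series. -/

namespace Pool.Agent.Adm

open Polynomial

variable {K k : Type} [Field K] [Field k]

/-- Coefficientwise application of a ring homomorphism. -/
noncomputable def mapH_SP2 {A A' : Type} [CommRing A] [CommRing A'] (f : A →+* A') :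
    HahnSeries ℤ A →+* HahnSeries ℤ A' where
  toFun x := x.map f
  map_one' := HahnSeries.map_one f.toMonoidWithZeroHom
  map_zero' := by ext n; simp
  map_add' x y := by ext n; simp
  map_mul' x y := HahnSeries.map_mul f.toNonUnitalRingHom

theorem mapH_coeff_SP2 {A A' : Type} [CommRing A] [CommRing A'] (f : A →+* A')
    (x : HahnSeries ℤ A) (n : ℤ) : (mapH_SP2 f x).coeff n = f (x.coeff n) := rfl

theorem mapH_single_SP2 {A A' : Type} [CommRing A] [CommRing A'] (f : A →+* A') (n : ℤ) (c : A) :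
    mapH_SP2 f (HahnSeries.single n c) = HahnSeries.single n (f c) := by
  ext m
  by_cases hm : m = n <;> simp [mapH_coeff_SP2, hm, HahnSeries.coeff_single]

theorem mapH_C_SP2 {A A' : Type} [CommRing A] [CommRing A'] (f : A →+* A') (c : A) :
    mapH_SP2 f (HahnSeries.C c) = HahnSeries.C (f c) := by
  rw [HahnSeries.C_apply, mapH_single_SP2, HahnSeries.C_apply]

theorem mapH_inj_SP2 {A A' : Type} [CommRing A] [CommRing A'] {f : A →+* A'}
    (hf : Function.Injective f) : Function.Injective (mapH_SP2 f) := fun x y e => by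
  ext n
  exact hf (congrArg (fun w : HahnSeries ℤ A' => w.coeff n) e)

theorem mapH_comp_SP2 {A : Type} [CommRing A] (f : A →+* K) (u : HahnSeries ℤ A) :
    (mapH_SP2 f).comp (eval₂RingHom HahnSeries.C u) =
      (evL (mapH_SP2 f u)).comp (mapRingHom f) := by
  apply Polynomial.ringHom_ext
  · intro c
    simp [evL, mapH_C_SP2, -HahnSeries.C_apply]
  · simp [evL]

theorem mapH_ev1_SP2 {A : Type} [CommRing A] (f : A →+* K) (u : HahnSeries ℤ A) (E : A[X]) :
    mapH_SP2 f (eval₂RingHom HahnSeries.C u E) = evL (mapH_SP2 f u) (E.map f) :=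
  DFunLike.congr_fun (mapH_comp_SP2 f u) E

theorem mapH_ev2_SP2 {A : Type} [CommRing A] (f : A →+* K) (u y : HahnSeries ℤ A) (E : A[X][X]) :
    mapH_SP2 f (E.eval₂ (eval₂RingHom HahnSeries.C u) y) =
      (E.map (mapRingHom f)).eval₂ (evL (mapH_SP2 f u)) (mapH_SP2 f y) := by
  rw [hom_eval₂, mapH_comp_SP2, eval₂_map]

theorem Spn.mem_range_of_closure (S : Spn K k) (s : Finset K) (hs : ∀ x ∈ s, x ∈ Set.range S.i)
    {x : K} (hx : x ∈ Subring.closure (s : Set K)) : x ∈ Set.range S.i :=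
  (Subring.closure_le (t := S.i.range)).2 (fun y hy => hs y hy) hx

theorem unit_map_SP2 {A : Type} [CommRing A] (f : A →+* K) (v : Aˣ) (n : ℤ) :
    f ((v ^ n : Aˣ) : A) = f v ^ n := by
  have : f ((v ^ n : Aˣ) : A) = ((Units.map (f : A →* K) (v ^ n) : Kˣ) : K) := rfl
  rw [this, map_zpow, Units.val_zpow_eq_zpow_val]
  rfl

theorem Spn.exists_series (S : Spn K k) (y : LaurentSeries K)
    (hy : ∀ n, y.coeff n ∈ Set.range S.i) (a : OnePoint K) (a' : OnePoint k) (ha : S.RP a a')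
    (e : ℕ) :
    ∃ y' : LaurentSeries k,
      (∀ (F : K[X][X]) (F' : k[X][X]), S.R2 F F' → F.eval₂ (evL (expand a e)) y = 0 →
        F'.eval₂ (evL (expand a' e)) y' = 0) ∧
      ∀ (ζ : K) (ζ' : k) (h : ζ ≠ 0) (h' : ζ' ≠ 0) (m : ℕ), 0 < m → ζ ^ m = 1 → S.R ζ ζ' →
        ∀ (D : K[X]) (D' : k[X]) (F : K[X][X]) (F' : k[X][X]), S.R1 D D' → S.R2 F F' →
          evL (expand a e) D * scL ζ h y = F.eval₂ (evL (expand a e)) y →
          evL (expand a' e) D' * scL ζ' h' y' = F'.eval₂ (evL (expand a' e)) y' := by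
  choose c hc using hy
  have hc0 : ∀ n, c n ≠ 0 → y.coeff n ≠ 0 := fun n h0 e0 =>
    h0 (S.inj (by rw [hc, e0, map_zero]))
  let yB : HahnSeries ℤ S.B := ⟨c, y.isPWO_support.mono fun n hn => hc0 n hn⟩
  have hyB : mapH_SP2 S.i yB = y := by
    ext n
    exact hc n
  obtain ⟨uB, hu, hu'⟩ : ∃ uB : HahnSeries ℤ S.B, mapH_SP2 S.i uB = expand a e ∧
      mapH_SP2 S.ρ uB = expand a' e := by
    rcases ha with ⟨rfl, rfl⟩ | ⟨x, x', rfl, rfl, b, rfl, rfl⟩
    · exact ⟨HahnSeries.single (-(e : ℤ)) 1, by rw [mapH_single_SP2, map_one]; rfl,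
        by rw [mapH_single_SP2, map_one]; rfl⟩
    · exact ⟨HahnSeries.C b + HahnSeries.single (e : ℤ) 1,
        by rw [map_add, mapH_single_SP2, mapH_C_SP2, map_one]; rfl,
        by rw [map_add, mapH_single_SP2, mapH_C_SP2, map_one]; rfl⟩
  refine ⟨mapH_SP2 S.ρ yB, ?_, ?_⟩
  · rintro _ _ ⟨E, rfl, rfl⟩ h0
    rw [← hu, ← hyB, ← mapH_ev2_SP2] at h0
    rw [← hu', ← mapH_ev2_SP2, mapH_inj_SP2 S.inj (h0.trans (map_zero _).symm), map_zero]
  · rintro _ _ h h' m hm hζ ⟨b, rfl, rfl⟩ _ _ _ _ ⟨D, rfl, rfl⟩ ⟨E, rfl, rfl⟩ h0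
    have hb : b ^ m = 1 := S.inj (by rw [map_pow, hζ, map_one])
    let v : S.Bˣ := Units.ofPowEqOne b m hb hm.ne'
    have hv : (v : S.B) = b := rfl
    let zB : HahnSeries ℤ S.B := ⟨fun n => ((v ^ n : S.Bˣ) : S.B) * c n,
      y.isPWO_support.mono fun n hn => hc0 n (right_ne_zero_of_mul hn)⟩
    have hz : mapH_SP2 S.i zB = scL (S.i b) h y := by
      ext n
      change S.i (((v ^ n : S.Bˣ) : S.B) * c n) = S.i b ^ n * y.coeff n
      rw [map_mul, unit_map_SP2, hc, hv]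
    have hz' : mapH_SP2 S.ρ zB = scL (S.ρ b) h' (mapH_SP2 S.ρ yB) := by
      ext n
      change S.ρ (((v ^ n : S.Bˣ) : S.B) * c n) = S.ρ b ^ n * S.ρ (c n)
      rw [map_mul, unit_map_SP2, hv]
    rw [← hz, ← hu, ← hyB, ← mapH_ev2_SP2, ← mapH_ev1_SP2, ← map_mul] at h0
    rw [← hz', ← hu', ← mapH_ev2_SP2, ← mapH_ev1_SP2, ← map_mul, mapH_inj_SP2 S.inj h0]

end Pool.Agent.Adm

end

section

/-! Specialisation of a Galois extension given by equations. -/

namespace Pool.Agent.Adm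

open Polynomial

theorem fix_SP4 {F L : Type} [Field F] [Field L] [Algebra F L] {β : L}
    (hβ : IntermediateField.adjoin F {β} = ⊤) (σ : L ≃ₐ[F] L) (h : σ β = β) : σ = 1 := by
  have key : ∀ x ∈ IntermediateField.adjoin F {β}, σ x = x := by
    intro x hx
    induction hx using IntermediateField.adjoin_induction with
    | mem x hx => rw [Set.mem_singleton_iff.1 hx, h]
    | algebraMap x => exact σ.commutes x
    | add x y _ _ hx hy => rw [map_add, hx, hy]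
    | inv x _ hx => rw [map_inv₀, hx]
    | mul x y _ _ hx hy => rw [map_mul, hx, hy]
  exact AlgEquiv.ext fun x => key x (hβ ▸ IntermediateField.mem_top)

theorem ker_SP4 {A F L : Type} [CommRing A] [Field F] [Field L] [Algebra F L] (f : A →+* F)
    (hf : Function.Injective f) {E : A[X]} (hE : E.Monic) {β : L} (hm : minpoly F β = E.map f)
    {T : A[X]} (hT : T.eval₂ ((algebraMap F L).comp f) β = 0) : E ∣ T := by
  have h1 : minpoly F β ∣ T.map f := minpoly.dvd F β (by rwa [aeval_def, eval₂_map])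
  rwa [hm, map_dvd_map f hf hE] at h1

theorem comp_SP4 {A F L : Type} [CommRing A] [Field F] [Field L] [Algebra F L] (f : A →+* F)
    (σ : L →ₐ[F] L) {β : L} {P : A[X]} (h : σ β = P.eval₂ ((algebraMap F L).comp f) β)
    (T : A[X]) : σ (T.eval₂ ((algebraMap F L).comp f) β) =
      (T.comp P).eval₂ ((algebraMap F L).comp f) β := by
  rw [eval₂_comp, ← h]
  refine (hom_eval₂ T _ (σ : L →+* L) β).trans ?_
  congr 1
  exact RingHom.ext fun a => σ.commutes _

theorem core_SP4 {A F L F' : Type} [CommRing A] [Field F] [Field L] [Algebra F L]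
    [FiniteDimensional F L] [IsGalois F L] [Field F'] (f : A →+* F) (hf : Function.Injective f)
    (f' : A →+* F') {E : A[X]} (hE : E.Monic) {β : L}
    (hβ : IntermediateField.adjoin F {β} = ⊤) (hm : minpoly F β = E.map f)
    (P : (L ≃ₐ[F] L) → A[X]) (hP : ∀ σ, σ β = (P σ).eval₂ ((algebraMap F L).comp f) β)
    {q : F'[X]} [Fact (Irreducible q)] (hq : E.map f' = q)
    (hs : aeval (AdjoinRoot.root q) (derivative q) ≠ 0) :
    ∃ (_ : FiniteDimensional F' (AdjoinRoot q)) (_ : IsGalois F' (AdjoinRoot q))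
      (ρ : (L ≃ₐ[F] L) ≃* (AdjoinRoot q ≃ₐ[F'] AdjoinRoot q)), ∀ σ, ρ σ (AdjoinRoot.root q) =
        (P σ).eval₂ ((algebraMap F' (AdjoinRoot q)).comp f') (AdjoinRoot.root q) := by
  have hq0 : q ≠ 0 := hq ▸ (hE.map f').ne_zero
  obtain ⟨ev, hev⟩ : ∃ ev : A[X] →+* L, ∀ T, ev T = T.eval₂ ((algebraMap F L).comp f) β :=
    ⟨eval₂RingHom _ _, fun _ => rfl⟩
  obtain ⟨ev', hev'⟩ : ∃ ev' : A[X] →+* AdjoinRoot q, ∀ T, ev' T =
      T.eval₂ ((algebraMap F' (AdjoinRoot q)).comp f') (AdjoinRoot.root q) :=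
    ⟨eval₂RingHom _ _, fun _ => rfl⟩
  have hX : ev X = β := by rw [hev, eval₂_X]
  have hX' : ev' X = AdjoinRoot.root q := by rw [hev', eval₂_X]
  have hE0 : ev E = 0 := by rw [hev, ← eval₂_map, ← hm, ← aeval_def, minpoly.aeval]
  have hE0' : ev' E = 0 := by
    rw [hev', ← eval₂_map, hq]
    exact AdjoinRoot.eval₂_root q
  have tr : ∀ T, ev T = 0 → ev' T = 0 := fun T hT => by
    obtain ⟨u, rfl⟩ := ker_SP4 f hf hE hm (hev T ▸ hT)
    rw [map_mul, hE0', zero_mul]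
  have tr' : ∀ T T', ev T = ev T' → ev' T = ev' T' := fun T T' h => by
    rw [← sub_eq_zero, ← map_sub] at h ⊢
    exact tr _ h
  have hc : ∀ (σ : L ≃ₐ[F] L) T, σ (ev T) = ev (T.comp (P σ)) := fun σ T => by
    rw [hev, hev]
    exact comp_SP4 f (σ : L →ₐ[F] L) (hP σ) T
  have hr : ∀ σ, ev' (E.comp (P σ)) = 0 := fun σ => tr _ (by rw [← hc, hE0, map_zero])
  have hτ : ∀ σ, ∃ τ : AdjoinRoot q →ₐ[F'] AdjoinRoot q, τ (AdjoinRoot.root q) = ev' (P σ) :=
    fun σ => ⟨AdjoinRoot.liftAlgHom q (Algebra.ofId _ _) (ev' (P σ)) (by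
      have := hr σ
      rw [hev', eval₂_comp, ← hev', ← eval₂_map, hq] at this
      exact this), AdjoinRoot.liftAlgHom_root _ _ _ _⟩
  choose τ hτ using hτ
  have hc' : ∀ σ T, τ σ (ev' T) = ev' (T.comp (P σ)) := fun σ T => by
    rw [hev', hev']
    exact comp_SP4 f' (τ σ) ((hτ σ).trans (hev' _)) T
  have e1 : τ 1 = AlgHom.id _ _ := AdjoinRoot.algHom_ext (by
    rw [hτ, AlgHom.id_apply, ← hX']
    exact tr' _ _ (by rw [hev, ← hP, hX]; rfl))
  have e2 : ∀ σ σ', τ (σ * σ') = (τ σ).comp (τ σ') := fun σ σ' => AdjoinRoot.algHom_ext (by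
    rw [hτ, AlgHom.comp_apply, hτ, hc']
    exact tr' _ _ (by rw [← hc, hev, hev, ← hP, ← hP]; rfl))
  let ρ : (L ≃ₐ[F] L) →* (AdjoinRoot q ≃ₐ[F'] AdjoinRoot q) :=
    { toFun := fun σ => AlgEquiv.ofAlgHom (τ σ) (τ σ⁻¹)
        (by rw [← e2, mul_inv_cancel, e1]) (by rw [← e2, inv_mul_cancel, e1])
      map_one' := AlgEquiv.ext fun x => DFunLike.congr_fun e1 x
      map_mul' := fun σ σ' => AlgEquiv.ext fun x => DFunLike.congr_fun (e2 σ σ') x }
  have hρ : Function.Injective ρ := by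
    rw [injective_iff_map_eq_one]
    intro σ hσ
    by_contra hne
    have h1 : ev (P σ - X) ≠ 0 := by
      rw [map_sub, hX, hev, ← hP, sub_ne_zero]
      exact fun h => hne (fix_SP4 hβ σ h)
    have h2 : ev' (P σ - X) = 0 := by
      rw [map_sub, hX', ← hτ, sub_eq_zero]
      exact DFunLike.congr_fun hσ _
    obtain ⟨u, hu⟩ := binomExpansion (E.map C) X (P σ - X)
    rw [add_sub_cancel, derivative_map, eval_map, eval_map, eval_map, eval₂_C_X, eval₂_C_X] at hu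
    have h3 : ev (derivative E + u * (P σ - X)) = 0 := by
      have h4 := hc σ E
      rw [hE0, map_zero, comp, hu, map_add, map_add, hE0, map_mul, map_mul, map_pow] at h4
      refine mul_right_cancel₀ h1 ?_
      rw [map_add, map_mul]
      linear_combination -h4
    have h5 := tr _ h3
    rw [map_add, map_mul, h2, mul_zero, add_zero, hev', ← eval₂_map, ← derivative_map, hq] at h5
    exact hs h5
  have hfin : FiniteDimensional F' (AdjoinRoot q) := (AdjoinRoot.powerBasis hq0).finite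
  have hrk : Module.finrank F' (AdjoinRoot q) ≤ Nat.card (L ≃ₐ[F] L) := by
    rw [(AdjoinRoot.powerBasis hq0).finrank, AdjoinRoot.powerBasis_dim,
      IsGalois.card_aut_eq_finrank, ← (Field.primitive_element_iff_minpoly_natDegree_eq F β).1 hβ,
      hm, ← hq, hE.natDegree_map, hE.natDegree_map]
  obtain ⟨hG, hb⟩ := galois_of_action ρ hρ hrk
  exact ⟨hfin, hG, MulEquiv.ofBijective ρ hb, fun σ => (hτ σ).trans (hev' _)⟩

theorem loc_SP4 {B F F' : Type} [CommRing B] [Field F] [Field F'] (g : B →+* F)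
    (hg : Function.Injective g) (g' : B →+* F') {d : B} (hd : g' d ≠ 0) :
    ∃ (A : Type) (_ : CommRing A) (a : B →+* A) (f : A →+* F) (f' : A →+* F') (v : A),
      Function.Injective f ∧ f.comp a = g ∧ f'.comp a = g' ∧ a d * v = 1 := by
  have h0 : g d ≠ 0 := fun h => hd (by rw [hg (h.trans (map_zero g).symm), map_zero])
  refine ⟨Localization.Away d, inferInstance, algebraMap _ _,
    IsLocalization.Away.lift d (g := g) h0.isUnit, IsLocalization.Away.lift d (g := g') hd.isUnit,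
    IsLocalization.Away.invSelf d, ?_, IsLocalization.Away.lift_comp _ _,
    IsLocalization.Away.lift_comp _ _, IsLocalization.Away.mul_invSelf d⟩
  rw [IsLocalization.injective_iff_map_algebraMap_eq (Submonoid.powers d)]
  intro x y
  refine ⟨fun h => by rw [h], fun h => ?_⟩
  rw [IsLocalization.Away.lift_eq, IsLocalization.Away.lift_eq] at h
  rw [hg h]

theorem div_SP4 {B A F L : Type} [CommRing B] [CommRing A] [Field F] [Field L] [Algebra F L]
    (a : B →+* A) (f : A →+* F) {d : B} {v : A} (hv : a d * v = 1) (T : B[X]) (β y : L) :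
    y = (C v * T.map a).eval₂ ((algebraMap F L).comp f) β ↔
      algebraMap F L (f (a d)) * y = T.eval₂ ((algebraMap F L).comp (f.comp a)) β := by
  have h1 : algebraMap F L (f (a d)) * algebraMap F L (f v) = 1 := by
    rw [← map_mul, ← map_mul, hv, map_one, map_one]
  rw [eval₂_mul, eval₂_C, eval₂_map, RingHom.comp_assoc, RingHom.comp_apply]
  constructor
  · rintro rfl
    rw [← mul_assoc, h1, one_mul]
  · intro h
    rw [← h, ← mul_assoc, mul_comm (algebraMap F L (f v)), h1, one_mul]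

theorem Spn.exists_cover {K k G : Type} [Field K] [Field k] [Group G] (S : Spn K k)
    (c : Cover K G) (β : c.L) (Q : K[X][X]) (hβ : c.Prim β Q) (D : K[X])
    (F : (c.L ≃ₐ[RatFunc K] c.L) → K[X][X]) (hF : ∀ σ, c.ap D * σ β = (F σ).eval₂ c.ap β)
    (U W : K[X][X]) (Δ : K[X]) (hΔ : U * Q + W * derivative Q = C Δ)
    (Q' U' W' : k[X][X]) (D' Δ' : k[X]) (F' : (c.L ≃ₐ[RatFunc K] c.L) → k[X][X])
    (rQ : S.R2 Q Q') (rU : S.R2 U U') (rW : S.R2 W W') (rD : S.R1 D D') (rΔ : S.R1 Δ Δ')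
    (rF : ∀ σ, S.R2 (F σ) (F' σ)) (hD' : D' ≠ 0) (hΔ' : Δ' ≠ 0)
    (hirr : Irreducible (Q'.map (algebraMap k[X] (RatFunc k)))) :
    ∃ (c' : Cover k G) (β' : c'.L), c'.Prim β' Q' ∧ c'.ι.range = c.ι.range ∧
      ∀ σ, ∃ σ' : c'.L ≃ₐ[RatFunc k] c'.L, c'.ι σ' = c.ι σ ∧
        c'.ap D' * σ' β' = (F' σ).eval₂ c'.ap β' := by
  have hb := Spn.bezout rQ rU rW rΔ hΔ
  obtain ⟨EQ, rfl, rfl⟩ := rQ
  obtain ⟨ED, rfl, rfl⟩ := rD
  choose EF hEF hEF' using rF
  have hi : Function.Injective (mapRingHom S.i) := map_injective S.i S.inj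
  obtain ⟨A, _, a, f, f', v, hf, hfa, hfa', hv⟩ := loc_SP4
    ((algebraMap K[X] (RatFunc K)).comp (mapRingHom S.i))
    ((IsFractionRing.injective K[X] (RatFunc K)).comp hi)
    ((algebraMap k[X] (RatFunc k)).comp (mapRingHom S.ρ)) (d := ED)
    (RatFunc.algebraMap_ne_zero hD')
  have hE : EQ.Monic := monic_of_injective hi hβ.2.1
  obtain ⟨q, hq⟩ : ∃ q, (EQ.map (mapRingHom S.ρ)).map (algebraMap k[X] (RatFunc k)) = q :=
    ⟨_, rfl⟩
  have hqm : q.Monic := hq ▸ (hE.map _).map _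
  have : Fact (Irreducible q) := ⟨hq ▸ hirr⟩
  have h0 : aeval (AdjoinRoot.root q) q = 0 := AdjoinRoot.eval₂_root q
  obtain ⟨_, _, ρ, hρ⟩ := core_SP4 f hf f' (hE.map a) hβ.1
    (by rw [hβ.2.2, map_map, map_map, hfa]) (fun σ => C v * (EF σ).map a)
    (fun σ => (div_SP4 a f hv _ _ _).2 (by
      have := hF σ
      rw [← hEF, eval₂_map] at this
      rw [← RingHom.comp_apply f a, hfa]
      exact this))
    (q := q) (by rw [← hq, map_map, map_map, hfa'])
    (fun h => by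
      have h1 := congrArg (fun T => aeval (AdjoinRoot.root q)
        (T.map (algebraMap k[X] (RatFunc k)))) hb
      simp only [Polynomial.map_add, Polynomial.map_mul, map_add, map_mul, ← derivative_map, hq,
        h, h0, mul_zero, add_zero, map_C, aeval_C] at h1
      exact RatFunc.algebraMap_ne_zero hΔ' ((map_eq_zero _).1 h1.symm))
  refine ⟨{ L := AdjoinRoot q, ι := c.ι.comp ρ.symm.toMonoidHom }, AdjoinRoot.root q,
    ⟨IntermediateField.adjoin_root_eq_top q, hE.map _, ?_⟩, ?_, fun σ => ⟨ρ σ, ?_, ?_⟩⟩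
  · rw [hq]
    exact (minpoly.eq_of_irreducible_of_monic this.out h0 hqm).symm
  · ext g
    constructor
    · rintro ⟨σ, rfl⟩
      exact ⟨ρ.symm σ, rfl⟩
    · rintro ⟨σ, rfl⟩
      exact ⟨ρ σ, congrArg c.ι (ρ.symm_apply_apply σ)⟩
  · exact congrArg c.ι (ρ.symm_apply_apply σ)
  · have h1 := (div_SP4 a f' hv _ _ _).1 (hρ σ)
    rw [← RingHom.comp_apply f' a, hfa'] at h1
    rw [← hEF', eval₂_map]
    exact h1

end Pool.Agent.Adm

end

section

/-! Monodromy in terms of a primitive element. -/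

namespace Pool.Agent.Adm

open scoped OnePoint
open Polynomial

variable {k G : Type} [Field k] [Group G]

theorem clear_SP5 {ι : Type} [Finite ι] (p : ι → (RatFunc k)[X]) :
    ∃ (D : k[X]) (F : ι → k[X][X]), D ≠ 0 ∧ ∀ i, (F i).map (algebraMap k[X] (RatFunc k)) =
      C (algebraMap k[X] (RatFunc k) D) * p i := by
  classical
  have := Fintype.ofFinite ι
  choose b hb hF using fun i =>
    IsLocalization.integerNormalization_spec (nonZeroDivisors k[X]) (p i)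
  refine ⟨∏ i, b i, fun i => C (∏ j ∈ Finset.univ.erase i, b j) *
    IsLocalization.integerNormalization (nonZeroDivisors k[X]) (p i),
    Finset.prod_ne_zero_iff.2 fun i _ => nonZeroDivisors.ne_zero (hb i), fun i => ?_⟩
  rw [Polynomial.map_mul, map_C, hF, ← algebraMap_smul (RatFunc k), smul_eq_C_mul, ← mul_assoc,
    ← C_mul, ← map_mul, Finset.prod_erase_mul _ _ (Finset.mem_univ i)]

theorem pb_SP5 {F L : Type} [Field F] [Field L] [Algebra F L] [FiniteDimensional F L] {β : L}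
    (h : IntermediateField.adjoin F {β} = ⊤) : ∃ pb : PowerBasis F L, pb.gen = β :=
  ⟨PowerBasis.ofAdjoinEqTop (Algebra.IsIntegral.isIntegral β) (by
    rw [← IntermediateField.adjoin_simple_toSubalgebra_of_isAlgebraic
      (Algebra.IsAlgebraic.isAlgebraic β), h, IntermediateField.top_toSubalgebra]), rfl⟩

theorem lift_SP5 {F L W : Type} [Field F] [Field L] [Field W] [Algebra F L]
    [FiniteDimensional F L] {β : L} (h : IntermediateField.adjoin F {β} = ⊤) (j0 : F →+* W) (y : W)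
    (hy : (minpoly F β).eval₂ j0 y = 0) :
    ∃ j : L →+* W, (∀ x, j (algebraMap F L x) = j0 x) ∧ j β = y := by
  obtain ⟨pb, rfl⟩ := pb_SP5 h
  let _ := j0.toAlgebra
  exact ⟨(pb.lift y hy : L →ₐ[F] W), (pb.lift y hy).commutes, pb.lift_gen y hy⟩

theorem ext_SP5 {F L W : Type} [Field F] [Field L] [Field W] [Algebra F L]
    [FiniteDimensional F L] {β : L} (h : IntermediateField.adjoin F {β} = ⊤) (j j' : L →+* W)
    (h1 : j.comp (algebraMap F L) = j'.comp (algebraMap F L)) (h2 : j β = j' β) (x : L) :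
    j x = j' x := by
  obtain ⟨pb, rfl⟩ := pb_SP5 h
  obtain ⟨f, rfl⟩ := pb.exists_eq_aeval' x
  rw [aeval_def, hom_eval₂, hom_eval₂, h1, h2]

theorem eval_ap_SP5 (c : Cover k G) (F : k[X][X]) (β : c.L) :
    F.eval₂ c.ap β = aeval β (F.map (algebraMap k[X] (RatFunc k))) := by
  rw [aeval_def, eval₂_map, Cover.ap]

theorem comp_ap_SP5 (c : Cover k G) (j : c.L →+* LaurentSeries k) (u : LaurentSeries k)
    (h1 : ∀ x : k, j (algebraMap (RatFunc k) c.L (RatFunc.C x)) = HahnSeries.C x)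
    (h2 : j (algebraMap (RatFunc k) c.L RatFunc.X) = u) : j.comp c.ap = evL u :=
  RingHom.ext fun P => hom_algebraMap (j.comp (algebraMap (RatFunc k) c.L)) _ u h1 h2 P

theorem Cover.exists_model (c : Cover k G) :
    ∃ (β : c.L) (Q : k[X][X]) (D : k[X]) (F : (c.L ≃ₐ[RatFunc k] c.L) → k[X][X])
      (U W : k[X][X]) (Δ : k[X]), c.Prim β Q ∧ D ≠ 0 ∧ Δ ≠ 0 ∧
      (∀ σ, c.ap D * σ β = (F σ).eval₂ c.ap β) ∧ U * Q + W * derivative Q = C Δ ∧
      Irreducible (Q.map (algebraMap k[X] (RatFunc k))) := by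
  obtain ⟨β, Q, hβ⟩ := exists_integral_primitive_TC (k := k) (L := c.L)
  obtain ⟨pb, hpb⟩ := pb_SP5 hβ.1
  choose f hf using fun σ : c.L ≃ₐ[RatFunc k] c.L => pb.exists_eq_aeval' (σ β)
  obtain ⟨D, F, hD, hF⟩ := clear_SP5 f
  obtain ⟨u, w, huw⟩ : (minpoly (RatFunc k) β).Separable :=
    Algebra.IsSeparable.isSeparable (RatFunc k) β
  obtain ⟨Δ, U, hΔ, hU⟩ := clear_SP5 fun b : Bool => if b then u else w
  refine ⟨β, Q, D, F, U true, U false, Δ, hβ, hD, hΔ, fun σ => ?_, ?_,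
    hβ.2.2 ▸ minpoly.irreducible (Algebra.IsIntegral.isIntegral β)⟩
  · rw [eval_ap_SP5, hF, map_mul, aeval_C, hf σ, hpb]
    rfl
  · refine Polynomial.map_injective _ (IsFractionRing.injective k[X] (RatFunc k)) ?_
    rw [Polynomial.map_add, Polynomial.map_mul, Polynomial.map_mul, hU, hU, ← derivative_map,
      ← hβ.2.2, map_C, mul_assoc, mul_assoc, ← mul_add]
    exact (congrArg _ huw).trans (mul_one _)

theorem Cover.Mono.exists_root {c : Cover k G} {β : c.L} {Q : k[X][X]} (hβ : c.Prim β Q)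
    {a : OnePoint k} {e : ℕ} {ζ : k} {g : G} (h : c.Mono a e ζ g) (hζ : ζ ≠ 0) :
    ∃ (y : LaurentSeries k) (σ : c.L ≃ₐ[RatFunc k] c.L), c.ι σ = g ∧
      Q.eval₂ (evL (expand a e)) y = 0 ∧ (derivative Q).eval₂ (evL (expand a e)) y ≠ 0 ∧
      ∀ (D : k[X]) (F : k[X][X]), c.ap D * σ β = F.eval₂ c.ap β →
        evL (expand a e) D * scL ζ hζ y = F.eval₂ (evL (expand a e)) y := by
  obtain ⟨-, -, j, h1, h2, σ, h3, h4⟩ := h
  have hj := comp_ap_SP5 c j _ h1 h2
  have h5 : ∀ F : k[X][X], F.eval₂ (evL (expand a e)) (j β) = j (F.eval₂ c.ap β) := fun F => by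
    rw [hom_eval₂, hj]
  refine ⟨j β, σ, h3, ?_, ?_, fun D F h => ?_⟩
  · rw [h5, eval_ap_SP5, ← hβ.2.2, minpoly.aeval, map_zero]
  · rw [h5, eval_ap_SP5, ← derivative_map, ← hβ.2.2, _root_.map_ne_zero]
    exact (Algebra.IsSeparable.isSeparable (RatFunc k) β).aeval_derivative_ne_zero
      (minpoly.aeval _ _)
  · have h6 : j (σ β) = scL ζ hζ (j β) := by
      ext n
      exact h4 β n
    rw [h5, ← h, map_mul, h6, ← hj]
    rfl

theorem Cover.mono_of_root (c : Cover k G) {β : c.L} {Q : k[X][X]} (hβ : c.Prim β Q)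
    (a : OnePoint k) {e : ℕ} (he : 0 < e) {ζ : k} (hζ : IsPrimitiveRoot ζ e)
    (y : LaurentSeries k) (hy : Q.eval₂ (evL (expand a e)) y = 0)
    (σ : c.L ≃ₐ[RatFunc k] c.L) (D : k[X]) (hD : D ≠ 0) (F : k[X][X])
    (hσ : c.ap D * σ β = F.eval₂ c.ap β)
    (hy' : evL (expand a e) D * scL ζ (hζ.ne_zero he.ne') y = F.eval₂ (evL (expand a e)) y) :
    c.Mono a e ζ (c.ι σ) := by
  obtain ⟨j0, hC, hX⟩ := exists_chart a e he
  have h0 : j0.comp (algebraMap k[X] (RatFunc k)) = evL (expand a e) :=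
    RingHom.ext fun P => hom_algebraMap j0 _ _ hC hX P
  obtain ⟨j, h1, h2⟩ := lift_SP5 hβ.1 j0 y (by rw [hβ.2.2, eval₂_map, h0, hy])
  have hj := comp_ap_SP5 c j (expand a e) (fun x => by rw [h1, hC]) (by rw [h1, hX])
  refine Cover.RMono.mono he hζ ⟨j, fun x => by rw [h1, hC], by rw [h1, hX], σ, rfl, ?_⟩
  refine ext_SP5 hβ.1 (j.comp (σ : c.L →+* c.L)) ((scL ζ (hζ.ne_zero he.ne')).comp j)
    (ratFunc_hom_ext _ _ (fun x => ?_) ?_) ?_
  · simp only [RingHom.comp_apply, RingHom.coe_coe, AlgEquiv.commutes, h1, hC, scL_C]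
  · simp only [RingHom.comp_apply, RingHom.coe_coe, AlgEquiv.commutes, h1, hX,
      scL_expand a e ζ _ hζ.pow_eq_one]
  · refine mul_left_cancel₀ (a := evL (expand a e) D) (eval₂_expand_ne_zero a e he D hD) ?_
    have h3 := congrArg j hσ
    rw [map_mul, hom_eval₂, hj, h2, ← hy', ← RingHom.comp_apply, hj] at h3
    rw [RingHom.comp_apply, RingHom.comp_apply, h2]
    exact h3

theorem Cover.mono_of_bezout [IsAlgClosed k] (c : Cover k G) {β : c.L} {Q : k[X][X]}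
    (hβ : c.Prim β Q) (U W : k[X][X]) (Δ : k[X]) (hΔ : U * Q + W * derivative Q = C Δ) (a : k)
    (ha : Δ.eval a ≠ 0) : c.Mono (a : OnePoint k) 1 1 1 := by
  let ψ : k[X] →+* PowerSeries k :=
    eval₂RingHom (PowerSeries.C : k →+* PowerSeries k) (PowerSeries.C a + PowerSeries.X)
  have h1 : (PowerSeries.constantCoeff (R := k)).comp ψ = evalRingHom a := by
    apply Polynomial.ringHom_ext
    · intro b; simp [ψ]
    · simp [ψ]
  have h2 : (HahnSeries.ofPowerSeries ℤ k).comp ψ = evL (expand (a : OnePoint k) 1) := by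
    apply Polynomial.ringHom_ext
    · intro b; simp [ψ, evL, HahnSeries.ofPowerSeries_C]
    · simp [ψ, evL, expand, HahnSeries.ofPowerSeries_C, HahnSeries.ofPowerSeries_X]
  have hsep : ((Q.map ψ).map (PowerSeries.constantCoeff (R := k))).Separable := by
    rw [Polynomial.map_map, h1]
    refine ⟨C (Δ.eval a)⁻¹ * U.map (evalRingHom a), C (Δ.eval a)⁻¹ * W.map (evalRingHom a), ?_⟩
    rw [mul_assoc, mul_assoc, ← mul_add, derivative_map, ← Polynomial.map_mul,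
      ← Polynomial.map_mul, ← Polynomial.map_add, hΔ, map_C, ← C_mul, coe_evalRingHom,
      inv_mul_cancel₀ ha, C_1]
  have hspl := splits_of_separable_reduction (Q.map ψ) (hβ.2.1.map ψ) hsep
  rw [Polynomial.map_map, h2] at hspl
  obtain ⟨y, hy⟩ := hspl.exists_eval_eq_zero (by
    rw [hβ.2.1.degree_map, ← hβ.2.1.degree_map (algebraMap k[X] (RatFunc k)), ← hβ.2.2]
    exact (minpoly.degree_pos (Algebra.IsIntegral.isIntegral β)).ne')
  rw [eval_map] at hy
  have h3 := c.mono_of_root hβ a one_pos IsPrimitiveRoot.one y hy 1 1 one_ne_zero X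
    (by simp) (by simp)
  rwa [map_one] at h3

end Pool.Agent.Adm

end

section

/-! Spreading out of a covering with finitely many monodromy data. -/

namespace Pool.Agent.Adm

open scoped OnePoint

theorem Cover.spread {K G : Type} [Field K] [IsAlgClosed K] [Group G] (c : Cover K G) :
    ∃ Z : Finset K, ∀ (J : Type) [Finite J] (a : J → OnePoint K) (e : J → ℕ) (ζ : J → K)
      (g : J → G), (∀ j, c.Mono (a j) (e j) (ζ j) (g j)) →
      Evt (K := K) fun k _ _ S => ∃ c' : Cover k G, c'.ι.range = c.ι.range ∧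
        (∀ y : k, (∀ x ∈ Z, ¬ S.R x y) → c'.Mono (y : OnePoint k) 1 1 1) ∧
        ∀ j (a' : OnePoint k) (ζ' : k), S.RP (a j) a' → S.R (ζ j) ζ' →
          c'.Mono a' (e j) ζ' (g j) := by
  classical
  obtain ⟨β, Q, D, F, U, W, Δ, hβ, hD, hΔ0, hF, hΔ, hirr⟩ := c.exists_model
  refine ⟨Δ.roots.toFinset, fun J _ a e ζ g hm => ?_⟩
  have hz : ∀ j, ζ j ≠ 0 := fun j => (hm j).2.1.ne_zero (hm j).1.ne'
  choose y σ hσ hy hy' hyF using fun j => (hm j).exists_root hβ (hz j)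
  have hs : ∀ j, Evt (K := K) fun k _ _ S => ∀ n, (y j).coeff n ∈ Set.range S.i := by
    intro j
    obtain ⟨s, hs⟩ := eisenstein (a j) (e j) Q (y j) (hy j) (hy' j)
    exact ⟨s, fun k _ _ S h n => S.mem_range_of_closure s h (hs n)⟩
  have H := ((((evt_R2 Q).and (evt_R2 U)).and ((evt_R2 W).and (Evt.all fun τ => evt_R2 (F τ)))).and
    (((evt_R1 D).and (evt_R1 Δ)).and ((evt_R1_ne D hD).and (evt_R1_ne Δ hΔ0)))).and
    (((evt_roots Δ hΔ0).and (evt_irreducible Q hβ.2.1 hirr)).and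
      ((Evt.all fun j => evt_prim (ζ j) (e j) (hm j).1 (hm j).2.1).and (Evt.all hs)))
  refine H.mono fun k _ _ S h => ?_
  obtain ⟨⟨⟨⟨⟨Q', rQ⟩, U', rU⟩, ⟨W', rW⟩, rF⟩, ⟨⟨D', rD⟩, Δ', rΔ⟩, nD, nΔ⟩, ⟨hr, hi⟩, hp, hc⟩ := h
  choose F' rF using rF
  obtain ⟨c', β', hβ', hrange, hσ'⟩ := S.exists_cover c β Q hβ D F hF U W Δ hΔ Q' U' W' D' Δ' F'
    rQ rU rW rD rΔ rF (nD D' rD) (nΔ Δ' rΔ) (hi Q' rQ)
  refine ⟨c', hrange, fun x hx => ?_, fun j a' ζ' ra rζ => ?_⟩
  · refine c'.mono_of_bezout hβ' U' W' Δ' (Spn.bezout rQ rU rW rΔ hΔ) x fun h0 => ?_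
    obtain ⟨x0, h1, h2⟩ := hr Δ' rΔ x h0
    exact hx x0 (Multiset.mem_toFinset.2 ((Polynomial.mem_roots hΔ0).2 h1)) h2
  · obtain ⟨y', h1, h2⟩ := S.exists_series (y j) (hc j) (a j) a' ra (e j)
    obtain ⟨σ', h3, h4⟩ := hσ' (σ j)
    have h5 := hp j ζ' rζ
    rw [← hσ j, ← h3]
    exact c'.mono_of_root hβ' a' (hm j).1 h5 y' (h1 Q Q' rQ (hy j)) σ' D' (nD D' rD) (F' (σ j)) h4
      (h2 (ζ j) ζ' (hz j) _ (e j) (hm j).1 (hm j).2.1.pow_eq_one rζ D D' _ _ rD (rF (σ j))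
        (hyF j D _ (hF (σ j))))

end Pool.Agent.Adm

end

section

/-! Extension of homomorphisms to finitely generated overrings. -/

namespace Pool.Agent.Adm

variable {K : Type} [Field K]

section
open Polynomial

/-- a root of the image of a smallest relation is a root of the images of all relations -/
theorem rel_EL {A k : Type} [CommRing A] [Algebra A K] [Field k] (x : K) (f : A[X])
    (hf : aeval x f = 0) (hd : 0 < f.natDegree)
    (hm : ∀ g : A[X], aeval x g = 0 → g.natDegree < f.natDegree → g = 0) (ρ : A →+* k)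
    (hρ : ρ f.leadingCoeff ≠ 0) (t : k) (ht : f.eval₂ ρ t = 0) (n : ℕ) :
    ∀ g : A[X], g.natDegree = n → aeval x g = 0 → g.eval₂ ρ t = 0 := by
  induction n using Nat.strong_induction_on with
  | _ n ih =>
    intro g hn hg
    by_cases h : g.natDegree < f.natDegree
    · rw [hm g hg h, eval₂_zero]
    · have h1 := not_lt.1 h
      have h2 := ih _ (hn ▸ natDegree_cancelLeads_lt_of_natDegree_le_natDegree h1 (by omega)) _ rfl
        (by simp [cancelLeads, hf, hg])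
      simp only [cancelLeads, eval₂_sub, eval₂_mul, ht, mul_zero, sub_zero, eval₂_C,
        Nat.sub_eq_zero_of_le h1, pow_zero, mul_one] at h2
      exact (mul_eq_zero.1 h2).resolve_left hρ

theorem point_EL (A : Subring K) (x : K) (P : A[X]) (hP : aeval x P ≠ 0) :
    ∃ a : A, a ≠ 0 ∧ ∀ (k : Type) [Field k] [IsAlgClosed k] (ρ : A →+* k), ρ a ≠ 0 →
      ∃ t : k, (∀ g : A[X], aeval x g = 0 → g.eval₂ ρ t = 0) ∧ P.eval₂ ρ t ≠ 0 := by
  classical
  by_cases hx : IsAlgebraic A x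
  · have hex : ∃ n, ∃ f : A[X], f ≠ 0 ∧ aeval x f = 0 ∧ f.natDegree = n :=
      let ⟨f, h1, h2⟩ := hx; ⟨_, f, h1, h2, rfl⟩
    obtain ⟨f, f0, f1, f2⟩ := Nat.find_spec hex
    have hm : ∀ g : A[X], aeval x g = 0 → g.natDegree < f.natDegree → g = 0 := fun g h1 h2 => by
      by_contra h0
      exact Nat.find_min hex (f2 ▸ h2) ⟨g, h0, h1, rfl⟩
    have hd : 0 < f.natDegree := by
      refine Nat.pos_of_ne_zero fun h0 => f0 ?_
      rw [eq_C_of_natDegree_eq_zero h0] at f1 ⊢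
      rw [aeval_C] at f1
      rw [show f.coeff 0 = 0 from Subtype.ext f1, C_0]
    have hb : IsAlgebraic A (aeval x P) :=
      (Algebra.adjoin_le (S := Subalgebra.algebraicClosure A K)
        (Set.singleton_subset_iff.2 hx)) (aeval_mem_adjoin_singleton A x)
    obtain ⟨q, q0, q1⟩ := hb.exists_nonzero_coeff_and_aeval_eq_zero
      (mem_nonZeroDivisors_of_ne_zero hP)
    refine ⟨f.leadingCoeff * q.coeff 0, mul_ne_zero (leadingCoeff_ne_zero.2 f0) q0,
      fun k _ _ ρ hρ => ?_⟩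
    rw [map_mul] at hρ
    have hl := left_ne_zero_of_mul hρ
    obtain ⟨t, ht⟩ := IsAlgClosed.exists_root (f.map ρ) (by
      rw [degree_map_eq_of_leadingCoeff_ne_zero ρ hl]
      exact (natDegree_pos_iff_degree_pos.1 hd).ne')
    have h1 : ∀ g : A[X], aeval x g = 0 → g.eval₂ ρ t = 0 := fun g =>
      rel_EL x f f1 hd hm ρ hl t (by rwa [eval₂_eq_eval_map]) _ g rfl
    refine ⟨t, h1, fun h0 => right_ne_zero_of_mul hρ ?_⟩
    have h2 := h1 (q.comp P) (by rwa [aeval_comp])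
    rwa [eval₂_comp, h0, eval₂_at_zero] at h2
  · have P0 : P ≠ 0 := fun h => hP (by rw [h, map_zero])
    refine ⟨P.leadingCoeff, leadingCoeff_ne_zero.2 P0, fun k _ _ ρ hρ => ?_⟩
    have h1 : P.map ρ ≠ 0 := fun h => hρ (by
      rw [leadingCoeff, ← coeff_map, h, coeff_zero])
    obtain ⟨t, ht⟩ : ∃ t, (P.map ρ).eval t ≠ 0 := by
      by_contra hc
      exact h1 (Polynomial.funext fun t => by
        rw [eval_zero]
        exact not_not.1 fun h => hc ⟨t, h⟩)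
    refine ⟨t, fun g hg => ?_, by rwa [eval₂_eq_eval_map]⟩
    by_cases h0 : g = 0
    · rw [h0, eval₂_zero]
    · exact absurd ⟨g, h0, hg⟩ hx

theorem range_EL (A : Subring K) (x y : K) :
    y ∈ Subring.closure (insert x (A : Set K)) ↔ ∃ P : A[X], aeval x P = y := by
  constructor
  · intro h
    refine (Subring.closure_le (t := (aeval (R := A) x).toRingHom.range)).2 ?_ h
    rintro z (rfl | hz)
    · exact ⟨X, aeval_X _⟩
    · exact ⟨C ⟨z, hz⟩, aeval_C _ _⟩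
  · rintro ⟨P, rfl⟩
    rw [aeval_eq_sum_range]
    refine Subring.sum_mem _ fun i _ => ?_
    rw [Algebra.smul_def]
    exact Subring.mul_mem _ (Subring.subset_closure (Or.inr (P.coeff i).2))
      (Subring.pow_mem _ (Subring.subset_closure (Set.mem_insert x _)) i)

end

theorem exists_ext_one (A : Subring K) (x b : K) (hb : b ∈ Subring.closure (insert x (A : Set K)))
    (hb0 : b ≠ 0) :
    ∃ a : A, a ≠ 0 ∧ ∀ (k : Type) [Field k] [IsAlgClosed k] (ρ : A →+* k), ρ a ≠ 0 →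
      ∃ ρ' : Subring.closure (insert x (A : Set K)) →+* k,
        (∀ (y : A) (h : (y : K) ∈ Subring.closure (insert x (A : Set K))), ρ' ⟨y, h⟩ = ρ y) ∧
        ρ' ⟨b, hb⟩ ≠ 0 := by
  obtain ⟨P, rfl⟩ := (range_EL A x b).1 hb
  obtain ⟨a, ha, H⟩ := point_EL A x P hb0
  refine ⟨a, ha, fun k _ _ ρ hρ => ?_⟩
  obtain ⟨t, h1, h2⟩ := H k ρ hρ
  let ev : Polynomial A →+* Subring.closure (insert x (A : Set K)) :=
    (Polynomial.aeval (R := A) x).toRingHom.codRestrict _ fun g => (range_EL A x _).2 ⟨g, rfl⟩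
  have hs : Function.Surjective ev := fun y =>
    let ⟨g, hg⟩ := (range_EL A x y).1 y.2; ⟨g, Subtype.ext hg⟩
  have key := ev.liftOfSurjective_comp_apply hs ⟨Polynomial.eval₂RingHom ρ t, fun g hg =>
    h1 g (congrArg Subtype.val hg)⟩
  refine ⟨_, fun y h => ?_, fun h0 => h2 ((key P).symm.trans h0)⟩
  have e : (⟨y, h⟩ : Subring.closure (insert x (A : Set K))) = ev (Polynomial.C y) :=
    Subtype.ext (Polynomial.aeval_C x y).symm
  rw [e, key]
  exact Polynomial.eval₂_C _ _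

end Pool.Agent.Adm

end

section

/-! Extension of specialisations of a point. -/

namespace Pool.Agent.Adm

variable {K : Type} [Field K]

theorem exists_ext (s : Finset K) (A : Subring K) :
    ∃ a : A, a ≠ 0 ∧ ∀ (k : Type) [Field k] [IsAlgClosed k] (ρ : A →+* k), ρ a ≠ 0 →
      ∃ S : Spn K k, (∀ x ∈ s, x ∈ Set.range S.i) ∧ ∀ y : A, S.R y (ρ y) := by
  classical
  induction s using Finset.induction_on generalizing A with
  | empty =>
    refine ⟨1, one_ne_zero, fun k _ _ ρ _ => ⟨⟨A, A.subtype, Subtype.val_injective, ρ⟩, ?_, ?_⟩⟩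
    · intro x hx
      exact absurd hx (Finset.notMem_empty x)
    · intro y
      exact ⟨y, rfl, rfl⟩
  | insert x s _ ih =>
    obtain ⟨a', ha', h'⟩ := ih (Subring.closure (insert x (A : Set K)))
    obtain ⟨a, ha, h⟩ := exists_ext_one A x a' a'.2 fun e => ha' (Subtype.ext e)
    refine ⟨a, ha, fun k _ _ ρ hρ => ?_⟩
    obtain ⟨ρ', h1, h2⟩ := h k ρ hρ
    obtain ⟨S, h3, h4⟩ := h' k ρ' h2
    refine ⟨S, fun z hz => ?_, fun y => ?_⟩
    · rcases Finset.mem_insert.1 hz with rfl | hz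
      · obtain ⟨b, hb, -⟩ := h4 ⟨z, Subring.subset_closure (Set.mem_insert _ _)⟩
        exact ⟨b, hb⟩
      · exact h3 z hz
    · have hy : (y : K) ∈ Subring.closure (insert x (A : Set K)) :=
        Subring.subset_closure (Set.mem_insert_of_mem _ y.2)
      rw [← h1 y hy]
      exact h4 ⟨y, hy⟩

theorem exists_spn {σ : Type} (θ : K0 →+* K) (p : σ → K) (s : Finset K) :
    ∃ D : MvPolynomial σ K0, MvPolynomial.eval₂ θ p D ≠ 0 ∧
      ∀ (k : Type) [Field k] [IsAlgClosed k] (θ' : K0 →+* k) (p' : σ → k),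
        KerLe θ p θ' p' → MvPolynomial.eval₂ θ' p' D ≠ 0 →
        ∃ S : Spn K k, (∀ x ∈ s, x ∈ Set.range S.i) ∧ (∀ x, S.R (θ x) (θ' x)) ∧
          ∀ j, S.R (p j) (p' j) := by
  obtain ⟨⟨_, D, rfl⟩, ha, h⟩ := exists_ext s (MvPolynomial.eval₂Hom θ p).range
  refine ⟨D, fun e => ha (Subtype.ext e), fun k _ _ θ' p' hk hD => ?_⟩
  have hker : RingHom.ker (MvPolynomial.eval₂Hom θ p).rangeRestrict ≤
      RingHom.ker (MvPolynomial.eval₂Hom θ' p') := fun f hf =>
    hk f (congrArg Subtype.val (RingHom.mem_ker.1 hf))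
  let ρ := (MvPolynomial.eval₂Hom θ p).rangeRestrict.liftOfSurjective
    (MvPolynomial.eval₂Hom θ p).rangeRestrict_surjective ⟨MvPolynomial.eval₂Hom θ' p', hker⟩
  have hρ : ∀ f, ρ ((MvPolynomial.eval₂Hom θ p).rangeRestrict f) = MvPolynomial.eval₂ θ' p' f :=
    fun f => RingHom.liftOfRightInverse_comp_apply _ _ _ _ f
  obtain ⟨S, h1, h2⟩ := h k ρ (fun e => hD ((hρ D).symm.trans e))
  refine ⟨S, h1, fun x => ?_, fun j => ?_⟩
  · have := h2 ((MvPolynomial.eval₂Hom θ p).rangeRestrict (MvPolynomial.C x))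
    rw [hρ] at this
    simpa using this
  · have := h2 ((MvPolynomial.eval₂Hom θ p).rangeRestrict (MvPolynomial.X j))
    rw [hρ] at this
    simpa using this

end Pool.Agent.Adm

end

section

/-! Spreading out of coverings. -/

namespace Pool.Agent.Adm

open scoped OnePoint

theorem VC.spread {k G σ : Type} [Field k] [IsAlgClosed k] [Group G] [Finite G] [Fintype σ]
    {θ : K0 →+* k} {p : σ → k} {d : σ → G} {R : Subgroup G} (h : VC θ p d R) :
    ∃ D : MvPolynomial σ K0, MvPolynomial.eval₂ θ p D ≠ 0 ∧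
      ∀ (k' : Type) [Field k'] [IsAlgClosed k'] (θ' : K0 →+* k') (p' : σ → k'),
        KerLe θ p θ' p' → MvPolynomial.eval₂ θ' p' D ≠ 0 → VC θ' p' d R := by
  obtain ⟨c, hR, h1, h2⟩ := h
  obtain ⟨Z, hZ⟩ := c.spread
  let A : Set (OnePoint k) :=
    insert ∞ ((fun x : k => (x : OnePoint k)) '' ((Z : Set k) ∪ Set.range p))
  have hA : A.Finite :=
    ((Z.finite_toSet.union (Set.finite_range p)).image _).insert _
  let J : Type := {q : OnePoint k × G // q.1 ∈ A ∧ c.M θ q.1 q.2}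
  have hJ : Finite J := by
    have : ({q : OnePoint k × G | q.1 ∈ A ∧ c.M θ q.1 q.2}).Finite :=
      (hA.prod (Set.finite_univ (α := G))).subset fun q hq => ⟨hq.1, trivial⟩
    exact this.to_subtype
  have hj : ∀ j : J, ∃ e, Odd e ∧ c.Mono j.1.1 e (θ (xi e)) j.1.2 := fun j => j.2.2
  choose e he hm using hj
  obtain ⟨s, hs⟩ := hZ J (fun j => j.1.1) e (fun j => θ (xi (e j))) (fun j => j.1.2) hm
  obtain ⟨D, hD, H⟩ := exists_spn θ p s
  refine ⟨D, hD, fun k' _ _ θ' p' hk hD' => ?_⟩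
  obtain ⟨S, hS, hθ, hp⟩ := H k' θ' p' hk hD'
  obtain ⟨c', hc', b1, b2⟩ := hs k' S hS
  have key : ∀ (a : OnePoint k) (g : G) (a' : OnePoint k'), a ∈ A → c.M θ a g → S.RP a a' →
      c'.M θ' a' g := fun a g a' ha hg hr =>
    ⟨e ⟨(a, g), ha, hg⟩, he _, b2 ⟨(a, g), ha, hg⟩ a' _ hr (hθ _)⟩
  refine ⟨c', hc'.trans hR, fun a ha => ?_, fun j => ?_⟩
  · induction a using OnePoint.rec with
    | infty =>
      refine key ∞ 1 ∞ (Set.mem_insert _ _) (h1 ∞ ?_) (Or.inl ⟨rfl, rfl⟩)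
      rintro ⟨j, hj⟩
      exact OnePoint.coe_ne_infty _ hj
    | coe y =>
      by_cases hy : ∀ x ∈ Z, ¬ S.R x y
      · refine ⟨1, odd_one, ?_⟩
        rw [IsPrimitiveRoot.one_right_iff.1 (xi_prim odd_one), map_one]
        exact b1 y hy
      · push Not at hy
        obtain ⟨x, hx, hxy⟩ := hy
        refine key x 1 y (Set.mem_insert_of_mem _ ⟨x, Or.inl hx, rfl⟩) (h1 x ?_)
          (Or.inr ⟨x, y, rfl, rfl, hxy⟩)
        rintro ⟨j, hj⟩
        obtain rfl : p j = x := OnePoint.coe_eq_coe.1 hj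
        exact ha ⟨j, congrArg _ ((hp j).unique hxy)⟩
  · exact key (p j) (d j) (p' j) (Set.mem_insert_of_mem _ ⟨p j, Or.inr ⟨j, rfl⟩, rfl⟩) (h2 j)
      (Or.inr ⟨_, _, rfl, rfl, hp j⟩)

theorem VC.eqv {k k' G σ : Type} [Field k] [IsAlgClosed k] [Field k'] [IsAlgClosed k'] [Group G]
    [Finite G] [Fintype σ] {θ : K0 →+* k} {θ' : K0 →+* k'} {p : σ → k} {p' : σ → k'}
    {d : σ → G} {R : Subgroup G} (h1 : KerLe θ p θ' p') (h2 : KerLe θ' p' θ p)
    (h : VC θ p d R) : VC θ' p' d R := by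
  obtain ⟨D, hD, H⟩ := h.spread
  exact H k' θ' p' h1 fun h0 => hD (h2 D h0)

end Pool.Agent.Adm

end

section

/-! Faithful coverings. -/

namespace Pool.Agent.Adm

open scoped OnePoint

variable {k G : Type} [Field k] [Group G]

theorem Cover.exists_faithful (c : Cover k G) :
    ∃ c' : Cover k G, Function.Injective c'.ι ∧ c'.ι.range = c.ι.range ∧
      ∀ (W : Type) [CommRing W] (φ : k →+* W) (u : W) (s : W →+* W) (g : G),
        c.RMono φ u s g → c'.RMono φ u s g := by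
  let L' := IntermediateField.fixedField c.ι.ker
  have : IsGalois (RatFunc k) L' := IsGalois.of_fixedField_normal_subgroup c.ι.ker
  let r : (c.L ≃ₐ[RatFunc k] c.L) →* (L' ≃ₐ[RatFunc k] L') := AlgEquiv.restrictNormalHom L'
  have hr : Function.Surjective r := AlgEquiv.restrictNormalHom_surjective c.L
  have hk : r.ker = c.ι.ker := by
    rw [IntermediateField.restrictNormalHom_ker, IntermediateField.fixingSubgroup_fixedField]
  let ι' : (L' ≃ₐ[RatFunc k] L') →* G :=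
    r.liftOfRightInverse (Function.surjInv hr) (Function.rightInverse_surjInv hr) ⟨c.ι, hk.le⟩
  have hι : ∀ σ, ι' (r σ) = c.ι σ := fun σ => MonoidHom.liftOfRightInverse_comp_apply _ _ _ _ σ
  refine ⟨{ L := L', ι := ι' }, (injective_iff_map_eq_one ι').2 fun τ hτ => ?_, ?_, ?_⟩
  · obtain ⟨σ, rfl⟩ := hr τ
    exact hk.ge ((hι σ).symm.trans hτ)
  · ext g
    constructor
    · rintro ⟨τ, rfl⟩
      obtain ⟨σ, rfl⟩ := hr τ
      exact ⟨σ, (hι σ).symm⟩
    · rintro ⟨σ, rfl⟩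
      exact ⟨r σ, hι σ⟩
  · rintro W _ φ u s g ⟨j, h1, h2, σ, h3, h4⟩
    refine ⟨j.comp (algebraMap L' c.L), h1, h2, r σ, (hι σ).trans h3, fun x => ?_⟩
    exact (congrArg j (AlgEquiv.restrictNormal_commutes σ L' x)).trans (h4 _)

theorem Cover.Mono.unram {c : Cover k G} (hc : Function.Injective c.ι) {a : OnePoint k} {e : ℕ}
    {ζ : k} (h : c.Mono a e ζ 1) : c.Mono a 1 1 1 := by
  have he := h.1
  obtain ⟨j, h1, h2, σ, h3, h4⟩ := h.rmono
  obtain rfl : σ = 1 := hc (h3.trans (map_one _).symm)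
  choose y hy using fun x => exists_powL_of_scL e he ζ h.2.1 (j x) (h4 x).symm
  have hi : Function.Injective (powL e he : LaurentSeries k →+* LaurentSeries k) :=
    RingHom.injective _
  let j' : c.L →+* LaurentSeries k :=
    { toFun := y
      map_one' := hi (by rw [hy, map_one, map_one])
      map_zero' := hi (by rw [hy, map_zero, map_zero])
      map_mul' := fun a b => hi (by rw [hy, map_mul, map_mul, hy, hy])
      map_add' := fun a b => hi (by rw [hy, map_add, map_add, hy, hy]) }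
  refine ⟨one_pos, IsPrimitiveRoot.one, j', fun x => hi ?_, hi ?_, 1, map_one _, fun x n => ?_⟩
  · exact (hy _).trans ((h1 x).trans (powL_C e he x).symm)
  · exact (hy _).trans (h2.trans (by rw [powL_expand, mul_one]))
  · rw [one_zpow, one_mul, AlgEquiv.one_apply]

theorem VP.faithful {σ : Type} {θ : K0 →+* k} {p : σ → OnePoint k} {d : σ → G} {R : Subgroup G}
    (h : VP θ p d R) :
    ∃ c : Cover k G, c.ι.range = R ∧ (∀ a, a ∉ Set.range p → c.Mono a 1 1 1) ∧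
      ∀ s, c.M θ (p s) (d s) := by
  obtain ⟨c, h1, h2, h3⟩ := h
  obtain ⟨c', k1, k2, k3⟩ := c.exists_faithful
  have key : ∀ {a e ζ g}, c.Mono a e ζ g → c'.Mono a e ζ g := fun h =>
    (k3 _ _ _ _ _ h.rmono).mono h.1 h.2.1
  refine ⟨c', k2.trans h1, fun a ha => ?_, fun s => ?_⟩
  · obtain ⟨e, -, he⟩ := h2 a ha
    exact (key he).unram k1
  · obtain ⟨e, ho, he⟩ := h3 s
    exact ⟨e, ho, key he⟩

end Pool.Agent.Adm

end

section

/-! Simultaneous deformation of the branch points. -/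

namespace Pool.Agent.Adm

open scoped OnePoint
open Polynomial

theorem top_MM {k C G σ : Type} [Field k] [IsAlgClosed k] [NormedField C] [CompleteSpace C]
    [IsUltrametricDist C] [IsAlgClosed C] [Group G] [Finite G] [Fintype σ] (φ : k →+* C)
    (hφ : ∀ x, ‖φ x‖ ≤ 1) {θ : K0 →+* k} {p : σ → k} {d : σ → G}
    (hp : Function.Injective p) (A : σ → C) (hA : ∀ s, ‖A s - φ (p s)‖ < 1) (h : VC θ p d ⊤) :
    VC (φ.comp θ) A d ⊤ := by
  by_cases h0 : ∀ s, A s = φ (p s)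
  · rw [funext h0]
    exact VP.bc h φ
  obtain ⟨s1, hs1⟩ := not_forall.1 h0
  obtain ⟨s0, -, hs0⟩ := Finset.exists_max_image Finset.univ (fun s => ‖A s - φ (p s)‖)
    ⟨s1, Finset.mem_univ _⟩
  have ht : A s0 - φ (p s0) ≠ 0 :=
    norm_pos_iff.1 ((norm_pos_iff.2 (sub_ne_zero.2 hs1)).trans_le (hs0 s1 (Finset.mem_univ _)))
  have h1 : ∀ s, ‖A s‖ ≤ 1 := fun s => by
    rw [← sub_add_cancel (A s) (φ (p s))]
    exact (IsUltrametricDist.norm_add_le_max _ _).trans (max_le (hA s).le (hφ _))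
  have h2 : ∀ s t, s ≠ t → ‖A s - A t‖ = 1 := fun s t hst => by
    have a1 : ‖φ (p s - p t)‖ = 1 := T.norm_phi φ hφ _ (sub_ne_zero.2 (hp.ne hst))
    have a2 : ‖(A s - φ (p s)) + -(A t - φ (p t))‖ < 1 :=
      (IsUltrametricDist.norm_add_le_max _ _).trans_lt (max_lt (hA s) (by
        rw [norm_neg]
        exact hA t))
    have e : A s - A t = φ (p s - p t) + ((A s - φ (p s)) + -(A t - φ (p t))) := by
      rw [map_sub]
      ring
    rw [e, IsUltrametricDist.norm_add_eq_max_of_norm_ne_norm (a1.trans_ne a2.ne'), a1,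
      max_eq_left a2.le]
  obtain ⟨ε, e1, e2⟩ := exists_interp A (fun s => φ (p s) - A s) h1 h2 ‖A s0 - φ (p s0)‖
    (norm_nonneg _) fun s => (norm_sub_rev _ _).trans_le (hs0 s (Finset.mem_univ _))
  obtain ⟨c1, c2, c3⟩ := exists_smallOn ε _ ht (hA s0) e1
  have e3 : ∀ s, (X + ε).eval (A s) = φ (p s) := fun s => by
    rw [eval_add, eval_X, e2, add_sub_cancel]
  obtain ⟨c, r1, r2, r3⟩ := VP.faithful h
  obtain ⟨c', q1, q2, q3, q4, q5⟩ := deform_top φ hφ c1 c2 ε c3 c r1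
    (r2 ∞ fun ⟨s, e⟩ => OnePoint.coe_ne_infty _ e)
  refine ⟨c', q1, fun a ha => ?_, fun s => ?_⟩
  · induction a using OnePoint.rec with
    | infty => exact q5.m_one _
    | coe x =>
      rcases le_total ‖x‖ ‖c1‖ with hx | hx
      · by_cases hy : (X + ε).eval x ∈ Set.range φ
        · obtain ⟨y, hy⟩ := hy
          refine (q2 x y 1 1 1 hx hy.symm (r2 y ?_)).m_one _
          rintro ⟨s, e⟩
          obtain rfl : p s = y := OnePoint.coe_injective e
          exact ha ⟨s, congrArg _ (c3.inj ((h1 s).trans c2.le) hx ((e3 s).trans hy))⟩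
        · exact (q3 x hx hy).m_one _
      · exact (q4 x hx).m_one _
  · obtain ⟨e, he, hm⟩ := r3 s
    exact ⟨e, he, q2 (A s) (p s) e _ _ ((h1 s).trans c2.le) (e3 s) hm⟩

theorem VC.deform {k C G σ : Type} [Field k] [IsAlgClosed k] [NormedField C] [CompleteSpace C]
    [IsUltrametricDist C] [IsAlgClosed C] [Group G] [Finite G] [Fintype σ] (φ : k →+* C)
    (hφ : ∀ x, ‖φ x‖ ≤ 1) {θ : K0 →+* k} {p : σ → k} {d : σ → G} {R : Subgroup G}
    (hp : Function.Injective p) (A : σ → C) (hA : ∀ s, ‖A s - φ (p s)‖ < 1) (h : VC θ p d R) :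
    VC (φ.comp θ) A d R := by
  have h1 := VP.restr R le_rfl (fun s => ⟨d s, VP.mem h s⟩) h
  rw [Subgroup.subgroupOf_self] at h1
  have h2 := VP.map (top_MM φ hφ hp A hA h1) R.subtype
  rwa [← MonoidHom.range_eq_map, Subgroup.range_subtype] at h2

end Pool.Agent.Adm

end

section

/-! Adjacent primes are joined by a rank one specialisation. -/

namespace Pool.Agent.Adm

theorem exists_adjacent {A : Type} [CommRing A] [IsNoetherianRing A] (P' P : Ideal A)
    [P'.IsPrime] [P.IsPrime] (h : P' < P) :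
    ∃ Q : Ideal A, Q.IsPrime ∧ P' < Q ∧ Q ≤ P ∧
      ∀ Q' : Ideal A, Q'.IsPrime → P' ≤ Q' → Q' ≤ Q → Q' = P' ∨ Q' = Q := by
  obtain ⟨Q, ⟨h1, h2, h3⟩, h4⟩ := (InvImage.wf (fun Q : Ideal A => Q.height)
    (wellFounded_lt (α := ℕ∞))).has_min {Q | Q.IsPrime ∧ P' < Q ∧ Q ≤ P} ⟨P, ‹_›, h, le_rfl⟩
  refine ⟨Q, h1, h2, h3, fun Q' h5 h6 h7 => ?_⟩
  by_contra hn
  rw [not_or] at hn
  exact h4 Q' ⟨h5, lt_of_le_of_ne h6 (Ne.symm hn.1), h7.trans h3⟩
    (Ideal.height_strict_mono_of_isPrime_of_isPrime (lt_of_le_of_ne h7 hn.2))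

theorem eval₂_comp_VL3 {σ k : Type} [CommRing k] (Ψ : MvPolynomial σ K0 →+* k)
    (f : MvPolynomial σ K0) :
    MvPolynomial.eval₂ (Ψ.comp MvPolynomial.C) (fun s => Ψ (MvPolynomial.X s)) f = Ψ f := by
  have : MvPolynomial.eval₂Hom (Ψ.comp MvPolynomial.C) (fun s => Ψ (MvPolynomial.X s)) = Ψ :=
    MvPolynomial.ringHom_ext (fun r => by simp) fun s => by simp
  exact RingHom.congr_fun this f

theorem exists_point_of_prime {σ : Type} (P : Ideal (MvPolynomial σ K0)) [P.IsPrime] :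
    ∃ (k : Type) (_ : Field k) (_ : IsAlgClosed k) (θ : K0 →+* k) (p : σ → k),
      ∀ f, MvPolynomial.eval₂ θ p f = 0 ↔ f ∈ P := by
  let B := MvPolynomial σ K0 ⧸ P
  let K := FractionRing B
  let k := AlgebraicClosure K
  let Ψ : MvPolynomial σ K0 →+* k :=
    (algebraMap K k).comp ((algebraMap B K).comp (Ideal.Quotient.mk P))
  refine ⟨k, inferInstance, inferInstance, Ψ.comp MvPolynomial.C, fun s => Ψ (MvPolynomial.X s),
    fun f => ?_⟩
  rw [eval₂_comp_VL3]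
  change algebraMap K k (algebraMap B K (Ideal.Quotient.mk P f)) = 0 ↔ _
  rw [map_eq_zero_iff _ (algebraMap K k).injective,
    map_eq_zero_iff _ (IsFractionRing.injective B K), Ideal.Quotient.eq_zero_iff_mem]

theorem exists_hom_VL3 {R : Type} [CommRing R] (P' P : Ideal R) [P'.IsPrime]
    [P.IsPrime] (h : P' < P)
    (hadj : ∀ Q : Ideal R, Q.IsPrime → P' ≤ Q → Q ≤ P → Q = P' ∨ Q = P) :
    ∃ (C : Type) (_ : NormedField C) (_ : CompleteSpace C) (_ : IsUltrametricDist C)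
      (_ : IsAlgClosed C) (Ψ : R →+* C), (∀ f, ‖Ψ f‖ ≤ 1) ∧ (∀ f, ‖Ψ f‖ < 1 ↔ f ∈ P) ∧
      ∀ f, Ψ f = 0 ↔ f ∈ P' := by
  have hs : Function.Surjective (Ideal.Quotient.mk P') := Ideal.Quotient.mk_surjective
  have hp : (P.map (Ideal.Quotient.mk P')).IsPrime :=
    Ideal.map_isPrime_of_surjective hs (by rw [Ideal.mk_ker]; exact h.le)
  have hm : ∀ f, Ideal.Quotient.mk P' f ∈ P.map (Ideal.Quotient.mk P') ↔ f ∈ P :=
    fun f => Ideal.mem_quotient_iff_mem h.le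
  obtain ⟨f0, h1, h2⟩ := SetLike.exists_of_lt h
  have h3 : Ideal.Quotient.mk P' f0 ≠ 0 := fun e => h2 (Ideal.Quotient.eq_zero_iff_mem.1 e)
  obtain ⟨K, _, _, ψ, k1, k2, k3⟩ := exists_normed (P.map (Ideal.Quotient.mk P'))
    (fun e => h3 (by have := (hm f0).2 h1; rwa [e] at this)) (by
      intro Q hQ hle
      have e := Ideal.map_comap_of_surjective _ hs Q
      rcases hadj (Q.comap (Ideal.Quotient.mk P')) inferInstance
        (fun x hx => by
          rw [Ideal.mem_comap, Ideal.Quotient.eq_zero_iff_mem.2 hx]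
          exact Q.zero_mem) (fun x hx => (hm x).1 (hle hx)) with e' | e'
      · left
        rw [← e, e', Ideal.map_quotient_self]
      · right
        rw [← e, e'])
  obtain ⟨C, _, _, _, _, ψ', k4⟩ := exists_big_ext K (ψ (Ideal.Quotient.mk P' f0))
    (fun e => h3 (k1 (e.trans (map_zero ψ).symm))) ((k3 _).2 ((hm f0).2 h1))
  refine ⟨C, inferInstance, inferInstance, inferInstance, inferInstance,
    ψ'.comp (ψ.comp (Ideal.Quotient.mk P')), fun f => ?_, fun f => ?_, fun f => ?_⟩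
  · change ‖ψ' (ψ _)‖ ≤ 1
    rw [k4]
    exact k2 _
  · change ‖ψ' (ψ _)‖ < 1 ↔ _
    rw [k4, k3]
    exact hm f
  · change ψ' (ψ (Ideal.Quotient.mk P' f)) = 0 ↔ _
    rw [map_eq_zero_iff _ ψ'.injective, map_eq_zero_iff _ k1, Ideal.Quotient.eq_zero_iff_mem]

theorem norm_add_VL3 {C : Type} [NormedField C] [IsUltrametricDist C] {x y : C} (hx : ‖x‖ < 1)
    (hy : ‖y‖ < 1) : ‖x + y‖ < 1 :=
  (IsUltrametricDist.norm_add_le_max x y).trans_lt (max_lt hx hy)

theorem exists_step {σ : Type} [Finite σ] (P' P : Ideal (MvPolynomial σ K0)) [P'.IsPrime]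
    [P.IsPrime] (h : P' < P)
    (hadj : ∀ Q : Ideal (MvPolynomial σ K0), Q.IsPrime → P' ≤ Q → Q ≤ P → Q = P' ∨ Q = P) :
    ∃ (C : Type) (_ : NormedField C) (_ : CompleteSpace C) (_ : IsUltrametricDist C)
      (_ : IsAlgClosed C) (k : Type) (_ : Field k) (_ : IsAlgClosed k) (φ : k →+* C)
      (θ : K0 →+* k) (p : σ → k) (A : σ → C), (∀ x, ‖φ x‖ ≤ 1) ∧ (∀ s, ‖A s - φ (p s)‖ < 1) ∧
      (∀ f, MvPolynomial.eval₂ θ p f = 0 ↔ f ∈ P) ∧
      ∀ f, MvPolynomial.eval₂ (φ.comp θ) A f = 0 ↔ f ∈ P' := by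
  obtain ⟨C, _, _, _, _, Ψ, h1, h2, h3⟩ := exists_hom_VL3 P' P h hadj
  obtain ⟨k, _, _, φ, θ, k1, k2, k3⟩ := exists_coef_field (Ψ.comp MvPolynomial.C) fun x => h1 _
  choose p hp using fun s : σ => k3 (Ψ (MvPolynomial.X s)) (h1 _)
  have key : ∀ f, ‖Ψ f - φ (MvPolynomial.eval₂ θ p f)‖ < 1 := by
    intro f
    induction f using MvPolynomial.induction_on with
    | C a =>
      have := RingHom.congr_fun k1 a
      simp only [RingHom.comp_apply] at this
      rw [MvPolynomial.eval₂_C, this, sub_self, norm_zero]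
      exact one_pos
    | add f g hf hg =>
      rw [MvPolynomial.eval₂_add, map_add, map_add, add_sub_add_comm]
      exact norm_add_VL3 hf hg
    | mul_X f s hf =>
      rw [MvPolynomial.eval₂_mul, MvPolynomial.eval₂_X, map_mul, map_mul]
      have e : Ψ f * Ψ (MvPolynomial.X s) - φ (MvPolynomial.eval₂ θ p f) * φ (p s) =
          (Ψ f - φ (MvPolynomial.eval₂ θ p f)) * Ψ (MvPolynomial.X s) +
            φ (MvPolynomial.eval₂ θ p f) * (Ψ (MvPolynomial.X s) - φ (p s)) := by ring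
      rw [e]
      refine norm_add_VL3 ?_ ?_ <;> rw [norm_mul]
      · exact mul_lt_one_of_nonneg_of_lt_one_left (norm_nonneg _) hf (h1 _)
      · exact mul_lt_one_of_nonneg_of_lt_one_right (k2 _) (norm_nonneg _) (hp s)
  refine ⟨C, inferInstance, inferInstance, inferInstance, inferInstance, k, inferInstance,
    inferInstance, φ, θ, p, fun s => Ψ (MvPolynomial.X s), k2, hp, fun f => ⟨fun e => ?_,
    fun hf => ?_⟩, fun f => ?_⟩
  · have := key f
    rw [e, map_zero, sub_zero] at this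
    exact (h2 f).1 this
  · by_contra hn
    have h4 : ‖φ (MvPolynomial.eval₂ θ p f)‖ < 1 := by
      have := norm_add_VL3 ((h2 f).2 hf) ((norm_neg _).trans_lt (key f))
      simpa using this
    have h5 := mul_lt_one_of_nonneg_of_lt_one_left (norm_nonneg _) h4
      (k2 (MvPolynomial.eval₂ θ p f)⁻¹)
    rw [← norm_mul, ← map_mul, mul_inv_cancel₀ hn, map_one, norm_one] at h5
    exact lt_irrefl _ h5
  · rw [k1, eval₂_comp_VL3]
    exact h3 f

end Pool.Agent.Adm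

end

section

/-! Generisation of coverings. -/

namespace Pool.Agent.Adm

theorem VC.gen {k k' G σ : Type} [Field k] [IsAlgClosed k] [Field k'] [IsAlgClosed k'] [Group G]
    [Finite G] [Fintype σ] {θ : K0 →+* k} {θ' : K0 →+* k'} {p : σ → k} {p' : σ → k'}
    {d : σ → G} {R : Subgroup G} (hp : Function.Injective p) (hk : KerLe θ' p' θ p)
    (h : VC θ p d R) : VC θ' p' d R := by
  classical
  have : IsNoetherianRing (MvPolynomial σ K0) := inferInstance
  have key : ∀ P' : Ideal (MvPolynomial σ K0), P'.IsPrime →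
      (∀ f ∈ P', MvPolynomial.eval₂ θ p f = 0) →
      ∀ (k' : Type) [Field k'] [IsAlgClosed k'] (θ' : K0 →+* k') (p' : σ → k'),
        (∀ f, MvPolynomial.eval₂ θ' p' f = 0 ↔ f ∈ P') → VC θ' p' d R := by
    intro P'
    induction P' using WellFoundedGT.induction with
    | ind P' ih =>
      intro hP' hle k' _ _ θ' p' hker
      let P : Ideal (MvPolynomial σ K0) := RingHom.ker (MvPolynomial.eval₂Hom θ p)
      have hP : P.IsPrime := RingHom.ker_isPrime _
      have hmem : ∀ f, f ∈ P ↔ MvPolynomial.eval₂ θ p f = 0 := fun f => Iff.rfl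
      have hle' : P' ≤ P := fun f hf => (hmem f).2 (hle f hf)
      rcases hle'.eq_or_lt with he | hlt
      · refine VC.eqv (fun f hf => (hker f).2 (he ▸ (hmem f).2 hf))
          (fun f hf => hle f ((hker f).1 hf)) h
      · obtain ⟨Q, hQ, hPQ, hQP, hadj⟩ := exists_adjacent P' P hlt
        obtain ⟨C, _, _, _, _, k0, _, _, φ, θ0, p0, A, hφ, hA, h0, h1⟩ :=
          exists_step P' Q hPQ hadj
        have hv : VC θ0 p0 d R := ih Q hPQ hQ (fun f hf => (hmem f).1 (hQP hf)) k0 θ0 p0 h0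
        have hinj : Function.Injective p0 := by
          intro s t hst
          apply hp
          have h2 : MvPolynomial.X s - MvPolynomial.X t ∈ Q := (h0 _).1 (by simp [hst])
          have h3 := (hmem _).1 (hQP h2)
          simpa [sub_eq_zero] using h3
        have hd := VC.deform φ hφ hinj A hA hv
        exact VC.eqv (fun f hf => (hker f).2 ((h1 f).1 hf))
          (fun f hf => (h1 f).2 ((hker f).1 hf)) hd
  exact key (RingHom.ker (MvPolynomial.eval₂Hom θ' p')) (RingHom.ker_isPrime _)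
    (fun f hf => hk f hf) k' θ' p' fun f => Iff.rfl

end Pool.Agent.Adm

end

section

/-! Specialisation of tuples and transcendence degree. -/

namespace Pool.Agent.Adm

variable {k k' k'' σ : Type} [Field k] [Field k'] [Field k''] {θ : K0 →+* k} {θ' : K0 →+* k'}
  {θ'' : K0 →+* k''} {a : σ → k} {a' : σ → k'} {a'' : σ → k''}

theorem bind_TD {σ' : Type} (θ : K0 →+* k) (a : σ → k) (g : σ' → MvPolynomial σ K0)
    (f : MvPolynomial σ' K0) :
    MvPolynomial.eval₂ θ a (MvPolynomial.bind₁ g f) =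
      MvPolynomial.eval₂ θ (fun s => MvPolynomial.eval₂ θ a (g s)) f :=
  MvPolynomial.eval₂Hom_bind₁ θ a g f

theorem kerLe_bind_TD {σ' : Type} (h : KerLe θ' a' θ a) (g : σ' → MvPolynomial σ K0) :
    KerLe θ' (fun s => MvPolynomial.eval₂ θ' a' (g s)) θ
      (fun s => MvPolynomial.eval₂ θ a (g s)) := fun f hf => by
  rw [← bind_TD] at hf ⊢
  exact h _ hf

theorem inv_TD (p : σ → Prop) [DecidablePred p] (f : MvPolynomial σ K0) :
    ∃ g D : MvPolynomial σ K0, ∀ (F : Type) [Field F] (η : K0 →+* F) (b : σ → F),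
      (∀ s, p s → b s ≠ 0) → MvPolynomial.eval₂ η b D ≠ 0 ∧
        MvPolynomial.eval₂ η (fun s => if p s then (b s)⁻¹ else b s) f *
          MvPolynomial.eval₂ η b D = MvPolynomial.eval₂ η b g := by
  induction f using MvPolynomial.induction_on with
  | C c => exact ⟨MvPolynomial.C c, 1, fun F _ η b _ => by simp⟩
  | add f₁ f₂ h₁ h₂ =>
    obtain ⟨g₁, D₁, h₁⟩ := h₁
    obtain ⟨g₂, D₂, h₂⟩ := h₂
    refine ⟨g₁ * D₂ + g₂ * D₁, D₁ * D₂, fun F _ η b hb => ?_⟩
    obtain ⟨n₁, e₁⟩ := h₁ F η b hb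
    obtain ⟨n₂, e₂⟩ := h₂ F η b hb
    simp only [MvPolynomial.eval₂_add, MvPolynomial.eval₂_mul]
    refine ⟨mul_ne_zero n₁ n₂, ?_⟩
    rw [← e₁, ← e₂]; ring
  | mul_X f s h =>
    obtain ⟨g, D, h⟩ := h
    by_cases hs : p s
    · refine ⟨g, D * MvPolynomial.X s, fun F _ η b hb => ?_⟩
      obtain ⟨n, e⟩ := h F η b hb
      have := hb s hs
      simp only [MvPolynomial.eval₂_mul, MvPolynomial.eval₂_X, if_pos hs]
      refine ⟨mul_ne_zero n this, ?_⟩
      rw [← e]; field_simp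
    · refine ⟨g * MvPolynomial.X s, D, fun F _ η b hb => ?_⟩
      obtain ⟨n, e⟩ := h F η b hb
      simp only [MvPolynomial.eval₂_mul, MvPolynomial.eval₂_X, if_neg hs]
      refine ⟨n, ?_⟩
      rw [← e]; ring

theorem KerLe.refl (θ : K0 →+* k) (a : σ → k) : KerLe θ a θ a := fun _ h => h

theorem KerLe.trans (h : KerLe θ'' a'' θ' a') (h' : KerLe θ' a' θ a) : KerLe θ'' a'' θ a :=
  fun f hf => h' f (h f hf)

theorem KerLe.comp {σ' : Type} (h : KerLe θ' a' θ a) (g : σ' → σ) :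
    KerLe θ' (fun s => a' (g s)) θ (fun s => a (g s)) := by
  simpa using kerLe_bind_TD h fun s => MvPolynomial.X (g s)

theorem KerLe.trunc (h : KerLe θ' a' θ a) (p : σ → Prop) [DecidablePred p] :
    KerLe θ' (fun s => if p s then 0 else a' s) θ (fun s => if p s then 0 else a s) := by
  have := kerLe_bind_TD h fun s => if p s then 0 else MvPolynomial.X s
  simpa only [apply_ite (MvPolynomial.eval₂ _ _), MvPolynomial.eval₂_zero,
    MvPolynomial.eval₂_X] using this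

theorem KerLe.eq_of_eq (h : KerLe θ' a' θ a) {s s' : σ} (hs : a' s = a' s') : a s = a s' := by
  have := h (MvPolynomial.X s - MvPolynomial.X s') (by
    rw [MvPolynomial.eval₂_sub, MvPolynomial.eval₂_X, MvPolynomial.eval₂_X, hs, sub_self])
  rwa [MvPolynomial.eval₂_sub, MvPolynomial.eval₂_X, MvPolynomial.eval₂_X, sub_eq_zero] at this

theorem KerLe.eq_const (h : KerLe θ' a' θ a) {s : σ} {x : K0} (hs : a' s = θ' x) : a s = θ x := by
  have := h (MvPolynomial.X s - MvPolynomial.C x) (by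
    rw [MvPolynomial.eval₂_sub, MvPolynomial.eval₂_X, MvPolynomial.eval₂_C, hs, sub_self])
  rwa [MvPolynomial.eval₂_sub, MvPolynomial.eval₂_X, MvPolynomial.eval₂_C, sub_eq_zero] at this

theorem KerLe.injective (h : KerLe θ' a' θ a) (ha : Function.Injective a) :
    Function.Injective a' := fun _ _ hs => ha (h.eq_of_eq hs)

theorem Indep.kerLe (h : Indep θ' a') (θ : K0 →+* k) (a : σ → k) : KerLe θ' a' θ a := by
  intro f hf
  rw [h f hf, MvPolynomial.eval₂_zero]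

/-- Tuples obtained by substituting polynomials. -/
theorem KerLe.bind {σ' : Type} (h : KerLe θ' a' θ a) (g : σ' → MvPolynomial σ K0) :
    KerLe θ' (fun s => MvPolynomial.eval₂ θ' a' (g s)) θ
      (fun s => MvPolynomial.eval₂ θ a (g s)) := kerLe_bind_TD h g

/-- Adjoining inverses of elements that do not specialise to zero. -/
theorem KerLe.inv (h : KerLe θ' a' θ a) (p : σ → Prop) [DecidablePred p]
    (hp : ∀ s, p s → a s ≠ 0) :
    KerLe θ' (fun s => if p s then (a' s)⁻¹ else a' s) θ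
      (fun s => if p s then (a s)⁻¹ else a s) := by
  have hp' : ∀ s, p s → a' s ≠ 0 := fun s hs h0 =>
    hp s hs ((h.eq_const (x := 0) (by rw [h0, map_zero])).trans (map_zero θ))
  intro f hf
  obtain ⟨g, D, hg⟩ := inv_TD p f
  obtain ⟨-, e'⟩ := hg k' θ' a' hp'
  obtain ⟨n, e⟩ := hg k θ a hp
  rw [hf, zero_mul] at e'
  rw [h g e'.symm] at e
  exact (mul_eq_zero.1 e).resolve_right n

theorem Indep.notMem_range (h : Indep θ a) (s : σ) : a s ∉ Set.range θ := by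
  rintro ⟨x, hx⟩
  have := h (MvPolynomial.X s - MvPolynomial.C x) (by
    rw [MvPolynomial.eval₂_sub, MvPolynomial.eval₂_X, MvPolynomial.eval₂_C, hx, sub_self])
  have h1 := congrArg (MvPolynomial.eval fun _ => x + 1) this
  simp at h1

theorem Indep.comp {σ' : Type} (h : Indep θ a) (g : σ' → σ) (hg : Function.Injective g) :
    Indep θ fun s => a (g s) := by
  intro f hf
  apply MvPolynomial.rename_injective g hg
  rw [map_zero]
  apply h
  rw [MvPolynomial.eval₂_rename]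
  exact hf

theorem indep_of_kerLe_TD (h : KerLe θ' a' θ a) (hi : Indep θ a) : Indep θ' a' :=
  fun f hf => hi f (h f hf)

variable [Fintype σ]

theorem le_td (S : Finset σ) (h : Indep θ fun i : S => a i) : S.card ≤ td θ a := by
  classical
  unfold td
  exact Finset.le_sup (f := Finset.card) (Finset.mem_filter.2 ⟨Finset.mem_univ _, h⟩)

theorem td_le (e : ℕ) (h : ∀ S : Finset σ, (Indep θ fun i : S => a i) → S.card ≤ e) :
    td θ a ≤ e := by
  classical
  unfold td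
  exact Finset.sup_le fun S hS => h S (Finset.mem_filter.1 hS).2

theorem td_le_card (θ : K0 →+* k) (a : σ → k) : td θ a ≤ Fintype.card σ :=
  td_le _ fun S _ => S.card_le_univ

theorem KerLe.td_le (h : KerLe θ' a' θ a) : td θ a ≤ td θ' a' :=
  Adm.td_le _ fun S hS => le_td S (indep_of_kerLe_TD (h.comp fun i : S => i.1) hS)

theorem exists_td_TD (θ : K0 →+* k) (a : σ → k) :
    ∃ S : Finset σ, (Indep θ fun i : S => a i) ∧ td θ a = S.card := by
  classical
  have h0 : Indep θ fun i : (∅ : Finset σ) => a i := by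
    intro f hf
    obtain ⟨c, rfl⟩ := MvPolynomial.C_surjective _ f
    rw [MvPolynomial.eval₂_C, map_eq_zero] at hf
    rw [hf, map_zero]
  obtain ⟨S, hS, e⟩ := Finset.exists_mem_eq_sup
    (Finset.univ.filter fun S : Finset σ => Indep θ fun i : S => a i)
    ⟨∅, Finset.mem_filter.2 ⟨Finset.mem_univ _, h0⟩⟩ Finset.card
  refine ⟨S, (Finset.mem_filter.1 hS).2, ?_⟩
  unfold td
  convert e

theorem KerLe.symm_of_td_le (h : KerLe θ' a' θ a) (ht : td θ' a' ≤ td θ a) :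
    KerLe θ a θ' a' := by
  classical
  obtain ⟨S, hS, e⟩ := exists_td_TD θ a
  have hS' : Indep θ' fun i : S => a' i := indep_of_kerLe_TD (h.comp fun i : S => i.1) hS
  let _ : Algebra K0 k' := θ'.toAlgebra
  have hiff : ∀ T : Finset σ, AlgebraicIndepOn K0 a' (T : Set σ) ↔ Indep θ' fun i : T => a' i :=
    fun T => algebraicIndependent_iff
  set A := Algebra.adjoin K0 (a' '' (S : Set σ)) with hA
  have halg : ∀ s, IsAlgebraic A (a' s) := fun s => by
    by_cases hs : s ∈ S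
    · exact isAlgebraic_algebraMap
        (⟨a' s, Algebra.subset_adjoin ⟨s, Finset.mem_coe.2 hs, rfl⟩⟩ : A)
    · by_contra hn
      have h1 : AlgebraicIndepOn K0 a' (insert s (S : Set σ)) :=
        (AlgebraicIndepOn.insert_iff (by simpa using hs)).2 ⟨(hiff S).2 hS', hn⟩
      rw [← Finset.coe_insert, hiff] at h1
      have h2 := le_td _ h1
      rw [Finset.card_insert_of_notMem hs] at h2
      omega
  have halg' : ∀ f : MvPolynomial σ K0, IsAlgebraic A (MvPolynomial.eval₂ θ' a' f) := fun f => by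
    induction f using MvPolynomial.induction_on with
    | C c =>
      rw [MvPolynomial.eval₂_C]
      exact isAlgebraic_algebraMap (⟨θ' c, A.algebraMap_mem c⟩ : A)
    | add f₁ f₂ h₁ h₂ => rw [MvPolynomial.eval₂_add]; exact h₁.add h₂
    | mul_X f s h₁ => rw [MvPolynomial.eval₂_mul, MvPolynomial.eval₂_X]; exact h₁.mul (halg s)
  have hlift : ∀ x : A, ∃ c : MvPolynomial S K0,
      MvPolynomial.eval₂ θ' (fun i : S => a' i) c = x := fun x => by
    have hx : (x : k') ∈ Algebra.adjoin K0 (Set.range fun i : S => a' i) := by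
      have : (Set.range fun i : S => a' i) = a' '' (S : Set σ) := by
        ext y; simp
      rw [this]; exact x.2
    rw [Algebra.adjoin_range_eq_range_aeval] at hx
    exact hx
  choose c hc using hlift
  intro f hf
  by_contra hne
  obtain ⟨q, hq0, hq⟩ := (halg' f).exists_nonzero_coeff_and_aeval_eq_zero
    (mem_nonZeroDivisors_of_ne_zero hne)
  have key := h (∑ i ∈ Finset.range (q.natDegree + 1),
      MvPolynomial.rename Subtype.val (c (q.coeff i)) * f ^ i) (by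
    rw [Polynomial.aeval_eq_sum_range] at hq
    rw [MvPolynomial.eval₂_sum, ← hq]
    refine Finset.sum_congr rfl fun i _ => ?_
    rw [MvPolynomial.eval₂_mul, MvPolynomial.eval₂_pow, MvPolynomial.eval₂_rename,
      Algebra.smul_def]
    congr 1
    exact hc _)
  rw [MvPolynomial.eval₂_sum, Finset.sum_range_succ', Finset.sum_eq_zero fun i _ => by
    rw [MvPolynomial.eval₂_mul, MvPolynomial.eval₂_pow, hf, zero_pow (Nat.succ_ne_zero i),
      mul_zero], zero_add, pow_zero, mul_one, MvPolynomial.eval₂_rename] at key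
  have h0 := hS _ key
  apply hq0
  apply Subtype.ext
  rw [← hc, h0, MvPolynomial.eval₂_zero]
  rfl

end Pool.Agent.Adm

end

section

/-! Generisation in terms of cross ratios. -/

namespace Pool.Agent.Adm

open scoped OnePoint

theorem exists_mob_GC {k σ : Type} [Field k] [IsAlgClosed k] [DecidableEq σ] {p : σ → k}
    (hp : Function.Injective p) {s0 s1 s2 : σ} (h01 : s0 ≠ s1) (h02 : s0 ≠ s2) (h12 : s1 ≠ s2)
    (lam : k) (hl : ∀ s, cr (p s0) (p s1) (p s2) (p s) ≠ lam) :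
    ∃ μ : OnePoint k ≃ OnePoint k, IsMob μ ∧ ∀ s, μ (p s) =
      ((if s ≠ s2 then (cr (p s0) (p s1) (p s2) (p s) - lam)⁻¹ else 0 : k) : OnePoint k) := by
  have n12 : p s1 - p s2 ≠ 0 := sub_ne_zero.2 (hp.ne h12)
  have n10 : p s1 - p s0 ≠ 0 := sub_ne_zero.2 (hp.ne h01.symm)
  obtain ⟨μ, m1, m2, -, m4⟩ := exists_mob_ratio (p s0) (p s2) ((p s1 - p s2) / (p s1 - p s0))
    (hp.ne h02) (div_ne_zero n12 n10)
  obtain ⟨ν, n1, n2, -, n4⟩ := exists_mob_sub_inv lam
  refine ⟨μ.trans ν, m1.trans n1, fun s => ?_⟩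
  by_cases hs : s = s2
  · rw [if_neg (not_not.2 hs), hs, Equiv.trans_apply, m2, n2]
  · have e : (p s1 - p s2) / (p s1 - p s0) * (p s - p s0) / (p s - p s2) =
        cr (p s0) (p s1) (p s2) (p s) := by
      have := sub_ne_zero.2 (hp.ne hs)
      unfold cr
      field_simp
    rw [if_pos hs, Equiv.trans_apply, m4 _ (hp.ne hs), e, n4 _ (hl s)]

theorem VC.gen_cr {k k' G σ : Type} [Field k] [IsAlgClosed k] [Field k'] [IsAlgClosed k']
    [Group G] [Finite G] [Fintype σ] {θ : K0 →+* k} {θ' : K0 →+* k'} {p : σ → k} {p' : σ → k'}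
    {d : σ → G} {R : Subgroup G} (hp : Function.Injective p) (hp' : Function.Injective p')
    {s0 s1 s2 : σ} (h01 : s0 ≠ s1) (h02 : s0 ≠ s2) (h12 : s1 ≠ s2)
    (hk : KerLe θ' (fun s => cr (p' s0) (p' s1) (p' s2) (p' s)) θ
      fun s => cr (p s0) (p s1) (p s2) (p s)) (h : VC θ p d R) : VC θ' p' d R := by
  classical
  obtain ⟨lam, hlam⟩ := ((Set.finite_range fun s => cr (p s0) (p s1) (p s2) (p s)).preimage
    θ.injective.injOn).exists_notMem
  have hl : ∀ s, cr (p s0) (p s1) (p s2) (p s) ≠ θ lam := fun s e => hlam ⟨s, e⟩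
  have hl' : ∀ s, cr (p' s0) (p' s1) (p' s2) (p' s) ≠ θ' lam := fun s e => hl s (hk.eq_const e)
  obtain ⟨μ, m1, m2⟩ := exists_mob_GC hp h01 h02 h12 _ hl
  obtain ⟨μ', m1', m2'⟩ := exists_mob_GC hp' h01 h02 h12 _ hl'
  have k1 := hk.bind fun s => if s ≠ s2 then MvPolynomial.X s - MvPolynomial.C lam else 0
  simp only [apply_ite (MvPolynomial.eval₂ _ _), MvPolynomial.eval₂_zero, MvPolynomial.eval₂_sub,
    MvPolynomial.eval₂_X, MvPolynomial.eval₂_C] at k1
  have k2 := k1.inv (fun s => s ≠ s2) fun s hs => by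
    rw [if_pos hs]
    exact sub_ne_zero.2 (hl s)
  have k3 : KerLe θ' (fun s => if s ≠ s2 then (cr (p' s0) (p' s1) (p' s2) (p' s) - θ' lam)⁻¹ else 0)
      θ fun s => if s ≠ s2 then (cr (p s0) (p s1) (p s2) (p s) - θ lam)⁻¹ else 0 := by
    have e : ∀ (F : Type) [Field F] (b : σ → F),
        (fun s => if s ≠ s2 then (if s ≠ s2 then b s else 0)⁻¹ else if s ≠ s2 then b s else 0) =
          fun s => if s ≠ s2 then (b s)⁻¹ else 0 := fun F _ b => funext fun s => by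
      split_ifs <;> rfl
    rw [e, e] at k2
    exact k2
  have h1 := VP.mob h μ m1.1
  rw [funext m2] at h1
  have hq : Function.Injective
      fun s => if s ≠ s2 then (cr (p s0) (p s1) (p s2) (p s) - θ lam)⁻¹ else 0 := by
    intro s s' e
    have : μ (p s) = μ (p s') := by
      rw [m2, m2]
      exact congrArg _ e
    exact hp (OnePoint.coe_injective (μ.injective this))
  have h2 := VP.mob (VC.gen hq k3 h1) μ'.symm m1'.2
  have e : (fun s => μ'.symm ((if s ≠ s2 then (cr (p' s0) (p' s1) (p' s2) (p' s) - θ' lam)⁻¹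
      else 0 : k') : OnePoint k')) = fun s => (p' s : OnePoint k') :=
    funext fun s => by rw [← m2', Equiv.symm_apply_apply]
  rw [e] at h2
  exact h2

theorem exists_cr_eq {k σ : Type} [Field k] [Infinite k] [Finite σ] (a : σ → k) {s0 s1 s2 : σ}
    (h0 : a s0 = 0) (h1 : a s1 = 1) (h2 : a s2 = 0) (h02 : s0 ≠ s2)
    (ha : ∀ s s', s ≠ s2 → s' ≠ s2 → a s = a s' → s = s') :
    ∃ p : σ → k, Function.Injective p ∧ ∀ s, cr (p s0) (p s1) (p s2) (p s) = a s := by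
  classical
  obtain ⟨lam, hlam⟩ := (Set.finite_range a).exists_notMem
  have hl : ∀ s, a s - lam ≠ 0 := fun s e => hlam ⟨s, sub_eq_zero.1 e⟩
  have h12 : s1 ≠ s2 := fun e => by
    rw [e, h2] at h1
    exact zero_ne_one h1
  refine ⟨fun s => if s = s2 then 0 else (a s - lam)⁻¹, fun s s' e => ?_, fun s => ?_⟩
  · by_cases hs : s = s2 <;> by_cases hs' : s' = s2
    · rw [hs, hs']
    · simp only [if_pos hs, if_neg hs'] at e
      exact absurd e.symm (inv_ne_zero (hl s'))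
    · simp only [if_neg hs, if_pos hs'] at e
      exact absurd e (inv_ne_zero (hl s))
    · simp only [if_neg hs, if_neg hs'] at e
      exact ha s s' hs hs' (sub_left_injective (inv_injective e))
  · simp only [if_neg h02, if_neg h12, if_true, cr]
    by_cases hs : s = s2
    · rw [if_pos hs, sub_self, zero_mul, div_zero, hs, h2]
    · have l0 := hl s0
      have l1 := hl s1
      have l2 := hl s
      rw [if_neg hs]
      rw [h0] at l0 ⊢
      rw [h1] at l1 ⊢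
      have l3 : (1 - lam)⁻¹ - (0 - lam)⁻¹ ≠ 0 := fun e =>
        one_ne_zero (sub_left_injective (inv_injective (sub_eq_zero.1 e)))
      rw [div_eq_iff (mul_ne_zero (by rw [sub_zero]; exact inv_ne_zero l2) l3)]
      field_simp
      ring

end Pool.Agent.Adm

end

section

/-! Smoothing a node. -/

namespace Pool.Agent.Adm

open scoped OnePoint

theorem norm_eq_one_GM {k C : Type} [Field k] [NormedField C] (φ : k →+* C)
    (hφ : ∀ x, ‖φ x‖ ≤ 1) {y : k} (hy : y ≠ 0) : ‖φ y‖ = 1 := by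
  have h1 : ‖φ y‖ * ‖φ y⁻¹‖ = 1 := by
    rw [← norm_mul, ← map_mul, mul_inv_cancel₀ hy, map_one, norm_one]
  have h2 := hφ y
  have h3 := hφ y⁻¹
  have h4 := norm_nonneg (φ y)
  have h5 : ‖φ y‖ * ‖φ y⁻¹‖ ≤ ‖φ y‖ * 1 := by gcongr
  linarith

theorem ne_GM {k C : Type} [Field k] [NormedField C] (φ : k →+* C) (hφ : ∀ x, ‖φ x‖ ≤ 1) {t : C}
    (ht : ‖t‖ < 1) (y : k) {z : k} (hz : z ≠ 0) : t * φ y ≠ φ z := by
  intro h
  have h1 := norm_eq_one_GM φ hφ hz
  rw [← h, norm_mul] at h1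
  have h2 := hφ y
  have h3 := norm_nonneg t
  have h4 : ‖t‖ * ‖φ y‖ ≤ ‖t‖ * 1 := by gcongr
  linarith

theorem core_GM {k G ι : Type} [Field k] [IsAlgClosed k] [Group G] [Finite G] (θ : K0 →+* k)
    (d : ι → G) (c1 c2 : Cover k G) (A B : Set ι) (hdis : Disjoint A B) (Q1 Q2 : ι → k)
    (i1 : Set.InjOn Q1 A) (i2 : Set.InjOn Q2 B) (h0 : ∀ i ∈ B, Q2 i ≠ 0) (g : G)
    (g1 : c1.M θ ∞ g) (g2 : c2.M θ ((0 : k) : OnePoint k) g⁻¹) (g3 : c2.M θ ∞ 1)
    (a1 : ∀ i ∈ A, c1.M θ (Q1 i : OnePoint k) (d i))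
    (a2 : ∀ y : k, y ∉ Q1 '' A → c1.M θ (y : OnePoint k) 1)
    (b1 : ∀ i ∈ B, c2.M θ (Q2 i : OnePoint k) (d i))
    (b2 : ∀ y : k, y ≠ 0 → y ∉ Q2 '' B → c2.M θ (y : OnePoint k) 1) :
    Geo (A ∪ B) d (c1.ι.range ⊔ c2.ι.range) := by
  classical
  obtain ⟨C, _, _, _, _, φ, hφ, t, ht0, ht⟩ := exists_bigField k
  obtain ⟨cB, hB, tr⟩ := exists_trivial_cover k G
  have gl2 : Glue c2 cB := by
    obtain ⟨e, -, hm⟩ := g3
    exact ⟨e, _, 1, hm, tr _ e _ hm.1 hm.2.1.inv⟩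
  have gl1 : Glue c1 c2 := by
    obtain ⟨e, ζ, hm, hm'⟩ := g1.glue g2
    exact ⟨e, ζ, g, hm, hm'⟩
  obtain ⟨c, r, mA, mM, mB, mI, mT⟩ := smooth_two φ hφ t t ht0 ht ht0 ht c1 c2 cB gl1 gl2
  have MA : ∀ (y : k) (γ : G), c1.M θ (y : OnePoint k) γ →
      c.M (φ.comp θ) ((t * φ y : C) : OnePoint C) γ := by
    rintro y γ ⟨e, he, hm⟩
    exact ⟨e, he, mA y e _ γ hm⟩
  have MM : ∀ (y : k) (γ : G), y ≠ 0 → c2.M θ (y : OnePoint k) γ →
      c.M (φ.comp θ) ((φ y : C) : OnePoint C) γ := by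
    rintro y γ hy ⟨e, he, hm⟩
    exact ⟨e, he, mM y e _ γ hy hm⟩
  obtain ⟨P, PA, PB⟩ : ∃ P : ι → C, (∀ i ∈ A, P i = t * φ (Q1 i)) ∧ ∀ i ∈ B, P i = φ (Q2 i) :=
    ⟨fun i => if i ∈ A then t * φ (Q1 i) else φ (Q2 i), fun i hi => if_pos hi,
      fun i hi => if_neg fun hA => Set.disjoint_left.1 hdis hA hi⟩
  refine ⟨C, inferInstance, inferInstance, φ.comp θ, fun s => (P s : OnePoint C), ?_, c, ?_,
    ?_, ?_⟩
  · rintro ⟨i, hi⟩ ⟨j, hj⟩ h
    have h' : P i = P j := OnePoint.coe_injective h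
    refine Subtype.ext ?_
    rcases hi with hi | hi <;> rcases hj with hj | hj
    · rw [PA i hi, PA j hj] at h'
      exact i1 hi hj (φ.injective (mul_left_cancel₀ ht0 h'))
    · rw [PA i hi, PB j hj] at h'
      exact absurd h' (ne_GM φ hφ ht _ (h0 j hj))
    · rw [PB i hi, PA j hj] at h'
      exact absurd h'.symm (ne_GM φ hφ ht _ (h0 i hi))
    · rw [PB i hi, PB j hj] at h'
      exact i2 hi hj (φ.injective h')
  · rw [r, hB, sup_bot_eq]
  · intro a ha
    induction a using OnePoint.rec with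
    | infty => exact (mI 1 1 1 (tr _ 1 1 one_pos IsPrimitiveRoot.one)).m_one _
    | coe x =>
      by_cases h1 : ∃ y, x = t * φ y
      · obtain ⟨y, rfl⟩ := h1
        refine MA y 1 (a2 y ?_)
        rintro ⟨i, hi, rfl⟩
        exact ha ⟨⟨i, Or.inl hi⟩, congrArg _ (PA i hi)⟩
      by_cases h2 : ∃ y, x = φ y
      · obtain ⟨y, rfl⟩ := h2
        have hy : y ≠ 0 := by
          rintro rfl
          exact h1 ⟨0, by simp⟩
        refine MM y 1 hy (b2 y hy ?_)
        rintro ⟨i, hi, rfl⟩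
        exact ha ⟨⟨i, Or.inr hi⟩, congrArg _ (PB i hi)⟩
      by_cases h3 : ∃ y, x = φ y / t
      · obtain ⟨y, rfl⟩ := h3
        have hy : y ≠ 0 := by
          rintro rfl
          exact h1 ⟨0, by simp⟩
        exact (mB y 1 1 1 hy (tr _ 1 1 one_pos IsPrimitiveRoot.one)).m_one _
      push Not at h1 h2 h3
      exact (mT x h1 h2 h3).m_one _
  · rintro ⟨i, hi | hi⟩
    · have := MA _ _ (a1 i hi)
      rwa [← PA i hi] at this
    · have := MM _ _ (h0 i hi) (b1 i hi)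
      rwa [← PB i hi] at this

theorem map_inj_GM {k k' : Type} [Field k] [Field k'] (ψ : k →+* k') :
    Function.Injective (OnePoint.map ψ : OnePoint k → OnePoint k') :=
  Option.map_injective ψ.injective

theorem normInf_GM {k G σ : Type} [Field k] [IsAlgClosed k] [Group G] {θ : K0 →+* k}
    {p : σ → OnePoint k} {d : σ → G} {R : Subgroup G} (hp : Function.Injective p)
    (h : VP θ p d R) (s : σ) :
    ∃ p' : σ → OnePoint k, Function.Injective p' ∧ p' s = ∞ ∧ VP θ p' d R := by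
  induction hs : p s using OnePoint.rec with
  | infty => exact ⟨p, hp, hs, h⟩
  | coe x =>
    obtain ⟨μ, hμ, -, hx, -⟩ := exists_mob_sub_inv x
    exact ⟨fun s => μ (p s), μ.injective.comp hp, by rw [← hx, ← hs], h.mob μ hμ.1⟩

theorem normZero_GM {k G σ : Type} [Field k] [IsAlgClosed k] [Group G] [Finite σ] {θ : K0 →+* k}
    {p : σ → OnePoint k} {d : σ → G} {R : Subgroup G} (hp : Function.Injective p)
    (h : VP θ p d R) (s : σ) :
    ∃ p' : σ → OnePoint k, Function.Injective p' ∧ p' s = ((0 : k) : OnePoint k) ∧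
      (∀ s, p' s ≠ ∞) ∧ VP θ p' d R := by
  obtain ⟨μ, hμ, hf⟩ := exists_mob_finite p
  choose q hq using fun s => OnePoint.ne_infty_iff_exists.1 (hf s)
  obtain ⟨ν, hν, -, ha⟩ := exists_mob_affine (1 : k) (-q s) one_ne_zero
  refine ⟨fun s => ν (μ (p s)), ν.injective.comp (μ.injective.comp hp), ?_, fun s' => ?_,
    (h.mob μ hμ.1).mob ν hν.1⟩
  · change ν (μ (p s)) = _
    rw [← hq, ha, one_mul, add_neg_cancel]
  · change ν (μ (p s')) ≠ _
    rw [← hq, ha]
    exact OnePoint.coe_ne_infty _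

theorem coord_GM {k ι : Type} [Field k] {S : Set ι} (p : S → OnePoint k) :
    ∃ Q : ι → k, ∀ (i : ι) (hi : i ∈ S), p ⟨i, hi⟩ ≠ ∞ → p ⟨i, hi⟩ = (Q i : OnePoint k) := by
  classical
  refine ⟨fun i => if hi : i ∈ S then (p ⟨i, hi⟩).elim 0 id else 0, fun i hi h => ?_⟩
  obtain ⟨x, hx⟩ := OnePoint.ne_infty_iff_exists.1 h
  simp only [dif_pos hi, ← hx, OnePoint.elim_some, id]

theorem Geo.merge {G ι : Type} [Group G] [Finite G] [Finite ι] {d : ι → G} {S1 S2 : Set ι}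
    {R1 R2 : Subgroup G} (h1 : Geo S1 d R1) (h2 : Geo S2 d R2) {s1 s2 : ι} (m1 : s1 ∈ S1)
    (m2 : s2 ∈ S2) (hd : d s2 = (d s1)⁻¹) (hdis : Disjoint (S1 \ {s1}) (S2 \ {s2})) :
    Geo ((S1 \ {s1}) ∪ (S2 \ {s2})) d (R1 ⊔ R2) := by
  obtain ⟨k1, _, _, θ1, p1, j1, v1⟩ := h1
  obtain ⟨k2, _, _, θ2, p2, j2, v2⟩ := h2
  obtain ⟨k, _, _, ψ1, ψ2, hψ⟩ := exists_amalgam0 θ1 θ2
  have w2 := v2.bc ψ2
  rw [← hψ] at w2
  obtain ⟨p, ip, ps, c1, r1, u1, n1⟩ :=
    normInf_GM ((map_inj_GM ψ1).comp j1) (v1.bc ψ1) ⟨s1, m1⟩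
  obtain ⟨q, iq, qs, qf, c2, r2, u2, n2⟩ := normZero_GM ((map_inj_GM ψ2).comp j2) w2 ⟨s2, m2⟩
  obtain ⟨Q1, hQ1⟩ := coord_GM p
  obtain ⟨Q2, hQ2⟩ := coord_GM q
  have e1 : ∀ (i : ι) (hi : i ∈ S1 \ {s1}), p ⟨i, hi.1⟩ = (Q1 i : OnePoint k) := by
    intro i hi
    refine hQ1 i hi.1 fun h => hi.2 ?_
    exact congrArg Subtype.val (ip (h.trans ps.symm))
  have e2 : ∀ (i : ι) (hi : i ∈ S2), q ⟨i, hi⟩ = (Q2 i : OnePoint k) :=
    fun i hi => hQ2 i hi (qf _)
  rw [← r1, ← r2]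
  refine core_GM (ψ1.comp θ1) d c1 c2 _ _ hdis Q1 Q2 ?_ ?_ ?_ (d s1) ?_ ?_ ?_ ?_ ?_ ?_ ?_
  · intro i hi j hj h
    exact congrArg Subtype.val (ip ((e1 i hi).trans (h ▸ (e1 j hj).symm)))
  · intro i hi j hj h
    exact congrArg Subtype.val (iq ((e2 i hi.1).trans (h ▸ (e2 j hj.1).symm)))
  · intro i hi h
    refine hi.2 ?_
    have h' := e2 i hi.1
    rw [h, ← qs] at h'
    exact congrArg Subtype.val (iq h')
  · have := n1 ⟨s1, m1⟩
    rwa [ps] at this
  · have := n2 ⟨s2, m2⟩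
    rw [qs] at this
    rw [← hd]
    exact this
  · refine u2 _ ?_
    rintro ⟨s, hs⟩
    exact qf s hs
  · intro i hi
    have := n1 ⟨i, hi.1⟩
    rwa [e1 i hi] at this
  · intro y hy
    refine u1 _ ?_
    rintro ⟨⟨i, hi⟩, hs⟩
    have hi' : i ∈ S1 \ {s1} := by
      refine ⟨hi, ?_⟩
      rintro rfl
      exact OnePoint.coe_ne_infty y (hs.symm.trans ps)
    exact hy ⟨i, hi', OnePoint.coe_injective ((e1 i hi').symm.trans hs)⟩
  · intro i hi
    have := n2 ⟨i, hi.1⟩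
    rwa [e2 i hi.1] at this
  · intro y hy0 hy
    refine u2 _ ?_
    rintro ⟨⟨i, hi⟩, hs⟩
    have hi' : i ∈ S2 \ {s2} := by
      refine ⟨hi, ?_⟩
      rintro rfl
      exact hy0 (OnePoint.coe_injective (hs.symm.trans qs))
    exact hy ⟨i, hi', OnePoint.coe_injective ((e2 i hi).symm.trans hs)⟩

end Pool.Agent.Adm

end

section

/-! Smoothing of branches and of the whole curve. -/

namespace Pool.Agent.Adm

open Sum

variable {n : ℕ} {σ : Shape n} {z : Pt σ} {G : Type} [Group G] [Finite G] {d : σ.Slot → G}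

omit [Finite G] in
theorem Pt.AdmR.geo_vertex {R : Fin σ.r → Subgroup G} (h : z.AdmR d R) (v : Fin σ.r) :
    Geo (σ.bd {v}) d (R v) := by
  rw [σ.bd_singleton]
  refine ⟨z.k, inferInstance, inferInstance, z.θ, fun s => (z.x s : OnePoint z.k), ?_, h.1 v⟩
  intro s s' e
  exact Subtype.ext (z.inj _ _ (s.2.trans s'.2.symm) (OnePoint.coe_eq_coe.1 e))

omit [Finite G] in
theorem Pt.AdmR.geo_single {R : Fin σ.r → Subgroup G} (h : z.AdmR d R) (v : Fin σ.r) :
    Geo (σ.bd {v}) d (⨆ u ∈ ({v} : Set (Fin σ.r)), R u) := by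
  rw [iSup_singleton]
  exact h.geo_vertex v

theorem Pt.AdmR.geo_step {R : Fin σ.r → Subgroup G} (h : z.AdmR d R) (U : Set (Fin σ.r))
    (δ : σ.T.Dart) (h1 : δ.fst ∈ U) (h2 : δ.snd ∉ U)
    (h3 : ∀ δ' : σ.T.Dart, δ'.fst = δ.snd → δ'.snd ∈ U → δ' = δ.symm)
    (hU : Geo (σ.bd U) d (⨆ u ∈ U, R u)) :
    Geo (σ.bd (insert δ.snd U)) d (⨆ u ∈ insert δ.snd U, R u) := by
  rw [σ.bd_insert U δ h1 h2 h3, iSup_insert, sup_comm]
  refine Geo.merge hU (h.geo_vertex δ.snd) ?_ ?_ (h.2 δ) ?_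
  · refine ⟨h1, fun δ' e => ?_⟩
    obtain rfl : δ = δ' := inl_injective e
    exact h2
  · rw [σ.bd_singleton]
    rfl
  · rw [Set.disjoint_left]
    intro s hs hs'
    have e : σ.base s = δ.snd := hs'.1.1
    exact h2 (e ▸ hs.1.1)

theorem Pt.AdmR.geo_Br {R : Fin σ.r → Subgroup G} (h : z.AdmR d R) (δ : σ.T.Dart) :
    Geo (σ.bd (σ.Br δ)) d (⨆ u ∈ σ.Br δ, R u) :=
  σ.growth_Br (fun U => Geo (σ.bd U) d (⨆ u ∈ U, R u)) δ (h.geo_single _) h.geo_step

theorem Pt.AdmR.geo_univ {R : Fin σ.r → Subgroup G} (h : z.AdmR d R) :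
    Geo Set.univ (fun l => d (inr l)) (⨆ u, R u) := by
  obtain ⟨ρ⟩ := σ.nonempty_vertex
  have H := σ.growth_univ (fun U => Geo (σ.bd U) d (⨆ u ∈ U, R u)) ρ (h.geo_single _) h.geo_step
  simp only [Set.mem_univ, iSup_pos] at H
  refine H.equiv (Equiv.ofBijective
    (fun l => ⟨inr l.1, (σ.mem_bd_univ _).2 ⟨l.1, rfl⟩⟩) ⟨?_, ?_⟩) fun _ => rfl
  · intro l l' e
    exact Subtype.ext (inr_injective (congrArg Subtype.val e))
  · rintro ⟨s, hs⟩
    obtain ⟨l, rfl⟩ := (σ.mem_bd_univ _).1 hs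
    exact ⟨⟨l, trivial⟩, rfl⟩

theorem Pt.Adm.geo (h : z.Adm G d) : Geo Set.univ (fun l => d (inr l)) ⊤ := by
  obtain ⟨R, h, hR⟩ := h
  exact hR ▸ h.geo_univ

end Pool.Agent.Adm

end

section

/-! Smooth curves. -/

namespace Pool.Agent.Adm

open Sum

variable {n : ℕ} {σ σ' : Shape n} {i0 i1 i2 : Fin n}

theorem Pt.Q_iff_QS (z : Pt σ) (h : IsEmpty σ.T.Dart) (G : Type) [Group G] :
    z.Q G ↔ QS z.θ (fun l => z.x (inr l)) G := by
  have hs := σ.subsingleton_of_isEmpty h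
  obtain ⟨v⟩ := σ.nonempty_vertex
  constructor
  · rintro ⟨d, R, ⟨h1, -⟩, h2⟩
    have hR : R v = ⊤ := by
      rw [← h2]
      exact le_antisymm (le_iSup R v) (iSup_le fun u => by rw [Subsingleton.elim u v])
    refine ⟨fun l => d (inr l), ?_⟩
    have h3 := VP.reindex (h1 v) (fun l : Fin n => (⟨inr l, Subsingleton.elim _ _⟩ : σ.Sl v)) (by
      rintro ⟨δ | l, hl⟩
      · exact (h.false δ).elim
      · exact ⟨l, rfl⟩)
    rw [hR] at h3
    exact h3
  · rintro ⟨d, hd⟩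
    refine ⟨Sum.elim (fun δ => h.elim δ) d, fun _ => ⊤, ⟨fun u => ?_, fun δ => h.elim δ⟩,
      le_antisymm le_top (le_iSup (fun _ : Fin σ.r => (⊤ : Subgroup G)) v)⟩
    have h3 := VP.reindex hd (fun s : σ.Sl u => Sum.elim (fun δ => h.elim δ) id s.1)
      fun l => ⟨⟨inr l, Subsingleton.elim _ _⟩, rfl⟩
    have e1 : (fun s : σ.Sl u => ((z.x (inr (Sum.elim (fun δ => h.elim δ) id s.1)) : z.k) :
        OnePoint z.k)) = fun s : σ.Sl u => ((z.x s : z.k) : OnePoint z.k) := by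
      funext ⟨s, hs⟩
      rcases s with δ | l
      · exact (h.false δ).elim
      · rfl
    have e2 : (fun s : σ.Sl u => d (Sum.elim (fun δ => h.elim δ) id s.1)) =
        fun s : σ.Sl u => Sum.elim (fun δ => h.elim δ) d s.1 := by
      funext ⟨s, hs⟩
      rcases s with δ | l
      · exact (h.false δ).elim
      · rfl
    rw [e1, e2] at h3
    exact h3

theorem Pt.crs_smooth (z : Pt σ) (h : IsEmpty σ.T.Dart) (v : Fin σ.r) (i0 i1 i2 l : Fin n) :
    z.crs v i0 i1 i2 l = cr (z.x (inr i0)) (z.x (inr i1)) (z.x (inr i2)) (z.x (inr l)) := by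
  simp only [Pt.crs, σ.dir_of_isEmpty h]

theorem Shape.isMed_smooth (h : IsEmpty σ.T.Dart) (v : Fin σ.r) (h01 : i0 ≠ i1) (h02 : i0 ≠ i2)
    (h12 : i1 ≠ i2) : σ.IsMed v i0 i1 i2 := by
  simp only [Shape.IsMed, σ.dir_of_isEmpty h, ne_eq, inr.injEq]
  exact ⟨h01, h02, h12⟩

theorem Pt.injective_smooth (z : Pt σ) (h : IsEmpty σ.T.Dart) :
    Function.Injective fun l => z.x (inr l) := by
  have hs := σ.subsingleton_of_isEmpty h
  intro l l' e
  exact inr_injective (z.inj _ _ (Subsingleton.elim _ _) e)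

theorem Pt.le_of_smooth {z : Pt σ} {z' : Pt σ'} (h : IsEmpty σ.T.Dart) (h' : IsEmpty σ'.T.Dart)
    (τ : Fin n ≃ Fin n) (v : Fin σ.r) (v' : Fin σ'.r) (h01 : i0 ≠ i1) (h02 : i0 ≠ i2)
    (h12 : i1 ≠ i2) (hk : KerLe z.θ (z.crs v i0 i1 i2) z'.θ
      fun l => z'.crs v' (τ i0) (τ i1) (τ i2) (τ l)) : z'.Le z := by
  intro G _ _ hG
  obtain ⟨d, hd⟩ := (z'.Q_iff_QS h' G).1 hG
  refine (z.Q_iff_QS h G).2 ⟨fun l => d (τ l), ?_⟩
  have h1 : VC z'.θ (fun l => z'.x (inr (τ l))) (fun l => d (τ l)) ⊤ :=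
    VP.reindex hd τ τ.surjective
  refine VC.gen_cr ((z'.injective_smooth h').comp τ.injective) (z.injective_smooth h) h01 h02 h12
    ?_ h1
  have e1 : z.crs v i0 i1 i2 =
      fun l => cr (z.x (inr i0)) (z.x (inr i1)) (z.x (inr i2)) (z.x (inr l)) :=
    funext fun l => z.crs_smooth h v i0 i1 i2 l
  simp only [e1, z'.crs_smooth h'] at hk
  exact hk

theorem Pt.Rel.isEmpty {z : Pt σ} {z' : Pt σ'} {τ : Fin n ≃ Fin n} (h : z.Rel z' τ)
    (hs : IsEmpty σ.T.Dart) : IsEmpty σ'.T.Dart := by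
  obtain ⟨v⟩ := σ.nonempty_vertex
  obtain ⟨i0, i1, i2, hm⟩ := σ.exists_triple v
  obtain ⟨h01, h02, h12⟩ := hm.ne
  obtain ⟨v', hm'⟩ := σ'.exists_med (τ.injective.ne h01) (τ.injective.ne h02) (τ.injective.ne h12)
  obtain ⟨h1, h2⟩ := h v v' i0 i1 i2 hm hm'
  have hd : ∀ l, l ≠ i2 → σ.dir v l ≠ σ.dir v i2 := fun l hl e => by
    rw [σ.dir_of_isEmpty hs, σ.dir_of_isEmpty hs] at e
    exact hl (inr_injective e)
  refine σ'.isEmpty_of_injective v' fun a b e => ?_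
  obtain ⟨l, rfl⟩ := τ.surjective a
  obtain ⟨l', rfl⟩ := τ.surjective b
  congr 1
  by_cases hl : l = i2
  · by_contra hne
    exact h1 l' (hd l' fun e' => hne (hl.trans e'.symm)) (by rw [← e, hl])
  by_cases hl' : l' = i2
  · exact absurd (by rw [e, hl']) (h1 l (hd l hl))
  have h3 := h2.eq_of_eq (s := l) (s' := l') (by
    simp only [if_neg (hd l hl), if_neg (hd l' hl'), Pt.crs, e])
  have h4 := (z.crs_eq_iff hm (hd l hl) (hd l' hl')).1 h3
  rw [σ.dir_of_isEmpty hs, σ.dir_of_isEmpty hs] at h4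
  exact inr_injective h4

theorem Pt.Rel.kerLe_smooth {z : Pt σ} {z' : Pt σ'} {τ : Fin n ≃ Fin n} (h : z.Rel z' τ)
    (hs : IsEmpty σ.T.Dart) (hs' : IsEmpty σ'.T.Dart) (v : Fin σ.r) (v' : Fin σ'.r)
    (h01 : i0 ≠ i1) (h02 : i0 ≠ i2) (h12 : i1 ≠ i2) :
    KerLe z'.θ (fun l => z'.crs v' (τ i0) (τ i1) (τ i2) (τ l)) z.θ (z.crs v i0 i1 i2) := by
  have hm' := Shape.isMed_smooth hs' v' (τ.injective.ne h01) (τ.injective.ne h02)
    (τ.injective.ne h12)
  have h2 := (h v v' i0 i1 i2 (Shape.isMed_smooth hs v h01 h02 h12) hm').2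
  have e : (fun l => if σ.dir v l = σ.dir v i2 then 0 else
      z'.crs v' (τ i0) (τ i1) (τ i2) (τ l)) = fun l => z'.crs v' (τ i0) (τ i1) (τ i2) (τ l) := by
    funext l
    split_ifs with hl
    · rw [σ.dir_of_isEmpty hs, σ.dir_of_isEmpty hs] at hl
      rw [inr_injective hl]
      exact ((z'.crs_eq_zero_iff hm' _).2 (Or.inr rfl)).symm
    · rfl
  rw [e] at h2
  exact h2

/-- The cross ratios as polynomials in the free cross ratios. -/
noncomputable def gen_SM (i0 i1 i2 l : Fin n) :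
    MvPolynomial {l // l ≠ i0 ∧ l ≠ i1 ∧ l ≠ i2} K0 :=
  if h : l ≠ i0 ∧ l ≠ i1 ∧ l ≠ i2 then MvPolynomial.X ⟨l, h⟩ else if l = i1 then 1 else 0

theorem eval_gen_SM {k : Type} [Field k] (θ : K0 →+* k) {q : Fin n → k}
    (hq : Function.Injective q) (h01 : i0 ≠ i1) (h12 : i1 ≠ i2) :
    (fun l => MvPolynomial.eval₂ θ (fun l : {l // l ≠ i0 ∧ l ≠ i1 ∧ l ≠ i2} =>
      cr (q i0) (q i1) (q i2) (q l)) (gen_SM i0 i1 i2 l)) =
      fun l => cr (q i0) (q i1) (q i2) (q l) := by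
  funext l
  unfold gen_SM
  split_ifs with h1 h2
  · rw [MvPolynomial.eval₂_X]
  · rw [MvPolynomial.eval₂_one, h2, cr, mul_comm]
    exact (div_self (mul_ne_zero (sub_ne_zero.2 (hq.ne h12)) (sub_ne_zero.2 (hq.ne h01.symm)))).symm
  · rw [MvPolynomial.eval₂_zero, cr]
    by_cases h0 : l = i0
    · rw [h0, sub_self, zero_mul, zero_div]
    · have h3 : l = i2 := by_contra fun h3 => h1 ⟨h0, h2, h3⟩
      rw [h3, sub_self, zero_mul, div_zero]

/-- The generic smooth curve dominates every curve. -/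
theorem Pt.le_top (z : Pt σ) (h : IsEmpty σ.T.Dart) (v : Fin σ.r) (h01 : i0 ≠ i1)
    (h02 : i0 ≠ i2) (h12 : i1 ≠ i2)
    (hi : Indep z.θ fun l : {l // l ≠ i0 ∧ l ≠ i1 ∧ l ≠ i2} => z.crs v i0 i1 i2 l)
    (z' : Pt σ') : z'.Le z := by
  intro G _ _ hG
  obtain ⟨d, hd⟩ := hG
  obtain ⟨k, _, _, θ, p, hp, h1⟩ := hd.geo
  obtain ⟨μ, hμ, h2⟩ := exists_mob_finite p
  choose q hq using fun l : Fin n => OnePoint.ne_infty_iff_exists.1 (h2 ⟨l, trivial⟩)
  have h3 := (h1.mob μ hμ.1).reindex (fun l : Fin n => (⟨l, trivial⟩ : (Set.univ : Set (Fin n))))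
    fun s => ⟨s.1, rfl⟩
  have h4 : VC θ q (fun l => d (inr l)) ⊤ := by
    simp only [← hq] at h3
    exact h3
  have hq' : Function.Injective q := fun l l' e => by
    have e' : μ (p ⟨l, trivial⟩) = μ (p ⟨l', trivial⟩) := by rw [← hq, ← hq, e]
    exact congrArg Subtype.val (hp (μ.injective e'))
  refine (z.Q_iff_QS h G).2 ⟨fun l => d (inr l), VC.gen_cr hq' (z.injective_smooth h) h01 h02 h12
    ?_ h4⟩
  have h5 := (hi.kerLe θ fun l => cr (q i0) (q i1) (q i2) (q l)).bind (gen_SM i0 i1 i2)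
  simp only [z.crs_smooth h] at h5
  rw [eval_gen_SM θ hq' h01 h12, eval_gen_SM z.θ (z.injective_smooth h) h01 h12] at h5
  exact h5

end Pool.Agent.Adm

end

section

/-! Algebraically closed fields of given transcendence degree. -/

namespace Pool.Agent.Adm

theorem indep_change_FLD {k σ : Type} [Field k] (θ θ' : K0 →+* k) {a : σ → k} (h : Indep θ' a) :
    Indep θ a := by
  have hx : ∀ x, ∃ y, θ' y = θ x := fun x => range_le_VPL θ θ' ⟨x, rfl⟩
  choose s hs using hx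
  let S : K0 →+* K0 :=
    { toFun := s
      map_one' := θ'.injective (by rw [hs, map_one, map_one])
      map_mul' := fun x y => θ'.injective (by rw [map_mul, hs, hs, hs, map_mul])
      map_zero' := θ'.injective (by rw [hs, map_zero, map_zero])
      map_add' := fun x y => θ'.injective (by rw [map_add, hs, hs, hs, map_add]) }
  have e : θ'.comp S = θ := RingHom.ext hs
  intro f hf
  refine MvPolynomial.map_injective S S.injective ?_
  rw [map_zero]
  exact h _ (by rw [MvPolynomial.eval₂_map, e, hf])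

theorem indep_iff_FLD {k σ : Type} [Field k] [Algebra K0 k] (a : σ → k) :
    Indep (algebraMap K0 k) a ↔ AlgebraicIndependent K0 a :=
  algebraicIndependent_iff.symm

theorem exists_field_td (e : ℕ) :
    ∃ (k : Type) (_ : Field k) (_ : IsAlgClosed k) (θ : K0 →+* k) (t : Fin e → k), Indep θ t ∧
      ∀ (θ' : K0 →+* k) (σ : Type) [Fintype σ] (a : σ → k), Indep θ' a → Fintype.card σ ≤ e := by
  let B := MvPolynomial (Fin e) K0
  let K := FractionRing B
  let k := AlgebraicClosure K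
  have hK : Algebra.IsAlgebraic B K := IsLocalization.isAlgebraic K (nonZeroDivisors B)
  have h1 := (IsTranscendenceBasis.mvPolynomial (Fin e) K0).algebraMap_comp (A := K)
  have h2 := h1.algebraMap_comp (A := k)
  refine ⟨k, inferInstance, inferInstance, algebraMap K0 k, _, (indep_iff_FLD _).2 h2.1,
    fun θ' σ _ a ha => ?_⟩
  have h3 := ((indep_iff_FLD a).1 (indep_change_FLD _ θ' ha)).cardinalMk_le_trdeg
  rw [← h2.cardinalMk_eq_trdeg, Cardinal.mk_fintype, Cardinal.mk_fintype, Fintype.card_fin] at h3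
  exact_mod_cast h3

theorem exists_pt_of_prime {σ : Type} (P : Ideal (MvPolynomial σ K0)) [P.IsPrime] :
    ∃ (k : Type) (_ : Field k) (_ : IsAlgClosed k) (θ : K0 →+* k) (a : σ → k),
      ∀ f, MvPolynomial.eval₂ θ a f = 0 ↔ f ∈ P :=
  exists_point_of_prime P

end Pool.Agent.Adm

end

section

/-! Smooth curves with a prescribed number of moduli. -/

namespace Pool.Agent.Adm

variable {e : ℕ} {σ : Shape (e + 3)}

/-- Three values followed by a family. -/
def ext_CH0 {α : Type} (x0 x1 x2 : α) (f : Fin e → α) : Fin (e + 3) → α :=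
  Fin.cons x0 (Fin.cons x1 (Fin.cons x2 f))

theorem ext0_CH0 {α : Type} (x0 x1 x2 : α) (f : Fin e → α) : ext_CH0 x0 x1 x2 f 0 = x0 := rfl

theorem ext1_CH0 {α : Type} (x0 x1 x2 : α) (f : Fin e → α) : ext_CH0 x0 x1 x2 f 1 = x1 := rfl

theorem ext2_CH0 {α : Type} (x0 x1 x2 : α) (f : Fin e → α) : ext_CH0 x0 x1 x2 f 2 = x2 := rfl

theorem ext3_CH0 {α : Type} (x0 x1 x2 : α) (f : Fin e → α) (i : Fin e) :
    ext_CH0 x0 x1 x2 f i.succ.succ.succ = f i := rfl

theorem cases_CH0 {P : Fin (e + 3) → Prop} (h0 : P 0) (h1 : P 1) (h2 : P 2)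
    (h : ∀ i : Fin e, P i.succ.succ.succ) : ∀ l, P l :=
  Fin.cases h0 (Fin.cases h1 (Fin.cases h2 h))

theorem ne01_CH0 : (0 : Fin (e + 3)) ≠ 1 := Fin.zero_ne_one

theorem ne02_CH0 : (0 : Fin (e + 3)) ≠ 2 := (Fin.succ_ne_zero (1 : Fin (e + 2))).symm

theorem ne12_CH0 : (1 : Fin (e + 3)) ≠ 2 := fun h =>
  Fin.zero_ne_one (Fin.succ_injective _ (show (0 : Fin (e + 2)).succ = (1 : Fin (e + 2)).succ from h))

theorem inj_CH0 {k τ : Type} [Field k] {θ : K0 →+* k} {t : τ → k} (h : Indep θ t) :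
    Function.Injective t := by
  intro s s' hs
  have := h (MvPolynomial.X s - MvPolynomial.X s') (by
    rw [MvPolynomial.eval₂_sub, MvPolynomial.eval₂_X, MvPolynomial.eval₂_X, hs, sub_self])
  exact MvPolynomial.X_injective (sub_eq_zero.1 this)

theorem crs_CH0 (hs : IsEmpty σ.T.Dart) (v : Fin σ.r) (y : Pt σ) :
    y.crs v 0 1 2 0 = 0 ∧ y.crs v 0 1 2 1 = 1 ∧ y.crs v 0 1 2 2 = 0 := by
  have hi := y.injective_smooth hs
  have a := sub_ne_zero.2 (hi.ne ne01_CH0.symm)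
  have b := sub_ne_zero.2 (hi.ne ne12_CH0)
  simp only [y.crs_smooth hs, cr, sub_self, zero_mul, zero_div, div_zero, true_and, and_true]
  rw [mul_comm]
  exact div_self (mul_ne_zero b a)

theorem exists_pt_td (hs : IsEmpty σ.T.Dart) (v : Fin σ.r) (c : Fin e → K0)
    (hc : Function.Injective c) (h0 : ∀ i, c i ≠ 0) (h1 : ∀ i, c i ≠ 1) (j : ℕ) (hj : j ≤ e) :
    ∃ y : Pt σ, (∀ (θ' : K0 →+* y.k) (a : Fin (e + 3) → y.k), td θ' a ≤ j) ∧
      (Indep y.θ fun i : {i : Fin e // i.1 < j} => y.crs v 0 1 2 i.1.succ.succ.succ) ∧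
      ∀ i : Fin e, j ≤ i.1 → y.crs v 0 1 2 i.succ.succ.succ = y.θ (c i) := by
  obtain ⟨k, _, _, θ, t, ht, H⟩ := exists_field_td j
  let b : Fin e → k := fun i => if h : i.1 < j then t ⟨i.1, h⟩ else θ (c i)
  have hb : ∀ i (x : K0), b i = θ x → c i = x := by
    intro i x hx
    by_cases h : i.1 < j
    · exact absurd ⟨x, hx.symm.trans (dif_pos h)⟩ (ht.notMem_range ⟨i.1, h⟩)
    · exact θ.injective ((dif_neg h).symm.trans hx)
  have hb0 : ∀ i, b i ≠ 0 := fun i h => h0 i (hb i 0 (by rw [h, map_zero]))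
  have hb1 : ∀ i, b i ≠ 1 := fun i h => h1 i (hb i 1 (by rw [h, map_one]))
  have hbi : Function.Injective b := by
    intro i i' hx
    by_cases h : i.1 < j
    · by_cases h' : i'.1 < j
      · have : t ⟨i.1, h⟩ = t ⟨i'.1, h'⟩ := (dif_pos h).symm.trans (hx.trans (dif_pos h'))
        exact Fin.ext (congrArg Fin.val (inj_CH0 ht this) :)
      · exact hc (hb i _ (hx.trans (dif_neg h')))
    · exact (hc (hb i' _ (hx.symm.trans (dif_neg h)))).symm
  obtain ⟨p, hp, hcr⟩ := exists_cr_eq (ext_CH0 0 1 0 b) (s0 := 0) (s1 := 1) (s2 := 2) rfl rfl rfl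
    ne02_CH0 (by
      refine cases_CH0 ?_ ?_ (fun _ h => absurd rfl h) fun i => ?_
      · refine cases_CH0 (fun _ _ _ => rfl) (fun _ _ h => ?_) (fun _ h => absurd rfl h)
          fun i' _ _ h => ?_
        · exact absurd h zero_ne_one
        · exact absurd h.symm (hb0 i')
      · refine cases_CH0 (fun _ _ h => ?_) (fun _ _ _ => rfl) (fun _ h => absurd rfl h)
          fun i' _ _ h => ?_
        · exact absurd h one_ne_zero
        · exact absurd h.symm (hb1 i')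
      · refine cases_CH0 (fun _ _ h => ?_) (fun _ _ h => ?_) (fun _ h => absurd rfl h)
          fun i' _ _ h => ?_
        · exact absurd h (hb0 i)
        · exact absurd h (hb1 i)
        · rw [show i = i' from hbi h])
  have hy : ∀ i : Fin e, (Pt.ofSmooth hs k θ p hp).crs v 0 1 2 i.succ.succ.succ = b i :=
    fun i => ((Pt.ofSmooth hs k θ p hp).crs_smooth hs v 0 1 2 _).trans (hcr _)
  refine ⟨Pt.ofSmooth hs k θ p hp, fun θ' a => td_le j fun S hS => ?_, ?_, fun i hi => ?_⟩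
  · have := H θ' S _ hS
    rwa [Fintype.card_coe] at this
  · have := ht.comp (fun i : {i : Fin e // i.1 < j} => (⟨i.1.1, i.2⟩ : Fin j))
      fun i i' h => Subtype.ext (Fin.ext (congrArg Fin.val h :))
    have e1 : (fun i : {i : Fin e // i.1 < j} =>
        (Pt.ofSmooth hs k θ p hp).crs v 0 1 2 i.1.succ.succ.succ) = fun i => t ⟨i.1.1, i.2⟩ :=
      funext fun i => (hy i.1).trans (dif_pos i.2)
    rw [e1]
    exact this
  · exact (hy i).trans (dif_neg (not_lt.2 hi))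

theorem le_td_of_indep {k : Type} [Field k] (θ : K0 →+* k) (a : Fin (e + 3) → k) {j : ℕ}
    (hj : j ≤ e) (h : Indep θ fun i : {i : Fin e // i.1 < j} => a i.1.succ.succ.succ) :
    j ≤ td θ a := by
  classical
  let φ : {i : Fin e // i.1 < j} → Fin (e + 3) := fun i => i.1.succ.succ.succ
  have hφ : Function.Injective φ := fun i i' hi =>
    Subtype.ext (Fin.succ_injective _ (Fin.succ_injective _ (Fin.succ_injective _ hi)))
  let ψ : Fin j → {i : Fin e // i.1 < j} := fun i => ⟨⟨i.1, i.2.trans_le hj⟩, i.2⟩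
  have hψ : Function.Injective ψ := fun i i' hi =>
    Fin.ext (congrArg (fun x : {i : Fin e // i.1 < j} => x.1.1) hi :)
  have hg : ∀ s : Finset.univ.image φ, ∃ i, φ i = s := fun s => by
    obtain ⟨i, -, hi⟩ := Finset.mem_image.1 s.2
    exact ⟨i, hi⟩
  choose g hg using hg
  have h1 := h.comp g fun s s' hs => Subtype.ext (by rw [← hg, ← hg, hs])
  have h2 : Indep θ fun s : Finset.univ.image φ => a s := by
    have e1 : (fun s : Finset.univ.image φ => a s) = fun s => a (φ (g s)) :=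
      funext fun s => by rw [hg]
    rw [e1]
    exact h1
  have h3 := le_td _ h2
  rw [Finset.card_image_of_injective _ hφ, Finset.card_univ] at h3
  have h4 := Fintype.card_le_of_injective ψ hψ
  rw [Fintype.card_fin] at h4
  exact h4.trans h3

theorem le_of_indep (hs : IsEmpty σ.T.Dart) (v : Fin σ.r) (c : Fin e → K0) {j j' : ℕ}
    (hj : j' ≤ j) {y y' : Pt σ}
    (hi : Indep y.θ fun i : {i : Fin e // i.1 < j} => y.crs v 0 1 2 i.1.succ.succ.succ)
    (hc : ∀ i : Fin e, j ≤ i.1 → y.crs v 0 1 2 i.succ.succ.succ = y.θ (c i))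
    (hc' : ∀ i : Fin e, j' ≤ i.1 → y'.crs v 0 1 2 i.succ.succ.succ = y'.θ (c i)) : y'.Le y := by
  let g : Fin (e + 3) → MvPolynomial {i : Fin e // i.1 < j} K0 :=
    ext_CH0 0 1 0 fun i => if h : i.1 < j then MvPolynomial.X ⟨i, h⟩ else MvPolynomial.C (c i)
  have key : ∀ z : Pt σ, (∀ i : Fin e, j ≤ i.1 → z.crs v 0 1 2 i.succ.succ.succ = z.θ (c i)) →
      (fun l => MvPolynomial.eval₂ z.θ
        (fun i : {i : Fin e // i.1 < j} => z.crs v 0 1 2 i.1.succ.succ.succ) (g l)) =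
        z.crs v 0 1 2 := by
    intro z hz
    obtain ⟨a0, a1, a2⟩ := crs_CH0 hs v z
    funext l
    induction l using cases_CH0 with
    | h0 => rw [a0]; exact MvPolynomial.eval₂_zero _ _
    | h1 => rw [a1]; exact MvPolynomial.eval₂_one _ _
    | h2 => rw [a2]; exact MvPolynomial.eval₂_zero _ _
    | h i =>
      simp only [g, ext3_CH0]
      by_cases h : i.1 < j
      · rw [dif_pos h, MvPolynomial.eval₂_X]
      · rw [dif_neg h, MvPolynomial.eval₂_C, hz i (not_lt.1 h)]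
  have hk := (hi.kerLe y'.θ
    fun i : {i : Fin e // i.1 < j} => y'.crs v 0 1 2 i.1.succ.succ.succ).bind g
  rw [key y hc, key y' fun i h => hc' i (hj.trans h)] at hk
  exact Pt.le_of_smooth hs hs (Equiv.refl _) v v ne01_CH0 ne02_CH0 ne12_CH0 hk

end Pool.Agent.Adm

end

section

/-! The Kummer character on branches; unramified branches. -/

namespace Pool.Agent.Adm

open Sum

variable {n : ℕ} {σ : Shape n} {z : Pt σ} {G : Type} [Group G] [Finite G] {d : σ.Slot → G}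
  {R : Fin σ.r → Subgroup G} {v : Fin σ.r} {i0 i1 i2 : Fin n} {𝔽0 𝔽 : FF}

/-- The branch beyond a dart as a pointed line: one point for the node, and the marks. -/
theorem Pt.AdmR.geo_opt_TU1 (h : z.AdmR d R) (δ : σ.T.Dart) :
    Geo Set.univ (fun o : Option {l // σ.dir δ.fst l = inl δ} =>
      o.elim (d (inl δ))⁻¹ fun l => d (inr l.1)) (⨆ w ∈ σ.Br δ, R w) := by
  let f : ↥(Set.univ : Set (Option {l // σ.dir δ.fst l = inl δ})) → σ.bd (σ.Br δ) := fun o =>
    ⟨o.1.elim (inl δ.symm) fun l => inr l.1, by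
      rw [Shape.mem_bd_Br]
      rcases o with ⟨_ | l, -⟩
      · exact Or.inl rfl
      · exact Or.inr ⟨l.1, rfl, l.2⟩⟩
  have hf : Function.Bijective f := by
    constructor
    · rintro ⟨_ | l, h1⟩ ⟨_ | l', h2⟩ e
      · rfl
      · simp [f] at e
      · simp [f] at e
      · have e' : l.1 = l'.1 := by simpa [f] using e
        obtain rfl : l = l' := Subtype.ext e'
        rfl
    · rintro ⟨s, hs⟩
      rcases (σ.mem_bd_Br δ s).1 hs with rfl | ⟨l, rfl, hl⟩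
      · exact ⟨⟨none, trivial⟩, rfl⟩
      · exact ⟨⟨some ⟨l, hl⟩, trivial⟩, rfl⟩
  refine (h.geo_Br δ).equiv (Equiv.ofBijective f hf) ?_
  rintro ⟨_ | l, -⟩
  · exact (h.2 δ).symm
  · rfl

theorem Pt.AdmR.prod_TU1 (h : z.AdmR d R) (χ0 : G →* 𝔽0.Fˣ) (δ : σ.T.Dart) :
    χ0 (d (inl δ)) =
      ∏ l ∈ Finset.univ.filter (fun l => σ.dir δ.fst l = inl δ), χ0 (d (inr l)) := by
  have h1 := (h.geo_opt_TU1 δ).prod_eq_one 𝔽0 χ0
  rw [Fintype.prod_option] at h1
  simp only [Option.elim_none, Option.elim_some, map_inv] at h1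
  rw [inv_mul_eq_one] at h1
  rw [h1]
  exact (Finset.prod_subtype (Finset.univ.filter fun l => σ.dir δ.fst l = inl δ) (by simp)
    fun l => χ0 (d (inr l))).symm

theorem Pt.AdmR.chi0_slot (h : z.AdmR d R) (h02 : i0 ≠ i2) {χ0 : G →* 𝔽0.Fˣ} {u : 𝔽0.Fˣ}
    (hK : KumLab χ0 (fun l => d (inr l)) i0 i2 u) (s : σ.Slot) :
    χ0 (d s) = σ.kum i0 i2 u s := by
  have key : ∀ l, χ0 (d (inr l)) = (if i0 = l then u else 1) * if i2 = l then u⁻¹ else 1 := by
    intro l
    by_cases h0 : i0 = l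
    · subst h0
      simpa [h02.symm] using hK.1
    · by_cases h2 : i2 = l
      · subst h2
        simpa [h02] using hK.2.1
      · simpa [h0, h2] using hK.2.2 l (Ne.symm h0) (Ne.symm h2)
  rcases s with δ | l
  · rw [h.prod_TU1 χ0 δ]
    simp only [key, Finset.prod_mul_distrib, Finset.prod_ite_eq, Finset.mem_filter,
      Finset.mem_univ, true_and, Shape.kum, Shape.base_inl]
    rfl
  · rw [key]
    simp only [Shape.kum, Shape.base_inr, Shape.dir_inr_LS]

theorem Pt.AdmR.chi0_branch (h : z.AdmR d R) {χ0 : G →* 𝔽0.Fˣ} {u : 𝔽0.Fˣ}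
    (hK : KumLab χ0 (fun l => d (inr l)) i0 i2 u) (δ : σ.T.Dart)
    (h0 : inl δ ≠ σ.dir δ.fst i0) (h2 : inl δ ≠ σ.dir δ.fst i2) :
    ∀ x ∈ ⨆ w ∈ σ.Br δ, R w, χ0 x = 1 := by
  have key : ∀ l, σ.dir δ.fst l = inl δ → χ0 (d (inr l)) = 1 := fun l hl =>
    hK.2.2 l (fun e => h0 (e ▸ hl.symm)) (fun e => h2 (e ▸ hl.symm))
  refine (h.geo_opt_TU1 δ).char_eq_one 𝔽0 χ0 ?_
  rintro (_ | l)
  · simp only [Option.elim_none, map_inv, inv_eq_one]
    rw [h.prod_TU1 χ0 δ]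
    exact Finset.prod_eq_one fun l hl => key l (Finset.mem_filter.1 hl).2
  · exact key l.1 l.2

theorem Pt.AdmR.mem_branch (h : z.AdmR d R) (δ : σ.T.Dart) :
    d (inl δ) ∈ R δ.fst ∧ d (inl δ) ∈ ⨆ w ∈ σ.Br δ, R w := by
  refine ⟨VP.mem (h.1 δ.fst) ⟨inl δ, rfl⟩, ?_⟩
  have h1 := (h.geo_opt_TU1 δ).mem (i := none) trivial
  exact (Subgroup.inv_mem_iff _).1 h1

theorem TUH.branch_unram {c : ℕ} {χ0 : G →* 𝔽0.Fˣ} {χ : χ0.ker →* 𝔽.Fˣ} {n0 : ℕ}
    {n1 : 𝔽0.Fˣ → ℕ} {nn : Fin n → ℕ} (H : TUH z d R v i0 i1 i2 𝔽0 𝔽 c χ0 χ n0 n1 nn)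
    (δ : σ.T.Dart) (hδ : δ.fst = v) (h0 : inl δ ≠ σ.dir v i0) (h2 : inl δ ≠ σ.dir v i2) (γ : G)
    (h : χ0.ker) (hh : (h : G) = γ⁻¹ * d (inl δ) * γ) :
    χ h = 𝔽.u ^ σ.tlab 𝔽0 v i0 i1 n0 n1 nn (inl δ) (χ0 γ) ∧
      ∀ b ∈ Z1 χ, b h = 0 → ∀ x : χ0.ker, (γ * x * γ⁻¹ : G) ∈ ⨆ w ∈ σ.Br δ, R w → b x = 0 := by
  classical
  subst hδ
  have hB := H.adm.chi0_branch H.kum δ h0 h2
  have hg := H.adm.geo_opt_TU1 δ
  set e : Option {l // σ.dir δ.fst l = inl δ} → G :=
    fun o => o.elim (d (inl δ))⁻¹ fun l => d (inr l.1) with he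
  set B : Subgroup G := ⨆ w ∈ σ.Br δ, R w with hBd
  let f : G →* G := (MulAut.conj γ⁻¹).toMonoidHom
  have hf : ∀ g, f g = γ⁻¹ * g * γ := fun g => by simp [f]
  have hker : B.map f ≤ χ0.ker := by
    rintro _ ⟨g, hg', rfl⟩
    rw [MonoidHom.mem_ker, hf, map_mul, map_mul, hB g hg', mul_one, ← map_mul, inv_mul_cancel,
      map_one]
  let d' : Option {l // σ.dir δ.fst l = inl δ} → χ0.ker :=
    fun o => ⟨f (e o), hker ⟨e o, hg.mem trivial, rfl⟩⟩
  have hg2 := Geo.restr χ0.ker hker d' (hg.map f)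
  let x : Option {l // σ.dir δ.fst l = inl δ} → ℕ :=
    fun o => o.elim 0 fun l => if l.1 = i1 then n1 (χ0 γ) else nn l.1
  have hx : ∀ o, o ≠ none → χ (d' o) = 𝔽.u ^ x o := by
    rintro (_ | l) ho
    · exact absurd rfl ho
    · by_cases h1 : l.1 = i1
      · simp only [x, Option.elim_some, if_pos h1]
        exact H.lab.2.1 γ _ (by rw [← h1]; exact hf _)
      · simp only [x, Option.elim_some, if_neg h1]
        exact H.lab.2.2 l.1 (fun e => h0 (e ▸ l.2.symm)) h1 (fun e => h2 (e ▸ l.2.symm)) γ _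
          (hf _)
  have hs : ∑ o ∈ Finset.univ.erase none, x o =
      σ.tlab 𝔽0 δ.fst i0 i1 n0 n1 nn (inl δ) (χ0 γ) := by
    rw [Finset.sum_erase _ (by rfl), Fintype.sum_option, Shape.tlab, if_neg h0]
    simp only [x, Option.elim_none, Option.elim_some, zero_add]
    rw [← Finset.sum_subtype (Finset.univ.filter fun l => σ.dir δ.fst l = inl δ) (by simp)
      fun l => if l = i1 then n1 (χ0 γ) else nn l]
    have h3 : ∀ l, (if l = i1 then n1 (χ0 γ) else nn l) =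
        (if i1 = l then n1 (χ0 γ) else 0) + nn l := by
      intro l
      by_cases h1 : l = i1
      · subst h1
        simp [H.nn0 l (Or.inr (Or.inl rfl))]
      · simp [h1, Ne.symm h1]
    simp only [h3, Finset.sum_add_distrib, Finset.sum_ite_eq, Finset.mem_filter, Finset.mem_univ,
      true_and, eq_comm (a := inl δ)]
  have hlt : ∑ o ∈ Finset.univ.erase none, x o < 𝔽.m := by
    rw [hs, Shape.tlab, if_neg h0]
    refine lt_of_le_of_lt (add_le_add ?_ (Finset.sum_le_sum_of_subset (Finset.filter_subset _ _)))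
      (H.b1 (χ0 γ))
    split_ifs
    · exact le_rfl
    · exact Nat.zero_le _
  have hn : d' none = h⁻¹ := by
    apply Subtype.ext
    change f (d (inl δ))⁻¹ = (h : G)⁻¹
    rw [map_inv, hf, hh]
  obtain ⟨k1, k2⟩ := hg2.branch 𝔽 χ none x hx hlt
  rw [hn] at k1 k2
  refine ⟨?_, fun b hb hb0 y hy => k2 b hb (by rw [Z1.map_inv hb, hb0, mul_zero]) y ?_⟩
  · rw [hs, map_inv, inv_mul_eq_one] at k1
    exact k1
  · exact Subgroup.mem_subgroupOf.2 ⟨_, hy, by rw [hf]; group⟩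

end Pool.Agent.Adm

end

section

/-! Ramified branches. -/

namespace Pool.Agent.Adm

open Sum

variable {n : ℕ} {σ : Shape n} {z : Pt σ} {G : Type} [Group G] [Finite G] {d : σ.Slot → G}
  {R : Fin σ.r → Subgroup G} {v : Fin σ.r} {i0 i1 i2 : Fin n} {𝔽0 𝔽 : FF} {c : ℕ}
  {χ0 : G →* 𝔽0.Fˣ} {χ : χ0.ker →* 𝔽.Fˣ} {n0 : ℕ} {n1 : 𝔽0.Fˣ → ℕ} {nn : Fin n → ℕ}

theorem sum_YI_TU2 {ι A : Type} [Fintype ι] [DecidableEq ι] [CommGroup A] [Fintype A]
    [DecidableEq A] (a0 a2 : ι) (f : ι → ℕ) : ∑ y : YI ι A a0 a2, f y.1.1 =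
      ∑ i, (if i = a0 ∨ i = a2 then 1 else Fintype.card A) * f i := by
  rw [← Finset.sum_subtype (Finset.univ.filter fun y : ι × A => (y.1 = a0 ∨ y.1 = a2) → y.2 = 1)
    (by simp) (fun y => f y.1), Finset.sum_filter, Fintype.sum_prod_type]
  refine Finset.sum_congr rfl fun i _ => ?_
  by_cases hi : i = a0 ∨ i = a2
  · simp [hi]
  · simp [hi]

omit [Finite G] in
theorem Z1_inv_TU2 {F : Type} [Field F] {ψ : G →* Fˣ} {b : G → F} (hb : b ∈ Z1 ψ) {g : G}
    (hg : b g = 0) : b g⁻¹ = 0 := by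
  have h1 := hb 1 1
  have h2 := hb g g⁻¹
  rw [mul_one, map_one, Units.val_one, one_mul] at h1
  rw [mul_inv_cancel, hg, mul_zero, zero_add] at h2
  rw [← h2]
  linear_combination -h1

theorem Geo.core_TU2 {L : Type} [Fintype L] [DecidableEq L] {e : Option L → G} {B : Subgroup G}
    (h : Geo Set.univ e B) (j : L) {a0 a2 : Option L} (h02 : a0 ≠ a2)
    (hi : ∀ i, (i = a0 ∨ i = a2) ↔ (i = none ∨ i = some j))
    (hK : KumLab χ0 e a0 a2 (𝔽0.u ^ 2 ^ c))
    (hj : χ0 (e (some j)) = 𝔽0.u ^ 2 ^ c ∨ χ0 (e (some j)) = (𝔽0.u ^ 2 ^ c)⁻¹) (a : ℕ)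
    (x : L → ℕ) (hx0 : x j = 0)
    (ha : ∀ g : χ0.ker, (g : G) = e (some j) ^ 𝔽0.m → χ g = 𝔽.u ^ a)
    (hx : ∀ l, l ≠ j → ∀ (γ : G) (g : χ0.ker), (g : G) = γ⁻¹ * e (some l) * γ →
      χ g = 𝔽.u ^ x l)
    (hlt : a + 𝔽0.m * ∑ l, x l < 𝔽.m) (g : χ0.ker) (hg : (g : G) = (e none)⁻¹ ^ 𝔽0.m) :
    χ g = 𝔽.u ^ (a + 𝔽0.m * ∑ l, x l) ∧
      ∀ b ∈ Z1 χ, b g = 0 → ∀ y : χ0.ker, (y : G) ∈ B → b y = 0 := by
  obtain ⟨γ, hγ⟩ := exists_section 𝔽0 χ0 c (e (some j)) hj
  have hγB : ∀ t, χ0 (γ t) = t ∧ γ t ∈ B := fun t =>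
    ⟨(hγ t).1, (Subgroup.zpowers_le.2 (h.mem (Set.mem_univ _))) (hγ t).2⟩
  have h1 := h.kummer 𝔽0 χ0 h02 c hK γ hγB
  have h2 := Geo.restr χ0.ker inf_le_right
    (fun y => (⟨yd 𝔽0.m e a0 a2 γ y, yd_mem_ker 𝔽0 χ0 hK γ y⟩ : χ0.ker)) h1
  let f : Option L → ℕ := fun i => i.elim 0 fun l => if l = j then a else x l
  let s0 : YI (Option L) 𝔽0.Fˣ a0 a2 := ⟨(none, 1), fun _ => rfl⟩
  have hsum : ∑ y ∈ Finset.univ.erase s0, f y.1.1 = a + 𝔽0.m * ∑ l, x l := by
    rw [Finset.sum_erase (f := fun y : YI (Option L) 𝔽0.Fˣ a0 a2 => f y.1.1) (a := s0) _ rfl,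
      sum_YI_TU2 a0 a2 f, Fintype.sum_option,
      FF.card_units, Finset.mul_sum]
    have e1 : ∀ l, (if some l = a0 ∨ some l = a2 then 1 else 𝔽0.m) * f (some l) =
        (if l = j then a else 0) + 𝔽0.m * x l := by
      intro l
      by_cases hl : l = j
      · subst hl
        rw [if_pos ((hi _).2 (Or.inr rfl))]
        simp [f, hx0]
      · rw [if_neg (by rw [hi]; simpa using hl)]
        simp [f, hl]
    simp only [e1, Finset.sum_add_distrib]
    simp [f]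
  have h3 := h2.branch 𝔽 χ s0 (fun y => f y.1.1) (by
    rintro ⟨⟨_ | l, t⟩, hy⟩ hne
    · obtain rfl : t = 1 := hy ((hi _).2 (Or.inl rfl))
      exact absurd rfl hne
    · by_cases hl : l = j
      · subst hl
        have : f (some l) = a := if_pos rfl
        rw [this]
        exact ha _ (if_pos ((hi _).2 (Or.inr rfl)))
      · have : f (some l) = x l := if_neg hl
        rw [this]
        exact hx l hl (γ t) _ (if_neg (by rw [hi]; simpa using hl))) (by rw [hsum]; exact hlt)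
  have e0 : (⟨yd 𝔽0.m e a0 a2 γ s0, yd_mem_ker 𝔽0 χ0 hK γ s0⟩ : χ0.ker) = g⁻¹ := by
    apply Subtype.ext
    rw [Subgroup.coe_inv, hg, inv_pow, inv_inv]
    exact if_pos ((hi _).2 (Or.inl rfl))
  rw [hsum, e0] at h3
  refine ⟨?_, fun b hb hbg y hy => h3.2 b hb (Z1_inv_TU2 hb hbg) y ?_⟩
  · have := h3.1
    rwa [map_inv, inv_mul_eq_one] at this
  · exact Subgroup.mem_subgroupOf.2 ⟨hy, y.2⟩

theorem Pt.AdmR.geo_TU2 (h : z.AdmR d R) (δ : σ.T.Dart) :
    Geo Set.univ (fun i : Option {l // σ.dir δ.fst l = inl δ} =>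
      i.elim (d (inl δ))⁻¹ fun l => d (inr l.1)) (⨆ w ∈ σ.Br δ, R w) := by
  refine (h.geo_Br δ).equiv (Equiv.ofBijective (fun i => ⟨i.1.elim (inl δ.symm) fun l => inr l.1,
    (σ.mem_bd_Br δ _).2 (by
      rcases i with ⟨_ | l, _⟩
      · exact Or.inl rfl
      · exact Or.inr ⟨l.1, rfl, l.2⟩)⟩) ⟨?_, ?_⟩) ?_
  · rintro ⟨_ | l, _⟩ ⟨_ | l', _⟩ e
    · rfl
    · exact absurd (congrArg Subtype.val e) inl_ne_inr
    · exact absurd (congrArg Subtype.val e) inr_ne_inl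
    · have e' : l = l' := Subtype.ext (inr_injective (congrArg Subtype.val e))
      subst e'
      rfl
  · rintro ⟨s, hs⟩
    rcases (σ.mem_bd_Br δ _).1 hs with rfl | ⟨l, rfl, hl⟩
    · exact ⟨⟨none, trivial⟩, rfl⟩
    · exact ⟨⟨some ⟨l, hl⟩, trivial⟩, rfl⟩
  · rintro ⟨_ | l, _⟩
    · exact (h.2 δ).symm
    · rfl

theorem TUH.branch_zero (H : TUH z d R v i0 i1 i2 𝔽0 𝔽 c χ0 χ n0 n1 nn) (δ : σ.T.Dart)
    (hr : inl δ = σ.dir v i0) (h : χ0.ker) (hh : (h : G) = d (inl δ) ^ 𝔽0.m) :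
    χ h = 𝔽.u ^ σ.tlab 𝔽0 v i0 i1 n0 n1 nn (inl δ) 1 ∧
      ∀ b ∈ Z1 χ, b h = 0 → ∀ x : χ0.ker, (x : G) ∈ ⨆ w ∈ σ.Br δ, R w → b x = 0 := by
  obtain rfl : δ.fst = v := ((σ.dir_eq_inl_iff v i0 δ).1 hr.symm).1
  have h02 : i0 ≠ i2 := fun e => H.med.2.1 (by rw [e])
  have hk : χ0 (d (inl δ)) = 𝔽0.u ^ 2 ^ c := by
    rw [H.adm.chi0_slot h02 H.kum, hr]
    exact (σ.kum_dir_left _ H.med.2.1).1
  have n1' : ∀ l : {l // σ.dir δ.fst l = inl δ}, l.1 ≠ i1 := fun l e =>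
    H.med.1 (by rw [← hr, ← e, l.2])
  have n2' : ∀ l : {l // σ.dir δ.fst l = inl δ}, l.1 ≠ i2 := fun l e =>
    H.med.2.1 (by rw [← hr, ← e, l.2])
  have hs : ∑ l ∈ Finset.univ.filter (fun l => σ.dir δ.fst l = inl δ), nn l =
      ∑ l : {l // σ.dir δ.fst l = inl δ}, nn l.1 := Finset.sum_subtype _ (by simp) nn
  have ht : σ.tlab 𝔽0 δ.fst i0 i1 n0 n1 nn (inl δ) 1 =
      n0 + 𝔽0.m * ∑ l : {l // σ.dir δ.fst l = inl δ}, nn l.1 := by
    rw [Shape.tlab, if_pos hr, hs]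
  rw [ht]
  refine (H.adm.geo_TU2 δ).core_TU2 (c := c) ⟨i0, hr.symm⟩ (a0 := some ⟨i0, hr.symm⟩) (a2 := none)
    (Option.some_ne_none _) (fun i => or_comm) ⟨H.kum.1, ?_, ?_⟩ (Or.inl H.kum.1) n0
    (fun l => nn l.1) (H.nn0 _ (Or.inl rfl)) H.lab.1
    (fun l hl => H.lab.2.2 l.1 (fun e => hl (Subtype.ext e)) (n1' l) (n2' l)) ?_ h ?_
  · change χ0 (d (inl δ))⁻¹ = _
    rw [map_inv, hk]
  · rintro (_ | l) h0 h2
    · exact absurd rfl h2
    · exact H.kum.2.2 l.1 (fun e => h0 (congrArg some (Subtype.ext e))) (n2' l)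
  · refine lt_of_le_of_lt ?_ H.b0
    rw [← hs]
    exact Nat.add_le_add_left (Nat.mul_le_mul_left _
      (Finset.sum_le_sum_of_subset (Finset.subset_univ _))) _
  · change _ = (d (inl δ))⁻¹⁻¹ ^ _
    rw [inv_inv, hh]

theorem TUH.branch_infty (H : TUH z d R v i0 i1 i2 𝔽0 𝔽 c χ0 χ n0 n1 nn) (δ : σ.T.Dart)
    (hr : inl δ = σ.dir v i2) (h : χ0.ker) (hh : (h : G) = d (inl δ) ^ 𝔽0.m) :
    ∀ b ∈ Z1 χ, b h = 0 → ∀ x : χ0.ker, (x : G) ∈ ⨆ w ∈ σ.Br δ, R w → b x = 0 := by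
  obtain rfl : δ.fst = v := ((σ.dir_eq_inl_iff v i2 δ).1 hr.symm).1
  have h02 : i0 ≠ i2 := fun e => H.med.2.1 (by rw [e])
  have hk : χ0 (d (inl δ)) = (𝔽0.u ^ 2 ^ c)⁻¹ := by
    rw [H.adm.chi0_slot h02 H.kum, hr]
    exact (σ.kum_dir_left _ H.med.2.1).2
  have n0' : ∀ l : {l // σ.dir δ.fst l = inl δ}, l.1 ≠ i0 := fun l e =>
    H.med.2.1 (by rw [← hr, ← e, l.2])
  have n1' : ∀ l : {l // σ.dir δ.fst l = inl δ}, l.1 ≠ i1 := fun l e =>
    H.med.2.2 (by rw [← hr, ← e, l.2])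
  have hm : d (inr i2) ^ 𝔽0.m ∈ χ0.ker := by
    rw [MonoidHom.mem_ker, map_pow, 𝔽0.pow_m]
  obtain ⟨a, ha, hχ⟩ := 𝔽.exists_log (χ ⟨_, hm⟩)
  refine ((H.adm.geo_TU2 δ).core_TU2 (c := c) ⟨i2, hr.symm⟩ (a0 := none)
    (a2 := some ⟨i2, hr.symm⟩) (Option.some_ne_none _).symm (fun i => Iff.rfl) ⟨?_, H.kum.2.1, ?_⟩
    (Or.inr H.kum.2.1) a (fun l => nn l.1) (H.nn0 _ (Or.inr (Or.inr rfl))) ?_
    (fun l hl => H.lab.2.2 l.1 (n0' l) (n1' l) fun e => hl (Subtype.ext e)) ?_ h ?_).2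
  · change χ0 (d (inl δ))⁻¹ = _
    rw [map_inv, hk, inv_inv]
  · rintro (_ | l) h0 h2
    · exact absurd rfl h0
    · exact H.kum.2.2 l.1 (n0' l) fun e => h2 (congrArg some (Subtype.ext e))
  · intro g hg
    rw [← hχ]
    exact congrArg χ (Subtype.ext hg)
  · rw [Finset.sum_eq_zero fun l _ => H.nn0 l.1 (Or.inr (Or.inr (l.2.trans hr)))]
    exact ha
  · change _ = (d (inl δ))⁻¹⁻¹ ^ _
    rw [inv_inv, hh]

end Pool.Agent.Adm

end

section

/-! Generisation and spreading out for curves of a fixed type. -/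

namespace Pool.Agent.Adm

variable {n : ℕ} {σ σ' σ'' : Shape n}

theorem QLe.refl {p : ℕ} (X : StableCurve p n) : QLe X X := fun _ _ _ h => h

theorem QLe.trans {p : ℕ} {X Y Z : StableCurve p n} (h : QLe X Y) (h' : QLe Y Z) : QLe X Z :=
  fun G _ _ hG => h' G (h G hG)

theorem Pt.Le.refl (z : Pt σ) : z.Le z := fun _ _ _ h => h

theorem Pt.Le.trans {z : Pt σ} {z' : Pt σ'} {z'' : Pt σ''} (h : z.Le z') (h' : z'.Le z'') :
    z.Le z'' := fun G _ _ hG => h' G (h G hG)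

theorem Pt.le_tw (z : Pt σ) (θ' : K0 →+* z.k) : z.Le (z.tw θ') :=
  fun G _ _ hG => (z.Q_tw θ' G).2 hG

theorem Pt.tw_le (z : Pt σ) (θ' : K0 →+* z.k) : (z.tw θ').Le z :=
  fun G _ _ hG => (z.Q_tw θ' G).1 hG

theorem Pt.qle_iff (z : Pt σ) (z' : Pt σ') : QLe z.curve z'.curve ↔ z.Le z' :=
  ⟨fun h G _ _ hG => (z'.hasCover_iff G).1 (h G ((z.hasCover_iff G).2 hG)),
    fun h G _ _ hG => (z'.hasCover_iff G).2 (h G ((z.hasCover_iff G).1 hG))⟩

theorem StableCurve.exists_pt' (X : StableCurve 2 n) :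
    ∃ (σ : Shape n) (z : Pt σ), clsStrict X = clsStrict z.curve ∧ QLe X z.curve ∧
      QLe z.curve X := by
  obtain ⟨σ, z, h⟩ := X.exists_pt
  exact ⟨σ, z, Quot.sound fun G _ _ => h G, fun G _ _ hG => (h G).1 hG,
    fun G _ _ hG => (h G).2 hG⟩

theorem Pt.le_of_kerLe {z z' : Pt σ} (h : KerLe z'.θ z'.x z.θ z.x) : z.Le z' := by
  rintro G _ _ ⟨d, R, ⟨h1, h2⟩, h3⟩
  exact ⟨d, R, ⟨fun v => VC.gen
    (fun s s' e => Subtype.ext (z.inj _ _ (s.2.trans s'.2.symm) e))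
    (h.comp fun s : σ.Sl v => s.1) (h1 v), h2⟩, h3⟩

theorem Pt.Q.spread {z : Pt σ} {G : Type} [Group G] [Finite G] (h : z.Q G) :
    ∃ D : MvPolynomial σ.Slot K0, MvPolynomial.eval₂ z.θ z.x D ≠ 0 ∧
      ∀ z' : Pt σ, KerLe z.θ z.x z'.θ z'.x → MvPolynomial.eval₂ z'.θ z'.x D ≠ 0 → z'.Q G := by
  obtain ⟨d, R, ⟨h1, h2⟩, h3⟩ := h
  choose D hD H using fun v => VC.spread (h1 v)
  have e : ∀ z' : Pt σ, MvPolynomial.eval₂ z'.θ z'.x
      (∏ v, MvPolynomial.rename (fun s : σ.Sl v => s.1) (D v)) ≠ 0 ↔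
      ∀ v, MvPolynomial.eval₂ z'.θ (fun s : σ.Sl v => z'.x s) (D v) ≠ 0 := by
    intro z'
    rw [MvPolynomial.eval₂_prod, Finset.prod_ne_zero_iff]
    simp only [MvPolynomial.eval₂_rename, Finset.mem_univ, true_imp_iff]
    rfl
  exact ⟨_, (e z).2 hD, fun z' hk h0 => ⟨d, R,
    ⟨fun v => H v z'.k z'.θ _ (hk.comp fun s : σ.Sl v => s.1) ((e z').1 h0 v), h2⟩, h3⟩⟩

theorem Pt.open_spread (z : Pt σ) (s : Set (PiBar 2 n)) (hs : IsOpen s)
    (hz : clsStrict z.curve ∈ s) :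
    ∃ D : MvPolynomial σ.Slot K0, MvPolynomial.eval₂ z.θ z.x D ≠ 0 ∧
      ∀ z' : Pt σ, KerLe z.θ z.x z'.θ z'.x → MvPolynomial.eval₂ z'.θ z'.x D ≠ 0 →
        clsStrict z'.curve ∈ s := by
  induction hs with
  | basic s hs =>
    obtain ⟨G, _, _, rfl⟩ := hs
    obtain ⟨D, hD, H⟩ := ((z.hasCover_iff G).1 ((mem_U_Strict _ G).1 hz)).spread
    exact ⟨D, hD, fun z' hk h0 => (mem_U_Strict _ G).2 ((z'.hasCover_iff G).2 (H z' hk h0))⟩
  | univ => exact ⟨1, by rw [MvPolynomial.eval₂_one]; exact one_ne_zero,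
      fun _ _ _ => Set.mem_univ _⟩
  | inter s t _ _ h1 h2 =>
    obtain ⟨D, hD, H⟩ := h1 hz.1
    obtain ⟨D', hD', H'⟩ := h2 hz.2
    refine ⟨D * D', by rw [MvPolynomial.eval₂_mul]; exact mul_ne_zero hD hD', fun z' hk h0 => ?_⟩
    rw [MvPolynomial.eval₂_mul] at h0
    exact ⟨H z' hk (left_ne_zero_of_mul h0), H' z' hk (right_ne_zero_of_mul h0)⟩
  | sUnion S _ ih =>
    obtain ⟨t, ht, hm⟩ := hz
    obtain ⟨D, hD, H⟩ := ih t ht hm
    exact ⟨D, hD, fun z' hk h0 => ⟨t, ht, H z' hk h0⟩⟩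

end Pool.Agent.Adm

end

section

/-! Irreducible closed subsets have generic points. -/

namespace Pool.Agent.Adm

theorem mem_ker_SOB {k σ : Type} [Field k] (θ : K0 →+* k) (a : σ → k) (f : MvPolynomial σ K0) :
    f ∈ RingHom.ker (MvPolynomial.eval₂Hom θ a) ↔ MvPolynomial.eval₂ θ a f = 0 :=
  RingHom.mem_ker

theorem exists_generic_pts {n : ℕ} (σ : Shape n) (V : Set (PiBar 2 n)) (hc : IsClosed V) :
    ∃ S : Set (PiBar 2 n), S.Finite ∧ S ⊆ V ∧
      ∀ z : Pt σ, clsStrict z.curve ∈ V → ∃ x ∈ S, x ⤳ clsStrict z.curve := by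
  obtain ⟨M, hM, h1, h2⟩ := exists_min_primes
    {Q : Ideal (MvPolynomial σ.Slot K0) | ∃ z : Pt σ, clsStrict z.curve ∈ V ∧
      Q = RingHom.ker (MvPolynomial.eval₂Hom z.θ z.x)}
    (by
      rintro _ ⟨z, -, rfl⟩
      exact RingHom.ker_isPrime _)
  have key : ∀ P : M, ∃ y : Pt σ, clsStrict y.curve ∈ V ∧
      ∀ f, MvPolynomial.eval₂ y.θ y.x f = 0 ↔ f ∈ P.1 := by
    rintro ⟨P, hP⟩
    obtain ⟨hp, hd⟩ := h1 P hP
    obtain ⟨k, _, _, θ, a, ha⟩ := exists_pt_of_prime P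
    have hk : ∀ z : Pt σ, P ≤ RingHom.ker (MvPolynomial.eval₂Hom z.θ z.x) →
        KerLe θ a z.θ z.x := fun z hz f hf => (mem_ker_SOB _ _ f).1 (hz ((ha f).1 hf))
    obtain ⟨_, ⟨z, -, rfl⟩, hz, -⟩ := hd 1 ((Ideal.ne_top_iff_one P).1 hp.ne_top)
    let y : Pt σ :=
      { k := k, θ := θ, x := a
        inj := fun s s' h h' => z.inj s s' h ((hk z hz).eq_of_eq h') }
    refine ⟨y, ?_, ha⟩
    rw [← hc.closure_eq, mem_closure_iff]
    intro s hs hy
    obtain ⟨D, hD, hD'⟩ := y.open_spread s hs hy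
    obtain ⟨_, ⟨z', hz', rfl⟩, h3, h4⟩ := hd D fun h => hD ((ha D).2 h)
    exact ⟨_, hD' z' (hk z' h3) fun h => h4 ((mem_ker_SOB _ _ D).2 h), hz'⟩
  choose y hy hy' using key
  have : Finite M := hM
  refine ⟨Set.range fun P => clsStrict (y P).curve, Set.finite_range _, ?_, fun z hz => ?_⟩
  · rintro _ ⟨P, rfl⟩
    exact hy P
  · obtain ⟨P, hP, h3⟩ := h2 _ ⟨z, hz, rfl⟩
    refine ⟨_, ⟨⟨P, hP⟩, rfl⟩, (specializes_iff_Strict _ _).2 ((Pt.qle_iff _ _).2 ?_)⟩
    exact Pt.le_of_kerLe fun f hf => (mem_ker_SOB _ _ f).1 (h3 ((hy' ⟨P, hP⟩ f).1 hf))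

theorem exists_generic {n : ℕ} (V : Set (PiBar 2 n)) (hi : IsIrreducible V) (hc : IsClosed V) :
    ∃ x, V = closure {x} := by
  classical
  have := Shape.finite_shape n
  choose S hS hSV hS' using fun σ : Shape n => exists_generic_pts σ V hc
  have hfin : (⋃ σ, S σ).Finite := Set.finite_iUnion hS
  obtain ⟨Z, hZ, hVZ⟩ := isIrreducible_iff_sUnion_isClosed.1 hi
    (hfin.toFinset.image fun x => closure {x})
    (by
      intro Z hZ
      obtain ⟨x, -, rfl⟩ := Finset.mem_image.1 hZ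
      exact isClosed_closure)
    (by
      intro v hv
      obtain ⟨X, rfl⟩ : ∃ X, clsStrict X = v := Quot.exists_rep v
      obtain ⟨σ, z, hz, -⟩ := X.exists_pt'
      rw [hz] at hv ⊢
      obtain ⟨x, hx, hx'⟩ := hS' σ z hv
      exact ⟨closure {x}, Finset.mem_coe.2 (Finset.mem_image.2
        ⟨x, hfin.mem_toFinset.2 (Set.mem_iUnion.2 ⟨σ, hx⟩), rfl⟩),
        specializes_iff_mem_closure.1 hx'⟩)
  obtain ⟨x, hx, rfl⟩ := Finset.mem_image.1 hZ
  obtain ⟨σ, hσ⟩ := Set.mem_iUnion.1 (hfin.mem_toFinset.1 hx)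
  exact ⟨x, hVZ.antisymm (closure_minimal (Set.singleton_subset_iff.2 (hSV σ hσ)) hc)⟩

end Pool.Agent.Adm

end
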