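import Pool.Agent.Mg.F0854a0.G106170
import Pool.Agent.Mg.F0854a0.G5d1e19
import Pool.Agent.Mg.F0854a0.G6ceadf
import Pool.Agent.Mg.F0854a0.G82424f
import Pool.Agent.Mg.F0854a0.Gd4bfd2

section

/-! New affine quotients on the upper curve of a step. -/

namespace Pool.Agent.Adm

open scoped OnePoint
open Polynomial

variable {k F : Type} [Field k] [IsAlgClosed k] [Field F] [Fintype F]

omit [IsAlgClosed k] [Fintype F] in
theorem md_restr_New1 {G : Type} [Group G] {c : Cover k G} {a : OnePoint k} {d : Dat k G}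
    (hd : c.MD a d) :
    (c.restr c.ι.range le_rfl).MD a (d.1, d.2.1, ⟨d.2.2, Cover.Mono.mem_range hd⟩) :=
  Cover.Mono.restr hd c.ι.range le_rfl

theorem new1 (θ : F →+* k) (a : Fin 6 → k) (ha : Function.Injective a) (n : Fin 6 → ℕ)
    (hn : ∀ i, n i < Fintype.card F - 1) (h1 : Fintype.card F ≤ ∑ i, n i)
    (h2 : ∑ i, n i ≤ 2 * (Fintype.card F - 1))
    (hκ : (∏ j, (X - C (a j)) ^ n j : k[X]).coeff (Fintype.card F - 1) ≠ 0) (N : Fin 7 → ℤ)
    (hN : ∀ i : Fin 6, N i.castSucc = n i) (hN6 : N 6 = -((∑ i, n i : ℕ) : ℤ)) :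
    NewCov θ (A1 a) N := by
  intro G _ _ d hA
  obtain ⟨c1, hT, hr, hd, hd6⟩ := hA
  obtain ⟨r1, r2, r3, r4⟩ := rootMultiplicity_prod_X_sub_C a ha n
  generalize (∏ j, (X - C (a j)) ^ n j : k[X]) = f at hκ r1 r2 r3 r4
  have hm : ∀ x : k, f.rootMultiplicity x < Fintype.card F - 1 := by
    intro x
    by_cases hx : x ∈ Set.range a
    · obtain ⟨i, rfl⟩ := hx
      rw [r1 i]
      exact hn i
    · rw [r2 x hx]
      exact lt_of_le_of_lt (Nat.zero_le _) (hn 0)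
  obtain ⟨c2, hc2, hnf⟩ := exists_affLab_noFix θ f r4 (r3 ▸ h1) (r3 ▸ h2) hκ hm
  obtain ⟨c, hg, hnf'⟩ := exists_good θ c1 c2 f hc2
  have hcT : c.Tame (S7 a) := by
    refine hg.tame hT fun x hx => ?_
    induction x using OnePoint.rec with
    | infty => exact absurd (Set.mem_insert _ _) hx
    | coe y =>
      have hy : y ∉ Set.range a := by
        rintro ⟨i, rfl⟩
        exact hx (Set.mem_insert_of_mem _ ⟨i, rfl⟩)
      have : labAt f (y : OnePoint k) = 0 := by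
        show ((f.rootMultiplicity y : ℕ) : ℤ) = 0
        rw [r2 y hy]
        rfl
      rw [this]
  let pt : Fin 7 → OnePoint k := Fin.lastCases ∞ fun i => (a i : OnePoint k)
  have hp1 : ∀ i : Fin 6, pt i.castSucc = (a i : OnePoint k) := fun i => by
    simp only [pt, Fin.lastCases_castSucc]
  have hp6 : pt 6 = ∞ := Fin.lastCases_last
  have hall : ∀ i, c1.MD (pt i) (d i) ∧ labAt f (pt i) = N i := by
    intro i
    refine Fin.lastCases ?_ (fun j => ?_) i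
    · change c1.MD (pt 6) (d 6) ∧ labAt f (pt 6) = N 6
      rw [hp6, hN6]
      refine ⟨hd6, ?_⟩
      show -((f.natDegree : ℕ) : ℤ) = _
      rw [r3]
    · rw [hp1, hN]
      refine ⟨hd j, ?_⟩
      show ((f.rootMultiplicity (a j) : ℕ) : ℤ) = _
      rw [r1]
  choose d' hd1 hd2 hd3 using fun i => hg.md (hall i).1
  refine ⟨c.ι.range, inferInstance, inferInstance,
    (MonoidHom.fst G (Aff F)).comp c.ι.range.subtype,
    (MonoidHom.snd G (Aff F)).comp c.ι.range.subtype,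
    fun i => ((d' i).1, (d' i).2.1, ⟨(d' i).2.2, Cover.Mono.mem_range (hd1 i)⟩),
    ⟨c.restr c.ι.range le_rfl, hcT.restr _ _, ?_, fun i => ?_, ?_⟩, ?_, ?_, ?_⟩
  · rw [Cover.restr_range, Subgroup.subgroupOf_self]
  · rw [← hp1]
    exact md_restr_New1 (hd1 i.castSucc)
  · rw [← hp6]
    exact md_restr_New1 (hd1 6)
  · intro g
    have hmem : g ∈ c.ι.range.map (MonoidHom.fst G (Aff F)) := by
      rw [hg.1, hr]
      exact Subgroup.mem_top g
    obtain ⟨x, hx, rfl⟩ := hmem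
    exact ⟨⟨x, hx⟩, rfl⟩
  · rw [MonoidHom.range_comp, Subgroup.range_subtype]
    exact hnf' hnf
  · intro χ hχ i
    rw [← (hall i).2]
    refine hd3 i χ ?_
    rw [← hd2 i]
    exact DFunLike.congr_fun hχ ⟨(d' i).2.2, Cover.Mono.mem_range (hd1 i)⟩

end Pool.Agent.Adm

end

section

/-! Affine quotients of the lower curve of each step have a fixed point. -/

namespace Pool.Agent.Adm

open scoped OnePoint
open Polynomial

variable {k F : Type} [Field k] [IsAlgClosed k] [Field F] [Fintype F]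

theorem fix1 (θ : F →+* k) (a : Fin 6 → k) (ha : Function.Injective a) (n : Fin 6 → ℕ)
    (h2 : ∑ i, n i ≤ 2 * (Fintype.card F - 1))
    (hκ : (∏ j, (X - C (a j)) ^ n j : k[X]).coeff (Fintype.card F - 1) = 0) (N : Fin 7 → ℤ)
    (hN : ∀ i : Fin 6, N i.castSucc = n i) : AllFix θ (A1 a) N := by
  intro G _ d ψ hA hl
  obtain ⟨c, hT, htop, hd, -⟩ := hA
  have h := (c.vertex θ ψ a ha n (S7 a) hT ?_ ?_).2.1 (Or.inr ⟨h2, hκ⟩)
  · rwa [htop, ← MonoidHom.range_eq_map] at h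
  · intro x hx
    rcases hx with hx | ⟨i, hi⟩
    · exact absurd hx (OnePoint.coe_ne_infty x)
    · exact ⟨i, OnePoint.coe_injective hi⟩
  · intro i
    refine ⟨_, _, _, hd i, ?_⟩
    have := hl i.castSucc
    rw [hN i] at this
    exact this

/-- One component with special points 0, 1, infinity. -/
theorem vertex2_Fix5 {G : Type} [Group G] (c : Cover k G) (θ : F →+* k) (ψ : G →* Aff F)
    (n0 n1 : ℕ) (hT : c.Tame (S3 k))
    (h0 : ∃ e ζ g, c.Mono ((0 : k) : OnePoint k) e ζ g ∧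
      Lab (Fintype.card F - 1) e ζ (θ (ψ g).u) (n0 : ℤ))
    (h1 : ∃ e ζ g, c.Mono ((1 : k) : OnePoint k) e ζ g ∧
      Lab (Fintype.card F - 1) e ζ (θ (ψ g).u) (n1 : ℤ)) :
    (∀ e ζ g, c.Mono ∞ e ζ g →
      Lab (Fintype.card F - 1) e ζ⁻¹ (θ (ψ g).u) ((n0 : ℤ) + n1)) ∧
    ((n0 + n1 ≤ Fintype.card F - 1 ∨ (n0 + n1 = Fintype.card F ∧ (n1 : k) = 0)) →
        Aff.HasFix (c.ι.range.map ψ)) ∧
    (n0 + n1 = 0 → c.ι.range.map ψ = ⊥) := by
  have ha : Function.Injective (![0, 1] : Fin 2 → k) := by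
    intro i j hij
    fin_cases i <;> fin_cases j <;> simp_all
  have hs : ∑ i, (![n0, n1] : Fin 2 → ℕ) i = n0 + n1 := by simp [Fin.sum_univ_two]
  have hv := c.vertex θ ψ ![0, 1] ha ![n0, n1] (S3 k) hT ?_ ?_
  · rw [hs] at hv
    refine ⟨fun e ζ g hm => ?_, fun h => hv.2.1 ?_, hv.2.2⟩
    · have := (hv.1 e ζ g hm).inv
      rw [neg_neg] at this
      exact_mod_cast this
    · rcases h with h | ⟨h, hk⟩
      · exact Or.inl h
      · have hq : 1 < Fintype.card F := Fintype.one_lt_card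
        refine Or.inr ⟨by omega, ?_⟩
        rw [coeff_prod_pred _ _ _ (by rw [hs]; omega)]
        simp [Fin.sum_univ_two, hk]
  · intro x hx
    rcases hx with hx | hx | hx
    · exact ⟨0, (OnePoint.coe_injective hx).symm⟩
    · exact ⟨1, (OnePoint.coe_injective hx).symm⟩
    · exact absurd hx (OnePoint.coe_ne_infty x)
  · intro i
    fin_cases i
    · exact h0
    · exact h1

omit [IsAlgClosed k] [Fintype F] in
/-- An inertia generator with a nonzero label has nontrivial linear part. -/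
theorem u_ne_one_Fix5 {G : Type} [Group G] {c : Cover k G} {a : OnePoint k} {e : ℕ} {ζ : k}
    {g : G} (hm : c.Mono a e ζ g) (θ : F →+* k) (u : Fˣ) {m : ℕ} {n : ℤ}
    (h : Lab m e ζ (θ u) n) (h0 : 0 < n) (h1 : n < m) : u ≠ 1 := by
  rintro rfl
  rw [Units.val_one, map_one] at h
  have h2 := Lab.unique hm.1 hm.2.1 (lab_one m e ζ) h
  rw [Int.modEq_iff_dvd, sub_zero] at h2
  have := Int.le_of_dvd h0 h2
  omega

theorem fix5 (θ : F →+* k) (p : ℕ) (hp : p.Prime) (hF : Fintype.card F = p ^ 2) :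
    AllFix θ (A5 k) ![(p : ℤ) ^ 2 - p - 1, 1, p, -1, 0, 0, 0] := by
  intro G _ d ψ hA hl
  obtain ⟨c1, c2, c3, c4, c5, t1, t2, t3, t4, t5, ⟨e1, ζ1, g1, m1, m1'⟩, ⟨e2, ζ2, g2, m2, m2'⟩,
    ⟨e3, ζ3, g3, m3, m3'⟩, ⟨e4, ζ4, g4, m4, m4'⟩, htop, d0, d1, d2, d3, d4, d5, -⟩ := hA
  have hp2 : 2 ≤ p := hp.two_le
  have hpp : 2 * p ≤ p ^ 2 := by nlinarith
  have hpk : (p : k) = 0 := by
    have := card_cast_eq_zero θ
    rw [hF, Nat.cast_pow] at this
    exact pow_eq_zero_iff (two_ne_zero) |>.1 this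
  obtain ⟨r, hr⟩ : ∃ r : ℕ, p ^ 2 = r + p + 1 := ⟨p ^ 2 - p - 1, by omega⟩
  have hrz : (p : ℤ) ^ 2 = r + p + 1 := by exact_mod_cast hr
  have hm : Fintype.card F - 1 = r + p := by omega
  have l0 : Lab (Fintype.card F - 1) (d 0).1 (d 0).2.1 (θ (ψ (d 0).2.2).u) (r : ℤ) := by
    have := hl 0
    have e0 : (![(p : ℤ) ^ 2 - p - 1, 1, p, -1, 0, 0, 0] : Fin 7 → ℤ) 0 = r := by
      show (p : ℤ) ^ 2 - p - 1 = r
      omega
    rw [e0] at this
    exact this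
  have l1 : Lab (Fintype.card F - 1) (d 1).1 (d 1).2.1 (θ (ψ (d 1).2.2).u) ((1 : ℕ) : ℤ) := hl 1
  have l2 : Lab (Fintype.card F - 1) (d 2).1 (d 2).2.1 (θ (ψ (d 2).2.2).u) (p : ℤ) := hl 2
  have l3 : Lab (Fintype.card F - 1) (d 3).1 (d 3).2.1 (θ (ψ (d 3).2.2).u) (-1 : ℤ) := hl 3
  have l4 : Lab (Fintype.card F - 1) (d 4).1 (d 4).2.1 (θ (ψ (d 4).2.2).u) ((0 : ℕ) : ℤ) := hl 4
  have l5 : Lab (Fintype.card F - 1) (d 5).1 (d 5).2.1 (θ (ψ (d 5).2.2).u) ((0 : ℕ) : ℤ) := hl 5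
  obtain ⟨s, hs⟩ : ∃ s : ℕ, r + p = s + 1 := ⟨r + p - 1, by omega⟩
  have l3' : Lab (Fintype.card F - 1) (d 3).1 (d 3).2.1 (θ (ψ (d 3).2.2).u) (s : ℤ) := by
    refine l3.congr ?_
    rw [Int.modEq_iff_dvd, hm]
    exact ⟨1, by push_cast; omega⟩
  have v1 := vertex2_Fix5 c1 θ ψ r 1 t1 ⟨_, _, _, d0, l0⟩ ⟨_, _, _, d1, l1⟩
  have k1 : Lab (Fintype.card F - 1) e1 ζ1⁻¹ (θ (ψ g1).u) ((r + 1 : ℕ) : ℤ) := by
    exact_mod_cast v1.1 _ _ _ m1
  have v2 := vertex2_Fix5 c2 θ ψ (r + 1) p t2 ⟨_, _, _, m1', k1⟩ ⟨_, _, _, d2, l2⟩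
  have k2 : Lab (Fintype.card F - 1) e2 ζ2⁻¹ (θ (ψ g2).u) ((1 : ℕ) : ℤ) := by
    refine (v2.1 _ _ _ m2).congr ?_
    rw [Int.modEq_iff_dvd, hm]
    exact ⟨-1, by push_cast; omega⟩
  have v3 := vertex2_Fix5 c3 θ ψ 1 s t3 ⟨_, _, _, m2', k2⟩ ⟨_, _, _, d3, l3'⟩
  have k3 : Lab (Fintype.card F - 1) e3 ζ3⁻¹ (θ (ψ g3).u) ((0 : ℕ) : ℤ) := by
    refine (v3.1 _ _ _ m3).congr ?_
    rw [Int.modEq_iff_dvd, hm]
    exact ⟨-1, by push_cast; omega⟩
  have v4 := vertex2_Fix5 c4 θ ψ 0 0 t4 ⟨_, _, _, m3', k3⟩ ⟨_, _, _, d4, l4⟩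
  have k4 : Lab (Fintype.card F - 1) e4 ζ4⁻¹ (θ (ψ g4).u) ((0 : ℕ) : ℤ) := by
    exact_mod_cast v4.1 _ _ _ m4
  have v5 := vertex2_Fix5 c5 θ ψ 0 0 t5 ⟨_, _, _, m4', k4⟩ ⟨_, _, _, d5, l5⟩
  have f1 := v1.2.1 (Or.inl (by omega))
  have f2 := v2.2.1 (Or.inr ⟨by omega, hpk⟩)
  have f3 := v3.2.1 (Or.inl (by omega))
  have u1 : (ψ g1).u ≠ 1 := u_ne_one_Fix5 m1' θ _ k1 (by omega) (by omega)
  have u2 : (ψ g2).u ≠ 1 := u_ne_one_Fix5 m2' θ _ k2 (by omega) (by omega)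
  have f12 := f1.sup f2 (ψ g1) (Subgroup.mem_map_of_mem ψ m1.mem_range)
    (Subgroup.mem_map_of_mem ψ m1'.mem_range) u1
  have f123 := f12.sup f3 (ψ g2)
    (Subgroup.mem_sup_right (Subgroup.mem_map_of_mem ψ m2.mem_range))
    (Subgroup.mem_map_of_mem ψ m2'.mem_range) u2
  rw [MonoidHom.range_eq_map, ← htop, Subgroup.map_sup, Subgroup.map_sup, Subgroup.map_sup,
    Subgroup.map_sup, v4.2.2 rfl, v5.2.2 rfl, sup_bot_eq, sup_bot_eq]
  exact f123

end Pool.Agent.Adm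

end

section

/-! The three smooth steps of the chain. -/

namespace Pool.Agent.Adm

open Polynomial

variable {k F : Type} [Field k] [Field F] [Fintype F]

theorem update_injective {k' : Type} [Field k'] (φ : k →+* k') (a : Fin 6 → k)
    (ha : Function.Injective a) (i0 : Fin 6) (t : k') (ht : t ∉ Set.range φ) :
    Function.Injective (Function.update (fun i => φ (a i)) i0 (φ (a i0) + t)) := by
  have key : ∀ j, φ (a i0) + t ≠ φ (a j) := fun j h =>
    ht ⟨a j - a i0, by rw [map_sub, ← h]; ring⟩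
  intro i j hij
  by_cases hi : i = i0 <;> by_cases hj : j = i0
  · rw [hi, hj]
  · subst hi
    rw [Function.update_self, Function.update_of_ne hj] at hij
    exact absurd hij (key j)
  · subst hj
    rw [Function.update_self, Function.update_of_ne hi] at hij
    exact absurd hij.symm (key i)
  · rw [Function.update_of_ne hi, Function.update_of_ne hj] at hij
    exact ha (φ.injective hij)

theorem charP_of_card (θ : F →+* k) (p : ℕ) (hp : p.Prime) (hF : Fintype.card F = p ^ 2) :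
    CharP k p := by
  have h := card_cast_eq_zero θ
  rw [hF, Nat.cast_pow] at h
  have h0 : (p : k) = 0 := pow_eq_zero_iff (two_ne_zero) |>.1 h
  haveI := Fact.mk hp
  exact (CharP.charP_iff_prime_eq_zero hp).2 h0

variable [IsAlgClosed k]

theorem new32 (θ : F →+* k) (p : ℕ) (hp : p.Prime) (hF : Fintype.card F = p ^ 2)
    (a : Fin 6 → k) (ha : Function.Injective a) (h0 : a 0 = 0) (h3 : a 3 = 1) :
    NewCov θ (A1 a) ![(p : ℤ) ^ 2 - p - 1, 0, 1, p, 0, 0, -(p : ℤ) ^ 2] := by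
  haveI := charP_of_card θ p hp hF
  have h2 := hp.two_le
  have hpp : p + 2 ≤ p ^ 2 := by nlinarith
  have hs : ∑ i, (![p ^ 2 - p - 1, 0, 1, p, 0, 0] : Fin 6 → ℕ) i = p ^ 2 := by
    simp [Fin.sum_univ_six]; omega
  refine new1 θ a ha ![p ^ 2 - p - 1, 0, 1, p, 0, 0] ?_ ?_ ?_ ?_ _ ?_ ?_
  · intro i; rw [hF]; fin_cases i <;> simp <;> omega
  · rw [hs, hF]
  · rw [hs, hF]; omega
  · rw [hF, coeff_prod_pred a _ (p ^ 2 - 1) (by rw [hs]; omega)]
    have : a 2 ≠ 0 := fun h => by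
      have := ha (h.trans h0.symm)
      exact absurd this (by decide)
    simpa [Fin.sum_univ_six, h0, h3] using this
  · intro i
    fin_cases i <;> simp
    rw [Nat.sub_sub, Nat.cast_sub (by omega)]; push_cast; ring
  · rw [hs]; simp

omit [IsAlgClosed k] in
theorem sum_erase3 (g : Fin 6 → k) :
    ∑ i ∈ Finset.univ.erase (3 : Fin 6), g i = g 0 + g 1 + g 2 + g 4 + g 5 := by
  rw [← add_left_inj (g 3), Finset.sum_erase_add _ _ (Finset.mem_univ _), Fin.sum_univ_six]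
  ring

theorem sum_erase3' (g : Fin 6 → ℕ) :
    ∑ i ∈ Finset.univ.erase (3 : Fin 6), g i = g 0 + g 1 + g 2 + g 4 + g 5 := by
  rw [← add_left_inj (g 3), Finset.sum_erase_add _ _ (Finset.mem_univ _), Fin.sum_univ_six]
  ring

/-- Labels of the first relation. -/
def n21 (p : ℕ) : Fin 6 → ℕ := ![(p - 1) ^ 2, 0, p - 1, p ^ 2 - 2, 0, p - 1]

/-- Labels of the second relation. -/
def n10 (p : ℕ) : Fin 6 → ℕ := ![0, p - 1, (p - 1) ^ 2, p ^ 2 - 2, p - 1, 1]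

/-- Extension of the labels to the point at infinity. -/
def ext7 (n : Fin 6 → ℕ) : Fin 7 → ℤ := Fin.snoc (fun i => (n i : ℤ)) (-((∑ i, n i : ℕ) : ℤ))

theorem ext7_castSucc (n : Fin 6 → ℕ) (i : Fin 6) : ext7 n i.castSucc = n i := by
  simp [ext7]

theorem ext7_last (n : Fin 6 → ℕ) : ext7 n 6 = -((∑ i, n i : ℕ) : ℤ) :=
  Fin.snoc_last (α := fun _ => ℤ) _ _

omit [IsAlgClosed k] in
theorem kappa21 (p : ℕ) [Fact p.Prime] [CharP k p] (a : Fin 6 → k) (ha : Function.Injective a)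
    (h3 : a 3 = 1) :
    (∏ j, (X - C (a j)) ^ n21 p j : k[X]).coeff (p ^ 2 - 1) = 0 ↔
      1 / (1 - a 0) - 1 / (1 - a 2) - 1 / (1 - a 5) = 0 := by
  have h2 := (Fact.out : p.Prime).two_le
  obtain ⟨r, rfl⟩ : ∃ r, p = r + 1 := ⟨p - 1, by omega⟩
  have hr : (r : k) = -1 := by
    have := CharP.cast_eq_zero k (r + 1)
    push_cast at this
    linear_combination this
  rw [coeff_prod_one (r + 1) 2 two_pos a ha (n21 (r + 1)) 3 h3 (by simp [n21])
    (by rw [sum_erase3']; simp [n21]; nlinarith), sum_erase3]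
  simp only [n21, Nat.add_sub_cancel]
  simp [hr]
  constructor <;> intro h <;> linear_combination h

omit [IsAlgClosed k] in
theorem kappa10 (p : ℕ) [Fact p.Prime] [CharP k p] (a : Fin 6 → k) (ha : Function.Injective a)
    (h3 : a 3 = 1) :
    (∏ j, (X - C (a j)) ^ n10 p j : k[X]).coeff (p ^ 2 - 1) = 0 ↔
      1 / (1 - a 2) + 1 / (1 - a 5) - 1 / (1 - a 1) - 1 / (1 - a 4) = 0 := by
  have h2 := (Fact.out : p.Prime).two_le
  obtain ⟨r, rfl⟩ : ∃ r, p = r + 1 := ⟨p - 1, by omega⟩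
  have hr : (r : k) = -1 := by
    have := CharP.cast_eq_zero k (r + 1)
    push_cast at this
    linear_combination this
  rw [coeff_prod_one (r + 1) 2 two_pos a ha (n10 (r + 1)) 3 h3 (by simp [n10])
    (by rw [sum_erase3']; simp [n10]; nlinarith), sum_erase3]
  simp only [n10, Nat.add_sub_cancel]
  simp [hr]
  constructor <;> intro h <;> linear_combination h

theorem sum_n21 (p : ℕ) (h2 : 2 ≤ p) : ∑ i, n21 p i = 2 * (p ^ 2 - 1) - 1 := by
  obtain ⟨r, rfl⟩ : ∃ r, p = r + 2 := ⟨p - 2, by omega⟩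
  have e1 : (r + 2) ^ 2 = r * r + 4 * r + 4 := by ring
  have e2 : (r + 2 - 1) ^ 2 = r * r + 2 * r + 1 := by
    rw [show r + 2 - 1 = r + 1 from rfl]; ring
  simp only [n21, Fin.sum_univ_six, e1, e2]
  simp
  omega

theorem sum_n10 (p : ℕ) (h2 : 2 ≤ p) : ∑ i, n10 p i = 2 * (p ^ 2 - 1) := by
  obtain ⟨r, rfl⟩ : ∃ r, p = r + 2 := ⟨p - 2, by omega⟩
  have e1 : (r + 2) ^ 2 = r * r + 4 * r + 4 := by ring
  have e2 : (r + 2 - 1) ^ 2 = r * r + 2 * r + 1 := by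
    rw [show r + 2 - 1 = r + 1 from rfl]; ring
  simp only [n10, Fin.sum_univ_six, e1, e2]
  simp
  omega

theorem n21_lt (p : ℕ) (h2 : 2 ≤ p) (i : Fin 6) : n21 p i < p ^ 2 - 1 := by
  obtain ⟨r, rfl⟩ : ∃ r, p = r + 2 := ⟨p - 2, by omega⟩
  have e1 : (r + 2) ^ 2 = r * r + 4 * r + 4 := by ring
  have e2 : (r + 2 - 1) ^ 2 = r * r + 2 * r + 1 := by
    rw [show r + 2 - 1 = r + 1 from rfl]; ring
  fin_cases i <;> simp only [n21, e1, e2] <;> simp <;> omega

theorem n10_lt (p : ℕ) (h2 : 2 ≤ p) (i : Fin 6) : n10 p i < p ^ 2 - 1 := by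
  obtain ⟨r, rfl⟩ : ∃ r, p = r + 2 := ⟨p - 2, by omega⟩
  have e1 : (r + 2) ^ 2 = r * r + 4 * r + 4 := by ring
  have e2 : (r + 2 - 1) ^ 2 = r * r + 2 * r + 1 := by
    rw [show r + 2 - 1 = r + 1 from rfl]; ring
  fin_cases i <;> simp only [n10, e1, e2] <;> simp <;> omega

theorem fix21 (θ : F →+* k) (p : ℕ) (hp : p.Prime) (hF : Fintype.card F = p ^ 2)
    (a : Fin 6 → k) (ha : Function.Injective a) (h3 : a 3 = 1)
    (h : 1 / (1 - a 0) - 1 / (1 - a 2) - 1 / (1 - a 5) = 0) : AllFix θ (A1 a) (ext7 (n21 p)) := by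
  haveI := charP_of_card θ p hp hF
  haveI := Fact.mk hp
  refine fix1 θ a ha (n21 p) ?_ ?_ _ (ext7_castSucc _)
  · rw [sum_n21 p hp.two_le, hF]; omega
  · rw [hF]; exact (kappa21 p a ha h3).2 h

theorem new21 (θ : F →+* k) (p : ℕ) (hp : p.Prime) (hF : Fintype.card F = p ^ 2)
    (a : Fin 6 → k) (ha : Function.Injective a) (h3 : a 3 = 1)
    (h : 1 / (1 - a 0) - 1 / (1 - a 2) - 1 / (1 - a 5) ≠ 0) : NewCov θ (A1 a) (ext7 (n21 p)) := by
  haveI := charP_of_card θ p hp hF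
  haveI := Fact.mk hp
  have h2 := hp.two_le
  have hpp : 4 ≤ p ^ 2 := by nlinarith
  refine new1 θ a ha (n21 p) ?_ ?_ ?_ ?_ _ (ext7_castSucc _) (ext7_last _)
  · intro i; rw [hF]; exact n21_lt p h2 i
  · rw [sum_n21 p h2, hF]; omega
  · rw [sum_n21 p h2, hF]; omega
  · rw [hF]; exact fun h' => h ((kappa21 p a ha h3).1 h')

theorem fix10 (θ : F →+* k) (p : ℕ) (hp : p.Prime) (hF : Fintype.card F = p ^ 2)
    (a : Fin 6 → k) (ha : Function.Injective a) (h3 : a 3 = 1)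
    (h : 1 / (1 - a 2) + 1 / (1 - a 5) - 1 / (1 - a 1) - 1 / (1 - a 4) = 0) :
    AllFix θ (A1 a) (ext7 (n10 p)) := by
  haveI := charP_of_card θ p hp hF
  haveI := Fact.mk hp
  refine fix1 θ a ha (n10 p) ?_ ?_ _ (ext7_castSucc _)
  · rw [sum_n10 p hp.two_le, hF]
  · rw [hF]; exact (kappa10 p a ha h3).2 h

theorem new10 (θ : F →+* k) (p : ℕ) (hp : p.Prime) (hF : Fintype.card F = p ^ 2)
    (a : Fin 6 → k) (ha : Function.Injective a) (h3 : a 3 = 1)
    (h : 1 / (1 - a 2) + 1 / (1 - a 5) - 1 / (1 - a 1) - 1 / (1 - a 4) ≠ 0) :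
    NewCov θ (A1 a) (ext7 (n10 p)) := by
  haveI := charP_of_card θ p hp hF
  haveI := Fact.mk hp
  have h2 := hp.two_le
  have hpp : 4 ≤ p ^ 2 := by nlinarith
  refine new1 θ a ha (n10 p) ?_ ?_ ?_ ?_ _ (ext7_castSucc _) (ext7_last _)
  · intro i; rw [hF]; exact n10_lt p h2 i
  · rw [sum_n10 p h2, hF]; omega
  · rw [sum_n10 p h2, hF]
  · rw [hF]; exact fun h' => h ((kappa10 p a ha h3).1 h')

end Pool.Agent.Adm

end

section

/-! Chains of projective lines as stable curves. -/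

namespace Pool.Agent.Adm

open scoped OnePoint

variable {k : Type} [Field k] [IsAlgClosed k] {p : ℕ} [CharP k p]

theorem isTree_Path (r : ℕ) : (SimpleGraph.pathGraph (r + 1)).IsTree := by
  refine ⟨SimpleGraph.pathGraph_connected r, ?_⟩
  have key : ∀ v w : Fin (r + 1), v.val + 1 = w.val →
      ¬ ((SimpleGraph.pathGraph (r + 1)).deleteEdges {s(v, w)}).Reachable v w := by
    intro v w hvw h
    have h2 : ∀ a b : Fin (r + 1),
        ((SimpleGraph.pathGraph (r + 1)).deleteEdges {s(v, w)}).Reachable a b →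
        a.val ≤ v.val → b.val ≤ v.val := by
      rintro a b ⟨p⟩
      induction p with
      | nil => exact id
      | @cons a c b hac p ih =>
        intro ha
        apply ih
        rw [SimpleGraph.deleteEdges_adj, SimpleGraph.pathGraph_adj, Set.mem_singleton_iff] at hac
        by_contra hc
        apply hac.2
        have e1 : a = v := Fin.ext (by omega)
        have e2 : c = w := Fin.ext (by omega)
        rw [e1, e2]
    have := h2 v w h le_rfl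
    omega
  rw [SimpleGraph.isAcyclic_iff_forall_adj_isBridge]
  intro v w h
  rcases SimpleGraph.pathGraph_adj.1 h with h | h
  · exact key v w h
  · rw [Sym2.eq_swap]
    exact key w v h

/-- The nodes of the chain. -/
def node_Path (k : Type) [Zero k] {r : ℕ} (v w : Fin (r + 1)) : OnePoint k :=
  if v < w then ∞ else ((0 : k) : OnePoint k)

theorem node_iff_Path {k : Type} [Zero k] {r : ℕ} (v : Fin (r + 1)) (a : OnePoint k) :
    (∃ w, (SimpleGraph.pathGraph (r + 1)).Adj v w ∧ node_Path k v w = a) ↔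
      (a = ((0 : k) : OnePoint k) ∧ v ≠ 0) ∨ (a = ∞ ∧ v ≠ Fin.last r) := by
  have hv := v.2
  constructor
  · rintro ⟨w, hw, rfl⟩
    have hw2 := w.2
    rcases SimpleGraph.pathGraph_adj.1 hw with h | h
    · refine Or.inr ⟨if_pos (by rw [Fin.lt_def]; omega), ?_⟩
      rintro rfl
      simp only [Fin.val_last] at h
      omega
    · refine Or.inl ⟨if_neg (by rw [Fin.lt_def]; omega), ?_⟩
      rintro rfl
      simp at h
  · rintro (⟨rfl, h⟩ | ⟨rfl, h⟩)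
    · have h1 : v.val ≠ 0 := fun e => h (Fin.ext e)
      refine ⟨⟨v.val - 1, by omega⟩, SimpleGraph.pathGraph_adj.2 (Or.inr (by simp; omega)), ?_⟩
      exact if_neg (by rw [Fin.lt_def]; simp)
    · have h1 : v.val ≠ r := fun e => h (Fin.ext e)
      refine ⟨⟨v.val + 1, by omega⟩, SimpleGraph.pathGraph_adj.2 (Or.inl rfl), ?_⟩
      exact if_pos (by rw [Fin.lt_def]; simp)

theorem stable_Path {k : Type} [Zero k] {r n : ℕ} (comp : Fin n → Fin (r + 1))
    (mark : Fin n → OnePoint k)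
    (hinj : ∀ i j, comp i = comp j → mark i = mark j → i = j)
    (h0 : ∀ i, comp i ≠ 0 → mark i ≠ ((0 : k) : OnePoint k))
    (hinf : ∀ i, comp i ≠ Fin.last r → mark i ≠ ∞) (v : Fin (r + 1)) :
    {a | (∃ w, (SimpleGraph.pathGraph (r + 1)).Adj v w ∧ node_Path k v w = a) ∨
      ∃ i, comp i = v ∧ mark i = a}.ncard = (Finset.univ.filter fun i => comp i = v).card +
      (if v = 0 then 0 else 1) + (if v = Fin.last r then 0 else 1) := by
  classical
  obtain ⟨M, hM⟩ : ∃ M, M = (Finset.univ.filter fun i => comp i = v).image mark := ⟨_, rfl⟩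
  have hc : M.card = (Finset.univ.filter fun i => comp i = v).card := by
    rw [hM]
    apply Finset.card_image_of_injOn
    intro i hi j hj e
    simp only [Finset.coe_filter, Finset.mem_univ, true_and, Set.mem_ofPred_eq] at hi hj
    exact hinj i j (hi.trans hj.symm) e
  have hm : ∀ a, a ∈ M ↔ ∃ i, comp i = v ∧ mark i = a := by
    intro a
    simp [hM]
  have m0 : v ≠ 0 → ((0 : k) : OnePoint k) ∉ M := fun hv h => by
    obtain ⟨i, h1, h2⟩ := (hm _).1 h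
    exact h0 i (h1 ▸ hv) h2
  have m1 : v ≠ Fin.last r → (∞ : OnePoint k) ∉ M := fun hv h => by
    obtain ⟨i, h1, h2⟩ := (hm _).1 h
    exact hinf i (h1 ▸ hv) h2
  simp only [node_iff_Path, ← hm]
  rw [← hc]
  by_cases a0 : v = 0 <;> by_cases a1 : v = Fin.last r
  · rw [if_pos a0, if_pos a1, add_zero, ← Set.ncard_coe_finset]
    congr 1
    ext a
    simp [a0, ← a1]
  · rw [if_pos a0, if_neg a1, add_zero, ← Finset.card_insert_of_notMem (m1 a1),
      ← Set.ncard_coe_finset]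
    congr 1
    ext a
    simp only [Set.mem_ofPred_eq, Finset.coe_insert, Set.mem_insert_iff, Finset.mem_coe]
    tauto
  · rw [if_neg a0, if_pos a1, add_zero, ← Finset.card_insert_of_notMem (m0 a0),
      ← Set.ncard_coe_finset]
    congr 1
    ext a
    simp only [Set.mem_ofPred_eq, Finset.coe_insert, Set.mem_insert_iff, Finset.mem_coe]
    tauto
  · have h3 : (∞ : OnePoint k) ∉ insert ((0 : k) : OnePoint k) M := by
      rw [Finset.mem_insert]
      rintro (h | h)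
      · exact OnePoint.infty_ne_coe _ h
      · exact m1 a1 h
    rw [if_neg a0, if_neg a1, ← Finset.card_insert_of_notMem (m0 a0),
      ← Finset.card_insert_of_notMem h3, ← Set.ncard_coe_finset]
    congr 1
    ext a
    simp only [Set.mem_ofPred_eq, Finset.coe_insert, Set.mem_insert_iff, Finset.mem_coe]
    tauto

theorem exists_pathCurve (r n : ℕ) (comp : Fin n → Fin (r + 1)) (mark : Fin n → OnePoint k)
    (hinj : ∀ i j, comp i = comp j → mark i = mark j → i = j)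
    (h0 : ∀ i, comp i ≠ 0 → mark i ≠ ((0 : k) : OnePoint k))
    (hinf : ∀ i, comp i ≠ Fin.last r → mark i ≠ ∞)
    (hst : ∀ v : Fin (r + 1), 3 ≤ (Finset.univ.filter fun i => comp i = v).card +
      (if v = 0 then 0 else 1) + (if v = Fin.last r then 0 else 1)) :
    ∃ X : StableCurve p n, ∀ (G : Type) [Group G], X.HasCover G ↔
      ∃ c : Fin (r + 1) → Cover k G,
        (∀ v, (c v).Tame {a | (a = ((0 : k) : OnePoint k) ∧ v ≠ 0) ∨ (a = ∞ ∧ v ≠ Fin.last r) ∨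
          ∃ i, comp i = v ∧ mark i = a}) ∧
        (∀ v : Fin r, Glue (c v.castSucc) (c v.succ)) ∧ ⨆ v, (c v).ι.range = ⊤ := by
  let X : StableCurve p n :=
    { k := k
      V := Fin (r + 1)
      T := SimpleGraph.pathGraph (r + 1)
      tree := isTree_Path r
      node := node_Path k
      comp := comp
      mark := mark
      node_inj := by
        intro v w w' h h' e
        rw [SimpleGraph.pathGraph_adj] at h h'
        unfold node_Path at e
        simp only [Fin.lt_def] at e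
        split_ifs at e with a b b
        · exact Fin.ext (by omega)
        · exact absurd e (OnePoint.infty_ne_coe _)
        · exact absurd e (OnePoint.coe_ne_infty _)
        · exact Fin.ext (by omega)
      mark_inj := hinj
      mark_ne_node := by
        intro i w h e
        rcases (node_iff_Path (comp i) (mark i)).1 ⟨w, h, e.symm⟩ with ⟨a, b⟩ | ⟨a, b⟩
        · exact h0 i b a
        · exact hinf i b a
      stable := fun v => by
        rw [stable_Path comp mark hinj h0 hinf v]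
        exact hst v }
  refine ⟨X, fun G _ => exists_congr fun c => and_congr ?_ (and_congr ?_ Iff.rfl)⟩
  · refine forall_congr' fun v => forall_congr' fun a => ?_
    have hs : X.Special v a ↔ (a = ((0 : k) : OnePoint k) ∧ v ≠ 0) ∨ (a = ∞ ∧ v ≠ Fin.last r) ∨
        ∃ i, comp i = v ∧ mark i = a := by
      rw [← or_assoc, ← node_iff_Path]
      rfl
    rw [hs]
    rfl
  · have n1 : ∀ v : Fin r, X.node v.castSucc v.succ = ∞ := fun v => if_pos Fin.castSucc_lt_succ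
    have n2 : ∀ v : Fin r, X.node v.succ v.castSucc = ((0 : k) : OnePoint k) := fun v =>
      if_neg (not_lt.2 Fin.castSucc_lt_succ.le)
    constructor
    · intro h v
      have := h v.castSucc v.succ (SimpleGraph.pathGraph_adj.2 (Or.inl (by simp)))
      rw [n1, n2] at this
      exact this
    · intro h v w hvw
      have hv := v.2
      have hw := w.2
      rcases SimpleGraph.pathGraph_adj.1 hvw with e | e
      · obtain ⟨u, rfl, rfl⟩ : ∃ u : Fin r, v = u.castSucc ∧ w = u.succ :=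
          ⟨⟨v.val, by omega⟩, Fin.ext rfl, Fin.ext e.symm⟩
        rw [n1, n2]
        exact h u
      · obtain ⟨u, rfl, rfl⟩ : ∃ u : Fin r, w = u.castSucc ∧ v = u.succ :=
          ⟨⟨w.val, by omega⟩, Fin.ext rfl, Fin.ext e.symm⟩
        rw [n1, n2]
        obtain ⟨e, ζ, g, h1, h2⟩ := h u
        exact ⟨e, ζ⁻¹, g, h2, by rw [inv_inv]; exact h1⟩

end Pool.Agent.Adm

end

section

/-! The curves of the chain. -/

namespace Pool.Agent.Adm

open scoped OnePoint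

section Aux

variable {k G : Type} [Field k] [Group G]

theorem md_Bridge {c : Cover k G} {S : Set (OnePoint k)} (h : c.Tame S) (a : OnePoint k) :
    ∃ d, c.MD a d := by
  obtain ⟨e, ζ, g, h1, -⟩ := h a
  exact ⟨(e, ζ, g), h1⟩

theorem tame_Bridge {c : Cover k G} {S S' : Set (OnePoint k)} (e : S = S') (h : c.Tame S') :
    c.Tame S := e ▸ h

theorem sup1_Bridge (f : Fin 1 → Subgroup G) : ⨆ v, f v = f 0 := iSup_unique f

theorem sup3_Bridge (f : Fin 3 → Subgroup G) : ⨆ v, f v = f 0 ⊔ f 1 ⊔ f 2 := by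
  refine le_antisymm (iSup_le fun v => ?_) (sup_le (sup_le (le_iSup f _) (le_iSup f _))
    (le_iSup f _))
  fin_cases v
  · exact le_sup_of_le_left le_sup_left
  · exact le_sup_of_le_left le_sup_right
  · exact le_sup_right

theorem sup4_Bridge (f : Fin 4 → Subgroup G) : ⨆ v, f v = f 0 ⊔ f 1 ⊔ f 2 ⊔ f 3 := by
  refine le_antisymm (iSup_le fun v => ?_) (by simp [le_iSup])
  fin_cases v
  · exact le_sup_of_le_left (le_sup_of_le_left le_sup_left)
  · exact le_sup_of_le_left (le_sup_of_le_left le_sup_right)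
  · exact le_sup_of_le_left le_sup_right
  · exact le_sup_right

theorem sup5_Bridge (f : Fin 5 → Subgroup G) : ⨆ v, f v = f 0 ⊔ f 1 ⊔ f 2 ⊔ f 3 ⊔ f 4 := by
  refine le_antisymm (iSup_le fun v => ?_) (by simp [le_iSup])
  fin_cases v
  · exact le_sup_of_le_left (le_sup_of_le_left (le_sup_of_le_left le_sup_left))
  · exact le_sup_of_le_left (le_sup_of_le_left (le_sup_of_le_left le_sup_right))
  · exact le_sup_of_le_left (le_sup_of_le_left le_sup_right)
  · exact le_sup_of_le_left le_sup_right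
  · exact le_sup_right

/-- The special points of a component of a chain. -/
def sp_Bridge (r : ℕ) (comp : Fin 7 → Fin (r + 1)) (mark : Fin 7 → OnePoint k) (v : Fin (r + 1)) :
    Set (OnePoint k) :=
  {a | (a = ((0 : k) : OnePoint k) ∧ v ≠ 0) ∨ (a = ∞ ∧ v ≠ Fin.last r) ∨
    ∃ i, comp i = v ∧ mark i = a}

theorem ex7_Bridge (P : Fin 7 → Prop) :
    (∃ i, P i) ↔ P 0 ∨ P 1 ∨ P 2 ∨ P 3 ∨ P 4 ∨ P 5 ∨ P 6 := by
  simp [Fin.exists_fin_succ]

theorem all7_Bridge (P : Fin 7 → Prop) :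
    (∀ i, P i) ↔ P 0 ∧ P 1 ∧ P 2 ∧ P 3 ∧ P 4 ∧ P 5 ∧ P 6 := by
  simp [Fin.forall_fin_succ]

end Aux

variable {k : Type} [Field k] [IsAlgClosed k] (p : ℕ) [CharP k p]

variable (k) in
theorem exists_curve5 : ∃ X : StableCurve p 7, Describes X (A5 k) := by
  obtain ⟨X, hX⟩ := exists_pathCurve (k := k) (p := p) 4 7 ![0, 0, 1, 2, 3, 4, 4]
    ![((0 : k) : OnePoint k), (1 : k), (1 : k), (1 : k), (1 : k), (1 : k), ∞]
    (by simp [all7_Bridge]) (by simp [all7_Bridge]) (by simp [all7_Bridge, Fin.last]) (by decide)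
  have hS : ∀ v, sp_Bridge 4 ![0, 0, 1, 2, 3, 4, 4]
      ![((0 : k) : OnePoint k), (1 : k), (1 : k), (1 : k), (1 : k), (1 : k), ∞] v = S3 k := by
    intro v
    ext a
    fin_cases v <;> simp [sp_Bridge, S3, ex7_Bridge, Fin.last, eq_comm (b := a)] <;> tauto
  refine ⟨X, fun G _ => (hX G).trans ⟨?_, ?_⟩⟩
  · rintro ⟨c, h1, h2, h3⟩
    have h4 : ∀ v, (c v).Tame (S3 k) := fun v => hS v ▸ h1 v
    choose d hd using fun v => md_Bridge (h4 v)
    rw [sup5_Bridge] at h3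
    exact ⟨![d 0 (0 : k), d 0 (1 : k), d 1 (1 : k), d 2 (1 : k), d 3 (1 : k), d 4 (1 : k), d 4 ∞],
      c 0, c 1, c 2, c 3, c 4, h4 0, h4 1, h4 2, h4 3, h4 4, h2 0, h2 1, h2 2, h2 3, h3,
      hd _ _, hd _ _, hd _ _, hd _ _, hd _ _, hd _ _, hd _ _⟩
  · rintro ⟨d, c1, c2, c3, c4, c5, t1, t2, t3, t4, t5, g1, g2, g3, g4, h, -⟩
    refine ⟨![c1, c2, c3, c4, c5], fun v => ?_, fun v => ?_, by rw [sup5_Bridge]; exact h⟩
    · refine tame_Bridge (hS v) ?_
      fin_cases v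
      exacts [t1, t2, t3, t4, t5]
    · fin_cases v
      exacts [g1, g2, g3, g4]

theorem exists_curve4 (s : k) (h0 : s ≠ 0) (h1 : s ≠ 1) :
    ∃ X : StableCurve p 7, Describes X (A4 s) := by
  obtain ⟨X, hX⟩ := exists_pathCurve (k := k) (p := p) 3 7 ![0, 0, 0, 1, 2, 3, 3]
    ![((0 : k) : OnePoint k), (s : k), (1 : k), (1 : k), (1 : k), (1 : k), ∞]
    (by simp [all7_Bridge, h0, h1, h0.symm, h1.symm]) (by simp [all7_Bridge])
    (by simp [all7_Bridge, Fin.last]) (by decide)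
  have hS : ∀ v, sp_Bridge 3 ![0, 0, 0, 1, 2, 3, 3]
      ![((0 : k) : OnePoint k), (s : k), (1 : k), (1 : k), (1 : k), (1 : k), ∞] v =
      ![S4 s, S3 k, S3 k, S3 k] v := by
    intro v
    ext a
    fin_cases v <;> simp [sp_Bridge, S3, S4, ex7_Bridge, Fin.last, eq_comm (b := a)] <;> tauto
  refine ⟨X, fun G _ => (hX G).trans ⟨?_, ?_⟩⟩
  · rintro ⟨c, h1, h2, h3⟩
    have h4 : ∀ v, (c v).Tame (![S4 s, S3 k, S3 k, S3 k] v) := fun v => hS v ▸ h1 v
    choose d hd using fun v => md_Bridge (h4 v)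
    rw [sup4_Bridge] at h3
    exact ⟨![d 0 (0 : k), d 0 (s : k), d 0 (1 : k), d 1 (1 : k), d 2 (1 : k), d 3 (1 : k), d 3 ∞],
      c 0, c 1, c 2, c 3, h4 0, h4 1, h4 2, h4 3, h2 0, h2 1, h2 2, h3,
      hd _ _, hd _ _, hd _ _, hd _ _, hd _ _, hd _ _, hd _ _⟩
  · rintro ⟨d, c1, c2, c3, c4, t1, t2, t3, t4, g1, g2, g3, h, -⟩
    refine ⟨![c1, c2, c3, c4], fun v => ?_, fun v => ?_, by rw [sup4_Bridge]; exact h⟩
    · refine tame_Bridge (hS v) ?_
      fin_cases v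
      exacts [t1, t2, t3, t4]
    · fin_cases v
      exacts [g1, g2, g3]

theorem exists_curve3 (s s' : k) (h0 : s ≠ 0) (h1 : s ≠ 1) (h0' : s' ≠ 0) (h1' : s' ≠ 1) :
    ∃ X : StableCurve p 7, Describes X (A3 s s') := by
  obtain ⟨X, hX⟩ := exists_pathCurve (k := k) (p := p) 2 7 ![0, 0, 0, 1, 2, 2, 2]
    ![((0 : k) : OnePoint k), (s : k), (1 : k), (1 : k), (1 : k), (s' : k), ∞]
    (by simp [all7_Bridge, h0, h1, h0.symm, h1.symm, h1', h1'.symm]) (by simp [all7_Bridge, h0'])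
    (by simp [all7_Bridge, Fin.last]) (by decide)
  have hS : ∀ v, sp_Bridge 2 ![0, 0, 0, 1, 2, 2, 2]
      ![((0 : k) : OnePoint k), (s : k), (1 : k), (1 : k), (1 : k), (s' : k), ∞] v =
      ![S4 s, S3 k, S4 s'] v := by
    intro v
    ext a
    fin_cases v <;> simp [sp_Bridge, S3, S4, ex7_Bridge, Fin.last, eq_comm (b := a)] <;> tauto
  refine ⟨X, fun G _ => (hX G).trans ⟨?_, ?_⟩⟩
  · rintro ⟨c, h1, h2, h3⟩
    have h4 : ∀ v, (c v).Tame (![S4 s, S3 k, S4 s'] v) := fun v => hS v ▸ h1 v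
    choose d hd using fun v => md_Bridge (h4 v)
    rw [sup3_Bridge] at h3
    exact ⟨![d 0 (0 : k), d 0 (s : k), d 0 (1 : k), d 1 (1 : k), d 2 (1 : k), d 2 (s' : k), d 2 ∞],
      c 0, c 1, c 2, h4 0, h4 1, h4 2, h2 0, h2 1, h3,
      hd _ _, hd _ _, hd _ _, hd _ _, hd _ _, hd _ _, hd _ _⟩
  · rintro ⟨d, c1, c2, c3, t1, t2, t3, g1, g2, h, -⟩
    refine ⟨![c1, c2, c3], fun v => ?_, fun v => ?_, by rw [sup3_Bridge]; exact h⟩
    · refine tame_Bridge (hS v) ?_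
      fin_cases v
      exacts [t1, t2, t3]
    · fin_cases v
      exacts [g1, g2]

theorem exists_curve1 (a : Fin 6 → k) (ha : Function.Injective a) :
    ∃ X : StableCurve p 7, Describes X (A1 a) := by
  obtain ⟨X, hX⟩ := exists_pathCurve (k := k) (p := p) 0 7 (fun _ => 0)
    ![((a 0 : k) : OnePoint k), (a 1 : k), (a 2 : k), (a 3 : k), (a 4 : k), (a 5 : k), ∞]
    (by simp [all7_Bridge, ha.eq_iff]) (by simp) (by simp) (by decide)
  have hS : sp_Bridge 0 (fun _ => 0)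
      ![((a 0 : k) : OnePoint k), (a 1 : k), (a 2 : k), (a 3 : k), (a 4 : k), (a 5 : k), ∞] 0 =
      S7 a := by
    ext b
    simp [sp_Bridge, S7, Fin.exists_fin_succ, eq_comm (b := b)]
    tauto
  refine ⟨X, fun G _ => (hX G).trans ⟨?_, ?_⟩⟩
  · rintro ⟨c, h1, -, h3⟩
    have h4 : (c 0).Tame (S7 a) := hS ▸ h1 0
    choose d hd using md_Bridge h4
    rw [sup1_Bridge] at h3
    refine ⟨![d (a 0 : k), d (a 1 : k), d (a 2 : k), d (a 3 : k), d (a 4 : k), d (a 5 : k), d ∞],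
      c 0, h4, h3, fun i => ?_, hd _⟩
    fin_cases i <;> exact hd _
  · rintro ⟨d, c, t, h, -⟩
    refine ⟨fun _ => c, fun v => ?_, fun v => v.elim0, by rw [sup1_Bridge]; exact h⟩
    obtain rfl : v = 0 := Subsingleton.elim (α := Fin 1) _ _
    exact tame_Bridge hS t

end Pool.Agent.Adm

end

section

/-! The upper half of the chain: from the three-component curve to smooth curves. -/

namespace Pool.Agent.Adm

theorem notMem_range_of_norm_lt {k C : Type} [Field k] [NormedField C] (φ : k →+* C)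
    (hφ : ∀ x, ‖φ x‖ ≤ 1) (t : C) (h0 : t ≠ 0) (ht : ‖t‖ < 1) : t ∉ Set.range φ := by
  rintro ⟨x, rfl⟩
  have hx : x ≠ 0 := fun h => h0 (by rw [h, map_zero])
  rw [T.norm_phi φ hφ x hx] at ht
  exact lt_irrefl _ ht

theorem a2_injective {C : Type} [NormedField C] (t μ : C) (h0 : t ≠ 0) (ht : ‖t‖ < 1)
    (hμ : ‖μ‖ = 1) (h1 : μ ≠ 1) :
    Function.Injective ![0, t * μ, t, 1, (t * μ)⁻¹, μ / (t * μ)] := by
  have hμ0 : μ ≠ 0 := fun h => by simp [h] at hμ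
  have hpos : 0 < ‖t‖ := norm_pos_iff.2 h0
  have hinv : 1 < ‖t‖⁻¹ := (one_lt_inv₀ hpos).2 ht
  have n1 : ‖t * μ‖ = ‖t‖ := by rw [norm_mul, hμ, mul_one]
  have n4 : ‖(t * μ)⁻¹‖ = ‖t‖⁻¹ := by rw [norm_inv, n1]
  have n5 : ‖μ / (t * μ)‖ = ‖t‖⁻¹ := by rw [norm_div, n1, hμ, one_div]
  have d12 : t * μ ≠ t := fun h => h1 (mul_left_cancel₀ h0 (h.trans (mul_one t).symm))
  have d45 : (t * μ)⁻¹ ≠ μ / (t * μ) := fun h => by
    rw [div_eq_mul_inv] at h
    exact h1 (mul_right_cancel₀ (inv_ne_zero (mul_ne_zero h0 hμ0)) (h.symm.trans (one_mul _).symm))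
  have ne : ∀ x y : C, ‖x‖ ≠ ‖y‖ → x ≠ y := fun x y h e => h (by rw [e])
  have e01 : (0 : C) ≠ t * μ := ne _ _ (by rw [n1, norm_zero]; linarith)
  have e02 : (0 : C) ≠ t := h0.symm
  have e03 : (0 : C) ≠ 1 := zero_ne_one
  have e04 : (0 : C) ≠ (t * μ)⁻¹ := ne _ _ (by rw [n4, norm_zero]; linarith)
  have e05 : (0 : C) ≠ μ / (t * μ) := ne _ _ (by rw [n5, norm_zero]; linarith)
  have e13 : t * μ ≠ 1 := ne _ _ (by rw [n1, norm_one]; linarith)
  have e14 : t * μ ≠ (t * μ)⁻¹ := ne _ _ (by rw [n4, n1]; linarith)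
  have e15 : t * μ ≠ μ / (t * μ) := ne _ _ (by rw [n5, n1]; linarith)
  have e23 : t ≠ 1 := ne _ _ (by rw [norm_one]; linarith)
  have e24 : t ≠ (t * μ)⁻¹ := ne _ _ (by rw [n4]; linarith)
  have e25 : t ≠ μ / (t * μ) := ne _ _ (by rw [n5]; linarith)
  have e34 : (1 : C) ≠ (t * μ)⁻¹ := ne _ _ (by rw [n4, norm_one]; linarith)
  have e35 : (1 : C) ≠ μ / (t * μ) := ne _ _ (by rw [n5, norm_one]; linarith)
  intro i j hij
  fin_cases i <;> fin_cases j <;>
    first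
    | rfl
    | (exfalso
       simp only [Fin.reduceFinMk, Matrix.cons_val] at hij
       first
       | exact e01 hij | exact e02 hij | exact e03 hij | exact e04 hij | exact e05 hij
       | exact d12 hij | exact e13 hij | exact e14 hij | exact e15 hij | exact e23 hij
       | exact e24 hij | exact e25 hij | exact e34 hij | exact e35 hij | exact d45 hij
       | exact e01 hij.symm | exact e02 hij.symm | exact e03 hij.symm | exact e04 hij.symm
       | exact e05 hij.symm | exact d12 hij.symm | exact e13 hij.symm | exact e14 hij.symm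
       | exact e15 hij.symm | exact e23 hij.symm | exact e24 hij.symm | exact e25 hij.symm
       | exact e34 hij.symm | exact e35 hij.symm | exact d45 hij.symm)

theorem inv_pair {C : Type} [Field C] (u : C) (h0 : u ≠ 0) (h1 : u ≠ 1) :
    1 / (1 - u) + 1 / (1 - u⁻¹) = 1 := by
  have h2 : 1 - u ≠ 0 := sub_ne_zero.2 h1.symm
  have h3 : 1 - u⁻¹ ≠ 0 := sub_ne_zero.2 fun h => h1 (by rw [← inv_inv u, ← h, inv_one])
  have h4 : u - 1 ≠ 0 := sub_ne_zero.2 h1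
  field_simp
  ring

theorem bound_A1 {k F : Type} [Field k] [IsAlgClosed k] [Field F] [Fintype F] (θ : F →+* k)
    (a : Fin 6 → k) (G : Type) [Group G] (d : Fin 7 → Dat k G) (h : A1 a G d) :
    Nat.card (G →* Fˣ) ≤ Fintype.card F ^ 6 := by
  obtain ⟨c, hT, hc, -⟩ := h
  refine (c.card_hom_le θ hc a (S7 a) hT ?_).2
  intro x hx
  rcases hx with hx | ⟨i, hi⟩
  · exact absurd hx (OnePoint.coe_ne_infty x)
  · exact ⟨i, OnePoint.coe_injective hi⟩

theorem upper_chain {k F : Type} [Field k] [IsAlgClosed k] [Field F] [Fintype F] (θ : F →+* k)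
    (p : ℕ) (hp : p.Prime) (hF : Fintype.card F = p ^ 2) (μ : k) (h0 : μ ≠ 0) (h1 : μ ≠ 1)
    (X3 : StableCurve p 7) (hX3 : Describes X3 (A3 μ μ))
    (hne : ∃ (G : Type) (_ : Group G) (_ : Finite G), X3.HasCover G) :
    ∃ X2 X1 X0 : StableCurve p 7, QLe X3 X2 ∧ QLe X2 X1 ∧ QLe X1 X0 ∧ ¬ QLe X2 X3 ∧
      ¬ QLe X1 X2 ∧ ¬ QLe X0 X1 ∧
      ∀ (G : Type) [Group G] [Finite G], X0.HasCover G →
        Nat.card (G →* Fˣ) ≤ Fintype.card F ^ 6 := by
  obtain ⟨C2, _, _, _, _, φ2, hφ2, t, ht0, ht⟩ := exists_bigField k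
  have nμ : ‖φ2 μ‖ = 1 := T.norm_phi φ2 hφ2 μ h0
  have hμ0 : φ2 μ ≠ 0 := (map_ne_zero φ2).2 h0
  have hμ1 : φ2 μ ≠ 1 := fun h => h1 (φ2.injective (h.trans (map_one φ2).symm))
  have htB : ‖t * φ2 μ‖ < 1 := by rwa [norm_mul, nμ, mul_one]
  have l32 := lifts32 φ2 hφ2 t (t * φ2 μ) ht0 ht (mul_ne_zero ht0 hμ0) htB μ μ h0
  have i2 := a2_injective t (φ2 μ) ht0 ht nμ hμ1
  set a2 : Fin 6 → C2 := ![0, t * φ2 μ, t, 1, (t * φ2 μ)⁻¹, φ2 μ / (t * φ2 μ)] with ha2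
  have b0 : a2 0 = 0 := rfl
  have b3 : a2 3 = 1 := rfl
  have b4 : a2 4 = (a2 1)⁻¹ := rfl
  have b5 : a2 5 = (a2 2)⁻¹ := by
    change φ2 μ / (t * φ2 μ) = t⁻¹
    field_simp
  have c1 : a2 1 ≠ 0 := fun h => absurd (i2 (h.trans b0.symm)) (by decide)
  have c2 : a2 2 ≠ 0 := fun h => absurd (i2 (h.trans b0.symm)) (by decide)
  have c1' : a2 1 ≠ 1 := fun h => absurd (i2 (h.trans b3.symm)) (by decide)
  have c2' : a2 2 ≠ 1 := fun h => absurd (i2 (h.trans b3.symm)) (by decide)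
  have p1 := inv_pair _ c1 c1'
  have p2 := inv_pair _ c2 c2'
  rw [← b4] at p1
  rw [← b5] at p2
  clear_value a2
  obtain ⟨C1, _, _, _, _, φ1, hφ1, t1, ht10, ht1⟩ := exists_bigField C2
  have l21 := lifts_move φ1 hφ1 t1 ht10 ht1 a2 i2 0
  have i1 := update_injective φ1 a2 i2 0 t1 (notMem_range_of_norm_lt φ1 hφ1 t1 ht10 ht1)
  set a1 := Function.update (fun i => φ1 (a2 i)) 0 (φ1 (a2 0) + t1) with ha1
  have d0 : a1 0 = t1 := by rw [ha1, Function.update_self, b0, map_zero, zero_add]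
  have d : ∀ i, i ≠ 0 → a1 i = φ1 (a2 i) := fun i hi => by rw [ha1, Function.update_of_ne hi]
  have d3 : a1 3 = 1 := by rw [d 3 (by decide), b3, map_one]
  have q1 : 1 / (1 - a1 1) + 1 / (1 - a1 4) = 1 := by
    rw [d 1 (by decide), d 4 (by decide)]
    simpa using congrArg φ1 p1
  have q2 : 1 / (1 - a1 2) + 1 / (1 - a1 5) = 1 := by
    rw [d 2 (by decide), d 5 (by decide)]
    simpa using congrArg φ1 p2
  clear_value a1
  obtain ⟨C0, _, _, _, _, φ0, hφ0, t0, ht00, ht0'⟩ := exists_bigField C1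
  have l10 := lifts_move φ0 hφ0 t0 ht00 ht0' a1 i1 2
  have i0 := update_injective φ0 a1 i1 2 t0 (notMem_range_of_norm_lt φ0 hφ0 t0 ht00 ht0')
  set a0 := Function.update (fun i => φ0 (a1 i)) 2 (φ0 (a1 2) + t0) with ha0
  have f2 : a0 2 = φ0 (a1 2) + t0 := by rw [ha0, Function.update_self]
  have f : ∀ i, i ≠ 2 → a0 i = φ0 (a1 i) := fun i hi => by rw [ha0, Function.update_of_ne hi]
  have f3 : a0 3 = 1 := by rw [f 3 (by decide), d3, map_one]
  have r1 : 1 / (1 - a0 1) + 1 / (1 - a0 4) = 1 := by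
    rw [f 1 (by decide), f 4 (by decide)]
    simpa using congrArg φ0 q1
  have r2 : 1 / (1 - φ0 (a1 2)) + 1 / (1 - a0 5) = 1 := by
    rw [f 5 (by decide)]
    simpa using congrArg φ0 q2
  clear_value a0
  haveI := charP_of_card (φ2.comp θ) p hp hF
  haveI := charP_of_card (φ1.comp (φ2.comp θ)) p hp hF
  haveI := charP_of_card (φ0.comp (φ1.comp (φ2.comp θ))) p hp hF
  obtain ⟨X2, hX2⟩ := exists_curve1 p a2 i2
  obtain ⟨X1, hX1⟩ := exists_curve1 p a1 i1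
  obtain ⟨X0, hX0⟩ := exists_curve1 p a0 i0
  have g32 := qle_of_lifts hX3 hX2 φ2 l32
  have g21 := qle_of_lifts hX2 hX1 φ1 l21
  have g10 := qle_of_lifts hX1 hX0 φ0 l10
  have hb : ∀ (G : Type) [Group G] [Finite G], X0.HasCover G →
      Nat.card (G →* Fˣ) ≤ Fintype.card F ^ 6 := by
    intro G _ _ h
    obtain ⟨d, hd⟩ := (hX0 G).1 h
    exact bound_A1 (φ0.comp (φ1.comp (φ2.comp θ))) a0 G d hd
  obtain ⟨G0, _, _, hG0⟩ := hne
  refine ⟨X2, X1, X0, g32, g21, g10, ?_, ?_, ?_, hb⟩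
  · exact not_qle hX3 hX2 φ2 l32 θ _ (fix3 θ p hp hF μ μ h0 h1 h0 h1)
      (new32 _ p hp hF a2 i2 b0 b3) ⟨G0, _, inferInstance, hG0⟩ _
      fun G _ _ h => hb G (g10 G (g21 G (g32 G h)))
  · refine not_qle hX2 hX1 φ1 l21 (φ2.comp θ) _ (fix21 _ p hp hF a2 i2 b3 ?_)
      (new21 _ p hp hF a1 i1 d3 ?_) ⟨G0, _, inferInstance, g32 G0 hG0⟩ _
      fun G _ _ h => hb G (g10 G (g21 G h))
    · rw [b0, sub_zero, div_one]
      linear_combination -p2
    · intro h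
      have h2 : 1 / (1 - a1 0) = 1 := by linear_combination h + q2
      rw [d0, one_div, inv_eq_one, sub_eq_self] at h2
      exact ht10 h2
  · refine not_qle hX1 hX0 φ0 l10 (φ1.comp (φ2.comp θ)) _ (fix10 _ p hp hF a1 i1 d3 ?_)
      (new10 _ p hp hF a0 i0 f3 ?_) ⟨G0, _, inferInstance, g21 G0 (g32 G0 hG0)⟩ _
      fun G _ _ h => hb G (g10 G h)
    · linear_combination q2 - q1
    · intro h
      have h2 : 1 / (1 - a0 2) = 1 / (1 - φ0 (a1 2)) := by linear_combination h + r1 - r2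
      rw [one_div, one_div, inv_inj, f2, sub_right_inj, add_eq_left] at h2
      exact ht00 h2

end Pool.Agent.Adm

end

section

/-! New affine quotients on the upper curve of a step. -/

namespace Pool.Agent.Adm

open scoped OnePoint
open Polynomial

variable {k F : Type} [Field k] [IsAlgClosed k] [Field F] [Fintype F]

theorem Good.md_New3 {G : Type} [Group G] {θ : F →+* k} {c1 : Cover k G}
    {c : Cover k (G × Aff F)} {f : k[X]} (h : Good θ c1 c f) {a : OnePoint k} {d : Dat k G}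
    (hd : c1.MD a d) (H : Subgroup (G × Aff F)) (hH : c.ι.range ≤ H) (n : ℤ)
    (hn : labAt f a ≡ n [ZMOD (Fintype.card F - 1 : ℕ)]) :
    ∃ d' : Dat k H, (c.restr H hH).MD a d' ∧
      ∀ χ : G →* Fˣ, χ.comp ((MonoidHom.fst G (Aff F)).comp H.subtype) =
        Aff.lin.comp ((MonoidHom.snd G (Aff F)).comp H.subtype) →
        LabD (Fintype.card F - 1) θ χ d n := by
  obtain ⟨d', h1, h2, h3⟩ := h.md hd
  refine ⟨(d'.1, d'.2.1, ⟨d'.2.2, hH (Cover.Mono.mem_range h1)⟩), Cover.Mono.restr h1 H hH, ?_⟩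
  intro χ hχ
  refine Lab.congr (h3 χ ?_) hn
  rw [← h2]
  exact DFunLike.congr_fun hχ ⟨d'.2.2, hH (Cover.Mono.mem_range h1)⟩

omit [IsAlgClosed k] in
theorem labAt_one_New3 (a : OnePoint k) : labAt (1 : k[X]) a = 0 := by
  induction a using OnePoint.rec with
  | infty => simp [labAt]
  | coe b => simp [labAt, rootMultiplicity_eq_zero]

omit [IsAlgClosed k] in
theorem labAt_pow_New3 (N : ℕ) :
    labAt ((X - C 1) ^ N : k[X]) ∞ = -(N : ℤ) ∧
      labAt ((X - C 1) ^ N : k[X]) ((1 : k) : OnePoint k) = N ∧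
      ∀ b : k, b ≠ 1 → labAt ((X - C 1) ^ N : k[X]) (b : OnePoint k) = 0 := by
  refine ⟨?_, ?_, fun b hb => ?_⟩
  · show -(((X - C 1) ^ N : k[X]).natDegree : ℤ) = _
    rw [natDegree_pow, natDegree_X_sub_C, mul_one]
  · show ((((X - C 1) ^ N : k[X]).rootMultiplicity 1 : ℕ) : ℤ) = _
    rw [rootMultiplicity_X_sub_C_pow]
  · show ((((X - C 1) ^ N : k[X]).rootMultiplicity b : ℕ) : ℤ) = _
    rw [rootMultiplicity_eq_zero, Nat.cast_zero]
    simp only [IsRoot.def, eval_pow, eval_sub, eval_X, eval_C]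
    exact pow_ne_zero _ (sub_ne_zero.2 hb)

theorem exists_four_New3 (θ : F →+* k) (p : ℕ) (hp : p.Prime) (hF : Fintype.card F = p ^ 2)
    (N : ℕ) (hN : N + 1 + p = p ^ 2) (s' : k) (h0 : s' ≠ 0) (h1 : s' ≠ 1) :
    ∃ (f : k[X]) (c : Cover k (Aff F)), AffLab θ c f ∧ ¬ Aff.HasFix c.ι.range ∧
      labAt f ∞ = -((p : ℤ) ^ 2) ∧ labAt f ((0 : k) : OnePoint k) = N ∧
      labAt f ((1 : k) : OnePoint k) = 1 ∧ labAt f (s' : OnePoint k) = p ∧
      ∀ b : k, b ≠ 0 → b ≠ 1 → b ≠ s' → labAt f (b : OnePoint k) = 0 := by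
  have hp2 := hp.two_le
  have hpk : (p : k) = 0 := by
    have := card_cast_eq_zero θ
    rw [hF, Nat.cast_pow] at this
    exact pow_eq_zero_iff (two_ne_zero) |>.1 this
  have ha : Function.Injective ![0, 1, s'] := by
    intro i j hij
    fin_cases i <;> fin_cases j <;> simp_all [eq_comm]
  have hsum : ∑ j, ![N, 1, p] j = p ^ 2 := by
    rw [Fin.sum_univ_three]
    exact hN
  obtain ⟨r1, r2, r3, r4⟩ := rootMultiplicity_prod_X_sub_C ![0, 1, s'] ha ![N, 1, p]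
  have hq : p + 2 ≤ p ^ 2 := by nlinarith
  have hc := coeff_prod_pred ![0, 1, s'] ![N, 1, p] (p ^ 2 - 1) (by rw [hsum]; omega)
  have r0 : ∀ b : k, b ≠ 0 → b ≠ 1 → b ≠ s' → b ∉ Set.range ![0, 1, s'] := by
    rintro b hb0 hb1 hb2 ⟨i, rfl⟩
    fin_cases i <;> simp_all
  obtain ⟨c, hc1, hc2⟩ := exists_affLab_noFix θ _ r4 (by rw [r3, hsum, hF])
    (by rw [r3, hsum, hF]; omega) (by
      rw [hF, hc, Fin.sum_univ_three]
      simp [hpk]) (by
      intro b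
      rw [hF]
      by_cases hb : b ∈ Set.range ![0, 1, s']
      · obtain ⟨i, rfl⟩ := hb
        rw [r1]
        fin_cases i
        · show N < _
          omega
        · show 1 < _
          omega
        · show p < _
          omega
      · rw [r2 b hb]
        omega)
  refine ⟨_, c, hc1, hc2, ?_, ?_, ?_, ?_, fun b hb0 hb1 hb2 => ?_⟩
  · show -((natDegree _ : ℕ) : ℤ) = _
    rw [r3, hsum, Nat.cast_pow]
  · exact congrArg (Nat.cast : ℕ → ℤ) (r1 0)
  · exact congrArg (Nat.cast : ℕ → ℤ) (r1 1)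
  · exact congrArg (Nat.cast : ℕ → ℤ) (r1 2)
  · exact congrArg (Nat.cast : ℕ → ℤ) (r2 b (r0 b hb0 hb1 hb2))

theorem new3 (θ : F →+* k) (p : ℕ) (hp : p.Prime) (hF : Fintype.card F = p ^ 2) (s s' : k)
    (h0 : s' ≠ 0) (h1 : s' ≠ 1) :
    NewCov θ (A3 s s') ![0, 0, 0, (p : ℤ) ^ 2 - p - 1, 1, p, -1] := by
  intro G _ _ d hA
  obtain ⟨c1, c3, c4, t1, t3, t4, g13, g34, hsup, m0, m1, m2, m3, m4, m5, m6⟩ := hA
  have hp2 := hp.two_le
  have hq : p + 2 ≤ p ^ 2 := by nlinarith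
  obtain ⟨N, hN⟩ : ∃ N, N + 1 + p = p ^ 2 := ⟨p ^ 2 - p - 1, by omega⟩
  have hNz : (N : ℤ) = (p : ℤ) ^ 2 - p - 1 := by
    have : ((N + 1 + p : ℕ) : ℤ) = ((p ^ 2 : ℕ) : ℤ) := by rw [hN]
    push_cast at this
    linarith
  obtain ⟨f4, a4, hl4, hn4, l1, l2, l3, l4, l5⟩ := exists_four_New3 θ p hp hF N hN s' h0 h1
  obtain ⟨a1, hl1⟩ := exists_affLab θ (1 : k[X]) one_ne_zero
  obtain ⟨a3, hl3⟩ := exists_affLab θ ((X - C 1) ^ N : k[X]) (pow_ne_zero _ (X_sub_C_ne_zero 1))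
  obtain ⟨k1, k2, k3⟩ := labAt_pow_New3 (k := k) N
  obtain ⟨e1, G1, -⟩ := exists_good θ c1 a1 _ hl1
  obtain ⟨e3', G3', -⟩ := exists_good θ c3 a3 _ hl3
  obtain ⟨e4', G4', n4'⟩ := exists_good θ c4 a4 _ hl4
  obtain ⟨e3, G3, u13, -⟩ := G1.glue G3' g13 (by
    rw [labAt_one_New3, k3 0 zero_ne_one, add_zero])
  obtain ⟨e4, G4, u34, n4⟩ := G3.glue G4' g34 (by rw [k1, l2, neg_add_cancel])
  have T1 : e1.Tame (S4 s) := G1.tame t1 fun a _ => by rw [labAt_one_New3]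
  have T3 : e3.Tame (S3 k) := G3.tame t3 fun a ha => by
    induction a using OnePoint.rec with
    | infty => exact absurd (by simp [S3]) ha
    | coe b =>
      rw [k3 b]
      rintro rfl
      exact ha (by simp [S3])
  have T4 : e4.Tame (S4 s') := G4.tame t4 fun a ha => by
    induction a using OnePoint.rec with
    | infty => exact absurd (by simp [S4]) ha
    | coe b =>
      rw [l5 b] <;> rintro rfl <;> exact ha (by simp [S4])
  obtain ⟨H, hH⟩ : ∃ H, H = e1.ι.range ⊔ e3.ι.range ⊔ e4.ι.range := ⟨_, rfl⟩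
  have H1 : e1.ι.range ≤ H := hH ▸ le_sup_of_le_left le_sup_left
  have H3 : e3.ι.range ≤ H := hH ▸ le_sup_of_le_left le_sup_right
  have H4 : e4.ι.range ≤ H := hH ▸ le_sup_right
  obtain ⟨d0, x0, y0⟩ := G1.md_New3 m0 H H1 0 (by rw [labAt_one_New3])
  obtain ⟨d1, x1, y1⟩ := G1.md_New3 m1 H H1 0 (by rw [labAt_one_New3])
  obtain ⟨d2, x2, y2⟩ := G1.md_New3 m2 H H1 0 (by rw [labAt_one_New3])
  obtain ⟨d3, x3, y3⟩ := G3.md_New3 m3 H H3 ((p : ℤ) ^ 2 - p - 1) (by rw [k2, hNz])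
  obtain ⟨d4, x4, y4⟩ := G4.md_New3 m4 H H4 1 (by rw [l3])
  obtain ⟨d5, x5, y5⟩ := G4.md_New3 m5 H H4 p (by rw [l4])
  obtain ⟨d6, x6, y6⟩ := G4.md_New3 m6 H H4 (-1) (by
    rw [l1, hF, Int.modEq_iff_dvd, Nat.cast_sub (by omega)]
    exact ⟨1, by push_cast; ring⟩)
  refine ⟨H, inferInstance, inferInstance, (MonoidHom.fst G (Aff F)).comp H.subtype,
    (MonoidHom.snd G (Aff F)).comp H.subtype, ![d0, d1, d2, d3, d4, d5, d6],
    ⟨e1.restr H H1, e3.restr H H3, e4.restr H H4, T1.restr H H1, T3.restr H H3, T4.restr H H4,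
      u13.restr H H1 H3, u34.restr H H3 H4, ?_, x0, x1, x2, x3, x4, x5, x6⟩, ?_, ?_, ?_⟩
  · rw [Cover.restr_range, Cover.restr_range, Cover.restr_range,
      ← Subgroup.subgroupOf_sup H1 H3, ← Subgroup.subgroupOf_sup (sup_le H1 H3) H4, ← hH,
      Subgroup.subgroupOf_self]
  · rw [← MonoidHom.range_eq_top, MonoidHom.range_comp, Subgroup.range_subtype, hH,
      Subgroup.map_sup, Subgroup.map_sup, G1.1, G3.1, G4.1, hsup]
  · rw [MonoidHom.range_comp, Subgroup.range_subtype]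
    exact fun hf => n4 (n4' hn4) (hf.mono (Subgroup.map_mono H4))
  · intro χ hχ i
    fin_cases i
    · exact y0 χ hχ
    · exact y1 χ hχ
    · exact y2 χ hχ
    · exact y3 χ hχ
    · exact y4 χ hχ
    · exact y5 χ hχ
    · exact y6 χ hχ

end Pool.Agent.Adm

end

section

/-! New affine quotients on the upper curve of a step. -/

namespace Pool.Agent.Adm

open scoped OnePoint
open Polynomial

variable {k F : Type} [Field k] [IsAlgClosed k] [Field F] [Fintype F]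

theorem md_New4 {G : Type} [Group G] {θ : F →+* k} {c1 : Cover k G} {c : Cover k (G × Aff F)}
    {f : k[X]} (h : Good θ c1 c f) {a : OnePoint k} {d : Dat k G} (hd : c1.MD a d)
    (H : Subgroup (G × Aff F)) (hH : c.ι.range ≤ H) (n : ℤ)
    (hn : labAt f a ≡ n [ZMOD (Fintype.card F - 1 : ℕ)]) :
    ∃ d' : Dat k H, (c.restr H hH).MD a d' ∧ ∀ χ : G →* Fˣ,
      χ.comp ((MonoidHom.fst G (Aff F)).comp H.subtype) =
        Aff.lin.comp ((MonoidHom.snd G (Aff F)).comp H.subtype) →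
      LabD (Fintype.card F - 1) θ χ d n := by
  obtain ⟨d', h1, h2, h3⟩ := h.md hd
  refine ⟨(d'.1, d'.2.1, ⟨d'.2.2, hH (Cover.Mono.mem_range h1)⟩), Cover.Mono.restr h1 H hH,
    fun χ hχ => Lab.congr (h3 χ ?_) hn⟩
  rw [← h2]
  exact DFunLike.congr_fun hχ ⟨d'.2.2, hH (Cover.Mono.mem_range h1)⟩

omit [IsAlgClosed k] in
theorem labAt_one_New4 (a : OnePoint k) : labAt (1 : k[X]) a = 0 := by
  induction a using OnePoint.rec with
  | infty => simp [labAt]
  | coe b =>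
    have : (1 : k[X]).rootMultiplicity b = 0 :=
      rootMultiplicity_eq_zero (by simp [IsRoot])
    simp [labAt, this]

omit [IsAlgClosed k] in
theorem labAt_coe_New4 (f : k[X]) (b : k) :
    labAt f (b : OnePoint k) = (f.rootMultiplicity b : ℤ) := rfl

omit [IsAlgClosed k] in
theorem labAt_infty_New4 (f : k[X]) : labAt f ∞ = -(f.natDegree : ℤ) := rfl

omit [IsAlgClosed k] in
theorem labAt_out_New4 {ι : Type} [Fintype ι] (a : ι → k) (ha : Function.Injective a) (n : ι → ℕ)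
    (S : Set (OnePoint k)) (h0 : ∞ ∈ S) (h1 : ∀ i, (a i : OnePoint k) ∈ S) (m : ℤ) :
    ∀ x, x ∉ S → labAt (∏ j, (X - C (a j)) ^ n j : k[X]) x ≡ 0 [ZMOD m] := by
  intro x hx
  induction x using OnePoint.rec with
  | infty => exact absurd h0 hx
  | coe b =>
    rw [labAt_coe_New4, (rootMultiplicity_prod_X_sub_C a ha n).2.1 b
      (by rintro ⟨i, rfl⟩; exact hx (h1 i))]
    rfl

theorem new4 (θ : F →+* k) (p : ℕ) (hp : p.Prime) (hF : Fintype.card F = p ^ 2) (s : k)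
    (h0 : s ≠ 0) (h1 : s ≠ 1) :
    NewCov θ (A4 s) ![(p : ℤ) ^ 2 - p - 1, 1, p, -1, 0, 0, 0] := by
  rintro G _ _ d ⟨c1, c3, c4, c5, T1, T3, T4, T5, g13, g34, g45, htop, m0, m1, m2, m3, m4, m5, m6⟩
  have hp2 : 2 ≤ p := hp.two_le
  have hq : p + 2 ≤ p ^ 2 := by nlinarith
  have hpk : (p : k) = 0 := by
    have := card_cast_eq_zero θ
    rw [hF, Nat.cast_pow] at this
    exact pow_eq_zero_iff two_ne_zero |>.1 this
  have hm : ((Fintype.card F - 1 : ℕ) : ℤ) = (p : ℤ) ^ 2 - 1 := by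
    rw [hF, Nat.cast_sub (by omega)]; push_cast; ring
  have ha : Function.Injective (![0, s, 1] : Fin 3 → k) := by
    intro i j hij
    fin_cases i <;> fin_cases j <;> simp_all [eq_comm]
  have hb : Function.Injective (![0, 1] : Fin 2 → k) := by
    intro i j hij
    fin_cases i <;> fin_cases j <;> simp_all
  have o1 := labAt_out_New4 ![0, s, 1] ha ![p ^ 2 - p - 1, 1, p] (S4 s) (by simp [S4])
    (fun i => by fin_cases i <;> simp [S4]) (Fintype.card F - 1 : ℕ)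
  have o3 := labAt_out_New4 ![0, 1] hb ![1, p ^ 2 - 2] (S3 k) (by simp [S3])
    (fun i => by fin_cases i <;> simp [S3]) (Fintype.card F - 1 : ℕ)
  obtain ⟨r1, r2, r3, r4⟩ := rootMultiplicity_prod_X_sub_C ![0, s, 1] ha ![p ^ 2 - p - 1, 1, p]
  obtain ⟨s1, -, s3, s4⟩ := rootMultiplicity_prod_X_sub_C ![0, 1] hb ![1, p ^ 2 - 2]
  have hs : ∑ j, (![p ^ 2 - p - 1, 1, p] : Fin 3 → ℕ) j = p ^ 2 := by
    rw [Fin.sum_univ_three]
    change p ^ 2 - p - 1 + 1 + p = p ^ 2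
    omega
  have hs' : ∑ j, (![1, p ^ 2 - 2] : Fin 2 → ℕ) j = p ^ 2 - 1 := by
    rw [Fin.sum_univ_two]
    change 1 + (p ^ 2 - 2) = p ^ 2 - 1
    omega
  have hκ := coeff_prod_pred ![0, s, 1] ![p ^ 2 - p - 1, 1, p] (p ^ 2 - 1) (by rw [hs]; omega)
  rw [hs] at r3
  rw [hs'] at s3
  generalize (∏ j, (X - C ((![0, s, 1] : Fin 3 → k) j)) ^
    (![p ^ 2 - p - 1, 1, p] : Fin 3 → ℕ) j : k[X]) = f1 at o1 r1 r2 r3 r4 hκ
  generalize (∏ j, (X - C ((![0, 1] : Fin 2 → k) j)) ^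
    (![1, p ^ 2 - 2] : Fin 2 → ℕ) j : k[X]) = f3 at o3 s1 s3 s4
  have e0 : f1.rootMultiplicity 0 = p ^ 2 - p - 1 := r1 0
  have e1 : f1.rootMultiplicity s = 1 := r1 1
  have e2 : f1.rootMultiplicity 1 = p := r1 2
  have e3 : f3.rootMultiplicity 0 = 1 := s1 0
  have e4 : f3.rootMultiplicity 1 = p ^ 2 - 2 := s1 1
  obtain ⟨b1, l1, n1⟩ := exists_affLab_noFix θ f1 r4 (by omega) (by omega)
    (by rw [hF, hκ, Fin.sum_univ_three]; simpa [hpk] using h0) (fun x => by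
      by_cases hx : x ∈ Set.range (![0, s, 1] : Fin 3 → k)
      · obtain ⟨i, rfl⟩ := hx
        rw [r1, hF]
        fin_cases i
        · change p ^ 2 - p - 1 < p ^ 2 - 1
          omega
        · change 1 < p ^ 2 - 1
          omega
        · change p < p ^ 2 - 1
          omega
      · rw [r2 x hx]; omega)
  obtain ⟨b3, l3⟩ := exists_affLab θ f3 s4.ne_zero
  obtain ⟨b4, l4⟩ := exists_affLab θ (1 : k[X]) one_ne_zero
  obtain ⟨u1, G1, N1⟩ := exists_good θ c1 b1 f1 l1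
  obtain ⟨u3', G3', -⟩ := exists_good θ c3 b3 f3 l3
  obtain ⟨u4', G4', -⟩ := exists_good θ c4 b4 1 l4
  obtain ⟨u5', G5', -⟩ := exists_good θ c5 b4 1 l4
  obtain ⟨u3, G3, k13, -⟩ := G1.glue G3' g13 (by
    rw [labAt_infty_New4, labAt_coe_New4, r3, e3, hm]
    exact Int.modEq_zero_iff_dvd.2 ⟨-1, by push_cast; ring⟩)
  obtain ⟨u4, G4, k34, -⟩ := G3.glue G4' g34 (by
    rw [labAt_infty_New4, labAt_one_New4, s3, hF]
    exact Int.modEq_zero_iff_dvd.2 ⟨-1, by ring⟩)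
  obtain ⟨u5, G5, k45, -⟩ := G4.glue G5' g45 (by
    rw [labAt_one_New4, labAt_one_New4, add_zero])
  have o4 : ∀ x, x ∉ S3 k → labAt (1 : k[X]) x ≡ 0 [ZMOD (Fintype.card F - 1 : ℕ)] :=
    fun x _ => by rw [labAt_one_New4]
  obtain ⟨H, hH⟩ : ∃ H, H = u1.ι.range ⊔ u3.ι.range ⊔ u4.ι.range ⊔ u5.ι.range := ⟨_, rfl⟩
  have i134 : u1.ι.range ⊔ u3.ι.range ⊔ u4.ι.range ≤ H := hH ▸ le_sup_left
  have i13 : u1.ι.range ⊔ u3.ι.range ≤ H := le_sup_left.trans i134
  have i1 : u1.ι.range ≤ H := le_sup_left.trans i13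
  have i3 : u3.ι.range ≤ H := le_sup_right.trans i13
  have i4 : u4.ι.range ≤ H := le_sup_right.trans i134
  have i5 : u5.ι.range ≤ H := hH ▸ le_sup_right
  obtain ⟨d0, x0, y0⟩ := md_New4 G1 m0 H i1 ((p : ℤ) ^ 2 - p - 1) (by
    rw [labAt_coe_New4, e0, Nat.cast_sub (show 1 ≤ p ^ 2 - p by omega),
      Nat.cast_sub (show p ≤ p ^ 2 by omega), Nat.cast_pow, Nat.cast_one])
  obtain ⟨d1, x1, y1⟩ := md_New4 G1 m1 H i1 1 (by rw [labAt_coe_New4, e1]; rfl)
  obtain ⟨d2, x2, y2⟩ := md_New4 G1 m2 H i1 p (by rw [labAt_coe_New4, e2])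
  obtain ⟨d3, x3, y3⟩ := md_New4 G3 m3 H i3 (-1) (by
    rw [labAt_coe_New4, e4, hm, Nat.cast_sub (by omega)]
    exact (Int.modEq_iff_dvd.2 ⟨-1, by push_cast; ring⟩))
  obtain ⟨d4, x4, y4⟩ := md_New4 G4 m4 H i4 0 (by rw [labAt_one_New4])
  obtain ⟨d5, x5, y5⟩ := md_New4 G5 m5 H i5 0 (by rw [labAt_one_New4])
  obtain ⟨d6, x6, y6⟩ := md_New4 G5 m6 H i5 0 (by rw [labAt_one_New4])
  refine ⟨H, inferInstance, inferInstance, (MonoidHom.fst G (Aff F)).comp H.subtype,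
    (MonoidHom.snd G (Aff F)).comp H.subtype, ![d0, d1, d2, d3, d4, d5, d6],
    ⟨u1.restr H i1, u3.restr H i3, u4.restr H i4, u5.restr H i5, (G1.tame T1 o1).restr H i1,
      (G3.tame T3 o3).restr H i3, (G4.tame T4 o4).restr H i4, (G5.tame T5 o4).restr H i5,
      k13.restr H i1 i3, k34.restr H i3 i4, k45.restr H i4 i5, ?_, x0, x1, x2, x3, x4, x5, x6⟩,
    ?_, fun hf => N1 n1 (hf.mono ?_), fun χ hχ i => ?_⟩
  · rw [Cover.restr_range, Cover.restr_range, Cover.restr_range, Cover.restr_range,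
      ← Subgroup.subgroupOf_sup i1 i3, ← Subgroup.subgroupOf_sup i13 i4,
      ← Subgroup.subgroupOf_sup i134 i5, ← hH, Subgroup.subgroupOf_self]
  · rw [← MonoidHom.range_eq_top, MonoidHom.range_comp, Subgroup.range_subtype, hH,
      Subgroup.map_sup, Subgroup.map_sup, Subgroup.map_sup, G1.1, G3.1, G4.1, G5.1, htop]
  · rw [MonoidHom.range_comp, Subgroup.range_subtype]
    exact Subgroup.map_mono i1
  · fin_cases i
    exacts [y0 χ hχ, y1 χ hχ, y2 χ hχ, y3 χ hχ, y4 χ hχ, y5 χ hχ, y6 χ hχ]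

end Pool.Agent.Adm

end

section

/-! Affine quotients of the lower curve of each step have a fixed point. -/

namespace Pool.Agent.Adm

open scoped OnePoint
open Polynomial

variable {k F : Type} [Field k] [IsAlgClosed k] [Field F] [Fintype F]

theorem vert_Fix4 {G : Type} [Group G] (c : Cover k G) (θ : F →+* k) (ψ : G →* Aff F)
    (hT : c.Tame (S3 k)) (n0 n1 : ℕ)
    (h0 : ∃ e ζ g, c.Mono ((0 : k) : OnePoint k) e ζ g ∧
      Lab (Fintype.card F - 1) e ζ (θ (ψ g).u) n0)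
    (h1 : ∃ e ζ g, c.Mono ((1 : k) : OnePoint k) e ζ g ∧
      Lab (Fintype.card F - 1) e ζ (θ (ψ g).u) n1) :
    (∀ e ζ g, c.Mono ∞ e ζ g →
      Lab (Fintype.card F - 1) e ζ (θ (ψ g).u) (-((n0 + n1 : ℕ) : ℤ))) ∧
    ((n0 + n1 ≤ Fintype.card F - 1 ∨ (n0 + n1 = Fintype.card F ∧ (n1 : k) = 0)) →
      Aff.HasFix (c.ι.range.map ψ)) := by
  have hq : 1 < Fintype.card F := Fintype.one_lt_card
  obtain ⟨a1, a2, -⟩ := c.vertex θ ψ ![0, 1]
    (by
      intro i j h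
      fin_cases i <;> fin_cases j <;> simp_all)
    ![n0, n1] _ hT
    (by
      intro x hx
      simp only [S3, Set.mem_insert_iff, OnePoint.coe_eq_coe, Set.mem_singleton_iff,
        OnePoint.coe_ne_infty, or_false] at hx
      rcases hx with rfl | rfl
      · exact ⟨0, rfl⟩
      · exact ⟨1, rfl⟩)
    (by
      intro i
      fin_cases i
      · exact h0
      · exact h1)
  have hs : ∑ i, (![n0, n1] : Fin 2 → ℕ) i = n0 + n1 := by simp [Fin.sum_univ_two]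
  rw [hs] at a1 a2
  refine ⟨a1, fun h => a2 (h.imp_right fun h => ⟨by omega, ?_⟩)⟩
  rw [coeff_prod_pred _ _ _ (by rw [hs]; omega)]
  simp [Fin.sum_univ_two, h.2]

omit [IsAlgClosed k] in
theorem glue_Fix4 {G : Type} [Group G] {c c' : Cover k G} (θ : F →+* k) (ψ : G →* Aff F)
    (hg : Glue c c') (N : ℕ)
    (h : ∀ e ζ g, c.Mono ∞ e ζ g → Lab (Fintype.card F - 1) e ζ (θ (ψ g).u) (-(N : ℤ))) :
    (∃ e ζ g, c'.Mono ((0 : k) : OnePoint k) e ζ g ∧
      Lab (Fintype.card F - 1) e ζ (θ (ψ g).u) N) ∧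
    (0 < N → N < Fintype.card F - 1 →
      ∃ g, g ∈ c.ι.range.map ψ ∧ g ∈ c'.ι.range.map ψ ∧ g.u ≠ 1) := by
  obtain ⟨e, ζ, g, m1, m2⟩ := hg
  have h1 := (h e ζ g m1).inv
  rw [neg_neg] at h1
  refine ⟨⟨e, ζ⁻¹, g, m2, h1⟩, fun h2 h3 => ⟨ψ g, ⟨g, m1.mem_range, rfl⟩, ⟨g, m2.mem_range, rfl⟩,
    fun hu => ?_⟩⟩
  rw [hu, Units.val_one, map_one] at h1
  have h4 := Int.modEq_iff_dvd.1 (Lab.unique m2.1 m2.2.1 (lab_one _ _ _) h1)
  rw [sub_zero] at h4
  have := Nat.le_of_dvd h2 (Int.natCast_dvd_natCast.1 h4)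
  omega

theorem fix4 (θ : F →+* k) (p : ℕ) (hp : p.Prime) (hF : Fintype.card F = p ^ 2) (s : k)
    (h0 : s ≠ 0) (h1 : s ≠ 1) :
    AllFix θ (A4 s) ![0, 0, 0, (p : ℤ) ^ 2 - p - 1, 1, p, -1] := by
  rintro G _ d ψ ⟨c1, c3, c4, c5, t1, t3, t4, t5, g1, g3, g4, htop, m0, m1, m2, m3, m4, m5, -⟩ hl
  have hp2 := hp.two_le
  have hpp : p + 2 ≤ p ^ 2 := by nlinarith
  obtain ⟨r, hr⟩ : ∃ r, p ^ 2 = p + 2 + r := Nat.exists_eq_add_of_le hpp
  have hpk : (p : k) = 0 := by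
    have := card_cast_eq_zero θ
    rw [hF, Nat.cast_pow] at this
    exact pow_eq_zero_iff (two_ne_zero) |>.1 this
  have e3 : (p : ℤ) ^ 2 - p - 1 = ((r + 1 : ℕ) : ℤ) := by
    have : ((p ^ 2 : ℕ) : ℤ) = ((p + 2 + r : ℕ) : ℤ) := by rw [hr]
    push_cast at this ⊢
    linarith
  obtain ⟨a1, -, b1⟩ := c1.vertex θ ψ ![0, s, 1]
    (by
      intro i j h
      fin_cases i <;> fin_cases j <;> simp_all [eq_comm])
    (fun _ => 0) _ t1
    (by
      intro x hx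
      simp only [S4, Set.mem_insert_iff, OnePoint.coe_eq_coe, Set.mem_singleton_iff,
        OnePoint.coe_ne_infty, or_false] at hx
      rcases hx with rfl | rfl | rfl
      · exact ⟨0, rfl⟩
      · exact ⟨2, rfl⟩
      · exact ⟨1, rfl⟩)
    (by
      intro i
      fin_cases i
      · exact ⟨_, _, _, m0, hl 0⟩
      · exact ⟨_, _, _, m1, hl 1⟩
      · exact ⟨_, _, _, m2, hl 2⟩)
  rw [Finset.sum_const_zero] at a1 b1
  obtain ⟨l3, -⟩ := glue_Fix4 θ ψ g1 0 a1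
  obtain ⟨a3, b3⟩ := vert_Fix4 c3 θ ψ t3 0 (r + 1) l3 ⟨_, _, _, m3, e3 ▸ hl 3⟩
  obtain ⟨l4, n4⟩ := glue_Fix4 θ ψ g3 _ a3
  obtain ⟨a4, b4⟩ := vert_Fix4 c4 θ ψ t4 _ 1 l4 ⟨_, _, _, m4, hl 4⟩
  obtain ⟨l5, n5⟩ := glue_Fix4 θ ψ g4 _ a4
  obtain ⟨-, b5⟩ := vert_Fix4 c5 θ ψ t5 _ p l5 ⟨_, _, _, m5, hl 5⟩
  obtain ⟨x, x1, x2, x3⟩ := n4 (by omega) (by omega)
  obtain ⟨y, y1, y2, y3⟩ := n5 (by omega) (by omega)
  rw [MonoidHom.range_eq_map, ← htop, Subgroup.map_sup, Subgroup.map_sup, Subgroup.map_sup, b1 rfl,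
    bot_sup_eq]
  exact ((b3 (Or.inl (by omega))).sup (b4 (Or.inl (by omega))) x x1 x2 x3).sup
    (b5 (Or.inr ⟨by omega, hpk⟩)) y (Subgroup.mem_sup_right y1) y2 y3

end Pool.Agent.Adm

end

section

/-! The chain of length five. -/

namespace Pool.Agent.Adm

open scoped OnePoint

theorem exists_A5_trivial (k : Type) [Field k] : ∃ d, A5 k PUnit d := by
  obtain ⟨c, -, hc⟩ := exists_trivial_cover k PUnit
  have h : ∀ a, c.Mono a 1 1 1 := fun a => hc a 1 1 one_pos IsPrimitiveRoot.one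
  have hT : c.Tame (S3 k) := fun a => ⟨1, 1, 1, h a, fun _ => rfl⟩
  have hG : Glue c c := ⟨1, 1, 1, h _, by rw [inv_one]; exact h _⟩
  exact ⟨fun _ => (1, 1, 1), c, c, c, c, c, hT, hT, hT, hT, hT, hG, hG, hG, hG,
    Subsingleton.elim _ _, h _, h _, h _, h _, h _, h _, h _⟩

theorem exists_chain5 (p : ℕ) (hp : p.Prime) :
    ∃ x : Fin (5 + 1) → StableCurve p 7, (∀ i : Fin 5, QLe (x i.castSucc) (x i.succ)) ∧
      ∀ i : Fin 5, ¬ QLe (x i.succ) (x i.castSucc) := by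
  haveI := Fact.mk hp
  letI : Fintype (GaloisField p 2) := Fintype.ofFinite _
  have hF : Fintype.card (GaloisField p 2) = p ^ 2 := by
    rw [← Nat.card_eq_fintype_card, GaloisField.card p 2 two_ne_zero]
  let θ : GaloisField p 2 →+* AlgebraicClosure (ZMod p) :=
    (IsAlgClosed.lift : GaloisField p 2 →ₐ[ZMod p] AlgebraicClosure (ZMod p)).toRingHom
  obtain ⟨C4, _, _, _, _, φ4, hφ4, s, hs0, hs⟩ := exists_bigField (AlgebraicClosure (ZMod p))
  obtain ⟨C3, _, _, _, _, φ3, hφ3, t, ht0, ht⟩ := exists_bigField C4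
  have hs1 : s ≠ 1 := fun h => by simp [h] at hs
  have ht' : t⁻¹ ∉ Set.range (φ3.comp φ4) := by
    rintro ⟨x, hx⟩
    refine notMem_range_of_norm_lt φ3 hφ3 t ht0 ht ⟨(φ4 x)⁻¹, ?_⟩
    rw [map_inv₀, ← inv_inv t, ← hx]
    rfl
  obtain ⟨k3, _, _, ψA, ψB, hψ, hμ⟩ := exists_amalgam φ4 (φ3.comp φ4) s t⁻¹
    (notMem_range_of_norm_lt φ4 hφ4 s hs0 hs) ht'
  have l54 := lifts54 φ4 hφ4 s hs0 hs
  have l43 := lifts43 φ3 hφ3 t ht0 ht s ψA ψB (fun ζ e he h => by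
    obtain ⟨x, rfl⟩ := root_mem_range φ4 ζ e he h
    exact hψ x)
  rw [← hμ] at l43
  have hμ0 : ψA s ≠ 0 := (map_ne_zero ψA).2 hs0
  have hμ1 : ψA s ≠ 1 := fun h => hs1 (ψA.injective (h.trans (map_one ψA).symm))
  haveI := charP_of_card (φ4.comp θ) p hp hF
  haveI := charP_of_card (ψA.comp (φ4.comp θ)) p hp hF
  obtain ⟨X5, hX5⟩ := exists_curve5 (AlgebraicClosure (ZMod p)) p
  obtain ⟨X4, hX4⟩ := exists_curve4 p s hs0 hs1
  obtain ⟨X3, hX3⟩ := exists_curve3 p (ψA s) (ψA s) hμ0 hμ1 hμ0 hμ1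
  have g54 := qle_of_lifts hX5 hX4 φ4 l54
  have g43 := qle_of_lifts hX4 hX3 ψA l43
  have h5 : X5.HasCover PUnit := (hX5 PUnit).2 (exists_A5_trivial _)
  obtain ⟨X2, X1, X0, g32, g21, g10, n32, n21, n10, hb⟩ :=
    upper_chain (ψA.comp (φ4.comp θ)) p hp hF (ψA s) hμ0 hμ1 X3 hX3
      ⟨PUnit, _, inferInstance, g43 _ (g54 _ h5)⟩
  have n54 : ¬ QLe X4 X5 :=
    not_qle hX5 hX4 φ4 l54 θ _ (fix5 θ p hp hF) (new4 _ p hp hF s hs0 hs1)
      ⟨PUnit, _, inferInstance, h5⟩ _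
      fun G _ _ h => hb G (g10 G (g21 G (g32 G (g43 G (g54 G h)))))
  have n43 : ¬ QLe X3 X4 :=
    not_qle hX4 hX3 ψA l43 (φ4.comp θ) _ (fix4 _ p hp hF s hs0 hs1)
      (new3 _ p hp hF _ _ hμ0 hμ1) ⟨PUnit, _, inferInstance, g54 _ h5⟩ _
      fun G _ _ h => hb G (g10 G (g21 G (g32 G (g43 G h))))
  exact ⟨![X5, X4, X3, X2, X1, X0], fun i => by fin_cases i <;> assumption,
    fun i => by fin_cases i <;> assumption⟩

theorem five_le_krullDim (p : ℕ) (hp : p.Prime) :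
    (5 : WithBot ℕ∞) ≤ topologicalKrullDim (PiBar p 7) := by
  obtain ⟨x, h1, h2⟩ := exists_chain5 p hp
  have := le_krullDim_of_chain (r := 5) x h1 h2
  exact_mod_cast this

end Pool.Agent.Adm

end
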