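import Pool.Agent.Mg.F0854a0.Gea2904
import Pool.Agent.Mg.F0854a0.G5d1e19
import Pool.Agent.Mg.F0854a0.G106170

section

/-! Normalised monodromy, vertex coverings, finite field data, cocycles. -/

namespace Pool.Agent.Adm

open scoped OnePoint
open Polynomial

noncomputable section

/-- The chosen compatible system of primitive roots of unity. -/
def xi : ℕ → K0 := exists_xi.choose

theorem xi_prim {e : ℕ} (he : Odd e) : IsPrimitiveRoot (xi e) e := exists_xi.choose_spec.1 e he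

theorem xi_pow {e e' : ℕ} (he : Odd e) (he' : Odd e') : xi (e * e') ^ e' = xi e :=
  exists_xi.choose_spec.2 e e' he he'

variable {k G : Type} [Field k] [Group G]

/-- g is the inertia generator at a normalised by the chosen roots of unity. -/
def Cover.M (c : Cover k G) (θ : K0 →+* k) (a : OnePoint k) (g : G) : Prop :=
  ∃ e, Odd e ∧ c.Mono a e (θ (xi e)) g

/-- There is a tame covering of the line with decomposition group R, unramified outside the
points p s, with inertia generators d s. -/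
def VP (θ : K0 →+* k) {σ : Type} (p : σ → OnePoint k) (d : σ → G) (R : Subgroup G) : Prop :=
  ∃ c : Cover k G, c.ι.range = R ∧ (∀ a, a ∉ Set.range p → c.M θ a 1) ∧ ∀ s, c.M θ (p s) (d s)

/-- The same with finite points. -/
abbrev VC (θ : K0 →+* k) {σ : Type} (p : σ → k) (d : σ → G) (R : Subgroup G) : Prop :=
  VP θ (fun s => (p s : OnePoint k)) d R

/-- The data d on S are the inertia generators of a tame covering of some pointed line. -/
def Geo {ι : Type} (S : Set ι) (d : ι → G) (R : Subgroup G) : Prop :=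
  ∃ (k : Type) (_ : Field k) (_ : IsAlgClosed k) (θ : K0 →+* k) (p : S → OnePoint k),
    Function.Injective p ∧ VP θ p (fun s => d s) R

/-- Coverings can be transported along μ. -/
def Mob1 (μ : OnePoint k → OnePoint k) : Prop :=
  ∀ (G : Type) [Group G] (c : Cover k G), ∃ c' : Cover k G, c'.ι.range = c.ι.range ∧
    ∀ a e ζ g, c.Mono a e ζ g → c'.Mono (μ a) e ζ g

/-- Coverings can be transported along μ in both directions. -/
def IsMob (μ : OnePoint k ≃ OnePoint k) : Prop := Mob1 μ ∧ Mob1 μ.symm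

/-- A finite field of characteristic two with its normalised generator. -/
structure FF : Type 1 where
  F : Type
  [field : Field F]
  [fin : Fintype F]
  [dec : DecidableEq F]
  r : ℕ
  r_pos : 0 < r
  card : Fintype.card F = 2 ^ r
  θ : F →+* K0
  u : Fˣ
  hu : θ u = xi (2 ^ r - 1)

attribute [instance] FF.field FF.fin FF.dec

/-- The order of the multiplicative group. -/
def FF.m (𝔽 : FF) : ℕ := 2 ^ 𝔽.r - 1

theorem FF.m_pos (𝔽 : FF) : 0 < 𝔽.m := by
  have := Nat.one_lt_two_pow 𝔽.r_pos.ne'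
  unfold FF.m
  omega

instance (𝔽 : FF) : NeZero 𝔽.m := ⟨𝔽.m_pos.ne'⟩

/-- Cocycles with values in the character χ. -/
def Z1 {F : Type} [Field F] (χ : G →* Fˣ) : Submodule F (G → F) where
  carrier := {b | ∀ g h, b (g * h) = χ h * b g + b h}
  zero_mem' := by intro g h; simp
  add_mem' := by
    intro a b ha hb g h
    simp only [Pi.add_apply, ha g h, hb g h]
    ring
  smul_mem' := by
    intro c b hb g h
    simp only [Pi.smul_apply, smul_eq_mul, hb g h]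
    ring

theorem mem_Z1 {F : Type} [Field F] (χ : G →* Fˣ) (b : G → F) :
    b ∈ Z1 χ ↔ ∀ g h, b (g * h) = χ h * b g + b h := Iff.rfl

/-- Dimension of the space of cocycles. -/
def h1 {F : Type} [Field F] (χ : G →* Fˣ) : ℕ := Module.finrank F (Z1 χ)

/-- Affine maps x ↦ u x + b of the vector space I → F, composed from left to right. -/
@[ext] structure AffV (F : Type) [Field F] (I : Type) where
  u : Fˣ
  b : I → F

namespace AffV

variable {F I : Type} [Field F]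

instance : Mul (AffV F I) := ⟨fun g h => ⟨g.u * h.u, fun i => h.u * g.b i + h.b i⟩⟩
instance : One (AffV F I) := ⟨⟨1, fun _ => 0⟩⟩
instance : Inv (AffV F I) := ⟨fun g => ⟨g.u⁻¹, fun i => -((g.u⁻¹ : Fˣ) * g.b i)⟩⟩

@[simp] theorem mul_u (g h : AffV F I) : (g * h).u = g.u * h.u := rfl
@[simp] theorem mul_b (g h : AffV F I) (i : I) : (g * h).b i = h.u * g.b i + h.b i := rfl
@[simp] theorem one_u : (1 : AffV F I).u = 1 := rfl
@[simp] theorem one_b (i : I) : (1 : AffV F I).b i = 0 := rfl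
@[simp] theorem inv_u (g : AffV F I) : g⁻¹.u = g.u⁻¹ := rfl
@[simp] theorem inv_b (g : AffV F I) (i : I) : g⁻¹.b i = -((g.u⁻¹ : Fˣ) * g.b i) := rfl

instance : Group (AffV F I) :=
  Group.ofLeftAxioms
    (fun a b c => AffV.ext (mul_assoc _ _ _) (by funext i; simp; ring))
    (fun a => AffV.ext (one_mul _) (by funext i; simp))
    (fun a => AffV.ext (inv_mul_cancel _) (by funext i; simp))

instance [Finite F] [Finite I] : Finite (AffV F I) :=
  Finite.of_injective (fun g : AffV F I => (g.u, g.b)) fun g h e => by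
    simp only [Prod.mk.injEq] at e
    exact AffV.ext e.1 e.2

/-- The linear part. -/
def lin : AffV F I →* Fˣ where
  toFun g := g.u
  map_one' := rfl
  map_mul' _ _ := rfl

@[simp] theorem lin_apply (g : AffV F I) : lin g = g.u := rfl

end AffV

/-- The coordinates in I0 of the translation parts are independent modulo coboundaries on the
set R. -/
def IndOn {F I : Type} [Field F] [Fintype I] (R : Set (AffV F I)) (I0 : Finset I) : Prop :=
  ∀ (lam : I → F) (β : F), (∀ g ∈ R, ∑ i, lam i * g.b i = β * (1 - g.u)) → ∀ i ∈ I0, lam i = 0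

/-- The Hasse-Witt matrix. -/
def HW (q : ℕ) (f : k[X]) (w : ℕ) : Matrix (Fin w) (Fin w) k :=
  Matrix.of fun i j => if j.1 + 1 ≤ q * (i.1 + 1) then f.coeff (q * (i.1 + 1) - (j.1 + 1)) else 0

/-- Fixed vectors of the semilinear map attached to a matrix. -/
def Sol (q : ℕ) {w : ℕ} (A : Matrix (Fin w) (Fin w) k) : Set (Fin w → k) :=
  {c | ∀ j, c j = ∑ i, A i j * c i ^ q}

/-- Condition for the existence of w independent affine coverings with labels f. -/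
def HWok (𝔽 : FF) (f : k[X]) (w : ℕ) : Prop :=
  w = 0 ∨ (w * 𝔽.m < f.natDegree ∧ f.natDegree ≤ (w + 1) * 𝔽.m ∧ (HW (2 ^ 𝔽.r) f w).det ≠ 0)

/-- The number whose binary digits are the bits owned by l. -/
def bitv {r : ℕ} {ι : Type} [DecidableEq ι] (o : Fin r → ι) (l : ι) : ℕ :=
  ∑ b ∈ Finset.univ.filter (fun b => o b = l), 2 ^ b.1

/-- All labels are realised by characters, and pure labels have many cocycles. -/
def RichG (𝔽 : FF) {ι H : Type} [Fintype ι] [DecidableEq ι] [Group H] (e : ι → H) : Prop :=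
  (∀ x : ι → ℕ, 𝔽.m ∣ ∑ y, x y → ∃ χ : H →* 𝔽.Fˣ, ∀ y, χ (e y) = 𝔽.u ^ x y) ∧
    ∀ o : Fin 𝔽.r → ι, Function.Surjective o → ∃ χ : H →* 𝔽.Fˣ,
      (∀ y, χ (e y) * 𝔽.u ^ bitv o y = 1) ∧ Fintype.card ι ≤ h1 χ + 1

/-- The cross ratio sending x0, x1, x2 to zero, one, infinity. -/
def cr (x0 x1 x2 x : k) : k := (x - x0) * (x1 - x2) / ((x - x2) * (x1 - x0))

/-- Every polynomial relation of a' is a relation of a. -/
def KerLe {k' σ : Type} [Field k'] (θ' : K0 →+* k') (a' : σ → k') (θ : K0 →+* k) (a : σ → k) :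
    Prop :=
  ∀ f : MvPolynomial σ K0, MvPolynomial.eval₂ θ' a' f = 0 → MvPolynomial.eval₂ θ a f = 0

/-- Algebraic independence. -/
def Indep {σ : Type} (θ : K0 →+* k) (a : σ → k) : Prop :=
  ∀ f : MvPolynomial σ K0, MvPolynomial.eval₂ θ a f = 0 → f = 0

open Classical in
/-- The transcendence degree of a finite family. -/
def td {σ : Type} [Fintype σ] (θ : K0 →+* k) (a : σ → k) : ℕ :=
  (Finset.univ.filter fun S : Finset σ => Indep θ fun i : S => a i).sup Finset.card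

end

end Pool.Agent.Adm

end

section

/-! Combinatorial types of stable curves of genus zero and curves with finite coordinates. -/

namespace Pool.Agent.Adm

open scoped OnePoint
open Sum

noncomputable section

/-- The component carrying a node branch or a marked point. -/
def slotBase {r n : ℕ} (T : SimpleGraph (Fin r)) (comp : Fin n → Fin r) :
    T.Dart ⊕ Fin n → Fin r :=
  Sum.elim (fun δ => δ.fst) comp

/-- A combinatorial type of n-pointed stable curve of genus zero. -/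
structure Shape (n : ℕ) : Type where
  r : ℕ
  T : SimpleGraph (Fin r)
  tree : T.IsTree
  comp : Fin n → Fin r
  stable : ∀ v, 3 ≤ Nat.card {s // slotBase T comp s = v}

namespace Shape

variable {n : ℕ} (σ : Shape n)

/-- Special points: node branches and marked points. -/
abbrev Slot : Type := σ.T.Dart ⊕ Fin n

instance : Fintype σ.T.Dart :=
  haveI := Classical.decRel σ.T.Adj
  SimpleGraph.Dart.fintype

/-- The component of a special point. -/
def base : σ.Slot → Fin σ.r := slotBase σ.T σ.comp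

@[simp] theorem base_inl (δ : σ.T.Dart) : σ.base (inl δ) = δ.fst := rfl
@[simp] theorem base_inr (l : Fin n) : σ.base (inr l) = σ.comp l := rfl

/-- The special points of the component v. -/
abbrev Sl (v : Fin σ.r) : Type := {s : σ.Slot // σ.base s = v}

/-- The components beyond the dart δ. -/
def Br (δ : σ.T.Dart) : Set (Fin σ.r) := {u | σ.T.dist δ.snd u < σ.T.dist δ.fst u}

open Classical in
/-- The special point of v in the direction of the marked point l. -/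
def dir (v : Fin σ.r) (l : Fin n) : σ.Slot :=
  if h : ∃ δ : σ.T.Dart, δ.fst = v ∧ σ.comp l ∈ σ.Br δ then inl h.choose else inr l

/-- The three marked points lie in different directions from v. -/
def IsMed (v : Fin σ.r) (i0 i1 i2 : Fin n) : Prop :=
  σ.dir v i0 ≠ σ.dir v i1 ∧ σ.dir v i0 ≠ σ.dir v i2 ∧ σ.dir v i1 ≠ σ.dir v i2

/-- The special points on the boundary of a set of components. -/
def bd (U : Set (Fin σ.r)) : Set σ.Slot :=
  {s | σ.base s ∈ U ∧ ∀ δ : σ.T.Dart, s = inl δ → δ.snd ∉ U}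

end Shape

/-- A stable curve of type σ with finite coordinates. -/
structure Pt {n : ℕ} (σ : Shape n) : Type 1 where
  k : Type
  [field : Field k]
  [closed : IsAlgClosed k]
  θ : K0 →+* k
  x : σ.Slot → k
  inj : ∀ s s', σ.base s = σ.base s' → x s = x s' → s = s'

attribute [instance] Pt.field Pt.closed

/-- A property of groups with n elements. -/
abbrev GP (n : ℕ) : Type 1 := ∀ (G : Type) [Group G], (Fin n → G) → Prop

/-- The homomorphism π dominates the data g and the subgroups R up to conjugation. -/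
def Dom {n : ℕ} {V W G : Type} [Group W] [Group G] (g : Fin n → W) (R : V → Subgroup W)
    (d : Fin n → G) (π : G →* W) : Prop :=
  (∀ l, IsConj (π (d l)) (g l)) ∧ ∀ v, ∃ γ : W, ∀ h ∈ R v, γ⁻¹ * h * γ ∈ π.range

namespace Pt

variable {n : ℕ} {σ : Shape n} (z : Pt σ)

instance : CharP z.k 2 := charP_of_injective_ringHom z.θ.injective 2

/-- The same curve with another embedding of the constants. -/
def tw (θ' : K0 →+* z.k) : Pt σ := { z with θ := θ' }

/-- Coverings of the component v. -/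
def VCat (v : Fin σ.r) {G : Type} [Group G] (d : σ.Slot → G) (R : Subgroup G) : Prop :=
  VC z.θ (fun s : σ.Sl v => z.x s) (fun s => d s) R

/-- Admissible coverings with inertia generators d and decomposition groups R. -/
def AdmR {G : Type} [Group G] (d : σ.Slot → G) (R : Fin σ.r → Subgroup G) : Prop :=
  (∀ v, z.VCat v d (R v)) ∧ ∀ δ : σ.T.Dart, d (inl δ.symm) = (d (inl δ))⁻¹

/-- Connected admissible coverings with inertia generators d. -/
def Adm (G : Type) [Group G] (d : σ.Slot → G) : Prop := ∃ R, z.AdmR d R ∧ ⨆ v, R v = ⊤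

/-- G is the group of a connected admissible covering. -/
def Q (G : Type) [Group G] : Prop := ∃ d, z.Adm G d

/-- Coverings of the components whose inertia generators match up to conjugation. -/
def VS (W : Type) [Group W] (g : σ.Slot → W) (R : Fin σ.r → Subgroup W) : Prop :=
  (∀ v, z.VCat v g (R v)) ∧ ∀ δ : σ.T.Dart, IsConj (g (inl δ))⁻¹ (g (inl δ.symm))

/-- The property P holds for all coverings dominating some system of vertex coverings. -/
def Real (P : GP n) : Prop :=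
  ∃ (W : Type) (_ : Group W) (_ : Finite W) (g : σ.Slot → W) (R : Fin σ.r → Subgroup W),
    z.VS W g R ∧ ∀ (G : Type) [Group G] [Finite G] (d : Fin n → G) (π : G →* W),
      Dom (fun l => g (inr l)) R d π → P G d

/-- Cross ratios of the marked points seen from the component v. -/
def crs (v : Fin σ.r) (i0 i1 i2 : Fin n) (l : Fin n) : z.k :=
  cr (z.x (σ.dir v i0)) (z.x (σ.dir v i1)) (z.x (σ.dir v i2)) (z.x (σ.dir v l))

/-- The cross ratios of z are specialisations of those of z' along τ. -/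
def Rel {σ' : Shape n} (z' : Pt σ') (τ : Fin n ≃ Fin n) : Prop :=
  ∀ v v' i0 i1 i2, σ.IsMed v i0 i1 i2 → σ'.IsMed v' (τ i0) (τ i1) (τ i2) →
    (∀ l, σ.dir v l ≠ σ.dir v i2 → σ'.dir v' (τ l) ≠ σ'.dir v' (τ i2)) ∧
      KerLe z'.θ (fun l => if σ.dir v l = σ.dir v i2 then 0 else
        z'.crs v' (τ i0) (τ i1) (τ i2) (τ l)) z.θ (z.crs v i0 i1 i2)

/-- Every finite quotient for z is a finite quotient for z'. -/
def Le {σ' : Shape n} (z' : Pt σ') : Prop :=
  ∀ (G : Type) [Group G] [Finite G], z.Q G → z'.Q G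

end Pt

/-- G is the group of a connected tame covering of the line unramified outside the points p. -/
def QS {k σ : Type} [Field k] (θ : K0 →+* k) (p : σ → k) (G : Type) [Group G] : Prop :=
  ∃ d : σ → G, VC θ p d ⊤

end

end Pool.Agent.Adm

end

section

/-! Kummer coverings totally ramified at two marked points: marked points, labels, wreath
products. -/

namespace Pool.Agent.Adm

open scoped OnePoint
open Sum Polynomial

noncomputable section

/-- The marked points of the Kummer covering with group A ramified at i0 and i2. -/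
abbrev YI (ι A : Type) [One A] (i0 i2 : ι) : Type :=
  {y : ι × A // (y.1 = i0 ∨ y.1 = i2) → y.2 = 1}

section

variable {ι A G : Type} [DecidableEq ι] [CommGroup A] [Group G]

/-- The character χ0 describes the Kummer covering ramified at i0 and i2. -/
def KumLab (χ0 : G →* A) (d : ι → G) (i0 i2 : ι) (u : A) : Prop :=
  χ0 (d i0) = u ∧ χ0 (d i2) = u⁻¹ ∧ ∀ l, l ≠ i0 → l ≠ i2 → χ0 (d l) = 1

/-- Inertia generators of the Kummer covering. -/
def yd (N : ℕ) (d : ι → G) (i0 i2 : ι) (γ : A → G) (y : YI ι A i0 i2) : G :=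
  if y.1.1 = i0 ∨ y.1.1 = i2 then d y.1.1 ^ N else (γ y.1.2)⁻¹ * d y.1.1 * γ y.1.2

/-- e is a system of inertia generators of the Kummer covering. -/
def IsYD (N : ℕ) (χ0 : G →* A) (d : ι → G) (i0 i2 : ι) (e : YI ι A i0 i2 → χ0.ker) : Prop :=
  ∃ γ : A → G, (∀ t, χ0 (γ t) = t) ∧ ∀ y, (e y : G) = yd N d i0 i2 γ y

/-- Translation in the fibres. -/
def ysh {i0 i2 : ι} (sh : ι → A) (y : YI ι A i0 i2) : YI ι A i0 i2 :=
  ⟨(y.1.1, if y.1.1 = i0 ∨ y.1.1 = i2 then 1 else sh y.1.1 * y.1.2), fun h => if_pos h⟩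

end

variable {n : ℕ}

/-- The Kummer covering is rich in characters. -/
def Rich (𝔽0 𝔽 : FF) (i0 i2 : Fin n) : GP n := fun G _ d =>
  ∃ χ0 : G →* 𝔽0.Fˣ, KumLab χ0 d i0 i2 𝔽0.u ∧ ∀ e, IsYD 𝔽0.m χ0 d i0 i2 e → RichG 𝔽 e

/-- Labels of a test character on the Kummer covering. -/
def TLab (𝔽0 𝔽1 : FF) {G : Type} [Group G] (χ0 : G →* 𝔽0.Fˣ) (χ : χ0.ker →* 𝔽1.Fˣ)
    (d : Fin n → G) (i0 i1 i2 : Fin n) (n0 : ℕ) (n1 : 𝔽0.Fˣ → ℕ) (nn : Fin n → ℕ) : Prop :=
  (∀ h : χ0.ker, (h : G) = d i0 ^ 𝔽0.m → χ h = 𝔽1.u ^ n0) ∧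
    (∀ (g : G) (h : χ0.ker), (h : G) = g⁻¹ * d i1 * g → χ h = 𝔽1.u ^ n1 (χ0 g)) ∧
    ∀ l, l ≠ i0 → l ≠ i1 → l ≠ i2 →
      ∀ (g : G) (h : χ0.ker), (h : G) = g⁻¹ * d l * g → χ h = 𝔽1.u ^ nn l

/-- There is a test character with many cocycles. -/
def Test (𝔽0 𝔽1 : FF) (i0 i1 i2 : Fin n) (n0 : ℕ) (n1 : 𝔽0.Fˣ → ℕ) (nn : Fin n → ℕ) (w : ℕ) :
    GP n := fun G _ d =>
  ∃ χ0 : G →* 𝔽0.Fˣ, KumLab χ0 d i0 i2 𝔽0.u ∧ ∃ (sh : 𝔽0.Fˣ) (χ : χ0.ker →* 𝔽1.Fˣ),
    TLab 𝔽0 𝔽1 χ0 χ d i0 i1 i2 n0 (fun t => n1 (sh * t)) nn ∧ w + 1 ≤ h1 χ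

/-- The polynomial of labels of a test character. -/
def tpoly {k : Type} [Field k] (θ : K0 →+* k) (𝔽0 : FF) (η : k) (n0 : ℕ) (n1 : 𝔽0.Fˣ → ℕ)
    (nn : Fin n → ℕ) (a : Fin n → k) : k[X] :=
  X ^ n0 * (∏ t : 𝔽0.Fˣ, (X - C (θ (𝔽0.θ t) * η)) ^ n1 t) * ∏ l, (X ^ 𝔽0.m - C (a l)) ^ nn l

/-- Characters with prescribed labels up to translation and many cocycles. -/
def YP (𝔽0 𝔽 : FF) (i0 i2 : Fin n) {J : Type} (x : J → YI (Fin n) 𝔽0.Fˣ i0 i2 → ZMod 𝔽.m)
    (wt : J → ℕ) : GP n := fun G _ d =>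
  ∃ χ0 : G →* 𝔽0.Fˣ, KumLab χ0 d i0 i2 𝔽0.u ∧ ∃ sh : Fin n → 𝔽0.Fˣ,
    ∀ e, IsYD 𝔽0.m χ0 d i0 i2 e → ∀ j, ∃ χ : χ0.ker →* 𝔽.Fˣ,
      (∀ y, χ (e y) = 𝔽.u ^ (x j (ysh sh y)).val) ∧ (χ ≠ 1 → wt j + 1 ≤ h1 χ)

/-- The wreath product receiving the monodromy of induced coverings. -/
abbrev WG (𝔽0 𝔽 : FF) (J I : Type) : Type := RegularWreathProduct (J → AffV 𝔽.F I) 𝔽0.Fˣ

/-- Independence of cocycles on the component t of the base group. -/
def RI {𝔽0 𝔽 : FF} {J I : Type} [Fintype I] (R : Subgroup (WG 𝔽0 𝔽 J I)) (j : J) (t : 𝔽0.Fˣ)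
    (I0 : Finset I) : Prop :=
  IndOn {b | ∃ g ∈ R, g.right = 1 ∧ g.left t j = b} I0

namespace Shape

variable (σ : Shape n) (i0 i2 : Fin n)

/-- The component v lies on the path from i0 to i2. -/
def OnPath (v : Fin σ.r) : Prop := σ.dir v i0 ≠ σ.dir v i2

/-- The Kummer covering is ramified at s. -/
def Ram (s : σ.Slot) : Prop :=
  σ.OnPath i0 i2 (σ.base s) ∧ (σ.dir (σ.base s) i0 = s ∨ σ.dir (σ.base s) i2 = s)

/-- Monodromy of the Kummer covering at s. -/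
def kum {A : Type} [CommGroup A] (u : A) (s : σ.Slot) : A :=
  (if σ.dir (σ.base s) i0 = s then u else 1) * if σ.dir (σ.base s) i2 = s then u⁻¹ else 1

/-- Label at the point t above s. -/
def lab {A Z : Type} [CommGroup A] [Fintype A] [DecidableEq A] [AddCommGroup Z]
    (x : YI (Fin n) A i0 i2 → Z) (s : σ.Slot) (t : A) : Z :=
  if σ.dir (σ.base s) i0 = s ∧ σ.dir (σ.base s) i2 = s then
    -∑ y ∈ Finset.univ.filter
      (fun y : YI (Fin n) A i0 i2 => σ.dir (σ.base s) y.1.1 ≠ s ∧ y.1.2 = t), x y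
  else if σ.dir (σ.base s) i0 = s ∨ σ.dir (σ.base s) i2 = s then
    ∑ y ∈ Finset.univ.filter (fun y : YI (Fin n) A i0 i2 => σ.dir (σ.base s) y.1.1 = s), x y
  else
    ∑ y ∈ Finset.univ.filter
      (fun y : YI (Fin n) A i0 i2 => σ.dir (σ.base s) y.1.1 = s ∧ y.1.2 = t), x y

open Classical in
/-- The element g of the wreath product has the labels prescribed by x at s. -/
def WL (𝔽0 𝔽 : FF) {J I : Type} (x : J → YI (Fin n) 𝔽0.Fˣ i0 i2 → ZMod 𝔽.m) (s : σ.Slot)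
    (g : WG 𝔽0 𝔽 J I) : Prop :=
  (∃ e, Odd e ∧ g ^ e = 1) ∧ g.right = σ.kum i0 i2 𝔽0.u s ∧
    ∀ j t, ((g ^ if σ.Ram i0 i2 s then 𝔽0.m else 1).left t j).u =
      𝔽.u ^ (σ.lab i0 i2 (x j) s t).val

end Shape

namespace Pt

variable {σ : Shape n} (z : Pt σ) (𝔽0 : FF) (i0 i2 : Fin n)

/-- Coordinates on the Kummer coverings of the components on the path. -/
def KumCoord (lam : Fin σ.r → z.k) (α : σ.Slot → z.k) : Prop :=
  (∀ v, lam v ≠ 0) ∧ ∀ s, σ.OnPath i0 i2 (σ.base s) → s ≠ σ.dir (σ.base s) i0 →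
    s ≠ σ.dir (σ.base s) i2 → α s ^ 𝔽0.m = lam (σ.base s) *
      (z.x s - z.x (σ.dir (σ.base s) i0)) / (z.x s - z.x (σ.dir (σ.base s) i2))

/-- Polynomial of labels on the Kummer covering of a component on the path. -/
def fP (α : σ.Slot → z.k) (y : σ.Slot → 𝔽0.Fˣ → ℕ) (v : Fin σ.r) : z.k[X] :=
  X ^ y (σ.dir v i0) 1 * ∏ s ∈ Finset.univ.filter
      (fun s => σ.base s = v ∧ s ≠ σ.dir v i0 ∧ s ≠ σ.dir v i2),
    ∏ t : 𝔽0.Fˣ, (X - C (z.θ (𝔽0.θ t) * α s)) ^ y s t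

/-- Polynomial of labels on a copy of a component off the path. -/
def fO (y : σ.Slot → 𝔽0.Fˣ → ℕ) (v : Fin σ.r) (t : 𝔽0.Fˣ) : z.k[X] :=
  ∏ s ∈ Finset.univ.filter (fun s => σ.base s = v), (X - C (z.x s)) ^ y s t

end Pt

end

end Pool.Agent.Adm

end

section

/-! Test characters seen from a median component. -/

namespace Pool.Agent.Adm

open scoped OnePoint
open Sum Polynomial

noncomputable section

variable {n : ℕ} {σ : Shape n}

/-- Coordinates on the Kummer covering of the component v. -/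
def Pt.KumAt (z : Pt σ) (𝔽0 : FF) (i0 i2 : Fin n) (v : Fin σ.r) (lam : z.k)
    (α : σ.Slot → z.k) : Prop :=
  lam ≠ 0 ∧ ∀ s, σ.base s = v → s ≠ σ.dir v i0 → s ≠ σ.dir v i2 →
    α s ^ 𝔽0.m = lam * (z.x s - z.x (σ.dir v i0)) / (z.x s - z.x (σ.dir v i2))

theorem Pt.KumCoord.kumAt {z : Pt σ} {𝔽0 : FF} {i0 i2 : Fin n} {lam : Fin σ.r → z.k}
    {α : σ.Slot → z.k} (h : z.KumCoord 𝔽0 i0 i2 lam α) {v : Fin σ.r} (hv : σ.OnPath i0 i2 v) :
    z.KumAt 𝔽0 i0 i2 v (lam v) α :=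
  ⟨h.1 v, fun s hs h0 h2 => by subst hs; exact h.2 s hv h0 h2⟩

/-- The labels of a test character at the points above the special points of v. -/
def Shape.tlab (σ : Shape n) (𝔽0 : FF) (v : Fin σ.r) (i0 i1 : Fin n) (n0 : ℕ)
    (n1 : 𝔽0.Fˣ → ℕ) (nn : Fin n → ℕ) (s : σ.Slot) (t : 𝔽0.Fˣ) : ℕ :=
  if s = σ.dir v i0 then
    n0 + 𝔽0.m * ∑ l ∈ Finset.univ.filter (fun l => σ.dir v l = s), nn l
  else (if s = σ.dir v i1 then n1 t else 0) +
    ∑ l ∈ Finset.univ.filter (fun l => σ.dir v l = s), nn l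

/-- A test character on an admissible covering. -/
structure TUH (z : Pt σ) {G : Type} [Group G] (d : σ.Slot → G) (R : Fin σ.r → Subgroup G)
    (v : Fin σ.r) (i0 i1 i2 : Fin n) (𝔽0 𝔽 : FF) (c : ℕ) (χ0 : G →* 𝔽0.Fˣ)
    (χ : χ0.ker →* 𝔽.Fˣ) (n0 : ℕ) (n1 : 𝔽0.Fˣ → ℕ) (nn : Fin n → ℕ) : Prop where
  adm : z.AdmR d R
  med : σ.IsMed v i0 i1 i2
  kum : KumLab χ0 (fun l => d (inr l)) i0 i2 (𝔽0.u ^ 2 ^ c)
  lab : TLab 𝔽0 𝔽 χ0 χ (fun l => d (inr l)) i0 i1 i2 n0 n1 nn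
  nn0 : ∀ l, l = i0 ∨ l = i1 ∨ σ.dir v l = σ.dir v i2 → nn l = 0
  b0 : n0 + 𝔽0.m * ∑ l, nn l < 𝔽.m
  b1 : ∀ t, n1 t + ∑ l, nn l < 𝔽.m

/-- The nonvanishing of f on the cross ratios indexed by I passes from z to z'. -/
def Pt.Pass (z : Pt σ) {σ' : Shape n} (z' : Pt σ') (τ : Fin n ≃ Fin n) (σ0 : K0 →+* K0)
    (v : Fin σ.r) (i0 i1 i2 : Fin n) (I : Finset (Fin n)) (f : MvPolynomial (Fin n) K0) : Prop :=
  σ.IsMed v i0 i1 i2 → (∀ l ∈ I, σ.dir v l ≠ σ.dir v i2) →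
    MvPolynomial.eval₂ z.θ (fun l => if l ∈ I then z.crs v i0 i1 i2 l else 0) f ≠ 0 →
    ∀ v', σ'.IsMed v' (τ i0) (τ i1) (τ i2) → (∀ l ∈ I, σ'.dir v' (τ l) ≠ σ'.dir v' (τ i2)) →
      MvPolynomial.eval₂ (z'.θ.comp σ0)
        (fun l => if l ∈ I then z'.crs v' (τ i0) (τ i1) (τ i2) (τ l) else 0) f ≠ 0

end

end Pool.Agent.Adm

end

section

/-! Smooth curves from distinct points; the sum of the transcendence degrees. -/

namespace Pool.Agent.Adm

open Sum

noncomputable section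

variable {n : ℕ} {σ : Shape n}

/-- The smooth curve with marked points p. -/
def Pt.ofSmooth (h : IsEmpty σ.T.Dart) (k : Type) [Field k] [IsAlgClosed k] (θ : K0 →+* k)
    (p : Fin n → k) (hp : Function.Injective p) : Pt σ where
  k := k
  θ := θ
  x := Sum.elim (fun δ => h.elim δ) p
  inj s s' _ e := by
    rcases s with δ | l
    · exact h.elim δ
    rcases s' with δ | l'
    · exact h.elim δ
    exact congrArg inr (hp e)

open Classical in
/-- The sum of the transcendence degrees of the cross ratios over all median components. -/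
def Pt.psi (z : Pt σ) : ℕ :=
  ∑ T ∈ Finset.univ.filter
      (fun T : Fin σ.r × Fin n × Fin n × Fin n => σ.IsMed T.1 T.2.1 T.2.2.1 T.2.2.2),
    td z.θ (z.crs T.1 T.2.1 T.2.2.1 T.2.2.2)

end

end Pool.Agent.Adm

end

section

/-! Lemmas on monodromy. -/

namespace Pool.Agent.Adm

open scoped OnePoint

variable {k G : Type} [Field k] [Group G]

theorem Cover.Mono.inv {c : Cover k G} {a : OnePoint k} {e : ℕ} {ζ : k} {g : G}
    (h : c.Mono a e ζ g) : c.Mono a e ζ⁻¹ g⁻¹ := by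
  obtain ⟨he, hζ, j, hC, hX, σ, hσ, hs⟩ := h
  refine ⟨he, hζ.inv, j, hC, hX, σ⁻¹, by rw [map_inv, hσ], fun x n => ?_⟩
  have h1 := hs (σ⁻¹ x) n
  have h2 : σ (σ⁻¹ x) = x := σ.apply_symm_apply x
  have h0 : ζ ≠ 0 := hζ.ne_zero he.ne'
  rw [h2] at h1
  rw [h1, inv_zpow, ← mul_assoc, inv_mul_cancel₀ (zpow_ne_zero n h0), one_mul]

theorem Cover.Mono.pow {c : Cover k G} {a : OnePoint k} {e : ℕ} {ζ : k} {g : G}
    (h : c.Mono a e ζ g) (j : ℕ) (hj : j.Coprime e) : c.Mono a e (ζ ^ j) (g ^ j) := by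
  obtain ⟨he, hζ, J, hC, hX, σ, hσ, hs⟩ := h
  refine ⟨he, hζ.pow_of_coprime j hj, J, hC, hX, σ ^ j, by rw [map_pow, hσ], ?_⟩
  clear hj
  induction j with
  | zero => intro x n; simp
  | succ j ih =>
    intro x n
    rw [pow_succ' σ j, AlgEquiv.mul_apply, hs, ih, pow_succ' ζ j, mul_zpow, mul_assoc]

theorem Cover.Mono.lift {c : Cover k G} {a : OnePoint k} {e e' : ℕ} {ξ : k} {g : G}
    (he' : 0 < e') (hξ : IsPrimitiveRoot ξ (e * e')) (h : c.Mono a e (ξ ^ e') g) :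
    c.Mono a (e * e') ξ g := by
  have hE : 0 < e * e' := Nat.mul_pos h.1 he'
  refine Cover.RMono.mono hE hξ ?_
  have h1 := h.rmono.comp (powL e' he') (scL ξ (hξ.ne_zero hE.ne'))
    (fun x => (scL_powL e' he' ξ _ x).symm)
  have h2 : (powL e' he').comp (HahnSeries.C : k →+* LaurentSeries k) = HahnSeries.C :=
    RingHom.ext fun x => powL_C e' he' x
  rwa [h2, powL_expand, mul_comm e' e] at h1

theorem Cover.RMono.conj {c : Cover k G} {W : Type} [CommRing W] {φ : k →+* W} {u : W}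
    {s : W →+* W} {g : G} (h : c.RMono φ u s g) {γ : G} (hγ : γ ∈ c.ι.range) :
    c.RMono φ u s (γ⁻¹ * g * γ) := by
  obtain ⟨j, hC, hX, σ, hσ, hs⟩ := h
  obtain ⟨τ, rfl⟩ := hγ
  refine ⟨j.comp (τ : c.L →+* c.L), fun x => ?_, ?_, τ⁻¹ * σ * τ, ?_, fun x => ?_⟩
  · rw [← hC x]
    exact congrArg j (τ.commutes _)
  · rw [← hX]
    exact congrArg j (τ.commutes _)
  · rw [map_mul, map_mul, map_inv, hσ]
  · change j (τ (τ.symm (σ (τ x)))) = s (j (τ x))
    rw [τ.apply_symm_apply, hs]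

theorem Cover.RMono.conj_unique {c : Cover k G} {W : Type} [Field W] {φ : k →+* W} {u : W}
    {s : W →+* W} {g g' : G} (h : c.RMono φ u s g) (h' : c.RMono φ u s g') :
    ∃ γ ∈ c.ι.range, g' = γ⁻¹ * g * γ := by
  obtain ⟨j, hC, hX, σ, hσ, hs⟩ := h
  obtain ⟨j', hC', hX', σ', hσ', hs'⟩ := h'
  have h1 : j'.comp (algebraMap (RatFunc k) c.L) = j.comp (algebraMap (RatFunc k) c.L) :=
    ratFunc_hom_ext _ _ (fun x => (hC' x).trans (hC x).symm) (hX'.trans hX.symm)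
  obtain ⟨τ, hτ⟩ := exists_aut_of_normal (F := RatFunc k) j j' fun x => RingHom.congr_fun h1 x
  have h2 : τ * σ' = σ * τ := by
    ext x
    apply j.injective
    rw [AlgEquiv.mul_apply, AlgEquiv.mul_apply, hτ, hs', hs, hτ]
  refine ⟨c.ι τ, ⟨τ, rfl⟩, ?_⟩
  rw [← hσ, ← hσ', mul_assoc, ← map_mul, ← h2, map_mul, inv_mul_cancel_left]

theorem xi_one : xi 1 = 1 := by
  exact IsPrimitiveRoot.one_right_iff.1 (xi_prim odd_one)

theorem exists_pow_xi (θ : K0 →+* k) {e : ℕ} {ζ : k} (he : 0 < e) (hζ : IsPrimitiveRoot ζ e) :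
    Odd e ∧ ∃ j : ℕ, j.Coprime e ∧ ζ ^ j = θ (xi e) := by
  have : CharP k 2 := charP_of_injective_ringHom θ.injective 2
  have : NeZero e := ⟨he.ne'⟩
  have h1 : ((e : ℕ) : k) ≠ 0 := hζ.neZero'.out
  have ho : Odd e := by
    rw [← Nat.not_even_iff_odd, even_iff_two_dvd]
    exact fun h2 => h1 ((CharP.cast_eq_zero_iff k 2 e).2 h2)
  refine ⟨ho, ?_⟩
  obtain ⟨i, -, hi, hi'⟩ := (hζ.isPrimitiveRoot_iff).1 ((xi_prim ho).map_of_injective θ.injective)
  exact ⟨i, hi, hi'⟩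

theorem Cover.Mono.m_of_pow {c : Cover k G} {θ : K0 →+* k} {a : OnePoint k} {e : ℕ} {ζ : k}
    {g : G} (h : c.Mono a e ζ g) {j : ℕ} (hj : j.Coprime e) (hζ : ζ ^ j = θ (xi e)) :
    c.M θ a (g ^ j) := by
  exact ⟨e, (exists_pow_xi θ h.1 h.2.1).1, hζ ▸ h.pow j hj⟩

theorem Cover.Mono.m_one {c : Cover k G} (θ : K0 →+* k) {a : OnePoint k} {e : ℕ} {ζ : k}
    (h : c.Mono a e ζ 1) : c.M θ a 1 := by
  obtain ⟨-, j, hj, hζ⟩ := exists_pow_xi θ h.1 h.2.1
  have := h.m_of_pow hj hζ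
  rwa [one_pow] at this

theorem Cover.M.exists_mono {c : Cover k G} {θ : K0 →+* k} {a : OnePoint k} {g : G}
    (h : c.M θ a g) : ∃ e, Odd e ∧ ∀ E, Odd E → e ∣ E → c.Mono a E (θ (xi E)) g := by
  obtain ⟨e, he, h⟩ := h
  refine ⟨e, he, ?_⟩
  rintro E hE ⟨e', rfl⟩
  have he' : Odd e' := (Nat.odd_mul.1 hE).2
  refine Cover.Mono.lift he'.pos ((xi_prim hE).map_of_injective θ.injective) ?_
  rwa [← map_pow, xi_pow he he']

theorem Cover.M.pow_eq_one {c : Cover k G} {θ : K0 →+* k} {a : OnePoint k} {g : G}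
    (h : c.M θ a g) : ∃ e, Odd e ∧ g ^ e = 1 := by
  obtain ⟨e, he, h⟩ := h
  exact ⟨e, he, h.pow_eq_one⟩

theorem Cover.M.mem_range {c : Cover k G} {θ : K0 →+* k} {a : OnePoint k} {g : G}
    (h : c.M θ a g) : g ∈ c.ι.range := by
  obtain ⟨e, -, h⟩ := h
  exact h.mem_range

theorem Cover.M.conj {c : Cover k G} {θ : K0 →+* k} {a : OnePoint k} {g : G}
    (h : c.M θ a g) {γ : G} (hγ : γ ∈ c.ι.range) : c.M θ a (γ⁻¹ * g * γ) := by
  obtain ⟨e, he, h⟩ := h
  exact ⟨e, he, Cover.RMono.mono h.1 h.2.1 (h.rmono.conj hγ)⟩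

theorem Cover.M.unique {c : Cover k G} {θ : K0 →+* k} {a : OnePoint k} {g g' : G}
    (h : c.M θ a g) (h' : c.M θ a g') : ∃ γ ∈ c.ι.range, g' = γ⁻¹ * g * γ := by
  obtain ⟨e, he, h⟩ := h.exists_mono
  obtain ⟨e', he', h'⟩ := h'.exists_mono
  exact (h _ (he.mul he') (dvd_mul_right _ _)).rmono.conj_unique
    (h' _ (he.mul he') (dvd_mul_left _ _)).rmono

theorem Cover.M.map {H : Type} [Group H] {c : Cover k G} {θ : K0 →+* k} {a : OnePoint k} {g : G}
    (h : c.M θ a g) (f : G →* H) : (c.map f).M θ a (f g) := by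
  obtain ⟨e, he, h⟩ := h
  exact ⟨e, he, h.map f⟩

theorem Cover.M.restr {c : Cover k G} {θ : K0 →+* k} {a : OnePoint k} (H : Subgroup G)
    (hH : c.ι.range ≤ H) {g : H} (h : c.M θ a g) : (c.restr H hH).M θ a g := by
  obtain ⟨e, he, h⟩ := h
  exact ⟨e, he, h.restr H hH⟩

/-- Matching normalised generators give matching data on the two branches of a node. -/
theorem Cover.M.glue {c c' : Cover k G} {θ : K0 →+* k} {a a' : OnePoint k} {g : G}
    (h : c.M θ a g) (h' : c'.M θ a' g⁻¹) : ∃ e ζ, c.Mono a e ζ g ∧ c'.Mono a' e ζ⁻¹ g := by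
  obtain ⟨e, he, h⟩ := h.exists_mono
  obtain ⟨e', he', h'⟩ := h'.exists_mono
  refine ⟨e * e', _, h _ (he.mul he') (dvd_mul_right _ _), ?_⟩
  have := (h' _ (he.mul he') (dvd_mul_left _ _)).inv
  rwa [inv_inv] at this

theorem Cover.Mono.m_glue {c c' : Cover k G} (θ : K0 →+* k) {a a' : OnePoint k} {e : ℕ} {ζ : k}
    {g : G} (h : c.Mono a e ζ g) (h' : c'.Mono a' e ζ⁻¹ g) :
    ∃ g', c.M θ a g' ∧ c'.M θ a' g'⁻¹ := by
  obtain ⟨-, j, hj, hζ⟩ := exists_pow_xi θ h.1 h.2.1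
  have h2 := h'.inv
  rw [inv_inv] at h2
  refine ⟨g ^ j, h.m_of_pow hj hζ, ?_⟩
  rw [← inv_pow]
  exact h2.m_of_pow hj hζ

end Pool.Agent.Adm

end

section

/-! Functoriality of vertex coverings, base change, amalgamation. -/

namespace Pool.Agent.Adm

open scoped OnePoint

variable {k G σ : Type} [Field k] [Group G] {θ : K0 →+* k}

theorem VP.map {H : Type} [Group H] {p : σ → OnePoint k} {d : σ → G} {R : Subgroup G}
    (h : VP θ p d R) (f : G →* H) : VP θ p (fun s => f (d s)) (R.map f) := by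
  obtain ⟨c, h1, h2, h3⟩ := h
  refine ⟨c.map f, by rw [c.map_range, h1], fun a ha => ?_, fun s => (h3 s).map f⟩
  have h4 := (h2 a ha).map f
  rwa [map_one] at h4

theorem VP.mem {p : σ → OnePoint k} {d : σ → G} {R : Subgroup G} (h : VP θ p d R) (s : σ) :
    d s ∈ R := by
  obtain ⟨c, h1, -, h3⟩ := h
  exact h1 ▸ (h3 s).mem_range

theorem VP.odd {p : σ → OnePoint k} {d : σ → G} {R : Subgroup G} (h : VP θ p d R) (s : σ) :
    ∃ e, Odd e ∧ d s ^ e = 1 := by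
  obtain ⟨c, -, -, h3⟩ := h
  exact (h3 s).pow_eq_one

theorem VP.restr {p : σ → OnePoint k} {R : Subgroup G} (H : Subgroup G) (hH : R ≤ H)
    (d : σ → H) (h : VP θ p (fun s => (d s : G)) R) : VP θ p d (R.subgroupOf H) := by
  obtain ⟨c, rfl, h2, h3⟩ := h
  exact ⟨c.restr H hH, c.restr_range H hH, fun a ha => Cover.M.restr H hH (g := 1) (h2 a ha),
    fun s => Cover.M.restr H hH (h3 s)⟩

theorem VP.reindex {σ' : Type} {p : σ → OnePoint k} {d : σ → G} {R : Subgroup G}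
    (h : VP θ p d R) (f : σ' → σ) (hf : Function.Surjective f) :
    VP θ (fun s => p (f s)) (fun s => d (f s)) R := by
  obtain ⟨c, h1, h2, h3⟩ := h
  refine ⟨c, h1, fun a ha => h2 a ?_, fun s => h3 (f s)⟩
  rintro ⟨s, rfl⟩
  obtain ⟨t, rfl⟩ := hf s
  exact ha ⟨t, rfl⟩

theorem VP.mob {p : σ → OnePoint k} {d : σ → G} {R : Subgroup G} (h : VP θ p d R)
    (μ : OnePoint k ≃ OnePoint k) (hμ : Mob1 μ) : VP θ (fun s => μ (p s)) d R := by
  obtain ⟨c, h1, h2, h3⟩ := h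
  obtain ⟨c', h4, h5⟩ := hμ G c
  have h6 : ∀ a g, c.M θ a g → c'.M θ (μ a) g := fun a g ⟨e, he, hm⟩ => ⟨e, he, h5 _ _ _ _ hm⟩
  refine ⟨c', h4.trans h1, fun a ha => ?_, fun s => h6 _ _ (h3 s)⟩
  obtain ⟨b, rfl⟩ := μ.surjective a
  refine h6 _ _ (h2 b ?_)
  rintro ⟨s, rfl⟩
  exact ha ⟨s, rfl⟩

theorem VP.bc [IsAlgClosed k] {k' : Type} [Field k'] [IsAlgClosed k'] {p : σ → OnePoint k}
    {d : σ → G} {R : Subgroup G} (h : VP θ p d R) (ψ : k →+* k') :
    VP (ψ.comp θ) (fun s => (p s).map ψ) d R := by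
  obtain ⟨c, h1, h2, h3⟩ := h
  have h0 : ∃ a e ζ g, c.Mono a e ζ g := by
    by_cases hi : ∞ ∈ Set.range p
    · obtain ⟨s, -⟩ := hi
      obtain ⟨e, -, hm⟩ := h3 s
      exact ⟨_, _, _, _, hm⟩
    · obtain ⟨e, -, hm⟩ := h2 _ hi
      exact ⟨_, _, _, _, hm⟩
  obtain ⟨c', h4, h5, h6⟩ := c.exists_baseChange ψ h0
  have h7 : ∀ a g, c.M θ a g → c'.M (ψ.comp θ) (a.map ψ) g :=
    fun a g ⟨e, he, hm⟩ => ⟨e, he, h5 _ _ _ _ hm⟩
  have h8 : ∀ b : OnePoint k, b.map ψ ∉ Set.range (fun s => (p s).map ψ) →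
      c'.M (ψ.comp θ) (b.map ψ) 1 := fun b hb => h7 b 1 (h2 b (by
    rintro ⟨s, rfl⟩
    exact hb ⟨s, rfl⟩))
  refine ⟨c', h4.trans h1, fun a ha => ?_, fun s => h7 _ _ (h3 s)⟩
  induction a using OnePoint.rec with
  | infty => exact h8 ∞ ha
  | coe x =>
    by_cases hx : x ∈ Set.range ψ
    · obtain ⟨y, rfl⟩ := hx
      exact h8 (y : OnePoint k) ha
    · exact (h6 x hx).m_one _

theorem exists_amalgam0 {k1 k2 : Type} [Field k1] [Field k2] (θ1 : K0 →+* k1) (θ2 : K0 →+* k2) :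
    ∃ (k : Type) (_ : Field k) (_ : IsAlgClosed k) (ψ1 : k1 →+* k) (ψ2 : k2 →+* k),
      ψ1.comp θ1 = ψ2.comp θ2 := by
  obtain ⟨k, i1, i2, ψ1, ψ2, h⟩ := amalg_TW θ1 θ2
  exact ⟨k, i1, i2, ψ1, ψ2, RingHom.ext h⟩

variable {ι : Type} {S : Set ι}

theorem Geo.map {H : Type} [Group H] {d : ι → G} {R : Subgroup G} (h : Geo S d R) (f : G →* H) :
    Geo S (fun i => f (d i)) (R.map f) := by
  obtain ⟨k, i1, i2, θ, p, hp, h⟩ := h
  exact ⟨k, i1, i2, θ, p, hp, h.map f⟩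

theorem Geo.mem {d : ι → G} {R : Subgroup G} (h : Geo S d R) {i : ι} (hi : i ∈ S) : d i ∈ R := by
  obtain ⟨k, i1, i2, θ, p, -, h⟩ := h
  exact h.mem ⟨i, hi⟩

theorem Geo.restr {R : Subgroup G} (H : Subgroup G) (hH : R ≤ H) (d : ι → H)
    (h : Geo S (fun i => (d i : G)) R) : Geo S d (R.subgroupOf H) := by
  obtain ⟨k, i1, i2, θ, p, hp, h⟩ := h
  exact ⟨k, i1, i2, θ, p, hp, VP.restr H hH (fun s : S => d s) h⟩

theorem Geo.equiv {ι' : Type} {S' : Set ι'} {d : ι → G} {d' : ι' → G} {R : Subgroup G}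
    (h : Geo S d R) (f : S' ≃ S) (hf : ∀ s : S', d' s = d (f s)) : Geo S' d' R := by
  obtain ⟨k, i1, i2, θ, p, hp, h⟩ := h
  refine ⟨k, i1, i2, θ, fun s => p (f s), hp.comp f.injective, ?_⟩
  rw [funext hf]
  exact h.reindex f f.surjective

theorem Geo.univ {d : ι → G} {R : Subgroup G} (h : Geo S d R) :
    Geo Set.univ (fun s : S => d s) R := by
  exact h.equiv (Equiv.Set.univ S) fun _ => rfl

theorem VP.geo [IsAlgClosed k] {p : σ → OnePoint k} {d : σ → G} {R : Subgroup G}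
    (h : VP θ p d R) (hp : Function.Injective p) : Geo Set.univ d R := by
  exact ⟨k, inferInstance, inferInstance, θ, fun s => p s, hp.comp Subtype.val_injective,
    h.reindex Subtype.val fun s => ⟨⟨s, trivial⟩, rfl⟩⟩

theorem range_le_VPL (θ θ' : K0 →+* k) : Set.range θ ⊆ Set.range θ' := by
  rintro _ ⟨x, rfl⟩
  obtain ⟨P, hP, hx⟩ := Algebra.IsAlgebraic.isAlgebraic (R := ZMod 2) x
  refine mem_range_TW θ' (θ x) (P.map (algebraMap (ZMod 2) K0))
    ((Polynomial.map_ne_zero_iff (algebraMap (ZMod 2) K0).injective).2 hP) ?_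
  rw [Polynomial.eval₂_map, Subsingleton.elim (θ'.comp _) (θ.comp (algebraMap (ZMod 2) K0)),
    ← Polynomial.hom_eval₂, ← Polynomial.aeval_def, hx, map_zero]

/-- Two embeddings of the constants have the same image. -/
theorem range_theta_eq (θ θ' : K0 →+* k) : Set.range θ = Set.range θ' := by
  exact Set.Subset.antisymm (range_le_VPL θ θ') (range_le_VPL θ' θ)

end Pool.Agent.Adm

end

section

/-! Specialisations of a field along finitely generated subrings. -/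

namespace Pool.Agent.Adm

open scoped OnePoint
open Polynomial

noncomputable section

/-- A subring of K with a homomorphism to k. -/
structure Spn (K k : Type) [Field K] [Field k] : Type 1 where
  B : Type
  [ring : CommRing B]
  i : B →+* K
  inj : Function.Injective i
  ρ : B →+* k

attribute [instance] Spn.ring

variable {K k G : Type} [Field K] [Field k] [Group G]

/-- x specialises to y. -/
def Spn.R (S : Spn K k) (x : K) (y : k) : Prop := ∃ b, S.i b = x ∧ S.ρ b = y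

/-- The point a specialises to a'. -/
def Spn.RP (S : Spn K k) (a : OnePoint K) (a' : OnePoint k) : Prop :=
  (a = ∞ ∧ a' = ∞) ∨ ∃ (x : K) (y : k), a = (x : OnePoint K) ∧ a' = (y : OnePoint k) ∧ S.R x y

/-- The polynomial D specialises to D'. -/
def Spn.R1 (S : Spn K k) (D : K[X]) (D' : k[X]) : Prop :=
  ∃ E : S.B[X], E.map S.i = D ∧ E.map S.ρ = D'

/-- The polynomial Q in two variables specialises to Q'. -/
def Spn.R2 (S : Spn K k) (Q : K[X][X]) (Q' : k[X][X]) : Prop :=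
  ∃ E : S.B[X][X], E.map (mapRingHom S.i) = Q ∧ E.map (mapRingHom S.ρ) = Q'

/-- P holds for all specialisations defined on a large enough subring. -/
def Evt (P : ∀ (k : Type) [Field k] [IsAlgClosed k], Spn K k → Prop) : Prop :=
  ∃ s : Finset K, ∀ (k : Type) [Field k] [IsAlgClosed k] (S : Spn K k),
    (∀ x ∈ s, x ∈ Set.range S.i) → P k S

/-- Evaluation of polynomials at a Laurent series. -/
def evL (u : LaurentSeries k) : k[X] →+* LaurentSeries k := eval₂RingHom HahnSeries.C u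

/-- Polynomials as elements of the function field of a covering. -/
def Cover.ap (c : Cover k G) : k[X] →+* c.L :=
  (algebraMap (RatFunc k) c.L).comp (algebraMap k[X] (RatFunc k))

/-- β is a primitive element with minimal polynomial Q. -/
def Cover.Prim (c : Cover k G) (β : c.L) (Q : k[X][X]) : Prop :=
  IntermediateField.adjoin (RatFunc k) {β} = ⊤ ∧ Q.Monic ∧
    minpoly (RatFunc k) β = Q.map (algebraMap k[X] (RatFunc k))

end

end Pool.Agent.Adm

end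

section

/-! The theorem of Eisenstein on coefficients of algebraic series. -/

namespace Pool.Agent.Adm

open Polynomial

variable {K : Type} [Field K]

/-- Power series with coefficients in a subring. -/
def RB_SP1 (B : Subring K) : Subring (PowerSeries K) where
  carrier := {f | ∀ n, PowerSeries.coeff n f ∈ B}
  mul_mem' := fun {f g} hf hg n => by
    rw [PowerSeries.coeff_mul]
    exact B.sum_mem fun p _ => B.mul_mem (hf _) (hg _)
  one_mem' := fun n => by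
    rw [PowerSeries.coeff_one]
    split_ifs
    · exact B.one_mem
    · exact B.zero_mem
  add_mem' := fun {f g} hf hg n => by
    rw [map_add]
    exact B.add_mem (hf n) (hg n)
  zero_mem' := fun n => by
    rw [map_zero]
    exact B.zero_mem
  neg_mem' := fun {f} hf n => by
    rw [map_neg]
    exact B.neg_mem (hf n)

/-- Laurent series with coefficients in a subring. -/
def LB_SP1 (B : Subring K) : Subring (LaurentSeries K) where
  carrier := {f | ∀ n, f.coeff n ∈ B}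
  mul_mem' := fun {f g} hf hg n => by
    rw [HahnSeries.coeff_mul]
    exact B.sum_mem fun p _ => B.mul_mem (hf _) (hg _)
  one_mem' := fun n => by
    rw [HahnSeries.coeff_one]
    split_ifs
    · exact B.one_mem
    · exact B.zero_mem
  add_mem' := fun {f g} hf hg n => by
    rw [HahnSeries.coeff_add]
    exact B.add_mem (hf n) (hg n)
  zero_mem' := fun n => by
    rw [HahnSeries.coeff_zero]
    exact B.zero_mem
  neg_mem' := fun {f} hf n => by
    rw [HahnSeries.coeff_neg]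
    exact B.neg_mem (hf n)

theorem single_mem_SP1 {B : Subring K} (m : ℤ) {c : K} (hc : c ∈ B) :
    (HahnSeries.single m c : LaurentSeries K) ∈ LB_SP1 B := fun n => by
  rw [HahnSeries.coeff_single]
  split_ifs
  · exact hc
  · exact B.zero_mem

theorem coe_mem_SP1 {B : Subring K} {f : PowerSeries K} (hf : f ∈ RB_SP1 B) :
    HahnSeries.ofPowerSeries ℤ K f ∈ LB_SP1 B := fun n => by
  rw [PowerSeries.coeff_coe]
  split_ifs
  · exact B.zero_mem
  · exact hf _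

theorem mem_of_coe_SP1 {B : Subring K} {f : PowerSeries K}
    (hf : HahnSeries.ofPowerSeries ℤ K f ∈ LB_SP1 B) : f ∈ RB_SP1 B := fun n => by
  rw [← LaurentSeries.coeff_coe_powerSeries]
  exact hf _

theorem eval₂_mem_SP1 {R S : Type} [CommRing R] [CommRing S] (φ : R →+* S) (A : Subring S)
    (P : R[X]) {y : S} (hP : ∀ i, φ (P.coeff i) ∈ A) (hy : y ∈ A) : P.eval₂ φ y ∈ A := by
  rw [eval₂_eq_sum_range]
  exact A.sum_mem fun i _ => A.mul_mem (hP i) (A.pow_mem hy i)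

theorem step_SP1 {B : Subring K} {P : (PowerSeries K)[X]} (hP : ∀ i, P.coeff i ∈ RB_SP1 B)
    {y v : PowerSeries K} {m : ℕ} (h : P.eval y = 0)
    (h' : P.derivative.eval y = PowerSeries.X ^ m * v)
    (hv : PowerSeries.constantCoeff v ≠ 0) (hc : (PowerSeries.constantCoeff v)⁻¹ ∈ B)
    {n : ℕ} (hn : m < n) (ih : ∀ j < n, PowerSeries.coeff j y ∈ B) :
    PowerSeries.coeff n y ∈ B := by
  obtain ⟨w, hw, hw0⟩ : ∃ w : PowerSeries K,
      y = PowerSeries.X ^ n * w + ((PowerSeries.trunc n y : K[X]) : PowerSeries K) ∧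
        PowerSeries.constantCoeff w = PowerSeries.coeff n y :=
    ⟨_, PowerSeries.eq_X_pow_mul_shift_add_trunc n y, by simp⟩
  have ht : ((PowerSeries.trunc n y : K[X]) : PowerSeries K) ∈ RB_SP1 B := fun j => by
    rw [Polynomial.coeff_coe, PowerSeries.coeff_trunc]
    split_ifs with hj
    · exact ih j hj
    · exact B.zero_mem
  have he : P.eval ((PowerSeries.trunc n y : K[X]) : PowerSeries K) ∈ RB_SP1 B :=
    eval₂_mem_SP1 (RingHom.id _) _ P hP ht
  obtain ⟨k, hk⟩ := P.binomExpansion y (-(PowerSeries.X ^ n * w))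
  have e1 : y + -(PowerSeries.X ^ n * w) =
      ((PowerSeries.trunc n y : K[X]) : PowerSeries K) := by
    linear_combination hw
  obtain ⟨d, rfl⟩ := Nat.exists_eq_add_of_lt hn
  have e2 : P.eval ((PowerSeries.trunc (m + d + 1) y : K[X]) : PowerSeries K) =
      PowerSeries.X ^ (m + (m + d + 1)) *
        (-(v * w) + PowerSeries.X * (PowerSeries.X ^ d * k * w ^ 2)) := by
    rw [← e1, hk, h, h']
    ring
  have e3 := he (0 + (m + (m + d + 1)))
  rw [e2, PowerSeries.coeff_X_pow_mul, PowerSeries.coeff_zero_eq_constantCoeff, map_add, map_mul,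
    PowerSeries.constantCoeff_X, zero_mul, add_zero, map_neg, map_mul, hw0] at e3
  have e4 := B.mul_mem hc (B.neg_mem e3)
  rwa [neg_neg, inv_mul_cancel_left₀ hv] at e4

theorem core_SP1 (s0 : Finset K) {P : (PowerSeries K)[X]}
    (hP : ∀ i, P.coeff i ∈ RB_SP1 (Subring.closure (s0 : Set K))) {y : PowerSeries K}
    (h : P.eval y = 0) (h' : P.derivative.eval y ≠ 0) :
    ∃ s : Finset K, y ∈ RB_SP1 (Subring.closure (s : Set K)) := by
  classical
  obtain ⟨m, v, hm, hv⟩ : ∃ (m : ℕ) (v : PowerSeries K),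
      P.derivative.eval y = PowerSeries.X ^ m * v ∧ PowerSeries.constantCoeff v ≠ 0 :=
    ⟨_, _, PowerSeries.X_pow_order_mul_divXPowOrder.symm,
      fun h0 => h' (PowerSeries.constantCoeff_divXPowOrder_eq_zero_iff.1 h0)⟩
  refine ⟨insert (PowerSeries.constantCoeff v)⁻¹
    (s0 ∪ (Finset.range (m + 1)).image fun j => PowerSeries.coeff j y), fun n => ?_⟩
  induction n using Nat.strong_induction_on with
  | _ n ih =>
    by_cases hn : m < n
    · refine step_SP1 (fun i j => Subring.closure_mono ?_ (hP i j)) h hm hv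
        (Subring.subset_closure (Finset.mem_insert_self _ _)) hn ih
      exact Finset.coe_subset.2 (Finset.subset_union_left.trans (Finset.subset_insert _ _))
    · exact Subring.subset_closure (Finset.mem_insert_of_mem (Finset.mem_union_right _
        (Finset.mem_image.2 ⟨n, Finset.mem_range.2 (by omega), rfl⟩)))

theorem coeffs_SP1 (P : K[X][X]) (a : K) : ∃ s : Finset K, a ∈ Subring.closure (s : Set K) ∧
    ∀ i n, (P.coeff i).coeff n ∈ Subring.closure (s : Set K) := by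
  classical
  refine ⟨insert a (P.coeffs.biUnion Polynomial.coeffs),
    Subring.subset_closure (Finset.mem_insert_self _ _), fun i n => ?_⟩
  by_cases h : (P.coeff i).coeff n = 0
  · rw [h]
    exact Subring.zero_mem _
  · refine Subring.subset_closure (Finset.mem_insert_of_mem (Finset.mem_biUnion.2
      ⟨P.coeff i, coeff_mem_coeffs fun h0 => h ?_, coeff_mem_coeffs h⟩))
    rw [h0, coeff_zero]

theorem coreL_SP1 (s0 : Finset K) {Q : (LaurentSeries K)[X]}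
    (hQ : ∀ i, Q.coeff i ∈ LB_SP1 (Subring.closure (s0 : Set K))) {y : LaurentSeries K}
    (h : Q.eval y = 0) (h' : Q.derivative.eval y ≠ 0) :
    ∃ s : Finset K, y ∈ LB_SP1 (Subring.closure (s : Set K)) := by
  obtain ⟨ν, u, hy⟩ : ∃ (ν : ℤ) (u : PowerSeries K),
      (HahnSeries.single ν 1 : LaurentSeries K) * HahnSeries.ofPowerSeries ℤ K u = y :=
    ⟨_, _, LaurentSeries.single_order_mul_powerSeriesPart y⟩
  obtain ⟨b, ⟨M, rfl⟩, hb⟩ := IsLocalization.integerNormalization_spec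
    (Submonoid.powers (PowerSeries.X : PowerSeries K))
    (Q.comp (C (HahnSeries.single ν 1 : LaurentSeries K) * X))
  generalize IsLocalization.integerNormalization
    (Submonoid.powers (PowerSeries.X : PowerSeries K))
    (Q.comp (C (HahnSeries.single ν 1 : LaurentSeries K) * X)) = P at hb
  rw [← IsScalarTower.algebraMap_smul (LaurentSeries K), smul_eq_C_mul] at hb
  have hf : algebraMap (PowerSeries K) (LaurentSeries K) = HahnSeries.ofPowerSeries ℤ K := rfl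
  rw [hf, HahnSeries.ofPowerSeries_X_pow] at hb
  have hinj : Function.Injective (HahnSeries.ofPowerSeries ℤ K) :=
    HahnSeries.ofPowerSeries_injective
  have hne : ∀ m : ℤ, (HahnSeries.single m 1 : LaurentSeries K) ≠ 0 := fun m =>
    HahnSeries.single_ne_zero one_ne_zero
  obtain ⟨s, hs⟩ := core_SP1 s0 (P := P) (y := u) (fun i => mem_of_coe_SP1 (by
      rw [← coeff_map, hb, coeff_C_mul, comp_C_mul_X_coeff]
      exact Subring.mul_mem _ (single_mem_SP1 _ (Subring.one_mem _)) (Subring.mul_mem _ (hQ i)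
        (Subring.pow_mem _ (single_mem_SP1 _ (Subring.one_mem _)) _))))
    (hinj (by
      rw [← eval_map_apply, hb, eval_mul, eval_comp, eval_mul, eval_C, eval_C, eval_X, hy, h,
        mul_zero, map_zero]))
    (fun h0 => by
      have h1 := congrArg (HahnSeries.ofPowerSeries ℤ K) h0
      rw [← eval_map_apply, ← derivative_map, hb, derivative_C_mul, derivative_comp,
        derivative_C_mul_X, eval_mul, eval_mul, eval_comp, eval_mul, eval_C, eval_C, eval_X, hy,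
        map_zero] at h1
      exact mul_ne_zero (hne _) (mul_ne_zero (hne _) h') h1)
  refine ⟨s, ?_⟩
  rw [← hy]
  exact Subring.mul_mem _ (single_mem_SP1 _ (Subring.one_mem _)) (coe_mem_SP1 hs)

theorem eisenstein_ps (P : K[X][X]) (y : PowerSeries K)
    (h : P.eval₂ (Polynomial.coeToPowerSeries.ringHom) y = 0)
    (h' : (derivative P).eval₂ (Polynomial.coeToPowerSeries.ringHom) y ≠ 0) :
    ∃ s : Finset K, ∀ n, PowerSeries.coeff n y ∈ Subring.closure (s : Set K) := by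
  obtain ⟨s0, -, hs0⟩ := coeffs_SP1 P 0
  refine core_SP1 s0 (P := P.map Polynomial.coeToPowerSeries.ringHom) (fun i n => ?_) ?_ ?_
  · rw [coeff_map, Polynomial.coeToPowerSeries.ringHom_apply, Polynomial.coeff_coe]
    exact hs0 i n
  · rwa [eval_map]
  · rwa [derivative_map, eval_map]

theorem eisenstein (a : OnePoint K) (e : ℕ) (Q : K[X][X]) (y : LaurentSeries K)
    (h : Q.eval₂ (evL (expand a e)) y = 0) (h' : (derivative Q).eval₂ (evL (expand a e)) y ≠ 0) :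
    ∃ s : Finset K, ∀ n, y.coeff n ∈ Subring.closure (s : Set K) := by
  obtain ⟨s0, ha, hs0⟩ := coeffs_SP1 Q (a.elim 0 id)
  have hu : expand a e ∈ LB_SP1 (Subring.closure (s0 : Set K)) := by
    induction a using OnePoint.rec with
    | infty => exact single_mem_SP1 _ (Subring.one_mem _)
    | coe b =>
      exact Subring.add_mem _ (single_mem_SP1 0 ha) (single_mem_SP1 _ (Subring.one_mem _))
  refine coreL_SP1 s0 (Q := Q.map (evL (expand a e))) (fun i => ?_) ?_ ?_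
  · rw [coeff_map]
    exact eval₂_mem_SP1 _ _ _ (fun n => single_mem_SP1 0 (hs0 i n)) hu
  · rwa [eval_map]
  · rwa [derivative_map, eval_map]

end Pool.Agent.Adm

end

section

/-! Properties holding for all large enough specialisations. -/

namespace Pool.Agent.Adm

open scoped OnePoint
open Polynomial

variable {K : Type} [Field K] {P P' : ∀ (k : Type) [Field k] [IsAlgClosed k], Spn K k → Prop}

theorem Evt.mono (h : Evt P)
    (hP : ∀ (k : Type) [Field k] [IsAlgClosed k] (S : Spn K k), P k S → P' k S) : Evt P' := by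
  obtain ⟨s, hs⟩ := h
  exact ⟨s, fun k _ _ S e => hP k S (hs k S e)⟩

theorem Evt.and (h : Evt P) (h' : Evt P') : Evt (K := K) fun k _ _ S => P k S ∧ P' k S := by
  classical
  obtain ⟨s, hs⟩ := h
  obtain ⟨s', hs'⟩ := h'
  exact ⟨s ∪ s', fun k _ _ S e => ⟨hs k S fun x hx => e x (Finset.mem_union_left _ hx),
    hs' k S fun x hx => e x (Finset.mem_union_right _ hx)⟩⟩

theorem Evt.all {J : Type} [Finite J]
    {P : J → ∀ (k : Type) [Field k] [IsAlgClosed k], Spn K k → Prop} (h : ∀ j, Evt (P j)) :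
    Evt (K := K) fun k _ _ S => ∀ j, P j k S := by
  classical
  have := Fintype.ofFinite J
  choose s hs using h
  exact ⟨Finset.univ.biUnion s, fun k _ _ S e j => hs j k S fun x hx =>
    e x (Finset.mem_biUnion.2 ⟨j, Finset.mem_univ j, hx⟩)⟩

theorem evt_mem (x : K) : Evt (K := K) fun k _ _ S => ∃ y : k, S.R x y := by
  refine ⟨{x}, fun k _ _ S e => ?_⟩
  obtain ⟨b, hb⟩ := e x (Finset.mem_singleton_self x)
  exact ⟨_, b, hb, rfl⟩

theorem evt_point (a : OnePoint K) : Evt (K := K) fun k _ _ S => ∃ a' : OnePoint k, S.RP a a' := by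
  induction a using OnePoint.rec with
  | infty => exact ⟨∅, fun k _ _ S _ => ⟨∞, Or.inl ⟨rfl, rfl⟩⟩⟩
  | coe x => exact (evt_mem x).mono fun k _ _ S ⟨y, h⟩ => ⟨y, Or.inr ⟨x, y, rfl, rfl, h⟩⟩

theorem evt_ne (x : K) (hx : x ≠ 0) : Evt (K := K) fun k _ _ S => ∀ y : k, S.R x y → y ≠ 0 := by
  refine ⟨{x⁻¹}, fun k _ _ S e y ⟨b, hb, hy⟩ => ?_⟩
  obtain ⟨b', hb'⟩ := e _ (Finset.mem_singleton_self _)
  have h : b * b' = 1 := S.inj (by rw [map_mul, hb, hb', map_one, mul_inv_cancel₀ hx])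
  exact left_ne_zero_of_mul_eq_one (b := S.ρ b') (by rw [← hy, ← map_mul, h, map_one])

theorem evt_R1 (D : K[X]) : Evt (K := K) fun k _ _ S => ∃ D' : k[X], S.R1 D D' := by
  refine ⟨D.coeffs, fun k _ _ S e => ?_⟩
  obtain ⟨E, hE⟩ := (mem_lifts (f := S.i) D).1 ((lifts_iff_coeffs_subset_range D).2 e)
  exact ⟨_, E, hE, rfl⟩

theorem evt_R2 (Q : K[X][X]) : Evt (K := K) fun k _ _ S => ∃ Q' : k[X][X], S.R2 Q Q' := by
  refine (Evt.all fun c : Q.coeffs => evt_R1 c.1).mono fun k _ _ S h => ?_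
  obtain ⟨E, hE⟩ := (mem_lifts (f := mapRingHom S.i) Q).1
    ((lifts_iff_coeffs_subset_range Q).2 fun c hc => by
      obtain ⟨_, E, hE, -⟩ := h ⟨c, hc⟩
      exact ⟨E, hE⟩)
  exact ⟨_, E, hE, rfl⟩

theorem evt_R1_ne (D : K[X]) (hD : D ≠ 0) :
    Evt (K := K) fun k _ _ S => ∀ D' : k[X], S.R1 D D' → D' ≠ 0 := by
  refine (evt_ne D.leadingCoeff (leadingCoeff_ne_zero.2 hD)).mono ?_
  rintro k _ _ S h _ ⟨E, h1, rfl⟩ e
  refine h _ ⟨E.coeff D.natDegree, by rw [← coeff_map, h1, leadingCoeff], rfl⟩ ?_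
  rw [← coeff_map, e, coeff_zero]

theorem evt_roots [IsAlgClosed K] (D : K[X]) (hD : D ≠ 0) :
    Evt (K := K) fun k _ _ S => ∀ D' : k[X], S.R1 D D' → ∀ y : k, D'.eval y = 0 →
      ∃ x : K, D.eval x = 0 ∧ S.R x y := by
  classical
  have h0 : Evt (K := K) fun k _ _ S => ∀ x ∈ D.roots, x ∈ Set.range S.i :=
    ⟨D.roots.toFinset, fun k _ _ S e x hx => e x (Multiset.mem_toFinset.2 hx)⟩
  refine ((evt_ne D.leadingCoeff (leadingCoeff_ne_zero.2 hD)).and h0).mono ?_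
  rintro k _ _ S ⟨h1, h2⟩ _ ⟨E, h3, rfl⟩ y hy
  have h4 : S.i (E.coeff D.natDegree) = D.leadingCoeff := by rw [← coeff_map, h3, leadingCoeff]
  have h5 : E = C (E.coeff D.natDegree) *
      (D.roots.map fun x => X - C (Function.invFun S.i x)).prod := by
    refine map_injective S.i S.inj ?_
    rw [h3, Polynomial.map_mul, map_C, h4, Polynomial.map_multiset_prod, Multiset.map_map]
    conv_lhs => rw [← C_leadingCoeff_mul_prod_multiset_X_sub_C
      (IsAlgClosed.card_roots_eq_natDegree (p := D))]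
    congr 2
    refine Multiset.map_congr rfl fun x hx => ?_
    rw [Function.comp_apply, Polynomial.map_sub, map_X, map_C, Function.invFun_eq (h2 x hx)]
  rw [h5, Polynomial.map_mul, map_C, eval_mul, eval_C, Polynomial.map_multiset_prod,
    eval_multiset_prod, Multiset.map_map, Multiset.map_map] at hy
  obtain ⟨x, hx, h6⟩ := Multiset.mem_map.1 (Multiset.prod_eq_zero_iff.1
    ((mul_eq_zero.1 hy).resolve_left (h1 _ ⟨_, h4, rfl⟩)))
  refine ⟨x, (mem_roots hD).1 hx, _, Function.invFun_eq (h2 x hx), (sub_eq_zero.1 ?_).symm⟩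
  simpa using h6

theorem evt_prim (ζ : K) (e : ℕ) (he : 0 < e) (hζ : IsPrimitiveRoot ζ e) :
    Evt (K := K) fun k _ _ S => ∀ ζ' : k, S.R ζ ζ' → IsPrimitiveRoot ζ' e := by
  refine (Evt.all fun l : Set.Ioo 0 e => evt_ne (ζ ^ l.1 - 1)
    (sub_ne_zero.2 (hζ.pow_ne_one_of_pos_of_lt l.2.1.ne' l.2.2))).mono ?_
  rintro k _ _ S h _ ⟨b, rfl, rfl⟩
  refine IsPrimitiveRoot.mk_of_lt _ he ?_ fun l h1 h2 => sub_ne_zero.1
    (h ⟨l, h1, h2⟩ _ ⟨b ^ l - 1, by simp, by simp⟩)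
  have : b ^ e = 1 := S.inj (by rw [map_pow, hζ.pow_eq_one, map_one])
  rw [← map_pow, this, map_one]

variable {k : Type} [Field k] {S : Spn K k}

theorem Spn.R.unique {x : K} {y y' : k} (h : S.R x y) (h' : S.R x y') : y = y' := by
  obtain ⟨b, rfl, rfl⟩ := h
  obtain ⟨b', h1, rfl⟩ := h'
  rw [S.inj h1]

theorem Spn.RP.unique {a : OnePoint K} {b b' : OnePoint k} (h : S.RP a b) (h' : S.RP a b') :
    b = b' := by
  rcases h with ⟨rfl, rfl⟩ | ⟨x, y, rfl, rfl, h⟩ <;>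
    rcases h' with ⟨h1, rfl⟩ | ⟨x', y', h1, rfl, h'⟩
  · rfl
  · exact absurd h1 (OnePoint.infty_ne_coe _)
  · exact absurd h1 (OnePoint.coe_ne_infty _)
  · obtain rfl := OnePoint.coe_injective h1
    rw [h.unique h']

theorem Spn.R1.unique {D : K[X]} {E E' : k[X]} (h : S.R1 D E) (h' : S.R1 D E') : E = E' := by
  obtain ⟨b, rfl, rfl⟩ := h
  obtain ⟨b', h1, rfl⟩ := h'
  rw [map_injective S.i S.inj h1]

theorem Spn.R2.monic {Q : K[X][X]} {Q' : k[X][X]} (h : S.R2 Q Q') (hQ : Q.Monic) :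
    Q'.Monic ∧ Q'.natDegree = Q.natDegree := by
  obtain ⟨E, rfl, rfl⟩ := h
  have hi : Function.Injective (mapRingHom S.i) := map_injective S.i S.inj
  have h1 : E.Monic := monic_of_injective hi hQ
  exact ⟨h1.map _, by rw [h1.natDegree_map, h1.natDegree_map]⟩

/-- A Bezout identity specialises. -/
theorem Spn.bezout {Q U W : K[X][X]} {Q' U' W' : k[X][X]} {D : K[X]} {D' : k[X]} (hQ : S.R2 Q Q')
    (hU : S.R2 U U') (hW : S.R2 W W') (hD : S.R1 D D') (h : U * Q + W * derivative Q = C D) :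
    U' * Q' + W' * derivative Q' = C D' := by
  obtain ⟨Q, rfl, rfl⟩ := hQ
  obtain ⟨U, rfl, rfl⟩ := hU
  obtain ⟨W, rfl, rfl⟩ := hW
  obtain ⟨D, rfl, rfl⟩ := hD
  have h1 : U * Q + W * derivative Q = C D :=
    map_injective (mapRingHom S.i) (map_injective S.i S.inj) (by
      simpa only [Polynomial.map_add, Polynomial.map_mul, map_C, ← derivative_map,
        coe_mapRingHom] using h)
  simpa only [Polynomial.map_add, Polynomial.map_mul, map_C, ← derivative_map,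
    coe_mapRingHom] using congrArg (Polynomial.map (mapRingHom S.ρ)) h1

end Pool.Agent.Adm

end

section

/-! Irreducibility spreads out. -/

namespace Pool.Agent.Adm

open Polynomial

variable {K : Type} [Field K] [IsAlgClosed K]

theorem evt_no_zero {ι τ : Type} [Finite ι] [Finite τ] (F : ι → MvPolynomial τ K)
    (h : ¬ ∃ x : τ → K, ∀ i, MvPolynomial.eval x (F i) = 0) :
    Evt (K := K) fun k _ _ S => ∀ E : ι → MvPolynomial τ S.B,
      (∀ i, MvPolynomial.map S.i (E i) = F i) →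
      ¬ ∃ x : τ → k, ∀ i, MvPolynomial.eval₂ S.ρ x (E i) = 0 := by
  classical
  have := Fintype.ofFinite ι
  have htop : Ideal.span (Set.range F) = ⊤ := by
    by_contra hne
    obtain ⟨m, hm, hle⟩ := Ideal.exists_le_maximal _ hne
    obtain ⟨x, rfl⟩ := MvPolynomial.isMaximal_iff_eq_vanishingIdeal_singleton.1 hm
    refine h ⟨x, fun i => ?_⟩
    have h1 := (MvPolynomial.mem_vanishingIdeal_singleton_iff x (F i)).1
      (hle (Ideal.subset_span ⟨i, rfl⟩))
    rwa [MvPolynomial.aeval_eq_eval] at h1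
  obtain ⟨u, hu⟩ := Ideal.mem_span_range_iff_exists_fun.1
    ((Ideal.eq_top_iff_one _).1 htop)
  refine ⟨Finset.univ.biUnion fun i => (u i).coeffs, fun k _ _ S hS E hE => ?_⟩
  have hU : ∀ i, ∃ U : MvPolynomial τ S.B, MvPolynomial.map S.i U = u i := fun i =>
    MvPolynomial.mem_range_map_iff_coeffs_subset.2 fun c hc =>
      hS c (Finset.mem_biUnion.2 ⟨i, Finset.mem_univ _, hc⟩)
  choose U hU using hU
  have h1 : ∑ i, U i * E i = 1 := by
    apply MvPolynomial.map_injective S.i S.inj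
    rw [map_sum, map_one, ← hu]
    exact Finset.sum_congr rfl fun i _ => by rw [map_mul, hU, hE]
  rintro ⟨x, hx⟩
  have h2 := congrArg (MvPolynomial.eval₂Hom S.ρ x) h1
  rw [map_sum, map_one, Finset.sum_eq_zero fun i _ => by
    rw [map_mul, MvPolynomial.coe_eval₂Hom, hx, mul_zero]] at h2
  exact zero_ne_one h2

theorem coeff_swap_SP3 {R : Type} [CommRing R] (Q : R[X][X]) (i j : ℕ) :
    ((Bivariate.swap Q).coeff i).coeff j = (Q.coeff j).coeff i := by
  induction Q using Polynomial.induction_on' with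
  | add p q hp hq => simp only [map_add, coeff_add, hp, hq]
  | monomial n f =>
    rw [Bivariate.swap_monomial, coeff_mul_C, coeff_map, coeff_C_mul, coeff_X_pow, coeff_monomial]
    by_cases h : j = n
    · simp [h]
    · simp [h, Ne.symm h]

theorem natDegree_swap_SP3 {R : Type} [CommRing R] (Q : R[X][X]) (M : ℕ) :
    (Bivariate.swap Q).natDegree ≤ M ↔ ∀ i, (Q.coeff i).natDegree ≤ M := by
  simp only [natDegree_le_iff_coeff_eq_zero]
  constructor
  · intro h i N hN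
    rw [← coeff_swap_SP3, h N hN, coeff_zero]
  · intro h N hN
    ext j
    rw [coeff_swap_SP3, h j N hN, coeff_zero]

/-- A reducible monic polynomial has monic factors of bounded degrees. -/
theorem exists_factors {k : Type} [Field k] (Q : k[X][X]) (hQ : Q.Monic) (h0 : 0 < Q.natDegree)
    (M : ℕ) (hM : ∀ i, (Q.coeff i).natDegree ≤ M)
    (h : ¬ Irreducible (Q.map (algebraMap k[X] (RatFunc k)))) :
    ∃ Q1 Q2 : k[X][X], Q1.Monic ∧ Q2.Monic ∧ 0 < Q1.natDegree ∧ 0 < Q2.natDegree ∧ Q1 * Q2 = Q ∧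
      (∀ i, (Q1.coeff i).natDegree ≤ M) ∧ ∀ i, (Q2.coeff i).natDegree ≤ M := by
  have h1 : ¬ Irreducible Q := fun h' =>
    h ((hQ.irreducible_iff_irreducible_map_fraction_map (K := RatFunc k)).1 h')
  have h2 : Q ≠ 1 := by
    rintro rfl
    simp at h0
  rw [hQ.irreducible_iff_natDegree, and_iff_right h2] at h1
  push Not at h1
  obtain ⟨Q1, Q2, m1, m2, e, d1, d2⟩ := h1
  have s1 : Bivariate.swap Q1 ≠ 0 := (map_ne_zero_iff _ Bivariate.swap.injective).2 m1.ne_zero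
  have s2 : Bivariate.swap Q2 ≠ 0 := (map_ne_zero_iff _ Bivariate.swap.injective).2 m2.ne_zero
  have h3 := (natDegree_swap_SP3 Q M).2 hM
  rw [← e, map_mul, natDegree_mul s1 s2] at h3
  exact ⟨Q1, Q2, m1, m2, Nat.pos_of_ne_zero d1, Nat.pos_of_ne_zero d2, e,
    (natDegree_swap_SP3 Q1 M).1 (by omega), (natDegree_swap_SP3 Q2 M).1 (by omega)⟩

end Pool.Agent.Adm

end

section

/-! Irreducibility spreads out. -/

namespace Pool.Agent.Adm

open Polynomial

/-- A polynomial in two variables with given coefficients. -/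
noncomputable def genv_SP3b {A : Type} [CommRing A] {d M : ℕ} (x : Fin d × Fin M → A) :
    A[X][X] := ∑ i : Fin d, monomial i (∑ j : Fin M, monomial j (x (i, j)))

/-- The defect of a factorisation. -/
noncomputable def dfc_SP3b {A : Type} [CommRing A] {d M : ℕ} (x : Bool × Fin d × Fin M → A)
    (Q : A[X][X]) : A[X][X] :=
  genv_SP3b (fun t => x (true, t)) * genv_SP3b (fun t => x (false, t)) - Q

theorem coeff_SP3b {A A' : Type} [CommRing A] [CommRing A'] {d M : ℕ} (f : A →+* A')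
    (x : Bool × Fin d × Fin M → A) (Q : A[X][X]) (i j : ℕ) :
    f (((dfc_SP3b x Q).coeff i).coeff j) =
      ((dfc_SP3b (fun t => f (x t)) (Q.map (mapRingHom f))).coeff i).coeff j := by
  have : (dfc_SP3b x Q).map (mapRingHom f) =
      dfc_SP3b (fun t => f (x t)) (Q.map (mapRingHom f)) := by
    simp [dfc_SP3b, genv_SP3b, Polynomial.map_sum]
  rw [← this, coeff_map, coe_mapRingHom, coeff_map]

theorem deg_SP3b {A : Type} [CommRing A] {d M : ℕ} (hd : 0 < d) (x : Fin d × Fin M → A) :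
    (genv_SP3b x).natDegree < d :=
  lt_of_le_of_lt (natDegree_sum_le_of_forall_le (n := d - 1) _ _ fun i _ =>
    (natDegree_monomial_le _).trans (by omega)) (by omega)

theorem eq_SP3b {A : Type} [CommRing A] {d M : ℕ} {Q : A[X][X]} (hd : Q.natDegree < d)
    (hM : ∀ i, (Q.coeff i).natDegree ≤ M) :
    genv_SP3b (fun t : Fin d × Fin (M + 1) => (Q.coeff t.1).coeff t.2) = Q := by
  conv_rhs => rw [Q.as_sum_range' d hd, Finset.sum_range]
  refine Finset.sum_congr rfl fun i _ => ?_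
  conv_rhs => rw [(Q.coeff i).as_sum_range' (M + 1) (Nat.lt_succ_of_le (hM i)), Finset.sum_range]

theorem mapmap_SP3b {A A' A'' : Type} [CommRing A] [CommRing A'] [CommRing A''] (f : A →+* A')
    (g : A' →+* A'') (Q : A[X][X]) :
    (Q.map (mapRingHom f)).map (mapRingHom g) = Q.map (mapRingHom (g.comp f)) := by
  rw [Polynomial.map_map, mapRingHom_comp]

theorem mapC_SP3b {A A' τ : Type} [CommRing A] [CommRing A'] {f : A →+* A'} {E : A[X][X]}
    {Q : A'[X][X]} (h : E.map (mapRingHom f) = Q) :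
    (E.map (mapRingHom (MvPolynomial.C (σ := τ)))).map (mapRingHom (MvPolynomial.map f)) =
      Q.map (mapRingHom MvPolynomial.C) := by
  rw [← h, mapmap_SP3b, mapmap_SP3b]
  congr 2
  ext
  simp

theorem evt_irreducible {K : Type} [Field K] [IsAlgClosed K] (Q : K[X][X]) (hQ : Q.Monic)
    (h : Irreducible (Q.map (algebraMap K[X] (RatFunc K)))) :
    Evt (K := K) fun k _ _ S => ∀ Q' : k[X][X], S.R2 Q Q' →
      Irreducible (Q'.map (algebraMap k[X] (RatFunc k))) := by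
  have hinj : Function.Injective (algebraMap K[X] (RatFunc K)) := IsFractionRing.injective _ _
  have hd : 0 < Q.natDegree := by
    rw [← natDegree_map_eq_of_injective hinj]
    exact h.natDegree_pos
  obtain ⟨M, hM⟩ : ∃ M, ∀ i, (Q.coeff i).natDegree ≤ M :=
    ⟨Q.support.sup fun i => (Q.coeff i).natDegree, fun i => by
      by_cases e : i ∈ Q.support
      · exact Finset.le_sup (f := fun i => (Q.coeff i).natDegree) e
      · simp [notMem_support_iff.1 e]⟩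
  let P : (MvPolynomial (Bool × Fin Q.natDegree × Fin (M + 1)) K)[X][X] :=
    dfc_SP3b MvPolynomial.X (Q.map (mapRingHom MvPolynomial.C))
  refine (evt_no_zero (ι := Σ i : P.support, (P.coeff i).support)
    (fun t => (P.coeff t.1).coeff t.2) ?_).mono ?_
  · rintro ⟨x, hx⟩
    have h1 : dfc_SP3b x Q = 0 := by
      ext i j
      have e := coeff_SP3b (MvPolynomial.eval x) MvPolynomial.X
        (Q.map (mapRingHom MvPolynomial.C)) i j
      rw [mapmap_SP3b, show (MvPolynomial.eval x).comp MvPolynomial.C = RingHom.id K by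
        ext; simp, mapRingHom_id, Polynomial.map_id] at e
      simp only [MvPolynomial.eval_X] at e
      rw [← e, coeff_zero, coeff_zero]
      by_cases e2 : (P.coeff i).coeff j = 0
      · rw [e2, map_zero]
      · exact hx ⟨⟨i, mem_support_iff.2 fun e3 => e2 (by rw [e3, coeff_zero])⟩,
          ⟨j, mem_support_iff.2 e2⟩⟩
    have h2 := congrArg (Polynomial.map (algebraMap K[X] (RatFunc K))) (sub_eq_zero.1 h1)
    rw [Polynomial.map_mul] at h2
    have h3 := congrArg natDegree h2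
    have h4 := h2.trans_ne h.ne_zero
    rw [natDegree_mul (left_ne_zero_of_mul h4) (right_ne_zero_of_mul h4),
      natDegree_map_eq_of_injective hinj Q] at h3
    have a1 := (natDegree_map_le (f := algebraMap K[X] (RatFunc K))).trans_lt
      (deg_SP3b hd fun t => x (true, t))
    have a2 := (natDegree_map_le (f := algebraMap K[X] (RatFunc K))).trans_lt
      (deg_SP3b hd fun t => x (false, t))
    rcases h.isUnit_or_isUnit h2.symm with u | u <;> have := natDegree_eq_zero_of_isUnit u <;>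
      omega
  · intro k _ _ S hS Q' hR
    obtain ⟨m1, m2⟩ := hR.monic hQ
    obtain ⟨E, e1, e2⟩ := hR
    by_contra hn
    obtain ⟨Q1, Q2, q1, q2, q3, q4, q5, q6, q7⟩ := exists_factors Q' m1 (m2 ▸ hd) M (fun i => by
      have := hM i
      rw [← e1, coeff_map, coe_mapRingHom, natDegree_map_eq_of_injective S.inj] at this
      rw [← e2, coeff_map, coe_mapRingHom]
      exact natDegree_map_le.trans this) hn
    have h3 := q1.natDegree_mul q2
    rw [q5, m2] at h3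
    refine hS (fun t => ((dfc_SP3b MvPolynomial.X (E.map (mapRingHom MvPolynomial.C))).coeff
      t.1).coeff t.2) (fun t => ?_)
      ⟨fun t => ((bif t.1 then Q1 else Q2).coeff t.2.1).coeff t.2.2, fun t => ?_⟩
    · refine (coeff_SP3b _ _ _ _ _).trans ?_
      rw [mapC_SP3b e1]
      simp only [P, MvPolynomial.map_X]
    · rw [← MvPolynomial.coe_eval₂Hom, coeff_SP3b, mapmap_SP3b, MvPolynomial.eval₂Hom_comp_C, e2]
      simp only [MvPolynomial.eval₂Hom_X', dfc_SP3b, cond_true, cond_false]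
      rw [eq_SP3b (by omega) q6, eq_SP3b (by omega) q7, q5, sub_self, coeff_zero, coeff_zero]

end Pool.Agent.Adm

end

section

/-! Transport of coverings along projective transformations. -/

namespace Pool.Agent.Adm

open scoped OnePoint

variable {k : Type} [Field k]

theorem Mob1.comp {μ ν : OnePoint k → OnePoint k} (hμ : Mob1 μ) (hν : Mob1 ν) :
    Mob1 (ν ∘ μ) := by
  intro G _ c
  obtain ⟨c1, h1, h2⟩ := hμ G c
  obtain ⟨c2, h3, h4⟩ := hν G c1
  exact ⟨c2, h3.trans h1, fun a e ζ g h => h4 _ _ _ _ (h2 _ _ _ _ h)⟩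

theorem IsMob.trans {μ ν : OnePoint k ≃ OnePoint k} (hμ : IsMob μ) (hν : IsMob ν) :
    IsMob (μ.trans ν) := by
  exact ⟨hμ.1.comp hν.1, hν.2.comp hμ.2⟩

theorem IsMob.symm {μ : OnePoint k ≃ OnePoint k} (hμ : IsMob μ) : IsMob μ.symm := by
  exact ⟨hμ.2, hμ.1⟩

theorem exists_twist_MB {G : Type} [Group G] (c : Cover k G) (τ : RatFunc k ≃+* RatFunc k)
    (t1 : ∀ x, τ (RatFunc.C x) = RatFunc.C x) :
    ∃ c' : Cover k G, c'.ι.range = c.ι.range ∧
      ∀ (W : Type) [CommRing W] (ψ : k →+* W) (u : W) (s : W →+* W) (g : G),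
        c.RMono ψ u s g → ∃ f : RatFunc k →+* W, (∀ x, f (RatFunc.C x) = ψ x) ∧
          f RatFunc.X = u ∧ c'.RMono ψ (f (τ RatFunc.X)) s g := by
  obtain ⟨c', e, h1, h2, h3⟩ := exists_twist_TR c τ
  refine ⟨c', le_antisymm h2 ?_, ?_⟩
  · rintro _ ⟨σ, rfl⟩
    obtain ⟨σ', h4, -⟩ := h3 σ
    exact ⟨σ', h4⟩
  · rintro W _ ψ u s g ⟨j, j1, j2, σ, j3, j4⟩
    obtain ⟨σ', h4, h5⟩ := h3 σ
    refine ⟨j.comp (algebraMap (RatFunc k) c.L), j1, j2,
      j.comp e.toRingHom, fun x => ?_, ?_, σ', h4.trans j3, fun x => ?_⟩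
    · show j (e _) = _
      rw [h1, t1, j1]
    · show j (e _) = _
      rw [h1]
      rfl
    · show j (e _) = s (j (e x))
      rw [h5, j4]

theorem exists_hom_MB (u : RatFunc k) (hu : Transcendental k u) :
    ∃ f : RatFunc k →+* RatFunc k, (∀ c, f (RatFunc.C c) = RatFunc.C c) ∧ f RatFunc.X = u := by
  refine exists_ratFunc_hom RatFunc.C _ fun P hP h => hu ⟨P, hP, ?_⟩
  rw [Polynomial.aeval_def, RatFunc.algebraMap_eq_C]
  exact h

theorem exists_scale_hom_MB (lam : k) (h : lam ≠ 0) :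
    ∃ f : RatFunc k →+* RatFunc k, (∀ c, f (RatFunc.C c) = RatFunc.C c) ∧
      f RatFunc.X = RatFunc.C lam * RatFunc.X := by
  refine exists_hom_MB _ fun ha => RatFunc.transcendental_X (K := k) ?_
  have h1 := (isAlgebraic_algebraMap (A := RatFunc k) lam⁻¹).mul ha
  rwa [RatFunc.algebraMap_eq_C, ← mul_assoc, ← map_mul, inv_mul_cancel₀ h, map_one, one_mul] at h1

theorem exists_scale_MB (lam : k) (h : lam ≠ 0) :
    ∃ τ : RatFunc k ≃+* RatFunc k, (∀ c, τ (RatFunc.C c) = RatFunc.C c) ∧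
      τ RatFunc.X = RatFunc.C lam * RatFunc.X := by
  obtain ⟨f, f1, f2⟩ := exists_scale_hom_MB lam h
  obtain ⟨g, g1, g2⟩ := exists_scale_hom_MB lam⁻¹ (inv_ne_zero h)
  refine ⟨RingEquiv.ofRingHom f g ?_ ?_, f1, f2⟩
  · refine ratFunc_hom_ext _ _ (fun c => by simp [f1, g1]) ?_
    rw [RingHom.comp_apply, g2, map_mul, f2, f1, ← mul_assoc, ← map_mul, inv_mul_cancel₀ h,
      map_one, one_mul, RingHom.id_apply]
  · refine ratFunc_hom_ext _ _ (fun c => by simp [f1, g1]) ?_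
    rw [RingHom.comp_apply, f2, map_mul, g2, g1, ← mul_assoc, ← map_mul, mul_inv_cancel₀ h,
      map_one, one_mul, RingHom.id_apply]

theorem exists_inv_MB :
    ∃ τ : RatFunc k ≃+* RatFunc k, (∀ c, τ (RatFunc.C c) = RatFunc.C c) ∧
      τ RatFunc.X = RatFunc.X⁻¹ := by
  obtain ⟨f, f1, f2⟩ := exists_hom_MB (k := k) RatFunc.X⁻¹
    fun ha => RatFunc.transcendental_X (K := k) (IsAlgebraic.inv_iff.1 ha)
  have h : f.comp f = RingHom.id _ := by
    refine ratFunc_hom_ext _ _ (fun c => by simp [f1]) ?_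
    rw [RingHom.comp_apply, f2, map_inv₀, f2, inv_inv, RingHom.id_apply]
  exact ⟨RingEquiv.ofRingHom f f h h, f1, f2⟩

theorem C_mul_single_MB (c : k) (n : ℤ) :
    (HahnSeries.C c : LaurentSeries k) * HahnSeries.single n 1 = HahnSeries.single n c := by
  rw [HahnSeries.C_apply, HahnSeries.single_mul_single, zero_add, mul_one]

theorem single_mul_MB (n : ℤ) :
    (HahnSeries.single n 1 : LaurentSeries k) * HahnSeries.single (-n) 1 = 1 := by
  rw [HahnSeries.single_mul_single, add_neg_cancel, mul_one]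
  rfl

open Classical in
/-- The inversion. -/
noncomputable def inv_MB (a : OnePoint k) : OnePoint k :=
  a.elim ((0 : k) : OnePoint k) fun x => if x = 0 then ∞ else ((x⁻¹ : k) : OnePoint k)

theorem inv_infty_MB : inv_MB (∞ : OnePoint k) = ((0 : k) : OnePoint k) := rfl

theorem inv_zero_MB : inv_MB ((0 : k) : OnePoint k) = ∞ := by
  simp [inv_MB]

theorem inv_coe_MB {a : k} (ha : a ≠ 0) : inv_MB (a : OnePoint k) = ((a⁻¹ : k) : OnePoint k) := by
  simp [inv_MB, ha]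

theorem inv_inv_MB (a : OnePoint k) : inv_MB (inv_MB a) = a := by
  induction a using OnePoint.rec with
  | infty => rw [inv_infty_MB, inv_zero_MB]
  | coe a =>
    by_cases ha : a = 0
    · rw [ha, inv_zero_MB, inv_infty_MB]
    · rw [inv_coe_MB ha, inv_coe_MB (inv_ne_zero ha), inv_inv]

variable [IsAlgClosed k]

theorem mob_scale_MB (lam : k) (h : lam ≠ 0) : Mob1 (OnePoint.map fun a : k => lam * a) := by
  intro G _ c
  obtain ⟨τ, t1, t2⟩ := exists_scale_MB lam h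
  obtain ⟨c', h1, h2⟩ := exists_twist_MB c τ t1
  refine ⟨c', h1, fun a e ζ g hm => ?_⟩
  obtain ⟨f, f1, f2, f3⟩ := h2 _ _ _ _ _ hm.rmono
  rw [t2, map_mul, f1, f2] at f3
  induction a using OnePoint.rec with
  | infty =>
    refine Cover.RMono.mono_infty_of_scaled hm.1 hm.2.1 lam h ?_
    rwa [← C_mul_single_MB]
  | coe a =>
    refine Cover.RMono.mono_of_scaled hm.1 hm.2.1 (lam * a) lam h ?_
    rwa [← C_mul_single_MB, map_mul, ← mul_add]

theorem mob_shift_MB (b : k) : Mob1 (OnePoint.map fun a : k => a + b) := by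
  intro G _ c
  obtain ⟨c', h1, h2, h3⟩ := c.exists_translate b
  refine ⟨c', h1, fun a e ζ g hm => ?_⟩
  induction a using OnePoint.rec with
  | infty => exact h3 _ _ _ hm
  | coe a => exact h2 _ _ _ _ hm

theorem mob_aff_MB (lam b : k) (h : lam ≠ 0) : Mob1 (OnePoint.map fun a : k => lam * a + b) := by
  have h1 := (mob_scale_MB lam h).comp (mob_shift_MB b)
  have h2 : (OnePoint.map fun a : k => a + b) ∘ (OnePoint.map fun a : k => lam * a) =
      OnePoint.map fun a : k => lam * a + b := by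
    funext a
    induction a using OnePoint.rec <;> rfl
  rwa [h2] at h1

theorem mob_inv_MB : Mob1 (inv_MB : OnePoint k → OnePoint k) := by
  intro G _ c
  obtain ⟨τ, t1, t2⟩ := exists_inv_MB (k := k)
  obtain ⟨c', h1, h2⟩ := exists_twist_MB c τ t1
  refine ⟨c', h1, fun a e ζ g hm => ?_⟩
  induction a using OnePoint.rec with
  | infty =>
    obtain ⟨f, f1, f2, f3⟩ := h2 _ _ _ _ _ hm.rmono
    have h3 : (expand (∞ : OnePoint k) e)⁻¹ = expand ((0 : k) : OnePoint k) e := by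
      simp only [expand, OnePoint.elim_infty, OnePoint.elim_some, map_zero, zero_add]
      exact inv_eq_of_mul_eq_one_left (single_mul_MB _)
    rw [t2, map_inv₀, f2, h3] at f3
    exact f3.mono hm.1 hm.2.1
  | coe a =>
    by_cases ha : a = 0
    · subst ha
      obtain ⟨f, f1, f2, f3⟩ := h2 _ _ _ _ _ hm.rmono
      have h3 : (expand ((0 : k) : OnePoint k) e)⁻¹ = expand (∞ : OnePoint k) e := by
        simp only [expand, OnePoint.elim_infty, OnePoint.elim_some, map_zero, zero_add]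
        exact inv_eq_of_mul_eq_one_right (single_mul_MB _)
      rw [t2, map_inv₀, f2, h3] at f3
      rw [inv_zero_MB]
      exact f3.mono hm.1 hm.2.1
    · have he : (e : k) ≠ 0 := by
        have : NeZero e := ⟨hm.1.ne'⟩
        exact (hm.2.1.neZero' (n := e)).out
      obtain ⟨Φ, p1, p2, p3⟩ := exists_reparam e he (-a⁻¹)
      obtain ⟨f, f1, f2, f3⟩ := h2 _ _ _ _ _ (hm.rmono.comp Φ (scL ζ (hm.2.1.ne_zero hm.1.ne'))
        (p3 ζ _ hm.2.1.pow_eq_one))
      have h4 : Φ.comp HahnSeries.C = HahnSeries.C := RingHom.ext p1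
      have h5 : (Φ (expand (a : OnePoint k) e))⁻¹ =
          HahnSeries.C a⁻¹ + HahnSeries.single (e : ℤ) (-(a⁻¹ * a⁻¹)) := by
        refine inv_eq_of_mul_eq_one_right ?_
        have q1 := single_mul_MB (k := k) (e : ℤ)
        have q2 := congrArg Φ q1
        rw [map_mul, p2, Φ.map_one, map_neg] at q2
        have q3 : (HahnSeries.C a : LaurentSeries k) * HahnSeries.C a⁻¹ = 1 := by
          rw [← map_mul, mul_inv_cancel₀ ha, map_one]
        simp only [expand, OnePoint.elim_some]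
        rw [map_add, p1, ← C_mul_single_MB (-(a⁻¹ * a⁻¹)), map_neg, map_mul]
        generalize (HahnSeries.single (e : ℤ) 1 : LaurentSeries k) = T at *
        generalize (HahnSeries.single (-(e : ℤ)) 1 : LaurentSeries k) = T' at *
        generalize (HahnSeries.C a : LaurentSeries k) = A at *
        generalize (HahnSeries.C a⁻¹ : LaurentSeries k) = B at *
        linear_combination (1 - B * T) * q3 + B * T * q2 - B * Φ T * q1
      rw [t2, map_inv₀, f2, h4, h5] at f3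
      rw [inv_coe_MB ha]
      exact Cover.RMono.mono_of_scaled hm.1 hm.2.1 _ _
        (neg_ne_zero.2 (mul_ne_zero (inv_ne_zero ha) (inv_ne_zero ha))) f3

theorem exists_mob_affine (lam b : k) (h : lam ≠ 0) :
    ∃ μ : OnePoint k ≃ OnePoint k, IsMob μ ∧ μ ∞ = ∞ ∧
      ∀ a : k, μ a = ((lam * a + b : k) : OnePoint k) := by
  refine ⟨⟨OnePoint.map fun a : k => lam * a + b,
    OnePoint.map fun a : k => lam⁻¹ * a + -(lam⁻¹ * b), fun a => ?_, fun a => ?_⟩,
    ⟨mob_aff_MB lam b h, mob_aff_MB _ _ (inv_ne_zero h)⟩, rfl, fun _ => rfl⟩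
  · induction a using OnePoint.rec with
    | infty => rfl
    | coe a =>
      refine congrArg (fun x : k => (x : OnePoint k)) ?_
      field_simp
      ring
  · induction a using OnePoint.rec with
    | infty => rfl
    | coe a =>
      refine congrArg (fun x : k => (x : OnePoint k)) ?_
      field_simp
      ring

theorem exists_mob_inv :
    ∃ μ : OnePoint k ≃ OnePoint k, IsMob μ ∧ μ ∞ = ((0 : k) : OnePoint k) ∧
      μ ((0 : k) : OnePoint k) = ∞ ∧ ∀ a : k, a ≠ 0 → μ a = ((a⁻¹ : k) : OnePoint k) := by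
  exact ⟨⟨inv_MB, inv_MB, inv_inv_MB, inv_inv_MB⟩, ⟨mob_inv_MB, mob_inv_MB⟩, rfl, inv_zero_MB,
    fun _ ha => inv_coe_MB ha⟩

theorem exists_mob_sub_inv (x : k) :
    ∃ μ : OnePoint k ≃ OnePoint k, IsMob μ ∧ μ ∞ = ((0 : k) : OnePoint k) ∧ μ x = ∞ ∧
      ∀ a : k, a ≠ x → μ a = (((a - x)⁻¹ : k) : OnePoint k) := by
  obtain ⟨μ, m1, m2, m3⟩ := exists_mob_affine (1 : k) (-x) one_ne_zero
  obtain ⟨ν, n1, n2, n3, n4⟩ := exists_mob_inv (k := k)
  refine ⟨μ.trans ν, m1.trans n1, ?_, ?_, fun a ha => ?_⟩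
  · rw [Equiv.trans_apply, m2, n2]
  · rw [Equiv.trans_apply, m3, one_mul, add_neg_cancel, n3]
  · rw [Equiv.trans_apply, m3, one_mul, ← sub_eq_add_neg, n4 _ (sub_ne_zero.2 ha)]

theorem exists_mob_ratio (x0 x2 lam : k) (h : x0 ≠ x2) (hl : lam ≠ 0) :
    ∃ μ : OnePoint k ≃ OnePoint k, IsMob μ ∧ μ x2 = ∞ ∧ μ ∞ = (lam : OnePoint k) ∧
      ∀ a : k, a ≠ x2 → μ a = ((lam * (a - x0) / (a - x2) : k) : OnePoint k) := by
  obtain ⟨μ, m1, m2, m3, m4⟩ := exists_mob_sub_inv x2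
  obtain ⟨ν, n1, n2, n3⟩ := exists_mob_affine (lam * (x2 - x0)) lam
    (mul_ne_zero hl (sub_ne_zero.2 h.symm))
  refine ⟨μ.trans ν, m1.trans n1, ?_, ?_, fun a ha => ?_⟩
  · rw [Equiv.trans_apply, m3, n2]
  · rw [Equiv.trans_apply, m2, n3, mul_zero, zero_add]
  · rw [Equiv.trans_apply, m4 a ha, n3]
    refine congrArg (fun x : k => (x : OnePoint k)) ?_
    have := sub_ne_zero.2 ha
    field_simp
    ring

theorem exists_mob_finite {σ : Type} [Finite σ] (p : σ → OnePoint k) :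
    ∃ μ : OnePoint k ≃ OnePoint k, IsMob μ ∧ ∀ s, μ (p s) ≠ ∞ := by
  have h : ((fun x : k => (x : OnePoint k)) ⁻¹' Set.range p).Finite :=
    (Set.finite_range p).preimage OnePoint.coe_injective.injOn
  obtain ⟨x, hx⟩ := h.exists_notMem
  obtain ⟨μ, m1, -, m3, -⟩ := exists_mob_sub_inv x
  exact ⟨μ, m1, fun s hs => hx ⟨s, μ.injective (hs.trans m3.symm)⟩⟩

theorem exists_mob_zero_infty (a0 a2 : OnePoint k) (h : a0 ≠ a2) :
    ∃ μ : OnePoint k ≃ OnePoint k, IsMob μ ∧ μ a0 = ((0 : k) : OnePoint k) ∧ μ a2 = ∞ := by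
  obtain ⟨μ, m1, m2⟩ := exists_mob_finite fun b : Bool => if b then a0 else a2
  obtain ⟨x0, h0⟩ := OnePoint.ne_infty_iff_exists.1 (m2 true)
  obtain ⟨x2, h2⟩ := OnePoint.ne_infty_iff_exists.1 (m2 false)
  have h0' : μ a0 = x0 := h0.symm
  have h2' : μ a2 = x2 := h2.symm
  have hx : x0 ≠ x2 := fun e => h (μ.injective (by rw [h0', h2', e]))
  obtain ⟨ν, n1, n2, -, n4⟩ := exists_mob_ratio x0 x2 1 hx one_ne_zero
  refine ⟨μ.trans ν, m1.trans n1, ?_, ?_⟩
  · rw [Equiv.trans_apply, h0', n4 _ hx, sub_self, mul_zero, zero_div]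
  · rw [Equiv.trans_apply, h2', n2]

end Pool.Agent.Adm

end

section

/-! Branches and directions in a tree. -/

namespace Pool.Agent.Adm.Shape

open Sum

variable {n : ℕ} (σ : Shape n)

theorem step_Tr1 {a b : Fin σ.r} (h : σ.T.Adj a b) (u : Fin σ.r) :
    σ.T.dist a u = σ.T.dist b u + 1 ∨ σ.T.dist b u = σ.T.dist a u + 1 := by
  simpa only [SimpleGraph.dist_comm (u := u)] using σ.tree.dist_eq_dist_add_one_of_adj u h

theorem key_Tr1 {v a b u : Fin σ.r} (ha : σ.T.Adj v a) (hb : σ.T.Adj v b)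
    (h1 : σ.T.dist a u < σ.T.dist v u) (h2 : σ.T.dist b u < σ.T.dist v u) : a = b := by
  obtain ⟨p, hp⟩ := σ.tree.connected.exists_walk_length_eq_dist a u
  obtain ⟨q, hq⟩ := σ.tree.connected.exists_walk_length_eq_dist b u
  have a1 := step_Tr1 σ ha u
  have a2 := step_Tr1 σ hb u
  have b1 := (p.cons ha).isPath_of_length_eq_dist (by rw [SimpleGraph.Walk.length_cons]; omega)
  have b2 := (q.cons hb).isPath_of_length_eq_dist (by rw [SimpleGraph.Walk.length_cons]; omega)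
  have := congrArg SimpleGraph.Walk.snd ((σ.tree.existsUnique_path v u).unique b1 b2)
  simpa using this

theorem mem_Br_symm (δ : σ.T.Dart) (u : Fin σ.r) : u ∈ σ.Br δ.symm ↔ u ∉ σ.Br δ := by
  have := step_Tr1 σ δ.adj u
  simp only [Br, Set.mem_ofPred_eq, SimpleGraph.Dart.symm_toProd, Prod.fst_swap, Prod.snd_swap]
  omega

theorem fst_notMem_Br (δ : σ.T.Dart) : δ.fst ∉ σ.Br δ := by
  simp [Br]

theorem snd_mem_Br (δ : σ.T.Dart) : δ.snd ∈ σ.Br δ := by
  have := step_Tr1 σ δ.adj δ.snd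
  simp only [Br, Set.mem_ofPred_eq, SimpleGraph.dist_self] at this ⊢
  omega

theorem exists_dart {v u : Fin σ.r} (h : u ≠ v) : ∃ δ : σ.T.Dart, δ.fst = v ∧ u ∈ σ.Br δ := by
  obtain ⟨p, hp⟩ := σ.tree.connected.exists_walk_length_eq_dist v u
  cases p with
  | nil => exact absurd rfl h
  | cons ha q =>
    refine ⟨⟨(_, _), ha⟩, rfl, ?_⟩
    have := SimpleGraph.dist_le q
    rw [SimpleGraph.Walk.length_cons] at hp
    simp only [Br, Set.mem_ofPred_eq]
    omega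

theorem dart_unique {δ δ' : σ.T.Dart} {u : Fin σ.r} (h : δ.fst = δ'.fst) (h1 : u ∈ σ.Br δ)
    (h2 : u ∈ σ.Br δ') : δ = δ' := by
  refine SimpleGraph.Dart.ext _ _ (Prod.ext h (key_Tr1 σ δ.adj (h ▸ δ'.adj) h1 ?_))
  rw [h]
  exact h2

theorem Br_ssubset {δ δ' : σ.T.Dart} (h : δ'.fst = δ.snd) (h' : δ' ≠ δ.symm) :
    σ.Br δ' ⊂ σ.Br δ := by
  refine ⟨fun u hu => ?_, fun hs => σ.fst_notMem_Br δ' (hs (h ▸ σ.snd_mem_Br δ))⟩
  by_contra e
  exact h' (σ.dart_unique h hu ((σ.mem_Br_symm δ u).2 e))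

theorem eq_symm_of_leaves {δ δ' : σ.T.Dart} (h1 : δ'.fst ∈ σ.Br δ) (h2 : δ'.snd ∉ σ.Br δ) :
    δ' = δ.symm := by
  have a1 := step_Tr1 σ δ.adj δ'.fst
  have a2 := step_Tr1 σ δ.adj δ'.snd
  have a3 := σ.tree.dist_eq_dist_add_one_of_adj δ.fst δ'.adj
  have a4 := σ.tree.dist_eq_dist_add_one_of_adj δ.snd δ'.adj
  simp only [Br, Set.mem_ofPred_eq] at h1 h2
  have e : δ.snd = δ'.fst := by
    by_contra e
    obtain ⟨ε, e1, e2⟩ := σ.exists_dart e
    have b1 := step_Tr1 σ ε.adj δ.snd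
    have b2 := step_Tr1 σ δ.adj ε.snd
    simp only [Br, Set.mem_ofPred_eq] at e2
    have e3 : ε = δ' := σ.dart_unique (u := δ.fst) e1 (by
      simp only [Br, Set.mem_ofPred_eq, e1] at b1 e2 ⊢
      simp only [SimpleGraph.dist_comm (v := δ.snd), SimpleGraph.dist_comm (v := δ.fst)] at *
      omega) (by
      simp only [Br, Set.mem_ofPred_eq, SimpleGraph.dist_comm (v := δ.fst)]
      omega)
    subst e3
    simp only [SimpleGraph.dist_comm (v := δ.snd)] at e2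
    omega
  have e' : δ.fst = δ'.snd := by
    rw [← e, SimpleGraph.dist_self] at a1 a4 h1
    rw [← e] at a3
    exact σ.tree.connected.dist_eq_zero_iff.1 (by omega)
  exact SimpleGraph.Dart.ext _ _ (Prod.ext e.symm e'.symm)

theorem dir_eq_inl_iff (v : Fin σ.r) (l : Fin n) (δ : σ.T.Dart) :
    σ.dir v l = inl δ ↔ δ.fst = v ∧ σ.comp l ∈ σ.Br δ := by
  unfold dir
  split_ifs with h
  · have := h.choose_spec
    refine ⟨fun e => inl_injective e ▸ this, fun e => congrArg inl ?_⟩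
    exact σ.dart_unique (this.1.trans e.1.symm) this.2 e.2
  · exact ⟨nofun, fun e => absurd ⟨δ, e⟩ h⟩

theorem dir_eq_inr_iff (v : Fin σ.r) (l l' : Fin n) :
    σ.dir v l = inr l' ↔ σ.comp l = v ∧ l = l' := by
  unfold dir
  split_ifs with h
  · refine ⟨nofun, fun e => ?_⟩
    obtain ⟨δ, h1, h2⟩ := h
    exact absurd h2 (e.1.symm ▸ h1 ▸ σ.fst_notMem_Br δ)
  · refine ⟨fun e => ⟨?_, inr_injective e⟩, fun e => congrArg inr e.2⟩
    by_contra e'
    exact h (σ.exists_dart e')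

theorem base_dir (v : Fin σ.r) (l : Fin n) : σ.base (σ.dir v l) = v := by
  rcases h : σ.dir v l with δ | l'
  · exact ((σ.dir_eq_inl_iff v l δ).1 h).1
  · obtain ⟨h1, rfl⟩ := (σ.dir_eq_inr_iff v l l').1 h
    exact h1

theorem dir_comp (l : Fin n) : σ.dir (σ.comp l) l = inr l := by
  exact (σ.dir_eq_inr_iff _ l l).2 ⟨rfl, rfl⟩

theorem dir_symm_iff (δ : σ.T.Dart) (l : Fin n) :
    σ.dir δ.snd l = inl δ.symm ↔ σ.dir δ.fst l ≠ inl δ := by
  rw [Ne, dir_eq_inl_iff, dir_eq_inl_iff, mem_Br_symm]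
  simp

theorem mem_bd_Br (δ : σ.T.Dart) (s : σ.Slot) :
    s ∈ σ.bd (σ.Br δ) ↔ s = inl δ.symm ∨ ∃ l, s = inr l ∧ σ.dir δ.fst l = inl δ := by
  rcases s with ε | l
  · refine ⟨fun h => Or.inl (congrArg inl (σ.eq_symm_of_leaves h.1 (h.2 ε rfl))), ?_⟩
    rintro (h | ⟨l, h, -⟩)
    · obtain rfl := inl_injective h
      refine ⟨σ.snd_mem_Br δ, fun ε' e => ?_⟩
      obtain rfl := inl_injective e
      exact σ.fst_notMem_Br δ
    · cases h
  · simp [bd, dir_eq_inl_iff]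

theorem mem_bd_univ (s : σ.Slot) : s ∈ σ.bd Set.univ ↔ ∃ l, s = inr l := by
  rcases s with ε | l <;> simp [bd]

theorem bd_singleton (v : Fin σ.r) : σ.bd {v} = {s | σ.base s = v} := by
  ext s
  refine ⟨fun h => h.1, fun h => ⟨h, ?_⟩⟩
  rintro δ rfl e
  exact δ.adj.ne (h.trans e.symm)

theorem iSup_eq_branches {L : Type} [CompleteLattice L] (R : Fin σ.r → L) (v : Fin σ.r) :
    ⨆ u, R u = R v ⊔ ⨆ δ : {δ : σ.T.Dart // δ.fst = v}, ⨆ u ∈ σ.Br δ.1, R u := by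
  refine le_antisymm (iSup_le fun u => ?_)
    (sup_le (le_iSup R v) (iSup_le fun δ => iSup₂_le fun u _ => le_iSup R u))
  by_cases h : u = v
  · exact h ▸ le_sup_left
  · obtain ⟨δ, h1, h2⟩ := σ.exists_dart h
    exact le_sup_of_le_right (le_iSup_of_le ⟨δ, h1⟩ (le_iSup₂_of_le u h2 le_rfl))

end Pool.Agent.Adm.Shape

end

section

/-! Finite field data and labels. -/

namespace Pool.Agent.Adm

open scoped OnePoint
open Polynomial

theorem exists_FF (r : ℕ) (hr : 0 < r) : ∃ 𝔽 : FF, 𝔽.r = r := by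
  classical
  have : Fact (Nat.Prime 2) := ⟨Nat.prime_two⟩
  let _ : Fintype (GaloisField 2 r) := Fintype.ofFinite _
  have hc : Fintype.card (GaloisField 2 r) = 2 ^ r := by
    rw [← Nat.card_eq_fintype_card, GaloisField.card 2 r hr.ne']
  let θ : GaloisField 2 r →+* K0 :=
    (IsAlgClosed.lift : GaloisField 2 r →ₐ[ZMod 2] K0).toRingHom
  have ho : Odd (2 ^ r - 1) :=
    Nat.Even.sub_odd Nat.one_le_two_pow (Nat.even_pow.2 ⟨even_two, hr.ne'⟩) odd_one
  obtain ⟨u, hu⟩ := exists_unit_of_pow_card_sub_one θ (xi (2 ^ r - 1))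
    (by rw [hc]; exact (xi_prim ho).pow_eq_one)
  exact ⟨⟨GaloisField 2 r, r, hr, hc, θ, u, hu⟩, rfl⟩

namespace FF

variable (𝔽 : FF)

theorem m_odd : Odd 𝔽.m := by
  exact Nat.Even.sub_odd Nat.one_le_two_pow (Nat.even_pow.2 ⟨even_two, 𝔽.r_pos.ne'⟩) odd_one

theorem card_sub_one : Fintype.card 𝔽.F - 1 = 𝔽.m := by
  rw [𝔽.card]
  rfl

theorem card_eq : Fintype.card 𝔽.F = 𝔽.m + 1 := by
  have h1 := 𝔽.card_sub_one
  have h2 := 𝔽.m_pos
  omega

theorem card_units : Fintype.card 𝔽.Fˣ = 𝔽.m := by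
  rw [Fintype.card_units, 𝔽.card_sub_one]

theorem theta_u : 𝔽.θ 𝔽.u = xi 𝔽.m := 𝔽.hu

theorem u_prim : IsPrimitiveRoot 𝔽.u 𝔽.m := by
  have h : IsPrimitiveRoot (𝔽.θ 𝔽.u) 𝔽.m := 𝔽.theta_u ▸ xi_prim 𝔽.m_odd
  exact IsPrimitiveRoot.coe_units_iff.1 (h.of_map_of_injective 𝔽.θ.injective)

theorem pow_m (t : 𝔽.Fˣ) : t ^ 𝔽.m = 1 := by
  rw [← 𝔽.card_units, pow_card_eq_one]

theorem exists_log (t : 𝔽.Fˣ) : ∃ n < 𝔽.m, t = 𝔽.u ^ n := by
  have h : IsPrimitiveRoot (𝔽.u : 𝔽.F) 𝔽.m := IsPrimitiveRoot.coe_units_iff.2 𝔽.u_prim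
  obtain ⟨i, hi, e⟩ := h.eq_pow_of_pow_eq_one (ξ := (t : 𝔽.F))
    (by rw [← Units.val_pow_eq_pow_val, 𝔽.pow_m, Units.val_one])
  exact ⟨i, hi, Units.ext (by rw [Units.val_pow_eq_pow_val, e])⟩

theorem mem_zpowers (t : 𝔽.Fˣ) : t ∈ Subgroup.zpowers 𝔽.u := by
  obtain ⟨n, -, rfl⟩ := 𝔽.exists_log t
  exact Subgroup.npow_mem_zpowers _ _

theorem pow_eq_pow_iff (a b : ℕ) : 𝔽.u ^ a = 𝔽.u ^ b ↔ (a : ZMod 𝔽.m) = b := by
  rw [pow_eq_pow_iff_modEq, ← 𝔽.u_prim.eq_orderOf, ZMod.natCast_eq_natCast_iff]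

theorem pow_val_natCast (a : ℕ) : 𝔽.u ^ (a : ZMod 𝔽.m).val = 𝔽.u ^ a := by
  rw [𝔽.pow_eq_pow_iff, ZMod.natCast_zmod_val]

theorem pow_val_add (a b : ZMod 𝔽.m) : 𝔽.u ^ (a + b).val = 𝔽.u ^ a.val * 𝔽.u ^ b.val := by
  rw [← pow_add, 𝔽.pow_eq_pow_iff, Nat.cast_add, ZMod.natCast_zmod_val, ZMod.natCast_zmod_val,
    ZMod.natCast_zmod_val]

theorem pow_val_neg (a : ZMod 𝔽.m) : 𝔽.u ^ (-a).val = (𝔽.u ^ a.val)⁻¹ := by
  apply eq_inv_of_mul_eq_one_left
  rw [← 𝔽.pow_val_add, neg_add_cancel, ZMod.val_zero, pow_zero]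

theorem pow_two_pow_r (t : 𝔽.Fˣ) (a : ℕ) : t ^ 2 ^ (𝔽.r * a) = t := by
  have h : ∀ s : 𝔽.Fˣ, s ^ 2 ^ 𝔽.r = s := fun s => by
    rw [← 𝔽.card, 𝔽.card_eq, pow_succ, 𝔽.pow_m, one_mul]
  induction a with
  | zero => simp
  | succ a ih => rw [Nat.mul_succ, pow_add, pow_mul, ih, h]

theorem charP : CharP 𝔽.F 2 := by
  exact 𝔽.θ.charP 𝔽.θ.injective 2

theorem m_cast_ne_zero {k : Type} [Field k] (θ : K0 →+* k) : (𝔽.m : k) ≠ 0 := by
  rw [← 𝔽.card_sub_one]
  exact card_sub_one_cast_ne_zero (θ.comp 𝔽.θ)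

theorem exists_unit {k : Type} [Field k] (θ : K0 →+* k) (x : k) (hx : x ^ 𝔽.m = 1) :
    ∃ t : 𝔽.Fˣ, θ (𝔽.θ t) = x := by
  exact exists_unit_of_pow_card_sub_one (θ.comp 𝔽.θ) x (by rw [𝔽.card_sub_one, hx])

theorem theta_pow_m {k : Type} [Field k] (θ : K0 →+* k) (t : 𝔽.Fˣ) : θ (𝔽.θ t) ^ 𝔽.m = 1 := by
  rw [← map_pow, ← map_pow, ← Units.val_pow_eq_pow_val, 𝔽.pow_m, Units.val_one, map_one, map_one]

theorem theta_injective {k : Type} [Field k] (θ : K0 →+* k) :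
    Function.Injective fun t : 𝔽.Fˣ => θ (𝔽.θ t) := by
  exact fun a b h => Units.ext (𝔽.θ.injective (θ.injective h))

theorem prod_X_sub {k : Type} [Field k] (θ : K0 →+* k) (α : k) :
    ∏ t : 𝔽.Fˣ, (X - C (θ (𝔽.θ t) * α)) = X ^ 𝔽.m - C (α ^ 𝔽.m) := by
  have h : IsPrimitiveRoot (θ (𝔽.θ 𝔽.u)) 𝔽.m :=
    (𝔽.theta_u ▸ xi_prim 𝔽.m_odd).map_of_injective θ.injective
  rw [X_pow_sub_C_eq_prod h 𝔽.m_pos rfl]
  symm
  refine Finset.prod_nbij (fun i => 𝔽.u ^ i) (fun _ _ => Finset.mem_univ _) ?_ ?_ ?_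
  · intro i hi j hj e
    exact 𝔽.u_prim.pow_inj (Finset.mem_range.1 hi) (Finset.mem_range.1 hj) e
  · intro t _
    obtain ⟨n, hn, rfl⟩ := 𝔽.exists_log t
    exact ⟨n, Finset.mem_range.2 hn, rfl⟩
  · intro i _
    rw [Units.val_pow_eq_pow_val, map_pow, map_pow]

theorem exists_hom (𝔽1 : FF) (h : 𝔽1.r ∣ 𝔽.r) :
    ∃ f : 𝔽1.Fˣ →* 𝔽.Fˣ, Function.Injective f ∧ ∀ t : 𝔽1.Fˣ, 𝔽.θ (f t) = 𝔽1.θ t := by
  have hd : 𝔽1.m ∣ 𝔽.m := Nat.pow_sub_one_dvd_pow_sub_one 2 h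
  have h1 : ∀ t : 𝔽1.Fˣ, ∃ s : 𝔽.Fˣ, 𝔽.θ s = 𝔽1.θ t := fun t => by
    obtain ⟨c, hc⟩ := hd
    refine 𝔽.exists_unit (RingHom.id K0) _ ?_
    have h2 : 𝔽1.θ t ^ 𝔽1.m = 1 := 𝔽1.theta_pow_m (RingHom.id K0) t
    rw [hc, pow_mul, h2, one_pow]
  choose f hf using h1
  refine ⟨MonoidHom.mk' f fun a b => Units.ext (𝔽.θ.injective ?_), fun a b e => ?_, hf⟩
  · rw [hf, Units.val_mul, Units.val_mul, map_mul, map_mul, hf, hf]
  · have e' : f a = f b := e
    exact Units.ext (𝔽1.θ.injective (by rw [← hf, ← hf, e']))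

theorem lab_iff {k : Type} [Field k] (θ : K0 →+* k) {e : ℕ} (he : Odd e) (c : 𝔽.Fˣ)
    (hc : c ^ e = 1) (n : ℤ) : Lab 𝔽.m e (θ (xi e)) (θ (𝔽.θ c)) n ↔ c = 𝔽.u ^ n := by
  have hξ : IsPrimitiveRoot (θ (xi (e * 𝔽.m))) (e * 𝔽.m) :=
    (xi_prim (he.mul 𝔽.m_odd)).map_of_injective θ.injective
  have h1 : θ (xi e) = θ (xi (e * 𝔽.m)) ^ 𝔽.m := by rw [← map_pow, xi_pow he 𝔽.m_odd]
  have h2 : θ (xi (e * 𝔽.m)) ^ e = θ (𝔽.θ 𝔽.u) := by
    rw [← map_pow, mul_comm, xi_pow 𝔽.m_odd he, 𝔽.theta_u]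
  have h3 : ∀ n : ℤ, θ (𝔽.θ (𝔽.u ^ n : 𝔽.Fˣ)) = θ (𝔽.θ 𝔽.u) ^ n := fun n => by
    rw [Units.val_zpow_eq_zpow_val, map_zpow₀, map_zpow₀]
  rw [h1]
  constructor
  · rintro ⟨r, t, h4, h5⟩
    apply 𝔽.theta_injective θ
    have h6 : 𝔽.u ^ (n + 𝔽.m * t) = 𝔽.u ^ n := by
      rw [zpow_add, zpow_mul, zpow_natCast, 𝔽.pow_m, one_zpow, mul_one]
    change θ (𝔽.θ c) = θ (𝔽.θ (𝔽.u ^ n : 𝔽.Fˣ))
    rw [← h6, h3, ← h2, h5, ← zpow_natCast, ← zpow_natCast, ← zpow_mul, ← zpow_mul, h4]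
  · intro h
    refine lab_of_root 𝔽.m_pos he.pos hξ ?_ (by rw [h2, h, h3])
    rw [← map_pow, ← map_pow, ← Units.val_pow_eq_pow_val, hc, Units.val_one, map_one, map_one]

end FF

variable {k G : Type} [Field k] [Group G]

theorem Cover.M.lab {c : Cover k G} {θ : K0 →+* k} {a : OnePoint k} {g : G} (h : c.M θ a g)
    (𝔽 : FF) (χ : G →* 𝔽.Fˣ) (n : ℤ) (hχ : χ g = 𝔽.u ^ n) :
    ∃ e ζ, c.Mono a e ζ g ∧
      Lab (Fintype.card 𝔽.F - 1) e ζ ((θ.comp 𝔽.θ) (χ g)) n := by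
  obtain ⟨e, he, hm⟩ := h
  refine ⟨e, _, hm, ?_⟩
  rw [𝔽.card_sub_one]
  exact (𝔽.lab_iff θ he (χ g) (by rw [← map_pow, hm.pow_eq_one, map_one]) n).2 hχ

/-- Labels read off from a Kummer generator. -/
theorem Cover.M_lab_of_gen (c : Cover k G) (θ : K0 →+* k) (𝔽 : FF) (χ : G →* 𝔽.Fˣ) (y : c.L)
    (f : k[X]) (hf : f ≠ 0)
    (hy : ∀ σ : c.L ≃ₐ[RatFunc k] c.L,
      σ y = algebraMap (RatFunc k) c.L (RatFunc.C (θ (𝔽.θ (χ (c.ι σ))))) * y)
    (hm : y ^ 𝔽.m = algebraMap (RatFunc k) c.L (algebraMap k[X] (RatFunc k) f)) :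
    (∀ (a : k) g, c.M θ a g → χ g = 𝔽.u ^ f.rootMultiplicity a) ∧
      ∀ g, c.M θ ∞ g → χ g * 𝔽.u ^ f.natDegree = 1 := by
  obtain ⟨h1, h2⟩ := c.lab_of_gen (θ.comp 𝔽.θ) χ y f 1 hf one_ne_zero hy
    (by rw [𝔽.card_sub_one, hm, map_one, map_one, mul_one])
  rw [𝔽.card_sub_one] at h1 h2
  refine ⟨fun a g ⟨e, he, h⟩ => ?_, fun g ⟨e, he, h⟩ => ?_⟩
  · have h3 := (𝔽.lab_iff θ he (χ g) (by rw [← map_pow, h.pow_eq_one, map_one]) _).1
      (h1 a e _ g h)
    have h4 : (1 : k[X]).rootMultiplicity a = 0 := rootMultiplicity_eq_zero (by simp)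
    rwa [h4, Nat.cast_zero, sub_zero, zpow_natCast] at h3
  · have h3 := (𝔽.lab_iff θ he (χ g) (by rw [← map_pow, h.pow_eq_one, map_one]) _).1
      (h2 e _ g h)
    rw [h3, natDegree_one, Nat.cast_zero, add_zero, zpow_neg, zpow_natCast, inv_mul_cancel]

theorem AffV.eq_one_FFL {F I : Type} [Field F] [CharP F 2] {g : AffV F I} (hu : g.u = 1)
    (h : ∃ e, Odd e ∧ g ^ e = 1) : g = 1 := by
  obtain ⟨e, ⟨l, rfl⟩, h⟩ := h
  have h2 : g ^ 2 = 1 := by
    refine AffV.ext (by rw [pow_two, AffV.mul_u, hu, mul_one, AffV.one_u]) ?_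
    funext i
    rw [pow_two, AffV.mul_b, hu, Units.val_one, one_mul, AffV.one_b, CharTwo.add_self_eq_zero]
  rwa [pow_succ, pow_mul, h2, one_pow, one_mul] at h

/-- Elements of odd order with the same linear part are conjugate. -/
theorem AffV.isConj {F I : Type} [Field F] [CharP F 2] {g g' : AffV F I} (hu : g.u = g'.u)
    (h : ∃ e, Odd e ∧ g ^ e = 1) (h' : ∃ e, Odd e ∧ g' ^ e = 1) : IsConj g g' := by
  by_cases h1 : g.u = 1
  · rw [AffV.eq_one_FFL h1 h, AffV.eq_one_FFL (hu ▸ h1) h']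
  · have h2 : (g.u : F) - 1 ≠ 0 := fun e => h1 (Units.ext (sub_eq_zero.1 e))
    refine isConj_iff.2 ⟨⟨1, fun i => (g'.b i - g.b i) / (g.u - 1)⟩, AffV.ext ?_ ?_⟩
    · simp [hu]
    · funext i
      simp only [AffV.mul_b, AffV.inv_u, AffV.inv_b, inv_one, Units.val_one, one_mul]
      field_simp
      ring

theorem AffV.eq_one {F I : Type} [Field F] [CharP F 2] {g : AffV F I} (hu : g.u = 1)
    (h : ∃ e, Odd e ∧ g ^ e = 1) : g = 1 := by
  exact AffV.eq_one_FFL hu h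

end Pool.Agent.Adm

end

section

/-! The polynomials of labels. -/

namespace Pool.Agent.Adm.Pt

open Sum Polynomial

variable {n : ℕ} {σ : Shape n} (z : Pt σ) (𝔽0 : FF) {i0 i1 i2 : Fin n} {v : Fin σ.r}
  {lam : z.k} {α : σ.Slot → z.k} (y : σ.Slot → 𝔽0.Fˣ → ℕ)

theorem sub_ne_RM {s s' : σ.Slot} (hs : σ.base s = v) (hs' : σ.base s' = v) (h : s ≠ s') :
    z.x s - z.x s' ≠ 0 := fun e => h (z.inj s s' (hs.trans hs'.symm) (sub_eq_zero.1 e))

theorem dir_ne_RM {l l' : Fin n} (h : σ.dir v l ≠ σ.dir v l') :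
    z.x (σ.dir v l) - z.x (σ.dir v l') ≠ 0 := z.sub_ne_RM (σ.base_dir v l) (σ.base_dir v l') h

theorem exists_kumCoord (i0 i2 : Fin n) (lam : Fin σ.r → z.k) (hl : ∀ v, lam v ≠ 0) :
    ∃ α, z.KumCoord 𝔽0 i0 i2 lam α := by
  choose α hα using fun s : σ.Slot => IsAlgClosed.exists_pow_nat_eq (lam (σ.base s) *
    (z.x s - z.x (σ.dir (σ.base s) i0)) / (z.x s - z.x (σ.dir (σ.base s) i2))) 𝔽0.m_pos
  exact ⟨α, hl, fun s _ _ _ => hα s⟩

theorem KumAt.ne_zero (h : z.KumAt 𝔽0 i0 i2 v lam α) {s : σ.Slot} (hs : σ.base s = v)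
    (h0 : s ≠ σ.dir v i0) (h2 : s ≠ σ.dir v i2) : α s ≠ 0 := by
  intro e
  have h1 := h.2 s hs h0 h2
  rw [e, zero_pow 𝔽0.m_pos.ne'] at h1
  exact div_ne_zero (mul_ne_zero h.1 (z.sub_ne_RM hs (σ.base_dir v i0) h0))
    (z.sub_ne_RM hs (σ.base_dir v i2) h2) h1.symm

/-- The finite points of the Kummer covering of v are distinct. -/
theorem KumAt.injective (h : z.KumAt 𝔽0 i0 i2 v lam α) (hv : σ.OnPath i0 i2 v) :
    Function.Injective fun o : Option
      ({s : σ.Slot // σ.base s = v ∧ s ≠ σ.dir v i0 ∧ s ≠ σ.dir v i2} × 𝔽0.Fˣ) =>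
      o.elim (0 : z.k) fun st => z.θ (𝔽0.θ st.2) * α st.1 := by
  have hne : ∀ (s : {s : σ.Slot // σ.base s = v ∧ s ≠ σ.dir v i0 ∧ s ≠ σ.dir v i2}) (t : 𝔽0.Fˣ),
      z.θ (𝔽0.θ t) * α s ≠ 0 := fun s t =>
    mul_ne_zero (by simp) (KumAt.ne_zero z 𝔽0 h s.2.1 s.2.2.1 s.2.2.2)
  rintro (_ | ⟨s, t⟩) (_ | ⟨s', t'⟩) e
  · rfl
  · exact absurd e.symm (hne s' t')
  · exact absurd e (hne s t)
  · have e1 : z.θ (𝔽0.θ t) * α s = z.θ (𝔽0.θ t') * α s' := e
    have e2 := congrArg (· ^ 𝔽0.m) e1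
    simp only [mul_pow, 𝔽0.theta_pow_m, one_mul] at e2
    rw [h.2 s s.2.1 s.2.2.1 s.2.2.2, h.2 s' s'.2.1 s'.2.2.1 s'.2.2.2,
      div_eq_div_iff (z.sub_ne_RM s.2.1 (σ.base_dir v i2) s.2.2.2)
        (z.sub_ne_RM s'.2.1 (σ.base_dir v i2) s'.2.2.2)] at e2
    have e3 : lam * (z.x (σ.dir v i0) - z.x (σ.dir v i2)) * (z.x s - z.x s') = 0 := by
      linear_combination e2
    have e4 := (mul_eq_zero.1 e3).resolve_left (mul_ne_zero h.1 (z.dir_ne_RM hv))
    obtain rfl : s = s' :=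
      Subtype.ext (z.inj _ _ (s.2.1.trans s'.2.1.symm) (sub_eq_zero.1 e4))
    obtain rfl : t = t' := 𝔽0.theta_injective z.θ
      (mul_right_cancel₀ (KumAt.ne_zero z 𝔽0 h s.2.1 s.2.2.1 s.2.2.2) e1)
    rfl

theorem fP_eq_prod (i0 i2 : Fin n) (α : σ.Slot → z.k) (v : Fin σ.r) :
    z.fP 𝔽0 i0 i2 α y v = ∏ o : Option
      ({s : σ.Slot // σ.base s = v ∧ s ≠ σ.dir v i0 ∧ s ≠ σ.dir v i2} × 𝔽0.Fˣ),
      (X - C (o.elim (0 : z.k) fun st => z.θ (𝔽0.θ st.2) * α st.1)) ^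
        o.elim (y (σ.dir v i0) 1) fun st => y st.1 st.2 := by
  rw [Fintype.prod_option, Fintype.prod_prod_type, fP, Finset.prod_subtype (F := inferInstance)
    (p := fun s => σ.base s = v ∧ s ≠ σ.dir v i0 ∧ s ≠ σ.dir v i2) _ (by simp)]
  simp only [Option.elim_none, Option.elim_some, map_zero, sub_zero]

theorem fP_monic (i0 i2 : Fin n) (α : σ.Slot → z.k) (v : Fin σ.r) :
    (z.fP 𝔽0 i0 i2 α y v).Monic := by
  rw [fP_eq_prod]
  exact monic_prod_of_monic _ _ fun _ _ => (monic_X_sub_C _).pow _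

theorem fP_natDegree (i0 i2 : Fin n) (α : σ.Slot → z.k) (v : Fin σ.r) :
    (z.fP 𝔽0 i0 i2 α y v).natDegree = y (σ.dir v i0) 1 + ∑ s ∈ Finset.univ.filter
      (fun s => σ.base s = v ∧ s ≠ σ.dir v i0 ∧ s ≠ σ.dir v i2), ∑ t, y s t := by
  rw [fP_eq_prod, natDegree_prod_of_monic _ _ fun _ _ => (monic_X_sub_C _).pow _,
    Fintype.sum_option, Fintype.sum_prod_type, Finset.sum_subtype (F := inferInstance)
    (p := fun s => σ.base s = v ∧ s ≠ σ.dir v i0 ∧ s ≠ σ.dir v i2) _ (by simp)]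
  simp only [natDegree_pow, natDegree_X_sub_C, mul_one, Option.elim_none, Option.elim_some]

theorem fP_mult (h : z.KumAt 𝔽0 i0 i2 v lam α) (hv : σ.OnPath i0 i2 v) :
    (z.fP 𝔽0 i0 i2 α y v).rootMultiplicity 0 = y (σ.dir v i0) 1 ∧
    (∀ s (t : 𝔽0.Fˣ), σ.base s = v → s ≠ σ.dir v i0 → s ≠ σ.dir v i2 →
      (z.fP 𝔽0 i0 i2 α y v).rootMultiplicity (z.θ (𝔽0.θ t) * α s) = y s t) ∧
    ∀ a, a ≠ 0 → (∀ s (t : 𝔽0.Fˣ), σ.base s = v → s ≠ σ.dir v i0 → s ≠ σ.dir v i2 →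
      a ≠ z.θ (𝔽0.θ t) * α s) → (z.fP 𝔽0 i0 i2 α y v).rootMultiplicity a = 0 := by
  obtain ⟨h1, h2, -⟩ := rootMultiplicity_prod_X_sub_C _ (KumAt.injective z 𝔽0 h hv)
    fun o => o.elim (y (σ.dir v i0) 1) fun st => y st.1 st.2
  rw [fP_eq_prod]
  refine ⟨h1 none, fun s t a1 a2 a3 => h1 (some (⟨s, a1, a2, a3⟩, t)), fun a ha hs => h2 a ?_⟩
  rintro ⟨_ | ⟨s, t⟩, e⟩
  · exact ha e.symm
  · exact hs s t s.2.1 s.2.2.1 s.2.2.2 e.symm

theorem fO_eq_prod (v : Fin σ.r) (t : 𝔽0.Fˣ) :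
    z.fO 𝔽0 y v t = ∏ s : σ.Sl v, (X - C (z.x s)) ^ y s t := by
  exact Finset.prod_subtype (p := fun s => σ.base s = v) _ (by simp) _

theorem fO_monic (v : Fin σ.r) (t : 𝔽0.Fˣ) : (z.fO 𝔽0 y v t).Monic := by
  exact monic_prod_of_monic _ _ fun _ _ => (monic_X_sub_C _).pow _

theorem fO_natDegree (v : Fin σ.r) (t : 𝔽0.Fˣ) :
    (z.fO 𝔽0 y v t).natDegree = ∑ s ∈ Finset.univ.filter (fun s => σ.base s = v), y s t := by
  rw [fO, natDegree_prod_of_monic _ _ fun _ _ => (monic_X_sub_C _).pow _]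
  simp only [natDegree_pow, natDegree_X_sub_C, mul_one]

theorem fO_mult (v : Fin σ.r) (t : 𝔽0.Fˣ) :
    (∀ s, σ.base s = v → (z.fO 𝔽0 y v t).rootMultiplicity (z.x s) = y s t) ∧
    ∀ a, (∀ s, σ.base s = v → a ≠ z.x s) → (z.fO 𝔽0 y v t).rootMultiplicity a = 0 := by
  obtain ⟨h1, h2, -⟩ := rootMultiplicity_prod_X_sub_C (fun s : σ.Sl v => z.x s)
    (fun s s' e => Subtype.ext (z.inj _ _ (s.2.trans s'.2.symm) e)) fun s => y s t
  rw [fO_eq_prod]
  refine ⟨fun s hs => h1 ⟨s, hs⟩, fun a ha => h2 a ?_⟩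
  rintro ⟨s, e⟩
  exact ha s s.2 e.symm

theorem tpoly_eq_fP (hm : σ.IsMed v i0 i1 i2)
    (h : z.KumAt 𝔽0 i0 i2 v
      ((z.x (σ.dir v i1) - z.x (σ.dir v i2)) / (z.x (σ.dir v i1) - z.x (σ.dir v i0))) α)
    (n0 : ℕ) (n1 : 𝔽0.Fˣ → ℕ) (nn : Fin n → ℕ) (hnn : ∀ l, σ.dir v l = σ.dir v i2 → nn l = 0) :
    α (σ.dir v i1) ^ 𝔽0.m = 1 ∧
      tpoly z.θ 𝔽0 (α (σ.dir v i1)) n0 n1 nn (z.crs v i0 i1 i2) =
        z.fP 𝔽0 i0 i2 α (σ.tlab 𝔽0 v i0 i1 n0 n1 nn) v := by
  obtain ⟨m1, m2, m3⟩ := hm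
  have hcr : ∀ s, σ.base s = v → s ≠ σ.dir v i0 → s ≠ σ.dir v i2 → α s ^ 𝔽0.m =
      cr (z.x (σ.dir v i0)) (z.x (σ.dir v i1)) (z.x (σ.dir v i2)) (z.x s) := fun s a1 a2 a3 => by
    rw [h.2 s a1 a2 a3, cr]
    simp only [div_eq_mul_inv, mul_inv]
    ring
  refine ⟨?_, ?_⟩
  · rw [hcr _ (σ.base_dir v i1) m1.symm m3, cr, mul_comm]
    exact div_self (mul_ne_zero (z.dir_ne_RM m3) (z.dir_ne_RM m1.symm))
  set S := Finset.univ.filter
    (fun s => σ.base s = v ∧ s ≠ σ.dir v i0 ∧ s ≠ σ.dir v i2) with hS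
  have k1 : ∏ s ∈ S, ∏ t : 𝔽0.Fˣ, (X - C (z.θ (𝔽0.θ t) * α s)) ^ σ.tlab 𝔽0 v i0 i1 n0 n1 nn s t =
      (∏ s ∈ S, ∏ t : 𝔽0.Fˣ,
        (X - C (z.θ (𝔽0.θ t) * α s)) ^ if s = σ.dir v i1 then n1 t else 0) *
      ∏ s ∈ S, ∏ l ∈ Finset.univ.filter (fun l => σ.dir v l = s),
        (X ^ 𝔽0.m - C (z.crs v i0 i1 i2 l)) ^ nn l := by
    rw [← Finset.prod_mul_distrib]
    refine Finset.prod_congr rfl fun s hs => ?_
    obtain ⟨a1, a2, a3⟩ := (Finset.mem_filter.1 hs).2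
    simp only [Shape.tlab, if_neg a2, pow_add, Finset.prod_mul_distrib]
    rw [Finset.prod_pow, 𝔽0.prod_X_sub, ← Finset.prod_pow_eq_pow_sum, hcr s a1 a2 a3]
    congr 1
    refine Finset.prod_congr rfl fun l hl => ?_
    rw [crs, (Finset.mem_filter.1 hl).2]
  have k2 : (∏ s ∈ S, ∏ t : 𝔽0.Fˣ,
      (X - C (z.θ (𝔽0.θ t) * α s)) ^ if s = σ.dir v i1 then n1 t else 0) =
      ∏ t : 𝔽0.Fˣ, (X - C (z.θ (𝔽0.θ t) * α (σ.dir v i1))) ^ n1 t := by
    rw [Finset.prod_eq_single_of_mem (σ.dir v i1)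
      (Finset.mem_filter.2 ⟨Finset.mem_univ _, σ.base_dir v i1, m1.symm, m3⟩)
      fun s _ hs => by simp only [if_neg hs, pow_zero, Finset.prod_const_one]]
    simp only [if_true]
  have k3 : ∏ l ∈ Finset.univ.filter (fun l => σ.dir v l = σ.dir v i0),
      (X ^ 𝔽0.m - C (z.crs v i0 i1 i2 l)) ^ nn l =
      X ^ (𝔽0.m * ∑ l ∈ Finset.univ.filter (fun l => σ.dir v l = σ.dir v i0), nn l) := by
    rw [pow_mul, ← Finset.prod_pow_eq_pow_sum]
    refine Finset.prod_congr rfl fun l hl => ?_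
    rw [crs, (Finset.mem_filter.1 hl).2, cr, sub_self, zero_mul, zero_div, map_zero, sub_zero]
  have k4 : ∏ l ∈ Finset.univ.filter (fun l => σ.dir v l = σ.dir v i2),
      (X ^ 𝔽0.m - C (z.crs v i0 i1 i2 l)) ^ nn l = 1 :=
    Finset.prod_eq_one fun l hl => by rw [hnn l (Finset.mem_filter.1 hl).2, pow_zero]
  have k5 := Finset.prod_fiberwise_of_maps_to (s := Finset.univ) (g := σ.dir v)
    (t := insert (σ.dir v i0) (insert (σ.dir v i2) S)) (fun l _ => by
      simp only [hS, Finset.mem_insert, Finset.mem_filter, Finset.mem_univ, σ.base_dir, true_and]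
      tauto) fun l => (X ^ 𝔽0.m - C (z.crs v i0 i1 i2 l)) ^ nn l
  rw [Finset.prod_insert (by simp [hS, m2]), Finset.prod_insert (by simp [hS]), k3, k4] at k5
  rw [tpoly, fP, ← hS, k1, k2, ← k5, Shape.tlab, if_pos rfl, pow_add]
  ring

theorem crs_left (v : Fin σ.r) (i0 i1 i2 : Fin n) : z.crs v i0 i1 i2 i0 = 0 := by
  rw [crs, cr, sub_self, zero_mul, zero_div]

theorem crs_mid (hm : σ.IsMed v i0 i1 i2) : z.crs v i0 i1 i2 i1 = 1 := by
  rw [crs, cr, mul_comm]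
  exact div_self (mul_ne_zero (z.dir_ne_RM hm.2.2) (z.dir_ne_RM hm.1.symm))

theorem crs_eq_zero_iff (hm : σ.IsMed v i0 i1 i2) (l : Fin n) :
    z.crs v i0 i1 i2 l = 0 ↔ σ.dir v l = σ.dir v i0 ∨ σ.dir v l = σ.dir v i2 := by
  have h : ∀ l', z.x (σ.dir v l) - z.x (σ.dir v l') = 0 ↔ σ.dir v l = σ.dir v l' := fun l' =>
    ⟨fun e => by_contra fun h => z.dir_ne_RM h e, fun e => by rw [e, sub_self]⟩
  rw [crs, cr, div_eq_zero_iff, mul_eq_zero, mul_eq_zero, or_iff_left (z.dir_ne_RM hm.2.2),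
    or_iff_left (z.dir_ne_RM hm.1.symm), h, h]

theorem crs_eq_iff (hm : σ.IsMed v i0 i1 i2) {l l' : Fin n} (hl : σ.dir v l ≠ σ.dir v i2)
    (hl' : σ.dir v l' ≠ σ.dir v i2) :
    z.crs v i0 i1 i2 l = z.crs v i0 i1 i2 l' ↔ σ.dir v l = σ.dir v l' := by
  refine ⟨fun e => ?_, fun e => by rw [crs, crs, e]⟩
  have h1 := z.dir_ne_RM hm.1.symm
  rw [crs, crs, cr, cr, div_eq_div_iff (mul_ne_zero (z.dir_ne_RM hl) h1)
    (mul_ne_zero (z.dir_ne_RM hl') h1)] at e
  have e3 : (z.x (σ.dir v i1) - z.x (σ.dir v i2)) * (z.x (σ.dir v i1) - z.x (σ.dir v i0)) *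
      (z.x (σ.dir v i0) - z.x (σ.dir v i2)) * (z.x (σ.dir v l) - z.x (σ.dir v l')) = 0 := by
    linear_combination e
  by_contra h
  exact mul_ne_zero (mul_ne_zero (mul_ne_zero (z.dir_ne_RM hm.2.2) h1) (z.dir_ne_RM hm.2.1))
    (z.dir_ne_RM h) e3

end Pool.Agent.Adm.Pt

end

section

/-! Growing subtrees one leaf at a time. -/

namespace Pool.Agent.Adm.Shape

open Sum

variable {n : ℕ} (σ : Shape n)

theorem growth_Tr2 (P : Set (Fin σ.r) → Prop) (ρ : Fin σ.r) (B : Set (Fin σ.r))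
    (hB : ∀ δ : σ.T.Dart, δ.fst ∈ B → ρ ∈ σ.Br δ → δ.snd ∈ B)
    (hs : ∀ (U : Set (Fin σ.r)) (δ : σ.T.Dart), δ.fst ∈ U → δ.snd ∉ U →
      (∀ δ' : σ.T.Dart, δ'.fst = δ.snd → δ'.snd ∈ U → δ' = δ.symm) → P U →
      P (insert δ.snd U)) (m : ℕ) :
    ∀ U : Set (Fin σ.r), (B \ U).ncard = m → U ⊆ B → ρ ∈ U →
      (∀ δ : σ.T.Dart, δ.fst ∈ U → ρ ∈ σ.Br δ → δ.snd ∈ U) → P U → P B := by
  induction m using Nat.strong_induction_on with
  | _ m ih =>
    intro U hm hU hρ hc hP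
    rcases (B \ U).eq_empty_or_nonempty with he | hne
    · rwa [← hU.antisymm (Set.sdiff_eq_empty.1 he)]
    obtain ⟨v, hv, hmin⟩ := Set.exists_min_image (B \ U) (fun u => σ.T.dist u ρ)
      (Set.toFinite _) hne
    obtain ⟨δ, rfl, hδ⟩ := σ.exists_dart (v := v) (u := ρ) fun e => hv.2 (e ▸ hρ)
    have hw : δ.snd ∈ U := by
      by_contra hw
      exact (hmin _ ⟨hB δ hv.1 hδ, hw⟩).not_gt hδ
    have h1 : P (insert δ.fst U) := hs U δ.symm hw hv.2 (fun δ' e h' => by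
      by_cases h : ρ ∈ σ.Br δ'
      · exact σ.dart_unique e h hδ
      · have h2 : δ'.fst ∈ U := hc δ'.symm h' ((σ.mem_Br_symm δ' ρ).2 h)
        rw [e] at h2
        exact absurd h2 hv.2) hP
    refine ih _ ?_ (insert δ.fst U) rfl (Set.insert_subset hv.1 hU) (Or.inr hρ) ?_ h1
    · rw [← hm]
      exact Set.ncard_lt_ncard ⟨Set.sdiff_subset_sdiff_right (Set.subset_insert _ _),
        fun h => (h hv).2 (Or.inl rfl)⟩ (Set.toFinite _)
    · rintro δ' (e | h) h'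
      · rw [σ.dart_unique e h' hδ]
        exact Or.inr hw
      · exact Or.inr (hc δ' h h')

theorem root_Tr2 (ρ : Fin σ.r) (δ : σ.T.Dart) (h : δ.fst ∈ ({ρ} : Set (Fin σ.r)))
    (h' : ρ ∈ σ.Br δ) : δ.snd ∈ ({ρ} : Set (Fin σ.r)) := by
  rw [← Set.mem_singleton_iff.1 h] at h'
  exact absurd h' (σ.fst_notMem_Br δ)

theorem growth_univ (P : Set (Fin σ.r) → Prop) (ρ : Fin σ.r) (h0 : P {ρ})
    (hs : ∀ (U : Set (Fin σ.r)) (δ : σ.T.Dart), δ.fst ∈ U → δ.snd ∉ U →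
      (∀ δ' : σ.T.Dart, δ'.fst = δ.snd → δ'.snd ∈ U → δ' = δ.symm) → P U →
      P (insert δ.snd U)) : P Set.univ := by
  exact σ.growth_Tr2 P ρ _ (fun _ _ _ => trivial) hs _ {ρ} rfl (Set.subset_univ _) rfl
    (σ.root_Tr2 ρ) h0

theorem growth_Br (P : Set (Fin σ.r) → Prop) (δ0 : σ.T.Dart) (h0 : P {δ0.snd})
    (hs : ∀ (U : Set (Fin σ.r)) (δ : σ.T.Dart), δ.fst ∈ U → δ.snd ∉ U →
      (∀ δ' : σ.T.Dart, δ'.fst = δ.snd → δ'.snd ∈ U → δ' = δ.symm) → P U →
      P (insert δ.snd U)) : P (σ.Br δ0) := by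
  refine σ.growth_Tr2 P δ0.snd _ (fun δ h1 h2 => ?_) hs _ {δ0.snd} rfl
    (Set.singleton_subset_iff.2 (σ.snd_mem_Br δ0)) rfl (σ.root_Tr2 _) h0
  by_contra h3
  rw [σ.eq_symm_of_leaves h1 h3] at h2
  exact σ.fst_notMem_Br δ0.symm h2

theorem bd_insert (U : Set (Fin σ.r)) (δ : σ.T.Dart) (h1 : δ.fst ∈ U) (h2 : δ.snd ∉ U)
    (h3 : ∀ δ' : σ.T.Dart, δ'.fst = δ.snd → δ'.snd ∈ U → δ' = δ.symm) :
    σ.bd (insert δ.snd U) = (σ.bd U \ {inl δ}) ∪ (σ.bd {δ.snd} \ {inl δ.symm}) := by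
  ext s
  rcases s with ε | l
  · have e : ∀ W : Set (Fin σ.r), inl ε ∈ σ.bd W ↔ ε.fst ∈ W ∧ ε.snd ∉ W := fun W =>
      ⟨fun h => ⟨h.1, h.2 ε rfl⟩, fun h => ⟨h.1, fun _ e => inl_injective e ▸ h.2⟩⟩
    simp only [Set.mem_union, Set.mem_sdiff, e, Set.mem_insert_iff, Set.mem_singleton_iff,
      inl.injEq, not_or]
    constructor
    · rintro ⟨a | a, b, c⟩
      · exact Or.inr ⟨⟨a, b⟩, fun e => c (e ▸ h1)⟩
      · exact Or.inl ⟨⟨a, c⟩, fun e => b (e ▸ rfl)⟩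
    · rintro (⟨⟨a, b⟩, c⟩ | ⟨⟨a, b⟩, c⟩)
      · exact ⟨Or.inr a, fun e => c (SimpleGraph.Dart.symm_involutive.injective
          (h3 ε.symm e a)), b⟩
      · exact ⟨Or.inl a, b, fun e => c (h3 ε a e)⟩
  · simp [bd, or_comm]

theorem nonempty_vertex : Nonempty (Fin σ.r) := by
  exact σ.tree.connected.nonempty

end Pool.Agent.Adm.Shape

end

section

/-! Marked points beyond special points, medians, counting. -/

namespace Pool.Agent.Adm.Shape

open Sum

variable {n : ℕ} (σ : Shape n)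

theorem three_le_card (v : Fin σ.r) : 3 ≤ Fintype.card (σ.Sl v) := by
  have := σ.stable v
  rwa [← Nat.card_eq_fintype_card]

theorem exists_two_slots_Tr3 (v : Fin σ.r) (t : σ.Slot) :
    ∃ s s', σ.base s = v ∧ σ.base s' = v ∧ s ≠ s' ∧ s ≠ t ∧ s' ≠ t := by
  obtain ⟨a, b, c, hab, hac, hbc⟩ := Fintype.two_lt_card_iff.1 (σ.three_le_card v)
  have hab' : a.1 ≠ b.1 := fun h => hab (Subtype.ext h)
  have hac' : a.1 ≠ c.1 := fun h => hac (Subtype.ext h)
  have hbc' : b.1 ≠ c.1 := fun h => hbc (Subtype.ext h)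
  by_cases ha : a.1 = t
  · exact ⟨b.1, c.1, b.2, c.2, hbc', ha ▸ hab'.symm, ha ▸ hac'.symm⟩
  · by_cases hb : b.1 = t
    · exact ⟨a.1, c.1, a.2, c.2, hac', ha, hb ▸ hbc'.symm⟩
    · exact ⟨a.1, b.1, a.2, b.2, hab', ha, hb⟩

theorem dir_of_ne_Tr3 (δ : σ.T.Dart) {l : Fin n} (h : σ.dir δ.snd l ≠ inl δ.symm) :
    σ.dir δ.fst l = inl δ := by
  by_contra hc
  exact h ((σ.dir_symm_iff δ l).2 hc)

theorem exists_dir_inl_Tr3 (m : ℕ) : ∀ δ : σ.T.Dart, (σ.Br δ).ncard = m →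
    ∃ l, σ.dir δ.fst l = inl δ := by
  induction m using Nat.strong_induction_on with
  | _ m ih =>
    intro δ hm
    obtain ⟨s, -, hs, -, -, h1, -⟩ := σ.exists_two_slots_Tr3 δ.snd (inl δ.symm)
    rcases s with δ' | l
    · have h2 : δ'.fst = δ.snd := hs
      have h3 := σ.Br_ssubset h2 fun h => h1 (by rw [h])
      obtain ⟨l, hl⟩ := ih _ (hm ▸ Set.ncard_lt_ncard h3 (Set.toFinite _)) δ' rfl
      refine ⟨l, σ.dir_of_ne_Tr3 δ ?_⟩
      rw [← h2, hl]
      exact h1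
    · have h2 : σ.comp l = δ.snd := hs
      refine ⟨l, σ.dir_of_ne_Tr3 δ ?_⟩
      rw [← h2, σ.dir_comp]
      exact h1

theorem exists_closer_Tr3 {v : Fin σ.r} {i j : Fin n} (hij : i ≠ j)
    (h : σ.dir v i = σ.dir v j) (k : Fin n) : ∃ u,
      σ.T.dist u (σ.comp i) + σ.T.dist u (σ.comp j) + σ.T.dist u (σ.comp k) <
        σ.T.dist v (σ.comp i) + σ.T.dist v (σ.comp j) + σ.T.dist v (σ.comp k) := by
  rcases h' : σ.dir v j with δ | l
  · rw [h'] at h
    obtain ⟨rfl, h1⟩ := (σ.dir_eq_inl_iff v i δ).1 h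
    obtain ⟨-, h2⟩ := (σ.dir_eq_inl_iff _ j δ).1 h'
    have h3 : σ.T.dist δ.snd (σ.comp i) < σ.T.dist δ.fst (σ.comp i) := h1
    have h4 : σ.T.dist δ.snd (σ.comp j) < σ.T.dist δ.fst (σ.comp j) := h2
    have h5 := σ.tree.connected.dist_triangle (u := δ.snd) (v := δ.fst) (w := σ.comp k)
    have h6 : σ.T.dist δ.snd δ.fst = 1 := SimpleGraph.dist_eq_one_iff_adj.2 δ.adj.symm
    exact ⟨δ.snd, by omega⟩
  · rw [h'] at h
    exact absurd (((σ.dir_eq_inr_iff v i l).1 h).2.trans ((σ.dir_eq_inr_iff v j l).1 h').2.symm)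
      hij

theorem exists_dir (s : σ.Slot) : ∃ l, σ.dir (σ.base s) l = s := by
  rcases s with δ | l
  · exact σ.exists_dir_inl_Tr3 _ δ rfl
  · exact ⟨l, σ.dir_comp l⟩

theorem exists_two (δ : σ.T.Dart) :
    ∃ l l', l ≠ l' ∧ σ.dir δ.fst l = inl δ ∧ σ.dir δ.fst l' = inl δ := by
  obtain ⟨s, s', hs, hs', hne, h1, h2⟩ := σ.exists_two_slots_Tr3 δ.snd (inl δ.symm)
  obtain ⟨l, hl⟩ := σ.exists_dir s
  obtain ⟨l', hl'⟩ := σ.exists_dir s'
  rw [hs] at hl
  rw [hs'] at hl'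
  refine ⟨l, l', ?_, σ.dir_of_ne_Tr3 δ (hl ▸ h1), σ.dir_of_ne_Tr3 δ (hl' ▸ h2)⟩
  rintro rfl
  exact hne (hl.symm.trans hl')

theorem exists_med {i0 i1 i2 : Fin n} (h01 : i0 ≠ i1) (h02 : i0 ≠ i2) (h12 : i1 ≠ i2) :
    ∃ v, σ.IsMed v i0 i1 i2 := by
  have : Nonempty (Fin σ.r) := σ.tree.connected.nonempty
  obtain ⟨v, hv⟩ := Finite.exists_min fun v : Fin σ.r =>
    σ.T.dist v (σ.comp i0) + σ.T.dist v (σ.comp i1) + σ.T.dist v (σ.comp i2)
  refine ⟨v, fun h => ?_, fun h => ?_, fun h => ?_⟩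
  · obtain ⟨u, hu⟩ := σ.exists_closer_Tr3 h01 h i2
    have := hv u
    omega
  · obtain ⟨u, hu⟩ := σ.exists_closer_Tr3 h02 h i1
    have := hv u
    omega
  · obtain ⟨u, hu⟩ := σ.exists_closer_Tr3 h12 h i0
    have := hv u
    omega

theorem exists_triple (v : Fin σ.r) : ∃ i0 i1 i2, σ.IsMed v i0 i1 i2 := by
  obtain ⟨a, b, c, hab, hac, hbc⟩ := Fintype.two_lt_card_iff.1 (σ.three_le_card v)
  obtain ⟨i0, h0⟩ := σ.exists_dir a.1
  obtain ⟨i1, h1⟩ := σ.exists_dir b.1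
  obtain ⟨i2, h2⟩ := σ.exists_dir c.1
  rw [a.2] at h0
  rw [b.2] at h1
  rw [c.2] at h2
  refine ⟨i0, i1, i2, ?_, ?_, ?_⟩
  · rw [h0, h1]
    exact fun h => hab (Subtype.ext h)
  · rw [h0, h2]
    exact fun h => hac (Subtype.ext h)
  · rw [h1, h2]
    exact fun h => hbc (Subtype.ext h)

theorem IsMed.ne {σ : Shape n} {v : Fin σ.r} {i0 i1 i2 : Fin n} (h : σ.IsMed v i0 i1 i2) :
    i0 ≠ i1 ∧ i0 ≠ i2 ∧ i1 ≠ i2 := by
  refine ⟨?_, ?_, ?_⟩
  · rintro rfl
    exact h.1 rfl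
  · rintro rfl
    exact h.2.1 rfl
  · rintro rfl
    exact h.2.2 rfl

theorem sum_card : ∑ v, Fintype.card (σ.Sl v) + 2 = n + 2 * σ.r := by
  classical
  have h1 : ∑ v, Fintype.card (σ.Sl v) = Fintype.card σ.Slot := by
    rw [← Fintype.card_congr (Equiv.sigmaFiberEquiv σ.base), Fintype.card_sigma]
  have h2 : Fintype.card σ.T.Dart = 2 * σ.T.edgeFinset.card := by
    convert σ.T.dart_card_eq_twice_card_edges
  have h3 := σ.tree.card_edgeFinset
  rw [h1, Fintype.card_sum, h2]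
  simp only [Fintype.card_fin] at h3 ⊢
  omega

theorem sum_card_sub_two : ∑ v, (Fintype.card (σ.Sl v) - 2) + 2 = n := by
  have h1 := σ.sum_card
  have h2 : ∑ v, Fintype.card (σ.Sl v) = ∑ v, (Fintype.card (σ.Sl v) - 2 + 2) :=
    Finset.sum_congr rfl fun v _ => by
      have := σ.three_le_card v
      omega
  rw [h2, Finset.sum_add_distrib] at h1
  simp only [Finset.sum_const, Finset.card_univ, Fintype.card_fin, smul_eq_mul] at h1
  omega

theorem r_add_two_le : σ.r + 2 ≤ n := by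
  have h1 := σ.sum_card_sub_two
  have h2 : ∑ _v : Fin σ.r, 1 ≤ ∑ v, (Fintype.card (σ.Sl v) - 2) :=
    Finset.sum_le_sum fun v _ => by
      have := σ.three_le_card v
      omega
  simp only [Finset.sum_const, Finset.card_univ, Fintype.card_fin, smul_eq_mul] at h2
  omega

include σ in
theorem three_le : 3 ≤ n := by
  obtain ⟨v⟩ : Nonempty (Fin σ.r) := σ.tree.connected.nonempty
  have h1 := σ.r_add_two_le
  have h2 := v.2
  omega

theorem finite_shape (n : ℕ) : Finite (Shape n) := by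
  refine Finite.of_injective
    (β := Σ r : Fin (n + 1), SimpleGraph (Fin r) × (Fin n → Fin r))
    (fun σ => ⟨⟨σ.r, by have := σ.r_add_two_le; omega⟩, σ.T, σ.comp⟩) ?_
  rintro ⟨r, T, ht, c, hs⟩ ⟨r', T', ht', c', hs'⟩ h
  have hr : r = r' := congrArg (fun x => x.1.1) h
  subst hr
  have h2 := eq_of_heq (Sigma.mk.inj h).2
  obtain ⟨rfl, rfl⟩ := Prod.mk.inj h2
  rfl

theorem dir_of_isEmpty (h : IsEmpty σ.T.Dart) (v : Fin σ.r) (l : Fin n) : σ.dir v l = inr l := by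
  rcases h' : σ.dir v l with δ | l'
  · exact isEmptyElim δ
  · rw [((σ.dir_eq_inr_iff v l l').1 h').2]

theorem subsingleton_of_isEmpty (h : IsEmpty σ.T.Dart) : Subsingleton (Fin σ.r) := by
  refine ⟨fun u v => ?_⟩
  by_contra huv
  obtain ⟨δ, -⟩ := σ.exists_dart huv
  exact isEmptyElim δ

theorem isEmpty_of_injective (v : Fin σ.r) (h : Function.Injective (σ.dir v)) :
    IsEmpty σ.T.Dart := by
  refine ⟨fun δ => ?_⟩
  have h1 : ∃ u, u ≠ v := by
    by_contra hc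
    push Not at hc
    exact δ.fst_ne_snd ((hc _).trans (hc _).symm)
  obtain ⟨u, hu⟩ := h1
  obtain ⟨δ', h2, -⟩ := σ.exists_dart hu
  obtain ⟨l, l', hne, hl, hl'⟩ := σ.exists_two δ'
  rw [h2] at hl hl'
  exact hne (h (hl.trans hl'.symm))

theorem exists_smooth (hn : 3 ≤ n) : ∃ σ : Shape n, IsEmpty σ.T.Dart := by
  refine ⟨⟨1, ⊥, SimpleGraph.IsTree.of_subsingleton, fun _ => 0, fun v => ?_⟩,
    ⟨fun δ => δ.adj⟩⟩
  have : Finite (⊥ : SimpleGraph (Fin 1)).Dart :=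
    Finite.of_injective (fun δ => δ.toProd) SimpleGraph.Dart.toProd_injective
  have h := Nat.card_le_card_of_injective
    (fun l : Fin n => (⟨inr l, Subsingleton.elim _ _⟩ :
      {s // slotBase (⊥ : SimpleGraph (Fin 1)) (fun _ : Fin n => 0) s = v}))
    fun l l' h => inr_injective (congrArg Subtype.val h)
  rw [Nat.card_eq_fintype_card, Fintype.card_fin] at h
  exact hn.trans h

end Pool.Agent.Adm.Shape

end

section

/-! Combinatorics of the labels on a Kummer covering of a tree of lines. -/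

namespace Pool.Agent.Adm.Shape

open Sum

variable {n : ℕ} (σ : Shape n) {i0 i2 : Fin n} {A Z : Type} [CommGroup A] [Fintype A]
  [DecidableEq A] [AddCommGroup Z]

theorem ram_xor_LS (s : σ.Slot) :
    σ.Ram i0 i2 s ↔ (σ.dir (σ.base s) i0 = s ↔ ¬ σ.dir (σ.base s) i2 = s) := by
  constructor
  · rintro ⟨h, h1⟩
    exact ⟨fun a b => h (a.trans b.symm), fun b => h1.resolve_right b⟩
  · intro h
    refine ⟨fun e => ?_, by tauto⟩
    rw [e] at h
    tauto

theorem dir_inr_LS (l l' : Fin n) : σ.dir (σ.comp l) l' = inr l ↔ l' = l := by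
  rw [dir_eq_inr_iff]
  exact ⟨fun h => h.2, fun h => ⟨h ▸ rfl, h⟩⟩

omit [Fintype A] [DecidableEq A] in
theorem kum_symm (u : A) (δ : σ.T.Dart) :
    σ.kum i0 i2 u (inl δ.symm) = (σ.kum i0 i2 u (inl δ))⁻¹ := by
  have e : σ.base (inl δ.symm) = δ.snd := rfl
  simp only [kum, e, base_inl, dir_symm_iff]
  by_cases h0 : σ.dir δ.fst i0 = inl δ <;> by_cases h2 : σ.dir δ.fst i2 = inl δ <;> simp [h0, h2]

theorem ram_symm (δ : σ.T.Dart) : σ.Ram i0 i2 (inl δ.symm) ↔ σ.Ram i0 i2 (inl δ) := by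
  have e : σ.base (inl δ.symm) = δ.snd := rfl
  rw [ram_xor_LS, ram_xor_LS, e, base_inl, dir_symm_iff, dir_symm_iff]
  tauto

theorem lab_symm (x : YI (Fin n) A i0 i2 → Z) (hx : ∑ y, x y = 0) (δ : σ.T.Dart) (t : A) :
    σ.lab i0 i2 x (inl δ.symm) t = -σ.lab i0 i2 x (inl δ) t := by
  have e : σ.base (inl δ.symm) = δ.snd := rfl
  have h := Finset.sum_filter_add_sum_filter_not Finset.univ
    (fun y : YI (Fin n) A i0 i2 => σ.dir δ.fst y.1.1 = inl δ) x
  rw [hx] at h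
  simp only [lab, e, base_inl, dir_symm_iff, ne_eq, not_not]
  by_cases h0 : σ.dir δ.fst i0 = inl δ <;> by_cases h2 : σ.dir δ.fst i2 = inl δ
  · simp only [h0, h2, not_true, and_self, or_self, if_true, if_false, neg_neg]
  · simp only [h0, h2, not_true, not_false_iff, and_false, false_and, or_true, true_or, if_true,
      if_false]
    exact eq_neg_of_add_eq_zero_right h
  · simp only [h0, h2, not_true, not_false_iff, and_false, false_and, or_true, true_or, if_true,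
      if_false]
    exact eq_neg_of_add_eq_zero_right h
  · simp only [h0, h2, not_false_iff, and_self, or_self, if_true, if_false]

omit [Fintype A] [DecidableEq A] in
theorem kum_of_ram (u : A) {s : σ.Slot} (h : σ.Ram i0 i2 s) :
    σ.kum i0 i2 u s = u ∨ σ.kum i0 i2 u s = u⁻¹ := by
  rw [ram_xor_LS] at h
  by_cases h0 : σ.dir (σ.base s) i0 = s
  · simp [kum, h0, h.1 h0]
  · have h2 : σ.dir (σ.base s) i2 = s := by tauto
    simp [kum, h0, h2]

omit [Fintype A] [DecidableEq A] in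
theorem kum_of_not_ram (u : A) {s : σ.Slot} (h : ¬ σ.Ram i0 i2 s) : σ.kum i0 i2 u s = 1 := by
  rw [ram_xor_LS] at h
  by_cases h0 : σ.dir (σ.base s) i0 = s
  · have h2 : σ.dir (σ.base s) i2 = s := by tauto
    simp [kum, h0, h2]
  · have h2 : ¬ σ.dir (σ.base s) i2 = s := by tauto
    simp [kum, h0, h2]

omit [Fintype A] [DecidableEq A] in
theorem kum_dir_left (u : A) {v : Fin σ.r} (h : σ.OnPath i0 i2 v) :
    σ.kum i0 i2 u (σ.dir v i0) = u ∧ σ.kum i0 i2 u (σ.dir v i2) = u⁻¹ := by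
  have h1 : σ.dir v i0 ≠ σ.dir v i2 := h
  simp [kum, base_dir, h1, h1.symm]

theorem ram_iff {v : Fin σ.r} {s : σ.Slot} (hs : σ.base s = v) :
    σ.Ram i0 i2 s ↔ σ.OnPath i0 i2 v ∧ (s = σ.dir v i0 ∨ s = σ.dir v i2) := by
  rw [Ram, hs, eq_comm (a := s), eq_comm (a := s)]

omit [Fintype A] [DecidableEq A] in
theorem kumLab_kum (h : i0 ≠ i2) (u : A) :
    KumLab (MonoidHom.id A) (fun l => σ.kum i0 i2 u (inr l)) i0 i2 u := by
  refine ⟨?_, ?_, fun l h0 h2 => ?_⟩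
  · simp [kum, dir_inr_LS, h.symm]
  · simp [kum, dir_inr_LS, h]
  · simp [kum, dir_inr_LS, h0.symm, h2.symm]

theorem ram_inr (h : i0 ≠ i2) (l : Fin n) : σ.Ram i0 i2 (inr l) ↔ l = i0 ∨ l = i2 := by
  rw [ram_xor_LS, base_inr, dir_inr_LS, dir_inr_LS]
  constructor
  · intro h1
    by_cases h0 : i0 = l
    · exact Or.inl h0.symm
    · exact Or.inr (not_not.1 fun h2 => h0 (h1.2 fun h3 => h2 h3.symm))
  · rintro (rfl | rfl)
    · simp [h.symm]
    · simp [h]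

theorem lab_inr (h : i0 ≠ i2) (x : YI (Fin n) A i0 i2 → Z) (y : YI (Fin n) A i0 i2) :
    σ.lab i0 i2 x (inr y.1.1) y.1.2 = x y := by
  simp only [lab, base_inr, dir_inr_LS]
  rw [if_neg fun h1 => h (h1.1.trans h1.2.symm)]
  split_ifs with h1
  · refine Finset.sum_eq_single_of_mem y (by simp) fun y' h2 h3 => absurd ?_ h3
    have h4 := (Finset.mem_filter.1 h2).2
    have h5 : y.1.1 = i0 ∨ y.1.1 = i2 := h1.imp Eq.symm Eq.symm
    exact Subtype.ext (Prod.ext h4 ((y'.2 (h4 ▸ h5)).trans (y.2 h5).symm))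
  · refine Finset.sum_eq_single_of_mem y (by simp) fun y' h2 h3 => absurd ?_ h3
    have h4 := (Finset.mem_filter.1 h2).2
    exact Subtype.ext (Prod.ext h4.1 h4.2)

theorem lab_of_ram (x : YI (Fin n) A i0 i2 → Z) {s : σ.Slot} (h : σ.Ram i0 i2 s) (t : A) :
    σ.lab i0 i2 x s t =
      ∑ y ∈ Finset.univ.filter (fun y : YI (Fin n) A i0 i2 => σ.dir (σ.base s) y.1.1 = s), x y := by
  rw [lab, if_neg fun h1 => h.1 (h1.1.trans h1.2.symm), if_pos h.2]

theorem lab_of_ne (x : YI (Fin n) A i0 i2 → Z) {v : Fin σ.r} {s : σ.Slot} (hs : σ.base s = v)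
    (h0 : s ≠ σ.dir v i0) (h2 : s ≠ σ.dir v i2) (t : A) :
    σ.lab i0 i2 x s t = ∑ y ∈ Finset.univ.filter
      (fun y : YI (Fin n) A i0 i2 => σ.dir v y.1.1 = s ∧ y.1.2 = t), x y := by
  subst hs
  rw [lab, if_neg fun h1 => h0 h1.1.symm, if_neg fun h1 => h1.elim h0.symm h2.symm]

theorem sum_lab_path (x : YI (Fin n) A i0 i2 → Z) (hx : ∑ y, x y = 0) {v : Fin σ.r}
    (hv : σ.OnPath i0 i2 v) :
    σ.lab i0 i2 x (σ.dir v i0) 1 + ∑ s ∈ Finset.univ.filter
      (fun s => σ.base s = v ∧ s ≠ σ.dir v i0 ∧ s ≠ σ.dir v i2), ∑ t, σ.lab i0 i2 x s t =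
      -σ.lab i0 i2 x (σ.dir v i2) 1 := by
  have hv' : σ.dir v i0 ≠ σ.dir v i2 := hv
  rw [σ.lab_of_ram x ((σ.ram_iff (σ.base_dir v i0)).2 ⟨hv, Or.inl rfl⟩),
    σ.lab_of_ram x ((σ.ram_iff (σ.base_dir v i2)).2 ⟨hv, Or.inr rfl⟩), base_dir, base_dir]
  have h1 : ∀ s ∈ Finset.univ.filter
      (fun s => σ.base s = v ∧ s ≠ σ.dir v i0 ∧ s ≠ σ.dir v i2), ∑ t, σ.lab i0 i2 x s t =
      ∑ y, if σ.dir v y.1.1 = s then x y else 0 := by
    intro s hs
    obtain ⟨a, b, c⟩ := (Finset.mem_filter.1 hs).2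
    simp only [σ.lab_of_ne x a b c, Finset.sum_filter]
    rw [Finset.sum_comm]
    refine Finset.sum_congr rfl fun y _ => ?_
    by_cases h : σ.dir v y.1.1 = s <;> simp [h]
  rw [Finset.sum_congr rfl h1, Finset.sum_comm, eq_neg_iff_add_eq_zero, Finset.sum_filter,
    Finset.sum_filter, ← Finset.sum_add_distrib, ← Finset.sum_add_distrib]
  refine Eq.trans (Finset.sum_congr rfl fun y _ => ?_) hx
  rw [Finset.sum_ite_eq]
  by_cases h0 : σ.dir v y.1.1 = σ.dir v i0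
  · simp [h0, hv']
  · by_cases h2 : σ.dir v y.1.1 = σ.dir v i2
    · simp [h2, hv'.symm]
    · simp [h0, h2, base_dir]

theorem sum_lab_off (x : YI (Fin n) A i0 i2 → Z) {v : Fin σ.r} (hv : ¬ σ.OnPath i0 i2 v) (t : A) :
    ∑ s ∈ Finset.univ.filter (fun s => σ.base s = v), σ.lab i0 i2 x s t = 0 := by
  have hv' : σ.dir v i0 = σ.dir v i2 := not_not.1 hv
  have h0 : σ.dir v i0 ∈ Finset.univ.filter (fun s => σ.base s = v) := by simp [base_dir]
  rw [← Finset.add_sum_erase _ _ h0]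
  have h1 : ∀ s ∈ (Finset.univ.filter (fun s => σ.base s = v)).erase (σ.dir v i0),
      σ.lab i0 i2 x s t = ∑ y, if σ.dir v y.1.1 = s then (if y.1.2 = t then x y else 0) else 0 := by
    intro s hs
    obtain ⟨a, b⟩ := Finset.mem_erase.1 hs
    rw [σ.lab_of_ne x (Finset.mem_filter.1 b).2 a (hv' ▸ a), Finset.sum_filter]
    simp only [ite_and]
  rw [Finset.sum_congr rfl h1, Finset.sum_comm, lab, base_dir, if_pos ⟨rfl, hv'.symm⟩,
    neg_add_eq_zero, Finset.sum_filter]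
  refine Finset.sum_congr rfl fun y _ => ?_
  rw [Finset.sum_ite_eq]
  by_cases h2 : σ.dir v y.1.1 = σ.dir v i0 <;> simp [h2, base_dir]

theorem WL.isConj {𝔽0 𝔽 : FF} {J I : Type} {x : J → YI (Fin n) 𝔽0.Fˣ i0 i2 → ZMod 𝔽.m}
    (hx : ∀ j, ∑ y, x j y = 0) {δ : σ.T.Dart} {g g' : WG 𝔽0 𝔽 J I}
    (h : σ.WL i0 i2 𝔽0 𝔽 x (inl δ) g) (h' : σ.WL i0 i2 𝔽0 𝔽 x (inl δ.symm) g') :
    IsConj g⁻¹ g' := by
  have := 𝔽.charP
  obtain ⟨⟨e, he, hge⟩, hr, hl⟩ := h
  obtain ⟨⟨e', he', hge'⟩, hr', hl'⟩ := h'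
  have key : ∀ N : ℕ, (g ^ N).right = 1 → (g' ^ N).right = 1 →
      (∀ j t, ((g ^ N).left t j).u = 𝔽.u ^ (σ.lab i0 i2 (x j) (inl δ) t).val) →
      (∀ j t, ((g' ^ N).left t j).u = 𝔽.u ^ (σ.lab i0 i2 (x j) (inl δ.symm) t).val) →
      ∀ t, IsConj ((g⁻¹ ^ N).left t) ((g' ^ N).left t) := by
    intro N a a' b b' t
    rw [inv_pow, wr_inv_left _ a]
    refine isConj_pi fun j => AffV.isConj ?_ ⟨e, he, ?_⟩ ⟨e', he', ?_⟩
    · rw [Pi.inv_apply, AffV.inv_u, b, b', σ.lab_symm _ (hx j), FF.pow_val_neg]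
    · rw [Pi.inv_apply, inv_pow, ← Pi.pow_apply, ← wr_pow_left _ a, pow_right_comm, hge, one_pow]
      exact inv_one
    · rw [← Pi.pow_apply, ← wr_pow_left _ a', pow_right_comm, hge', one_pow]
      rfl
  by_cases hR : σ.Ram i0 i2 (inl δ)
  · rw [if_pos hR] at hl
    rw [if_pos ((σ.ram_symm δ).2 hR)] at hl'
    refine wr_isConj_of_gen (by rw [RegularWreathProduct.inv_right, hr, hr', kum_symm]) ?_ ?_
    · intro t
      rw [RegularWreathProduct.inv_right, Subgroup.zpowers_inv, hr]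
      rcases σ.kum_of_ram 𝔽0.u hR with h1 | h1
      · rw [h1]
        exact 𝔽0.mem_zpowers t
      · rw [h1, Subgroup.zpowers_inv]
        exact 𝔽0.mem_zpowers t
    · rw [𝔽0.card_units]
      exact key _ (by rw [wr_pow_right, 𝔽0.pow_m]) (by rw [wr_pow_right, 𝔽0.pow_m]) hl hl' 1
  · have hR' : ¬ σ.Ram i0 i2 (inl δ.symm) := fun h1 => hR ((σ.ram_symm δ).1 h1)
    rw [if_neg hR] at hl
    rw [if_neg hR'] at hl'
    rw [σ.kum_of_not_ram _ hR] at hr
    rw [σ.kum_of_not_ram _ hR'] at hr'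
    refine wr_isConj_of_right_one (by rw [RegularWreathProduct.inv_right, hr, inv_one]) hr' ?_
    simpa only [pow_one] using key 1 (by rw [pow_one, hr]) (by rw [pow_one, hr']) hl hl'

end Pool.Agent.Adm.Shape

end

section

/-! Solutions at infinity of the twisted Artin-Schreier equation. -/

namespace Pool.Agent.Adm

open scoped OnePoint
open Polynomial

variable {k F : Type} [Field k] [Field F] [Fintype F]
  {J : OnePoint k → RatFunc k →+* LaurentSeries k}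

/-- The initial part of a series. -/
noncomputable def ini_VU0 {w : ℕ} (c : Fin w → k) : LaurentSeries k :=
  ∑ i : Fin w, HahnSeries.single ((i.1 + 1 : ℕ) : ℤ) (c i)

theorem ini_coeff_VU0 {w : ℕ} (c : Fin w → k) (j : Fin w) :
    (ini_VU0 c).coeff ((j.1 + 1 : ℕ) : ℤ) = c j := by
  rw [ini_VU0, HahnSeries.coeff_sum, Finset.sum_eq_single_of_mem j (Finset.mem_univ j)
    fun i _ hi => HahnSeries.coeff_single_of_ne fun e => hi (Fin.ext (by omega)),
    HahnSeries.coeff_single_same]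

theorem ini_nonpos_VU0 {w : ℕ} (c : Fin w → k) : ∀ n ≤ 0, (ini_VU0 c).coeff n = 0 := by
  intro n hn
  rw [ini_VU0, HahnSeries.coeff_sum]
  exact Finset.sum_eq_zero fun i _ => HahnSeries.coeff_single_of_ne (by omega)

theorem ini_pow_VU0 (θ : F →+* k) {w : ℕ} (c : Fin w → k) :
    ini_VU0 c ^ Fintype.card F = ∑ i : Fin w,
      HahnSeries.single ((Fintype.card F * (i.1 + 1) : ℕ) : ℤ) (c i ^ Fintype.card F) := by
  have key : ∀ (s : Finset (Fin w)) (g : Fin w → LaurentSeries k),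
      (∑ i ∈ s, g i) ^ Fintype.card F = ∑ i ∈ s, g i ^ Fintype.card F := by
    intro s g
    induction s using Finset.induction_on with
    | empty => simp
    | insert a s ha ih =>
      rw [Finset.sum_insert ha, Finset.sum_insert ha,
        add_pow_card_of_hom (HahnSeries.C.comp θ), ih]
  rw [ini_VU0, key]
  refine Finset.sum_congr rfl fun i _ => ?_
  rw [HahnSeries.single_pow, nsmul_eq_mul, Nat.cast_mul]

theorem IsCharts.coeff_VU0 (hJ : IsCharts J) (θ : F →+* k) (f : k[X]) (w : ℕ)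
    (hD : f.natDegree ≤ (w + 1) * (Fintype.card F - 1)) (V : LaurentSeries k)
    (hV : ∀ n ≤ 0, V.coeff n = 0) (n : ℤ) (hn : n ≤ w) :
    (V ^ Fintype.card F * J ∞ (algebraMap k[X] (RatFunc k) f)).coeff n =
      ∑ i : Fin w, V.coeff ((i.1 + 1 : ℕ) : ℤ) ^ Fintype.card F *
        (J ∞ (algebraMap k[X] (RatFunc k) f)).coeff
          (n - ((Fintype.card F * (i.1 + 1) : ℕ) : ℤ)) := by
  have hq : 1 < Fintype.card F := Fintype.one_lt_card
  obtain ⟨c, hc⟩ : ∃ c : Fin w → k, ∀ i, c i = V.coeff ((i.1 + 1 : ℕ) : ℤ) := ⟨_, fun _ => rfl⟩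
  obtain ⟨R, hR⟩ : ∃ R, R = V - ini_VU0 c := ⟨_, rfl⟩
  have hR2 : ∀ m < ((w + 1 : ℕ) : ℤ), R.coeff m = 0 := by
    intro m hm
    rw [hR, HahnSeries.coeff_sub]
    by_cases h0 : m ≤ 0
    · rw [hV m h0, ini_nonpos_VU0 c m h0, sub_zero]
    · have e : m = (((⟨m.toNat - 1, by omega⟩ : Fin w).1 + 1 : ℕ) : ℤ) := by
        simp only
        omega
      rw [e, ini_coeff_VU0, hc, sub_self]
  have hR3 : (R ^ Fintype.card F * J ∞ (algebraMap k[X] (RatFunc k) f)).coeff n = 0 := by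
    refine van_mul_VF5 (van_pow_VF5 hR2 _) (hJ.van_infty_VF5 f hD) n ?_
    obtain ⟨m, hm⟩ : ∃ m, Fintype.card F = m + 1 := ⟨_, (Nat.sub_add_cancel hq.le).symm⟩
    rw [hm, Nat.add_sub_cancel]
    push_cast
    linarith
  have hVR : V = ini_VU0 c + R := by rw [hR, add_sub_cancel]
  conv_lhs => rw [hVR, add_pow_card_of_hom (HahnSeries.C.comp θ), add_mul, HahnSeries.coeff_add,
    hR3, add_zero, ini_pow_VU0 θ, Finset.sum_mul, HahnSeries.coeff_sum]
  refine Finset.sum_congr rfl fun i _ => ?_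
  rw [HahnSeries.coeff_single_mul, hc]

theorem IsCharts.coeff_HW_VU0 (hJ : IsCharts J) (q : ℕ) (f : k[X]) (w : ℕ) (i j : Fin w) :
    (J ∞ (algebraMap k[X] (RatFunc k) f)).coeff
      (((j.1 + 1 : ℕ) : ℤ) - ((q * (i.1 + 1) : ℕ) : ℤ)) = HW q f w i j := by
  rw [hJ.coeff_infty, HW, Matrix.of_apply]
  generalize q * (i.1 + 1) = N
  by_cases h : j.1 + 1 ≤ N
  · rw [if_pos h, if_pos (by omega)]
    congr 1
    omega
  · rw [if_neg h, if_neg (by omega)]

theorem IsCharts.sol_of_eq (hJ : IsCharts J) (θ : F →+* k) (f P : k[X]) (w : ℕ)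
    (hD : f.natDegree ≤ (w + 1) * (Fintype.card F - 1)) (V : LaurentSeries k)
    (hV : ∀ n ≤ 0, V.coeff n = 0)
    (h : V ^ Fintype.card F * J ∞ (algebraMap k[X] (RatFunc k) f) - V =
      J ∞ (algebraMap k[X] (RatFunc k) P)) :
    (fun j : Fin w => V.coeff ((j.1 + 1 : ℕ) : ℤ)) ∈ Sol (Fintype.card F) (HW (Fintype.card F) f w) ∧
      ((∀ j : Fin w, V.coeff ((j.1 + 1 : ℕ) : ℤ) = 0) → P = 0) := by
  refine ⟨fun j => ?_, fun h0 => ?_⟩
  · have h1 := congrArg (fun x : LaurentSeries k => x.coeff ((j.1 + 1 : ℕ) : ℤ)) h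
    simp only [HahnSeries.coeff_sub] at h1
    rw [hJ.coeff_VU0 θ f w hD V hV _ (by have := j.2; omega), hJ.coeff_infty P,
      if_neg (by omega), sub_eq_zero] at h1
    refine h1.symm.trans (Finset.sum_congr rfl fun i _ => ?_)
    rw [hJ.coeff_HW_VU0, mul_comm]
  · ext m
    have h1 := congrArg (fun x : LaurentSeries k => x.coeff (-(m : ℤ))) h
    simp only [HahnSeries.coeff_sub] at h1
    rw [hJ.coeff_VU0 θ f w hD V hV _ (by omega), hV _ (by omega), hJ.coeff_infty P,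
      if_pos (by omega), sub_zero,
      Finset.sum_eq_zero fun i _ => by rw [h0, zero_pow Fintype.card_ne_zero, zero_mul]] at h1
    simpa using h1.symm

theorem IsCharts.exists_of_sol [IsAlgClosed k] (hJ : IsCharts J) (θ : F →+* k) (f : k[X])
    (w : ℕ) (hD : f.natDegree ≤ (w + 1) * (Fintype.card F - 1)) (c : Fin w → k)
    (hc : c ∈ Sol (Fintype.card F) (HW (Fintype.card F) f w)) :
    ∃ (h : k[X]) (V : LaurentSeries k), (h = 0 ∨ h.natDegree < f.natDegree) ∧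
      (∀ n ≤ 0, V.coeff n = 0) ∧ (∀ j : Fin w, V.coeff ((j.1 + 1 : ℕ) : ℤ) = c j) ∧
      V ^ Fintype.card F * J ∞ (algebraMap k[X] (RatFunc k) f) - V =
        J ∞ (algebraMap k[X] (RatFunc k) h) := by
  have hq : 1 < Fintype.card F := Fintype.one_lt_card
  obtain ⟨x, hx⟩ : ∃ x, x = J ∞ (algebraMap k[X] (RatFunc k) f) := ⟨_, rfl⟩
  obtain ⟨h, hh⟩ := hJ.exists_polar_infty (ini_VU0 c ^ Fintype.card F * x - ini_VU0 c)
  obtain ⟨y, hy⟩ : ∃ y, y = J ∞ (algebraMap k[X] (RatFunc k) h) := ⟨_, rfl⟩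
  rw [← hy] at hh
  have hY : ∀ n < ((w + 1 : ℕ) : ℤ),
      (ini_VU0 c ^ Fintype.card F * x - ini_VU0 c - y).coeff n = 0 := by
    intro n hn
    by_cases h0 : n ≤ 0
    · exact hh n h0
    · obtain ⟨j, rfl⟩ : ∃ j : Fin w, n = ((j.1 + 1 : ℕ) : ℤ) :=
        ⟨⟨n.toNat - 1, by omega⟩, by simp only; omega⟩
      rw [HahnSeries.coeff_sub, HahnSeries.coeff_sub, hx, hy,
        hJ.coeff_VU0 θ f w hD _ (ini_nonpos_VU0 c) _ (by omega), hJ.coeff_infty h, if_neg h0,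
        sub_zero, sub_eq_zero, ini_coeff_VU0, hc j]
      refine Finset.sum_congr rfl fun i _ => ?_
      rw [hJ.coeff_HW_VU0, mul_comm, ini_coeff_VU0]
  obtain ⟨a, ha⟩ := Reg.ps_EX1
    (x := HahnSeries.single (((w + 1) * (Fintype.card F - 1) : ℕ) : ℤ) 1 * x) (fun n hn => by
      rw [HahnSeries.coeff_single_mul, hx, hJ.van_infty_VF5 f hD _ (by omega), mul_zero])
  obtain ⟨b, hb⟩ := Reg.ps_EX1 (x := HahnSeries.single (-((w + 1 : ℕ) : ℤ)) 1 *
      (ini_VU0 c ^ Fintype.card F * x - ini_VU0 c - y)) (fun n hn => by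
    rw [HahnSeries.coeff_single_mul, hY _ (by omega), mul_zero])
  obtain ⟨ρ, hρ⟩ := exists_ps_sol θ a b
  have hρ' := congrArg (HahnSeries.ofPowerSeries ℤ k) hρ
  rw [map_sub, map_mul, map_pow, ha, hb] at hρ'
  have hT : ∀ n < ((w + 1 : ℕ) : ℤ), (HahnSeries.single ((w + 1 : ℕ) : ℤ) (1 : k) *
      HahnSeries.ofPowerSeries ℤ k ρ).coeff n = 0 := by
    intro n hn
    rw [HahnSeries.coeff_single_mul, PowerSeries.coeff_coe, if_pos (by omega), mul_zero]
  refine ⟨h, ini_VU0 c + HahnSeries.single ((w + 1 : ℕ) : ℤ) 1 * HahnSeries.ofPowerSeries ℤ k ρ,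
    ?_, fun n hn => ?_, fun j => ?_, ?_⟩
  · by_contra h0
    rw [not_or, not_lt] at h0
    have h1 := hh (-(h.natDegree : ℤ)) (by omega)
    rw [HahnSeries.coeff_sub, HahnSeries.coeff_sub, ini_nonpos_VU0 c _ (by omega), hx, hy,
      van_mul_VF5 (van_pow_VF5 (a := 1) (fun n hn => ini_nonpos_VU0 c n (by omega)) _)
        (hJ.van_infty_VF5 f le_rfl) _ (by omega), hJ.coeff_infty, if_pos (by omega)] at h1
    exact h0.1 (leadingCoeff_eq_zero.1 (by simpa using h1))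
  · rw [HahnSeries.coeff_add, ini_nonpos_VU0 c n hn, hT n (by omega), add_zero]
  · rw [HahnSeries.coeff_add, ini_coeff_VU0, hT _ (by have := j.2; omega), add_zero]
  · have e1 : (HahnSeries.single ((w + 1 : ℕ) : ℤ) (1 : k)) *
        HahnSeries.single (-((w + 1 : ℕ) : ℤ)) 1 = 1 := by
      rw [HahnSeries.single_mul_single, add_neg_cancel, one_mul, HahnSeries.single_zero_one]
    have e2 : (HahnSeries.single ((w + 1 : ℕ) : ℤ) (1 : k)) ^ Fintype.card F =
        HahnSeries.single ((w + 1 : ℕ) : ℤ) 1 *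
          HahnSeries.single (((w + 1) * (Fintype.card F - 1) : ℕ) : ℤ) 1 := by
      obtain ⟨m, hm⟩ : ∃ m, Fintype.card F = m + 1 := ⟨_, (Nat.sub_add_cancel hq.le).symm⟩
      rw [HahnSeries.single_mul_single, HahnSeries.single_pow, one_pow, one_mul, hm,
        Nat.add_sub_cancel, nsmul_eq_mul]
      congr 2
      push_cast
      ring
    rw [add_pow_card_of_hom (HahnSeries.C.comp θ), mul_pow, e2, ← hx, ← hy]
    linear_combination (-HahnSeries.single ((w + 1 : ℕ) : ℤ) (1 : k)) * hρ' -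
      (ini_VU0 c ^ Fintype.card F * x - ini_VU0 c - y) * e1

theorem IsCharts.coeff_eq_zero (hJ : IsCharts J) (θ : F →+* k) (f : k[X]) (hf : f ≠ 0) (w : ℕ)
    (hD : w * (Fintype.card F - 1) < f.natDegree) (V : LaurentSeries k)
    (hV : ∀ n ≤ 0, V.coeff n = 0)
    (h : V ^ Fintype.card F * J ∞ (algebraMap k[X] (RatFunc k) f) - V = 0) (j : Fin w) :
    V.coeff ((j.1 + 1 : ℕ) : ℤ) = 0 := by
  have hq : 1 < Fintype.card F := Fintype.one_lt_card
  by_cases h0 : V = 0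
  · rw [h0, HahnSeries.coeff_zero]
  have h1 : J ∞ (algebraMap k[X] (RatFunc k) f) ≠ 0 :=
    (_root_.map_ne_zero _).2 (RatFunc.algebraMap_ne_zero hf)
  have h2 := congrArg HahnSeries.order (sub_eq_zero.1 h)
  rw [HahnSeries.order_mul (pow_ne_zero _ h0) h1, HahnSeries.order_pow, hJ.eval_VF4,
    order_eval₂_expand_infty 1 one_pos f hf, nsmul_eq_mul] at h2
  refine HahnSeries.coeff_eq_zero_of_lt_order ?_
  obtain ⟨m, hm⟩ : ∃ m, Fintype.card F = m + 1 := ⟨_, (Nat.sub_add_cancel hq.le).symm⟩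
  rw [hm, Nat.add_sub_cancel] at hD
  rw [hm] at h2
  have h3 : ((w * m : ℕ) : ℤ) < f.natDegree := by exact_mod_cast hD
  have h4 : ((j.1 + 1 : ℕ) : ℤ) ≤ w := by have := j.2; omega
  push_cast at h2 h3
  refine h4.trans_lt (lt_of_mul_lt_mul_right (a := (m : ℤ)) ?_ (Int.natCast_nonneg m))
  linarith

/-- Removing the polar parts at finite distance. -/
theorem IsCharts.exists_normal [IsAlgClosed k] (hJ : IsCharts J) (θ : F →+* k) (f : k[X])
    (h : RatFunc k)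
    (hloc : ∀ a, ∃ V, V ^ Fintype.card F * J a (algebraMap k[X] (RatFunc k) f) - V = J a h) :
    ∃ (r : RatFunc k) (P : k[X]) (V : LaurentSeries k), (∀ n ≤ 0, V.coeff n = 0) ∧
      h = r ^ Fintype.card F * algebraMap k[X] (RatFunc k) f - r +
        algebraMap k[X] (RatFunc k) P ∧
      V ^ Fintype.card F * J ∞ (algebraMap k[X] (RatFunc k) f) - V =
        J ∞ (algebraMap k[X] (RatFunc k) P) := by
  classical
  have shift : ∀ (a : OnePoint k) (h r : RatFunc k) (V : LaurentSeries k),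
      V ^ Fintype.card F * J a (algebraMap k[X] (RatFunc k) f) - V = J a h →
      (V - J a r) ^ Fintype.card F * J a (algebraMap k[X] (RatFunc k) f) - (V - J a r) =
        J a (h - (r ^ Fintype.card F * algebraMap k[X] (RatFunc k) f - r)) := by
    intro a h r V hV
    rw [sub_pow_card_of_hom (HahnSeries.C.comp θ), map_sub, map_sub, map_mul, map_pow, ← hV]
    ring
  obtain ⟨S, hS⟩ := hJ.exists_finset h
  induction S using Finset.induction_on generalizing h with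
  | empty =>
    obtain ⟨P, rfl⟩ := hJ.exists_poly h fun a => hS a (Finset.notMem_empty a)
    obtain ⟨V, hV⟩ := hloc ∞
    obtain ⟨Q, hQ⟩ := hJ.exists_polar_infty V
    have h1 := shift ∞ _ (algebraMap k[X] (RatFunc k) Q) V hV
    rw [← map_pow (algebraMap k[X] (RatFunc k)), ← map_mul (algebraMap k[X] (RatFunc k)),
      ← map_sub (algebraMap k[X] (RatFunc k)), ← map_sub (algebraMap k[X] (RatFunc k))] at h1
    refine ⟨algebraMap k[X] (RatFunc k) Q, _, _, hQ, ?_, h1⟩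
    rw [map_sub, map_sub, map_mul, map_pow, add_sub_cancel]
  | insert a S ha ih =>
    obtain ⟨V, hV⟩ := hloc a
    obtain ⟨r, hr, hr'⟩ := hJ.exists_polar a V
    obtain ⟨r', P, W, h1, h2, h3⟩ :=
      ih (h - (r ^ Fintype.card F * algebraMap k[X] (RatFunc k) f - r))
      (fun b => by
        obtain ⟨W, hW⟩ := hloc b
        exact ⟨_, shift b h r W hW⟩)
      (fun b hb => by
        by_cases e : b = a
        · subst e
          rw [← shift b h r V hV]
          exact ((hr.pow _).mul (hJ.reg_poly b f)).sub hr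
        · rw [map_sub, map_sub, map_mul, map_pow]
          exact (hS b (by simp [e, hb])).sub
            ((((hr' b e).pow _).mul (hJ.reg_poly b f)).sub (hr' b e)))
    refine ⟨r + r', P, W, h1, ?_, h3⟩
    rw [add_pow_card_of_hom (RatFunc.C.comp θ)]
    linear_combination h2

end Pool.Agent.Adm

end

section

/-! Cocycles: functoriality, Frobenius, lower bounds, generation. -/

namespace Pool.Agent.Adm

variable {G H F : Type} [Group G] [Group H] [Field F]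

theorem Z1.map_one {χ : G →* Fˣ} {b : G → F} (hb : b ∈ Z1 χ) : b 1 = 0 := by
  have h := hb 1 1
  rw [one_mul, _root_.map_one, Units.val_one, one_mul] at h
  linear_combination -h

theorem Z1.map_inv {χ : G →* Fˣ} {b : G → F} (hb : b ∈ Z1 χ) (g : G) :
    b g⁻¹ = -((χ g)⁻¹ : Fˣ) * b g := by
  have h := hb g g⁻¹
  rw [mul_inv_cancel, Z1.map_one hb, _root_.map_inv] at h
  linear_combination -h

theorem Z1.comp {χ : H →* Fˣ} {b : H → F} (hb : b ∈ Z1 χ) (π : G →* H) :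
    (fun g => b (π g)) ∈ Z1 (χ.comp π) := by
  intro g h
  simp only [map_mul, MonoidHom.comp_apply]
  exact hb _ _

theorem Z1.cobdry (χ : G →* Fˣ) (β : F) : (fun g => β * (1 - χ g)) ∈ Z1 χ := by
  intro g h
  simp only [map_mul, Units.val_mul]
  ring

/-- The affine action defined by a cocycle. -/
theorem Z1.exists_aff {χ : G →* Fˣ} {b : G → F} (hb : b ∈ Z1 χ) :
    ∃ ψ : G →* Aff F, ∀ g, (ψ g).u = χ g ∧ (ψ g).b = b g := by
  refine ⟨MonoidHom.mk' (fun g => ⟨χ g, b g⟩) fun g h => Aff.ext (map_mul χ g h) (hb g h),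
    fun g => ⟨rfl, rfl⟩⟩

/-- The zero set of a cocycle is a subgroup. -/
theorem Z1.exists_ker {χ : G →* Fˣ} {b : G → F} (hb : b ∈ Z1 χ) :
    ∃ K : Subgroup G, ∀ g, g ∈ K ↔ b g = 0 := by
  refine ⟨{ carrier := {g | b g = 0}, mul_mem' := ?_, one_mem' := Z1.map_one hb, inv_mem' := ?_ },
    fun g => Iff.rfl⟩
  · intro g h hg hh
    change b (g * h) = 0
    rw [hb g h, show b g = 0 from hg, show b h = 0 from hh, mul_zero, add_zero]
  · intro g hg
    change b g⁻¹ = 0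
    rw [Z1.map_inv hb, show b g = 0 from hg, mul_zero]

/-- Pulling back cocycles. -/
def pull_ZL (χ : H →* Fˣ) (π : G →* H) : Z1 χ →ₗ[F] Z1 (χ.comp π) where
  toFun b := ⟨fun g => b.1 (π g), Z1.comp b.2 π⟩
  map_add' _ _ := rfl
  map_smul' _ _ := rfl

theorem h1_le_of_restr [Finite H] (χ : G →* Fˣ) (f : H →* G)
    (h : ∀ b ∈ Z1 χ, (∀ x, b (f x) = 0) → b = 0) : h1 χ ≤ h1 (χ.comp f) := by
  refine LinearMap.finrank_le_finrank_of_injective (f := pull_ZL χ f) ?_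
  rw [injective_iff_map_eq_zero]
  intro b hb
  refine Subtype.ext (h b.1 b.2 fun x => ?_)
  exact congrFun (congrArg Subtype.val hb) x

theorem h1_le_comp [Finite G] (χ : H →* Fˣ) (π : G →* H) (hπ : Function.Surjective π) :
    h1 χ ≤ h1 (χ.comp π) := by
  refine h1_le_of_restr χ π fun b _ hb => ?_
  funext y
  obtain ⟨x, rfl⟩ := hπ y
  exact hb x

theorem card_Z1 [Finite G] [Fintype F] (χ : G →* Fˣ) :
    Nat.card (Z1 χ) = Fintype.card F ^ h1 χ := by
  rw [Module.natCard_eq_pow_finrank (K := F), Nat.card_eq_fintype_card]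
  rfl

theorem h1_pow_two_pow [Finite G] [Finite F] [CharP F 2] (χ : G →* Fˣ) (a : ℕ) :
    h1 (χ ^ 2 ^ a) = h1 χ := by
  have := Fintype.ofFinite F
  have : Fact (Nat.Prime 2) := ⟨Nat.prime_two⟩
  let φ : F →+* F := iterateFrobenius F 2 a
  have hφ : ∀ x, φ x = x ^ 2 ^ a := fun x => iterateFrobenius_def 2 a x
  have hinj : Function.Injective φ := φ.injective
  have hsurj : Function.Surjective φ := Finite.surjective_of_injective hinj
  have hχ : ∀ g, (((χ ^ 2 ^ a) g : Fˣ) : F) = φ (χ g) := by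
    intro g
    rw [hφ, MonoidHom.pow_apply, Units.val_pow_eq_pow_val]
  let T : Z1 χ → Z1 (χ ^ 2 ^ a) := fun b => ⟨fun g => φ (b.1 g), fun g h => by
    beta_reduce
    rw [b.2 g h, map_add, map_mul, hχ]⟩
  have hT : Function.Bijective T := by
    constructor
    · intro b b' h
      refine Subtype.ext (funext fun g => hinj ?_)
      exact congrFun (congrArg Subtype.val h) g
    · intro c
      choose b hb using fun g => hsurj (c.1 g)
      refine ⟨⟨b, fun g h => hinj ?_⟩, Subtype.ext (funext hb)⟩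
      rw [map_add, map_mul, hb, hb, hb, c.2 g h, hχ]
  have hc := Nat.card_eq_of_bijective T hT
  rw [card_Z1, card_Z1] at hc
  exact (Nat.pow_right_injective (Fintype.one_lt_card (α := F)) hc).symm

theorem le_h1_of_indOn [Finite G] {I : Type} [Fintype I] (ψ : G →* AffV F I) (I0 : Finset I)
    (h : IndOn (Set.range ψ) I0) (hne : AffV.lin.comp ψ ≠ 1) :
    I0.card + 1 ≤ h1 (AffV.lin.comp ψ) := by
  classical
  have hco : ∀ i : I, (fun g => (ψ g).b i) ∈ Z1 (AffV.lin.comp ψ) := by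
    intro i g g'
    simp only [map_mul, AffV.mul_b, MonoidHom.comp_apply, AffV.lin_apply]
  let v : Option I0 → Z1 (AffV.lin.comp ψ) := fun o =>
    match o with
    | none => ⟨_, Z1.cobdry (AffV.lin.comp ψ) 1⟩
    | some i => ⟨_, hco i⟩
  have hv : LinearIndependent F v := by
    rw [Fintype.linearIndependent_iff]
    intro c hc
    have hg : ∀ g, c none * (1 - (ψ g).u) + ∑ i : I0, c (some i) * (ψ g).b i = 0 := by
      intro g
      have h1 := congrFun (congrArg Subtype.val hc) g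
      rw [Fintype.sum_option] at h1
      simpa [v] using h1
    let lam : I → F := fun i => if hi : i ∈ I0 then c (some ⟨i, hi⟩) else 0
    have hsum : ∀ g, ∑ i, lam i * (ψ g).b i = ∑ i : I0, c (some i) * (ψ g).b i := by
      intro g
      rw [← Finset.sum_subset (Finset.subset_univ I0), ← Finset.sum_coe_sort]
      · refine Finset.sum_congr rfl fun i _ => ?_
        simp only [lam, dif_pos i.2]
      · intro i _ hi
        simp only [lam, dif_neg hi, zero_mul]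
    have hlam := h lam (-c none) (by
      rintro _ ⟨g, rfl⟩
      rw [hsum]
      linear_combination hg g)
    have hs : ∀ i : I0, c (some i) = 0 := by
      intro i
      have := hlam i i.2
      simpa only [lam, dif_pos i.2] using this
    intro o
    cases o with
    | some i => exact hs i
    | none =>
      by_contra h0
      apply hne
      ext g
      have h1 := hg g
      simp only [hs, zero_mul, Finset.sum_const_zero, add_zero] at h1
      have h2 := (mul_eq_zero.1 h1).resolve_left h0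
      change ((ψ g).u : F) = ((1 : Fˣ) : F)
      rw [Units.val_one]
      linear_combination -h2
  have := hv.fintype_card_le_finrank
  rwa [Fintype.card_option, Fintype.card_coe] at this

theorem eq_zero_of_h1_le_one [Finite G] (χ : G →* Fˣ) (h : h1 χ ≤ 1) (g0 : G) (hg : χ g0 ≠ 1)
    {b : G → F} (hb : b ∈ Z1 χ) (h0 : b g0 = 0) : b = 0 := by
  have hne : (1 : F) - χ g0 ≠ 0 := by
    intro h1
    apply hg
    apply Units.ext
    rw [Units.val_one]
    linear_combination -h1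
  obtain ⟨v, hv⟩ := finrank_le_one_iff.1 h
  obtain ⟨c, hc⟩ := hv ⟨b, hb⟩
  obtain ⟨d, hd⟩ := hv ⟨_, Z1.cobdry χ 1⟩
  have hc0 : c * v.1 g0 = b g0 := congrFun (congrArg Subtype.val hc) g0
  have hd0 : d * v.1 g0 = 1 * (1 - χ g0) := congrFun (congrArg Subtype.val hd) g0
  have hv0 : v.1 g0 ≠ 0 := by
    intro h1
    rw [h1, mul_zero, one_mul] at hd0
    exact hne hd0.symm
  rw [h0] at hc0
  have hc1 := (mul_eq_zero.1 hc0).resolve_right hv0
  rw [hc1, zero_smul] at hc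
  exact (congrArg Subtype.val hc).symm

theorem eq_zero_of_h1_eq_zero [Finite G] (χ : G →* Fˣ) (h : h1 χ = 0) {b : G → F}
    (hb : b ∈ Z1 χ) : b = 0 := by
  have h1 := finrank_zero_iff_forall_zero.1 h ⟨b, hb⟩
  exact congrArg Subtype.val h1

theorem IndOn.mono {I : Type} [Fintype I] {R R' : Set (AffV F I)} {I0 : Finset I}
    (h : IndOn R I0) (hR : R ⊆ R') : IndOn R' I0 :=
  fun lam β hl => h lam β fun g hg => hl g (hR hg)

theorem IndOn.conj {I : Type} [Fintype I] {R R' : Set (AffV F I)} {I0 : Finset I}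
    (h : IndOn R I0) (γ : AffV F I) (hR : ∀ g ∈ R, γ⁻¹ * g * γ ∈ R') : IndOn R' I0 := by
  intro lam β hl i hi
  have h0 : (γ.u : F) ≠ 0 := γ.u.ne_zero
  have h1 := h (fun j => lam j * γ.u) (β - ∑ j, lam j * γ.b j) (fun g hg => by
    have h2 := hl _ (hR g hg)
    have hu : ((γ⁻¹ * g * γ).u : F) = g.u := by
      simp only [AffV.mul_u, AffV.inv_u]
      rw [mul_comm γ.u⁻¹, inv_mul_cancel_right]
    have hb : ∀ j, lam j * (γ⁻¹ * g * γ).b j =
        lam j * γ.u * g.b j + lam j * γ.b j * (1 - g.u) := by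
      intro j
      simp only [AffV.mul_b, AffV.inv_b, Units.val_inv_eq_inv_val]
      field_simp
      ring
    rw [hu] at h2
    simp only [hb] at h2
    rw [Finset.sum_add_distrib, ← Finset.sum_mul] at h2
    linear_combination h2) i hi
  exact (mul_eq_zero.1 h1).resolve_right h0

theorem IndOn.of_forall {I : Type} [Fintype I] {R : Set (AffV F I)} {I0 : Finset I}
    (h : ∀ i ∈ I0, ∃ I1, i ∈ I1 ∧ IndOn R I1) : IndOn R I0 := by
  intro lam β hl i hi
  obtain ⟨I1, h1, h2⟩ := h i hi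
  exact h2 lam β hl i h1

/-- Generators of the kernel of a character on a group generated by a centre and branches. -/
theorem ker_le_of_pieces {A D : Type} [CommGroup A] (χ0 : G →* A) (H0 : Subgroup G)
    (Hd : D → Subgroup G) (g : D → G) (hg0 : ∀ δ, g δ ∈ H0) (hgd : ∀ δ, g δ ∈ Hd δ)
    (hgen : H0 ⊔ ⨆ δ, Hd δ = ⊤) (hz : ∀ δ, ∀ x ∈ Hd δ, χ0 x ∈ Subgroup.zpowers (χ0 (g δ)))
    (K : Subgroup G) (h0 : H0 ⊓ χ0.ker ≤ K)
    (hd : ∀ δ, ∀ γ ∈ H0, ∀ x ∈ Hd δ, χ0 x = 1 → γ⁻¹ * x * γ ∈ K) : χ0.ker ≤ K := by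
  let K' : Subgroup G :=
    { carrier := {x | χ0 x = 1 ∧ ∀ γ ∈ H0, γ⁻¹ * x * γ ∈ K}
      mul_mem' := by
        rintro x y ⟨hx, hx'⟩ ⟨hy, hy'⟩
        refine ⟨by rw [map_mul, hx, hy, one_mul], fun γ hγ => ?_⟩
        have := K.mul_mem (hx' γ hγ) (hy' γ hγ)
        rwa [show γ⁻¹ * x * γ * (γ⁻¹ * y * γ) = γ⁻¹ * (x * y) * γ by group] at this
      one_mem' := ⟨map_one _, fun γ _ => by simp⟩
      inv_mem' := by
        rintro x ⟨hx, hx'⟩
        refine ⟨by rw [map_inv, hx, inv_one], fun γ hγ => ?_⟩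
        have := K.inv_mem (hx' γ hγ)
        rwa [show (γ⁻¹ * x * γ)⁻¹ = γ⁻¹ * x⁻¹ * γ by group] at this }
  have hK' : ∀ x, x ∈ K' ↔ χ0 x = 1 ∧ ∀ γ ∈ H0, γ⁻¹ * x * γ ∈ K := fun x => Iff.rfl
  have hconj : ∀ x ∈ K', ∀ γ ∈ H0, γ⁻¹ * x * γ ∈ K' := by
    intro x hx γ hγ
    obtain ⟨h1, h2⟩ := (hK' x).1 hx
    refine (hK' _).2 ⟨by simp [h1], fun γ' hγ' => ?_⟩
    have := h2 _ (H0.mul_mem hγ hγ')
    rwa [show (γ * γ')⁻¹ * x * (γ * γ') = γ'⁻¹ * (γ⁻¹ * x * γ) * γ' by group] at this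
  let S : Subgroup G :=
    { carrier := {x | ∃ h ∈ H0, x * h⁻¹ ∈ K'}
      mul_mem' := by
        rintro x y ⟨h, hh, hx⟩ ⟨h', hh', hy⟩
        refine ⟨h * h', H0.mul_mem hh hh', ?_⟩
        have := K'.mul_mem hx (hconj _ hy _ (H0.inv_mem hh))
        rwa [show x * h⁻¹ * (h⁻¹⁻¹ * (y * h'⁻¹) * h⁻¹) = x * y * (h * h')⁻¹ by group] at this
      one_mem' := ⟨1, H0.one_mem, by simp⟩
      inv_mem' := by
        rintro x ⟨h, hh, hx⟩
        refine ⟨h⁻¹, H0.inv_mem hh, ?_⟩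
        have := hconj _ (K'.inv_mem hx) _ hh
        rwa [show h⁻¹ * (x * h⁻¹)⁻¹ * h = x⁻¹ * h⁻¹⁻¹ by group] at this }
  have hS : ⊤ ≤ S := by
    rw [← hgen]
    refine sup_le (fun x hx => ⟨x, hx, by simp⟩) (iSup_le fun δ x hx => ?_)
    obtain ⟨n, hn⟩ := Subgroup.mem_zpowers_iff.1 (hz δ x hx)
    refine ⟨g δ ^ n, H0.zpow_mem (hg0 δ) n, ?_⟩
    have h1 : χ0 (x * (g δ ^ n)⁻¹) = 1 := by
      rw [map_mul, map_inv, map_zpow, hn, mul_inv_cancel]
    exact (hK' _).2 ⟨h1, fun γ hγ => hd δ γ hγ _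
      ((Hd δ).mul_mem hx ((Hd δ).inv_mem ((Hd δ).zpow_mem (hgd δ) n))) h1⟩
  intro x hx
  obtain ⟨h, hh, hk⟩ := hS (Subgroup.mem_top x)
  obtain ⟨h1, h2⟩ := (hK' _).1 hk
  have h3 : χ0 h = 1 := by
    rw [map_mul, map_inv, MonoidHom.mem_ker.1 hx, one_mul, inv_eq_one] at h1
    exact h1
  have h4 := h2 1 H0.one_mem
  rw [inv_one, one_mul, mul_one] at h4
  have h5 := K.mul_mem h4 (h0 ⟨hh, MonoidHom.mem_ker.2 h3⟩)
  rwa [inv_mul_cancel_right] at h5

end Pool.Agent.Adm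

end

section

/-! Fixed vectors of semilinear maps. -/

namespace Pool.Agent.Adm

variable {k F : Type} [Field k] [Field F] [Fintype F] {w : ℕ}

theorem frob_LG (θ : F →+* k) (A : Matrix (Fin w) (Fin w) k) {ι : Type} [Fintype ι]
    (g : ι → k) (c : ι → Fin w → k) (hc : ∀ i, c i ∈ Sol (Fintype.card F) A) (j : Fin w) :
    ∑ a, A a j * (∑ i, g i * c i a) ^ Fintype.card F = ∑ i, g i ^ Fintype.card F * c i j := by
  let φ : k →+ k := AddMonoidHom.mk' (· ^ Fintype.card F) (add_pow_card_of_hom θ)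
  have e : ∀ a, (∑ i, g i * c i a) ^ Fintype.card F = ∑ i, (g i * c i a) ^ Fintype.card F :=
    fun a => map_sum φ _ _
  simp only [e, Finset.mul_sum]
  rw [Finset.sum_comm]
  refine Finset.sum_congr rfl fun i _ => ?_
  rw [hc i j, Finset.mul_sum]
  exact Finset.sum_congr rfl fun a _ => by ring

theorem sol_sum (θ : F →+* k) (A : Matrix (Fin w) (Fin w) k) {ι : Type} [Fintype ι]
    (lam : ι → F) (c : ι → Fin w → k) (hc : ∀ i, c i ∈ Sol (Fintype.card F) A) :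
    (fun j => ∑ i, θ (lam i) * c i j) ∈ Sol (Fintype.card F) A := by
  intro j
  rw [frob_LG θ A _ c hc]
  simp only [← map_pow, FiniteField.pow_card]

/-- Fixed vectors independent over F are independent over k. -/
theorem sol_linearIndependent (θ : F →+* k) (A : Matrix (Fin w) (Fin w) k) {ι : Type}
    [Fintype ι] (c : ι → Fin w → k) (hc : ∀ i, c i ∈ Sol (Fintype.card F) A)
    (hi : ∀ lam : ι → F, (∀ j, ∑ i, θ (lam i) * c i j = 0) → lam = 0) :
    LinearIndependent k c := by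
  classical
  have key : ∀ (s : Finset ι) (g : ι → k), (∀ i ∉ s, g i = 0) → (∀ j, ∑ i, g i * c i j = 0) →
      g = 0 := by
    intro s
    induction s using Finset.induction_on with
    | empty => exact fun g h _ => funext fun i => h i (Finset.notMem_empty i)
    | insert a s _ ih =>
      intro g h1 h2
      by_cases ha : g a = 0
      · exact ih g (fun i hi => if e : i = a then e ▸ ha else h1 i (by simp [e, hi])) h2
      have h3 : ∀ j, ∑ i, g i / g a * c i j = 0 := fun j => by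
        simp only [div_mul_eq_mul_div, ← Finset.sum_div, h2, zero_div]
      have hq : Fintype.card F ≠ 0 := Fintype.card_ne_zero
      have h4 := ih (fun i => (g i / g a) ^ Fintype.card F - g i / g a) (fun i hi => by
        by_cases e : i = a
        · rw [e, div_self ha, one_pow, sub_self]
        · rw [h1 i (by simp [e, hi]), zero_div, zero_pow hq, sub_self]) fun j => by
        simp only [sub_mul, Finset.sum_sub_distrib, ← frob_LG θ A _ c hc, h3, zero_pow hq,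
          mul_zero, Finset.sum_const_zero, sub_self]
      choose lam hl using fun i => exists_eq_of_pow_card θ _ (sub_eq_zero.1 (congrFun h4 i))
      have h5 := hl a
      rw [hi lam (by simpa only [hl] using h3), div_self ha, Pi.zero_apply, map_zero] at h5
      exact absurd h5 zero_ne_one
  refine Fintype.linearIndependent_iff.2 fun g hg => congrFun (key Finset.univ g (by simp)
    fun j => ?_)
  simpa only [Finset.sum_apply, Pi.smul_apply, smul_eq_mul, Pi.zero_apply] using congrFun hg j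

theorem sol_card (θ : F →+* k) (A : Matrix (Fin w) (Fin w) k) :
    (Sol (Fintype.card F) A).Finite ∧ (Sol (Fintype.card F) A).ncard ≤ Fintype.card F ^ w ∧
      (Fintype.card F ^ w ≤ (Sol (Fintype.card F) A).ncard → A.det ≠ 0) := by
  let _ : Algebra F k := θ.toAlgebra
  let S : Submodule F (Fin w → k) :=
    { carrier := Sol (Fintype.card F) A
      add_mem' := fun {x y} hx hy j => by
        simp only [Pi.add_apply, add_pow_card_of_hom θ, mul_add, Finset.sum_add_distrib]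
        rw [← hx j, ← hy j]
      zero_mem' := fun j => by simp
      smul_mem' := fun a x hx => by
        have h := sol_sum θ A (fun _ : Unit => a) (fun _ => x) fun _ => hx
        simp only [Fintype.sum_unique] at h
        exact h }
  have key : ∀ (ι : Type) [Fintype ι] (c : ι → S), LinearIndependent F c →
      LinearIndependent k fun i => (c i).1 := fun ι _ c hc =>
    sol_linearIndependent θ A _ (fun i => (c i).2) fun lam h => funext
      (Fintype.linearIndependent_iff.1 hc lam (Subtype.ext (funext fun j => by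
        rw [Submodule.coe_sum, Finset.sum_apply]
        exact h j)))
  have hr : Module.rank F S ≤ w := rank_le fun s hs => by
    simpa using (key _ _ hs).fintype_card_le_finrank
  have : Module.Finite F S := Module.rank_lt_aleph0_iff.1 (hr.trans_lt Cardinal.natCast_lt_aleph0)
  have hd := Module.finrank_le_of_rank_le hr
  have hf : Finite S := Module.finite_of_finite F
  have hc : (Sol (Fintype.card F) A).ncard = Fintype.card F ^ Module.finrank F S := by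
    rw [← Nat.card_eq_fintype_card, ← Module.natCard_eq_pow_finrank, Nat.card_eq_fintype_card]
    rfl
  refine ⟨hf, hc ▸ Nat.pow_le_pow_right Fintype.card_pos hd, fun h => ?_⟩
  rw [hc, Nat.pow_le_pow_iff_right Fintype.one_lt_card] at h
  let b := Module.finBasisOfFinrankEq F S (hd.antisymm h)
  let C : Matrix (Fin w) (Fin w) k := Matrix.of fun i j => (b i).1 j
  have h1 : IsUnit C := Matrix.linearIndependent_rows_iff_isUnit.1 (key _ b b.linearIndependent)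
  have h2 : C = C.map (· ^ Fintype.card F) * A := Matrix.ext fun i j =>
    ((b i).2 j).trans (Finset.sum_congr rfl fun a _ => mul_comm _ _)
  rw [Matrix.isUnit_iff_isUnit_det, h2, Matrix.det_mul] at h1
  exact right_ne_zero_of_mul h1.ne_zero

end Pool.Agent.Adm

end

section

/-! Upper bound for the cocycles of a tame covering of the line. -/

namespace Pool.Agent.Adm

open scoped OnePoint
open Polynomial

variable {k G : Type} [Field k] [IsAlgClosed k] [Group G] [Finite G]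

omit [Finite G] in
theorem Cover.card_aux_VU {F : Type} [Field F] [Fintype F] (c : Cover k G) (hc : c.ι.range = ⊤)
    (θ : F →+* k) (χ : G →* Fˣ) (f : k[X]) (hf : f ≠ 0)
    (hS : ∀ a : k, ∃ e ζ g, c.Mono (a : OnePoint k) e ζ g ∧
      Lab (Fintype.card F - 1) e ζ (θ (χ g)) (f.rootMultiplicity a))
    (hinf : ∃ e ζ g, c.Mono ∞ e ζ g) (w : ℕ)
    (hD : f.natDegree ≤ (w + 1) * (Fintype.card F - 1)) :
    Nat.card (Z1 χ) ≤
      Fintype.card F * (Sol (Fintype.card F) (HW (Fintype.card F) f w)).ncard := by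
  classical
  obtain ⟨y, -, hy, hσy, -⟩ := c.exists_norm_gens θ (Aff.inl.comp χ) f hf hS
  have hq : 1 < Fintype.card F := Fintype.one_lt_card
  let Θ : F →+* c.L := (algebraMap (RatFunc k) c.L).comp (RatFunc.C.comp θ)
  have hΘ : ∀ x, algebraMap (RatFunc k) c.L (RatFunc.C (θ x)) = Θ x := fun _ => rfl
  have hΘσ : ∀ (σ : c.L ≃ₐ[RatFunc k] c.L) x, σ (Θ x) = Θ x := fun σ x => σ.commutes _
  have hΘq : ∀ x, Θ x ^ Fintype.card F = Θ x := fun x => by
    rw [← map_pow, FiniteField.pow_card]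
  simp only [hΘ, MonoidHom.comp_apply, Aff.inl_u] at hσy
  have hy0 : y ≠ 0 := by
    rintro rfl
    rw [zero_pow (by omega), eq_comm, map_eq_zero] at hy
    exact RatFunc.algebraMap_ne_zero hf hy
  have hyq : y ^ Fintype.card F =
      algebraMap (RatFunc k) c.L (algebraMap k[X] (RatFunc k) f) * y := by
    rw [← hy, ← pow_succ, Nat.sub_add_cancel hq.le]
  obtain ⟨J, hJ⟩ := exists_isCharts k
  have key : ∀ b : Z1 χ, ∃ (W : c.L) (P : k[X]) (V : LaurentSeries k),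
      (∀ σ : c.L ≃ₐ[RatFunc k] c.L, σ W = Θ (χ (c.ι σ)) * W + Θ (b.1 (c.ι σ))) ∧
      W ^ Fintype.card F - W = algebraMap (RatFunc k) c.L (algebraMap k[X] (RatFunc k) P) * y ∧
      (∀ n ≤ 0, V.coeff n = 0) ∧
      V ^ Fintype.card F * J ∞ (algebraMap k[X] (RatFunc k) f) - V =
        J ∞ (algebraMap k[X] (RatFunc k) P) := by
    intro b
    obtain ⟨ψ, hψ⟩ := Z1.exists_aff b.2
    obtain ⟨-, x, -, -, hσx⟩ := c.exists_norm_gens θ ψ f hf (by simpa only [(hψ _).1] using hS)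
    simp only [hΘ, (hψ _).1, (hψ _).2] at hσx
    obtain ⟨h, hh⟩ : ∃ h, algebraMap (RatFunc k) c.L h = (x ^ Fintype.card F - x) / y := by
      refine (IsGalois.mem_range_algebraMap_iff_fixed _).2 fun σ => ?_
      have := (map_ne_zero Θ).2 (χ (c.ι σ)).ne_zero
      rw [map_div₀, map_sub, map_pow, hσx, hσy, add_pow_card_of_hom Θ, mul_pow, hΘq, hΘq]
      field_simp
      ring
    have hv : (x / y) ^ Fintype.card F *
        algebraMap (RatFunc k) c.L (algebraMap k[X] (RatFunc k) f) - x / y =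
          algebraMap (RatFunc k) c.L h := by
      have h1 : algebraMap (RatFunc k) c.L (algebraMap k[X] (RatFunc k) f) ≠ 0 := by
        rw [← hy]
        exact pow_ne_zero _ hy0
      rw [hh, div_pow, hyq]
      field_simp
    obtain ⟨r, P, V, hV, hr, hP⟩ := hJ.exists_normal θ f h fun a => by
      obtain ⟨e, ζ, g, he, hζ, j, h1, h2, -⟩ : ∃ e ζ g, c.Mono a e ζ g := by
        induction a using OnePoint.rec with
        | infty => exact hinf
        | coe a => exact (hS a).imp fun e => Exists.imp fun ζ => Exists.imp fun g => And.left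
      have e1 : j.comp (algebraMap (RatFunc k) c.L) = (powL e he).comp (J a) :=
        ratFunc_hom_ext _ _ (fun x => by simp [h1, (hJ a).1, powL_single])
          (by simp [h2, (hJ a).2, powL_expand])
      have e2 : ∀ x, j (algebraMap (RatFunc k) c.L x) = powL e he (J a x) := fun x =>
        DFunLike.congr_fun e1 x
      refine exists_sol_descend θ e he ζ hζ _ _ (j (x / y)) ?_
      rw [← e2, ← e2, ← hv, map_sub, map_mul, map_pow]
    refine ⟨x - algebraMap (RatFunc k) c.L r * y, P, V, fun σ => ?_, ?_, hV, hP⟩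
    · rw [map_sub, map_mul, hσx, hσy, σ.commutes]
      ring
    · have h3 := congrArg (algebraMap (RatFunc k) c.L) hr
      rw [map_add, map_sub, map_mul, map_pow, hh, div_eq_iff hy0] at h3
      rw [sub_pow_card_of_hom Θ, mul_pow, hyq]
      linear_combination h3
  choose W P V hW hWq hV hP using key
  let cv : Z1 χ → Sol (Fintype.card F) (HW (Fintype.card F) f w) := fun b =>
    ⟨_, (hJ.sol_of_eq θ f (P b) w hD (V b) (hV b) (hP b)).1⟩
  have hfib : ∀ b b', cv b = cv b' → ∃ β : F, ∀ g, b.1 g - b'.1 g = β * (1 - χ g) := by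
    intro b b' e
    have e1 : ∀ j : Fin w, (V b).coeff ((j.1 + 1 : ℕ) : ℤ) = (V b').coeff ((j.1 + 1 : ℕ) : ℤ) :=
      fun j => congrFun (congrArg Subtype.val e) j
    have e2 : P b - P b' = 0 :=
      (hJ.sol_of_eq θ f (P b - P b') w hD (V b - V b')
        (fun n hn => by rw [HahnSeries.coeff_sub, hV b n hn, hV b' n hn, sub_self])
        (by
          rw [sub_pow_card_of_hom ((HahnSeries.C : k →+* LaurentSeries k).comp θ), map_sub,
            map_sub, ← hP b, ← hP b']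
          ring)).2 fun j => by rw [HahnSeries.coeff_sub, e1, sub_self]
    obtain ⟨β, hβ⟩ := exists_eq_of_pow_card Θ (W b - W b') (by
      have h1 := hWq b
      have h2 := hWq b'
      rw [sub_eq_zero.1 e2] at h1
      rw [sub_pow_card_of_hom Θ]
      linear_combination h1 - h2)
    refine ⟨β, fun g => ?_⟩
    obtain ⟨σ, rfl⟩ : g ∈ c.ι.range := hc ▸ Subgroup.mem_top g
    have h4 := congrArg σ hβ
    rw [hΘσ, map_sub, hW, hW] at h4
    refine Θ.injective ?_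
    rw [map_sub, map_mul, map_sub, map_one]
    linear_combination Θ (χ (c.ι σ)) * hβ - h4
  have hb : ∀ b, ∃ β : F, ∀ g, b.1 g - (Function.invFun cv (cv b)).1 g = β * (1 - χ g) :=
    fun b => hfib _ _ (Function.invFun_eq ⟨b, rfl⟩).symm
  choose β hβ using hb
  have : Finite (Sol (Fintype.card F) (HW (Fintype.card F) f w)) := (sol_card θ _).1
  have h5 := Nat.card_le_card_of_injective (fun b => (β b, cv b)) fun b b' e => by
    obtain ⟨e1, e2⟩ := Prod.mk.inj e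
    refine Subtype.ext (funext fun g => ?_)
    have h1 := hβ b g
    have h2 := hβ b' g
    rw [e1, e2] at h1
    linear_combination h1 - h2
  rwa [Nat.card_prod, Nat.card_eq_fintype_card (α := F), Nat.card_coe_set_eq] at h5

theorem Cover.card_Z1_le (c : Cover k G) (hc : c.ι.range = ⊤) (θ : K0 →+* k) (𝔽 : FF)
    (χ : G →* 𝔽.Fˣ) (f : k[X]) (hf : f ≠ 0)
    (hS : ∀ a : k, ∃ g, c.M θ a g ∧ χ g = 𝔽.u ^ f.rootMultiplicity a) (hinf : ∃ g, c.M θ ∞ g)
    (w : ℕ) (hD : f.natDegree ≤ (w + 1) * 𝔽.m) :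
    Nat.card (Z1 χ) ≤ 2 ^ 𝔽.r * (Sol (2 ^ 𝔽.r) (HW (2 ^ 𝔽.r) f w)).ncard := by
  rw [← 𝔽.card]
  refine c.card_aux_VU hc (θ.comp 𝔽.θ) χ f hf (fun a => ?_) ?_ w (by rwa [𝔽.card_sub_one])
  · obtain ⟨g, h1, h2⟩ := hS a
    obtain ⟨e, ζ, h3⟩ := h1.lab 𝔽 χ (f.rootMultiplicity a : ℕ) (by rw [h2, zpow_natCast])
    exact ⟨e, ζ, g, h3⟩
  · obtain ⟨g, e, -, h1⟩ := hinf
    exact ⟨e, _, g, h1⟩

theorem Cover.h1_le (c : Cover k G) (hc : c.ι.range = ⊤) (θ : K0 →+* k) (𝔽 : FF)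
    (χ : G →* 𝔽.Fˣ) (f : k[X]) (hf : f ≠ 0)
    (hS : ∀ a : k, ∃ g, c.M θ a g ∧ χ g = 𝔽.u ^ f.rootMultiplicity a) (hinf : ∃ g, c.M θ ∞ g)
    (w : ℕ) (hD : f.natDegree ≤ (w + 1) * 𝔽.m) :
    h1 χ ≤ w + 1 ∧ (w + 1 ≤ h1 χ → (HW (2 ^ 𝔽.r) f w).det ≠ 0) := by
  have h := c.card_Z1_le hc θ 𝔽 χ f hf hS hinf w hD
  rw [card_Z1, ← 𝔽.card] at h
  rw [← 𝔽.card]
  obtain ⟨-, h2, h3⟩ := sol_card (θ.comp 𝔽.θ) (HW (Fintype.card 𝔽.F) f w)
  have hq : 1 < Fintype.card 𝔽.F := Fintype.one_lt_card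
  refine ⟨?_, fun h4 => h3 ?_⟩
  · refine (Nat.pow_le_pow_iff_right hq).1 (h.trans ?_)
    rw [pow_succ']
    exact Nat.mul_le_mul_left _ h2
  · have h5 := (Nat.pow_le_pow_right hq.le h4).trans h
    rw [pow_succ'] at h5
    exact Nat.le_of_mul_le_mul_left h5 (by omega)

end Pool.Agent.Adm

end

section

/-! Characters of a tame covering of a pointed line. -/

namespace Pool.Agent.Adm

open scoped OnePoint
open Polynomial

variable {G ι : Type} [Group G] [Finite G] [Fintype ι] {d : ι → G}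

omit [Finite G] in
theorem Geo.fin_GB {R : Subgroup G} (h : Geo Set.univ d R) :
    ∃ (k : Type) (_ : Field k) (_ : IsAlgClosed k) (θ : K0 →+* k) (a : ι → k) (c : Cover k G),
      Function.Injective a ∧ c.ι.range = R ∧ c.M θ ∞ 1 ∧
        (∀ x : k, x ∉ Set.range a → c.M θ x 1) ∧ ∀ i, c.M θ (a i) (d i) := by
  obtain ⟨k, _, _, θ, p, hp, hV⟩ := h
  obtain ⟨μ, hμ, hf⟩ := exists_mob_finite p
  obtain ⟨c, hc, h1, h2⟩ := hV.mob μ hμ.1
  choose a ha using fun s => OnePoint.ne_infty_iff_exists.1 (hf s)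
  refine ⟨k, inferInstance, inferInstance, θ, fun i => a ⟨i, trivial⟩, c, fun i j hij => ?_, hc,
    h1 _ ?_, fun x hx => h1 _ ?_, fun i => ?_⟩
  · have h3 : μ (p ⟨i, trivial⟩) = μ (p ⟨j, trivial⟩) := by
      rw [← ha, ← ha]
      exact congrArg _ hij
    exact congrArg Subtype.val (hp (μ.injective h3))
  · rintro ⟨s, hs⟩
    exact hf s hs
  · rintro ⟨s, hs⟩
    exact hx ⟨s.1, OnePoint.coe_injective ((ha s).trans hs)⟩
  · rw [ha]
    exact h2 ⟨i, trivial⟩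

omit [Finite G] in
theorem Geo.core_GB {R : Subgroup G} (h : Geo Set.univ d R) (𝔽 : FF) (ψ : G →* Aff 𝔽.F)
    (x : ι → ℕ) (hx : ∀ i, (ψ (d i)).u = 𝔽.u ^ x i) :
    𝔽.m ∣ ∑ i, x i ∧ (∑ i, x i = 0 → ∀ g ∈ R, ψ g = 1) := by
  obtain ⟨k, _, _, θ, a, c, ha, hc, h0, h1, h2⟩ := h.fin_GB
  have hT : c.Tame (Set.range fun i => (a i : OnePoint k)) := by
    intro y
    induction y using OnePoint.rec with
    | infty =>
      obtain ⟨e, -, he⟩ := h0
      exact ⟨e, _, 1, he, fun _ => rfl⟩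
    | coe y =>
      by_cases hy : y ∈ Set.range a
      · obtain ⟨i, rfl⟩ := hy
        obtain ⟨e, -, he⟩ := h2 i
        exact ⟨e, _, _, he, fun h => absurd ⟨i, rfl⟩ h⟩
      · obtain ⟨e, -, he⟩ := h1 y hy
        exact ⟨e, _, 1, he, fun _ => rfl⟩
  obtain ⟨v1, -, v3⟩ := c.vertex (θ.comp 𝔽.θ) ψ a ha x _ hT
    (fun y ⟨i, hi⟩ => ⟨i, OnePoint.coe_injective hi⟩) fun i => by
      obtain ⟨e, ζ, h3, h4⟩ := (h2 i).lab 𝔽 (Aff.lin.comp ψ) (x i) (by
        rw [zpow_natCast]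
        exact hx i)
      exact ⟨e, ζ, _, h3, h4⟩
  constructor
  · obtain ⟨e, -, he⟩ := h0
    have h3 := v1 _ _ _ he
    rw [map_one, Aff.one_u, Units.val_one, map_one, 𝔽.card_sub_one] at h3
    have h4 := Int.modEq_iff_dvd.1 (h3.unique he.1 he.2.1 (lab_one _ _ _))
    rw [zero_sub, neg_neg] at h4
    exact_mod_cast h4
  · intro hs g hg
    have h3 : ψ g ∈ c.ι.range.map ψ := Subgroup.mem_map_of_mem _ (hc ▸ hg)
    rwa [v3 hs, Subgroup.mem_bot] at h3

theorem Geo.bounds (h : Geo Set.univ d ⊤) (𝔽 : FF) (χ : G →* 𝔽.Fˣ) (x : ι → ℕ)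
    (hx : ∀ i, χ (d i) = 𝔽.u ^ x i) :
    𝔽.m ∣ ∑ i, x i ∧ h1 χ * 𝔽.m ≤ ∑ i, x i ∧ (∑ i, x i = 0 → χ = 1) := by
  obtain ⟨hd, hz⟩ := h.core_GB 𝔽 (Aff.inl.comp χ) x hx
  refine ⟨hd, ?_, fun hs => ?_⟩
  · obtain ⟨t, ht⟩ := hd
    rcases t with _ | w
    · have h0 : Z1 χ = ⊥ := by
        rw [eq_bot_iff]
        intro b hb
        obtain ⟨ψ, hψ⟩ := Z1.exists_aff hb
        have h2 := (h.core_GB 𝔽 ψ x fun i => (hψ _).1.trans (hx i)).2 ht
        rw [Submodule.mem_bot]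
        funext g
        rw [← (hψ g).2, h2 g (Subgroup.mem_top g)]
        rfl
      rw [h1, h0, finrank_bot, zero_mul]
      exact Nat.zero_le _
    · obtain ⟨k, _, _, θ, a, c, ha, hc, h0, h2, h3⟩ := h.fin_GB
      obtain ⟨r1, r2, r3, r4⟩ := rootMultiplicity_prod_X_sub_C a ha x
      have h4 := (c.h1_le hc θ 𝔽 χ _ r4.ne_zero (fun y => ?_) ⟨1, h0⟩ w
        (by rw [r3, ht, mul_comm])).1
      · rw [ht, mul_comm]
        exact Nat.mul_le_mul_left _ h4
      · by_cases hy : y ∈ Set.range a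
        · obtain ⟨i, rfl⟩ := hy
          exact ⟨d i, h3 i, by rw [r1, hx]⟩
        · exact ⟨1, h2 y hy, by rw [r2 y hy, map_one, pow_zero]⟩
  · ext g : 1
    exact congrArg Aff.u (hz hs g (Subgroup.mem_top g))

theorem Geo.prod_eq_one {R : Subgroup G} (h : Geo Set.univ d R) (𝔽 : FF) (χ : G →* 𝔽.Fˣ) :
    ∏ i, χ (d i) = 1 := by
  choose x _ hx using fun i => 𝔽.exists_log (χ (d i))
  obtain ⟨t, ht⟩ := (h.core_GB 𝔽 (Aff.inl.comp χ) x hx).1
  rw [Finset.prod_congr rfl fun i _ => hx i, Finset.prod_pow_eq_pow_sum, ht, pow_mul, 𝔽.pow_m,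
    one_pow]

theorem Geo.char_eq_one {R : Subgroup G} (h : Geo Set.univ d R) (𝔽 : FF) (χ : G →* 𝔽.Fˣ)
    (h1 : ∀ i, χ (d i) = 1) : ∀ g ∈ R, χ g = 1 := by
  intro g hg
  exact congrArg Aff.u ((h.core_GB 𝔽 (Aff.inl.comp χ) (fun _ => 0) fun i =>
    (h1 i).trans (pow_zero _).symm).2 Finset.sum_const_zero g hg)

theorem Geo.char_ext (h : Geo Set.univ d ⊤) (𝔽 : FF) (χ χ' : G →* 𝔽.Fˣ)
    (h1 : ∀ i, χ (d i) = χ' (d i)) : χ = χ' := by
  ext g : 1
  exact div_eq_one.1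
    (h.char_eq_one 𝔽 (χ / χ') (fun i => div_eq_one.2 (h1 i)) g (Subgroup.mem_top g))

/-- A branch whose labels have small sum carries no cohomology. -/
theorem Geo.branch [DecidableEq ι] {R : Subgroup G} (h : Geo Set.univ d R) (𝔽 : FF)
    (χ : G →* 𝔽.Fˣ) (s0 : ι) (x : ι → ℕ) (hx : ∀ i, i ≠ s0 → χ (d i) = 𝔽.u ^ x i)
    (hlt : ∑ i ∈ Finset.univ.erase s0, x i < 𝔽.m) :
    χ (d s0) * 𝔽.u ^ (∑ i ∈ Finset.univ.erase s0, x i) = 1 ∧
      ∀ b ∈ Z1 χ, b (d s0) = 0 → ∀ g ∈ R, b g = 0 := by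
  have hp : χ (d s0) * 𝔽.u ^ (∑ i ∈ Finset.univ.erase s0, x i) = 1 := by
    rw [← h.prod_eq_one 𝔽 χ, ← Finset.mul_prod_erase _ _ (Finset.mem_univ s0),
      ← Finset.prod_pow_eq_pow_sum]
    exact congrArg _ (Finset.prod_congr rfl fun i hi => (hx i (Finset.mem_erase.1 hi).1).symm)
  refine ⟨hp, fun b hb h0 g hg => ?_⟩
  let d' : ι → R := fun i => ⟨d i, h.mem (Set.mem_univ i)⟩
  have h' : Geo Set.univ d' ⊤ := by
    have h2 := Geo.restr R le_rfl d' h
    rwa [Subgroup.subgroupOf_self] at h2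
  have key : ∀ n : ℕ, χ (d s0) = 𝔽.u ^ n →
      h1 (χ.comp R.subtype) * 𝔽.m ≤ n + ∑ i ∈ Finset.univ.erase s0, x i := by
    intro n hn
    have h2 := (h'.bounds 𝔽 (χ.comp R.subtype) (Function.update x s0 n) fun i => ?_).2.1
    · rwa [Finset.sum_update_of_mem (Finset.mem_univ s0), Finset.sdiff_singleton_eq_erase] at h2
    · by_cases hi : i = s0
      · rw [hi, Function.update_self]
        exact hn
      · rw [Function.update_of_ne hi]
        exact hx i hi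
  have hb' := Z1.comp hb R.subtype
  generalize ∑ i ∈ Finset.univ.erase s0, x i = s at hlt hp key
  have hm := 𝔽.m_pos
  rcases Nat.eq_zero_or_pos s with rfl | hs
  · have h2 := key 0 (by simpa using hp)
    have h3 : h1 (χ.comp R.subtype) = 0 :=
      (Nat.mul_eq_zero.1 (Nat.le_zero.1 h2)).resolve_right hm.ne'
    exact congrFun (eq_zero_of_h1_eq_zero _ h3 hb') ⟨g, hg⟩
  · have h2 := key (𝔽.m - s) (by
      refine mul_right_cancel (b := 𝔽.u ^ s) ?_
      rw [hp, ← pow_add, Nat.sub_add_cancel hlt.le, 𝔽.pow_m])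
    rw [Nat.sub_add_cancel hlt.le] at h2
    have h3 : h1 (χ.comp R.subtype) ≤ 1 :=
      Nat.le_of_mul_le_mul_right (h2.trans_eq (one_mul _).symm) hm
    have h4 : (χ.comp R.subtype) (d' s0) ≠ 1 := by
      intro h5
      have h6 : χ (d s0) = 1 := h5
      rw [h6, one_mul] at hp
      exact 𝔽.u_prim.pow_ne_one_of_pos_of_lt hs.ne' hlt hp
    exact congrFun (eq_zero_of_h1_le_one _ h3 (d' s0) h4 hb' h0) ⟨g, hg⟩

end Pool.Agent.Adm

end

section

/-! Galois closures, extension of embeddings, and substitutions in the rational function field. -/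

namespace Pool.Agent.Adm

/-- Two embeddings into a normal extension which agree on the base are conjugate. -/
theorem exists_aut_IN0 {F E M : Type} [Field F] [Field E] [Field M] [Algebra F M] [Normal F M]
    (ρ : F →+* E) (i i' : E →+* M) (h : ∀ a, i (ρ a) = algebraMap F M a)
    (h' : ∀ a, i' (ρ a) = algebraMap F M a) : ∃ σ : M ≃ₐ[F] M, ∀ e, σ (i e) = i' e := by
  let : Algebra F E := ρ.toAlgebra
  let : Algebra E M := i.toAlgebra
  have : IsScalarTower F E M := IsScalarTower.of_algebraMap_eq fun x => (h x).symm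
  let φ : E →ₐ[F] M := { i' with commutes' := h' }
  exact ⟨AlgEquiv.ofBijective (φ.liftNormal M) (Algebra.IsAlgebraic.algHom_bijective _),
    fun e => φ.liftNormal_commutes M e⟩

/-- The Galois closure of a finite separable extension. -/
theorem exists_closure_IN0 (F L : Type) [Field F] [Field L] [Algebra F L] [FiniteDimensional F L]
    [Algebra.IsSeparable F L] :
    ∃ (M : Type) (_ : Field M) (_ : Algebra F M) (_ : FiniteDimensional F M) (_ : IsGalois F M)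
      (f : L →+* M), (∀ a, f (algebraMap F L a) = algebraMap F M a) ∧
      ∀ K : IntermediateField F M, (∀ (σ : M ≃ₐ[F] M) x, σ (f x) ∈ K) → K = ⊤ := by
  let Ω := SeparableClosure F
  let g : L →ₐ[F] Ω := IsSepClosed.lift
  let M : IntermediateField F Ω := IntermediateField.normalClosure F L Ω
  have hs : Algebra.IsSeparable F M := Algebra.isSeparable_tower_bot_of_isSeparable F M Ω
  have hG : IsGalois F M := ⟨⟩
  let r : (L →ₐ[F] Ω) → (L →ₐ[F] M) := fun g' =>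
    g'.codRestrict M.toSubalgebra fun x => g'.fieldRange_le_normalClosure ⟨x, rfl⟩
  refine ⟨M, inferInstance, inferInstance, inferInstance, hG, (r g).toRingHom, (r g).commutes,
    fun K hK => ?_⟩
  have h3 : M ≤ K.map M.val := by
    refine normalClosure_le_iff.2 fun g' => ?_
    rintro _ ⟨x, rfl⟩
    obtain ⟨σ, hσ⟩ := exists_aut_IN0 (algebraMap F L) (r g).toRingHom (r g').toRingHom
      (r g).commutes (r g').commutes
    exact ⟨_, hK σ x, congrArg Subtype.val (hσ x)⟩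
  refine top_le_iff.1 fun x _ => ?_
  obtain ⟨y, hy, e⟩ := h3 x.2
  rwa [← show y = x from Subtype.ext e]

/-- The Galois closure of a Galois extension of a radical extension. -/
theorem exists_closure_IN0' {F E L : Type} [Field F] [Field E] [Field L] [Algebra E L]
    [FiniteDimensional E L] [IsGalois E L] (ρ : F →+* E) (x : F) (z : E) (m : ℕ)
    (hm : (m : F) ≠ 0) (hx : x ≠ 0) (hz : z ^ m = ρ x)
    (hgen : ∀ S : Subfield E, (∀ a, ρ a ∈ S) → z ∈ S → S = ⊤) :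
    ∃ (M : Type) (_ : Field M) (_ : Algebra F M) (_ : FiniteDimensional F M) (_ : IsGalois F M)
      (f : L →+* M), (∀ a, f (algebraMap E L (ρ a)) = algebraMap F M a) ∧
      ∀ K : IntermediateField F M, (∀ (σ : M ≃ₐ[F] M) x, σ (f x) ∈ K) → K = ⊤ := by
  let : Algebra F E := ρ.toAlgebra
  let : Algebra F L := ((algebraMap E L).comp ρ).toAlgebra
  have : IsScalarTower F E L := IsScalarTower.of_algebraMap_eq fun _ => rfl
  have hm0 : m ≠ 0 := by
    rintro rfl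
    exact hm Nat.cast_zero
  have hev : Polynomial.aeval z (Polynomial.X ^ m - Polynomial.C x) = 0 := by
    rw [map_sub, map_pow, Polynomial.aeval_X, Polynomial.aeval_C, hz]
    exact sub_self _
  have hint : IsIntegral F z := ⟨_, Polynomial.monic_X_pow_sub_C x hm0, hev⟩
  have hsep : IsSeparable F z :=
    (Polynomial.separable_X_pow_sub_C x hm hx).of_dvd (minpoly.dvd F z hev)
  have htop : IntermediateField.adjoin F {z} = ⊤ := by
    apply IntermediateField.toSubfield_injective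
    exact hgen _ (IntermediateField.adjoin F {z}).algebraMap_mem
      (IntermediateField.mem_adjoin_simple_self F z)
  have e : IntermediateField.adjoin F {z} ≃ₐ[F] E :=
    (IntermediateField.equivOfEq htop).trans IntermediateField.topEquiv
  have := IntermediateField.adjoin.finiteDimensional hint
  have := (IntermediateField.isSeparable_adjoin_simple_iff_isSeparable F E).2 hsep
  have : FiniteDimensional F E := e.toLinearEquiv.finiteDimensional
  have : Algebra.IsSeparable F E := AlgEquiv.Algebra.isSeparable e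
  have : FiniteDimensional F L := Module.Finite.trans E L
  have : Algebra.IsSeparable F L := Algebra.IsSeparable.trans F E L
  exact exists_closure_IN0 F L

/-- Extension of an embedding to the Galois closure. -/
theorem exists_ext_IN0 {F L M W : Type} [Field F] [Field L] [Field M] [Field W] [Algebra F M]
    [FiniteDimensional F M] (ρ : F →+* L) (f : L →+* M) (hf : ∀ a, f (ρ a) = algebraMap F M a)
    (hK : ∀ K : IntermediateField F M, (∀ (σ : M ≃ₐ[F] M) x, σ (f x) ∈ K) → K = ⊤)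
    (j0 : L →+* W) (h : ∀ J : M →+* AlgebraicClosure W,
      (∀ x, J (f x) = algebraMap W (AlgebraicClosure W) (j0 x)) →
      ∀ (σ : M ≃ₐ[F] M) x, J (σ (f x)) ∈ Set.range (algebraMap W (AlgebraicClosure W))) :
    ∃ j : M →+* W, ∀ x, j (f x) = j0 x := by
  let : Algebra F L := ρ.toAlgebra
  let : Algebra L M := f.toAlgebra
  have : IsScalarTower F L M := IsScalarTower.of_algebraMap_eq fun x => (hf x).symm
  have : Algebra.IsAlgebraic L M := Algebra.IsAlgebraic.tower_top (K := F) L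
  let S : Set M := {w | ∃ (σ : M ≃ₐ[F] M) (x : L), σ (f x) = w}
  have hS : IntermediateField.adjoin L S = ⊤ := by
    have := hK ((IntermediateField.adjoin L S).restrictScalars F)
      (fun σ x => IntermediateField.subset_adjoin L S ⟨σ, x, rfl⟩)
    exact (IntermediateField.restrictScalars_eq_top_iff).1 this
  exact exists_extension j0 S hS fun J hJ => by
    rintro _ ⟨σ, x, rfl⟩
    exact h J hJ σ x

/-- The substitution X ↦ c X ^ m. -/
theorem exists_subst_IN0 {k : Type} [Field k] (c : k) (hc : c ≠ 0) (m : ℕ) (hm : 0 < m) :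
    ∃ f : RatFunc k →+* RatFunc k, (∀ a, f (RatFunc.C a) = RatFunc.C a) ∧
      f RatFunc.X = RatFunc.C c * RatFunc.X ^ m := by
  refine exists_ratFunc_hom RatFunc.C _ fun P hP h => ?_
  have e : P.eval₂ RatFunc.C (RatFunc.C c * RatFunc.X ^ m) =
      algebraMap (Polynomial k) (RatFunc k) (P.comp (Polynomial.C c * Polynomial.X ^ m)) := by
    rw [Polynomial.comp, Polynomial.hom_eval₂]
    congr 1
    simp
  rw [e, map_eq_zero_iff _ (IsFractionRing.injective _ _), Polynomial.comp_eq_zero_iff] at h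
  rcases h with h | ⟨-, h⟩
  · exact hP h
  · have := congrArg Polynomial.natDegree h
    rw [Polynomial.natDegree_C_mul_X_pow _ _ hc, Polynomial.natDegree_C] at this
    omega

/-- The rational function field is generated by the constants and the variable. -/
theorem subfield_top_IN0 {k : Type} [Field k] (S : Subfield (RatFunc k))
    (hC : ∀ a, RatFunc.C a ∈ S) (hX : RatFunc.X ∈ S) : S = ⊤ := by
  have hP : ∀ P : Polynomial k, algebraMap (Polynomial k) (RatFunc k) P ∈ S := fun P => by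
    induction P using Polynomial.induction_on' with
    | add p q hp hq => rw [map_add]; exact add_mem hp hq
    | monomial n a =>
      rw [← Polynomial.C_mul_X_pow_eq_monomial, map_mul, map_pow, RatFunc.algebraMap_C,
        RatFunc.algebraMap_X]
      exact mul_mem (hC a) (pow_mem hX n)
  refine top_le_iff.1 fun r _ => ?_
  rw [← r.num_div_denom]
  exact div_mem (hP _) (hP _)

end Pool.Agent.Adm

end

section

/-! Restriction of a covering to a Kummer covering of the line. -/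

namespace Pool.Agent.Adm

theorem tower_KR0 {F E L : Type} [Field F] [Field E] [Field L] [Algebra F L]
    [FiniteDimensional F L] [IsGalois F L] [Algebra E L] (ρ : F →+* E)
    (h : ∀ a, algebraMap E L (ρ a) = algebraMap F L a) :
    FiniteDimensional E L ∧ IsGalois E L ∧ ∃ r : (L ≃ₐ[E] L) →* (L ≃ₐ[F] L),
      (∀ τ x, r τ x = τ x) ∧ ∀ σ : L ≃ₐ[F] L,
        (∀ a, σ (algebraMap E L a) = algebraMap E L a) → ∃ τ, r τ = σ := by
  let _ : Algebra F E := ρ.toAlgebra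
  have : IsScalarTower F E L := IsScalarTower.of_algebraMap_eq fun a => (h a).symm
  refine ⟨Module.Finite.right F E L, IsGalois.tower_top_of_isGalois F E L,
    MonoidHom.mk' (fun τ => τ.restrictScalars F) fun _ _ => rfl, fun _ _ => rfl, fun σ hσ => ?_⟩
  exact ⟨AlgEquiv.ofRingEquiv (f := σ.toRingEquiv) hσ, AlgEquiv.ext fun _ => rfl⟩

theorem transc_KR0 {k L : Type} [Field k] [Field L] (i : RatFunc k →+* L) (y : L) {m : ℕ}
    (hy : y ^ m = i RatFunc.X) (P : Polynomial k) (hP : P ≠ 0) :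
    P.eval₂ (i.comp RatFunc.C) y ≠ 0 := by
  let _ : Algebra k L := (i.comp RatFunc.C).toAlgebra
  intro h
  obtain ⟨Q, hQ, h2⟩ := IsAlgebraic.pow (show IsAlgebraic k y from ⟨P, hP, h⟩) m
  have e := hom_algebraMap i (i.comp RatFunc.C) (y ^ m) (fun _ => rfl) hy.symm Q
  exact (map_ne_zero i).2 ((map_ne_zero_iff _ (IsFractionRing.injective _ _)).2 hQ) (e.trans h2)

theorem Cover.exists_kummerRestr {k G : Type} [Field k] [Group G] (c : Cover k G) (θ : K0 →+* k)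
    (𝔽0 : FF) (χ0 : G →* 𝔽0.Fˣ) (y : c.L)
    (hy : y ^ 𝔽0.m = algebraMap (RatFunc k) c.L RatFunc.X)
    (hσ : ∀ σ : c.L ≃ₐ[RatFunc k] c.L,
      σ y = algebraMap (RatFunc k) c.L (RatFunc.C (θ (𝔽0.θ (χ0 (c.ι σ))))) * y) :
    ∃ c' : Cover k G, c'.ι.range = c.ι.range ⊓ χ0.ker ∧
      ∀ (W : Type) [CommRing W] (φ : k →+* W) (j : c.L →+* W) (s : W →+* W)
        (σ : c.L ≃ₐ[RatFunc k] c.L),
        (∀ x, j (algebraMap (RatFunc k) c.L (RatFunc.C x)) = φ x) → (∀ x, j (σ x) = s (j x)) →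
        σ y = y → c'.RMono φ (j y) s (c.ι σ) := by
  obtain ⟨ρ, ρC, ρX⟩ := exists_subst_IN0 (1 : k) one_ne_zero 𝔽0.m 𝔽0.m_pos
  rw [map_one, one_mul] at ρX
  obtain ⟨ψ, ψC, ψX⟩ := exists_ratFunc_hom _ y (transc_KR0 (algebraMap (RatFunc k) c.L) y hy)
  have e : ψ.comp ρ = algebraMap (RatFunc k) c.L := ratFunc_hom_ext _ _
    (fun a => by rw [RingHom.comp_apply, ρC, ψC]; rfl)
    (by rw [RingHom.comp_apply, ρX, map_pow, ψX, hy])
  have y0 : y ≠ 0 := ψX ▸ (map_ne_zero ψ).2 RatFunc.X_ne_zero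
  have ker : ∀ σ : c.L ≃ₐ[RatFunc k] c.L, χ0 (c.ι σ) = 1 ↔ σ y = y := fun σ => by
    constructor
    · intro h
      rw [hσ, h, Units.val_one, map_one, map_one, map_one, map_one, one_mul]
    · intro h
      refine 𝔽0.theta_injective ((algebraMap (RatFunc k) c.L).comp (RatFunc.C.comp θ))
        (mul_right_cancel₀ y0 ?_)
      refine (hσ σ).symm.trans ?_
      simp only [h, Units.val_one, map_one, one_mul]
  have fix : ∀ σ : c.L ≃ₐ[RatFunc k] c.L, σ y = y → ∀ a, σ (ψ a) = ψ a := fun σ h =>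
    DFunLike.congr_fun (ratFunc_hom_ext ((σ : c.L →+* c.L).comp ψ) ψ
      (fun a => by rw [RingHom.comp_apply, ψC]; exact σ.commutes _)
      (by rw [RingHom.comp_apply, ψX]; exact h))
  obtain ⟨h1, h2, r, r1, r2⟩ := @tower_KR0 (RatFunc k) (RatFunc k) c.L _ _ _ c.alg c.fin c.gal
    ψ.toAlgebra ρ (DFunLike.congr_fun e)
  refine ⟨@Cover.mk k _ G _ c.L c.field ψ.toAlgebra h1 h2 (c.ι.comp r), ?_, ?_⟩
  · ext g
    constructor
    · rintro ⟨τ, rfl⟩
      refine ⟨⟨r τ, rfl⟩, (ker (r τ)).2 ?_⟩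
      rw [r1, ← ψX]
      exact @AlgEquiv.commutes _ _ _ _ _ _ ψ.toAlgebra ψ.toAlgebra τ RatFunc.X
    · rintro ⟨⟨σ, rfl⟩, h⟩
      obtain ⟨τ, rfl⟩ := r2 σ (fix σ ((ker σ).1 h))
      exact ⟨τ, rfl⟩
  · intro W _ φ j s σ jC js h
    obtain ⟨τ, rfl⟩ := r2 σ (fix σ h)
    exact ⟨j, fun x => (congrArg j (ψC x)).trans (jC x), congrArg j ψX, τ, rfl,
      fun x => (congrArg j (r1 τ x).symm).trans (js x)⟩

end Pool.Agent.Adm

end

section

/-! Monodromy of the restriction to a Kummer covering. -/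

namespace Pool.Agent.Adm

open scoped OnePoint

theorem Cover.pow_chart_KR {k G : Type} [Field k] [Group G] (c : Cover k G)
    (j : c.L →+* LaurentSeries k) (σ : c.L ≃ₐ[RatFunc k] c.L) (ζ : k) (h : ζ ≠ 0)
    (hσ : ∀ x, j (σ x) = scL ζ h (j x)) (n : ℕ) (ξ : k) (h' : ξ ≠ 0) (e : ζ ^ n = ξ) (x : c.L) :
    j ((σ ^ n) x) = scL ξ h' (j x) := by
  subst e
  induction n with
  | zero => simp
  | succ n ih =>
    rw [pow_succ' σ, AlgEquiv.mul_apply, hσ, ih (pow_ne_zero _ h), scL_scL]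
    simp only [pow_succ']

theorem Cover.ram_KR {k G : Type} [Field k] [IsAlgClosed k] [Group G] (c c' : Cover k G)
    (θ : K0 →+* k) (𝔽0 : FF) (χ0 : G →* 𝔽0.Fˣ) (y : c.L)
    (hy : y ^ 𝔽0.m = algebraMap (RatFunc k) c.L RatFunc.X)
    (hσ : ∀ σ : c.L ≃ₐ[RatFunc k] c.L,
      σ y = algebraMap (RatFunc k) c.L (RatFunc.C (θ (𝔽0.θ (χ0 (c.ι σ))))) * y)
    (hc : ∀ (j : c.L →+* LaurentSeries k) (s : LaurentSeries k →+* LaurentSeries k)
        (σ : c.L ≃ₐ[RatFunc k] c.L),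
        (∀ x, j (algebraMap (RatFunc k) c.L (RatFunc.C x)) = HahnSeries.C x) →
        (∀ x, j (σ x) = s (j x)) → σ y = y → c'.RMono HahnSeries.C (j y) s (c.ι σ))
    (ε : ℤ) (hε : ε * ε = 1) {e : ℕ} (he : Odd e) {g : G}
    (h : c.RMono HahnSeries.C (HahnSeries.single (ε * e) 1)
      (scL (θ (xi e)) (((xi_prim he).map_of_injective θ.injective).ne_zero he.pos.ne')) g) :
    ∃ (e' : ℕ) (he' : Odd e') (ω : k), ω ≠ 0 ∧
      c'.RMono HahnSeries.C (HahnSeries.single (ε * e') ω)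
        (scL (θ (xi e')) (((xi_prim he').map_of_injective θ.injective).ne_zero he'.pos.ne'))
        (g ^ 𝔽0.m) := by
  obtain ⟨j, h1, h2, σ, h3, h4⟩ := h
  obtain ⟨n', ω, a1, a2, a3⟩ := root_eq_single 𝔽0.m (𝔽0.m_cast_ne_zero θ) (ε * e) (j y)
    (by rw [← map_pow, hy, h2])
  have a4 : (e : ℤ) = 𝔽0.m * (ε * n') := by
    linear_combination ε * a1 - (e : ℤ) * hε
  obtain ⟨e', a5⟩ : 𝔽0.m ∣ e := Int.natCast_dvd_natCast.1 ⟨_, a4⟩
  have a6 : n' = ε * e' := by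
    have hm : (𝔽0.m : ℤ) ≠ 0 := by exact_mod_cast 𝔽0.m_pos.ne'
    have a7 : ε * n' = e' := mul_left_cancel₀ hm (by rw [← a4, a5, Nat.cast_mul])
    linear_combination ε * a7 - n' * hε
  have he' : Odd e' := Odd.of_dvd_nat he ⟨𝔽0.m, a5.trans (mul_comm _ _)⟩
  have hω : ω ≠ 0 := by
    rintro rfl
    rw [zero_pow 𝔽0.m_pos.ne'] at a2
    exact zero_ne_one a2
  refine ⟨e', he', ω, hω, ?_⟩
  rw [← a6, ← a3, ← h3, ← map_pow]
  refine hc j _ (σ ^ 𝔽0.m) h1 (c.pow_chart_KR j σ _ _ h4 _ _ _ ?_) ?_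
  · rw [← map_pow, a5, mul_comm, xi_pow he' 𝔽0.m_odd]
  · rw [hσ, map_pow, map_pow, 𝔽0.pow_m, Units.val_one, map_one, map_one, map_one, map_one,
      one_mul]

theorem Cover.exists_kummer_M {k G : Type} [Field k] [IsAlgClosed k] [Group G] (c : Cover k G)
    (θ : K0 →+* k) (𝔽0 : FF) (χ0 : G →* 𝔽0.Fˣ)
    (h0 : ∃ g, c.M θ ((0 : k) : OnePoint k) g ∧ χ0 g = 𝔽0.u)
    (h1 : ∀ a : k, a ≠ 0 → ∃ g, c.M θ a g ∧ χ0 g = 1) :
    ∃ c' : Cover k G, c'.ι.range = c.ι.range ⊓ χ0.ker ∧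
      (∀ g, c.M θ ((0 : k) : OnePoint k) g → c'.M θ ((0 : k) : OnePoint k) (g ^ 𝔽0.m)) ∧
      (∀ g, c.M θ ∞ g → c'.M θ ∞ (g ^ 𝔽0.m)) ∧
      ∀ (a : k) (g : G), a ≠ 0 → c.M θ a g → ∃ α : k, α ^ 𝔽0.m = a ∧
        ∀ γ ∈ c.ι.range, c'.M θ ((θ (𝔽0.θ (χ0 γ)) * α : k) : OnePoint k) (γ⁻¹ * g * γ) := by
  obtain ⟨y, -, hy, hσ, -⟩ := c.exists_norm_gens (θ.comp 𝔽0.θ) (Aff.inl.comp χ0) Polynomial.X
    Polynomial.X_ne_zero (fun a => by
      by_cases ha : a = 0
      · subst ha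
        obtain ⟨g, hg, e⟩ := h0
        obtain ⟨e', ζ, h2, h3⟩ := hg.lab 𝔽0 χ0 1 (by rw [e, zpow_one])
        refine ⟨e', ζ, g, h2, ?_⟩
        have h4 := Polynomial.rootMultiplicity_X_sub_C_self (x := (0 : k))
        rw [map_zero, sub_zero] at h4
        rw [h4]
        exact h3
      · obtain ⟨g, hg, e⟩ := h1 a ha
        obtain ⟨e', ζ, h2, h3⟩ := hg.lab 𝔽0 χ0 0 (by rw [e, zpow_zero])
        refine ⟨e', ζ, g, h2, ?_⟩
        rw [Polynomial.rootMultiplicity_eq_zero (by simpa using ha)]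
        exact h3)
  rw [𝔽0.card_sub_one, RatFunc.algebraMap_X] at hy
  replace hσ : ∀ σ : c.L ≃ₐ[RatFunc k] c.L,
      σ y = algebraMap (RatFunc k) c.L (RatFunc.C (θ (𝔽0.θ (χ0 (c.ι σ))))) * y := hσ
  obtain ⟨c', hr, hc⟩ := c.exists_kummerRestr θ 𝔽0 χ0 y hy hσ
  refine ⟨c', hr, fun g ⟨e, he, h⟩ => ?_, fun g ⟨e, he, h⟩ => ?_, fun a g ha ⟨e, he, h⟩ => ?_⟩
  · obtain ⟨e', he', ω, hω, h2⟩ := c.ram_KR c' θ 𝔽0 χ0 y hy hσ (hc _ _) 1 (one_mul _) he
      (by simpa [expand] using h.rmono)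
    refine ⟨e', he', Cover.RMono.mono_of_scaled he'.pos
      ((xi_prim he').map_of_injective θ.injective) 0 ω hω ?_⟩
    simpa using h2
  · obtain ⟨e', he', ω, hω, h2⟩ := c.ram_KR c' θ 𝔽0 χ0 y hy hσ (hc _ _) (-1) (by norm_num) he
      (by simpa [expand] using h.rmono)
    refine ⟨e', he', Cover.RMono.mono_infty_of_scaled he'.pos
      ((xi_prim he').map_of_injective θ.injective) ω hω ?_⟩
    simpa using h2
  · obtain ⟨j, h2, h3, σ, h4, h5⟩ := h.rmono
    obtain ⟨w, a1, a2, a3⟩ := root_eq_series 𝔽0.m (𝔽0.m_cast_ne_zero θ) e h.1 a ha (j y)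
      (by rw [← map_pow, hy, h3]; rfl)
    refine ⟨_, a3, ?_⟩
    rintro _ ⟨τ, rfl⟩
    have a4 : σ y = y := j.injective (by rw [h5, a1, scL_powL_self _ _ _ _ h.2.1.pow_eq_one])
    have a5 : θ (𝔽0.θ (χ0 (c.ι τ))) ≠ 0 :=
      (map_ne_zero _).2 ((map_ne_zero _).2 (Units.ne_zero _))
    have h6 := hc _ _ (j.comp (τ : c.L →+* c.L))
      (scL (θ (xi e)) (h.2.1.ne_zero h.1.ne')) (τ⁻¹ * σ * τ)
      (fun x => (congrArg j (τ.commutes _)).trans (h2 x))
      (fun x => by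
        change j (τ ((τ⁻¹ * σ * τ) x)) = scL _ _ (j (τ x))
        rw [← h5, ← AlgEquiv.mul_apply, ← mul_assoc, ← mul_assoc, mul_inv_cancel, one_mul,
          AlgEquiv.mul_apply])
      (by
        have a6 : σ (τ y) = τ y := by rw [hσ τ, map_mul, AlgEquiv.commutes, a4]
        rw [AlgEquiv.mul_apply, AlgEquiv.mul_apply, a6, ← AlgEquiv.mul_apply, inv_mul_cancel,
          AlgEquiv.one_apply])
    have a7 : (j.comp (τ : c.L →+* c.L)) y = powL e h.1
        ((PowerSeries.C (θ (𝔽0.θ (χ0 (c.ι τ)))) * w : PowerSeries k) : LaurentSeries k) := by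
      change j (τ y) = _
      rw [hσ τ, map_mul, h2, a1, map_mul, map_mul, HahnSeries.ofPowerSeries_C, powL_C]
    rw [a7, map_mul c.ι, map_mul c.ι, map_inv, h4] at h6
    have h7 := (c'.mono_iff_rmono h.1 h.2.1 _ (by
      rw [PowerSeries.coeff_C_mul]
      exact mul_ne_zero a5 a2) _).2 h6
    rw [map_mul, PowerSeries.constantCoeff_C] at h7
    exact ⟨e, he, h7⟩

end Pool.Agent.Adm

end

section

/-! Kummer coverings of pointed lines. -/

namespace Pool.Agent.Adm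

open scoped OnePoint

variable {G : Type} [Group G]

theorem pow_pow_KRV (𝔽0 : FF) (c : ℕ) (t : 𝔽0.Fˣ) :
    (t ^ 2 ^ c) ^ 2 ^ ((𝔽0.r - 1) * c) = t := by
  have h : c + (𝔽0.r - 1) * c = 𝔽0.r * c := by
    obtain ⟨n, hn⟩ := Nat.exists_eq_succ_of_ne_zero 𝔽0.r_pos.ne'
    rw [hn, Nat.succ_sub_one, Nat.succ_mul, add_comm]
  rw [← pow_mul, ← pow_add, h, 𝔽0.pow_two_pow_r]

theorem pow_pow'_KRV (𝔽0 : FF) (c : ℕ) (t : 𝔽0.Fˣ) :
    (t ^ 2 ^ ((𝔽0.r - 1) * c)) ^ 2 ^ c = t := by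
  rw [← pow_mul, mul_comm, pow_mul, pow_pow_KRV]

theorem sigma_KRV (𝔽0 : FF) (c : ℕ) (σ0 : K0 →+* K0) (hσ0 : ∀ x, σ0 x ^ 2 ^ c = x)
    (t : 𝔽0.Fˣ) : 𝔽0.θ ((t ^ 2 ^ ((𝔽0.r - 1) * c) : 𝔽0.Fˣ) : 𝔽0.F) = σ0 (𝔽0.θ t) := by
  apply (iterateFrobenius K0 2 c).injective
  rw [iterateFrobenius_def, iterateFrobenius_def, hσ0, ← map_pow, ← Units.val_pow_eq_pow_val,
    pow_pow'_KRV]

theorem VP.kummer {k σ : Type} [Field k] [IsAlgClosed k] [DecidableEq σ] {θ : K0 →+* k}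
    {P : σ → OnePoint k} {d : σ → G} {R : Subgroup G} (h : VP θ P d R)
    (hP : Function.Injective P) (𝔽0 : FF) (χ0 : G →* 𝔽0.Fˣ) {s0 s2 : σ}
    (h0 : P s0 = ((0 : k) : OnePoint k)) (h2 : P s2 = ∞) (c : ℕ) (σ0 : K0 →+* K0)
    (hσ0 : ∀ x, σ0 x ^ 2 ^ c = x) (hK : KumLab χ0 d s0 s2 (𝔽0.u ^ 2 ^ c)) (γ : 𝔽0.Fˣ → G)
    (hγ : ∀ t, χ0 (γ t) = t ∧ γ t ∈ R) :
    ∃ (α : σ → k) (P' : YI σ 𝔽0.Fˣ s0 s2 → OnePoint k), (∀ s (a : k), P s = a → α s ^ 𝔽0.m = a) ∧
      Function.Injective P' ∧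
      (∀ y, P' y = if y.1.1 = s2 then ∞ else
        ((θ (σ0 (𝔽0.θ y.1.2)) * α y.1.1 : k) : OnePoint k)) ∧
      VP θ P' (yd 𝔽0.m d s0 s2 γ) (R ⊓ χ0.ker) := by
  obtain ⟨cv, rfl, hu, hd⟩ := h
  obtain ⟨χ1, hχ⟩ : ∃ χ1 : G →* 𝔽0.Fˣ, ∀ g, χ1 g = χ0 g ^ 2 ^ ((𝔽0.r - 1) * c) :=
    ⟨(powMonoidHom (2 ^ ((𝔽0.r - 1) * c))).comp χ0, fun _ => rfl⟩
  have hker : χ1.ker = χ0.ker := by
    ext g
    rw [MonoidHom.mem_ker, MonoidHom.mem_ker, hχ]
    refine ⟨fun e => ?_, fun e => by rw [e, one_pow]⟩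
    rw [← pow_pow'_KRV 𝔽0 c (χ0 g), e, one_pow]
  have hγ1 : ∀ t, θ (𝔽0.θ (χ1 (γ t))) = θ (σ0 (𝔽0.θ t)) := fun t => by
    rw [hχ, (hγ t).1, sigma_KRV 𝔽0 c σ0 hσ0]
  have h02 : s0 ≠ s2 := fun e => OnePoint.coe_ne_infty (0 : k) (by rw [← h0, e, h2])
  have n0 : ∀ s (a : k), P s = a → a ≠ 0 → s ≠ s0 := fun s a e ha e' =>
    ha (OnePoint.coe_eq_coe.1 (by rw [← e, e', h0]))
  have n2 : ∀ s (a : k), P s = a → s ≠ s2 := fun s a e e' =>
    OnePoint.coe_ne_infty a (by rw [← e, e', h2])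
  have fin : ∀ s, s ≠ s2 → ∃ a : k, P s = a := fun s hs => by
    obtain ⟨a, ha⟩ := OnePoint.ne_infty_iff_exists.1 fun e : P s = ∞ => hs (hP (e.trans h2.symm))
    exact ⟨a, ha.symm⟩
  have nz : ∀ s (a : k), P s = a → s ≠ s0 → a ≠ 0 := fun s a e hs ha =>
    hs (hP (by rw [e, h0, ha]))
  obtain ⟨c', hr, m0, m2, m1⟩ := cv.exists_kummer_M θ 𝔽0 χ1
    ⟨d s0, h0 ▸ hd s0, by rw [hχ, hK.1, pow_pow_KRV]⟩ fun a ha => by
      by_cases hm : (a : OnePoint k) ∈ Set.range P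
      · obtain ⟨s, e⟩ := hm
        exact ⟨d s, e ▸ hd s, by rw [hχ, hK.2.2 s (n0 s a e ha) (n2 s a e), one_pow]⟩
      · exact ⟨1, hu _ hm, map_one _⟩
  have hα : ∀ s, ∃ α : k, (∀ a : k, P s = a → α ^ 𝔽0.m = a) ∧ (s ≠ s0 → s ≠ s2 → ∀ t : 𝔽0.Fˣ,
      c'.M θ ((θ (σ0 (𝔽0.θ t)) * α : k) : OnePoint k) ((γ t)⁻¹ * d s * γ t)) := by
    intro s
    by_cases e0 : s = s0
    · refine ⟨0, fun a e => ?_, fun h => absurd e0 h⟩
      rw [zero_pow 𝔽0.m_pos.ne']
      exact OnePoint.coe_eq_coe.1 (by rw [← e, e0, h0])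
    by_cases e2 : s = s2
    · exact ⟨0, fun a e => absurd e2 (n2 s a e), fun _ h => absurd e2 h⟩
    obtain ⟨a, e⟩ := fin s e2
    obtain ⟨α, a1, a2⟩ := m1 a (d s) (nz s a e e0) (e ▸ hd s)
    refine ⟨α, fun b e' => a1.trans (OnePoint.coe_eq_coe.1 (e.symm.trans e')), fun _ _ t => ?_⟩
    rw [← hγ1]
    exact a2 _ (hγ t).2
  choose α a1 a2 using hα
  have z0 : α s0 = 0 := pow_eq_zero_iff 𝔽0.m_pos.ne' |>.1 (a1 s0 0 h0)
  have hpow : ∀ t : 𝔽0.Fˣ, θ (σ0 (𝔽0.θ t)) ^ 𝔽0.m = 1 := 𝔽0.theta_pow_m (θ.comp σ0)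
  have root : ∀ x y : k, y ≠ 0 → x ^ 𝔽0.m = y ^ 𝔽0.m →
      ∃ t : 𝔽0.Fˣ, θ (σ0 (𝔽0.θ t)) * x = y := by
    intro x y hy e
    have hx : x ≠ 0 := by
      rintro rfl
      rw [zero_pow 𝔽0.m_pos.ne'] at e
      exact pow_ne_zero _ hy e.symm
    obtain ⟨t, ht⟩ := 𝔽0.exists_unit (θ.comp σ0) (y / x)
      (by rw [div_pow, ← e, div_self (pow_ne_zero _ hx)])
    exact ⟨t, by rw [show θ (σ0 (𝔽0.θ t)) = y / x from ht, div_mul_cancel₀ _ hx]⟩
  refine ⟨α, fun y => if y.1.1 = s2 then ∞ else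
    ((θ (σ0 (𝔽0.θ y.1.2)) * α y.1.1 : k) : OnePoint k), a1, ?_, fun _ => rfl, c',
    by rw [hr, hker], fun b hb => ?_, ?_⟩
  · rintro ⟨⟨s, t⟩, hy⟩ ⟨⟨s', t'⟩, hy'⟩ e
    dsimp only at e hy hy'
    apply Subtype.ext
    by_cases e2 : s = s2 <;> by_cases e2' : s' = s2
    · exact Prod.ext (e2.trans e2'.symm) ((hy (.inr e2)).trans (hy' (.inr e2')).symm)
    · rw [if_pos e2, if_neg e2'] at e
      exact absurd e (OnePoint.infty_ne_coe _)
    · rw [if_neg e2, if_pos e2'] at e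
      exact absurd e (OnePoint.coe_ne_infty _)
    · rw [if_neg e2, if_neg e2', OnePoint.coe_eq_coe] at e
      obtain ⟨a, ha⟩ := fin s e2
      obtain ⟨a', ha'⟩ := fin s' e2'
      have e3 := congrArg (· ^ 𝔽0.m) e
      simp only [mul_pow, hpow, one_mul, a1 s a ha, a1 s' a' ha'] at e3
      obtain rfl : s = s' := hP (by rw [ha, ha', e3])
      by_cases e0 : s = s0
      · exact Prod.ext rfl ((hy (.inl e0)).trans (hy' (.inl e0)).symm)
      · have hne : α s ≠ 0 := fun hz => nz s a ha e0 (by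
          rw [← a1 s a ha, hz, zero_pow 𝔽0.m_pos.ne'])
        exact Prod.ext rfl (𝔽0.theta_injective (θ.comp σ0) (mul_right_cancel₀ hne e))
  · induction b using OnePoint.rec with
    | infty => exact absurd ⟨⟨(s2, 1), fun _ => rfl⟩, if_pos rfl⟩ hb
    | coe β =>
      have hβ : β ≠ 0 := by
        rintro rfl
        refine hb ⟨⟨(s0, 1), fun _ => rfl⟩, (if_neg h02).trans ?_⟩
        rw [z0, mul_zero]
      have hβ' : β ^ 𝔽0.m ≠ 0 := pow_ne_zero _ hβ
      by_cases hm : ((β ^ 𝔽0.m : k) : OnePoint k) ∈ Set.range P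
      · obtain ⟨s, e⟩ := hm
        obtain ⟨t, ht⟩ := root (α s) β hβ (a1 s _ e)
        refine absurd ⟨⟨(s, t), fun h => ?_⟩, (if_neg (n2 s _ e)).trans ?_⟩ hb
        · exact (h.elim (n0 s _ e hβ') (n2 s _ e)).elim
        · rw [ht]
      · obtain ⟨x, x1, x2⟩ := m1 _ 1 hβ' (hu _ hm)
        obtain ⟨t, ht⟩ := root x β hβ x1
        have h5 := x2 _ (hγ t).2
        rwa [hγ1, ht, mul_one, inv_mul_cancel] at h5
  · rintro ⟨⟨s, t⟩, hy⟩
    dsimp only [yd]
    by_cases e2 : s = s2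
    · rw [if_pos e2, if_pos (.inr e2), e2]
      exact m2 _ (h2 ▸ hd s2)
    by_cases e0 : s = s0
    · rw [if_neg e2, if_pos (.inl e0), e0, z0, mul_zero]
      exact m0 _ (h0 ▸ hd s0)
    · rw [if_neg e2, if_neg (not_or.2 ⟨e0, e2⟩)]
      exact a2 s e0 e2 t

theorem exists_frob_inv (c : ℕ) : ∃ σ0 : K0 →+* K0, ∀ x, σ0 x ^ 2 ^ c = x := by
  refine ⟨(iterateFrobeniusEquiv K0 2 c).symm.toRingHom, fun x => ?_⟩
  exact (iterateFrobeniusEquiv K0 2 c).apply_symm_apply x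

theorem Geo.kummer {ι : Type} [DecidableEq ι] {d : ι → G} {R : Subgroup G}
    (h : Geo Set.univ d R) (𝔽0 : FF) (χ0 : G →* 𝔽0.Fˣ) {i0 i2 : ι} (h02 : i0 ≠ i2) (c : ℕ)
    (hK : KumLab χ0 d i0 i2 (𝔽0.u ^ 2 ^ c)) (γ : 𝔽0.Fˣ → G) (hγ : ∀ t, χ0 (γ t) = t ∧ γ t ∈ R) :
    Geo Set.univ (yd 𝔽0.m d i0 i2 γ) (R ⊓ χ0.ker) := by
  obtain ⟨k, i1, i3, θ, p, hp, h⟩ := h
  have h1 : VP θ (fun i : ι => p ⟨i, trivial⟩) d R :=
    h.reindex (fun i : ι => (⟨i, trivial⟩ : (Set.univ : Set ι))) fun s => ⟨s.1, rfl⟩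
  have hp1 : Function.Injective fun i : ι => p ⟨i, trivial⟩ := fun a b e =>
    congrArg Subtype.val (hp e)
  obtain ⟨μ, m1, m2, m3⟩ := exists_mob_zero_infty _ _ (hp1.ne h02)
  obtain ⟨σ0, hσ0⟩ := exists_frob_inv c
  obtain ⟨α, P', -, h3, -, h4⟩ := (h1.mob μ m1.1).kummer (μ.injective.comp hp1) 𝔽0 χ0 m2 m3 c σ0
    hσ0 hK γ hγ
  exact h4.geo h3

theorem exists_section (𝔽0 : FF) (χ0 : G →* 𝔽0.Fˣ) (c : ℕ) (g : G)
    (hg : χ0 g = 𝔽0.u ^ 2 ^ c ∨ χ0 g = (𝔽0.u ^ 2 ^ c)⁻¹) :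
    ∃ γ : 𝔽0.Fˣ → G, ∀ t, χ0 (γ t) = t ∧ γ t ∈ Subgroup.zpowers g := by
  have key : ∀ t, ∃ x, χ0 x = t ∧ x ∈ Subgroup.zpowers g := by
    intro t
    obtain ⟨n, -, rfl⟩ := 𝔽0.exists_log t
    rcases hg with hg | hg
    · refine ⟨(g ^ 2 ^ ((𝔽0.r - 1) * c)) ^ n, ?_,
        pow_mem (Subgroup.npow_mem_zpowers _ _) _⟩
      rw [map_pow, map_pow, hg, pow_pow_KRV]
    · refine ⟨(g⁻¹ ^ 2 ^ ((𝔽0.r - 1) * c)) ^ n, ?_,
        pow_mem (pow_mem (inv_mem (Subgroup.mem_zpowers g)) _) _⟩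
      rw [map_pow, map_pow, map_inv, hg, inv_inv, pow_pow_KRV]
  choose γ hγ using key
  exact ⟨γ, hγ⟩

theorem yd_mem_ker {ι : Type} [DecidableEq ι] (𝔽0 : FF) (χ0 : G →* 𝔽0.Fˣ) {d : ι → G}
    {i0 i2 : ι} {u : 𝔽0.Fˣ} (hK : KumLab χ0 d i0 i2 u) (γ : 𝔽0.Fˣ → G)
    (y : YI ι 𝔽0.Fˣ i0 i2) : yd 𝔽0.m d i0 i2 γ y ∈ χ0.ker := by
  rw [MonoidHom.mem_ker, yd]
  split_ifs with h
  · rw [map_pow, 𝔽0.pow_m]
  · rw [not_or] at h
    rw [map_mul, map_mul, hK.2.2 _ h.1 h.2, mul_one, map_inv, inv_mul_cancel]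

theorem Geo.exists_isYD {ι : Type} [DecidableEq ι] {d : ι → G} (h : Geo Set.univ d ⊤) (𝔽0 : FF)
    (χ0 : G →* 𝔽0.Fˣ) {i0 i2 : ι} (h02 : i0 ≠ i2) (c : ℕ)
    (hK : KumLab χ0 d i0 i2 (𝔽0.u ^ 2 ^ c)) :
    ∃ e, IsYD 𝔽0.m χ0 d i0 i2 e ∧ Geo Set.univ e ⊤ := by
  obtain ⟨γ, hγ⟩ := exists_section 𝔽0 χ0 c (d i0) (.inl hK.1)
  refine ⟨fun y => ⟨yd 𝔽0.m d i0 i2 γ y, yd_mem_ker 𝔽0 χ0 hK γ y⟩,
    ⟨γ, fun t => (hγ t).1, fun _ => rfl⟩, ?_⟩
  have h1 := Geo.restr χ0.ker inf_le_right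
    (fun y => ⟨yd 𝔽0.m d i0 i2 γ y, yd_mem_ker 𝔽0 χ0 hK γ y⟩)
    (h.kummer 𝔽0 χ0 h02 c hK γ fun t => ⟨(hγ t).1, Subgroup.mem_top _⟩)
  rwa [top_inf_eq, Subgroup.subgroupOf_self] at h1

theorem card_YI {ι A : Type} [Fintype ι] [DecidableEq ι] [CommGroup A] [Fintype A]
    [DecidableEq A] {i0 i2 : ι} (h02 : i0 ≠ i2) :
    Fintype.card (YI ι A i0 i2) = Fintype.card A * (Fintype.card ι - 2) + 2 := by
  have e : (Finset.univ.filter fun y : ι × A => (y.1 = i0 ∨ y.1 = i2) → y.2 = 1) =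
      (({i0, i2}ᶜ : Finset ι) ×ˢ (Finset.univ : Finset A)) ∪
        (({i0, i2} : Finset ι) ×ˢ ({1} : Finset A)) := by
    ext y
    simp only [Finset.mem_filter, Finset.mem_univ, true_and, Finset.mem_union, Finset.mem_product,
      Finset.mem_compl, Finset.mem_insert, Finset.mem_singleton, and_true]
    tauto
  rw [Fintype.card_subtype, e, Finset.card_union_of_disjoint, Finset.card_product,
    Finset.card_product, Finset.card_compl, Finset.card_pair h02, Finset.card_univ,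
    Finset.card_singleton, mul_comm]
  exact Finset.disjoint_left.2 fun y h1 h2 =>
    Finset.mem_compl.1 (Finset.mem_product.1 h1).1 (Finset.mem_product.1 h2).1

end Pool.Agent.Adm

end

section

/-! The Galois closure of a covering of a Kummer covering of the line. -/

namespace Pool.Agent.Adm

theorem Cover.exists_induced {k B : Type} [Field k] [Group B] (c' : Cover k B) (θ : K0 →+* k)
    (𝔽0 : FF) :
    ∃ (c : Cover k (RegularWreathProduct B 𝔽0.Fˣ)) (y : c.L),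
      y ^ 𝔽0.m = algebraMap (RatFunc k) c.L RatFunc.X ∧
      (∀ σ : c.L ≃ₐ[RatFunc k] c.L,
        σ y = algebraMap (RatFunc k) c.L (RatFunc.C (θ (𝔽0.θ (c.ι σ).right))) * y) ∧
      (∀ b ∈ c'.ι.range, ∃ g ∈ c.ι.range, g.right = 1 ∧ g.left 1 = b) ∧
      (∀ (W : Type) [Field W] (φ : k →+* W) (η : W),
        (∀ t : 𝔽0.Fˣ, c'.RMono φ (φ (θ (𝔽0.θ t)) * η) (RingHom.id W) 1) →
        ∃ j : c.L →+* W, (∀ x, j (algebraMap (RatFunc k) c.L (RatFunc.C x)) = φ x) ∧ j y = η) ∧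
      ∀ (W : Type) [Field W] (φ : k →+* W) (j : c.L →+* W) (s : W →+* W)
        (σ : c.L ≃ₐ[RatFunc k] c.L),
        (∀ x, j (algebraMap (RatFunc k) c.L (RatFunc.C x)) = φ x) → (∀ x, j (σ x) = s (j x)) →
        σ y = y → ∀ t : 𝔽0.Fˣ, c'.RMono φ (φ (θ (𝔽0.θ t)) * j y) s ((c.ι σ).left t) := by
  obtain ⟨ρ, ρC, ρX⟩ := exists_subst_IN0 (1 : k) one_ne_zero 𝔽0.m 𝔽0.m_pos
  rw [map_one, one_mul] at ρX
  obtain ⟨M, _, _, _, _, f, hf, hK⟩ := exists_closure_IN0' (L := c'.L) ρ RatFunc.X RatFunc.X 𝔽0.m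
    (𝔽0.m_cast_ne_zero (RatFunc.C.comp θ)) RatFunc.X_ne_zero ρX.symm
    (fun S h1 h2 => subfield_top_IN0 S (fun a => ρC a ▸ h1 _) h2)
  let i : RatFunc k →+* M := f.comp (algebraMap (RatFunc k) c'.L)
  let y : M := i RatFunc.X
  have iρ : ∀ a, i (ρ a) = algebraMap (RatFunc k) M a := hf
  have iC : ∀ a, i (RatFunc.C a) = algebraMap (RatFunc k) M (RatFunc.C a) := fun a => by
    rw [← iρ, ρC]
  have y0 : y ≠ 0 := (map_ne_zero i).2 RatFunc.X_ne_zero
  have ym : y ^ 𝔽0.m = algebraMap (RatFunc k) M RatFunc.X := by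
    rw [← iρ, ρX, map_pow]
  let θ' : K0 →+* M := (algebraMap (RatFunc k) M).comp (RatFunc.C.comp θ)
  have θfix : ∀ (σ : M ≃ₐ[RatFunc k] M) a, σ (θ' a) = θ' a := fun σ a => σ.commutes _
  have hκ : ∀ σ : M ≃ₐ[RatFunc k] M, ∃ t : 𝔽0.Fˣ, σ y = θ' (𝔽0.θ t) * y := fun σ => by
    obtain ⟨t, ht⟩ := 𝔽0.exists_unit θ' (σ y / y) (by
      rw [div_pow, ← map_pow, ym, σ.commutes, ← ym, div_self (pow_ne_zero _ y0)])
    exact ⟨t, by rw [ht, div_mul_cancel₀ _ y0]⟩
  choose κ0 hκ0 using hκ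
  have uniq : ∀ t t' : 𝔽0.Fˣ, θ' (𝔽0.θ t) * y = θ' (𝔽0.θ t') * y → t = t' := fun t t' h =>
    𝔽0.theta_injective θ' (mul_right_cancel₀ y0 h)
  let κ : (M ≃ₐ[RatFunc k] M) →* 𝔽0.Fˣ := MonoidHom.mk' κ0 fun σ τ => uniq _ _ (by
    rw [← hκ0, AlgEquiv.mul_apply, hκ0 τ, map_mul, θfix, hκ0 σ, Units.val_mul, map_mul, map_mul]
    ring)
  have hκ : ∀ σ, σ y = θ' (𝔽0.θ (κ σ)) * y := hκ0
  have ker : ∀ σ, κ σ = 1 ↔ σ y = y := fun σ => by
    constructor
    · intro h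
      rw [hκ, h, Units.val_one, map_one, map_one, one_mul]
    · intro h
      apply uniq
      rw [← hκ, h, Units.val_one, map_one, map_one, one_mul]
  have hs : ∀ t : 𝔽0.Fˣ, ∃ σ, κ σ = t := fun t => by
    obtain ⟨g, gC, gX⟩ := exists_subst_IN0 (θ (𝔽0.θ t))
      ((map_ne_zero θ).2 ((map_ne_zero 𝔽0.θ).2 t.ne_zero)) 1 one_pos
    rw [pow_one] at gX
    have gρ : g.comp ρ = ρ := ratFunc_hom_ext _ _ (fun a => by rw [RingHom.comp_apply, ρC, gC])
      (by rw [RingHom.comp_apply, ρX, map_pow, gX, mul_pow, ← map_pow, 𝔽0.theta_pow_m, map_one,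
        one_mul])
    obtain ⟨σ, hσ⟩ := exists_aut_IN0 ρ i (i.comp g) iρ (fun a => by
      rw [← iρ]
      exact congrArg i (DFunLike.congr_fun gρ a))
    refine ⟨σ, uniq _ _ ?_⟩
    rw [← hκ, hσ, RingHom.comp_apply, gX, map_mul, iC]
    rfl
  choose sec hsec using hs
  have hr : ∀ h : κ.ker, ∃ τ : c'.L ≃ₐ[RatFunc k] c'.L, ∀ x, f (τ x) = h.1 (f x) := fun h => by
    have e : (h.1 : M →+* M).comp i = i := ratFunc_hom_ext _ _
      (fun a => by rw [RingHom.comp_apply, iC]; exact h.1.commutes _) ((ker _).1 h.2)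
    exact exists_aut_of_normal (F := RatFunc k) f ((h.1 : M →+* M).comp f)
      fun a => DFunLike.congr_fun e a
  choose r0 hr0 using hr
  let r : κ.ker →* (c'.L ≃ₐ[RatFunc k] c'.L) := MonoidHom.mk' r0 fun σ τ => by
    ext x
    apply f.injective
    rw [hr0, AlgEquiv.mul_apply, hr0, hr0]
    rfl
  have hr : ∀ h x, f (r h x) = h.1 (f x) := hr0
  obtain ⟨ι, ι1, ι2⟩ := exists_wr_hom κ sec hsec (c'.ι.comp r)
  refine ⟨{ L := M, ι := ι }, y, ym, fun σ => ?_, ?_, ?_, ?_⟩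
  · change σ y = θ' (𝔽0.θ (ι σ).right) * y
    rw [ι1]
    exact hκ σ
  · rintro _ ⟨τ, rfl⟩
    obtain ⟨h, hh⟩ := exists_aut_IN0 ((algebraMap (RatFunc k) c'.L).comp ρ) f
      (f.comp (τ : c'.L →+* c'.L)) hf (fun a => by
        rw [← hf]
        exact congrArg f (τ.commutes _))
    have h1 : κ h = 1 := (ker h).2 ((hh _).trans (congrArg f (τ.commutes _)))
    have h2 : r ⟨h, h1⟩ = τ := by
      ext x
      apply f.injective
      rw [hr]
      exact hh x
    have h3 : κ (sec 1 * h * (sec 1)⁻¹) = 1 := by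
      rw [map_mul, map_mul, map_inv, h1, mul_one, mul_inv_cancel]
    refine ⟨ι (sec 1 * h * (sec 1)⁻¹), ⟨_, rfl⟩, (ι1 _).trans h3, ?_⟩
    rw [ι2 _ 1 ⟨h, h1⟩ (by rw [h3, inv_one, one_mul]; group), MonoidHom.comp_apply, h2]
  · intro W _ φ η hW
    choose j jC jX _ using hW
    have jX1 : j 1 (algebraMap (RatFunc k) c'.L RatFunc.X) = η := by
      rw [jX, Units.val_one, map_one, map_one, map_one, one_mul]
    obtain ⟨J, hJ⟩ := exists_ext_IN0 ((algebraMap (RatFunc k) c'.L).comp ρ) f hf hK (j 1)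
      (fun J hJ σ x => by
        have JC : ∀ a, J (algebraMap (RatFunc k) M (RatFunc.C a)) =
            algebraMap W (AlgebraicClosure W) (φ a) := fun a => by
          rw [← iC, ← jC 1]
          exact hJ _
        have Jy : J y = algebraMap W (AlgebraicClosure W) η := by
          rw [← jX1]
          exact hJ _
        have e : (J.comp (σ : M →+* M)).comp i = ((algebraMap W (AlgebraicClosure W)).comp
            (j (κ σ))).comp (algebraMap (RatFunc k) c'.L) := by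
          refine ratFunc_hom_ext _ _ (fun a => ?_) ?_
          · change J (σ (i (RatFunc.C a))) = algebraMap W _ (j (κ σ) (algebraMap _ _ (RatFunc.C a)))
            rw [iC, σ.commutes, JC, jC]
          · change J (σ y) = algebraMap W _ (j (κ σ) (algebraMap _ _ RatFunc.X))
            rw [hκ, map_mul, Jy, jX, map_mul, ← JC]
            rfl
        obtain ⟨τ, hτ⟩ := exists_aut_of_normal (F := RatFunc k)
          ((algebraMap W (AlgebraicClosure W)).comp (j (κ σ))) ((J.comp (σ : M →+* M)).comp f)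
          fun a => DFunLike.congr_fun e a
        exact ⟨j (κ σ) (τ x), hτ x⟩)
    refine ⟨J, fun a => ?_, (hJ _).trans jX1⟩
    rw [← jC 1, ← hJ]
    exact congrArg J (iC a).symm
  · intro W _ φ j s σ hj hσ hy t
    have h0 : κ σ = 1 := (ker σ).2 hy
    have h1 : κ ((sec t)⁻¹ * σ * sec t) = 1 := by
      rw [map_mul, map_mul, map_inv, h0, mul_one, inv_mul_cancel]
    refine ⟨(j.comp (sec t : M →+* M)).comp f, fun a => ?_, ?_, r ⟨_, h1⟩, ?_, fun x => ?_⟩
    · change j (sec t (i (RatFunc.C a))) = φ a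
      rw [iC, (sec t).commutes]
      exact hj a
    · change j (sec t y) = _
      rw [hκ, hsec, map_mul, ← hj]
      rfl
    · exact (ι2 σ t ⟨_, h1⟩ (by rw [h0, inv_one, one_mul])).symm
    · change j (sec t (f (r ⟨_, h1⟩ x))) = s (j (sec t (f x)))
      rw [hr, ← hσ]
      congr 1
      exact (sec t).apply_symm_apply _

end Pool.Agent.Adm

end

section

/-! Monodromy of the induced covering. -/

namespace Pool.Agent.Adm

open scoped OnePoint

theorem Cover.RMono.chart_IN {k G W : Type} [Field k] [Group G] [CommRing W] {c : Cover k G}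
    {φ : k →+* W} {u : W} {s : W →+* W} {g : G} (h : c.RMono φ u s g) :
    c.RMono φ u (RingHom.id W) 1 := by
  obtain ⟨j, h1, h2, -⟩ := h
  exact ⟨j, h1, h2, 1, map_one _, fun _ => rfl⟩

theorem C_mul_single_IN {k : Type} [Field k] (c : k) (n : ℤ) :
    (HahnSeries.C c : LaurentSeries k) * HahnSeries.single n 1 = HahnSeries.single n c := by
  rw [HahnSeries.C_apply, HahnSeries.single_mul_single, zero_add, mul_one]

theorem prim_IN {k : Type} [Field k] (θ : K0 →+* k) {e : ℕ} (he : Odd e) :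
    IsPrimitiveRoot (θ (xi e)) e := (xi_prim he).map_of_injective θ.injective

/-- The local behaviour of the induced covering. -/
def Loc_IN {k B : Type} [Field k] [Group B] (c' : Cover k B) (θ : K0 →+* k) (𝔽0 : FF)
    (c : Cover k (RegularWreathProduct B 𝔽0.Fˣ)) : Prop :=
  ∀ (a : OnePoint k) (e : ℕ) (he : Odd e) (η : LaurentSeries k) (r : 𝔽0.Fˣ) (n : ℕ) (ξ : k)
    (hξ : ξ ≠ 0), η ≠ 0 → η ^ 𝔽0.m = expand a e →
    (∀ t : 𝔽0.Fˣ, c'.RMono HahnSeries.C (HahnSeries.C (θ (𝔽0.θ t)) * η) (RingHom.id _) 1) →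
    scL (θ (xi e)) ((prim_IN θ he).ne_zero he.pos.ne') η = HahnSeries.C (θ (𝔽0.θ r)) * η →
    r ^ n = 1 → θ (xi e) ^ n = ξ →
    ∃ g, c.M θ a g ∧ g.right = r ∧ ∀ t : 𝔽0.Fˣ,
      c'.RMono HahnSeries.C (HahnSeries.C (θ (𝔽0.θ t)) * η) (scL ξ hξ) ((g ^ n).left t)

theorem exists_loc_IN {k B : Type} [Field k] [Group B] (c' : Cover k B) (θ : K0 →+* k)
    (𝔽0 : FF) : ∃ c : Cover k (RegularWreathProduct B 𝔽0.Fˣ),
      (∀ b ∈ c'.ι.range, ∃ g ∈ c.ι.range, g.right = 1 ∧ g.left 1 = b) ∧ Loc_IN c' θ 𝔽0 c := by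
  obtain ⟨c, y, h1, h2, h3, h4, h5⟩ := c'.exists_induced θ 𝔽0
  refine ⟨c, h3, fun a e he η r n ξ hξ h0 hη hch hr hn hζ => ?_⟩
  obtain ⟨j, hC, hy⟩ := h4 _ HahnSeries.C η hch
  obtain ⟨σ, hm, hs⟩ := c.exists_mono_of_chart a e he.pos _ (prim_IN θ he) j hC
    (by rw [← h1, map_pow, hy, hη])
  have h6 : (c.ι σ).right = r := by
    have h7 := hs y
    rw [h2, map_mul, hC, hy, hr] at h7
    exact 𝔽0.theta_injective θ (HahnSeries.C_injective (mul_right_cancel₀ h0 h7))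
  have h7 : ∀ (i : ℕ) (x : c.L), j ((σ ^ i) x) =
      scL (θ (xi e) ^ i) (pow_ne_zero _ ((prim_IN θ he).ne_zero he.pos.ne')) (j x) := by
    intro i
    induction i with
    | zero => intro x; simp
    | succ i ih =>
      intro x
      rw [pow_succ', AlgEquiv.mul_apply, hs, ih, scL_scL]
      simp only [pow_succ']
  subst hζ
  refine ⟨c.ι σ, ⟨e, he, hm⟩, h6, fun t => ?_⟩
  rw [← map_pow c.ι, ← hy]
  refine h5 _ _ j _ (σ ^ n) hC (h7 n) ?_ t
  rw [h2, map_pow, wr_pow_right, h6, hn]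
  simp

theorem Loc_IN.ram {k B : Type} [Field k] [IsAlgClosed k] [Group B] {c' : Cover k B}
    {θ : K0 →+* k} {𝔽0 : FF} {c : Cover k (RegularWreathProduct B 𝔽0.Fˣ)}
    (h : Loc_IN c' θ 𝔽0 c) {a : OnePoint k} {b : B} (hb : c'.M θ a b) (ε : ℤ) (hε : ε * ε = 1)
    (ha : ∀ e : ℕ, expand a e = HahnSeries.single (ε * e) 1)
    (hsc : ∀ (e : ℕ) (he : 0 < e) (ζ : k) (hζ : IsPrimitiveRoot ζ e) (s : k) (g : B), s ≠ 0 →
      c'.RMono HahnSeries.C (HahnSeries.single (ε * e) s) (scL ζ (hζ.ne_zero he.ne')) g →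
        c'.Mono a e ζ g) :
    ∃ g, c.M θ a g ∧ g.right = 𝔽0.u ^ ε ∧ ∀ t, c'.M θ a ((g ^ 𝔽0.m).left t) := by
  obtain ⟨E, hE, hb⟩ := hb
  have hm := 𝔽0.m_odd
  have ht : ∀ t : 𝔽0.Fˣ, θ (𝔽0.θ t) ≠ 0 := fun t => by simp
  obtain ⟨g, h1, h2, h3⟩ := h a (E * 𝔽0.m) (hE.mul hm) (HahnSeries.single (ε * E) 1) (𝔽0.u ^ ε)
    𝔽0.m _ ((prim_IN θ hE).ne_zero hE.pos.ne') (HahnSeries.single_ne_zero one_ne_zero)
    (by
      rw [ha, HahnSeries.single_pow, one_pow]
      congr 2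
      push_cast
      ring)
    (fun t => by
      obtain ⟨l, hl⟩ := IsAlgClosed.exists_pow_nat_eq (θ (𝔽0.θ t)) hE.pos
      have l0 : l ≠ 0 := by
        rintro rfl
        exact ht t (by rw [← hl, zero_pow hE.pos.ne'])
      have h4 := hb.rmono.chart_IN.comp (scL (l ^ ε) (zpow_ne_zero _ l0)) (RingHom.id _)
        fun _ => rfl
      have h5 : (scL (l ^ ε) (zpow_ne_zero _ l0)).comp HahnSeries.C = HahnSeries.C :=
        RingHom.ext fun x => scL_C _ (zpow_ne_zero _ l0) x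
      rwa [h5, ha, scL_single, ← zpow_mul, ← mul_assoc, hε, one_mul, zpow_natCast, hl, mul_one,
        ← C_mul_single_IN] at h4)
    (by
      rw [scL_single, C_mul_single_IN, mul_one, mul_comm ε, zpow_mul, zpow_natCast, ← map_pow,
        mul_comm E, xi_pow hm hE, ← 𝔽0.theta_u, Units.val_zpow_eq_zpow_val, map_zpow₀ 𝔽0.θ,
        map_zpow₀ θ])
    (𝔽0.pow_m _) (by rw [← map_pow, xi_pow hE hm])
  refine ⟨g, h1, h2, fun t => ⟨E, hE, hsc E hE.pos _ (prim_IN θ hE) _ _ (ht t) ?_⟩⟩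
  rw [← C_mul_single_IN]
  exact h3 t

theorem Loc_IN.unr {k B : Type} [Field k] [IsAlgClosed k] [Group B] {c' : Cover k B}
    {θ : K0 →+* k} {𝔽0 : FF} {c : Cover k (RegularWreathProduct B 𝔽0.Fˣ)}
    (h : Loc_IN c' θ 𝔽0 c) (hT : ∀ a, ∃ b, c'.M θ a b) (α : k) (hα : α ≠ 0) :
    ∃ g, c.M θ ((α ^ 𝔽0.m : k) : OnePoint k) g ∧ g.right = 1 ∧
      ∀ t : 𝔽0.Fˣ, c'.M θ ((θ (𝔽0.θ t) * α : k) : OnePoint k) (g.left t) := by
  choose b hb using hT
  choose e he hE using fun t : 𝔽0.Fˣ => (hb ((θ (𝔽0.θ t) * α : k) : OnePoint k)).exists_mono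
  have hO : Odd (∏ t, e t) :=
    Finset.prod_induction _ _ (fun _ _ => Odd.mul) odd_one fun t _ => he t
  obtain ⟨w, w0, w1, hw⟩ := exists_root_series 𝔽0.m (𝔽0.m_cast_ne_zero θ) α hα
  have hp := prim_IN θ hO
  have key : ∀ (t : 𝔽0.Fˣ) (g : B),
      c'.Mono ((θ (𝔽0.θ t) * α : k) : OnePoint k) (∏ t, e t) (θ (xi (∏ t, e t))) g ↔
        c'.RMono HahnSeries.C (HahnSeries.C (θ (𝔽0.θ t)) * powL _ hO.pos (w : LaurentSeries k))
          (scL _ (hp.ne_zero hO.pos.ne')) g := fun t g => by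
    have h1 := c'.mono_iff_rmono hO.pos hp (PowerSeries.C (θ (𝔽0.θ t)) * w)
      (by simpa using w1) g
    rwa [map_mul, PowerSeries.constantCoeff_C, w0, map_mul, map_mul, HahnSeries.ofPowerSeries_C,
      powL_C] at h1
  obtain ⟨g, h1, h2, h3⟩ := h ((α ^ 𝔽0.m : k) : OnePoint k) _ hO
    (powL _ hO.pos (w : LaurentSeries k)) 1 1 _ (hp.ne_zero hO.pos.ne')
    ((map_ne_zero _).2 fun h0 => w1 (by
      rw [(map_eq_zero_iff _ HahnSeries.ofPowerSeries_injective).1 h0, map_zero]))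
    (by
      rw [← map_pow, ← map_pow, hw, map_add, map_add, HahnSeries.ofPowerSeries_C, powL_C,
        HahnSeries.ofPowerSeries_X, powL_single, mul_one]
      rfl)
    (fun t => ((key t _).1 (hE t _ hO (Finset.dvd_prod_of_mem _ (Finset.mem_univ t)))).chart_IN)
    (by rw [scL_powL_self _ _ _ _ hp.pow_eq_one]; simp) (one_pow 1) (pow_one _)
  rw [pow_one] at h3
  exact ⟨g, h1, h2, fun t => ⟨_, hO, (key t _).2 (h3 t)⟩⟩

theorem Cover.exists_induced_M {k B : Type} [Field k] [IsAlgClosed k] [Group B] (c' : Cover k B)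
    (θ : K0 →+* k) (𝔽0 : FF) (hT : ∀ a, ∃ b, c'.M θ a b) :
    ∃ c : Cover k (RegularWreathProduct B 𝔽0.Fˣ),
      (∀ b ∈ c'.ι.range, ∃ g ∈ c.ι.range, g.right = 1 ∧ g.left 1 = b) ∧
      (∃ g, c.M θ ((0 : k) : OnePoint k) g ∧ g.right = 𝔽0.u ∧
        ∀ t, c'.M θ ((0 : k) : OnePoint k) ((g ^ 𝔽0.m).left t)) ∧
      (∃ g, c.M θ ∞ g ∧ g.right = 𝔽0.u⁻¹ ∧ ∀ t, c'.M θ ∞ ((g ^ 𝔽0.m).left t)) ∧
      ∀ α : k, α ≠ 0 → ∃ g, c.M θ ((α ^ 𝔽0.m : k) : OnePoint k) g ∧ g.right = 1 ∧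
        ∀ t : 𝔽0.Fˣ, c'.M θ ((θ (𝔽0.θ t) * α : k) : OnePoint k) (g.left t) := by
  obtain ⟨c, h1, h2⟩ := exists_loc_IN c' θ 𝔽0
  refine ⟨c, h1, ?_, ?_, h2.unr hT⟩
  · have h3 := h2.ram (hT ((0 : k) : OnePoint k)).choose_spec 1 rfl (fun e => by simp [expand])
      fun e he ζ hζ s g hs h => Cover.RMono.mono_of_scaled he hζ 0 s hs (by simpa using h)
    rwa [zpow_one] at h3
  · have h3 := h2.ram (hT ∞).choose_spec (-1) rfl (fun e => by simp [expand])
      fun e he ζ hζ s g hs h => Cover.RMono.mono_infty_of_scaled he hζ s hs (by simpa using h)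
    rwa [zpow_neg_one] at h3

end Pool.Agent.Adm

end

section

/-! The Kummer extension with several Artin-Schreier extensions on top. -/

namespace Pool.Agent.Adm

theorem step_VE1 {F K Ω I : Type} [Field F] [Fintype F] [Field K] [Field Ω] [Algebra K Ω]
    (θ : F →+* K) (f : K) (h : I → K) (y y' : Ω) (w w' : I → Ω) (hy0 : y ≠ 0)
    (hy : y ^ (Fintype.card F - 1) = algebraMap K Ω f)
    (hw : ∀ i, w i ^ Fintype.card F - w i = algebraMap K Ω (h i) * y)
    (hy' : y' ^ (Fintype.card F - 1) = algebraMap K Ω f)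
    (hw' : ∀ i, w' i ^ Fintype.card F - w' i = algebraMap K Ω (h i) * y') :
    ∃ g : AffV F I, y' = algebraMap K Ω (θ g.u) * y ∧
      ∀ i, w' i = algebraMap K Ω (θ g.u) * w i + algebraMap K Ω (θ (g.b i)) := by
  obtain ⟨g0, g1, -⟩ := step_EX2 θ f 0 y 0 y' 0 hy0 hy
    (by rw [zero_pow Fintype.card_ne_zero, map_zero, zero_mul, sub_zero]) hy'
    (by rw [zero_pow Fintype.card_ne_zero, map_zero, zero_mul, sub_zero])
  choose g e1 e2 using fun i => step_EX2 θ f (h i) y (w i) y' (w' i) hy0 hy (hw i) hy' (hw' i)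
  refine ⟨⟨g0.u, fun i => (g i).b⟩, g1, fun i => ?_⟩
  have e3 := mul_right_cancel₀ hy0 (g1.symm.trans (e1 i))
  change w' i = algebraMap K Ω (θ g0.u) * w i + algebraMap K Ω (θ (g i).b)
  rw [e3]
  exact e2 i

theorem uniq_VE1 {F K Ω I : Type} [Field F] [Field K] [Field Ω] [Algebra K Ω]
    (θ : F →+* K) (y : Ω) (w : I → Ω) (hy0 : y ≠ 0) (g g' : AffV F I)
    (h1 : algebraMap K Ω (θ g.u) * y = algebraMap K Ω (θ g'.u) * y)
    (h2 : ∀ i, algebraMap K Ω (θ g.u) * w i + algebraMap K Ω (θ (g.b i)) =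
      algebraMap K Ω (θ g'.u) * w i + algebraMap K Ω (θ (g'.b i))) : g = g' := by
  have e1 := mul_right_cancel₀ hy0 h1
  refine AffV.ext (Units.ext (θ.injective ((algebraMap K Ω).injective e1))) (funext fun i => ?_)
  have h3 := h2 i
  rw [e1] at h3
  exact θ.injective ((algebraMap K Ω).injective (add_left_cancel h3))

theorem conjy_VE1 {K Ω Ω' : Type} [Field K] [Field Ω] [Algebra K Ω] [Field Ω'] [Algebra K Ω']
    (m : ℕ) (f : K) (y : Ω) (σ : Ω →ₐ[K] Ω') (hy : y ^ m = algebraMap K Ω f) :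
    σ y ^ m = algebraMap K Ω' f := by
  rw [← map_pow, hy, AlgHom.commutes]

theorem hom_VE1 {F K L I : Type} [Field F] [Fintype F] [Field K] [Field L] [Algebra K L]
    (θ : F →+* K) (f : K) (h : I → K) (y : L) (w : I → L) (hy0 : y ≠ 0)
    (hy : y ^ (Fintype.card F - 1) = algebraMap K L f)
    (hw : ∀ i, w i ^ Fintype.card F - w i = algebraMap K L (h i) * y) :
    ∃ ι : (L ≃ₐ[K] L) →* AffV F I, (∀ σ : L ≃ₐ[K] L, σ y = algebraMap K L (θ (ι σ).u) * y) ∧
      ∀ (σ : L ≃ₐ[K] L) (i : I),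
        σ (w i) = algebraMap K L (θ (ι σ).u) * w i + algebraMap K L (θ ((ι σ).b i)) := by
  have key : ∀ σ : L ≃ₐ[K] L, ∃ g : AffV F I, σ y = algebraMap K L (θ g.u) * y ∧
      ∀ i, σ (w i) = algebraMap K L (θ g.u) * w i + algebraMap K L (θ (g.b i)) := fun σ =>
    step_VE1 θ f h y (σ y) w (fun i => σ (w i)) hy0 hy hw (conjy_VE1 _ f y (σ : L →ₐ[K] L) hy)
      fun i => (conj_EX2 _ f (h i) y (w i) (σ : L →ₐ[K] L) hy (hw i)).2
  choose j hj1 hj2 using key
  refine ⟨MonoidHom.mk' j fun σ τ => uniq_VE1 θ y w hy0 _ _ ?_ fun i => ?_, hj1, hj2⟩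
  · rw [← hj1, AlgEquiv.mul_apply, hj1 τ, map_mul, AlgEquiv.commutes, hj1 σ]
    simp only [AffV.mul_u, Units.val_mul, map_mul]
    ring
  · rw [← hj2, AlgEquiv.mul_apply, hj2 τ, map_add, map_mul, AlgEquiv.commutes, AlgEquiv.commutes,
      hj2 σ]
    simp only [AffV.mul_u, AffV.mul_b, Units.val_mul, map_mul, map_add]
    ring

open IntermediateField Polynomial in
theorem gal_VE1 {F K Ω I : Type} [Field F] [Fintype F] [Finite I] [Field K] [Field Ω]
    [Algebra K Ω] [Normal K Ω] (θ : F →+* K) (f : K) (h : I → K) (hf : f ≠ 0) (y : Ω)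
    (w : I → Ω) (hy0 : y ≠ 0) (hy : y ^ (Fintype.card F - 1) = algebraMap K Ω f)
    (hw : ∀ i, w i ^ Fintype.card F - w i = algebraMap K Ω (h i) * y) :
    FiniteDimensional K (adjoin K (insert y (Set.range w))) ∧
      IsGalois K (adjoin K (insert y (Set.range w))) := by
  have sy : IsSeparable K y := by
    refine (separable_X_pow_sub_C f (card_sub_one_cast_ne_zero θ) hf).of_dvd
      (minpoly.dvd K y ?_)
    simp [hy]
  have sw : ∀ i, IsSeparable K (w i) := fun i => by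
    have := (isSeparable_adjoin_simple_iff_isSeparable K Ω).2 sy
    refine IsSeparable.of_algebra_isSeparable_of_isSeparable K (E := K⟮y⟯) ?_
    refine sepAS_EX2 (Fintype.card F) (card_cast_eq_zero ((algebraMap K K⟮y⟯).comp θ))
      (algebraMap K K⟮y⟯ (h i) * AdjoinSimple.gen K y) (w i) ?_
    rw [hw, map_mul, AdjoinSimple.algebraMap_gen, ← IsScalarTower.algebraMap_apply]
  have sep : ∀ x ∈ insert y (Set.range w), IsSeparable K x := by
    rintro x (rfl | ⟨i, rfl⟩)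
    exacts [sy, sw i]
  have hsep : Algebra.IsSeparable K (adjoin K (insert y (Set.range w))) :=
    (isSeparable_adjoin_iff_isSeparable K Ω).2 sep
  have hnor : Normal K (adjoin K (insert y (Set.range w))) := by
    rw [normal_iff_forall_map_le]
    intro σ
    obtain ⟨g, g1, g2⟩ := step_VE1 θ f h y (σ y) w (fun i => σ (w i)) hy0 hy hw
      (conjy_VE1 _ f y σ hy) fun i => (conj_EX2 _ f (h i) y (w i) σ hy (hw i)).2
    have my : y ∈ adjoin K (insert y (Set.range w)) := subset_adjoin _ _ (Set.mem_insert _ _)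
    have mw : ∀ i, w i ∈ adjoin K (insert y (Set.range w)) := fun i =>
      subset_adjoin _ _ (Set.mem_insert_of_mem _ ⟨i, rfl⟩)
    rw [adjoin_map, adjoin_le_iff]
    rintro _ ⟨x, (rfl | ⟨i, rfl⟩), rfl⟩
    · rw [g1]
      exact mul_mem (IntermediateField.algebraMap_mem _ _) my
    · have g3 : σ (w i) = _ := g2 i
      rw [g3]
      exact add_mem (mul_mem (IntermediateField.algebraMap_mem _ _) (mw i))
        (IntermediateField.algebraMap_mem _ _)
  have hfin : Finite (insert y (Set.range w) : Set Ω) :=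
    ((Set.finite_range w).insert y).to_subtype
  exact ⟨finiteDimensional_adjoin fun x hx => (sep x hx).isIntegral, IsGalois.mk⟩

theorem exists_affV_ext {k F I : Type} [Field k] [Field F] [Fintype F] [Finite I] (θ : F →+* k)
    (f : RatFunc k) (h : I → RatFunc k) (hf : f ≠ 0) :
    ∃ (c : Cover k (AffV F I)) (y : c.L) (w : I → c.L),
      y ^ (Fintype.card F - 1) = algebraMap (RatFunc k) c.L f ∧
      (∀ i, w i ^ Fintype.card F - w i = algebraMap (RatFunc k) c.L (h i) * y) ∧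
      IntermediateField.adjoin (RatFunc k) (insert y (Set.range w)) = ⊤ ∧
      (∀ σ : c.L ≃ₐ[RatFunc k] c.L,
        σ y = algebraMap (RatFunc k) c.L (RatFunc.C (θ (c.ι σ).u)) * y) ∧
      ∀ (σ : c.L ≃ₐ[RatFunc k] c.L) (i : I),
        σ (w i) = algebraMap (RatFunc k) c.L (RatFunc.C (θ (c.ι σ).u)) * w i +
          algebraMap (RatFunc k) c.L (RatFunc.C (θ ((c.ι σ).b i))) := by
  have hq : 1 < Fintype.card F := Fintype.one_lt_card
  let Ω := AlgebraicClosure (RatFunc k)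
  let θ' : F →+* RatFunc k := (RatFunc.C : k →+* RatFunc k).comp θ
  obtain ⟨y, hy⟩ := IsAlgClosed.exists_pow_nat_eq (algebraMap (RatFunc k) Ω f)
    (n := Fintype.card F - 1) (by omega)
  have hy0 : y ≠ 0 := by
    rintro rfl
    rw [zero_pow (by omega)] at hy
    exact hf ((map_eq_zero _).1 hy.symm)
  choose w hw using fun i => exists_AS_EX2 _ hq (algebraMap (RatFunc k) Ω (h i) * y)
  obtain ⟨hfin, hgal⟩ := gal_VE1 θ' f h hf y w hy0 hy hw
  let L := IntermediateField.adjoin (RatFunc k) (insert y (Set.range w) : Set Ω)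
  have my : y ∈ L := IntermediateField.subset_adjoin _ _ (Set.mem_insert _ _)
  have mw : ∀ i, w i ∈ L := fun i =>
    IntermediateField.subset_adjoin _ _ (Set.mem_insert_of_mem _ ⟨i, rfl⟩)
  have hy' : (⟨y, my⟩ : L) ^ (Fintype.card F - 1) = algebraMap (RatFunc k) L f :=
    Subtype.ext (by simpa using hy)
  have hw' : ∀ i, (⟨w i, mw i⟩ : L) ^ Fintype.card F - ⟨w i, mw i⟩ =
      algebraMap (RatFunc k) L (h i) * ⟨y, my⟩ := fun i => Subtype.ext (by simpa using hw i)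
  have hy0' : (⟨y, my⟩ : L) ≠ 0 := fun e => hy0 (congrArg Subtype.val e)
  obtain ⟨ι, h1, h2⟩ := hom_VE1 θ' f h _ (fun i => (⟨w i, mw i⟩ : L)) hy0' hy' hw'
  refine ⟨⟨L, ι⟩, ⟨y, my⟩, fun i => ⟨w i, mw i⟩, hy', hw', ?_, h1, h2⟩
  apply IntermediateField.lift_injective L
  rw [IntermediateField.lift_adjoin, IntermediateField.lift_top, Set.image_insert_eq,
    ← Set.range_comp]
  rfl

end Pool.Agent.Adm

end

section

/-! Tameness of the affine covering defined by solutions at infinity. -/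

namespace Pool.Agent.Adm

open scoped OnePoint
open Polynomial

section

variable {k F G : Type} [Field k] [Field F] [Fintype F] [Group G]

theorem local_VE2 [IsAlgClosed k] {I : Type} (θ : F →+* k) (c : Cover k G) (y : c.L)
    (w : I → c.L) (f : RatFunc k) (h : I → RatFunc k) (hf : f ≠ 0)
    (hy : y ^ (Fintype.card F - 1) = algebraMap (RatFunc k) c.L f)
    (hw : ∀ i, w i ^ Fintype.card F - w i = algebraMap (RatFunc k) c.L (h i) * y)
    (hS : IntermediateField.adjoin (RatFunc k) (insert y (Set.range w)) = ⊤)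
    (a : OnePoint k) (j0 : RatFunc k →+* LaurentSeries k)
    (hC : ∀ x, j0 (RatFunc.C x) = HahnSeries.C x)
    (hX : j0 RatFunc.X = expand a (Fintype.card F - 1)) (N : ℤ)
    (hN : (j0 f).order = ((Fintype.card F - 1 : ℕ) : ℤ) * N)
    (hW : ∀ y1 : LaurentSeries k, y1 ^ (Fintype.card F - 1) = j0 f → y1.order = N →
      ∀ i, ∃ W : LaurentSeries k, W ^ Fintype.card F - W = j0 (h i) * y1)
    (ζ : k) (hζ : IsPrimitiveRoot ζ (Fintype.card F - 1)) :
    ∃ g, c.Mono a (Fintype.card F - 1) ζ g := by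
  have hq : 1 < Fintype.card F := Fintype.one_lt_card
  have hm : 0 < Fintype.card F - 1 := by omega
  have hf0 : j0 f ≠ 0 := (map_ne_zero j0).2 hf
  have hord : ∀ y1 : LaurentSeries k, y1 ^ (Fintype.card F - 1) = j0 f → y1.order = N := by
    intro y1 h1
    have h2 := HahnSeries.order_pow y1 (Fintype.card F - 1)
    rw [h1, hN, nsmul_eq_mul] at h2
    exact (mul_left_cancel₀ (by exact_mod_cast hm.ne') h2).symm
  obtain ⟨y0, hy0⟩ := exists_pow_eq (Fintype.card F - 1) (card_sub_one_cast_ne_zero θ) (j0 f)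
    ⟨N, hN⟩
  have hy00 : y0 ≠ 0 := by
    rintro rfl
    rw [zero_pow hm.ne'] at hy0
    exact hf0 hy0.symm
  obtain ⟨j, hj⟩ := exists_extension j0 _ hS (fun J hJ => by
    set ι := algebraMap (LaurentSeries k) (AlgebraicClosure (LaurentSeries k)) with hι
    have hinj : Function.Injective ι := ι.injective
    have h1 : J y ^ (Fintype.card F - 1) = ι (j0 f) := by rw [← map_pow, hy, hJ]
    have h2 : ι y0 ≠ 0 := (map_ne_zero ι).2 hy00
    obtain ⟨u, hu⟩ := exists_unit_of_pow_card_sub_one (ι.comp (HahnSeries.C.comp θ))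
      (J y / ι y0) (by
        rw [div_pow, h1, ← map_pow, hy0]
        exact div_self ((map_ne_zero ι).2 hf0))
    have h3 : J y = ι (HahnSeries.C (θ u) * y0) := by
      rw [map_mul]
      exact ((eq_div_iff h2).1 hu).symm
    have h4 : (HahnSeries.C (θ u) * y0) ^ (Fintype.card F - 1) = j0 f := by
      apply hinj
      rw [map_pow, ← h3, h1]
    rintro s (rfl | ⟨i, rfl⟩)
    · exact ⟨_, h3.symm⟩
    · obtain ⟨W, hW1⟩ := hW _ h4 (hord _ h4) i
      obtain ⟨b, hb⟩ := exists_eq_of_pow_card (ι.comp (HahnSeries.C.comp θ)) (J (w i) - ι W) (by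
        rw [sub_pow_card_of_hom (ι.comp (HahnSeries.C.comp θ))]
        have h5 : J (w i) ^ Fintype.card F - J (w i) = ι W ^ Fintype.card F - ι W := by
          rw [← map_pow, ← map_sub, hw, map_mul, hJ, h3, ← map_mul, ← hW1, map_sub, map_pow]
        linear_combination h5)
      refine ⟨HahnSeries.C (θ b) + W, ?_⟩
      rw [map_add]
      exact (eq_sub_iff_add_eq.1 hb))
  obtain ⟨σ, h1, -⟩ := c.exists_mono_of_chart a _ hm ζ hζ j (fun x => by rw [hj, hC])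
    (by rw [hj, hX])
  exact ⟨c.ι σ, h1⟩

theorem sum_pow_VE2 {R I : Type} [CommRing R] (ψ : F →+* R) (s : Finset I) (x : I → R) :
    (∑ i ∈ s, x i) ^ Fintype.card F = ∑ i ∈ s, x i ^ Fintype.card F := by
  classical
  induction s using Finset.induction_on with
  | empty => simp
  | insert i s hi ih => rw [Finset.sum_insert hi, Finset.sum_insert hi, frob_EX1 ψ, ih]

theorem fix_VE2 (θ : F →+* k) (c : Cover k G) (y w : c.L) (f h : RatFunc k) (hf : f ≠ 0)
    (hy : y ^ (Fintype.card F - 1) = algebraMap (RatFunc k) c.L f)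
    (hw : w ^ Fintype.card F - w = algebraMap (RatFunc k) c.L h * y)
    (u : (c.L ≃ₐ[RatFunc k] c.L) → Fˣ) (β : F)
    (hσ : ∀ σ : c.L ≃ₐ[RatFunc k] c.L,
      σ y = algebraMap (RatFunc k) c.L (RatFunc.C (θ (u σ))) * y)
    (hσ' : ∀ σ : c.L ≃ₐ[RatFunc k] c.L,
      σ w = algebraMap (RatFunc k) c.L (RatFunc.C (θ (u σ))) * w +
        algebraMap (RatFunc k) c.L (RatFunc.C (θ (β * (1 - u σ))))) :
    ∃ r : RatFunc k, r ^ Fintype.card F * f - r = h := by
  have hq : 1 < Fintype.card F := Fintype.one_lt_card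
  have hm : 0 < Fintype.card F - 1 := by omega
  set τ : F →+* c.L := (algebraMap (RatFunc k) c.L).comp
    ((RatFunc.C : k →+* RatFunc k).comp θ) with hτ
  have hτ1 : ∀ x, algebraMap (RatFunc k) c.L (RatFunc.C (θ x)) = τ x := fun _ => rfl
  have hy0 : y ≠ 0 := by
    rintro rfl
    rw [zero_pow hm.ne'] at hy
    exact (map_ne_zero (algebraMap (RatFunc k) c.L)).2 hf hy.symm
  have h1 : ∀ σ : c.L ≃ₐ[RatFunc k] c.L, σ ((w - τ β) / y) = (w - τ β) / y := by
    intro σ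
    have h4 : τ (u σ) ≠ 0 := (map_ne_zero τ).2 (u σ).ne_zero
    have h5 : σ (τ β) = τ β := by rw [← hτ1, AlgEquiv.commutes]
    rw [map_div₀, map_sub, hσ, hσ', h5, hτ1, hτ1, div_eq_div_iff (mul_ne_zero h4 hy0) hy0,
      map_mul, map_sub, map_one]
    ring
  obtain ⟨r, hr⟩ := (IsGalois.mem_bot_iff_fixed (F := RatFunc k) _).2 h1
  have hr' : algebraMap (RatFunc k) c.L r * y = w - τ β := (eq_div_iff hy0).1 hr
  refine ⟨r, (algebraMap (RatFunc k) c.L).injective ?_⟩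
  rw [map_sub, map_mul, map_pow, ← hy]
  apply mul_right_cancel₀ hy0
  have h6 : y ^ Fintype.card F = y ^ (Fintype.card F - 1) * y := by
    rw [← pow_succ, Nat.sub_add_cancel hq.le]
  have h7 : τ β ^ Fintype.card F = τ β := by rw [← map_pow, FiniteField.pow_card]
  have h8 : (algebraMap (RatFunc k) c.L r * y) ^ Fintype.card F = w ^ Fintype.card F - τ β := by
    rw [hr', sub_pow_card_of_hom τ, h7]
  rw [mul_pow, h6] at h8
  linear_combination h8 - hr' + hw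

end

theorem exists_affV_of_sol {k I : Type} [Field k] [IsAlgClosed k] [Fintype I]
    {J : OnePoint k → RatFunc k →+* LaurentSeries k} (hJ : IsCharts J) (θ : K0 →+* k) (𝔽 : FF)
    (f : k[X]) (hf : f ≠ 0) (h : I → k[X]) (V : I → LaurentSeries k)
    (hV : ∀ i, V i ^ Fintype.card 𝔽.F * J ∞ (algebraMap k[X] (RatFunc k) f) - V i =
      J ∞ (algebraMap k[X] (RatFunc k) (h i))) :
    ∃ c : Cover k (AffV 𝔽.F I), (∀ a, ∃ g, c.M θ a g) ∧
      (∀ (a : k) g, c.M θ a g → g.u = 𝔽.u ^ f.rootMultiplicity a) ∧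
      (∀ g, c.M θ ∞ g → g.u * 𝔽.u ^ f.natDegree = 1) ∧
      ∀ (lam : I → 𝔽.F) (β : 𝔽.F),
        (∀ g ∈ c.ι.range, ∑ i, lam i * g.b i = β * (1 - g.u)) →
        ∃ r : RatFunc k, r ^ Fintype.card 𝔽.F * algebraMap k[X] (RatFunc k) f - r =
          algebraMap k[X] (RatFunc k) (∑ i, C (θ (𝔽.θ (lam i))) * h i) := by
  have hq : 1 < Fintype.card 𝔽.F := Fintype.one_lt_card
  have hm : 0 < Fintype.card 𝔽.F - 1 := by omega
  have hf' : algebraMap k[X] (RatFunc k) f ≠ 0 := by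
    rwa [Ne, IsFractionRing.to_map_eq_zero_iff]
  obtain ⟨c, y, w, hy, hw, hS, hσ, hσ'⟩ := exists_affV_ext (θ.comp 𝔽.θ) _
    (fun i => algebraMap k[X] (RatFunc k) (h i)) hf'
  have hC : ∀ a x, ((powL _ hm).comp (J a)) (RatFunc.C x) = HahnSeries.C x := fun a x => by
    rw [RingHom.comp_apply, (hJ a).1, powL_C]
  have hX : ∀ a, ((powL _ hm).comp (J a)) RatFunc.X = expand a (Fintype.card 𝔽.F - 1) :=
    fun a => by rw [RingHom.comp_apply, (hJ a).2, powL_expand, mul_one]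
  have ho : Odd (Fintype.card 𝔽.F - 1) := 𝔽.card_sub_one ▸ 𝔽.m_odd
  have hζ := (xi_prim ho).map_of_injective θ.injective
  obtain ⟨l1, l2⟩ := c.M_lab_of_gen θ 𝔽 AffV.lin y f hf hσ (𝔽.card_sub_one ▸ hy)
  refine ⟨c, fun a => ?_, l1, l2, fun lam β hβ => ?_⟩
  · suffices ∃ g, c.Mono a _ _ g from this.imp fun g hg => ⟨_, ho, hg⟩
    induction a using OnePoint.rec with
    | infty =>
      refine local_VE2 (θ.comp 𝔽.θ) c y w _ _ hf' hy hw hS ∞ _ (hC ∞) (hX ∞)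
        (-(f.natDegree : ℤ)) ?_ (fun y1 h1 _ i => ?_) _ hζ
      · rw [hom_algebraMap _ _ _ (hC ∞) (hX ∞), order_eval₂_expand_infty _ hm f hf, mul_neg]
      · refine ⟨powL _ hm (V i) * y1, ?_⟩
        have h6 : y1 ^ Fintype.card 𝔽.F = y1 ^ (Fintype.card 𝔽.F - 1) * y1 := by
          rw [← pow_succ, Nat.sub_add_cancel hq.le]
        rw [RingHom.comp_apply] at h1
        rw [RingHom.comp_apply, ← hV, map_sub, map_mul, map_pow, mul_pow, h6, h1]
        ring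
    | coe a =>
      refine local_VE2 (θ.comp 𝔽.θ) c y w _ _ hf' hy hw hS a _ (hC a) (hX a)
        (f.rootMultiplicity a : ℤ) ?_ (fun y1 _ h2 i => ?_) _ hζ
      · rw [hom_algebraMap _ _ _ (hC a) (hX a), order_eval₂_expand_coe a _ hm f hf]
      · apply exists_as_root _ hq (card_cast_eq_zero (θ.comp 𝔽.θ))
        refine Reg.mul (reg_of_order_EX ?_) (reg_of_order_EX (by rw [h2]; positivity))
        rcases eq_or_ne (h i) 0 with h0 | hh
        · simp [h0]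
        · rw [hom_algebraMap _ _ _ (hC a) (hX a), order_eval₂_expand_coe a _ hm _ hh]
          positivity
  · set τ : 𝔽.F →+* c.L := (algebraMap (RatFunc k) c.L).comp
      ((RatFunc.C : k →+* RatFunc k).comp (θ.comp 𝔽.θ)) with hτ
    have hτ1 : ∀ x, algebraMap (RatFunc k) c.L (RatFunc.C ((θ.comp 𝔽.θ) x)) = τ x := fun _ => rfl
    refine fix_VE2 (θ.comp 𝔽.θ) c y (∑ i, τ (lam i) * w i) _ _ hf' hy ?_ (fun σ => (c.ι σ).u) β
      hσ fun σ => ?_
    · rw [sum_pow_VE2 τ, ← Finset.sum_sub_distrib, map_sum, map_sum, Finset.sum_mul]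
      refine Finset.sum_congr rfl fun i _ => ?_
      rw [mul_pow, ← map_pow, FiniteField.pow_card, ← mul_sub, hw, map_mul, map_mul, mul_assoc,
        RatFunc.algebraMap_C]
      rfl
    · rw [← hβ _ ⟨σ, rfl⟩, hτ1, hτ1, map_sum, map_sum, Finset.mul_sum, ← Finset.sum_add_distrib]
      refine Finset.sum_congr rfl fun i _ => ?_
      rw [map_mul, map_mul, hσ', ← hτ1 (lam i), AlgEquiv.commutes, hτ1, hτ1, hτ1]
      ring

end Pool.Agent.Adm

end

section

/-! The theorem of Lang for the general linear group. -/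

namespace Pool.Agent.Adm

open Polynomial

section Aux

variable {k V : Type} [Field k] [AddCommGroup V] [Module k V]

theorem exists_rel_LG2 [Module.Finite k V] (s : ℕ → V) :
    ∃ n, ∃ a : ℕ → k, s n = ∑ i ∈ Finset.range n, a i • s i := by
  by_contra hne
  push Not at hne
  have key : ∀ n, ∀ g : ℕ → k, ∑ i ∈ Finset.range n, g i • s i = 0 → ∀ i < n, g i = 0 := by
    intro n
    induction n with
    | zero => intro g _ i hi; omega
    | succ n ih =>
      intro g hg i hi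
      rw [Finset.sum_range_succ] at hg
      have h0 : g n = 0 := by
        by_contra h
        refine hne n (fun j => -(g n)⁻¹ * g j) ?_
        have h1 : s n = (g n)⁻¹ • (g n • s n) := by rw [smul_smul, inv_mul_cancel₀ h, one_smul]
        rw [h1, eq_neg_of_add_eq_zero_right hg, smul_neg, Finset.smul_sum, ← Finset.sum_neg_distrib]
        refine Finset.sum_congr rfl fun j _ => ?_
        rw [smul_smul, neg_mul, neg_smul]
      rw [h0, zero_smul, add_zero] at hg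
      rcases Nat.lt_succ_iff_lt_or_eq.1 hi with h | rfl
      · exact ih g hg i h
      · exact h0
  refine Module.Finite.not_linearIndependent_of_infinite (R := k) s ?_
  rw [linearIndependent_iff'']
  intro t g hg h i
  obtain ⟨N, hN⟩ := Finset.exists_nat_subset_range t
  by_cases hi : i ∈ t
  · refine key N g ?_ i (Finset.mem_range.1 (hN hi))
    rw [← h]
    exact (Finset.sum_subset hN fun j _ hj => by rw [hg j hj, zero_smul]).symm
  · exact hg i hi

/-- The polynomials that describe the coordinates of a fixed vector. -/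
noncomputable def polLG2 (q : ℕ) (a : ℕ → k) : ℕ → k[X]
  | 0 => C (a 0) * X ^ q
  | i + 1 => polLG2 q a i ^ q + C (a (i + 1)) * X ^ q

theorem pol_deg_LG2 {q : ℕ} (hq : 1 < q) {a : ℕ → k} (h0 : a 0 ≠ 0) (i : ℕ) :
    q ≤ (polLG2 q a i).natDegree ∧ X ^ q ∣ polLG2 q a i := by
  induction i with
  | zero => exact ⟨by rw [polLG2, natDegree_C_mul_X_pow _ _ h0], Dvd.intro_left _ rfl⟩
  | succ i ih =>
    refine ⟨?_, dvd_add (dvd_pow ih.2 (by omega)) (Dvd.intro_left _ rfl)⟩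
    have h1 : q < (polLG2 q a i ^ q).natDegree := by
      rw [natDegree_pow]
      nlinarith [ih.1]
    rw [polLG2, natDegree_add_eq_left_of_natDegree_lt
      ((natDegree_C_mul_X_pow_le _ _).trans_lt h1)]
    exact h1.le

variable [IsAlgClosed k]

theorem pol_root_LG2 {q : ℕ} (hq : 1 < q) {a : ℕ → k} (h0 : a 0 ≠ 0) (i : ℕ) :
    ∃ x : k, x ≠ 0 ∧ (polLG2 q a i).eval x = x := by
  obtain ⟨h1, R, hR⟩ := pol_deg_LG2 hq h0 i
  have hR0 : R ≠ 0 := by
    rintro rfl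
    rw [hR, mul_zero, natDegree_zero] at h1
    omega
  obtain ⟨m, rfl⟩ : ∃ m, q = m + 2 := ⟨q - 2, by omega⟩
  have hd : (X ^ (m + 1) * R - C 1).degree ≠ 0 := by
    intro h
    have h2 := natDegree_eq_of_degree_eq_some (n := 0) h
    rw [natDegree_sub_C, natDegree_X_pow_mul _ hR0] at h2
    omega
  obtain ⟨x, hx⟩ := IsAlgClosed.exists_root _ hd
  have hx' : x ^ (m + 1) * R.eval x = 1 := by
    simpa [sub_eq_zero] using hx
  refine ⟨x, ?_, ?_⟩
  · rintro rfl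
    simp at hx'
  · rw [hR, eval_mul, eval_pow, eval_X]
    linear_combination x * hx'

theorem exists_fixed_LG2 [Module.Finite k V] {q : ℕ} (hq : 1 < q) {σ : k →+* k}
    (hσ : ∀ x, σ x = x ^ q) (φ : V →ₛₗ[σ] V) (hφ : Function.Injective φ) {v : V} (hv : v ≠ 0) :
    ∃ u, u ≠ 0 ∧ φ u = u := by
  classical
  let s : ℕ → V := fun i => φ^[i] v
  have hs : ∀ i, s (i + 1) = φ (s i) := fun i => Function.iterate_succ_apply' _ _ _
  have hex := exists_rel_LG2 (k := k) s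
  obtain ⟨a, ha⟩ := Nat.find_spec hex
  have hmin := fun m (hm : m < Nat.find hex) => Nat.find_min hex hm
  generalize Nat.find hex = n at ha hmin
  obtain _ | m := n
  · exact absurd (by simpa [s] using ha) hv
  have hm := hmin m (Nat.lt_succ_self m)
  rw [Finset.sum_range_succ'] at ha
  have h0 : a 0 ≠ 0 := by
    intro h
    choose b hb using fun x : k => IsAlgClosed.exists_pow_nat_eq x (n := q) (by omega)
    refine hm ⟨fun i => b (a (i + 1)), hφ ?_⟩
    rw [← hs, ha, h, zero_smul, add_zero, map_sum]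
    refine Finset.sum_congr rfl fun i _ => ?_
    rw [map_smulₛₗ, hσ, hb, hs]
  obtain ⟨x, hx0, hx⟩ := pol_root_LG2 hq h0 m
  refine ⟨∑ i ∈ Finset.range (m + 1), (polLG2 q a i).eval x • s i, ?_, ?_⟩
  · intro h
    rw [Finset.sum_range_succ, hx] at h
    refine hm ⟨fun j => -x⁻¹ * (polLG2 q a j).eval x, ?_⟩
    have h1 : s m = x⁻¹ • (x • s m) := by rw [smul_smul, inv_mul_cancel₀ hx0, one_smul]
    rw [h1, eq_neg_of_add_eq_zero_right h, smul_neg, Finset.smul_sum, ← Finset.sum_neg_distrib]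
    refine Finset.sum_congr rfl fun j _ => ?_
    beta_reduce
    rw [smul_smul, neg_mul, neg_smul]
  · rw [map_sum]
    simp only [map_smulₛₗ, hσ, ← hs]
    rw [Finset.sum_range_succ, hx, ha, Finset.sum_range_succ', smul_add, Finset.smul_sum,
      ← add_assoc, ← Finset.sum_add_distrib]
    congr 1
    · refine Finset.sum_congr rfl fun i _ => ?_
      rw [smul_smul, ← add_smul, polLG2, eval_add, eval_pow, eval_mul, eval_C, eval_pow, eval_X,
        mul_comm (x ^ q)]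
    · rw [smul_smul, polLG2, eval_mul, eval_C, eval_pow, eval_X, mul_comm (x ^ q)]

theorem span_fixed_LG2 [Module.Finite k V] {q : ℕ} (hq : 1 < q) {σ : k →+* k}
    (hσ : ∀ x, σ x = x ^ q) (φ : V →ₛₗ[σ] V) (hφ : Function.Injective φ) :
    ⊤ ≤ Submodule.span k {u | φ u = u} := by
  set U := Submodule.span k {u | φ u = u} with hU
  have key : ∀ u ∈ U, ∀ a : k, φ (a • u) ∈ U ∧ (∃ z ∈ U, a • u = φ z) ∧
      ∃ z ∈ U, a • u = z - φ z := by
    intro u hu
    induction hu using Submodule.span_induction with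
    | mem f hf =>
      intro a
      have hf' : φ f = f := hf
      have hfU : f ∈ U := Submodule.subset_span hf
      refine ⟨by rw [map_smulₛₗ, hf']; exact U.smul_mem _ hfU, ?_, ?_⟩
      · obtain ⟨b, hb⟩ := IsAlgClosed.exists_pow_nat_eq a (n := q) (by omega)
        exact ⟨b • f, U.smul_mem _ hfU, by rw [map_smulₛₗ, hf', hσ, hb]⟩
      · have hd : (X ^ q - X + C a : k[X]).degree ≠ 0 := by
          intro h
          have h2 := natDegree_eq_of_degree_eq_some (n := 0) h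
          rw [natDegree_add_C, natDegree_sub_eq_left_of_natDegree_lt (by simpa using hq),
            natDegree_X_pow] at h2
          omega
        obtain ⟨y, hy⟩ := IsAlgClosed.exists_root _ hd
        have hy' : y ^ q - y + a = 0 := by simpa using hy
        refine ⟨y • f, U.smul_mem _ hfU, ?_⟩
        rw [map_smulₛₗ, hf', hσ, ← sub_smul]
        congr 1
        linear_combination hy'
    | zero => exact fun a => ⟨by simp, ⟨0, U.zero_mem, by simp⟩, ⟨0, U.zero_mem, by simp⟩⟩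
    | add x y _ _ hx hy =>
      intro a
      obtain ⟨h1, ⟨z, hz, h2⟩, ⟨z', hz', h3⟩⟩ := hx a
      obtain ⟨g1, ⟨t, ht, g2⟩, ⟨t', ht', g3⟩⟩ := hy a
      refine ⟨by rw [smul_add, map_add]; exact U.add_mem h1 g1,
        ⟨z + t, U.add_mem hz ht, by rw [smul_add, map_add, h2, g2]⟩,
        ⟨z' + t', U.add_mem hz' ht', by rw [smul_add, map_add, h3, g3]; abel⟩⟩
    | smul b x _ hx =>
      intro a
      rw [smul_smul]
      exact hx (a * b)
  intro v _
  by_contra hv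
  have hle : U ≤ U.comap φ := fun u hu => by simpa using (key u hu 1).1
  have hinj : Function.Injective (U.mapQ U φ hle) := by
    rw [injective_iff_map_eq_zero]
    intro x hx
    obtain ⟨x, rfl⟩ := U.mkQ_surjective x
    rw [Submodule.mkQ_apply, Submodule.mapQ_apply, Submodule.Quotient.mk_eq_zero] at hx
    obtain ⟨z, hz, h⟩ := (key _ hx 1).2.1
    rw [one_smul] at h
    rw [Submodule.mkQ_apply, Submodule.Quotient.mk_eq_zero, hφ h]
    exact hz
  obtain ⟨u, hu0, hu⟩ := exists_fixed_LG2 hq hσ (U.mapQ U φ hle) hinj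
    (v := Submodule.Quotient.mk v) (by rwa [Ne, Submodule.Quotient.mk_eq_zero])
  obtain ⟨u, rfl⟩ := U.mkQ_surjective u
  rw [Submodule.mkQ_apply, Submodule.mapQ_apply, Submodule.Quotient.eq] at hu
  obtain ⟨z, hz, h⟩ := (key _ hu 1).2.2
  rw [one_smul] at h
  have h1 : u + z ∈ U := Submodule.subset_span (by
    change φ (u + z) = u + z
    rw [map_add, sub_eq_sub_iff_add_eq_add.1 h, add_comm])
  exact hu0 (by
    rw [Submodule.mkQ_apply, Submodule.Quotient.mk_eq_zero]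
    exact (U.add_mem_iff_left hz).1 h1)

end Aux

theorem exists_sol_basis {k F : Type} [Field k] [IsAlgClosed k] [Field F] [Fintype F] {w : ℕ}
    (θ : F →+* k) (A : Matrix (Fin w) (Fin w) k) (hA : A.det ≠ 0) :
    ∃ c : Fin w → Fin w → k, (∀ i, c i ∈ Sol (Fintype.card F) A) ∧ LinearIndependent k c := by
  let _ := θ.toAlgebra
  let σ : k →+* k := (FiniteField.frobeniusAlgHom F k : k →ₐ[F] k)
  have hσ : ∀ x, σ x = x ^ Fintype.card F := fun _ => rfl
  let φ : (Fin w → k) →ₛₗ[σ] (Fin w → k) :=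
    { toFun := fun c j => ∑ i, A i j * σ (c i)
      map_add' := fun c d => by
        funext j
        simp only [Pi.add_apply, map_add, mul_add, Finset.sum_add_distrib]
      map_smul' := fun a c => by
        funext j
        simp only [Pi.smul_apply, smul_eq_mul, map_mul, Finset.mul_sum]
        exact Finset.sum_congr rfl fun i _ => by ring }
  have hφ : ∀ c j, φ c j = ∑ i, A i j * σ (c i) := fun _ _ => rfl
  have hinj : Function.Injective φ := by
    rw [injective_iff_map_eq_zero]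
    intro c hc
    have h1 : Matrix.vecMul (fun i => σ (c i)) A = 0 := by
      funext j
      rw [← congrFun hc j, hφ, Matrix.vecMul, dotProduct]
      exact Finset.sum_congr rfl fun i _ => mul_comm (σ (c i)) (A i j)
    have h2 := Matrix.eq_zero_of_vecMul_eq_zero hA h1
    funext i
    exact (map_eq_zero σ).1 (congrFun h2 i)
  have hsp := span_fixed_LG2 (Fintype.one_lt_card (α := F)) hσ φ hinj
  let b := Module.Basis.ofSpan hsp
  let e := (Pi.basisFun k (Fin w)).indexEquiv b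
  refine ⟨fun i => b (e i), fun i j => ?_, b.linearIndependent.comp e e.injective⟩
  have h : φ (b (e i)) = b (e i) := Module.Basis.ofSpan_subset hsp ⟨e i, rfl⟩
  exact (congrFun h j).symm

end Pool.Agent.Adm

end

section

/-! Compositum of a finite family of coverings. -/

namespace Pool.Agent.Adm

open scoped OnePoint

/-- The compositum of a finite family of finite Galois extensions. -/
theorem exists_compositum_FP (F J : Type) [Field F] [Finite J] (L : J → Type) [∀ j, Field (L j)]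
    [∀ j, Algebra F (L j)] [∀ j, FiniteDimensional F (L j)] [∀ j, IsGalois F (L j)] :
    ∃ (M : Type) (_ : Field M) (_ : Algebra F M) (_ : FiniteDimensional F M) (_ : IsGalois F M)
      (f : ∀ j, L j →ₐ[F] M), IntermediateField.adjoin F (⋃ j, Set.range (f j)) = ⊤ := by
  let Ω := AlgebraicClosure F
  let g : ∀ j, L j →ₐ[F] Ω := fun j => IsAlgClosed.lift
  let e : ∀ j, L j ≃ₐ[F] (g j).fieldRange := fun j => AlgEquiv.ofInjectiveField (g j)
  have : ∀ j, FiniteDimensional F (g j).fieldRange := fun j =>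
    (e j).toLinearEquiv.finiteDimensional
  have : ∀ j, IsGalois F (g j).fieldRange := fun j => IsGalois.of_algEquiv (e j)
  let M : IntermediateField F Ω := ⨆ j, (g j).fieldRange
  have hG : IsGalois F M := ⟨⟩
  let f : ∀ j, L j →ₐ[F] M := fun j =>
    (IntermediateField.inclusion (le_iSup (fun j => (g j).fieldRange) j)).comp (e j).toAlgHom
  refine ⟨M, inferInstance, inferInstance, inferInstance, hG, f, ?_⟩
  have h3 : M ≤ (IntermediateField.adjoin F (⋃ j, Set.range (f j))).map M.val := by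
    refine iSup_le fun j => ?_
    rintro _ ⟨x, rfl⟩
    exact ⟨f j x, IntermediateField.subset_adjoin F _ (Set.mem_iUnion.2 ⟨j, x, rfl⟩), rfl⟩
  refine top_le_iff.1 fun x _ => ?_
  obtain ⟨y, hy, e⟩ := h3 x.2
  rwa [← show y = x from Subtype.ext e]

/-- If every member of the family embeds over a given embedding of the base, so does the
compositum. -/
theorem exists_chart_FP {F J M W : Type} [Field F] [Field M] [Field W] [Algebra F M]
    [FiniteDimensional F M] {L : J → Type} [∀ j, Field (L j)] [∀ j, Algebra F (L j)]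
    [∀ j, Normal F (L j)] (f : ∀ j, L j →ₐ[F] M)
    (hS : IntermediateField.adjoin F (⋃ j, Set.range (f j)) = ⊤) (j0 : F →+* W)
    (h : ∀ j, ∃ φ : L j →+* W, ∀ x, φ (algebraMap F (L j) x) = j0 x) :
    ∃ φ : M →+* W, ∀ x, φ (algebraMap F M x) = j0 x := by
  refine exists_extension j0 _ hS fun Ψ hΨ s hs => ?_
  obtain ⟨j, x, rfl⟩ := Set.mem_iUnion.1 hs
  obtain ⟨φ, hφ⟩ := h j
  obtain ⟨σ, hσ⟩ := exists_aut_of_normal (F := F)
    ((algebraMap W (AlgebraicClosure W)).comp φ) (Ψ.comp (f j).toRingHom) (fun y => by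
      change Ψ (f j (algebraMap F (L j) y)) = algebraMap W _ (φ (algebraMap F (L j) y))
      rw [(f j).commutes, hΨ, hφ])
  exact ⟨φ (σ x), hσ x⟩

theorem exists_piCover {k J : Type} [Field k] [Finite J] {B : J → Type} [∀ j, Group (B j)]
    (c : ∀ j, Cover k (B j)) :
    ∃ c' : Cover k (∀ j, B j),
      (∀ j, c'.ι.range.map (Pi.evalMonoidHom B j) = (c j).ι.range) ∧
      (∀ a e ζ g, c'.Mono a e ζ g → ∀ j, (c j).Mono a e ζ (g j)) ∧
      ∀ a e ζ, 0 < e → IsPrimitiveRoot ζ e → (∀ j, ∃ g, (c j).Mono a e ζ g) →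
        ∃ g, c'.Mono a e ζ g := by
  obtain ⟨M, _, _, _, _, f, hS⟩ := exists_compositum_FP (RatFunc k) J fun j => (c j).L
  choose r hr hf using fun j => exists_restrict_PR (f j)
  let c' : Cover k (∀ j, B j) := { L := M, ι := MonoidHom.pi fun j => (c j).ι.comp (r j) }
  refine ⟨c', fun j => ?_, ?_, ?_⟩
  · ext g
    constructor
    · rintro ⟨_, ⟨σ, rfl⟩, rfl⟩
      exact ⟨r j σ, rfl⟩
    · rintro ⟨σ, rfl⟩
      obtain ⟨σ, rfl⟩ := hr j σ
      exact ⟨_, ⟨σ, rfl⟩, rfl⟩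
  · rintro a e ζ g ⟨he, hζ, φ, h1, h2, σ, rfl, h4⟩ j
    refine ⟨he, hζ, φ.comp (f j).toRingHom, fun x => ?_, ?_, r j σ, rfl, fun x n => ?_⟩
    · change φ (f j (algebraMap (RatFunc k) (c j).L _)) = _
      rw [(f j).commutes]
      exact h1 x
    · change φ (f j (algebraMap (RatFunc k) (c j).L _)) = _
      rw [(f j).commutes]
      exact h2
    · change (φ (f j (r j σ x))).coeff n = ζ ^ n * (φ (f j x)).coeff n
      rw [hf]
      exact h4 _ n
  · intro a e ζ he hζ h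
    obtain ⟨j0, a0, b0⟩ := exists_chart a e he
    obtain ⟨φ, hφ⟩ := exists_chart_FP f hS j0 fun j => by
      obtain ⟨g, -, -, φ, h1, h2, -⟩ := h j
      refine ⟨φ, fun x => ?_⟩
      exact DFunLike.congr_fun (ratFunc_hom_ext (φ.comp (algebraMap (RatFunc k) (c j).L)) j0
        (fun y => (h1 y).trans (a0 y).symm) (h2.trans b0.symm)) x
    obtain ⟨σ, m, -⟩ := c'.exists_mono_of_chart a e he ζ hζ φ
      (fun x => (hφ _).trans (a0 x)) ((hφ _).trans b0)
    exact ⟨_, m⟩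

theorem exists_piCover_M {k J : Type} [Field k] [Finite J] (θ : K0 →+* k) {B : J → Type}
    [∀ j, Group (B j)] (c : ∀ j, Cover k (B j)) :
    ∃ c' : Cover k (∀ j, B j),
      (∀ j, c'.ι.range.map (Pi.evalMonoidHom B j) = (c j).ι.range) ∧
      (∀ a g, c'.M θ a g → ∀ j, (c j).M θ a (g j)) ∧
      ∀ a, (∀ j, ∃ g, (c j).M θ a g) → ∃ g, c'.M θ a g := by
  obtain ⟨c', h1, h2, h3⟩ := exists_piCover c
  have := Fintype.ofFinite J
  refine ⟨c', h1, fun a g ⟨e, he, hm⟩ j => ⟨e, he, h2 _ _ _ _ hm j⟩, fun a h => ?_⟩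
  choose g hg using h
  choose e he hE using fun j => (hg j).exists_mono
  have ho : Odd (∏ j, e j) := Finset.prod_induction e Odd (fun _ _ => Odd.mul) odd_one
    fun j _ => he j
  obtain ⟨g', hg'⟩ := h3 a (∏ j, e j) (θ (xi (∏ j, e j))) ho.pos
    ((xi_prim ho).map_of_injective θ.injective)
    fun j => ⟨g j, hE j _ ho (Finset.dvd_prod_of_mem e (Finset.mem_univ j))⟩
  exact ⟨g', _, ho, hg'⟩

theorem VP.pi {k J σ : Type} [Field k] [Finite J] {θ : K0 →+* k} {B : J → Type}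
    [∀ j, Group (B j)] {p : σ → OnePoint k} {d : ∀ j, σ → B j} {R : ∀ j, Subgroup (B j)}
    (h : ∀ j, VP θ p (d j) (R j)) :
    ∃ (d' : σ → ∀ j, B j) (R' : Subgroup (∀ j, B j)), VP θ p d' R' ∧
      (∀ j, R'.map (Pi.evalMonoidHom B j) = R j) ∧ ∀ s j, IsConj (d' s j) (d j s) := by
  choose c hR h0 hp using h
  obtain ⟨c', h1, h2, h3⟩ := exists_piCover_M θ c
  choose d' hd' using fun s => h3 (p s) fun j => ⟨_, hp j s⟩
  refine ⟨d', c'.ι.range, ⟨c', rfl, fun a ha => ?_, hd'⟩, fun j => (h1 j).trans (hR j),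
    fun s j => ?_⟩
  · obtain ⟨g, hg⟩ := h3 a fun j => ⟨_, h0 j a ha⟩
    have e : g = 1 := funext fun j => by
      obtain ⟨γ, -, hγ⟩ := (h0 j a ha).unique (h2 a g hg j)
      rw [hγ, mul_one, inv_mul_cancel]
      rfl
    rwa [e] at hg
  · obtain ⟨γ, -, hγ⟩ := (h2 _ _ (hd' s) j).unique (hp j s)
    exact isConj_iff.2 ⟨γ⁻¹, by rw [hγ, inv_inv]⟩

end Pool.Agent.Adm

end

section

/-! Existence of tame affine coverings with independent cocycles. -/

namespace Pool.Agent.Adm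

open scoped OnePoint
open Polynomial

variable {k I : Type} [Field k] [IsAlgClosed k] [Fintype I]

theorem exists_data_VE {J : OnePoint k → RatFunc k →+* LaurentSeries k} (hJ : IsCharts J)
    (θ : K0 →+* k) (𝔽 : FF) (f : k[X]) (I0 : Finset I) (hw : HWok 𝔽 f I0.card) :
    ∃ (h : I → k[X]) (V : I → LaurentSeries k),
      (∀ i, h i = 0 ∨ (h i).natDegree < f.natDegree) ∧ (∀ i, ∀ n ≤ 0, (V i).coeff n = 0) ∧
      (∀ i, V i ^ Fintype.card 𝔽.F * J ∞ (algebraMap k[X] (RatFunc k) f) - V i =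
        J ∞ (algebraMap k[X] (RatFunc k) (h i))) ∧
      ∀ lam : I → k, (∀ j : Fin I0.card, ∑ i, lam i * (V i).coeff ((j.1 + 1 : ℕ) : ℤ) = 0) →
        ∀ i ∈ I0, lam i = 0 := by
  classical
  have hq : Fintype.card 𝔽.F ≠ 0 := Fintype.card_ne_zero
  rcases hw with hw | ⟨-, h2, h3⟩
  · refine ⟨fun _ => 0, fun _ => 0, fun _ => Or.inl rfl, fun _ _ _ => by simp, fun _ => ?_, ?_⟩
    · simp [zero_pow hq]
    · intro lam _ i hi
      rw [Finset.card_eq_zero.1 hw] at hi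
      exact absurd hi (Finset.notMem_empty i)
  · rw [← 𝔽.card] at h3
    have hD : f.natDegree ≤ (I0.card + 1) * (Fintype.card 𝔽.F - 1) := by
      rw [𝔽.card]; exact h2
    obtain ⟨c, hc, hli⟩ := exists_sol_basis (θ.comp 𝔽.θ) _ h3
    choose h V hh hV hcV hE using
      fun l : Fin I0.card => hJ.exists_of_sol (θ.comp 𝔽.θ) f I0.card hD (c l) (hc l)
    let e : I0 ≃ Fin I0.card := I0.equivFin
    refine ⟨fun i => if hi : i ∈ I0 then h (e ⟨i, hi⟩) else 0,
      fun i => if hi : i ∈ I0 then V (e ⟨i, hi⟩) else 0, fun i => ?_, fun i => ?_, fun i => ?_, ?_⟩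
    · by_cases hi : i ∈ I0
      · simp only [dif_pos hi]; exact hh _
      · exact Or.inl (dif_neg hi)
    · by_cases hi : i ∈ I0
      · simp only [dif_pos hi]; exact hV _
      · simp only [dif_neg hi]; intro n _; simp
    · by_cases hi : i ∈ I0
      · simp only [dif_pos hi]; exact hE _
      · simp only [dif_neg hi]; simp [zero_pow hq]
    · intro lam hl i hi
      have key : ∑ l : Fin I0.card, lam (e.symm l) • c l = 0 := by
        funext j
        have h1 := hl j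
        rw [← Finset.sum_subset (Finset.subset_univ I0) (fun i _ hi => by
          simp only [dif_neg hi]; simp), ← Finset.sum_coe_sort I0, ← e.symm.sum_comp] at h1
        rw [Finset.sum_apply, Pi.zero_apply, ← h1]
        refine Finset.sum_congr rfl fun l _ => ?_
        simp only [dif_pos (e.symm l).2, Pi.smul_apply, smul_eq_mul, Subtype.coe_eta, Equiv.apply_symm_apply, hcV]
      have := Fintype.linearIndependent_iff.1 hli (fun l => lam (e.symm l)) key (e ⟨i, hi⟩)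
      simpa using this

theorem exists_affV (θ : K0 →+* k) (𝔽 : FF) (f : k[X]) (hf : f ≠ 0) (I0 : Finset I)
    (hw : HWok 𝔽 f I0.card) (hm : ∀ a, f.rootMultiplicity a < 𝔽.m) :
    ∃ c : Cover k (AffV 𝔽.F I), (∀ a, ∃ g, c.M θ a g) ∧
      (∀ (a : k) g, c.M θ a g → g.u = 𝔽.u ^ f.rootMultiplicity a) ∧
      (∀ g, c.M θ ∞ g → g.u * 𝔽.u ^ f.natDegree = 1) ∧ IndOn (c.ι.range : Set (AffV 𝔽.F I)) I0 := by
  obtain ⟨J, hJ⟩ := exists_isCharts k
  obtain ⟨h, V, hh, hV, hE, hind⟩ := exists_data_VE hJ θ 𝔽 f I0 hw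
  obtain ⟨c, h1, h2, h3, h4⟩ := exists_affV_of_sol hJ θ 𝔽 f hf h V hE
  refine ⟨c, h1, h2, h3, fun lam β hb i hi => ?_⟩
  obtain ⟨r, hr⟩ := h4 lam β hb
  have hq : 1 < Fintype.card 𝔽.F := Fintype.one_lt_card
  have hD : I0.card * (Fintype.card 𝔽.F - 1) < f.natDegree := by
    rcases hw with hw | ⟨h5, -, -⟩
    · rw [Finset.card_eq_zero.1 hw] at hi
      exact absurd hi (Finset.notMem_empty i)
    · rw [𝔽.card]; exact h5
  have hz : ∑ i, C (θ (𝔽.θ (lam i))) * h i = 0 := by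
    by_contra hne
    refine no_rational_sol (Fintype.card 𝔽.F) hq f _ hf hne ?_ ?_ r hr
    · refine natDegree_lt_natDegree hne ((degree_sum_le _ _).trans_lt ?_)
      refine (Finset.sup_lt_iff (bot_lt_iff_ne_bot.2 (degree_ne_bot.2 hf))).2 fun i _ => ?_
      rw [← smul_eq_C_mul]
      refine (degree_smul_le _ _).trans_lt ?_
      rcases hh i with h0 | h0
      · rw [h0, degree_zero]; exact bot_lt_iff_ne_bot.2 (degree_ne_bot.2 hf)
      · exact degree_lt_degree h0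
    · intro a
      rw [𝔽.card]; exact hm a
  have : CharP k 2 := charP_of_injective_ringHom θ.injective 2
  have : CharP (LaurentSeries k) 2 :=
    charP_of_injective_ringHom (HahnSeries.C (Γ := ℤ) (R := k)).injective 2
  have hpow : ∀ x : 𝔽.F, (HahnSeries.C (θ (𝔽.θ x)) : LaurentSeries k) ^ Fintype.card 𝔽.F =
      HahnSeries.C (θ (𝔽.θ x)) := by
    intro x
    rw [← map_pow, ← map_pow, ← map_pow, FiniteField.pow_card]
  have hsum : (∑ i, (HahnSeries.C (θ (𝔽.θ (lam i))) : LaurentSeries k) * V i) ^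
      Fintype.card 𝔽.F = ∑ i, HahnSeries.C (θ (𝔽.θ (lam i))) * V i ^ Fintype.card 𝔽.F := by
    conv_lhs => rw [𝔽.card, sum_pow_char_pow, ← 𝔽.card]
    exact Finset.sum_congr rfl fun i _ => by rw [mul_pow, hpow]
  have hhom : (∑ i, (HahnSeries.C (θ (𝔽.θ (lam i))) : LaurentSeries k) * V i) ^
      Fintype.card 𝔽.F * J ∞ (algebraMap k[X] (RatFunc k) f) -
      ∑ i, (HahnSeries.C (θ (𝔽.θ (lam i))) : LaurentSeries k) * V i = 0 := by
    have h0 := congrArg (fun P : k[X] => J ∞ (algebraMap k[X] (RatFunc k) P)) hz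
    simp only [map_sum, map_mul, map_zero, RatFunc.algebraMap_C, (hJ ∞).1] at h0
    rw [hsum, Finset.sum_mul, ← Finset.sum_sub_distrib, ← h0]
    exact Finset.sum_congr rfl fun i _ => by rw [← hE i]; ring
  have hco : ∀ n : ℤ, (∑ i, (HahnSeries.C (θ (𝔽.θ (lam i))) : LaurentSeries k) * V i).coeff n =
      ∑ i, θ (𝔽.θ (lam i)) * (V i).coeff n := by
    intro n
    rw [HahnSeries.coeff_sum]
    exact Finset.sum_congr rfl fun i _ => by
      rw [HahnSeries.C_mul_eq_smul, HahnSeries.coeff_smul, smul_eq_mul]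
  have h5 := hind (fun i => θ (𝔽.θ (lam i))) (fun j => by
    rw [← hco]
    refine hJ.coeff_eq_zero (θ.comp 𝔽.θ) f hf I0.card hD _ (fun n hn => ?_) hhom j
    rw [hco]
    exact Finset.sum_eq_zero fun i _ => by rw [hV i n hn, mul_zero]) i hi
  simpa using h5

theorem exists_affV_family {J : Type} [Finite J] (θ : K0 →+* k) (𝔽 : FF) (f : J → k[X])
    (hf : ∀ j, f j ≠ 0) (I0 : J → Finset I) (hw : ∀ j, HWok 𝔽 (f j) (I0 j).card)
    (hm : ∀ j a, (f j).rootMultiplicity a < 𝔽.m) :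
    ∃ c : Cover k (J → AffV 𝔽.F I), (∀ a, ∃ g, c.M θ a g) ∧
      (∀ (a : k) g, c.M θ a g → ∀ j, (g j).u = 𝔽.u ^ (f j).rootMultiplicity a) ∧
      (∀ g, c.M θ ∞ g → ∀ j, (g j).u * 𝔽.u ^ (f j).natDegree = 1) ∧
      ∀ j, IndOn {b | ∃ g ∈ c.ι.range, g j = b} (I0 j) := by
  choose c h1 h2 h3 h4 using fun j => exists_affV θ 𝔽 (f j) (hf j) (I0 j) (hw j) (hm j)
  obtain ⟨c', g1, g2, g3⟩ := exists_piCover_M θ (B := fun _ : J => AffV 𝔽.F I) c
  refine ⟨c', fun a => g3 a fun j => h1 j a, fun a g hg j => h2 j a _ (g2 _ g hg j),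
    fun g hg j => h3 j _ (g2 _ g hg j), fun j => ?_⟩
  have e : {b | ∃ g ∈ c'.ι.range, g j = b} = ((c j).ι.range : Set (AffV 𝔽.F I)) := by
    rw [← g1 j]
    ext b
    simp only [Set.mem_ofPred_eq, SetLike.mem_coe, Subgroup.mem_map, Pi.evalMonoidHom_apply]
  rw [e]
  exact h4 j

end Pool.Agent.Adm

end

section

/-! Coverings of a component on the path. -/

namespace Pool.Agent.Adm

open scoped OnePoint

theorem wr_eq_one_EP {B A : Type} [Group B] [Group A] {g : RegularWreathProduct B A}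
    (h : g.right = 1) (hl : ∀ t, g.left t = 1) : g = 1 :=
  RegularWreathProduct.ext (funext hl) h

theorem Pt.exists_vertex_path {n : ℕ} {σ : Shape n} (z : Pt σ) (𝔽0 𝔽 : FF) {i0 i2 : Fin n}
    {J I : Type} [Finite J] [Fintype I] (x : J → YI (Fin n) 𝔽0.Fˣ i0 i2 → ZMod 𝔽.m)
    (hx : ∀ j, ∑ y, x j y = 0) {v : Fin σ.r} (hv : σ.OnPath i0 i2 v) {lam : z.k}
    {α : σ.Slot → z.k} (hα : z.KumAt 𝔽0 i0 i2 v lam α) (I0 : J → Finset I)
    (hw : ∀ j, HWok 𝔽 (z.fP 𝔽0 i0 i2 α (fun s t => (σ.lab i0 i2 (x j) s t).val) v) (I0 j).card) :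
    ∃ (g : σ.Slot → WG 𝔽0 𝔽 J I) (R : Subgroup (WG 𝔽0 𝔽 J I)), z.VCat v g R ∧
      (∀ s, σ.base s = v → σ.WL i0 i2 𝔽0 𝔽 x s (g s)) ∧ ∀ j, RI R j 1 (I0 j) := by
  have := 𝔽.charP
  let y : J → σ.Slot → 𝔽0.Fˣ → ℕ := fun j s t => (σ.lab i0 i2 (x j) s t).val
  have hM := fun j => Pt.fP_mult z 𝔽0 (y j) hα hv
  have hm : ∀ j a, (z.fP 𝔽0 i0 i2 α (y j) v).rootMultiplicity a < 𝔽.m := by
    intro j a
    by_cases h0 : a = 0
    · rw [h0, (hM j).1]
      exact ZMod.val_lt _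
    by_cases h : ∃ (s : σ.Slot) (t : 𝔽0.Fˣ), σ.base s = v ∧ s ≠ σ.dir v i0 ∧ s ≠ σ.dir v i2 ∧
        a = z.θ (𝔽0.θ t) * α s
    · obtain ⟨s, t, hs, s0, s2, rfl⟩ := h
      rw [(hM j).2.1 s t hs s0 s2]
      exact ZMod.val_lt _
    · rw [(hM j).2.2 a h0 fun s t hs s0 s2 e => h ⟨s, t, hs, s0, s2, e⟩]
      exact 𝔽.m_pos
  obtain ⟨c', h1, h2, h3, h4⟩ := exists_affV_family (I := I) z.θ 𝔽
    (fun j => z.fP 𝔽0 i0 i2 α (y j) v) (fun j => (z.fP_monic 𝔽0 (y j) i0 i2 α v).ne_zero)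
    I0 hw hm
  obtain ⟨c, g1, ⟨g0, g00, g01, g02⟩, ⟨g2, g20, g21, g22⟩, g3⟩ := c'.exists_induced_M z.θ 𝔽0 h1
  have b0 := σ.base_dir v i0
  have b2 := σ.base_dir v i2
  have hne : z.x (σ.dir v i0) ≠ z.x (σ.dir v i2) := fun e => hv (z.inj _ _ (b0.trans b2.symm) e)
  obtain ⟨μ, hμ, m2, mi, ma⟩ := exists_mob_ratio _ _ lam hne hα.1
  obtain ⟨c'', k1, k2⟩ := hμ.2 _ c
  have k3 : ∀ a g, c.M z.θ (μ a) g → c''.M z.θ a g := fun a g ⟨e, he, hm⟩ =>
    ⟨e, he, by simpa using k2 _ _ _ _ hm⟩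
  have m0 : μ (z.x (σ.dir v i0)) = ((0 : z.k) : OnePoint z.k) := by
    rw [ma _ hne, sub_self, mul_zero, zero_div]
  have ms : ∀ s, σ.base s = v → s ≠ σ.dir v i0 → s ≠ σ.dir v i2 →
      μ (z.x s) = ((α s ^ 𝔽0.m : z.k) : OnePoint z.k) := fun s hs s0 s2 => by
    rw [ma _ fun e => s2 (z.inj _ _ (hs.trans b2.symm) e), hα.2 s hs s0 s2]
  have key : ∀ s : σ.Slot, ∃ g : WG 𝔽0 𝔽 J I, σ.base s = v →
      c''.M z.θ (z.x s) g ∧ σ.WL i0 i2 𝔽0 𝔽 x s g := by
    intro s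
    by_cases hs : σ.base s = v
    swap
    · exact ⟨1, fun h => absurd h hs⟩
    by_cases s0 : s = σ.dir v i0
    · have hr : σ.Ram i0 i2 s := (σ.ram_iff hs).2 ⟨hv, Or.inl s0⟩
      refine ⟨g0, fun _ => ⟨k3 _ _ (by rw [s0, m0]; exact g00), g00.pow_eq_one, ?_,
        fun j t => ?_⟩⟩
      · rw [g01, s0, (σ.kum_dir_left _ hv).1]
      · rw [if_pos hr, h2 0 _ (g02 t) j, (hM j).1, σ.lab_of_ram _ hr t, ← σ.lab_of_ram _ hr 1,
          ← s0]
    by_cases s2 : s = σ.dir v i2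
    · have hr : σ.Ram i0 i2 s := (σ.ram_iff hs).2 ⟨hv, Or.inr s2⟩
      refine ⟨g2, fun _ => ⟨k3 _ _ (by rw [s2, m2]; exact g20), g20.pow_eq_one, ?_,
        fun j t => ?_⟩⟩
      · rw [g21, s2, (σ.kum_dir_left _ hv).2]
      · have h5 := h3 _ (g22 t) j
        have h6 : 𝔽.u ^ (z.fP 𝔽0 i0 i2 α (y j) v).natDegree =
            𝔽.u ^ (-σ.lab i0 i2 (x j) (σ.dir v i2) 1).val := by
          rw [𝔽.pow_eq_pow_iff, z.fP_natDegree, ZMod.natCast_zmod_val,
            ← σ.sum_lab_path (x j) (hx j) hv, Nat.cast_add, Nat.cast_sum]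
          congr 1
          · exact ZMod.natCast_zmod_val _
          · refine Finset.sum_congr rfl fun s _ => ?_
            rw [Nat.cast_sum]
            exact Finset.sum_congr rfl fun t _ => ZMod.natCast_zmod_val _
        rw [h6, 𝔽.pow_val_neg, mul_inv_eq_one, ← s2] at h5
        rw [if_pos hr, h5, σ.lab_of_ram _ hr t, ← σ.lab_of_ram _ hr 1]
    · have hr : ¬ σ.Ram i0 i2 s := fun h => ((σ.ram_iff hs).1 h).2.elim s0 s2
      obtain ⟨g, e0, e1, e2⟩ := g3 (α s) (Pt.KumAt.ne_zero z 𝔽0 hα hs s0 s2)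
      refine ⟨g, fun _ => ⟨k3 _ _ (by rw [ms s hs s0 s2]; exact e0), e0.pow_eq_one, ?_,
        fun j t => ?_⟩⟩
      · rw [e1, σ.kum_of_not_ram _ hr]
      · rw [if_neg hr, pow_one, h2 _ _ (e2 t) j, (hM j).2.1 s t hs s0 s2]
  choose g hg using key
  refine ⟨g, c''.ι.range, ⟨c'', rfl, fun a ha => k3 a 1 ?_, fun s => (hg s s.2).1⟩,
    fun s hs => (hg s hs).2, fun j => ?_⟩
  · have ha' : ∀ s, σ.base s = v → μ a ≠ μ (z.x s) := fun s hs e =>
      ha ⟨⟨s, hs⟩, (μ.injective e).symm⟩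
    have a0 := ha' _ b0
    have a2 := ha' _ b2
    rw [m0] at a0
    rw [m2] at a2
    obtain ⟨a', e'⟩ := OnePoint.ne_infty_iff_exists.1 a2
    obtain ⟨β, rfl⟩ := IsAlgClosed.exists_pow_nat_eq a' 𝔽0.m_pos
    have hβ : β ≠ 0 := by
      rintro rfl
      rw [zero_pow 𝔽0.m_pos.ne'] at e'
      exact a0 e'.symm
    obtain ⟨g', e0, e1, e2⟩ := g3 β hβ
    have e : g' = 1 := wr_eq_one_EP e1 fun t => by
      obtain ⟨e, he, hE⟩ := (e2 t).pow_eq_one
      funext j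
      refine AffV.eq_one ?_ ⟨e, he, congrFun hE j⟩
      have ht : ∀ t : 𝔽0.Fˣ, z.θ (𝔽0.θ t) ≠ 0 := fun t =>
        (map_ne_zero _).2 ((map_ne_zero _).2 t.ne_zero)
      rw [h2 _ _ (e2 t) j, (hM j).2.2 _ (mul_ne_zero (ht t) hβ), pow_zero]
      intro s t' hs s0 s2 e
      have e3 := congrArg (· ^ 𝔽0.m) e
      simp only [mul_pow, 𝔽0.theta_pow_m, one_mul] at e3
      exact ha' s hs (by rw [← e', e3, ms s hs s0 s2])
    rw [← e', ← e]
    exact e0
  · refine (h4 j).mono ?_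
    rintro _ ⟨b, hb, rfl⟩
    obtain ⟨g', e0, e1, e2⟩ := g1 b hb
    exact ⟨g', k1 ▸ e0, e1, by rw [e2]⟩

end Pool.Agent.Adm

end

section

/-! Coverings of a component off the path. -/

namespace Pool.Agent.Adm

open scoped OnePoint

theorem Pt.exists_vertex_off {n : ℕ} {σ : Shape n} (z : Pt σ) (𝔽0 𝔽 : FF) {i0 i2 : Fin n}
    {J I : Type} [Finite J] [Fintype I] (x : J → YI (Fin n) 𝔽0.Fˣ i0 i2 → ZMod 𝔽.m)
    {v : Fin σ.r} (hv : ¬ σ.OnPath i0 i2 v) (I0 : J → 𝔽0.Fˣ → Finset I)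
    (hw : ∀ j t, HWok 𝔽 (z.fO 𝔽0 (fun s t => (σ.lab i0 i2 (x j) s t).val) v t) (I0 j t).card) :
    ∃ (g : σ.Slot → WG 𝔽0 𝔽 J I) (R : Subgroup (WG 𝔽0 𝔽 J I)), z.VCat v g R ∧
      (∀ s, σ.base s = v → σ.WL i0 i2 𝔽0 𝔽 x s (g s)) ∧ ∀ j t, RI R j t (I0 j t) := by
  have := 𝔽.charP
  let y : J → σ.Slot → 𝔽0.Fˣ → ℕ := fun j s t => (σ.lab i0 i2 (x j) s t).val
  have hm : ∀ t j a, (z.fO 𝔽0 (y j) v t).rootMultiplicity a < 𝔽.m := by
    intro t j a
    by_cases h : ∃ s, σ.base s = v ∧ a = z.x s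
    · obtain ⟨s, hs, rfl⟩ := h
      rw [(z.fO_mult 𝔽0 (y j) v t).1 s hs]
      exact ZMod.val_lt _
    · rw [(z.fO_mult 𝔽0 (y j) v t).2 a fun s hs e => h ⟨s, hs, e⟩]
      exact 𝔽.m_pos
  choose c' h1 h2 h3 h4 using fun t => exists_affV_family (I := I) z.θ 𝔽
    (fun j => z.fO 𝔽0 (y j) v t) (fun j => (z.fO_monic 𝔽0 (y j) v t).ne_zero)
    (fun j => I0 j t) (fun j => hw j t) (hm t)
  obtain ⟨c, g1, g2, g3⟩ := exists_piCover_M z.θ (B := fun _ : 𝔽0.Fˣ => J → AffV 𝔽.F I) c'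
  obtain ⟨i, hi⟩ := exists_wr_base (A := 𝔽0.Fˣ) (B := J → AffV 𝔽.F I)
  choose b hb using fun a => g3 a fun t => h1 t a
  refine ⟨fun s => i (b (z.x s)), (c.map i).ι.range,
    ⟨c.map i, rfl, fun a ha => ?_, fun s => (hb _).map i⟩, fun s hs => ?_, fun j t => ?_⟩
  · have e : b a = 1 := by
      obtain ⟨e, he, hE⟩ := (hb a).pow_eq_one
      funext t j
      refine AffV.eq_one ?_ ⟨e, he, congrFun (congrFun hE t) j⟩
      induction a using OnePoint.rec with
      | infty =>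
        have h5 := h3 t _ (g2 _ _ (hb ∞) t) j
        have h6 : 𝔽.u ^ (z.fO 𝔽0 (y j) v t).natDegree = 𝔽.u ^ 0 := by
          rw [𝔽.pow_eq_pow_iff, z.fO_natDegree, Nat.cast_sum, Nat.cast_zero,
            ← σ.sum_lab_off (x j) hv t]
          exact Finset.sum_congr rfl fun s _ => ZMod.natCast_zmod_val _
        rwa [h6, pow_zero, mul_one] at h5
      | coe a =>
        have h5 := h2 t a _ (g2 _ _ (hb a) t) j
        rwa [(z.fO_mult 𝔽0 (y j) v t).2 a fun s hs e => ha ⟨⟨s, hs⟩, by rw [e]⟩, pow_zero] at h5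
    have h5 := (hb a).map i
    rwa [e, map_one] at h5
  · have hr : ¬ σ.Ram i0 i2 s := fun h => hv ((σ.ram_iff hs).1 h).1
    refine ⟨((hb _).map i).pow_eq_one, ?_, fun j t => ?_⟩
    · rw [(hi _).2, σ.kum_of_not_ram _ hr]
    · rw [if_neg hr, pow_one, (hi _).1, h2 t (z.x s) _ (g2 _ _ (hb _) t) j,
        (z.fO_mult 𝔽0 (y j) v t).1 s hs]
  · refine (h4 t j).mono ?_
    rintro _ ⟨g, hg, rfl⟩
    rw [← g1 t] at hg
    obtain ⟨g', hg', rfl⟩ := hg
    refine ⟨i g', ?_, (hi _).2, by rw [(hi _).1]; rfl⟩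
    rw [c.map_range]
    exact ⟨g', hg', rfl⟩

end Pool.Agent.Adm

end

section

/-! Characters and cocycles obtained from a homomorphism to the wreath product. -/

namespace Pool.Agent.Adm

open Sum

theorem right_conj_WGL {B A : Type} [Group B] [CommGroup A] (g w : RegularWreathProduct B A) :
    (w⁻¹ * g * w).right = g.right := by
  rw [RegularWreathProduct.mul_right, RegularWreathProduct.mul_right,
    RegularWreathProduct.inv_right, inv_mul_cancel_comm]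

theorem u_conj_WGL {𝔽0 𝔽 : FF} {J I : Type} (g w : WG 𝔽0 𝔽 J I) (h : g.right = 1) (j : J) :
    ((w⁻¹ * g * w).left 1 j).u = (g.left w.right j).u := by
  rw [wr_conj_left g w h, mul_one, Pi.mul_apply, Pi.mul_apply, Pi.inv_apply, AffV.mul_u,
    AffV.mul_u, AffV.inv_u, inv_mul_cancel_comm]

theorem yp_of_dom {n : ℕ} (σ : Shape n) (𝔽0 𝔽 : FF) {i0 i2 : Fin n} (h02 : i0 ≠ i2) {J I : Type}
    [Fintype I] (x : J → YI (Fin n) 𝔽0.Fˣ i0 i2 → ZMod 𝔽.m) (g : Fin n → WG 𝔽0 𝔽 J I)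
    (R : Fin σ.r → Subgroup (WG 𝔽0 𝔽 J I)) (hg : ∀ l, σ.WL i0 i2 𝔽0 𝔽 x (inr l) (g l))
    (I1 : J → Finset I) (hI : ∀ j, ∀ i ∈ I1 j, ∃ v t I0, i ∈ I0 ∧ RI (R v) j t I0)
    (G : Type) [Group G] [Finite G] (d : Fin n → G) (π : G →* WG 𝔽0 𝔽 J I) (hD : Dom g R d π) :
    YP 𝔽0 𝔽 i0 i2 x (fun j => (I1 j).card) G d := by
  obtain ⟨hc, hR⟩ := hD
  have hw : ∀ l, ∃ w : WG 𝔽0 𝔽 J I, π (d l) = w⁻¹ * g l * w := fun l => by
    obtain ⟨c, hc⟩ := isConj_iff.1 (hc l)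
    exact ⟨c, by rw [← hc]; group⟩
  choose w hw using hw
  obtain ⟨β, hβ⟩ := exists_wr_eval π
  have hχ : ∀ l, (RegularWreathProduct.rightHom.comp π) (d l) = σ.kum i0 i2 𝔽0.u (inr l) :=
    fun l => by
      change (π (d l)).right = _
      rw [hw, right_conj_WGL, (hg l).2.1]
  obtain ⟨k0, k2, kl⟩ := σ.kumLab_kum h02 𝔽0.u
  have hsurj : ∀ a : 𝔽0.Fˣ, ∃ k, (π k).right = a := fun a => by
    obtain ⟨z, rfl⟩ := Subgroup.mem_zpowers_iff.1 (𝔽0.mem_zpowers a)
    refine ⟨d i0 ^ z, ?_⟩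
    change (RegularWreathProduct.rightHom.comp π) (d i0 ^ z) = _
    rw [map_zpow, (hχ i0).trans k0]
  refine ⟨RegularWreathProduct.rightHom.comp π, ⟨(hχ i0).trans k0, (hχ i2).trans k2,
    fun l h0 h2 => (hχ l).trans (kl l h0 h2)⟩, fun l => (w l).right, ?_⟩
  rintro e ⟨γ, hγ, he⟩ j
  refine ⟨AffV.lin.comp ((Pi.evalMonoidHom (fun _ : J => AffV 𝔽.F I) j).comp β), fun y => ?_,
    fun hne => le_h1_of_indOn _ (I1 j) (IndOn.of_forall fun i hi => ?_) hne⟩
  · change (β (e y) j).u = _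
    rw [hβ, he, yd, ← σ.lab_inr h02 (x j) (ysh (fun l => (w l).right) y)]
    have h1 := (hg y.1.1).2.2 j
    by_cases hy : y.1.1 = i0 ∨ y.1.1 = i2
    · have hr := (σ.ram_inr h02 y.1.1).2 hy
      have h2 : ((w y.1.1)⁻¹ * g y.1.1 * w y.1.1) ^ 𝔽0.m =
          (w y.1.1)⁻¹ * g y.1.1 ^ 𝔽0.m * w y.1.1 := by
        have h3 := conj_pow (a := (w y.1.1)⁻¹) (b := g y.1.1) (i := 𝔽0.m)
        rwa [inv_inv] at h3
      rw [if_pos hr] at h1
      rw [if_pos hy, map_pow, hw, h2, u_conj_WGL _ _ (by rw [wr_pow_right, 𝔽0.pow_m]), h1,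
        σ.lab_of_ram _ hr]
      exact congrArg (fun z : ZMod 𝔽.m => 𝔽.u ^ z.val) (σ.lab_of_ram _ hr _).symm
    · have hr : ¬ σ.Ram i0 i2 (inr y.1.1) := fun h => hy ((σ.ram_inr h02 y.1.1).1 h)
      have h2 : π ((γ y.1.2)⁻¹ * d y.1.1 * γ y.1.2) =
          (w y.1.1 * π (γ y.1.2))⁻¹ * g y.1.1 * (w y.1.1 * π (γ y.1.2)) := by
        rw [map_mul, map_mul, map_inv, hw]
        group
      have h3 : (π (γ y.1.2)).right = y.1.2 := hγ y.1.2
      have h4 : (ysh (fun l => (w l).right) y).1.2 = (w y.1.1).right * y.1.2 := if_neg hy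
      rw [if_neg hr, pow_one] at h1
      rw [if_neg hy, h2, u_conj_WGL _ _ (by rw [(hg _).2.1, σ.kum_of_not_ram _ hr]), h1,
        RegularWreathProduct.mul_right, h3, h4]
      rfl
  · obtain ⟨v, t, I0, hi0, hRI⟩ := hI j i hi
    obtain ⟨γ', hγ'⟩ := hR v
    obtain ⟨k, hk⟩ := hsurj (γ'.right⁻¹ * t)
    have hW : (γ' * π k).right = t := by
      rw [RegularWreathProduct.mul_right, hk, mul_inv_cancel_left]
    refine ⟨I0, hi0, IndOn.conj hRI ((γ' * π k).left t j) ?_⟩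
    rintro _ ⟨g', hg', h1, rfl⟩
    obtain ⟨h0, hh0⟩ := hγ' g' hg'
    have h2 : π (k⁻¹ * h0 * k) = (γ' * π k)⁻¹ * g' * (γ' * π k) := by
      rw [map_mul, map_mul, map_inv, hh0]
      group
    have h3 : k⁻¹ * h0 * k ∈ (RegularWreathProduct.rightHom.comp π).ker := by
      change (π (k⁻¹ * h0 * k)).right = 1
      rw [h2, right_conj_WGL, h1]
    refine ⟨⟨_, h3⟩, ?_⟩
    change β ⟨_, h3⟩ j = _
    rw [hβ, h2, wr_conj_left _ _ h1, mul_one, hW]
    rfl

end Pool.Agent.Adm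

end

section

/-! Existence of coverings with prescribed labels on a Kummer covering. -/

namespace Pool.Agent.Adm

open Sum

/-- The block of indices attached to the component v and the sheet t. -/
def blk_EY {V A : Type} (W : ℕ) (w : ℕ) (v : V) (t : A) : Finset (V × A × Fin W) :=
  (Finset.univ.filter fun i : Fin W => i.1 < w).map
    ⟨fun i => (v, t, i), fun _ _ h => (Prod.mk.inj (Prod.mk.inj h).2).2⟩

theorem card_lt_EY {W w : ℕ} (h : w ≤ W) :
    (Finset.univ.filter fun i : Fin W => i.1 < w).card = w := by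
  rw [Fin.card_filter_val_lt, min_eq_right h]

theorem card_blk_EY {V A : Type} {W w : ℕ} (h : w ≤ W) (v : V) (t : A) :
    (blk_EY W w v t).card = w := by
  rw [blk_EY, Finset.card_map, card_lt_EY h]

theorem mem_blk_EY {V A : Type} {W w : ℕ} (i : V × A × Fin W) (h : i.2.2.1 < w) :
    i ∈ blk_EY W w i.1 i.2.1 :=
  Finset.mem_map.2 ⟨i.2.2, Finset.mem_filter.2 ⟨Finset.mem_univ _, h⟩, rfl⟩

theorem card_all_EY {V A : Type} [Fintype V] [Fintype A] {W : ℕ} (w : V → A → ℕ)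
    (h : ∀ v t, w v t ≤ W) :
    (Finset.univ.filter fun i : V × A × Fin W => i.2.2.1 < w i.1 i.2.1).card =
      ∑ v, ∑ t, w v t := by
  rw [Finset.card_filter, Fintype.sum_prod_type]
  refine Finset.sum_congr rfl fun v _ => ?_
  rw [Fintype.sum_prod_type]
  refine Finset.sum_congr rfl fun t _ => ?_
  rw [← card_lt_EY (h v t), Finset.card_filter]

theorem Pt.real_YP {n : ℕ} {σ : Shape n} (z : Pt σ) (𝔽0 𝔽 : FF) {i0 i2 : Fin n} (h02 : i0 ≠ i2)
    {J : Type} [Finite J] (x : J → YI (Fin n) 𝔽0.Fˣ i0 i2 → ZMod 𝔽.m) (hx : ∀ j, ∑ y, x j y = 0)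
    {lam : Fin σ.r → z.k} {α : σ.Slot → z.k} (hα : z.KumCoord 𝔽0 i0 i2 lam α)
    (wt : J → Fin σ.r → 𝔽0.Fˣ → ℕ)
    (hP : ∀ j v, σ.OnPath i0 i2 v →
      HWok 𝔽 (z.fP 𝔽0 i0 i2 α (fun s t => (σ.lab i0 i2 (x j) s t).val) v) (wt j v 1) ∧
        ∀ t, t ≠ 1 → wt j v t = 0)
    (hO : ∀ j v t, ¬ σ.OnPath i0 i2 v →
      HWok 𝔽 (z.fO 𝔽0 (fun s t => (σ.lab i0 i2 (x j) s t).val) v t) (wt j v t)) :
    z.Real (YP 𝔽0 𝔽 i0 i2 x fun j => ∑ v, ∑ t, wt j v t) := by
  obtain ⟨W, hW⟩ : ∃ W : ℕ, ∀ j v t, wt j v t ≤ W := by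
    obtain ⟨W, hW⟩ := (Set.finite_range
      fun y : J × Fin σ.r × 𝔽0.Fˣ => wt y.1 y.2.1 y.2.2).bddAbove
    exact ⟨W, fun j v t => hW ⟨(j, v, t), rfl⟩⟩
  have key : ∀ v : Fin σ.r, ∃ (g : σ.Slot → WG 𝔽0 𝔽 J (Fin σ.r × 𝔽0.Fˣ × Fin W))
      (R : Subgroup (WG 𝔽0 𝔽 J (Fin σ.r × 𝔽0.Fˣ × Fin W))), z.VCat v g R ∧
      (∀ s, σ.base s = v → σ.WL i0 i2 𝔽0 𝔽 x s (g s)) ∧
        ∀ j t, wt j v t ≠ 0 → RI R j t (blk_EY W (wt j v t) v t) := by
    intro v
    by_cases hv : σ.OnPath i0 i2 v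
    · obtain ⟨g, R, h1, h2, h3⟩ := z.exists_vertex_path 𝔽0 𝔽 x hx hv (hα.kumAt hv)
        (fun j => blk_EY W (wt j v 1) v (1 : 𝔽0.Fˣ))
        (fun j => by rw [card_blk_EY (hW j v 1)]; exact (hP j v hv).1)
      refine ⟨g, R, h1, h2, fun j t ht => ?_⟩
      obtain rfl : t = 1 := by
        by_contra h
        exact ht ((hP j v hv).2 t h)
      exact h3 j
    · obtain ⟨g, R, h1, h2, h3⟩ := z.exists_vertex_off 𝔽0 𝔽 x hv
        (fun j t => blk_EY W (wt j v t) v t)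
        (fun j t => by rw [card_blk_EY (hW j v t)]; exact hO j v t hv)
      exact ⟨g, R, h1, h2, fun j t _ => h3 j t⟩
  choose g R h1 h2 h3 using key
  refine ⟨WG 𝔽0 𝔽 J (Fin σ.r × 𝔽0.Fˣ × Fin W), inferInstance, inferInstance,
    fun s => g (σ.base s) s, R, ⟨fun v => ?_, fun δ => ?_⟩, fun G _ _ d π hD => ?_⟩
  · have e : (fun s : σ.Sl v => g (σ.base s.1) s.1) = fun s : σ.Sl v => g v s.1 :=
      funext fun s => by rw [s.2]
    have := h1 v
    unfold Pt.VCat at this ⊢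
    rw [← e] at this
    exact this
  · exact Shape.WL.isConj σ hx (h2 _ (inl δ) rfl) (h2 _ (inl δ.symm) rfl)
  · have := yp_of_dom σ 𝔽0 𝔽 h02 x (fun l => g (σ.base (inr l)) (inr l)) R
      (fun l => h2 _ (inr l) rfl)
      (fun j => Finset.univ.filter
        fun i : Fin σ.r × 𝔽0.Fˣ × Fin W => i.2.2.1 < wt j i.1 i.2.1)
      (fun j i hi => by
        have hi' := (Finset.mem_filter.1 hi).2
        exact ⟨i.1, i.2.1, _, mem_blk_EY i hi', h3 i.1 j i.2.1 (by omega)⟩) G d π hD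
    have e : (fun j => (Finset.univ.filter
        fun i : Fin σ.r × 𝔽0.Fˣ × Fin W => i.2.2.1 < wt j i.1 i.2.1).card) =
        fun j => ∑ v, ∑ t, wt j v t := funext fun j => card_all_EY (wt j) (hW j)
    rw [e] at this
    exact this

end Pool.Agent.Adm

end

section

/-! Assembling vertex coverings along the tree. -/

namespace Pool.Agent.Adm

open Sum

variable {n : ℕ} {σ : Shape n} {z : Pt σ}

theorem isConj_inv_ASM {G : Type} [Group G] {a b : G} (h : IsConj a b) : IsConj a⁻¹ b⁻¹ := by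
  obtain ⟨c, rfl⟩ := isConj_iff.1 h
  exact isConj_iff.2 ⟨c, by group⟩

theorem isConj_pi_ASM {J : Type} {B : J → Type} [∀ j, Group (B j)] {a b : ∀ j, B j}
    (h : ∀ j, IsConj (a j) (b j)) : IsConj a b := by
  choose c hc using fun j => isConj_iff.1 (h j)
  exact isConj_iff.2 ⟨c, funext hc⟩

theorem Pt.VS.exists_conj {W : Type} [Group W] {g : σ.Slot → W} {R : Fin σ.r → Subgroup W}
    (h : z.VS W g R) : ∃ γ : Fin σ.r → W, ∀ δ : σ.T.Dart,
      (γ δ.snd)⁻¹ * g (inl δ.symm) * γ δ.snd = ((γ δ.fst)⁻¹ * g (inl δ) * γ δ.fst)⁻¹ := by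
  classical
  obtain ⟨ρ⟩ := σ.nonempty_vertex
  have key := σ.growth_univ (fun U => ∃ γ : Fin σ.r → W, ∀ δ : σ.T.Dart, δ.fst ∈ U → δ.snd ∈ U →
    (γ δ.snd)⁻¹ * g (inl δ.symm) * γ δ.snd = ((γ δ.fst)⁻¹ * g (inl δ) * γ δ.fst)⁻¹) ρ
    ⟨1, fun δ h1 h2 => absurd (h1.trans h2.symm) δ.fst_ne_snd⟩ ?_
  · obtain ⟨γ, hγ⟩ := key
    exact ⟨γ, fun δ => hγ δ trivial trivial⟩
  rintro U δ h1 h2 h3 ⟨γ, hγ⟩
  obtain ⟨c, hc⟩ := isConj_iff.1 (h.2 δ)
  have hU : ∀ u ∈ U, Function.update γ δ.snd (c * γ δ.fst) u = γ u := fun u hu =>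
    Function.update_of_ne (fun e : u = δ.snd => h2 (e ▸ hu)) _ _
  have h0 : (c * γ δ.fst)⁻¹ * g (inl δ.symm) * (c * γ δ.fst) =
      ((γ δ.fst)⁻¹ * g (inl δ) * γ δ.fst)⁻¹ := by
    rw [← hc]
    group
  refine ⟨Function.update γ δ.snd (c * γ δ.fst), fun δ' k1 k2 => ?_⟩
  rcases k1 with k1 | k1
  · rcases k2 with k2 | k2
    · exact absurd (k1.trans k2.symm) δ'.fst_ne_snd
    · obtain rfl := h3 δ' k1 k2
      rw [hU _ k2, k1, Function.update_self, h0, inv_inv, SimpleGraph.Dart.symm_symm]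
      rfl
  · rcases k2 with k2 | k2
    · obtain rfl : δ' = δ := SimpleGraph.Dart.symm_involutive.injective (h3 δ'.symm k2 k1)
      rw [hU _ k1, Function.update_self, h0]
    · rw [hU _ k1, hU _ k2]
      exact hγ δ' k1 k2

theorem Pt.Real.adm {P : GP n} (h : z.Real P) :
    ∃ (G : Type) (_ : Group G) (_ : Finite G) (d : σ.Slot → G), z.Adm G d ∧
      P G fun l => d (inr l) := by
  obtain ⟨W, _, _, g, R, hVS, hP⟩ := h
  obtain ⟨γ, hγ⟩ := hVS.exists_conj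
  let c : Fin σ.r → W →* W := fun v => (MulAut.conj (γ v)⁻¹).toMonoidHom
  have hc : ∀ v x, c v x = (γ v)⁻¹ * x * γ v := fun v x => by simp [c]
  let G : Subgroup W := ⨆ v, (R v).map (c v)
  have hle : ∀ v, (R v).map (c v) ≤ G := fun v => le_iSup (fun v => (R v).map (c v)) v
  let d : σ.Slot → G := fun s => ⟨c (σ.base s) (g s),
    hle _ (Subgroup.mem_map_of_mem _ (VP.mem (hVS.1 (σ.base s)) ⟨s, rfl⟩))⟩
  refine ⟨G, inferInstance, inferInstance, d,
    ⟨fun v => ((R v).map (c v)).subgroupOf G, ⟨fun v => ?_, fun δ => ?_⟩, ?_⟩,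
    hP G _ G.subtype ⟨fun l => ?_, fun v => ⟨γ v, fun x hx => ?_⟩⟩⟩
  · refine VP.restr G (hle v) _ ?_
    have e : (fun s : σ.Sl v => (d s : W)) = fun s : σ.Sl v => c v (g s) := by
      funext s
      obtain ⟨s, rfl⟩ := s
      rfl
    rw [e]
    exact VP.map (hVS.1 v) (c v)
  · apply Subtype.ext
    change c δ.snd (g (inl δ.symm)) = (c δ.fst (g (inl δ)))⁻¹
    rw [hc, hc, hγ]
  · apply Subgroup.map_injective G.subtype_injective
    rw [Subgroup.map_iSup, ← MonoidHom.range_eq_map, Subgroup.range_subtype]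
    refine iSup_congr fun v => ?_
    rw [Subgroup.subgroupOf_map_subtype, inf_eq_left.2 (hle v)]
  · change IsConj (c (σ.comp l) (g (inr l))) (g (inr l))
    rw [hc]
    exact isConj_iff.2 ⟨γ (σ.comp l), by group⟩
  · rw [Subgroup.range_subtype, ← hc]
    exact hle v (Subgroup.mem_map_of_mem _ hx)

theorem Pt.Real.mono {P P' : GP n} (h : z.Real P)
    (hP : ∀ (G : Type) [Group G] [Finite G] (d : Fin n → G), P G d → P' G d) : z.Real P' := by
  obtain ⟨W, _, _, g, R, hVS, h⟩ := h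
  exact ⟨W, inferInstance, inferInstance, g, R, hVS, fun G _ _ d π hd => hP G d (h G d π hd)⟩

theorem Pt.Real.all {J : Type} [Finite J] {P : J → GP n} (h : ∀ j, z.Real (P j)) :
    z.Real fun G _ d => ∀ j, P j G d := by
  choose W iG iF g R hVS hP using h
  choose d' R' h1 h2 h3 using fun v => VP.pi fun j => (hVS j).1 v
  let g' : σ.Slot → ∀ j, W j := fun s => d' (σ.base s) ⟨s, rfl⟩
  have h4 : ∀ s j, IsConj (g' s j) (g j s) := fun s j => h3 (σ.base s) ⟨s, rfl⟩ j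
  refine ⟨∀ j, W j, inferInstance, inferInstance, g', R', ⟨fun v => ?_, fun δ => ?_⟩,
    fun G _ _ d π hd j => hP j G d ((Pi.evalMonoidHom W j).comp π) ⟨fun l => ?_, fun v => ?_⟩⟩
  · have e : (fun s : σ.Sl v => g' s) = d' v := by
      funext s
      obtain ⟨s, rfl⟩ := s
      rfl
    unfold Pt.VCat
    rw [e]
    exact h1 v
  · exact isConj_pi_ASM fun j =>
      ((isConj_inv_ASM (h4 (inl δ) j)).trans ((hVS j).2 δ)).trans (h4 (inl δ.symm) j).symm
  · exact ((Pi.evalMonoidHom W j).map_isConj (hd.1 l)).trans (h4 (inr l) j)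
  · obtain ⟨γ, hγ⟩ := hd.2 v
    refine ⟨γ j, fun x hx => ?_⟩
    rw [← h2 v j] at hx
    obtain ⟨y, hy, rfl⟩ := hx
    obtain ⟨w, hw⟩ := hγ y hy
    exact ⟨w, congrFun hw j⟩

theorem Pt.Real.and {P P' : GP n} (h : z.Real P) (h' : z.Real P') :
    z.Real fun G _ d => P G d ∧ P' G d := by
  have h1 := Pt.Real.all (J := Bool) (P := fun j => cond j P P') fun j => by
    cases j
    · exact h'
    · exact h
  exact h1.mono fun G _ _ d hd => ⟨hd true, hd false⟩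

end Pool.Agent.Adm

end

section

/-! Existence of test characters. -/

namespace Pool.Agent.Adm

open Polynomial

theorem tpoly_natDegree {k : Type} [Field k] {n : ℕ} (θ : K0 →+* k) (𝔽0 : FF) (η : k) (n0 : ℕ)
    (n1 : 𝔽0.Fˣ → ℕ) (nn : Fin n → ℕ) (a : Fin n → k) :
    (tpoly θ 𝔽0 η n0 n1 nn a).natDegree = n0 + ∑ t, n1 t + 𝔽0.m * ∑ l, nn l := by
  have h1 : ∀ t : 𝔽0.Fˣ, ((X - C (θ (𝔽0.θ t) * η)) ^ n1 t).Monic :=
    fun t => (monic_X_sub_C _).pow _
  have h2 : ∀ l, ((X ^ 𝔽0.m - C (a l)) ^ nn l).Monic :=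
    fun l => (monic_X_pow_sub_C _ 𝔽0.m_pos.ne').pow _
  have h3 := monic_prod_of_monic Finset.univ _ fun t _ => h1 t
  have h4 := monic_prod_of_monic Finset.univ _ fun l _ => h2 l
  unfold tpoly
  rw [((monic_X_pow n0).mul h3).natDegree_mul h4, (monic_X_pow n0).natDegree_mul h3,
    natDegree_prod_of_monic _ _ fun t _ => h1 t, natDegree_prod_of_monic _ _ fun l _ => h2 l,
    natDegree_X_pow, Finset.mul_sum]
  congr 1
  · congr 1
    refine Finset.sum_congr rfl fun t _ => ?_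
    rw [(monic_X_sub_C _).natDegree_pow, natDegree_X_sub_C, mul_one]
  · refine Finset.sum_congr rfl fun l _ => ?_
    rw [(monic_X_pow_sub_C _ 𝔽0.m_pos.ne').natDegree_pow, natDegree_X_pow_sub_C, mul_comm]

theorem sum_YI_TE {ι A Z : Type} [Fintype ι] [DecidableEq ι] [CommGroup A] [Fintype A]
    [DecidableEq A] [AddCommMonoid Z] (i0 i2 : ι) (F : ι → A → Z) :
    ∑ y : YI ι A i0 i2, F y.1.1 y.1.2 = ∑ l, if l = i0 ∨ l = i2 then F l 1 else ∑ t, F l t := by
  rw [← Finset.sum_subtype (Finset.univ.filter fun y : ι × A => (y.1 = i0 ∨ y.1 = i2) → y.2 = 1)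
    (by simp) (fun y : ι × A => F y.1 y.2), Finset.sum_filter, Fintype.sum_prod_type]
  refine Finset.sum_congr rfl fun l _ => ?_
  by_cases h : l = i0 ∨ l = i2
  · simp [h]
  · simp [h]

/-- The labels of the test character. -/
def xT_TE {n : ℕ} {A Z : Type} [AddCommGroup Z] (i0 i1 i2 : Fin n) (n0 D : Z) (n1 : A → Z)
    (nn : Fin n → Z) (l : Fin n) (t : A) : Z :=
  if l = i0 then n0 else if l = i2 then -D else if l = i1 then n1 t else nn l

section

variable {n : ℕ} {A Z : Type} [CommGroup A] [Fintype A] [DecidableEq A] [AddCommGroup Z]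
  {i0 i1 i2 : Fin n} (n0 D : Z) (n1 : A → Z) {nn : Fin n → Z}

omit [DecidableEq A] in
theorem xT_fibre_TE (h01 : i0 ≠ i1) (h02 : i0 ≠ i2) (h12 : i1 ≠ i2) (e0 : nn i0 = 0)
    (e1 : nn i1 = 0) (e2 : nn i2 = 0) (l : Fin n) :
    (if l = i0 ∨ l = i2 then xT_TE i0 i1 i2 n0 D n1 nn l 1
      else ∑ t, xT_TE i0 i1 i2 n0 D n1 nn l t) =
    (if l = i0 then n0 else 0) + (if l = i2 then -D else 0) + (if l = i1 then ∑ t, n1 t else 0) +
      Fintype.card A • nn l := by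
  by_cases a0 : l = i0
  · subst a0
    simp [xT_TE, h01, h02, e0]
  by_cases a2 : l = i2
  · subst a2
    simp [xT_TE, h12.symm, h02.symm, e2]
  by_cases a1 : l = i1
  · subst a1
    simp [xT_TE, h12, h01.symm, e1]
  · simp [xT_TE, a0, a1, a2]

theorem xT_sum_TE (h01 : i0 ≠ i1) (h02 : i0 ≠ i2) (h12 : i1 ≠ i2) (e0 : nn i0 = 0)
    (e1 : nn i1 = 0) (e2 : nn i2 = 0) :
    ∑ y : YI (Fin n) A i0 i2, xT_TE i0 i1 i2 n0 D n1 nn y.1.1 y.1.2 =
      n0 + ∑ t, n1 t + Fintype.card A • ∑ l, nn l - D := by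
  rw [sum_YI_TE i0 i2 (xT_TE i0 i1 i2 n0 D n1 nn)]
  simp only [xT_fibre_TE n0 D n1 h01 h02 h12 e0 e1 e2, Finset.sum_add_distrib,
    Finset.sum_ite_eq', Finset.mem_univ, if_true, Finset.smul_sum]
  abel

theorem xT_lab0_TE {σ : Shape n} {v : Fin σ.r} (hm : σ.IsMed v i0 i1 i2) (e0 : nn i0 = 0)
    (e1 : nn i1 = 0) (e2 : nn i2 = 0) (t : A) :
    σ.lab i0 i2 (fun y => xT_TE i0 i1 i2 n0 D n1 nn y.1.1 y.1.2) (σ.dir v i0) t =
      n0 + Fintype.card A • ∑ l ∈ Finset.univ.filter (fun l => σ.dir v l = σ.dir v i0), nn l := by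
  have h01 : i0 ≠ i1 := fun e => hm.1 (by rw [e])
  have h02 : i0 ≠ i2 := fun e => hm.2.1 (by rw [e])
  have h12 : i1 ≠ i2 := fun e => hm.2.2 (by rw [e])
  rw [σ.lab_of_ram _ ((σ.ram_iff (σ.base_dir v i0)).2 ⟨hm.2.1, Or.inl rfl⟩), σ.base_dir,
    Finset.sum_filter, sum_YI_TE i0 i2
      (fun l t => if σ.dir v l = σ.dir v i0 then xT_TE i0 i1 i2 n0 D n1 nn l t else 0),
    Finset.sum_filter, Finset.smul_sum]
  have e : n0 = ∑ l, if l = i0 then n0 else 0 := by simp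
  conv_rhs => rw [e]
  rw [← Finset.sum_add_distrib]
  refine Finset.sum_congr rfl fun l _ => ?_
  by_cases h : σ.dir v l = σ.dir v i0
  · have a1 : l ≠ i1 := fun e => hm.1 (by rw [← h, e])
    have a2 : l ≠ i2 := fun e => hm.2.1 (by rw [← h, e])
    simp only [if_pos h]
    rw [xT_fibre_TE n0 D n1 h01 h02 h12 e0 e1 e2, if_neg a1, if_neg a2, add_zero, add_zero]
  · have a0 : l ≠ i0 := fun e => h (by rw [e])
    simp [h, a0]

theorem xT_lab1_TE {σ : Shape n} {v : Fin σ.r} (e1 : nn i1 = 0) {s : σ.Slot}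
    (hs : σ.base s = v) (h0 : s ≠ σ.dir v i0) (h2 : s ≠ σ.dir v i2) (t : A) :
    σ.lab i0 i2 (fun y => xT_TE i0 i1 i2 n0 D n1 nn y.1.1 y.1.2) s t =
      (if s = σ.dir v i1 then n1 t else 0) +
        ∑ l ∈ Finset.univ.filter (fun l => σ.dir v l = s), nn l := by
  rw [σ.lab_of_ne _ hs h0 h2, Finset.sum_filter, sum_YI_TE i0 i2
      (fun l t' => if σ.dir v l = s ∧ t' = t then xT_TE i0 i1 i2 n0 D n1 nn l t' else 0),
    Finset.sum_filter]
  have e : (if s = σ.dir v i1 then n1 t else 0) =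
      ∑ l, if l = i1 then (if s = σ.dir v i1 then n1 t else 0) else 0 := by simp
  rw [e, ← Finset.sum_add_distrib]
  refine Finset.sum_congr rfl fun l _ => ?_
  by_cases h : σ.dir v l = s
  · have a0 : l ≠ i0 := fun e => h0 (by rw [← h, e])
    have a2 : l ≠ i2 := fun e => h2 (by rw [← h, e])
    by_cases a1 : l = i1
    · subst a1
      simp [xT_TE, h, a0, a2, e1]
    · simp [xT_TE, h, a0, a1, a2]
  · by_cases a1 : l = i1
    · subst a1
      simp [h, Ne.symm h]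
    · simp [h, a1]

end

theorem Pt.fP_congr_TE {n : ℕ} {σ : Shape n} (z : Pt σ) (𝔽0 : FF) (i0 i2 : Fin n)
    (α : σ.Slot → z.k) {y y' : σ.Slot → 𝔽0.Fˣ → ℕ} (v : Fin σ.r)
    (h0 : y (σ.dir v i0) 1 = y' (σ.dir v i0) 1)
    (h : ∀ s, σ.base s = v → s ≠ σ.dir v i0 → s ≠ σ.dir v i2 → ∀ t, y s t = y' s t) :
    z.fP 𝔽0 i0 i2 α y v = z.fP 𝔽0 i0 i2 α y' v := by
  unfold Pt.fP
  rw [h0]
  congr 1
  refine Finset.prod_congr rfl fun s hs => Finset.prod_congr rfl fun t _ => ?_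
  obtain ⟨a, b, c⟩ := (Finset.mem_filter.1 hs).2
  rw [h s a b c t]

theorem Pt.exists_coord_TE {n : ℕ} {σ : Shape n} (z : Pt σ) (𝔽0 : FF) {v : Fin σ.r}
    {i0 i1 i2 : Fin n} (hm : σ.IsMed v i0 i1 i2) :
    ∃ lam α, z.KumCoord 𝔽0 i0 i2 lam α ∧ α (σ.dir v i1) = 1 ∧
      lam v = (z.x (σ.dir v i1) - z.x (σ.dir v i2)) / (z.x (σ.dir v i1) - z.x (σ.dir v i0)) := by
  have hb : ∀ i j, σ.base (σ.dir v i) = σ.base (σ.dir v j) := fun i j => by
    rw [σ.base_dir, σ.base_dir]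
  have a0 : z.x (σ.dir v i1) - z.x (σ.dir v i0) ≠ 0 :=
    sub_ne_zero.2 fun e => hm.1 (z.inj _ _ (hb _ _) e).symm
  have a2 : z.x (σ.dir v i1) - z.x (σ.dir v i2) ≠ 0 :=
    sub_ne_zero.2 fun e => hm.2.2 (z.inj _ _ (hb _ _) e)
  let lam : Fin σ.r → z.k := fun u => if u = v then
    (z.x (σ.dir v i1) - z.x (σ.dir v i2)) / (z.x (σ.dir v i1) - z.x (σ.dir v i0)) else 1
  have hv : lam v = (z.x (σ.dir v i1) - z.x (σ.dir v i2)) /
    (z.x (σ.dir v i1) - z.x (σ.dir v i0)) := if_pos rfl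
  have hl : ∀ u, lam u ≠ 0 := fun u => by
    by_cases h : u = v
    · rw [h, hv]
      exact div_ne_zero a2 a0
    · simp [lam, h]
  obtain ⟨α, hα⟩ := z.exists_kumCoord 𝔽0 i0 i2 lam hl
  refine ⟨lam, Function.update α (σ.dir v i1) 1, ⟨hl, fun s h1 h2 h3 => ?_⟩,
    Function.update_self _ _ _, hv⟩
  by_cases h : s = σ.dir v i1
  · subst h
    rw [Function.update_self, one_pow, σ.base_dir, hv]
    field_simp
  · rw [Function.update_of_ne h]
    exact hα.2 s h1 h2 h3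

theorem test_of_YP_TE {n : ℕ} (𝔽0 𝔽 : FF) {i0 i1 i2 : Fin n} (h01 : i0 ≠ i1) (h12 : i1 ≠ i2)
    (n0 : ℕ) (n1 : 𝔽0.Fˣ → ℕ) (nn : Fin n → ℕ) (D : ZMod 𝔽.m) (w : ℕ)
    (e0 : nn i0 = 0) (e1 : nn i1 = 0) (e2 : nn i2 = 0) (b0 : n0 < 𝔽.m) (b1 : ∀ t, n1 t < 𝔽.m)
    (b2 : ∀ l, nn l < 𝔽.m) (hD : 0 < n0 + ∑ t, n1 t + 𝔽0.m * ∑ l, nn l)
    (G : Type) [Group G] (d : Fin n → G)
    (h : YP 𝔽0 𝔽 i0 i2 (fun (_ : Unit) y => xT_TE i0 i1 i2 (n0 : ZMod 𝔽.m) D
      (fun t => (n1 t : ZMod 𝔽.m)) (fun l => (nn l : ZMod 𝔽.m)) y.1.1 y.1.2) (fun _ => w) G d) :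
    Test 𝔽0 𝔽 i0 i1 i2 n0 n1 nn w G d := by
  obtain ⟨χ0, hK, sh, H⟩ := h
  obtain ⟨γ, hγ⟩ := exists_section 𝔽0 χ0 0 (d i0) (Or.inl (by rw [hK.1, pow_zero, pow_one]))
  let e : YI (Fin n) 𝔽0.Fˣ i0 i2 → χ0.ker := fun y =>
    ⟨yd 𝔽0.m d i0 i2 γ y, yd_mem_ker 𝔽0 χ0 hK γ y⟩
  obtain ⟨χ, hχ, hw⟩ := H e ⟨γ, fun t => (hγ t).1, fun y => rfl⟩ ()
  have k0 : χ (e ⟨(i0, 1), fun _ => rfl⟩) = 𝔽.u ^ n0 := by
    rw [hχ, ← 𝔽.pow_val_natCast n0]
    simp [ysh, xT_TE]
  have k1 : ∀ t, χ (e ⟨(i1, t), fun h => (h.elim h01.symm h12).elim⟩) =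
      𝔽.u ^ n1 (sh i1 * t) := fun t => by
    rw [hχ, ← 𝔽.pow_val_natCast (n1 _)]
    simp [ysh, xT_TE, h01.symm, h12]
  have k2 : ∀ l (a0 : l ≠ i0) (_ : l ≠ i1) (a2 : l ≠ i2) t,
      χ (e ⟨(l, t), fun h => (h.elim a0 a2).elim⟩) = 𝔽.u ^ nn l := fun l a0 a1 a2 t => by
    rw [hχ, ← 𝔽.pow_val_natCast (nn _)]
    simp [ysh, xT_TE, a0, a1, a2]
  have k3 : ∀ l (a0 : l ≠ i0) (a2 : l ≠ i2) (g : G) (h : χ0.ker), (h : G) = g⁻¹ * d l * g →
      χ h = χ (e ⟨(l, χ0 g), fun h => (h.elim a0 a2).elim⟩) := fun l a0 a2 g h hg => by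
    let c : χ0.ker := ⟨(γ (χ0 g))⁻¹ * g, by
      rw [MonoidHom.mem_ker, map_mul, map_inv, (hγ _).1, inv_mul_cancel]⟩
    have hc : h = c⁻¹ * e ⟨(l, χ0 g), fun h => (h.elim a0 a2).elim⟩ * c := by
      apply Subtype.ext
      rw [hg]
      simp only [c, e, yd, Subgroup.coe_mul, Subgroup.coe_inv, if_neg (not_or.2 ⟨a0, a2⟩)]
      group
    rw [hc, map_mul, map_mul, map_inv, inv_mul_cancel_comm]
  refine ⟨χ0, hK, sh i1, χ, ⟨fun h hh => ?_, fun g h hh => ?_, fun l a0 a1 a2 g h hh => ?_⟩,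
    hw fun hχ1 => ?_⟩
  · rw [← k0]
    congr 1
    apply Subtype.ext
    rw [hh]
    simp [e, yd]
  · rw [k3 i1 h01.symm h12 g h hh, k1]
  · rw [k3 l a0 a2 g h hh, k2 l a0 a1 a2]
  · have z0 : ∀ a, a < 𝔽.m → 𝔽.u ^ a = 1 → a = 0 := fun a ha h =>
      Nat.eq_zero_of_dvd_of_lt ((𝔽.u_prim.pow_eq_one_iff_dvd a).1 h) ha
    have z1 : n0 = 0 := z0 _ b0 (by rw [← k0, hχ1, MonoidHom.one_apply])
    have z2 : ∀ t, n1 t = 0 := fun t => z0 _ (b1 t) (by
      have := k1 ((sh i1)⁻¹ * t)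
      rw [mul_inv_cancel_left] at this
      rw [← this, hχ1, MonoidHom.one_apply])
    have z3 : ∀ l, nn l = 0 := fun l => by
      by_cases a0 : l = i0
      · rw [a0, e0]
      by_cases a1 : l = i1
      · rw [a1, e1]
      by_cases a2 : l = i2
      · rw [a2, e2]
      exact z0 _ (b2 l) (by rw [← k2 l a0 a1 a2 1, hχ1, MonoidHom.one_apply])
    simp [z1, z2, z3] at hD

theorem Pt.real_test {n : ℕ} {σ : Shape n} (z : Pt σ) (𝔽0 𝔽 : FF) {v : Fin σ.r}
    {i0 i1 i2 : Fin n} (hm : σ.IsMed v i0 i1 i2) (n0 : ℕ) (n1 : 𝔽0.Fˣ → ℕ) (nn : Fin n → ℕ)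
    (w : ℕ) (hnn : ∀ l, l = i0 ∨ l = i1 ∨ σ.dir v l = σ.dir v i2 → nn l = 0)
    (hb0 : n0 + 𝔽0.m * ∑ l, nn l < 𝔽.m) (hb1 : ∀ t, n1 t + ∑ l, nn l < 𝔽.m)
    (hw1 : w * 𝔽.m < n0 + ∑ t, n1 t + 𝔽0.m * ∑ l, nn l)
    (hw2 : n0 + ∑ t, n1 t + 𝔽0.m * ∑ l, nn l ≤ (w + 1) * 𝔽.m)
    (hdet : (HW (2 ^ 𝔽.r) (tpoly z.θ 𝔽0 1 n0 n1 nn (z.crs v i0 i1 i2)) w).det ≠ 0) :
    z.Real (Test 𝔽0 𝔽 i0 i1 i2 n0 n1 nn w) := by
  have h01 : i0 ≠ i1 := fun e => hm.1 (by rw [e])
  have h02 : i0 ≠ i2 := fun e => hm.2.1 (by rw [e])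
  have h12 : i1 ≠ i2 := fun e => hm.2.2 (by rw [e])
  have e0 : nn i0 = 0 := hnn _ (Or.inl rfl)
  have e1 : nn i1 = 0 := hnn _ (Or.inr (Or.inl rfl))
  have e2 : nn i2 = 0 := hnn _ (Or.inr (Or.inr rfl))
  have c0 : ((nn i0 : ℕ) : ZMod 𝔽.m) = 0 := by rw [e0, Nat.cast_zero]
  have c1 : ((nn i1 : ℕ) : ZMod 𝔽.m) = 0 := by rw [e1, Nat.cast_zero]
  have c2 : ((nn i2 : ℕ) : ZMod 𝔽.m) = 0 := by rw [e2, Nat.cast_zero]
  have hle : ∀ p : Fin n → Prop, ∀ [DecidablePred p],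
      ∑ l ∈ Finset.univ.filter p, nn l ≤ ∑ l, nn l := fun p _ =>
    Finset.sum_le_sum_of_subset (Finset.filter_subset _ _)
  obtain ⟨lam, α, hα, hα1, hlam⟩ := z.exists_coord_TE 𝔽0 hm
  set D : ZMod 𝔽.m := ((n0 + ∑ t, n1 t + 𝔽0.m * ∑ l, nn l : ℕ) : ZMod 𝔽.m) with hD
  let x : YI (Fin n) 𝔽0.Fˣ i0 i2 → ZMod 𝔽.m := fun y => xT_TE i0 i1 i2 (n0 : ZMod 𝔽.m) D
    (fun t => (n1 t : ZMod 𝔽.m)) (fun l => (nn l : ZMod 𝔽.m)) y.1.1 y.1.2
  have hx : ∑ y, x y = 0 := by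
    simp only [x]
    rw [xT_sum_TE (nn := fun l => (nn l : ZMod 𝔽.m)) _ _ _ h01 h02 h12 c0 c1 c2,
      𝔽0.card_units, hD]
    push_cast
    rw [nsmul_eq_mul, sub_self]
  have hf : z.fP 𝔽0 i0 i2 α (fun s t => (σ.lab i0 i2 x s t).val) v =
      tpoly z.θ 𝔽0 1 n0 n1 nn (z.crs v i0 i1 i2) := by
    have h1 := (z.tpoly_eq_fP 𝔽0 hm (hlam ▸ hα.kumAt hm.2.1) n0 n1 nn
      fun l h => hnn l (Or.inr (Or.inr h))).2
    rw [hα1] at h1
    rw [h1]
    refine z.fP_congr_TE 𝔽0 i0 i2 α v ?_ fun s hs a0 a2 t => ?_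
    · have h2 : σ.tlab 𝔽0 v i0 i1 n0 n1 nn (σ.dir v i0) 1 < 𝔽.m := by
        unfold Shape.tlab
        rw [if_pos rfl]
        exact lt_of_le_of_lt (Nat.add_le_add_left (Nat.mul_le_mul_left _ (hle _)) _) hb0
      rw [← ZMod.val_cast_of_lt h2]
      simp only [x]
      rw [xT_lab0_TE (nn := fun l => (nn l : ZMod 𝔽.m)) _ _ _ hm c0 c1 c2, 𝔽0.card_units]
      unfold Shape.tlab
      rw [if_pos rfl]
      push_cast
      rw [nsmul_eq_mul]
    · have h2 : σ.tlab 𝔽0 v i0 i1 n0 n1 nn s t < 𝔽.m := by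
        unfold Shape.tlab
        rw [if_neg a0]
        refine lt_of_le_of_lt (Nat.add_le_add ?_ (hle _)) (hb1 t)
        split_ifs
        · exact le_rfl
        · exact Nat.zero_le _
      rw [← ZMod.val_cast_of_lt h2]
      simp only [x]
      rw [xT_lab1_TE (nn := fun l => (nn l : ZMod 𝔽.m)) _ _ _ c1 hs a0 a2]
      unfold Shape.tlab
      rw [if_neg a0]
      push_cast
      rfl
  have hR := z.real_YP 𝔽0 𝔽 h02 (fun _ : Unit => x) (fun _ => hx) hα
    (fun _ u t => if u = v ∧ t = 1 then w else 0) (fun _ u _ => ⟨?_, fun t ht => ?_⟩)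
    (fun _ u t hu => Or.inl (if_neg fun h : u = v ∧ t = 1 => hu (h.1 ▸ hm.2.1)))
  · have hs : ∑ u : Fin σ.r, ∑ t : 𝔽0.Fˣ, (if u = v ∧ t = 1 then w else 0) = w := by
      simp [ite_and]
    simp only [hs] at hR
    refine hR.mono fun G _ _ d h => test_of_YP_TE 𝔽0 𝔽 h01 h12 n0 n1 nn D w e0 e1 e2
      (by omega) (fun t => by have := hb1 t; omega) (fun l => ?_) (by omega) G d h
    have a := hb1 1
    have b : nn l ≤ ∑ l, nn l :=
      Finset.single_le_sum (fun _ _ => Nat.zero_le _) (Finset.mem_univ l)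
    omega
  · by_cases h : u = v
    · subst h
      rw [if_pos ⟨rfl, rfl⟩, hf]
      refine Or.inr ⟨?_, ?_, hdet⟩
      · rw [tpoly_natDegree]
        exact hw1
      · rw [tpoly_natDegree]
        exact hw2
    · exact Or.inl (if_neg fun a => h a.1)
  · exact if_neg fun a => ht a.2

end Pool.Agent.Adm

end

section

/-! Construction of pure vectors; powers of two. -/

namespace Pool.Agent.Adm

variable {ι : Type} [Fintype ι] [DecidableEq ι]

theorem sum_bits_LC3 (N k : ℕ) :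
    ∑ b ∈ Finset.range k, (if N.testBit b then 2 ^ b else 0) = N % 2 ^ k := by
  induction k with
  | zero => simp [Nat.mod_one]
  | succ k ih =>
    rw [Finset.sum_range_succ, ih, Nat.mod_pow_succ, Nat.testBit_eq_decide_div_mod_eq]
    rcases Nat.mod_two_eq_zero_or_one (N / 2 ^ k) with h | h <;> simp [h]

theorem sum_bits_fin_LC3 (N k : ℕ) (hN : N < 2 ^ k) :
    ∑ b : Fin k, (if N.testBit b then 2 ^ b.1 else 0) = N := by
  rw [Fin.sum_univ_eq_sum_range (fun b => if N.testBit b then 2 ^ b else 0) k, sum_bits_LC3,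
    Nat.mod_eq_of_lt hN]

theorem sum_cobits_LC3 (N k : ℕ) (hN : N < 2 ^ k) :
    ∑ b : Fin k, (if N.testBit b then 0 else 2 ^ b.1) + N = 2 ^ k - 1 := by
  have h1 : ∑ b : Fin k, 2 ^ b.1 = 2 ^ k - 1 := by
    rw [Fin.sum_univ_eq_sum_range (fun i => 2 ^ i) k, Nat.geomSum_eq le_rfl]
    simp
  have h2 := sum_bits_fin_LC3 N k hN
  have h3 : ∑ b : Fin k, (if N.testBit b then 0 else 2 ^ b.1) +
      ∑ b : Fin k, (if N.testBit b then 2 ^ b.1 else 0) = ∑ b : Fin k, 2 ^ b.1 := by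
    rw [← Finset.sum_add_distrib]
    exact Finset.sum_congr rfl fun b _ => by split_ifs <;> simp
  rw [← h1, ← h3, h2]

theorem exists_pure_AP (r : ℕ) (hr : Fintype.card ι ≤ r) (i j : ι) (hij : i ≠ j) :
    ∃ U : ι → ℕ, ∀ N : ℕ, N < 2 ^ (r - Fintype.card ι) → ∃ o : Fin r → ι, Function.Surjective o ∧
      ∀ l, (bitv o l : ℤ) =
        U l + (N : ℤ) * ((if l = i then 1 else 0) - if l = j then 1 else 0) := by
  obtain ⟨k, rfl⟩ : ∃ k, r = k + Fintype.card ι := ⟨r - Fintype.card ι, by omega⟩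
  rw [Nat.add_sub_cancel]
  let e : Fin (Fintype.card ι) ≃ ι := (Fintype.equivFin ι).symm
  refine ⟨fun l => (if l = j then 2 ^ k - 1 else 0) +
    ∑ c : Fin (Fintype.card ι), if e c = l then 2 ^ (k + c.1) else 0, fun N hN => ?_⟩
  refine ⟨Fin.addCases (motive := fun _ => ι) (fun b => if N.testBit b then i else j) e, ?_, ?_⟩
  · intro l
    exact ⟨Fin.natAdd k (e.symm l), by simp⟩
  · intro l
    rw [bitv, Finset.sum_filter, Fin.sum_univ_add]
    simp only [Fin.addCases_left, Fin.addCases_right, Fin.val_castAdd, Fin.val_natAdd]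
    have key : ((∑ b : Fin k, if (if N.testBit b then i else j) = l then 2 ^ b.1 else 0 : ℕ) : ℤ) =
        ((if l = j then 2 ^ k - 1 else 0 : ℕ) : ℤ) +
          (N : ℤ) * ((if l = i then 1 else 0) - if l = j then 1 else 0) := by
      by_cases hi : l = i
      · subst hi
        have : ∀ b : Fin k, (if (if N.testBit b then l else j) = l then 2 ^ b.1 else 0 : ℕ) =
            if N.testBit b then 2 ^ b.1 else 0 := fun b => by
          by_cases hb : N.testBit b <;> simp [hb, hij.symm]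
        simp only [this, sum_bits_fin_LC3 N k hN]
        simp [hij]
      · by_cases hj : l = j
        · subst hj
          have : ∀ b : Fin k, (if (if N.testBit b then i else l) = l then 2 ^ b.1 else 0 : ℕ) =
              if N.testBit b then 0 else 2 ^ b.1 := fun b => by
            by_cases hb : N.testBit b <;> simp [hb, hij]
          have h2 := sum_cobits_LC3 N k hN
          rw [Finset.sum_congr rfl fun b _ => this b, if_pos rfl, if_neg hi, if_pos rfl, ← h2]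
          push_cast
          ring
        · have : ∀ b : Fin k, (if (if N.testBit b then i else j) = l then 2 ^ b.1 else 0 : ℕ) =
              0 := fun b => by
            by_cases hb : N.testBit b <;> simp [hb, Ne.symm hi, Ne.symm hj]
          simp [this, hi, hj]
    rw [Nat.cast_add, key, Nat.cast_add]
    ring

theorem card_two_LC3 {α : Type} [Fintype α] [DecidableEq α] {a b : α} (h : a ≠ b) :
    Fintype.card {x : α // x ≠ a ∧ x ≠ b} = Fintype.card α - 2 := by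
  rw [Fintype.card_subtype]
  have : Finset.univ.filter (fun x : α => x ≠ a ∧ x ≠ b) = (Finset.univ.erase b).erase a := by
    ext x
    simp
  rw [this, Finset.card_erase_of_mem (by simp [h]), Finset.card_erase_of_mem (by simp),
    Finset.card_univ]
  omega

theorem exists_pure_pair (r : ℕ) (hr : Fintype.card ι ≤ r) (h3 : 3 ≤ Fintype.card ι) (i j : ι)
    (hij : i ≠ j) (b : ℕ) (hb0 : 0 < b) (hb : b < r) :
    ∃ o : Fin r → ι, Function.Surjective o ∧ bitv o i = 1 ∧ bitv o j = 2 ^ b := by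
  let z : Fin r := ⟨0, by omega⟩
  let w : Fin r := ⟨b, hb⟩
  have hzw : z ≠ w := fun h => by
    have := congrArg Fin.val h
    simp only [z, w] at this
    omega
  have hB := card_two_LC3 hij
  have hA := card_two_LC3 hzw
  rw [Fintype.card_fin] at hA
  have : Nonempty {x : ι // x ≠ i ∧ x ≠ j} := Fintype.card_pos_iff.1 (by omega)
  obtain ⟨f⟩ : Nonempty ({x : ι // x ≠ i ∧ x ≠ j} ↪ {x : Fin r // x ≠ z ∧ x ≠ w}) :=
    Function.Embedding.nonempty_of_card_le (by omega)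
  have hg : Function.Surjective (Function.invFun f) := Function.invFun_surjective f.injective
  let o : Fin r → ι := fun c =>
    if h0 : c = z then i else if h1 : c = w then j else (Function.invFun f ⟨c, h0, h1⟩).1
  have hz : o z = i := by simp [o]
  have hw : o w = j := by simp [o, hzw.symm]
  have ho : ∀ c (h0 : c ≠ z) (h1 : c ≠ w), o c = (Function.invFun f ⟨c, h0, h1⟩).1 :=
    fun c h0 h1 => by simp [o, h0, h1]
  refine ⟨o, ?_, ?_, ?_⟩
  · intro l
    by_cases hi : l = i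
    · exact ⟨z, hz.trans hi.symm⟩
    by_cases hj : l = j
    · exact ⟨w, hw.trans hj.symm⟩
    obtain ⟨c, hc⟩ := hg ⟨l, hi, hj⟩
    exact ⟨c.1, (ho c.1 c.2.1 c.2.2).trans (congrArg Subtype.val hc)⟩
  · have : Finset.univ.filter (fun c => o c = i) = {z} := by
      ext c
      simp only [Finset.mem_filter, Finset.mem_univ, true_and, Finset.mem_singleton]
      refine ⟨fun h => ?_, fun h => h ▸ hz⟩
      by_contra h0
      by_cases h1 : c = w
      · exact hij (h.symm.trans (h1 ▸ hw))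
      · exact (Function.invFun f ⟨c, h0, h1⟩).2.1 ((ho c h0 h1).symm.trans h)
    rw [bitv, this, Finset.sum_singleton]
    rfl
  · have : Finset.univ.filter (fun c => o c = j) = {w} := by
      ext c
      simp only [Finset.mem_filter, Finset.mem_univ, true_and, Finset.mem_singleton]
      refine ⟨fun h => ?_, fun h => h ▸ hw⟩
      by_contra h1
      by_cases h0 : c = z
      · exact hij ((h0 ▸ hz : o c = i).symm.trans h)
      · exact (Function.invFun f ⟨c, h0, h1⟩).2.2 ((ho c h0 h1).symm.trans h)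
    rw [bitv, this, Finset.sum_singleton]

theorem rot_LC3 (r m : ℕ) (hr : 1 < r) (hm : m + 1 = 2 ^ r) (x : ZMod m) (hx : x ≠ 0)
    (h : ∀ a b : ℕ, 0 < b → b < r → (2 ^ a * x).val + (2 ^ a * (x * 2 ^ b)).val ≤ m) :
    ∃ c : ℕ, x = 2 ^ c := by
  obtain ⟨s, rfl⟩ : ∃ s, r = s + 1 := ⟨r - 1, by omega⟩
  have hs : 2 ≤ 2 ^ s := by
    calc 2 = 2 ^ 1 := rfl
      _ ≤ 2 ^ s := Nat.pow_le_pow_right (by norm_num) (by omega)
  have hm2 : m + 1 = 2 * 2 ^ s := by rw [hm, pow_succ, mul_comm]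
  have : NeZero m := ⟨by omega⟩
  have h1 : (2 : ZMod m) ^ (s + 1) = 1 := by
    have : ((m + 1 : ℕ) : ZMod m) = ((2 ^ (s + 1) : ℕ) : ZMod m) := by rw [hm]
    push_cast at this
    rw [ZMod.natCast_self, zero_add] at this
    exact this.symm
  let v : ℕ → ℕ := fun a => ((2 : ZMod m) ^ a * x).val
  have hlt : ∀ a, v a < m := fun a => ZMod.val_lt _
  have hdbl : ∀ a, (2 : ZMod m) ^ (a + 1) * x = 2 ^ a * x + 2 ^ a * x := fun a => by ring
  have hlo : ∀ a, 2 * v a < m → v (a + 1) = 2 * v a := fun a ha => by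
    simp only [v] at ha ⊢
    rw [hdbl, ZMod.val_add_of_lt (by omega)]
    omega
  have hhi : ∀ a, m ≤ 2 * v a → v (a + 1) = 2 * v a - m := fun a ha => by
    simp only [v] at ha ⊢
    rw [hdbl, ZMod.val_add_of_le (by omega)]
    omega
  have hper : ∀ a, v (a + (s + 1)) = v a := fun a => by
    simp only [v]
    rw [pow_add, h1, mul_one]
  have hh : ∀ a b, 0 < b → b < s + 1 → v a + v (a + b) ≤ m := fun a b h0 hb => by
    have := h a b h0 hb
    have e : (2 : ZMod m) ^ a * (x * 2 ^ b) = 2 ^ (a + b) * x := by ring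
    rw [e] at this
    exact this
  have hrun : ∀ a c, (∀ d < c, 2 * v (a + d) < m) → v (a + c) = 2 ^ c * v a := by
    intro a c
    induction c with
    | zero => intro _; simp
    | succ c ih =>
      intro hc
      rw [← add_assoc, hlo _ (hc c (by omega)), ih fun d hd => hc d (by omega)]
      ring
  by_cases hall : ∀ a, 2 * v a < m
  · exfalso
    have h2 := hrun 0 (s + 1) fun d _ => hall _
    have h3 : 0 < v 0 := by
      simp only [v, pow_zero, one_mul]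
      exact Nat.pos_of_ne_zero fun h0 => hx ((ZMod.val_eq_zero x).1 h0)
    have h4 := hlt (0 + (s + 1))
    rw [h2, ← hm] at h4
    nlinarith
  · obtain ⟨a, ha⟩ := not_forall.1 hall
    have ha' : m < 2 * v a := by omega
    have h2 := hrun (a + 1) s fun d hd => by
      have := hh a (1 + d) (by omega) (by omega)
      rw [← add_assoc] at this
      omega
    have h3 : v (a + 1 + s) = v a := by
      rw [← hper a]
      congr 1
      omega
    have h4 := hhi a ha'.le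
    have h5 : v (a + 1) = 1 := by
      rw [h3] at h2
      have h6 : v (a + 1) + m = (m + 1) * v (a + 1) := by
        rw [hm2, mul_assoc, ← h2]
        omega
      have h7 : m * v (a + 1) = m * 1 := by linarith
      exact Nat.eq_of_mul_eq_mul_left (by omega) h7
    have h6 : (2 : ZMod m) ^ (a + 1) * x = 1 := by
      have := ZMod.natCast_zmod_val ((2 : ZMod m) ^ (a + 1) * x)
      rw [show ((2 : ZMod m) ^ (a + 1) * x).val = 1 from h5, Nat.cast_one] at this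
      exact this.symm
    refine ⟨s * (a + 1), ?_⟩
    calc x = ((2 : ZMod m) ^ (s + 1)) ^ (a + 1) * x := by rw [h1, one_pow, one_mul]
      _ = 2 ^ (s * (a + 1)) * (2 ^ (a + 1) * x) := by ring
      _ = 2 ^ (s * (a + 1)) := by rw [h6, mul_one]

theorem eq_two_pow_of_rotations (r : ℕ) (hr : 1 < r) (x : ZMod (2 ^ r - 1)) (hx : x ≠ 0)
    (h : ∀ a b : ℕ, 0 < b → b < r → (2 ^ a * x).val + (2 ^ a * (x * 2 ^ b)).val ≤ 2 ^ r - 1) :
    ∃ c : ℕ, x = 2 ^ c :=
  rot_LC3 r (2 ^ r - 1) hr (Nat.sub_add_cancel Nat.one_le_two_pow) x hx h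

end Pool.Agent.Adm

end

section

/-! Hasse-Witt determinants: pure labels and rescaling. -/

namespace Pool.Agent.Adm

open Polynomial

variable {k : Type} [Field k]

theorem HW_apply_PD (q : ℕ) (f : k[X]) (w : ℕ) (i j : Fin w) : HW q f w i j =
    if j.1 + 1 ≤ q * (i.1 + 1) then f.coeff (q * (i.1 + 1) - (j.1 + 1)) else 0 := rfl

theorem det_HW_two [CharP k 2] (g : k[X]) (hg : g.Separable) (w : ℕ) (h1 : w ≤ g.natDegree)
    (h2 : g.natDegree ≤ w + 1) : (HW 2 g w).det ≠ 0 := by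
  intro h
  obtain ⟨c, hc, h0⟩ := Matrix.exists_mulVec_eq_zero_iff.2 h
  set ct : k[X] := ∑ j : Fin w, C (c j) * X ^ j.1 with hct
  have a1 : ∀ m, (g * ct).coeff m =
      ∑ j : Fin w, (if j.1 ≤ m then g.coeff (m - j.1) else 0) * c j := fun m => by
    rw [hct, Finset.mul_sum, finsetSum_coeff]
    refine Finset.sum_congr rfl fun j _ => ?_
    rw [mul_left_comm, coeff_C_mul, coeff_mul_X_pow', mul_comm]
  have a2 : ∀ i, (g * ct).coeff (2 * i + 1) = 0 := fun i => by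
    rw [a1]
    rcases lt_or_ge i w with hi | hi
    · have := congrFun h0 ⟨i, hi⟩
      rw [Pi.zero_apply, Matrix.mulVec, dotProduct] at this
      refine Eq.trans (Finset.sum_congr rfl fun j _ => ?_) this
      rw [HW_apply_PD, show 2 * (i + 1) - (j.1 + 1) = 2 * i + 1 - j.1 by omega]
      exact congrArg (· * c j) (if_congr (show _ ↔ _ ≤ 2 * (i + 1) by omega) rfl rfl)
    · refine Finset.sum_eq_zero fun j _ => ?_
      have := j.2
      rw [coeff_eq_zero_of_natDegree_lt (by omega), ite_self, zero_mul]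
  have a3 : derivative (g * ct) = 0 := by
    ext m
    rw [coeff_derivative, coeff_zero]
    rcases Nat.even_or_odd' m with ⟨i, rfl | rfl⟩
    · rw [a2, zero_mul]
    · have : ((2 * i + 1 : ℕ) : k) + 1 = 0 := by
        have h2 : (2 : k) = 0 := CharTwo.two_eq_zero
        push_cast
        linear_combination (i + 1 : k) * h2
      rw [this, mul_zero]
  have a4 : g ∣ ct := by
    refine IsCoprime.dvd_of_dvd_mul_left hg ?_
    rw [derivative_mul, add_eq_zero_iff_eq_neg] at a3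
    rw [a3, dvd_neg]
    exact dvd_mul_right _ _
  have a5 : ct = 0 := eq_zero_of_dvd_of_degree_lt a4 ((degree_sum_fin_lt c).trans_le (by
    rw [degree_eq_natDegree hg.ne_zero]
    exact_mod_cast h1))
  refine hc (funext fun j => ?_)
  have a6 : ct.coeff j.1 = c j := by
    rw [hct, finsetSum_coeff, Finset.sum_eq_single j]
    · simp
    · intro l _ hl
      rw [coeff_C_mul, coeff_X_pow, if_neg (fun e => hl (Fin.ext e.symm)), mul_zero]
    · simp
  rw [← a6, a5, coeff_zero, Pi.zero_apply]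

theorem HW_mul_sq [CharP k 2] (g h : k[X]) (w q : ℕ) (h2 : g.natDegree ≤ w + 1) :
    HW (2 * q) (g * h ^ 2) w =
      (Matrix.of fun i l : Fin w =>
        if l.1 + 1 ≤ q * (i.1 + 1) then h.coeff (q * (i.1 + 1) - (l.1 + 1)) ^ 2 else 0) *
        HW 2 g w := by
  ext i j
  simp only [Matrix.mul_apply, Matrix.of_apply, HW_apply_PD, mul_assoc]
  generalize q * (i.1 + 1) = N
  have hj := j.2
  induction h using Polynomial.induction_on' with
  | add u v hu hv =>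
    simp only [CharTwo.add_sq, mul_add g, coeff_add, ite_add_zero, add_mul,
      Finset.sum_add_distrib, hu, hv]
  | monomial m a =>
    rw [monomial_pow, ← C_mul_X_pow_eq_monomial, mul_left_comm, coeff_C_mul, coeff_mul_X_pow']
    by_cases hm : m < N ∧ N - m - 1 < w
    · rw [Finset.sum_eq_single ⟨N - m - 1, hm.2⟩ _ (by simp)]
      · simp only [coeff_monomial]
        rw [if_pos (show N - m - 1 + 1 ≤ N by omega), if_pos (show m = N - (N - m - 1 + 1) by omega)]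
        by_cases e : j.1 + 1 ≤ 2 * (N - m - 1 + 1)
        · rw [if_pos e, if_pos (by omega), if_pos (by omega)]
          congr 2
          omega
        · rw [if_neg e, mul_zero]
          split_ifs with e1 e2
          · omega
          · rw [mul_zero]
          · rfl
      · intro l _ hl
        have : l.1 ≠ N - m - 1 := fun e => hl (Fin.ext e)
        split_ifs with e
        · rw [coeff_monomial, if_neg (by omega), zero_pow two_ne_zero, zero_mul]
        · rw [mul_zero]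
        · rw [zero_mul]
        · rw [zero_mul]
    · rw [Finset.sum_eq_zero]
      · split_ifs with e e'
        · rw [coeff_eq_zero_of_natDegree_lt (by omega), mul_zero]
        · rw [mul_zero]
        · rfl
      · intro l _
        have := l.2
        split_ifs with e
        · rw [coeff_monomial, if_neg (by omega), zero_pow two_ne_zero, zero_mul]
        · rw [mul_zero]
        · rw [zero_mul]
        · rw [zero_mul]

theorem det_HW_prod [CharP k 2] (r w : ℕ) (hr : 0 < r) (g : Fin r → k[X])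
    (hg : ∀ b, (g b).Separable ∧ w ≤ (g b).natDegree ∧ (g b).natDegree ≤ w + 1) :
    (HW (2 ^ r) (∏ b, g b ^ 2 ^ b.1) w).det ≠ 0 := by
  induction r, hr using Nat.le_induction with
  | base => simpa using det_HW_two (g 0) (hg 0).1 w (hg 0).2.1 (hg 0).2.2
  | succ r hr ih =>
    have e : ∏ b, g b ^ 2 ^ b.1 = g 0 * (∏ b : Fin r, g b.succ ^ 2 ^ b.1) ^ 2 := by
      rw [Fin.prod_univ_succ, ← Finset.prod_pow]
      simp only [Fin.val_zero, pow_zero, pow_one, Fin.val_succ, pow_succ, pow_mul]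
    rw [e, pow_succ', HW_mul_sq _ _ _ _ (hg 0).2.2, Matrix.det_mul]
    refine mul_ne_zero ?_ (det_HW_two (g 0) (hg 0).1 w (hg 0).2.1 (hg 0).2.2)
    have h1 := (map_ne_zero (frobenius k 2)).2 (ih (fun b => g b.succ) fun b => hg b.succ)
    rw [RingHom.map_det] at h1
    convert h1 using 2
    ext i l
    rw [RingHom.mapMatrix_apply, Matrix.map_apply, Matrix.of_apply, HW_apply_PD]
    split_ifs
    · rfl
    · rw [map_zero]

theorem det_HW_scale (q w : ℕ) (f : k[X]) (η : k) (hη : η ≠ 0) :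
    (HW q (f.scaleRoots η) w).det ≠ 0 ↔ (HW q f w).det ≠ 0 := by
  have e : HW q (f.scaleRoots η) w =
      Matrix.diagonal (fun i : Fin w => η ^ f.natDegree / η ^ (q * (i.1 + 1))) * HW q f w *
        Matrix.diagonal fun j : Fin w => η ^ (j.1 + 1) := by
    ext i j
    rw [Matrix.mul_diagonal, Matrix.diagonal_mul, HW_apply_PD, HW_apply_PD]
    generalize q * (i.1 + 1) = N
    split_ifs with h
    · obtain ⟨m, rfl⟩ := Nat.exists_eq_add_of_le h
      rw [Nat.add_sub_cancel_left, coeff_scaleRoots]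
      rcases le_or_gt m f.natDegree with hm | hm
      · obtain ⟨r, hr⟩ := Nat.exists_eq_add_of_le hm
        rw [hr, Nat.add_sub_cancel_left]
        field_simp
        ring
      · simp [coeff_eq_zero_of_natDegree_lt hm]
    · simp
  rw [e, Matrix.det_mul, Matrix.det_mul, Matrix.det_diagonal, Matrix.det_diagonal,
    mul_ne_zero_iff, mul_ne_zero_iff]
  exact ⟨fun h => h.1.2, fun h => ⟨⟨Finset.prod_ne_zero_iff.2 fun i _ =>
    div_ne_zero (pow_ne_zero _ hη) (pow_ne_zero _ hη), h⟩,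
    Finset.prod_ne_zero_iff.2 fun i _ => pow_ne_zero _ hη⟩⟩

theorem det_HW_C_mul (q w : ℕ) (f : k[X]) (c : k) (hc : c ≠ 0) :
    (HW q (C c * f) w).det ≠ 0 ↔ (HW q f w).det ≠ 0 := by
  have e : HW q (C c * f) w = c • HW q f w := by
    ext i j
    rw [Matrix.smul_apply, HW_apply_PD, HW_apply_PD, coeff_C_mul, smul_eq_mul, mul_ite, mul_zero]
  rw [e, Matrix.det_smul, mul_ne_zero_iff_left (pow_ne_zero _ hc)]

theorem det_HW_map {k' : Type} [Field k'] (φ : k →+* k') (q w : ℕ) (f : k[X]) :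
    (HW q (f.map φ) w).det = φ (HW q f w).det := by
  rw [RingHom.map_det]
  congr 1
  ext i j
  rw [RingHom.mapMatrix_apply, Matrix.map_apply, HW_apply_PD, HW_apply_PD, coeff_map]
  split_ifs
  · rfl
  · rw [map_zero]

end Pool.Agent.Adm

end

section

/-! Pure labels satisfy the existence condition. -/

namespace Pool.Agent.Adm

open Polynomial

variable {k σ : Type} [Field k] [CharP k 2] [Fintype σ] [DecidableEq σ]

theorem sum_two_pow_PD2 (r : ℕ) : ∑ b : Fin r, 2 ^ b.1 = 2 ^ r - 1 := by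
  rw [Fin.sum_univ_eq_sum_range (fun i => 2 ^ i) r, Nat.geomSum_eq le_rfl]
  simp

theorem sum_bitv {r : ℕ} (o : Fin r → σ) : ∑ s, bitv o s = 2 ^ r - 1 := by
  rw [← sum_two_pow_PD2]
  exact Finset.sum_fiberwise Finset.univ o fun b => 2 ^ b.1

omit [Fintype σ] in
theorem bitv_add_PD2 {r : ℕ} (o : Fin r → σ) (s : σ) :
    bitv o s + ∑ b ∈ Finset.univ.filter (fun b => ¬ o b = s), 2 ^ b.1 = 2 ^ r - 1 := by
  rw [← sum_two_pow_PD2]
  exact Finset.sum_filter_add_sum_filter_not _ _ _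

theorem bitv_comp {r : ℕ} {σ' : Type} [DecidableEq σ'] (o : Fin r → σ) (f : σ → σ') (s' : σ') :
    bitv (fun b => f (o b)) s' = ∑ s ∈ Finset.univ.filter (fun s => f s = s'), bitv o s := by
  simp only [bitv, Finset.sum_filter]
  have : ∀ s : σ, (if f s = s' then ∑ b : Fin r, (if o b = s then 2 ^ b.1 else 0) else 0) =
      ∑ b : Fin r, if o b = s then (if f s = s' then 2 ^ b.1 else 0) else 0 := fun s => by
    split_ifs <;> simp
  simp only [this]
  rw [Finset.sum_comm]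
  simp

theorem val_neg_bitv (𝔽 : FF) (o : Fin 𝔽.r → σ) (ho : Function.Surjective o) (s : σ) :
    (-(bitv o s : ZMod 𝔽.m)).val = 𝔽.m - bitv o s := by
  have h1 : bitv o s ≤ 𝔽.m := le_of_le_of_eq (Nat.le_add_right _ _) (bitv_add_PD2 o s)
  have h2 : 0 < bitv o s := by
    obtain ⟨b, hb⟩ := ho s
    exact Finset.sum_pos (fun _ _ => by positivity) ⟨b, by simpa using hb⟩
  have h3 : (-(bitv o s : ZMod 𝔽.m)) = ((𝔽.m - bitv o s : ℕ) : ZMod 𝔽.m) := by
    rw [Nat.cast_sub h1, ZMod.natCast_self, zero_sub]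
  rw [h3, ZMod.val_natCast_of_lt (by omega)]

theorem hwok_of_PD2 (𝔽 : FF) (w : ℕ) (g : Fin 𝔽.r → k[X]) (hm : ∀ b, (g b).Monic)
    (hg : ∀ b, (g b).Separable ∧ w ≤ (g b).natDegree ∧ (g b).natDegree ≤ w + 1)
    (hb : ∃ b, w < (g b).natDegree) : HWok 𝔽 (∏ b, g b ^ 2 ^ b.1) w := by
  have e : (∏ b, g b ^ 2 ^ b.1).natDegree = ∑ b : Fin 𝔽.r, 2 ^ b.1 * (g b).natDegree := by
    rw [natDegree_prod_of_monic _ _ fun b _ => (hm b).pow _]
    exact Finset.sum_congr rfl fun b _ => (hm b).natDegree_pow _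
  have e2 : ∀ c : ℕ, c * 𝔽.m = ∑ b : Fin 𝔽.r, 2 ^ b.1 * c := fun c => by
    rw [← Finset.sum_mul, sum_two_pow_PD2, mul_comm, FF.m]
  refine Or.inr ⟨?_, ?_, det_HW_prod _ _ 𝔽.r_pos g hg⟩
  · rw [e, e2]
    obtain ⟨b, hb⟩ := hb
    exact Finset.sum_lt_sum (fun b _ => Nat.mul_le_mul_left _ (hg b).2.1)
      ⟨b, Finset.mem_univ _, Nat.mul_lt_mul_of_pos_left hb (by positivity)⟩
  · rw [e, e2]
    exact Finset.sum_le_sum fun b _ => Nat.mul_le_mul_left _ (hg b).2.2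

theorem hwok_gen_PD2 (𝔽 : FF) (p : σ → k) (hp : Function.Injective p) {τ : Type} [DecidableEq τ]
    (j : σ → τ) (o : Fin 𝔽.r → τ) (w : ℕ)
    (h1 : ∀ b, w ≤ (Finset.univ.filter fun s => ¬ o b = j s).card ∧
      (Finset.univ.filter fun s => ¬ o b = j s).card ≤ w + 1)
    (h2 : ∃ b, w < (Finset.univ.filter fun s => ¬ o b = j s).card) :
    HWok 𝔽 (∏ s, (X - C (p s)) ^ (𝔽.m - bitv o (j s))) w := by
  have e : ∏ s, (X - C (p s)) ^ (𝔽.m - bitv o (j s)) =
      ∏ b : Fin 𝔽.r, (∏ s ∈ Finset.univ.filter fun s => ¬ o b = j s, (X - C (p s))) ^ 2 ^ b.1 := by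
    have e1 : ∀ s, 𝔽.m - bitv o (j s) =
        ∑ b ∈ Finset.univ.filter (fun b => ¬ o b = j s), 2 ^ b.1 := fun s => by
      have := bitv_add_PD2 o (j s)
      rw [FF.m]
      omega
    simp only [e1, ← Finset.prod_pow_eq_pow_sum, ← Finset.prod_pow]
    exact Finset.prod_comm' fun s b => by simp
  have d : ∀ b, (∏ s ∈ Finset.univ.filter fun s => ¬ o b = j s, (X - C (p s))).natDegree =
      (Finset.univ.filter fun s => ¬ o b = j s).card := fun b => by
    rw [natDegree_prod_of_monic _ _ fun s _ => monic_X_sub_C _]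
    simp
  rw [e]
  refine hwok_of_PD2 𝔽 w _ (fun b => monic_prod_of_monic _ _ fun s _ => monic_X_sub_C _)
    (fun b => ⟨separable_prod_X_sub_C_iff'.2 fun x _ y _ h => hp h, ?_⟩) ?_
  · rw [d]
    exact h1 b
  · simpa only [d] using h2

omit [Field k] [CharP k 2] in
theorem card_ne_PD2 (t : σ) :
    (Finset.univ.filter fun s => ¬ t = s).card = Fintype.card σ - 1 := by
  rw [Finset.filter_not, Finset.filter_eq, if_pos (Finset.mem_univ _), Finset.card_univ_diff,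
    Finset.card_singleton]

theorem hwok_pure_fin (𝔽 : FF) (p : σ → k) (hp : Function.Injective p) (o : Fin 𝔽.r → σ)
    (ho : Function.Surjective o) (h2 : 2 ≤ Fintype.card σ) :
    HWok 𝔽 (∏ s, (X - C (p s)) ^ (𝔽.m - bitv o s)) (Fintype.card σ - 2) := by
  refine hwok_gen_PD2 𝔽 p hp (fun s => s) o _ (fun b => ?_) ⟨⟨0, 𝔽.r_pos⟩, ?_⟩
  · rw [card_ne_PD2]
    omega
  · rw [card_ne_PD2]
    omega

theorem hwok_pure_inf (𝔽 : FF) (p : σ → k) (hp : Function.Injective p)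
    (o : Fin 𝔽.r → Option σ) (ho : Function.Surjective o) (h1 : 1 ≤ Fintype.card σ) :
    HWok 𝔽 (∏ s, (X - C (p s)) ^ (𝔽.m - bitv o (some s))) (Fintype.card σ - 1) := by
  have e0 : (Finset.univ.filter fun s : σ => ¬ none = some s).card = Fintype.card σ := by simp
  refine hwok_gen_PD2 𝔽 p hp some o _ (fun b => ?_) ?_
  · cases o b with
    | none =>
      rw [e0]
      omega
    | some t =>
      simp only [Option.some.injEq]
      rw [card_ne_PD2]
      omega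
  · obtain ⟨b, hb⟩ := ho none
    refine ⟨b, ?_⟩
    rw [hb, e0]
    omega

end Pool.Agent.Adm

end

section

/-! A periodic polynomial with prescribed coefficients in windows. -/

namespace Pool.Agent.Adm

open Polynomial

theorem sum_eq_GP1 {n : ℕ} (ω : ℕ) (S : Finset (Fin n)) :
    ∑ l ∈ S, 2 ^ (ω + l.1) = 2 ^ ω * ∑ l ∈ S.map Fin.valEmbedding, 2 ^ l := by
  rw [Finset.sum_map, Finset.mul_sum]
  exact Finset.sum_congr rfl fun l _ => pow_add _ _ _

theorem sum_lt_GP1 {n : ℕ} (S : Finset (Fin n)) :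
    ∑ l ∈ S.map Fin.valEmbedding, 2 ^ l < 2 ^ n :=
  Nat.geomSum_lt le_rfl fun k hk => by
    obtain ⟨l, -, rfl⟩ := Finset.mem_map.1 hk
    exact l.2

/-- The position p carries the datum x. -/
def Rel_GP1 {n s : ℕ} (ω e p : ℕ) (x : Fin s × Fin s × Finset (Fin n)) : Prop :=
  p + x.2.1.1 ≡ x.1.1 [MOD s] ∧ p + (x.2.1.1 + 1) ≡ ∑ l ∈ x.2.2, 2 ^ (ω + l.1) [MOD 2 ^ e]

theorem bound_GP1 {n ω e K j : ℕ} (he : ω + n < e) (hK : K < 2 ^ n) (hj : j < 2 ^ ω) :
    2 ^ ω * K + j < 2 ^ e := by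
  have h1 : 2 ^ ω * (K + 1) ≤ 2 ^ ω * 2 ^ n := Nat.mul_le_mul_left _ hK
  have h2 : 2 ^ (ω + n) ≤ 2 ^ e := Nat.pow_le_pow_right (by norm_num) he.le
  rw [pow_add] at h2
  rw [mul_add] at h1
  omega

theorem rel_unique_GP1 {n s ω e p : ℕ} (hω : s < 2 ^ ω) (he : ω + n < e)
    {x y : Fin s × Fin s × Finset (Fin n)} (hx : Rel_GP1 ω e p x) (hy : Rel_GP1 ω e p y) :
    x = y := by
  obtain ⟨i, j, S⟩ := x
  obtain ⟨i', j', S'⟩ := y
  obtain ⟨h1, h2⟩ := hx
  obtain ⟨h3, h4⟩ := hy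
  simp only [sum_eq_GP1] at h1 h2 h3 h4
  have hj : j.1 + 1 < 2 ^ ω := by have := j.2; omega
  have hj' : j'.1 + 1 < 2 ^ ω := by have := j'.2; omega
  have h4' := h4.add_right (j.1 + 1)
  rw [add_right_comm] at h4'
  have h5 := (h2.add_right (j'.1 + 1)).symm.trans h4'
  have h6 := Nat.ModEq.eq_of_lt_of_lt h5 (bound_GP1 he (sum_lt_GP1 S) hj')
    (bound_GP1 he (sum_lt_GP1 S') hj)
  have h7 := congrArg (· % 2 ^ ω) h6
  simp only [Nat.mul_add_mod, Nat.mod_eq_of_lt hj, Nat.mod_eq_of_lt hj'] at h7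
  obtain rfl : j = j' := Fin.ext (by omega)
  have h8 := Nat.eq_of_mul_eq_mul_left (Nat.two_pow_pos ω) (Nat.add_right_cancel h6)
  obtain rfl : S = S' := Finset.map_injective _ (Finset.geomSum_injective le_rfl h8)
  obtain rfl : i = i' := Fin.ext (Nat.ModEq.eq_of_lt_of_lt (h1.symm.trans h3) i.2 i'.2)
  rfl

theorem rel_zero_GP1 {n s ω e : ℕ} (hω : s < 2 ^ ω) (he : ω + n < e)
    {x : Fin s × Fin s × Finset (Fin n)} (hx : Rel_GP1 ω e 0 x) : False := by
  obtain ⟨i, j, S⟩ := x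
  have h2 := hx.2
  simp only [sum_eq_GP1, zero_add] at h2
  have hj : j.1 + 1 < 2 ^ ω := by have := j.2; omega
  have h3 := Nat.ModEq.eq_of_lt_of_lt h2
    (by simpa using bound_GP1 he (Nat.two_pow_pos n) hj)
    (by simpa using bound_GP1 he (sum_lt_GP1 S) (Nat.two_pow_pos ω))
  exact absurd (Nat.le_of_dvd (Nat.succ_pos _) ⟨_, h3⟩) (not_le.2 hj)

theorem exists_window (n s ω e : ℕ) (hs : Odd s) (hω : s < 2 ^ ω) (he : ω + n < e)
    (c : Fin s → Fin s → Finset (Fin n) → K0) :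
    ∃ E : K0[X], E.natDegree < s * 2 ^ e ∧ (∀ x : K0, x ^ s = 1 → E.eval x ≠ 0) ∧
      ∀ (q N p : ℕ) (i j : Fin s) (S : Finset (Fin n)), s ∣ N → q % s = 1 % s → 2 ^ e ∣ q →
        2 ^ e ∣ N + 1 → p + (j.1 + 1) + N * ∑ l ∈ S, 2 ^ (ω + l.1) = q * (i.1 + 1) →
        E.coeff (p % (s * 2 ^ e)) = c i j S := by
  classical
  have hM : 0 < s * 2 ^ e := Nat.mul_pos hs.pos (Nat.two_pow_pos e)
  let f : ℕ → K0 := fun p =>
    if h : ∃ x : Fin s × Fin s × Finset (Fin n), Rel_GP1 ω e p x then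
      c h.choose.1 h.choose.2.1 h.choose.2.2 else 0
  let E₀ : K0[X] := ∑ p ∈ Finset.range (s * 2 ^ e), monomial p (f p)
  have hE : ∀ p, E₀.coeff p = if p < s * 2 ^ e then f p else 0 := by
    intro p
    simp only [E₀, finsetSum_coeff, coeff_monomial, Finset.sum_ite_eq', Finset.mem_range]
  obtain ⟨a, ha⟩ := Infinite.exists_notMem_finset
    ((nthRootsFinset s (1 : K0)).image fun x => -E₀.eval x)
  refine ⟨E₀ + C a, ?_, fun x hx h => ha ?_, fun q N p i j S h1 h2 h3 h4 h5 => ?_⟩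
  · rw [natDegree_add_C]
    have : E₀.natDegree ≤ s * 2 ^ e - 1 := natDegree_le_iff_coeff_eq_zero.2 fun p hp => by
      rw [hE, if_neg (by omega)]
    omega
  · rw [eval_add, eval_C] at h
    exact Finset.mem_image.2 ⟨x, (mem_nthRootsFinset hs.pos _).2 hx, by linear_combination -h⟩
  · have hr : Rel_GP1 ω e (p % (s * 2 ^ e)) (i, j, S) := by
      constructor
      · refine (((Nat.mod_modEq p _).of_mul_right _).add_right _).trans ?_
        refine Nat.ModEq.add_right_cancel' 1 ?_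
        have h6 : q * (i.1 + 1) ≡ 1 * (i.1 + 1) [MOD s] := Nat.ModEq.mul_right _ h2
        rw [← h5, one_mul] at h6
        refine Nat.ModEq.trans ?_ h6
        exact ((Nat.modEq_zero_iff_dvd.2 (h1.mul_right _)).add_left _).symm
      · refine (((Nat.mod_modEq p _).of_mul_left _).add_right _).trans ?_
        refine Nat.ModEq.add_right_cancel' (N * ∑ l ∈ S, 2 ^ (ω + l.1)) ?_
        rw [h5]
        refine (Nat.modEq_zero_iff_dvd.2 (h3.mul_right _)).trans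
          (Nat.modEq_zero_iff_dvd.2 ?_).symm
        have h6 := h4.mul_right (∑ l ∈ S, 2 ^ (ω + l.1))
        rwa [add_mul, one_mul, add_comm] at h6
    have h0 : p % (s * 2 ^ e) ≠ 0 := fun h => rel_zero_GP1 hω he (h ▸ hr)
    have hx : ∃ x : Fin s × Fin s × Finset (Fin n), Rel_GP1 ω e (p % (s * 2 ^ e)) x := ⟨_, hr⟩
    rw [coeff_add, coeff_C_of_ne_zero h0, add_zero, hE, if_pos (Nat.mod_lt _ hM)]
    simp only [f, dif_pos hx, rel_unique_GP1 hω he hx.choose_spec hr]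

theorem geom_GP1 {k : Type} [Field k] [CharP k 2] (M a : ℕ) (hM : 0 < M) :
    ((X : k[X]) ^ M - 1) ^ (2 ^ a - 1) = ∑ j ∈ Finset.range (2 ^ a), X ^ (M * j) := by
  have h0 : ((X : k[X]) ^ M - 1) ≠ 0 := X_pow_sub_C_ne_zero hM 1
  refine mul_right_cancel₀ h0 ?_
  simp only [pow_mul]
  rw [geom_sum_mul, ← pow_succ, Nat.sub_add_cancel (Nat.two_pow_pos a), sub_pow_char_pow, one_pow]

theorem coeff_periodic {k : Type} [Field k] [CharP k 2] (s e r : ℕ) (hs : 0 < s) (he : e ≤ r)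
    (E : k[X]) (hE : E.natDegree < s * 2 ^ e) (p : ℕ) (hp : p < s * 2 ^ r) :
    (E * (X ^ s - 1) ^ (2 ^ r - 2 ^ e)).coeff p = E.coeff (p % (s * 2 ^ e)) := by
  obtain ⟨a, rfl⟩ := Nat.exists_eq_add_of_le he
  have hM : 0 < s * 2 ^ e := Nat.mul_pos hs (Nat.two_pow_pos e)
  have h1 : 2 ^ (e + a) - 2 ^ e = 2 ^ e * (2 ^ a - 1) := by
    rw [Nat.mul_sub, mul_one, pow_add]
  rw [h1, pow_mul, sub_pow_char_pow, one_pow, ← pow_mul, geom_GP1 _ _ hM, Finset.mul_sum,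
    finsetSum_coeff, Finset.sum_eq_single (p / (s * 2 ^ e))]
  · rw [coeff_mul_X_pow', if_pos (Nat.mul_div_le _ _), Nat.mod_def]
  · intro j _ hj
    rw [coeff_mul_X_pow']
    split_ifs with h
    · refine coeff_eq_zero_of_natDegree_lt (hE.trans_le ?_)
      have h2 : j ≤ p / (s * 2 ^ e) := (Nat.le_div_iff_mul_le hM).2 (by rwa [mul_comm])
      have h3 := Nat.mul_le_mul_left (s * 2 ^ e) (Nat.succ_le_of_lt (lt_of_le_of_ne h2 hj))
      have h4 := Nat.mul_div_le p (s * 2 ^ e)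
      rw [Nat.mul_succ] at h3
      omega
    · rfl
  · intro h
    refine absurd (Finset.mem_range.2 ((Nat.div_lt_iff_lt_mul hM).2 ?_)) h
    rwa [mul_comm, mul_assoc, ← pow_add]

theorem coeff_mul_prod {k : Type} [Field k] [CharP k 2] {n : ℕ} (G : k[X]) (N ω : ℕ)
    (a : Fin n → k) (p : ℕ) (hp : N * ∑ l : Fin n, 2 ^ (ω + l.1) ≤ p) :
    (G * ∏ l, (X ^ N - C (a l)) ^ 2 ^ (ω + l.1)).coeff p =
      ∑ S : Finset (Fin n), (∏ l ∈ Sᶜ, a l ^ 2 ^ (ω + l.1)) *
        G.coeff (p - N * ∑ l ∈ S, 2 ^ (ω + l.1)) := by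
  have h1 : ∀ l : Fin n, ((X : k[X]) ^ N - C (a l)) ^ 2 ^ (ω + l.1) =
      X ^ (N * 2 ^ (ω + l.1)) + C (a l ^ 2 ^ (ω + l.1)) := by
    intro l
    rw [sub_pow_char_pow, CharTwo.sub_eq_add, pow_mul, C_pow]
  simp only [h1]
  rw [Finset.prod_add, Finset.powerset_univ, Finset.mul_sum, finsetSum_coeff]
  refine Finset.sum_congr rfl fun S _ => ?_
  rw [Finset.prod_pow_eq_pow_sum, ← map_prod, ← mul_assoc, coeff_mul_C, coeff_mul_X_pow',
    ← Finset.mul_sum, if_pos, mul_comm, Finset.compl_eq_univ_sdiff]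
  exact (Nat.mul_le_mul_left _ (Finset.sum_le_sum_of_subset (Finset.subset_univ S))).trans hp

end Pool.Agent.Adm

end

section

/-! Every polynomial is a Hasse-Witt determinant up to a power. -/

namespace Pool.Agent.Adm

open Polynomial

theorem sum_pow_le_GP2 (n ω : ℕ) : ∑ l : Fin n, 2 ^ (ω + l.1) ≤ 2 ^ (ω + n) := by
  induction n with
  | zero => simp
  | succ n ih =>
    rw [Fin.sum_univ_castSucc]
    simp only [Fin.val_castSucc, Fin.val_last]
    rw [← add_assoc, pow_succ]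
    omega

theorem exists_root_GP2 {n : ℕ} (f : MvPolynomial (Fin n) K0) :
    ∃ g : MvPolynomial (Fin n) K0, ∀ (k : Type) [Field k] [CharP k 2] (θ : K0 →+* k)
      (a : Fin n → k), MvPolynomial.eval₂Hom θ (fun l => a l ^ 2 ^ l.1) g =
        MvPolynomial.eval₂ θ a f ^ 2 ^ n := by
  refine ⟨MvPolynomial.eval₂Hom (MvPolynomial.C.comp (iterateFrobenius K0 2 n))
    (fun l => MvPolynomial.X l ^ 2 ^ (n - l.1)) f, fun k _ _ θ a => ?_⟩
  have : (MvPolynomial.eval₂Hom θ (fun l => a l ^ 2 ^ l.1)).comp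
      (MvPolynomial.eval₂Hom (MvPolynomial.C.comp (iterateFrobenius K0 2 n))
        (fun l => MvPolynomial.X l ^ 2 ^ (n - l.1))) =
      (iterateFrobenius k 2 n).comp (MvPolynomial.eval₂Hom θ a) := by
    refine MvPolynomial.ringHom_ext (fun x => ?_) fun l => ?_
    · simp [iterateFrobenius_def]
    · simp only [RingHom.comp_apply, MvPolynomial.eval₂Hom_X', map_pow, iterateFrobenius_def]
      rw [← pow_mul, ← pow_add, Nat.add_sub_cancel' l.2.le]
  exact RingHom.congr_fun this f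

theorem exists_hw_poly {n : ℕ} (f : MvPolynomial (Fin n) K0) :
    ∃ (s ω e : ℕ) (E : K0[X]), Odd s ∧ ω + n < e ∧ 0 < ω ∧ E.natDegree < s * 2 ^ e ∧
      (∀ x : K0, x ^ s = 1 → E.eval x ≠ 0) ∧
      ∀ (r N : ℕ), e ≤ r → s ∣ N → 2 ^ r % s = 1 % s → 2 ^ e ∣ N + 1 →
        s + N * 2 ^ (ω + n) ≤ 2 ^ r →
        ∀ (k : Type) [Field k] (θ : K0 →+* k) (a : Fin n → k),
          (HW (2 ^ r) ((E * (X ^ s - 1) ^ (2 ^ r - 2 ^ e)).map θ *
            ∏ l, (X ^ N - C (a l)) ^ 2 ^ (ω + l.1)) s).det =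
            MvPolynomial.eval₂ θ a f ^ 2 ^ (ω + n) := by
  classical
  obtain ⟨g, hg⟩ := exists_root_GP2 f
  obtain ⟨s, hs, M0, M1, hM⟩ := exists_det_eq g
  obtain ⟨E, hE, hE0, hw⟩ := exists_window n s s (s + n + 1) hs Nat.lt_two_pow_self
    (Nat.lt_succ_self _) fun i j S => (if S = Finset.univ then M0 i j ^ 2 ^ s else 0) +
      ∑ l, if S = {l}ᶜ then M1 l i j ^ 2 ^ s else 0
  refine ⟨s, s, s + n + 1, E, hs, Nat.lt_succ_self _, hs.pos, hE, hE0,
    fun r N her hsN hq hN hle k _ θ a => ?_⟩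
  have : CharP k 2 := charP_of_injective_ringHom θ.injective 2
  have e1 : HW (2 ^ r) ((E * (X ^ s - 1) ^ (2 ^ r - 2 ^ (s + n + 1))).map θ *
      ∏ l, (X ^ N - C (a l)) ^ 2 ^ (s + l.1)) s =
      ((iterateFrobenius k 2 s).comp
        (MvPolynomial.eval₂Hom θ fun l => a l ^ 2 ^ l.1)).mapMatrix
        (Matrix.of fun i j => MvPolynomial.C (M0 i j) +
          ∑ l, MvPolynomial.C (M1 l i j) * MvPolynomial.X l) := by
    ext i j
    have hi := i.2
    have hj := j.2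
    have h1 : 2 ^ r ≤ 2 ^ r * (i.1 + 1) := Nat.le_mul_of_pos_right _ (Nat.succ_pos _)
    have h2 : 2 ^ r * (i.1 + 1) ≤ s * 2 ^ r := by
      rw [mul_comm]; exact Nat.mul_le_mul_right _ hi
    have h3 : ∀ S : Finset (Fin n), N * ∑ l ∈ S, 2 ^ (s + l.1) ≤ N * 2 ^ (s + n) := fun S =>
      Nat.mul_le_mul_left _ ((Finset.sum_le_sum_of_subset S.subset_univ).trans
        (sum_pow_le_GP2 n s))
    have h4 := h3 Finset.univ
    rw [HW_apply_PD, if_pos (by omega), coeff_mul_prod _ _ _ _ _ (by omega)]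
    have h5 : ∀ S : Finset (Fin n),
        ((E * (X ^ s - 1) ^ (2 ^ r - 2 ^ (s + n + 1))).map θ).coeff
          (2 ^ r * (i.1 + 1) - (j.1 + 1) - N * ∑ l ∈ S, 2 ^ (s + l.1)) =
        (if S = Finset.univ then θ (M0 i j) ^ 2 ^ s else 0) +
          ∑ l, if S = {l}ᶜ then θ (M1 l i j) ^ 2 ^ s else 0 := fun S => by
      have h6 := h3 S
      rw [coeff_map, coeff_periodic s _ r hs.pos her E hE _ (by omega),
        hw (2 ^ r) N _ i j S hsN hq (pow_dvd_pow 2 her) hN (by omega), map_add, map_sum]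
      simp only [apply_ite θ, map_pow, map_zero]
    simp only [h5]
    simp only [mul_add, Finset.sum_add_distrib, Finset.mul_sum, mul_ite, mul_zero]
    rw [Finset.sum_comm]
    simp only [Finset.sum_ite_eq', Finset.mem_univ, if_true, compl_compl, Finset.compl_univ,
      Finset.prod_empty, Finset.prod_singleton, one_mul, RingHom.mapMatrix_apply,
      Matrix.map_apply, Matrix.of_apply, map_add, map_sum, map_mul, RingHom.comp_apply,
      MvPolynomial.eval₂Hom_C, MvPolynomial.eval₂Hom_X', iterateFrobenius_def]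
    refine congrArg _ (Finset.sum_congr rfl fun l _ => ?_)
    rw [← pow_mul, ← pow_add, add_comm l.1, mul_comm]
  rw [e1, ← RingHom.map_det, hM, RingHom.comp_apply, hg, iterateFrobenius_def, ← pow_mul,
    ← pow_add, add_comm]

end Pool.Agent.Adm

end

section

/-! Test polynomials. -/

namespace Pool.Agent.Adm

open Polynomial

theorem exists_pow_two_pow_eq (S : Finset K0) :
    ∃ ρ, 0 < ρ ∧ ∀ x ∈ S, ∀ a, x ^ 2 ^ (ρ * a) = x := by
  have : Fact (Nat.Prime 2) := ⟨Nat.prime_two⟩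
  let K := IntermediateField.adjoin (ZMod 2) (S : Set K0)
  have : FiniteDimensional (ZMod 2) K := IntermediateField.finiteDimensional_adjoin
    fun x _ => (Algebra.IsAlgebraic.isAlgebraic x).isIntegral
  have : Finite K := Module.finite_of_finite (ZMod 2)
  let _ : Fintype K := Fintype.ofFinite K
  have : CharP K 2 := charP_of_injective_algebraMap (algebraMap (ZMod 2) K).injective 2
  obtain ⟨d, -, hd⟩ := FiniteField.card K 2
  refine ⟨d, d.2, fun x hx a => ?_⟩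
  have h := FiniteField.pow_card_pow a
    (⟨x, IntermediateField.subset_adjoin _ _ (Finset.mem_coe.2 hx)⟩ : K)
  rw [hd, ← pow_mul] at h
  exact congrArg Subtype.val h

theorem scale_X_pow_sub_C_GP {k : Type} [Field k] {m : ℕ} (hm : 0 < m) (a η : k) :
    (X ^ m - C a).scaleRoots η = X ^ m - C (a * η ^ m) := by
  ext i
  rw [coeff_scaleRoots, natDegree_X_pow_sub_C]
  simp only [coeff_sub, coeff_X_pow, coeff_C]
  by_cases h0 : i = 0
  · subst h0
    simp [hm.ne]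
  by_cases h1 : i = m
  · subst h1
    simp [h0]
  · simp [h0, h1]

theorem tpoly_scale {k : Type} [Field k] {n : ℕ} (θ : K0 →+* k) (𝔽0 : FF) (η : k)
    (hη : η ^ 𝔽0.m = 1) (n0 : ℕ) (n1 : 𝔽0.Fˣ → ℕ) (nn : Fin n → ℕ) (a : Fin n → k) :
    tpoly θ 𝔽0 η n0 n1 nn a = (tpoly θ 𝔽0 1 n0 n1 nn a).scaleRoots η := by
  let sc : k[X] →* k[X] :=
    { toFun := fun p => p.scaleRoots η
      map_one' := one_scaleRoots η
      map_mul' := fun p q => mul_scaleRoots_of_noZeroDivisors p q η }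
  have h0 : sc X = X := by
    have := X_sub_C_scaleRoots (0 : k) η
    rwa [zero_mul, map_zero, sub_zero] at this
  have h1 : ∀ c, sc (X - C c) = X - C (c * η) := fun c => X_sub_C_scaleRoots c η
  have h2 : ∀ c, sc (X ^ 𝔽0.m - C c) = X ^ 𝔽0.m - C c := fun c => by
    have := scale_X_pow_sub_C_GP 𝔽0.m_pos c η
    rwa [hη, mul_one] at this
  change _ = sc _
  unfold tpoly
  simp only [map_mul sc, map_prod sc, map_pow sc, h0, h1, h2, mul_one]

theorem factor_GP (𝔽0 : FF) (G : K0[X]) (hG : G ≠ 0)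
    (hr : ∀ x, G.IsRoot x → x ≠ 0 → x ^ 𝔽0.m = 1) :
    G = C G.leadingCoeff * (X ^ G.rootMultiplicity 0 *
      ∏ t : 𝔽0.Fˣ, (X - C (𝔽0.θ t)) ^ G.rootMultiplicity (𝔽0.θ t)) := by
  classical
  have hinj : Function.Injective fun t : 𝔽0.Fˣ => 𝔽0.θ t := 𝔽0.theta_injective (RingHom.id K0)
  have h0 : (0 : K0) ∉ Finset.univ.image fun t : 𝔽0.Fˣ => 𝔽0.θ t := by
    simp
  conv_lhs => rw [← C_leadingCoeff_mul_prod_multiset_X_sub_C
    (IsAlgClosed.card_roots_eq_natDegree (p := G)), prod_multiset_root_eq_finset_root]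
  congr 1
  rw [Finset.prod_subset (s₂ := insert 0 (Finset.univ.image fun t : 𝔽0.Fˣ => 𝔽0.θ t)),
    Finset.prod_insert h0, Finset.prod_image fun _ _ _ _ h => hinj h, map_zero, sub_zero]
  · intro x hx
    have hx' : G.IsRoot x := (mem_roots hG).1 (Multiset.mem_toFinset.1 hx)
    by_cases h : x = 0
    · exact Finset.mem_insert.2 (Or.inl h)
    · obtain ⟨t, ht⟩ := 𝔽0.exists_unit (RingHom.id K0) x (hr x hx' h)
      exact Finset.mem_insert_of_mem (Finset.mem_image.2 ⟨t, Finset.mem_univ _, ht⟩)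
  · intro x _ hx
    rw [rootMultiplicity_eq_zero fun h => hx (Multiset.mem_toFinset.2 ((mem_roots hG).2 h)),
      pow_zero]

theorem factor_natDegree_GP {k A : Type} [Field k] [Fintype A] (c : k) (hc : c ≠ 0) (p : A → k)
    (n0 : ℕ) (n1 : A → ℕ) :
    (C c * (X ^ n0 * ∏ t, (X - C (p t)) ^ n1 t)).natDegree = n0 + ∑ t, n1 t := by
  have h1 : ∀ t, ((X - C (p t)) ^ n1 t).Monic := fun t => (monic_X_sub_C _).pow _
  rw [natDegree_C_mul hc, (monic_X_pow n0).natDegree_mul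
    (monic_prod_of_monic Finset.univ _ fun t _ => h1 t),
    natDegree_prod_of_monic _ _ fun t _ => h1 t, natDegree_X_pow]
  congr 1
  refine Finset.sum_congr rfl fun t _ => ?_
  rw [(monic_X_sub_C _).natDegree_pow, natDegree_X_sub_C, mul_one]

theorem mult_GP {s : ℕ} (hs : Odd s) {E : K0[X]} (hE : ∀ x : K0, x ^ s = 1 → E.eval x ≠ 0)
    (c : ℕ) (x : K0) :
    (x ^ s = 1 → (E * (X ^ s - 1) ^ c).rootMultiplicity x ≤ c) ∧
      (x ^ s ≠ 1 → (E * (X ^ s - 1) ^ c).rootMultiplicity x ≤ E.natDegree) := by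
  classical
  have hE0 : E ≠ 0 := fun h => hE 1 (one_pow s) (by rw [h, eval_zero])
  have hm : (X ^ s - 1 : K0[X]).Monic := monic_X_pow_sub_C 1 hs.pos.ne'
  have hsep : (X ^ s - 1 : K0[X]).Separable := by
    obtain ⟨j, rfl⟩ := hs
    exact separable_X_pow_sub_C 1 (odd_ne_zero_Xi j) one_ne_zero
  have e : ((X ^ s - 1 : K0[X]) ^ c).rootMultiplicity x =
      c * (X ^ s - 1 : K0[X]).rootMultiplicity x := by
    rw [← count_roots, roots_pow, Multiset.count_nsmul, count_roots]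
  rw [rootMultiplicity_mul (mul_ne_zero hE0 (hm.pow c).ne_zero), e]
  constructor
  · intro h
    rw [rootMultiplicity_eq_zero (hE x h), zero_add]
    exact (Nat.mul_le_mul_left c (rootMultiplicity_le_one_of_separable hsep x)).trans
      (mul_one c).le
  · intro h
    have h1 : ¬ (X ^ s - 1 : K0[X]).IsRoot x := fun h' => h (by
      simpa [sub_eq_zero] using h')
    rw [rootMultiplicity_eq_zero h1, mul_zero, add_zero, ← count_roots]
    exact (Multiset.count_le_card _ _).trans (card_roots' E)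

theorem sum_two_pow_GP (ω n : ℕ) : ∑ l : Fin n, 2 ^ (ω + l.1) + 2 ^ ω = 2 ^ (ω + n) := by
  induction n with
  | zero => simp
  | succ n ih =>
    rw [Fin.sum_univ_castSucc]
    simp only [Fin.val_castSucc, Fin.val_last]
    rw [← add_assoc, pow_succ]
    omega

theorem exists_test_poly {n : ℕ} (hn : 0 < n) (f : MvPolynomial (Fin n) K0) :
    ∃ ρ B : ℕ, 0 < ρ ∧ ∀ 𝔽0 𝔽 : FF, 𝔽0.r = ρ → ρ ∣ 𝔽.r → B ≤ 𝔽.r →
      ∃ (n0 : ℕ) (n1 : 𝔽0.Fˣ → ℕ) (nn : Fin n → ℕ) (w : ℕ),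
        n0 + 𝔽0.m * ∑ l, nn l < 𝔽.m ∧ (∀ t, n1 t + ∑ l, nn l < 𝔽.m) ∧
        w * 𝔽.m < n0 + ∑ t, n1 t + 𝔽0.m * ∑ l, nn l ∧
        n0 + ∑ t, n1 t + 𝔽0.m * ∑ l, nn l ≤ (w + 1) * 𝔽.m ∧
        ∀ (k : Type) [Field k] (θ : K0 →+* k) (η : k) (a : Fin n → k), η ^ 𝔽0.m = 1 →
          ((HW (2 ^ 𝔽.r) (tpoly θ 𝔽0 η n0 n1 nn a) w).det ≠ 0 ↔
            MvPolynomial.eval₂ θ a f ≠ 0) := by
  classical
  obtain ⟨s, ω, e, E, hs, he, -, hdeg, hE, H⟩ := exists_hw_poly f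
  obtain ⟨ρ0, hρ0, hS⟩ := exists_pow_two_pow_eq (insert (xi s) E.roots.toFinset)
  have hE0 : E ≠ 0 := fun h => hE 1 (one_pow s) (by rw [h, eval_zero])
  have hpow : ∀ (x : K0) (r : ℕ), x ≠ 0 → x ^ 2 ^ r = x → x ^ (2 ^ r - 1) = 1 := fun x r hx h => by
    apply mul_right_cancel₀ hx
    rw [← pow_succ, Nat.sub_add_cancel Nat.one_le_two_pow, h, one_mul]
  have hdvd : ∀ a, s ∣ 2 ^ (ρ0 * a) - 1 := fun a =>
    (xi_prim hs).dvd_of_pow_eq_one _ (hpow _ _ ((xi_prim hs).ne_zero hs.pos.ne')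
      (hS _ (Finset.mem_insert_self _ _) a))
  set a0 := s * 2 ^ e + e + 1 with ha0
  have hρ : a0 ≤ ρ0 * a0 := Nat.le_mul_of_pos_left _ hρ0
  refine ⟨ρ0 * a0, s * 2 ^ e + s + e + 2 ^ (ρ0 * a0) * 2 ^ (ω + n), by omega,
    fun 𝔽0 𝔽 h0 h1 hB => ?_⟩
  obtain ⟨c, hc⟩ := h1
  have hN : 𝔽0.m + 1 = 2 ^ (ρ0 * a0) := by
    rw [FF.m, h0, Nat.sub_add_cancel Nat.one_le_two_pow]
  have hq : 𝔽.m + 1 = 2 ^ 𝔽.r := by rw [FF.m, Nat.sub_add_cancel Nat.one_le_two_pow]
  have hN1 : s * 2 ^ e ≤ 𝔽0.m := by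
    have := Nat.lt_two_pow_self (n := ρ0 * a0)
    omega
  have hr : 𝔽.r < 2 ^ 𝔽.r := Nat.lt_two_pow_self
  have her : e ≤ 𝔽.r := by omega
  have he2 : 2 ^ e ≤ 2 ^ 𝔽.r := Nat.pow_le_pow_right two_pos her
  have he3 : 2 ^ (ω + n) < 2 ^ e := Nat.pow_lt_pow_right one_lt_two he
  have hsN : s ∣ 𝔽0.m := by
    rw [FF.m, h0]
    exact hdvd a0
  have hmod : 2 ^ 𝔽.r % s = 1 % s := by
    have := hdvd (a0 * c)
    rw [← mul_assoc, ← hc] at this
    exact ((Nat.modEq_iff_dvd' Nat.one_le_two_pow).2 this).symm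
  have hB' : 2 ^ (ρ0 * a0) * 2 ^ (ω + n) = 𝔽0.m * 2 ^ (ω + n) + 2 ^ (ω + n) := by
    rw [← hN, add_mul, one_mul]
  rw [hB'] at hB
  have hX : 0 < 2 ^ (ω + n) := by positivity
  have H' := H 𝔽.r 𝔽0.m her hsN hmod (by rw [hN]; exact pow_dvd_pow 2 (by omega)) (by omega)
  have hm : (X ^ s - 1 : K0[X]).Monic := monic_X_pow_sub_C 1 hs.pos.ne'
  have hmul := mult_GP hs hE (2 ^ 𝔽.r - 2 ^ e)
  have hGd : (E * (X ^ s - 1) ^ (2 ^ 𝔽.r - 2 ^ e)).natDegree =
      E.natDegree + (2 ^ 𝔽.r - 2 ^ e) * s := by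
    rw [natDegree_mul hE0 (hm.pow _).ne_zero, hm.natDegree_pow, ← C_1, natDegree_X_pow_sub_C]
  have hG0 : E * (X ^ s - 1) ^ (2 ^ 𝔽.r - 2 ^ e) ≠ 0 := mul_ne_zero hE0 (hm.pow _).ne_zero
  have hGr : ∀ x, (E * (X ^ s - 1) ^ (2 ^ 𝔽.r - 2 ^ e)).IsRoot x → x ≠ 0 → x ^ 𝔽0.m = 1 := by
    intro x hx hx0
    rcases root_mul.1 hx with h | h
    · rw [FF.m, h0]
      exact hpow x _ hx0 (hS x (Finset.mem_insert_of_mem
        (Multiset.mem_toFinset.2 ((mem_roots hE0).2 h))) a0)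
    · have h2 : x ^ s = 1 := by
        rw [IsRoot.def, eval_pow] at h
        simpa [sub_eq_zero] using eq_zero_of_pow_eq_zero h
      obtain ⟨d, hd⟩ := hsN
      rw [hd, pow_mul, h2, one_pow]
  generalize E * (X ^ s - 1) ^ (2 ^ 𝔽.r - 2 ^ e) = G at H' hmul hGd hG0 hGr
  have hF := factor_GP 𝔽0 G hG0 hGr
  have hlc : G.leadingCoeff ≠ 0 := leadingCoeff_ne_zero.2 hG0
  have hD : G.rootMultiplicity 0 + ∑ t : 𝔽0.Fˣ, G.rootMultiplicity (𝔽0.θ t) =
      E.natDegree + (2 ^ 𝔽.r - 2 ^ e) * s := by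
    rw [← hGd]
    conv_rhs => rw [hF, factor_natDegree_GP _ hlc]
  have hT := sum_two_pow_GP ω n
  have hT0 : 0 < ∑ l : Fin n, 2 ^ (ω + l.1) :=
    Finset.sum_pos (fun _ _ => by positivity) ⟨⟨0, hn⟩, Finset.mem_univ _⟩
  have hω : 0 < 2 ^ ω := by positivity
  have hP1 : 𝔽0.m * ∑ l : Fin n, 2 ^ (ω + l.1) ≤ 𝔽0.m * 2 ^ (ω + n) :=
    Nat.mul_le_mul_left _ (by omega)
  have hP2 : 𝔽0.m ≤ 𝔽0.m * ∑ l : Fin n, 2 ^ (ω + l.1) := Nat.le_mul_of_pos_right _ hT0
  have hP3 : (2 ^ 𝔽.r - 2 ^ e) * s + s * 2 ^ e = s * 𝔽.m + s := by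
    rw [mul_comm s (2 ^ e), ← add_mul, Nat.sub_add_cancel he2, ← hq]
    ring
  have hs0 := hs.pos
  refine ⟨G.rootMultiplicity 0, fun t => G.rootMultiplicity (𝔽0.θ t), fun l => 2 ^ (ω + l.1), s,
    ?_, fun t => ?_, ?_, ?_, fun k _ θ η a hη => ?_⟩
  · have := (hmul 0).2 (by rw [zero_pow hs.pos.ne']; exact zero_ne_one)
    beta_reduce
    omega
  · beta_reduce
    by_cases h : 𝔽0.θ t ^ s = 1
    · have := (hmul _).1 h
      omega
    · have := (hmul _).2 h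
      omega
  · beta_reduce
    rw [hD]
    omega
  · beta_reduce
    rw [hD, add_mul, one_mul]
    omega
  · have hη0 : η ≠ 0 := fun h => by
      rw [h, zero_pow 𝔽0.m_pos.ne'] at hη
      exact zero_ne_one hη
    have e1 : G.map θ * ∏ l, (X ^ 𝔽0.m - C (a l)) ^ 2 ^ (ω + l.1) = C (θ G.leadingCoeff) *
        tpoly θ 𝔽0 1 (G.rootMultiplicity 0) (fun t => G.rootMultiplicity (𝔽0.θ t))
          (fun l => 2 ^ (ω + l.1)) a := by
      conv_lhs => rw [hF]
      unfold tpoly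
      simp only [Polynomial.map_mul, Polynomial.map_pow, Polynomial.map_prod, Polynomial.map_sub,
        map_X, map_C, mul_one, mul_assoc]
    rw [tpoly_scale θ 𝔽0 η hη, det_HW_scale _ _ _ _ hη0,
      ← det_HW_C_mul _ _ _ _ ((map_ne_zero θ).2 hlc), ← e1, H' k θ a,
      pow_ne_zero_iff (by positivity)]

end Pool.Agent.Adm

end

section

/-! Test polynomials adapted to a triple and a set of marked points. -/

namespace Pool.Agent.Adm

open Polynomial in
theorem tpoly_drop_GT {k : Type} [Field k] {n : ℕ} (θ : K0 →+* k) (𝔽0 : FF) (η : k) (n0 : ℕ)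
    (n1 : 𝔽0.Fˣ → ℕ) (nn : Fin n → ℕ) (a : Fin n → k) (J : Finset (Fin n)) :
    tpoly θ 𝔽0 η (n0 + 𝔽0.m * ∑ l, if l ∈ J then 0 else nn l) n1
        (fun l => if l ∈ J then nn l else 0) a =
      tpoly θ 𝔽0 η n0 n1 nn fun l => if l ∈ J then a l else 0 := by
  have e : ∏ l, (X ^ 𝔽0.m - C (if l ∈ J then a l else 0) : k[X]) ^ nn l =
      (∏ l, (X ^ 𝔽0.m) ^ (if l ∈ J then 0 else nn l)) *
        ∏ l, (X ^ 𝔽0.m - C (a l)) ^ (if l ∈ J then nn l else 0) := by
    rw [← Finset.prod_mul_distrib]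
    refine Finset.prod_congr rfl fun l _ => ?_
    split_ifs <;> simp
  unfold tpoly
  rw [e, Finset.prod_pow_eq_pow_sum, pow_add, pow_mul]
  ring

theorem exists_test_poly' {n : ℕ} (f : MvPolynomial (Fin n) K0) {i0 i1 : Fin n} (h01 : i0 ≠ i1)
    (I : Finset (Fin n)) :
    ∃ ρ B : ℕ, 0 < ρ ∧ ∀ 𝔽0 𝔽 : FF, 𝔽0.r = ρ → ρ ∣ 𝔽.r → B ≤ 𝔽.r →
      ∃ (n0 : ℕ) (n1 : 𝔽0.Fˣ → ℕ) (nn : Fin n → ℕ) (w : ℕ),
        (∀ l, l = i0 ∨ l = i1 ∨ l ∉ I → nn l = 0) ∧
        n0 + 𝔽0.m * ∑ l, nn l < 𝔽.m ∧ (∀ t, n1 t + ∑ l, nn l < 𝔽.m) ∧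
        w * 𝔽.m < n0 + ∑ t, n1 t + 𝔽0.m * ∑ l, nn l ∧
        n0 + ∑ t, n1 t + 𝔽0.m * ∑ l, nn l ≤ (w + 1) * 𝔽.m ∧
        ∀ (k : Type) [Field k] (θ : K0 →+* k) (η : k) (a : Fin n → k), η ^ 𝔽0.m = 1 →
          a i0 = 0 → a i1 = 1 →
          ((HW (2 ^ 𝔽.r) (tpoly θ 𝔽0 η n0 n1 nn a) w).det ≠ 0 ↔
            MvPolynomial.eval₂ θ (fun l => if l ∈ I then a l else 0) f ≠ 0) := by
  obtain ⟨J, hJ⟩ : ∃ J : Finset (Fin n), ∀ l, l ∈ J ↔ l ≠ i0 ∧ l ≠ i1 ∧ l ∈ I :=
    ⟨(I.erase i1).erase i0, fun l => by simp only [Finset.mem_erase]⟩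
  obtain ⟨ρ, B, hρ, H⟩ := exists_test_poly i0.pos (MvPolynomial.bind₁ (fun l =>
    if l ∈ J then MvPolynomial.X l else if l = i1 ∧ l ∈ I then 1 else 0) f)
  refine ⟨ρ, B, hρ, fun 𝔽0 𝔽 h1 h2 h3 => ?_⟩
  obtain ⟨n0, n1, nn, w, k1, k2, k3, k4, k5⟩ := H 𝔽0 𝔽 h1 h2 h3
  have hs : ∑ l, nn l = (∑ l, if l ∈ J then 0 else nn l) + ∑ l, if l ∈ J then nn l else 0 := by
    rw [← Finset.sum_add_distrib]
    refine Finset.sum_congr rfl fun l _ => ?_
    split_ifs <;> simp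
  rw [hs, mul_add] at k1 k3 k4
  refine ⟨n0 + 𝔽0.m * ∑ l, if l ∈ J then 0 else nn l, n1, fun l => if l ∈ J then nn l else 0, w,
    fun l hl => if_neg fun h => ?_, by beta_reduce; omega, fun t => ?_, by beta_reduce; omega,
    by beta_reduce; omega, fun k _ θ η a hη a0 a1 => ?_⟩
  · obtain ⟨b1, b2, b3⟩ := (hJ l).1 h
    tauto
  · have := k2 t
    beta_reduce
    omega
  · rw [tpoly_drop_GT, k5 k θ η _ hη, ← MvPolynomial.coe_eval₂Hom, MvPolynomial.eval₂Hom_bind₁,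
      MvPolynomial.coe_eval₂Hom]
    have e : (fun l => MvPolynomial.eval₂Hom θ (fun l => if l ∈ J then a l else 0)
        (if l ∈ J then MvPolynomial.X l else if l = i1 ∧ l ∈ I then 1 else 0)) =
        fun l => if l ∈ I then a l else 0 := by
      funext l
      by_cases b1 : l ∈ J
      · simp [b1, ((hJ l).1 b1).2.2]
      · by_cases b2 : l ∈ I
        · by_cases b3 : l = i1
          · subst b3
            simp [b1, b2, a1]
          · have b4 : l = i0 := by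
              by_contra b4
              exact b1 ((hJ l).2 ⟨b4, b3, b2⟩)
            subst b4
            simp [b1, b3, a0]
        · simp [b1, b2]
    rw [e]

end Pool.Agent.Adm

end

section

/-! Pure labels are pure on every component of the Kummer covering. -/

namespace Pool.Agent.Adm.Pt

theorem val_RR1 (𝔽 : FF) {Y S : Type} [Fintype Y] [DecidableEq Y] [Fintype S] {_ : DecidableEq S}
    (o : Fin 𝔽.r → Y) (ho : Function.Surjective o) (f : Y → S) (hf : Function.Surjective f)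
    (s : S) (P : Y → Prop) [DecidablePred P] (hP : ∀ y, P y ↔ f y = s) :
    (∑ y ∈ Finset.univ.filter P, -(bitv o y : ZMod 𝔽.m)).val =
      𝔽.m - bitv (fun b => f (o b)) s := by
  rw [← val_neg_bitv 𝔽 (fun b => f (o b)) (hf.comp ho) s, bitv_comp, Nat.cast_sum,
    Finset.sum_neg_distrib, Finset.filter_congr fun y _ => hP y]

theorem sum_RR1 (𝔽 : FF) {Y : Type} [Fintype Y] [DecidableEq Y] (o : Fin 𝔽.r → Y) (P : Y → Prop)
    [DecidablePred P] : -∑ y ∈ Finset.univ.filter P, -(bitv o y : ZMod 𝔽.m) =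
      ∑ y ∈ Finset.univ.filter (fun y => ¬ P y), -(bitv o y : ZMod 𝔽.m) := by
  rw [neg_eq_iff_add_eq_zero, Finset.sum_filter_add_sum_filter_not, Finset.sum_neg_distrib,
    ← Nat.cast_sum, sum_bitv, neg_eq_zero]
  exact ZMod.natCast_self 𝔽.m

variable {n : ℕ} {σ : Shape n} (z : Pt σ) (𝔽0 𝔽 : FF) {i0 i2 : Fin n} {v : Fin σ.r}

theorem card_RR1 (hv : σ.OnPath i0 i2 v) :
    Fintype.card {s : σ.Slot // σ.base s = v ∧ s ≠ σ.dir v i0 ∧ s ≠ σ.dir v i2} =
      Fintype.card (σ.Sl v) - 2 := by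
  have e : Finset.univ.filter (fun s : σ.Slot => σ.base s = v ∧ s ≠ σ.dir v i0 ∧ s ≠ σ.dir v i2) =
      ((Finset.univ.filter fun s : σ.Slot => σ.base s = v).erase (σ.dir v i0)).erase
        (σ.dir v i2) := by
    ext s
    simp only [Finset.mem_filter, Finset.mem_univ, true_and, Finset.mem_erase]
    tauto
  rw [Fintype.card_subtype, Fintype.card_subtype, e, Finset.card_erase_of_mem,
    Finset.card_erase_of_mem, Nat.sub_sub]
  · simp [σ.base_dir]
  · simp only [Finset.mem_filter, Finset.mem_univ, true_and, Finset.mem_erase]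
    exact ⟨Ne.symm hv, σ.base_dir v i2⟩

theorem dir_RR1 {s : σ.Slot} (hs : σ.base s = v) (h0 : s ≠ σ.dir v i0) (h2 : s ≠ σ.dir v i2)
    (t : 𝔽0.Fˣ) : ∃ y : YI (Fin n) 𝔽0.Fˣ i0 i2, σ.dir v y.1.1 = s ∧ y.1.2 = t := by
  obtain ⟨l, hl⟩ := σ.exists_dir s
  rw [hs] at hl
  refine ⟨⟨(l, t), ?_⟩, hl, rfl⟩
  rintro (h | h)
  · exact absurd (hl.symm.trans (congrArg (σ.dir v) h)) h0
  · exact absurd (hl.symm.trans (congrArg (σ.dir v) h)) h2

theorem hwok_pure_path (hv : σ.OnPath i0 i2 v) {lam : z.k} {α : σ.Slot → z.k}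
    (hα : z.KumAt 𝔽0 i0 i2 v lam α) (o : Fin 𝔽.r → YI (Fin n) 𝔽0.Fˣ i0 i2)
    (ho : Function.Surjective o) :
    HWok 𝔽 (z.fP 𝔽0 i0 i2 α
      (fun s t => (σ.lab i0 i2 (fun y => -(bitv o y : ZMod 𝔽.m)) s t).val) v)
      (𝔽0.m * (Fintype.card (σ.Sl v) - 2)) := by
  have hv' : σ.dir v i0 ≠ σ.dir v i2 := hv
  let f : YI (Fin n) 𝔽0.Fˣ i0 i2 → Option (Option
      ({s : σ.Slot // σ.base s = v ∧ s ≠ σ.dir v i0 ∧ s ≠ σ.dir v i2} × 𝔽0.Fˣ)) := fun y =>
    if h2 : σ.dir v y.1.1 = σ.dir v i2 then none else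
      if h0 : σ.dir v y.1.1 = σ.dir v i0 then some none else
        some (some (⟨σ.dir v y.1.1, σ.base_dir _ _, h0, h2⟩, y.1.2))
  have f0 : ∀ y, σ.dir v y.1.1 = σ.dir v i0 ↔ f y = some none := by
    intro y
    simp only [f]
    split_ifs with h2 h0
    · simp [h2, hv'.symm]
    · simp [h0]
    · simp [h0]
  have f1 : ∀ st y, (σ.dir v y.1.1 = st.1.1 ∧ y.1.2 = st.2) ↔ f y = some (some st) := by
    rintro ⟨⟨s, hs, h0', h2'⟩, t⟩ y
    simp only [f]
    split_ifs with h2 h0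
    · simp [h2, h2'.symm]
    · simp [h0, h0'.symm]
    · simp
  have hf : Function.Surjective f := by
    rintro (_ | _ | st)
    · exact ⟨⟨(i2, 1), fun _ => rfl⟩, dif_pos rfl⟩
    · exact ⟨⟨(i0, 1), fun _ => rfl⟩, (f0 _).1 rfl⟩
    · obtain ⟨y, hy⟩ := dir_RR1 𝔽0 st.1.2.1 st.1.2.2.1 st.1.2.2.2 st.2
      exact ⟨y, (f1 st y).1 hy⟩
  have h := hwok_pure_inf 𝔽 _ (hα.injective z 𝔽0 hv) (fun b => f (o b)) (hf.comp ho)
    Fintype.card_pos
  rw [Fintype.card_option, Nat.add_sub_cancel, Fintype.card_prod, card_RR1 hv, 𝔽0.card_units,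
    mul_comm] at h
  rw [fP_eq_prod]
  convert h using 3 with w
  rcases w with _ | st
  · have hr : σ.Ram i0 i2 (σ.dir v i0) := (σ.ram_iff (σ.base_dir v i0)).2 ⟨hv, Or.inl rfl⟩
    simp only [Option.elim]
    rw [σ.lab_of_ram _ hr, σ.base_dir]
    exact val_RR1 𝔽 o ho f hf _ _ f0
  · simp only [Option.elim]
    rw [σ.lab_of_ne _ st.1.2.1 st.1.2.2.1 st.1.2.2.2]
    exact val_RR1 𝔽 o ho f hf _ _ (f1 st)

theorem hwok_pure_off (hv : ¬ σ.OnPath i0 i2 v) (o : Fin 𝔽.r → YI (Fin n) 𝔽0.Fˣ i0 i2)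
    (ho : Function.Surjective o) (t : 𝔽0.Fˣ) :
    HWok 𝔽 (z.fO 𝔽0 (fun s t => (σ.lab i0 i2 (fun y => -(bitv o y : ZMod 𝔽.m)) s t).val) v t)
      (Fintype.card (σ.Sl v) - 2) := by
  have hv' : σ.dir v i0 = σ.dir v i2 := not_not.1 hv
  let f : YI (Fin n) 𝔽0.Fˣ i0 i2 → σ.Sl v := fun y =>
    if σ.dir v y.1.1 ≠ σ.dir v i0 ∧ y.1.2 = t then ⟨σ.dir v y.1.1, σ.base_dir _ _⟩
    else ⟨σ.dir v i0, σ.base_dir _ _⟩
  have f0 : ∀ y, ¬ (σ.dir v y.1.1 ≠ σ.dir v i0 ∧ y.1.2 = t) ↔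
      f y = ⟨σ.dir v i0, σ.base_dir _ _⟩ := by
    intro y
    simp only [f]
    split_ifs with h
    · simp [h.1, h.2]
    · simp only [h, not_false_eq_true]
  have f1 : ∀ s : σ.Sl v, s.1 ≠ σ.dir v i0 → ∀ y, (σ.dir v y.1.1 = s.1 ∧ y.1.2 = t) ↔ f y = s := by
    intro s hs y
    simp only [f]
    split_ifs with h
    · simp [h.2, Subtype.ext_iff]
    · refine ⟨fun h1 => absurd ⟨h1.1 ▸ hs, h1.2⟩ h, fun h1 => ?_⟩
      exact absurd (congrArg Subtype.val h1).symm hs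
  have hf : Function.Surjective f := by
    intro s
    by_cases hs : s.1 = σ.dir v i0
    · exact ⟨⟨(i0, 1), fun _ => rfl⟩, ((f0 _).1 fun h => h.1 rfl).trans (Subtype.ext hs.symm)⟩
    · obtain ⟨y, hy⟩ := dir_RR1 (i2 := i2) 𝔽0 s.2 hs (hv' ▸ hs) t
      exact ⟨y, (f1 s hs y).1 hy⟩
  have h := hwok_pure_fin 𝔽 (fun s : σ.Sl v => z.x s)
    (fun s s' e => Subtype.ext (z.inj _ _ (s.2.trans s'.2.symm) e)) (fun b => f (o b))
    (hf.comp ho) (le_trans (by norm_num) (σ.three_le_card v))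
  rw [fO_eq_prod]
  convert h using 3 with s
  by_cases hs : s.1 = σ.dir v i0
  · obtain rfl : s = ⟨σ.dir v i0, σ.base_dir _ _⟩ := Subtype.ext hs
    simp only [Shape.lab, σ.base_dir]
    rw [if_pos ⟨trivial, hv'.symm⟩, sum_RR1]
    exact val_RR1 𝔽 o ho f hf _ _ f0
  · rw [σ.lab_of_ne _ s.2 hs (hv' ▸ hs)]
    exact val_RR1 𝔽 o ho f hf _ _ (f1 s hs)

end Pool.Agent.Adm.Pt

end

section

/-! Existence of rich coverings. -/

namespace Pool.Agent.Adm

theorem bitv_equiv_RR {r : ℕ} {ι ι' : Type} [DecidableEq ι] [DecidableEq ι'] (E : ι ≃ ι')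
    (o : Fin r → ι) (l : ι) : bitv (fun b => E (o b)) (E l) = bitv o l := by
  simp only [bitv, EmbeddingLike.apply_eq_iff_eq]

theorem bitv_pos_RR {r : ℕ} {ι : Type} [DecidableEq ι] {o : Fin r → ι}
    (ho : Function.Surjective o) (l : ι) : 0 < bitv o l := by
  obtain ⟨b, hb⟩ := ho l
  exact Finset.sum_pos (fun _ _ => by positivity) ⟨b, by simpa using hb⟩

theorem pow_bitv_ne_RR (𝔽 : FF) {ι : Type} [Fintype ι] [DecidableEq ι] {o : Fin 𝔽.r → ι}
    (ho : Function.Surjective o) {l l' : ι} (h : l ≠ l') : 𝔽.u ^ bitv o l ≠ 1 := by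
  have h1 : bitv o l + bitv o l' ≤ 𝔽.m := by
    rw [← Finset.sum_pair h, FF.m, ← sum_bitv o]
    exact Finset.sum_le_sum_of_subset (Finset.subset_univ _)
  have h2 := bitv_pos_RR ho l
  have h3 := bitv_pos_RR ho l'
  exact 𝔽.u_prim.pow_ne_one_of_pos_of_lt h2.ne' (by omega)

theorem ysh_ysh_RR {ι A : Type} [DecidableEq ι] [CommGroup A] {i0 i2 : ι} (sh sh' : ι → A)
    (h : ∀ l, sh' l * sh l = 1) (y : YI ι A i0 i2) : ysh sh' (ysh sh y) = y := by
  refine Subtype.ext (Prod.ext rfl ?_)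
  change (if y.1.1 = i0 ∨ y.1.1 = i2 then 1 else sh' y.1.1 *
    if y.1.1 = i0 ∨ y.1.1 = i2 then 1 else sh y.1.1 * y.1.2) = y.1.2
  split_ifs with e
  · exact (y.2 e).symm
  · rw [← mul_assoc, h, one_mul]

/-- Translation in the fibres as a permutation. -/
def yshE_RR {ι A : Type} [DecidableEq ι] [CommGroup A] {i0 i2 : ι} (sh : ι → A) :
    YI ι A i0 i2 ≃ YI ι A i0 i2 where
  toFun := ysh sh
  invFun := ysh fun l => (sh l)⁻¹
  left_inv := ysh_ysh_RR _ _ fun _ => inv_mul_cancel _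
  right_inv := ysh_ysh_RR _ _ fun _ => mul_inv_cancel _

theorem rich_of_YP_RR {n : ℕ} (𝔽0 𝔽 : FF) {i0 i2 : Fin n} (h02 : i0 ≠ i2)
    {wt : {x : YI (Fin n) 𝔽0.Fˣ i0 i2 → ZMod 𝔽.m // ∑ y, x y = 0} → ℕ}
    (hw : ∀ j (o : Fin 𝔽.r → YI (Fin n) 𝔽0.Fˣ i0 i2), Function.Surjective o →
      (j.1 = fun y => -(bitv o y : ZMod 𝔽.m)) → wt j = 𝔽0.m * (n - 2))
    {G : Type} [Group G] {d : Fin n → G} (h : YP 𝔽0 𝔽 i0 i2 Subtype.val wt G d) :
    Rich 𝔽0 𝔽 i0 i2 G d := by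
  obtain ⟨χ0, hK, sh, h⟩ := h
  refine ⟨χ0, hK, fun e he => ⟨fun x hx => ?_, fun o ho => ?_⟩⟩
  · obtain ⟨χ, h1, -⟩ := h e he ⟨fun y => (x ((yshE_RR sh).symm y) : ZMod 𝔽.m), by
      rw [← Nat.cast_sum, Equiv.sum_comp (yshE_RR sh).symm x, ZMod.natCast_eq_zero_iff]
      exact hx⟩
    refine ⟨χ, fun y => ?_⟩
    rw [h1 y]
    change 𝔽.u ^ (x ((yshE_RR sh).symm (yshE_RR sh y)) : ZMod 𝔽.m).val = _
    rw [Equiv.symm_apply_apply, 𝔽.pow_val_natCast]
  · obtain ⟨χ, h1, h2⟩ := h e he ⟨fun y => -(bitv (fun b => yshE_RR sh (o b)) y : ZMod 𝔽.m), by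
      rw [Finset.sum_neg_distrib, ← Nat.cast_sum, sum_bitv, neg_eq_zero]
      exact ZMod.natCast_self 𝔽.m⟩
    have h3 : ∀ y, χ (e y) * 𝔽.u ^ bitv o y = 1 := fun y => by
      rw [h1 y]
      change 𝔽.u ^ (-(bitv (fun b => yshE_RR sh (o b)) (yshE_RR sh y) : ZMod 𝔽.m)).val * _ = _
      rw [bitv_equiv_RR, 𝔽.pow_val_neg, 𝔽.pow_val_natCast, inv_mul_cancel]
    refine ⟨χ, h3, ?_⟩
    have h4 := h2 fun e1 => pow_bitv_ne_RR 𝔽 ho (l := ⟨(i0, 1), fun _ => rfl⟩)
      (l' := ⟨(i2, 1), fun _ => rfl⟩) (fun e2 => h02 (congrArg (fun y => y.1.1) e2))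
      (by simpa [e1] using h3 ⟨(i0, 1), fun _ => rfl⟩)
    rw [hw _ _ ((yshE_RR sh).surjective.comp ho) rfl] at h4
    rw [card_YI h02, 𝔽0.card_units, Fintype.card_fin]
    omega

theorem Pt.real_rich {n : ℕ} {σ : Shape n} (z : Pt σ) (𝔽0 𝔽 : FF) {i0 i2 : Fin n}
    (h02 : i0 ≠ i2) : z.Real (Rich 𝔽0 𝔽 i0 i2) := by
  classical
  obtain ⟨α, hα⟩ := z.exists_kumCoord 𝔽0 i0 i2 (fun _ => 1) fun _ => one_ne_zero
  let wt : {x : YI (Fin n) 𝔽0.Fˣ i0 i2 → ZMod 𝔽.m // ∑ y, x y = 0} → Fin σ.r → 𝔽0.Fˣ → ℕ :=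
    fun j v t => if ∃ o : Fin 𝔽.r → YI (Fin n) 𝔽0.Fˣ i0 i2, Function.Surjective o ∧
        j.1 = fun y => -(bitv o y : ZMod 𝔽.m) then
      if σ.OnPath i0 i2 v then if t = 1 then 𝔽0.m * (Fintype.card (σ.Sl v) - 2) else 0
      else Fintype.card (σ.Sl v) - 2 else 0
  refine (z.real_YP 𝔽0 𝔽 h02 Subtype.val (fun j => j.2) hα wt (fun j v hv => ⟨?_, fun t ht => ?_⟩)
    fun j v t hv => ?_).mono fun G _ _ d hd => rich_of_YP_RR 𝔽0 𝔽 h02 (fun j o ho e => ?_) hd
  · simp only [wt, if_pos hv, if_true]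
    split_ifs with h
    · obtain ⟨o, ho, e⟩ := h
      rw [e]
      exact z.hwok_pure_path 𝔽0 𝔽 hv (hα.kumAt hv) o ho
    · exact Or.inl rfl
  · simp only [wt, if_pos hv, if_neg ht, ite_self]
  · simp only [wt, if_neg hv]
    split_ifs with h
    · obtain ⟨o, ho, e⟩ := h
      rw [e]
      exact z.hwok_pure_off 𝔽0 𝔽 hv o ho t
    · exact Or.inl rfl
  · have h1 : ∀ v, ∑ t, wt j v t = 𝔽0.m * (Fintype.card (σ.Sl v) - 2) := fun v => by
      simp only [wt, if_pos (⟨o, ho, e⟩ : ∃ o : Fin 𝔽.r → YI (Fin n) 𝔽0.Fˣ i0 i2,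
        Function.Surjective o ∧ j.1 = fun y => -(bitv o y : ZMod 𝔽.m))]
      split_ifs
      · rw [Finset.sum_ite_eq', if_pos (Finset.mem_univ _)]
      · rw [Finset.sum_const, Finset.card_univ, 𝔽0.card_units, smul_eq_mul]
    simp only [h1]
    rw [← Finset.mul_sum, Nat.eq_sub_of_add_eq σ.sum_card_sub_two]

theorem Rich.richG {n : ℕ} {𝔽0 𝔽 : FF} (h1 : 𝔽0.r = 1) {i0 i2 : Fin n} {G : Type} [Group G]
    [Finite G] {d : Fin n → G} (h : Rich 𝔽0 𝔽 i0 i2 G d) : RichG 𝔽 d := by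
  have hm : 𝔽0.m = 1 := by rw [FF.m, h1]; rfl
  have : Subsingleton 𝔽0.Fˣ := Fintype.card_le_one_iff_subsingleton.1 (𝔽0.card_units.trans hm).le
  obtain ⟨χ0, -, h⟩ := h
  let π : G →* χ0.ker := (MonoidHom.id G).codRestrict _ fun _ => Subsingleton.elim _ _
  have hπ : Function.Surjective π := fun g => ⟨g, rfl⟩
  let E : Fin n ≃ YI (Fin n) 𝔽0.Fˣ i0 i2 :=
    ⟨fun l => ⟨(l, 1), fun _ => rfl⟩, fun y => y.1.1, fun _ => rfl,
      fun y => Subtype.ext (Prod.ext rfl (Subsingleton.elim _ _))⟩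
  obtain ⟨r1, r2⟩ := h (fun y => π (d y.1.1)) ⟨fun _ => 1, fun _ => Subsingleton.elim _ _,
    fun y => by simp [yd, hm, π]⟩
  refine ⟨fun x hx => ?_, fun o ho => ?_⟩
  · obtain ⟨χ, hχ⟩ := r1 (fun y => x (E.symm y)) (by rwa [Equiv.sum_comp E.symm x])
    exact ⟨χ.comp π, fun l => hχ (E l)⟩
  · obtain ⟨χ, hχ, hc⟩ := r2 (fun b => E (o b)) (E.surjective.comp ho)
    refine ⟨χ.comp π, fun l => ?_, ?_⟩
    · rw [← bitv_equiv_RR E o l]
      exact hχ (E l)
    · rw [Fintype.card_congr E]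
      exact hc.trans (Nat.add_le_add_right (h1_le_comp χ π hπ) 1)

end Pool.Agent.Adm

end

section

/-! The stable curve defined by a type and coordinates. -/

namespace Pool.Agent.Adm

open scoped OnePoint
open Sum

noncomputable section

variable {n : ℕ} {σ : Shape n}

open Classical in
/-- The node of v in the direction of w. -/
def Pt.node (z : Pt σ) (v w : Fin σ.r) : OnePoint z.k :=
  if h : σ.T.Adj v w then (z.x (inl ⟨(v, w), h⟩) : OnePoint z.k) else ∞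

theorem Pt.node_adj (z : Pt σ) {v w : Fin σ.r} (h : σ.T.Adj v w) :
    z.node v w = (z.x (inl ⟨(v, w), h⟩) : OnePoint z.k) := dif_pos h

theorem Pt.special_eq (z : Pt σ) (v : Fin σ.r) :
    {a | (∃ w, σ.T.Adj v w ∧ z.node v w = a) ∨
      ∃ i, σ.comp i = v ∧ (z.x (inr i) : OnePoint z.k) = a} =
      Set.range fun s : σ.Sl v => (z.x s : OnePoint z.k) := by
  ext a
  constructor
  · rintro (⟨w, h, rfl⟩ | ⟨i, h, rfl⟩)
    · exact ⟨⟨inl ⟨(v, w), h⟩, rfl⟩, (z.node_adj h).symm⟩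
    · exact ⟨⟨inr i, h⟩, rfl⟩
  · rintro ⟨⟨s, hs⟩, rfl⟩
    rcases s with ⟨⟨v', w⟩, h⟩ | i
    · obtain rfl : v' = v := hs
      exact Or.inl ⟨w, h, z.node_adj h⟩
    · exact Or.inr ⟨i, hs, rfl⟩

/-- The stable curve. -/
def Pt.curve (z : Pt σ) : StableCurve 2 n where
  k := z.k
  V := Fin σ.r
  T := σ.T
  tree := σ.tree
  node := z.node
  comp := σ.comp
  mark i := (z.x (inr i) : OnePoint z.k)
  node_inj v w w' h h' e := by
    rw [z.node_adj h, z.node_adj h', OnePoint.coe_eq_coe] at e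
    have := z.inj (inl ⟨(v, w), h⟩) (inl ⟨(v, w'), h'⟩) rfl e
    simpa using this
  mark_inj i j h e := by
    rw [OnePoint.coe_eq_coe] at e
    simpa using z.inj (inr i) (inr j) h e
  mark_ne_node i w h e := by
    rw [z.node_adj h, OnePoint.coe_eq_coe] at e
    simpa using z.inj (inr i) (inl ⟨(σ.comp i, w), h⟩) rfl e
  stable v := by
    rw [z.special_eq v, Set.ncard_range_of_injective]
    · exact σ.stable v
    · intro s s' e
      exact Subtype.ext (z.inj _ _ (s.2.trans s'.2.symm) (OnePoint.coe_eq_coe.1 e))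

theorem Pt.tw_curve (z : Pt σ) (θ' : K0 →+* z.k) : (z.tw θ').curve = z.curve := rfl

end

end Pool.Agent.Adm

end

section

/-! Admissible coverings of the curve with given coordinates. -/

namespace Pool.Agent.Adm

variable {n : ℕ} {σ : Shape n}

theorem Pt.special_iff_Br1 (z : Pt σ) (v : Fin σ.r) (a : OnePoint z.k) :
    z.curve.Special v a ↔ a ∈ Set.range fun s : σ.Sl v => (z.x s : OnePoint z.k) :=
  Set.ext_iff.1 (z.special_eq v) a

theorem Pt.Q_of_hasCover_Br1 (z : Pt σ) (G : Type) [Group G] (h : z.curve.HasCover G) :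
    z.Q G := by
  classical
  obtain ⟨c, htame, hnode, htop⟩ := h
  have h1 : ∀ δ : σ.T.Dart, ∃ g : G,
      (c δ.fst).M z.θ (z.x (Sum.inl δ) : OnePoint z.k) g ∧
        (c δ.snd).M z.θ (z.x (Sum.inl δ.symm) : OnePoint z.k) g⁻¹ := fun δ => by
    obtain ⟨e, ζ, g, h2, h3⟩ := hnode δ.fst δ.snd δ.adj
    obtain ⟨g', h4, h5⟩ := h2.m_glue z.θ h3
    have e1 : z.curve.node δ.fst δ.snd = (z.x (Sum.inl δ) : OnePoint z.k) := z.node_adj δ.adj
    have e2 : z.curve.node δ.snd δ.fst = (z.x (Sum.inl δ.symm) : OnePoint z.k) :=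
      z.node_adj δ.adj.symm
    rw [e1] at h4
    rw [e2] at h5
    exact ⟨g', h4, h5⟩
  have h2 : ∀ l : Fin n, ∃ g : G,
      (c (σ.comp l)).M z.θ (z.x (Sum.inr l) : OnePoint z.k) g := fun l => by
    obtain ⟨e, ζ, g, h3, -⟩ := htame (σ.comp l) (z.x (Sum.inr l) : OnePoint z.k)
    obtain ⟨-, j, hj, hζ⟩ := exists_pow_xi z.θ h3.1 h3.2.1
    exact ⟨_, h3.m_of_pow hj hζ⟩
  choose g0 hg0 hg0' using h1
  choose gm hgm using h2
  refine ⟨Sum.elim (fun δ => if δ.fst < δ.snd then g0 δ else (g0 δ.symm)⁻¹) gm,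
    fun v => (c v).ι.range, ⟨fun v => ⟨c v, rfl, fun a ha => ?_, ?_⟩, fun δ => ?_⟩, htop⟩
  · obtain ⟨e, ζ, g, h3, h4⟩ := htame v a
    rw [h4 fun h5 => ha ((z.special_iff_Br1 v a).1 h5)] at h3
    exact h3.m_one z.θ
  · rintro ⟨δ | l, rfl⟩
    · by_cases h3 : δ.fst < δ.snd
      · simp only [Sum.elim_inl, if_pos h3]
        exact hg0 δ
      · simp only [Sum.elim_inl, if_neg h3]
        exact hg0' δ.symm
    · exact hgm l
  · simp only [Sum.elim_inl]
    by_cases h3 : δ.fst < δ.snd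
    · have h4 : ¬ δ.symm.fst < δ.symm.snd := not_lt.2 h3.le
      rw [if_pos h3, if_neg h4, SimpleGraph.Dart.symm_symm]
    · have h4 : δ.symm.fst < δ.symm.snd := lt_of_le_of_ne (not_lt.1 h3) δ.adj.ne'
      rw [if_neg h3, if_pos h4, inv_inv]

theorem Pt.hasCover_of_Q_Br1 (z : Pt σ) (G : Type) [Group G] (h : z.Q G) :
    z.curve.HasCover G := by
  obtain ⟨d, R, ⟨hV, hsymm⟩, htop⟩ := h
  choose c hc1 hc2 hc3 using hV
  refine ⟨c, fun v a => ?_, fun v w hvw => ?_, ?_⟩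
  · by_cases ha : a ∈ Set.range fun s : σ.Sl v => (z.x s : OnePoint z.k)
    · obtain ⟨s, rfl⟩ := ha
      obtain ⟨e, -, h1⟩ := hc3 v s
      exact ⟨e, _, _, h1, fun h2 => absurd ((z.special_iff_Br1 v _).2 ⟨s, rfl⟩) h2⟩
    · obtain ⟨e, -, h1⟩ := hc2 v a ha
      exact ⟨e, _, _, h1, fun _ => rfl⟩
  · have h1 := hc3 v ⟨Sum.inl ⟨(v, w), hvw⟩, rfl⟩
    have h2 := hc3 w ⟨Sum.inl (SimpleGraph.Dart.symm ⟨(v, w), hvw⟩), rfl⟩
    have e1 : z.curve.node v w = (z.x (Sum.inl ⟨(v, w), hvw⟩) : OnePoint z.k) := z.node_adj hvw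
    have e2 : z.curve.node w v =
        (z.x (Sum.inl (SimpleGraph.Dart.symm ⟨(v, w), hvw⟩)) : OnePoint z.k) :=
      z.node_adj hvw.symm
    simp only [hsymm] at h2
    rw [e1, e2]
    obtain ⟨e, ζ, h3, h4⟩ := h1.glue h2
    exact ⟨e, ζ, _, h3, h4⟩
  · exact (iSup_congr hc1).trans htop

theorem Pt.hasCover_iff (z : Pt σ) (G : Type) [Group G] : z.curve.HasCover G ↔ z.Q G := by
  exact ⟨z.Q_of_hasCover_Br1 G, z.hasCover_of_Q_Br1 G⟩

theorem Pt.Q_tw (z : Pt σ) (θ' : K0 →+* z.k) (G : Type) [Group G] : (z.tw θ').Q G ↔ z.Q G := by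
  rw [← Pt.hasCover_iff, ← Pt.hasCover_iff, Pt.tw_curve]

end Pool.Agent.Adm

end

section

/-! Every stable curve has a model with finite coordinates. -/

namespace Pool.Agent.Adm

open scoped OnePoint

/-- Admissible coverings in unbundled form. -/
def HC_Br2 {k V : Type} [Field k] {n : ℕ} (T : SimpleGraph V) (node : V → V → OnePoint k)
    (comp : Fin n → V) (mark : Fin n → OnePoint k) (G : Type) [Group G] : Prop :=
  ∃ c : V → Cover k G,
    (∀ v a, ∃ e ζ g, (c v).Mono a e ζ g ∧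
      (¬ ((∃ w, T.Adj v w ∧ node v w = a) ∨ ∃ i, comp i = v ∧ mark i = a) → g = 1)) ∧
    (∀ v w, T.Adj v w → ∃ e ζ g, (c v).Mono (node v w) e ζ g ∧ (c w).Mono (node w v) e ζ⁻¹ g) ∧
    ⨆ v, (c v).ι.range = ⊤

section

variable {k V V' : Type} [Field k] {n : ℕ} {T : SimpleGraph V} {node : V → V → OnePoint k}
  {comp : Fin n → V} {mark : Fin n → OnePoint k} {T' : SimpleGraph V'}
  {node' : V' → V' → OnePoint k} {comp' : Fin n → V'} {mark' : Fin n → OnePoint k}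

theorem transport_Br2 (e : V' ≃ V) (μ : V' → OnePoint k ≃ OnePoint k) (hμ : ∀ v, Mob1 (μ v))
    (hT : ∀ v w, T'.Adj v w ↔ T.Adj (e v) (e w))
    (hn : ∀ v w, T'.Adj v w → node' v w = μ v (node (e v) (e w)))
    (hc : ∀ i, e (comp' i) = comp i) (hm : ∀ i, mark' i = μ (comp' i) (mark i))
    (G : Type) [Group G] (h : HC_Br2 T node comp mark G) : HC_Br2 T' node' comp' mark' G := by
  obtain ⟨c, h1, h2, h3⟩ := h
  choose c' r1 r2 using fun v => hμ v G (c (e v))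
  refine ⟨c', fun v a => ?_, fun v w hvw => ?_, ?_⟩
  · obtain ⟨a, rfl⟩ := (μ v).surjective a
    obtain ⟨m, ζ, g, a1, a2⟩ := h1 (e v) a
    refine ⟨m, ζ, g, r2 v _ _ _ _ a1, fun hs => a2 fun hs' => hs ?_⟩
    rcases hs' with ⟨w, hw, rfl⟩ | ⟨i, hi, rfl⟩
    · obtain ⟨w, rfl⟩ := e.surjective w
      exact Or.inl ⟨w, (hT v w).2 hw, hn v w ((hT v w).2 hw)⟩
    · obtain rfl : comp' i = v := e.injective ((hc i).trans hi)
      exact Or.inr ⟨i, rfl, hm i⟩
  · obtain ⟨m, ζ, g, a1, a2⟩ := h2 _ _ ((hT v w).1 hvw)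
    rw [hn v w hvw, hn w v hvw.symm]
    exact ⟨m, ζ, g, r2 v _ _ _ _ a1, r2 w _ _ _ _ a2⟩
  · rw [← h3, ← e.iSup_comp (g := fun v => (c v).ι.range)]
    exact iSup_congr r1

theorem iff_Br2 (e : V' ≃ V) (μ : V' → OnePoint k ≃ OnePoint k) (hμ : ∀ v, IsMob (μ v))
    (hT : ∀ v w, T'.Adj v w ↔ T.Adj (e v) (e w))
    (hn : ∀ v w, T'.Adj v w → node' v w = μ v (node (e v) (e w)))
    (hc : ∀ i, e (comp' i) = comp i) (hm : ∀ i, mark' i = μ (comp' i) (mark i))
    (G : Type) [Group G] : HC_Br2 T node comp mark G ↔ HC_Br2 T' node' comp' mark' G := by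
  refine ⟨transport_Br2 e μ (fun v => (hμ v).1) hT hn hc hm G,
    transport_Br2 e.symm (fun v => (μ (e.symm v)).symm) (fun v => (hμ _).2) (fun v w => ?_)
      (fun v w h => ?_) (fun i => ?_) (fun i => ?_) G⟩
  · rw [hT, e.apply_symm_apply, e.apply_symm_apply]
  · obtain ⟨v, rfl⟩ := e.surjective v
    obtain ⟨w, rfl⟩ := e.surjective w
    rw [e.symm_apply_apply, e.symm_apply_apply, hn v w ((hT v w).2 h), Equiv.symm_apply_apply]
  · rw [← hc, e.symm_apply_apply]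
  · rw [← hc, e.symm_apply_apply, hm, Equiv.symm_apply_apply]

end

theorem StableCurve.exists_pt {n : ℕ} (X : StableCurve 2 n) :
    ∃ (σ : Shape n) (z : Pt σ), ∀ (G : Type) [Group G], X.HasCover G ↔ z.curve.HasCover G := by
  obtain ⟨r, ⟨e⟩⟩ : ∃ r, Nonempty (Fin r ≃ X.V) := ⟨_, ⟨(Finite.equivFin X.V).symm⟩⟩
  let pt : (X.T.comap e).Dart ⊕ Fin n → OnePoint X.k :=
    Sum.elim (fun δ => X.node (e δ.fst) (e δ.snd)) X.mark
  have hi : ∀ s s', slotBase (X.T.comap e) (fun i => e.symm (X.comp i)) s =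
      slotBase (X.T.comap e) (fun i => e.symm (X.comp i)) s' → pt s = pt s' → s = s' := by
    rintro (⟨⟨v, w⟩, h⟩ | i) (⟨⟨v', w'⟩, h'⟩ | i') h1 h2
    · obtain rfl : v = v' := h1
      obtain rfl : w = w' := e.injective (X.node_inj _ _ _ h h' h2)
      rfl
    · have h3 : X.comp i' = e v := e.symm_apply_eq.1 (Eq.symm h1)
      refine absurd (Eq.symm h2) ?_
      have := X.mark_ne_node i' (e w)
      rw [h3] at this
      exact this h
    · have h3 : X.comp i = e v' := e.symm_apply_eq.1 h1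
      refine absurd h2 ?_
      have := X.mark_ne_node i (e w')
      rw [h3] at this
      exact this h'
    · rw [X.mark_inj i i' (e.symm.injective h1) h2]
  let σ : Shape n :=
    { r := r
      T := X.T.comap e
      tree := (SimpleGraph.Iso.comap e X.T).isTree_iff.2 X.tree
      comp := fun i => e.symm (X.comp i)
      stable := fun v => by
        rw [← Set.ncard_range_of_injective (f := fun s : {s // slotBase (X.T.comap e)
          (fun i => e.symm (X.comp i)) s = v} => pt s)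
          fun s s' h => Subtype.ext (hi _ _ (s.2.trans s'.2.symm) h)]
        refine (X.stable (e v)).trans_eq (congrArg Set.ncard ?_)
        ext a
        constructor
        · rintro (⟨w, h, rfl⟩ | ⟨i, h, rfl⟩)
          · obtain ⟨w, rfl⟩ := e.surjective w
            exact ⟨⟨.inl ⟨(v, w), h⟩, rfl⟩, rfl⟩
          · exact ⟨⟨.inr i, e.symm_apply_eq.2 h⟩, rfl⟩
        · rintro ⟨⟨⟨⟨v', w⟩, h⟩ | i, hs⟩, rfl⟩
          · obtain rfl : v' = v := hs
            exact Or.inl ⟨e w, h, rfl⟩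
          · exact Or.inr ⟨i, e.symm_apply_eq.1 hs, rfl⟩ }
  have : Finite σ.T.Dart := Finite.of_injective _ SimpleGraph.Dart.toProd_injective
  choose μ hμ hf using fun v => exists_mob_finite fun s : σ.Sl v => pt s
  choose x hx using fun s : σ.Slot => OnePoint.ne_infty_iff_exists.1 (hf (σ.base s) ⟨s, rfl⟩)
  let _ := ZMod.algebra X.k 2
  let z : Pt σ :=
    { k := X.k
      θ := (IsAlgClosed.lift : K0 →ₐ[ZMod 2] X.k).toRingHom
      x := x
      inj := fun s s' h1 h2 => hi s s' h1 ((μ (σ.base s)).injective (by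
        have : (x s' : OnePoint X.k) = μ (σ.base s') (pt s') := hx s'
        rw [← h1, ← h2, hx s] at this
        exact this)) }
  refine ⟨σ, z, fun G _ => ?_⟩
  exact iff_Br2 (T' := σ.T) (node' := z.node) (comp' := σ.comp)
    (mark' := fun i => (x (.inr i) : OnePoint X.k)) e μ hμ (fun _ _ => Iff.rfl)
    (fun v w h => (z.node_adj h).trans (hx _)) (fun i => e.apply_symm_apply _)
    (fun i => hx _) G

end Pool.Agent.Adm

end
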