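import Pool.Agent.Mg.F0854a0.G288062
import Pool.Agent.Mg.F0854a0.G8022e6
import Pool.Agent.Mg.F0854a0.G8f1e9c
import Pool.Agent.Mg.F0854a0.Gea2904
import Pool.Agent.Mg.F0854a0.G2d4ed3
import Pool.Agent.Mg.F0854a0.Gd4bfd2
import Pool.Agent.Mg.F0854a0.G6ceadf

section

/-! Labels at the centre, and restriction of cocycles to the centre. -/

namespace Pool.Agent.Adm

open Sum

variable {n : ℕ} {σ : Shape n} {z : Pt σ} {G : Type} [Group G] [Finite G] {d : σ.Slot → G}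
  {R : Fin σ.r → Subgroup G} {v : Fin σ.r} {i0 i1 i2 : Fin n} {𝔽0 𝔽 : FF} {c : ℕ}
  {χ0 : G →* 𝔽0.Fˣ} {χ : χ0.ker →* 𝔽.Fˣ} {n0 : ℕ} {n1 : 𝔽0.Fˣ → ℕ} {nn : Fin n → ℕ}

theorem sum_inr_TU3 (σ : Shape n) (v : Fin σ.r) (l : Fin n) (hl : σ.comp l = v)
    (nn : Fin n → ℕ) :
    ∑ l' ∈ Finset.univ.filter (fun l' => σ.dir v l' = inr l), nn l' = nn l := by
  rw [Finset.sum_eq_single l]
  · intro l' h1 h2
    exact absurd ((σ.dir_eq_inr_iff v l' l).1 (Finset.mem_filter.1 h1).2).2 h2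
  · intro h
    exact absurd (Finset.mem_filter.2 ⟨Finset.mem_univ l, (σ.dir_eq_inr_iff v l l).2 ⟨hl, rfl⟩⟩) h

theorem TUH.lab_zero (H : TUH z d R v i0 i1 i2 𝔽0 𝔽 c χ0 χ n0 n1 nn) (h : χ0.ker)
    (hh : (h : G) = d (σ.dir v i0) ^ 𝔽0.m) :
    χ h = 𝔽.u ^ σ.tlab 𝔽0 v i0 i1 n0 n1 nn (σ.dir v i0) 1 := by
  rcases hs : σ.dir v i0 with δ | l
  · rw [hs] at hh
    exact (H.branch_zero δ hs.symm h hh).1
  · obtain ⟨h1, rfl⟩ := (σ.dir_eq_inr_iff v i0 l).1 hs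
    rw [hs] at hh
    rw [Shape.tlab, if_pos hs.symm, sum_inr_TU3 σ v i0 h1, H.nn0 i0 (.inl rfl), mul_zero,
      add_zero]
    exact H.lab.1 h hh

theorem TUH.lab_ne (H : TUH z d R v i0 i1 i2 𝔽0 𝔽 c χ0 χ n0 n1 nn) {s : σ.Slot}
    (hs : σ.base s = v) (h0 : s ≠ σ.dir v i0) (h2 : s ≠ σ.dir v i2) (γ : G) (h : χ0.ker)
    (hh : (h : G) = γ⁻¹ * d s * γ) : χ h = 𝔽.u ^ σ.tlab 𝔽0 v i0 i1 n0 n1 nn s (χ0 γ) := by
  rcases s with δ | l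
  · exact (H.branch_unram δ hs h0 h2 γ h hh).1
  · have hl : σ.dir v l = inr l := (σ.dir_eq_inr_iff v l l).2 ⟨hs, rfl⟩
    rw [Shape.tlab, if_neg h0, sum_inr_TU3 σ v l hs]
    by_cases h1 : l = i1
    · subst h1
      rw [if_pos hl.symm, H.nn0 l (.inr (.inl rfl)), add_zero]
      exact H.lab.2.1 γ h hh
    · rw [if_neg fun e => h1 ((σ.dir_eq_inr_iff v i1 l).1 e.symm).2.symm, zero_add]
      refine H.lab.2.2 l ?_ h1 ?_ γ h hh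
      · rintro rfl
        exact h0 hl.symm
      · rintro rfl
        exact h2 hl.symm

/-- The value of the Kummer character at a ramified node. -/
theorem TUH.chi0_ram_TU3 (H : TUH z d R v i0 i1 i2 𝔽0 𝔽 c χ0 χ n0 n1 nn) (δ : σ.T.Dart)
    (hδ : δ.fst = v) (hr : inl δ = σ.dir v i0 ∨ inl δ = σ.dir v i2) :
    χ0 (d (inl δ)) = 𝔽0.u ^ 2 ^ c ∨ χ0 (d (inl δ)) = (𝔽0.u ^ 2 ^ c)⁻¹ := by
  have h02 : i0 ≠ i2 := fun e => H.med.2.1 (by rw [e])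
  rw [H.adm.chi0_slot h02 H.kum, Shape.kum, Shape.base_inl, hδ]
  rcases hr with hr | hr
  · left
    rw [if_pos hr.symm, if_neg fun e => H.med.2.1 (hr.symm.trans e.symm), mul_one]
  · right
    rw [if_pos hr.symm, if_neg fun e => H.med.2.1 (e.trans hr), one_mul]

theorem TUH.h1_le_centre (H : TUH z d R v i0 i1 i2 𝔽0 𝔽 c χ0 χ n0 n1 nn)
    (hR : ⨆ w, R w = ⊤) : h1 χ ≤ h1 (χ.comp ((R v).subgroupOf χ0.ker).subtype) := by
  refine h1_le_of_restr χ _ fun b hb hb0 => ?_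
  have hc : ∀ x : χ0.ker, (x : G) ∈ R v → b x = 0 := fun x hx => hb0 ⟨x, hx⟩
  obtain ⟨K0, hK0⟩ := Z1.exists_ker hb
  have hK : ∀ x (hx : x ∈ χ0.ker), x ∈ K0.map χ0.ker.subtype ↔ b ⟨x, hx⟩ = 0 := by
    intro x hx
    rw [← hK0]
    refine ⟨?_, fun h => ⟨⟨x, hx⟩, h, rfl⟩⟩
    rintro ⟨y, hy, rfl⟩
    exact hy
  have hmem : ∀ δ : {δ : σ.T.Dart // δ.fst = v}, d (inl δ.1) ∈ R v := by
    intro δ
    have h1 := (H.adm.mem_branch δ.1).1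
    rwa [δ.2] at h1
  have key : χ0.ker ≤ K0.map χ0.ker.subtype := by
    refine ker_le_of_pieces χ0 (R v)
      (fun δ : {δ : σ.T.Dart // δ.fst = v} => ⨆ w ∈ σ.Br δ.1, R w) (fun δ => d (inl δ.1)) hmem
      (fun δ => (H.adm.mem_branch δ.1).2) ((σ.iSup_eq_branches R v).symm.trans hR) ?_ _ ?_ ?_
    · intro δ x hx
      by_cases hr : inl δ.1 = σ.dir v i0 ∨ inl δ.1 = σ.dir v i2
      · obtain ⟨γ, hγ⟩ := exists_section 𝔽0 χ0 c _ (H.chi0_ram_TU3 δ.1 δ.2 hr)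
        obtain ⟨h1, j, h2⟩ := hγ (χ0 x)
        exact ⟨j, by rw [← h1, ← h2, map_zpow]⟩
      · rw [not_or] at hr
        rw [H.adm.chi0_branch H.kum δ.1 (δ.2.symm ▸ hr.1) (δ.2.symm ▸ hr.2) x hx]
        exact one_mem _
    · intro x hx
      exact (hK x hx.2).2 (hc _ hx.1)
    · intro δ γ hγ x hx hx1
      have hk : ∀ γ' : G, γ'⁻¹ * x * γ' ∈ χ0.ker := fun γ' => by
        rw [MonoidHom.mem_ker, map_mul, map_mul, hx1, mul_one, map_inv, inv_mul_cancel]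
      by_cases hr : inl δ.1 = σ.dir v i0 ∨ inl δ.1 = σ.dir v i2
      · obtain ⟨s, hs⟩ := exists_section 𝔽0 χ0 c _ (H.chi0_ram_TU3 δ.1 δ.2 hr)
        obtain ⟨h1, h2⟩ := hs (χ0 γ)
        have h3 : s (χ0 γ) ∈ R v := (Subgroup.zpowers_le.2 (hmem δ)) h2
        have h4 : s (χ0 γ) ∈ ⨆ w ∈ σ.Br δ.1, R w :=
          (Subgroup.zpowers_le.2 (H.adm.mem_branch δ.1).2) h2
        have h5 : (s (χ0 γ))⁻¹ * γ ∈ χ0.ker := by
          rw [MonoidHom.mem_ker, map_mul, map_inv, h1, inv_mul_cancel]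
        have h6 : (s (χ0 γ))⁻¹ * γ ∈ K0.map χ0.ker.subtype :=
          (hK _ h5).2 (hc _ (mul_mem (inv_mem h3) hγ))
        have hm : d (inl δ.1) ^ 𝔽0.m ∈ χ0.ker := by
          rw [MonoidHom.mem_ker, map_pow, 𝔽0.pow_m]
        have hm0 : b ⟨_, hm⟩ = 0 := hc _ (pow_mem (hmem δ) _)
        have h7 : (s (χ0 γ))⁻¹ * x * s (χ0 γ) ∈ K0.map χ0.ker.subtype := by
          refine (hK _ (hk _)).2 ?_
          have h8 := mul_mem (mul_mem (inv_mem h4) hx) h4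
          rcases hr with hr | hr
          · exact (H.branch_zero δ.1 hr ⟨_, hm⟩ rfl).2 b hb hm0 _ h8
          · exact H.branch_infty δ.1 hr ⟨_, hm⟩ rfl b hb hm0 _ h8
        have h9 := mul_mem (mul_mem (inv_mem h6) h7) h6
        rwa [show ((s (χ0 γ))⁻¹ * γ)⁻¹ * ((s (χ0 γ))⁻¹ * x * s (χ0 γ)) * ((s (χ0 γ))⁻¹ * γ) =
          γ⁻¹ * x * γ by group] at h9
      · rw [not_or] at hr
        have h1 : χ0 (d (inl δ.1)) = 1 :=
          H.adm.chi0_branch H.kum δ.1 (δ.2.symm ▸ hr.1) (δ.2.symm ▸ hr.2) _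
            (H.adm.mem_branch δ.1).2
        have hm : γ⁻¹ * d (inl δ.1) * γ ∈ χ0.ker := by
          rw [MonoidHom.mem_ker, map_mul, map_mul, h1, mul_one, map_inv, inv_mul_cancel]
        refine (hK _ (hk γ)).2 ((H.branch_unram δ.1 δ.2 hr.1 hr.2 γ ⟨_, hm⟩ rfl).2 b hb
          (hc _ (mul_mem (mul_mem (inv_mem hγ) (hmem δ)) hγ)) _ ?_)
        rwa [show γ * (γ⁻¹ * x * γ) * γ⁻¹ = x by group]
  funext x
  exact (hK x.1 x.2).1 (key x.2)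

end Pool.Agent.Adm

end

section

/-! A test character with many cocycles forces a Hasse-Witt determinant to be nonzero. -/

namespace Pool.Agent.Adm

open Sum
open scoped OnePoint

variable {n : ℕ} {σ : Shape n} {z : Pt σ} {G : Type} [Group G] [Finite G] {d : σ.Slot → G}
  {R : Fin σ.r → Subgroup G} {v : Fin σ.r} {i0 i1 i2 : Fin n} {𝔽0 𝔽 : FF} {c : ℕ}
  {χ0 : G →* 𝔽0.Fˣ} {χ : χ0.ker →* 𝔽.Fˣ} {n0 : ℕ} {n1 : 𝔽0.Fˣ → ℕ} {nn : Fin n → ℕ}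

theorem TUH.det_ne_zero (H : TUH z d R v i0 i1 i2 𝔽0 𝔽 c χ0 χ n0 n1 nn) (hR : ⨆ w, R w = ⊤)
    (σ0 : K0 →+* K0) (hσ0 : ∀ x, σ0 x ^ 2 ^ c = x) (w : ℕ)
    (hw : n0 + ∑ t, n1 t + 𝔽0.m * ∑ l, nn l ≤ (w + 1) * 𝔽.m) (hh : w + 1 ≤ h1 χ) :
    ∃ α : z.k, α ^ 𝔽0.m = 1 ∧
      (HW (2 ^ 𝔽.r) (tpoly (z.θ.comp σ0) 𝔽0 α n0 n1 nn (z.crs v i0 i1 i2)) w).det ≠ 0 := by
  obtain ⟨m1, m2, m3⟩ := H.med
  have h02 : i0 ≠ i2 := fun e => m2 (e ▸ rfl)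
  have hl := div_ne_zero (z.dir_ne_RM m3) (z.dir_ne_RM m1.symm)
  have x02 := sub_ne_zero.1 (z.dir_ne_RM m2)
  obtain ⟨μ, hμ, μ2, -, μa⟩ := exists_mob_ratio _ _ _ x02 hl
  have hV := VP.mob (H.adm.1 v) μ hμ.1
  let s0 : σ.Sl v := ⟨σ.dir v i0, σ.base_dir v i0⟩
  let s2 : σ.Sl v := ⟨σ.dir v i2, σ.base_dir v i2⟩
  have hK : KumLab χ0 (fun s : σ.Sl v => d s) s0 s2 (𝔽0.u ^ 2 ^ c) := by
    refine ⟨?_, ?_, fun s a0 a2 => ?_⟩
    · exact (H.adm.chi0_slot h02 H.kum _).trans (σ.kum_dir_left _ m2).1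
    · exact (H.adm.chi0_slot h02 H.kum _).trans (σ.kum_dir_left _ m2).2
    · refine (H.adm.chi0_slot h02 H.kum _).trans (σ.kum_of_not_ram _ fun h => ?_)
      exact ((σ.ram_iff s.2).1 h).2.elim (fun e => a0 (Subtype.ext e))
        fun e => a2 (Subtype.ext e)
  obtain ⟨γ, hγ⟩ := exists_section 𝔽0 χ0 c _ (.inl hK.1)
  obtain ⟨α, P, hα, -, hP, hV'⟩ := hV.kummer (fun s s' e => Subtype.ext (z.inj _ _
    (s.2.trans s'.2.symm) (OnePoint.coe_eq_coe.1 (μ.injective e)))) 𝔽0 χ0 (s0 := s0) (s2 := s2)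
    ((μa _ x02).trans (by simp)) μ2 c σ0 hσ0 hK γ
    fun t => ⟨(hγ t).1, Subgroup.zpowers_le.2 (hV.mem s0) (hγ t).2⟩
  have a0 : α s0 = 0 := pow_eq_zero_iff 𝔽0.m_pos.ne' |>.1 (hα s0 0 ((μa _ x02).trans (by simp)))
  let β : σ.Slot → z.k := fun s => if h : σ.base s = v then α ⟨s, h⟩ else 0
  have hβ : ∀ s : σ.Sl v, β s = α s := fun s => dif_pos s.2
  have hA : (z.tw (z.θ.comp σ0)).KumAt 𝔽0 i0 i2 v _ β := ⟨hl, fun s hs _ b2 =>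
    (congrArg (· ^ 𝔽0.m) (hβ ⟨s, hs⟩)).trans (hα ⟨s, hs⟩ _ (μa _ (sub_ne_zero.1
      (z.sub_ne_RM hs (σ.base_dir v i2) b2))))⟩
  obtain ⟨e1, e2⟩ := Pt.tpoly_eq_fP _ 𝔽0 H.med hA n0 n1 nn fun l h => H.nn0 l (.inr (.inr h))
  obtain ⟨f1, f2, f3⟩ := Pt.fP_mult _ 𝔽0 (σ.tlab 𝔽0 v i0 i1 n0 n1 nn) hA m2
  have f0 := (Pt.fP_monic (z.tw (z.θ.comp σ0)) 𝔽0 (σ.tlab 𝔽0 v i0 i1 n0 n1 nn) i0 i2 β v).ne_zero
  rw [← e2] at f0 f1 f2 f3
  have hV2 := VP.restr χ0.ker inf_le_right (fun y => ⟨_, (hV'.mem y).2⟩) hV'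
  rw [Subgroup.inf_subgroupOf_right] at hV2
  obtain ⟨cv, hc, hu, hd⟩ := VP.restr _ le_rfl (fun y => ⟨_, hV2.mem y⟩) hV2
  rw [Subgroup.subgroupOf_self] at hc
  have s02 : s0 ≠ s2 := fun e => m2 (congrArg Subtype.val e)
  refine ⟨β (σ.dir v i1), e1, (cv.h1_le hc z.θ 𝔽 (χ.comp (Subgroup.subtype _)) _ f0 (fun a => ?_)
    ⟨_, (hP ⟨(s2, 1), fun _ => rfl⟩).trans (if_pos rfl) ▸ hd ⟨(s2, 1), fun _ => rfl⟩⟩ w
    ((tpoly_natDegree ..).trans_le hw)).2 (hh.trans (H.h1_le_centre hR))⟩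
  by_cases ha : (a : OnePoint z.k) ∈ Set.range P
  · obtain ⟨⟨⟨s, t⟩, hy⟩, ey⟩ := ha
    refine ⟨_, ey ▸ hd _, ?_⟩
    rw [hP] at ey
    have b2 : s ≠ s2 := fun e => by
      rw [if_pos e] at ey
      exact OnePoint.infty_ne_coe _ ey
    rw [if_neg b2, OnePoint.coe_eq_coe] at ey
    by_cases b0 : s = s0
    · subst b0
      rw [← ey, a0, mul_zero]
      exact (H.lab_zero _ (if_pos (.inl rfl))).trans (congrArg _ f1.symm)
    · have b0' : s.1 ≠ σ.dir v i0 := fun e => b0 (Subtype.ext e)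
      have b2' : s.1 ≠ σ.dir v i2 := fun e => b2 (Subtype.ext e)
      refine (H.lab_ne s.2 b0' b2' (γ t) _ (if_neg (not_or.2 ⟨b0, b2⟩))).trans (congrArg _ ?_)
      rw [(hγ t).1, ← ey, ← hβ]
      exact (f2 s t s.2 b0' b2').symm
  · refine ⟨1, hu _ ha, (map_one _).trans ((pow_zero _).symm.trans
      (congrArg _ (f3 a ?_ ?_).symm))⟩
    · rintro rfl
      refine ha ⟨⟨(s0, 1), fun _ => rfl⟩, (hP _).trans ((if_neg s02).trans ?_)⟩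
      rw [a0, mul_zero]
      rfl
    · rintro s t hs b0 b2 rfl
      refine ha ⟨⟨(⟨s, hs⟩, t), fun h => (h.elim (fun e => b0 (congrArg Subtype.val e))
        fun e => b2 (congrArg Subtype.val e)).elim⟩, (hP _).trans ((if_neg fun e =>
          b2 (congrArg Subtype.val e)).trans ?_)⟩
      rw [← hβ]
      rfl

end Pool.Agent.Adm

end

section

/-! The transport of the marked points of a Kummer covering is equivariant. -/

namespace Pool.Agent.Adm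

/-- The value of a character of the kernel on a conjugate only depends on the class of the
conjugating element. -/
theorem IsYD.char_conj {ι A G F : Type} [DecidableEq ι] [CommGroup A] [Group G] [CommGroup F]
    {N : ℕ} {χ0 : G →* A} {d : ι → G} {i0 i2 : ι} {e : YI ι A i0 i2 → χ0.ker}
    (he : IsYD N χ0 d i0 i2 e) (χ : χ0.ker →* F) (y : YI ι A i0 i2) (h0 : y.1.1 ≠ i0)
    (h2 : y.1.1 ≠ i2) (g : G) (hg : χ0 g = y.1.2) (h : χ0.ker)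
    (hh : (h : G) = g⁻¹ * d y.1.1 * g) : χ h = χ (e y) := by
  obtain ⟨γ, hγ, he⟩ := he
  let k : χ0.ker := ⟨(γ y.1.2)⁻¹ * g, by
    rw [MonoidHom.mem_ker, map_mul, map_inv, hγ, hg, inv_mul_cancel]⟩
  have : h = k⁻¹ * e y * k := by
    apply Subtype.ext
    rw [hh, Subgroup.coe_mul, Subgroup.coe_mul, Subgroup.coe_inv, he, yd, if_neg (by tauto)]
    simp only [k]
    group
  rw [this, map_mul, map_mul, map_inv, mul_right_comm, inv_mul_cancel, one_mul]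

theorem IsYD.conj_ST {ι A G F : Type} [DecidableEq ι] [CommGroup A] [Group G] [CommGroup F]
    {N : ℕ} {χ0 : G →* A} {d : ι → G} {i0 i2 : ι} {e : YI ι A i0 i2 → χ0.ker}
    (he : IsYD N χ0 d i0 i2 e) (χ : χ0.ker →* F) (y z : YI ι A i0 i2) (h0 : y.1.1 ≠ i0)
    (h2 : y.1.1 ≠ i2) (g : G) (hz : z.1.1 = y.1.1) (hg : z.1.2 = y.1.2 * χ0 g) :
    χ (MulAut.conjNormal g⁻¹ (e y)) = χ (e z) := by
  obtain ⟨γ, hγ, he'⟩ := id he
  refine he.char_conj χ z (hz ▸ h0) (hz ▸ h2) (γ y.1.2 * g) (by rw [map_mul, hγ, hg]) _ ?_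
  rw [MulAut.conjNormal_apply, he', yd, if_neg (by tauto), hz]
  group

theorem IsYD.char_ST {ι A G F : Type} [DecidableEq ι] [CommGroup A] [Group G] [CommGroup F]
    {N : ℕ} {χ0 : G →* A} {d : ι → G} {i0 i2 : ι} {e : YI ι A i0 i2 → χ0.ker}
    (he : IsYD N χ0 d i0 i2 e) (ψ : G →* F) (y : YI ι A i0 i2) :
    ∃ k, (k = N ∨ k = 1) ∧ ψ (e y) = ψ (d y.1.1) ^ k := by
  obtain ⟨γ, -, he⟩ := he
  rw [he, yd]
  split_ifs
  · exact ⟨N, Or.inl rfl, map_pow _ _ _⟩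
  · refine ⟨1, Or.inr rfl, ?_⟩
    rw [map_mul, map_mul, map_inv, mul_right_comm, inv_mul_cancel, one_mul, pow_one]

theorem RichG.sep_ST {𝔽 : FF} {ι H : Type} [Fintype ι] [DecidableEq ι] [Group H] {e : ι → H}
    (h : RichG 𝔽 e) {a b c : ι} (hab : a ≠ b) (hca : c ≠ a) (hcb : c ≠ b) :
    ∃ χ : H →* 𝔽.Fˣ, χ (e a) = 𝔽.u ∧ χ (e c) = 1 := by
  obtain ⟨χ, hχ⟩ := h.1 (Pi.single a 1 + Pi.single b (𝔽.m - 1)) (by
    have := 𝔽.m_pos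
    simp only [Pi.add_apply, Finset.sum_add_distrib, Finset.sum_pi_single', Finset.mem_univ,
      if_true]
    exact ⟨1, by omega⟩)
  refine ⟨χ, ?_, ?_⟩
  · rw [hχ]; simp [hab]
  · rw [hχ]; simp [hca, hcb]

theorem FF.pow_ne_ST (𝔽 : FF) {k c : ℕ} (h0 : 0 < k) (hk : k < 𝔽.m) :
    (𝔽.u ^ k) ^ 2 ^ c ≠ 1 := by
  intro h
  rw [← pow_mul, 𝔽.u_prim.pow_eq_one_iff_dvd] at h
  have hc : Nat.Coprime 𝔽.m (2 ^ c) :=
    Nat.Coprime.pow_right _ (Nat.coprime_two_right.2 𝔽.m_odd)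
  exact absurd (Nat.le_of_dvd h0 (hc.dvd_of_dvd_mul_right h)) (by omega)

theorem exists_shift {n : ℕ} {G : Type} [Group G] (𝔽0 𝔽 : FF) (hn : 3 ≤ n) (hN : 𝔽0.m < 𝔽.m)
    {i0 i2 : Fin n} (h02 : i0 ≠ i2) (d d' : Fin n → G) (τ : Fin n ≃ Fin n) (c : ℕ)
    (χ0 : G →* 𝔽0.Fˣ) (hb : ∀ (ψ : G →* 𝔽.Fˣ) l, ψ (d' (τ l)) = ψ (d l) ^ 2 ^ c)
    (hrb : RichG 𝔽 d) (e : YI (Fin n) 𝔽0.Fˣ i0 i2 → χ0.ker) (he : IsYD 𝔽0.m χ0 d i0 i2 e)
    (e' : YI (Fin n) 𝔽0.Fˣ (τ i0) (τ i2) → χ0.ker) (he' : IsYD 𝔽0.m χ0 d' (τ i0) (τ i2) e')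
    (hr : RichG 𝔽 e) (τY : YI (Fin n) 𝔽0.Fˣ i0 i2 ≃ YI (Fin n) 𝔽0.Fˣ (τ i0) (τ i2)) (cY : ℕ)
    (hY : ∀ (χ : χ0.ker →* 𝔽.Fˣ) y, χ (e' (τY y)) = χ (e y) ^ 2 ^ cY) :
    ∃ sh : Fin n → 𝔽0.Fˣ, ∀ y, (τY y).1.1 = τ y.1.1 ∧
      (y.1.1 ≠ i0 → y.1.1 ≠ i2 → (τY y).1.2 = sh y.1.1 * y.1.2) := by
  have hm0 := 𝔽0.m_pos
  have p1 : ∀ y, (τY y).1.1 = τ y.1.1 := by
    intro y
    by_contra hne
    have hne' : τ.symm (τY y).1.1 ≠ y.1.1 := fun h => hne (by rw [← h, Equiv.apply_symm_apply])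
    obtain ⟨l3, h3⟩ : ∃ l3, l3 ∉ ({y.1.1, τ.symm (τY y).1.1} : Finset (Fin n)) := by
      by_contra hall
      push Not at hall
      have h1 := Finset.card_le_card (fun l _ => hall l : Finset.univ ⊆ _)
      have h2 := Finset.card_le_two (a := y.1.1) (b := τ.symm (τY y).1.1)
      rw [Finset.card_univ, Fintype.card_fin] at h1
      omega
    rw [Finset.mem_insert, Finset.mem_singleton, not_or] at h3
    obtain ⟨ψ, h4, h5⟩ := hrb.sep_ST (Ne.symm h3.1) hne' (Ne.symm h3.2)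
    obtain ⟨k, hk, h6⟩ := he.char_ST ψ y
    obtain ⟨k', -, h7⟩ := he'.char_ST ψ (τY y)
    have h8 : ψ (e' (τY y)) = ψ (e y) ^ 2 ^ cY := hY (ψ.comp χ0.ker.subtype) y
    have h9 := hb ψ (τ.symm (τY y).1.1)
    rw [Equiv.apply_symm_apply, h5, one_pow] at h9
    rw [h6, h7, h4, h9, one_pow] at h8
    exact 𝔽.pow_ne_ST (by omega) (by omega) h8.symm
  refine ⟨fun l => (τY ⟨(l, 1), fun _ => rfl⟩).1.2, fun y => ⟨p1 y, fun h0 h2 => ?_⟩⟩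
  obtain ⟨γ, hγ, -⟩ := id he
  let y0 : YI (Fin n) 𝔽0.Fˣ i0 i2 := ⟨(y.1.1, 1), fun _ => rfl⟩
  have q0 : (τY y0).1.1 ≠ τ i0 := by rw [p1]; exact τ.injective.ne h0
  have q2 : (τY y0).1.1 ≠ τ i2 := by rw [p1]; exact τ.injective.ne h2
  let z : YI (Fin n) 𝔽0.Fˣ (τ i0) (τ i2) :=
    ⟨((τY y0).1.1, (τY y0).1.2 * y.1.2), fun h => absurd h (not_or.2 ⟨q0, q2⟩)⟩
  have key : ∀ χ : χ0.ker →* 𝔽.Fˣ, χ (e (τY.symm z)) ^ 2 ^ cY = χ (e y) ^ 2 ^ cY := by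
    intro χ
    have h1 : χ (MulAut.conjNormal (γ y.1.2)⁻¹ (e' (τY y0))) =
        χ (MulAut.conjNormal (γ y.1.2)⁻¹ (e y0)) ^ 2 ^ cY :=
      hY (χ.comp (MulAut.conjNormal (H := χ0.ker) (γ y.1.2)⁻¹).toMonoidHom) y0
    rw [he.conj_ST χ y0 y h0 h2 _ rfl (by rw [hγ]; exact (one_mul _).symm),
      he'.conj_ST χ (τY y0) z q0 q2 _ rfl (by rw [hγ])] at h1
    rw [← h1, ← hY, Equiv.apply_symm_apply]
  have hz : τY.symm z = y := by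
    by_contra hne
    obtain ⟨b, hb1, hb2⟩ : ∃ b : YI (Fin n) 𝔽0.Fˣ i0 i2, y ≠ b ∧ τY.symm z ≠ b := by
      by_cases h : (τY.symm z).1.1 = i0
      · exact ⟨⟨(i2, 1), fun _ => rfl⟩, fun e => h2 (by rw [e]),
          fun e => h02 (by rw [← h, e])⟩
      · exact ⟨⟨(i0, 1), fun _ => rfl⟩, fun e => h0 (by rw [e]), fun e => h (by rw [e])⟩
    obtain ⟨χ, h4, h5⟩ := hr.sep_ST hb1 hne hb2
    have := key χ
    rw [h4, h5, one_pow, ← pow_one 𝔽.u] at this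
    exact 𝔽.pow_ne_ST one_pos (by omega) this.symm
  have : τY y = z := by rw [← hz, Equiv.apply_symm_apply]
  rw [this]

end Pool.Agent.Adm

end

section

/-! Transport of inertia generators. -/

namespace Pool.Agent.Adm

theorem exists_bitv_LC {ι Γ : Type} [Fintype ι] [DecidableEq ι] [AddCommGroup Γ] (r : ℕ)
    (lab : Γ →+ (ι → ZMod (2 ^ r - 1)))
    (hsurj : ∀ x : ι → ZMod (2 ^ r - 1), ∑ l, x l = 0 → ∃ γ, lab γ = x) (o : Fin r → ι) :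
    ∃ γ, ∀ l, lab γ l = bitv o l := by
  obtain ⟨γ, hγ⟩ := hsurj (fun l => (bitv o l : ZMod (2 ^ r - 1))) (by
    rw [← Nat.cast_sum, sum_bitv, ZMod.natCast_self])
  exact ⟨γ, fun l => congrFun hγ l⟩

theorem support_LC {ι ι' Γ : Type} [Fintype ι] [DecidableEq ι] [Fintype ι']
    [AddCommGroup Γ] (r : ℕ) (hr : 3 * (Fintype.card ι + 8) < r)
    (lab : Γ →+ (ι → ZMod (2 ^ r - 1))) (lab' : Γ →+ (ι' → ZMod (2 ^ r - 1)))
    (hsurj : ∀ x : ι → ZMod (2 ^ r - 1), ∑ l, x l = 0 → ∃ γ, lab γ = x)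
    (hp : ∀ o : Fin r → ι, Function.Surjective o → ∀ γ, (∀ l, lab γ l = bitv o l) →
      (∀ l, lab' γ l ≠ 0) ∧ ∀ a : ℕ, ∑ l, (2 ^ a * lab' γ l).val ≤ 2 ^ r - 1)
    (i j : ι) (hij : i ≠ j) (γ : Γ) (hγ : lab γ = Pi.single i 1 - Pi.single j 1) (l1 l2 l3 : ι')
    (h12 : l1 ≠ l2) (h13 : l1 ≠ l3) (h23 : l2 ≠ l3) :
    lab' γ l1 = 0 ∨ lab' γ l2 = 0 ∨ lab' γ l3 = 0 := by
  obtain ⟨U, hU⟩ := exists_pure_AP (ι := ι) r (by omega) i j hij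
  obtain ⟨o0, -, h0⟩ := hU 0 (by positivity)
  obtain ⟨γ0, hγ0⟩ := exists_bitv_LC r lab hsurj o0
  have hU0 : ∀ l, lab γ0 l = U l := by
    intro l
    have h1 := h0 l
    rw [Nat.cast_zero, zero_mul, add_zero, Nat.cast_inj] at h1
    rw [hγ0, h1]
  refine not_three_of_pure r (Fintype.card ι) hr (lab' γ0) (lab' γ) (fun N hN => ?_) l1 l2 l3
    h12 h13 h23
  obtain ⟨o, ho, h1⟩ := hU N hN
  have h2 := hp o ho (γ0 + N • γ) (fun l => by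
    have h3 := congrArg (Int.cast : ℤ → ZMod (2 ^ r - 1)) (h1 l)
    rw [Int.cast_natCast] at h3
    rw [h3, map_add, map_nsmul, Pi.add_apply, Pi.smul_apply, hU0, hγ, Pi.sub_apply,
      Pi.single_apply, Pi.single_apply, nsmul_eq_mul]
    push_cast
    rfl)
  have e : ∀ l, lab' (γ0 + N • γ) l = lab' γ0 l + (N : ZMod (2 ^ r - 1)) * lab' γ l := fun l => by
    rw [map_add, map_nsmul, Pi.add_apply, Pi.smul_apply, nsmul_eq_mul]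
  simpa only [e] using h2

theorem monomial_of_pure {ι ι' Γ : Type} [Fintype ι] [DecidableEq ι] [Fintype ι']
    [AddCommGroup Γ] (r : ℕ) (hr : 3 * (Fintype.card ι + 8) < r) (h3 : 3 ≤ Fintype.card ι)
    (hc : Fintype.card ι = Fintype.card ι') (lab : Γ →+ (ι → ZMod (2 ^ r - 1)))
    (lab' : Γ →+ (ι' → ZMod (2 ^ r - 1))) (hi : Function.Injective lab)
    (hi' : Function.Injective lab') (hs : ∀ γ, ∑ l, lab γ l = 0) (hs' : ∀ γ, ∑ l, lab' γ l = 0)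
    (hsurj : ∀ x : ι → ZMod (2 ^ r - 1), ∑ l, x l = 0 → ∃ γ, lab γ = x)
    (hp : ∀ o : Fin r → ι, Function.Surjective o → ∀ γ, (∀ l, lab γ l = bitv o l) →
      (∀ l, lab' γ l ≠ 0) ∧ ∀ a : ℕ, ∑ l, (2 ^ a * lab' γ l).val ≤ 2 ^ r - 1) :
    ∃ (τ : ι ≃ ι') (c : ℕ), ∀ γ l, lab' γ (τ l) = 2 ^ c * lab γ l := by
  have hodd : Odd (2 ^ r - 1) :=
    Nat.Even.sub_odd Nat.one_le_two_pow (Nat.even_pow.2 ⟨even_two, by omega⟩) odd_one
  have hm1 : 1 < 2 ^ r - 1 := by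
    have : 2 ^ 2 ≤ 2 ^ r := Nat.pow_le_pow_right two_pos (by omega)
    omega
  obtain ⟨τ, x, hx⟩ := monomial_of_support (2 ^ r - 1) hodd hm1 h3 hc lab lab' hi hi' hs hs' hsurj
    (support_LC r hr lab lab' hsurj hp)
  obtain ⟨i, j, hij⟩ := Fintype.exists_pair_of_one_lt_card (α := ι) (by omega)
  have key : ∀ b : ℕ, 0 < b → b < r → x ≠ 0 ∧
      ∀ a : ℕ, (2 ^ a * x).val + (2 ^ a * (x * 2 ^ b)).val ≤ 2 ^ r - 1 := by
    intro b hb0 hb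
    obtain ⟨o, ho, h1, h2⟩ := exists_pure_pair r (by omega) h3 i j hij b hb0 hb
    obtain ⟨γ, hγ⟩ := exists_bitv_LC r lab hsurj o
    obtain ⟨h4, h5⟩ := hp o ho γ hγ
    have e1 : lab' γ (τ i) = x := by rw [hx, hγ, h1, Nat.cast_one, mul_one]
    have e2 : lab' γ (τ j) = x * 2 ^ b := by rw [hx, hγ, h2, Nat.cast_pow, Nat.cast_ofNat]
    refine ⟨e1 ▸ h4 (τ i), fun a => le_trans ?_ (h5 a)⟩
    rw [← e2, ← e1]
    exact Finset.add_le_sum (f := fun l => (2 ^ a * lab' γ l).val) (fun _ _ => Nat.zero_le _)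
      (Finset.mem_univ _) (Finset.mem_univ _) (τ.injective.ne hij)
  obtain ⟨c, rfl⟩ := eq_two_pow_of_rotations r (by omega) x (key 1 one_pos (by omega)).1
    fun a b hb0 hb => (key b hb0 hb).2 a
  exact ⟨τ, c, hx⟩

theorem pure_of_large {ι : Type} [Fintype ι] (m : ℕ) [NeZero m] (x : ι → ZMod m)
    (h2 : 2 ≤ Fintype.card ι) (hs : ∑ l, x l = 0)
    (h : Fintype.card ι * m ≤ ∑ l, (x l).val + m) :
    (∀ l, x l ≠ 0) ∧ ∑ l, (-x l).val ≤ m := by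
  classical
  have hne : ∀ l, x l ≠ 0 := by
    intro l0 h0
    have h1 : ∑ l ∈ Finset.univ.erase l0, ((x l).val + 1) ≤ ∑ _l ∈ Finset.univ.erase l0, m :=
      Finset.sum_le_sum fun l _ => (x l).val_lt
    rw [Finset.sum_add_distrib, Finset.sum_const, Finset.sum_const,
      Finset.card_erase_of_mem (Finset.mem_univ l0), Finset.card_univ, smul_eq_mul,
      smul_eq_mul] at h1
    rw [← Finset.add_sum_erase _ _ (Finset.mem_univ l0), h0, ZMod.val_zero] at h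
    obtain ⟨n, hn⟩ : ∃ n, Fintype.card ι = n + 1 := ⟨Fintype.card ι - 1, by omega⟩
    rw [hn, Nat.add_sub_cancel] at h1
    rw [hn, add_mul] at h
    omega
  refine ⟨hne, ?_⟩
  have h1 : ∑ l, ((-x l).val + (x l).val) = ∑ _l : ι, m :=
    Finset.sum_congr rfl fun l _ => by
      rw [ZMod.neg_val, if_neg (hne l), Nat.sub_add_cancel (x l).val_lt.le]
  rw [Finset.sum_add_distrib, Finset.sum_const, Finset.card_univ, smul_eq_mul] at h1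
  omega

theorem monomial_LC {ι ι' Γ : Type} [Fintype ι] [DecidableEq ι] [Fintype ι']
    [AddCommGroup Γ] (r m : ℕ) (hm : m = 2 ^ r - 1) (hr : 3 * (Fintype.card ι + 8) < r)
    (h3 : 3 ≤ Fintype.card ι) (hc : Fintype.card ι = Fintype.card ι')
    (lab : Γ →+ (ι → ZMod m)) (lab' : Γ →+ (ι' → ZMod m)) (hi : Function.Injective lab)
    (hi' : Function.Injective lab') (hs : ∀ γ, ∑ l, lab γ l = 0) (hs' : ∀ γ, ∑ l, lab' γ l = 0)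
    (hsurj : ∀ x : ι → ZMod m, ∑ l, x l = 0 → ∃ γ, lab γ = x)
    (hp : ∀ o : Fin r → ι, Function.Surjective o → ∀ γ, (∀ l, lab γ l = bitv o l) →
      (∀ l, lab' γ l ≠ 0) ∧ ∀ a : ℕ, ∑ l, (2 ^ a * lab' γ l).val ≤ m) :
    ∃ (τ : ι ≃ ι') (c : ℕ), ∀ γ l, lab' γ (τ l) = 2 ^ c * lab γ l := by
  subst hm
  exact monomial_of_pure r hr h3 hc lab lab' hi hi' hs hs' hsurj hp

/-- The discrete logarithm. -/
noncomputable def FF.lg_LC (𝔽 : FF) (t : 𝔽.Fˣ) : ZMod 𝔽.m := ((𝔽.exists_log t).choose : ℕ)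

theorem FF.pow_lg_LC (𝔽 : FF) (t : 𝔽.Fˣ) : 𝔽.u ^ (𝔽.lg_LC t).val = t := by
  rw [FF.lg_LC, 𝔽.pow_val_natCast]
  exact (𝔽.exists_log t).choose_spec.2.symm

theorem FF.lg_eq_LC (𝔽 : FF) {t : 𝔽.Fˣ} {a : ZMod 𝔽.m} (h : t = 𝔽.u ^ a.val) :
    𝔽.lg_LC t = a := by
  have h1 := (𝔽.pow_eq_pow_iff _ _).1 ((𝔽.pow_lg_LC t).trans h)
  rwa [ZMod.natCast_zmod_val, ZMod.natCast_zmod_val] at h1

theorem FF.lg_inj_LC (𝔽 : FF) {s t : 𝔽.Fˣ} (h : 𝔽.lg_LC s = 𝔽.lg_LC t) : s = t := by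
  rw [← 𝔽.pow_lg_LC s, h, 𝔽.pow_lg_LC]

theorem FF.lg_mul_LC (𝔽 : FF) (s t : 𝔽.Fˣ) : 𝔽.lg_LC (s * t) = 𝔽.lg_LC s + 𝔽.lg_LC t :=
  𝔽.lg_eq_LC (by rw [𝔽.pow_val_add, 𝔽.pow_lg_LC, 𝔽.pow_lg_LC])

theorem FF.lg_pow_LC (𝔽 : FF) (t : 𝔽.Fˣ) (n : ℕ) : 𝔽.lg_LC (t ^ n) = n * 𝔽.lg_LC t := by
  induction n with
  | zero =>
    rw [Nat.cast_zero, zero_mul]
    exact 𝔽.lg_eq_LC (by rw [ZMod.val_zero, pow_zero, pow_zero])
  | succ n ih => rw [pow_succ, 𝔽.lg_mul_LC, ih, Nat.cast_succ, add_mul, one_mul]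

/-- The labels of a character. -/
noncomputable def FF.lab_LC (𝔽 : FF) {H ι : Type} [Group H] (e : ι → H) :
    Additive (H →* 𝔽.Fˣ) →+ (ι → ZMod 𝔽.m) :=
  AddMonoidHom.mk' (fun γ y => -𝔽.lg_LC (γ.toMul (e y))) fun a b => by
    funext y
    rw [toMul_add, MonoidHom.mul_apply, 𝔽.lg_mul_LC, neg_add, Pi.add_apply]

theorem FF.lab_apply_LC (𝔽 : FF) {H ι : Type} [Group H] (e : ι → H)
    (γ : Additive (H →* 𝔽.Fˣ)) (y : ι) : 𝔽.lab_LC e γ y = -𝔽.lg_LC (γ.toMul (e y)) := rfl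

theorem Geo.lab_inj_LC {H ι : Type} [Group H] [Finite H] [Fintype ι] {e : ι → H}
    (hg : Geo Set.univ e ⊤) (𝔽 : FF) : Function.Injective (𝔽.lab_LC e) := by
  intro a b h
  exact Additive.toMul.injective
    (hg.char_ext 𝔽 _ _ fun i => 𝔽.lg_inj_LC (neg_injective (congrFun h i)))

theorem Geo.sum_lg_LC {H ι : Type} [Group H] [Finite H] [Fintype ι] {e : ι → H}
    (hg : Geo Set.univ e ⊤) (𝔽 : FF) (χ : H →* 𝔽.Fˣ) :
    ∑ y, 𝔽.lg_LC (χ (e y)) = 0 ∧ h1 χ * 𝔽.m ≤ ∑ y, (𝔽.lg_LC (χ (e y))).val := by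
  obtain ⟨h1, h2, -⟩ := hg.bounds 𝔽 χ (fun y => (𝔽.lg_LC (χ (e y))).val)
    fun y => (𝔽.pow_lg_LC _).symm
  refine ⟨?_, h2⟩
  have h3 := (ZMod.natCast_eq_zero_iff _ _).2 h1
  simpa only [Nat.cast_sum, ZMod.natCast_zmod_val] using h3

theorem Geo.sum_lab_LC {H ι : Type} [Group H] [Finite H] [Fintype ι] {e : ι → H}
    (hg : Geo Set.univ e ⊤) (𝔽 : FF) (γ : Additive (H →* 𝔽.Fˣ)) :
    ∑ y, 𝔽.lab_LC e γ y = 0 := by
  simp only [FF.lab_apply_LC, Finset.sum_neg_distrib, (hg.sum_lg_LC 𝔽 _).1, neg_zero]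

theorem RichG.surj_LC {H ι : Type} [Group H] [Fintype ι] [DecidableEq ι] {𝔽 : FF} {e : ι → H}
    (hR : RichG 𝔽 e) (x : ι → ZMod 𝔽.m) (hx : ∑ l, x l = 0) : ∃ γ, 𝔽.lab_LC e γ = x := by
  obtain ⟨χ, hχ⟩ := hR.1 (fun y => (-x y).val) (by
    rw [← ZMod.natCast_eq_zero_iff]
    simp only [Nat.cast_sum, ZMod.natCast_zmod_val, Finset.sum_neg_distrib, hx, neg_zero])
  refine ⟨Additive.ofMul χ, funext fun y => ?_⟩
  rw [FF.lab_apply_LC, toMul_ofMul, 𝔽.lg_eq_LC (hχ y), neg_neg]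

theorem RichG.pure_LC {H ι ι' : Type} [Group H] [Finite H] [Fintype ι] [DecidableEq ι]
    [Fintype ι'] {𝔽 : FF} {e : ι → H} {e' : ι' → H} (hc : Fintype.card ι = Fintype.card ι')
    (h3 : 3 ≤ Fintype.card ι) (hg : Geo Set.univ e ⊤) (hg' : Geo Set.univ e' ⊤) (hR : RichG 𝔽 e)
    (o : Fin 𝔽.r → ι) (ho : Function.Surjective o) (γ : Additive (H →* 𝔽.Fˣ))
    (hγ : ∀ l, 𝔽.lab_LC e γ l = bitv o l) :
    (∀ l, 𝔽.lab_LC e' γ l ≠ 0) ∧ ∀ a : ℕ, ∑ l, (2 ^ a * 𝔽.lab_LC e' γ l).val ≤ 𝔽.m := by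
  have := 𝔽.charP
  obtain ⟨χ, hχ, hh⟩ := hR.2 o ho
  have e1 : γ.toMul = χ := hg.char_ext 𝔽 _ _ fun y => by
    have h1 : 𝔽.lg_LC (γ.toMul (e y)) = -(bitv o y : ZMod 𝔽.m) := by
      rw [← hγ y, FF.lab_apply_LC, neg_neg]
    rw [← 𝔽.pow_lg_LC (γ.toMul (e y)), h1, 𝔽.pow_val_neg, 𝔽.pow_val_natCast]
    exact (eq_inv_of_mul_eq_one_left (hχ y)).symm
  have key : ∀ a : ℕ, (∀ l, 2 ^ a * 𝔽.lab_LC e' γ l ≠ 0) ∧
      ∑ l, (2 ^ a * 𝔽.lab_LC e' γ l).val ≤ 𝔽.m := by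
    intro a
    obtain ⟨h4, h5⟩ := hg'.sum_lg_LC 𝔽 (χ ^ 2 ^ a)
    rw [h1_pow_two_pow] at h5
    obtain ⟨h6, h7⟩ := pure_of_large 𝔽.m (fun y => 𝔽.lg_LC ((χ ^ 2 ^ a) (e' y)))
      (by omega) h4 (by
        rw [← hc]
        refine (Nat.mul_le_mul_right _ hh).trans ?_
        rw [add_mul, one_mul]
        exact Nat.add_le_add_right h5 _)
    have e2 : ∀ l, 2 ^ a * 𝔽.lab_LC e' γ l = -𝔽.lg_LC ((χ ^ 2 ^ a) (e' l)) := fun l => by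
      rw [FF.lab_apply_LC, e1, MonoidHom.pow_apply, 𝔽.lg_pow_LC, Nat.cast_pow,
        Nat.cast_ofNat, mul_neg]
    simp only [e2]
    exact ⟨fun l => neg_ne_zero.2 (h6 l), h7⟩
  refine ⟨fun l => ?_, fun a => (key a).2⟩
  have h1 := (key 0).1 l
  rwa [pow_zero, one_mul] at h1

theorem exists_transport {H ι ι' : Type} [Group H] [Finite H] [Fintype ι] [DecidableEq ι]
    [Fintype ι'] (𝔽 : FF) (e : ι → H) (e' : ι' → H) (hc : Fintype.card ι = Fintype.card ι')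
    (h3 : 3 ≤ Fintype.card ι) (hr : 3 * (Fintype.card ι + 8) < 𝔽.r) (hg : Geo Set.univ e ⊤)
    (hg' : Geo Set.univ e' ⊤) (hR : RichG 𝔽 e) :
    ∃ (τ : ι ≃ ι') (c : ℕ), ∀ (χ : H →* 𝔽.Fˣ) (y : ι), χ (e' (τ y)) = χ (e y) ^ 2 ^ c := by
  obtain ⟨τ, c, hτ⟩ := monomial_LC (Γ := Additive (H →* 𝔽.Fˣ)) 𝔽.r 𝔽.m rfl hr h3 hc
    (𝔽.lab_LC e) (𝔽.lab_LC e')
    (hg.lab_inj_LC 𝔽) (hg'.lab_inj_LC 𝔽) (hg.sum_lab_LC 𝔽) (hg'.sum_lab_LC 𝔽) hR.surj_LC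
    (hR.pure_LC hc h3 hg hg')
  refine ⟨τ, c, fun χ y => 𝔽.lg_inj_LC ?_⟩
  have h1 := hτ (Additive.ofMul χ) y
  rw [FF.lab_apply_LC, FF.lab_apply_LC, toMul_ofMul, mul_neg, neg_inj] at h1
  rw [h1, 𝔽.lg_pow_LC, Nat.cast_pow, Nat.cast_ofNat]

end Pool.Agent.Adm

end

section

/-! Transport of one test character. -/

namespace Pool.Agent.Adm

open Sum

theorem tpoly_reindex_HF1 {n : ℕ} {k : Type} [Field k] (θ : K0 →+* k) (𝔽0 : FF) (α : k) (n0 : ℕ)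
    (n1 : 𝔽0.Fˣ → ℕ) (nn : Fin n → ℕ) (a : Fin n → k) (s : 𝔽0.Fˣ) (τ : Fin n ≃ Fin n) :
    tpoly θ 𝔽0 α n0 (fun t => n1 (s * t)) (fun l => nn (τ.symm l)) a =
      tpoly θ 𝔽0 (θ (𝔽0.θ (s⁻¹ : 𝔽0.Fˣ)) * α) n0 n1 nn fun l => a (τ l) := by
  unfold tpoly
  congr 1
  · congr 1
    refine Fintype.prod_equiv (Equiv.mulLeft s) _ _ fun t => ?_
    simp only [Equiv.coe_mulLeft]
    rw [← mul_assoc, ← map_mul, ← map_mul, ← Units.val_mul, mul_inv_cancel_comm]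
  · refine (Fintype.prod_equiv τ _ _ fun l => ?_).symm
    simp only [Equiv.symm_apply_apply]

theorem tlab_transport_HF1 {n : ℕ} {G : Type} [Group G] {𝔽0 𝔽 : FF} {d d' : Fin n → G}
    {τ : Fin n ≃ Fin n} {i0 i1 i2 : Fin n} (h10 : i1 ≠ i0) (h12 : i1 ≠ i2) {χ0 : G →* 𝔽0.Fˣ}
    {χ χ' : χ0.ker →* 𝔽.Fˣ} {e : YI (Fin n) 𝔽0.Fˣ i0 i2 → χ0.ker} (he : IsYD 𝔽0.m χ0 d i0 i2 e)
    {e' : YI (Fin n) 𝔽0.Fˣ (τ i0) (τ i2) → χ0.ker} (he' : IsYD 𝔽0.m χ0 d' (τ i0) (τ i2) e')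
    {τY : YI (Fin n) 𝔽0.Fˣ i0 i2 ≃ YI (Fin n) 𝔽0.Fˣ (τ i0) (τ i2)}
    (hχ : ∀ y, χ' (e' (τY y)) = χ (e y)) {sh : Fin n → 𝔽0.Fˣ}
    (hsh : ∀ y, (τY y).1.1 = τ y.1.1 ∧
      (y.1.1 ≠ i0 → y.1.1 ≠ i2 → (τY y).1.2 = sh y.1.1 * y.1.2))
    {n0 : ℕ} {n1 : 𝔽0.Fˣ → ℕ} {nn : Fin n → ℕ} (hT : TLab 𝔽0 𝔽 χ0 χ d i0 i1 i2 n0 n1 nn) :
    TLab 𝔽0 𝔽 χ0 χ' d' (τ i0) (τ i1) (τ i2) n0 (fun t => n1 ((sh i1)⁻¹ * t))
      fun l => nn (τ.symm l) := by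
  have key : ∀ l, l ≠ i0 → l ≠ i2 → ∀ (g : G) (h : χ0.ker), (h : G) = g⁻¹ * d' (τ l) * g →
      ∃ (g0 : G) (h0 : χ0.ker), (h0 : G) = g0⁻¹ * d l * g0 ∧ χ0 g0 = (sh l)⁻¹ * χ0 g ∧
        χ' h = χ h0 := by
    intro l l0 l2 g h hh
    obtain ⟨γ, hγ, hy⟩ := he
    let y : YI (Fin n) 𝔽0.Fˣ i0 i2 := ⟨(l, (sh l)⁻¹ * χ0 g), fun h => (h.elim l0 l2).elim⟩
    obtain ⟨a1, a2⟩ := hsh y
    have a3 : (τY y).1.2 = χ0 g := (a2 l0 l2).trans (mul_inv_cancel_left _ _)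
    refine ⟨γ ((sh l)⁻¹ * χ0 g), e y, ?_, hγ _, ?_⟩
    · rw [hy, yd, if_neg fun h => h.elim l0 l2]
    · rw [← hχ]
      exact he'.char_conj χ' (τY y) (by rw [a1]; exact τ.injective.ne l0)
        (by rw [a1]; exact τ.injective.ne l2) g a3.symm h (by rw [a1]; exact hh)
  refine ⟨fun h hh => ?_, fun g h hh => ?_, fun l l0 l1 l2 g h hh => ?_⟩
  · obtain ⟨γ, -, hy⟩ := he
    obtain ⟨γ', -, hy'⟩ := he'
    let y : YI (Fin n) 𝔽0.Fˣ i0 i2 := ⟨(i0, 1), fun _ => rfl⟩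
    have a1 : (τY y).1.1 = τ i0 := (hsh y).1
    have a2 : h = e' (τY y) := Subtype.ext (by rw [hh, hy', yd, if_pos (.inl a1), a1])
    rw [a2, hχ]
    exact hT.1 _ (by rw [hy, yd, if_pos (.inl rfl)])
  · obtain ⟨g0, h0, a1, a2, a3⟩ := key i1 h10 h12 g h hh
    rw [a3, hT.2.1 g0 h0 a1, a2]
  · obtain ⟨l, rfl⟩ := τ.surjective l
    have b0 : l ≠ i0 := fun e => l0 (e ▸ rfl)
    have b1 : l ≠ i1 := fun e => l1 (e ▸ rfl)
    have b2 : l ≠ i2 := fun e => l2 (e ▸ rfl)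
    obtain ⟨g0, h0, a1, -, a3⟩ := key l b0 b2 g h hh
    rw [a3, hT.2.2 l b0 b1 b2 g0 h0 a1]
    simp only [Equiv.symm_apply_apply]

theorem test_transport {n : ℕ} {σ' : Shape n} (z' : Pt σ') {G : Type} [Group G] [Finite G]
    (d : Fin n → G) (hd : Geo Set.univ d ⊤) (d' : σ'.Slot → G) (hd' : z'.Adm G d') (𝔽0 𝔽 : FF)
    (hdiv : 𝔽0.r ∣ 𝔽.r) (hN : 𝔽0.m < 𝔽.m) (hr : 3 * (𝔽0.m * (n - 2) + 2 + 8) < 𝔽.r)
    (τ : Fin n ≃ Fin n) (c : ℕ)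
    (hb : ∀ (ψ : G →* 𝔽.Fˣ) l, ψ (d' (inr (τ l))) = ψ (d l) ^ 2 ^ c) (hrb : RichG 𝔽 d)
    {i0 i1 i2 : Fin n} (hR : Rich 𝔽0 𝔽 i0 i2 G d) (n0 : ℕ) (n1 : 𝔽0.Fˣ → ℕ) (nn : Fin n → ℕ)
    (w : ℕ) (hT : Test 𝔽0 𝔽 i0 i1 i2 n0 n1 nn w G d) {v' : Fin σ'.r}
    (hm : σ'.IsMed v' (τ i0) (τ i1) (τ i2))
    (hnn : ∀ l, l = i0 ∨ l = i1 ∨ σ'.dir v' (τ l) = σ'.dir v' (τ i2) → nn l = 0)
    (hb0 : n0 + 𝔽0.m * ∑ l, nn l < 𝔽.m) (hb1 : ∀ t, n1 t + ∑ l, nn l < 𝔽.m)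
    (hw : n0 + ∑ t, n1 t + 𝔽0.m * ∑ l, nn l ≤ (w + 1) * 𝔽.m) (σ0 : K0 →+* K0)
    (hσ0 : ∀ x, σ0 x ^ 2 ^ c = x) :
    ∃ η : z'.k, η ^ 𝔽0.m = 1 ∧ (HW (2 ^ 𝔽.r) (tpoly (z'.θ.comp σ0) 𝔽0 η n0 n1 nn
      fun l => z'.crs v' (τ i0) (τ i1) (τ i2) (τ l)) w).det ≠ 0 := by
  obtain ⟨χ0, hK, hR⟩ := hR
  obtain ⟨χ1, hK1, sh, χ, hT, hh⟩ := hT
  obtain rfl : χ0 = χ1 := hd.char_ext 𝔽0 _ _ fun l => by
    by_cases l0 : l = i0
    · rw [l0, hK.1, hK1.1]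
    by_cases l2 : l = i2
    · rw [l2, hK.2.1, hK1.2.1]
    rw [hK.2.2 l l0 l2, hK1.2.2 l l0 l2]
  have h01 : i0 ≠ i1 := fun e => hm.1 (e ▸ rfl)
  have h02 : i0 ≠ i2 := fun e => hm.2.1 (e ▸ rfl)
  have h12 : i1 ≠ i2 := fun e => hm.2.2 (e ▸ rfl)
  have hn : 3 ≤ n := σ'.three_le
  obtain ⟨f, hf, -⟩ := 𝔽.exists_hom 𝔽0 hdiv
  have hc : ∀ l, χ0 (d' (inr (τ l))) = χ0 (d l) ^ 2 ^ c := fun l =>
    hf ((hb (f.comp χ0) l).trans (map_pow f _ _).symm)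
  have hK' : KumLab χ0 (fun l => d' (inr l)) (τ i0) (τ i2) (𝔽0.u ^ 2 ^ c) := by
    refine ⟨(hc i0).trans (by rw [hK.1]), (hc i2).trans (by rw [hK.2.1, inv_pow]),
      fun l l0 l2 => ?_⟩
    obtain ⟨l, rfl⟩ := τ.surjective l
    exact (hc l).trans (by rw [hK.2.2 l (fun e => l0 (e ▸ rfl)) (fun e => l2 (e ▸ rfl)), one_pow])
  obtain ⟨e, he, hge⟩ := hd.exists_isYD 𝔽0 χ0 h02 0 (by rwa [pow_zero, pow_one])
  obtain ⟨e', he', hge'⟩ := hd'.geo.exists_isYD 𝔽0 χ0 (τ.injective.ne h02) c hK'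
  have c1 : Fintype.card (YI (Fin n) 𝔽0.Fˣ i0 i2) = 𝔽0.m * (n - 2) + 2 := by
    rw [card_YI h02, 𝔽0.card_units, Fintype.card_fin]
  have c2 : Fintype.card (YI (Fin n) 𝔽0.Fˣ (τ i0) (τ i2)) = 𝔽0.m * (n - 2) + 2 := by
    rw [card_YI (τ.injective.ne h02), 𝔽0.card_units, Fintype.card_fin]
  have c3 : 0 < 𝔽0.m * (n - 2) := Nat.mul_pos 𝔽0.m_pos (by omega)
  obtain ⟨τY, cY, hY⟩ := exists_transport 𝔽 e e' (c1.trans c2.symm) (by omega) (by rwa [c1]) hge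
    hge' (hR e he)
  obtain ⟨sh', hsh⟩ := exists_shift 𝔽0 𝔽 hn hN h02 d (fun l => d' (inr l)) τ c χ0 hb hrb e he e'
    he' (hR e he) τY cY hY
  have hχ : ∀ y, (χ ^ 2 ^ ((𝔽.r - 1) * cY)) (e' (τY y)) = χ (e y) := fun y => by
    rw [MonoidHom.pow_apply, hY, pow_pow_KRV]
  have hL := tlab_transport_HF1 h01.symm h12 he he' hχ hsh hT
  simp only [← mul_assoc] at hL
  have s1 : ∑ l, nn (τ.symm l) = ∑ l, nn l := Equiv.sum_comp τ.symm nn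
  have s2 : ∑ t, n1 (sh * (sh' i1)⁻¹ * t) = ∑ t, n1 t :=
    Equiv.sum_comp (Equiv.mulLeft (sh * (sh' i1)⁻¹)) n1
  obtain ⟨R, hA, hR'⟩ := hd'
  have H : TUH z' d' R v' (τ i0) (τ i1) (τ i2) 𝔽0 𝔽 c χ0 (χ ^ 2 ^ ((𝔽.r - 1) * cY)) n0
      (fun t => n1 (sh * (sh' i1)⁻¹ * t)) fun l => nn (τ.symm l) := by
    refine ⟨hA, hm, hK', hL, fun l hl => ?_, by rwa [s1], fun t => by rw [s1]; exact hb1 _⟩
    obtain ⟨l, rfl⟩ := τ.surjective l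
    rw [Equiv.symm_apply_apply]
    exact hnn l (hl.imp τ.injective.eq_iff.1 (Or.imp_left τ.injective.eq_iff.1))
  have := 𝔽.charP
  obtain ⟨α, hα, hdet⟩ := H.det_ne_zero hR' σ0 hσ0 w (by rwa [s1, s2])
    (by rwa [h1_pow_two_pow])
  rw [tpoly_reindex_HF1] at hdet
  exact ⟨_, by rw [mul_pow, 𝔽0.theta_pow_m, hα, one_mul], hdet⟩

end Pool.Agent.Adm

end

section

/-! Transport of finitely many polynomial inequations. -/

namespace Pool.Agent.Adm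

theorem exists_FF_HF (M : ℕ) : ∃ 𝔽 : FF, M ≤ 𝔽.r ∧ ∀ k, 0 < k → k ≤ M → k ∣ 𝔽.r := by
  obtain ⟨𝔽, h⟩ := exists_FF M.factorial (Nat.factorial_pos _)
  refine ⟨𝔽, ?_, fun k h0 h1 => ?_⟩
  · rw [h]; exact Nat.self_le_factorial _
  · rw [h]; exact Nat.dvd_factorial h0 h1

theorem Pt.Le.exists_pass {n : ℕ} {σ σ' : Shape n} {z : Pt σ} {z' : Pt σ'} (h : z.Le z')
    {J : Type} [Finite J] (v : J → Fin σ.r) (i0 i1 i2 : J → Fin n) (I : J → Finset (Fin n))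
    (f : J → MvPolynomial (Fin n) K0) :
    ∃ (τ : Fin n ≃ Fin n) (σ0 : K0 →+* K0),
      ∀ j, z.Pass z' τ σ0 (v j) (i0 j) (i1 j) (i2 j) (I j) (f j) := by
  let J' := {j : J // σ.IsMed (v j) (i0 j) (i1 j) (i2 j) ∧
    (∀ l ∈ I j, σ.dir (v j) l ≠ σ.dir (v j) (i2 j)) ∧
    MvPolynomial.eval₂ z.θ
      (fun l => if l ∈ I j then z.crs (v j) (i0 j) (i1 j) (i2 j) l else 0) (f j) ≠ 0}
  have h01 : ∀ j : J', i0 j ≠ i1 j := fun j e => j.2.1.1 (by rw [e])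
  have h02 : ∀ j : J', i0 j ≠ i2 j := fun j e => j.2.1.2.1 (by rw [e])
  choose ρ B hρ hP using fun j : J' => exists_test_poly' (f j) (h01 j) (I j)
  choose 𝔽0 h0 using fun j : J' => exists_FF (ρ j) (hρ j)
  obtain ⟨M, hM⟩ := (Set.finite_range fun j : J' =>
    B j + ρ j + 3 * ((𝔽0 j).m * (n - 2) + 2 + 8)).bddAbove
  have hM' : ∀ j : J', B j + ρ j + 3 * ((𝔽0 j).m * (n - 2) + 2 + 8) ≤ M := fun j => hM ⟨j, rfl⟩
  obtain ⟨𝔽, hle, hdv⟩ := exists_FF_HF (M + 3 * (n + 8) + 1)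
  have hdiv : ∀ j, ρ j ∣ 𝔽.r := fun j => hdv _ (hρ j) (by have := hM' j; omega)
  have hN : ∀ j, (𝔽0 j).m < 𝔽.m := fun j => by
    have h1 : 2 ^ (𝔽0 j).r < 2 ^ 𝔽.r :=
      Nat.pow_lt_pow_right one_lt_two (by have := hM' j; have := h0 j; omega)
    have h2 : 0 < 2 ^ (𝔽0 j).r := by positivity
    unfold FF.m
    omega
  choose n0 n1 nn w q1 q2 q3 q4 q5 q6 using fun j : J' =>
    hP j (𝔽0 j) 𝔽 (h0 j) (hdiv j) (by have := hM' j; omega)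
  obtain ⟨𝔽1, h1⟩ := exists_FF 1 one_pos
  have hn := σ.three_le
  have hab : (⟨0, by omega⟩ : Fin n) ≠ ⟨1, by omega⟩ := by simp
  obtain ⟨G, _, _, d, hd, hJ, hR⟩ := ((Pt.Real.all fun j : J' =>
    (z.real_rich (𝔽0 j) 𝔽 (h02 j)).and (z.real_test (𝔽0 j) 𝔽 j.2.1 (n0 j) (n1 j) (nn j) (w j)
      (fun l hl => q1 j l (hl.imp_right (Or.imp_right fun e hI => j.2.2.1 l hI e)))
      (q2 j) (q3 j) (q4 j) (q5 j)
      ((q6 j z.k z.θ 1 _ (one_pow _) (z.crs_left _ _ _ _) (z.crs_mid j.2.1)).2 j.2.2.2))).and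
    (z.real_rich 𝔽1 𝔽 hab)).adm
  obtain ⟨d', hd'⟩ := h G ⟨d, hd⟩
  have hrb := hR.richG h1
  obtain ⟨τ, c, hτ⟩ := exists_transport 𝔽 (fun l => d (.inr l)) (fun l => d' (.inr l)) rfl
    (by rwa [Fintype.card_fin]) (by rw [Fintype.card_fin]; omega) hd.geo hd'.geo hrb
  obtain ⟨σ0, hσ0⟩ := exists_frob_inv c
  refine ⟨τ, σ0, fun j a1 a2 a3 v' b1 b2 => ?_⟩
  let j' : J' := ⟨j, a1, a2, a3⟩
  obtain ⟨η, hη, hdet⟩ := test_transport z' (fun l => d (.inr l)) hd.geo d' hd' (𝔽0 j') 𝔽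
    (by rw [h0]; exact hdiv j') (hN j') (by have := hM' j'; omega) τ c hτ hrb (hJ j').1 (n0 j') (n1 j')
    (nn j') (w j') (hJ j').2 b1
    (fun l hl => q1 j' l (hl.imp_right (Or.imp_right fun e hI => b2 l hI e)))
    (q2 j') (q3 j') (q5 j') σ0 hσ0
  exact (q6 j' z'.k (z'.θ.comp σ0) η
    (fun l => z'.crs v' (τ (i0 j)) (τ (i1 j)) (τ (i2 j)) (τ l)) hη (z'.crs_left _ _ _ _)
    (z'.crs_mid b1)).1 hdet

end Pool.Agent.Adm

end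

section

/-! A specialisation of fundamental groups gives a specialisation of cross ratios. -/

namespace Pool.Agent.Adm

theorem Pt.Pass.dir_HM {n : ℕ} {σ σ' : Shape n} {z : Pt σ} {z' : Pt σ'} {τ : Fin n ≃ Fin n}
    {s : K0 →+* K0} {v : Fin σ.r} {v' : Fin σ'.r} {j0 j1 j2 l : Fin n}
    (h : z.Pass z' τ s v j0 j1 j2 {l} (MvPolynomial.X l)) (hm : σ.IsMed v j0 j1 j2)
    (hm' : σ'.IsMed v' (τ j0) (τ j1) (τ j2)) (h0 : σ.dir v l ≠ σ.dir v j0)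
    (h2 : σ.dir v l ≠ σ.dir v j2) : σ'.dir v' (τ l) ≠ σ'.dir v' (τ j0) := by
  intro e
  refine h hm (fun l' hl' => by rwa [Finset.mem_singleton.1 hl']) ?_ v' hm'
    (fun l' hl' => by rw [Finset.mem_singleton.1 hl', e]; exact hm'.2.1) ?_
  · rw [MvPolynomial.eval₂_X, if_pos (Finset.mem_singleton_self l), Ne, z.crs_eq_zero_iff hm]
    exact not_or.2 ⟨h0, h2⟩
  · rw [MvPolynomial.eval₂_X, if_pos (Finset.mem_singleton_self l), z'.crs_eq_zero_iff hm']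
    exact Or.inl e

theorem Pt.Le.exists_rel {n : ℕ} {σ σ' : Shape n} {z : Pt σ} {z' : Pt σ'} (h : z.Le z') :
    ∃ (τ : Fin n ≃ Fin n) (θ'' : K0 →+* z'.k), z.Rel (z'.tw θ'') τ := by
  classical
  obtain ⟨τ, s, hP⟩ := exists_forall_of_finite
    (T := Fin σ.r × Fin n × Fin n × Fin n × Finset (Fin n) × MvPolynomial (Fin n) K0)
    (fun (τ : Fin n ≃ Fin n) s t =>
      z.Pass z' τ s t.1 t.2.1 t.2.2.1 t.2.2.2.1 t.2.2.2.2.1 t.2.2.2.2.2)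
    (fun t => ⟨t.2.2.2.2.2.support.image fun d => t.2.2.2.2.2.coeff d,
      fun τ s s' hs hp a1 a2 a3 v' a4 a5 e => hp a1 a2 a3 v' a4 a5 (by
        refine Eq.trans ?_ e
        rw [MvPolynomial.eval₂_eq, MvPolynomial.eval₂_eq]
        refine Finset.sum_congr rfl fun d hd => ?_
        rw [RingHom.comp_apply, RingHom.comp_apply, hs _ (Finset.mem_image_of_mem _ hd)])⟩)
    (fun S => by
      obtain ⟨τ, s, hp⟩ := h.exists_pass (J := S) (fun t => t.1.1) (fun t => t.1.2.1)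
        (fun t => t.1.2.2.1) (fun t => t.1.2.2.2.1) (fun t => t.1.2.2.2.2.1)
        fun t => t.1.2.2.2.2.2
      exact ⟨τ, s, fun t ht => hp ⟨t, ht⟩⟩)
  refine ⟨τ, z'.θ.comp s, fun v v' i0 i1 i2 hm hm' => ?_⟩
  have h1 : ∀ l, σ.dir v l ≠ σ.dir v i2 → σ'.dir v' (τ l) ≠ σ'.dir v' (τ i2) := fun l hl => by
    by_cases h0 : σ.dir v l = σ.dir v i0
    · exact Pt.Pass.dir_HM (hP (v, i2, i0, i1, {l}, MvPolynomial.X l))
        ⟨hm.2.1.symm, hm.2.2.symm, hm.1⟩ ⟨hm'.2.1.symm, hm'.2.2.symm, hm'.1⟩ hl (h0 ▸ hm.1)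
    · exact Pt.Pass.dir_HM (hP (v, i2, i1, i0, {l}, MvPolynomial.X l))
        ⟨hm.2.2.symm, hm.2.1.symm, hm.1.symm⟩ ⟨hm'.2.2.symm, hm'.2.1.symm, hm'.1.symm⟩ hl h0
  refine ⟨h1, fun f hf => ?_⟩
  by_contra hn
  refine hP (v, i0, i1, i2, Finset.univ.filter fun l => σ.dir v l ≠ σ.dir v i2, f) hm
    (fun l hl => (Finset.mem_filter.1 hl).2) (fun e => hn (Eq.trans ?_ e)) v' hm'
    (fun l hl => h1 l (Finset.mem_filter.1 hl).2) (Eq.trans ?_ hf)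
  · congr 1
    funext l
    by_cases hl : σ.dir v l = σ.dir v i2
    · rw [if_neg (by simpa using hl), z.crs_eq_zero_iff hm]
      exact Or.inr hl
    · rw [if_pos (by simpa using hl)]
  · congr 1
    funext l
    by_cases hl : σ.dir v l = σ.dir v i2
    · rw [if_neg (by simpa using hl), if_pos hl]
      rfl
    · rw [if_pos (by simpa using hl), if_neg hl]
      rfl

end Pool.Agent.Adm

end

section

/-! Steps between smooth curves. -/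

namespace Pool.Agent.Adm

variable {n : ℕ} {σ σ0 σ1 : Shape n} {i0 i1 i2 : Fin n}

theorem Pt.not_le_of_td {z : Pt σ} {y : Pt σ0} {e : ℕ} {v : Fin σ.r} (hm : σ.IsMed v i0 i1 i2)
    (h : e < td z.θ (z.crs v i0 i1 i2))
    (h' : ∀ (θ' : K0 →+* y.k) (a : Fin n → y.k), td θ' a ≤ e) : ¬ z.Le y := by
  intro hl
  obtain ⟨τ, θ', hr⟩ := hl.exists_rel
  obtain ⟨h01, h02, h12⟩ := hm.ne
  obtain ⟨v', hv'⟩ := σ0.exists_med (τ.injective.ne h01) (τ.injective.ne h02) (τ.injective.ne h12)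
  exact absurd ((hr v v' i0 i1 i2 hm hv').2.td_le.trans (h' _ _)) (not_le.2 h)

theorem inj_SM2 {z : Pt σ} {y : Pt σ0} {τ : Fin n ≃ Fin n} (hr : z.Rel y τ)
    (hs : IsEmpty σ0.T.Dart) (h0 : ∀ a : Fin n → y.k, td y.θ a ≤ 0) {v : Fin σ.r}
    (hm : σ.IsMed v i0 i1 i2) {l l' : Fin n} (hl : σ.dir v l ≠ σ.dir v i2)
    (e : σ.dir v l = σ.dir v l') : l = l' := by
  obtain ⟨h01, h02, h12⟩ := hm.ne
  obtain ⟨v', hv'⟩ := σ0.exists_med (τ.injective.ne h01) (τ.injective.ne h02) (τ.injective.ne h12)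
  obtain ⟨r1, r2⟩ := hr v v' i0 i1 i2 hm hv'
  have hl' : σ.dir v l' ≠ σ.dir v i2 := e ▸ hl
  have h1 := (r2.symm_of_td_le ((h0 _).trans (Nat.zero_le _))).eq_of_eq
    ((z.crs_eq_iff hm hl hl').2 e)
  simp only [if_neg hl, if_neg hl'] at h1
  have h2 := (y.crs_eq_iff hv' (r1 l hl) (r1 l' hl')).1 h1
  rw [σ0.dir_of_isEmpty hs, σ0.dir_of_isEmpty hs] at h2
  exact τ.injective (Sum.inr_injective h2)

theorem Pt.le_of_bottom {z : Pt σ} {y : Pt σ0} (hs : IsEmpty σ0.T.Dart)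
    (h0 : ∀ (θ' : K0 →+* y.k) (a : Fin n → y.k), td θ' a ≤ 0) (h : z.Le y) : y.Le z := by
  obtain ⟨τ, θ', hr⟩ := h.exists_rel
  obtain ⟨v⟩ := σ.nonempty_vertex
  obtain ⟨j0, j1, j2, hm⟩ := σ.exists_triple v
  have hm' : σ.IsMed v j2 j1 j0 := ⟨hm.2.2.symm, hm.2.1.symm, hm.1.symm⟩
  have hσ : IsEmpty σ.T.Dart := σ.isEmpty_of_injective v fun l l' e => by
    by_cases hl : σ.dir v l = σ.dir v j2
    · exact inj_SM2 hr hs (h0 θ') hm' (hl ▸ hm.2.1.symm) e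
    · exact inj_SM2 hr hs (h0 θ') hm hl e
  obtain ⟨h01, h02, h12⟩ := hm.ne
  obtain ⟨v'⟩ := σ0.nonempty_vertex
  have hk := hr.kerLe_smooth hσ hs v v' h01 h02 h12
  exact (y.le_tw θ').trans (Pt.le_of_smooth hσ hs τ v v' h01 h02 h12
    (hk.symm_of_td_le ((h0 _ _).trans (Nat.zero_le _))))

theorem Pt.between {y1 : Pt σ1} {z : Pt σ} {y0 : Pt σ0} (hs : IsEmpty σ1.T.Dart) {e : ℕ}
    {v : Fin σ1.r} (hm : σ1.IsMed v i0 i1 i2) (h1 : e ≤ td y1.θ (y1.crs v i0 i1 i2))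
    (h0 : ∀ (θ' : K0 →+* y0.k) (a : Fin n → y0.k), td θ' a ≤ e + 1) (ha : y1.Le z)
    (hb : z.Le y0) : z.Le y1 ∨ y0.Le z := by
  obtain ⟨τ, θ', hr⟩ := ha.exists_rel
  obtain ⟨τ', θ'', hr'⟩ := ((z.tw_le θ').trans hb).exists_rel
  have hσ := hr.isEmpty hs
  have hσ0 := hr'.isEmpty hσ
  obtain ⟨h01, h02, h12⟩ := hm.ne
  obtain ⟨v'⟩ := σ.nonempty_vertex
  obtain ⟨v''⟩ := σ0.nonempty_vertex
  have hk := hr.kerLe_smooth hs hσ v v' h01 h02 h12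
  have t01 := τ.injective.ne h01
  have t02 := τ.injective.ne h02
  have t12 := τ.injective.ne h12
  have hk' := hr'.kerLe_smooth hσ hσ0 v' v'' t01 t02 t12
  by_cases hc : td (z.tw θ').θ (fun l => (z.tw θ').crs v' (τ i0) (τ i1) (τ i2) (τ l)) ≤ e
  · exact Or.inl ((z.le_tw θ').trans
      (Pt.le_of_smooth hs hσ τ v v' h01 h02 h12 (hk.symm_of_td_le (hc.trans h1))))
  · have h2 := ((hk'.comp τ).symm_of_td_le ((h0 _ _).trans (not_le.1 hc))).comp τ.symm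
    simp only [Equiv.apply_symm_apply] at h2
    exact Or.inr ((y0.le_tw θ'').trans
      ((Pt.le_of_smooth hσ hσ0 τ' v' v'' t01 t02 t12 h2).trans (z.tw_le θ')))

end Pool.Agent.Adm

end

section

/-! A saturated chain of smooth curves. -/

namespace Pool.Agent.Adm

theorem exists_consts_CH (e : ℕ) :
    ∃ c : Fin e → K0, Function.Injective c ∧ (∀ i, c i ≠ 0) ∧ ∀ i, c i ≠ 1 := by
  have h : ({0, 1}ᶜ : Set K0).Infinite := (Set.toFinite _).infinite_compl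
  refine ⟨fun i => h.natEmbedding _ i, fun i j e =>
    Fin.ext ((h.natEmbedding _).injective (Subtype.ext e)), fun i e => ?_, fun i e => ?_⟩
  · exact (h.natEmbedding _ i).2 (Or.inl e)
  · exact (h.natEmbedding _ i).2 (Or.inr e)

theorem exists_index_CH {e : ℕ} (l : Fin (e + 3)) (h0 : l ≠ 0) (h1 : l ≠ 1) (h2 : l ≠ 2) :
    ∃ i : Fin e, i.succ.succ.succ = l := by
  obtain ⟨l, rfl⟩ := Fin.exists_succ_eq.2 h0
  obtain ⟨l, rfl⟩ := Fin.exists_succ_eq.2 fun h : l = 0 => h1 (by rw [h]; rfl)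
  obtain ⟨l, rfl⟩ := Fin.exists_succ_eq.2 fun h : l = 0 => h2 (by rw [h]; rfl)
  exact ⟨l, rfl⟩

theorem exists_smooth_chain (e : ℕ) :
    ∃ y : Fin (e + 1) → StableCurve 2 (e + 3), (∀ X, QLe X (y 0)) ∧
      (∀ i : Fin e, QLe (y i.succ) (y i.castSucc) ∧ ¬ QLe (y i.castSucc) (y i.succ) ∧
        ∀ X, QLe X (y i.castSucc) → QLe (y i.succ) X →
          QLe (y i.castSucc) X ∨ QLe X (y i.succ)) ∧
      ∀ X, QLe X (y (Fin.last e)) → QLe (y (Fin.last e)) X := by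
  obtain ⟨σ, hs⟩ := Shape.exists_smooth (n := e + 3) (by omega)
  obtain ⟨v⟩ := σ.nonempty_vertex
  obtain ⟨c, c0, c1, c2⟩ := exists_consts_CH e
  choose y y1 y2 y3 using fun j : Fin (e + 1) =>
    exists_pt_td hs v c c0 c1 c2 (e - j) (Nat.sub_le _ _)
  have h01 : (0 : Fin (e + 3)) ≠ 1 := by simp
  have h02 : (0 : Fin (e + 3)) ≠ 2 := fun h =>
    absurd (show (0 : ℕ) = 2 from congrArg Fin.val h) (by decide)
  have h12 : (1 : Fin (e + 3)) ≠ 2 := fun h =>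
    absurd (show (1 : ℕ) = 2 from congrArg Fin.val h) (by decide)
  have hm := Shape.isMed_smooth hs v h01 h02 h12
  have ht : ∀ j : Fin (e + 1), e - j ≤ td (y j).θ ((y j).crs v 0 1 2) := fun j =>
    le_td_of_indep _ _ (Nat.sub_le _ _) (y2 j)
  refine ⟨fun j => (y j).curve, fun X => ?_, fun i => ⟨?_, ?_, fun X ha hb => ?_⟩,
    fun X h => ?_⟩
  · obtain ⟨σ', z, -, a, -⟩ := X.exists_pt'
    refine a.trans ((Pt.qle_iff _ _).2 ((y 0).le_top hs v h01 h02 h12 ?_ z))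
    choose f hf using fun l : {l : Fin (e + 3) // l ≠ 0 ∧ l ≠ 1 ∧ l ≠ 2} =>
      exists_index_CH l.1 l.2.1 l.2.2.1 l.2.2.2
    have h := (y2 0).comp (fun l => ⟨f l, (f l).2⟩) fun l l' h =>
      Subtype.ext (by rw [← hf, ← hf, show f l = f l' from congrArg Subtype.val h])
    simpa only [Function.comp_def, hf] using h
  · exact (Pt.qle_iff _ _).2 (le_of_indep hs v c (by simp; omega) (y2 _) (y3 _) (y3 _))
  · refine fun h => Pt.not_le_of_td hm (lt_of_lt_of_le ?_ (ht _)) (y1 _) ((Pt.qle_iff _ _).1 h)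
    have := i.2
    simp only [Fin.val_succ, Fin.val_castSucc]
    omega
  · obtain ⟨σ', z, -, a, b⟩ := X.exists_pt'
    have h := Pt.between hs hm (ht i.succ) (fun θ' a => (y1 i.castSucc θ' a).trans (by
      simp only [Fin.val_succ, Fin.val_castSucc]
      omega)) ((Pt.qle_iff _ _).1 (hb.trans a)) ((Pt.qle_iff _ _).1 (b.trans ha))
    exact h.symm.imp (fun h => ((Pt.qle_iff _ _).2 h).trans b)
      fun h => a.trans ((Pt.qle_iff _ _).2 h)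
  · obtain ⟨σ', z, -, -, b⟩ := X.exists_pt'
    refine ((Pt.qle_iff _ _).2 (Pt.le_of_bottom hs (fun θ' a => ?_)
      ((Pt.qle_iff _ _).1 (b.trans h)))).trans b
    simpa using y1 (Fin.last e) θ' a

end Pool.Agent.Adm

end

section

/-! Composition of specialisations of cross ratios, and rigidity. -/

namespace Pool.Agent.Adm

variable {n : ℕ} {σ σ' σ'' : Shape n}

theorem Pt.Rel.trans {z : Pt σ} {z' : Pt σ'} {z'' : Pt σ''} {τ τ' : Fin n ≃ Fin n}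
    (h : z.Rel z' τ) (h' : z'.Rel z'' τ') : z.Rel z'' (τ.trans τ') := by
  intro v v'' i0 i1 i2 hm hm''
  obtain ⟨h01, h02, h12⟩ := hm.ne
  obtain ⟨v', hm'⟩ := σ'.exists_med (τ.injective.ne h01) (τ.injective.ne h02) (τ.injective.ne h12)
  obtain ⟨h1, k1⟩ := h v v' i0 i1 i2 hm hm'
  obtain ⟨h2, k2⟩ := h' v' v'' (τ i0) (τ i1) (τ i2) hm' hm''
  refine ⟨fun l hl => h2 (τ l) (h1 l hl), KerLe.trans ?_ k1⟩
  have k3 := (k2.comp τ).trunc fun l => σ.dir v l = σ.dir v i2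
  convert k3 using 2 with l
  split_ifs with a b
  · rfl
  · exact absurd b (h1 l a)
  · rfl

theorem Pt.le_of_kerLe_crs {z z' : Pt σ} (h : ∀ v i0 i1 i2, σ.IsMed v i0 i1 i2 →
    KerLe z'.θ (z'.crs v i0 i1 i2) z.θ (z.crs v i0 i1 i2)) : z.Le z' := by
  rintro G _ _ ⟨d, R, ⟨hR, hd⟩, htop⟩
  refine ⟨d, R, ⟨fun v => ?_, hd⟩, htop⟩
  obtain ⟨i0, i1, i2, hm⟩ := σ.exists_triple v
  have hl : ∀ s : σ.Sl v, ∃ l, σ.dir v l = s := fun s => by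
    obtain ⟨l, hl⟩ := σ.exists_dir s.1
    exact ⟨l, by rwa [s.2] at hl⟩
  choose l hl using hl
  have hinj : ∀ y : Pt σ, Function.Injective fun s : σ.Sl v => y.x s := fun y s s' e =>
    Subtype.ext (y.inj _ _ (s.2.trans s'.2.symm) e)
  refine VC.gen_cr (hinj z) (hinj z') (s0 := ⟨σ.dir v i0, σ.base_dir v i0⟩)
    (s1 := ⟨σ.dir v i1, σ.base_dir v i1⟩) (s2 := ⟨σ.dir v i2, σ.base_dir v i2⟩)
    (fun e => hm.1 (congrArg Subtype.val e)) (fun e => hm.2.1 (congrArg Subtype.val e))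
    (fun e => hm.2.2 (congrArg Subtype.val e)) ?_ (hR v)
  have k := (h v i0 i1 i2 hm).comp l
  simpa only [Pt.crs, hl] using k

theorem Pt.psi_le (z : Pt σ) : z.psi ≤ n ^ 5 := by
  classical
  have hr : σ.r ≤ n := (Nat.le_add_right _ 2).trans σ.r_add_two_le
  unfold Pt.psi
  refine (Finset.sum_le_card_nsmul _ _ n fun T _ => ?_).trans ?_
  · simpa using td_le_card z.θ (z.crs T.1 T.2.1 T.2.2.1 T.2.2.2)
  · rw [smul_eq_mul]
    refine (Nat.mul_le_mul_right n (Finset.card_le_univ _)).trans ?_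
    simp only [Fintype.card_prod, Fintype.card_fin]
    calc σ.r * (n * (n * n)) * n ≤ n * (n * (n * n)) * n := by gcongr
      _ = n ^ 5 := by ring

theorem Pt.Rel.kerLe_RG {z z' : Pt σ} (h : z.Rel z' (Equiv.refl _)) {v : Fin σ.r}
    {i0 i1 i2 : Fin n} (hm : σ.IsMed v i0 i1 i2) :
    KerLe z'.θ (z'.crs v i0 i1 i2) z.θ (z.crs v i0 i1 i2) := by
  have k := (h v v i0 i1 i2 hm hm).2
  convert k using 2 with l
  split_ifs with a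
  · exact (z'.crs_eq_zero_iff hm l).2 (Or.inr a)
  · rfl

theorem Pt.Rel.le_of_psi {z z' : Pt σ} (h : z.Rel z' (Equiv.refl _)) (hψ : z'.psi ≤ z.psi) :
    z'.Le z := by
  classical
  refine Pt.le_of_kerLe_crs fun v i0 i1 i2 hm => (h.kerLe_RG hm).symm_of_td_le ?_
  by_contra hlt
  refine absurd hψ (not_le.2 ?_)
  unfold Pt.psi
  refine Finset.sum_lt_sum (fun T hT => (h.kerLe_RG (Finset.mem_filter.1 hT).2).td_le)
    ⟨(v, i0, i1, i2), Finset.mem_filter.2 ⟨Finset.mem_univ _, hm⟩, not_le.1 hlt⟩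

end Pool.Agent.Adm

end

section

/-! Chains of specialisations have bounded length. -/

namespace Pool.Agent.Adm

theorem back_BD {n : ℕ} (w w' : Σ σ : Shape n, Pt σ) (e : w.1 = w'.1) (hψ : w.2.psi = w'.2.psi)
    (h : w.2.Rel w'.2 (Equiv.refl _)) : QLe w'.2.curve w.2.curve := by
  obtain ⟨σ, z⟩ := w
  obtain ⟨σ', z'⟩ := w'
  obtain rfl : σ = σ' := e
  exact (Pt.qle_iff _ _).2 (h.le_of_psi hψ.ge)

theorem seq_BD {n : ℕ} (y : ℕ → StableCurve 2 n) (hy : ∀ i, QLe (y i) (y (i + 1))) :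
    ∃ (w : ℕ → Σ σ : Shape n, Pt σ) (T : ℕ → Fin n ≃ Fin n),
      (∀ i, QLe (y i) (w i).2.curve ∧ QLe (w i).2.curve (y i)) ∧
      ∀ i j, i < j → (w i).2.Rel (w j).2 ((T i).symm.trans (T j)) := by
  have step : ∀ (i : ℕ)
      (w : {w : Σ σ : Shape n, Pt σ // QLe (y i) w.2.curve ∧ QLe w.2.curve (y i)}),
      ∃ (w' : {w : Σ σ : Shape n, Pt σ // QLe (y (i + 1)) w.2.curve ∧ QLe w.2.curve (y (i + 1))})
        (τ : Fin n ≃ Fin n), w.1.2.Rel w'.1.2 τ := by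
    intro i w
    obtain ⟨σ', z', -, a, b⟩ := (y (i + 1)).exists_pt'
    obtain ⟨τ, θ'', hr⟩ := ((Pt.qle_iff _ _).1 (w.2.2.trans ((hy i).trans a))).exists_rel
    exact ⟨⟨⟨σ', z'.tw θ''⟩, a, b⟩, τ, hr⟩
  choose f τ hf using step
  obtain ⟨σ0, z0, -, a, b⟩ := (y 0).exists_pt'
  let w : ∀ i, {w : Σ σ : Shape n, Pt σ // QLe (y i) w.2.curve ∧ QLe w.2.curve (y i)} :=
    fun i => Nat.rec ⟨⟨σ0, z0⟩, a, b⟩ f i
  let T : ℕ → Fin n ≃ Fin n := fun i => Nat.rec (Equiv.refl _) (fun i t => t.trans (τ i (w i))) i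
  have hT : ∀ i, T (i + 1) = (T i).trans (τ i (w i)) := fun _ => rfl
  have hw : ∀ i, (w i).1.2.Rel (w (i + 1)).1.2 (τ i (w i)) := fun i => hf i (w i)
  refine ⟨fun i => (w i).1, T, fun i => (w i).2, fun i j hij => ?_⟩
  induction j, hij using Nat.le_induction with
  | base =>
    rw [hT, ← Equiv.trans_assoc, Equiv.symm_trans_self, Equiv.refl_trans]
    exact hw i
  | succ j _ ih =>
    rw [hT, ← Equiv.trans_assoc]
    exact ih.trans (hw j)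

theorem exists_chain_bound (n : ℕ) :
    ∃ B : ℕ, ∀ (r : ℕ) (x : Fin (r + 1) → StableCurve 2 n),
      (∀ i : Fin r, QLe (x i.castSucc) (x i.succ)) →
      (∀ i : Fin r, ¬ QLe (x i.succ) (x i.castSucc)) → r ≤ B := by
  classical
  have := Shape.finite_shape n
  have := Fintype.ofFinite (Shape n)
  refine ⟨Fintype.card (Shape n × (Fin n ≃ Fin n) × Fin (n ^ 5 + 1)), fun r x h h' => ?_⟩
  by_contra hr
  let y : ℕ → StableCurve 2 n := fun i => x ⟨min i r, Nat.lt_succ_of_le (min_le_right _ _)⟩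
  have e1 : ∀ i (hi : i < r), y i = x (Fin.castSucc ⟨i, hi⟩) := fun i hi =>
    congrArg x (Fin.ext (min_eq_left hi.le))
  have e2 : ∀ i (hi : i < r), y (i + 1) = x (Fin.succ ⟨i, hi⟩) := fun i hi =>
    congrArg x (Fin.ext (min_eq_left hi))
  have hy : ∀ i, QLe (y i) (y (i + 1)) := fun i => by
    rcases lt_or_ge i r with hi | hi
    · rw [e1 i hi, e2 i hi]
      exact h _
    · have : y (i + 1) = y i := congrArg x (Fin.ext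
        ((min_eq_right (hi.trans (Nat.le_succ i))).trans (min_eq_right hi).symm))
      rw [this]
      exact QLe.refl _
  have hy' : ∀ i j, i ≤ j → QLe (y i) (y j) := fun i j hij => by
    induction j, hij using Nat.le_induction with
    | base => exact QLe.refl _
    | succ j _ ih => exact ih.trans (hy j)
  obtain ⟨w, T, hw, hrel⟩ := seq_BD y hy
  have key : ∀ i j : Fin r, i < j → (w i).1 = (w j).1 → T i = T j → (w i).2.psi = (w j).2.psi →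
      False := fun i j hij a b c => by
    have := hrel i j hij
    rw [b, Equiv.symm_trans_self] at this
    have h1 := (hy' (i + 1) j hij).trans ((hw j).1.trans ((back_BD _ _ a c this).trans (hw i).2))
    rw [e1 i i.2, e2 i i.2] at h1
    exact h' i h1
  obtain ⟨i, j, hij, e⟩ := Fintype.exists_ne_map_eq_of_card_lt
    (fun i : Fin r => (((w i).1, T i, ⟨(w i).2.psi, Nat.lt_succ_of_le (Pt.psi_le _)⟩) :
      Shape n × (Fin n ≃ Fin n) × Fin (n ^ 5 + 1)))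
    (by rw [Fintype.card_fin]; exact not_le.1 hr)
  simp only [Prod.mk.injEq, Fin.mk.injEq] at e
  rcases lt_or_gt_of_ne hij with hlt | hlt
  · exact key i j hlt e.1 e.2.1 e.2.2
  · exact key j i hlt e.1.symm e.2.1.symm e.2.2.symm

end Pool.Agent.Adm

end

section

/-! Two maximal chains of different lengths. -/

namespace Pool.Agent.Adm

theorem cls_surjective {p n : ℕ} (x : PiBar p n) : ∃ X, clsStrict X = x :=
  Quot.exists_rep x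

theorem exists_series_bound (n : ℕ) : ∃ B : ℕ,
    ∀ s : LTSeries (TopologicalSpace.IrreducibleCloseds (PiBar 2 n)), s.length ≤ B := by
  obtain ⟨B, hB⟩ := exists_chain_bound n
  refine ⟨B, fun s => ?_⟩
  have h : ∀ i, ∃ X : StableCurve 2 n, (s i : Set (PiBar 2 n)) = closure {clsStrict X} := by
    intro i
    obtain ⟨x, hx⟩ := exists_generic (s i : Set (PiBar 2 n)) (s i).isIrreducible (s i).isClosed
    obtain ⟨X, rfl⟩ := cls_surjective x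
    exact ⟨X, hx⟩
  choose x hx using h
  have hle : ∀ i j, s i ≤ s j ↔ QLe (x i) (x j) := by
    intro i j
    rw [← specializes_iff_Strict, specializes_iff_closure_subset, ← hx, ← hx]
    rfl
  exact hB s.length x (fun i => (hle _ _).1 (s.step i).le)
    fun i h => (s.step i).not_ge ((hle _ _).2 h)

theorem exists_smooth_maxChain (e : ℕ) :
    ∃ V : Fin (e + 1) → Set (PiBar 2 (e + 3)), IsMaxChain V := by
  obtain ⟨y, h0, h1, h2⟩ := exists_smooth_chain e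
  refine ⟨_, isMaxChain_of_points exists_generic (fun i => clsStrict (y i)) ?_ ?_ ?_⟩
  · intro x
    obtain ⟨X, rfl⟩ := cls_surjective x
    exact (specializes_iff_Strict _ _).2 (h0 X)
  · intro i
    refine ⟨(specializes_iff_Strict _ _).2 (h1 i).1,
      fun h => (h1 i).2.1 ((specializes_iff_Strict _ _).1 h), fun x => ?_⟩
    obtain ⟨X, rfl⟩ := cls_surjective x
    simp only [specializes_iff_Strict]
    exact (h1 i).2.2 X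
  · intro x
    obtain ⟨X, rfl⟩ := cls_surjective x
    simp only [specializes_iff_Strict]
    exact h2 X

theorem exists_two_maxChains :
    ∃ m, 4 < m ∧ (∃ V : Fin (4 + 1) → Set (PiBar 2 7), IsMaxChain V) ∧
      ∃ V : Fin (m + 1) → Set (PiBar 2 7), IsMaxChain V := by
  obtain ⟨V, hV⟩ := exists_smooth_maxChain 4
  obtain ⟨B, hB⟩ := exists_series_bound 7
  have hu : IsIrreducible (Set.univ : Set (PiBar 2 7)) := hV.2.1 ▸ (hV.1 0).1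
  obtain ⟨m, hm, W, hW⟩ := exists_isMaxChain hu B hB 5 (five_le_krullDim 2 Nat.prime_two)
  exact ⟨m, hm, ⟨V, hV⟩, W, hW⟩

end Pool.Agent.Adm

end

section

/-! Maximal chains of different lengths in the general description of the space. -/

namespace Pool.Agent.AdmG

open Pool.Agent.Adm (IsMaxChain)

theorem isMaxChain_preimage {X Y : Type*} [TopologicalSpace X] [TopologicalSpace Y] (e : X ≃ₜ Y)
    {m : ℕ} {V : Fin (m + 1) → Set Y} (h : IsMaxChain V) : IsMaxChain fun i => e ⁻¹' V i := by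
  obtain ⟨h1, h2, h3, h4⟩ := h
  refine ⟨fun i => ⟨?_, (h1 i).2.preimage e.continuous⟩, ?_, fun i j hij => ?_,
    fun W w1 w2 w3 => ?_⟩
  · rw [← e.image_symm]
    exact (h1 i).1.image _ e.symm.continuous.continuousOn
  · simp only [h2, Set.preimage_univ]
  · exact ⟨Set.preimage_mono (h3 hij).1,
      fun h => (h3 hij).2 (e.surjective.preimage_subset_preimage_iff.1 h)⟩
  · obtain ⟨i, hi⟩ := h4 (e '' W) (w1.image _ e.continuous.continuousOn) (e.isClosedMap _ w2)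
      fun i => (w3 i).imp (fun h => Set.image_subset_iff.2 h) fun h y hy =>
        ⟨e.symm y, h (by simpa using hy), e.apply_symm_apply y⟩
    exact ⟨i, by simp only [hi, e.injective.preimage_image]⟩

theorem exists_short (n : ℕ) (hn : 3 ≤ n) :
    ∃ V : Fin (n - 3 + 1) → Set (PiBar 2 0 n), IsMaxChain V := by
  obtain ⟨e, rfl⟩ : ∃ e, n = e + 3 := ⟨n - 3, by omega⟩
  obtain ⟨h⟩ := nonempty_homeomorph 2 (e + 3)
  obtain ⟨V, hV⟩ := Pool.Agent.Adm.exists_smooth_maxChain e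
  exact ⟨_, isMaxChain_preimage h hV⟩

theorem exists_long (n : ℕ) (hn : 3 ≤ n) (r : ℕ)
    (hr : (r : WithBot ℕ∞) ≤ topologicalKrullDim (PiBar 2 0 n)) :
    ∃ m, r ≤ m ∧ ∃ V : Fin (m + 1) → Set (PiBar 2 0 n), IsMaxChain V := by
  obtain ⟨e, rfl⟩ : ∃ e, n = e + 3 := ⟨n - 3, by omega⟩
  obtain ⟨h⟩ := nonempty_homeomorph 2 (e + 3)
  obtain ⟨V, hV⟩ := Pool.Agent.Adm.exists_smooth_maxChain e
  obtain ⟨B, hB⟩ := Pool.Agent.Adm.exists_series_bound (e + 3)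
  rw [h.isHomeomorph.topologicalKrullDim_eq] at hr
  obtain ⟨m, hm, W, hW⟩ := Pool.Agent.Adm.exists_isMaxChain (hV.2.1 ▸ (hV.1 0).1) B hB r hr
  exact ⟨m, hm, _, isMaxChain_preimage h hW⟩

theorem exists_two (n : ℕ) (hn : 7 ≤ n) :
    (∃ V : Fin (n - 3 + 1) → Set (PiBar 2 0 n), IsMaxChain V) ∧
      ∃ m, n - 3 < m ∧ n * (Nat.log 2 (n - 1) - 2) / 2 ≤ m ∧
        ∃ V : Fin (m + 1) → Set (PiBar 2 0 n), IsMaxChain V := by
  refine ⟨exists_short n (by omega), ?_⟩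
  obtain ⟨h1, h2, -⟩ := main 2 Nat.prime_two 0 n (by omega)
  rw [zero_add] at h1 h2
  rcases le_total (n - 2) (n * (Nat.log 2 (n - 1) - 2) / 2) with h3 | h3
  · obtain ⟨m, hm, h⟩ := exists_long n (by omega) _ h2
    exact ⟨m, by omega, hm, h⟩
  · obtain ⟨m, hm, h⟩ := exists_long n (by omega) _ h1
    exact ⟨m, by omega, by omega, h⟩

theorem not_Q1 : ¬ ∀ p g n : ℕ, p.Prime → 2 < 2 * g + n →
    ∀ (m₁ m₂ : ℕ) (V₁ : Fin (m₁ + 1) → Set (PiBar p g n)) (V₂ : Fin (m₂ + 1) → Set (PiBar p g n)),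
      IsMaxChain V₁ → IsMaxChain V₂ → m₁ = m₂ := by
  intro h
  obtain ⟨⟨V, hV⟩, m, hm, -, W, hW⟩ := exists_two 7 le_rfl
  exact hm.ne (h 2 0 7 Nat.prime_two (by norm_num) _ _ V W hV hW)

end Pool.Agent.AdmG

end
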